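import Mathlib
import Pool.Agent.H469R2.NK.KL

/-!
Definitions for the Hardy-Littlewood formula for almost all `c ≤ C`, `x^(1-δ) ≤ C ≤ x` (helper792).
-/

set_option autoImplicit false

namespace Pool.Agent.N792

open Finset
open Pool.Agent.H469R2.NK (e)

/-- the triangle function of half width `δ` on the circle -/
noncomputable def tri (δ θ : ℝ) : ℝ := max 0 (1 - |θ - round θ| / δ)

/-- `N` has no prime factor `≤ z` -/
def Rough (z N : ℕ) : Prop := N ≠ 0 ∧ ∀ p : ℕ, p.Prime → p ∣ N → z < p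

open Classical in
/-- the indicator function of the `z`-rough numbers -/
noncomputable def rg (z N : ℕ) : ℝ := if Rough z N then 1 else 0

/-- the value of the polynomial -/
def fv (a b c : ℤ) (n : ℕ) : ℤ := a * (n : ℤ) ^ 2 + b * n + c

/-- the number of the roots of the polynomial modulo `m` -/
def rho (a b c : ℤ) (m : ℕ) : ℕ := #((range m).filter (fun r : ℕ => (m : ℤ) ∣ fv a b c r))

/-- the product of `1 - ρ(p) / p` over the primes `p ≤ z` -/
noncomputable def Vc (a b c : ℤ) (z : ℕ) : ℝ :=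
  ∏ p ∈ (Icc 1 z).filter Nat.Prime, (1 - (rho a b c p : ℝ) / p)

/-- the product of `1 - 1 / p` over the primes `p ≤ z` -/
noncomputable def V1 (z : ℕ) : ℝ := ∏ p ∈ (Icc 1 z).filter Nat.Prime, (1 - 1 / (p : ℝ))

/-- the product of `1 - 1 / p` over the primes `p ≤ z` which do not divide `q` -/
noncomputable def V1q (q z : ℕ) : ℝ :=
  ∏ p ∈ (Icc 1 z).filter (fun p => p.Prime ∧ ¬ p ∣ q), (1 - 1 / (p : ℝ))

/-- the sum of `μ(d)` over the divisors `d > U` of `k` -/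
noncomputable def gam (U k : ℕ) : ℝ :=
  ∑ d ∈ k.divisors.filter (fun d => U < d), (ArithmeticFunction.moebius d : ℝ)

/-- the triple `(a, b, c)` is admissible -/
def Admissible (a b c : ℤ) : Prop :=
  0 < a ∧ (∀ d : ℤ, d ∣ a → d ∣ b → d ∣ c → IsUnit d) ∧ ¬ ((2 : ℤ) ∣ a + b ∧ (2 : ℤ) ∣ c) ∧
    ¬ IsSquare (b ^ 2 - 4 * a * c)

/-- `ε = 2` if `a + b` is even and `ε = 1` if `a + b` is odd -/
noncomputable def eps (a b : ℤ) : ℝ := if (2 : ℤ) ∣ a + b then 2 else 1

/-- the product `∏_{p > 2, p ∣ gcd(a, b)} p / (p - 1)` -/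
noncomputable def gcdProd (a b : ℤ) : ℝ :=
  ∏ p ∈ (Int.gcd a b).primeFactors.filter (fun p => 2 < p), (p : ℝ) / (p - 1)

/-- the product `∏_{2 < p ≤ z, p ∤ a} (1 - (D / p) / (p - 1))`, where `D = b² - 4 a c` -/
noncomputable def partialC (a b c : ℤ) (z : ℕ) : ℝ :=
  ∏ p ∈ (Icc 3 z).filter (fun p : ℕ => p.Prime ∧ ¬ (p : ℤ) ∣ a),
    (1 - (jacobiSym (b ^ 2 - 4 * a * c) p : ℝ) / (p - 1))

end Pool.Agent.N792
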