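import Mathlib
import Pool.Agent.N792.Defs
import Pool.Agent.H373R2.T4.DLS

set_option autoImplicit false
set_option maxHeartbeats 4000000

namespace Pool.Agent.N792
open Finset Filter Topology
open Pool.Agent.H469R2.NK (e norm_e e_add e_zero)

lemma bs_inj_gt (T : Finset ℕ) (s q M : ℕ) (hq : 0 < q) (G : ℕ → ℝ) (hG : ∀ m, 0 ≤ G m)
    (h1 : ∀ s' ∈ T, s < s') (h2 : ∀ s' ∈ T, s ≡ s' [MOD q]) (h3 : ∀ s' ∈ T, (s' - s) / q ≤ M) :
    ∑ s' ∈ T, G ((s' - s) / q) ≤ ∑ m ∈ Icc 1 M, G m := by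
  have hinj : Set.InjOn (fun s' => (s' - s) / q) (T : Set ℕ) := by
    intro a ha b hb hab
    have ha' := h1 a ha
    have hb' := h1 b hb
    have da := (Nat.modEq_iff_dvd' ha'.le).1 (h2 a ha)
    have db := (Nat.modEq_iff_dvd' hb'.le).1 (h2 b hb)
    simp only at hab
    have e1 := Nat.div_mul_cancel da
    have e2 := Nat.div_mul_cancel db
    rw [hab] at e1
    omega
  rw [← Finset.sum_image (f := G) hinj]
  apply Finset.sum_le_sum_of_subset_of_nonneg
  · intro m hm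
    obtain ⟨a, ha, rfl⟩ := Finset.mem_image.1 hm
    rw [mem_Icc]
    refine ⟨?_, h3 a ha⟩
    have ha' := h1 a ha
    have da := (Nat.modEq_iff_dvd' ha'.le).1 (h2 a ha)
    exact Nat.div_pos (Nat.le_of_dvd (by omega) da) hq
  · intro m _ _; exact hG m

lemma bs_inj_lt (T : Finset ℕ) (s q M : ℕ) (hq : 0 < q) (G : ℕ → ℝ) (hG : ∀ m, 0 ≤ G m)
    (h1 : ∀ s' ∈ T, s' < s) (h2 : ∀ s' ∈ T, s ≡ s' [MOD q]) (h3 : ∀ s' ∈ T, (s - s') / q ≤ M) :
    ∑ s' ∈ T, G ((s - s') / q) ≤ ∑ m ∈ Icc 1 M, G m := by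
  have hinj : Set.InjOn (fun s' => (s - s') / q) (T : Set ℕ) := by
    intro a ha b hb hab
    have ha' := h1 a ha
    have hb' := h1 b hb
    have da := (Nat.modEq_iff_dvd' ha'.le).1 (h2 a ha).symm
    have db := (Nat.modEq_iff_dvd' hb'.le).1 (h2 b hb).symm
    simp only at hab
    have e1 := Nat.div_mul_cancel da
    have e2 := Nat.div_mul_cancel db
    rw [hab] at e1
    omega
  rw [← Finset.sum_image (f := G) hinj]
  apply Finset.sum_le_sum_of_subset_of_nonneg
  · intro m hm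
    obtain ⟨a, ha, rfl⟩ := Finset.mem_image.1 hm
    rw [mem_Icc]
    refine ⟨?_, h3 a ha⟩
    have ha' := h1 a ha
    have da := (Nat.modEq_iff_dvd' ha'.le).1 (h2 a ha).symm
    exact Nat.div_pos (Nat.le_of_dvd (by omega) da) hq
  · intro m _ _; exact hG m

lemma bs_two_sided (T : Finset ℕ) (s q M : ℕ) (hq : 0 < q) (G f : ℕ → ℝ) (g0 : ℝ) (hg0 : 0 ≤ g0)
    (hG : ∀ m, 0 ≤ G m) (h2 : ∀ s' ∈ T, s ≡ s' [MOD q]) (h3 : ∀ s' ∈ T, (s' - s) / q ≤ M)
    (h4 : ∀ s' ∈ T, (s - s') / q ≤ M) (f0 : s ∈ T → f s ≤ g0)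
    (f1 : ∀ s' ∈ T, s < s' → f s' ≤ G ((s' - s) / q))
    (f2 : ∀ s' ∈ T, s' < s → f s' ≤ G ((s - s') / q)) :
    ∑ s' ∈ T, f s' ≤ g0 + 2 * ∑ m ∈ Icc 1 M, G m := by
  classical
  have e1 := bs_inj_gt (T.filter (fun s' => s < s')) s q M hq G hG (fun s' hs' => (mem_filter.1 hs').2)
    (fun s' hs' => h2 s' (mem_filter.1 hs').1) (fun s' hs' => h3 s' (mem_filter.1 hs').1)
  have e2 := bs_inj_lt (T.filter (fun s' => s' < s)) s q M hq G hG (fun s' hs' => (mem_filter.1 hs').2)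
    (fun s' hs' => h2 s' (mem_filter.1 hs').1) (fun s' hs' => h4 s' (mem_filter.1 hs').1)
  have e3 : ∑ s' ∈ T, f s' ≤ g0 + ∑ s' ∈ T.filter (fun s' => s < s'), G ((s' - s) / q) +
      ∑ s' ∈ T.filter (fun s' => s' < s), G ((s - s') / q) := by
    have h5 : ∀ s' ∈ T, f s' ≤ (if s' = s then g0 else 0) + (if s < s' then G ((s' - s) / q) else 0) +
        (if s' < s then G ((s - s') / q) else 0) := by
      intro s' hs'
      rcases lt_trichotomy s' s with h | h | h
      · have a1 : ¬ s' = s := by omega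
        have a2 : ¬ s < s' := by omega
        simp only [a1, a2, h, if_true, if_false]
        linarith [f2 s' hs' h]
      · subst h
        simp only [lt_irrefl, if_true, if_false]
        linarith [f0 hs']
      · have a1 : ¬ s' = s := by omega
        have a2 : ¬ s' < s := by omega
        simp only [a1, a2, h, if_true, if_false]
        linarith [f1 s' hs' h]
    refine (Finset.sum_le_sum h5).trans ?_
    rw [Finset.sum_add_distrib, Finset.sum_add_distrib, Finset.sum_filter, Finset.sum_filter]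
    have h6 : ∑ i ∈ T, (if i = s then g0 else 0) ≤ g0 := by
      rw [Finset.sum_ite_eq']
      split_ifs
      · exact le_rfl
      · exact hg0
    linarith
  linarith

lemma bs_tail (a b : ℝ) (ha : 0 < a) (hb : 0 < b) (M : ℕ) :
    ∑ m ∈ Icc 1 M, 4 * a ^ 2 * b ^ 2 / (b + a * m) ^ 2 ≤ 4 * (a * b) := by
  have key : ∀ M : ℕ, ∑ m ∈ Icc 1 M, 4 * a ^ 2 * b ^ 2 / (b + a * m) ^ 2 ≤
      4 * (a * b) - 4 * (a * b ^ 2 / (b + a * M)) := by
    intro M
    induction M with
    | zero => simp; field_simp; linarith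
    | succ M ih =>
      rw [Finset.sum_Icc_succ_top (by omega)]
      have h1 : 4 * a ^ 2 * b ^ 2 / (b + a * ((M + 1 : ℕ) : ℝ)) ^ 2 ≤
          4 * (a * b ^ 2 / (b + a * M)) - 4 * (a * b ^ 2 / (b + a * ((M + 1 : ℕ) : ℝ))) := by
        push_cast
        have hM : (0 : ℝ) ≤ M := Nat.cast_nonneg M
        have p1 : 0 < b + a * M := by positivity
        have p2 : 0 < b + a * (M + 1) := by positivity
        have e1 : 4 * (a * b ^ 2 / (b + a * M)) - 4 * (a * b ^ 2 / (b + a * (M + 1))) =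
            4 * a ^ 2 * b ^ 2 / ((b + a * M) * (b + a * (M + 1))) := by
          field_simp
          ring
        rw [e1]
        apply div_le_div_of_nonneg_left (by positivity) (by positivity)
        nlinarith
      linarith
  refine (key M).trans ?_
  have : 0 ≤ a * b ^ 2 / (b + a * M) := by positivity
  linarith

lemma bs_geom (N : ℕ) (t : ℝ) (ht : |t| ≤ 1 / 4) (ht0 : t ≠ 0) :
    ‖∑ p ∈ range N, e (p * t)‖ ≤ 1 / (2 * |t|) := by
  have h1 : ∀ p : ℕ, e (p * t) = (e t) ^ p := by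
    intro p
    unfold e
    rw [← Complex.exp_nat_mul]
    congr 1
    push_cast
    ring
  simp_rw [h1]
  have habs : 0 < |t| := abs_pos.2 ht0
  have hlow : 4 * |t| ≤ ‖e t - 1‖ := by
    unfold e
    have h2 : ‖Complex.exp (((2 * Real.pi * t : ℝ) : ℂ) * Complex.I) - 1‖ = |2 * Real.sin (Real.pi * t)| := by
      have := Complex.norm_exp_I_mul_ofReal_sub_one (2 * Real.pi * t)
      rw [mul_comm (Complex.I)] at this
      rw [this, Real.norm_eq_abs]
      congr 3
      ring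
    rw [h2, abs_mul, abs_two]
    have h3 : 2 * |t| ≤ |Real.sin (Real.pi * t)| := by
      have h4 : |Real.sin (Real.pi * t)| = Real.sin (Real.pi * |t|) := by
        rcases le_total 0 t with h | h
        · rw [abs_of_nonneg h, abs_of_nonneg]
          apply Real.sin_nonneg_of_nonneg_of_le_pi
          · positivity
          · rw [abs_of_nonneg h] at ht; nlinarith [Real.pi_pos]
        · rw [abs_of_nonpos h, mul_neg, Real.sin_neg, abs_of_nonpos]
          apply Real.sin_nonpos_of_nonpos_of_neg_pi_le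
          · nlinarith [Real.pi_pos]
          · rw [abs_of_nonpos h] at ht; nlinarith [Real.pi_pos]
      rw [h4]
      have h5 := Real.mul_le_sin (x := Real.pi * |t|) (by positivity) (by nlinarith [Real.pi_pos])
      have h6 : 2 / Real.pi * (Real.pi * |t|) = 2 * |t| := by
        field_simp
      linarith
    linarith
  have hne : e t ≠ 1 := by
    intro h
    rw [h, sub_self, norm_zero] at hlow
    linarith
  rw [geom_sum_eq hne, norm_div]
  have hup : ‖e t ^ N - 1‖ ≤ 2 := by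
    refine (norm_sub_le _ _).trans ?_
    rw [norm_pow, norm_e, one_pow, norm_one]
    norm_num
  rw [div_le_div_iff₀ (by linarith) (by positivity)]
  nlinarith [norm_nonneg (e t ^ N - 1)]

lemma bs_card (T : Finset ℕ) (L q : ℕ) (hq : 1 ≤ q) (hqL : q ≤ L)
    (hT : ∀ r ∈ T, L < r ∧ r ≤ 2 * L) (hc : ∀ r ∈ T, ∀ r' ∈ T, r ≡ r' [MOD q]) :
    (#T : ℝ) ≤ 3 * ((L : ℝ) / q) := by
  have hq0 : (0 : ℝ) < q := by exact_mod_cast hq
  have hLq : 1 ≤ (L : ℝ) / q := by rw [le_div_iff₀ hq0, one_mul]; exact_mod_cast hqL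
  rcases T.eq_empty_or_nonempty with h | ⟨r, hr⟩
  · subst h; simp; positivity
  · have h1 := bs_two_sided T r q (L / q) hq (fun _ => 1) (fun _ => 1) 1 (by norm_num) (fun _ => by norm_num)
      (fun s' hs' => hc r hr s' hs')
      (fun s' hs' => by
        apply Nat.div_le_div_right
        have := hT r hr; have := hT s' hs'; omega)
      (fun s' hs' => by
        apply Nat.div_le_div_right
        have := hT r hr; have := hT s' hs'; omega)
      (fun _ => le_rfl) (fun _ _ _ => le_rfl) (fun _ _ _ => le_rfl)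
    simp only [Finset.sum_const, nsmul_eq_mul, mul_one, Nat.card_Icc, Nat.add_sub_cancel] at h1
    have h2 : ((L / q : ℕ) : ℝ) ≤ (L : ℝ) / q := Nat.cast_div_le
    linarith

theorem bs : ∃ C0 : ℝ, 0 < C0 ∧ ∀ (J K q : ℕ) (θ A B : ℝ) (R S : Finset ℕ) (a b : ℕ → ℂ),
    1 ≤ q → q ≤ J → q ≤ K → 0 < θ → 0 ≤ A → 0 ≤ B → (∀ r ∈ R, J < r ∧ r ≤ 2 * J) →
    (∀ s ∈ S, K < s ∧ s ≤ 2 * K) → (∀ r ∈ R, ∀ r' ∈ R, r ≡ r' [MOD q]) →
    (∀ s ∈ S, ∀ s' ∈ S, s ≡ s' [MOD q]) → (∀ r ∈ R, ‖a r‖ ≤ A) → (∀ s ∈ S, ‖b s‖ ≤ B) →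
    ‖∑ r ∈ R, ∑ s ∈ S, a r * b s * e (θ * (√(r : ℝ) * √(s : ℝ)))‖ ^ 2 ≤
      C0 * (A * B) ^ 2 * ((J : ℝ) / q) * ((K : ℝ) / q) * (1 + √((J : ℝ) / K) / (θ * q)) *
        (1 + θ * √((J : ℝ) * K) + (K : ℝ) / q) := by
  refine ⟨28800, by norm_num, ?_⟩
  intro J K q θ A B R S a b hq hqJ hqK hθ hA0 hB0 hR hS hRc hSc hA hB
  have hq0 : (0 : ℝ) < q := by exact_mod_cast hq
  have hJ0 : (0 : ℝ) < J := by exact_mod_cast (show 0 < J by omega)
  have hK0 : (0 : ℝ) < K := by exact_mod_cast (show 0 < K by omega)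
  obtain ⟨j, hj⟩ : ∃ j : ℝ, j = √(J : ℝ) := ⟨_, rfl⟩
  obtain ⟨k, hk⟩ : ∃ k : ℝ, k = √(K : ℝ) := ⟨_, rfl⟩
  obtain ⟨w, hw⟩ : ∃ w : ℝ, w = √(2 : ℝ) := ⟨_, rfl⟩
  have hj0 : 0 < j := by rw [hj]; exact Real.sqrt_pos.2 hJ0
  have hk0 : 0 < k := by rw [hk]; exact Real.sqrt_pos.2 hK0
  have hw0 : 0 < w := by rw [hw]; positivity
  have hjj : j * j = J := by rw [hj]; exact Real.mul_self_sqrt hJ0.le
  have hkk : k * k = K := by rw [hk]; exact Real.mul_self_sqrt hK0.le
  have hww : w * w = 2 := by rw [hw]; exact Real.mul_self_sqrt (by norm_num)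
  have hJK : √((J : ℝ) * K) = j * k := by rw [hj, hk, Real.sqrt_mul hJ0.le]
  have hJdK : √((J : ℝ) / K) = j / k := by rw [hj, hk, Real.sqrt_div hJ0.le]
  have hrle : ∀ r ∈ R, √(r : ℝ) ≤ w * j := by
    intro r hr
    rw [hw, hj, ← Real.sqrt_mul (by norm_num)]
    apply Real.sqrt_le_sqrt
    exact_mod_cast (hR r hr).2
  have hsle : ∀ s ∈ S, √(s : ℝ) ≤ w * k := by
    intro s hs
    rw [hw, hk, ← Real.sqrt_mul (by norm_num)]
    apply Real.sqrt_le_sqrt
    exact_mod_cast (hS s hs).2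
  obtain ⟨Y, hY⟩ : ∃ Y : ℝ, Y = θ * (w * k) := ⟨_, rfl⟩
  have hY0 : 0 < Y := by rw [hY]; positivity
  obtain ⟨J', hJ'⟩ : ∃ J' : ℕ, J' = ⌊8 * θ * (j * k)⌋₊ + 1 := ⟨_, rfl⟩
  have hJ'1 : 1 ≤ J' := by omega
  have hJ'0 : (0 : ℝ) < J' := by exact_mod_cast hJ'1
  have hJ'lt : 8 * θ * (j * k) < J' := by rw [hJ']; push_cast; exact Nat.lt_floor_add_one _
  have hJ'le : (J' : ℝ) ≤ 8 * θ * (j * k) + 1 := by
    rw [hJ']; push_cast
    have := Nat.floor_le (show 0 ≤ 8 * θ * (j * k) by positivity)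
    linarith
  have hx : ∀ r ∈ R, 0 ≤ √(r : ℝ) ∧ √(r : ℝ) * (4 * Y) < J' := by
    intro r hr
    refine ⟨Real.sqrt_nonneg _, ?_⟩
    calc √(r : ℝ) * (4 * Y) ≤ (w * j) * (4 * Y) := by gcongr; exact hrle r hr
      _ = 4 * θ * (j * k) * (w * w) := by rw [hY]; ring
      _ = 8 * θ * (j * k) := by rw [hww]; ring
      _ < J' := hJ'lt
  have hy : ∀ s ∈ S, 0 ≤ θ * √(s : ℝ) ∧ θ * √(s : ℝ) ≤ Y := by
    intro s hs
    refine ⟨by positivity, ?_⟩
    rw [hY]
    gcongr
    exact hsle s hs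
  -- the numbers
  have hRcard := bs_card R J q hq hqJ hR hRc
  have hScard := bs_card S K q hq hqK hS hSc
  obtain ⟨H, hH⟩ : ∃ H : ℝ, H = j / (2 * θ * k) := ⟨_, rfl⟩
  have hH0 : 0 < H := by rw [hH]; positivity
  have hNx : (#((R ×ˢ R).filter (fun v => |√(v.1 : ℝ) - √(v.2 : ℝ)| ≤ 1 / (4 * Y))) : ℝ) ≤
      3 * ((J : ℝ) / q) * (1 + 2 * (H / q)) := by
    classical
    have h1 : (#((R ×ˢ R).filter (fun v => |√(v.1 : ℝ) - √(v.2 : ℝ)| ≤ 1 / (4 * Y))) : ℝ) =
        ∑ r ∈ R, ∑ r' ∈ R, if |√(r : ℝ) - √(r' : ℝ)| ≤ 1 / (4 * Y) then (1 : ℝ) else 0 := by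
      rw [Finset.card_filter]
      push_cast
      rw [Finset.sum_product]
    rw [h1]
    have h2 : ∀ r ∈ R, (∑ r' ∈ R, if |√(r : ℝ) - √(r' : ℝ)| ≤ 1 / (4 * Y) then (1 : ℝ) else 0) ≤
        1 + 2 * (H / q) := by
      intro r hr
      rw [← Finset.sum_filter]
      have hdist : ∀ r' ∈ R.filter (fun r' => |√(r : ℝ) - √((r' : ℕ) : ℝ)| ≤ 1 / (4 * Y)),
          |(r : ℝ) - r'| ≤ H := by
        intro r' hr'
        obtain ⟨hr'R, hr'd⟩ := mem_filter.1 hr'
        have e1 : (r : ℝ) - r' = (√(r : ℝ) - √(r' : ℝ)) * (√(r : ℝ) + √(r' : ℝ)) := by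
          have a1 := Real.mul_self_sqrt (Nat.cast_nonneg (α := ℝ) r)
          have a2 := Real.mul_self_sqrt (Nat.cast_nonneg (α := ℝ) r')
          nlinarith
        rw [e1, abs_mul, abs_of_nonneg (show 0 ≤ √(r : ℝ) + √(r' : ℝ) by positivity)]
        calc |√(r : ℝ) - √(r' : ℝ)| * (√(r : ℝ) + √(r' : ℝ)) ≤ 1 / (4 * Y) * (w * j + w * j) := by
              gcongr
              · exact hrle r hr
              · exact hrle r' hr'R
          _ = H := by rw [hY, hH]; field_simp; ring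
      have h3 := bs_two_sided (R.filter (fun r' => |√(r : ℝ) - √((r' : ℕ) : ℝ)| ≤ 1 / (4 * Y))) r q
        ⌊H / q⌋₊ hq (fun _ => 1) (fun _ => 1) 1 (by norm_num) (fun _ => by norm_num)
        (fun s' hs' => hRc r hr s' (mem_filter.1 hs').1)
        (fun s' hs' => by
          apply Nat.le_floor
          refine (Nat.cast_div_le).trans ?_
          gcongr
          have := hdist s' hs'
          rcases le_total s' r with h | h
          · rw [Nat.sub_eq_zero_of_le h]; simpa using hH0.le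
          · rw [Nat.cast_sub h]; rw [abs_le] at this; linarith)
        (fun s' hs' => by
          apply Nat.le_floor
          refine (Nat.cast_div_le).trans ?_
          gcongr
          have := hdist s' hs'
          rcases le_total r s' with h | h
          · rw [Nat.sub_eq_zero_of_le h]; simpa using hH0.le
          · rw [Nat.cast_sub h]; rw [abs_le] at this; linarith)
        (fun _ => le_rfl) (fun _ _ _ => le_rfl) (fun _ _ _ => le_rfl)
      refine h3.trans ?_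
      simp only [Finset.sum_const, nsmul_eq_mul, mul_one, Nat.card_Icc, Nat.add_sub_cancel]
      have := Nat.floor_le (show 0 ≤ H / q by positivity)
      linarith
    calc _ ≤ ∑ _r ∈ R, (1 + 2 * (H / q)) := Finset.sum_le_sum h2
      _ = #R * (1 + 2 * (H / q)) := by rw [Finset.sum_const, nsmul_eq_mul]
      _ ≤ _ := by gcongr
  have hNy : ∑ s ∈ S, ∑ s' ∈ S, ‖∑ p ∈ range (2 * J'), e (1 / (4 * Y) * p * (θ * √(s : ℝ) - θ * √(s' : ℝ)))‖ ^ 2 ≤
      J' * (3 * ((K : ℝ) / q) * (4 * J' + 128 * (K / q))) := by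
    have h2 : ∀ s ∈ S, ∑ s' ∈ S, ‖∑ p ∈ range (2 * J'), e (1 / (4 * Y) * p * (θ * √(s : ℝ) - θ * √(s' : ℝ)))‖ ^ 2 ≤
        4 * (J' : ℝ) ^ 2 + 128 * J' * (K / q) := by
      intro s hs
      obtain ⟨F, hF⟩ : ∃ F : ℕ → ℝ, F = fun s' : ℕ => ‖∑ p ∈ range (2 * J'),
        e (1 / (4 * Y) * p * (θ * √(s : ℝ) - θ * √(s' : ℝ)))‖ := ⟨_, rfl⟩
      have hFt : ∀ s', F s' ≤ 2 * J' := by
        intro s'
        rw [hF]
        refine (norm_sum_le _ _).trans ?_
        simp only [norm_e, Finset.sum_const, card_range, nsmul_eq_mul, mul_one]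
        push_cast; exact le_rfl
      have hF0 : ∀ s', 0 ≤ F s' := by intro s'; rw [hF]; exact norm_nonneg _
      have hFd : ∀ s' ∈ S, s' ≠ s → F s' * |(s : ℝ) - s'| ≤ 8 * K := by
        intro s' hs' hne
        obtain ⟨t, ht⟩ : ∃ t : ℝ, t = 1 / (4 * Y) * (θ * √(s : ℝ) - θ * √(s' : ℝ)) := ⟨_, rfl⟩
        have hteq : t = (√(s : ℝ) - √(s' : ℝ)) / (4 * (w * k)) := by
          rw [ht, hY]; field_simp
        have hsne : (s : ℝ) - s' ≠ 0 := by
          rw [sub_ne_zero]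
          intro h
          exact hne (by exact_mod_cast h.symm)
        have hsqr : (s : ℝ) - s' = (√(s : ℝ) - √(s' : ℝ)) * (√(s : ℝ) + √(s' : ℝ)) := by
          have a1 := Real.mul_self_sqrt (Nat.cast_nonneg (α := ℝ) s)
          have a2 := Real.mul_self_sqrt (Nat.cast_nonneg (α := ℝ) s')
          nlinarith
        have hne2 : √(s : ℝ) - √(s' : ℝ) ≠ 0 := by
          intro h; rw [h, zero_mul] at hsqr; exact hsne hsqr
        have ht0 : t ≠ 0 := by rw [hteq]; exact div_ne_zero hne2 (by positivity)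
        have htle : |t| ≤ 1 / 4 := by
          rw [hteq, abs_div, abs_of_pos (show 0 < 4 * (w * k) by positivity), div_le_div_iff₀ (by positivity) (by norm_num)]
          have h1 := hsle s hs
          have h2 := hsle s' hs'
          have h3 : |√(s : ℝ) - √(s' : ℝ)| ≤ w * k := by
            rw [abs_le]
            constructor <;> linarith [Real.sqrt_nonneg (s : ℝ), Real.sqrt_nonneg (s' : ℝ)]
          linarith
        have hg := bs_geom (2 * J') t htle ht0
        have hFe : F s' = ‖∑ p ∈ range (2 * J'), e (p * t)‖ := by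
          rw [hF]
          simp only
          congr 2
          funext p
          rw [ht]; congr 1; ring
        rw [hFe]
        have htabs : 0 < |t| := abs_pos.2 ht0
        have hst : |(s : ℝ) - s'| ≤ 16 * K * |t| := by
          rw [hsqr, abs_mul, abs_of_nonneg (show 0 ≤ √(s : ℝ) + √(s' : ℝ) by positivity), hteq, abs_div,
            abs_of_pos (show 0 < 4 * (w * k) by positivity)]
          have h1 := hsle s hs
          have h2 := hsle s' hs'
          calc |√(s : ℝ) - √(s' : ℝ)| * (√(s : ℝ) + √(s' : ℝ)) ≤ |√(s : ℝ) - √(s' : ℝ)| * (w * k + w * k) := by gcongr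
            _ = 16 * (k * k) * (|√(s : ℝ) - √(s' : ℝ)| / (4 * (w * k))) * ((w * w) / 2) := by
                field_simp
                ring
            _ = _ := by rw [hkk, hww]; ring
        calc _ ≤ 1 / (2 * |t|) * (16 * K * |t|) := by gcongr
          _ = 8 * K := by field_simp; ring
      obtain ⟨a1, ha1⟩ : ∃ a1 : ℝ, a1 = 2 * J' := ⟨_, rfl⟩
      obtain ⟨b1, hb1⟩ : ∃ b1 : ℝ, b1 = 8 * (K / q) := ⟨_, rfl⟩
      have ha10 : 0 < a1 := by rw [ha1]; positivity
      have hb10 : 0 < b1 := by rw [hb1]; positivity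
      have hFG : ∀ s' ∈ S, s' ≠ s → ∀ m : ℕ, (q : ℝ) * m = |(s : ℝ) - s'| →
          F s' ^ 2 ≤ 4 * a1 ^ 2 * b1 ^ 2 / (b1 + a1 * m) ^ 2 := by
        intro s' hs' hne m hm
        have h1 := hFd s' hs' hne
        rw [← hm] at h1
        have h2 : F s' * m ≤ b1 := by
          rw [hb1, ← mul_div_assoc, le_div_iff₀ hq0]
          linarith
        have h3 : F s' ≤ a1 := by rw [ha1]; exact hFt s'
        have h4 : F s' * (b1 + a1 * m) ≤ 2 * a1 * b1 := by nlinarith [hF0 s']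
        rw [le_div_iff₀ (by positivity), ← mul_pow]
        calc (F s' * (b1 + a1 * m)) ^ 2 ≤ (2 * a1 * b1) ^ 2 := by
              apply pow_le_pow_left₀ _ h4
              have := hF0 s'
              positivity
          _ = _ := by ring
      have h3 := bs_two_sided S s q K hq (fun m => 4 * a1 ^ 2 * b1 ^ 2 / (b1 + a1 * m) ^ 2) (fun s' => F s' ^ 2)
        (a1 ^ 2) (by positivity) (fun m => by positivity) (fun s' hs' => hSc s hs s' hs')
        (fun s' hs' => by
          refine (Nat.div_le_self _ _).trans ?_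
          have := hS s hs; have := hS s' hs'; omega)
        (fun s' hs' => by
          refine (Nat.div_le_self _ _).trans ?_
          have := hS s hs; have := hS s' hs'; omega)
        (fun _ => by
          apply pow_le_pow_left₀ (hF0 s)
          rw [ha1]; exact hFt s)
        (fun s' hs' hlt => by
          apply hFG s' hs' (by omega)
          have hd := (Nat.modEq_iff_dvd' hlt.le).1 (hSc s hs s' hs')
          have h5 := Nat.mul_div_cancel' hd
          rw [← Nat.cast_mul, h5, Nat.cast_sub hlt.le, abs_sub_comm, abs_of_nonneg]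
          have : (s : ℝ) ≤ s' := by exact_mod_cast hlt.le
          linarith)
        (fun s' hs' hlt => by
          apply hFG s' hs' (by omega)
          have hd := (Nat.modEq_iff_dvd' hlt.le).1 (hSc s hs s' hs').symm
          have h5 := Nat.mul_div_cancel' hd
          rw [← Nat.cast_mul, h5, Nat.cast_sub hlt.le, abs_of_nonneg]
          have : (s' : ℝ) ≤ s := by exact_mod_cast hlt.le
          linarith)
      have h4 := bs_tail a1 b1 ha10 hb10 K
      have h5 : ∑ s' ∈ S, F s' ^ 2 ≤ 4 * (J' : ℝ) ^ 2 + 128 * J' * (K / q) := by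
        calc _ ≤ _ := h3
          _ ≤ a1 ^ 2 + 2 * (4 * (a1 * b1)) := by linarith
          _ = _ := by rw [ha1, hb1]; ring
      rw [hF] at h5
      exact h5
    calc _ ≤ ∑ _s ∈ S, (4 * (J' : ℝ) ^ 2 + 128 * J' * (K / q)) := Finset.sum_le_sum h2
      _ = #S * (4 * (J' : ℝ) ^ 2 + 128 * J' * (K / q)) := by rw [Finset.sum_const, nsmul_eq_mul]
      _ ≤ (3 * ((K : ℝ) / q)) * (4 * (J' : ℝ) ^ 2 + 128 * J' * (K / q)) := by gcongr
      _ = _ := by ring
  have hmain := Pool.Agent.H373R2.T4.dls R S (fun r => √(r : ℝ)) (fun s => θ * √(s : ℝ)) a b Y hY0 J' hJ'1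
    hx hy A B hA hB hA0 hB0 _ _ hNx hNy
  have heq : ∑ r ∈ R, ∑ s ∈ S, a r * b s * e (θ * (√(r : ℝ) * √(s : ℝ))) =
      ∑ r ∈ R, ∑ s ∈ S, a r * b s * e (√(r : ℝ) * (θ * √(s : ℝ))) := by
    refine Finset.sum_congr rfl fun r _ => Finset.sum_congr rfl fun s _ => ?_
    congr 2; ring
  rw [heq]
  refine hmain.trans ?_
  rw [hJK, hJdK]
  have hHq : 2 * (H / q) = j / k / (θ * q) := by rw [hH]; field_simp
  rw [hHq]
  have h7 : 4 * (J' : ℝ) + 128 * (K / q) ≤ 128 * (1 + θ * (j * k) + (K : ℝ) / q) := by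
    have : 0 < θ * (j * k) := by positivity
    nlinarith
  calc 25 * (A ^ 2 * (3 * ((J : ℝ) / q) * (1 + j / k / (θ * q))) *
        (B ^ 2 * (3 * ((K : ℝ) / q) * (4 * J' + 128 * (K / q)))))
      ≤ 25 * (A ^ 2 * (3 * ((J : ℝ) / q) * (1 + j / k / (θ * q))) *
        (B ^ 2 * (3 * ((K : ℝ) / q) * (128 * (1 + θ * (j * k) + (K : ℝ) / q))))) := by gcongr
    _ = _ := by ring

end Pool.Agent.N792

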