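import Mathlib
import Pool.Agent.N792.Defs

/-!
More definitions for the Hardy-Littlewood formula for almost all `c ≤ C` (helper792).
-/

set_option autoImplicit false

namespace Pool.Agent.N792

open Finset

/-- the weight `h(N) = 1 / (2 √(a N))` -/
noncomputable def hw (a : ℤ) (N : ℕ) : ℝ := 1 / (2 * √((a : ℝ) * N))

/-- `a n² + b n` as a natural number -/
def Fn (a b : ℤ) (n : ℕ) : ℕ := (fv a b 0 n).toNat

/-- the sum of `G` over the values of the polynomial -/
noncomputable def Lc (a b : ℤ) (x1 x c : ℕ) (G : ℕ → ℝ) : ℝ := ∑ n ∈ Ioc x1 x, G (fv a b c n).toNat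

/-- the corresponding weighted sum over all integers -/
noncomputable def Ls (a b : ℤ) (x1 x : ℕ) (G : ℕ → ℝ) : ℝ := ∑ N ∈ Ioc (Fn a b x1) (Fn a b x), G N * hw a N

/-- the convolution of `μ(d)`, `d ≤ U`, and `Λ(e)`, `e ≤ U` -/
noncomputable def betU (U j : ℕ) : ℝ :=
  ∑ i ∈ j.divisorsAntidiagonal, (if i.1 ≤ U then (ArithmeticFunction.moebius i.1 : ℝ) else 0) *
    (if i.2 ≤ U then ArithmeticFunction.vonMangoldt i.2 else 0)

/-- the length of the dyadic cell of `k` (relative length `2^(-t)`): for `2^i < k ≤ 2^(i+1)` it is `2^(i-t)` -/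
def cs (t k : ℕ) : ℕ := 2 ^ (Nat.log 2 (k - 1) - t)

/-- the lower end of the dyadic cell `(cl, cl + cs]` of `k` -/
def cl (t k : ℕ) : ℕ := (k - 1) / cs t k * cs t k

/-- the mean value of `β` over the cell of `k` -/
noncomputable def dens (t : ℕ) (β : ℕ → ℝ) (k : ℕ) : ℝ := (∑ k' ∈ Ioc (cl t k) (cl t k + cs t k), β k') / cs t k

/-- the model of `β`: the mean value over the cell times the normalized indicator of the `w`-rough numbers -/
noncomputable def sharp (t w : ℕ) (β : ℕ → ℝ) (k : ℕ) : ℝ := dens t β k * rg w k / V1 w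

open Classical in
/-- the number of the divisors `j` of `N` with `y ≤ j` and `y ≤ N / j`, for rough `N` -/
noncomputable def gp (z y N : ℕ) : ℝ := rg z N * (#(N.divisors.filter (fun j => y ≤ j ∧ y ≤ N / j)) : ℝ)

end Pool.Agent.N792
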