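import Mathlib
import Pool.Agent.N792.Defs
import Pool.Agent.TH423.SH.FLLP

set_option autoImplicit false
set_option maxHeartbeats 4000000

namespace Pool.Agent.N792
open Finset Filter Topology

/-- Chinese remainders for a class modulo `M` and classes modulo primes not dividing `M`. -/
lemma fl_crt (M ν : ℕ) (hν : ν < M) (T : Finset ℕ) (c : ℕ → ℕ) (hT : ∀ p ∈ T, p.Prime ∧ ¬ p ∣ M)
    (hc : ∀ p ∈ T, c p < p) :
    ∃ x : ℕ, ∀ n : ℕ, (n % M = ν ∧ ∀ p ∈ T, n % p = c p) ↔ n ≡ x [MOD (M * ∏ p ∈ T, p)] := by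
  classical
  induction T using Finset.induction_on with
  | empty =>
    refine ⟨ν, fun n => ?_⟩
    simp only [Finset.notMem_empty, false_imp_iff, implies_true, and_true, Finset.prod_empty, mul_one]
    unfold Nat.ModEq
    rw [Nat.mod_eq_of_lt hν]
  | insert p T hpT ih =>
    obtain ⟨x, hx⟩ := ih (fun p' hp' => hT p' (mem_insert_of_mem hp'))
      (fun p' hp' => hc p' (mem_insert_of_mem hp'))
    have hpp := hT p (mem_insert_self _ _)
    have hcop : (M * ∏ p ∈ T, p).Coprime p := by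
      apply Nat.Coprime.mul_left
      · exact ((Nat.Prime.coprime_iff_not_dvd hpp.1).2 hpp.2).symm
      · apply Nat.Coprime.prod_left
        intro p' hp'
        have := hT p' (mem_insert_of_mem hp')
        rw [Nat.coprime_primes this.1 hpp.1]
        rintro rfl
        exact hpT hp'
    obtain ⟨y, hy1, hy2⟩ := Nat.chineseRemainder hcop x (c p)
    refine ⟨y, fun n => ?_⟩
    rw [Finset.prod_insert hpT]
    have e1 : M * (p * ∏ p ∈ T, p) = (M * ∏ p ∈ T, p) * p := by ring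
    rw [e1, ← Nat.modEq_and_modEq_iff_modEq_mul hcop]
    have hcp := hc p (mem_insert_self _ _)
    have e2 : n ≡ y [MOD p] ↔ n % p = c p := by
      constructor
      · intro h
        have := h.trans hy2
        unfold Nat.ModEq at this
        rwa [Nat.mod_eq_of_lt hcp] at this
      · intro h
        refine Nat.ModEq.trans ?_ hy2.symm
        unfold Nat.ModEq
        rw [Nat.mod_eq_of_lt hcp, h]
    have e3 : n ≡ y [MOD (M * ∏ p ∈ T, p)] ↔ n ≡ x [MOD (M * ∏ p ∈ T, p)] :=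
      ⟨fun h => h.trans hy1, fun h => h.trans hy1.symm⟩
    rw [e2, e3, ← hx n]
    constructor
    · rintro ⟨h1, h2⟩
      exact ⟨⟨h1, fun p' hp' => h2 p' (mem_insert_of_mem hp')⟩, h2 p (mem_insert_self _ _)⟩
    · rintro ⟨⟨h1, h2⟩, h3⟩
      refine ⟨h1, fun p' hp' => ?_⟩
      rcases mem_insert.1 hp' with h | h
      · rw [h]; exact h3
      · exact h2 p' h

lemma fl_modcount (n1 n2 M x : ℕ) (hM : 0 < M) (hn : n1 ≤ n2) :
    |(#((Ioc n1 n2).filter (fun n => n ≡ x [MOD M])) : ℝ) - ((n2 : ℝ) - n1) / M| ≤ 1 := by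
  have h := Nat.Ioc_filter_modEq_card n1 n2 hM x
  have hMq : (0 : ℚ) < M := by exact_mod_cast hM
  have h1 : ((#((Ioc n1 n2).filter (fun n => n ≡ x [MOD M])) : ℤ) : ℚ) =
      max ((⌊((n2 : ℚ) - x) / M⌋ : ℚ) - ⌊((n1 : ℚ) - x) / M⌋) 0 := by
    rw [h]; push_cast; rfl
  have h2 := Int.floor_le (((n2 : ℚ) - x) / M)
  have h3 := Int.lt_floor_add_one (((n2 : ℚ) - x) / M)
  have h4 := Int.floor_le (((n1 : ℚ) - x) / M)
  have h5 := Int.lt_floor_add_one (((n1 : ℚ) - x) / M)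
  have h6 : (0 : ℚ) ≤ (n2 : ℚ) - n1 := by
    have : (n1 : ℚ) ≤ n2 := by exact_mod_cast hn
    linarith
  have h7 : ((n2 : ℚ) - x) / M - ((n1 : ℚ) - x) / M = ((n2 : ℚ) - n1) / M := by ring
  have h8 : |((#((Ioc n1 n2).filter (fun n => n ≡ x [MOD M])) : ℕ) : ℚ) - ((n2 : ℚ) - n1) / M| ≤ 1 := by
    have h9 : ((#((Ioc n1 n2).filter (fun n => n ≡ x [MOD M])) : ℕ) : ℚ) =
      max ((⌊((n2 : ℚ) - x) / M⌋ : ℚ) - ⌊((n1 : ℚ) - x) / M⌋) 0 := by
      rw [← h1]; push_cast; rfl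
    rw [h9]
    have h10 : 0 ≤ ((n2 : ℚ) - n1) / M := by positivity
    rw [abs_le]
    constructor
    · have := le_max_left ((⌊((n2 : ℚ) - x) / M⌋ : ℚ) - ⌊((n1 : ℚ) - x) / M⌋) 0
      linarith
    · have : max ((⌊((n2 : ℚ) - x) / M⌋ : ℚ) - ⌊((n1 : ℚ) - x) / M⌋) 0 ≤ 1 + ((n2 : ℚ) - n1) / M := by
        apply max_le <;> linarith
      linarith
  have h11 : |(((#((Ioc n1 n2).filter (fun n => n ≡ x [MOD M])) : ℕ) : ℚ) - ((n2 : ℚ) - n1) / M : ℚ)| ≤ (1 : ℚ) := h8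
  have h12 : ((|(((#((Ioc n1 n2).filter (fun n => n ≡ x [MOD M])) : ℕ) : ℚ) - ((n2 : ℚ) - n1) / M : ℚ)| : ℚ) : ℝ) ≤ ((1 : ℚ) : ℝ) := by
    exact_mod_cast h11
  push_cast at h12
  exact h12

lemma fl_classcount (n1 n2 M ν : ℕ) (hν : ν < M) (hn : n1 ≤ n2) (T : Finset ℕ) (c : ℕ → ℕ)
    (hT : ∀ p ∈ T, p.Prime ∧ ¬ p ∣ M) (hc : ∀ p ∈ T, c p < p) :
    |(#(((Ioc n1 n2).filter (fun n => n % M = ν)).filter (fun n => ∀ p ∈ T, n % p = c p)) : ℝ) -
      ((n2 : ℝ) - n1) / M * ∏ p ∈ T, (1 / (p : ℝ))| ≤ 1 := by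
  obtain ⟨x, hx⟩ := fl_crt M ν hν T c hT hc
  have h1 : ((Ioc n1 n2).filter (fun n => n % M = ν)).filter (fun n => ∀ p ∈ T, n % p = c p) =
      (Ioc n1 n2).filter (fun n => n ≡ x [MOD (M * ∏ p ∈ T, p)]) := by
    rw [Finset.filter_filter]
    apply Finset.filter_congr
    intro n _
    exact hx n
  rw [h1]
  have hpos : 0 < M * ∏ p ∈ T, p := by
    apply Nat.mul_pos (by omega)
    exact Finset.prod_pos fun p hp => (hT p hp).1.pos
  have h2 := fl_modcount n1 n2 (M * ∏ p ∈ T, p) x hpos hn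
  have h3 : ((n2 : ℝ) - n1) / M * ∏ p ∈ T, (1 / (p : ℝ)) = ((n2 : ℝ) - n1) / ((M * ∏ p ∈ T, p : ℕ) : ℝ) := by
    push_cast
    rw [Finset.prod_div_distrib, Finset.prod_const_one]
    rw [div_mul_div_comm, mul_one]
  rw [h3]
  exact h2

/-- the number of the good residue classes -/
lemma fl_goodcount (M0 : ℕ) (hM0 : 0 < M0) (N0 : Finset ℕ) (hN0 : N0 ⊆ range M0) (Q : Finset ℕ)
    (Om : ℕ → Finset ℕ) (hQ : ∀ p ∈ Q, p.Prime ∧ ¬ p ∣ M0) (hOm : ∀ p ∈ Q, Om p ⊆ range p) :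
    #((range (M0 * ∏ p ∈ Q, p)).filter (fun ν => ν % M0 ∈ N0 ∧ ∀ p ∈ Q, ν % p ∉ Om p)) =
      #N0 * ∏ p ∈ Q, (p - #(Om p)) := by
  classical
  induction Q using Finset.induction_on with
  | empty =>
    simp only [Finset.notMem_empty, false_imp_iff, implies_true, and_true, Finset.prod_empty, mul_one]
    congr 1
    ext ν
    rw [mem_filter, mem_range]
    constructor
    · rintro ⟨h1, h2⟩
      rwa [Nat.mod_eq_of_lt h1] at h2
    · intro h
      have := mem_range.1 (hN0 h)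
      exact ⟨this, by rwa [Nat.mod_eq_of_lt this]⟩
  | insert p Q hpQ ih =>
    have ih' := ih (fun p' hp' => hQ p' (mem_insert_of_mem hp'))
      (fun p' hp' => hOm p' (mem_insert_of_mem hp'))
    have hpp := hQ p (mem_insert_self _ _)
    obtain ⟨M, hM⟩ : ∃ M, M = M0 * ∏ p ∈ Q, p := ⟨_, rfl⟩
    have hMpos : 0 < M := by
      rw [hM]
      exact Nat.mul_pos hM0 (Finset.prod_pos fun p hp => (hQ p (mem_insert_of_mem hp)).1.pos)
    have hcop : M.Coprime p := by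
      rw [hM]
      apply Nat.Coprime.mul_left
      · exact ((Nat.Prime.coprime_iff_not_dvd hpp.1).2 hpp.2).symm
      · apply Nat.Coprime.prod_left
        intro p' hp'
        have := hQ p' (mem_insert_of_mem hp')
        rw [Nat.coprime_primes this.1 hpp.1]
        rintro rfl
        exact hpQ hp'
    rw [Finset.prod_insert hpQ, Finset.prod_insert hpQ]
    have e1 : M0 * (p * ∏ p ∈ Q, p) = M * p := by rw [hM]; ring
    have e2 : #N0 * ((p - #(Om p)) * ∏ p ∈ Q, (p - #(Om p))) =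
        (#N0 * ∏ p ∈ Q, (p - #(Om p))) * (p - #(Om p)) := by ring
    rw [e1, e2, ← ih', ← hM]
    have e3 : p - #(Om p) = #((range p) \ Om p) := by
      rw [Finset.card_sdiff_of_subset (hOm p (mem_insert_self _ _)), card_range]
    rw [e3, ← Finset.card_product]
    have hM0M : M0 ∣ M := by rw [hM]; exact Dvd.intro _ rfl
    have hpM : ∀ p' ∈ Q, p' ∣ M := by
      intro p' hp'
      rw [hM]
      exact Dvd.dvd.mul_left (Finset.dvd_prod_of_mem _ hp') _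
    apply Finset.card_bij (fun ν _ => (ν % M, ν % p))
    · intro ν hν
      rw [mem_filter, mem_range] at hν
      rw [mem_product, mem_filter, mem_range, Finset.mem_sdiff, mem_range]
      refine ⟨⟨Nat.mod_lt _ hMpos, ?_, ?_⟩, Nat.mod_lt _ hpp.1.pos, hν.2.2 p (mem_insert_self _ _)⟩
      · simp only
        rw [Nat.mod_mod_of_dvd _ hM0M]; exact hν.2.1
      · intro p' hp'
        simp only
        rw [Nat.mod_mod_of_dvd _ (hpM p' hp')]
        exact hν.2.2 p' (mem_insert_of_mem hp')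
    · intro ν hν ν' hν' h
      rw [mem_filter, mem_range] at hν hν'
      rw [Prod.mk.injEq] at h
      have := (Nat.modEq_and_modEq_iff_modEq_mul hcop).1 ⟨h.1, h.2⟩
      exact this.eq_of_lt_of_lt hν.1 hν'.1
    · rintro ⟨u, v⟩ huv
      rw [mem_product, mem_filter, mem_range, Finset.mem_sdiff, mem_range] at huv
      obtain ⟨⟨hu, hu1, hu2⟩, hv, hv1⟩ := huv
      simp only at hu hu1 hu2 hv hv1
      obtain ⟨y, hy1, hy2⟩ := Nat.chineseRemainder hcop u v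
      refine ⟨y % (M * p), ?_, ?_⟩
      · rw [mem_filter, mem_range]
        have hyM : y % M = u := by
          have := hy1; unfold Nat.ModEq at this; rwa [Nat.mod_eq_of_lt hu] at this
        have hyp : y % p = v := by
          have := hy2; unfold Nat.ModEq at this; rwa [Nat.mod_eq_of_lt hv] at this
        refine ⟨Nat.mod_lt _ (Nat.mul_pos hMpos hpp.1.pos), ?_, ?_⟩
        · rw [Nat.mod_mod_of_dvd _ (hM0M.mul_right p), ← Nat.mod_mod_of_dvd y hM0M, hyM]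
          exact hu1
        · intro p' hp'
          rcases mem_insert.1 hp' with h | h
          · rw [h, Nat.mod_mod_of_dvd _ (Dvd.intro_left _ rfl), hyp]
            exact hv1
          · rw [Nat.mod_mod_of_dvd _ ((hpM p' h).mul_right p), ← Nat.mod_mod_of_dvd y (hpM p' h), hyM]
            exact hu2 p' h
      · simp only [Prod.mk.injEq]
        constructor
        · rw [Nat.mod_mod_of_dvd _ (Dvd.intro _ rfl)]
          have := hy1; unfold Nat.ModEq at this; rwa [Nat.mod_eq_of_lt hu] at this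
        · rw [Nat.mod_mod_of_dvd _ (Dvd.intro_left _ rfl)]
          have := hy2; unfold Nat.ModEq at this; rwa [Nat.mod_eq_of_lt hv] at this

/-- few sets of primes have a small product -/
lemma fl_fewT (P : Finset ℕ) (hP : ∀ p ∈ P, p.Prime) (D κ : ℕ) (hκ : κ ≤ 2) :
    ∑ T ∈ P.powerset.filter (fun T : Finset ℕ => ∏ p ∈ T, p ≤ D), (κ : ℝ) ^ T.card * 1 ≤ (D : ℝ) ^ 2 := by
  classical
  have h1 : ∀ T ∈ P.powerset.filter (fun T : Finset ℕ => ∏ p ∈ T, p ≤ D), (κ : ℝ) ^ T.card * 1 ≤ D := by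
    intro T hT
    obtain ⟨hTP, hTD⟩ := mem_filter.1 hT
    rw [mem_powerset] at hTP
    rw [mul_one]
    have h2 : κ ^ T.card ≤ ∏ p ∈ T, p := by
      rw [← Finset.prod_const]
      apply Finset.prod_le_prod' 
      intro p hp
      exact hκ.trans (hP p (hTP hp)).two_le
    exact_mod_cast h2.trans hTD
  have h3 : #(P.powerset.filter (fun T : Finset ℕ => ∏ p ∈ T, p ≤ D)) ≤ D := by
    have hinj : Set.InjOn (fun T : Finset ℕ => ∏ p ∈ T, p)
        (P.powerset.filter (fun T : Finset ℕ => ∏ p ∈ T, p ≤ D) : Set (Finset ℕ)) := by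
      intro T hT T' hT' h
      rw [mem_coe, mem_filter, mem_powerset] at hT hT'
      simp only at h
      ext p
      constructor
      · intro hp
        have hpp := hP p (hT.1 hp)
        have h4 : p ∣ ∏ p ∈ T', p := by rw [← h]; exact Finset.dvd_prod_of_mem _ hp
        rw [Prime.dvd_finsetProd_iff hpp.prime] at h4
        obtain ⟨p', hp', hd⟩ := h4
        rw [Nat.prime_dvd_prime_iff_eq hpp (hP p' (hT'.1 hp'))] at hd
        rw [hd]; exact hp'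
      · intro hp
        have hpp := hP p (hT'.1 hp)
        have h4 : p ∣ ∏ p ∈ T, p := by rw [h]; exact Finset.dvd_prod_of_mem _ hp
        rw [Prime.dvd_finsetProd_iff hpp.prime] at h4
        obtain ⟨p', hp', hd⟩ := h4
        rw [Nat.prime_dvd_prime_iff_eq hpp (hP p' (hT.1 hp'))] at hd
        rw [hd]; exact hp'
    have h5 := Finset.card_le_card_of_injOn (t := Icc 1 D) (fun T : Finset ℕ => ∏ p ∈ T, p) (by
      intro T hT
      rw [mem_coe, mem_filter, mem_powerset] at hT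
      rw [mem_coe, mem_Icc]
      exact ⟨Finset.prod_pos fun p hp => (hP p (hT.1 hp)).pos, hT.2⟩) hinj
    rwa [Nat.card_Icc, Nat.add_sub_cancel] at h5
  calc _ ≤ ∑ _T ∈ P.powerset.filter (fun T : Finset ℕ => ∏ p ∈ T, p ≤ D), (D : ℝ) := Finset.sum_le_sum h1
    _ = #(P.powerset.filter (fun T : Finset ℕ => ∏ p ∈ T, p ≤ D)) * D := by rw [Finset.sum_const, nsmul_eq_mul]
    _ ≤ D * D := by
        gcongr
        
    _ = (D : ℝ) ^ 2 := by ring

open Classical in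
/-- the fundamental lemma for `n % M0 ∈ N0` and classes modulo the primes of `P'` -/
theorem fl_gen : ∃ C : ℕ, 1 ≤ C ∧ ∀ (κ b J z0 M0 n1 n2 : ℕ) (P' : Finset ℕ) (Om : ℕ → Finset ℕ)
    (N0 : Finset ℕ), κ ≤ 2 → C * (κ + 1) ≤ b → C * (κ + 1) ≤ z0 → 1 ≤ M0 → n1 ≤ n2 →
    N0 ⊆ range M0 → (∀ p ∈ P', p.Prime ∧ p ≤ 2 ^ 2 ^ J ∧ ¬ p ∣ M0) → (∀ p ∈ P', Om p ⊆ range p) →
    (∀ p ∈ P', z0 < p → #(Om p) ≤ κ) →
    |(#((Ioc n1 n2).filter (fun n => n % M0 ∈ N0 ∧ ∀ p ∈ P', n % p ∉ Om p)) : ℝ) -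
      ((n2 : ℝ) - n1) * (#N0 / M0) * ∏ p ∈ P', (1 - (#(Om p) : ℝ) / p)| ≤
      (1 / 2) ^ b * (((n2 : ℝ) - n1) * (#N0 / M0) * ∏ p ∈ P', (1 - (#(Om p) : ℝ) / p)) +
        #N0 * (z0 : ℝ) ^ z0 * ((J : ℝ) + 2) * ((2 ^ 2 ^ J) ^ (C * b)) ^ 2 := by
  obtain ⟨C, hC, H⟩ := Pool.Agent.TH423.SH.fll
  refine ⟨C, hC, ?_⟩
  intro κ b J z0 M0 n1 n2 P' Om N0 hκ hb hz0 hM0 hn hN0 hP' hOm hOmc
  have hz01 : 1 ≤ z0 := le_trans (by nlinarith) hz0
  obtain ⟨Q, hQ⟩ : ∃ Q, Q = P'.filter (fun p => p ≤ z0) := ⟨_, rfl⟩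
  obtain ⟨P, hP⟩ : ∃ P, P = P'.filter (fun p => ¬ p ≤ z0) := ⟨_, rfl⟩
  obtain ⟨M, hM⟩ : ∃ M, M = M0 * ∏ p ∈ Q, p := ⟨_, rfl⟩
  have hQP' : ∀ p ∈ Q, p ∈ P' ∧ p ≤ z0 := by intro p hp; rw [hQ] at hp; exact mem_filter.1 hp
  have hPP' : ∀ p ∈ P, p ∈ P' ∧ ¬ p ≤ z0 := by intro p hp; rw [hP] at hp; exact mem_filter.1 hp
  have hQpos : 0 < ∏ p ∈ Q, p := Finset.prod_pos fun p hp => (hP' p (hQP' p hp).1).1.pos
  have hMpos : 0 < M := by rw [hM]; exact Nat.mul_pos hM0 hQpos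
  obtain ⟨N, hN⟩ : ∃ N, N = (range M).filter (fun ν => ν % M0 ∈ N0 ∧ ∀ p ∈ Q, ν % p ∉ Om p) := ⟨_, rfl⟩
  have hM0M : M0 ∣ M := by rw [hM]; exact Dvd.intro _ rfl
  have hpM : ∀ p' ∈ Q, p' ∣ M := by
    intro p' hp'
    rw [hM]
    exact Dvd.dvd.mul_left (Finset.dvd_prod_of_mem _ hp') _
  have hPM : ∀ p ∈ P, ¬ p ∣ M := by
    intro p hp hd
    have hpp := (hP' p (hPP' p hp).1)
    rw [hM, hpp.1.dvd_mul] at hd
    rcases hd with hd | hd
    · exact hpp.2.2 hd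
    · rw [Prime.dvd_finsetProd_iff hpp.1.prime] at hd
      obtain ⟨p', hp', hd'⟩ := hd
      have hp'p := (hP' p' (hQP' p' hp').1)
      rw [Nat.prime_dvd_prime_iff_eq hpp.1 hp'p.1] at hd'
      rw [hd'] at hp
      exact (hPP' _ hp).2 (hQP' _ hp').2
  have hNcard : #N = #N0 * ∏ p ∈ Q, (p - #(Om p)) := by
    rw [hN, hM]
    exact fl_goodcount M0 hM0 N0 hN0 Q Om (fun p hp => ⟨(hP' p (hQP' p hp).1).1, (hP' p (hQP' p hp).1).2.2⟩)
      (fun p hp => hOm p (hQP' p hp).1)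
  have hOmle : ∀ p ∈ P', #(Om p) ≤ p := by
    intro p hp
    have := Finset.card_le_card (hOm p hp)
    rwa [card_range] at this
  -- the decomposition
  have hdec : #((Ioc n1 n2).filter (fun n => n % M0 ∈ N0 ∧ ∀ p ∈ P', n % p ∉ Om p)) =
      ∑ ν ∈ N, #(((Ioc n1 n2).filter (fun n => n % M = ν)).filter (fun n => ∀ p ∈ P, n % p ∉ Om p)) := by
    rw [Finset.card_eq_sum_card_fiberwise (f := fun n => n % M) (t := N)]
    · apply Finset.sum_congr rfl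
      intro ν hν
      congr 1
      ext n
      simp only [mem_filter]
      rw [hN, mem_filter, mem_range] at hν
      constructor
      · rintro ⟨⟨h1, h2, h3⟩, h4⟩
        exact ⟨⟨h1, h4⟩, fun p hp => h3 p (hPP' p hp).1⟩
      · rintro ⟨⟨h1, h4⟩, h3⟩
        refine ⟨⟨h1, ?_, ?_⟩, h4⟩
        · rw [← Nat.mod_mod_of_dvd n hM0M, h4]; exact hν.2.1
        · intro p hp
          by_cases hpz : p ≤ z0
          · have hpQ : p ∈ Q := by rw [hQ]; exact mem_filter.2 ⟨hp, hpz⟩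
            rw [← Nat.mod_mod_of_dvd n (hpM p hpQ), h4]; exact hν.2.2 p hpQ
          · exact h3 p (by rw [hP]; exact mem_filter.2 ⟨hp, hpz⟩)
    · intro n hn'
      rw [mem_coe, mem_filter] at hn'
      rw [mem_coe, hN, mem_filter, mem_range]
      refine ⟨Nat.mod_lt _ hMpos, ?_, ?_⟩
      · rw [Nat.mod_mod_of_dvd _ hM0M]; exact hn'.2.1
      · intro p hp
        rw [Nat.mod_mod_of_dvd _ (hpM p hp)]
        exact hn'.2.2 p (hQP' p hp).1
  have hn' : (0 : ℝ) ≤ (n2 : ℝ) - n1 := by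
    have : (n1 : ℝ) ≤ n2 := by exact_mod_cast hn
    linarith
  have hMR : (0 : ℝ) < M := by exact_mod_cast hMpos
  -- the fundamental lemma for every class
  have hcl : ∀ ν ∈ N, |(#(((Ioc n1 n2).filter (fun n => n % M = ν)).filter (fun n => ∀ p ∈ P, n % p ∉ Om p)) : ℝ) -
      (((n2 : ℝ) - n1) / M) * ∏ p ∈ P, (1 - (#(Om p) : ℝ) * (1 / p))| ≤
      (1 / 2) ^ b * ((((n2 : ℝ) - n1) / M) * ∏ p ∈ P, (1 - (#(Om p) : ℝ) * (1 / p))) +
        ((J : ℝ) + 2) * (((2 ^ 2 ^ J) ^ (C * b) : ℕ) : ℝ) ^ 2 := by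
    intro ν hν
    rw [hN, mem_filter, mem_range] at hν
    have h1 := H κ b J z0 P (fun p => 1 / (p : ℝ)) Om hb hz0
      (fun p hp => ⟨(hP' p (hPP' p hp).1).1, by have := (hPP' p hp).2; omega, (hP' p (hPP' p hp).1).2.1⟩)
      (fun p hp => hOmc p (hPP' p hp).1 (by have := (hPP' p hp).2; omega))
      (fun p hp => by
        have h2 : (2 : ℝ) ≤ p := by exact_mod_cast (hP' p (hPP' p hp).1).1.two_le
        refine ⟨by positivity, ?_⟩
        apply one_div_le_one_div_of_le <;> linarith)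
      ((Ioc n1 n2).filter (fun n => n % M = ν)) (fun _ => 1) (((n2 : ℝ) - n1) / M) (fun _ => 1)
      (fun _ _ => by norm_num) (by positivity) (fun _ => by norm_num)
      (fun T hT _ c hc => by
        have h3 := fl_classcount n1 n2 M ν hν.1 hn T c
          (fun p hp => ⟨(hP' p (hPP' p (hT hp)).1).1, hPM p (hT hp)⟩)
          (fun p hp => mem_range.1 (hOm p (hPP' p (hT hp)).1 (hc p hp)))
        simpa only [Finset.sum_const, nsmul_eq_mul, mul_one] using h3)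
    simp only [Finset.sum_const, nsmul_eq_mul, mul_one] at h1
    have h4 := fl_fewT P (fun p hp => (hP' p (hPP' p hp).1).1) ((2 ^ 2 ^ J) ^ (C * b)) κ hκ
    simp only [mul_one] at h4
    refine h1.trans ?_
    gcongr
  have hsum := Finset.abs_sum_le_sum_abs (fun ν => (#(((Ioc n1 n2).filter (fun n => n % M = ν)).filter (fun n => ∀ p ∈ P, n % p ∉ Om p)) : ℝ) -
      (((n2 : ℝ) - n1) / M) * ∏ p ∈ P, (1 - (#(Om p) : ℝ) * (1 / p))) N
  have hsum2 := hsum.trans (Finset.sum_le_sum hcl)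
  rw [Finset.sum_sub_distrib, Finset.sum_const, Finset.sum_const, nsmul_eq_mul, nsmul_eq_mul, ← Nat.cast_sum, ← hdec] at hsum2
  have hmainT : (#N : ℝ) * ((((n2 : ℝ) - n1) / M) * ∏ p ∈ P, (1 - (#(Om p) : ℝ) * (1 / p))) =
      ((n2 : ℝ) - n1) * (#N0 / M0) * ∏ p ∈ P', (1 - (#(Om p) : ℝ) / p) := by
    have e1 : ∏ p ∈ P', (1 - (#(Om p) : ℝ) / p) = (∏ p ∈ Q, (1 - (#(Om p) : ℝ) / p)) * ∏ p ∈ P, (1 - (#(Om p) : ℝ) / p) := by
      rw [hQ, hP, Finset.prod_filter_mul_prod_filter_not]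
    have e2 : ∏ p ∈ P, (1 - (#(Om p) : ℝ) * (1 / p)) = ∏ p ∈ P, (1 - (#(Om p) : ℝ) / p) :=
      Finset.prod_congr rfl fun p _ => by ring
    have e3 : (#N : ℝ) = #N0 * ∏ p ∈ Q, ((p : ℝ) - #(Om p)) := by
      rw [hNcard]
      push_cast
      congr 1
      apply Finset.prod_congr rfl
      intro p hp
      rw [Nat.cast_sub (hOmle p (hQP' p hp).1)]
    have e4 : ∏ p ∈ Q, ((p : ℝ) - #(Om p)) = (∏ p ∈ Q, (p : ℝ)) * ∏ p ∈ Q, (1 - (#(Om p) : ℝ) / p) := by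
      rw [← Finset.prod_mul_distrib]
      apply Finset.prod_congr rfl
      intro p hp
      have : (p : ℝ) ≠ 0 := by exact_mod_cast (hP' p (hQP' p hp).1).1.ne_zero
      field_simp
    have e5 : (M : ℝ) = M0 * ∏ p ∈ Q, (p : ℝ) := by rw [hM]; push_cast; rfl
    have h6 : (0 : ℝ) < ∏ p ∈ Q, (p : ℝ) := by
      have := hQpos
      have h7 : ((∏ p ∈ Q, p : ℕ) : ℝ) = ∏ p ∈ Q, (p : ℝ) := by push_cast; rfl
      rw [← h7]; exact_mod_cast this
    have h8 : (0 : ℝ) < M0 := by exact_mod_cast hM0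
    rw [e1, e2, e3, e4, e5]
    field_simp
  rw [mul_add, hmainT] at hsum2
  have e7 : (#N : ℝ) * ((1 / 2) ^ b * ((((n2 : ℝ) - n1) / M) * ∏ p ∈ P, (1 - (#(Om p) : ℝ) * (1 / p)))) =
      (1 / 2) ^ b * (((n2 : ℝ) - n1) * (#N0 / M0) * ∏ p ∈ P', (1 - (#(Om p) : ℝ) / p)) := by
    rw [← hmainT]; ring
  rw [e7] at hsum2
  refine hsum2.trans ?_
  have h9 : (#N : ℝ) ≤ #N0 * (z0 : ℝ) ^ z0 := by
    have h10 : #N ≤ #N0 * z0 ^ z0 := by
      rw [hNcard]
      apply Nat.mul_le_mul_left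
      calc ∏ p ∈ Q, (p - #(Om p)) ≤ ∏ _p ∈ Q, z0 := by
            apply Finset.prod_le_prod'
            intro p hp
            have := (hQP' p hp).2
            omega
        _ = z0 ^ #Q := by rw [Finset.prod_const]
        _ ≤ z0 ^ z0 := by
            apply Nat.pow_le_pow_right hz01
            have h11 : Q ⊆ Icc 1 z0 := by
              intro p hp
              rw [mem_Icc]
              exact ⟨(hP' p (hQP' p hp).1).1.one_le, (hQP' p hp).2⟩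
            have := Finset.card_le_card h11
            rwa [Nat.card_Icc, Nat.add_sub_cancel] at this
    exact_mod_cast h10
  have h12 : (#N : ℝ) * (((J : ℝ) + 2) * (((2 ^ 2 ^ J) ^ (C * b) : ℕ) : ℝ) ^ 2) ≤
      #N0 * (z0 : ℝ) ^ z0 * ((J : ℝ) + 2) * ((2 ^ 2 ^ J) ^ (C * b)) ^ 2 := by
    push_cast
    calc (#N : ℝ) * (((J : ℝ) + 2) * ((2 ^ 2 ^ J) ^ (C * b)) ^ 2) ≤
          (#N0 * (z0 : ℝ) ^ z0) * (((J : ℝ) + 2) * ((2 ^ 2 ^ J) ^ (C * b)) ^ 2) := by gcongr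
      _ = _ := by ring
  linarith


/-- the fundamental lemma, free of decidability instances -/
theorem fl_gen' : ∃ C : ℕ, 1 ≤ C ∧ ∀ (κ b J z0 M0 n1 n2 : ℕ) (P' : Finset ℕ) (Om : ℕ → Finset ℕ)
    (N0 S : Finset ℕ), κ ≤ 2 → C * (κ + 1) ≤ b → C * (κ + 1) ≤ z0 → 1 ≤ M0 → n1 ≤ n2 →
    N0 ⊆ range M0 → (∀ p ∈ P', p.Prime ∧ p ≤ 2 ^ 2 ^ J ∧ ¬ p ∣ M0) → (∀ p ∈ P', Om p ⊆ range p) →
    (∀ p ∈ P', z0 < p → #(Om p) ≤ κ) →
    (∀ n, n ∈ S ↔ (n1 < n ∧ n ≤ n2) ∧ n % M0 ∈ N0 ∧ ∀ p ∈ P', n % p ∉ Om p) →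
    |(#S : ℝ) - ((n2 : ℝ) - n1) * (#N0 / M0) * ∏ p ∈ P', (1 - (#(Om p) : ℝ) / p)| ≤
      (1 / 2) ^ b * (((n2 : ℝ) - n1) * (#N0 / M0) * ∏ p ∈ P', (1 - (#(Om p) : ℝ) / p)) +
        #N0 * (z0 : ℝ) ^ z0 * ((J : ℝ) + 2) * ((2 ^ 2 ^ J) ^ (C * b)) ^ 2 := by
  classical
  obtain ⟨C, hC, H⟩ := fl_gen
  refine ⟨C, hC, ?_⟩
  intro κ b J z0 M0 n1 n2 P' Om N0 S hκ hb hz0 hM0 hn hN0 hP' hOm hOmc hS
  have h := H κ b J z0 M0 n1 n2 P' Om N0 hκ hb hz0 hM0 hn hN0 hP' hOm hOmc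
  have hS2 : S = (Ioc n1 n2).filter (fun n => n % M0 ∈ N0 ∧ ∀ p ∈ P', n % p ∉ Om p) := by
    ext n
    rw [hS n, mem_filter, mem_Ioc]
  rw [hS2]
  convert h using 4

end Pool.Agent.N792
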