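import Mathlib
import Pool.Agent.N792.Defs
import Pool.Agent.N792.FlGen

set_option autoImplicit false
set_option maxHeartbeats 4000000

namespace Pool.Agent.N792
open Finset Filter Topology

open Classical in
theorem fl_lin : ∃ C1 : ℕ, 1 ≤ C1 ∧ ∀ b0 : ℕ, C1 ≤ b0 → ∀ (J q r k1 k2 : ℕ), 1 ≤ q → r.Coprime q → k1 ≤ k2 →
    |(#((Ioc k1 k2).filter (fun k : ℕ => k ≡ r [MOD q] ∧ Rough (2 ^ 2 ^ J) k)) : ℝ) -
      ((k2 : ℝ) - k1) / q * V1q q (2 ^ 2 ^ J)| ≤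
      (1 / 2) ^ b0 * (((k2 : ℝ) - k1) / q * V1q q (2 ^ 2 ^ J)) +
        C1 * (J + 2) * (2 ^ 2 ^ J) ^ (C1 * b0) := by
  obtain ⟨C, hC, H⟩ := fl_gen'
  refine ⟨(2 * C) ^ (2 * C) + 2 * C, by omega, ?_⟩
  intro b0 hb0 J q r k1 k2 hq hr hk
  obtain ⟨P', hP'⟩ : ∃ P' : Finset ℕ, ∀ p, p ∈ P' ↔ (1 ≤ p ∧ p ≤ 2 ^ 2 ^ J) ∧ p.Prime ∧ ¬ p ∣ q :=
    ⟨(Icc 1 (2 ^ 2 ^ J)).filter (fun p => p.Prime ∧ ¬ p ∣ q), fun p => by rw [mem_filter, mem_Icc]⟩
  have h := H 1 b0 J (2 * C) q k1 k2 P' (fun _ => {0})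
    {r % q} ((Ioc k1 k2).filter (fun k : ℕ => k ≡ r [MOD q] ∧ Rough (2 ^ 2 ^ J) k))
    (by norm_num) (by omega) (by omega) hq hk
    (by
      intro x hx
      rw [mem_singleton] at hx
      rw [hx, mem_range]
      exact Nat.mod_lt _ (by omega))
    (by
      intro p hp
      rw [hP'] at hp
      exact ⟨hp.2.1, hp.1.2, hp.2.2⟩)
    (by
      intro p hp x hx
      rw [hP'] at hp
      rw [mem_singleton] at hx
      rw [hx, mem_range]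
      exact hp.2.1.pos)
    (by intro p _ _; simp)
    (by
      intro k
      rw [mem_filter, mem_Ioc]
      simp only [mem_singleton, hP']
      constructor
      · rintro ⟨h0, h1, h2, h3⟩
        refine ⟨h0, h1, fun p hp h4 => ?_⟩
        have := h3 p hp.2.1 (Nat.dvd_of_mod_eq_zero h4)
        omega
      · rintro ⟨h0, h1, h2⟩
        refine ⟨h0, h1, by omega, fun p hp hpk => ?_⟩
        by_contra hlt
        by_cases hpq : p ∣ q
        · have h3 : k ≡ r [MOD p] := Nat.ModEq.of_dvd hpq h1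
          have h4 : p ∣ r := (Nat.modEq_zero_iff_dvd.1 (h3.symm.trans (Nat.modEq_zero_iff_dvd.2 hpk)))
          have h5 := Nat.dvd_gcd h4 hpq
          rw [hr] at h5
          exact hp.one_lt.ne' (Nat.dvd_one.1 h5)
        · exact h2 p ⟨⟨hp.one_le, by omega⟩, hp, hpq⟩ (Nat.mod_eq_zero_of_dvd hpk))
  have hV : ((k2 : ℝ) - k1) / q * V1q q (2 ^ 2 ^ J) =
      ((k2 : ℝ) - k1) * ((#({r % q} : Finset ℕ) : ℝ) / q) *
        ∏ p ∈ P', (1 - (#({0} : Finset ℕ) : ℝ) / p) := by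
    unfold V1q
    simp only [card_singleton, Nat.cast_one]
    rw [mul_one_div]
    congr 1
    apply Finset.prod_congr _ (fun _ _ => rfl)
    ext p
    rw [mem_filter, mem_Icc, hP']
  rw [hV]
  refine h.trans ?_
  have hlast : (#({r % q} : Finset ℕ) : ℝ) * ((2 * C : ℕ) : ℝ) ^ (2 * C) * ((J : ℝ) + 2) * ((2 ^ 2 ^ J) ^ (C * b0)) ^ 2 ≤
      (((2 * C) ^ (2 * C) + 2 * C : ℕ) : ℝ) * ((J : ℝ) + 2) * (2 ^ 2 ^ J) ^ (((2 * C) ^ (2 * C) + 2 * C) * b0) := by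
    rw [card_singleton, Nat.cast_one, one_mul, ← pow_mul]
    have h1 : (1 : ℝ) ≤ 2 ^ 2 ^ J := one_le_pow₀ (by norm_num)
    have h2 : ((2 : ℝ) ^ 2 ^ J) ^ (C * b0 * 2) ≤ ((2 : ℝ) ^ 2 ^ J) ^ (((2 * C) ^ (2 * C) + 2 * C) * b0) := by
      apply pow_le_pow_right₀ h1
      nlinarith [Nat.zero_le ((2 * C) ^ (2 * C) * b0)]
    have h3 : ((2 * C : ℕ) : ℝ) ^ (2 * C) ≤ (((2 * C) ^ (2 * C) + 2 * C : ℕ) : ℝ) := by
      push_cast
      have : (0 : ℝ) ≤ 2 * C := by positivity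
      linarith
    exact mul_le_mul (mul_le_mul_of_nonneg_right h3 (by positivity)) h2 (by positivity) (by positivity)
  linarith

end Pool.Agent.N792
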