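import Mathlib
import Pool.Agent.N792.Defs

set_option autoImplicit false

namespace Pool.Agent.N792
open Finset Filter Topology
open Pool.Agent.H469R2.NK (e)

/-- the Fourier coefficients (doubled) of the triangle function -/
noncomputable def triC (δ : ℝ) (n : ℕ) : ℝ :=
  (1 - Real.cos (2 * Real.pi * n * δ)) / (Real.pi ^ 2 * (n : ℝ) ^ 2 * δ)

lemma tri_cosum {x : ℝ} (hx : x ∈ Set.Icc (0 : ℝ) 1) :
    HasSum (fun n : ℕ => 1 / (n : ℝ) ^ 2 * Real.cos (2 * Real.pi * n * x))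
      (Real.pi ^ 2 * (x ^ 2 - x + 1 / 6)) := by
  have h := hasSum_one_div_nat_pow_mul_cos (k := 1) one_ne_zero hx
  have h2 : Polynomial.bernoulli 2 = Polynomial.X ^ 2 - Polynomial.X + Polynomial.C (1 / 6 : ℚ) := by
    rw [Polynomial.bernoulli, Finset.sum_range_succ, Finset.sum_range_succ, Finset.sum_range_one]
    simp [bernoulli_zero, bernoulli_one, bernoulli_two, ← Polynomial.C_mul_X_pow_eq_monomial,
      Polynomial.C_mul_X_eq_monomial]
    ring_nf
  simp only [mul_one] at h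
  rw [h2] at h
  have h3 : Polynomial.eval x (Polynomial.map (algebraMap ℚ ℝ)
      (Polynomial.X ^ 2 - Polynomial.X + Polynomial.C (1 / 6))) = x ^ 2 - x + 1 / 6 := by
    simp
  rw [h3] at h
  have h4 : Real.pi ^ 2 * (x ^ 2 - x + 1 / 6) = (-1) ^ (1 + 1) * (2 * Real.pi) ^ 2 / 2 /
      ((Nat.factorial 2 : ℕ) : ℝ) * (x ^ 2 - x + 1 / 6) := by
    have : ((Nat.factorial 2 : ℕ) : ℝ) = 2 := by norm_num [Nat.factorial]
    rw [this]
    ring
  rw [h4]
  exact h

lemma cos_tri (n : ℕ) (θ : ℝ) :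
    Real.cos (2 * Real.pi * n * |θ - round θ|) = Real.cos (2 * Real.pi * n * θ) := by
  have h1 : Real.cos (2 * Real.pi * n * |θ - round θ|) =
      Real.cos (2 * Real.pi * n * (θ - round θ)) := by
    rcases abs_choice (θ - round θ) with h | h
    · rw [h]
    · rw [h, mul_neg, Real.cos_neg]
  rw [h1]
  have h2 : 2 * Real.pi * n * (θ - round θ) =
      2 * Real.pi * n * θ - ((n * round θ : ℤ) : ℝ) * (2 * Real.pi) := by
    push_cast; ring
  rw [h2, Real.cos_sub_int_mul_two_pi]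

lemma triC_mul (δ t : ℝ) (n : ℕ) (hδ : 0 < δ) :
    triC δ n * Real.cos (2 * Real.pi * n * t) =
      (1 / (Real.pi ^ 2 * δ)) * (1 / (n : ℝ) ^ 2 * Real.cos (2 * Real.pi * n * t) -
        (1 / (n : ℝ) ^ 2 * Real.cos (2 * Real.pi * n * (t + δ)) +
          1 / (n : ℝ) ^ 2 * Real.cos (2 * Real.pi * n * |t - δ|)) / 2) := by
  have h1 : Real.cos (2 * Real.pi * n * |t - δ|) = Real.cos (2 * Real.pi * n * (t - δ)) := by
    rcases abs_choice (t - δ) with h | h
    · rw [h]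
    · rw [h, mul_neg, Real.cos_neg]
  rw [h1]
  unfold triC
  have e1 : 2 * Real.pi * n * (t + δ) = 2 * Real.pi * n * t + 2 * Real.pi * n * δ := by ring
  have e2 : 2 * Real.pi * n * (t - δ) = 2 * Real.pi * n * t - 2 * Real.pi * n * δ := by ring
  rw [e1, e2, Real.cos_add, Real.cos_sub]
  by_cases hn : (n : ℝ) = 0
  · simp [hn]
  · have hp : Real.pi ≠ 0 := Real.pi_ne_zero
    field_simp
    ring

lemma hasSum_congr_val {f : ℕ → ℝ} {a b : ℝ} (h : HasSum f a) (hab : b = a) : HasSum f b := by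
  rw [hab]; exact h

lemma tri_hasSum {δ : ℝ} (hδ : 0 < δ) (hδ2 : δ ≤ 1 / 2) (θ : ℝ) :
    HasSum (fun n : ℕ => triC δ n * Real.cos (2 * Real.pi * n * θ)) (tri δ θ - δ) := by
  set t : ℝ := |θ - round θ| with ht
  have ht0 : 0 ≤ t := abs_nonneg _
  have ht1 : t ≤ 1 / 2 := abs_sub_round θ
  have hA := tri_cosum (x := t) ⟨ht0, by linarith⟩
  have hB := tri_cosum (x := t + δ) ⟨by linarith, by linarith⟩
  have hC := tri_cosum (x := |t - δ|) ⟨abs_nonneg _, by rw [abs_le]; constructor <;> linarith⟩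
  have hD := (hA.sub ((hB.add hC).div_const 2)).mul_left (1 / (Real.pi ^ 2 * δ))
  have hE : (fun n : ℕ => triC δ n * Real.cos (2 * Real.pi * n * θ)) = fun n : ℕ =>
      (1 / (Real.pi ^ 2 * δ)) * (1 / (n : ℝ) ^ 2 * Real.cos (2 * Real.pi * n * t) -
        (1 / (n : ℝ) ^ 2 * Real.cos (2 * Real.pi * n * (t + δ)) +
          1 / (n : ℝ) ^ 2 * Real.cos (2 * Real.pi * n * |t - δ|)) / 2) := by
    funext n
    rw [← triC_mul δ t n hδ, ht, cos_tri]
  rw [hE]
  refine (hasSum_congr_val hD ?_)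
  unfold tri
  rw [← ht]
  have hp : Real.pi ≠ 0 := Real.pi_ne_zero
  have hsq : |t - δ| ^ 2 = (t - δ) ^ 2 := sq_abs _
  rw [hsq]
  have hmax : max 0 (1 - t / δ) = (t + δ + |t - δ|) / 2 / δ - t / δ := by
    rcases le_total t δ with h | h
    · have h3 : |t - δ| = δ - t := by rw [abs_of_nonpos (by linarith)]; ring
      have h4 : t / δ ≤ 1 := by rw [div_le_one hδ]; exact h
      rw [max_eq_right (by linarith), h3]
      field_simp; ring
    · have h3 : |t - δ| = t - δ := abs_of_nonneg (by linarith)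
      have h4 : 1 ≤ t / δ := by rw [le_div_iff₀ hδ]; linarith
      rw [max_eq_left (by linarith), h3]
      field_simp; ring
  rw [hmax]
  field_simp
  ring

lemma triC_nonneg {δ : ℝ} (hδ : 0 < δ) (n : ℕ) : 0 ≤ triC δ n := by
  unfold triC
  apply div_nonneg
  · linarith [Real.cos_le_one (2 * Real.pi * n * δ)]
  · positivity

lemma triC_le_one {δ : ℝ} (hδ : 0 < δ) (n : ℕ) : triC δ n ≤ 2 * δ := by
  unfold triC
  by_cases hn : n = 0
  · subst hn; simp; linarith
  · have hn' : (0 : ℝ) < n := by positivity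
    rw [div_le_iff₀ (by positivity)]
    have := Real.one_sub_sq_div_two_le_cos (x := 2 * Real.pi * n * δ)
    nlinarith [this]

lemma triC_le_two {δ : ℝ} (hδ : 0 < δ) (n : ℕ) (hn : n ≠ 0) : triC δ n ≤ 2 / (9 * (n : ℝ) ^ 2 * δ) := by
  unfold triC
  have hn' : (0 : ℝ) < n := by positivity
  have h1 := Real.neg_one_le_cos (2 * Real.pi * n * δ)
  have h2 : (9 : ℝ) ≤ Real.pi ^ 2 := by nlinarith [Real.pi_gt_three]
  apply div_le_div₀ (by norm_num) (by linarith) (by positivity)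
  have : 0 < (n : ℝ) ^ 2 * δ := by positivity
  nlinarith

lemma tri_step_one {δ : ℝ} (hδ : 0 < δ) (k : ℕ) :
    triC δ (k + 1) * √((k + 1 : ℕ) : ℝ) ≤
      16 / δ * (1 / √((k : ℝ) + 1 / δ) - 1 / √(((k + 1 : ℕ) : ℝ) + 1 / δ)) := by
  obtain ⟨D, hD⟩ : ∃ D, D = 1 / δ := ⟨_, rfl⟩
  have hDp : 0 < D := by rw [hD]; positivity
  have hδD : δ = 1 / D := by rw [hD]; field_simp
  have e16 : 16 / δ = 16 * D := by rw [hD]; ring
  rw [e16, ← hD]
  obtain ⟨h, hh⟩ : ∃ h : ℝ, h = ((k + 1 : ℕ) : ℝ) := ⟨_, rfl⟩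
  have hk : (k : ℝ) = h - 1 := by rw [hh]; push_cast; ring
  have h1 : 1 ≤ h := by rw [hh]; push_cast; linarith [Nat.cast_nonneg (α := ℝ) k]
  have hc1 := triC_le_one hδ (k + 1)
  have hc2 := triC_le_two hδ (k + 1) (Nat.succ_ne_zero k)
  have hc0 := triC_nonneg hδ (k + 1)
  rw [← hh] at hc2 ⊢
  rw [hk]
  set c := triC δ (k + 1) with hc
  set s := √h with hs
  set d := √D with hd
  have hs1 : 1 ≤ s := by rw [hs]; exact Real.one_le_sqrt.mpr h1
  have hd0 : 0 < d := Real.sqrt_pos.mpr hDp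
  have hss : s ^ 2 = h := Real.sq_sqrt (by linarith)
  have hdd : d ^ 2 = D := Real.sq_sqrt hDp.le
  set x := √(h - 1 + D) with hx
  set y := √(h + D) with hy
  have hx0 : 0 < x := Real.sqrt_pos.mpr (by linarith)
  have hy0 : 0 < y := Real.sqrt_pos.mpr (by linarith)
  have hxx : x ^ 2 = h - 1 + D := Real.sq_sqrt (by linarith)
  have hyy : y ^ 2 = h + D := Real.sq_sqrt (by linarith)
  have hxy : x ≤ y := Real.sqrt_le_sqrt (by linarith)
  have key1 : 1 / (2 * y ^ 3) ≤ 1 / x - 1 / y := by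
    have : 1 / x - 1 / y = 1 / (x * y * (x + y)) := by
      field_simp
      nlinarith
    rw [this]
    apply one_div_le_one_div_of_le (by positivity)
    have : x * y * (x + y) ≤ y * y * (y + y) := by gcongr
    nlinarith
  have hysd : y ≤ s + d := by
    rw [hy]
    apply Real.sqrt_le_iff.mpr
    constructor
    · positivity
    · nlinarith [mul_pos (show 0 < s by linarith) hd0]
  have key2 : c * s * (2 * y ^ 3) ≤ 16 * D := by
    rcases le_total s d with hsd | hsd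
    · have hy3 : y ^ 3 ≤ 4 * d ^ 3 := by
        have a1 : y ^ 2 ≤ 2 * d ^ 2 := by
          rw [hyy, ← hss, ← hdd]; nlinarith
        have a2 : y ≤ 2 * d := by linarith
        have : y ^ 3 = y ^ 2 * y := by ring
        rw [this]
        calc y ^ 2 * y ≤ (2 * d ^ 2) * (2 * d) := by gcongr
          _ = 4 * d ^ 3 := by ring
      have hc1' : c ≤ 2 / d ^ 2 := by
        rw [hdd]; rw [hδD] at hc1; linarith [hc1, (by ring : 2 * (1 / D) = 2 / D)]
      calc c * s * (2 * y ^ 3) ≤ (2 / d ^ 2) * d * (2 * (4 * d ^ 3)) := by gcongr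
        _ = 16 * d ^ 2 := by field_simp; ring
        _ = 16 * D := by rw [hdd]
    · have hs0 : 0 < s := by linarith
      have hy3 : y ^ 3 ≤ 4 * s ^ 3 := by
        have a1 : y ^ 2 ≤ 2 * s ^ 2 := by
          rw [hyy, ← hss, ← hdd]; nlinarith
        have a2 : y ≤ 2 * s := by linarith
        have : y ^ 3 = y ^ 2 * y := by ring
        rw [this]
        calc y ^ 2 * y ≤ (2 * s ^ 2) * (2 * s) := by gcongr
          _ = 4 * s ^ 3 := by ring
      have hc2' : c ≤ 2 * D / s ^ 4 := by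
        have : 2 / (9 * h ^ 2 * δ) ≤ 2 * D / s ^ 4 := by
          rw [hδD, ← hss]
          have : 2 / (9 * (s ^ 2) ^ 2 * (1 / D)) = (2 * D / s ^ 4) / 9 := by
            field_simp
          rw [this]
          have : 0 ≤ 2 * D / s ^ 4 := by positivity
          linarith
        linarith
      calc c * s * (2 * y ^ 3) ≤ (2 * D / s ^ 4) * s * (2 * (4 * s ^ 3)) := by gcongr
        _ = 16 * D := by field_simp; ring
  calc c * s ≤ 16 * D * (1 / (2 * y ^ 3)) := by
        rw [mul_one_div, le_div_iff₀ (by positivity)]; exact key2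
    _ ≤ 16 * D * (1 / x - 1 / y) := by gcongr

lemma tri_sum_one {δ : ℝ} (hδ : 0 < δ) (n : ℕ) :
    ∑ h ∈ range n, triC δ h * √(h : ℝ) ≤ 16 / √δ := by
  have key : ∀ n : ℕ, ∑ h ∈ range (n + 1), triC δ h * √(h : ℝ) ≤
      16 / δ * (1 / √(1 / δ) - 1 / √((n : ℝ) + 1 / δ)) := by
    intro n
    induction n with
    | zero => simp
    | succ n ih =>
      rw [Finset.sum_range_succ]
      have := tri_step_one hδ n
      have e1 : 16 / δ * (1 / √(1 / δ) - 1 / √(((n + 1 : ℕ) : ℝ) + 1 / δ)) =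
        16 / δ * (1 / √(1 / δ) - 1 / √((n : ℝ) + 1 / δ)) +
        16 / δ * (1 / √((n : ℝ) + 1 / δ) - 1 / √(((n + 1 : ℕ) : ℝ) + 1 / δ)) := by ring
      rw [e1]
      exact add_le_add ih this
  have h16 : 16 / δ * (1 / √(1 / δ)) = 16 / √δ := by
    rw [Real.sqrt_div' 1 hδ.le, Real.sqrt_one, one_div_one_div]
    have h1 : √δ * √δ = δ := Real.mul_self_sqrt hδ.le
    have h2 : 0 < √δ := Real.sqrt_pos.mpr hδ
    rw [div_mul_eq_mul_div, div_eq_div_iff hδ.ne' h2.ne', mul_assoc, h1]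
  rcases Nat.eq_zero_or_pos n with h | h
  · subst h; simp; positivity
  · obtain ⟨m, rfl⟩ := Nat.exists_eq_succ_of_ne_zero h.ne'
    refine (key m).trans ?_
    rw [← h16]
    gcongr
    linarith [show 0 ≤ 1 / √((m : ℝ) + 1 / δ) by positivity]

lemma tri_step_two {δ : ℝ} (hδ : 0 < δ) (k : ℕ) :
    triC δ (k + 1) / √((k + 1 : ℕ) : ℝ) ≤
      16 * δ * (√(((k + 1 : ℕ) : ℝ) / (1 + δ * ((k + 1 : ℕ) : ℝ))) - √((k : ℝ) / (1 + δ * k))) := by
  obtain ⟨h, hh⟩ : ∃ h : ℝ, h = ((k + 1 : ℕ) : ℝ) := ⟨_, rfl⟩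
  have hk : (k : ℝ) = h - 1 := by rw [hh]; push_cast; ring
  have h1 : 1 ≤ h := by rw [hh]; push_cast; linarith [Nat.cast_nonneg (α := ℝ) k]
  have hc1 := triC_le_one hδ (k + 1)
  have hc2 := triC_le_two hδ (k + 1) (Nat.succ_ne_zero k)
  have hc0 := triC_nonneg hδ (k + 1)
  rw [← hh] at hc2 ⊢
  rw [hk]
  set c := triC δ (k + 1) with hc
  have hp1 : 0 < 1 + δ * h := by positivity
  have hp2 : 0 < 1 + δ * (h - 1) := by nlinarith
  set u := h / (1 + δ * h) with hu
  set v := (h - 1) / (1 + δ * (h - 1)) with hv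
  have hu0 : 0 < u := by positivity
  have hv0 : 0 ≤ v := div_nonneg (by linarith) hp2.le
  have huv : u - v = 1 / ((1 + δ * h) * (1 + δ * (h - 1))) := by
    rw [hu, hv, div_sub_div _ _ hp1.ne' hp2.ne']
    congr 1; ring
  have huv2 : 1 / (1 + δ * h) ^ 2 ≤ u - v := by
    rw [huv]
    apply one_div_le_one_div_of_le (by positivity)
    nlinarith
  have hvu : v ≤ u := by
    have : 0 < 1 / (1 + δ * h) ^ 2 := by positivity
    linarith
  have hsu0 : 0 < √u := Real.sqrt_pos.mpr hu0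
  have hsu : √u ≤ √h := by
    apply Real.sqrt_le_sqrt
    rw [hu]
    exact div_le_self (by linarith) (by nlinarith)
  have hsv : √v ≤ √u := Real.sqrt_le_sqrt hvu
  have hsq : (√u - √v) * (√u + √v) = u - v := by
    have a1 := Real.mul_self_sqrt hu0.le
    have a2 := Real.mul_self_sqrt hv0
    nlinarith
  have hsh0 : 0 < √h := Real.sqrt_pos.mpr (by linarith)
  have key1 : 1 / (2 * √h * (1 + δ * h) ^ 2) ≤ √u - √v := by
    have h3 : (√u - √v) * (√u + √v) ≤ (√u - √v) * (2 * √h) := by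
      apply mul_le_mul_of_nonneg_left _ (by linarith)
      linarith
    have h4 : 1 / (2 * √h * (1 + δ * h) ^ 2) = (1 / (1 + δ * h) ^ 2) / (2 * √h) := by
      field_simp
    rw [h4, div_le_iff₀ (by positivity)]
    linarith
  have key2 : c * (2 * (1 + δ * h) ^ 2) ≤ 16 * δ := by
    rcases le_total (δ * h) 1 with h3 | h3
    · have : (1 + δ * h) ^ 2 ≤ 4 := by nlinarith [mul_pos hδ (show 0 < h by linarith)]
      calc c * (2 * (1 + δ * h) ^ 2) ≤ (2 * δ) * (2 * 4) := by gcongr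
        _ = 16 * δ := by ring
    · have : (1 + δ * h) ^ 2 ≤ 4 * (δ * h) ^ 2 := by nlinarith
      calc c * (2 * (1 + δ * h) ^ 2) ≤ (2 / (9 * h ^ 2 * δ)) * (2 * (4 * (δ * h) ^ 2)) := by gcongr
        _ = 16 / 9 * δ := by field_simp; ring
        _ ≤ 16 * δ := by linarith
  calc c / √h ≤ 16 * δ * (1 / (2 * √h * (1 + δ * h) ^ 2)) := by
        rw [mul_one_div, div_le_div_iff₀ hsh0 (by positivity)]
        nlinarith
    _ ≤ 16 * δ * (√u - √v) := by gcongr

lemma tri_sum_two {δ : ℝ} (hδ : 0 < δ) (n : ℕ) :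
    ∑ h ∈ range n, triC δ h / √(h : ℝ) ≤ 16 * √δ := by
  have key : ∀ n : ℕ, ∑ h ∈ range (n + 1), triC δ h / √(h : ℝ) ≤
      16 * δ * √((n : ℝ) / (1 + δ * n)) := by
    intro n
    induction n with
    | zero => simp
    | succ n ih =>
      rw [Finset.sum_range_succ]
      have := tri_step_two hδ n
      linarith
  rcases Nat.eq_zero_or_pos n with h | h
  · subst h; simp
  · obtain ⟨m, rfl⟩ := Nat.exists_eq_succ_of_ne_zero h.ne'
    refine (key m).trans ?_
    have h1 : √((m : ℝ) / (1 + δ * m)) ≤ √(1 / δ) := by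
      apply Real.sqrt_le_sqrt
      rw [div_le_div_iff₀ (by positivity) hδ]
      linarith [mul_comm δ (m : ℝ)]
    have h16 : 16 * δ * √(1 / δ) = 16 * √δ := by
      rw [Real.sqrt_div' 1 hδ.le, Real.sqrt_one]
      have h1 : √δ * √δ = δ := Real.mul_self_sqrt hδ.le
      have h2 : 0 < √δ := Real.sqrt_pos.mpr hδ
      rw [mul_one_div, div_eq_iff h2.ne', mul_assoc, h1]
    rw [← h16]
    gcongr

theorem tri_sum {ι : Type*} (s : Finset ι) (w θ : ι → ℝ) (δ A B : ℝ) (hδ : 0 < δ) (hδ2 : δ ≤ 1 / 2)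
    (hA : 0 ≤ A) (hB : 0 ≤ B)
    (h : ∀ h : ℕ, 1 ≤ h → ‖∑ i ∈ s, (w i : ℂ) * e (h * θ i)‖ ≤ A * √(h : ℝ) + B / √(h : ℝ)) :
    |∑ i ∈ s, w i * tri δ (θ i) - δ * ∑ i ∈ s, w i| ≤ 20 * (A / √δ + B * √δ) := by
  have hS : HasSum (fun n : ℕ => triC δ n * ∑ i ∈ s, w i * Real.cos (2 * Real.pi * n * θ i))
      (∑ i ∈ s, w i * tri δ (θ i) - δ * ∑ i ∈ s, w i) := by
    have h1 : HasSum (fun n : ℕ => ∑ i ∈ s, w i * (triC δ n * Real.cos (2 * Real.pi * n * θ i)))
        (∑ i ∈ s, w i * (tri δ (θ i) - δ)) :=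
      hasSum_sum fun i _ => (tri_hasSum hδ hδ2 (θ i)).mul_left (w i)
    have e1 : (∑ i ∈ s, w i * (tri δ (θ i) - δ)) = ∑ i ∈ s, w i * tri δ (θ i) - δ * ∑ i ∈ s, w i := by
      simp only [mul_sub, Finset.sum_sub_distrib, Finset.mul_sum]
      congr 1
      exact Finset.sum_congr rfl fun i _ => mul_comm _ _
    rw [e1] at h1
    convert h1 using 2 with n
    rw [Finset.mul_sum]
    exact Finset.sum_congr rfl fun i _ => by ring
  have hre : ∀ n : ℕ, (∑ i ∈ s, w i * Real.cos (2 * Real.pi * n * θ i)) =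
      (∑ i ∈ s, (w i : ℂ) * e (n * θ i)).re := by
    intro n
    rw [Complex.re_sum]
    refine Finset.sum_congr rfl fun i _ => ?_
    rw [Complex.re_ofReal_mul]
    congr 1
    unfold e
    rw [Complex.exp_ofReal_mul_I_re]
    congr 1
    ring
  have hterm : ∀ n : ℕ, |triC δ n * ∑ i ∈ s, w i * Real.cos (2 * Real.pi * n * θ i)| ≤
      A * (triC δ n * √(n : ℝ)) + B * (triC δ n / √(n : ℝ)) := by
    intro n
    rcases Nat.eq_zero_or_pos n with hn | hn
    · subst hn; simp [triC]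
    · rw [hre n, abs_mul, abs_of_nonneg (triC_nonneg hδ n)]
      have h1 := (Complex.abs_re_le_norm (∑ i ∈ s, (w i : ℂ) * e (n * θ i))).trans (h n hn)
      calc triC δ n * |(∑ i ∈ s, (w i : ℂ) * e (n * θ i)).re| ≤
            triC δ n * (A * √(n : ℝ) + B / √(n : ℝ)) :=
            mul_le_mul_of_nonneg_left h1 (triC_nonneg hδ n)
        _ = _ := by ring
  have hpart : ∀ N : ℕ, |∑ n ∈ range N, triC δ n * ∑ i ∈ s, w i * Real.cos (2 * Real.pi * n * θ i)| ≤
      20 * (A / √δ + B * √δ) := by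
    intro N
    calc |∑ n ∈ range N, triC δ n * ∑ i ∈ s, w i * Real.cos (2 * Real.pi * n * θ i)|
        ≤ ∑ n ∈ range N, |triC δ n * ∑ i ∈ s, w i * Real.cos (2 * Real.pi * n * θ i)| :=
          Finset.abs_sum_le_sum_abs _ _
      _ ≤ ∑ n ∈ range N, (A * (triC δ n * √(n : ℝ)) + B * (triC δ n / √(n : ℝ))) :=
          Finset.sum_le_sum fun n _ => hterm n
      _ = A * ∑ n ∈ range N, triC δ n * √(n : ℝ) + B * ∑ n ∈ range N, triC δ n / √(n : ℝ) := by
          rw [Finset.sum_add_distrib, Finset.mul_sum, Finset.mul_sum]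
      _ ≤ A * (16 / √δ) + B * (16 * √δ) := by
          gcongr
          · exact tri_sum_one hδ N
          · exact tri_sum_two hδ N
      _ ≤ 20 * (A / √δ + B * √δ) := by
          have h1 : 0 ≤ A / √δ := by positivity
          have h2 : 0 ≤ B * √δ := by positivity
          have h3 : A * (16 / √δ) = 16 * (A / √δ) := by ring
          nlinarith
  exact le_of_tendsto (hS.tendsto_sum_nat.abs) (Filter.Eventually.of_forall hpart)

end Pool.Agent.N792

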