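import Mathlib
import Pool.Agent.N792.Asm

/-!
Prime powers among the values of the polynomial, on average over `c` (helper713 for helper792).
-/

set_option autoImplicit false

namespace Pool.Agent.N792

open Finset Filter Topology
open ArithmeticFunction (moebius vonMangoldt)

namespace Pow

/-- the number of the prime powers `p ^ k ≤ M`, `k ≥ 2` -/
lemma card_pp (M : ℕ) :
    #((Icc 1 M).filter (fun N => ¬ N.Prime ∧ vonMangoldt N ≠ 0)) ≤ Nat.sqrt M * Nat.log 2 M := by
  classical
  have hsub : (Icc 1 M).filter (fun N => ¬ N.Prime ∧ vonMangoldt N ≠ 0) ⊆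
      (Icc 1 (Nat.sqrt M) ×ˢ Icc 1 (Nat.log 2 M)).image (fun q => q.1 ^ q.2) := by
    intro N hN
    rw [mem_filter, mem_Icc] at hN
    obtain ⟨⟨h1, hM⟩, hnp, hv⟩ := hN
    have hpp : IsPrimePow N := by
      by_contra h
      exact hv (ArithmeticFunction.vonMangoldt_eq_zero_iff.2 h)
    obtain ⟨p, k, hp, hk, rfl⟩ := hpp
    have hp' : p.Prime := hp.nat_prime
    have hk2 : 2 ≤ k := by
      by_contra h
      have : k = 1 := by omega
      subst this
      exact hnp (by simpa using hp')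
    rw [mem_image]
    refine ⟨(p, k), ?_, rfl⟩
    rw [mem_product, mem_Icc, mem_Icc]
    refine ⟨⟨hp'.one_lt.le, ?_⟩, by omega, ?_⟩
    · rw [Nat.le_sqrt']
      exact (Nat.pow_le_pow_right hp'.pos hk2).trans hM
    · have : 2 ^ k ≤ M := (Nat.pow_le_pow_left hp'.two_le k).trans hM
      exact Nat.le_log_of_pow_le (by norm_num) this
  refine (card_le_card hsub).trans (card_image_le.trans ?_)
  rw [card_product, Nat.card_Icc, Nat.card_Icc]
  simp

lemma diff_ge (a : ℤ) (ha : 0 < a) (b : ℤ) (x1 n m : ℕ) (hb : b.natAbs ≤ x1) (hn : x1 < n)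
    (hm : n ≤ m) (c d : ℤ) (he : fv a b c n = fv a b d m) :
    ((m : ℤ) - n) * x1 ≤ c - d := by
  unfold fv at he
  have hb' : -(x1 : ℤ) ≤ b := by omega
  have h1 : (c : ℤ) - d = ((m : ℤ) - n) * (a * (m + n) + b) := by linarith
  rw [h1]
  have h0 : (0 : ℤ) ≤ (m : ℤ) - n := by omega
  refine mul_le_mul_of_nonneg_left ?_ h0
  have h2 : (m : ℤ) + n ≤ a * (m + n) := by nlinarith
  have h3 : (x1 : ℤ) < n := by exact_mod_cast hn
  have h4 : (n : ℤ) ≤ m := by exact_mod_cast hm
  linarith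

end Pow

theorem pow_avg (a : ℤ) (ha : 0 < a) (b : ℤ) (R : ℕ) : ∃ x0 : ℕ, ∀ x : ℕ, x0 ≤ x → ∀ x1 C : ℕ, x1 < x → x ≤ R * x1 → C ≤ x →
    ∑ c ∈ Icc 1 C, Lc a b x1 x c (fun N => if N.Prime then 0 else vonMangoldt N) ≤ x * Real.log x ^ 3 := by
  classical
  set A : ℕ := a.natAbs + b.natAbs + 1 with hA
  refine ⟨⌈Real.exp (18 * R * A)⌉₊ + A + R * (b.natAbs + 1) + 3, ?_⟩
  intro x hx x1 C hx1 hR hC
  have hxA : A ≤ x := by omega
  have hx3 : 3 ≤ x := by omega
  have hxR : R * (b.natAbs + 1) ≤ x := by omega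
  have hR0 : 0 < R := by
    rcases Nat.eq_zero_or_pos R with h | h
    · subst h; omega
    · exact h
  have hb1 : b.natAbs + 1 ≤ x1 := by
    have : R * (b.natAbs + 1) ≤ R * x1 := hxR.trans hR
    exact Nat.le_of_mul_le_mul_left this hR0
  have hexp : Real.exp (18 * R * A) ≤ x := by
    refine (Nat.le_ceil _).trans ?_
    exact_mod_cast (by omega : ⌈Real.exp (18 * R * A)⌉₊ ≤ x)
  have hxpos : (0 : ℝ) < x := by exact_mod_cast (by omega : 0 < x)
  have hlog : 18 * (R : ℝ) * A ≤ Real.log x := by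
    rw [Real.le_log_iff_exp_le hxpos]; exact hexp
  have hlog1 : 0 ≤ Real.log x := Real.log_nonneg (by exact_mod_cast (by omega : 1 ≤ x))
  -- the values
  set val : ℕ × ℕ → ℕ := fun q => (fv a b q.1 q.2).toNat with hval
  set M : ℕ := A * x ^ 2 with hM
  have hpos : ∀ c n : ℕ, 1 ≤ c → x1 < n → (0 : ℤ) < fv a b c n := by
    intro c n hc hn
    unfold fv
    have h1 : -(x1 : ℤ) ≤ b := by omega
    have h2 : (x1 : ℤ) < n := by exact_mod_cast hn
    have h3 : (1 : ℤ) ≤ c := by exact_mod_cast hc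
    nlinarith [mul_pos (by linarith : (0:ℤ) < n) (by linarith : (0 : ℤ) < n + b), mul_nonneg (by linarith : (0:ℤ) ≤ a - 1) (sq_nonneg (n : ℤ))]
  have hle : ∀ c n : ℕ, c ≤ C → x1 < n → n ≤ x → (fv a b c n) ≤ (M : ℤ) := by
    intro c n hc hn hnx
    unfold fv
    have h1 : (n : ℤ) ≤ x := by exact_mod_cast hnx
    have h2 : (c : ℤ) ≤ x := by exact_mod_cast hc.trans hC
    have h3 : (0 : ℤ) ≤ n := by positivity
    have hx0 : (1 : ℤ) ≤ x := by exact_mod_cast (by omega : 1 ≤ x)
    have h4 : a * (n : ℤ) ^ 2 ≤ a * (x : ℤ) ^ 2 := by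
      apply mul_le_mul_of_nonneg_left _ ha.le
      nlinarith
    have h5 : b * n ≤ (b.natAbs : ℤ) * x ^ 2 := by
      have : b ≤ (b.natAbs : ℤ) := by omega
      calc b * n ≤ (b.natAbs : ℤ) * n := by nlinarith
        _ ≤ (b.natAbs : ℤ) * x := by nlinarith [Int.natCast_nonneg b.natAbs]
        _ ≤ (b.natAbs : ℤ) * x ^ 2 := by
            apply mul_le_mul_of_nonneg_left _ (Int.natCast_nonneg b.natAbs)
            nlinarith
    have h6 : (c : ℤ) ≤ x ^ 2 := by nlinarith
    have h7 : ((A * x ^ 2 : ℕ) : ℤ) = (a.natAbs : ℤ) * x ^ 2 + (b.natAbs : ℤ) * x ^ 2 + x ^ 2 := by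
      rw [hA]; push_cast; ring
    have h8 : (a.natAbs : ℤ) = a := by omega
    rw [hM, h7, h8]
    linarith
  set T : Finset (ℕ × ℕ) := (Icc 1 C ×ˢ Ioc x1 x).filter
    (fun q => ¬ (val q).Prime ∧ vonMangoldt (val q) ≠ 0) with hT
  set P : Finset ℕ := (Icc 1 M).filter (fun N => ¬ N.Prime ∧ vonMangoldt N ≠ 0) with hP
  -- fibres
  have hfib : ∀ N ∈ P, #(T.filter (fun q => val q = N)) ≤ R := by
    intro N _
    rcases (T.filter (fun q => val q = N)).eq_empty_or_nonempty with h0 | h0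
    · rw [h0]; simp
    have hinj : Set.InjOn Prod.snd (T.filter (fun q => val q = N) : Set (ℕ × ℕ)) := by
      rintro ⟨c, n⟩ h1 ⟨d, m⟩ h2 h3
      simp only [coe_filter, Set.mem_ofPred_eq, hT, mem_filter, mem_product, mem_Icc, mem_Ioc] at h1 h2
      simp only at h3
      subst h3
      have e1 := Int.toNat_of_nonneg (hpos c n h1.1.1.1.1 h1.1.1.2.1).le
      have e2 := Int.toNat_of_nonneg (hpos d n h2.1.1.1.1 h2.1.1.2.1).le
      have e3 : val (c, n) = val (d, n) := h1.2.trans h2.2.symm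
      simp only [hval] at e3
      have e4 : fv a b c n = fv a b d n := by rw [← e1, ← e2, e3]
      unfold fv at e4
      have : (c : ℤ) = d := by linarith
      have : c = d := by exact_mod_cast this
      rw [this]
    rw [← card_image_of_injOn hinj]
    set S := (T.filter (fun q => val q = N)).image Prod.snd with hS
    have hSne : S.Nonempty := h0.image _
    have hsub : S ⊆ Ico (S.min' hSne) (S.min' hSne + R) := by
      intro m hm
      have hmin := S.min'_mem hSne
      have hle' := S.min'_le m hm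
      set n := S.min' hSne with hn
      rw [hS, mem_image] at hm hmin
      obtain ⟨⟨d, m'⟩, h2, rfl⟩ := hm
      obtain ⟨⟨c, n'⟩, h1, hn'⟩ := hmin
      simp only at hn' hle' ⊢
      simp only [hT, mem_filter, mem_product, mem_Icc, mem_Ioc] at h1 h2
      rw [mem_Ico]
      refine ⟨hle', ?_⟩
      rw [← hn'] at hle' ⊢
      have e1 := Int.toNat_of_nonneg (hpos c n' h1.1.1.1.1 h1.1.1.2.1).le
      have e2 := Int.toNat_of_nonneg (hpos d m' h2.1.1.1.1 h2.1.1.2.1).le
      have e3 : val (c, n') = val (d, m') := h1.2.trans h2.2.symm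
      simp only [hval] at e3
      have e4 : fv a b c n' = fv a b d m' := by rw [← e1, ← e2, e3]
      have e5 := Pow.diff_ge a ha b x1 n' m' (by omega) h1.1.1.2.1 hle' c d e4
      have e6 : ((m' : ℤ) - n') * x1 < R * x1 := by
        have : (c : ℤ) ≤ C := by exact_mod_cast h1.1.1.1.2
        have h7 : (C : ℤ) ≤ x := by exact_mod_cast hC
        have h8 : (x : ℤ) ≤ R * x1 := by exact_mod_cast hR
        have h9 : (1 : ℤ) ≤ d := by exact_mod_cast h2.1.1.1.1
        linarith
      have e7 : (m' : ℤ) - n' < R := lt_of_mul_lt_mul_right e6 (by positivity)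
      omega
    refine (card_le_card hsub).trans ?_
    simp
  have hmaps : ∀ q ∈ T, val q ∈ P := by
    rintro ⟨c, n⟩ hq
    rw [hT, mem_filter, mem_product, mem_Icc, mem_Ioc] at hq
    obtain ⟨⟨hc, hn⟩, hq2⟩ := hq
    rw [hP, mem_filter, mem_Icc]
    refine ⟨⟨?_, ?_⟩, hq2⟩
    · have := hpos c n hc.1 hn.1
      simp only [hval]
      omega
    · have := hle c n hc.2 hn.1 hn.2
      simp only [hval]
      omega
  have hcardT : #T ≤ R * #P := by
    have := card_le_mul_card_image_of_maps_to hmaps R hfib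
    simpa [mul_comm] using this
  have hsqrt : Nat.sqrt M ≤ A * x := by
    rw [hM]
    have h1 : A * x ^ 2 ≤ (A * x) ^ 2 := by
      rw [mul_pow]
      have : A ≤ A ^ 2 := by nlinarith [Nat.succ_pos (a.natAbs + b.natAbs)]
      exact Nat.mul_le_mul_right _ this
    calc Nat.sqrt (A * x ^ 2) ≤ Nat.sqrt ((A * x) ^ 2) := Nat.sqrt_le_sqrt h1
      _ = A * x := Nat.sqrt_eq' _
  have hMpos : 0 < M := by rw [hM]; positivity
  have hAx : Real.log A ≤ Real.log x := Real.log_le_log (by rw [hA]; positivity) (by exact_mod_cast hxA)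
  have hlogM : Real.log M ≤ 3 * Real.log x := by
    rw [hM]
    push_cast
    rw [Real.log_mul (by rw [hA]; positivity) (by positivity), Real.log_pow]
    push_cast
    linarith
  have hlog2 : (Nat.log 2 M : ℝ) ≤ 6 * Real.log x := by
    have h1 : (2 : ℝ) ^ Nat.log 2 M ≤ M := by exact_mod_cast Nat.pow_log_le_self 2 hMpos.ne'
    have h2 := Real.log_le_log (by positivity) h1
    rw [Real.log_pow] at h2
    have h3 : (1 : ℝ) / 2 ≤ Real.log 2 := by linarith [Real.log_two_gt_d9]
    have h4 : (0 : ℝ) ≤ Nat.log 2 M := by positivity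
    nlinarith
  have hcardP : (#P : ℝ) ≤ (A * x) * (6 * Real.log x) := by
    have h1 : (#P : ℝ) ≤ (Nat.sqrt M : ℝ) * (Nat.log 2 M : ℝ) := by exact_mod_cast Pow.card_pp M
    refine h1.trans ?_
    refine mul_le_mul ?_ hlog2 (by positivity) (by positivity)
    exact_mod_cast hsqrt
  -- the sum
  have hsum : ∑ c ∈ Icc 1 C, Lc a b x1 x c (fun N => if N.Prime then 0 else vonMangoldt N) =
      ∑ q ∈ T, vonMangoldt (val q) := by
    unfold Lc
    rw [← Finset.sum_product' (f := fun c n => (fun N => if N.Prime then 0 else vonMangoldt N) (fv a b (c : ℕ) n).toNat)]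
    rw [hT, sum_filter]
    refine sum_congr rfl ?_
    rintro ⟨c, n⟩ _
    simp only [hval]
    by_cases h1 : ((fv a b c n).toNat).Prime
    · simp [h1]
    · by_cases h2 : vonMangoldt (fv a b c n).toNat = 0
      · simp [h1, h2]
      · simp [h1, h2]
  rw [hsum]
  have hterm : ∀ q ∈ T, vonMangoldt (val q) ≤ 3 * Real.log x := by
    intro q hq
    have h1 := hmaps q hq
    rw [hP, mem_filter, mem_Icc] at h1
    refine ArithmeticFunction.vonMangoldt_le_log.trans ((Real.log_le_log ?_ ?_).trans hlogM)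
    · exact_mod_cast h1.1.1
    · exact_mod_cast h1.1.2
  refine (sum_le_card_nsmul T _ _ hterm).trans ?_
  rw [nsmul_eq_mul]
  have hT' : (#T : ℝ) ≤ R * ((A * x) * (6 * Real.log x)) := by
    have : (#T : ℝ) ≤ R * #P := by exact_mod_cast hcardT
    exact this.trans (mul_le_mul_of_nonneg_left hcardP (by positivity))
  calc (#T : ℝ) * (3 * Real.log x) ≤ (R * ((A * x) * (6 * Real.log x))) * (3 * Real.log x) :=
        mul_le_mul_of_nonneg_right hT' (by positivity)
    _ = x * (18 * R * A) * Real.log x ^ 2 := by ring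
    _ ≤ x * Real.log x * Real.log x ^ 2 := by
        apply mul_le_mul_of_nonneg_right _ (by positivity)
        exact mul_le_mul_of_nonneg_left hlog (by positivity)
    _ = x * Real.log x ^ 3 := by ring

end Pool.Agent.N792
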