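import Pool.Agent.N792.QStm

set_option autoImplicit false

/-!
Q1: the spacing of the numbers `h √k` (helper407).
-/

namespace Pool.Agent.N792

open Finset

namespace QA

/-- integers in one class modulo `m` with differences at most `L` -/
theorem card_class_le (A : Finset ℤ) (m : ℕ) (hm : 0 < m) (L : ℝ) (hL : 0 ≤ L)
    (h : ∀ x ∈ A, ∀ y ∈ A, (m : ℤ) ∣ x - y ∧ ((x - y : ℤ) : ℝ) ≤ L) :
    (#A : ℝ) ≤ L / m + 1 := by
  have hm' : (0 : ℝ) < m := by exact_mod_cast hm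
  rcases A.eq_empty_or_nonempty with rfl | hne
  · simp only [card_empty, Nat.cast_zero]
    positivity
  · set x0 := A.min' hne with hx0
    have h0 : x0 ∈ A := A.min'_mem hne
    have key : ∀ x ∈ A, ∃ k : ℕ, x - x0 = m * k ∧ k ≤ ⌊L / m⌋₊ := by
      intro x hx
      obtain ⟨⟨k, hk⟩, h2⟩ := h x hx x0 h0
      have hpos : 0 ≤ x - x0 := by
        have := A.min'_le x hx
        omega
      have hk0 : 0 ≤ k := by
        rw [hk] at hpos
        by_contra hneg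
        push Not at hneg
        have : (m : ℤ) * k < 0 := mul_neg_of_pos_of_neg (by exact_mod_cast hm) hneg
        omega
      obtain ⟨k', rfl⟩ := Int.eq_ofNat_of_zero_le hk0
      refine ⟨k', hk, ?_⟩
      apply Nat.le_floor
      rw [le_div_iff₀ hm']
      rw [hk] at h2
      push_cast at h2
      linarith
    have hc : #A ≤ #(range (⌊L / m⌋₊ + 1)) := by
      apply Finset.card_le_card_of_injOn (fun x => ((x - x0) / m).toNat)
      · intro x hx
        obtain ⟨k, hk, hk2⟩ := key x hx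
        simp only [coe_range, Set.mem_Iio]
        rw [hk, Int.mul_ediv_cancel_left _ (by exact_mod_cast hm.ne')]
        simpa using Nat.lt_succ_of_le hk2
      · intro x hx y hy hxy
        obtain ⟨k, hk, -⟩ := key x hx
        obtain ⟨k', hk', -⟩ := key y hy
        simp only at hxy
        rw [hk, hk', Int.mul_ediv_cancel_left _ (by exact_mod_cast hm.ne'),
          Int.mul_ediv_cancel_left _ (by exact_mod_cast hm.ne')] at hxy
        have : k = k' := by simpa using hxy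
        subst this
        omega
    rw [card_range] at hc
    have h3 : (⌊L / m⌋₊ : ℝ) ≤ L / m := Nat.floor_le (by positivity)
    have h4 : (#A : ℝ) ≤ (⌊L / m⌋₊ : ℝ) + 1 := by exact_mod_cast hc
    linarith

/-- naturals in one class modulo `m` with differences at most `L` -/
theorem card_class_le_nat (A : Finset ℕ) (m : ℕ) (hm : 0 < m) (L : ℝ) (hL : 0 ≤ L)
    (h : ∀ x ∈ A, ∀ y ∈ A, (m : ℤ) ∣ (x : ℤ) - y ∧ ((x : ℝ) - y) ≤ L) :
    (#A : ℝ) ≤ L / m + 1 := by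
  have := card_class_le (A.image (fun x : ℕ => (x : ℤ))) m hm L hL (by
    intro x hx y hy
    rw [mem_image] at hx hy
    obtain ⟨x, hx, rfl⟩ := hx
    obtain ⟨y, hy, rfl⟩ := hy
    obtain ⟨h1, h2⟩ := h x hx y hy
    refine ⟨h1, ?_⟩
    push_cast
    exact h2)
  rwa [card_image_of_injective _ Nat.cast_injective] at this

/-- the frequencies -/
def SH (n H t : ℕ) : Finset ℕ := (Ico H (2 * H)).filter (fun h => h ≡ t [MOD n])

/-- the variables -/
def SK (q K r : ℕ) : Finset ℕ := (Ioc K (2 * K)).filter (fun k => k ≡ r [MOD q])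

/-- the pairs of variables for a pair of frequencies -/
def NN (q K r T h h1 : ℕ) : Finset (ℕ × ℕ) :=
  (SK q K r ×ˢ SK q K r).filter
    (fun v => |(h : ℤ) ^ 2 * (v.1 : ℤ) - (h1 : ℤ) ^ 2 * (v.2 : ℤ)| ≤ (T : ℤ))

theorem modEq_dvd_sub {m x y r : ℕ} (hx : x ≡ r [MOD m]) (hy : y ≡ r [MOD m]) :
    (m : ℤ) ∣ (x : ℤ) - y :=
  (Nat.modEq_iff_dvd.1 (hy.trans hx.symm))

/-- one value of `h² k - h1² k1` -/
theorem fiber_le {q K r h h1 : ℕ} (hq : 0 < q) (hh1 : 0 < h1) (hh : 0 < h)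
    (D : ℤ) (A : Finset (ℕ × ℕ)) (hA : A ⊆ SK q K r ×ˢ SK q K r)
    (hD : ∀ v ∈ A, (h : ℤ) ^ 2 * (v.1 : ℤ) - (h1 : ℤ) ^ 2 * (v.2 : ℤ) = D) :
    (#A : ℝ) ≤ K / (q * (h1 / Nat.gcd h h1 : ℕ) ^ 2 : ℕ) + 1 := by
  set g := Nat.gcd h h1 with hg
  have hg0 : 0 < g := Nat.gcd_pos_of_pos_left _ hh
  obtain ⟨a, ha⟩ := Nat.gcd_dvd_left h h1
  obtain ⟨b, hb⟩ := Nat.gcd_dvd_right h h1
  rw [← hg] at ha hb
  have hb' : h1 / g = b := by rw [hb]; exact Nat.mul_div_cancel_left _ hg0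
  have hb0 : 0 < b := by
    rcases Nat.eq_zero_or_pos b with h0 | h0
    · rw [h0] at hb; omega
    · exact h0
  have hab : Nat.Coprime a b := by
    have := Nat.coprime_div_gcd_div_gcd (m := h) (n := h1) hg0
    rw [← hg, ha, hb, Nat.mul_div_cancel_left _ hg0, Nat.mul_div_cancel_left _ hg0] at this
    exact this
  rw [hb']
  have hinj : Set.InjOn Prod.fst (A : Set (ℕ × ℕ)) := by
    intro v hv w hw hvw
    have e1 := hD v hv
    have e2 := hD w hw
    rw [hvw] at e1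
    have e3 : (h1 : ℤ) ^ 2 * (v.2 : ℤ) = (h1 : ℤ) ^ 2 * (w.2 : ℤ) := by linarith
    have e4 : (v.2 : ℤ) = w.2 := mul_left_cancel₀ (by positivity) e3
    exact Prod.ext hvw (by exact_mod_cast e4)
  rw [← card_image_of_injOn hinj]
  have := card_class_le_nat (A.image Prod.fst) (q * b ^ 2) (by positivity) K (by positivity) (by
    intro x hx y hy
    rw [mem_image] at hx hy
    obtain ⟨v, hv, rfl⟩ := hx
    obtain ⟨w, hw, rfl⟩ := hy
    have hv' := hA hv
    have hw' := hA hw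
    simp only [SK, mem_product, mem_filter, mem_Ioc] at hv' hw'
    obtain ⟨⟨⟨hv1, hv2⟩, hv3⟩, ⟨⟨hv4, hv5⟩, hv6⟩⟩ := hv'
    obtain ⟨⟨⟨hw1, hw2⟩, hw3⟩, ⟨⟨hw4, hw5⟩, hw6⟩⟩ := hw'
    constructor
    · obtain ⟨u, hu⟩ := modEq_dvd_sub hv3 hw3
      obtain ⟨u', hu'⟩ := modEq_dvd_sub hv6 hw6
      have e1 := hD v hv
      have e2 := hD w hw
      have e3 : (h : ℤ) ^ 2 * ((v.1 : ℤ) - w.1) = (h1 : ℤ) ^ 2 * ((v.2 : ℤ) - w.2) := by linarith
      rw [hu, hu', ha, hb] at e3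
      push_cast at e3
      have e4 : ((g : ℤ) ^ 2 * q) * ((a : ℤ) ^ 2 * u) = ((g : ℤ) ^ 2 * q) * ((b : ℤ) ^ 2 * u') := by
        linear_combination e3
      have e5 : (a : ℤ) ^ 2 * u = (b : ℤ) ^ 2 * u' := mul_left_cancel₀ (by positivity) e4
      have e6 : ((b : ℤ) ^ 2) ∣ (a : ℤ) ^ 2 * u := ⟨u', e5⟩
      have e7 : IsCoprime ((b : ℤ) ^ 2) ((a : ℤ) ^ 2) :=
        ((Nat.isCoprime_iff_coprime.2 hab.symm).pow : _)
      obtain ⟨s, hs⟩ := e7.dvd_of_dvd_mul_left e6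
      refine ⟨s, ?_⟩
      rw [hu, hs]
      push_cast
      ring
    · have h1' : (v.1 : ℝ) ≤ 2 * K := by exact_mod_cast hv2
      have h2' : (K : ℝ) ≤ w.1 := by exact_mod_cast hw1.le
      linarith)
  exact this

/-- the number of pairs of variables for one pair of frequencies -/
theorem NN_le {a n H K r h h1 : ℕ} (ha : 1 ≤ a) (hn : 1 ≤ n) (hnH : n ≤ H)
    (hh : H ≤ h) (hh1 : H ≤ h1) :
    (#(NN (4 * a * n) K r (2 * a * H * n ^ 2) h h1) : ℝ) ≤
      ((H : ℝ) * n / (Nat.gcd h h1 : ℝ) ^ 2 + 1) *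
        (K * (Nat.gcd h h1 : ℝ) ^ 2 / (4 * a * n * (H : ℝ) ^ 2) + 1) := by
  set q := 4 * a * n with hq
  have hq0 : 0 < q := by positivity
  have hH0 : 0 < H := by omega
  have hh0 : 0 < h := by omega
  have hh10 : 0 < h1 := by omega
  set g := Nat.gcd h h1 with hg
  have hg0 : 0 < g := Nat.gcd_pos_of_pos_left _ hh0
  set A := NN q K r (2 * a * H * n ^ 2) h h1 with hA
  set f : ℕ × ℕ → ℤ := fun v => (h : ℤ) ^ 2 * (v.1 : ℤ) - (h1 : ℤ) ^ 2 * (v.2 : ℤ) with hf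
  have hsub : A ⊆ SK q K r ×ˢ SK q K r := filter_subset _ _
  -- the number of values
  have hval : (#(A.image f) : ℝ) ≤ (H : ℝ) * n / (g : ℝ) ^ 2 + 1 := by
    have := card_class_le (A.image f) (q * g ^ 2) (by positivity) (4 * a * H * (n : ℝ) ^ 2)
      (by positivity) (by
        intro x hx y hy
        rw [mem_image] at hx hy
        obtain ⟨v, hv, rfl⟩ := hx
        obtain ⟨w, hw, rfl⟩ := hy
        have hv' := hsub hv
        have hw' := hsub hw
        simp only [SK, mem_product, mem_filter, mem_Ioc] at hv' hw'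
        obtain ⟨⟨-, hv3⟩, ⟨-, hv6⟩⟩ := hv'
        obtain ⟨⟨-, hw3⟩, ⟨-, hw6⟩⟩ := hw'
        constructor
        · obtain ⟨u, hu⟩ := modEq_dvd_sub hv3 hw3
          obtain ⟨u', hu'⟩ := modEq_dvd_sub hv6 hw6
          obtain ⟨a', ha'⟩ := Nat.gcd_dvd_left h h1
          obtain ⟨b', hb'⟩ := Nat.gcd_dvd_right h h1
          rw [← hg] at ha' hb'
          refine ⟨(a' : ℤ) ^ 2 * u - (b' : ℤ) ^ 2 * u', ?_⟩
          have e1 : f v - f w = (h : ℤ) ^ 2 * ((v.1 : ℤ) - w.1) - (h1 : ℤ) ^ 2 * ((v.2 : ℤ) - w.2) := by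
            simp only [hf]; ring
          rw [e1, hu, hu', ha', hb']
          push_cast
          ring
        · have h1' := (mem_filter.1 hv).2
          have h2' := (mem_filter.1 hw).2
          rw [abs_le] at h1' h2'
          have h3 : f v - f w ≤ 2 * (2 * a * H * n ^ 2 : ℕ) := by
            simp only [hf]
            linarith [h1'.2, h2'.1]
          have h4 : ((f v - f w : ℤ) : ℝ) ≤ ((2 * (2 * a * H * n ^ 2 : ℕ) : ℤ) : ℝ) := by
            exact_mod_cast h3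
          refine h4.trans (le_of_eq ?_)
          push_cast
          ring)
    refine this.trans (le_of_eq ?_)
    rw [hq]
    push_cast
    have : (a : ℝ) ≠ 0 := by positivity
    have : (n : ℝ) ≠ 0 := by positivity
    have : (g : ℝ) ≠ 0 := by positivity
    field_simp
  -- the fibers
  have hfib : ∀ D ∈ A.image f, (#(A.filter (fun v => f v = D)) : ℝ) ≤
      K * (g : ℝ) ^ 2 / (4 * a * n * (H : ℝ) ^ 2) + 1 := by
    intro D _
    have h1' := fiber_le (q := q) (K := K) (r := r) (h := h) (h1 := h1) hq0 hh10 hh0 D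
      (A.filter (fun v => f v = D)) ((filter_subset _ _).trans hsub)
      (fun v hv => (mem_filter.1 hv).2)
    refine h1'.trans ?_
    have h2' : (K : ℝ) / ((q * (h1 / Nat.gcd h h1) ^ 2 : ℕ) : ℝ) ≤
        K * (g : ℝ) ^ 2 / (4 * a * n * (H : ℝ) ^ 2) := by
      rw [← hg]
      have e1 : ((h1 / g : ℕ) : ℝ) = (h1 : ℝ) / g := by
        rw [Nat.cast_div (Nat.gcd_dvd_right h h1) (by positivity)]
      push_cast
      rw [e1, hq]
      push_cast
      have e2 : (K : ℝ) / (4 * a * n * ((h1 : ℝ) / g) ^ 2) = K * (g : ℝ) ^ 2 / (4 * a * n * (h1 : ℝ) ^ 2) := by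
        have : (h1 : ℝ) ≠ 0 := by positivity
        have : (g : ℝ) ≠ 0 := by positivity
        field_simp
      rw [e2]
      apply div_le_div_of_nonneg_left (by positivity) (by positivity)
      have : (H : ℝ) ≤ h1 := by exact_mod_cast hh1
      gcongr
    linarith
  have hsum : (#A : ℝ) = ∑ D ∈ A.image f, (#(A.filter (fun v => f v = D)) : ℝ) := by
    exact_mod_cast Finset.card_eq_sum_card_image f A
  rw [hsum]
  refine (sum_le_sum hfib).trans ?_
  rw [sum_const, nsmul_eq_mul]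
  exact mul_le_mul_of_nonneg_right hval (by positivity)

/-- the number of the frequencies -/
theorem SH_card {n H t : ℕ} (hn : 1 ≤ n) (hnH : n ≤ H) : (#(SH n H t) : ℝ) ≤ 2 * H / n := by
  have h := card_class_le_nat (SH n H t) n hn H (by positivity) (by
    intro x hx y hy
    simp only [SH, mem_filter, mem_Ico] at hx hy
    refine ⟨modEq_dvd_sub hx.2 hy.2, ?_⟩
    have h1 : (x : ℝ) ≤ 2 * H := by exact_mod_cast hx.1.2.le
    have h2 : (H : ℝ) ≤ y := by exact_mod_cast hy.1.1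
    linarith)
  have hn0 : (0 : ℝ) < n := by exact_mod_cast hn
  have h1 : (1 : ℝ) ≤ H / n := by
    rw [le_div_iff₀ hn0, one_mul]; exact_mod_cast hnH
  rw [mul_div_assoc]
  linarith

/-- the frequencies divisible by `d` -/
def TD (n H t d : ℕ) : Finset ℕ := (SH n H t).filter (fun h => d ∣ h)

theorem TD_diff {n H t d x y : ℕ} (hx : x ∈ TD n H t d) (hy : y ∈ TD n H t d) :
    (Nat.lcm d n : ℤ) ∣ (x : ℤ) - y ∧ ((x : ℝ) - y) ≤ H - 1 := by
  simp only [TD, SH, mem_filter, mem_Ico] at hx hy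
  constructor
  · apply Int.natCast_dvd.2
    apply Nat.lcm_dvd
    · have h1 : (d : ℤ) ∣ (x : ℤ) := by exact_mod_cast hx.2
      have h2 : (d : ℤ) ∣ (y : ℤ) := by exact_mod_cast hy.2
      exact Int.natCast_dvd.1 (dvd_sub h1 h2)
    · exact Int.natCast_dvd.1 (modEq_dvd_sub hx.1.2 hy.1.2)
  · have h1 : (x : ℝ) + 1 ≤ 2 * H := by exact_mod_cast hx.1.1.2
    have h2 : (H : ℝ) ≤ y := by exact_mod_cast hy.1.1.1
    linarith

theorem TD_offDiag {n H t d : ℕ} (hn : 1 ≤ n) (hd : 1 ≤ d) (hH : 1 ≤ H) :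
    (#(TD n H t d).offDiag : ℝ) ≤
      if Nat.lcm d n ≤ H then (2 * (H : ℝ) / (Nat.lcm d n : ℝ)) ^ 2 else 0 := by
  set l := Nat.lcm d n with hl
  have hl0 : 0 < l := Nat.lcm_pos hd hn
  have hl0' : (0 : ℝ) < l := by exact_mod_cast hl0
  have hH1 : (1 : ℝ) ≤ H := by exact_mod_cast hH
  have hcard : (#(TD n H t d) : ℝ) ≤ ((H : ℝ) - 1) / l + 1 :=
    card_class_le_nat (TD n H t d) l hl0 ((H : ℝ) - 1) (by linarith) (fun x hx y hy =>
      TD_diff hx hy)
  split_ifs with hlH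
  · have h1 : (1 : ℝ) ≤ H / l := by
      rw [le_div_iff₀ hl0', one_mul]; exact_mod_cast hlH
    have h2 : ((H : ℝ) - 1) / l ≤ H / l := by gcongr; linarith
    have h3 : (#(TD n H t d) : ℝ) ≤ 2 * H / l := by
      rw [mul_div_assoc]; linarith
    have h4 : (#(TD n H t d).offDiag : ℝ) ≤ (#(TD n H t d) : ℝ) ^ 2 := by
      have : #(TD n H t d).offDiag ≤ #(TD n H t d) ^ 2 := by
        rw [offDiag_card, sq]; exact Nat.sub_le _ _
      exact_mod_cast this
    refine h4.trans ?_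
    gcongr
  · have h1 : ((H : ℝ) - 1) / l < 1 := by
      rw [div_lt_one hl0']
      push Not at hlH
      have : (H : ℝ) < l := by exact_mod_cast hlH
      linarith
    have h2 : (#(TD n H t d) : ℝ) < 2 := by linarith
    have h3 : #(TD n H t d) < 2 := by exact_mod_cast h2
    have h4 : #(TD n H t d).offDiag = 0 := by
      rw [offDiag_card]
      interval_cases #(TD n H t d) <;> rfl
    rw [h4]
    simp

/-- the sum of the squares of the divisors -/
theorem sum_divisors_sq (n : ℕ) (hn : 1 ≤ n) : ∑ g ∈ n.divisors, (g : ℝ) ^ 2 ≤ 2 * (n : ℝ) ^ 2 := by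
  have h1 : ∑ g ∈ n.divisors, (g : ℝ) ^ 2 = ∑ g ∈ n.divisors, ((n / g : ℕ) : ℝ) ^ 2 :=
    (Nat.sum_div_divisors n (fun g => (g : ℝ) ^ 2)).symm
  have h2 : ∑ g ∈ n.divisors, ((n / g : ℕ) : ℝ) ^ 2 ≤ ∑ g ∈ Icc 1 n, ((n : ℝ) ^ 2 * (1 / (g : ℝ) ^ 2)) := by
    refine (sum_le_sum (g := fun g : ℕ => ((n : ℝ) ^ 2 * (1 / (g : ℝ) ^ 2))) ?_).trans
      (sum_le_sum_of_subset_of_nonneg ?_ ?_)
    · intro g hg
      have hg' := Nat.dvd_of_mem_divisors hg
      have hg0 : 0 < g := Nat.pos_of_mem_divisors hg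
      rw [Nat.cast_div hg' (by positivity)]
      have : (g : ℝ) ≠ 0 := by positivity
      apply le_of_eq
      field_simp
    · intro g hg
      have hg' := Nat.dvd_of_mem_divisors hg
      exact mem_Icc.2 ⟨Nat.pos_of_mem_divisors hg, Nat.le_of_dvd hn hg'⟩
    · intro g _ _
      positivity
  rw [h1]
  refine h2.trans ?_
  rw [← mul_sum, mul_comm (2 : ℝ)]
  apply mul_le_mul_of_nonneg_left _ (by positivity)
  have key : ∀ m : ℕ, 1 ≤ m → ∑ g ∈ Icc 1 m, (1 : ℝ) / (g : ℝ) ^ 2 ≤ 2 - 1 / (m : ℝ) := by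
    intro m hm
    induction m, hm using Nat.le_induction with
    | base => norm_num
    | succ m hm ih =>
      rw [sum_Icc_succ_top (by omega)]
      have hm0 : (0 : ℝ) < m := by exact_mod_cast hm
      have : 1 / ((m + 1 : ℕ) : ℝ) ^ 2 ≤ 1 / (m : ℝ) - 1 / ((m + 1 : ℕ) : ℝ) := by
        push_cast
        rw [div_sub_div _ _ (by positivity) (by positivity), div_le_div_iff₀ (by positivity) (by positivity)]
        nlinarith
      linarith
  have := key n hn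
  have hn0 : (0 : ℝ) < n := by exact_mod_cast hn
  have h0 : (0 : ℝ) < 1 / n := by positivity
  linarith

/-- the sum of `gcd(d, n)²` over `lcm(d, n) ≤ H` -/
theorem sum_gcd_sq (n H : ℕ) (hn : 1 ≤ n) :
    ∑ d ∈ (Icc 1 H).filter (fun d => Nat.lcm d n ≤ H), (Nat.gcd d n : ℝ) ^ 2 ≤ 2 * (n : ℝ) * H := by
  set S := (Icc 1 H).filter (fun d => Nat.lcm d n ≤ H) with hS
  have hmaps : ∀ d ∈ S, Nat.gcd d n ∈ n.divisors := fun d _ =>
    Nat.mem_divisors.2 ⟨Nat.gcd_dvd_right d n, by omega⟩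
  rw [← sum_fiberwise_of_maps_to hmaps]
  have hn0 : (0 : ℝ) < n := by exact_mod_cast hn
  have h1 : ∀ g ∈ n.divisors, ∑ d ∈ S.filter (fun d => Nat.gcd d n = g), (Nat.gcd d n : ℝ) ^ 2 ≤
      (g : ℝ) ^ 2 * ((H : ℝ) / n) := by
    intro g hg
    have hg0 : 0 < g := Nat.pos_of_mem_divisors hg
    have e1 : ∑ d ∈ S.filter (fun d => Nat.gcd d n = g), (Nat.gcd d n : ℝ) ^ 2 =
        ∑ d ∈ S.filter (fun d => Nat.gcd d n = g), (g : ℝ) ^ 2 :=
      sum_congr rfl (fun d hd => by rw [(mem_filter.1 hd).2])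
    rw [e1, sum_const, nsmul_eq_mul, mul_comm]
    apply mul_le_mul_of_nonneg_left _ (by positivity)
    have hc : #(S.filter (fun d => Nat.gcd d n = g)) ≤ #(Icc 1 (H / n)) := by
      apply Finset.card_le_card_of_injOn (fun d => d / g)
      · intro d hd
        simp only [coe_filter, Set.mem_ofPred_eq, hS, mem_filter, mem_Icc] at hd
        obtain ⟨⟨⟨hd1, hd2⟩, hd3⟩, hd4⟩ := hd
        simp only [coe_Icc, Set.mem_Icc]
        obtain ⟨d', hd'⟩ := (hd4 ▸ Nat.gcd_dvd_left d n : g ∣ d)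
        have e2 : d / g = d' := by rw [hd']; exact Nat.mul_div_cancel_left _ hg0
        have hd'0 : 0 < d' := by
          rcases Nat.eq_zero_or_pos d' with h0 | h0
          · rw [h0] at hd'; omega
          · exact h0
        rw [e2]
        refine ⟨hd'0, ?_⟩
        rw [Nat.le_div_iff_mul_le hn]
        have e3 : Nat.gcd d n * Nat.lcm d n = d * n := Nat.gcd_mul_lcm d n
        rw [hd4, hd', mul_assoc] at e3
        have e4 : Nat.lcm (g * d') n = d' * n := Nat.eq_of_mul_eq_mul_left hg0 e3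
        rw [← e4, ← hd']
        exact hd3
      · intro d hd d2 hd2 hdd
        simp only [coe_filter, Set.mem_ofPred_eq] at hd hd2
        have e1 : g ∣ d := hd.2 ▸ Nat.gcd_dvd_left d n
        have e2 : g ∣ d2 := hd2.2 ▸ Nat.gcd_dvd_left d2 n
        simp only at hdd
        rw [← Nat.div_mul_cancel e1, ← Nat.div_mul_cancel e2, hdd]
    rw [Nat.card_Icc, Nat.add_sub_cancel] at hc
    have h2 : ((H / n : ℕ) : ℝ) ≤ (H : ℝ) / n := Nat.cast_div_le
    exact (by exact_mod_cast hc : (#(S.filter (fun d => Nat.gcd d n = g)) : ℝ) ≤ ((H / n : ℕ) : ℝ)).trans h2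
  refine (sum_le_sum h1).trans ?_
  rw [← sum_mul]
  have h2 := sum_divisors_sq n hn
  calc (∑ g ∈ n.divisors, (g : ℝ) ^ 2) * ((H : ℝ) / n) ≤ 2 * (n : ℝ) ^ 2 * ((H : ℝ) / n) :=
        mul_le_mul_of_nonneg_right h2 (by positivity)
    _ = 2 * (n : ℝ) * H := by field_simp

/-- the sum of the squares of the greatest common divisors of the frequencies -/
theorem gcd_sum {n H t : ℕ} (hn : 1 ≤ n) (hnH : n ≤ H) :
    ∑ p ∈ SH n H t ×ˢ SH n H t, (Nat.gcd p.1 p.2 : ℝ) ^ 2 ≤ 16 * (H : ℝ) ^ 3 / n := by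
  have hH : 1 ≤ H := hn.trans hnH
  have hn0 : (0 : ℝ) < n := by exact_mod_cast hn
  have hH0 : (0 : ℝ) < H := by exact_mod_cast hH
  have hsplit : SH n H t ×ˢ SH n H t = (SH n H t).diag ∪ (SH n H t).offDiag :=
    (diag_union_offDiag _).symm
  rw [hsplit, sum_union (disjoint_diag_offDiag _)]
  have hdiag : ∑ p ∈ (SH n H t).diag, (Nat.gcd p.1 p.2 : ℝ) ^ 2 ≤ 8 * (H : ℝ) ^ 3 / n := by
    have h1 : ∀ p ∈ (SH n H t).diag, (Nat.gcd p.1 p.2 : ℝ) ^ 2 ≤ (2 * (H : ℝ)) ^ 2 := by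
      intro p hp
      rw [mem_diag] at hp
      rw [← hp.2, Nat.gcd_self]
      have := hp.1
      simp only [SH, mem_filter, mem_Ico] at this
      have h2 : (p.1 : ℝ) ≤ 2 * H := by exact_mod_cast this.1.2.le
      gcongr
    refine (sum_le_sum h1).trans ?_
    rw [sum_const, nsmul_eq_mul, diag_card]
    refine (mul_le_mul_of_nonneg_right (SH_card hn hnH) (by positivity)).trans (le_of_eq ?_)
    field_simp
    ring
  have hoff : ∑ p ∈ (SH n H t).offDiag, (Nat.gcd p.1 p.2 : ℝ) ^ 2 ≤ 8 * (H : ℝ) ^ 3 / n := by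
    have hmaps : ∀ p ∈ (SH n H t).offDiag, Nat.gcd p.1 p.2 ∈ Icc 1 (2 * H) := by
      intro p hp
      rw [mem_offDiag] at hp
      have h1 := hp.1
      simp only [SH, mem_filter, mem_Ico] at h1
      rw [mem_Icc]
      have h0 : 0 < p.1 := by omega
      exact ⟨Nat.gcd_pos_of_pos_left _ h0, (Nat.gcd_le_left _ h0).trans h1.1.2.le⟩
    rw [← sum_fiberwise_of_maps_to hmaps]
    have h1 : ∀ d ∈ Icc 1 (2 * H),
        ∑ p ∈ (SH n H t).offDiag.filter (fun p => Nat.gcd p.1 p.2 = d), (Nat.gcd p.1 p.2 : ℝ) ^ 2 ≤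
        if Nat.lcm d n ≤ H then 4 * (H : ℝ) ^ 2 / (n : ℝ) ^ 2 * (Nat.gcd d n : ℝ) ^ 2 else 0 := by
      intro d hd
      have hd1 : 1 ≤ d := (mem_Icc.1 hd).1
      have e1 : ∑ p ∈ (SH n H t).offDiag.filter (fun p => Nat.gcd p.1 p.2 = d), (Nat.gcd p.1 p.2 : ℝ) ^ 2 =
          ∑ p ∈ (SH n H t).offDiag.filter (fun p => Nat.gcd p.1 p.2 = d), (d : ℝ) ^ 2 :=
        sum_congr rfl (fun p hp => by rw [(mem_filter.1 hp).2])
      rw [e1, sum_const, nsmul_eq_mul]
      have hsub : (SH n H t).offDiag.filter (fun p => Nat.gcd p.1 p.2 = d) ⊆ (TD n H t d).offDiag := by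
        intro p hp
        rw [mem_filter, mem_offDiag] at hp
        rw [mem_offDiag]
        refine ⟨mem_filter.2 ⟨hp.1.1, ?_⟩, mem_filter.2 ⟨hp.1.2.1, ?_⟩, hp.1.2.2⟩
        · exact hp.2 ▸ Nat.gcd_dvd_left _ _
        · exact hp.2 ▸ Nat.gcd_dvd_right _ _
      have h2 : (#((SH n H t).offDiag.filter (fun p => Nat.gcd p.1 p.2 = d)) : ℝ) ≤
          #(TD n H t d).offDiag := by exact_mod_cast card_le_card hsub
      have h3 := h2.trans (TD_offDiag (t := t) hn hd1 hH)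
      have h4 := mul_le_mul_of_nonneg_right h3 (sq_nonneg (d : ℝ))
      refine h4.trans (le_of_eq ?_)
      split_ifs with hl
      · have e3 : (Nat.gcd d n : ℝ) * (Nat.lcm d n : ℝ) = d * n := by
          exact_mod_cast Nat.gcd_mul_lcm d n
        have hl0 : (0 : ℝ) < (Nat.lcm d n : ℝ) := by exact_mod_cast Nat.lcm_pos hd1 hn
        have e4 : (Nat.gcd d n : ℝ) = d * n / (Nat.lcm d n : ℝ) := by
          rw [eq_div_iff hl0.ne']; exact e3
        rw [e4]
        field_simp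
        ring
      · simp
    refine (sum_le_sum h1).trans ?_
    rw [← sum_filter]
    have h2 : (Icc 1 (2 * H)).filter (fun d => Nat.lcm d n ≤ H) ⊆
        (Icc 1 H).filter (fun d => Nat.lcm d n ≤ H) := by
      intro d hd
      rw [mem_filter, mem_Icc] at hd ⊢
      exact ⟨⟨hd.1.1, (Nat.le_of_dvd (Nat.lcm_pos hd.1.1 hn) (Nat.dvd_lcm_left d n)).trans hd.2⟩, hd.2⟩
    refine (sum_le_sum_of_subset_of_nonneg h2 (fun _ _ _ => by positivity)).trans ?_
    rw [← mul_sum]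
    refine (mul_le_mul_of_nonneg_left (sum_gcd_sq n H hn) (by positivity)).trans (le_of_eq ?_)
    field_simp
    ring
  calc _ ≤ 8 * (H : ℝ) ^ 3 / n + 8 * (H : ℝ) ^ 3 / n := add_le_add hdiag hoff
    _ = 16 * (H : ℝ) ^ 3 / n := by ring

end QA

open QA in
/-- **Q1**: the spacing of the numbers `h √k`. -/
theorem q1 : Q1 := by
  intro a n H K t r ha hn hnH hHK hK
  have hH : 1 ≤ H := hn.trans hnH
  have hn0 : (0 : ℝ) < n := by exact_mod_cast hn
  have ha0 : (0 : ℝ) < a := by exact_mod_cast ha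
  have hH0 : (0 : ℝ) < H := by exact_mod_cast hH
  have hH1 : (1 : ℝ) ≤ H := by exact_mod_cast hH
  have hn1 : (1 : ℝ) ≤ n := by exact_mod_cast hn
  have hK0 : (0 : ℝ) ≤ K := by positivity
  set Z := (PP a n H K t r ×ˢ PP a n H K t r).filter (fun v : (ℕ × ℕ) × (ℕ × ℕ) =>
    |(v.1.1 : ℤ) ^ 2 * (v.1.2 : ℤ) - (v.2.1 : ℤ) ^ 2 * (v.2.2 : ℤ)| ≤ 2 * (a : ℤ) * H * (n : ℤ) ^ 2) with hZ
  have hmaps : ∀ v ∈ Z, (v.1.1, v.2.1) ∈ SH n H t ×ˢ SH n H t := by
    intro v hv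
    rw [hZ, mem_filter, mem_product] at hv
    obtain ⟨⟨h1, h2⟩, -⟩ := hv
    simp only [PP, mem_filter, mem_product] at h1 h2
    rw [mem_product]
    exact ⟨mem_filter.2 ⟨h1.1.1, h1.2.1⟩, mem_filter.2 ⟨h2.1.1, h2.2.1⟩⟩
  have hcard : #Z = ∑ p ∈ SH n H t ×ˢ SH n H t, #(Z.filter (fun v => (v.1.1, v.2.1) = p)) :=
    card_eq_sum_card_fiberwise hmaps
  have hfib : ∀ p ∈ SH n H t ×ˢ SH n H t, (#(Z.filter (fun v => (v.1.1, v.2.1) = p)) : ℝ) ≤
      (n * K / (4 * a * n * (H : ℝ))) + H * n + K / (4 * a * n * (H : ℝ) ^ 2) * (Nat.gcd p.1 p.2 : ℝ) ^ 2 + 1 := by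
    intro p hp
    rw [mem_product] at hp
    obtain ⟨hp1, hp2⟩ := hp
    simp only [SH, mem_filter, mem_Ico] at hp1 hp2
    have h1 : #(Z.filter (fun v => (v.1.1, v.2.1) = p)) ≤
        #(NN (4 * a * n) K r (2 * a * H * n ^ 2) p.1 p.2) := by
      apply Finset.card_le_card_of_injOn (fun v => (v.1.2, v.2.2))
      · intro v hv
        rw [mem_coe, mem_filter, hZ, mem_filter, mem_product] at hv
        obtain ⟨⟨⟨h1, h2⟩, h3⟩, h4⟩ := hv
        simp only [PP, mem_filter, mem_product] at h1 h2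
        have e1 : v.1.1 = p.1 := by rw [← h4]
        have e2 : v.2.1 = p.2 := by rw [← h4]
        rw [mem_coe]
        simp only [NN, SK, mem_filter, mem_product]
        refine ⟨⟨⟨h1.1.2, h1.2.2⟩, ⟨h2.1.2, h2.2.2⟩⟩, ?_⟩
        rw [e1, e2] at h3
        push_cast
        exact h3
      · intro v hv w hw hvw
        rw [mem_coe, mem_filter] at hv hw
        have e1 : v.1.1 = p.1 := by rw [← hv.2]
        have e2 : v.2.1 = p.2 := by rw [← hv.2]
        have e3 : w.1.1 = p.1 := by rw [← hw.2]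
        have e4 : w.2.1 = p.2 := by rw [← hw.2]
        simp only [Prod.mk.injEq] at hvw
        exact Prod.ext (Prod.ext (e1.trans e3.symm) hvw.1) (Prod.ext (e2.trans e4.symm) hvw.2)
    have h2 : (#(Z.filter (fun v => (v.1.1, v.2.1) = p)) : ℝ) ≤
        #(NN (4 * a * n) K r (2 * a * H * n ^ 2) p.1 p.2) := by exact_mod_cast h1
    refine h2.trans ((NN_le ha hn hnH hp1.1.1 hp2.1.1).trans ?_)
    have hg0 : (0 : ℝ) < (Nat.gcd p.1 p.2 : ℝ) := by
      exact_mod_cast Nat.gcd_pos_of_pos_left _ (by omega : 0 < p.1)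
    have hg1 : (1 : ℝ) ≤ (Nat.gcd p.1 p.2 : ℝ) := by
      exact_mod_cast Nat.gcd_pos_of_pos_left _ (by omega : 0 < p.1)
    set g : ℝ := (Nat.gcd p.1 p.2 : ℝ) with hg
    have e1 : ((H : ℝ) * n / g ^ 2 + 1) * (K * g ^ 2 / (4 * a * n * (H : ℝ) ^ 2) + 1) =
        n * K / (4 * a * n * (H : ℝ)) + H * n / g ^ 2 + K / (4 * a * n * (H : ℝ) ^ 2) * g ^ 2 + 1 := by
      field_simp
      ring
    rw [e1]
    have h3 : (H : ℝ) * n / g ^ 2 ≤ H * n := div_le_self (by positivity) (one_le_pow₀ hg1)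
    linarith
  have hsum : (#Z : ℝ) ≤ ∑ p ∈ SH n H t ×ˢ SH n H t,
      ((n * K / (4 * a * n * (H : ℝ))) + H * n + K / (4 * a * n * (H : ℝ) ^ 2) * (Nat.gcd p.1 p.2 : ℝ) ^ 2 + 1) := by
    rw [hcard]
    push_cast
    exact sum_le_sum hfib
  refine hsum.trans ?_
  have hc : (#(SH n H t ×ˢ SH n H t) : ℝ) ≤ (2 * H / n) ^ 2 := by
    rw [card_product]
    push_cast
    rw [sq]
    exact mul_le_mul (SH_card hn hnH) (SH_card hn hnH) (by positivity) (by positivity)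
  rw [sum_add_distrib, sum_add_distrib, ← mul_sum, sum_const, sum_const, nsmul_eq_mul, nsmul_eq_mul]
  have t1 : (#(SH n H t ×ˢ SH n H t) : ℝ) * (n * K / (4 * a * n * (H : ℝ)) + H * n) ≤
      (2 * H / n) ^ 2 * (n * K / (4 * a * n * (H : ℝ)) + H * n) :=
    mul_le_mul_of_nonneg_right hc (by positivity)
  have t2 : K / (4 * a * n * (H : ℝ) ^ 2) * ∑ p ∈ SH n H t ×ˢ SH n H t, (Nat.gcd p.1 p.2 : ℝ) ^ 2 ≤
      K / (4 * a * n * (H : ℝ) ^ 2) * (16 * (H : ℝ) ^ 3 / n) :=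
    mul_le_mul_of_nonneg_left (gcd_sum hn hnH) (by positivity)
  have t3 : (#(SH n H t ×ˢ SH n H t) : ℝ) * 1 ≤ (2 * H / n) ^ 2 * 1 :=
    mul_le_mul_of_nonneg_right hc (by positivity)
  have e1 : (2 * H / n : ℝ) ^ 2 * (n * K / (4 * a * n * (H : ℝ)) + H * n) =
      H * K / (a * (n : ℝ) ^ 2) + 4 * (H : ℝ) ^ 3 / n := by
    field_simp
    ring
  have e2 : K / (4 * a * n * (H : ℝ) ^ 2) * (16 * (H : ℝ) ^ 3 / n) = 4 * (H * K / (a * (n : ℝ) ^ 2)) := by
    field_simp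
    ring
  have e3 : (2 * H / n : ℝ) ^ 2 * 1 ≤ 4 * ((H : ℝ) ^ 3 / n) := by
    rw [mul_one, div_pow, ← mul_div_assoc, div_le_div_iff₀ (by positivity) hn0]
    have : (1 : ℝ) ≤ H * n := by nlinarith
    have h5 : (2 * (H : ℝ)) ^ 2 * n * 1 ≤ (2 * (H : ℝ)) ^ 2 * n * (H * n) :=
      mul_le_mul_of_nonneg_left this (by positivity)
    nlinarith
  have hpos1 : 0 ≤ (H : ℝ) * K / (a * (n : ℝ) ^ 2) := by positivity
  have hpos2 : 0 ≤ (H : ℝ) ^ 3 / n := by positivity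
  have e4 : 4 * (H : ℝ) ^ 3 / n = 4 * ((H : ℝ) ^ 3 / n) := by ring
  rw [e1, e4] at t1
  rw [e2] at t2
  linarith

end Pool.Agent.N792
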