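import Mathlib
import Pool.Agent.N792.Defs2

/-!
Statements (as propositions) of the lemmas for the improved type II estimate (helper792).
-/

set_option autoImplicit false

namespace Pool.Agent.N792

open Finset Filter Topology
open Pool.Agent.H469R2.NK (e)

/-- the indicator function of the primes -/
noncomputable def pi0 (k : ℕ) : ℝ := by
  classical exact if k.Prime then 1 else 0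

/-- the pairs `(h, k)` with `H ≤ h < 2 H`, `K < k ≤ 2 K`, `h ≡ t (mod n)`, `k ≡ r (mod 4 a n)` -/
def PP (a n H K t r : ℕ) : Finset (ℕ × ℕ) :=
  (Ico H (2 * H) ×ˢ Ioc K (2 * K)).filter (fun p => p.1 ≡ t [MOD n] ∧ p.2 ≡ r [MOD 4 * a * n])

/-- Q1: the spacing of the numbers `h √k` -/
def Q1 : Prop := ∀ a n H K t r : ℕ, 1 ≤ a → 1 ≤ n → n ≤ H → H ≤ K → 4 * a * n ≤ K →
  (#((PP a n H K t r ×ˢ PP a n H K t r).filter (fun v : (ℕ × ℕ) × (ℕ × ℕ) =>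
    |(v.1.1 : ℤ) ^ 2 * (v.1.2 : ℤ) - (v.2.1 : ℤ) ^ 2 * (v.2.2 : ℤ)| ≤ 2 * (a : ℤ) * H * (n : ℤ) ^ 2)) : ℝ) ≤
    8 * ((H : ℝ) * K / (a * (n : ℝ) ^ 2) + (H : ℝ) ^ 3 / n)

/-- Q4: sums over the triangle functions from bounds for blocks of frequencies -/
def Q4 : Prop := ∀ (s : Finset (ℕ × ℕ)) (w θ : ℕ × ℕ → ℝ) (δ A1 A2 A3 A4 : ℝ) (n K : ℕ), 0 < δ → δ ≤ 1 / 2 →
    1 ≤ n → n ≤ K → 0 ≤ A1 → 0 ≤ A2 → 0 ≤ A3 → 0 ≤ A4 →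
    (∀ h : ℕ, 1 ≤ h → h ≤ 2 * n → ‖∑ i ∈ s, (w i : ℂ) * e (h * θ i)‖ ≤ A1 / √(h : ℝ)) →
    (∀ (H : ℕ) (ω : ℕ → ℂ), n ≤ H → H ≤ K → (∀ h, ‖ω h‖ ≤ 1) →
      ‖∑ h ∈ Ico H (2 * H), ω h * ∑ i ∈ s, (w i : ℂ) * e (h * θ i)‖ ≤ A2 * H + A3 * (H : ℝ) ^ 2) →
    (∀ h : ℕ, ‖∑ i ∈ s, (w i : ℂ) * e (h * θ i)‖ ≤ A4) →
    |∑ i ∈ s, w i * tri δ (θ i) - δ * ∑ i ∈ s, w i| ≤
      20 * (A1 * (δ * √(n : ℝ)) + A2 + A3 * (1 + Real.log K) / δ + A4 / (δ * K))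

/-- R1: mean value over `c` of `∑ h_m (ρ_c(m) - 1)` -/
def R1 (a b : ℤ) : Prop := ∀ (η ε : ℝ) (B : ℕ), 0 < η → 0 < ε → ∃ x0 : ℕ, ∀ x : ℕ, x0 ≤ x →
    ∀ (C z U y : ℕ) (h : ℕ → ℝ), (x : ℝ) ^ (1 / 2 + ε) ≤ C → C ≤ x → (x : ℝ) ^ η ≤ z → y ≤ x →
    (∀ m ∈ Ioc U y, |h m| ≤ rg z m * (x * Real.log x ^ B / m)) →
    (∀ m ∈ Ioc U y, h m ≠ 0 → Squarefree m) →
    ∑ c ∈ Icc 1 C, |∑ m ∈ Ioc U y, h m * ((rho a b (c : ℕ) m : ℝ) - 1)| ≤ C * x / Real.log x ^ B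

/-- R2: average over `c` of `ρ_c(m)` -/
def R2 (a b : ℤ) : Prop := ∀ (η ε : ℝ), 0 < η → 0 < ε → ∃ x0 : ℕ, ∀ x : ℕ, x0 ≤ x → ∀ C z m : ℕ,
    (x : ℝ) ^ (1 / 2 + ε) ≤ C → C ≤ x → (x : ℝ) ^ η ≤ z → m ≤ x → Rough z m → Squarefree m →
    ∑ c ∈ Icc 1 C, (rho a b (c : ℕ) m : ℝ) ≤ 2 * C

/-- S1: the primes are equidistributed like their model -/
def S1 : Prop := ∀ A E : ℕ, ∃ x0 : ℕ, ∀ x : ℕ, x0 ≤ x → ∀ Jw t i u q r : ℕ,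
    Real.log x ^ A ≤ ((2 ^ 2 ^ Jw : ℕ) : ℝ) → ((2 ^ 2 ^ Jw : ℕ) : ℝ) ≤ Real.log x ^ E →
    Real.log x ^ (A + 5) ≤ (2 : ℝ) ^ t → (2 : ℝ) ^ t ≤ Real.log x ^ E → x ≤ 2 ^ i → 2 ^ (i + 1) ≤ x ^ 3 →
    1 ≤ q → (q : ℝ) ≤ Real.log x ^ A → 2 ^ i ≤ u → u ≤ 2 ^ (i + 1) →
    |∑ k ∈ (Ioc (2 ^ i) u).filter (fun k => k ≡ r [MOD q]),
      (pi0 k - sharp t (2 ^ 2 ^ Jw) pi0 k)| ≤ (2 : ℝ) ^ i / Real.log x ^ A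

/-- S2: the weighted sum over the products of two primes -/
def S2 (a b : ℤ) : Prop := ∀ R A : ℕ, ∃ x0 : ℕ, ∀ x : ℕ, x0 ≤ x → ∀ x1 c y1 y2 : ℕ, x1 < x → x ≤ R * x1 →
    c ≤ x → (x : ℝ) ^ (1 / 2 : ℝ) ≤ y1 → y1 ≤ y2 → y2 ≤ x →
    |Ls a b x1 x (fun N => ∑ j ∈ N.divisors.filter (fun j => y1 < j ∧ j ≤ y2), pi0 j * pi0 (N / j)) -
      ∑ m ∈ Ioc x1 x, ∑ p ∈ (Ioc y1 y2).filter Nat.Prime,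
        1 / ((p : ℝ) * Real.log (((a : ℝ) * m ^ 2 + b * m + c) / p))| ≤ x / Real.log x ^ A

end Pool.Agent.N792
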