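import Mathlib
import Pool.Agent.N792.QStm
import Pool.Agent.N792.Tri

/-!
Proof of `Q4` (subtask of helper792, by helper42): sums over the triangle functions from bounds for
blocks of frequencies.
-/

set_option autoImplicit false

namespace Pool.Agent.N792

open Finset Filter Topology
open Pool.Agent.H469R2.NK (e)

/-- dyadic decomposition of a sum -/
lemma qd_dyadic (f : ℕ → ℝ) (I J : ℕ) (hIJ : I ≤ J) :
    ∑ h ∈ Ico (2 ^ I) (2 ^ J), f h = ∑ i ∈ Ico I J, ∑ h ∈ Ico (2 ^ i) (2 * 2 ^ i), f h := by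
  induction J, hIJ using Nat.le_induction with
  | base => simp
  | succ J hJ ih =>
    rw [Finset.sum_Ico_succ_top hJ, ← ih, ← pow_succ']
    exact (Finset.sum_Ico_consecutive f (Nat.pow_le_pow_right (by norm_num) hJ)
      (Nat.pow_le_pow_right (by norm_num) (Nat.le_succ J))).symm

/-- sum of `1/√h` -/
lemma qd_sqrt (m : ℕ) : ∑ h ∈ range (m + 1), 1 / √(h : ℝ) ≤ 2 * √(m : ℝ) := by
  induction m with
  | zero => simp
  | succ m ih =>
    rw [Finset.sum_range_succ]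
    have h1 : √(m : ℝ) ^ 2 = m := Real.sq_sqrt (Nat.cast_nonneg m)
    have h2 : √((m + 1 : ℕ) : ℝ) ^ 2 = m + 1 := by
      rw [Real.sq_sqrt (Nat.cast_nonneg _)]; push_cast; ring
    have h3 : 0 ≤ √(m : ℝ) := Real.sqrt_nonneg _
    have h4 : 0 < √((m + 1 : ℕ) : ℝ) := Real.sqrt_pos.mpr (by positivity)
    have h5 : 1 / √((m + 1 : ℕ) : ℝ) ≤ 2 * √((m + 1 : ℕ) : ℝ) - 2 * √(m : ℝ) := by
      rw [div_le_iff₀ h4]
      nlinarith [sq_nonneg (√((m + 1 : ℕ) : ℝ) - √(m : ℝ))]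
    linarith

/-- tail of `1/h²` -/
lemma qd_tail (K N : ℕ) (hK : 1 ≤ K) (hN : K + 1 ≤ N) :
    ∑ h ∈ Ico (K + 1) N, 1 / (h : ℝ) ^ 2 ≤ 1 / (K : ℝ) - 1 / ((N : ℝ) - 1) := by
  induction N, hN using Nat.le_induction with
  | base => simp
  | succ N hN ih =>
    rw [Finset.sum_Ico_succ_top hN]
    have h1 : (1 : ℝ) < N := by
      have : 1 < N := by omega
      exact_mod_cast this
    have h2 : 1 / (N : ℝ) ^ 2 ≤ 1 / ((N : ℝ) - 1) - 1 / (N : ℝ) := by
      rw [div_sub_div _ _ (by linarith) (by linarith), div_le_div_iff₀ (by positivity)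
        (mul_pos (by linarith) (by linarith))]
      nlinarith
    push_cast
    rw [add_sub_cancel_right]
    linarith

/-- the size of the coefficients on the block `[2^i, 2^(i+1))` -/
noncomputable def qdTau (δ : ℝ) (i : ℕ) : ℝ := min (2 * δ) (2 / (9 * ((2 : ℝ) ^ i) ^ 2 * δ))

lemma qdTau_pos {δ : ℝ} (hδ : 0 < δ) (i : ℕ) : 0 < qdTau δ i := by
  unfold qdTau
  exact lt_min (by positivity) (by positivity)

lemma qdTau_step {δ : ℝ} (hδ : 0 < δ) (i : ℕ) :
    qdTau δ i * 2 ^ i ≤ 5 * (δ * 2 ^ (i + 1) / (1 + δ * 2 ^ (i + 1)) - δ * 2 ^ i / (1 + δ * 2 ^ i)) := by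
  obtain ⟨x, hx⟩ : ∃ x : ℝ, x = δ * 2 ^ i := ⟨_, rfl⟩
  have hx0 : 0 < x := by rw [hx]; positivity
  have e1 : δ * (2 : ℝ) ^ (i + 1) = 2 * x := by rw [hx, pow_succ]; ring
  have h1 : qdTau δ i * 2 ^ i ≤ 2 * x := by
    calc qdTau δ i * 2 ^ i ≤ (2 * δ) * 2 ^ i := by
          apply mul_le_mul_of_nonneg_right (min_le_left _ _) (by positivity)
      _ = 2 * x := by rw [hx]; ring
  have h2 : qdTau δ i * 2 ^ i ≤ 2 / (9 * x) := by
    calc qdTau δ i * 2 ^ i ≤ (2 / (9 * ((2 : ℝ) ^ i) ^ 2 * δ)) * 2 ^ i := by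
          apply mul_le_mul_of_nonneg_right (min_le_right _ _) (by positivity)
      _ = 2 / (9 * x) := by rw [hx]; field_simp
  rw [e1, ← hx]
  have e2 : 2 * x / (1 + 2 * x) - x / (1 + x) = x / ((1 + 2 * x) * (1 + x)) := by
    rw [div_sub_div _ _ (by positivity) (by positivity)]
    congr 1; ring
  rw [e2]
  rcases le_total x (1 / 3) with h | h
  · refine h1.trans ?_
    rw [mul_div_assoc', le_div_iff₀ (by positivity)]
    nlinarith [mul_pos hx0 hx0, mul_nonneg hx0.le (sub_nonneg.mpr h),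
      mul_nonneg (mul_pos hx0 hx0).le (sub_nonneg.mpr h)]
  · refine h2.trans ?_
    rw [mul_div_assoc', div_le_div_iff₀ (by positivity) (by positivity)]
    nlinarith [mul_pos hx0 hx0, mul_nonneg hx0.le (sub_nonneg.mpr h)]

lemma qdTau_sum {δ : ℝ} (hδ : 0 < δ) (I J : ℕ) (hIJ : I ≤ J) :
    ∑ i ∈ Ico I J, qdTau δ i * 2 ^ i ≤ 5 := by
  have key : ∑ i ∈ Ico I J, qdTau δ i * 2 ^ i ≤
      5 * (δ * 2 ^ J / (1 + δ * 2 ^ J) - δ * 2 ^ I / (1 + δ * 2 ^ I)) := by
    induction J, hIJ using Nat.le_induction with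
    | base => simp
    | succ J hJ ih =>
      rw [Finset.sum_Ico_succ_top hJ]
      have := qdTau_step hδ J
      linarith
  refine key.trans ?_
  have h1 : δ * 2 ^ J / (1 + δ * 2 ^ J) ≤ 1 := by
    rw [div_le_one (by positivity)]; linarith
  have h2 : 0 ≤ δ * 2 ^ I / (1 + δ * 2 ^ I) := by positivity
  linarith

lemma qdTau_sum2 {δ : ℝ} (hδ : 0 < δ) (I J : ℕ) :
    ∑ i ∈ Ico I J, qdTau δ i * (2 ^ i) ^ 2 ≤ J * (2 / (9 * δ)) := by
  calc ∑ i ∈ Ico I J, qdTau δ i * (2 ^ i) ^ 2 ≤ ∑ i ∈ Ico I J, 2 / (9 * δ) := by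
        apply Finset.sum_le_sum
        intro i _
        calc qdTau δ i * (2 ^ i) ^ 2 ≤ (2 / (9 * ((2 : ℝ) ^ i) ^ 2 * δ)) * (2 ^ i) ^ 2 := by
              apply mul_le_mul_of_nonneg_right (min_le_right _ _) (by positivity)
          _ = 2 / (9 * δ) := by field_simp
    _ = ((J - I : ℕ) : ℝ) * (2 / (9 * δ)) := by
        rw [Finset.sum_const, Nat.card_Ico, nsmul_eq_mul]
    _ ≤ J * (2 / (9 * δ)) := by
        apply mul_le_mul_of_nonneg_right _ (by positivity)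
        exact_mod_cast Nat.sub_le J I

theorem q4 : Q4 := by
  intro s w θ δ A1 A2 A3 A4 n K hδ hδ2 hn hnK hA1 hA2 hA3 hA4 hB1 hB2 hB3
  have hS : HasSum (fun n : ℕ => triC δ n * ∑ i ∈ s, w i * Real.cos (2 * Real.pi * n * θ i))
      (∑ i ∈ s, w i * tri δ (θ i) - δ * ∑ i ∈ s, w i) := by
    have h1 : HasSum (fun n : ℕ => ∑ i ∈ s, w i * (triC δ n * Real.cos (2 * Real.pi * n * θ i)))
        (∑ i ∈ s, w i * (tri δ (θ i) - δ)) :=
      hasSum_sum fun i _ => (tri_hasSum hδ hδ2 (θ i)).mul_left (w i)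
    have e1 : (∑ i ∈ s, w i * (tri δ (θ i) - δ)) = ∑ i ∈ s, w i * tri δ (θ i) - δ * ∑ i ∈ s, w i := by
      simp only [mul_sub, Finset.sum_sub_distrib, Finset.mul_sum]
      congr 1
      exact Finset.sum_congr rfl fun i _ => mul_comm _ _
    rw [e1] at h1
    convert h1 using 2 with n
    rw [Finset.mul_sum]
    exact Finset.sum_congr rfl fun i _ => by ring
  obtain ⟨T, hT⟩ : ∃ T : ℕ → ℂ, T = fun n : ℕ => ∑ i ∈ s, (w i : ℂ) * e (n * θ i) := ⟨_, rfl⟩
  have hre : ∀ n : ℕ, (∑ i ∈ s, w i * Real.cos (2 * Real.pi * n * θ i)) = (T n).re := by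
    intro n
    rw [hT]
    simp only
    rw [Complex.re_sum]
    refine Finset.sum_congr rfl fun i _ => ?_
    rw [Complex.re_ofReal_mul]
    congr 1
    unfold e
    rw [Complex.exp_ofReal_mul_I_re]
    congr 1
    ring
  simp only [hre] at hS
  have hT1 : ∀ h : ℕ, 1 ≤ h → h ≤ 2 * n → ‖T h‖ ≤ A1 / √(h : ℝ) := by
    intro h h1 h2; rw [hT]; exact hB1 h h1 h2
  have hT2 : ∀ (H : ℕ) (ω : ℕ → ℂ), n ≤ H → H ≤ K → (∀ h, ‖ω h‖ ≤ 1) →
      ‖∑ h ∈ Ico H (2 * H), ω h * T h‖ ≤ A2 * H + A3 * (H : ℝ) ^ 2 := by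
    intro H ω h1 h2 h3; rw [hT]; exact hB2 H ω h1 h2 h3
  have hT3 : ∀ h : ℕ, ‖T h‖ ≤ A4 := by
    intro h; rw [hT]; exact hB3 h
  have hK1 : 1 ≤ K := hn.trans hnK
  have hK0 : (0 : ℝ) < K := by exact_mod_cast hK1
  -- the two powers of two
  obtain ⟨I0, hI0a, hI0b⟩ : ∃ I0 : ℕ, n ≤ 2 ^ I0 ∧ 2 ^ I0 ≤ 2 * n := by
    refine ⟨Nat.clog 2 n, Nat.le_pow_clog (by norm_num) n, ?_⟩
    rcases Nat.lt_or_ge 1 n with h | h
    · have h1 := Nat.pow_pred_clog_lt_self (b := 2) (by norm_num) h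
      have h2 : 0 < Nat.clog 2 n := Nat.clog_pos (by norm_num) h
      have h3 : Nat.clog 2 n = (Nat.clog 2 n).pred + 1 := by
        rw [Nat.pred_eq_sub_one]; omega
      rw [h3, pow_succ]
      omega
    · have : n = 1 := le_antisymm h hn
      subst this
      simp
  obtain ⟨I1, hI1a, hI1b⟩ : ∃ I1 : ℕ, K < 2 ^ (I1 + 1) ∧ 2 ^ I1 ≤ K := by
    exact ⟨Nat.log 2 K, Nat.lt_pow_succ_log_self (by norm_num) K, Nat.pow_log_le_self 2 (by omega)⟩
  have hI01 : I0 ≤ I1 + 1 := by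
    by_contra hcon
    have h1 : I1 + 1 + 1 ≤ I0 := by omega
    have h2 : 2 ^ (I1 + 1 + 1) ≤ 2 ^ I0 := Nat.pow_le_pow_right (by norm_num) h1
    have h3 : 2 ^ (I1 + 1 + 1) = 2 * 2 ^ (I1 + 1) := by ring
    omega
  -- part one
  have hP1 : ∑ h ∈ range (2 ^ I0), |triC δ h * (T h).re| ≤ 6 * (A1 * (δ * √(n : ℝ))) := by
    obtain ⟨m, hm⟩ : ∃ m : ℕ, 2 ^ I0 = m + 1 := 
      ⟨2 ^ I0 - 1, by have : 0 < 2 ^ I0 := by positivity
                      omega⟩
    have h1 : ∀ h ∈ range (m + 1), |triC δ h * (T h).re| ≤ 2 * δ * A1 * (1 / √(h : ℝ)) := by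
      intro h hh
      rw [Finset.mem_range] at hh
      rcases Nat.eq_zero_or_pos h with h0 | h0
      · subst h0; simp [triC]
      · rw [abs_mul, abs_of_nonneg (triC_nonneg hδ h)]
        have a1 := (Complex.abs_re_le_norm (T h)).trans (hT1 h h0 (by omega))
        calc triC δ h * |(T h).re| ≤ (2 * δ) * (A1 / √(h : ℝ)) :=
              mul_le_mul (triC_le_one hδ h) a1 (abs_nonneg _) (by positivity)
          _ = _ := by ring
    rw [hm]
    calc ∑ h ∈ range (m + 1), |triC δ h * (T h).re| ≤ ∑ h ∈ range (m + 1), 2 * δ * A1 * (1 / √(h : ℝ)) :=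
          Finset.sum_le_sum h1
      _ = 2 * δ * A1 * ∑ h ∈ range (m + 1), 1 / √(h : ℝ) := by rw [Finset.mul_sum]
      _ ≤ 2 * δ * A1 * (2 * √(m : ℝ)) := by
          apply mul_le_mul_of_nonneg_left (qd_sqrt m) (by positivity)
      _ ≤ 2 * δ * A1 * (2 * (3 / 2 * √(n : ℝ))) := by
          apply mul_le_mul_of_nonneg_left _ (by positivity)
          have a2 : √(m : ℝ) ≤ 3 / 2 * √(n : ℝ) := by
            rw [Real.sqrt_le_left (by positivity), mul_pow, Real.sq_sqrt (Nat.cast_nonneg n)]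
            have : (m : ℝ) ≤ 2 * n := by
              have : m ≤ 2 * n := by omega
              exact_mod_cast this
            have : (0 : ℝ) ≤ n := Nat.cast_nonneg n
            linarith
          linarith
      _ = 6 * (A1 * (δ * √(n : ℝ))) := by ring
  -- part two
  have hP2 : |∑ h ∈ Ico (2 ^ I0) (2 ^ (I1 + 1)), triC δ h * (T h).re| ≤
      5 * A2 + (4 / 9) * (A3 * (1 + Real.log K) / δ) := by
    rw [qd_dyadic _ _ _ hI01]
    have hblock : ∀ i ∈ Ico I0 (I1 + 1), |∑ h ∈ Ico (2 ^ i) (2 * 2 ^ i), triC δ h * (T h).re| ≤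
        A2 * (qdTau δ i * 2 ^ i) + A3 * (qdTau δ i * (2 ^ i) ^ 2) := by
      intro i hi
      rw [Finset.mem_Ico] at hi
      have hτ := qdTau_pos hδ i
      have hb1 : n ≤ 2 ^ i := hI0a.trans (Nat.pow_le_pow_right (by norm_num) hi.1)
      have hb2 : 2 ^ i ≤ K := (Nat.pow_le_pow_right (by norm_num) (by omega)).trans hI1b
      have h1 := hT2 (2 ^ i) (fun h => if 2 ^ i ≤ h then ((triC δ h / qdTau δ i : ℝ) : ℂ) else 0)
        hb1 hb2 (by
          intro h
          split_ifs with hh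
          · rw [Complex.norm_real, Real.norm_eq_abs, abs_div, abs_of_nonneg (triC_nonneg hδ h),
              abs_of_pos hτ, div_le_one hτ]
            unfold qdTau
            apply le_min (triC_le_one hδ h)
            have hpos : 0 < 2 ^ i := by positivity
            have hh0 : h ≠ 0 := by omega
            refine (triC_le_two hδ h hh0).trans ?_
            have hh' : (2 : ℝ) ^ i ≤ h := by exact_mod_cast hh
            apply div_le_div_of_nonneg_left (by norm_num) (by positivity)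
            gcongr
          · simp)
      have h2 : ∑ h ∈ Ico (2 ^ i) (2 * 2 ^ i), triC δ h * (T h).re =
          (qdTau δ i * ∑ h ∈ Ico (2 ^ i) (2 * 2 ^ i),
            ((if 2 ^ i ≤ h then ((triC δ h / qdTau δ i : ℝ) : ℂ) else 0) * T h)).re := by
        rw [Complex.re_ofReal_mul, Complex.re_sum, Finset.mul_sum]
        refine Finset.sum_congr rfl fun h hh => ?_
        rw [Finset.mem_Ico] at hh
        rw [if_pos hh.1, Complex.re_ofReal_mul]
        field_simp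
      rw [h2]
      refine (Complex.abs_re_le_norm _).trans ?_
      rw [norm_mul, Complex.norm_real, Real.norm_eq_abs, abs_of_pos hτ]
      calc qdTau δ i * ‖∑ h ∈ Ico (2 ^ i) (2 * 2 ^ i),
            ((if 2 ^ i ≤ h then ((triC δ h / qdTau δ i : ℝ) : ℂ) else 0) * T h)‖
          ≤ qdTau δ i * (A2 * ((2 ^ i : ℕ) : ℝ) + A3 * ((2 ^ i : ℕ) : ℝ) ^ 2) :=
            mul_le_mul_of_nonneg_left h1 hτ.le
        _ = _ := by push_cast; ring
    calc |∑ i ∈ Ico I0 (I1 + 1), ∑ h ∈ Ico (2 ^ i) (2 * 2 ^ i), triC δ h * (T h).re|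
        ≤ ∑ i ∈ Ico I0 (I1 + 1), |∑ h ∈ Ico (2 ^ i) (2 * 2 ^ i), triC δ h * (T h).re| :=
          Finset.abs_sum_le_sum_abs _ _
      _ ≤ ∑ i ∈ Ico I0 (I1 + 1), (A2 * (qdTau δ i * 2 ^ i) + A3 * (qdTau δ i * (2 ^ i) ^ 2)) :=
          Finset.sum_le_sum hblock
      _ = A2 * ∑ i ∈ Ico I0 (I1 + 1), qdTau δ i * 2 ^ i +
          A3 * ∑ i ∈ Ico I0 (I1 + 1), qdTau δ i * (2 ^ i) ^ 2 := by
          rw [Finset.sum_add_distrib, Finset.mul_sum, Finset.mul_sum]
      _ ≤ A2 * 5 + A3 * (((I1 + 1 : ℕ) : ℝ) * (2 / (9 * δ))) := by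
          apply add_le_add
          · exact mul_le_mul_of_nonneg_left (qdTau_sum hδ _ _ hI01) hA2
          · exact mul_le_mul_of_nonneg_left (qdTau_sum2 hδ _ _) hA3
      _ ≤ 5 * A2 + (4 / 9) * (A3 * (1 + Real.log K) / δ) := by
          have hlog : (I1 : ℝ) * Real.log 2 ≤ Real.log K := by
            rw [← Real.log_pow]
            apply Real.log_le_log (by positivity)
            exact_mod_cast hI1b
          have hl2 : (1 / 2 : ℝ) < Real.log 2 := by linarith [Real.log_two_gt_d9]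
          have hI1r : (I1 : ℝ) ≤ 2 * Real.log K := by
            have : (0 : ℝ) ≤ I1 := Nat.cast_nonneg _
            nlinarith
          have hc : ((I1 + 1 : ℕ) : ℝ) ≤ 2 * (1 + Real.log K) := by
            push_cast; linarith
          have : ((I1 + 1 : ℕ) : ℝ) * (2 / (9 * δ)) ≤ 2 * (1 + Real.log K) * (2 / (9 * δ)) :=
            mul_le_mul_of_nonneg_right hc (by positivity)
          have h5 : A3 * (((I1 + 1 : ℕ) : ℝ) * (2 / (9 * δ))) ≤
              A3 * (2 * (1 + Real.log K) * (2 / (9 * δ))) := mul_le_mul_of_nonneg_left this hA3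
          have h6 : A3 * (2 * (1 + Real.log K) * (2 / (9 * δ))) =
              (4 / 9) * (A3 * (1 + Real.log K) / δ) := by
            field_simp
            ring
          linarith
  -- part three
  have hP3 : ∀ N : ℕ, 2 ^ (I1 + 1) ≤ N → ∑ h ∈ Ico (2 ^ (I1 + 1)) N, |triC δ h * (T h).re| ≤
      A4 / (δ * K) := by
    intro N hN
    have h1 : ∀ h ∈ Ico (2 ^ (I1 + 1)) N, |triC δ h * (T h).re| ≤
        (2 / (9 * δ) * A4) * (1 / (h : ℝ) ^ 2) := by
      intro h hh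
      rw [Finset.mem_Ico] at hh
      have hh0 : h ≠ 0 := by omega
      have hh1 : (0 : ℝ) < h := by positivity
      rw [abs_mul, abs_of_nonneg (triC_nonneg hδ h)]
      have a1 := (Complex.abs_re_le_norm (T h)).trans (hT3 h)
      calc triC δ h * |(T h).re| ≤ (2 / (9 * (h : ℝ) ^ 2 * δ)) * A4 :=
            mul_le_mul (triC_le_two hδ h hh0) a1 (abs_nonneg _) (by positivity)
        _ = _ := by field_simp
    calc ∑ h ∈ Ico (2 ^ (I1 + 1)) N, |triC δ h * (T h).re|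
        ≤ ∑ h ∈ Ico (2 ^ (I1 + 1)) N, (2 / (9 * δ) * A4) * (1 / (h : ℝ) ^ 2) := Finset.sum_le_sum h1
      _ = (2 / (9 * δ) * A4) * ∑ h ∈ Ico (2 ^ (I1 + 1)) N, 1 / (h : ℝ) ^ 2 := by rw [Finset.mul_sum]
      _ ≤ (2 / (9 * δ) * A4) * ∑ h ∈ Ico (K + 1) N, 1 / (h : ℝ) ^ 2 := by
          apply mul_le_mul_of_nonneg_left _ (by positivity)
          apply Finset.sum_le_sum_of_subset_of_nonneg
          · exact Finset.Ico_subset_Ico_left (by omega)
          · intro i _ _; positivity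
      _ ≤ (2 / (9 * δ) * A4) * (1 / (K : ℝ)) := by
          apply mul_le_mul_of_nonneg_left _ (by positivity)
          have h2 := qd_tail K N hK1 (by omega)
          have h3 : 0 ≤ 1 / ((N : ℝ) - 1) := by
            apply div_nonneg (by norm_num)
            have : (1 : ℝ) ≤ N := by
              have : 1 ≤ N := by omega
              exact_mod_cast this
            linarith
          linarith
      _ = (2 / 9) * (A4 / (δ * K)) := by field_simp
      _ ≤ A4 / (δ * K) := by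
          have : 0 ≤ A4 / (δ * K) := by positivity
          linarith
  have hlogK : 0 ≤ Real.log K := Real.log_nonneg (by exact_mod_cast hK1)
  refine le_of_tendsto (hS.tendsto_sum_nat.abs) ?_
  filter_upwards [eventually_ge_atTop (2 ^ (I1 + 1))] with N hN
  have hsplit : ∑ h ∈ range N, triC δ h * (T h).re = ∑ h ∈ range (2 ^ I0), triC δ h * (T h).re +
      ∑ h ∈ Ico (2 ^ I0) (2 ^ (I1 + 1)), triC δ h * (T h).re +
      ∑ h ∈ Ico (2 ^ (I1 + 1)) N, triC δ h * (T h).re := by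
    have b1 : 2 ^ I0 ≤ 2 ^ (I1 + 1) := Nat.pow_le_pow_right (by norm_num) hI01
    rw [Finset.range_eq_Ico, Finset.range_eq_Ico, Finset.sum_Ico_consecutive _ (Nat.zero_le _) b1,
      Finset.sum_Ico_consecutive _ (Nat.zero_le _) hN]
  rw [hsplit]
  have q1 := (Finset.abs_sum_le_sum_abs (fun h => triC δ h * (T h).re) (range (2 ^ I0))).trans hP1
  have q3 := (Finset.abs_sum_le_sum_abs (fun h => triC δ h * (T h).re) (Ico (2 ^ (I1 + 1)) N)).trans
    (hP3 N hN)
  have p1 : 0 ≤ A1 * (δ * √(n : ℝ)) := by positivity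
  have p3 : 0 ≤ A3 * (1 + Real.log K) / δ := by positivity
  have p4 : 0 ≤ A4 / (δ * K) := by positivity
  have t1 := abs_add_le (∑ h ∈ range (2 ^ I0), triC δ h * (T h).re +
      ∑ h ∈ Ico (2 ^ I0) (2 ^ (I1 + 1)), triC δ h * (T h).re)
    (∑ h ∈ Ico (2 ^ (I1 + 1)) N, triC δ h * (T h).re)
  have t2 := abs_add_le (∑ h ∈ range (2 ^ I0), triC δ h * (T h).re)
      (∑ h ∈ Ico (2 ^ I0) (2 ^ (I1 + 1)), triC δ h * (T h).re)
  linarith

end Pool.Agent.N792
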