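import Mathlib
import Pool.Agent.N792.Defs
import Pool.Agent.Helper112.LS

/-!
Large sieve for the sums over residue classes (helper456, for helper792).
-/

set_option autoImplicit false

namespace Pool.Agent.N792
open Finset
open Pool.Agent.Helper112 (ee ls_ee_zero ls_ee_add ls_ee_int ls_ee_nat ls_norm_ee ls_conj_ee
  ls_ee_nat_mul ls_ee_eq_one additive_large_sieve)

namespace Lsc

/-- the exponential sum -/
noncomputable def SS (N : ℕ) (β : ℕ → ℝ) (t : ℝ) : ℂ := ∑ k ∈ Icc 1 N, (β k : ℂ) * ee (k * t)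

/-- orthogonality of the additive characters -/
lemma orth (q : ℕ) (hq : 1 ≤ q) (m : ℤ) :
    ∑ h ∈ range q, ee ((m : ℝ) * ((h : ℝ) / q)) = if (q : ℤ) ∣ m then (q : ℂ) else 0 := by
  have hq0 : (q : ℝ) ≠ 0 := by positivity
  have key : ∀ h : ℕ, ee ((m : ℝ) * ((h : ℝ) / q)) = ee ((m : ℝ) / q) ^ h := by
    intro h
    rw [← ls_ee_nat_mul]
    congr 1
    ring
  simp only [key]
  split_ifs with hd
  · obtain ⟨j, rfl⟩ := hd
    have : (((q : ℤ) * j : ℤ) : ℝ) / q = (j : ℝ) := by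
      push_cast
      field_simp
    rw [this, ls_ee_int]
    simp
  · have hne : ee ((m : ℝ) / q) ≠ 1 := by
      intro h
      obtain ⟨n, hn⟩ := ls_ee_eq_one h
      apply hd
      refine ⟨n, ?_⟩
      rw [div_eq_iff hq0] at hn
      have : (m : ℝ) = ((q * n : ℤ) : ℝ) := by push_cast; rw [hn]; ring
      exact_mod_cast this
    rw [geom_sum_eq hne, ← ls_ee_nat_mul]
    have : (q : ℝ) * ((m : ℝ) / q) = (m : ℝ) := by field_simp
    rw [this, ls_ee_int]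
    simp

/-- the sum over a residue class -/
noncomputable def BB (N : ℕ) (β : ℕ → ℝ) (q r : ℕ) : ℝ :=
  ∑ k ∈ (Icc 1 N).filter (fun k => k ≡ r [MOD q]), β k

lemma sum_BB_sq (N : ℕ) (β : ℕ → ℝ) (q : ℕ) (hq : 1 ≤ q) :
    ∑ r ∈ range q, BB N β q r ^ 2
      = ∑ k ∈ Icc 1 N, ∑ l ∈ Icc 1 N, β k * β l * (if k ≡ l [MOD q] then 1 else 0) := by
  have h1 : ∀ r, BB N β q r ^ 2 = ∑ k ∈ Icc 1 N, ∑ l ∈ Icc 1 N,
      β k * β l * ((if k ≡ r [MOD q] then 1 else 0) * (if l ≡ r [MOD q] then 1 else 0)) := by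
    intro r
    unfold BB
    rw [sum_filter, sq, sum_mul_sum]
    refine sum_congr rfl fun k _ => sum_congr rfl fun l _ => ?_
    split_ifs <;> simp
  simp only [h1]
  rw [sum_comm]
  refine sum_congr rfl fun k _ => ?_
  rw [sum_comm]
  refine sum_congr rfl fun l _ => ?_
  rw [← mul_sum]
  congr 1
  have h2 : ∀ r ∈ range q, ((if k ≡ r [MOD q] then (1 : ℝ) else 0) * (if l ≡ r [MOD q] then 1 else 0))
      = if r = k % q then (if k ≡ l [MOD q] then 1 else 0) else 0 := by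
    intro r hr
    have hr' : r % q = r := Nat.mod_eq_of_lt (mem_range.mp hr)
    have e1 : (k ≡ r [MOD q]) ↔ r = k % q := by
      unfold Nat.ModEq
      rw [hr']
      exact eq_comm
    by_cases hk : r = k % q
    · have hk' := e1.mpr hk
      have e2 : (l ≡ r [MOD q]) ↔ (k ≡ l [MOD q]) :=
        ⟨fun h => hk'.trans h.symm, fun h => h.symm.trans hk'⟩
      simp [hk', ← hk, e2]
    · have hk' : ¬ (k ≡ r [MOD q]) := fun h => hk (e1.mp h)
      simp [hk, hk']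
  rw [sum_congr rfl h2, sum_ite_eq' (range q) (k % q)]
  rw [if_pos (mem_range.mpr (Nat.mod_lt _ hq))]

/-- Parseval -/
lemma parseval (N : ℕ) (β : ℕ → ℝ) (q : ℕ) (hq : 1 ≤ q) :
    ∑ h ∈ range q, ‖SS N β ((h : ℝ) / q)‖ ^ 2 = q * ∑ r ∈ range q, BB N β q r ^ 2 := by
  rw [sum_BB_sq N β q hq]
  have hC : ((∑ h ∈ range q, ‖SS N β ((h : ℝ) / q)‖ ^ 2 : ℝ) : ℂ)
      = ((q * ∑ k ∈ Icc 1 N, ∑ l ∈ Icc 1 N, β k * β l * (if k ≡ l [MOD q] then 1 else 0) : ℝ) : ℂ) := by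
    push_cast
    have h1 : ∀ h : ℕ, (‖SS N β ((h : ℝ) / q)‖ : ℂ) ^ 2
        = ∑ k ∈ Icc 1 N, ∑ l ∈ Icc 1 N, (β k : ℂ) * (β l : ℂ) *
          ee ((((k : ℤ) - (l : ℤ) : ℤ) : ℝ) * ((h : ℝ) / q)) := by
      intro h
      rw [← Complex.mul_conj']
      unfold SS
      rw [map_sum, sum_mul_sum]
      refine sum_congr rfl fun k _ => sum_congr rfl fun l _ => ?_
      rw [map_mul, Complex.conj_ofReal, ls_conj_ee]
      have : ((((k : ℤ) - (l : ℤ) : ℤ) : ℝ) * ((h : ℝ) / q))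
          = (k : ℝ) * ((h : ℝ) / q) + -((l : ℝ) * ((h : ℝ) / q)) := by
        push_cast
        ring
      rw [this, ls_ee_add]
      ring
    simp only [h1]
    rw [sum_comm, mul_sum]
    refine sum_congr rfl fun k _ => ?_
    rw [sum_comm, mul_sum]
    refine sum_congr rfl fun l _ => ?_
    rw [← mul_sum, orth q hq]
    have e1 : ((q : ℤ) ∣ ((k : ℤ) - (l : ℤ))) ↔ (k ≡ l [MOD q]) := by
      rw [← Nat.modEq_iff_dvd]
      exact ⟨fun h => h.symm, fun h => h.symm⟩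
    by_cases hkl : k ≡ l [MOD q]
    · rw [if_pos (e1.mpr hkl), if_pos hkl]
      push_cast
      ring
    · rw [if_neg (fun h => hkl (e1.mp h)), if_neg hkl]
      push_cast
      ring
  exact_mod_cast hC

/-- the sum over the reduced residues -/
noncomputable def TT (N : ℕ) (β : ℕ → ℝ) (d : ℕ) : ℝ :=
  ∑ a ∈ (range d).filter (fun a => a.Coprime d), ‖SS N β ((a : ℝ) / d)‖ ^ 2

lemma TT_nonneg (N : ℕ) (β : ℕ → ℝ) (d : ℕ) : 0 ≤ TT N β d := by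
  unfold TT
  positivity

lemma TT_le (N : ℕ) (β : ℕ → ℝ) (d : ℕ) (hd : 1 ≤ d) :
    TT N β d ≤ d * ∑ r ∈ range d, BB N β d r ^ 2 := by
  rw [← parseval N β d hd]
  unfold TT
  exact sum_le_sum_of_subset_of_nonneg (filter_subset _ _) (fun _ _ _ => by positivity)

/-- grouping the fractions by the reduced denominators -/
lemma sum_reduced (F : ℝ → ℝ) (q : ℕ) (hq : 1 ≤ q) :
    ∑ h ∈ range q, F ((h : ℝ) / q)
      = ∑ d ∈ q.divisors, ∑ a ∈ (range d).filter (fun a => a.Coprime d), F ((a : ℝ) / d) := by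
  have hq0 : (q : ℝ) ≠ 0 := by positivity
  rw [Finset.sum_sigma']
  refine Finset.sum_bij' (fun h _ => (⟨q / Nat.gcd h q, h / Nat.gcd h q⟩ : Σ _ : ℕ, ℕ))
    (fun x _ => x.2 * (q / x.1)) ?_ ?_ ?_ ?_ ?_
  · intro h hh
    rw [mem_range] at hh
    have hg : 0 < Nat.gcd h q := Nat.gcd_pos_of_pos_right _ hq
    rw [mem_sigma]
    refine ⟨Nat.mem_divisors.mpr ⟨Nat.div_dvd_of_dvd (Nat.gcd_dvd_right h q), by omega⟩, ?_⟩
    rw [mem_filter, mem_range]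
    refine ⟨?_, Nat.coprime_div_gcd_div_gcd hg⟩
    exact Nat.div_lt_div_of_lt_of_dvd (Nat.gcd_dvd_right h q) hh
  · rintro ⟨d, a⟩ hx
    rw [mem_sigma] at hx
    obtain ⟨hd, ha⟩ := hx
    rw [mem_filter, mem_range] at ha
    simp only at hd ha ⊢
    rw [mem_range]
    obtain ⟨hdq, -⟩ := Nat.mem_divisors.mp hd
    obtain ⟨t, rfl⟩ := hdq
    have hd0 : 0 < d := Nat.pos_of_ne_zero (by rintro rfl; omega)
    have ht0 : 0 < t := Nat.pos_of_ne_zero (by rintro rfl; omega)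
    rw [Nat.mul_div_cancel_left _ hd0]
    exact Nat.mul_lt_mul_of_pos_right ha.1 ht0
  · intro h hh
    have hg : 0 < Nat.gcd h q := Nat.gcd_pos_of_pos_right _ hq
    simp only
    rw [Nat.div_div_self (Nat.gcd_dvd_right h q) (by omega)]
    exact Nat.div_mul_cancel (Nat.gcd_dvd_left h q)
  · rintro ⟨d, a⟩ hx
    rw [mem_sigma] at hx
    obtain ⟨hd, ha⟩ := hx
    rw [mem_filter, mem_range] at ha
    simp only at hd ha ⊢
    obtain ⟨hdq, -⟩ := Nat.mem_divisors.mp hd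
    obtain ⟨t, rfl⟩ := hdq
    have hd0 : 0 < d := Nat.pos_of_ne_zero (by rintro rfl; omega)
    have ht0 : 0 < t := Nat.pos_of_ne_zero (by rintro rfl; omega)
    rw [Nat.mul_div_cancel_left _ hd0]
    have hgcd : Nat.gcd (a * t) (d * t) = t := by
      rw [Nat.gcd_mul_right, ha.2, one_mul]
    rw [hgcd, Nat.mul_div_cancel _ ht0, Nat.mul_div_cancel _ ht0]
  · intro h hh
    have hg : 0 < Nat.gcd h q := Nat.gcd_pos_of_pos_right _ hq
    simp only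
    congr 1
    rw [Nat.cast_div (Nat.gcd_dvd_left h q) (by positivity),
      Nat.cast_div (Nat.gcd_dvd_right h q) (by positivity)]
    field_simp

/-- the sum of the mean squares -/
lemma step_group (N Q : ℕ) (β : ℕ → ℝ) :
    ∑ q ∈ Icc 1 Q, ∑ r ∈ range q, BB N β q r ^ 2
      = ∑ d ∈ Icc 1 Q, TT N β d * ∑ q ∈ (Icc 1 Q).filter (fun q => d ∣ q), 1 / (q : ℝ) := by
  have h1 : ∀ q ∈ Icc 1 Q, ∑ r ∈ range q, BB N β q r ^ 2
      = ∑ d ∈ Icc 1 Q, if d ∣ q then TT N β d * (1 / (q : ℝ)) else 0 := by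
    intro q hq
    rw [mem_Icc] at hq
    have hq0 : (q : ℝ) ≠ 0 := by
      have : 1 ≤ q := hq.1
      positivity
    have h2 := parseval N β q hq.1
    rw [sum_reduced (fun t => ‖SS N β t‖ ^ 2) q hq.1] at h2
    have h3 : ∑ r ∈ range q, BB N β q r ^ 2 = (∑ d ∈ q.divisors, TT N β d) * (1 / (q : ℝ)) := by
      unfold TT
      rw [h2]
      field_simp
    rw [h3, sum_mul, ← sum_filter]
    refine sum_congr ?_ fun _ _ => rfl
    ext d
    rw [Nat.mem_divisors, mem_filter, mem_Icc]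
    constructor
    · rintro ⟨h, h'⟩
      exact ⟨⟨Nat.pos_of_dvd_of_pos h hq.1, (Nat.le_of_dvd hq.1 h).trans hq.2⟩, h⟩
    · rintro ⟨_, h⟩
      exact ⟨h, by omega⟩
  rw [sum_congr rfl h1, sum_comm]
  refine sum_congr rfl fun d _ => ?_
  rw [mul_sum, sum_filter]

/-- the harmonic sum over the multiples of `d` -/
lemma harm_mult (Q d : ℕ) (hQ : 1 ≤ Q) (hd : 1 ≤ d) :
    ∑ q ∈ (Icc 1 Q).filter (fun q => d ∣ q), 1 / (q : ℝ) ≤ (1 + Real.log Q) / d := by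
  have hd0 : (0 : ℝ) < d := by positivity
  have h1 : ∑ q ∈ (Icc 1 Q).filter (fun q => d ∣ q), 1 / (q : ℝ)
      ≤ ∑ m ∈ Icc 1 Q, 1 / ((d * m : ℕ) : ℝ) := by
    have hsub : (Icc 1 Q).filter (fun q => d ∣ q) ⊆ (Icc 1 Q).image (fun m => d * m) := by
      intro q hq
      rw [mem_filter, mem_Icc] at hq
      obtain ⟨⟨hq1, hq2⟩, m, rfl⟩ := hq
      rw [mem_image]
      refine ⟨m, mem_Icc.mpr ⟨Nat.pos_of_ne_zero (by rintro rfl; omega), ?_⟩, rfl⟩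
      exact (Nat.le_mul_of_pos_left m hd).trans hq2
    refine (sum_le_sum_of_subset_of_nonneg hsub (fun _ _ _ => by positivity)).trans ?_
    rw [sum_image]
    intro x _ y _ hxy
    exact Nat.eq_of_mul_eq_mul_left hd hxy
  refine h1.trans ?_
  have h2 : ∑ m ∈ Icc 1 Q, 1 / ((d * m : ℕ) : ℝ) = (∑ m ∈ Icc 1 Q, (m : ℝ)⁻¹) / d := by
    rw [sum_div]
    refine sum_congr rfl fun m _ => ?_
    push_cast
    rw [one_div, mul_inv]
    field_simp
  rw [h2]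
  gcongr
  have h3 := harmonic_le_one_add_log Q
  rw [harmonic_eq_sum_Icc] at h3
  push_cast at h3
  exact h3

/-- the part with the large denominators, by partial summation -/
lemma tail_bound (T : ℕ → ℝ) (K : ℝ) (N Q0 : ℕ) (hK : 0 ≤ K) (hT : ∀ d, 0 ≤ T d)
    (hA : ∀ m, ∑ d ∈ Icc 1 m, T d ≤ K * (N + (m : ℝ) ^ 2)) (Q : ℕ) (hQ : Q0 ≤ Q) :
    ∑ d ∈ Ioc Q0 Q, T d / d ≤ (∑ d ∈ Ioc Q0 Q, T d) / (Q + 1)
      + K * (N * (1 / (Q0 + 1) - 1 / (Q + 1))) + K * (Q - Q0) := by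
  induction Q, hQ using Nat.le_induction with
  | base => simp
  | succ Q hQ ih =>
    rw [← Finset.insert_Ioc_right_eq_Ioc_add_one (by omega : Q0 ≤ Q),
      sum_insert (by simp), sum_insert (by simp)]
    set A := ∑ d ∈ Ioc Q0 Q, T d with hAdef
    have hA' : T (Q + 1) + A ≤ K * (N + ((Q : ℝ) + 1) ^ 2) := by
      have h1 := hA (Q + 1)
      push_cast at h1
      refine le_trans ?_ h1
      rw [hAdef, ← sum_insert (by simp : Q + 1 ∉ Ioc Q0 Q),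
        Finset.insert_Ioc_right_eq_Ioc_add_one (by omega : Q0 ≤ Q)]
      refine sum_le_sum_of_subset_of_nonneg ?_ (fun _ _ _ => hT _)
      intro x hx
      rw [mem_Ioc] at hx
      rw [mem_Icc]
      omega
    push_cast
    have hQ1 : (0 : ℝ) < (Q : ℝ) + 1 := by positivity
    have hQ2 : (0 : ℝ) < (Q : ℝ) + 1 + 1 := by positivity
    have e1 : (T (Q + 1) + A) / ((Q : ℝ) + 1 + 1) =
        (T (Q + 1) + A) / ((Q : ℝ) + 1) - (T (Q + 1) + A) / (((Q : ℝ) + 1) * ((Q : ℝ) + 1 + 1)) := by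
      field_simp
      ring
    have e2 : (1 : ℝ) / ((Q : ℝ) + 1 + 1) = 1 / ((Q : ℝ) + 1) - 1 / (((Q : ℝ) + 1) * ((Q : ℝ) + 1 + 1)) := by
      field_simp
      ring
    have h5 : (T (Q + 1) + A) / (((Q : ℝ) + 1) * ((Q : ℝ) + 1 + 1))
        ≤ K * (N * (1 / (((Q : ℝ) + 1) * ((Q : ℝ) + 1 + 1)))) + K := by
      rw [div_le_iff₀ (by positivity)]
      have e3 : (K * (N * (1 / (((Q : ℝ) + 1) * ((Q : ℝ) + 1 + 1)))) + K) * (((Q : ℝ) + 1) * ((Q : ℝ) + 1 + 1))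
          = K * (N + ((Q : ℝ) + 1) * ((Q : ℝ) + 1 + 1)) := by
        field_simp
      rw [e3]
      refine hA'.trans ?_
      gcongr
      nlinarith
    rw [e1, e2]
    have e4 : (T (Q + 1) + A) / ((Q : ℝ) + 1) = T (Q + 1) / ((Q : ℝ) + 1) + A / ((Q : ℝ) + 1) := by
      ring
    rw [e4]
    nlinarith [ih, h5]

lemma SS_sum_TT (N : ℕ) (β : ℕ → ℝ) (B0 : ℝ) (hβ : ∀ k, |β k| ≤ B0) (m : ℕ) :
    ∑ d ∈ Icc 1 m, TT N β d ≤ (6 * (B0 ^ 2 * N)) * (N + (m : ℝ) ^ 2) := by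
  have h := additive_large_sieve N m (fun k => (β k : ℂ))
  have e1 : ∑ d ∈ Icc 1 m, TT N β d = ∑ f ∈ Icc 1 m, ∑ a ∈ (range f).filter (fun a => a.Coprime f),
      ‖∑ n ∈ Icc 1 N, (β n : ℂ) * ee (n * a / f)‖ ^ 2 := by
    unfold TT SS
    refine sum_congr rfl fun d _ => sum_congr rfl fun a _ => ?_
    congr 2
    refine sum_congr rfl fun n _ => ?_
    rw [mul_div_assoc]
  rw [e1]
  refine h.trans ?_
  have h2 : ∑ n ∈ Icc 1 N, ‖(β n : ℂ)‖ ^ 2 ≤ B0 ^ 2 * N := by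
    have : ∀ n ∈ Icc 1 N, ‖(β n : ℂ)‖ ^ 2 ≤ B0 ^ 2 := by
      intro n _
      rw [Complex.norm_real, Real.norm_eq_abs]
      exact pow_le_pow_left₀ (abs_nonneg _) (hβ n) 2
    refine (sum_le_card_nsmul _ _ _ this).trans ?_
    rw [Nat.card_Icc, nsmul_eq_mul]
    simp [mul_comm]
  calc 6 * ((N : ℝ) + (m : ℝ) ^ 2) * ∑ n ∈ Icc 1 N, ‖(β n : ℂ)‖ ^ 2
      ≤ 6 * ((N : ℝ) + (m : ℝ) ^ 2) * (B0 ^ 2 * N) := by gcongr
    _ = _ := by ring

end Lsc

open Lsc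

theorem ls_classes (N Q Q0 : ℕ) (β : ℕ → ℝ) (Δ B0 : ℝ) (hQ0 : 1 ≤ Q0) (hQ : Q0 ≤ Q) (hQN : Q ≤ N)
    (hβ : ∀ k, |β k| ≤ B0)
    (hΔ : ∀ q ∈ Icc 1 Q0, ∀ r : ℕ, |∑ k ∈ (Icc 1 N).filter (fun k => k ≡ r [MOD q]), β k| ≤ Δ) :
    ∑ q ∈ Icc 1 Q, ∑ r ∈ range q, (∑ k ∈ (Icc 1 N).filter (fun k => k ≡ r [MOD q]), β k) ^ 2 ≤
      100 * (1 + Real.log Q) * ((Q0 : ℝ) ^ 2 * Δ ^ 2 + B0 ^ 2 * N * ((N : ℝ) / Q0 + Q)) := by
  have h0 : ∑ q ∈ Icc 1 Q, ∑ r ∈ range q, (∑ k ∈ (Icc 1 N).filter (fun k => k ≡ r [MOD q]), β k) ^ 2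
      = ∑ q ∈ Icc 1 Q, ∑ r ∈ range q, BB N β q r ^ 2 := rfl
  rw [h0, step_group]
  have hQ1 : 1 ≤ Q := hQ0.trans hQ
  have hlog : 0 ≤ Real.log Q := Real.log_natCast_nonneg Q
  have hB0 : 0 ≤ B0 := (abs_nonneg _).trans (hβ 0)
  have hQ0p : (0 : ℝ) < Q0 := by positivity
  -- reduce to the sum of `TT d / d`
  have h1 : ∑ d ∈ Icc 1 Q, TT N β d * ∑ q ∈ (Icc 1 Q).filter (fun q => d ∣ q), 1 / (q : ℝ)
      ≤ (1 + Real.log Q) * ∑ d ∈ Icc 1 Q, TT N β d / d := by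
    rw [mul_sum]
    refine sum_le_sum fun d hd => ?_
    have hd1 := (mem_Icc.mp hd).1
    calc TT N β d * ∑ q ∈ (Icc 1 Q).filter (fun q => d ∣ q), 1 / (q : ℝ)
        ≤ TT N β d * ((1 + Real.log Q) / d) :=
          mul_le_mul_of_nonneg_left (harm_mult Q d hQ1 hd1) (TT_nonneg _ _ _)
      _ = _ := by ring
  -- the small denominators
  have h2 : ∑ d ∈ Icc 1 Q0, TT N β d / d ≤ (Q0 : ℝ) ^ 2 * Δ ^ 2 := by
    have h3 : ∀ d ∈ Icc 1 Q0, TT N β d / d ≤ Q0 * Δ ^ 2 := by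
      intro d hd
      have hd1 := (mem_Icc.mp hd).1
      have hd2 : (d : ℝ) ≤ Q0 := by exact_mod_cast (mem_Icc.mp hd).2
      have hdp : (0 : ℝ) < d := by positivity
      rw [div_le_iff₀ hdp]
      refine (TT_le N β d hd1).trans ?_
      have h4 : ∑ r ∈ range d, BB N β d r ^ 2 ≤ d * Δ ^ 2 := by
        have : ∀ r ∈ range d, BB N β d r ^ 2 ≤ Δ ^ 2 := by
          intro r _
          have h5 := hΔ d hd r
          rw [← sq_abs (BB N β d r)]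
          exact pow_le_pow_left₀ (abs_nonneg _) h5 2
        refine (sum_le_card_nsmul _ _ _ this).trans ?_
        rw [card_range, nsmul_eq_mul]
      have hΔ2 : 0 ≤ Δ ^ 2 := sq_nonneg _
      calc (d : ℝ) * ∑ r ∈ range d, BB N β d r ^ 2 ≤ d * (d * Δ ^ 2) := by gcongr
        _ ≤ d * (Q0 * Δ ^ 2) := by gcongr
        _ = _ := by ring
    refine (sum_le_card_nsmul _ _ _ h3).trans ?_
    rw [Nat.card_Icc, nsmul_eq_mul]
    simp only [Nat.add_sub_cancel]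
    nlinarith
  -- the large denominators
  have h3 := tail_bound (TT N β) (6 * (B0 ^ 2 * N)) N Q0 (by positivity) (TT_nonneg N β)
    (SS_sum_TT N β B0 hβ) Q hQ
  have h4 : ∑ d ∈ Ioc Q0 Q, TT N β d / d ≤ 12 * (B0 ^ 2 * N * ((N : ℝ) / Q0 + Q)) := by
    refine h3.trans ?_
    have h5 : (∑ d ∈ Ioc Q0 Q, TT N β d) ≤ (6 * (B0 ^ 2 * N)) * (N + (Q : ℝ) ^ 2) := by
      refine le_trans ?_ (SS_sum_TT N β B0 hβ Q)
      refine sum_le_sum_of_subset_of_nonneg ?_ (fun _ _ _ => TT_nonneg _ _ _)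
      intro x hx
      rw [mem_Ioc] at hx
      rw [mem_Icc]
      omega
    set K : ℝ := 6 * (B0 ^ 2 * N) with hKdef
    have hK0 : 0 ≤ K := by positivity
    have hQp : (0 : ℝ) < (Q : ℝ) + 1 := by positivity
    have h6 : (∑ d ∈ Ioc Q0 Q, TT N β d) / ((Q : ℝ) + 1) ≤ K * (N * (1 / ((Q : ℝ) + 1))) + K * Q := by
      rw [div_le_iff₀ hQp]
      have e3 : (K * (N * (1 / ((Q : ℝ) + 1))) + K * Q) * ((Q : ℝ) + 1) = K * (N + Q * (Q + 1)) := by
        field_simp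
      rw [e3]
      refine h5.trans ?_
      gcongr
      nlinarith [show (0 : ℝ) ≤ Q by positivity]
    have h7 : (N : ℝ) * (1 / ((Q0 : ℝ) + 1)) ≤ N / Q0 := by
      rw [← div_eq_mul_one_div]
      gcongr
      linarith
    have h8 : K * ((N : ℝ) * (1 / ((Q0 : ℝ) + 1))) ≤ K * (N / Q0) := by gcongr
    have h9 : K * ((Q : ℝ) - Q0) ≤ K * Q := by
      apply mul_le_mul_of_nonneg_left _ hK0
      linarith
    have h10 : 0 ≤ K * ((N : ℝ) / Q0) := by positivity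
    have e5 : 12 * (B0 ^ 2 * N * ((N : ℝ) / Q0 + Q)) = 2 * (K * (N / Q0)) + 2 * (K * Q) := by
      rw [hKdef]; ring
    rw [e5]
    have e6 : K * (N * (1 / ((Q0 : ℝ) + 1) - 1 / ((Q : ℝ) + 1)))
        = K * (N * (1 / ((Q0 : ℝ) + 1))) - K * (N * (1 / ((Q : ℝ) + 1))) := by ring
    rw [e6]
    linarith
  have h5 : ∑ d ∈ Icc 1 Q, TT N β d / d
      = ∑ d ∈ Icc 1 Q0, TT N β d / d + ∑ d ∈ Ioc Q0 Q, TT N β d / d := by
    rw [← sum_union]
    · refine sum_congr ?_ fun _ _ => rfl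
      ext x
      rw [mem_union, mem_Icc, mem_Icc, mem_Ioc]
      omega
    · rw [disjoint_left]
      intro x hx hx'
      rw [mem_Icc] at hx
      rw [mem_Ioc] at hx'
      omega
  refine h1.trans ?_
  rw [h5]
  have h6 : 0 ≤ (Q0 : ℝ) ^ 2 * Δ ^ 2 := by positivity
  have h7 : 0 ≤ B0 ^ 2 * N * ((N : ℝ) / Q0 + Q) := by positivity
  have h8 : (0 : ℝ) ≤ 1 + Real.log Q := by linarith
  calc (1 + Real.log Q) * (∑ d ∈ Icc 1 Q0, TT N β d / d + ∑ d ∈ Ioc Q0 Q, TT N β d / d)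
      ≤ (1 + Real.log Q) * (100 * ((Q0 : ℝ) ^ 2 * Δ ^ 2 + B0 ^ 2 * N * ((N : ℝ) / Q0 + Q))) := by
        apply mul_le_mul_of_nonneg_left _ h8
        linarith
    _ = _ := by ring

end Pool.Agent.N792
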