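import Mathlib
import Pool.Agent.N792.Defs
import Pool.Agent.N792.Lsc
import Pool.Agent.H568.SP.Moment

/-!
The mean square of the root counts (helper456, for helper792).
-/

set_option autoImplicit false

namespace Pool.Agent.N792
open Finset

namespace RhA

lemma rho_eq (a b c : ℤ) (m : ℕ) [NeZero m] :
    rho a b c m = #{x : ZMod m | (a : ZMod m) * x ^ 2 + b * x + c = 0} := by
  unfold rho
  refine card_bij' (fun r _ => (r : ZMod m)) (fun x _ => x.val) ?_ ?_ ?_ ?_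
  · intro r hr
    rw [mem_filter] at hr
    have h := (ZMod.intCast_zmod_eq_zero_iff_dvd (fv a b c r) m).mpr hr.2
    unfold fv at h
    push_cast at h
    simp only [mem_filter, mem_univ, true_and]
    exact h
  · intro x hx
    simp only [mem_filter, mem_univ, true_and] at hx
    rw [mem_filter, mem_range]
    refine ⟨ZMod.val_lt x, ?_⟩
    rw [← ZMod.intCast_zmod_eq_zero_iff_dvd]
    unfold fv
    push_cast
    rw [ZMod.natCast_zmod_val]
    exact hx
  · intro r hr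
    rw [mem_filter, mem_range] at hr
    exact ZMod.val_natCast_of_lt hr.1
  · intro x _
    exact ZMod.natCast_zmod_val x

lemma rho_mul (a b c : ℤ) (m n : ℕ) (hm : m ≠ 0) (hn : n ≠ 0) (h : m.Coprime n) :
    rho a b c (m * n) = rho a b c m * rho a b c n := by
  have : NeZero m := ⟨hm⟩
  have : NeZero n := ⟨hn⟩
  have : NeZero (m * n) := ⟨mul_ne_zero hm hn⟩
  rw [rho_eq, rho_eq, rho_eq, ← card_product]
  refine card_bij' (fun x _ => ZMod.chineseRemainder h x)
    (fun x _ => (ZMod.chineseRemainder h).symm x) ?_ ?_ ?_ ?_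
  · intro x hx
    simp only [mem_filter, mem_univ, true_and] at hx
    have h2 := congrArg (ZMod.chineseRemainder h) hx
    rw [map_add, map_add, map_mul, map_mul, map_pow, map_intCast, map_intCast, map_intCast,
      map_zero] at h2
    rw [mem_product, mem_filter, mem_filter]
    have h3 := congrArg Prod.fst h2
    have h4 := congrArg Prod.snd h2
    refine ⟨⟨mem_univ _, ?_⟩, ⟨mem_univ _, ?_⟩⟩
    · simpa using h3
    · simpa using h4
  · intro x hx
    rw [mem_product, mem_filter, mem_filter] at hx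
    simp only [mem_filter, mem_univ, true_and]
    apply (ZMod.chineseRemainder h).injective
    rw [map_add, map_add, map_mul, map_mul, map_pow, map_intCast, map_intCast, map_intCast,
      map_zero, RingEquiv.apply_symm_apply]
    ext
    · simpa using hx.1.2
    · simpa using hx.2.2
  · intro x _
    exact (ZMod.chineseRemainder h).symm_apply_apply x
  · intro x _
    exact (ZMod.chineseRemainder h).apply_symm_apply x

lemma rho_prime (a b c : ℤ) (p : ℕ) [Fact p.Prime] (hp2 : p ≠ 2) (hpa : ¬ (p : ℤ) ∣ a) :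
    (rho a b c p : ℤ) = 1 + jacobiSym (b ^ 2 - 4 * a * c) p := by
  rw [rho_eq, ← jacobiSym.legendreSym.to_jacobiSym, legendreSym]
  have hF : ringChar (ZMod p) ≠ 2 := by
    rw [ZMod.ringChar_zmod_n]
    exact hp2
  have h1 := quadraticChar_card_sqrts hF (((b ^ 2 - 4 * a * c : ℤ) : ℤ) : ZMod p)
  rw [add_comm, ← h1]
  congr 1
  have ha0 : (a : ZMod p) ≠ 0 := by
    intro h
    exact hpa ((ZMod.intCast_zmod_eq_zero_iff_dvd a p).mp h)
  have h20 : (2 : ZMod p) ≠ 0 := by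
    have := Ring.two_ne_zero hF
    exact this
  have h2a : (2 * a : ZMod p) ≠ 0 := mul_ne_zero h20 ha0
  refine card_bij' (fun x _ => 2 * a * x + b) (fun x _ => (x - b) / (2 * a)) ?_ ?_ ?_ ?_
  · intro x hx
    simp only [mem_filter, mem_univ, true_and] at hx
    simp only [Set.mem_toFinset]
    change (2 * (a : ZMod p) * x + b) ^ 2 = _
    push_cast
    linear_combination (4 * (a : ZMod p)) * hx
  · intro x hx
    simp only [Set.mem_toFinset] at hx
    change x ^ 2 = _ at hx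
    push_cast at hx
    simp only [mem_filter, mem_univ, true_and]
    have h4 : (4 * a : ZMod p) ≠ 0 := by
      have : (4 * a : ZMod p) = 2 * (2 * a) := by ring
      rw [this]
      exact mul_ne_zero h20 h2a
    apply mul_left_cancel₀ h4
    have hu : 2 * (a : ZMod p) * ((x - b) / (2 * a)) = x - b := mul_div_cancel₀ _ h2a
    set u := (x - (b : ZMod p)) / (2 * a) with hudef
    linear_combination hx + (2 * (a : ZMod p) * u + b + x) * hu
  · intro x _
    field_simp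
    ring
  · intro x _
    field_simp
    ring

/-- the root count as a sum of Jacobi symbols -/
lemma rho_sum (a b c : ℤ) (m : ℕ) (hm : Squarefree m) (h2 : ∀ p : ℕ, p.Prime → p ∣ m → p ≠ 2 ∧ ¬ (p : ℤ) ∣ a) :
    (rho a b c m : ℤ) = ∑ d ∈ m.divisors, jacobiSym (b ^ 2 - 4 * a * c) d := by
  induction m using Nat.strong_induction_on with
  | _ m ih =>
    by_cases hm1 : m = 1
    · subst hm1
      simp [rho, fv]
    · obtain ⟨p, hp, k, rfl⟩ := Nat.exists_prime_and_dvd hm1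
      have hF := Fact.mk hp
      have hpk : p.Coprime k := by
        have := Nat.squarefree_mul_iff.mp hm
        exact this.1
      have hk0 : k ≠ 0 := by rintro rfl; simp at hm
      have hklt : k < p * k := by
        have := hp.one_lt
        nlinarith [Nat.pos_of_ne_zero hk0]
      have hk := ih k hklt (Nat.squarefree_mul_iff.mp hm).2.2
        (fun q hq hqk => h2 q hq (hqk.mul_left p))
      rw [rho_mul a b c p k hp.ne_zero hk0 hpk]
      push_cast
      rw [hk, rho_prime a b c p (h2 p hp (dvd_mul_right p k)).1 (h2 p hp (dvd_mul_right p k)).2]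
      have : NeZero p := ⟨hp.ne_zero⟩
      rw [Nat.divisors_mul, Finset.mul_def, sum_image hpk.mul_injOn_divisors, sum_product,
        hp.divisors, sum_insert (by simpa using hp.one_lt.ne), sum_singleton]
      simp only [one_mul]
      have h5 : ∀ d ∈ k.divisors, jacobiSym (b ^ 2 - 4 * a * c) (p * d)
          = jacobiSym (b ^ 2 - 4 * a * c) p * jacobiSym (b ^ 2 - 4 * a * c) d := by
        intro d hd
        have : NeZero d := ⟨(Nat.pos_of_mem_divisors hd).ne'⟩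
        exact jacobiSym.mul_right _ _ _
      rw [sum_congr rfl h5, ← mul_sum]
      ring

lemma rough_prime {z m : ℕ} (h : Rough z m) (p : ℕ) (hp : p.Prime) (hpm : p ∣ m) : z < p := h.2 p hp hpm

lemma rough_cop {a : ℤ} (ha : 0 < a) {z m : ℕ} (hz : 2 * a < z) (h : Rough z m) (p : ℕ) (hp : p.Prime)
    (hpm : p ∣ m) : p ≠ 2 ∧ ¬ (p : ℤ) ∣ a := by
  have h1 := h.2 p hp hpm
  have h2 : (z : ℤ) < p := by exact_mod_cast h1
  constructor
  · rintro rfl
    have : (2 : ℤ) < z := by linarith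
    omega
  · intro hd
    have := Int.le_of_dvd ha hd
    linarith

lemma rough_of_dvd {z m d : ℕ} (h : Rough z m) (hd : d ∣ m) : Rough z d :=
  ⟨fun h0 => h.1 (by rw [h0] at hd; exact Nat.eq_zero_of_zero_dvd hd),
    fun p hp hpd => h.2 p hp (hpd.trans hd)⟩

lemma rough_lt {z d : ℕ} (h : Rough z d) (hd : 2 ≤ d) : z < d := by
  obtain ⟨p, hp, hpd⟩ := Nat.exists_prime_and_dvd (by omega : d ≠ 1)
  exact (h.2 p hp hpd).trans_le (Nat.le_of_dvd (by omega) hpd)

/-- the off-diagonal sums -/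
lemma off_diag (a : ℤ) (ha : 0 < a) (b : ℤ) (C z : ℕ) (hz : 2 * a < z) (d d' : ℕ)
    (hd : Squarefree d) (hd' : Squarefree d') (hr : Rough z d) (hr' : Rough z d')
    (h2 : 2 ≤ d) (h2' : 2 ≤ d') (hne : d ≠ d') :
    |∑ c ∈ Icc 1 C, ((jacobiSym (b ^ 2 - 4 * a * (c : ℕ)) d : ℤ) : ℝ) *
      ((jacobiSym (b ^ 2 - 4 * a * (c : ℕ)) d' : ℤ) : ℝ)|
      ≤ 8 * Real.sqrt ((d * d' : ℕ) : ℝ) * (1 + Real.log ((d * d' : ℕ) : ℝ)) := by
  have hodd : ∀ m : ℕ, Rough z m → Odd m := by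
    intro m hm
    rw [← Nat.not_even_iff_odd]
    intro he
    exact (rough_cop ha hz hm 2 Nat.prime_two he.two_dvd).1 rfl
  obtain ⟨t, ht⟩ := Pool.Agent.H379R2.W.exists_neg_one hd hd' (hodd d hr) (hodd d' hr') hne
  have hM2 : 2 ≤ d * d' := by nlinarith
  have hne1 : NeZero d := ⟨by omega⟩
  have hne2 : NeZero d' := ⟨by omega⟩
  set M := d * d' with hM
  have hcop : IsCoprime (4 * a) (M : ℤ) := by
    rw [Int.isCoprime_iff_gcd_eq_one]
    by_contra hg
    obtain ⟨p, hp, hpg⟩ := Nat.exists_prime_and_dvd hg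
    have hp1 : (p : ℤ) ∣ 4 * a := (Int.natCast_dvd_natCast.mpr hpg).trans (Int.gcd_dvd_left _ _)
    have hp2 : (p : ℤ) ∣ (M : ℤ) := (Int.natCast_dvd_natCast.mpr hpg).trans (Int.gcd_dvd_right _ _)
    have hp2' : p ∣ d * d' := by exact_mod_cast hp2
    have h3 : p ≠ 2 ∧ ¬ (p : ℤ) ∣ a := by
      rcases hp.dvd_mul.mp hp2' with h | h
      · exact rough_cop ha hz hr p hp h
      · exact rough_cop ha hz hr' p hp h
    have hpI : Prime (p : ℤ) := Nat.prime_iff_prime_int.mp hp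
    rcases hpI.dvd_or_dvd hp1 with h | h
    · have h4 : p ∣ 2 ^ 2 := by
        have : (p : ℤ) ∣ ((2 ^ 2 : ℕ) : ℤ) := by simpa using h
        exact_mod_cast this
      exact h3.1 ((Nat.prime_dvd_prime_iff_eq hp Nat.prime_two).mp (hp.dvd_of_dvd_pow h4))
    · exact h3.2 h
  obtain ⟨u, v, huv⟩ := hcop
  have hM0 : (M : ℤ) ≠ 0 := by
    have : M ≠ 0 := by omega
    exact_mod_cast this
  obtain ⟨n0, hn0⟩ : ∃ n0 : ℕ, (n0 : ℤ) = (-(b ^ 2) * u) % M :=
    ⟨((-(b ^ 2) * u) % M).toNat, Int.toNat_of_nonneg (Int.emod_nonneg _ hM0)⟩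
  have hcong : ∀ c : ℕ, jacobiSym (b ^ 2 - 4 * a * (c : ℕ)) M
      = jacobiSym (4 * a) M * jacobiSym (-(((n0 + c : ℕ)) : ℤ)) M := by
    intro c
    rw [← jacobiSym.mul_left, jacobiSym.mod_left (b ^ 2 - 4 * a * (c : ℕ)),
      jacobiSym.mod_left (4 * a * (-(((n0 + c : ℕ)) : ℤ)))]
    congr 1
    have h5 : (M : ℤ) ∣ (4 * a * (-(((n0 + c : ℕ)) : ℤ))) - (b ^ 2 - 4 * a * (c : ℕ)) := by
      have h6 : (M : ℤ) ∣ (n0 : ℤ) - (-(b ^ 2) * u) := by
        rw [hn0]
        exact ⟨-((-(b ^ 2) * u) / M), by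
          have := Int.mul_ediv_add_emod (-(b ^ 2) * u) M
          linarith⟩
      obtain ⟨k, hk⟩ := h6
      refine ⟨-(4 * a * k) - b ^ 2 * v, ?_⟩
      push_cast
      linear_combination (-(4 * a)) * hk + (b ^ 2) * huv
    exact ((Int.emod_emod_of_dvd _ (dvd_refl _)).symm.trans
      (by rw [Int.emod_emod_of_dvd _ (dvd_refl _)]; exact (Int.modEq_iff_dvd.mpr h5)))
  have e1 : ∑ c ∈ Icc 1 C, ((jacobiSym (b ^ 2 - 4 * a * (c : ℕ)) d : ℤ) : ℝ) *
      ((jacobiSym (b ^ 2 - 4 * a * (c : ℕ)) d' : ℤ) : ℝ)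
      = ((jacobiSym (4 * a) M : ℤ) : ℝ) * ∑ n ∈ Ioc n0 (n0 + C), ((jacobiSym (-(n : ℤ)) M : ℤ) : ℝ) := by
    have e2 : ∑ n ∈ Ioc n0 (n0 + C), ((jacobiSym (-(n : ℤ)) M : ℤ) : ℝ)
        = ∑ c ∈ Icc 1 C, ((jacobiSym (-((n0 + c : ℕ) : ℤ)) M : ℤ) : ℝ) := by
      symm
      refine sum_bij (fun c _ => n0 + c) ?_ ?_ ?_ ?_
      · intro c hc
        rw [mem_Icc] at hc
        rw [mem_Ioc]
        omega
      · intro c _ c' _ h
        exact Nat.add_left_cancel h
      · intro n hn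
        rw [mem_Ioc] at hn
        exact ⟨n - n0, by rw [mem_Icc]; omega, by omega⟩
      · intro c _
        rfl
    rw [e2, mul_sum]
    refine sum_congr rfl fun c _ => ?_
    rw [← Int.cast_mul, ← Int.cast_mul, ← hcong c, hM, jacobiSym.mul_right]
  rw [e1, abs_mul]
  have h7 := Pool.Agent.H568.SP.jac_Ioc_le M hM2 ⟨t, by rw [hM]; exact_mod_cast ht⟩ n0 C
  have h8 := Pool.Agent.H568.SP.jac_abs_le (4 * a) M
  calc |((jacobiSym (4 * a) M : ℤ) : ℝ)| * |∑ n ∈ Ioc n0 (n0 + C), ((jacobiSym (-(n : ℤ)) M : ℤ) : ℝ)|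
      ≤ 1 * (8 * Real.sqrt M * (1 + Real.log M)) := by gcongr
    _ = _ := by rw [one_mul]

lemma sum_inv_sqrt (y : ℕ) : ∑ d ∈ Icc 1 y, 1 / Real.sqrt d ≤ 2 * Real.sqrt y := by
  induction y with
  | zero => simp
  | succ n ih =>
    rw [sum_Icc_succ_top (by omega)]
    have hn : (0 : ℝ) ≤ n := by positivity
    have h1 : 0 < Real.sqrt ((n + 1 : ℕ) : ℝ) := Real.sqrt_pos.mpr (by positivity)
    have h2 : 0 ≤ Real.sqrt (n : ℝ) := Real.sqrt_nonneg _
    have h3 : Real.sqrt ((n + 1 : ℕ) : ℝ) ^ 2 = n + 1 := by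
      rw [Real.sq_sqrt (by positivity)]; push_cast; ring
    have h4 : Real.sqrt (n : ℝ) ^ 2 = n := Real.sq_sqrt hn
    have h5 : 1 / Real.sqrt ((n + 1 : ℕ) : ℝ) ≤ 2 * Real.sqrt ((n + 1 : ℕ) : ℝ) - 2 * Real.sqrt (n : ℝ) := by
      rw [div_le_iff₀ h1]
      nlinarith [sq_nonneg (Real.sqrt ((n + 1 : ℕ) : ℝ) - Real.sqrt (n : ℝ))]
    linarith

/-- the coefficients -/
noncomputable def gp (g : ℕ → ℝ) (y d : ℕ) : ℝ := ∑ m ∈ (Icc 1 y).filter (fun m => d ∣ m), g m

lemma gp_le (g : ℕ → ℝ) (G : ℝ) (hG : 0 ≤ G) (hg : ∀ m, |g m| ≤ G / m) (y d : ℕ) (hy : 1 ≤ y) (hd : 1 ≤ d) :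
    |gp g y d| ≤ G * (1 + Real.log y) / d := by
  unfold gp
  refine (abs_sum_le_sum_abs _ _).trans ?_
  refine (sum_le_sum fun m _ => hg m).trans ?_
  have h := Lsc.harm_mult y d hy hd
  have e1 : ∑ m ∈ (Icc 1 y).filter (fun m => d ∣ m), G / (m : ℝ)
      = G * ∑ m ∈ (Icc 1 y).filter (fun m => d ∣ m), 1 / (m : ℝ) := by
    rw [mul_sum]
    refine sum_congr rfl fun m _ => ?_
    ring
  rw [e1]
  refine (mul_le_mul_of_nonneg_left h hG).trans (le_of_eq ?_)
  ring

lemma gp_supp (g : ℕ → ℝ) (z : ℕ) (hg0 : ∀ m, g m ≠ 0 → Squarefree m ∧ Rough z m) (y d : ℕ)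
    (h : gp g y d ≠ 0) : Squarefree d ∧ Rough z d := by
  unfold gp at h
  obtain ⟨m, hm, hgm⟩ := exists_ne_zero_of_sum_ne_zero h
  rw [mem_filter] at hm
  obtain ⟨h1, h2⟩ := hg0 m hgm
  exact ⟨h1.squarefree_of_dvd hm.2, rough_of_dvd h2 hm.2⟩

lemma inner_eq (a : ℤ) (ha : 0 < a) (b : ℤ) (c y z : ℕ) (g : ℕ → ℝ) (hz : 2 * a < z)
    (hg0 : ∀ m, g m ≠ 0 → Squarefree m ∧ Rough z m) :
    ∑ m ∈ Icc 1 y, g m * ((rho a b c m : ℝ) - 1)
      = ∑ d ∈ Icc 2 y, gp g y d * ((jacobiSym (b ^ 2 - 4 * a * (c : ℕ)) d : ℤ) : ℝ) := by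
  have h1 : ∀ m ∈ Icc 1 y, g m * ((rho a b c m : ℝ) - 1)
      = ∑ d ∈ Icc 2 y, if d ∣ m then g m * ((jacobiSym (b ^ 2 - 4 * a * (c : ℕ)) d : ℤ) : ℝ) else 0 := by
    intro m hm
    rw [mem_Icc] at hm
    by_cases hgm : g m = 0
    · simp [hgm]
    · obtain ⟨hs, hr⟩ := hg0 m hgm
      have h2 := rho_sum a b c m hs (fun p hp hpm => rough_cop ha hz hr p hp hpm)
      have h3 : (rho a b c m : ℝ) = ∑ d ∈ m.divisors, ((jacobiSym (b ^ 2 - 4 * a * (c : ℕ)) d : ℤ) : ℝ) := by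
        exact_mod_cast h2
      have h4 : m.divisors = insert 1 ((Icc 2 y).filter (fun d => d ∣ m)) := by
        ext d
        rw [Nat.mem_divisors, mem_insert, mem_filter, mem_Icc]
        constructor
        · rintro ⟨h, h'⟩
          by_cases hd1 : d = 1
          · exact Or.inl hd1
          · right
            have h5 := Nat.le_of_dvd (by omega) h
            have h6 := Nat.pos_of_dvd_of_pos h (by omega)
            exact ⟨by omega, h⟩
        · rintro (rfl | h)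
          · exact ⟨one_dvd _, by omega⟩
          · exact ⟨h.2, by omega⟩
      rw [h3, h4, sum_insert (by simp), jacobiSym.one_right, ← sum_filter, ← mul_sum]
      push_cast
      ring
  rw [sum_congr rfl h1, sum_comm]
  refine sum_congr rfl fun d _ => ?_
  unfold gp
  rw [sum_mul, ← sum_filter]

end RhA

open RhA

theorem rho_avg (a : ℤ) (ha : 0 < a) (b : ℤ) (C y z : ℕ) (G : ℝ) (g : ℕ → ℝ) (hz : 2 * a < z) (hy : 1 ≤ y)
    (hg : ∀ m, |g m| ≤ G / m) (hg0 : ∀ m, g m ≠ 0 → Squarefree m ∧ Rough z m) :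
    ∑ c ∈ Icc 1 C, (∑ m ∈ Icc 1 y, g m * ((rho a b c m : ℝ) - 1)) ^ 2 ≤
      G ^ 2 * (1 + 2 * Real.log y) ^ 3 * (2 * C / z + 64 * y) := by
  have hG : 0 ≤ G := by
    have h1 := (abs_nonneg _).trans (hg 1)
    simpa using h1
  set J : ℕ → ℕ → ℝ := fun c d => ((jacobiSym (b ^ 2 - 4 * a * (c : ℕ)) d : ℤ) : ℝ) with hJ
  have hzpos : 0 < z := by
    have : (0 : ℤ) < z := by linarith
    exact_mod_cast this
  have hlog : 0 ≤ Real.log y := Real.log_natCast_nonneg y
  have hy1 : (1 : ℝ) ≤ y := by exact_mod_cast hy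
  set L : ℝ := 1 + Real.log y with hL
  have hL0 : 0 ≤ L := by positivity
  -- expand the square
  have h1 : ∑ c ∈ Icc 1 C, (∑ m ∈ Icc 1 y, g m * ((rho a b c m : ℝ) - 1)) ^ 2
      = ∑ d ∈ Icc 2 y, ∑ d' ∈ Icc 2 y, gp g y d * gp g y d' * ∑ c ∈ Icc 1 C, J c d * J c d' := by
    have h2 : ∀ c ∈ Icc 1 C, (∑ m ∈ Icc 1 y, g m * ((rho a b c m : ℝ) - 1)) ^ 2
        = ∑ d ∈ Icc 2 y, ∑ d' ∈ Icc 2 y, gp g y d * gp g y d' * (J c d * J c d') := by
      intro c _
      rw [inner_eq a ha b c y z g hz hg0, sq, sum_mul_sum]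
      refine sum_congr rfl fun d _ => sum_congr rfl fun d' _ => ?_
      simp only [hJ]
      ring
    rw [sum_congr rfl h2, sum_comm]
    refine sum_congr rfl fun d _ => ?_
    rw [sum_comm]
    refine sum_congr rfl fun d' _ => ?_
    rw [mul_sum]
  rw [h1]
  -- the pointwise bound
  have h2 : ∀ d ∈ Icc 2 y, ∀ d' ∈ Icc 2 y, gp g y d * gp g y d' * ∑ c ∈ Icc 1 C, J c d * J c d'
      ≤ (if d = d' then (if z < d then (G * L) ^ 2 * C * ((d : ℝ) ^ 2)⁻¹ else 0) else 0)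
        + 8 * (G * L) ^ 2 * (1 + 2 * Real.log y) * ((1 / Real.sqrt d) * (1 / Real.sqrt d')) := by
    intro d hd d' hd'
    rw [mem_Icc] at hd hd'
    have hdp : (0 : ℝ) < d := by
      have : 0 < d := by omega
      exact_mod_cast this
    have hdp' : (0 : ℝ) < d' := by
      have : 0 < d' := by omega
      exact_mod_cast this
    have hpos2 : 0 ≤ 8 * (G * L) ^ 2 * (1 + 2 * Real.log y) * ((1 / Real.sqrt d) * (1 / Real.sqrt d')) := by
      positivity
    have hpos1 : 0 ≤ (if d = d' then (if z < d then (G * L) ^ 2 * C * ((d : ℝ) ^ 2)⁻¹ else 0) else 0) := by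
      split_ifs <;> positivity
    by_cases hz1 : gp g y d = 0
    · rw [hz1]
      simp only [zero_mul]
      positivity
    by_cases hz2 : gp g y d' = 0
    · rw [hz2]
      simp only [zero_mul, mul_zero]
      positivity
    obtain ⟨hs, hr⟩ := gp_supp g z hg0 y d hz1
    obtain ⟨hs', hr'⟩ := gp_supp g z hg0 y d' hz2
    have hb := gp_le g G hG hg y d hy (by omega)
    have hb' := gp_le g G hG hg y d' hy (by omega)
    rw [← hL] at hb hb'
    by_cases hdd : d = d'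
    · subst hdd
      rw [if_pos rfl, if_pos (rough_lt hr hd.1)]
      have h3 : gp g y d * gp g y d * ∑ c ∈ Icc 1 C, J c d * J c d ≤ (G * L) ^ 2 * C * ((d : ℝ) ^ 2)⁻¹ := by
        have h4 : ∑ c ∈ Icc 1 C, J c d * J c d ≤ C := by
          have : ∀ c ∈ Icc 1 C, J c d * J c d ≤ 1 := by
            intro c _
            have h5 := Pool.Agent.H568.SP.jac_abs_le (b ^ 2 - 4 * a * (c : ℕ)) d
            have h6 := abs_le.mp h5
            simp only [hJ]
            nlinarith [h6.1, h6.2]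
          refine (sum_le_card_nsmul _ _ _ this).trans ?_
          simp
        have h5 : gp g y d * gp g y d ≤ (G * L / d) ^ 2 := by
          rw [← sq, ← sq_abs]
          exact pow_le_pow_left₀ (abs_nonneg _) hb 2
        have h6 : 0 ≤ gp g y d * gp g y d := mul_self_nonneg _
        calc gp g y d * gp g y d * ∑ c ∈ Icc 1 C, J c d * J c d
            ≤ gp g y d * gp g y d * C := mul_le_mul_of_nonneg_left h4 h6
          _ ≤ (G * L / d) ^ 2 * C := by gcongr
          _ = _ := by field_simp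
      linarith
    · have h3 := off_diag a ha b C z hz d d' hs hs' hr hr' hd.1 hd'.1 hdd
      have h4 : gp g y d * gp g y d' * ∑ c ∈ Icc 1 C, J c d * J c d'
          ≤ 8 * (G * L) ^ 2 * (1 + 2 * Real.log y) * ((1 / Real.sqrt d) * (1 / Real.sqrt d')) := by
        refine (le_abs_self _).trans ?_
        rw [abs_mul, abs_mul]
        have hlog2 : Real.log ((d * d' : ℕ) : ℝ) ≤ 2 * Real.log y := by
          push_cast
          rw [Real.log_mul hdp.ne' hdp'.ne', two_mul]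
          apply add_le_add
          · exact Real.log_le_log hdp (by exact_mod_cast hd.2)
          · exact Real.log_le_log hdp' (by exact_mod_cast hd'.2)
        have hsq : Real.sqrt ((d * d' : ℕ) : ℝ) = Real.sqrt d * Real.sqrt d' := by
          push_cast
          exact Real.sqrt_mul hdp.le _
        have hsd : 0 < Real.sqrt (d : ℝ) := Real.sqrt_pos.mpr hdp
        have hsd' : 0 < Real.sqrt (d' : ℝ) := Real.sqrt_pos.mpr hdp'
        have hsd2 : Real.sqrt (d : ℝ) ^ 2 = d := Real.sq_sqrt hdp.le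
        have hsd2' : Real.sqrt (d' : ℝ) ^ 2 = d' := Real.sq_sqrt hdp'.le
        calc |gp g y d| * |gp g y d'| * |∑ c ∈ Icc 1 C, J c d * J c d'|
            ≤ (G * L / d) * (G * L / d') * (8 * Real.sqrt ((d * d' : ℕ) : ℝ) * (1 + 2 * Real.log y)) := by
              refine mul_le_mul (mul_le_mul hb hb' (abs_nonneg _) (by positivity)) (h3.trans ?_)
                (abs_nonneg _) (by positivity)
              gcongr
          _ = _ := by
              rw [hsq]
              nth_rewrite 1 [← hsd2]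
              nth_rewrite 1 [← hsd2']
              field_simp
      linarith
  refine (sum_le_sum fun d hd => sum_le_sum fun d' hd' => h2 d hd d' hd').trans ?_
  simp only [sum_add_distrib]
  have h3 : ∑ d ∈ Icc 2 y, ∑ d' ∈ Icc 2 y,
      (if d = d' then (if z < d then (G * L) ^ 2 * C * ((d : ℝ) ^ 2)⁻¹ else 0) else 0)
      ≤ (G * L) ^ 2 * C * (z : ℝ)⁻¹ := by
    have e1 : ∀ d ∈ Icc 2 y, ∑ d' ∈ Icc 2 y,
        (if d = d' then (if z < d then (G * L) ^ 2 * C * ((d : ℝ) ^ 2)⁻¹ else 0) else 0)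
        = if z < d then (G * L) ^ 2 * C * ((d : ℝ) ^ 2)⁻¹ else 0 := by
      intro d hd
      rw [sum_ite_eq (Icc 2 y) d, if_pos hd]
    rw [sum_congr rfl e1, ← sum_filter, ← mul_sum]
    refine mul_le_mul_of_nonneg_left ?_ (by positivity)
    have hsub : (Icc 2 y).filter (fun d => z < d) ⊆ Ioc z (max z y) := by
      intro d hd
      rw [mem_filter, mem_Icc] at hd
      rw [mem_Ioc]
      exact ⟨hd.2, le_max_of_le_right hd.1.2⟩
    refine (sum_le_sum_of_subset_of_nonneg hsub (fun _ _ _ => by positivity)).trans ?_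
    have h5 := sum_Ioc_inv_sq_le_sub (α := ℝ) hzpos.ne' (le_max_left z y)
    refine h5.trans ?_
    have : (0 : ℝ) ≤ ((max z y : ℕ) : ℝ)⁻¹ := by positivity
    linarith
  have h4 : ∑ d ∈ Icc 2 y, ∑ d' ∈ Icc 2 y,
      8 * (G * L) ^ 2 * (1 + 2 * Real.log y) * ((1 / Real.sqrt d) * (1 / Real.sqrt d'))
      ≤ 8 * (G * L) ^ 2 * (1 + 2 * Real.log y) * (4 * y) := by
    simp only [← mul_sum]
    rw [← sum_mul]
    have h5 : ∑ d ∈ Icc 2 y, 1 / Real.sqrt (d : ℝ) ≤ 2 * Real.sqrt y := by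
      refine le_trans ?_ (sum_inv_sqrt y)
      refine sum_le_sum_of_subset_of_nonneg ?_ (fun _ _ _ => by positivity)
      intro d hd
      rw [mem_Icc] at hd ⊢
      omega
    have h6 : 0 ≤ ∑ d ∈ Icc 2 y, 1 / Real.sqrt (d : ℝ) := sum_nonneg fun _ _ => by positivity
    have h7 : Real.sqrt (y : ℝ) ^ 2 = y := Real.sq_sqrt (by positivity)
    refine mul_le_mul_of_nonneg_left ?_ (by positivity)
    calc (∑ d ∈ Icc 2 y, 1 / Real.sqrt (d : ℝ)) * ∑ d ∈ Icc 2 y, 1 / Real.sqrt (d : ℝ)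
        ≤ (2 * Real.sqrt y) * (2 * Real.sqrt y) := mul_le_mul h5 h5 h6 (by positivity)
      _ = 4 * y := by linear_combination 4 * h7
  refine (add_le_add h3 h4).trans ?_
  -- compare
  have hP : L ≤ 1 + 2 * Real.log y := by rw [hL]; linarith
  set P : ℝ := 1 + 2 * Real.log y with hPdef
  have hP1 : 1 ≤ P := by rw [hPdef]; linarith
  have hz1 : (0 : ℝ) < z := by exact_mod_cast hzpos
  have hLP : L ^ 2 ≤ P ^ 3 := by
    calc L ^ 2 ≤ P ^ 2 := pow_le_pow_left₀ hL0 hP 2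
      _ ≤ P ^ 3 := pow_le_pow_right₀ hP1 (by norm_num)
  have hLP2 : L ^ 2 * P ≤ P ^ 3 := by
    calc L ^ 2 * P ≤ P ^ 2 * P := by gcongr
      _ = P ^ 3 := by ring
  have hA : 0 ≤ (C : ℝ) * (z : ℝ)⁻¹ := by positivity
  calc (G * L) ^ 2 * C * (z : ℝ)⁻¹ + 8 * (G * L) ^ 2 * P * (4 * y)
      = G ^ 2 * (L ^ 2 * (C * (z : ℝ)⁻¹) + L ^ 2 * P * (32 * y)) := by ring
    _ ≤ G ^ 2 * (P ^ 3 * (C * (z : ℝ)⁻¹) + P ^ 3 * (32 * y)) := by gcongr
    _ ≤ G ^ 2 * (P ^ 3 * (2 * (C * (z : ℝ)⁻¹)) + P ^ 3 * (64 * y)) := by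
        have hP0 : 0 ≤ P ^ 3 := by positivity
        have hy0 : (0 : ℝ) ≤ y := by positivity
        have e1 : C * (z : ℝ)⁻¹ ≤ 2 * (C * (z : ℝ)⁻¹) := by linarith
        have e2 : 32 * (y : ℝ) ≤ 64 * y := by linarith
        exact mul_le_mul_of_nonneg_left (add_le_add (mul_le_mul_of_nonneg_left e1 hP0)
          (mul_le_mul_of_nonneg_left e2 hP0)) (sq_nonneg G)
    _ = _ := by ring

end Pool.Agent.N792
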