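import Mathlib
import Pool.Agent.N792.Defs2
import Pool.Agent.N792.FlL
import Pool.Agent.Erdos456.Mertens

/-!
The model of the rough functions: auxiliary lemmas (helper456, for helper792).
-/

set_option autoImplicit false

namespace Pool.Agent.N792
open Finset Filter Topology
open ArithmeticFunction (moebius vonMangoldt)

namespace Shp

lemma fac_pos {p : ℕ} (hp : p.Prime) : 0 < 1 - 1 / (p : ℝ) := by
  have h1 : (2 : ℝ) ≤ p := by exact_mod_cast hp.two_le
  rw [sub_pos, div_lt_one (by linarith)]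
  linarith

lemma fac_le_one (p : ℕ) : 1 - 1 / (p : ℝ) ≤ 1 := by
  have : (0 : ℝ) ≤ 1 / (p : ℝ) := by positivity
  linarith

lemma V1_pos (z : ℕ) : 0 < V1 z := by
  unfold V1
  exact prod_pos fun p hp => fac_pos (mem_filter.mp hp).2

lemma V1_le_one (z : ℕ) : V1 z ≤ 1 := by
  unfold V1
  exact prod_le_one (fun p hp => (fac_pos (mem_filter.mp hp).2).le) (fun p _ => fac_le_one p)

lemma V1_anti {w z : ℕ} (h : w ≤ z) : V1 z ≤ V1 w := by
  unfold V1
  have hsub : (Icc 1 w).filter Nat.Prime ⊆ (Icc 1 z).filter Nat.Prime := by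
    intro p hp
    rw [mem_filter, mem_Icc] at hp ⊢
    exact ⟨⟨hp.1.1, hp.1.2.trans h⟩, hp.2⟩
  rw [← prod_sdiff hsub]
  have h1 : ∏ p ∈ (Icc 1 z).filter Nat.Prime \ (Icc 1 w).filter Nat.Prime, (1 - 1 / (p : ℝ)) ≤ 1 :=
    prod_le_one (fun p hp => (fac_pos (mem_filter.mp (mem_sdiff.mp hp).1).2).le)
      (fun p _ => fac_le_one p)
  have h2 : 0 ≤ ∏ p ∈ (Icc 1 w).filter Nat.Prime, (1 - 1 / (p : ℝ)) :=
    prod_nonneg (fun p hp => (fac_pos (mem_filter.mp hp).2).le)
  nlinarith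

lemma V1_lower : ∃ c : ℝ, 0 < c ∧ ∀ w : ℕ, 3 ≤ w → c / Real.log w ≤ V1 w := by
  obtain ⟨C, hC⟩ := Pool.Agent.Erdos456.Mert.mertens_inv
  refine ⟨Real.exp (-(C + 2)), Real.exp_pos _, ?_⟩
  intro w hw
  have h1 := (abs_le.mp (hC w hw)).2
  have hlog : 0 < Real.log w := Real.log_pos (by exact_mod_cast (by omega : 1 < w))
  have h2 : ∑ p ∈ (Icc 1 w).filter Nat.Prime, ((p : ℝ) ^ 2)⁻¹ ≤ 1 := by
    have hsub : (Icc 1 w).filter Nat.Prime ⊆ Ioc 1 w := by
      intro p hp
      rw [mem_filter, mem_Icc] at hp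
      rw [mem_Ioc]
      exact ⟨hp.2.one_lt, hp.1.2⟩
    refine (sum_le_sum_of_subset_of_nonneg hsub (fun _ _ _ => by positivity)).trans ?_
    have h3 := sum_Ioc_inv_sq_le_sub (α := ℝ) (k := 1) one_ne_zero (by omega : 1 ≤ w)
    refine h3.trans ?_
    have : (0 : ℝ) ≤ ((w : ℕ) : ℝ)⁻¹ := by positivity
    push_cast
    linarith
  have h3 : ∀ p ∈ (Icc 1 w).filter Nat.Prime,
      Real.exp (-(1 / (p : ℝ) + 2 * ((p : ℝ) ^ 2)⁻¹)) ≤ 1 - 1 / (p : ℝ) := by
    intro p hp
    have hp2 : (2 : ℝ) ≤ p := by exact_mod_cast (mem_filter.mp hp).2.two_le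
    have hx0 : 0 < 1 - 1 / (p : ℝ) := fac_pos (mem_filter.mp hp).2
    have h4 : (1 - 1 / (p : ℝ))⁻¹ ≤ Real.exp (1 / (p : ℝ) + 2 * ((p : ℝ) ^ 2)⁻¹) := by
      have h5 := Real.add_one_le_exp (1 / (p : ℝ) + 2 * ((p : ℝ) ^ 2)⁻¹)
      refine le_trans ?_ h5
      rw [inv_le_iff_one_le_mul₀ hx0]
      have hp0 : (0 : ℝ) < p := by linarith
      have e1 : (1 / (p : ℝ) + 2 * ((p : ℝ) ^ 2)⁻¹ + 1) * (1 - 1 / (p : ℝ))
          = 1 + ((p : ℝ) ^ 2)⁻¹ * (1 - 2 / p) := by
        field_simp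
        ring
      rw [e1]
      have : 0 ≤ ((p : ℝ) ^ 2)⁻¹ * (1 - 2 / p) := by
        apply mul_nonneg (by positivity)
        rw [sub_nonneg, div_le_one hp0]
        exact hp2
      linarith
    rw [Real.exp_neg]
    exact inv_le_of_inv_le₀ hx0 h4
  calc Real.exp (-(C + 2)) / Real.log w
      = Real.exp (-(Real.log (Real.log w) + C + 2)) := by
        rw [show -(Real.log (Real.log w) + C + 2) = -(C + 2) - Real.log (Real.log w) by ring,
          Real.exp_sub, Real.exp_log hlog]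
    _ ≤ Real.exp (∑ p ∈ (Icc 1 w).filter Nat.Prime, -(1 / (p : ℝ) + 2 * ((p : ℝ) ^ 2)⁻¹)) := by
        apply Real.exp_le_exp.mpr
        rw [sum_neg_distrib, sum_add_distrib, ← mul_sum]
        linarith
    _ = ∏ p ∈ (Icc 1 w).filter Nat.Prime, Real.exp (-(1 / (p : ℝ) + 2 * ((p : ℝ) ^ 2)⁻¹)) :=
        Real.exp_sum _ _
    _ ≤ V1 w := by
        unfold V1
        exact prod_le_prod (fun _ _ => (Real.exp_pos _).le) h3

/-- `1 / q V1q q w = V1 w / φ(q)` -/
lemma tot_id (q w : ℕ) (hq : 1 ≤ q) (hqw : q ≤ w) : V1q q w / q = V1 w / (Nat.totient q : ℝ) := by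
  have hq0 : (0 : ℝ) < q := by exact_mod_cast hq
  have hφ : (0 : ℝ) < Nat.totient q := by exact_mod_cast Nat.totient_pos.mpr hq
  have h1 : (Nat.totient q : ℝ) = q * ∏ p ∈ q.primeFactors, (1 - 1 / (p : ℝ)) := by
    have h := Nat.totient_eq_mul_prod_factors q
    have h2 : ((Nat.totient q : ℚ) : ℝ) = ((q * ∏ p ∈ q.primeFactors, (1 - (p : ℚ)⁻¹) : ℚ) : ℝ) := by
      rw [h]
    push_cast at h2
    rw [h2]
    congr 1
    refine prod_congr rfl fun p _ => ?_
    rw [one_div]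
  have h2 : V1 w = (∏ p ∈ q.primeFactors, (1 - 1 / (p : ℝ))) * V1q q w := by
    unfold V1 V1q
    rw [← prod_union]
    · refine prod_congr ?_ fun _ _ => rfl
      ext p
      rw [mem_filter, mem_Icc, mem_union, Nat.mem_primeFactors, mem_filter, mem_Icc]
      constructor
      · rintro ⟨h, h'⟩
        by_cases hd : p ∣ q
        · exact Or.inl ⟨h', hd, by omega⟩
        · exact Or.inr ⟨h, h', hd⟩
      · rintro (⟨h, h', _⟩ | ⟨h, h', _⟩)
        · exact ⟨⟨h.one_lt.le, (Nat.le_of_dvd hq h').trans hqw⟩, h⟩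
        · exact ⟨h, h'⟩
    · rw [disjoint_left]
      intro p hp hp'
      exact (mem_filter.mp hp').2.2 (Nat.dvd_of_mem_primeFactors hp)
  have hP : 0 < ∏ p ∈ q.primeFactors, (1 - 1 / (p : ℝ)) :=
    prod_pos fun p hp => fac_pos (Nat.prime_of_mem_primeFactors hp)
  rw [h1, h2]
  field_simp

/-- sizes of logarithms -/
lemma log_pow_le (M : ℕ) (c δ : ℝ) (hδ : 0 < δ) :
    ∀ᶠ x : ℕ in atTop, c * Real.log x ^ M ≤ (x : ℝ) ^ δ := by
  have h1 : (fun x : ℝ => c * Real.log x ^ M) =o[atTop] fun x : ℝ => x ^ δ := by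
    apply Asymptotics.IsLittleO.const_mul_left
    have := isLittleO_log_rpow_rpow_atTop (M : ℝ) hδ
    simpa [Real.rpow_natCast] using this
  have h2 := (h1.bound (by norm_num : (0 : ℝ) < 1))
  have h3 := tendsto_natCast_atTop_atTop.eventually (α := ℕ) h2
  filter_upwards [h3, eventually_ge_atTop 1] with x hx hx1
  rw [one_mul, Real.norm_eq_abs, Real.norm_eq_abs, abs_of_nonneg (Real.rpow_nonneg (by positivity) _)] at hx
  exact (le_abs_self _).trans hx

lemma log_ge (c : ℝ) : ∀ᶠ x : ℕ in atTop, c ≤ Real.log x := by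
  have h : Tendsto (fun x : ℕ => Real.log x) atTop atTop :=
    Real.tendsto_log_atTop.comp tendsto_natCast_atTop_atTop
  exact h.eventually_ge_atTop c

lemma inv_V1_le (E : ℕ) : ∀ᶠ x : ℕ in atTop, ∀ w : ℕ, (w : ℝ) ≤ Real.log x ^ E →
    1 / V1 w ≤ Real.log x := by
  obtain ⟨c, hc, H⟩ := V1_lower
  have h1 : ∀ᶠ L : ℝ in atTop, Real.log (max 3 (L ^ E)) / c ≤ L := by
    have h2 : (fun L : ℝ => Real.log L) =o[atTop] fun L : ℝ => L := Real.isLittleO_log_id_atTop
    have h3 := h2.bound (show (0 : ℝ) < c / (E + 1) by positivity)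
    filter_upwards [h3, eventually_ge_atTop 3, eventually_ge_atTop 1] with L hL hL3 hL1
    have hlog : 0 ≤ Real.log L := Real.log_nonneg hL1
    rw [Real.norm_eq_abs, Real.norm_eq_abs, abs_of_nonneg hlog, abs_of_nonneg (by linarith)] at hL
    rw [div_le_iff₀ hc]
    have h4 : max 3 (L ^ E) ≤ L ^ (E + 1) := by
      apply max_le
      · calc (3 : ℝ) ≤ L := hL3
          _ = L ^ 1 := (pow_one L).symm
          _ ≤ L ^ (E + 1) := pow_le_pow_right₀ hL1 (by omega)
      · exact pow_le_pow_right₀ hL1 (by omega)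
    calc Real.log (max 3 (L ^ E)) ≤ Real.log (L ^ (E + 1)) :=
          Real.log_le_log (lt_of_lt_of_le (by norm_num) (le_max_left _ _)) h4
      _ = (E + 1) * Real.log L := by rw [Real.log_pow]; push_cast; ring
      _ ≤ (E + 1) * (c / (E + 1) * L) := by gcongr
      _ = L * c := by field_simp
  have h2 : Tendsto (fun x : ℕ => Real.log x) atTop atTop :=
    Real.tendsto_log_atTop.comp tendsto_natCast_atTop_atTop
  filter_upwards [h2.eventually h1, log_ge 1] with x hx hx1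
  intro w hw
  have hpos : 0 < V1 (max 3 w) := V1_pos _
  have h3 : V1 (max 3 w) ≤ V1 w := V1_anti (le_max_right _ _)
  have h4 := H (max 3 w) (le_max_left _ _)
  have h5 : 1 / V1 w ≤ 1 / V1 (max 3 w) := one_div_le_one_div_of_le hpos h3
  refine h5.trans (le_trans ?_ hx)
  have hm : (3 : ℝ) ≤ ((max 3 w : ℕ) : ℝ) := by exact_mod_cast le_max_left 3 w
  have hlogm : 0 < Real.log ((max 3 w : ℕ) : ℝ) := Real.log_pos (by linarith)
  have h6 : 1 / V1 (max 3 w) ≤ Real.log ((max 3 w : ℕ) : ℝ) / c := by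
    rw [div_le_div_iff₀ hpos hc]
    rw [div_le_iff₀ hlogm] at h4
    linarith
  refine h6.trans ?_
  gcongr
  push_cast
  exact max_le_max le_rfl hw

/-- the choice of the sieve parameter -/
lemma choose_b0 (C1 E M : ℕ) (hC1 : 1 ≤ C1) : ∀ᶠ x : ℕ in atTop, ∃ b0 : ℕ, C1 ≤ b0 ∧
    (1 / 2 : ℝ) ^ b0 ≤ 1 / Real.log x ^ M ∧
    ∀ Jw : ℕ, ((2 ^ 2 ^ Jw : ℕ) : ℝ) ≤ Real.log x ^ E →
      (C1 : ℝ) * (Jw + 2) * (2 ^ 2 ^ Jw) ^ (C1 * b0) ≤ (x : ℝ) ^ (1 / 2 : ℝ) := by
  obtain ⟨D, hD⟩ : ∃ D : ℝ, D = Real.log (4 * C1) + E * (C1 * (2 * M + 2 + C1) + 1) + 1 := ⟨_, rfl⟩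
  have hC1R : (1 : ℝ) ≤ C1 := by exact_mod_cast hC1
  have hlog4 : 0 ≤ Real.log (4 * C1) := Real.log_nonneg (by linarith)
  have hD0 : 0 < D := by rw [hD]; positivity
  have h1 : ∀ᶠ u : ℝ in atTop, D * u ^ 2 ≤ Real.exp u / 2 := by
    have h2 := (Real.isLittleO_pow_exp_atTop (n := 2)).bound (show (0 : ℝ) < 1 / (2 * D) by positivity)
    filter_upwards [h2, eventually_ge_atTop 1] with u hu hu1
    rw [Real.norm_eq_abs, Real.norm_eq_abs, abs_of_nonneg (by positivity),
      abs_of_nonneg (Real.exp_pos _).le] at hu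
    calc D * u ^ 2 ≤ D * (1 / (2 * D) * Real.exp u) := by gcongr
      _ = Real.exp u / 2 := by field_simp
  have ht : Tendsto (fun x : ℕ => Real.log x) atTop atTop :=
    Real.tendsto_log_atTop.comp tendsto_natCast_atTop_atTop
  have ht2 : Tendsto (fun x : ℕ => Real.log (Real.log x)) atTop atTop :=
    Real.tendsto_log_atTop.comp ht
  filter_upwards [ht2.eventually h1, ht2.eventually_ge_atTop 1, log_ge 1, eventually_ge_atTop 1]
    with x hx hu1 hL1 hx1
  set L := Real.log x with hLdef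
  set u := Real.log L with hudef
  have hL0 : 0 < L := by linarith
  have hLu : Real.exp u = L := Real.exp_log hL0
  have hl2 : 1 / 2 < Real.log 2 := by have := Real.log_two_gt_d9; linarith
  obtain ⟨b0, hb0⟩ : ∃ b0 : ℕ, b0 = ⌈(M : ℝ) * u / Real.log 2⌉₊ + C1 := ⟨_, rfl⟩
  have hb1 : (M : ℝ) * u / Real.log 2 ≤ b0 := by
    rw [hb0]
    push_cast
    have := Nat.le_ceil ((M : ℝ) * u / Real.log 2)
    linarith
  have hb2 : (b0 : ℝ) ≤ (2 * M + 2 + C1) * u := by
    rw [hb0]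
    push_cast
    have h3 := Nat.ceil_lt_add_one (show 0 ≤ (M : ℝ) * u / Real.log 2 by positivity)
    have h4 : (M : ℝ) * u / Real.log 2 ≤ 2 * M * u := by
      rw [div_le_iff₀ (by linarith)]
      have : 0 ≤ (M : ℝ) * u := by positivity
      nlinarith
    have h5 : (C1 : ℝ) ≤ C1 * u := by nlinarith
    nlinarith
  refine ⟨b0, by omega, ?_, ?_⟩
  · rw [one_div, inv_pow, one_div]
    apply inv_anti₀ (by positivity)
    have e1 : L ^ M = Real.exp (M * u) := by
      rw [← hLu, ← Real.exp_nat_mul]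
    have e2 : (2 : ℝ) ^ b0 = Real.exp (b0 * Real.log 2) := by
      rw [Real.exp_nat_mul, Real.exp_log (by norm_num)]
    rw [e1, e2]
    apply Real.exp_le_exp.mpr
    rw [div_le_iff₀ (by linarith)] at hb1
    exact hb1
  · intro Jw hw
    have h3 : (Jw : ℝ) + 2 ≤ 2 * (2 ^ 2 ^ Jw : ℝ) := by
      have h4 : Jw + 2 ≤ 2 * 2 ^ 2 ^ Jw := by
        have h5 : Jw + 1 ≤ 2 ^ Jw := Nat.lt_two_pow_self
        have h6 : 2 ^ Jw + 1 ≤ 2 ^ 2 ^ Jw := Nat.lt_two_pow_self
        omega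
      exact_mod_cast h4
    have hw' : (2 ^ 2 ^ Jw : ℝ) ≤ L ^ E := by
      have := hw
      push_cast at this
      exact this
    have hpos : (0 : ℝ) < 2 ^ 2 ^ Jw := by positivity
    calc (C1 : ℝ) * (Jw + 2) * (2 ^ 2 ^ Jw) ^ (C1 * b0)
        ≤ (C1 : ℝ) * (2 * (2 ^ 2 ^ Jw : ℝ)) * (2 ^ 2 ^ Jw) ^ (C1 * b0) := by gcongr
      _ = 2 * C1 * (2 ^ 2 ^ Jw : ℝ) ^ (C1 * b0 + 1) := by ring
      _ ≤ (4 * C1) * (L ^ E) ^ (C1 * b0 + 1) := by
          gcongr
          norm_num
      _ = Real.exp (Real.log (4 * C1) + E * (C1 * b0 + 1) * u) := by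
          have e1 : (L ^ E) ^ (C1 * b0 + 1) = Real.exp (E * (C1 * b0 + 1) * u) := by
            rw [← pow_mul, ← hLu, ← Real.exp_nat_mul]
            push_cast
            ring_nf
          rw [e1, Real.exp_add, Real.exp_log (by linarith)]
      _ ≤ Real.exp (Real.exp u / 2) := by
          apply Real.exp_le_exp.mpr
          refine le_trans ?_ hx
          have h7 : E * (C1 * (b0 : ℝ) + 1) * u ≤ E * (C1 * ((2 * M + 2 + C1) * u) + u) * u := by
            gcongr
          have hu2 : 1 ≤ u ^ 2 := one_le_pow₀ hu1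
          have h8 : Real.log (4 * C1) ≤ Real.log (4 * C1) * u ^ 2 := le_mul_of_one_le_right hlog4 hu2
          rw [hD]
          nlinarith [sq_nonneg u]
      _ = (x : ℝ) ^ (1 / 2 : ℝ) := by
          rw [hLu, Real.rpow_def_of_pos (by exact_mod_cast hx1)]
          congr 1
          ring

/-- the number of prime factors of a rough number -/
lemma card_div_rough {z k : ℕ} (h : Rough z k) : ∃ n : ℕ, #k.divisors ≤ 2 ^ n ∧ z ^ n ≤ k := by
  refine ⟨∑ p ∈ k.primeFactors, k.factorization p, ?_, ?_⟩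
  · rw [Nat.card_divisors h.1, ← prod_pow_eq_pow_sum]
    apply prod_le_prod' fun p _ => ?_
    exact Nat.lt_two_pow_self
  · rw [← prod_pow_eq_pow_sum]
    conv_rhs => rw [← Nat.prod_factorization_pow_eq_self h.1]
    rw [Finsupp.prod, Nat.support_factorization]
    apply prod_le_prod' fun p hp => ?_
    exact Nat.pow_le_pow_left (h.2 p (Nat.prime_of_mem_primeFactors hp)
      (Nat.dvd_of_mem_primeFactors hp)).le _

/-- the sup norm of the coefficients -/
lemma beta_sup (η : ℝ) (hη : 0 < η) : ∀ᶠ x : ℕ in atTop, ∀ z U k : ℕ, (x : ℝ) ^ η ≤ z →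
    k ≤ x ^ 3 → ∀ g : ℕ → ℝ, (g = (fun _ => 1) ∨ g = gam U ∨ g = (fun k => vonMangoldt k)) →
    |rg z k * g k| ≤ 3 * Real.log x := by
  obtain ⟨n0, hn0⟩ := exists_nat_gt (3 / η)
  filter_upwards [log_ge (2 ^ n0), eventually_ge_atTop 3] with x hx hx3
  intro z U k hz hk g hg
  have hL1 : 1 ≤ Real.log x := le_trans (one_le_pow₀ (by norm_num)) hx
  by_cases hr : Rough z k
  · have e1 : rg z k = 1 := by
      unfold rg
      rw [if_pos hr]
    rw [e1, one_mul]
    rcases hg with rfl | rfl | rfl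
    · rw [abs_one]
      linarith
    · obtain ⟨n, hn1, hn2⟩ := card_div_rough hr
      have h1 : |gam U k| ≤ #k.divisors := by
        unfold gam
        refine (abs_sum_le_sum_abs _ _).trans ?_
        have h2 : ∀ d ∈ k.divisors.filter (fun d => U < d), |(moebius d : ℝ)| ≤ 1 := by
          intro d _
          have := ArithmeticFunction.abs_moebius_le_one (n := d)
          exact_mod_cast this
        refine (sum_le_card_nsmul _ _ _ h2).trans ?_
        rw [nsmul_eq_mul, mul_one]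
        exact_mod_cast card_filter_le _ _
      have h3 : n ≤ n0 := by
        by_contra hcon
        push Not at hcon
        have hxpos : (0 : ℝ) < x := by
          have : 0 < x := by omega
          exact_mod_cast this
        have hx1 : (1 : ℝ) < x := by exact_mod_cast (by omega : 1 < x)
        have h4 : ((x : ℝ) ^ η) ^ n ≤ (x : ℝ) ^ (3 : ℕ) := by
          calc ((x : ℝ) ^ η) ^ n ≤ (z : ℝ) ^ n := by gcongr
            _ ≤ (k : ℝ) := by exact_mod_cast hn2
            _ ≤ (x : ℝ) ^ 3 := by exact_mod_cast hk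
        rw [← Real.rpow_mul_natCast hxpos.le, ← Real.rpow_natCast] at h4
        have h5 := (Real.rpow_le_rpow_left_iff hx1).mp h4
        have h6 : (n0 : ℝ) < n := by exact_mod_cast hcon
        rw [div_lt_iff₀ hη] at hn0
        push_cast at h5
        nlinarith
      calc |gam U k| ≤ #k.divisors := h1
        _ ≤ ((2 ^ n : ℕ) : ℝ) := by exact_mod_cast hn1
        _ ≤ ((2 ^ n0 : ℕ) : ℝ) := by exact_mod_cast Nat.pow_le_pow_right (by norm_num) h3
        _ ≤ Real.log x := by push_cast; exact hx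
        _ ≤ 3 * Real.log x := by linarith
    · have h0 : (0 : ℝ) ≤ vonMangoldt k := ArithmeticFunction.vonMangoldt_nonneg
      rw [abs_of_nonneg h0]
      have h1 : vonMangoldt k ≤ Real.log k := ArithmeticFunction.vonMangoldt_le_log
      have h2 : Real.log k ≤ Real.log ((x : ℝ) ^ 3) := by
        apply Real.log_le_log
        · exact_mod_cast Nat.pos_of_ne_zero hr.1
        · exact_mod_cast hk
      rw [Real.log_pow] at h2
      push_cast at h2
      linarith
  · have e1 : rg z k = 0 := by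
      unfold rg
      rw [if_neg hr]
    rw [e1, zero_mul, abs_zero]
    linarith

end Shp

end Pool.Agent.N792
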