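import Mathlib
import Pool.Agent.N792.Defs

/-!
Elementary lemmas for the type II estimate (helper792).
-/

set_option autoImplicit false

namespace Pool.Agent.N792

open Finset

/-- the weight on `c / C`: a triangle of height 2 on `[-1/2, 3/2]` -/
noncomputable def Ph (u : ℝ) : ℝ := max 0 (2 - 2 * |u - 1 / 2|)

lemma Ph_nonneg (u : ℝ) : 0 ≤ Ph u := le_max_left _ _

lemma Ph_le (u : ℝ) : Ph u ≤ 2 := by
  unfold Ph
  apply max_le (by norm_num)
  have := abs_nonneg (u - 1 / 2)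
  linarith

lemma Ph_ge_one {u : ℝ} (h0 : 0 ≤ u) (h1 : u ≤ 1) : 1 ≤ Ph u := by
  unfold Ph
  refine le_trans ?_ (le_max_right _ _)
  have : |u - 1 / 2| ≤ 1 / 2 := by rw [abs_le]; constructor <;> linarith
  linarith

lemma Ph_ne {u : ℝ} (h : Ph u ≠ 0) : -(1 / 2) < u ∧ u < 3 / 2 := by
  by_contra hc
  apply h
  unfold Ph
  apply max_eq_left
  have : 1 ≤ |u - 1 / 2| := by
    rw [not_and_or, not_lt, not_lt] at hc
    rcases hc with hc | hc
    · rw [abs_of_nonpos (by linarith)]; linarith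
    · rw [abs_of_nonneg (by linarith)]; linarith
  linarith

lemma Ph_lip (u v : ℝ) : |Ph u - Ph v| ≤ 2 * |u - v| := by
  unfold Ph
  have h1 := abs_max_sub_max_le_abs (2 - 2 * |u - 1 / 2|) (2 - 2 * |v - 1 / 2|) 0
  rw [max_comm 0, max_comm 0]
  refine h1.trans ?_
  have h2 := abs_abs_sub_abs_le_abs_sub (u - 1 / 2) (v - 1 / 2)
  have h3 : (2 - 2 * |u - 1 / 2|) - (2 - 2 * |v - 1 / 2|) = -2 * (|u - 1 / 2| - |v - 1 / 2|) := by ring
  rw [h3, abs_mul]
  have h4 : u - 1 / 2 - (v - 1 / 2) = u - v := by ring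
  rw [h4] at h2
  norm_num
  exact h2

lemma exp_neg_sq_lip (p q : ℝ) : |Real.exp (-p ^ 2) - Real.exp (-q ^ 2)| ≤ |p - q| := by
  have hd : ∀ x : ℝ, HasDerivAt (fun x : ℝ => Real.exp (-x ^ 2)) (Real.exp (-x ^ 2) * (-(2 * x))) x := by
    intro x
    have h1 : HasDerivAt (fun x : ℝ => -x ^ 2) (-(2 * x)) x := by
      have := (hasDerivAt_pow 2 x).fun_neg
      simpa using this
    exact h1.exp
  have hb : ∀ x ∈ (Set.univ : Set ℝ), ‖Real.exp (-x ^ 2) * (-(2 * x))‖ ≤ 1 := by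
    intro x _
    rw [norm_mul, Real.norm_eq_abs, Real.norm_eq_abs, abs_of_pos (Real.exp_pos _), abs_neg, abs_mul,
      abs_of_pos (by norm_num : (0:ℝ) < 2), Real.exp_neg]
    rw [inv_mul_le_iff₀ (Real.exp_pos _), mul_one]
    have h1 := Real.add_one_le_exp (x ^ 2)
    have h2 : 2 * |x| ≤ x ^ 2 + 1 := by
      have := sq_nonneg (|x| - 1)
      have h3 := sq_abs x
      nlinarith
    linarith
  have := convex_univ.norm_image_sub_le_of_norm_hasDerivWithin_le (f := fun x : ℝ => Real.exp (-x ^ 2))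
    (f' := fun x => Real.exp (-x ^ 2) * (-(2 * x))) (C := 1) (fun x _ => (hd x).hasDerivWithinAt) hb
    (Set.mem_univ q) (Set.mem_univ p)
  simpa [Real.norm_eq_abs] using this

/-- the weight on `m` -/
noncomputable def gw (L M t : ℝ) : ℝ := Real.exp (-(L * (√t / √M - 1)) ^ 2)

lemma gw_pos (L M t : ℝ) : 0 < gw L M t := Real.exp_pos _

lemma gw_le_one (L M t : ℝ) : gw L M t ≤ 1 := by
  unfold gw
  rw [Real.exp_le_one_iff]
  have := sq_nonneg (L * (√t / √M - 1))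
  linarith

lemma gw_lip {L M m1 s t : ℝ} (hL : 0 ≤ L) (hM : 0 < M) (hm1 : 0 < m1) (hm : M ≤ 4 * m1) (hs : m1 ≤ s) (ht : m1 ≤ t) :
    |gw L M s - gw L M t| ≤ 2 * L * |s - t| / M := by
  unfold gw
  refine (exp_neg_sq_lip _ _).trans ?_
  have hMs : 0 < √M := Real.sqrt_pos.2 hM
  have h1 : L * (√s / √M - 1) - L * (√t / √M - 1) = L * ((√s - √t) / √M) := by ring
  rw [h1, abs_mul, abs_of_nonneg hL, abs_div, abs_of_pos hMs]
  have hs0 : 0 < √s := Real.sqrt_pos.2 (by linarith)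
  have ht0 : 0 < √t := Real.sqrt_pos.2 (by linarith)
  have h2 : (√s - √t) * (√s + √t) = s - t := by
    have e1 := Real.mul_self_sqrt (show 0 ≤ s by linarith)
    have e2 := Real.mul_self_sqrt (show 0 ≤ t by linarith)
    nlinarith
  have h3 : |√s - √t| * (√s + √t) = |s - t| := by
    rw [← h2, abs_mul, abs_of_pos (show 0 < √s + √t by linarith)]
  have h4 : √M ≤ 2 * √m1 := by
    have : √M ≤ √(4 * m1) := Real.sqrt_le_sqrt hm
    rw [Real.sqrt_mul (by norm_num)] at this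
    have h5 : √(4 : ℝ) = 2 := by
      rw [show (4 : ℝ) = 2 ^ 2 by norm_num, Real.sqrt_sq (by norm_num)]
    rw [h5] at this
    exact this
  have h5 : √m1 ≤ √s := Real.sqrt_le_sqrt hs
  have h6 : √m1 ≤ √t := Real.sqrt_le_sqrt ht
  have h7 : √M ≤ √s + √t := by linarith
  have h8 : |√s - √t| ≤ |s - t| / √M := by
    rw [le_div_iff₀ hMs, ← h3]
    exact mul_le_mul_of_nonneg_left h7 (abs_nonneg _)
  have h9 : √M * √M = M := Real.mul_self_sqrt hM.le
  calc L * (|√s - √t| / √M) ≤ L * (|s - t| / √M / √M) := by gcongr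
    _ = L * (|s - t| / M) := by rw [div_div, h9]
    _ ≤ 2 * L * |s - t| / M := by
        rw [mul_div_assoc]
        have : 0 ≤ |s - t| / M := by positivity
        nlinarith

/-! ### the algebraic identity -/

/-- the key identity: with `S = (k' - k) / (4 a e)`,
`m k - a (S - m e)² = τ (√(k k') - a e² τ)`, `τ = m - (√k' - √k)² / (4 a e²)` -/
lemma key_id {a e m u u' : ℝ} (ha : a ≠ 0) (he : e ≠ 0) :
    m * u ^ 2 - a * ((u' ^ 2 - u ^ 2) / (4 * a * e) - m * e) ^ 2 =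
      (m - (u' - u) ^ 2 / (4 * a * e ^ 2)) * (u * u' - a * e ^ 2 * (m - (u' - u) ^ 2 / (4 * a * e ^ 2))) := by
  field_simp
  ring

lemma key_pos {a e m u u' : ℝ} (ha : 0 < a) (he : 0 < e) (hu : 0 ≤ u) (huu : u ≤ u')
    (hN : 0 ≤ (u' ^ 2 - u ^ 2) / (4 * a * e) - m * e) :
    u ^ 2 ≤ u * u' - a * e ^ 2 * (m - (u' - u) ^ 2 / (4 * a * e ^ 2)) := by
  have h1 : a * e * ((u' ^ 2 - u ^ 2) / (4 * a * e)) = (u' ^ 2 - u ^ 2) / 4 := by field_simp
  have h2 : a * e ^ 2 * ((u' - u) ^ 2 / (4 * a * e ^ 2)) = (u' - u) ^ 2 / 4 := by field_simp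
  have h3 : 0 ≤ a * e * ((u' ^ 2 - u ^ 2) / (4 * a * e) - m * e) := by positivity
  rw [mul_sub, h1] at h3
  have h4 : u * u' - a * e ^ 2 * (m - (u' - u) ^ 2 / (4 * a * e ^ 2)) =
      u * u' - a * e ^ 2 * m + (u' - u) ^ 2 / 4 := by
    rw [mul_sub, h2]; ring
  rw [h4]
  nlinarith

end Pool.Agent.N792
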