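import Mathlib
import Pool.Agent.N792.TA

/-!
The weights of the off-diagonal terms (helper792).
-/

set_option autoImplicit false

namespace Pool.Agent.N792

open Finset

/-- the constant term `c` with `m k = a n² + b n + c` -/
def cv (a b : ℤ) (m k n : ℕ) : ℤ := (m : ℤ) * k - (a * (n : ℤ) ^ 2 + b * n)

/-- the point `t` near which `m` has to lie -/
noncomputable def tt (a : ℤ) (e k k' : ℕ) : ℝ := (√(k' : ℝ) - √(k : ℝ)) ^ 2 / (4 * a * (e : ℝ) ^ 2)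

/-- the Gaussian weight -/
noncomputable def gs (L : ℝ) (a : ℤ) (M e k k' : ℕ) : ℝ :=
  Real.exp (-(L * ((√(k' : ℝ) - √(k : ℝ)) / (2 * √(a : ℝ) * e * √(M : ℝ)) - 1)) ^ 2)

open Classical in
/-- the weight of the triple `(e, k, k')` -/
noncomputable def W (a b : ℤ) (L : ℝ) (C M m1 m2 n0 N1 e k k' : ℕ) : ℝ :=
  ∑ m ∈ Icc m1 m2, gw L M m *
    ∑ n ∈ (Icc n0 N1).filter (fun n => n + 2 * m * e ≤ N1 ∧ cv a b m k n = cv a b m k' (n + 2 * m * e)),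
      Ph ((cv a b m k n : ℝ) / C)

lemma cv_iff (a b : ℤ) (m e k k' n : ℕ) (hm : 1 ≤ m) :
    cv a b m k n = cv a b m k' (n + 2 * m * e) ↔ (k' : ℤ) - k = 2 * e * (2 * a * (n + m * e) + b) := by
  unfold cv
  push_cast
  have hm0 : (m : ℤ) ≠ 0 := by positivity
  constructor
  · intro h
    apply mul_left_cancel₀ hm0
    linear_combination -h
  · intro h
    linear_combination -(m : ℤ) * h

lemma cv_real {a b : ℤ} {m e k k' n : ℕ} (ha : 0 < a) (he : 1 ≤ e)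
    (h : (k' : ℤ) - k = 2 * e * (2 * a * (n + m * e) + b)) :
    (cv a b m k n : ℝ) = ((m : ℝ) - tt a e k k') * (√(k : ℝ) * √(k' : ℝ) - a * (e : ℝ) ^ 2 * (m - tt a e k k')) +
      (b : ℝ) ^ 2 / (4 * a) := by
  have haR : (0 : ℝ) < a := by exact_mod_cast ha
  have heR : (0 : ℝ) < e := by exact_mod_cast he
  have hk : √(k : ℝ) ^ 2 = k := Real.sq_sqrt (Nat.cast_nonneg _)
  have hk' : √(k' : ℝ) ^ 2 = k' := Real.sq_sqrt (Nat.cast_nonneg _)
  have h1 : ((k' : ℝ) - k) = 2 * e * (2 * a * (n + m * e) + b) := by exact_mod_cast h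
  have h2 := key_id (m := (m : ℝ)) (u := √(k : ℝ)) (u' := √(k' : ℝ)) haR.ne' heR.ne'
  rw [hk, hk', h1] at h2
  unfold tt
  rw [← h2]
  unfold cv
  push_cast
  field_simp
  ring

lemma cv_N {a b : ℤ} {m e k k' n : ℕ} (ha : 0 < a) (he : 1 ≤ e)
    (h : (k' : ℤ) - k = 2 * e * (2 * a * (n + m * e) + b)) :
    (√(k' : ℝ) ^ 2 - √(k : ℝ) ^ 2) / (4 * a * e) - m * e = n + (b : ℝ) / (2 * a) := by
  have haR : (0 : ℝ) < a := by exact_mod_cast ha
  have heR : (0 : ℝ) < e := by exact_mod_cast he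
  have hk : √(k : ℝ) ^ 2 = k := Real.sq_sqrt (Nat.cast_nonneg _)
  have hk' : √(k' : ℝ) ^ 2 = k' := Real.sq_sqrt (Nat.cast_nonneg _)
  have h1 : ((k' : ℝ) - k) = 2 * e * (2 * a * (n + m * e) + b) := by exact_mod_cast h
  rw [hk, hk', h1]
  field_simp
  ring

lemma N_nonneg {a b : ℤ} {n n0 : ℕ} (ha : 0 < a) (hn0 : |b| ≤ n0) (hn : n0 ≤ n) :
    0 ≤ (n : ℝ) + (b : ℝ) / (2 * a) := by
  have haR : (1 : ℝ) ≤ a := by exact_mod_cast ha
  have h1 : |(b : ℝ)| ≤ n := by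
    have : |b| ≤ (n : ℤ) := hn0.trans (by exact_mod_cast hn)
    exact_mod_cast this
  have h2 : |(b : ℝ) / (2 * a)| ≤ |(b : ℝ)| := by
    rw [abs_div, abs_of_pos (by linarith : (0 : ℝ) < 2 * a)]
    exact div_le_self (abs_nonneg _) (by linarith)
  have h3 := neg_abs_le ((b : ℝ) / (2 * a))
  linarith

/-- the data of an admissible quadruple -/
lemma quad_bound {a b : ℤ} {C K n0 : ℕ} {m e k k' n : ℕ} (ha : 0 < a) (he : 1 ≤ e) (hm : 1 ≤ m)
    (hn0 : |b| ≤ n0) (hn : n0 ≤ n) (hK1 : 1 ≤ K) (hC : 1 ≤ C) (hb : (b : ℝ) ^ 2 ≤ 2 * a * C)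
    (hk : K ≤ k) (h : (k' : ℤ) - k = 2 * e * (2 * a * (n + m * e) + b))
    (hP : Ph ((cv a b m k n : ℝ) / C) ≠ 0) :
    k < k' ∧ |(m : ℝ) - tt a e k k'| ≤ 2 * C / K := by
  have haR : (1 : ℝ) ≤ a := by exact_mod_cast ha
  have heR : (1 : ℝ) ≤ e := by exact_mod_cast he
  have hmR : (1 : ℝ) ≤ m := by exact_mod_cast hm
  have hKR : (1 : ℝ) ≤ K := by exact_mod_cast hK1
  have hCR : (1 : ℝ) ≤ C := by exact_mod_cast hC
  have hkR : (K : ℝ) ≤ k := by exact_mod_cast hk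
  have hN := N_nonneg ha hn0 hn
  have h1 : ((k' : ℝ) - k) = 2 * e * (2 * a * (n + m * e) + b) := by exact_mod_cast h
  have hkk : (k : ℝ) < k' := by
    have h2 : 0 < 2 * (a : ℝ) * (n + m * e) + b := by
      have h3 : 2 * (a : ℝ) * (n + m * e) + b = 2 * a * ((n : ℝ) + (b : ℝ) / (2 * a)) + 2 * a * (m * e) := by
        field_simp
        ring
      rw [h3]
      have h4 : 0 < 2 * (a : ℝ) * (m * e) := by positivity
      have h5 : 0 ≤ 2 * (a : ℝ) * ((n : ℝ) + (b : ℝ) / (2 * a)) := by positivity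
      linarith
    have h3 : 0 < 2 * (e : ℝ) * (2 * a * (n + m * e) + b) := by positivity
    linarith
  have hkk' : k < k' := by exact_mod_cast hkk
  refine ⟨hkk', ?_⟩
  have hu : 0 ≤ √(k : ℝ) := Real.sqrt_nonneg _
  have huu : √(k : ℝ) ≤ √(k' : ℝ) := Real.sqrt_le_sqrt hkk.le
  have h4 := cv_real ha he h
  have h5 := cv_N ha he h
  have h6 := key_pos (a := (a : ℝ)) (e := (e : ℝ)) (m := (m : ℝ)) (by linarith) (by linarith) hu huu (by rw [h5]; exact hN)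
  rw [Real.sq_sqrt (Nat.cast_nonneg _)] at h6
  obtain ⟨h7, h8⟩ := Ph_ne hP
  rw [lt_div_iff₀ (by linarith)] at h7
  rw [div_lt_iff₀ (by linarith)] at h8
  have hb2 : (b : ℝ) ^ 2 / (4 * a) ≤ C / 2 := by
    rw [div_le_iff₀ (by linarith)]
    linarith
  have hb0 : 0 ≤ (b : ℝ) ^ 2 / (4 * a) := by positivity
  change ((k : ℕ) : ℝ) ≤ √(k : ℝ) * √(k' : ℝ) - a * (e : ℝ) ^ 2 * (m - tt a e k k') at h6
  set τ := (m : ℝ) - tt a e k k' with hτ
  set R := √(k : ℝ) * √(k' : ℝ) - a * (e : ℝ) ^ 2 * τ with hR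
  have hRK : (K : ℝ) ≤ R := hkR.trans h6
  have h9 : |τ * R| ≤ 2 * C := by
    rw [abs_le]
    constructor <;> linarith
  rw [abs_mul, abs_of_pos (by linarith : 0 < R)] at h9
  rw [le_div_iff₀ (by linarith)]
  calc |τ| * K ≤ |τ| * R := mul_le_mul_of_nonneg_left hRK (abs_nonneg _)
    _ ≤ 2 * C := h9

/-- comparison of `c / C` with `τ K / C` -/
lemma quad_approx {a b : ℤ} {C K : ℕ} {m e k k' n : ℕ} {κ : ℝ} (ha : 0 < a) (he : 1 ≤ e)
    (hK1 : 1 ≤ K) (hC : 1 ≤ C) (hκ : 0 ≤ κ)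
    (hk : K ≤ k) (hk2 : (k : ℝ) ≤ (1 + κ) * K) (hkk' : K ≤ k') (hk2' : (k' : ℝ) ≤ (1 + κ) * K)
    (h : (k' : ℤ) - k = 2 * e * (2 * a * (n + m * e) + b)) (hτ : |(m : ℝ) - tt a e k k'| ≤ 2 * C / K) :
    |(cv a b m k n : ℝ) / C - (m - tt a e k k') / ((C : ℝ) / K)| ≤
      2 * κ + 4 * a * (e : ℝ) ^ 2 * C / (K : ℝ) ^ 2 + (b : ℝ) ^ 2 / (4 * a * C) := by
  have haR : (1 : ℝ) ≤ a := by exact_mod_cast ha
  have heR : (1 : ℝ) ≤ e := by exact_mod_cast he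
  have hKR : (1 : ℝ) ≤ K := by exact_mod_cast hK1
  have hCR : (1 : ℝ) ≤ C := by exact_mod_cast hC
  have hkR : (K : ℝ) ≤ k := by exact_mod_cast hk
  have hkR' : (K : ℝ) ≤ k' := by exact_mod_cast hkk'
  have h4 := cv_real ha he h
  set τ := (m : ℝ) - tt a e k k' with hτd
  have h5 : (cv a b m k n : ℝ) / C - τ / ((C : ℝ) / K) =
      τ * (√(k : ℝ) * √(k' : ℝ) - K) / C - a * (e : ℝ) ^ 2 * τ ^ 2 / C + (b : ℝ) ^ 2 / (4 * a * C) := by
    rw [h4]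
    field_simp
    ring
  rw [h5]
  have h6 : (K : ℝ) ≤ √(k : ℝ) * √(k' : ℝ) := by
    rw [← Real.sqrt_mul (Nat.cast_nonneg _)]
    apply Real.le_sqrt_of_sq_le
    nlinarith
  have h7 : √(k : ℝ) * √(k' : ℝ) ≤ (1 + κ) * K := by
    rw [← Real.sqrt_mul (Nat.cast_nonneg _)]
    apply Real.sqrt_le_iff.2
    refine ⟨by positivity, ?_⟩
    rw [sq]
    exact mul_le_mul hk2 hk2' (by linarith) (by positivity)
  have h8 : |τ * (√(k : ℝ) * √(k' : ℝ) - K) / C| ≤ 2 * κ := by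
    rw [abs_div, abs_mul, abs_of_nonneg (by linarith : 0 ≤ √(k : ℝ) * √(k' : ℝ) - K),
      abs_of_pos (by linarith : (0 : ℝ) < C), div_le_iff₀ (by linarith)]
    calc |τ| * (√(k : ℝ) * √(k' : ℝ) - K) ≤ (2 * C / K) * (κ * K) := by
          apply mul_le_mul hτ (by linarith) (by linarith) (by positivity)
      _ = 2 * κ * C := by field_simp
  have h9 : |a * (e : ℝ) ^ 2 * τ ^ 2 / C| ≤ 4 * a * (e : ℝ) ^ 2 * C / (K : ℝ) ^ 2 := by
    have h10 : τ ^ 2 ≤ (2 * C / K) ^ 2 := by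
      rw [← sq_abs]
      exact pow_le_pow_left₀ (abs_nonneg _) hτ 2
    rw [abs_of_nonneg (by positivity), div_le_iff₀ (by linarith)]
    calc a * (e : ℝ) ^ 2 * τ ^ 2 ≤ a * (e : ℝ) ^ 2 * (2 * C / K) ^ 2 := by gcongr
      _ = 4 * a * (e : ℝ) ^ 2 * C / (K : ℝ) ^ 2 * C := by field_simp; ring
  have h10 : |(b : ℝ) ^ 2 / (4 * a * C)| = (b : ℝ) ^ 2 / (4 * a * C) := abs_of_nonneg (by positivity)
  calc _ ≤ |τ * (√(k : ℝ) * √(k' : ℝ) - K) / C| + |a * (e : ℝ) ^ 2 * τ ^ 2 / C| + |(b : ℝ) ^ 2 / (4 * a * C)| := by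
        refine (abs_add_le _ _).trans ?_
        gcongr
        exact abs_sub _ _
    _ ≤ _ := by rw [h10]; linarith

/-! ### the periodic weight -/

lemma tri_nonneg (δ t : ℝ) : 0 ≤ tri δ t := le_max_left _ _

lemma tri_le_one {δ : ℝ} (hδ : 0 < δ) (t : ℝ) : tri δ t ≤ 1 := by
  unfold tri
  apply max_le (by norm_num)
  have : 0 ≤ |t - round t| / δ := by positivity
  linarith

lemma round_eq_of {t : ℝ} {m : ℤ} (h : |(m : ℝ) - t| < 1 / 2) : round t = m := by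
  rw [round_eq, Int.floor_eq_iff]
  rw [abs_lt] at h
  constructor <;> linarith [h.1, h.2]

lemma tri_near {δ t : ℝ} {m : ℤ} (hδ : 0 < δ) (hδ8 : δ ≤ 1 / 8) (h : |(m : ℝ) - t| ≤ 1 / 4) :
    2 * tri δ (t + δ / 2) = Ph (((m : ℝ) - t) / δ) := by
  have h1 : round (t + δ / 2) = m := by
    apply round_eq_of
    rw [abs_lt]
    rw [abs_le] at h
    constructor <;> linarith [h.1, h.2]
  unfold tri Ph
  rw [h1, mul_max_of_nonneg _ _ (by norm_num : (0 : ℝ) ≤ 2), mul_zero]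
  congr 1
  have h2 : ((m : ℝ) - t) / δ - 1 / 2 = -((t + δ / 2 - m) / δ) := by
    field_simp
    ring
  rw [h2, abs_neg, abs_div, abs_of_pos hδ]
  ring

lemma tri_far {δ t : ℝ} (hδ : 0 < δ) (hδ8 : δ ≤ 1 / 8) (h : 2 * δ < |(round t : ℝ) - t|) :
    tri δ (t + δ / 2) = 0 := by
  unfold tri
  apply max_eq_left
  rw [sub_nonpos, le_div_iff₀ hδ, one_mul]
  by_contra hc
  rw [not_le, abs_lt] at hc
  set m := round (t + δ / 2) with hm
  have h2 : |(m : ℝ) - t| < 3 * δ / 2 := by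
    rw [abs_lt]
    constructor <;> linarith [hc.1, hc.2]
  have h3 : round t = m := round_eq_of (lt_of_lt_of_le h2 (by linarith))
  rw [h3] at h
  linarith

lemma tri_ge_half {δ t : ℝ} (hδ : 0 < δ) (h : |(round t : ℝ) - t| ≤ 2 * δ) : 1 / 2 ≤ tri (4 * δ) t := by
  unfold tri
  refine le_trans ?_ (le_max_right _ _)
  rw [abs_sub_comm] at h
  have : |t - round t| / (4 * δ) ≤ 1 / 2 := by
    rw [div_le_iff₀ (by linarith)]
    linarith
  linarith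

end Pool.Agent.N792
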