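import Mathlib
import Pool.Agent.N792.TB

/-!
The weights of the off-diagonal terms: the approximation (helper792).
-/

set_option autoImplicit false

namespace Pool.Agent.N792

open Finset

/-- the congruence condition -/
def cls (a b : ℤ) (e k k' : ℕ) : Prop := 4 * a * e ∣ (k' : ℤ) - k - 2 * e * b

open Classical in
/-- the inner sum -/
noncomputable def inn (a b : ℤ) (C n0 N1 m e k k' : ℕ) : ℝ :=
  ∑ n ∈ (Icc n0 N1).filter (fun n => n + 2 * m * e ≤ N1 ∧ cv a b m k n = cv a b m k' (n + 2 * m * e)),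
      Ph ((cv a b m k n : ℝ) / C)

lemma W_eq (a b : ℤ) (L : ℝ) (C M m1 m2 n0 N1 e k k' : ℕ) :
    W a b L C M m1 m2 n0 N1 e k k' = ∑ m ∈ Icc m1 m2, gw L M m * inn a b C n0 N1 m e k k' := rfl

lemma eq_unique {a b : ℤ} {m e k k' n n' : ℕ} (ha : 0 < a) (he : 1 ≤ e)
    (h : (k' : ℤ) - k = 2 * e * (2 * a * (n + m * e) + b))
    (h' : (k' : ℤ) - k = 2 * e * (2 * a * (n' + m * e) + b)) : n = n' := by
  have he0 : (0 : ℤ) < e := by exact_mod_cast he
  have h1 : (4 * a * e) * ((n : ℤ) - n') = 0 := by linear_combination h' - h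
  have h2 : (4 * a * e : ℤ) ≠ 0 := by positivity
  rcases mul_eq_zero.1 h1 with h3 | h3
  · exact absurd h3 h2
  · have : (n : ℤ) = n' := by linarith
    exact_mod_cast this

lemma inn_of {a b : ℤ} {C n0 N1 m e k k' n : ℕ} (ha : 0 < a) (he : 1 ≤ e) (hm : 1 ≤ m)
    (hn : n0 ≤ n) (hn1 : n + 2 * m * e ≤ N1) (h : (k' : ℤ) - k = 2 * e * (2 * a * (n + m * e) + b)) :
    inn a b C n0 N1 m e k k' = Ph ((cv a b m k n : ℝ) / C) := by
  classical
  unfold inn
  rw [show (Icc n0 N1).filter (fun n => n + 2 * m * e ≤ N1 ∧ cv a b m k n = cv a b m k' (n + 2 * m * e)) = {n} from ?_]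
  · simp
  · ext n'
    simp only [mem_filter, mem_Icc, mem_singleton]
    constructor
    · rintro ⟨_, _, h2⟩
      rw [cv_iff a b m e k k' n' hm] at h2
      exact eq_unique ha he h2 h
    · rintro rfl
      refine ⟨⟨hn, by omega⟩, hn1, ?_⟩
      rw [cv_iff a b m e k k' n' hm]
      exact h

lemma inn_data {a b : ℤ} {C n0 N1 m e k k' : ℕ} (ha : 0 < a) (he : 1 ≤ e) (hm : 1 ≤ m)
    (h0 : inn a b C n0 N1 m e k k' ≠ 0) : ∃ n : ℕ, n0 ≤ n ∧ n + 2 * m * e ≤ N1 ∧
      (k' : ℤ) - k = 2 * e * (2 * a * (n + m * e) + b) ∧ Ph ((cv a b m k n : ℝ) / C) ≠ 0 ∧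
      inn a b C n0 N1 m e k k' = Ph ((cv a b m k n : ℝ) / C) := by
  classical
  obtain ⟨n, hn, hne⟩ := exists_ne_zero_of_sum_ne_zero h0
  simp only [mem_filter, mem_Icc] at hn
  obtain ⟨⟨h1, _⟩, h2, h3⟩ := hn
  rw [cv_iff a b m e k k' n hm] at h3
  exact ⟨n, h1, h2, h3, hne, inn_of ha he hm h1 h2 h3⟩

lemma inn_nonneg (a b : ℤ) (C n0 N1 m e k k' : ℕ) : 0 ≤ inn a b C n0 N1 m e k k' :=
  sum_nonneg fun _ _ => Ph_nonneg _

lemma inn_le {a b : ℤ} {C n0 N1 m e k k' : ℕ} (ha : 0 < a) (he : 1 ≤ e) (hm : 1 ≤ m) :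
    inn a b C n0 N1 m e k k' ≤ 2 := by
  by_cases h0 : inn a b C n0 N1 m e k k' = 0
  · rw [h0]; norm_num
  · obtain ⟨n, _, _, _, _, h⟩ := inn_data ha he hm h0
    rw [h]
    exact Ph_le _

lemma cls_of {a b : ℤ} {m e k k' n : ℕ} (h : (k' : ℤ) - k = 2 * e * (2 * a * (n + m * e) + b)) : cls a b e k k' := by
  unfold cls
  exact ⟨n + m * e, by rw [h]; ring⟩

lemma gs_eq {a : ℤ} {L : ℝ} {M e k k' : ℕ} (ha : 0 < a) (he : 1 ≤ e) (hkk : k ≤ k') :
    gs L a M e k k' = gw L M (tt a e k k') := by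
  unfold gs gw tt
  have haR : (0 : ℝ) < a := by exact_mod_cast ha
  have heR : (0 : ℝ) < e := by exact_mod_cast he
  have h1 : 0 ≤ √(k' : ℝ) - √(k : ℝ) := by
    have : √(k : ℝ) ≤ √(k' : ℝ) := Real.sqrt_le_sqrt (by exact_mod_cast hkk)
    linarith
  have h2 : √((√(k' : ℝ) - √(k : ℝ)) ^ 2 / (4 * a * (e : ℝ) ^ 2)) = (√(k' : ℝ) - √(k : ℝ)) / (2 * √(a : ℝ) * e) := by
    rw [Real.sqrt_div (by positivity), Real.sqrt_sq h1]
    congr 1
    rw [show (4 * (a : ℝ) * (e : ℝ) ^ 2) = a * (2 * e) ^ 2 by ring, Real.sqrt_mul haR.le, Real.sqrt_sq (by positivity)]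
    ring
  rw [h2, div_div]

lemma gw_small {L M t : ℝ} (hM : 0 < M) (ht : t ≤ 9 / 16 * M ∨ 25 / 16 * M ≤ t) :
    gw L M t ≤ Real.exp (-(L ^ 2 / 16)) := by
  unfold gw
  apply Real.exp_le_exp.2
  have hMs : 0 < √M := Real.sqrt_pos.2 hM
  have h1 : 1 / 16 ≤ (√t / √M - 1) ^ 2 := by
    rcases ht with ht | ht
    · have h2 : √t / √M ≤ 3 / 4 := by
        rw [div_le_iff₀ hMs]
        have h3 : √t ≤ √(9 / 16 * M) := Real.sqrt_le_sqrt ht
        rw [Real.sqrt_mul (by norm_num), show (9 / 16 : ℝ) = (3 / 4) ^ 2 by norm_num, Real.sqrt_sq (by norm_num)] at h3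
        exact h3
      nlinarith
    · have h2 : 5 / 4 ≤ √t / √M := by
        rw [le_div_iff₀ hMs]
        have h3 : √(25 / 16 * M) ≤ √t := Real.sqrt_le_sqrt ht
        rw [Real.sqrt_mul (by norm_num), show (25 / 16 : ℝ) = (5 / 4) ^ 2 by norm_num, Real.sqrt_sq (by norm_num)] at h3
        exact h3
      nlinarith
  rw [mul_pow]
  have := sq_nonneg L
  nlinarith

lemma gs_small {a : ℤ} {L : ℝ} {M e k k' : ℕ} (hkk : k' ≤ k) :
    gs L a M e k k' ≤ Real.exp (-(L ^ 2 / 16)) := by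
  unfold gs
  apply Real.exp_le_exp.2
  have h1 : √(k' : ℝ) - √(k : ℝ) ≤ 0 := by
    have : √(k' : ℝ) ≤ √(k : ℝ) := Real.sqrt_le_sqrt (by exact_mod_cast hkk)
    linarith
  have h2 : (√(k' : ℝ) - √(k : ℝ)) / (2 * √(a : ℝ) * e * √(M : ℝ)) ≤ 0 :=
    div_nonpos_of_nonpos_of_nonneg h1 (by positivity)
  have h3 : 1 ≤ ((√(k' : ℝ) - √(k : ℝ)) / (2 * √(a : ℝ) * e * √(M : ℝ)) - 1) ^ 2 := by nlinarith
  rw [mul_pow]
  have := sq_nonneg L
  nlinarith

lemma gs_nonneg (a : ℤ) (L : ℝ) (M e k k' : ℕ) : 0 ≤ gs L a M e k k' := (Real.exp_pos _).le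

lemma gs_le_one (a : ℤ) (L : ℝ) (M e k k' : ℕ) : gs L a M e k k' ≤ 1 := by
  unfold gs
  rw [Real.exp_le_one_iff]
  have := sq_nonneg (L * ((√(k' : ℝ) - √(k : ℝ)) / (2 * √(a : ℝ) * e * √(M : ℝ)) - 1))
  linarith

/-- the two identities for `S ∓ e t` -/
lemma S_ids {a b : ℤ} {e k k' : ℕ} {s : ℤ} (ha : 0 < a) (he : 1 ≤ e) (hkk : k < k')
    (hs : (k' : ℤ) - k - 2 * e * b = 4 * a * e * s) :
    (s : ℝ) + b / (2 * a) - e * tt a e k k' = √(tt a e k k') * √(k : ℝ) / √(a : ℝ) ∧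
    (s : ℝ) + b / (2 * a) + e * tt a e k k' = √(tt a e k k') * √(k' : ℝ) / √(a : ℝ) := by
  have haR : (1 : ℝ) ≤ a := by exact_mod_cast ha
  have ha0 : (0 : ℝ) < a := by linarith
  have heR : (1 : ℝ) ≤ e := by exact_mod_cast he
  have ht0 : 0 ≤ tt a e k k' := by unfold tt; positivity
  have hus : √(k : ℝ) ^ 2 = k := Real.sq_sqrt (Nat.cast_nonneg _)
  have hus' : √(k' : ℝ) ^ 2 = k' := Real.sq_sqrt (Nat.cast_nonneg _)
  have huu : √(k : ℝ) ≤ √(k' : ℝ) := Real.sqrt_le_sqrt (by exact_mod_cast hkk.le)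
  have hsa : √(a : ℝ) ^ 2 = a := Real.sq_sqrt ha0.le
  have hsa0 : 0 < √(a : ℝ) := Real.sqrt_pos.2 ha0
  have hst : √(tt a e k k') ^ 2 = tt a e k k' := Real.sq_sqrt ht0
  have hst0 : 0 ≤ √(tt a e k k') := Real.sqrt_nonneg _
  have h7 : √(k' : ℝ) - √(k : ℝ) = 2 * √(a : ℝ) * e * √(tt a e k k') := by
    have h8 : (2 * √(a : ℝ) * e * √(tt a e k k')) ^ 2 = (√(k' : ℝ) - √(k : ℝ)) ^ 2 := by
      rw [mul_pow, mul_pow, mul_pow, hsa, hst]
      unfold tt
      field_simp
      ring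
    exact ((pow_left_inj₀ (by linarith) (by positivity) two_ne_zero).1 h8.symm)
  have hsR : ((k' : ℝ) - k) = 4 * a * e * s + 2 * e * b := by
    have : ((k' : ℤ) - k) = 4 * a * e * s + 2 * e * b := by linarith
    exact_mod_cast this
  rw [← hus, ← hus'] at hsR
  rw [← hst]
  generalize √(tt a e k k') = T at *
  generalize √(k : ℝ) = u at *
  generalize √(k' : ℝ) = u' at *
  generalize √(a : ℝ) = A at *
  have h9 : u' = u + 2 * A * e * T := by linarith
  have h10 : 4 * (a : ℝ) * e * ((s : ℝ) + b / (2 * a)) = u' ^ 2 - u ^ 2 := by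
    rw [hsR]
    field_simp
    ring
  have h12 : (s : ℝ) + b / (2 * a) = T * (u' + u) / (2 * A) := by
    have h11 : (4 * a * e : ℝ) ≠ 0 := by positivity
    apply mul_left_cancel₀ h11
    rw [h10, h9, ← hsa]
    field_simp
    ring
  rw [Real.sqrt_sq hst0, h12, h9]
  constructor
  · field_simp
    ring
  · field_simp
    ring

/-- existence of the point `n` -/
lemma exists_n {a b : ℤ} {K m1 m2 n0 N1 m e k k' : ℕ} (ha : 0 < a) (he : 1 ≤ e) (hm1 : 1 ≤ m1)
    (hkk : k < k') (hk : K ≤ k) (hk' : k' ≤ 2 * K) (hcl : cls a b e k k')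
    (ht1 : (m1 : ℝ) ≤ tt a e k k') (ht2 : tt a e k k' ≤ m2) (hmt : |(m : ℝ) - tt a e k k'| ≤ 1)
    (h5 : (a : ℝ) * ((n0 : ℝ) + |(b : ℝ)| + e) ^ 2 ≤ (m1 : ℝ) * K)
    (h6 : (2 * m2 * K : ℝ) + e + |(b : ℝ)| + 1 ≤ N1) :
    ∃ n : ℕ, n0 ≤ n ∧ n + 2 * m * e ≤ N1 ∧ (k' : ℤ) - k = 2 * e * (2 * a * (n + m * e) + b) := by
  obtain ⟨s, hs⟩ := hcl
  have haR : (1 : ℝ) ≤ a := by exact_mod_cast ha
  have ha0 : (0 : ℝ) < a := by linarith
  have heR : (1 : ℝ) ≤ e := by exact_mod_cast he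
  have hkR : (K : ℝ) ≤ k := by exact_mod_cast hk
  have hk'R : (k' : ℝ) ≤ 2 * K := by exact_mod_cast hk'
  have hm1R : (1 : ℝ) ≤ m1 := by exact_mod_cast hm1
  obtain ⟨hlow, hup⟩ := S_ids ha he hkk hs
  have ht0 : 0 ≤ tt a e k k' := by linarith
  generalize tt a e k k' = t at *
  have hb2 : |(b : ℝ) / (2 * a)| ≤ |(b : ℝ)| := by
    rw [abs_div, abs_of_pos (by linarith : (0 : ℝ) < 2 * a)]
    exact div_le_self (abs_nonneg _) (by linarith)
  obtain ⟨hb3, hb4⟩ := abs_le.1 hb2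
  obtain ⟨hmt1, hmt2⟩ := abs_le.1 hmt
  have h12 : (m : ℝ) * e ≤ e * t + e := by nlinarith
  have hsa0 : 0 < √(a : ℝ) := Real.sqrt_pos.2 ha0
  have hl : (n0 : ℝ) + |(b : ℝ)| + e ≤ √t * √(k : ℝ) / √(a : ℝ) := by
    rw [← Real.sqrt_mul ht0, ← Real.sqrt_div (by positivity)]
    apply Real.le_sqrt_of_sq_le
    rw [le_div_iff₀ ha0, mul_comm]
    exact h5.trans (mul_le_mul ht1 hkR (Nat.cast_nonneg _) ht0)
  have hlow2 : (n0 : ℝ) ≤ (s : ℝ) - m * e := by linarith
  have hlow3 : (n0 : ℤ) ≤ s - m * e := by exact_mod_cast hlow2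
  obtain ⟨n, hn⟩ := Int.eq_ofNat_of_zero_le (show 0 ≤ s - m * e by linarith [Int.natCast_nonneg n0])
  have hu1 : √t * √(k' : ℝ) / √(a : ℝ) ≤ 2 * m2 * K := by
    have h13 : √t * √(k' : ℝ) / √(a : ℝ) ≤ √t * √(k' : ℝ) := by
      apply div_le_self (by positivity)
      rw [Real.one_le_sqrt]
      exact haR
    refine h13.trans ?_
    rw [← Real.sqrt_mul ht0]
    have h16 : (1 : ℝ) ≤ m2 := by linarith
    have h17 : (1 : ℝ) ≤ 2 * K := by
      have : 1 ≤ k' := by omega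
      have : (1 : ℝ) ≤ k' := by exact_mod_cast this
      linarith
    have h15 : (1 : ℝ) ≤ m2 * (2 * K) := by nlinarith
    apply Real.sqrt_le_iff.2
    refine ⟨by positivity, ?_⟩
    have h18 : t * k' ≤ m2 * (2 * K) := mul_le_mul ht2 hk'R (Nat.cast_nonneg _) (by linarith)
    nlinarith
  have h18 : (s : ℝ) + m * e ≤ N1 := by linarith
  have h19 : s + m * e ≤ N1 := by exact_mod_cast h18
  refine ⟨n, by omega, ?_, ?_⟩
  · have h20 : (n : ℤ) + 2 * m * e ≤ N1 := by
      rw [← hn]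
      linarith
    exact_mod_cast h20
  · rw [← hn]
    linear_combination hs

/-- the error of the approximation -/
noncomputable def Er (a b : ℤ) (L κ : ℝ) (C K M e : ℕ) : ℝ :=
  L / M + 4 * κ + 8 * a * (e : ℝ) ^ 2 * C / (K : ℝ) ^ 2 + (b : ℝ) ^ 2 / (2 * a * C)

lemma Er_nonneg {a b : ℤ} {L κ : ℝ} {C K M e : ℕ} (ha : 0 < a) (hL : 0 ≤ L) (hκ : 0 ≤ κ) : 0 ≤ Er a b L κ C K M e := by
  unfold Er
  have : (0 : ℝ) < a := by exact_mod_cast ha
  positivity

open Classical in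
/-- **the approximation of the weights** -/
theorem W_approx {a b : ℤ} {L κ : ℝ} {C K M m1 m2 n0 N1 e k k' : ℕ} (ha : 0 < a) (he : 1 ≤ e) (hm1 : 1 ≤ m1)
    (hC : 1 ≤ C) (hCK : 8 * C ≤ K) (hb : (b : ℝ) ^ 2 ≤ 2 * a * C) (hn0 : |b| ≤ n0) (hL : 0 ≤ L) (hκ : 0 ≤ κ)
    (hκ1 : κ ≤ 1) (hM : 1 ≤ M) (hmM : (M : ℝ) ≤ 4 * m1) (hmM1 : (m1 : ℝ) + 2 ≤ 9 / 16 * M) (hmM2 : 25 / 16 * M ≤ (m2 : ℝ) - 2)
    (h5 : (a : ℝ) * ((n0 : ℝ) + |(b : ℝ)| + e) ^ 2 ≤ (m1 : ℝ) * K)
    (h6 : (2 * m2 * K : ℝ) + e + |(b : ℝ)| + 1 ≤ N1)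
    (hk : K ≤ k) (hk2 : (k : ℝ) ≤ (1 + κ) * K) (hkk' : K ≤ k') (hk2' : (k' : ℝ) ≤ (1 + κ) * K) :
    |W a b L C M m1 m2 n0 N1 e k k' -
      if cls a b e k k' then gs L a M e k k' * (2 * tri ((C : ℝ) / K) (tt a e k k' + (C : ℝ) / K / 2)) else 0| ≤
      if cls a b e k k' then Er a b L κ C K M e * (2 * tri (4 * ((C : ℝ) / K)) (tt a e k k')) +
        4 * Real.exp (-(L ^ 2 / 16)) else 0 := by
  have haR : (1 : ℝ) ≤ a := by exact_mod_cast ha
  have hCR : (1 : ℝ) ≤ C := by exact_mod_cast hC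
  have hK1 : 1 ≤ K := by omega
  have hKR : (1 : ℝ) ≤ K := by exact_mod_cast hK1
  have hMR : (1 : ℝ) ≤ M := by exact_mod_cast hM
  have hCKR : 8 * (C : ℝ) ≤ K := by exact_mod_cast hCK
  have hm1R : (1 : ℝ) ≤ m1 := by exact_mod_cast hm1
  set δ := (C : ℝ) / K with hδd
  have hδ0 : 0 < δ := by positivity
  have hδ8 : δ ≤ 1 / 8 := by
    rw [hδd, div_le_iff₀ (by linarith)]
    linarith
  by_cases hcl : cls a b e k k'
  swap
  · rw [if_neg hcl, if_neg hcl, sub_zero]
    have : W a b L C M m1 m2 n0 N1 e k k' = 0 := by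
      rw [W_eq]
      apply sum_eq_zero
      intro m hm
      rw [mem_Icc] at hm
      by_cases h0 : inn a b C n0 N1 m e k k' = 0
      · rw [h0, mul_zero]
      · obtain ⟨n, _, _, h, _, _⟩ := inn_data ha he (hm1.trans hm.1) h0
        exact absurd (cls_of h) hcl
    rw [this, abs_zero]
  rw [if_pos hcl, if_pos hcl]
  have hEr := Er_nonneg (b := b) (C := C) (K := K) (M := M) (e := e) ha hL hκ
  have htr0 := tri_nonneg (4 * δ) (tt a e k k')
  have hex := Real.exp_pos (-(L ^ 2 / 16))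
  have htr1 := tri_nonneg δ (tt a e k k' + δ / 2)
  have htr2 := tri_le_one hδ0 (tt a e k k' + δ / 2)
  by_cases hkk : k < k'
  swap
  · have hW : W a b L C M m1 m2 n0 N1 e k k' = 0 := by
      rw [W_eq]
      apply sum_eq_zero
      intro m hm
      rw [mem_Icc] at hm
      by_cases h0 : inn a b C n0 N1 m e k k' = 0
      · rw [h0, mul_zero]
      · obtain ⟨n, h1, _, h, h3, _⟩ := inn_data ha he (hm1.trans hm.1) h0
        exact absurd (quad_bound ha he (hm1.trans hm.1) hn0 h1 hK1 hC hb hk h h3).1 hkk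
    rw [hW, zero_sub, abs_neg, abs_of_nonneg (mul_nonneg (gs_nonneg _ _ _ _ _ _) (by linarith))]
    have h1 := gs_small (a := a) (L := L) (M := M) (e := e) (not_lt.1 hkk)
    have h2 := gs_nonneg a L M e k k'
    have h3 : gs L a M e k k' * (2 * tri δ (tt a e k k' + δ / 2)) ≤ Real.exp (-(L ^ 2 / 16)) * 2 :=
      mul_le_mul h1 (by linarith) (by linarith) hex.le
    have h4 : 0 ≤ Er a b L κ C K M e * (2 * tri (4 * δ) (tt a e k k')) := mul_nonneg hEr (by linarith)
    linarith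
  · set t := tt a e k k' with ht
    have hgs : gs L a M e k k' = gw L M t := gs_eq ha he hkk.le
    rw [hgs]
    -- if the inner sum at `m` does not vanish then `m = round t`
    have hround : ∀ m ∈ Icc m1 m2, inn a b C n0 N1 m e k k' ≠ 0 → |(m : ℝ) - t| ≤ 2 * δ ∧ round t = (m : ℤ) := by
      intro m hm h0
      rw [mem_Icc] at hm
      obtain ⟨n, h1, _, h, h3, _⟩ := inn_data ha he (hm1.trans hm.1) h0
      have h7 := (quad_bound ha he (hm1.trans hm.1) hn0 h1 hK1 hC hb hk h h3).2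
      have h8 : |(m : ℝ) - t| ≤ 2 * δ := by
        rw [hδd, ← mul_div_assoc]
        exact h7
      refine ⟨h8, round_eq_of ?_⟩
      push_cast
      exact lt_of_le_of_lt h8 (by linarith)
    by_cases hfar : 2 * δ < |(round t : ℝ) - t|
    · have hW : W a b L C M m1 m2 n0 N1 e k k' = 0 := by
        rw [W_eq]
        apply sum_eq_zero
        intro m hm
        by_cases h0 : inn a b C n0 N1 m e k k' = 0
        · rw [h0, mul_zero]
        · obtain ⟨h7, h8⟩ := hround m hm h0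
          rw [h8] at hfar
          push_cast at hfar
          linarith
      rw [hW, tri_far hδ0 hδ8 hfar, mul_zero, mul_zero, sub_zero, abs_zero]
      have h4 : 0 ≤ Er a b L κ C K M e * (2 * tri (4 * δ) t) := mul_nonneg hEr (by linarith)
      linarith
    · rw [not_lt] at hfar
      have hhalf := tri_ge_half hδ0 hfar
      have hWle : ∀ m0 : ℕ, round t = (m0 : ℤ) → W a b L C M m1 m2 n0 N1 e k k' =
          if m0 ∈ Icc m1 m2 then gw L M m0 * inn a b C n0 N1 m0 e k k' else 0 := by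
        intro m0 hm0
        rw [W_eq]
        by_cases hin : m0 ∈ Icc m1 m2
        · rw [if_pos hin]
          apply sum_eq_single_of_mem m0 hin
          intro m hm hne
          by_cases h0 : inn a b C n0 N1 m e k k' = 0
          · rw [h0, mul_zero]
          · obtain ⟨_, h8⟩ := hround m hm h0
            rw [hm0] at h8
            exact absurd (by exact_mod_cast h8.symm) hne
        · rw [if_neg hin]
          apply sum_eq_zero
          intro m hm
          by_cases h0 : inn a b C n0 N1 m e k k' = 0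
          · rw [h0, mul_zero]
          · obtain ⟨_, h8⟩ := hround m hm h0
            rw [hm0] at h8
            have h9 : m0 = m := by exact_mod_cast h8
            exact absurd (h9 ▸ hm) hin
      have hround0 : 0 ≤ round t := by
        have h9 : 0 ≤ t := by rw [ht]; unfold tt; positivity
        rw [round_eq]
        apply Int.floor_nonneg.2
        linarith
      obtain ⟨m0, hm0⟩ := Int.eq_ofNat_of_zero_le hround0
      have hfar' : |(m0 : ℝ) - t| ≤ 2 * δ := by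
        rw [hm0] at hfar
        exact_mod_cast hfar
      have hm0t := abs_le.1 hfar'
      rw [hWle m0 hm0]
      by_cases hrange : (m1 : ℝ) + 1 ≤ t ∧ t ≤ (m2 : ℝ) - 1
      · -- the main range
        have hin : m0 ∈ Icc m1 m2 := by
          rw [mem_Icc]
          constructor
          · have : (m1 : ℝ) ≤ m0 := by linarith
            exact_mod_cast this
          · have : (m0 : ℝ) ≤ m2 := by linarith
            exact_mod_cast this
        rw [if_pos hin]
        have hk'2K : k' ≤ 2 * K := by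
          have : (k' : ℝ) ≤ 2 * K := by nlinarith
          exact_mod_cast this
        obtain ⟨n, hn1, hn2, hn3⟩ := exists_n (m := m0) (m1 := m1) (m2 := m2) ha he hm1 hkk hk hk'2K hcl
          (by rw [← ht]; linarith [hrange.1]) (by rw [← ht]; linarith [hrange.2])
          (by rw [← ht]; linarith) h5 h6
        have hm01 : 1 ≤ m0 := hm1.trans (mem_Icc.1 hin).1
        rw [inn_of ha he hm01 hn1 hn2 hn3]
        have hnear : 2 * tri δ (t + δ / 2) = Ph (((m0 : ℝ) - t) / δ) := by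
          have := tri_near (t := t) (m := (m0 : ℤ)) hδ0 hδ8 (by push_cast; linarith)
          push_cast at this
          exact this
        rw [hnear]
        have hap := quad_approx (n := n) (m := m0) ha he hK1 hC hκ hk hk2 hkk' hk2' hn3
          (by rw [← ht, mul_div_assoc]; exact hfar')
        rw [← ht, ← hδd] at hap
        have hlip := Ph_lip ((cv a b m0 k n : ℝ) / C) (((m0 : ℝ) - t) / δ)
        have hglip := gw_lip (L := L) (M := (M : ℝ)) (m1 := (m1 : ℝ)) (s := (m0 : ℝ)) (t := t) hL (by linarith) (by linarith) hmM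
          (by exact_mod_cast (mem_Icc.1 hin).1) (by linarith [hrange.1])
        have h20 : gw L M m0 * Ph ((cv a b m0 k n : ℝ) / C) - gw L M t * Ph (((m0 : ℝ) - t) / δ) =
            (gw L M m0 - gw L M t) * Ph ((cv a b m0 k n : ℝ) / C) +
            gw L M t * (Ph ((cv a b m0 k n : ℝ) / C) - Ph (((m0 : ℝ) - t) / δ)) := by ring
        rw [h20]
        have h21 : |(gw L M m0 - gw L M t) * Ph ((cv a b m0 k n : ℝ) / C)| ≤ L / M := by
          rw [abs_mul, abs_of_nonneg (Ph_nonneg _)]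
          calc _ ≤ (2 * L * |(m0 : ℝ) - t| / M) * 2 := by
                apply mul_le_mul hglip (Ph_le _) (Ph_nonneg _) (by positivity)
            _ ≤ (2 * L * (1 / 4) / M) * 2 := by
                gcongr
                linarith
            _ = L / M := by ring
        have h22 : |gw L M t * (Ph ((cv a b m0 k n : ℝ) / C) - Ph (((m0 : ℝ) - t) / δ))| ≤
            4 * κ + 8 * a * (e : ℝ) ^ 2 * C / (K : ℝ) ^ 2 + (b : ℝ) ^ 2 / (2 * a * C) := by
          rw [abs_mul, abs_of_nonneg (gw_pos _ _ _).le]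
          calc _ ≤ 1 * (2 * (2 * κ + 4 * a * (e : ℝ) ^ 2 * C / (K : ℝ) ^ 2 + (b : ℝ) ^ 2 / (4 * a * C))) := by
                apply mul_le_mul (gw_le_one _ _ _) (hlip.trans (by linarith)) (abs_nonneg _) zero_le_one
            _ = _ := by
                field_simp
                ring
        have h23 : |(gw L M m0 - gw L M t) * Ph ((cv a b m0 k n : ℝ) / C) +
            gw L M t * (Ph ((cv a b m0 k n : ℝ) / C) - Ph (((m0 : ℝ) - t) / δ))| ≤ Er a b L κ C K M e := by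
          refine (abs_add_le _ _).trans ?_
          unfold Er
          linarith
        have h24 : Er a b L κ C K M e ≤ Er a b L κ C K M e * (2 * tri (4 * δ) t) := by
          nlinarith
        linarith
      · -- near the ends
        have h30 : t ≤ 9 / 16 * (M : ℝ) - 1 ∨ 25 / 16 * (M : ℝ) + 1 ≤ t := by
          rw [not_and_or, not_le, not_le] at hrange
          rcases hrange with h | h
          · left; linarith
          · right; linarith
        have h31 : gw L M t ≤ Real.exp (-(L ^ 2 / 16)) := gw_small (by linarith) (by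
          rcases h30 with h | h
          · left; linarith
          · right; linarith)
        have h32 : gw L M m0 ≤ Real.exp (-(L ^ 2 / 16)) := gw_small (by linarith) (by
          rcases h30 with h | h
          · left; linarith
          · right; linarith)
        have h33 : |(if m0 ∈ Icc m1 m2 then gw L M m0 * inn a b C n0 N1 m0 e k k' else 0)| ≤
            2 * Real.exp (-(L ^ 2 / 16)) := by
          split_ifs with hin
          · have hm01 : 1 ≤ m0 := hm1.trans (mem_Icc.1 hin).1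
            rw [abs_of_nonneg (mul_nonneg (gw_pos _ _ _).le (inn_nonneg _ _ _ _ _ _ _ _ _)), mul_comm 2]
            exact mul_le_mul h32 (inn_le ha he hm01) (inn_nonneg _ _ _ _ _ _ _ _ _) hex.le
          · rw [abs_zero]; positivity
        have h34 : |gw L M t * (2 * tri δ (t + δ / 2))| ≤ 2 * Real.exp (-(L ^ 2 / 16)) := by
          rw [abs_of_nonneg (mul_nonneg (gw_pos _ _ _).le (by linarith)), mul_comm 2 (Real.exp _)]
          exact mul_le_mul h31 (by linarith) (by linarith) hex.le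
        have h35 : 0 ≤ Er a b L κ C K M e * (2 * tri (4 * δ) t) := mul_nonneg hEr (by linarith)
        have h36 := abs_sub (if m0 ∈ Icc m1 m2 then gw L M m0 * inn a b C n0 N1 m0 e k k' else 0)
          (gw L M t * (2 * tri δ (t + δ / 2)))
        linarith

end Pool.Agent.N792
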