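import Mathlib
import Pool.Agent.N792.TB2

/-!
The bound for the sums over the frequencies `h ≠ 0` (helper792).
-/

set_option autoImplicit false

namespace Pool.Agent.N792

open Finset
open Pool.Agent.H469R2.NK (e norm_e e_add conj_e e_zero)

/-- the statement of `bs` for a constant `C0` -/
def BSP (C0 : ℝ) : Prop := ∀ (J K q : ℕ) (θ A B : ℝ) (R S : Finset ℕ) (a b : ℕ → ℂ),
    1 ≤ q → q ≤ J → q ≤ K → 0 < θ → 0 ≤ A → 0 ≤ B → (∀ r ∈ R, J < r ∧ r ≤ 2 * J) →
    (∀ s ∈ S, K < s ∧ s ≤ 2 * K) → (∀ r ∈ R, ∀ r' ∈ R, r ≡ r' [MOD q]) →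
    (∀ s ∈ S, ∀ s' ∈ S, s ≡ s' [MOD q]) → (∀ r ∈ R, ‖a r‖ ≤ A) → (∀ s ∈ S, ‖b s‖ ≤ B) →
    ‖∑ r ∈ R, ∑ s ∈ S, a r * b s * e (θ * (√(r : ℝ) * √(s : ℝ)))‖ ^ 2 ≤
      C0 * (A * B) ^ 2 * ((J : ℝ) / q) * ((K : ℝ) / q) * (1 + √((J : ℝ) / K) / (θ * q)) *
        (1 + θ * √((J : ℝ) * K) + (K : ℝ) / q)

/-- separation of the variables in a Gaussian weight -/
lemma gauss_sep {ι : Type*} (s : Finset ι) (F : ι → ℂ) (y : ι → ℝ) (L Bd : ℝ)
    (h : ∀ t : ℝ, ‖∑ i ∈ s, F i * e (t * y i)‖ ≤ Bd) :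
    ‖∑ i ∈ s, F i * (Real.exp (-(y i - L) ^ 2) : ℂ)‖ ≤ Bd := by
  set μ := ProbabilityTheory.gaussianReal 0 2 with hμ
  have h1 : ∀ v : ℝ, ((Real.exp (-v ^ 2) : ℝ) : ℂ) = ∫ x, Complex.exp (v * x * Complex.I) ∂μ := by
    intro v
    have h2 := ProbabilityTheory.charFun_gaussianReal (μ := 0) (v := 2) v
    rw [MeasureTheory.charFun_apply_real] at h2
    rw [hμ, h2]
    push_cast
    congr 1
    simp
  have h3 : ∀ (x : ℝ) (v : ℝ), ‖Complex.exp (v * x * Complex.I)‖ = 1 := by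
    intro x v
    have : (v : ℂ) * x * Complex.I = ((v * x : ℝ) : ℂ) * Complex.I := by push_cast; ring
    rw [this, Complex.norm_exp_ofReal_mul_I]
  have hint : ∀ i ∈ s, MeasureTheory.Integrable (fun x : ℝ => F i * Complex.exp (((y i - L : ℝ) : ℂ) * x * Complex.I)) μ := by
    intro i _
    apply MeasureTheory.Integrable.const_mul
    apply MeasureTheory.Integrable.of_bound (C := 1)
    · apply Continuous.aestronglyMeasurable
      fun_prop
    · exact Filter.Eventually.of_forall fun x => (h3 x _).le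
  have h4 : ∑ i ∈ s, F i * (Real.exp (-(y i - L) ^ 2) : ℂ) =
      ∫ x, ∑ i ∈ s, F i * Complex.exp (((y i - L : ℝ) : ℂ) * x * Complex.I) ∂μ := by
    rw [MeasureTheory.integral_finsetSum _ hint]
    apply sum_congr rfl
    intro i _
    rw [MeasureTheory.integral_const_mul]
    congr 1
    have := h1 (y i - L)
    rw [← this]
  rw [h4]
  have h5 : ∀ x : ℝ, ‖∑ i ∈ s, F i * Complex.exp (((y i - L : ℝ) : ℂ) * x * Complex.I)‖ ≤ Bd := by
    intro x
    have h6 : ∑ i ∈ s, F i * Complex.exp (((y i - L : ℝ) : ℂ) * x * Complex.I) =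
        e (x / (2 * Real.pi) * (-L)) * ∑ i ∈ s, F i * e (x / (2 * Real.pi) * y i) := by
      rw [mul_sum]
      apply sum_congr rfl
      intro i _
      have h7 : e (x / (2 * Real.pi) * (-L)) * (F i * e (x / (2 * Real.pi) * y i)) =
          F i * (e (x / (2 * Real.pi) * y i) * e (x / (2 * Real.pi) * (-L))) := by ring
      rw [h7, ← e_add]
      congr 1
      unfold e
      congr 1
      congr 1
      have hpi : (2 * Real.pi) ≠ 0 := by positivity
      rw [show 2 * Real.pi * (x / (2 * Real.pi) * y i + x / (2 * Real.pi) * (-L)) = (y i - L) * x by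
        field_simp
        ring]
      push_cast
      ring
    rw [h6, norm_mul, norm_e, one_mul]
    exact h _
  have h6 := MeasureTheory.norm_integral_le_of_norm_le_const (μ := μ) (C := Bd)
    (f := fun x : ℝ => ∑ i ∈ s, F i * Complex.exp (((y i - L : ℝ) : ℂ) * x * Complex.I))
    (Filter.Eventually.of_forall h5)
  simpa using h6

/-- the modulus `4 a e` -/
def md (a : ℤ) (e : ℕ) : ℕ := 4 * a.toNat * e

lemma md_cast {a : ℤ} {n : ℕ} (ha : 0 < a) : ((md a n : ℕ) : ℤ) = 4 * a * n := by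
  unfold md
  push_cast
  rw [Int.toNat_of_nonneg ha.le]

lemma md_pos {a : ℤ} {n : ℕ} (ha : 0 < a) (hn : 1 ≤ n) : 1 ≤ md a n := by
  unfold md
  have : 1 ≤ a.toNat := by omega
  nlinarith [Nat.mul_le_mul this hn]

lemma md_real {a : ℤ} {n : ℕ} (ha : 0 < a) : ((md a n : ℕ) : ℝ) = 4 * a * n := by
  have := md_cast (n := n) ha
  exact_mod_cast this

lemma cls_congr {a b : ℤ} {n k k₁ k' : ℕ} (ha : 0 < a) (h : k % md a n = k₁ % md a n) :
    cls a b n k k' ↔ cls a b n k₁ k' := by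
  unfold cls
  have h1 : (k : ℤ) ≡ k₁ [ZMOD (4 * a * n)] := by
    rw [← md_cast ha, Int.natCast_modEq_iff]
    exact h
  have h2 : (4 * a * n : ℤ) ∣ (k₁ : ℤ) - k := h1.dvd
  constructor
  · intro h3
    have : (k' : ℤ) - k₁ - 2 * n * b = ((k' : ℤ) - k - 2 * n * b) - (k₁ - k) := by ring
    rw [this]
    exact dvd_sub h3 h2
  · intro h3
    have : (k' : ℤ) - k - 2 * n * b = ((k' : ℤ) - k₁ - 2 * n * b) + (k₁ - k) := by ring
    rw [this]
    exact dvd_add h3 h2

lemma cls_modEq {a b : ℤ} {n k k' k'' : ℕ} (ha : 0 < a) (h : cls a b n k k') (h' : cls a b n k k'') :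
    k' ≡ k'' [MOD md a n] := by
  unfold cls at h h'
  rw [← Int.natCast_modEq_iff, md_cast ha, Int.modEq_iff_dvd]
  have : (k'' : ℤ) - k' = ((k'' : ℤ) - k - 2 * n * b) - ((k' : ℤ) - k - 2 * n * b) := by ring
  rw [this]
  exact dvd_sub h' h

lemma tt_expand {a : ℤ} {n k k' : ℕ} (ha : 0 < a) (hn : 1 ≤ n) :
    tt a n k k' = (k' : ℝ) / (4 * a * (n : ℝ) ^ 2) + (k : ℝ) / (4 * a * (n : ℝ) ^ 2) -
      1 / (2 * a * (n : ℝ) ^ 2) * (√(k : ℝ) * √(k' : ℝ)) := by
  have haR : (0 : ℝ) < a := by exact_mod_cast ha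
  have hnR : (0 : ℝ) < n := by exact_mod_cast hn
  unfold tt
  have h1 : (√(k' : ℝ) - √(k : ℝ)) ^ 2 = k' + k - 2 * (√(k : ℝ) * √(k' : ℝ)) := by
    rw [sub_sq, Real.sq_sqrt (Nat.cast_nonneg _), Real.sq_sqrt (Nat.cast_nonneg _)]
    ring
  rw [h1]
  field_simp
  ring

open Classical in
/-- **the sums with the frequency `h`** -/
theorem hb {C0 : ℝ} (hC0 : 0 < C0) (hbs : BSP C0) {a b : ℤ} {K K2 n h : ℕ} (ha : 0 < a) (hn : 1 ≤ n) (hh : 1 ≤ h)
    (hq : md a n ≤ K) (hK2 : K2 ≤ 2 * K) (A B : ℝ) (hA : 0 ≤ A) (hB : 0 ≤ B) (α β : ℕ → ℂ)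
    (hα : ∀ k ∈ Ioc K K2, ‖α k‖ ≤ A) (hβ : ∀ k ∈ Ioc K K2, ‖β k‖ ≤ B) :
    ‖∑ k ∈ Ioc K K2, ∑ k' ∈ Ioc K K2, (if cls a b n k k' then α k * β k' * e (h * tt a n k k') else 0)‖ ≤
      √C0 * (A * B) * (K * √(K : ℝ)) * (√(h : ℝ) / n + 1 / √(h : ℝ)) := by
  have haR : (1 : ℝ) ≤ a := by exact_mod_cast ha
  have hnR : (1 : ℝ) ≤ n := by exact_mod_cast hn
  have hhR : (1 : ℝ) ≤ h := by exact_mod_cast hh
  have hq1 := md_pos ha hn
  have hqR : ((md a n : ℕ) : ℝ) = 4 * a * n := md_real ha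
  set q := md a n with hqd
  have hK1 : 1 ≤ K := hq1.trans hq
  have hKR : (1 : ℝ) ≤ K := by exact_mod_cast hK1
  -- split into classes
  have hsplit : ∑ k ∈ Ioc K K2, ∑ k' ∈ Ioc K K2, (if cls a b n k k' then α k * β k' * e (h * tt a n k k') else 0) =
      ∑ r ∈ range q, ∑ k ∈ (Ioc K K2).filter (fun k => k % q = r), ∑ k' ∈ (Ioc K K2).filter (fun k' => cls a b n r k'),
        α k * β k' * e (h * tt a n k k') := by
    rw [← sum_fiberwise_of_maps_to (s := Ioc K K2) (t := range q) (g := fun k => k % q)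
      (fun k _ => mem_range.2 (Nat.mod_lt _ hq1))]
    apply sum_congr rfl
    intro r hr
    apply sum_congr rfl
    intro k hk
    rw [mem_filter] at hk
    rw [sum_filter]
    apply sum_congr rfl
    intro k' _
    have h1 : cls a b n k k' ↔ cls a b n r k' := by
      apply cls_congr ha
      rw [← hqd, hk.2, Nat.mod_eq_of_lt (mem_range.1 hr)]
    simp only [h1]
  rw [hsplit]
  have hclass : ∀ r ∈ range q, ‖∑ k ∈ (Ioc K K2).filter (fun k => k % q = r),
      ∑ k' ∈ (Ioc K K2).filter (fun k' => cls a b n r k'), α k * β k' * e (h * tt a n k k')‖ ≤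
      √C0 * (A * B) * (K / q) * (√(K : ℝ) * (√(h : ℝ) / n + 1 / √(h : ℝ))) := by
    intro r _
    set θ : ℝ := h / (2 * a * (n : ℝ) ^ 2) with hθ
    have hθ0 : 0 < θ := by positivity
    -- conjugate
    have hconj : ‖∑ k ∈ (Ioc K K2).filter (fun k => k % q = r),
        ∑ k' ∈ (Ioc K K2).filter (fun k' => cls a b n r k'), α k * β k' * e (h * tt a n k k')‖ =
        ‖∑ k ∈ (Ioc K K2).filter (fun k => k % q = r), ∑ k' ∈ (Ioc K K2).filter (fun k' => cls a b n r k'),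
          (starRingEnd ℂ (α k * e (h * ((k : ℝ) / (4 * a * (n : ℝ) ^ 2))))) *
          (starRingEnd ℂ (β k' * e (h * ((k' : ℝ) / (4 * a * (n : ℝ) ^ 2))))) * e (θ * (√(k : ℝ) * √(k' : ℝ)))‖ := by
      rw [← RCLike.norm_conj, map_sum]
      congr 1
      apply sum_congr rfl
      intro k _
      rw [map_sum]
      apply sum_congr rfl
      intro k' _
      rw [map_mul, map_mul, map_mul, map_mul, conj_e, conj_e, conj_e, tt_expand ha hn]
      have h2 : -((h : ℝ) * ((k' : ℝ) / (4 * a * (n : ℝ) ^ 2) + (k : ℝ) / (4 * a * (n : ℝ) ^ 2) -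
          1 / (2 * a * (n : ℝ) ^ 2) * (√(k : ℝ) * √(k' : ℝ)))) =
          -(h * ((k : ℝ) / (4 * a * (n : ℝ) ^ 2))) + -(h * ((k' : ℝ) / (4 * a * (n : ℝ) ^ 2))) +
            θ * (√(k : ℝ) * √(k' : ℝ)) := by
        rw [hθ]
        ring
      rw [h2, e_add, e_add]
      ring
    rw [hconj]
    have hmain := hbs K K q θ A B ((Ioc K K2).filter (fun k => k % q = r)) ((Ioc K K2).filter (fun k' => cls a b n r k'))
      (fun k => starRingEnd ℂ (α k * e (h * ((k : ℝ) / (4 * a * (n : ℝ) ^ 2)))))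
      (fun k' => starRingEnd ℂ (β k' * e (h * ((k' : ℝ) / (4 * a * (n : ℝ) ^ 2))))) hq1 hq hq hθ0 hA hB
      (fun k hk => by
        rw [mem_filter, mem_Ioc] at hk
        exact ⟨hk.1.1, hk.1.2.trans hK2⟩)
      (fun k hk => by
        rw [mem_filter, mem_Ioc] at hk
        exact ⟨hk.1.1, hk.1.2.trans hK2⟩)
      (fun k hk k' hk' => by
        rw [mem_filter] at hk hk'
        unfold Nat.ModEq
        rw [hk.2, hk'.2])
      (fun k hk k' hk' => by
        rw [mem_filter] at hk hk'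
        exact cls_modEq ha hk.2 hk'.2)
      (fun k hk => by
        rw [mem_filter] at hk
        simp only [RCLike.norm_conj, norm_mul, norm_e, mul_one]
        exact hα k hk.1)
      (fun k hk => by
        rw [mem_filter] at hk
        simp only [RCLike.norm_conj, norm_mul, norm_e, mul_one]
        exact hβ k hk.1)
    have hKK : √((K : ℝ) / K) = 1 := by rw [div_self (by linarith), Real.sqrt_one]
    have hKK2 : √((K : ℝ) * K) = K := Real.sqrt_mul_self (by linarith)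
    rw [hKK, hKK2] at hmain
    have hqR0 : (0 : ℝ) < q := by exact_mod_cast hq1
    have hqK : (q : ℝ) ≤ K := by exact_mod_cast hq
    have hsh : √(h : ℝ) ^ 2 = h := Real.sq_sqrt (by linarith)
    have hsh0 : 0 < √(h : ℝ) := Real.sqrt_pos.2 (by linarith)
    have hsK : √(K : ℝ) ^ 2 = K := Real.sq_sqrt (by linarith)
    have e1 : 1 / (θ * q) = n / (2 * h) := by
      rw [hθ, hqR]
      field_simp
      ring
    have hb1 : (1 + 1 / (θ * q)) * (1 + θ * K + K / q) ≤ K * (√(h : ℝ) / n + 1 / √(h : ℝ)) ^ 2 := by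
      have h3 : 1 + 1 / (θ * q) ≤ 1 + n / h := by
        rw [e1]
        gcongr
        linarith
      have h4 : 1 + θ * K + K / q ≤ K * (h / (2 * a * (n : ℝ) ^ 2) + 1 / (2 * a * n)) := by
        have h5 : 1 ≤ (K : ℝ) / q := by rw [le_div_iff₀ hqR0]; linarith
        have h6 : (K : ℝ) / q = K * (1 / (4 * a * n)) := by rw [hqR]; ring
        have h7 : (K : ℝ) * (1 / (2 * a * n)) = 2 * (K / q) := by
          rw [h6]
          field_simp
          ring
        rw [mul_add, h7, hθ]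
        have h8 : h / (2 * a * (n : ℝ) ^ 2) * K = K * (h / (2 * a * (n : ℝ) ^ 2)) := by ring
        rw [h8]
        linarith
      have h9 : K * (h / (2 * a * (n : ℝ) ^ 2) + 1 / (2 * a * n)) ≤ K * ((h + n) / (n : ℝ) ^ 2) := by
        apply mul_le_mul_of_nonneg_left _ (by linarith)
        have : h / (2 * a * (n : ℝ) ^ 2) + 1 / (2 * a * n) = (h + n) / (n : ℝ) ^ 2 / (2 * a) := by
          field_simp
        rw [this]
        apply div_le_self (by positivity)
        linarith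
      have h10 : (√(h : ℝ) / n + 1 / √(h : ℝ)) ^ 2 = (1 + n / h) * ((h + n) / (n : ℝ) ^ 2) := by
        have h11 : √(h : ℝ) / n + 1 / √(h : ℝ) = (h + n) / (n * √(h : ℝ)) := by
          field_simp
          rw [hsh]
        rw [h11, div_pow, mul_pow, hsh]
        field_simp
      rw [h10]
      calc (1 + 1 / (θ * q)) * (1 + θ * K + K / q) ≤ (1 + n / h) * (K * ((h + n) / (n : ℝ) ^ 2)) := by
            apply mul_le_mul h3 (h4.trans h9) (by positivity) (by positivity)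
        _ = _ := by ring
    have hfin : C0 * (A * B) ^ 2 * ((K : ℝ) / q) * ((K : ℝ) / q) * (1 + 1 / (θ * q)) * (1 + θ * K + K / q) ≤
        (√C0 * (A * B) * (K / q) * (√(K : ℝ) * (√(h : ℝ) / n + 1 / √(h : ℝ)))) ^ 2 := by
      have h12 : (√C0 * (A * B) * (K / q) * (√(K : ℝ) * (√(h : ℝ) / n + 1 / √(h : ℝ)))) ^ 2 =
          C0 * (A * B) ^ 2 * ((K : ℝ) / q) * ((K : ℝ) / q) * (K * (√(h : ℝ) / n + 1 / √(h : ℝ)) ^ 2) := by
        rw [mul_pow, mul_pow (√C0 * (A * B)), mul_pow √C0, mul_pow √(K : ℝ), Real.sq_sqrt hC0.le, hsK]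
        ring
      rw [h12, mul_assoc (C0 * (A * B) ^ 2 * ((K : ℝ) / q) * ((K : ℝ) / q))]
      apply mul_le_mul_of_nonneg_left hb1 (by positivity)
    exact abs_le_of_sq_le_sq' (hmain.trans hfin) (by positivity) |>.2
  refine (norm_sum_le_of_le _ hclass).trans ?_
  rw [sum_const, card_range, nsmul_eq_mul]
  have hqR0 : (q : ℝ) ≠ 0 := by
    have : (1 : ℝ) ≤ q := by exact_mod_cast hq1
    linarith
  apply le_of_eq
  field_simp

end Pool.Agent.N792
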