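import Mathlib
import Pool.Agent.N792.TC

/-!
The sums over the triangle functions (helper792).
-/

set_option autoImplicit false

namespace Pool.Agent.N792

open Finset
open Pool.Agent.H469R2.NK (e norm_e e_add conj_e e_zero)

/-- the statement of `tri_sum` -/
def TRIP : Prop := ∀ (s : Finset (ℕ × ℕ)) (w θ : ℕ × ℕ → ℝ) (δ A B : ℝ), 0 < δ → δ ≤ 1 / 2 → 0 ≤ A → 0 ≤ B →
    (∀ h : ℕ, 1 ≤ h → ‖∑ i ∈ s, (w i : ℂ) * e (h * θ i)‖ ≤ A * √(h : ℝ) + B / √(h : ℝ)) →
    |∑ i ∈ s, w i * tri δ (θ i) - δ * ∑ i ∈ s, w i| ≤ 20 * (A / √δ + B * √δ)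

open Classical in
/-- the sum with the Gaussian weight -/
theorem tri_gs {C0 : ℝ} (hC0 : 0 < C0) (hbs : BSP C0) (htri : TRIP) {a b : ℤ} {K K2 M n : ℕ} {L δ B0 : ℝ}
    (ha : 0 < a) (hn : 1 ≤ n) (hq : md a n ≤ K) (hK2 : K2 ≤ 2 * K) (hδ : 0 < δ) (hδ2 : δ ≤ 1 / 2) (hB0 : 0 ≤ B0)
    (β : ℕ → ℝ) (hβ : ∀ k ∈ Ioc K K2, |β k| ≤ B0) :
    |∑ k ∈ Ioc K K2, ∑ k' ∈ Ioc K K2, (if cls a b n k k' then
        β k * β k' * (gs L a M n k k' * (2 * tri δ (tt a n k k' + δ / 2))) else 0) -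
      2 * δ * ∑ k ∈ Ioc K K2, ∑ k' ∈ Ioc K K2, (if cls a b n k k' then β k * β k' * gs L a M n k k' else 0)| ≤
      40 * √C0 * B0 ^ 2 * (K * √(K : ℝ)) * (1 / (n * √δ) + √δ) := by
  have hnR : (1 : ℝ) ≤ n := by exact_mod_cast hn
  set X := √C0 * (B0 * B0) * (K * √(K : ℝ)) with hX
  have hX0 : 0 ≤ X := by positivity
  have h1 := htri (Ioc K K2 ×ˢ Ioc K K2)
    (fun i => if cls a b n i.1 i.2 then β i.1 * β i.2 * gs L a M n i.1 i.2 else 0)
    (fun i => tt a n i.1 i.2 + δ / 2) δ (X / n) X hδ hδ2 (by positivity) hX0 (by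
      intro h hh
      have hhR : (1 : ℝ) ≤ h := by exact_mod_cast hh
      have e1 : ∑ i ∈ Ioc K K2 ×ˢ Ioc K K2, (((if cls a b n i.1 i.2 then β i.1 * β i.2 * gs L a M n i.1 i.2 else 0 : ℝ)) : ℂ) *
          e (h * (tt a n i.1 i.2 + δ / 2)) = e (h * (δ / 2)) * ∑ i ∈ Ioc K K2 ×ˢ Ioc K K2,
          (if cls a b n i.1 i.2 then (β i.1 : ℂ) * (β i.2 : ℂ) * e (h * tt a n i.1 i.2) else 0) *
            (Real.exp (-(L * ((√(i.2 : ℝ) - √(i.1 : ℝ)) / (2 * √(a : ℝ) * n * √(M : ℝ))) - L) ^ 2) : ℂ) := by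
        rw [mul_sum]
        apply sum_congr rfl
        intro i _
        by_cases hc : cls a b n i.1 i.2
        · simp only [if_pos hc]
          rw [mul_add, e_add]
          unfold gs
          rw [show L * ((√(i.2 : ℝ) - √(i.1 : ℝ)) / (2 * √(a : ℝ) * n * √(M : ℝ)) - 1) =
            L * ((√(i.2 : ℝ) - √(i.1 : ℝ)) / (2 * √(a : ℝ) * n * √(M : ℝ))) - L by ring]
          push_cast
          ring
        · simp only [if_neg hc]
          simp
      rw [e1, norm_mul, norm_e, one_mul]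
      have h2 := gauss_sep (Ioc K K2 ×ˢ Ioc K K2)
        (fun i => if cls a b n i.1 i.2 then (β i.1 : ℂ) * (β i.2 : ℂ) * e (h * tt a n i.1 i.2) else 0)
        (fun i => L * ((√(i.2 : ℝ) - √(i.1 : ℝ)) / (2 * √(a : ℝ) * n * √(M : ℝ)))) L
        (X * (√(h : ℝ) / n + 1 / √(h : ℝ))) (by
          intro t
          set lam := t * (L / (2 * √(a : ℝ) * n * √(M : ℝ))) with hlam
          have h3 := hb hC0 hbs (b := b) ha hn hh hq hK2 B0 B0 hB0 hB0
            (fun k => (β k : ℂ) * e (-(lam * √(k : ℝ)))) (fun k => (β k : ℂ) * e (lam * √(k : ℝ)))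
            (fun k hk => by rw [norm_mul, norm_e, mul_one, Complex.norm_real]; exact hβ k hk)
            (fun k hk => by rw [norm_mul, norm_e, mul_one, Complex.norm_real]; exact hβ k hk)
          refine le_trans (le_of_eq ?_) h3
          congr 1
          rw [sum_product]
          apply sum_congr rfl
          intro k _
          apply sum_congr rfl
          intro k' _
          by_cases hc : cls a b n k k'
          · simp only [if_pos hc]
            have h4 : t * (L * ((√(k' : ℝ) - √(k : ℝ)) / (2 * √(a : ℝ) * n * √(M : ℝ)))) =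
                -(lam * √(k : ℝ)) + lam * √(k' : ℝ) := by
              rw [hlam]; ring
            rw [h4, e_add]
            ring
          · simp only [if_neg hc, zero_mul])
      refine h2.trans (le_of_eq ?_)
      ring)
  have h5 : ∑ i ∈ Ioc K K2 ×ˢ Ioc K K2, (if cls a b n i.1 i.2 then β i.1 * β i.2 * gs L a M n i.1 i.2 else 0) *
      tri δ (tt a n i.1 i.2 + δ / 2) = (∑ k ∈ Ioc K K2, ∑ k' ∈ Ioc K K2, (if cls a b n k k' then
        β k * β k' * (gs L a M n k k' * (2 * tri δ (tt a n k k' + δ / 2))) else 0)) / 2 := by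
    rw [sum_product, sum_div]
    apply sum_congr rfl
    intro k _
    rw [sum_div]
    apply sum_congr rfl
    intro k' _
    split_ifs
    · ring
    · simp
  rw [h5, sum_product] at h1
  have h6 : (∑ k ∈ Ioc K K2, ∑ k' ∈ Ioc K K2, (if cls a b n k k' then
        β k * β k' * (gs L a M n k k' * (2 * tri δ (tt a n k k' + δ / 2))) else 0) -
      2 * δ * ∑ k ∈ Ioc K K2, ∑ k' ∈ Ioc K K2, (if cls a b n k k' then β k * β k' * gs L a M n k k' else 0)) =
      2 * ((∑ k ∈ Ioc K K2, ∑ k' ∈ Ioc K K2, (if cls a b n k k' then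
        β k * β k' * (gs L a M n k k' * (2 * tri δ (tt a n k k' + δ / 2))) else 0)) / 2 -
      δ * ∑ k ∈ Ioc K K2, ∑ k' ∈ Ioc K K2, (if cls a b n k k' then β k * β k' * gs L a M n k k' else 0)) := by ring
  rw [h6, abs_mul, abs_of_pos (by norm_num : (0 : ℝ) < 2)]
  calc _ ≤ 2 * (20 * (X / n / √δ + X * √δ)) := by gcongr
    _ = _ := by
        rw [hX]
        field_simp
        ring

open Classical in
/-- the number of pairs with `t` near an integer -/
theorem tri_count {C0 : ℝ} (hC0 : 0 < C0) (hbs : BSP C0) (htri : TRIP) {a b : ℤ} {K K2 n : ℕ} {δ : ℝ}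
    (ha : 0 < a) (hn : 1 ≤ n) (hq : md a n ≤ K) (hK2 : K2 ≤ 2 * K) (hδ : 0 < δ) (hδ2 : δ ≤ 1 / 2) :
    ∑ k ∈ Ioc K K2, ∑ k' ∈ Ioc K K2, (if cls a b n k k' then tri δ (tt a n k k') else 0) ≤
      δ * ∑ k ∈ Ioc K K2, ∑ k' ∈ Ioc K K2, (if cls a b n k k' then 1 else 0) +
      20 * √C0 * (K * √(K : ℝ)) * (1 / (n * √δ) + √δ) := by
  have hnR : (1 : ℝ) ≤ n := by exact_mod_cast hn
  set X := √C0 * (1 * 1) * (K * √(K : ℝ)) with hX
  have hX0 : 0 ≤ X := by positivity
  have h1 := htri (Ioc K K2 ×ˢ Ioc K K2)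
    (fun i => if cls a b n i.1 i.2 then 1 else 0)
    (fun i => tt a n i.1 i.2) δ (X / n) X hδ hδ2 (by positivity) hX0 (by
      intro h hh
      have hhR : (1 : ℝ) ≤ h := by exact_mod_cast hh
      have h3 := hb hC0 hbs (b := b) ha hn hh hq hK2 1 1 zero_le_one zero_le_one (fun _ => 1) (fun _ => 1)
            (fun k hk => by simp) (fun k hk => by simp)
      have e1 : ∑ i ∈ Ioc K K2 ×ˢ Ioc K K2, (((if cls a b n i.1 i.2 then 1 else 0 : ℝ)) : ℂ) *
          e (h * tt a n i.1 i.2) = ∑ k ∈ Ioc K K2, ∑ k' ∈ Ioc K K2,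
          (if cls a b n k k' then 1 * 1 * e (h * tt a n k k') else 0) := by
        rw [sum_product]
        apply sum_congr rfl
        intro k _
        apply sum_congr rfl
        intro k' _
        split_ifs <;> simp
      rw [e1]
      refine h3.trans (le_of_eq ?_)
      rw [← hX]
      ring)
  have h5 : ∑ i ∈ Ioc K K2 ×ˢ Ioc K K2, (if cls a b n i.1 i.2 then (1 : ℝ) else 0) * tri δ (tt a n i.1 i.2) =
      ∑ k ∈ Ioc K K2, ∑ k' ∈ Ioc K K2, (if cls a b n k k' then tri δ (tt a n k k') else 0) := by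
    rw [sum_product]
    apply sum_congr rfl
    intro k _
    apply sum_congr rfl
    intro k' _
    split_ifs <;> simp
  rw [h5, sum_product] at h1
  have h6 := (abs_le.1 h1).2
  have h7 : 20 * (X / n / √δ + X * √δ) = 20 * √C0 * (K * √(K : ℝ)) * (1 / (n * √δ) + √δ) := by
    rw [hX]
    field_simp
  rw [h7] at h6
  linarith

end Pool.Agent.N792
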