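import Mathlib
import Pool.Agent.N792.TC

/-!
The sum over the frequency `h = 0` (helper792).
-/

set_option autoImplicit false

namespace Pool.Agent.N792

open Finset

/-- the statement of `ls_classes` -/
def LSCP : Prop := ∀ (N Q Q0 : ℕ) (β : ℕ → ℝ) (Δ B0 : ℝ), 1 ≤ Q0 → Q0 ≤ Q → Q ≤ N →
    (∀ k, |β k| ≤ B0) →
    (∀ q ∈ Icc 1 Q0, ∀ r : ℕ, |∑ k ∈ (Icc 1 N).filter (fun k => k ≡ r [MOD q]), β k| ≤ Δ) →
    ∑ q ∈ Icc 1 Q, ∑ r ∈ range q, (∑ k ∈ (Icc 1 N).filter (fun k => k ≡ r [MOD q]), β k) ^ 2 ≤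
      100 * (1 + Real.log Q) * ((Q0 : ℝ) ^ 2 * Δ ^ 2 + B0 ^ 2 * N * ((N : ℝ) / Q0 + Q))

/-- Abel summation with an antitone weight -/
lemma abel_anti (K K2 : ℕ) (hK : K ≤ K2) (c h : ℕ → ℝ) (D : ℝ) (hh0 : ∀ k, 0 ≤ h k) (hh1 : ∀ k, h k ≤ 1)
    (hanti : ∀ k, h (k + 1) ≤ h k)
    (hD : ∀ u, K ≤ u → u ≤ K2 → |∑ k ∈ Ioc K u, c k| ≤ D) : |∑ k ∈ Ioc K K2, c k * h k| ≤ D := by
  have hD0 : 0 ≤ D := (abs_nonneg _).trans (hD K le_rfl hK)
  have key : ∀ u, K ≤ u → u ≤ K2 → |∑ k ∈ Ioc K u, c k * h k - h u * ∑ k ∈ Ioc K u, c k| ≤ D * (h K - h u) := by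
    intro u hu
    induction u, hu using Nat.le_induction with
    | base => intro _; simp
    | succ u hu ih =>
      intro hu2
      have ih' := ih (by omega)
      have h1 : Ioc K (u + 1) = insert (u + 1) (Ioc K u) := by
        ext x; simp only [mem_Ioc, mem_insert]; omega
      have h2 : (u + 1) ∉ Ioc K u := by simp
      rw [h1, sum_insert h2, sum_insert h2]
      have h3 : c (u + 1) * h (u + 1) + ∑ k ∈ Ioc K u, c k * h k - h (u + 1) * (c (u + 1) + ∑ k ∈ Ioc K u, c k) =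
          (∑ k ∈ Ioc K u, c k * h k - h u * ∑ k ∈ Ioc K u, c k) + (h u - h (u + 1)) * ∑ k ∈ Ioc K u, c k := by ring
      rw [h3]
      refine (abs_add_le _ _).trans ?_
      have h4 : |(h u - h (u + 1)) * ∑ k ∈ Ioc K u, c k| ≤ (h u - h (u + 1)) * D := by
        rw [abs_mul, abs_of_nonneg (sub_nonneg.2 (hanti u))]
        exact mul_le_mul_of_nonneg_left (hD u hu (by omega)) (sub_nonneg.2 (hanti u))
      linarith
  have h5 := key K2 hK le_rfl
  have h6 := hD K2 hK le_rfl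
  have h7 : |h K2 * ∑ k ∈ Ioc K K2, c k| ≤ h K2 * D := by
    rw [abs_mul, abs_of_nonneg (hh0 _)]
    exact mul_le_mul_of_nonneg_left h6 (hh0 _)
  have h8 : ∑ k ∈ Ioc K K2, c k * h k = (∑ k ∈ Ioc K K2, c k * h k - h K2 * ∑ k ∈ Ioc K K2, c k) +
    h K2 * ∑ k ∈ Ioc K K2, c k := by ring
  rw [h8]
  refine (abs_add_le _ _).trans ?_
  have h9 : D * h K ≤ D * 1 := mul_le_mul_of_nonneg_left (hh1 _) hD0
  linarith

/-- summation with the weight `exp(-y²)`, `y` increasing -/
lemma abel_gauss (K K2 : ℕ) (hK : K ≤ K2) (c y : ℕ → ℝ) (D : ℝ) (hy : ∀ k, y k ≤ y (k + 1))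
    (hD : ∀ u, K ≤ u → u ≤ K2 → |∑ k ∈ Ioc K u, c k| ≤ D) :
    |∑ k ∈ Ioc K K2, c k * Real.exp (-(y k) ^ 2)| ≤ 4 * D := by
  have h1 : ∀ k, Real.exp (-(y k) ^ 2) = 1 - (1 - Real.exp (-(min (y k) 0) ^ 2)) + (Real.exp (-(max (y k) 0) ^ 2)) - 1 := by
    intro k
    rcases le_total (y k) 0 with h | h
    · rw [min_eq_left h, max_eq_right h]; simp
    · rw [min_eq_right h, max_eq_left h]; simp
  have h2 : ∑ k ∈ Ioc K K2, c k * Real.exp (-(y k) ^ 2) =
      -(∑ k ∈ Ioc K K2, c k * (1 - Real.exp (-(min (y k) 0) ^ 2))) +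
      ∑ k ∈ Ioc K K2, c k * Real.exp (-(max (y k) 0) ^ 2) := by
    rw [← sum_neg_distrib, ← sum_add_distrib]
    apply sum_congr rfl
    intro k _
    rw [h1 k]
    ring
  have h3 := abel_anti K K2 hK c (fun k => 1 - Real.exp (-(min (y k) 0) ^ 2)) D
    (fun k => by
      have : Real.exp (-(min (y k) 0) ^ 2) ≤ 1 := by
        rw [Real.exp_le_one_iff]; have := sq_nonneg (min (y k) 0); linarith
      linarith)
    (fun k => by have := Real.exp_pos (-(min (y k) 0) ^ 2); linarith)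
    (fun k => by
      have h4 : min (y k) 0 ≤ min (y (k + 1)) 0 := min_le_min_right _ (hy k)
      have h5 : min (y (k + 1)) 0 ≤ 0 := min_le_right _ _
      have h6 : (min (y (k + 1)) 0) ^ 2 ≤ (min (y k) 0) ^ 2 := by nlinarith
      have h7 : Real.exp (-(min (y k) 0) ^ 2) ≤ Real.exp (-(min (y (k + 1)) 0) ^ 2) :=
        Real.exp_le_exp.2 (by linarith)
      linarith) hD
  have h4 := abel_anti K K2 hK c (fun k => Real.exp (-(max (y k) 0) ^ 2)) D
    (fun k => (Real.exp_pos _).le)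
    (fun k => by
      rw [Real.exp_le_one_iff]; have := sq_nonneg (max (y k) 0); linarith)
    (fun k => by
      have h4 : max (y k) 0 ≤ max (y (k + 1)) 0 := max_le_max_right _ (hy k)
      have h5 : 0 ≤ max (y k) 0 := le_max_right _ _
      apply Real.exp_le_exp.2
      nlinarith) hD
  rw [h2]
  have hD0 : 0 ≤ D := (abs_nonneg _).trans (hD K le_rfl hK)
  refine (abs_add_le _ _).trans ?_
  rw [abs_neg]
  linarith

lemma gs_exp (a : ℤ) (L : ℝ) (M n k k' : ℕ) :
    gs L a M n k k' = Real.exp (-(L * ((√(k' : ℝ) - √(k : ℝ)) / (2 * √(a : ℝ) * n * √(M : ℝ)) - 1)) ^ 2) := rfl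

open Classical in
/-- the inner sum over `k'` -/
lemma inner_k' {a b : ℤ} {K K2 M n k : ℕ} {L D : ℝ} (hK : K ≤ K2) (hL : 0 ≤ L) (β : ℕ → ℝ)
    (hD : ∀ u, K ≤ u → u ≤ K2 → |∑ k' ∈ Ioc K u, (if cls a b n k k' then β k' else 0)| ≤ D) :
    |∑ k' ∈ Ioc K K2, (if cls a b n k k' then β k' else 0) * gs L a M n k k'| ≤ 4 * D := by
  apply abel_gauss K K2 hK _ (fun k' => L * ((√(k' : ℝ) - √(k : ℝ)) / (2 * √(a : ℝ) * n * √(M : ℝ)) - 1)) D _ hD
  intro k'
  apply mul_le_mul_of_nonneg_left _ hL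
  have h1 : √(k' : ℝ) ≤ √((k' + 1 : ℕ) : ℝ) := Real.sqrt_le_sqrt (by push_cast; linarith)
  have h2 : (√(k' : ℝ) - √(k : ℝ)) / (2 * √(a : ℝ) * n * √(M : ℝ)) ≤
      (√((k' + 1 : ℕ) : ℝ) - √(k : ℝ)) / (2 * √(a : ℝ) * n * √(M : ℝ)) := by
    apply div_le_div_of_nonneg_right _ (by positivity)
    linarith
  linarith

/-- number of elements of a class in an interval -/
lemma card_class (A B q r : ℕ) (hq : 1 ≤ q) (hAB : A ≤ B) :
    |(#((Ioc A B).filter (fun k => k ≡ r [MOD q])) : ℝ) - ((B : ℝ) - A) / q| ≤ 1 := by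
  have h1 := Nat.Ioc_filter_modEq_card A B (r := q) (by omega) r
  have hqQ : (0 : ℚ) < q := by exact_mod_cast hq
  have h2 : ((A : ℚ) - r) / q ≤ ((B : ℚ) - r) / q := by
    have : (A : ℚ) ≤ B := by exact_mod_cast hAB
    gcongr
  rw [max_eq_left (sub_nonneg.2 (Int.floor_le_floor h2))] at h1
  have h3 := Int.floor_le (((B : ℚ) - r) / q)
  have h4 := Int.lt_floor_add_one (((B : ℚ) - r) / q)
  have h5 := Int.floor_le (((A : ℚ) - r) / q)
  have h6 := Int.lt_floor_add_one (((A : ℚ) - r) / q)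
  have h7 : (#((Ioc A B).filter (fun k => k ≡ r [MOD q])) : ℚ) = ⌊((B : ℚ) - r) / q⌋ - ⌊((A : ℚ) - r) / q⌋ := by
    exact_mod_cast h1
  have h8 : |(#((Ioc A B).filter (fun k => k ≡ r [MOD q])) : ℚ) - ((B : ℚ) - A) / q| ≤ 1 := by
    rw [h7, abs_le]
    have h9 : ((B : ℚ) - A) / q = ((B : ℚ) - r) / q - ((A : ℚ) - r) / q := by ring
    rw [h9]
    constructor <;> linarith
  have h10 : ((|(#((Ioc A B).filter (fun k => k ≡ r [MOD q])) : ℚ) - ((B : ℚ) - A) / q| : ℚ) : ℝ) ≤ ((1 : ℚ) : ℝ) :=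
    Rat.cast_le.2 h8
  push_cast at h10
  exact h10

/-- sums over the classes in `Ioc K u` -/
noncomputable def Bu (K : ℕ) (β : ℕ → ℝ) (q u r : ℕ) : ℝ := ∑ k ∈ (Ioc K u).filter (fun k => k ≡ r [MOD q]), β k

/-- the class of `k'` which belongs to `k` -/
def sc (a b : ℤ) (n k : ℕ) : ℕ := (((k : ℤ) + 2 * n * b) % (md a n : ℤ)).toNat

lemma sc_lt {a b : ℤ} {n k : ℕ} (ha : 0 < a) (hn : 1 ≤ n) : sc a b n k < md a n := by
  have h0 : (0 : ℤ) < md a n := by exact_mod_cast md_pos ha hn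
  have h1 := Int.emod_nonneg ((k : ℤ) + 2 * n * b) h0.ne'
  have h2 := Int.emod_lt_of_pos ((k : ℤ) + 2 * n * b) h0
  unfold sc
  omega

lemma sc_cast {a b : ℤ} {n k : ℕ} (ha : 0 < a) (hn : 1 ≤ n) :
    ((sc a b n k : ℕ) : ℤ) ≡ (k : ℤ) + 2 * n * b [ZMOD (md a n : ℤ)] := by
  have h0 : (0 : ℤ) < md a n := by exact_mod_cast md_pos ha hn
  have h1 := Int.emod_nonneg ((k : ℤ) + 2 * n * b) h0.ne'
  unfold sc
  rw [Int.toNat_of_nonneg h1]
  exact Int.mod_modEq _ _

lemma cls_sc {a b : ℤ} {n k k' : ℕ} (ha : 0 < a) (hn : 1 ≤ n) :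
    cls a b n k k' ↔ k' ≡ sc a b n k [MOD md a n] := by
  have h1 := sc_cast (b := b) (k := k) ha hn
  unfold cls
  rw [← Int.natCast_modEq_iff, ← md_cast ha]
  constructor
  · intro h
    have h2 : (k : ℤ) + 2 * n * b ≡ k' [ZMOD (md a n : ℤ)] := by
      rw [Int.modEq_iff_dvd]
      have : (k' : ℤ) - (k + 2 * n * b) = k' - k - 2 * n * b := by ring
      rw [this]
      exact h
    exact (h1.trans h2).symm
  · intro h
    have h2 := (h.trans h1).symm.dvd
    have : (k' : ℤ) - (k + 2 * n * b) = k' - k - 2 * n * b := by ring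
    rw [this] at h2
    exact h2

lemma sc_inj {a b : ℤ} {n k k₁ : ℕ} (ha : 0 < a) (hn : 1 ≤ n) (h : sc a b n k = sc a b n k₁) :
    k ≡ k₁ [MOD md a n] := by
  have h1 := sc_cast (b := b) (k := k) ha hn
  have h2 := sc_cast (b := b) (k := k₁) ha hn
  rw [h] at h1
  have h3 := h1.symm.trans h2
  have h4 := h3.add_right (-(2 * n * b))
  rw [← Int.natCast_modEq_iff]
  convert h4 using 1 <;> ring

open Classical in
/-- **the sum over the frequency `h = 0`** -/
theorem h0_bound (hls : LSCP) {a b : ℤ} {K K2 M E Q0 l I : ℕ} {L B0 Δ : ℝ} (ha : 0 < a) (hK : K ≤ K2) (hK2 : K2 ≤ 2 * K)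
    (hE : 1 ≤ E) (hEK : md a E ≤ K) (hQ0 : 1 ≤ Q0) (hQ0E : Q0 ≤ md a E) (hL : 0 ≤ L) (hB0 : 0 ≤ B0)
    (hI : K ≤ I * l) (hl : 1 ≤ l) (β : ℕ → ℝ) (hβ : ∀ k, |β k| ≤ B0)
    (hΔ : ∀ u, K ≤ u → u ≤ K2 → ∀ q ∈ Icc 1 Q0, ∀ r : ℕ, |∑ k ∈ (Ioc K u).filter (fun k => k ≡ r [MOD q]), β k| ≤ Δ) :
    ∑ n ∈ Icc 1 E, |∑ k ∈ Ioc K K2, ∑ k' ∈ Ioc K K2, (if cls a b n k k' then β k * β k' * gs L a M n k k' else 0)| ≤
      8 * B0 * K * ((I + 1) * (√(1 + Real.log E) * √(100 * (1 + Real.log (md a E)) * ((Q0 : ℝ) ^ 2 * Δ ^ 2 +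
        B0 ^ 2 * (2 * K : ℕ) * (((2 * K : ℕ) : ℝ) / Q0 + md a E)))) + B0 * (l * (1 + Real.log E) + E)) := by
  set LS := 100 * (1 + Real.log (md a E)) * ((Q0 : ℝ) ^ 2 * Δ ^ 2 +
        B0 ^ 2 * (2 * K : ℕ) * (((2 * K : ℕ) : ℝ) / Q0 + md a E)) with hLS
  have hK1 : 1 ≤ K := (hQ0.trans hQ0E).trans hEK
  have hKR : (1 : ℝ) ≤ K := by exact_mod_cast hK1
  set uu : ℕ → ℕ := fun i => min (K + i * l) K2 with huu
  have huuK : ∀ i, K ≤ uu i ∧ uu i ≤ K2 := fun i => ⟨le_min (by omega) hK, min_le_right _ _⟩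
  have hmdmono : ∀ n ∈ Icc 1 E, md a n ≤ md a E := by
    intro n hn
    unfold md
    exact Nat.mul_le_mul_left _ (mem_Icc.1 hn).2
  -- the large sieve
  have hS : ∀ i, ∑ n ∈ Icc 1 E, ∑ r ∈ range (md a n), (Bu K β (md a n) (uu i) r) ^ 2 ≤ LS := by
    intro i
    have h1 := hls (2 * K) (md a E) Q0 (fun k => if k ∈ Ioc K (uu i) then β k else 0) Δ B0 hQ0 hQ0E
      (by omega) (fun k => by
        by_cases hc : k ∈ Ioc K (uu i)
        · rw [if_pos hc]; exact hβ k
        · rw [if_neg hc, abs_zero]; exact hB0) ?_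
    · have h2 : ∀ q r : ℕ, ∑ k ∈ (Icc 1 (2 * K)).filter (fun k => k ≡ r [MOD q]), (if k ∈ Ioc K (uu i) then β k else 0) =
          Bu K β q (uu i) r := by
        intro q r
        unfold Bu
        rw [← sum_filter]
        apply sum_congr _ (fun _ _ => rfl)
        ext k
        simp only [mem_filter, mem_Icc, mem_Ioc]
        have := (huuK i).2
        constructor
        · rintro ⟨⟨_, h3⟩, h4⟩; exact ⟨h4, h3⟩
        · rintro ⟨h3, h4⟩; exact ⟨⟨⟨by omega, by omega⟩, h4⟩, h3⟩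
      simp only [h2] at h1
      refine le_trans ?_ h1
      have h3 : ∑ n ∈ Icc 1 E, ∑ r ∈ range (md a n), (Bu K β (md a n) (uu i) r) ^ 2 =
          ∑ q ∈ (Icc 1 E).image (md a), ∑ r ∈ range q, (Bu K β q (uu i) r) ^ 2 := by
        rw [sum_image]
        intro x hx y hy hxy
        unfold md at hxy
        have h4 : 0 < 4 * a.toNat := by omega
        exact Nat.eq_of_mul_eq_mul_left h4 hxy
      rw [h3]
      apply sum_le_sum_of_subset_of_nonneg
      · intro q hq
        rw [mem_image] at hq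
        obtain ⟨n, hn, rfl⟩ := hq
        rw [mem_Icc]
        exact ⟨md_pos ha (mem_Icc.1 hn).1, hmdmono n hn⟩
      · intro _ _ _
        exact sum_nonneg fun _ _ => sq_nonneg _
    · intro q hq r
      have h2 : ∑ k ∈ (Icc 1 (2 * K)).filter (fun k => k ≡ r [MOD q]), (if k ∈ Ioc K (uu i) then β k else 0) =
          ∑ k ∈ (Ioc K (uu i)).filter (fun k => k ≡ r [MOD q]), β k := by
        rw [← sum_filter]
        apply sum_congr _ (fun _ _ => rfl)
        ext k
        simp only [mem_filter, mem_Icc, mem_Ioc]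
        have := (huuK i).2
        constructor
        · rintro ⟨⟨_, h3⟩, h4⟩; exact ⟨h4, h3⟩
        · rintro ⟨h3, h4⟩; exact ⟨⟨⟨by omega, by omega⟩, h4⟩, h3⟩
      rw [h2]
      exact hΔ _ (huuK i).1 (huuK i).2 q hq r
  -- the bound for one `n`
  have hone : ∀ n ∈ Icc 1 E, |∑ k ∈ Ioc K K2, ∑ k' ∈ Ioc K K2, (if cls a b n k k' then β k * β k' * gs L a M n k k' else 0)| ≤
      8 * B0 * K * (∑ i ∈ range (I + 1), √(1 / (md a n : ℝ)) * √(∑ r ∈ range (md a n), (Bu K β (md a n) (uu i) r) ^ 2) +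
        B0 * ((l : ℝ) / md a n + 1)) := by
    intro n hn
    have hn1 := (mem_Icc.1 hn).1
    have hq1 := md_pos ha hn1
    have hqK : md a n ≤ K := (hmdmono n hn).trans hEK
    set q := md a n with hq
    have hqR : (1 : ℝ) ≤ q := by exact_mod_cast hq1
    have hqKR : (q : ℝ) ≤ K := by exact_mod_cast hqK
    set G : ℕ → ℝ := fun r => ∑ i ∈ range (I + 1), |Bu K β q (uu i) r| + B0 * ((l : ℝ) / q + 1) with hG
    have hG0 : ∀ r, 0 ≤ G r := fun r => by
      have : 0 ≤ ∑ i ∈ range (I + 1), |Bu K β q (uu i) r| := sum_nonneg fun _ _ => abs_nonneg _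
      have : 0 ≤ B0 * ((l : ℝ) / q + 1) := by positivity
      simp only [hG]; linarith
    have hsup : ∀ k, ∀ u, K ≤ u → u ≤ K2 → |∑ k' ∈ Ioc K u, (if cls a b n k k' then β k' else 0)| ≤ G (sc a b n k) := by
      intro k u hu hu2
      have h1 : ∑ k' ∈ Ioc K u, (if cls a b n k k' then β k' else 0) = Bu K β q u (sc a b n k) := by
        unfold Bu
        rw [sum_filter]
        apply sum_congr rfl
        intro k' _
        have := cls_sc (a := a) (b := b) (n := n) (k := k) (k' := k') ha hn1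
        simp only [this, hq]
      rw [h1]
      -- the grid point below `u`
      set i := (u - K) / l with hi
      have hil : i * l ≤ u - K := Nat.div_mul_le_self _ _
      have hil2 : u - K < i * l + l := by
        have := Nat.lt_div_mul_add (a := u - K) (b := l) (by omega)
        rw [← hi] at this
        exact this
      have hiI : i ∈ range (I + 1) := by
        rw [mem_range]
        have h2 : u - K ≤ I * l := by omega
        have h3 : i ≤ I := by
          rw [hi]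
          exact Nat.div_le_of_le_mul (by rw [mul_comm]; exact h2)
        omega
      have hui : uu i = K + i * l := min_eq_left (by omega)
      have hle : uu i ≤ u := by rw [hui]; omega
      have h3 : Bu K β q u (sc a b n k) = Bu K β q (uu i) (sc a b n k) +
          ∑ k' ∈ (Ioc (uu i) u).filter (fun k' => k' ≡ sc a b n k [MOD q]), β k' := by
        unfold Bu
        rw [← sum_union]
        · apply sum_congr _ (fun _ _ => rfl)
          rw [← filter_union, Ioc_union_Ioc_eq_Ioc (huuK i).1 hle]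
        · apply disjoint_filter_filter
          exact Ioc_disjoint_Ioc_of_le le_rfl
      rw [h3]
      have h4 : |∑ k' ∈ (Ioc (uu i) u).filter (fun k' => k' ≡ sc a b n k [MOD q]), β k'| ≤ B0 * ((l : ℝ) / q + 1) := by
        refine (abs_sum_le_sum_abs _ _).trans ?_
        refine (sum_le_sum fun k' _ => hβ k').trans ?_
        rw [sum_const, nsmul_eq_mul, mul_comm]
        apply mul_le_mul_of_nonneg_left _ hB0
        have h5 := (abs_le.1 (card_class (uu i) u q (sc a b n k) hq1 hle)).2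
        have h6 : ((u : ℝ) - uu i) / q ≤ (l : ℝ) / q := by
          apply div_le_div_of_nonneg_right _ (by linarith)
          rw [hui]
          have : u ≤ K + i * l + l := by omega
          have : (u : ℝ) ≤ ((K + i * l : ℕ) : ℝ) + l := by exact_mod_cast this
          linarith
        linarith
      have h5 : |Bu K β q (uu i) (sc a b n k)| ≤ ∑ i ∈ range (I + 1), |Bu K β q (uu i) (sc a b n k)| :=
        single_le_sum (f := fun i => |Bu K β q (uu i) (sc a b n k)|) (fun _ _ => abs_nonneg _) hiI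
      refine (abs_add_le _ _).trans ?_
      simp only [hG]
      linarith
    -- sum over `k`
    have hk1 : ∀ k ∈ Ioc K K2, |∑ k' ∈ Ioc K K2, (if cls a b n k k' then β k * β k' * gs L a M n k k' else 0)| ≤
        B0 * (4 * G (sc a b n k)) := by
      intro k _
      have h1 := inner_k' (a := a) (b := b) (M := M) (n := n) (k := k) hK hL β (hsup k)
      have h2 : ∑ k' ∈ Ioc K K2, (if cls a b n k k' then β k * β k' * gs L a M n k k' else 0) =
          β k * ∑ k' ∈ Ioc K K2, (if cls a b n k k' then β k' else 0) * gs L a M n k k' := by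
        rw [mul_sum]
        apply sum_congr rfl
        intro k' _
        split_ifs
        · ring
        · simp
      rw [h2, abs_mul]
      exact mul_le_mul (hβ k) h1 (abs_nonneg _) hB0
    have hk2 : ∑ k ∈ Ioc K K2, G (sc a b n k) ≤ (2 * K / q) * ∑ r ∈ range q, G r := by
      rw [← sum_fiberwise_of_maps_to (s := Ioc K K2) (t := range q) (g := fun k => sc a b n k)
        (fun k _ => mem_range.2 (sc_lt ha hn1)), mul_sum]
      apply sum_le_sum
      intro r _
      have h1 : ∑ k ∈ (Ioc K K2).filter (fun k => sc a b n k = r), G (sc a b n k) =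
          ∑ k ∈ (Ioc K K2).filter (fun k => sc a b n k = r), G r := by
        apply sum_congr rfl
        intro k hk
        rw [(mem_filter.1 hk).2]
      rw [h1, sum_const, nsmul_eq_mul]
      apply mul_le_mul_of_nonneg_right _ (hG0 r)
      rcases ((Ioc K K2).filter (fun k => sc a b n k = r)).eq_empty_or_nonempty with hemp | ⟨k0, hk0⟩
      · rw [hemp, card_empty, Nat.cast_zero]; positivity
      · have h2 : (Ioc K K2).filter (fun k => sc a b n k = r) ⊆ (Ioc K K2).filter (fun k => k ≡ k0 [MOD q]) := by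
          intro k hk
          rw [mem_filter] at hk hk0 ⊢
          exact ⟨hk.1, sc_inj ha hn1 (hk.2.trans hk0.2.symm)⟩
        have h3 : (#((Ioc K K2).filter (fun k => sc a b n k = r)) : ℝ) ≤ #((Ioc K K2).filter (fun k => k ≡ k0 [MOD q])) := by
          exact_mod_cast card_le_card h2
        have h4 := (abs_le.1 (card_class K K2 q k0 hq1 hK)).2
        have h5 : ((K2 : ℝ) - K) / q ≤ K / q := by
          apply div_le_div_of_nonneg_right _ (by linarith)
          have : (K2 : ℝ) ≤ 2 * K := by exact_mod_cast hK2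
          linarith
        have h6 : (1 : ℝ) ≤ K / q := by rw [le_div_iff₀ (by linarith)]; linarith
        have h7 : 2 * (K : ℝ) / q = K / q + K / q := by ring
        linarith
    -- sum over `r`
    have hk3 : (1 / (q : ℝ)) * ∑ r ∈ range q, G r ≤ ∑ i ∈ range (I + 1), √(1 / (q : ℝ)) * √(∑ r ∈ range q, (Bu K β q (uu i) r) ^ 2) +
        B0 * ((l : ℝ) / q + 1) := by
      simp only [hG]
      rw [sum_add_distrib, sum_const, card_range, nsmul_eq_mul, mul_add]
      have h1 : 1 / (q : ℝ) * (q * (B0 * ((l : ℝ) / q + 1))) = B0 * ((l : ℝ) / q + 1) := by field_simp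
      rw [h1, sum_comm, mul_sum]
      apply add_le_add_left
      apply sum_le_sum
      intro i _
      have h2 : (∑ r ∈ range q, |Bu K β q (uu i) r|) ^ 2 ≤ q * ∑ r ∈ range q, (Bu K β q (uu i) r) ^ 2 := by
        have := sq_sum_le_card_mul_sum_sq (s := range q) (f := fun r => |Bu K β q (uu i) r|)
        rw [card_range] at this
        simpa only [sq_abs] using this
      have h3 : 0 ≤ ∑ r ∈ range q, (Bu K β q (uu i) r) ^ 2 := sum_nonneg fun _ _ => sq_nonneg _
      rw [← Real.sqrt_mul (by positivity)]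
      apply Real.le_sqrt_of_sq_le
      rw [mul_pow]
      calc (1 / (q : ℝ)) ^ 2 * (∑ r ∈ range q, |Bu K β q (uu i) r|) ^ 2 ≤
          (1 / (q : ℝ)) ^ 2 * (q * ∑ r ∈ range q, (Bu K β q (uu i) r) ^ 2) := by gcongr
        _ = _ := by field_simp
    calc |∑ k ∈ Ioc K K2, ∑ k' ∈ Ioc K K2, (if cls a b n k k' then β k * β k' * gs L a M n k k' else 0)| ≤
        ∑ k ∈ Ioc K K2, B0 * (4 * G (sc a b n k)) := (abs_sum_le_sum_abs _ _).trans (sum_le_sum hk1)
      _ = 4 * B0 * ∑ k ∈ Ioc K K2, G (sc a b n k) := by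
          rw [mul_sum]; apply sum_congr rfl; intro k _; ring
      _ ≤ 4 * B0 * ((2 * K / q) * ∑ r ∈ range q, G r) := by gcongr
      _ = 8 * B0 * K * ((1 / (q : ℝ)) * ∑ r ∈ range q, G r) := by ring
      _ ≤ _ := by gcongr
  refine (sum_le_sum hone).trans ?_
  rw [← mul_sum]
  apply mul_le_mul_of_nonneg_left _ (by positivity)
  rw [sum_add_distrib, sum_comm]
  have hinv : ∑ n ∈ Icc 1 E, 1 / (md a n : ℝ) ≤ 1 + Real.log E := by
    have h1 : ∑ n ∈ Icc 1 E, 1 / (md a n : ℝ) ≤ ∑ n ∈ Icc 1 E, ((n : ℝ))⁻¹ := by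
      apply sum_le_sum
      intro n hn
      have hn1 : (1 : ℝ) ≤ n := by exact_mod_cast (mem_Icc.1 hn).1
      have haR : (1 : ℝ) ≤ a := by exact_mod_cast ha
      rw [md_real ha, one_div]
      apply inv_anti₀ (by linarith)
      nlinarith
    refine h1.trans ?_
    have h2 := harmonic_le_one_add_log E
    rw [harmonic_eq_sum_Icc] at h2
    push_cast at h2
    exact h2
  apply add_le_add
  · have h1 : ∀ i ∈ range (I + 1), ∑ n ∈ Icc 1 E, √(1 / (md a n : ℝ)) * √(∑ r ∈ range (md a n), (Bu K β (md a n) (uu i) r) ^ 2) ≤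
        √(1 + Real.log E) * √LS := by
      intro i _
      refine (Real.sum_sqrt_mul_sqrt_le _ (fun n => by positivity) (fun n => sum_nonneg fun _ _ => sq_nonneg _)).trans ?_
      exact mul_le_mul (Real.sqrt_le_sqrt hinv) (Real.sqrt_le_sqrt (hS i)) (Real.sqrt_nonneg _) (Real.sqrt_nonneg _)
    refine (sum_le_sum h1).trans ?_
    rw [sum_const, card_range, nsmul_eq_mul]
    push_cast
    exact le_rfl
  · rw [← mul_sum]
    apply mul_le_mul_of_nonneg_left _ hB0
    rw [sum_add_distrib]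
    apply add_le_add
    · have : ∑ n ∈ Icc 1 E, (l : ℝ) / md a n = l * ∑ n ∈ Icc 1 E, 1 / (md a n : ℝ) := by
        rw [mul_sum]; apply sum_congr rfl; intro n _; ring
      rw [this]
      exact mul_le_mul_of_nonneg_left hinv (Nat.cast_nonneg _)
    · simp

end Pool.Agent.N792
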