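import Mathlib
import Pool.Agent.N792.TC2
import Pool.Agent.N792.TD

/-!
Cauchy's inequality and the expansion of the square (helper792).
-/

set_option autoImplicit false

namespace Pool.Agent.N792

open Finset

lemma fiber_sq {ι κ : Type*} [DecidableEq κ] (X : Finset ι) (Y : Finset κ) (f : ι → κ) (w : κ → ℝ) (b : ι → ℝ)
    (h : ∀ i ∈ X, w (f i) ≠ 0 → f i ∈ Y) :
    ∑ y ∈ Y, w y * (∑ i ∈ X.filter (fun i => f i = y), b i) ^ 2 =
      ∑ i ∈ X, ∑ j ∈ X, if f i = f j then w (f i) * (b i * b j) else 0 := by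
  have h1 : ∀ y, (∑ i ∈ X.filter (fun i => f i = y), b i) ^ 2 =
      ∑ i ∈ X, ∑ j ∈ X, (if f i = y then b i else 0) * (if f j = y then b j else 0) := by
    intro y
    rw [sum_filter, sq, sum_mul_sum]
  simp only [h1, mul_sum]
  rw [sum_comm]
  apply sum_congr rfl
  intro i hi
  rw [sum_comm]
  apply sum_congr rfl
  intro j hj
  by_cases hij : f i = f j
  · rw [if_pos hij]
    by_cases hY : f i ∈ Y
    · rw [sum_eq_single_of_mem (f i) hY]
      · simp [hij]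
      · intro y _ hy
        rw [if_neg (fun h => hy h.symm)]
        simp
    · have hw : w (f i) = 0 := by
        by_contra hw
        exact hY (h i hi hw)
      rw [hw, zero_mul]
      apply sum_eq_zero
      intro y hy
      have : f i ≠ y := fun h => hY (h ▸ hy)
      rw [if_neg this]
      simp
  · rw [if_neg hij]
    apply sum_eq_zero
    intro y _
    by_cases h2 : f i = y
    · have : f j ≠ y := fun h => hij (h2.trans h.symm)
      rw [if_neg this]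
      simp
    · rw [if_neg h2]
      simp

/-- reparametrization of the pairs `n < n'`, `n ≡ n' (mod 2m)` -/
lemma pairs_reparam (n0 N1 m : ℕ) (hm : 1 ≤ m) (f : ℕ → ℕ → ℝ) :
    ∑ n ∈ Icc n0 N1, ∑ n' ∈ Icc n0 N1, (if n < n' ∧ n % (2 * m) = n' % (2 * m) then f n n' else 0) =
      ∑ e ∈ Icc 1 N1, ∑ n ∈ (Icc n0 N1).filter (fun n => n + 2 * m * e ≤ N1), f n (n + 2 * m * e) := by
  have h1 : ∀ n ∈ Icc n0 N1, ∑ n' ∈ Icc n0 N1, (if n < n' ∧ n % (2 * m) = n' % (2 * m) then f n n' else 0) =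
      ∑ e ∈ Icc 1 N1, if n + 2 * m * e ≤ N1 then f n (n + 2 * m * e) else 0 := by
    intro n hn
    rw [mem_Icc] at hn
    rw [← sum_filter, ← sum_filter]
    symm
    apply sum_bij (fun e _ => n + 2 * m * e)
    · intro e he
      rw [mem_filter, mem_Icc] at he
      rw [mem_filter, mem_Icc]
      have : 0 < 2 * m * e := by
        have := he.1.1
        positivity
      refine ⟨⟨by omega, he.2⟩, by omega, ?_⟩
      rw [Nat.add_mul_mod_self_left]
    · intro e _ e' _ h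
      have h2 : 2 * m * e = 2 * m * e' := by omega
      exact Nat.eq_of_mul_eq_mul_left (by omega) h2
    · intro n' hn'
      rw [mem_filter, mem_Icc] at hn'
      obtain ⟨⟨_, h3⟩, h4, h5⟩ := hn'
      have h6 : 2 * m ∣ n' - n := (Nat.modEq_iff_dvd' h4.le).1 h5
      obtain ⟨e, he⟩ := h6
      have he1 : 1 ≤ e := by
        by_contra hc
        have : e = 0 := by omega
        rw [this] at he
        omega
      refine ⟨e, ?_, by omega⟩
      rw [mem_filter, mem_Icc]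
      have : e ≤ 2 * m * e := by nlinarith
      exact ⟨⟨he1, by omega⟩, by omega⟩
    · intro _ _; rfl
  rw [sum_congr rfl h1, sum_comm]
  apply sum_congr rfl
  intro e _
  rw [sum_filter]

/-- the inner sum over `n` and `k` -/
noncomputable def Sg (a b : ℤ) (β : ℕ → ℝ) (n0 N1 K K2 : ℕ) (c : ℤ) (m : ℕ) : ℝ :=
  ∑ n ∈ Icc n0 N1, ∑ k ∈ Ioc K K2, if cv a b m k n = c then β k else 0

/-- the inner sum in a class modulo `2 m` -/
noncomputable def Sv (a b : ℤ) (β : ℕ → ℝ) (n0 N1 K K2 : ℕ) (c : ℤ) (m v : ℕ) : ℝ :=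
  ∑ i ∈ (Icc n0 N1 ×ˢ Ioc K K2).filter (fun i => (cv a b m i.2 i.1, i.1 % (2 * m)) = (c, v)), β i.2

lemma Sg_eq (a b : ℤ) (β : ℕ → ℝ) (n0 N1 K K2 : ℕ) (c : ℤ) (m : ℕ) (hm : 1 ≤ m) :
    Sg a b β n0 N1 K K2 c m = ∑ v ∈ range (2 * m), Sv a b β n0 N1 K K2 c m v := by
  unfold Sg Sv
  have h1 : ∑ n ∈ Icc n0 N1, ∑ k ∈ Ioc K K2, (if cv a b m k n = c then β k else 0) =
      ∑ i ∈ (Icc n0 N1 ×ˢ Ioc K K2).filter (fun i => cv a b m i.2 i.1 = c), β i.2 := by
    rw [sum_filter, sum_product]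
  rw [h1, ← sum_fiberwise_of_maps_to (s := (Icc n0 N1 ×ˢ Ioc K K2).filter (fun i => cv a b m i.2 i.1 = c))
    (t := range (2 * m)) (g := fun i => i.1 % (2 * m)) (fun i _ => mem_range.2 (Nat.mod_lt _ (by omega)))]
  apply sum_congr rfl
  intro v _
  apply sum_congr _ (fun _ _ => rfl)
  rw [filter_filter]
  apply filter_congr
  intro i _
  simp [Prod.ext_iff]

/-- a nonzero `Sv` forces a root -/
lemma Sv_ne {a b : ℤ} {β : ℕ → ℝ} {n0 N1 K K2 : ℕ} {c : ℤ} {m v : ℕ} (h : Sv a b β n0 N1 K K2 c m v ≠ 0) :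
    (m : ℤ) ∣ fv a b c v := by
  unfold Sv at h
  obtain ⟨i, hi, _⟩ := exists_ne_zero_of_sum_ne_zero h
  rw [mem_filter, Prod.mk.injEq] at hi
  obtain ⟨_, h1, h2⟩ := hi
  unfold cv at h1
  have h3 : ((i.1 : ℕ) : ℤ) ≡ v [ZMOD (m : ℤ)] := by
    rw [Int.natCast_modEq_iff]
    have h4 : i.1 ≡ v [MOD (2 * m)] := by
      rw [← h2]
      exact (Nat.mod_modEq _ _).symm
    exact h4.of_mul_left 2
  have h5 : fv a b c v ≡ fv a b c i.1 [ZMOD (m : ℤ)] := by
    unfold fv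
    have h6 := h3.symm
    exact (((h6.pow 2).mul_left a).add (h6.mul_left b)).add_right c
  have h7 : fv a b c i.1 = m * i.2 := by
    unfold fv
    linarith
  have h8 := h5.dvd
  rw [h7] at h8
  have h9 := dvd_sub (dvd_mul_right (m : ℤ) (i.2 : ℤ)) h8
  rw [sub_sub_cancel] at h9
  exact h9

/-- the number of the triples `(c, m, ν)` -/
lemma count_roots (a b : ℤ) (C M M2 : ℕ) (hM : 1 ≤ M) (hM2 : M2 ≤ C) :
    ∑ c ∈ Icc 1 C, ∑ m ∈ Ioc M M2, ∑ v ∈ range (2 * m), (if (m : ℤ) ∣ fv a b c v then (1 : ℝ) else 0) ≤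
      4 * C * (M2 - M : ℕ) := by
  rw [sum_comm]
  have h1 : ∀ m ∈ Ioc M M2, ∑ c ∈ Icc 1 C, ∑ v ∈ range (2 * m), (if (m : ℤ) ∣ fv a b (c : ℕ) v then (1 : ℝ) else 0) ≤ 4 * C := by
    intro m hm
    rw [mem_Ioc] at hm
    have hm0 : 0 < m := by omega
    have hmR : (0 : ℝ) < m := by exact_mod_cast hm0
    have hmC : (m : ℝ) ≤ C := by exact_mod_cast hm.2.trans hM2
    rw [sum_comm]
    have h2 : ∀ v ∈ range (2 * m), ∑ c ∈ Icc 1 C, (if (m : ℤ) ∣ fv a b (c : ℕ) v then (1 : ℝ) else 0) ≤ 2 * C / m := by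
      intro v _
      rw [← sum_filter, sum_const, nsmul_eq_mul, mul_one]
      rcases ((Icc 1 C).filter (fun c : ℕ => (m : ℤ) ∣ fv a b c v)).eq_empty_or_nonempty with hemp | ⟨c0, hc0⟩
      · rw [hemp]
        simp only [card_empty, Nat.cast_zero]
        positivity
      · have h3 : (Icc 1 C).filter (fun c : ℕ => (m : ℤ) ∣ fv a b c v) ⊆ (Ioc 0 C).filter (fun k => k ≡ c0 [MOD m]) := by
          intro c hc
          rw [mem_filter, mem_Icc] at hc hc0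
          rw [mem_filter, mem_Ioc]
          refine ⟨⟨by omega, hc.1.2⟩, ?_⟩
          rw [← Int.natCast_modEq_iff, Int.modEq_iff_dvd]
          have h4 := dvd_sub hc0.2 hc.2
          unfold fv at h4
          have : (c0 : ℤ) - c = a * (v : ℤ) ^ 2 + b * v + c0 - (a * (v : ℤ) ^ 2 + b * v + c) := by ring
          rw [this]
          exact h4
        have h4 : (#((Icc 1 C).filter (fun c : ℕ => (m : ℤ) ∣ fv a b c v)) : ℝ) ≤ #((Ioc 0 C).filter (fun k => k ≡ c0 [MOD m])) := by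
          exact_mod_cast card_le_card h3
        have h5 := (abs_le.1 (card_class 0 C m c0 hm0 (Nat.zero_le _))).2
        have h6 : (1 : ℝ) ≤ C / m := by rw [le_div_iff₀ hmR]; linarith
        have h7 : 2 * (C : ℝ) / m = C / m + C / m := by ring
        simp only [Nat.cast_zero, sub_zero] at h5
        linarith
    refine (sum_le_sum h2).trans ?_
    rw [sum_const, card_range, nsmul_eq_mul]
    push_cast
    apply le_of_eq
    field_simp
    ring
  refine (sum_le_sum h1).trans ?_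
  rw [sum_const, Nat.card_Ioc, nsmul_eq_mul]
  apply le_of_eq
  ring

/-- the quadratic form -/
noncomputable def TT (a b : ℤ) (β : ℕ → ℝ) (L : ℝ) (C M m1 m2 n0 N1 K K2 : ℕ) : ℝ :=
  ∑ m ∈ Icc m1 m2, gw L M m * ∑ c ∈ Icc (-(C : ℤ)) (2 * C), ∑ v ∈ range (2 * m),
    Ph ((c : ℝ) / C) * (Sv a b β n0 N1 K K2 c m v) ^ 2

/-- **Cauchy's inequality** -/
theorem cauchy_step {a b : ℤ} {β : ℕ → ℝ} {L : ℝ} {C M M2 m1 m2 n0 N1 K K2 : ℕ} (hM : 1 ≤ M) (hM2 : M2 ≤ C)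
    (hC : 1 ≤ C) (hm1 : m1 ≤ M) (hm2 : M2 ≤ m2) (hg : ∀ m ∈ Ioc M M2, 1 / 2 ≤ gw L M m) :
    (∑ c ∈ Icc 1 C, ∑ m ∈ Ioc M M2, |Sg a b β n0 N1 K K2 (c : ℕ) m|) ^ 2 ≤
      8 * C * (M2 - M : ℕ) * TT a b β L C M m1 m2 n0 N1 K K2 := by
  have hCR : (1 : ℝ) ≤ C := by exact_mod_cast hC
  have h1 : ∑ c ∈ Icc 1 C, ∑ m ∈ Ioc M M2, |Sg a b β n0 N1 K K2 (c : ℕ) m| ≤
      ∑ c ∈ Icc 1 C, ∑ m ∈ Ioc M M2, ∑ v ∈ range (2 * m), (if (m : ℤ) ∣ fv a b (c : ℕ) v then (1 : ℝ) else 0) *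
        |Sv a b β n0 N1 K K2 (c : ℕ) m v| := by
    apply sum_le_sum
    intro c _
    apply sum_le_sum
    intro m hm
    rw [mem_Ioc] at hm
    rw [Sg_eq a b β n0 N1 K K2 c m (by omega)]
    refine (abs_sum_le_sum_abs _ _).trans ?_
    apply sum_le_sum
    intro v _
    by_cases h : Sv a b β n0 N1 K K2 (c : ℕ) m v = 0
    · rw [h]; simp
    · rw [if_pos (Sv_ne h), one_mul]
  have h0 : 0 ≤ ∑ c ∈ Icc 1 C, ∑ m ∈ Ioc M M2, |Sg a b β n0 N1 K K2 (c : ℕ) m| :=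
    sum_nonneg fun _ _ => sum_nonneg fun _ _ => abs_nonneg _
  refine (pow_le_pow_left₀ h0 h1 2).trans ?_
  -- as sums over sigma types
  set X : Finset (Σ _ : ℕ, Σ _ : ℕ, ℕ) := (Icc 1 C).sigma fun _ => (Ioc M M2).sigma fun m => range (2 * m) with hX
  have h2 : ∀ g : ℕ → ℕ → ℕ → ℝ, ∑ c ∈ Icc 1 C, ∑ m ∈ Ioc M M2, ∑ v ∈ range (2 * m), g c m v =
      ∑ i ∈ X, g i.1 i.2.1 i.2.2 := by
    intro g
    rw [hX, sum_sigma]
    apply sum_congr rfl
    intro c _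
    rw [sum_sigma]
  rw [h2]
  refine (sum_mul_sq_le_sq_mul_sq _ _ _).trans ?_
  have h3 : ∑ i ∈ X, (if ((i.2.1 : ℕ) : ℤ) ∣ fv a b (i.1 : ℕ) i.2.2 then (1 : ℝ) else 0) ^ 2 ≤ 4 * C * (M2 - M : ℕ) := by
    have h4 := count_roots a b C M M2 hM hM2
    rw [h2 (fun c m v => if (m : ℤ) ∣ fv a b (c : ℕ) v then (1 : ℝ) else 0)] at h4
    refine le_trans (le_of_eq ?_) h4
    apply sum_congr rfl
    intro i _
    split_ifs <;> simp
  have h5 : ∑ i ∈ X, |Sv a b β n0 N1 K K2 (i.1 : ℕ) i.2.1 i.2.2| ^ 2 ≤ 2 * TT a b β L C M m1 m2 n0 N1 K K2 := by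
    rw [← h2 (fun c m v => |Sv a b β n0 N1 K K2 (c : ℕ) m v| ^ 2)]
    unfold TT
    rw [sum_comm, mul_sum]
    have h6 : ∑ m ∈ Ioc M M2, ∑ c ∈ Icc 1 C, ∑ v ∈ range (2 * m), |Sv a b β n0 N1 K K2 (c : ℕ) m v| ^ 2 ≤
        ∑ m ∈ Ioc M M2, 2 * (gw L M m * ∑ c ∈ Icc (-(C : ℤ)) (2 * C), ∑ v ∈ range (2 * m),
          Ph ((c : ℝ) / C) * (Sv a b β n0 N1 K K2 c m v) ^ 2) := by
      apply sum_le_sum
      intro m hm
      have h7 : ∑ c ∈ Icc 1 C, ∑ v ∈ range (2 * m), |Sv a b β n0 N1 K K2 (c : ℕ) m v| ^ 2 ≤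
          ∑ c ∈ Icc (-(C : ℤ)) (2 * C), ∑ v ∈ range (2 * m), Ph ((c : ℝ) / C) * (Sv a b β n0 N1 K K2 c m v) ^ 2 := by
        have h8 : ∑ c ∈ Icc 1 C, ∑ v ∈ range (2 * m), |Sv a b β n0 N1 K K2 (c : ℕ) m v| ^ 2 =
            ∑ c ∈ (Icc 1 C).image (fun c : ℕ => (c : ℤ)), ∑ v ∈ range (2 * m), |Sv a b β n0 N1 K K2 c m v| ^ 2 := by
          rw [sum_image (fun x _ y _ h => by exact_mod_cast h)]
        rw [h8]
        have h9 : (Icc 1 C).image (fun c : ℕ => (c : ℤ)) ⊆ Icc (-(C : ℤ)) (2 * C) := by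
          intro c hc
          rw [mem_image] at hc
          obtain ⟨c', hc', rfl⟩ := hc
          rw [mem_Icc] at hc' ⊢
          omega
        refine le_trans (sum_le_sum ?_) (sum_le_sum_of_subset_of_nonneg h9 ?_)
        · intro c hc
          rw [mem_image] at hc
          obtain ⟨c', hc', rfl⟩ := hc
          rw [mem_Icc] at hc'
          apply sum_le_sum
          intro v _
          rw [sq_abs]
          have h10 : 1 ≤ Ph ((((c' : ℕ) : ℤ) : ℝ) / C) := by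
            apply Ph_ge_one
            · positivity
            · rw [div_le_one (by linarith)]
              have : (c' : ℝ) ≤ C := by exact_mod_cast hc'.2
              exact_mod_cast this
          have h11 := sq_nonneg (Sv a b β n0 N1 K K2 (((c' : ℕ) : ℤ)) m v)
          nlinarith
        · intro c _ _
          exact sum_nonneg fun v _ => mul_nonneg (Ph_nonneg _) (sq_nonneg _)
      have h12 := hg m hm
      have h13 : 0 ≤ ∑ c ∈ Icc (-(C : ℤ)) (2 * C), ∑ v ∈ range (2 * m),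
          Ph ((c : ℝ) / C) * (Sv a b β n0 N1 K K2 c m v) ^ 2 :=
        sum_nonneg fun c _ => sum_nonneg fun v _ => mul_nonneg (Ph_nonneg _) (sq_nonneg _)
      nlinarith
    refine h6.trans ?_
    apply sum_le_sum_of_subset_of_nonneg
    · intro m hm
      rw [mem_Ioc] at hm
      rw [mem_Icc]
      omega
    · intro m _ _
      have h13 : 0 ≤ ∑ c ∈ Icc (-(C : ℤ)) (2 * C), ∑ v ∈ range (2 * m),
          Ph ((c : ℝ) / C) * (Sv a b β n0 N1 K K2 c m v) ^ 2 :=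
        sum_nonneg fun c _ => sum_nonneg fun v _ => mul_nonneg (Ph_nonneg _) (sq_nonneg _)
      have := (gw_pos L M m).le
      positivity
  have h14 : 0 ≤ ∑ i ∈ X, |Sv a b β n0 N1 K K2 (i.1 : ℕ) i.2.1 i.2.2| ^ 2 := sum_nonneg fun _ _ => sq_nonneg _
  calc _ ≤ (4 * C * (M2 - M : ℕ)) * (2 * TT a b β L C M m1 m2 n0 N1 K K2) :=
        mul_le_mul h3 h5 h14 (by positivity)
    _ = _ := by ring

end Pool.Agent.N792
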