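import Mathlib
import Pool.Agent.N792.TE

/-!
The expansion of the square (helper792).
-/

set_option autoImplicit false

namespace Pool.Agent.N792

open Finset

open Classical in
/-- the diagonal: the number of the triples `(m, n, k)` -/
noncomputable def Dg (a b : ℤ) (C m1 m2 n0 N1 K K2 : ℕ) : ℕ :=
  #((Icc m1 m2 ×ˢ (Icc n0 N1 ×ˢ Ioc K K2)).filter (fun i => -(C : ℤ) ≤ cv a b i.1 i.2.2 i.2.1 ∧ cv a b i.1 i.2.2 i.2.1 ≤ 2 * C))

lemma sum4_comm (A B : Finset ℕ) (g : ℕ → ℕ → ℕ → ℕ → ℝ) :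
    ∑ n ∈ A, ∑ k ∈ B, ∑ n' ∈ A, ∑ k' ∈ B, g n k n' k' = ∑ k ∈ B, ∑ k' ∈ B, ∑ n ∈ A, ∑ n' ∈ A, g n k n' k' := by
  rw [sum_comm]
  apply sum_congr rfl
  intro k _
  rw [sum_comm (s := B) (t := A)]
  apply sum_congr rfl
  intro n _
  rw [sum_comm]

lemma off_eq (a b : ℤ) (β : ℕ → ℝ) (C n0 N1 K K2 m : ℕ) (hm : 1 ≤ m) :
    ∑ i ∈ Icc n0 N1 ×ˢ Ioc K K2, ∑ j ∈ Icc n0 N1 ×ˢ Ioc K K2,
      (if i.1 < j.1 ∧ (cv a b m i.2 i.1, i.1 % (2 * m)) = (cv a b m j.2 j.1, j.1 % (2 * m)) then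
        Ph ((cv a b m i.2 i.1 : ℝ) / C) * (β i.2 * β j.2) else 0) =
      ∑ e ∈ Icc 1 N1, ∑ k ∈ Ioc K K2, ∑ k' ∈ Ioc K K2, β k * β k' * inn a b C n0 N1 m e k k' := by
  classical
  simp only [sum_product]
  rw [sum4_comm (Icc n0 N1) (Ioc K K2) (fun n k n' k' =>
    (if n < n' ∧ (cv a b m k n, n % (2 * m)) = (cv a b m k' n', n' % (2 * m)) then
        Ph ((cv a b m k n : ℝ) / C) * (β k * β k') else 0))]
  rw [sum_comm' (s := Icc 1 N1) (t := fun _ => Ioc K K2) (t' := Ioc K K2) (s' := fun _ => Icc 1 N1)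
    (fun x y => by constructor <;> (rintro ⟨h1, h2⟩; exact ⟨h1, h2⟩))]
  apply sum_congr rfl
  intro k _
  rw [sum_comm' (s := Icc 1 N1) (t := fun _ => Ioc K K2) (t' := Ioc K K2) (s' := fun _ => Icc 1 N1)
    (fun x y => by constructor <;> (rintro ⟨h1, h2⟩; exact ⟨h1, h2⟩))]
  apply sum_congr rfl
  intro k' _
  have h1 := pairs_reparam n0 N1 m hm (fun n n' => if cv a b m k n = cv a b m k' n' then
    Ph ((cv a b m k n : ℝ) / C) * (β k * β k') else 0)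
  have h2 : ∑ n ∈ Icc n0 N1, ∑ n' ∈ Icc n0 N1,
      (if n < n' ∧ (cv a b m k n, n % (2 * m)) = (cv a b m k' n', n' % (2 * m)) then
        Ph ((cv a b m k n : ℝ) / C) * (β k * β k') else 0) =
      ∑ n ∈ Icc n0 N1, ∑ n' ∈ Icc n0 N1, (if n < n' ∧ n % (2 * m) = n' % (2 * m) then
        (if cv a b m k n = cv a b m k' n' then Ph ((cv a b m k n : ℝ) / C) * (β k * β k') else 0) else 0) := by
    apply sum_congr rfl
    intro n _
    apply sum_congr rfl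
    intro n' _
    rw [← ite_and]
    apply if_congr _ rfl rfl
    rw [Prod.mk.injEq]
    tauto
  rw [h2, h1]
  apply sum_congr rfl
  intro e _
  unfold inn
  rw [mul_sum, ← filter_filter, sum_filter (s := (Icc n0 N1).filter (fun n => n + 2 * m * e ≤ N1))]
  apply sum_congr rfl
  intro n _
  split_ifs
  · ring
  · rfl

/-- the sum for one `m` -/
lemma TT_m (a b : ℤ) (β : ℕ → ℝ) (C n0 N1 K K2 m : ℕ) (hm : 1 ≤ m) (hC : 1 ≤ C) :
    ∑ c ∈ Icc (-(C : ℤ)) (2 * C), ∑ v ∈ range (2 * m), Ph ((c : ℝ) / C) * (Sv a b β n0 N1 K K2 c m v) ^ 2 =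
      ∑ i ∈ Icc n0 N1 ×ˢ Ioc K K2, Ph ((cv a b m i.2 i.1 : ℝ) / C) * (β i.2) ^ 2 +
      2 * ∑ e ∈ Icc 1 N1, ∑ k ∈ Ioc K K2, ∑ k' ∈ Ioc K K2, β k * β k' * inn a b C n0 N1 m e k k' := by
  classical
  have hCR : (0 : ℝ) < C := by exact_mod_cast hC
  set X := Icc n0 N1 ×ˢ Ioc K K2 with hX
  have h1 := fiber_sq X (Icc (-(C : ℤ)) (2 * C) ×ˢ range (2 * m)) (fun i => (cv a b m i.2 i.1, i.1 % (2 * m)))
    (fun y => Ph ((y.1 : ℝ) / C)) (fun i => β i.2) (by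
      intro i _ hw
      obtain ⟨h2, h3⟩ := Ph_ne hw
      rw [lt_div_iff₀ hCR] at h2
      rw [div_lt_iff₀ hCR] at h3
      rw [mem_product, mem_Icc, mem_range]
      refine ⟨⟨?_, ?_⟩, Nat.mod_lt _ (by omega)⟩
      · have : (-(C : ℝ)) ≤ cv a b m i.2 i.1 := by linarith
        exact_mod_cast this
      · have : ((cv a b m i.2 i.1 : ℤ) : ℝ) ≤ 2 * C := by linarith
        exact_mod_cast this)
  rw [sum_product] at h1
  have h2 : ∑ c ∈ Icc (-(C : ℤ)) (2 * C), ∑ v ∈ range (2 * m), Ph ((c : ℝ) / C) * (Sv a b β n0 N1 K K2 c m v) ^ 2 =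
      ∑ c ∈ Icc (-(C : ℤ)) (2 * C), ∑ v ∈ range (2 * m), Ph ((c : ℝ) / C) *
        (∑ i ∈ X.filter (fun i => (cv a b m i.2 i.1, i.1 % (2 * m)) = (c, v)), β i.2) ^ 2 := rfl
  rw [h2, h1]
  have h3 : ∀ i ∈ X, ∀ j ∈ X, (if (cv a b m i.2 i.1, i.1 % (2 * m)) = (cv a b m j.2 j.1, j.1 % (2 * m)) then
      Ph ((cv a b m i.2 i.1 : ℝ) / C) * (β i.2 * β j.2) else 0) =
      (if i = j then Ph ((cv a b m i.2 i.1 : ℝ) / C) * (β i.2) ^ 2 else 0) +
      (if i.1 < j.1 ∧ (cv a b m i.2 i.1, i.1 % (2 * m)) = (cv a b m j.2 j.1, j.1 % (2 * m)) then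
        Ph ((cv a b m i.2 i.1 : ℝ) / C) * (β i.2 * β j.2) else 0) +
      (if j.1 < i.1 ∧ (cv a b m j.2 j.1, j.1 % (2 * m)) = (cv a b m i.2 i.1, i.1 % (2 * m)) then
        Ph ((cv a b m j.2 j.1 : ℝ) / C) * (β j.2 * β i.2) else 0) := by
    intro i _ j _
    by_cases hc : (cv a b m i.2 i.1, i.1 % (2 * m)) = (cv a b m j.2 j.1, j.1 % (2 * m))
    · have hc' := hc.symm
      have hcv : cv a b m i.2 i.1 = cv a b m j.2 j.1 := (Prod.mk.inj hc).1
      rw [if_pos hc]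
      rcases lt_trichotomy i.1 j.1 with h | h | h
      · have hne : i ≠ j := fun hh => by rw [hh] at h; exact lt_irrefl _ h
        rw [if_neg hne, if_pos ⟨h, hc⟩, if_neg (fun hh => absurd hh.1 (by omega))]
        ring
      · have hk : i.2 = j.2 := by
          unfold cv at hcv
          rw [h] at hcv
          have h4 : (m : ℤ) * i.2 = m * j.2 := by linarith
          have hm0 : (m : ℤ) ≠ 0 := by positivity
          exact_mod_cast mul_left_cancel₀ hm0 h4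
        have hij : i = j := Prod.ext h hk
        rw [if_pos hij, if_neg (fun hh => absurd hh.1 (by omega)), if_neg (fun hh => absurd hh.1 (by omega)), hij]
        ring
      · have hne : i ≠ j := fun hh => by rw [hh] at h; exact lt_irrefl _ h
        rw [if_neg hne, if_neg (fun hh => absurd hh.1 (by omega)), if_pos ⟨h, hc'⟩, hcv]
        ring
    · have hne : i ≠ j := fun hh => hc (by rw [hh])
      rw [if_neg hc, if_neg hne, if_neg (fun hh => hc hh.2), if_neg (fun hh => hc hh.2.symm)]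
      ring
  rw [sum_congr rfl fun i hi => sum_congr rfl fun j hj => h3 i hi j hj]
  simp only [sum_add_distrib]
  rw [off_eq a b β C n0 N1 K K2 m hm]
  have h4 : ∑ i ∈ X, ∑ j ∈ X, (if j.1 < i.1 ∧ (cv a b m j.2 j.1, j.1 % (2 * m)) = (cv a b m i.2 i.1, i.1 % (2 * m)) then
        Ph ((cv a b m j.2 j.1 : ℝ) / C) * (β j.2 * β i.2) else 0) =
      ∑ e ∈ Icc 1 N1, ∑ k ∈ Ioc K K2, ∑ k' ∈ Ioc K K2, β k * β k' * inn a b C n0 N1 m e k k' := by
    rw [sum_comm]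
    exact off_eq a b β C n0 N1 K K2 m hm
  rw [h4]
  have h5 : ∑ i ∈ X, ∑ j ∈ X, (if i = j then Ph ((cv a b m i.2 i.1 : ℝ) / C) * (β i.2) ^ 2 else 0) =
      ∑ i ∈ X, Ph ((cv a b m i.2 i.1 : ℝ) / C) * (β i.2) ^ 2 := by
    apply sum_congr rfl
    intro i hi
    rw [sum_ite_eq, if_pos hi]
  rw [h5]
  ring

/-- **the expansion of the quadratic form** -/
theorem TT_le {a b : ℤ} {β : ℕ → ℝ} {L B0 : ℝ} {C M m1 m2 n0 N1 K K2 : ℕ} (hm1 : 1 ≤ m1) (hC : 1 ≤ C)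
    (hB0 : 0 ≤ B0) (hβ : ∀ k, |β k| ≤ B0) :
    TT a b β L C M m1 m2 n0 N1 K K2 ≤ 2 * B0 ^ 2 * Dg a b C m1 m2 n0 N1 K K2 +
      2 * ∑ e ∈ Icc 1 N1, ∑ k ∈ Ioc K K2, ∑ k' ∈ Ioc K K2, β k * β k' * W a b L C M m1 m2 n0 N1 e k k' := by
  classical
  have hCR : (0 : ℝ) < C := by exact_mod_cast hC
  unfold TT
  have h1 : ∑ m ∈ Icc m1 m2, gw L M m * ∑ c ∈ Icc (-(C : ℤ)) (2 * C), ∑ v ∈ range (2 * m),
      Ph ((c : ℝ) / C) * (Sv a b β n0 N1 K K2 c m v) ^ 2 =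
      ∑ m ∈ Icc m1 m2, gw L M m * ∑ i ∈ Icc n0 N1 ×ˢ Ioc K K2, Ph ((cv a b m i.2 i.1 : ℝ) / C) * (β i.2) ^ 2 +
      2 * ∑ m ∈ Icc m1 m2, ∑ e ∈ Icc 1 N1, ∑ k ∈ Ioc K K2, ∑ k' ∈ Ioc K K2,
        β k * β k' * (gw L M m * inn a b C n0 N1 m e k k') := by
    rw [mul_sum, ← sum_add_distrib]
    apply sum_congr rfl
    intro m hm
    rw [TT_m a b β C n0 N1 K K2 m (hm1.trans (mem_Icc.1 hm).1) hC, mul_add]
    congr 1
    rw [← mul_assoc, mul_comm (gw L M m) 2, mul_assoc]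
    congr 1
    simp only [mul_sum]
    apply sum_congr rfl
    intro e _
    apply sum_congr rfl
    intro k _
    apply sum_congr rfl
    intro k' _
    ring
  rw [h1]
  apply add_le_add
  · have h2 : ∑ m ∈ Icc m1 m2, gw L M m * ∑ i ∈ Icc n0 N1 ×ˢ Ioc K K2, Ph ((cv a b m i.2 i.1 : ℝ) / C) * (β i.2) ^ 2 ≤
        ∑ m ∈ Icc m1 m2, ∑ i ∈ Icc n0 N1 ×ˢ Ioc K K2,
          (if -(C : ℤ) ≤ cv a b m i.2 i.1 ∧ cv a b m i.2 i.1 ≤ 2 * C then 2 * B0 ^ 2 else 0) := by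
      apply sum_le_sum
      intro m _
      have h3 : 0 ≤ ∑ i ∈ Icc n0 N1 ×ˢ Ioc K K2, Ph ((cv a b m i.2 i.1 : ℝ) / C) * (β i.2) ^ 2 :=
        sum_nonneg fun i _ => mul_nonneg (Ph_nonneg _) (sq_nonneg _)
      have h4 : gw L M m * ∑ i ∈ Icc n0 N1 ×ˢ Ioc K K2, Ph ((cv a b m i.2 i.1 : ℝ) / C) * (β i.2) ^ 2 ≤
          1 * ∑ i ∈ Icc n0 N1 ×ˢ Ioc K K2, Ph ((cv a b m i.2 i.1 : ℝ) / C) * (β i.2) ^ 2 :=
        mul_le_mul_of_nonneg_right (gw_le_one _ _ _) h3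
      rw [one_mul] at h4
      refine h4.trans ?_
      apply sum_le_sum
      intro i _
      by_cases hP : Ph ((cv a b m i.2 i.1 : ℝ) / C) = 0
      · rw [hP, zero_mul]
        split_ifs <;> positivity
      · obtain ⟨h5, h6⟩ := Ph_ne hP
        rw [lt_div_iff₀ hCR] at h5
        rw [div_lt_iff₀ hCR] at h6
        rw [if_pos]
        · have h7 : (β i.2) ^ 2 ≤ B0 ^ 2 := by
            rw [← sq_abs]
            exact pow_le_pow_left₀ (abs_nonneg _) (hβ _) 2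
          exact mul_le_mul (Ph_le _) h7 (sq_nonneg _) (by norm_num)
        · constructor
          · have : (-(C : ℝ)) ≤ cv a b m i.2 i.1 := by linarith
            exact_mod_cast this
          · have : ((cv a b m i.2 i.1 : ℤ) : ℝ) ≤ 2 * C := by linarith
            exact_mod_cast this
    refine h2.trans (le_of_eq ?_)
    unfold Dg
    rw [card_filter, sum_product]
    push_cast
    rw [mul_sum]
    apply sum_congr rfl
    intro m _
    rw [mul_sum]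
    apply sum_congr rfl
    intro i _
    split_ifs <;> simp
  · apply le_of_eq
    congr 1
    rw [sum_comm]
    apply sum_congr rfl
    intro e _
    rw [sum_comm]
    apply sum_congr rfl
    intro k _
    rw [sum_comm]
    apply sum_congr rfl
    intro k' _
    rw [W_eq, mul_sum]

end Pool.Agent.N792
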