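import Mathlib
import Pool.Agent.N792.TF
import Pool.Agent.Helper112.Arith

/-!
The asymptotic form of the type II estimate for one cell (helper792).
-/

set_option autoImplicit false

namespace Pool.Agent.N792

open Finset

/-- the diagonal is bounded by a divisor sum -/
lemma Dg_le {a b : ℤ} {C M K K2 n0 N1 : ℕ} {D : ℝ} (ha : 0 < a) (hK2 : K2 ≤ 2 * K) (hCK : 8 * C ≤ K) (hM : 2 ≤ M)
    (hn0 : 2 * |b| ≤ n0) (hD : ∀ N : ℕ, 1 ≤ N → N ≤ 4 * M * K → (#N.divisors : ℝ) ≤ D) (hD0 : 0 ≤ D) :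
    (Dg a b C (M / 2) (2 * M) n0 N1 K K2 : ℝ) ≤ (Nat.sqrt (16 * M * K) + 1) * (3 * C + 1) * D := by
  classical
  set T : Finset (Σ _ : ℕ × ℤ, ℕ) := ((range (Nat.sqrt (16 * M * K) + 1)) ×ˢ Icc (-(C : ℤ)) (2 * C)).sigma
    (fun p => if 1 ≤ a * (p.1 : ℤ) ^ 2 + b * p.1 + p.2 ∧ a * (p.1 : ℤ) ^ 2 + b * p.1 + p.2 ≤ 4 * M * K then
      (a * (p.1 : ℤ) ^ 2 + b * p.1 + p.2).toNat.divisors else ∅) with hT
  have h1 : Dg a b C (M / 2) (2 * M) n0 N1 K K2 ≤ #T := by
    unfold Dg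
    apply card_le_card_of_injOn (fun i => (⟨(i.2.1, cv a b i.1 i.2.2 i.2.1), i.1⟩ : Σ _ : ℕ × ℤ, ℕ))
    · intro i hi
      rw [mem_coe, mem_filter, mem_product, mem_product, mem_Icc, mem_Icc, mem_Ioc] at hi
      obtain ⟨⟨⟨h2, h3⟩, ⟨h4, h5⟩, ⟨h6, h7⟩⟩, h8, h9⟩ := hi
      have hm : 1 ≤ i.1 := by omega
      have hv : a * (i.2.1 : ℤ) ^ 2 + b * i.2.1 + cv a b i.1 i.2.2 i.2.1 = ((i.1 * i.2.2 : ℕ) : ℤ) := by
        unfold cv
        push_cast
        ring
      have hmk : i.1 * i.2.2 ≤ 4 * M * K := by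
        calc i.1 * i.2.2 ≤ (2 * M) * (2 * K) := Nat.mul_le_mul h3 (h7.trans hK2)
          _ = 4 * M * K := by ring
      have hmk1 : 1 ≤ i.1 * i.2.2 := by
        have : 1 ≤ i.2.2 := by omega
        exact Nat.mul_pos hm this
      rw [mem_coe, hT, mem_sigma]
      constructor
      · simp only [mem_product, mem_range, mem_Icc]
        refine ⟨?_, h8, h9⟩
        apply Nat.lt_succ_of_le
        rw [Nat.le_sqrt]
        have h10 : (a * (i.2.1 : ℤ) ^ 2 + b * i.2.1) ≤ 4 * M * K + C := by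
          have : a * (i.2.1 : ℤ) ^ 2 + b * i.2.1 = ((i.1 * i.2.2 : ℕ) : ℤ) - cv a b i.1 i.2.2 i.2.1 := by linarith
          rw [this]
          have : ((i.1 * i.2.2 : ℕ) : ℤ) ≤ 4 * M * K := by exact_mod_cast hmk
          linarith
        have h11 : (i.2.1 : ℤ) ^ 2 ≤ 2 * (a * (i.2.1 : ℤ) ^ 2 + b * i.2.1) := by
          have h12 : 2 * |b| ≤ (i.2.1 : ℤ) := hn0.trans (by exact_mod_cast h4)
          have h13 := neg_abs_le b
          have h14 : (0 : ℤ) ≤ i.2.1 := Int.natCast_nonneg _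
          have h15 : (i.2.1 : ℤ) ^ 2 ≤ a * (i.2.1 : ℤ) ^ 2 := by nlinarith [sq_nonneg (i.2.1 : ℤ)]
          nlinarith
        have h16 : (i.2.1 : ℤ) ^ 2 ≤ 16 * M * K := by
          have : (8 : ℤ) * C ≤ K := by exact_mod_cast hCK
          have hM' : (2 : ℤ) ≤ M := by exact_mod_cast hM
          have hK' : (0 : ℤ) ≤ K := Int.natCast_nonneg _
          nlinarith
        have h17 : i.2.1 ^ 2 ≤ 16 * M * K := by exact_mod_cast h16
        rw [sq] at h17
        exact h17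
      · simp only [hv]
        rw [if_pos ⟨by exact_mod_cast hmk1, by exact_mod_cast hmk⟩]
        rw [Int.toNat_natCast, Nat.mem_divisors]
        exact ⟨dvd_mul_right _ _, by omega⟩
    · intro i hi j hj hij
      rw [mem_coe, mem_filter, mem_product, mem_product, mem_Icc, mem_Icc, mem_Ioc] at hi hj
      simp only [Sigma.mk.injEq, Prod.mk.injEq, heq_eq_eq] at hij
      obtain ⟨⟨h2, h3⟩, h4⟩ := hij
      have hm : 1 ≤ i.1 := by omega
      have h5 : i.2.2 = j.2.2 := by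
        unfold cv at h3
        rw [h2, h4] at h3
        have h6 : (j.1 : ℤ) * i.2.2 = j.1 * j.2.2 := by linarith
        have hm0 : (j.1 : ℤ) ≠ 0 := by
          have : 1 ≤ j.1 := by omega
          positivity
        exact_mod_cast mul_left_cancel₀ hm0 h6
      exact Prod.ext h4 (Prod.ext h2 h5)
  have h2 : (#T : ℝ) ≤ (Nat.sqrt (16 * M * K) + 1) * (3 * C + 1) * D := by
    rw [hT, card_sigma]
    push_cast
    have h3 : ∀ p ∈ (range (Nat.sqrt (16 * M * K) + 1)) ×ˢ Icc (-(C : ℤ)) (2 * C),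
        ((#(if 1 ≤ a * (p.1 : ℤ) ^ 2 + b * p.1 + p.2 ∧ a * (p.1 : ℤ) ^ 2 + b * p.1 + p.2 ≤ 4 * M * K then
      (a * (p.1 : ℤ) ^ 2 + b * p.1 + p.2).toNat.divisors else ∅) : ℕ) : ℝ) ≤ D := by
      intro p _
      split_ifs with h
      · apply hD
        · omega
        · have : ((a * (p.1 : ℤ) ^ 2 + b * p.1 + p.2).toNat : ℤ) ≤ ((4 * M * K : ℕ) : ℤ) := by
            rw [Int.toNat_of_nonneg (by omega)]
            push_cast
            exact h.2
          exact_mod_cast this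
      · simpa using hD0
    refine (sum_le_sum h3).trans ?_
    rw [sum_const, card_product, card_range, Int.card_Icc, nsmul_eq_mul]
    have h4 : (2 * (C : ℤ) + 1 - -(C : ℤ)).toNat = 3 * C + 1 := by omega
    rw [h4]
    push_cast
    exact le_rfl
  have h3 : (Dg a b C (M / 2) (2 * M) n0 N1 K K2 : ℝ) ≤ #T := by exact_mod_cast h1
  exact h3.trans h2

end Pool.Agent.N792
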