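import Mathlib
import Pool.Agent.N792.TG3

/-!
The asymptotic form of the type II estimate for one cell (helper792).
-/

set_option autoImplicit false

namespace Pool.Agent.N792

open Finset

/-- more conditions -/
structure Sy (a b : ℤ) (c0 s y L g C K M E : ℝ) : Prop extends Sz a c0 s y L g C K M E where
  hb : (b : ℝ) ^ 2 ≤ y
  hex : Real.exp (-(L ^ 2 / 16)) * s ^ 20 ≤ 1
  hLs : L = 2 * Real.log s

namespace Sy

variable {a b : ℤ} {c0 s y L g C K M E : ℝ}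

lemma ys (h : Sy a b c0 s y L g C K M E) : y ^ 48 ≤ s := by
  have h1 := h.hK
  have h2 := h.hK2
  have hy := h.y0
  have hs := h.s0
  have h3 : s ^ 2 * y ^ 48 ≤ s ^ 2 * s := by
    calc s ^ 2 * y ^ 48 = (s ^ 2 * y ^ 24) * y ^ 24 := by ring
      _ ≤ K * y ^ 24 := mul_le_mul_of_nonneg_right h1 (by positivity)
      _ ≤ s ^ 3 := h2
      _ = _ := by ring
  exact le_of_mul_le_mul_left h3 (by positivity)

lemma yl (h : Sy a b c0 s y L g C K M E) : y ≤ s := (le_self_pow₀ h.y1 (by norm_num)).trans h.ys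

lemma Ly (h : Sy a b c0 s y L g C K M E) : 10 ^ 10 * L ^ 2 ≤ y := by
  refine le_trans ?_ h.big
  have h1 := h.g12
  have : 0 ≤ 10 ^ 10 * L ^ 2 := by positivity
  nlinarith

lemma gy (h : Sy a b c0 s y L g C K M E) : 10 ^ 10 * g ≤ y := by
  refine le_trans ?_ h.big
  have h1 : g ≤ g ^ 12 := le_self_pow₀ h.g1 (by norm_num)
  have h2 : 1 ≤ L ^ 2 := one_le_pow₀ (by linarith [h.L1])
  have h3 : 0 ≤ g ^ 12 := by have := h.g0; positivity
  nlinarith

lemma gLy (h : Sy a b c0 s y L g C K M E) : 10 ^ 10 * (g * L ^ 2) ≤ y := by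
  refine le_trans ?_ h.big
  have h1 : g ≤ g ^ 12 := le_self_pow₀ h.g1 (by norm_num)
  have h2 : 0 ≤ L ^ 2 := sq_nonneg _
  nlinarith [mul_le_mul_of_nonneg_right h1 h2]

lemma ay (h : Sy a b c0 s y L g C K M E) : 10 ^ 10 * (a : ℝ) * g * L ^ 2 ≤ y := by
  refine le_trans ?_ h.biga
  have h1 : g ≤ g ^ 12 := le_self_pow₀ h.g1 (by norm_num)
  have h3 := h.a1
  have h2 : 0 ≤ L ^ 2 := sq_nonneg _
  have h4 : 0 ≤ 10 ^ 10 * (a : ℝ) := by positivity
  exact mul_le_mul_of_nonneg_right (mul_le_mul_of_nonneg_left h1 h4) h2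

/-- `M ≥ s y^24 / L` -/
lemma Mge (h : Sy a b c0 s y L g C K M E) : s * y ^ 24 ≤ M * L := by
  have h1 := h.hMK2
  have h2 := h.hK2
  have hy := h.y0
  have hs := h.s0
  have hM : 0 ≤ M := by linarith [h.M1]
  have hL := h.L0
  have h3 : s ^ 3 * (s * y ^ 24) ≤ s ^ 3 * (M * L) := by
    calc s ^ 3 * (s * y ^ 24) = s ^ 4 * y ^ 24 := by ring
      _ ≤ (M * K * L) * y ^ 24 := mul_le_mul_of_nonneg_right h1 (by positivity)
      _ = (M * L) * (K * y ^ 24) := by ring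
      _ ≤ (M * L) * s ^ 3 := mul_le_mul_of_nonneg_left h2 (by positivity)
      _ = _ := by ring
  exact le_of_mul_le_mul_left h3 (by positivity)

lemma Mbig (h : Sy a b c0 s y L g C K M E) : 100 * (g * L) ≤ M := by
  have h1 := h.Mge
  have h2 := h.gLy
  have hL := h.L0
  have hy := h.y1
  have hs := h.s1
  have hg := h.g0
  have h3 : 100 * (g * L) * L ≤ M * L := by
    calc 100 * (g * L) * L ≤ 10 ^ 10 * (g * L ^ 2) := by nlinarith [mul_pos hg (mul_pos hL hL)]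
      _ ≤ y := h2
      _ ≤ s * y ^ 24 := by
          have : y ≤ y ^ 24 := le_self_pow₀ hy (by norm_num)
          nlinarith
      _ ≤ _ := h1
  exact le_of_mul_le_mul_right h3 hL

lemma Es (h : Sy a b c0 s y L g C K M E) : E ≤ s := by
  have h1 := h.Ele
  have h2 : E * 1 ≤ E * y ^ 23 := mul_le_mul_of_nonneg_left (one_le_pow₀ h.y1) (by linarith [h.E1])
  linarith

/-- the error -/
lemma Er_le (h : Sy a b c0 s y L g C K M E) :
    L / M + 4 * (1 / g) + 8 * a * E ^ 2 * C / K ^ 2 + (b : ℝ) ^ 2 / (2 * a * C) ≤ 6 / g := by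
  have hg := h.g0
  have hM : 0 < M := by linarith [h.M1]
  have hL := h.L0
  have hK := h.K0
  have hC := h.C0
  have ha := h.a1
  have hy := h.y0
  have hs := h.s0
  have hE : 0 ≤ E := by linarith [h.E1]
  have h1 : L / M ≤ 1 / (2 * g) := by
    rw [div_le_div_iff₀ hM (by positivity)]
    have := h.Mbig
    nlinarith
  have h2 : 8 * a * E ^ 2 * C / K ^ 2 ≤ 1 / (2 * g) := by
    rw [div_le_div_iff₀ (by positivity) (by positivity)]
    have e1 : E ^ 2 ≤ s ^ 2 := pow_le_pow_left₀ hE h.Es 2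
    have e2 : (s ^ 2 * y ^ 24) ^ 2 ≤ K ^ 2 := pow_le_pow_left₀ (by positivity) h.hK 2
    have e3 : 16 * (a : ℝ) * g ≤ y ^ 48 := by
      have e4 := h.ay
      have e5 : y ≤ y ^ 48 := le_self_pow₀ h.y1 (by norm_num)
      have e6 : (1 : ℝ) ≤ L ^ 2 := one_le_pow₀ (by linarith [h.L1])
      have e7 : 16 * (a : ℝ) * g ≤ 10 ^ 10 * (a : ℝ) * g * L ^ 2 := by
        have e8 : 0 ≤ (a : ℝ) * g := by positivity
        have e9 : (a : ℝ) * g * 1 ≤ (a : ℝ) * g * L ^ 2 := mul_le_mul_of_nonneg_left e6 e8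
        nlinarith
      linarith
    calc 8 * a * E ^ 2 * C * (2 * g) ≤ 8 * a * s ^ 2 * s ^ 2 * (2 * g) := by
          gcongr
          exact h.hC2
      _ = s ^ 4 * (16 * (a : ℝ) * g) := by ring
      _ ≤ s ^ 4 * y ^ 48 := mul_le_mul_of_nonneg_left e3 (by positivity)
      _ = (s ^ 2 * y ^ 24) ^ 2 := by ring
      _ ≤ 1 * K ^ 2 := by rw [one_mul]; exact e2
  have h3 : (b : ℝ) ^ 2 / (2 * a * C) ≤ 1 / g := by
    rw [div_le_div_iff₀ (by positivity) hg]
    have e1 : y * g ≤ C := by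
      have e2 : (y * g) * y ^ 8 ≤ C * y ^ 8 := by
        calc (y * g) * y ^ 8 ≤ (y * y) * y ^ 8 := by
              have : g ≤ y := by have := h.gy; linarith
              gcongr
          _ = y ^ 10 := by ring
          _ ≤ y ^ 48 := pow_le_pow_right₀ h.y1 (by norm_num)
          _ ≤ s := h.ys
          _ ≤ s ^ 2 := le_self_pow₀ h.s1 (by norm_num)
          _ ≤ C * y ^ 8 := h.hC
      exact le_of_mul_le_mul_right e2 (by positivity)
    have e3 := h.hb
    calc (b : ℝ) ^ 2 * g ≤ y * g := mul_le_mul_of_nonneg_right e3 hg.le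
      _ ≤ C := e1
      _ ≤ 1 * (2 * a * C) := by nlinarith
  have h4 : 6 / g = 1 / (2 * g) + 4 * (1 / g) + 1 / (2 * g) + 1 / g := by
    field_simp
    norm_num
  rw [h4]
  linarith

end Sy

namespace Sy

variable {a b : ℤ} {c0 s y L g C K M E : ℝ}

lemma g3y (h : Sy a b c0 s y L g C K M E) : 10 ^ 9 * g ^ 3 ≤ y := by
  refine le_trans ?_ h.big
  have h1 : g ^ 3 ≤ g ^ 12 := pow_le_pow_right₀ h.g1 (by norm_num)
  have h2 : (1 : ℝ) ≤ L ^ 2 := one_le_pow₀ (by linarith [h.L1])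
  have h3 : 0 < g ^ 12 := pow_pos h.g0 12
  calc 10 ^ 9 * g ^ 3 ≤ 10 ^ 10 * g ^ 12 * 1 := by linarith
    _ ≤ 10 ^ 10 * g ^ 12 * L ^ 2 := mul_le_mul_of_nonneg_left h2 (by positivity)

lemma yC (h : Sy a b c0 s y L g C K M E) : y ≤ C := by
  have hy1 := h.y1
  have e2 : y * y ^ 8 ≤ C * y ^ 8 := by
    calc y * y ^ 8 = y ^ 9 := by ring
      _ ≤ y ^ 48 := pow_le_pow_right₀ hy1 (by norm_num)
      _ ≤ s := h.ys
      _ ≤ s ^ 2 := le_self_pow₀ h.s1 (by norm_num)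
      _ ≤ C * y ^ 8 := h.hC
  exact le_of_mul_le_mul_right e2 (pow_pos h.y0 8)

lemma yK (h : Sy a b c0 s y L g C K M E) : s * y ≤ K := by
  refine le_trans ?_ h.hK
  have e1 : s ≤ s ^ 2 := le_self_pow₀ h.s1 (by norm_num)
  have e2 : y ≤ y ^ 24 := le_self_pow₀ h.y1 (by norm_num)
  exact mul_le_mul e1 e2 h.y0.le (pow_pos h.s0 2).le

lemma Eg (h : Sy a b c0 s y L g C K M E) : E ≤ K / g ^ 3 := by
  have hg := h.g0
  rw [le_div_iff₀ (by positivity)]
  have h1 := h.g3y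
  have h2 : g ^ 3 ≤ y := by
    have : 0 < g ^ 3 := by positivity
    linarith
  exact (mul_le_mul h.Es h2 (by positivity) h.s0.le).trans h.yK

lemma Kg (h : Sy a b c0 s y L g C K M E) : 1 ≤ K / g ^ 3 := by
  have hg := h.g0
  rw [le_div_iff₀ (by positivity), one_mul]
  have h1 := h.g3y
  have h2 : g ^ 3 ≤ y := by
    have : 0 < g ^ 3 := by positivity
    linarith
  have h3 : 1 * y ≤ s * y := mul_le_mul_of_nonneg_right h.s1 h.y0.le
  linarith [h.yK]

/-- the diagonal -/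
lemma diag (h : Sy a b c0 s y L g C K M E) {B0 N D X : ℝ} (hN : N ^ 2 ≤ 16 * (M * K)) (hN0 : 0 ≤ N)
    (hD0 : 0 ≤ D) (hD : D ≤ y) (hX : X ≤ (N + 1) * (3 * C + 1) * D) :
    2 * B0 ^ 2 * X ≤ (B0 ^ 2 * C * K / g ^ 3) * L ^ 2 := by
  have hg := h.g0
  have hL := h.L1
  have hs := h.s0
  have hy := h.y0
  have hC := h.C0
  have hC1 := h.C1
  have hK := h.K0
  have e2 : N ≤ 4 * (s ^ 2 * L) := by
    have f3 : 16 * (M * K) ≤ (4 * (s ^ 2 * L)) ^ 2 := by
      have f4 := h.hMK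
      have f5 : L ≤ L ^ 2 := le_self_pow₀ (by linarith) (by norm_num)
      calc 16 * (M * K) ≤ 16 * (s ^ 4 * L) := by linarith
        _ ≤ 16 * (s ^ 4 * L ^ 2) := by gcongr
        _ = _ := by ring
    exact abs_le_of_sq_le_sq' (hN.trans f3) (by positivity) |>.2
  have f1 : (1 : ℝ) ≤ s ^ 2 * L := by
    have : (1 : ℝ) ≤ s ^ 2 := one_le_pow₀ h.s1
    calc (1 : ℝ) = 1 * 1 := by ring
      _ ≤ s ^ 2 * L := mul_le_mul this (by linarith) zero_le_one (by positivity)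
  have e3 : (N + 1) * (3 * C + 1) * D ≤ (5 * (s ^ 2 * L)) * (4 * C) * y := by
    have g1 : N + 1 ≤ 5 * (s ^ 2 * L) := by linarith
    have g2 : 3 * C + 1 ≤ 4 * C := by linarith
    gcongr
  have e4 : 40 * g ^ 3 * y * L ≤ y ^ 24 * L ^ 2 := by
    have f1 : 40 * g ^ 3 ≤ y := by
      have := h.g3y
      have : 0 < g ^ 3 := by positivity
      linarith
    have f2 : y * y ≤ y ^ 24 := by
      calc y * y = y ^ 2 := by ring
        _ ≤ y ^ 24 := pow_le_pow_right₀ h.y1 (by norm_num)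
    have f3 : L ≤ L ^ 2 := le_self_pow₀ (by linarith) (by norm_num)
    calc 40 * g ^ 3 * y * L ≤ y * y * L := by gcongr
      _ ≤ y ^ 24 * L ^ 2 := by gcongr
  calc 2 * B0 ^ 2 * X ≤ 2 * B0 ^ 2 * ((5 * (s ^ 2 * L)) * (4 * C) * y) :=
        mul_le_mul_of_nonneg_left (hX.trans e3) (by positivity)
    _ = (B0 ^ 2 * C * s ^ 2 / g ^ 3) * (40 * g ^ 3 * y * L) := by
        field_simp
        ring
    _ ≤ (B0 ^ 2 * C * s ^ 2 / g ^ 3) * (y ^ 24 * L ^ 2) := mul_le_mul_of_nonneg_left e4 (by positivity)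
    _ = (B0 ^ 2 * C * (s ^ 2 * y ^ 24) / g ^ 3) * L ^ 2 := by ring
    _ ≤ (B0 ^ 2 * C * K / g ^ 3) * L ^ 2 := by
        have f1 := h.hK
        gcongr

/-- the grid -/
lemma grid (h : Sy a b c0 s y L g C K M E) {B0 l lE : ℝ} (hl : l ≤ K / g ^ 3 + 1) (hlE : lE ≤ 2 * L) (hlE0 : 0 ≤ lE) :
    32 * C * B0 * (B0 * (l * lE + E)) ≤ (B0 ^ 2 * C * K / g ^ 3) * L ^ 2 := by
  have hg := h.g0
  have hL := h.L1
  have hC := h.C0
  have hK := h.K0
  have h1 := h.Eg
  have h2 := h.Kg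
  have h3 : l * lE + E ≤ (K / g ^ 3) * (4 * L + 1) := by
    have e1 : l * lE ≤ (2 * (K / g ^ 3)) * (2 * L) := by
      have : l ≤ 2 * (K / g ^ 3) := by linarith
      calc l * lE ≤ (2 * (K / g ^ 3)) * lE := mul_le_mul_of_nonneg_right this hlE0
        _ ≤ _ := mul_le_mul_of_nonneg_left hlE (by positivity)
    calc l * lE + E ≤ (2 * (K / g ^ 3)) * (2 * L) + K / g ^ 3 := add_le_add e1 h1
      _ = _ := by ring
  have h4 : 32 * (4 * L + 1) ≤ L ^ 2 := by nlinarith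
  calc 32 * C * B0 * (B0 * (l * lE + E)) = (B0 ^ 2 * C) * (32 * (l * lE + E)) := by ring
    _ ≤ (B0 ^ 2 * C) * (32 * ((K / g ^ 3) * (4 * L + 1))) := by gcongr
    _ = (B0 ^ 2 * C * K / g ^ 3) * (32 * (4 * L + 1)) := by ring
    _ ≤ _ := mul_le_mul_of_nonneg_left h4 (by positivity)

/-- the double large sieve -/
lemma dls_part (h : Sy a b c0 s y L g C K M E) {B0 lE : ℝ} (hlE : lE ≤ 2 * L) :
    2 * (40 * c0 * B0 ^ 2 * (K * √K) * (lE / √(C / K) + E * √(C / K))) ≤ B0 ^ 2 * C * K / g ^ 3 := by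
  have hg := h.g0
  have hc0 := h.c1
  have hC := h.C0
  have hK := h.K0
  have hbig := h.big_sum
  have h1 : lE / √(C / K) + E * √(C / K) ≤ 2 * L / √(C / K) + E * √(C / K) := by gcongr
  have hc01 : c0 / (c0 + 1) ≤ 1 := by rw [div_le_one (by linarith)]; linarith
  calc 2 * (40 * c0 * B0 ^ 2 * (K * √K) * (lE / √(C / K) + E * √(C / K))) =
      80 * c0 * B0 ^ 2 * ((K * √K) * (lE / √(C / K) + E * √(C / K))) := by ring
    _ ≤ 80 * c0 * B0 ^ 2 * ((K * √K) * (2 * L / √(C / K) + E * √(C / K))) := by gcongr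
    _ ≤ 80 * c0 * B0 ^ 2 * (C * K / (10 ^ 5 * (c0 + 1) * g ^ 3)) := by gcongr
    _ = (B0 ^ 2 * C * K / g ^ 3) * ((80 / 10 ^ 5) * (c0 / (c0 + 1))) := by field_simp
    _ ≤ (B0 ^ 2 * C * K / g ^ 3) * 1 := by
        apply mul_le_mul_of_nonneg_left _ (by positivity)
        linarith
    _ = _ := mul_one _

/-- the error of the weights -/
lemma err_part (h : Sy a b c0 s y L g C K M E) {B0 lE ω Er : ℝ} (hlE : lE ≤ 2 * L) (hlE0 : 0 ≤ lE) (hω0 : 0 ≤ ω)
    (hω : ω ≤ K / g) (hEr : Er ≤ 6 / g) (hEr0 : 0 ≤ Er) :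
    2 * (B0 ^ 2 * (2 * Er * (4 * (C / K) * (ω * (ω * lE + E)) +
          20 * c0 * (K * √K) * (lE / √(4 * (C / K)) + E * √(4 * (C / K)))))) ≤ (B0 ^ 2 * C * K / g ^ 3) * (312 * L) := by
  have hg := h.g0
  have hg1 := h.g1
  have hL := h.L1
  have hc0 := h.c1
  have hC := h.C0
  have hK := h.K0
  have hE := h.Eg
  have hE1 := h.E1
  have hEg : E ≤ K / g := by
    refine hE.trans ?_
    apply div_le_div_of_nonneg_left hK.le hg
    exact le_self_pow₀ hg1 (by norm_num)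
  have q1 : 4 * (C / K) * (ω * (ω * lE + E)) ≤ 12 * (C * K * L / g ^ 2) := by
    calc 4 * (C / K) * (ω * (ω * lE + E)) ≤ 4 * (C / K) * ((K / g) * ((K / g) * (2 * L) + K / g)) := by gcongr
      _ = (C * K / g ^ 2) * (8 * L + 4) := by field_simp; ring
      _ ≤ (C * K / g ^ 2) * (12 * L) := by
          apply mul_le_mul_of_nonneg_left _ (by positivity)
          linarith
      _ = _ := by ring
  have hbig := h.big_sum
  have hc01 : c0 / (c0 + 1) ≤ 1 := by rw [div_le_one (by linarith)]; linarith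
  have hsq : 0 < √(C / K) := Real.sqrt_pos.2 (by positivity)
  have q2 : 20 * c0 * (K * √K) * (lE / √(4 * (C / K)) + E * √(4 * (C / K))) ≤ C * K * L / g ^ 2 := by
    have e1 : √(4 * (C / K)) = 2 * √(C / K) := by
      rw [Real.sqrt_mul (by norm_num), show (4 : ℝ) = 2 ^ 2 by norm_num, Real.sqrt_sq (by norm_num)]
    have e2 : lE / √(4 * (C / K)) + E * √(4 * (C / K)) ≤ 2 * (2 * L / √(C / K) + E * √(C / K)) := by
      rw [e1]
      have e3 : lE / (2 * √(C / K)) ≤ 2 * (2 * L / √(C / K)) := by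
        have : lE / (2 * √(C / K)) = (lE / 2) / √(C / K) := by rw [div_div]
        rw [this, ← mul_div_assoc]
        apply div_le_div_of_nonneg_right _ hsq.le
        linarith
      have e4 : E * (2 * √(C / K)) = 2 * (E * √(C / K)) := by ring
      rw [e4, mul_add]
      linarith
    calc 20 * c0 * (K * √K) * (lE / √(4 * (C / K)) + E * √(4 * (C / K))) ≤
        20 * c0 * (K * √K) * (2 * (2 * L / √(C / K) + E * √(C / K))) := by gcongr
      _ = 40 * c0 * ((K * √K) * (2 * L / √(C / K) + E * √(C / K))) := by ring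
      _ ≤ 40 * c0 * (C * K / (10 ^ 5 * (c0 + 1) * g ^ 3)) := by gcongr
      _ = (C * K / g ^ 3) * ((40 / 10 ^ 5) * (c0 / (c0 + 1))) := by field_simp
      _ ≤ (C * K / g ^ 2) * L := by
          apply mul_le_mul
          · apply div_le_div_of_nonneg_left (by positivity) (by positivity)
            exact pow_le_pow_right₀ hg1 (by norm_num)
          · linarith
          · positivity
          · positivity
      _ = _ := by ring
  calc _ ≤ 2 * (B0 ^ 2 * (2 * (6 / g) * (12 * (C * K * L / g ^ 2) + C * K * L / g ^ 2))) := by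
        gcongr
    _ = _ := by field_simp; ring

/-- the exponentially small part -/
lemma exp_part (h : Sy a b c0 s y L g C K M E) {B0 : ℝ} :
    2 * (B0 ^ 2 * (4 * Real.exp (-(L ^ 2 / 16)) * (E * K ^ 2))) ≤ B0 ^ 2 * C * K / g ^ 3 := by
  have hg := h.g0
  have hs1 := h.s1
  have hs0 := h.s0
  have hC := h.C0
  have hC1 := h.C1
  have hK := h.K0
  have hEs := h.Es
  have hE1 := h.E1
  have e1 := h.hex
  have hys := h.yl
  have hg3 : 0 < g ^ 3 := by positivity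
  have hg3y := h.g3y
  have h8s : 8 * g ^ 3 ≤ s := by linarith
  have f1 : K ≤ s ^ 3 := by
    have := h.hK2
    have f2 : K * 1 ≤ K * y ^ 24 := mul_le_mul_of_nonneg_left (one_le_pow₀ h.y1) hK.le
    linarith
  have e2 : 8 * (E * K * g ^ 3) ≤ s ^ 20 * C := by
    calc 8 * (E * K * g ^ 3) = E * K * (8 * g ^ 3) := by ring
      _ ≤ s * s ^ 3 * s := by gcongr
      _ = s ^ 5 := by ring
      _ ≤ s ^ 20 := pow_le_pow_right₀ hs1 (by norm_num)
      _ = s ^ 20 * 1 := (mul_one _).symm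
      _ ≤ s ^ 20 * C := mul_le_mul_of_nonneg_left hC1 (by positivity)
  have e3 : Real.exp (-(L ^ 2 / 16)) * (8 * (E * K * g ^ 3)) ≤ C := by
    calc Real.exp (-(L ^ 2 / 16)) * (8 * (E * K * g ^ 3)) ≤ Real.exp (-(L ^ 2 / 16)) * (s ^ 20 * C) :=
          mul_le_mul_of_nonneg_left e2 (Real.exp_pos _).le
      _ = (Real.exp (-(L ^ 2 / 16)) * s ^ 20) * C := by ring
      _ ≤ 1 * C := mul_le_mul_of_nonneg_right e1 hC.le
      _ = C := one_mul _
  calc 2 * (B0 ^ 2 * (4 * Real.exp (-(L ^ 2 / 16)) * (E * K ^ 2))) =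
      (B0 ^ 2 * K / g ^ 3) * (Real.exp (-(L ^ 2 / 16)) * (8 * (E * K * g ^ 3))) := by
        field_simp
        ring
    _ ≤ (B0 ^ 2 * K / g ^ 3) * C := mul_le_mul_of_nonneg_left e3 (by positivity)
    _ = _ := by ring

end Sy

end Pool.Agent.N792
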