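import Mathlib
import Pool.Agent.N792.Defs
import Pool.Agent.N792.RhA
import Pool.Agent.N792.ShpA
import Pool.Agent.N792.TG6

/-!
The average number of the roots modulo a rough squarefree number (helper899, for helper792).
-/

set_option autoImplicit false

namespace Pool.Agent.N792

open Finset Filter Topology
open ArithmeticFunction (moebius vonMangoldt)

namespace RhB

/-- the sum of the Jacobi symbols of the discriminants -/
lemma lin_sum (a b : ℤ) (C M : ℕ) (hM2 : 2 ≤ M) (hneg : ∃ t : ℕ, jacobiSym (t : ℤ) M = -1)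
    (hpr : ∀ p : ℕ, p.Prime → p ∣ M → p ≠ 2 ∧ ¬ (p : ℤ) ∣ a) :
    |∑ c ∈ Icc 1 C, ((jacobiSym (b ^ 2 - 4 * a * (c : ℕ)) M : ℤ) : ℝ)|
      ≤ 8 * Real.sqrt (M : ℝ) * (1 + Real.log (M : ℝ)) := by
  have hne0 : NeZero M := ⟨by omega⟩
  have hcop : IsCoprime (4 * a) (M : ℤ) := by
    rw [Int.isCoprime_iff_gcd_eq_one]
    by_contra hg
    obtain ⟨p, hp, hpg⟩ := Nat.exists_prime_and_dvd hg
    have hp1 : (p : ℤ) ∣ 4 * a := (Int.natCast_dvd_natCast.mpr hpg).trans (Int.gcd_dvd_left _ _)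
    have hp2 : (p : ℤ) ∣ (M : ℤ) := (Int.natCast_dvd_natCast.mpr hpg).trans (Int.gcd_dvd_right _ _)
    have hp2' : p ∣ M := by exact_mod_cast hp2
    have h3 : p ≠ 2 ∧ ¬ (p : ℤ) ∣ a := hpr p hp hp2'
    have hpI : Prime (p : ℤ) := Nat.prime_iff_prime_int.mp hp
    rcases hpI.dvd_or_dvd hp1 with h | h
    · have h4 : p ∣ 2 ^ 2 := by
        have : (p : ℤ) ∣ ((2 ^ 2 : ℕ) : ℤ) := by simpa using h
        exact_mod_cast this
      exact h3.1 ((Nat.prime_dvd_prime_iff_eq hp Nat.prime_two).mp (hp.dvd_of_dvd_pow h4))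
    · exact h3.2 h
  obtain ⟨u, v, huv⟩ := hcop
  have hM0 : (M : ℤ) ≠ 0 := by
    have : M ≠ 0 := by omega
    exact_mod_cast this
  obtain ⟨n0, hn0⟩ : ∃ n0 : ℕ, (n0 : ℤ) = (-(b ^ 2) * u) % M :=
    ⟨((-(b ^ 2) * u) % M).toNat, Int.toNat_of_nonneg (Int.emod_nonneg _ hM0)⟩
  have hcong : ∀ c : ℕ, jacobiSym (b ^ 2 - 4 * a * (c : ℕ)) M
      = jacobiSym (4 * a) M * jacobiSym (-(((n0 + c : ℕ)) : ℤ)) M := by
    intro c
    rw [← jacobiSym.mul_left, jacobiSym.mod_left (b ^ 2 - 4 * a * (c : ℕ)),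
      jacobiSym.mod_left (4 * a * (-(((n0 + c : ℕ)) : ℤ)))]
    congr 1
    have h5 : (M : ℤ) ∣ (4 * a * (-(((n0 + c : ℕ)) : ℤ))) - (b ^ 2 - 4 * a * (c : ℕ)) := by
      have h6 : (M : ℤ) ∣ (n0 : ℤ) - (-(b ^ 2) * u) := by
        rw [hn0]
        exact ⟨-((-(b ^ 2) * u) / M), by
          have := Int.mul_ediv_add_emod (-(b ^ 2) * u) M
          linarith⟩
      obtain ⟨k, hk⟩ := h6
      refine ⟨-(4 * a * k) - b ^ 2 * v, ?_⟩
      push_cast
      linear_combination (-(4 * a)) * hk + (b ^ 2) * huv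
    exact ((Int.emod_emod_of_dvd _ (dvd_refl _)).symm.trans
      (by rw [Int.emod_emod_of_dvd _ (dvd_refl _)]; exact (Int.modEq_iff_dvd.mpr h5)))
  have e1 : ∑ c ∈ Icc 1 C, ((jacobiSym (b ^ 2 - 4 * a * (c : ℕ)) M : ℤ) : ℝ)
      = ((jacobiSym (4 * a) M : ℤ) : ℝ) * ∑ n ∈ Ioc n0 (n0 + C), ((jacobiSym (-(n : ℤ)) M : ℤ) : ℝ) := by
    have e2 : ∑ n ∈ Ioc n0 (n0 + C), ((jacobiSym (-(n : ℤ)) M : ℤ) : ℝ)
        = ∑ c ∈ Icc 1 C, ((jacobiSym (-((n0 + c : ℕ) : ℤ)) M : ℤ) : ℝ) := by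
      symm
      refine sum_bij (fun c _ => n0 + c) ?_ ?_ ?_ ?_
      · intro c hc
        rw [mem_Icc] at hc
        rw [mem_Ioc]
        omega
      · intro c _ c' _ h
        exact Nat.add_left_cancel h
      · intro n hn
        rw [mem_Ioc] at hn
        exact ⟨n - n0, by rw [mem_Icc]; omega, by omega⟩
      · intro c _
        rfl
    rw [e2, mul_sum]
    refine sum_congr rfl fun c _ => ?_
    rw [← Int.cast_mul, ← hcong c]
  rw [e1, abs_mul]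
  have h7 := Pool.Agent.H568.SP.jac_Ioc_le M hM2 hneg n0 C
  have h8 := Pool.Agent.H568.SP.jac_abs_le (4 * a) M
  calc |((jacobiSym (4 * a) M : ℤ) : ℝ)| * |∑ n ∈ Ioc n0 (n0 + C), ((jacobiSym (-(n : ℤ)) M : ℤ) : ℝ)|
      ≤ 1 * (8 * Real.sqrt M * (1 + Real.log M)) := by gcongr
    _ = _ := by rw [one_mul]

lemma card_div_le (η : ℝ) (hη : 0 < η) : ∀ᶠ x : ℕ in atTop, ∀ z m : ℕ, (x : ℝ) ^ η ≤ z → m ≤ x ^ 2 →
    Rough z m → (#m.divisors : ℝ) ≤ (2 : ℝ) ^ (2 / η) := by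
  filter_upwards [eventually_ge_atTop 3] with x hx3
  intro z m hz hm hr
  obtain ⟨n, h1, h2⟩ := Shp.card_div_rough hr
  have hx1 : (1 : ℝ) < x := by exact_mod_cast (by omega : 1 < x)
  have h3 : (x : ℝ) ^ (η * n) ≤ (x : ℝ) ^ (2 : ℝ) := by
    rw [Real.rpow_mul (by linarith), Real.rpow_natCast]
    calc ((x : ℝ) ^ η) ^ n ≤ (z : ℝ) ^ n := pow_le_pow_left₀ (by positivity) hz n
      _ ≤ m := by exact_mod_cast h2
      _ ≤ (x : ℝ) ^ 2 := by exact_mod_cast hm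
      _ = (x : ℝ) ^ (2 : ℝ) := by norm_cast
  have h4 : η * n ≤ 2 := (Real.rpow_le_rpow_left_iff hx1).1 h3
  have h5 : (n : ℝ) ≤ 2 / η := by
    rw [le_div_iff₀ hη]
    linarith
  calc (#m.divisors : ℝ) ≤ (2 : ℝ) ^ n := by exact_mod_cast h1
    _ = (2 : ℝ) ^ (n : ℝ) := by rw [Real.rpow_natCast]
    _ ≤ (2 : ℝ) ^ (2 / η) := Real.rpow_le_rpow_of_exponent_le (by norm_num) h5

end RhB

/-- **the average number of the roots** -/
theorem rho_count2 (a : ℤ) (ha : 0 < a) (b : ℤ) (η : ℝ) (hη : 0 < η) :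
    ∃ x0 : ℕ, ∀ x : ℕ, x0 ≤ x → ∀ C z m : ℕ, (x : ℝ) ^ (9 / 10 : ℝ) ≤ C → C ≤ x → (x : ℝ) ^ η ≤ z → m ≤ x →
    Squarefree m → Rough z m → ∑ c ∈ Icc 1 C, (rho a b (c : ℕ) m : ℝ) ≤ 2 * C := by
  have e1 := RhB.card_div_le η hη
  have e2 := ev_log_pow (2 * a + 1) 0 hη
  have e3 := ev_log_pow ((2 : ℝ) ^ (2 / η) * 16) 1 (by norm_num : (0 : ℝ) < 2 / 5)
  have e4 : ∀ᶠ x : ℕ in atTop, (1 : ℝ) ≤ Real.log x := Shp.log_ge 1
  obtain ⟨x0, hx0⟩ := eventually_atTop.1 (((e1.and e2).and e3).and e4)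
  refine ⟨max x0 3, fun x hx C z m hC1 hC2 hz hm hsq hr => ?_⟩
  obtain ⟨⟨⟨f1, f2⟩, f3⟩, f4⟩ := hx0 x ((le_max_left _ _).trans hx)
  have hx3 : 3 ≤ x := (le_max_right _ _).trans hx
  rw [pow_zero, mul_one] at f2
  rw [pow_one] at f3
  have hxpos : (0 : ℝ) < x := by
    have : 0 < x := by omega
    exact_mod_cast this
  have hx1' : (1 : ℝ) ≤ x := by
    have : 1 ≤ x := by omega
    exact_mod_cast this
  have hza : 2 * a < z := by
    have h1 : (2 * (a : ℝ)) < z := by linarith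
    exact_mod_cast h1
  have hm0 : m ≠ 0 := hr.1
  have hcard : (#m.divisors : ℝ) ≤ (2 : ℝ) ^ (2 / η) := f1 z m hz (by nlinarith) hr
  have h1 : ∀ c ∈ Icc 1 C, (rho a b (c : ℕ) m : ℝ) =
      ∑ d ∈ m.divisors, ((jacobiSym (b ^ 2 - 4 * a * (c : ℕ)) d : ℤ) : ℝ) := by
    intro c _
    have h2 := RhA.rho_sum a b c m hsq (fun p hp hpm => RhA.rough_cop ha hza hr p hp hpm)
    exact_mod_cast h2
  rw [sum_congr rfl h1, sum_comm]
  have h2 : ∀ d ∈ m.divisors, ∑ c ∈ Icc 1 C, ((jacobiSym (b ^ 2 - 4 * a * (c : ℕ)) d : ℤ) : ℝ) ≤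
      (if d = 1 then (C : ℝ) else 0) + 8 * √(x : ℝ) * (1 + Real.log x) := by
    intro d hd
    rw [Nat.mem_divisors] at hd
    have hd0 : 0 < d := Nat.pos_of_dvd_of_pos hd.1 (Nat.pos_of_ne_zero hm0)
    have hdx : d ≤ x := (Nat.le_of_dvd (Nat.pos_of_ne_zero hm0) hd.1).trans hm
    have hnn : 0 ≤ 8 * √(x : ℝ) * (1 + Real.log x) := by positivity
    by_cases hd1 : d = 1
    · subst hd1
      simp only [jacobiSym.one_right, Int.cast_one, sum_const, Nat.card_Icc, Nat.add_sub_cancel, nsmul_eq_mul,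
        mul_one, if_true]
      linarith
    · rw [if_neg hd1, zero_add]
      have hsd : Squarefree d := hsq.squarefree_of_dvd hd.1
      have hrd : Rough z d := RhA.rough_of_dvd hr hd.1
      have hpr : ∀ p : ℕ, p.Prime → p ∣ d → p ≠ 2 ∧ ¬ (p : ℤ) ∣ a := fun p hp hpd =>
        RhA.rough_cop ha hza hrd p hp hpd
      have hodd : Odd d := by
        rw [← Nat.not_even_iff_odd]
        intro he
        exact (hpr 2 Nat.prime_two he.two_dvd).1 rfl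
      obtain ⟨t, ht⟩ := Pool.Agent.H379R2.W.exists_neg_one hsd squarefree_one hodd odd_one hd1
      have ht' : jacobiSym (t : ℤ) d = -1 := by
        rw [mul_one] at ht
        exact ht
      refine (le_abs_self _).trans ((RhB.lin_sum a b C d (by omega) ⟨t, ht'⟩ hpr).trans ?_)
      have hdR : (d : ℝ) ≤ x := by exact_mod_cast hdx
      have hdR0 : (0 : ℝ) < d := by exact_mod_cast hd0
      have h3 : √(d : ℝ) ≤ √(x : ℝ) := Real.sqrt_le_sqrt hdR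
      have h4 : Real.log d ≤ Real.log x := Real.log_le_log hdR0 hdR
      have h5 : 0 ≤ Real.log (d : ℝ) := Real.log_nonneg (by exact_mod_cast hd0)
      gcongr
  refine (sum_le_sum h2).trans ?_
  rw [sum_add_distrib, sum_ite_eq', if_pos (Nat.one_mem_divisors.2 hm0), sum_const, nsmul_eq_mul]
  have h3 : (#m.divisors : ℝ) * (8 * √(x : ℝ) * (1 + Real.log x)) ≤ C := by
    calc (#m.divisors : ℝ) * (8 * √(x : ℝ) * (1 + Real.log x)) ≤
        (2 : ℝ) ^ (2 / η) * (8 * √(x : ℝ) * (2 * Real.log x)) := by gcongr; linarith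
      _ = ((2 : ℝ) ^ (2 / η) * 16 * Real.log x) * √(x : ℝ) := by ring
      _ ≤ (x : ℝ) ^ (2 / 5 : ℝ) * √(x : ℝ) := by gcongr
      _ = (x : ℝ) ^ (9 / 10 : ℝ) := by
          rw [Real.sqrt_eq_rpow, ← Real.rpow_add hxpos]
          norm_num
      _ ≤ C := hC1
  linarith

end Pool.Agent.N792
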