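import Mathlib
import Pool.Agent.N792.Defs2

/-!
Preparations for the main term of the type II sums (helper96, for the project of helper792): dyadic cells,
initial segments, comparison of a sum with the square root.
-/

set_option autoImplicit false

namespace Pool.Agent.N792
open Finset Filter Topology

namespace Mtm

/-! ### Cells -/

lemma cell_facts {t k : ℕ} (hk : 2 ^ t + 1 ≤ k) : ∃ i : ℕ, i = Nat.log 2 (k - 1) ∧ t ≤ i ∧ 2 ^ i ≤ k - 1 ∧
    k - 1 < 2 ^ (i + 1) ∧ cs t k = 2 ^ (i - t) ∧ cl t k < k ∧ k ≤ cl t k + cs t k ∧ 2 ^ i ≤ cl t k ∧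
    cl t k + cs t k ≤ 2 ^ (i + 1) := by
  have h1 : k - 1 ≠ 0 := by
    have : 0 < 2 ^ t := by positivity
    omega
  obtain ⟨i, hi⟩ : ∃ i, i = Nat.log 2 (k - 1) := ⟨_, rfl⟩
  have h2 : 2 ^ i ≤ k - 1 := by rw [hi]; exact Nat.pow_log_le_self 2 h1
  have h3 : k - 1 < 2 ^ (i + 1) := by rw [hi]; exact Nat.lt_pow_succ_log_self (by norm_num) _
  have h4 : t ≤ i := by
    rw [hi]
    exact Nat.le_log_of_pow_le (by norm_num) (by omega)
  have h5 : cs t k = 2 ^ (i - t) := by unfold cs; rw [hi]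
  have h6 : 0 < cs t k := by rw [h5]; positivity
  have h7 : cl t k ≤ k - 1 := by unfold cl; exact Nat.div_mul_le_self _ _
  have h8 : k - 1 < cl t k + cs t k := by
    unfold cl
    exact Nat.lt_div_mul_add h6
  have e1 : 2 ^ i = 2 ^ t * cs t k := by
    rw [h5, ← pow_add]
    congr 1
    omega
  have e2 : 2 ^ (i + 1) = 2 * 2 ^ t * cs t k := by rw [pow_succ, e1]; ring
  refine ⟨i, hi, h4, h2, h3, h5, by omega, by omega, ?_, ?_⟩
  · rw [e1]
    unfold cl
    apply Nat.mul_le_mul_right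
    rw [Nat.le_div_iff_mul_le h6, ← e1]
    exact h2
  · have h9 : (k - 1) / cs t k < 2 * 2 ^ t := by
      rw [Nat.div_lt_iff_lt_mul h6, ← e2]
      exact h3
    rw [e2]
    unfold cl
    calc (k - 1) / cs t k * cs t k + cs t k = ((k - 1) / cs t k + 1) * cs t k := by ring
      _ ≤ 2 * 2 ^ t * cs t k := Nat.mul_le_mul_right _ h9

lemma cs_pos (t k : ℕ) : 0 < cs t k := by unfold cs; positivity

lemma cell_same {t k k' : ℕ} (hk : 2 ^ t + 1 ≤ k) (h1 : cl t k < k') (h2 : k' ≤ cl t k + cs t k) :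
    cs t k' = cs t k ∧ cl t k' = cl t k ∧ 2 ^ t + 1 ≤ k' := by
  obtain ⟨i, hi, a1, a2, a3, a4, a5, a6, a7, a8⟩ := cell_facts hk
  have b1 : 2 ^ i ≤ k' - 1 := by omega
  have b2 : k' - 1 < 2 ^ (i + 1) := by omega
  have b3 : Nat.log 2 (k' - 1) = i := by
    rw [Nat.log_eq_iff]
    · exact ⟨b1, b2⟩
    · right
      have : 0 < 2 ^ i := by positivity
      exact ⟨by norm_num, by omega⟩
  have b4 : cs t k' = cs t k := by
    rw [a4]
    unfold cs
    rw [b3]
  refine ⟨b4, ?_, ?_⟩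
  · have e : (k' - 1) / cs t k' = (k - 1) / cs t k := by
      rw [b4]
      have h3 : (k - 1) / cs t k * cs t k = cl t k := rfl
      rw [Nat.div_eq_iff (cs_pos t k)]
      constructor
      · rw [h3]; omega
      · rw [h3]; omega
    unfold cl
    rw [e, b4]
  · have : 2 ^ t ≤ 2 ^ i := Nat.pow_le_pow_right (by norm_num) a1
    omega

/-- the first element of the cell -/
lemma cell_first {t k : ℕ} (hk : 2 ^ t + 1 ≤ k) :
    cs t (cl t k + 1) = cs t k ∧ cl t (cl t k + 1) = cl t k ∧ 2 ^ t + 1 ≤ cl t k + 1 :=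
  cell_same hk (Nat.lt_succ_self _) (by have := cs_pos t k; omega)

/-- membership in a cell -/
lemma cell_iff {t k0 k : ℕ} (hk0 : 2 ^ t + 1 ≤ k0) (hk : 2 ^ t + 1 ≤ k) :
    cl t k = cl t k0 ↔ cl t k0 < k ∧ k ≤ cl t k0 + cs t (cl t k0 + 1) := by
  obtain ⟨e1, e2, e3⟩ := cell_first hk0
  constructor
  · intro h
    obtain ⟨i, hi, a1, a2, a3, a4, a5, a6, a7, a8⟩ := cell_facts hk
    obtain ⟨f1, f2, f3⟩ := cell_first hk
    rw [h] at a5 a6 f1
    exact ⟨a5, by omega⟩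
  · rintro ⟨h1, h2⟩
    rw [e1] at h2
    exact (cell_same hk0 h1 h2).2.1

lemma dens_first {t : ℕ} (β : ℕ → ℝ) {k : ℕ} (hk : 2 ^ t + 1 ≤ k) : dens t β k = dens t β (cl t k + 1) := by
  obtain ⟨e1, e2, e3⟩ := cell_first hk
  unfold dens
  rw [e1, e2]

lemma dens_abs {t : ℕ} {β : ℕ → ℝ} {B : ℝ} (hβ : ∀ k, |β k| ≤ B) (k : ℕ) : |dens t β k| ≤ B := by
  unfold dens
  have h0 : (0 : ℝ) < cs t k := by exact_mod_cast cs_pos t k
  rw [abs_div, abs_of_pos h0, div_le_iff₀ h0]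
  refine (abs_sum_le_sum_abs _ _).trans ?_
  calc ∑ i ∈ Ioc (cl t k) (cl t k + cs t k), |β i| ≤ ∑ _i ∈ Ioc (cl t k) (cl t k + cs t k), B :=
        sum_le_sum fun i _ => hβ i
    _ = B * cs t k := by
        rw [sum_const, Nat.card_Ioc, nsmul_eq_mul, Nat.add_sub_cancel_left]
        ring

/-- the sum of `dens - β` over a cell vanishes -/
lemma dens_sum {t : ℕ} (β : ℕ → ℝ) {k : ℕ} (hk : 2 ^ t + 1 ≤ k) :
    ∑ k' ∈ Ioc (cl t k) (cl t k + cs t (cl t k + 1)), (dens t β (cl t k + 1) - β k') = 0 := by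
  obtain ⟨e1, e2, e3⟩ := cell_first hk
  rw [e1, ← dens_first β hk, sum_sub_distrib, sum_const, Nat.card_Ioc, nsmul_eq_mul, Nat.add_sub_cancel_left]
  unfold dens
  have h0 : (0 : ℝ) < cs t k := by exact_mod_cast cs_pos t k
  field_simp
  ring

/-- the length of a cell is small compared with its lower end -/
lemma cell_len {t k : ℕ} (hk : 2 ^ t + 1 ≤ k) : 2 ^ t * cs t (cl t k + 1) ≤ cl t k := by
  obtain ⟨e1, e2, e3⟩ := cell_first hk
  obtain ⟨i, hi, a1, a2, a3, a4, a5, a6, a7, a8⟩ := cell_facts hk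
  rw [e1, a4, ← pow_add]
  have : t + (i - t) = i := by omega
  rw [this]
  exact a7

/-- the number of cells -/
lemma card_cells (t X : ℕ) : #((Icc (2 ^ t + 1) X).image (cl t)) ≤ (Nat.log 2 X + 1) * 2 ^ (t + 1) := by
  have h1 : (Icc (2 ^ t + 1) X).image (cl t) ⊆
      (range (Nat.log 2 X + 1) ×ˢ range (2 ^ (t + 1))).image (fun p : ℕ × ℕ => p.2 * 2 ^ (p.1 - t)) := by
    intro K hK
    rw [mem_image] at hK
    obtain ⟨k, hk, rfl⟩ := hK
    rw [mem_Icc] at hk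
    obtain ⟨i, hi, a1, a2, a3, a4, a5, a6, a7, a8⟩ := cell_facts hk.1
    rw [mem_image]
    refine ⟨(i, (k - 1) / cs t k), ?_, ?_⟩
    · rw [mem_product, mem_range, mem_range]
      constructor
      · have hle : k - 1 ≤ X := by omega
        have hlog : Nat.log 2 (k - 1) ≤ Nat.log 2 X := Nat.log_mono_right hle
        simp only
        omega
      · simp only
        rw [Nat.div_lt_iff_lt_mul (cs_pos t k)]
        have e : 2 ^ (t + 1) * cs t k = 2 ^ (i + 1) := by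
          rw [a4, ← pow_add]
          congr 1
          omega
        rw [e]
        exact a3
    · simp only
      rw [← a4]
      rfl
  refine (card_le_card h1).trans (card_image_le.trans ?_)
  rw [card_product, card_range, card_range]

/-! ### Initial segments -/

lemma initial_seg (x1 x : ℕ) (hx : x1 ≤ x) (P : ℕ → Prop) (h : ∀ n n', x1 < n → n ≤ n' → n' ≤ x → P n' → P n) :
    ∃ ν, x1 ≤ ν ∧ ν ≤ x ∧ ∀ n, x1 < n → n ≤ x → (P n ↔ n ≤ ν) := by
  classical
  induction x, hx using Nat.le_induction with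
  | base => exact ⟨x1, le_rfl, le_rfl, fun n h1 h2 => by omega⟩
  | succ x hx ih =>
    by_cases hP : P (x + 1)
    · exact ⟨x + 1, by omega, le_rfl, fun n h1 h2 => ⟨fun _ => h2, fun _ => h n (x + 1) h1 h2 le_rfl hP⟩⟩
    · obtain ⟨ν, h1, h2, h3⟩ := ih (fun n n' a1 a2 a3 => h n n' a1 a2 (by omega))
      refine ⟨ν, h1, by omega, fun n a1 a2 => ?_⟩
      by_cases hn : n = x + 1
      · subst hn
        exact ⟨fun h' => absurd h' hP, fun h' => by omega⟩
      · exact h3 n a1 (by omega)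

/-! ### The square root -/

/-- `√(u / a)` -/
noncomputable def gg (a : ℤ) (u : ℝ) : ℝ := √(u / a)

lemma gg_mono {a : ℤ} (ha : 0 < a) {u v : ℝ} (h : u ≤ v) : gg a u ≤ gg a v := by
  unfold gg
  apply Real.sqrt_le_sqrt
  have : (0 : ℝ) < a := by exact_mod_cast ha
  gcongr

lemma gg_nonneg (a : ℤ) (u : ℝ) : 0 ≤ gg a u := Real.sqrt_nonneg _

lemma gg_sq {a : ℤ} (ha : 0 < a) {u : ℝ} (hu : 0 ≤ u) : a * gg a u ^ 2 = u := by
  have h : (0 : ℝ) < a := by exact_mod_cast ha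
  unfold gg
  rw [Real.sq_sqrt (by positivity)]
  field_simp

lemma gg_pos {a : ℤ} (ha : 0 < a) {u : ℝ} (hu : 0 < u) : 0 < gg a u := by
  have h : (0 : ℝ) < a := by exact_mod_cast ha
  unfold gg
  apply Real.sqrt_pos.2
  positivity

lemma hw_eq {a : ℤ} (ha : 0 < a) (N : ℕ) : hw a N = 1 / (2 * (a * gg a N)) := by
  have h : (0 : ℝ) < a := by exact_mod_cast ha
  unfold hw gg
  congr 2
  have e : (a : ℝ) * N = a ^ 2 * (N / a) := by field_simp
  rw [e, Real.sqrt_mul (by positivity), Real.sqrt_sq h.le]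

lemma hw_nonneg (a : ℤ) (N : ℕ) : 0 ≤ hw a N := by unfold hw; positivity

lemma hw_anti {a : ℤ} (ha : 0 < a) {M N : ℕ} (hM : 1 ≤ M) (h : M ≤ N) : hw a N ≤ hw a M := by
  have h0 : (0 : ℝ) < a := by exact_mod_cast ha
  have hM0 : (0 : ℝ) < M := by exact_mod_cast hM
  have hMN : (M : ℝ) ≤ N := by exact_mod_cast h
  unfold hw
  apply one_div_le_one_div_of_le (by positivity)
  have : √((a : ℝ) * M) ≤ √((a : ℝ) * N) := Real.sqrt_le_sqrt (by gcongr)
  linarith

/-- one step -/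
lemma gg_step {a : ℤ} (ha : 0 < a) {u v : ℝ} (hu : 0 < u) (huv : u ≤ v) :
    (v - u) * (1 / (2 * (a * gg a v))) ≤ gg a v - gg a u ∧
    gg a v - gg a u ≤ (v - u) * (1 / (2 * (a * gg a u))) := by
  have h0 : (0 : ℝ) < a := by exact_mod_cast ha
  have e1 := gg_sq ha hu.le
  have e2 := gg_sq ha (hu.le.trans huv)
  have p1 := gg_pos ha hu
  have p2 := gg_pos ha (lt_of_lt_of_le hu huv)
  have m := gg_mono ha huv
  obtain ⟨p, hp⟩ : ∃ p, p = gg a u := ⟨_, rfl⟩
  obtain ⟨q, hq⟩ : ∃ q, q = gg a v := ⟨_, rfl⟩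
  rw [← hp] at e1 p1 m ⊢
  rw [← hq] at e2 p2 m ⊢
  have e3 : v - u = a * (q - p) * (q + p) := by rw [← e1, ← e2]; ring
  rw [e3]
  constructor
  · rw [mul_one_div, div_le_iff₀ (by positivity)]
    have h1 : 0 ≤ a * (q - p) * (q - p) := by
      have : 0 ≤ q - p := by linarith
      positivity
    nlinarith
  · rw [mul_one_div, le_div_iff₀ (by positivity)]
    have h1 : 0 ≤ a * (q - p) * (q - p) := by
      have : 0 ≤ q - p := by linarith
      positivity
    nlinarith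

/-- comparison of the sum of `m hw (m k)` with the square root -/
lemma sum_hw {a : ℤ} (ha : 0 < a) {m k1 : ℕ} (hm : 1 ≤ m) (hk1 : 1 ≤ k1) {k2 : ℕ} (h12 : k1 ≤ k2) :
    ∑ k ∈ Ioc k1 k2, (m : ℝ) * hw a (m * k) ≤ gg a ((m * k2 : ℕ) : ℝ) - gg a ((m * k1 : ℕ) : ℝ) ∧
    gg a ((m * k2 : ℕ) : ℝ) - gg a ((m * k1 : ℕ) : ℝ) ≤
      ∑ k ∈ Ioc k1 k2, (m : ℝ) * hw a (m * k) + m * hw a (m * k1) - m * hw a (m * k2) := by
  induction k2, h12 using Nat.le_induction with
  | base => simp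
  | succ k hk ih =>
    have hstep := gg_step ha (u := ((m * k : ℕ) : ℝ)) (v := ((m * (k + 1) : ℕ) : ℝ))
      (by exact_mod_cast Nat.mul_pos hm (by omega : 0 < k))
      (by exact_mod_cast Nat.mul_le_mul_left m (Nat.le_succ k))
    rw [← hw_eq ha, ← hw_eq ha] at hstep
    have e : ((m * (k + 1) : ℕ) : ℝ) - ((m * k : ℕ) : ℝ) = m := by push_cast; ring
    rw [e] at hstep
    rw [← Finset.insert_Ioc_right_eq_Ioc_add_one hk, Finset.sum_insert (by simp)]
    constructor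
    · linarith [hstep.1, ih.1]
    · linarith [hstep.2, ih.2]

end Mtm

end Pool.Agent.N792
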