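import Mathlib
import Pool.Agent.N792.Mtm1

/-!
The main term of the type II sums: the comparison without asymptotics (helper96, for the project of helper792).
-/

set_option autoImplicit false

namespace Pool.Agent.N792
open Finset Filter Topology

namespace Mtm

/-! ### The polynomial -/

lemma Fn_cast {a b : ℤ} (ha : 0 < a) {n : ℕ} (hn : b.natAbs ≤ n) : ((Fn a b n : ℕ) : ℤ) = a * n ^ 2 + b * n := by
  unfold Fn fv
  have h1 : -(n : ℤ) ≤ b := by omega
  have h2 : (n : ℤ) * 1 ≤ n * a := mul_le_mul_of_nonneg_left (by omega) (by positivity)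
  have h3 : 0 ≤ a * (n : ℤ) ^ 2 + b * n := by nlinarith
  rw [Int.toNat_of_nonneg (by linarith)]
  ring

lemma fv_eq {a b : ℤ} (ha : 0 < a) {n c : ℕ} (hn : b.natAbs ≤ n) : fv a b c n = ((Fn a b n + c : ℕ) : ℤ) := by
  push_cast
  rw [Fn_cast ha hn]
  rfl

lemma Fn_mono {a b : ℤ} (ha : 0 < a) {n n' : ℕ} (hn : b.natAbs ≤ n) (h : n ≤ n') : Fn a b n ≤ Fn a b n' := by
  have h1 := Fn_cast ha hn
  have h2 := Fn_cast ha (hn.trans h)
  have h3 : (0 : ℤ) ≤ ((n' : ℤ) - n) * (a * (n + n') + b) := by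
    apply mul_nonneg (by omega)
    have h4 : (n : ℤ) * 1 ≤ n * a := mul_le_mul_of_nonneg_left (by omega) (by positivity)
    have h5 : (0 : ℤ) ≤ n' * a := by positivity
    nlinarith [(by omega : -(n : ℤ) ≤ b)]
  have h4 : (Fn a b n : ℤ) ≤ Fn a b n' := by rw [h1, h2]; nlinarith
  exact_mod_cast h4

lemma gg_le {a : ℤ} (ha : 0 < a) {u y : ℝ} (hy : 0 ≤ y) (h : u ≤ a * y ^ 2) : gg a u ≤ y := by
  have h0 : (0 : ℝ) < a := by exact_mod_cast ha
  unfold gg
  apply Real.sqrt_le_iff.2 ⟨hy, ?_⟩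
  rw [div_le_iff₀ h0]
  linarith

lemma le_gg {a : ℤ} (ha : 0 < a) {u y : ℝ} (hy : 0 ≤ y) (h : a * y ^ 2 ≤ u) : y ≤ gg a u := by
  have h0 : (0 : ℝ) < a := by exact_mod_cast ha
  unfold gg
  apply Real.le_sqrt_of_sq_le
  rw [le_div_iff₀ h0]
  linarith

lemma gg_Fn_lo {a b : ℤ} (ha : 0 < a) {n : ℕ} (hn : b.natAbs ≤ n) : (n : ℝ) - b.natAbs ≤ gg a (Fn a b n : ℕ) := by
  have hnr : (b.natAbs : ℝ) ≤ n := by exact_mod_cast hn
  have ha1 : (1 : ℝ) ≤ a := by exact_mod_cast ha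
  apply le_gg ha (by linarith)
  have h1 : ((Fn a b n : ℕ) : ℝ) = a * n ^ 2 + b * n := by exact_mod_cast Fn_cast ha hn
  have h2 : -(b.natAbs : ℝ) ≤ b := by
    have : -(b.natAbs : ℤ) ≤ b := by omega
    exact_mod_cast this
  rw [h1]
  obtain ⟨B, hB⟩ : ∃ B : ℝ, B = b.natAbs := ⟨_, rfl⟩
  rw [← hB] at h2 hnr ⊢
  have hB0 : 0 ≤ B := by rw [hB]; positivity
  have hn0 : (0 : ℝ) ≤ n := by positivity
  have h3 : -B * n ≤ b * n := mul_le_mul_of_nonneg_right h2 hn0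
  have h4 : 0 ≤ (a - 1) * (B * (2 * n - B)) := by
    apply mul_nonneg (by linarith)
    apply mul_nonneg hB0 (by linarith)
  have h5 : 0 ≤ B * (n - B) := mul_nonneg hB0 (by linarith)
  nlinarith

lemma gg_Fn_hi {a b : ℤ} (ha : 0 < a) {n : ℕ} (hn : b.natAbs ≤ n) (c : ℕ) {s : ℝ} (hs : 0 ≤ s)
    (hc : (c : ℝ) ≤ s * n) : gg a ((Fn a b n + c : ℕ) : ℝ) ≤ n + (b.natAbs + s) := by
  have ha1 : (1 : ℝ) ≤ a := by exact_mod_cast ha
  apply gg_le ha (by positivity)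
  have h1 : ((Fn a b n : ℕ) : ℝ) = a * n ^ 2 + b * n := by exact_mod_cast Fn_cast ha hn
  have h2 : (b : ℝ) ≤ b.natAbs := by
    rw [Nat.cast_natAbs]
    push_cast
    exact le_abs_self _
  push_cast
  rw [h1]
  obtain ⟨B, hB⟩ : ∃ B : ℝ, B = b.natAbs := ⟨_, rfl⟩
  rw [← hB] at h2 ⊢
  have hB0 : 0 ≤ B := by rw [hB]; positivity
  have hn0 : (0 : ℝ) ≤ n := by positivity
  have h3 : (b : ℝ) * n ≤ B * n := mul_le_mul_of_nonneg_right h2 hn0
  have h4 : 0 ≤ (a - 1) * (2 * n * (B + s)) := by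
    apply mul_nonneg (by linarith)
    positivity
  have h5 : 0 ≤ a * (B + s) ^ 2 := by positivity
  have h6 : 0 ≤ n * (B + s) := by positivity
  nlinarith

/-- the number of the arguments below a given value -/
lemma nu_exists {a b : ℤ} (ha : 0 < a) {R x1 x c : ℕ} (hx : x1 < x) (hb : b.natAbs ≤ x1) (hR : x ≤ R * x1)
    (hc : c ≤ x) (u : ℕ) : ∃ ν : ℕ, x1 ≤ ν ∧ ν ≤ x ∧ (∀ n, x1 < n → n ≤ x → (Fn a b n + c ≤ u ↔ n ≤ ν)) ∧
    |(ν : ℝ) - gg a ((min (max u (Fn a b x1)) (Fn a b x) : ℕ) : ℝ)| ≤ 1 + b.natAbs + R := by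
  obtain ⟨ν, h1, h2, h3⟩ := initial_seg x1 x hx.le (fun n => Fn a b n + c ≤ u) (by
    intro n n' a1 a2 a3 a4
    have := Fn_mono ha (b := b) (n := n) (by omega) a2
    omega)
  refine ⟨ν, h1, h2, h3, ?_⟩
  have hF1 := Fn_mono ha hb h1
  have hF2 := Fn_mono ha (hb.trans h1) h2
  have hlo : Fn a b ν ≤ min (max u (Fn a b x1)) (Fn a b x) := by
    apply le_min _ hF2
    rcases Nat.eq_or_lt_of_le h1 with h | h
    · rw [← h]; exact le_max_right _ _
    · have := (h3 ν h h2).2 le_rfl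
      exact le_trans (by omega) (le_max_left _ _)
  have hF3 := Fn_mono ha (hb.trans h1) (Nat.le_add_right ν 1)
  have hhi : min (max u (Fn a b x1)) (Fn a b x) ≤ Fn a b (ν + 1) + c := by
    rcases Nat.eq_or_lt_of_le h2 with h | h
    · rw [h] at hF3
      refine (min_le_right _ _).trans ?_
      rw [h]
      omega
    · refine (min_le_left _ _).trans ?_
      have h4 := h3 (ν + 1) (by omega) h
      have h5 : ¬ (Fn a b (ν + 1) + c ≤ u) := by
        rw [h4]; omega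
      apply max_le (by omega)
      omega
  obtain ⟨v, hv⟩ : ∃ v, v = min (max u (Fn a b x1)) (Fn a b x) := ⟨_, rfl⟩
  rw [← hv] at hlo hhi ⊢
  have g1 := gg_mono ha (show ((Fn a b ν : ℕ) : ℝ) ≤ (v : ℝ) by exact_mod_cast hlo)
  have g2 := gg_mono ha (show (v : ℝ) ≤ ((Fn a b (ν + 1) + c : ℕ) : ℝ) by exact_mod_cast hhi)
  have g3 := gg_Fn_lo ha (hb.trans h1)
  have g4 := gg_Fn_hi ha (b := b) (n := ν + 1) (by omega) c (s := R) (by positivity) (by
    have h5 : c ≤ R * (ν + 1) := hc.trans (hR.trans (Nat.mul_le_mul_left _ (by omega)))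
    exact_mod_cast h5)
  push_cast at g4 g2
  rw [abs_le]
  constructor
  · linarith
  · linarith

/-- the sum of `m hw (m k)` over the range up to `K` -/
lemma S_bound {a b : ℤ} (ha : 0 < a) {x1 x m : ℕ} (hm : 1 ≤ m) (hF : Fn a b x1 ≤ Fn a b x)
    (hkA : 1 ≤ Fn a b x1 / m) (K : ℕ) :
    |∑ k ∈ (Ioc (Fn a b x1 / m) (Fn a b x / m)).filter (fun k => k ≤ K), (m : ℝ) * hw a (m * k) -
      (gg a ((min (max (m * K) (Fn a b x1)) (Fn a b x) : ℕ) : ℝ) - gg a (Fn a b x1 : ℕ))| ≤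
      3 * (m * hw a (m * (Fn a b x1 / m))) := by
  obtain ⟨F1, hF1⟩ : ∃ F1, F1 = Fn a b x1 := ⟨_, rfl⟩
  obtain ⟨F2, hF2⟩ : ∃ F2, F2 = Fn a b x := ⟨_, rfl⟩
  rw [← hF1] at hF hkA ⊢
  rw [← hF2] at hF ⊢
  obtain ⟨kA, hA⟩ : ∃ kA, kA = F1 / m := ⟨_, rfl⟩
  obtain ⟨kB, hB⟩ : ∃ kB, kB = F2 / m := ⟨_, rfl⟩
  rw [← hA] at hkA
  rw [← hA, ← hB]
  have hAB : kA ≤ kB := by rw [hA, hB]; exact Nat.div_le_div_right hF
  have a1 : m * kA ≤ F1 := by rw [hA]; exact Nat.mul_div_le _ _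
  have a2 : F1 < m * (kA + 1) := by rw [hA]; exact Nat.lt_mul_div_succ F1 hm
  have b1 : m * kB ≤ F2 := by rw [hB]; exact Nat.mul_div_le _ _
  have b2 : F2 < m * (kB + 1) := by rw [hB]; exact Nat.lt_mul_div_succ F2 hm
  have hmk : 1 ≤ m * kA := Nat.mul_pos hm hkA
  have hw0 : 0 ≤ (m : ℝ) * hw a (m * kA) := mul_nonneg (by positivity) (hw_nonneg _ _)
  rcases Nat.lt_or_ge kA K with hK | hK
  · have e1 : (Ioc kA kB).filter (fun k => k ≤ K) = Ioc kA (min K kB) := by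
      ext k
      rw [mem_filter, mem_Ioc, mem_Ioc]
      omega
    rw [e1]
    obtain ⟨k2, hk2⟩ : ∃ k2, k2 = min K kB := ⟨_, rfl⟩
    rw [← hk2]
    have hk2A : kA ≤ k2 := by rw [hk2]; exact le_min hK.le hAB
    obtain ⟨s1, s2⟩ := sum_hw ha hm hkA hk2A
    have s3 : 0 ≤ (m : ℝ) * hw a (m * k2) := mul_nonneg (by positivity) (hw_nonneg _ _)
    -- the lower end
    have hmK : F1 ≤ m * K := a2.le.trans (Nat.mul_le_mul_left _ hK)
    have t1 := gg_step ha (u := ((m * kA : ℕ) : ℝ)) (v := (F1 : ℝ)) (by exact_mod_cast hmk) (by exact_mod_cast a1)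
    rw [← hw_eq ha, ← hw_eq ha] at t1
    have t2 : ((F1 : ℝ) - ((m * kA : ℕ) : ℝ)) * hw a (m * kA) ≤ m * hw a (m * kA) := by
      apply mul_le_mul_of_nonneg_right _ (hw_nonneg _ _)
      have : F1 ≤ m * kA + m := by
        have : m * (kA + 1) = m * kA + m := by ring
        omega
      have h5 : (F1 : ℝ) ≤ ((m * kA + m : ℕ) : ℝ) := by exact_mod_cast this
      push_cast at h5 ⊢
      linarith
    have t3 := gg_mono ha (show ((m * kA : ℕ) : ℝ) ≤ (F1 : ℝ) by exact_mod_cast a1)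
    -- the upper end
    have u1 : |gg a ((m * k2 : ℕ) : ℝ) - gg a ((min (max (m * K) F1) F2 : ℕ) : ℝ)| ≤ m * hw a (m * kA) := by
      rw [max_eq_left hmK]
      rcases Nat.lt_or_ge kB K with h | h
      · have e2 : k2 = kB := by rw [hk2]; exact min_eq_right h.le
        have e3 : min (m * K) F2 = F2 := by
          apply min_eq_right
          exact b2.le.trans (Nat.mul_le_mul_left _ h)
        rw [e2, e3]
        have hmB : 1 ≤ m * kB := hmk.trans (Nat.mul_le_mul_left _ hAB)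
        have v1 := gg_step ha (u := ((m * kB : ℕ) : ℝ)) (v := (F2 : ℝ)) (by exact_mod_cast hmB) (by exact_mod_cast b1)
        rw [← hw_eq ha, ← hw_eq ha] at v1
        have v2 : ((F2 : ℝ) - ((m * kB : ℕ) : ℝ)) * hw a (m * kB) ≤ m * hw a (m * kA) := by
          apply mul_le_mul _ (hw_anti ha hmk (Nat.mul_le_mul_left _ hAB)) (hw_nonneg _ _) (by positivity)
          have : F2 ≤ m * kB + m := by
            have : m * (kB + 1) = m * kB + m := by ring
            omega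
          have h5 : (F2 : ℝ) ≤ ((m * kB + m : ℕ) : ℝ) := by exact_mod_cast this
          push_cast at h5 ⊢
          linarith
        have v3 := gg_mono ha (show ((m * kB : ℕ) : ℝ) ≤ (F2 : ℝ) by exact_mod_cast b1)
        rw [abs_le]
        constructor <;> linarith
      · have e2 : k2 = K := by rw [hk2]; exact min_eq_left h
        have e3 : min (m * K) F2 = m * K := by
          apply min_eq_left
          exact (Nat.mul_le_mul_left _ h).trans b1
        rw [e2, e3, sub_self, abs_zero]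
        exact hw0
    rw [abs_le] at u1 ⊢
    constructor <;> linarith [u1.1, u1.2, t1.2]
  · have e1 : (Ioc kA kB).filter (fun k => k ≤ K) = ∅ := by
      rw [filter_eq_empty_iff]
      intro k hk
      rw [mem_Ioc] at hk
      omega
    have e2 : max (m * K) F1 = F1 := max_eq_right ((Nat.mul_le_mul_left _ hK).trans a1)
    rw [e1, sum_empty, e2, min_eq_left hF, sub_self, sub_zero, abs_zero]
    linarith

/-- the difference of the weights at the ends of a cell -/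
lemma hw_cell {a : ℤ} (ha : 0 < a) {m K1 h t : ℕ} (hm : 1 ≤ m) (hK : 1 ≤ K1) (hh : 2 ^ t * h ≤ K1) :
    hw a (m * K1) - hw a (m * (K1 + h)) ≤ hw a (m * K1) / 2 ^ t := by
  have h0 : (0 : ℝ) < a := by exact_mod_cast ha
  have hm0 : (0 : ℝ) < m := by exact_mod_cast hm
  have hK0 : (0 : ℝ) < K1 := by exact_mod_cast hK
  have hhr : (2 : ℝ) ^ t * h ≤ K1 := by exact_mod_cast hh
  unfold hw
  push_cast
  obtain ⟨p, hp⟩ : ∃ p, p = √((a : ℝ) * (m * K1)) := ⟨_, rfl⟩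
  obtain ⟨q, hq⟩ : ∃ q, q = √((a : ℝ) * (m * (K1 + h))) := ⟨_, rfl⟩
  have p0 : 0 < p := by rw [hp]; apply Real.sqrt_pos.2; positivity
  have q0 : 0 < q := by rw [hq]; apply Real.sqrt_pos.2; positivity
  have p2 : p ^ 2 = a * (m * K1) := by rw [hp, Real.sq_sqrt (by positivity)]
  have q2 : q ^ 2 = a * (m * (K1 + h)) := by rw [hq, Real.sq_sqrt (by positivity)]
  have pq : p ≤ q := by
    rw [hp, hq]
    apply Real.sqrt_le_sqrt
    have : (0 : ℝ) ≤ h := by positivity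
    gcongr
    linarith
  rw [← hp, ← hq]
  have h2 : (0 : ℝ) < 2 ^ t := by positivity
  -- `2^t (q - p) ≤ q`
  have key : 2 ^ t * (q - p) ≤ p := by
    have e1 : 2 ^ t * (q ^ 2 - p ^ 2) ≤ p ^ 2 := by
      rw [p2, q2]
      have : (2 : ℝ) ^ t * (a * (m * (K1 + h)) - a * (m * K1)) = a * m * (2 ^ t * h) := by ring
      rw [this]
      have e2 : (a : ℝ) * m * (2 ^ t * h) ≤ a * m * K1 := mul_le_mul_of_nonneg_left hhr (by positivity)
      linarith
    have e2 : 2 ^ t * (q - p) * (q + p) ≤ p * (q + p) := by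
      have e3 : 2 ^ t * (q - p) * (q + p) = 2 ^ t * (q ^ 2 - p ^ 2) := by ring
      rw [e3]
      nlinarith
    exact le_of_mul_le_mul_right e2 (by positivity)
  rw [div_sub_div _ _ (by positivity) (by positivity), div_div, div_le_div_iff₀ (by positivity) (by positivity)]
  have e4 : (1 * (2 * q) - 2 * p * 1) * (2 * p * 2 ^ t) = 4 * p * (2 ^ t * (q - p)) := by ring
  rw [e4]
  have e5 : 1 * (2 * p * (2 * q)) = 4 * p * q := by ring
  rw [e5]
  have e6 : 4 * p * (2 ^ t * (q - p)) ≤ 4 * p * p := mul_le_mul_of_nonneg_left key (by positivity)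
  nlinarith

/-- the total weight of a cell -/
lemma hw_len {a b : ℤ} (ha : 0 < a) {x m K1 h t : ℕ} (hm : 1 ≤ m) (hK : 1 ≤ K1) (hh : 2 ^ t * h ≤ K1)
    (hb : b.natAbs ≤ x) (hF : m * K1 ≤ Fn a b x) : (h : ℝ) * hw a (m * K1) ≤ x / (m * 2 ^ t) := by
  have h0 : (0 : ℝ) < a := by exact_mod_cast ha
  have hm0 : (0 : ℝ) < m := by exact_mod_cast hm
  have hK0 : (0 : ℝ) < K1 := by exact_mod_cast hK
  have hhr : (2 : ℝ) ^ t * h ≤ K1 := by exact_mod_cast hh
  have h2 : (0 : ℝ) < 2 ^ t := by positivity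
  have hg : gg a ((m * K1 : ℕ) : ℝ) ≤ 2 * x := by
    refine (gg_mono ha (show ((m * K1 : ℕ) : ℝ) ≤ ((Fn a b x + 0 : ℕ) : ℝ) by exact_mod_cast hF)).trans ?_
    refine (gg_Fn_hi ha hb 0 (s := 0) le_rfl (by simp)).trans ?_
    have : (b.natAbs : ℝ) ≤ x := by exact_mod_cast hb
    linarith
  have hgp := gg_pos ha (show (0 : ℝ) < ((m * K1 : ℕ) : ℝ) by exact_mod_cast Nat.mul_pos hm hK)
  have hgs := gg_sq ha (show (0 : ℝ) ≤ ((m * K1 : ℕ) : ℝ) by positivity)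
  rw [hw_eq ha]
  obtain ⟨g, hgd⟩ : ∃ g, g = gg a ((m * K1 : ℕ) : ℝ) := ⟨_, rfl⟩
  rw [← hgd] at hg hgp hgs ⊢
  rw [mul_one_div, div_le_div_iff₀ (by positivity) (by positivity)]
  push_cast at hgs
  calc (h : ℝ) * (m * 2 ^ t) = m * (2 ^ t * h) := by ring
    _ ≤ m * K1 := mul_le_mul_of_nonneg_left hhr hm0.le
    _ = a * g ^ 2 := hgs.symm
    _ = (a * g) * g := by ring
    _ ≤ (a * g) * (2 * x) := mul_le_mul_of_nonneg_left hg (by positivity)
    _ = x * (2 * (a * g)) := by ring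

end Mtm

end Pool.Agent.N792
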