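import Mathlib
import Pool.Agent.N792.Defs2
import Pool.Agent.N792.Mtm2
import Pool.Agent.N792.TD
import Pool.Agent.N792.TE

/-!
Identities for the type II sums (helper792).
-/

set_option autoImplicit false

namespace Pool.Agent.N792

open Finset Filter Topology

lemma rg_range (z m : ℕ) : 0 ≤ rg z m ∧ rg z m ≤ 1 := by
  unfold rg
  split_ifs <;> norm_num

/-- the function truncated at `X` -/
noncomputable def tb (X z : ℕ) (g : ℕ → ℝ) (k : ℕ) : ℝ := if k ≤ X then rg z k * g k else 0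

lemma rg_mul {z m k : ℕ} (hm : m ≠ 0) (hk : k ≠ 0) : rg z (m * k) = rg z m * rg z k := by
  classical
  have h1 : Rough z (m * k) ↔ Rough z m ∧ Rough z k := by
    constructor
    · intro h
      exact ⟨⟨hm, fun p hp hpd => h.2 p hp (hpd.mul_right _)⟩, ⟨hk, fun p hp hpd => h.2 p hp (hpd.mul_left _)⟩⟩
    · rintro ⟨h1, h2⟩
      refine ⟨mul_ne_zero hm hk, fun p hp hpd => ?_⟩
      rcases (hp.dvd_mul).1 hpd with h3 | h3
      · exact h1.2 p hp h3
      · exact h2.2 p hp h3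
  unfold rg
  by_cases ha : Rough z m <;> by_cases hb : Rough z k <;> simp [h1, ha, hb]

lemma conv_val {z U y N : ℕ} (hN : N ≠ 0) (f g : ℕ → ℝ) :
    rg z N * ∑ j ∈ N.divisors.filter (fun j => U < j ∧ j ≤ y), f j * g (N / j) =
      ∑ m ∈ Ioc U y, if m ∣ N then (rg z m * f m) * (rg z (N / m) * g (N / m)) else 0 := by
  rw [mul_sum, ← sum_filter]
  have h1 : N.divisors.filter (fun j => U < j ∧ j ≤ y) = (Ioc U y).filter (fun m => m ∣ N) := by
    ext j
    simp only [mem_filter, Nat.mem_divisors, mem_Ioc]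
    tauto
  rw [h1]
  apply sum_congr rfl
  intro m hm
  rw [mem_filter] at hm
  obtain ⟨k, hk⟩ := hm.2
  have hm0 : m ≠ 0 := by
    rintro rfl
    rw [zero_mul] at hk
    exact hN hk
  have hk0 : k ≠ 0 := by
    rintro rfl
    rw [mul_zero] at hk
    exact hN hk
  have h2 : N / m = k := by rw [hk, Nat.mul_div_cancel_left _ (Nat.pos_of_ne_zero hm0)]
  rw [h2, hk, rg_mul hm0 hk0]
  ring

/-- the values -/
lemma Lc_eq {a b : ℤ} (ha : 0 < a) {x1 x c : ℕ} (hb : b.natAbs ≤ x1) (G : ℕ → ℝ) :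
    Lc a b x1 x c G = ∑ n ∈ Ioc x1 x, G (Fn a b n + c) := by
  unfold Lc
  apply sum_congr rfl
  intro n hn
  rw [mem_Ioc] at hn
  rw [Mtm.fv_eq ha (by omega), Int.toNat_natCast]

lemma Lc_conv {a b : ℤ} (ha : 0 < a) {x1 x c z U y X : ℕ} (hb : b.natAbs ≤ x1) (hc : 1 ≤ c) (f g : ℕ → ℝ)
    (hX : ∀ m ∈ Ioc U y, ∀ n ∈ Ioc x1 x, m ∣ Fn a b n + c → (Fn a b n + c) / m ≤ X) :
    Lc a b x1 x c (fun N => rg z N * ∑ j ∈ N.divisors.filter (fun j => U < j ∧ j ≤ y), f j * g (N / j)) =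
      ∑ m ∈ Ioc U y, (rg z m * f m) * ∑ n ∈ (Ioc x1 x).filter (fun n => m ∣ Fn a b n + c),
        tb X z g ((Fn a b n + c) / m) := by
  rw [Lc_eq ha hb]
  have h1 : ∀ n ∈ Ioc x1 x, (fun N => rg z N * ∑ j ∈ N.divisors.filter (fun j => U < j ∧ j ≤ y), f j * g (N / j)) (Fn a b n + c) =
      ∑ m ∈ Ioc U y, if m ∣ Fn a b n + c then (rg z m * f m) * (rg z ((Fn a b n + c) / m) * g ((Fn a b n + c) / m)) else 0 := by
    intro n _
    exact conv_val (by omega) f g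
  rw [sum_congr rfl h1, sum_comm]
  apply sum_congr rfl
  intro m hm
  rw [mul_sum, ← sum_filter]
  apply sum_congr rfl
  intro n hn
  rw [mem_filter] at hn
  unfold tb
  rw [if_pos (hX m hm n hn.1 hn.2)]

lemma Ls_conv {a b : ℤ} {x1 x z U y X : ℕ} (hF : Fn a b x ≤ X) (f g : ℕ → ℝ) :
    Ls a b x1 x (fun N => rg z N * ∑ j ∈ N.divisors.filter (fun j => U < j ∧ j ≤ y), f j * g (N / j)) =
      ∑ m ∈ Ioc U y, (rg z m * f m) * ∑ k ∈ (Icc 1 (Fn a b x)).filter (fun k => Fn a b x1 < m * k ∧ m * k ≤ Fn a b x),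
        tb X z g k * hw a (m * k) := by
  unfold Ls
  have h1 : ∀ N ∈ Ioc (Fn a b x1) (Fn a b x), (fun N => rg z N * ∑ j ∈ N.divisors.filter (fun j => U < j ∧ j ≤ y), f j * g (N / j)) N * hw a N =
      ∑ m ∈ Ioc U y, if m ∣ N then ((rg z m * f m) * (rg z (N / m) * g (N / m))) * hw a N else 0 := by
    intro N hN
    rw [mem_Ioc] at hN
    simp only
    rw [conv_val (by omega) f g, sum_mul]
    apply sum_congr rfl
    intro m _
    split_ifs
    · rfl
    · rw [zero_mul]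
  rw [sum_congr rfl h1, sum_comm]
  apply sum_congr rfl
  intro m hm
  rw [mem_Ioc] at hm
  have hm0 : 0 < m := by omega
  rw [← sum_filter, mul_sum]
  refine (sum_bij' (fun k _ => m * k) (fun N _ => N / m) ?_ ?_ ?_ ?_ ?_).symm
  · intro k hk
    rw [mem_filter, mem_Icc] at hk
    rw [mem_filter, mem_Ioc]
    exact ⟨hk.2, dvd_mul_right _ _⟩
  · intro N hN
    rw [mem_filter, mem_Ioc] at hN
    rw [mem_filter, mem_Icc]
    have e1 : m * (N / m) = N := Nat.mul_div_cancel' hN.2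
    refine ⟨⟨?_, (Nat.div_le_self _ _).trans hN.1.2⟩, by rw [e1]; exact hN.1⟩
    rw [Nat.le_div_iff_mul_le hm0, one_mul]
    exact Nat.le_of_dvd (by omega) hN.2
  · intro k _
    exact Nat.mul_div_cancel_left _ hm0
  · intro N hN
    rw [mem_filter] at hN
    exact Nat.mul_div_cancel' hN.2
  · intro k hk
    rw [mem_filter, mem_Icc] at hk
    unfold tb
    rw [Nat.mul_div_cancel_left _ hm0, if_pos (hk.1.2.trans hF)]
    ring

/-- the sum of `ρ_c(m)` over `c` -/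
lemma rho_sum_c (a b : ℤ) {C m : ℕ} (hm : 1 ≤ m) (hmC : m ≤ C) : ∑ c ∈ Icc 1 C, (rho a b (c : ℕ) m : ℝ) ≤ 2 * C := by
  have hmR : (0 : ℝ) < m := by exact_mod_cast hm
  have hmCR : (m : ℝ) ≤ C := by exact_mod_cast hmC
  have h1 : ∀ c ∈ Icc 1 C, (rho a b (c : ℕ) m : ℝ) = ∑ v ∈ range m, if (m : ℤ) ∣ fv a b (c : ℕ) v then (1 : ℝ) else 0 := by
    intro c _
    unfold rho
    rw [card_filter]
    push_cast
    rfl
  rw [sum_congr rfl h1, sum_comm]
  have h2 : ∀ v ∈ range m, ∑ c ∈ Icc 1 C, (if (m : ℤ) ∣ fv a b (c : ℕ) v then (1 : ℝ) else 0) ≤ 2 * C / m := by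
    intro v _
    rw [← sum_filter, sum_const, nsmul_eq_mul, mul_one]
    rcases ((Icc 1 C).filter (fun c : ℕ => (m : ℤ) ∣ fv a b c v)).eq_empty_or_nonempty with hemp | ⟨c0, hc0⟩
    · rw [hemp]
      simp only [card_empty, Nat.cast_zero]
      positivity
    · have h3 : (Icc 1 C).filter (fun c : ℕ => (m : ℤ) ∣ fv a b c v) ⊆ (Ioc 0 C).filter (fun k => k ≡ c0 [MOD m]) := by
        intro c hc
        rw [mem_filter, mem_Icc] at hc hc0
        rw [mem_filter, mem_Ioc]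
        refine ⟨⟨by omega, hc.1.2⟩, ?_⟩
        rw [← Int.natCast_modEq_iff, Int.modEq_iff_dvd]
        have h4 := dvd_sub hc0.2 hc.2
        unfold fv at h4
        have : (c0 : ℤ) - c = a * (v : ℤ) ^ 2 + b * v + c0 - (a * (v : ℤ) ^ 2 + b * v + c) := by ring
        rw [this]
        exact h4
      have h4 : (#((Icc 1 C).filter (fun c : ℕ => (m : ℤ) ∣ fv a b c v)) : ℝ) ≤ #((Ioc 0 C).filter (fun k => k ≡ c0 [MOD m])) := by
        exact_mod_cast card_le_card h3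
      have h5 := (abs_le.1 (card_class 0 C m c0 hm (Nat.zero_le _))).2
      have h6 : (1 : ℝ) ≤ C / m := by rw [le_div_iff₀ hmR]; linarith
      have h7 : 2 * (C : ℝ) / m = C / m + C / m := by ring
      simp only [Nat.cast_zero, sub_zero] at h5
      linarith
  refine (sum_le_sum h2).trans ?_
  rw [sum_const, card_range, nsmul_eq_mul]
  apply le_of_eq
  field_simp

/-- the sum of `1 / m` -/
lemma harm_le {y x : ℕ} (hyx : y ≤ x) (U : ℕ) : ∑ m ∈ Ioc U y, (1 : ℝ) / m ≤ 1 + Real.log x := by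
  rcases Nat.eq_zero_or_pos y with h0 | h0
  · rw [h0, Ioc_eq_empty (by omega), sum_empty]
    rcases Nat.eq_zero_or_pos x with h1 | h1
    · rw [h1]; simp
    · have : 0 ≤ Real.log x := Real.log_nonneg (by exact_mod_cast h1)
      linarith
  have h1 : ∑ m ∈ Ioc U y, (1 : ℝ) / m ≤ ∑ m ∈ Icc 1 x, (1 : ℝ) / m := by
    apply sum_le_sum_of_subset_of_nonneg
    · intro m hm
      rw [mem_Ioc] at hm
      rw [mem_Icc]
      omega
    · intro _ _ _
      positivity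
  refine h1.trans ?_
  have h2 := harmonic_le_one_add_log x
  rw [harmonic_eq_sum_Icc] at h2
  push_cast at h2
  simpa only [one_div] using h2

/-- the weighted sum over `k` -/
lemma Lm_le {a b : ℤ} (ha : 0 < a) {x1 x m : ℕ} (hm : 1 ≤ m) (β : ℕ → ℝ) {B0 : ℝ} (hB0 : 0 ≤ B0) (hβ : ∀ k, |β k| ≤ B0) :
    |∑ k ∈ (Icc 1 (Fn a b x)).filter (fun k => Fn a b x1 < m * k ∧ m * k ≤ Fn a b x), β k * hw a (m * k)| ≤
      B0 * (√(Fn a b x : ℕ) / m) := by
  have haR : (1 : ℝ) ≤ a := by exact_mod_cast ha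
  have hmR : (0 : ℝ) < m := by exact_mod_cast hm
  have h1 : ∀ k ∈ (Icc 1 (Fn a b x)).filter (fun k => Fn a b x1 < m * k ∧ m * k ≤ Fn a b x), |β k * hw a (m * k)| ≤
      B0 * (1 / (2 * √m) * (1 / √k)) := by
    intro k hk
    rw [mem_filter, mem_Icc] at hk
    have hkR : (0 : ℝ) < k := by
      have : 0 < k := by omega
      exact_mod_cast this
    rw [abs_mul]
    apply mul_le_mul (hβ k) _ (abs_nonneg _) hB0
    unfold hw
    rw [abs_of_nonneg (by positivity)]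
    push_cast
    rw [one_div_mul_one_div]
    apply one_div_le_one_div_of_le (by positivity)
    rw [mul_assoc]
    apply mul_le_mul_of_nonneg_left _ (by norm_num)
    rw [← Real.sqrt_mul hmR.le]
    apply Real.sqrt_le_sqrt
    have : 0 < (m : ℝ) * k := by positivity
    nlinarith
  refine (abs_sum_le_sum_abs _ _).trans ((sum_le_sum h1).trans ?_)
  rw [← mul_sum]
  apply mul_le_mul_of_nonneg_left _ hB0
  rw [← mul_sum]
  have h2 : (Icc 1 (Fn a b x)).filter (fun k => Fn a b x1 < m * k ∧ m * k ≤ Fn a b x) ⊆ Icc 1 (Fn a b x / m) := by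
    intro k hk
    rw [mem_filter, mem_Icc] at hk
    rw [mem_Icc, Nat.le_div_iff_mul_le (by omega)]
    refine ⟨hk.1.1, ?_⟩
    rw [mul_comm]
    exact hk.2.2
  have h3 : ∑ k ∈ (Icc 1 (Fn a b x)).filter (fun k => Fn a b x1 < m * k ∧ m * k ≤ Fn a b x), 1 / √(k : ℝ) ≤
      ∑ k ∈ Icc 1 (Fn a b x / m), 1 / √(k : ℝ) := by
    apply sum_le_sum_of_subset_of_nonneg h2
    intro _ _ _
    positivity
  have h4 : ∀ n : ℕ, ∑ k ∈ Icc 1 n, 1 / √(k : ℝ) ≤ 2 * √(n : ℝ) := by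
    intro n
    induction n with
    | zero => simp
    | succ n ih =>
      rw [sum_Icc_succ_top (by omega)]
      have hs : 0 < √((n + 1 : ℕ) : ℝ) := Real.sqrt_pos.mpr (by positivity)
      have hs2 : √((n + 1 : ℕ) : ℝ) ^ 2 = (n : ℝ) + 1 := by rw [Real.sq_sqrt (by positivity)]; push_cast; ring
      have hn2 : √(n : ℝ) ^ 2 = n := Real.sq_sqrt (by positivity)
      have hn0 : 0 ≤ √(n : ℝ) := Real.sqrt_nonneg _
      have key : 1 / √((n + 1 : ℕ) : ℝ) ≤ 2 * √((n + 1 : ℕ) : ℝ) - 2 * √(n : ℝ) := by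
        rw [div_le_iff₀ hs]
        nlinarith [sq_nonneg (√((n + 1 : ℕ) : ℝ) - √(n : ℝ))]
      linarith
  have h5 : √(((Fn a b x / m : ℕ)) : ℝ) ≤ √((Fn a b x : ℕ) : ℝ) / √m := by
    rw [← Real.sqrt_div' _ hmR.le]
    exact Real.sqrt_le_sqrt Nat.cast_div_le
  have hsm : 0 < √(m : ℝ) := Real.sqrt_pos.2 hmR
  calc 1 / (2 * √(m : ℝ)) * ∑ k ∈ (Icc 1 (Fn a b x)).filter (fun k => Fn a b x1 < m * k ∧ m * k ≤ Fn a b x), 1 / √(k : ℝ) ≤
      1 / (2 * √(m : ℝ)) * (2 * (√((Fn a b x : ℕ) : ℝ) / √m)) := by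
        apply mul_le_mul_of_nonneg_left _ (by positivity)
        exact h3.trans ((h4 _).trans (mul_le_mul_of_nonneg_left h5 (by norm_num)))
    _ = √((Fn a b x : ℕ) : ℝ) / (√m * √m) := by
        field_simp
    _ = _ := by rw [Real.mul_self_sqrt hmR.le]

end Pool.Agent.N792
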