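import Mathlib
import Pool.Agent.N792.Asm
import Pool.Agent.N792.RhA
import Pool.Agent.N792.Rc2
import Pool.Agent.N792.TH5
import Pool.Agent.Helper919.NonRes
import Pool.Agent.H38R2.CG.KR
import Pool.Agent.Helper112.Arith

/-!
The average of `ρ_c(m) - 1` on squarefree numbers up to `x`: fourth moments (helper899, for helper792).
-/

set_option autoImplicit false

namespace Pool.Agent.N792

open Finset Filter Topology
open ArithmeticFunction (moebius vonMangoldt)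

namespace Rh2

open RhA

/-- the duality principle -/
lemma dual (s t : Finset ℕ) (J : ℕ → ℕ → ℝ) (w A : ℕ → ℝ) (Δ : ℝ) (hΔ0 : 0 ≤ Δ)
    (hw : ∀ c ∈ s, w c = ∑ l ∈ t, A l * J c l)
    (hΔ : ∀ c ∈ s, ∑ c' ∈ s, |∑ l ∈ t, J c l * J c' l| ≤ Δ) :
    ∑ c ∈ s, w c ^ 2 ≤ (∑ l ∈ t, A l ^ 2) * Δ := by
  set S := ∑ c ∈ s, w c ^ 2 with hS
  set V : ℕ → ℝ := fun l => ∑ c ∈ s, w c * J c l with hV
  have h1 : S = ∑ l ∈ t, A l * V l := by
    calc S = ∑ c ∈ s, w c * ∑ l ∈ t, A l * J c l := sum_congr rfl fun c hc => by rw [← hw c hc, sq]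
      _ = _ := by
        simp only [hV, mul_sum]
        rw [sum_comm]
        exact sum_congr rfl fun l _ => sum_congr rfl fun c _ => by ring
  have hS0 : 0 ≤ S := sum_nonneg fun _ _ => sq_nonneg _
  have hA0 : 0 ≤ ∑ l ∈ t, A l ^ 2 := sum_nonneg fun _ _ => sq_nonneg _
  have h2 : ∑ l ∈ t, V l ^ 2 ≤ S * Δ := by
    have e1 : ∑ l ∈ t, V l ^ 2 = ∑ c ∈ s, ∑ c' ∈ s, w c * w c' * ∑ l ∈ t, J c l * J c' l := by
      have : ∀ l ∈ t, V l ^ 2 = ∑ c ∈ s, ∑ c' ∈ s, w c * w c' * (J c l * J c' l) := by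
        intro l _
        simp only [hV]
        rw [sq, sum_mul_sum]
        exact sum_congr rfl fun c _ => sum_congr rfl fun c' _ => by ring
      rw [sum_congr rfl this, sum_comm]
      refine sum_congr rfl fun c _ => ?_
      rw [sum_comm]
      refine sum_congr rfl fun c' _ => ?_
      rw [mul_sum]
    rw [e1]
    have e2 : ∀ c ∈ s, ∀ c' ∈ s, w c * w c' * ∑ l ∈ t, J c l * J c' l ≤
        (w c ^ 2 / 2) * |∑ l ∈ t, J c l * J c' l| + (w c' ^ 2 / 2) * |∑ l ∈ t, J c' l * J c l| := by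
      intro c _ c' _
      have e3 : ∑ l ∈ t, J c' l * J c l = ∑ l ∈ t, J c l * J c' l := sum_congr rfl fun l _ => by ring
      rw [e3]
      set k := ∑ l ∈ t, J c l * J c' l
      have e4 : |w c * w c'| ≤ w c ^ 2 / 2 + w c' ^ 2 / 2 := by
        rw [abs_mul]
        nlinarith [sq_nonneg (|w c| - |w c'|), sq_abs (w c), sq_abs (w c')]
      calc w c * w c' * k ≤ |w c * w c'| * |k| := by rw [← abs_mul]; exact le_abs_self _
        _ ≤ (w c ^ 2 / 2 + w c' ^ 2 / 2) * |k| := mul_le_mul_of_nonneg_right e4 (abs_nonneg _)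
        _ = _ := by ring
    refine (sum_le_sum fun c hc => sum_le_sum fun c' hc' => e2 c hc c' hc').trans ?_
    simp only [sum_add_distrib]
    have e5 : ∑ c ∈ s, ∑ c' ∈ s, (w c ^ 2 / 2) * |∑ l ∈ t, J c l * J c' l| ≤ S / 2 * Δ := by
      simp only [← mul_sum]
      calc ∑ c ∈ s, (w c ^ 2 / 2) * ∑ c' ∈ s, |∑ l ∈ t, J c l * J c' l| ≤ ∑ c ∈ s, (w c ^ 2 / 2) * Δ :=
            sum_le_sum fun c hc => mul_le_mul_of_nonneg_left (hΔ c hc) (by positivity)
        _ = _ := by rw [← sum_mul, ← sum_div]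
    have e6 : ∑ c ∈ s, ∑ c' ∈ s, (w c' ^ 2 / 2) * |∑ l ∈ t, J c' l * J c l| ≤ S / 2 * Δ := by
      rw [sum_comm]
      exact e5
    linarith
  have h3 : S ^ 2 ≤ (∑ l ∈ t, A l ^ 2) * (S * Δ) := by
    calc S ^ 2 = (∑ l ∈ t, A l * V l) ^ 2 := by rw [← h1]
      _ ≤ (∑ l ∈ t, A l ^ 2) * ∑ l ∈ t, V l ^ 2 := sum_mul_sq_le_sq_mul_sq _ _ _
      _ ≤ _ := mul_le_mul_of_nonneg_left h2 hA0
  rcases hS0.eq_or_lt with h | h
  · rw [← h]
    positivity
  · refine le_of_mul_le_mul_right ?_ h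
    calc S * S = S ^ 2 := by ring
      _ ≤ (∑ l ∈ t, A l ^ 2) * (S * Δ) := h3
      _ = _ := by ring

/-- Pólya-Vinogradov in the denominators -/
lemma pv_den (N : ℤ) (hN : ¬ IsSquare N) (X : ℕ) :
    |∑ l ∈ (Icc 1 X).filter Odd, ((jacobiSym N l : ℤ) : ℝ)| ≤
      4 * √((4 * N.natAbs : ℕ) : ℝ) * (1 + Real.log ((4 * N.natAbs : ℕ) : ℝ)) := by
  classical
  have hN0 : N ≠ 0 := by rintro rfl; exact hN ⟨0, by simp⟩
  have hn : 0 < N.natAbs := Int.natAbs_pos.2 hN0
  obtain ⟨d, hd, hJ⟩ := Helper919.exists_jacobi_neg_one N hN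
  have hD1 : 1 < 4 * N.natAbs := by omega
  obtain ⟨χ, hχ⟩ := Pool.Agent.H38R2.CG.KRh.exists_char hD1 (fun n => if Even n then 0 else jacobiSym N n)
    (by simp)
    (fun a b => by
      by_cases ha : Even a
      · simp [ha]
      by_cases hb : Even b
      · simp [hb]
      have hab : ¬ Even (a * b) := by
        rw [Nat.even_mul]; tauto
      rw [if_neg ha, if_neg hb, if_neg hab]
      refine jacobiSym.mul_right' _ ?_ ?_
      · rintro rfl; simp at ha
      · rintro rfl; simp at hb)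
    (fun a => by
      have he : Even (a % (4 * N.natAbs)) ↔ Even a := by
        rw [Nat.even_iff, Nat.even_iff, Nat.mod_mod_of_dvd _ ⟨2 * N.natAbs, by ring⟩]
      simp only [he]
      split_ifs with h
      · rfl
      · exact (jacobiSym.mod_right N (Nat.not_even_iff_odd.1 h)).symm)
    (fun a ha => by
      split_ifs with h
      · rfl
      · have ho := Nat.not_even_iff_odd.1 h
        have : NeZero a := ⟨by rintro rfl; simp at h⟩
        rw [jacobiSym.eq_zero_iff_not_coprime]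
        intro hc
        apply ha
        have h2 : Nat.Coprime N.natAbs a := by
          rw [Int.gcd_eq_natAbs, Int.natAbs_natCast] at hc
          exact hc
        refine Nat.Coprime.mul_right ?_ h2.symm
        have : Nat.Coprime a 2 := by
          rw [Nat.coprime_comm, Nat.coprime_two_left]
          exact ho
        exact (Nat.Coprime.pow_right 2 this))
  have hχ1 : χ ≠ 1 := by
    intro h1
    have e4 := hχ d
    rw [if_neg (Nat.not_even_iff_odd.2 hd), hJ, h1] at e4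
    have hd0 : NeZero d := ⟨by rintro rfl; simp at hd⟩
    have hu : IsUnit ((d : ℕ) : ZMod (4 * N.natAbs)) := by
      rw [ZMod.isUnit_iff_coprime]
      refine Nat.Coprime.mul_right ?_ ?_
      · have : Nat.Coprime d 2 := by
          rw [Nat.coprime_comm, Nat.coprime_two_left]
          exact hd
        exact (Nat.Coprime.pow_right 2 this)
      · by_contra hc
        have h0 : jacobiSym N d = 0 := by
          rw [jacobiSym.eq_zero_iff_not_coprime, Int.gcd_eq_natAbs, Int.natAbs_natCast]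
          exact fun h => hc (Nat.Coprime.symm h)
        omega
    rw [MulChar.one_apply hu] at e4
    norm_num at e4
  have h1 := Pool.Agent.H38R2.CG.PVh.sum_le (4 * N.natAbs) χ (by omega) hχ1 X
  have h2 : ∑ n ∈ Icc 1 X, χ (n : ZMod (4 * N.natAbs)) =
      ((∑ l ∈ (Icc 1 X).filter Odd, ((jacobiSym N l : ℤ) : ℝ) : ℝ) : ℂ) := by
    rw [sum_filter]
    push_cast
    refine sum_congr rfl fun n _ => ?_
    rw [hχ]
    by_cases hn : Even n
    · rw [if_pos hn, if_neg (Nat.not_odd_iff_even.2 hn)]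
      simp
    · rw [if_neg hn, if_pos (Nat.not_even_iff_odd.1 hn)]
      simp
  rw [h2, Complex.norm_real] at h1
  exact h1

/-- the number of the discriminants in a square class -/
lemma card_sq (a : ℤ) (ha : 0 < a) (b : ℤ) (C M : ℕ) (D : ℤ) (hD : D ≠ 0)
    (hM : ∀ c ∈ Icc 1 C, (b ^ 2 - 4 * a * (c : ℤ)).natAbs ≤ M) (S : Finset ℕ)
    (hS : ∀ c ∈ S, c ∈ Icc 1 C ∧ b ^ 2 - 4 * a * (c : ℤ) ≠ 0 ∧ IsSquare (D * (b ^ 2 - 4 * a * (c : ℤ)))) :
    #S ≤ Nat.sqrt M + 1 := by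
  classical
  obtain ⟨s, r, hsr, hs⟩ := Nat.sq_mul_squarefree D.natAbs
  have hDn : 0 < D.natAbs := Int.natAbs_pos.2 hD
  have hr0 : 0 < r := by
    rcases Nat.eq_zero_or_pos r with h | h
    · rw [h] at hsr; simp at hsr; omega
    · exact h
  have hs0 : 0 < s := Nat.pos_of_ne_zero hs.ne_zero
  have key : ∀ c ∈ S, ∃ t : ℕ, b ^ 2 - 4 * a * (c : ℤ) = D.sign * ((s * t ^ 2 : ℕ) : ℤ) := by
    intro c hc
    obtain ⟨_, h1, k, hk⟩ := hS c hc
    set E := b ^ 2 - 4 * a * (c : ℤ) with hE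
    have h2 : D.natAbs * E.natAbs = k.natAbs ^ 2 := by
      rw [← Int.natAbs_mul, hk, Int.natAbs_mul, sq]
    rw [← hsr] at h2
    have h3 : r ∣ k.natAbs := by
      have : r ^ 2 ∣ k.natAbs ^ 2 := ⟨s * E.natAbs, by rw [← h2]; ring⟩
      exact (Nat.pow_dvd_pow_iff two_ne_zero).1 this
    obtain ⟨k', hk'⟩ := h3
    have h4 : s * E.natAbs = k' ^ 2 := by
      have : r ^ 2 * (s * E.natAbs) = r ^ 2 * k' ^ 2 := by
        rw [← mul_assoc, h2, hk']; ring
      exact Nat.eq_of_mul_eq_mul_left (by positivity) this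
    have h5 : s ∣ k' := by
      have : s ∣ k' ^ 2 := ⟨_, h4.symm⟩
      exact (hs.dvd_pow_iff_dvd two_ne_zero).1 this
    obtain ⟨t, ht⟩ := h5
    have h6 : E.natAbs = s * t ^ 2 := by
      have : s * E.natAbs = s * (s * t ^ 2) := by
        rw [h4, ht]; ring
      exact Nat.eq_of_mul_eq_mul_left hs0 this
    refine ⟨t, ?_⟩
    rw [← h6]
    have h7 : E.sign = D.sign := by
      have h8 : 0 < D * E := lt_of_le_of_ne (by rw [hk]; exact mul_self_nonneg k) (mul_ne_zero hD h1).symm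
      rcases lt_or_gt_of_ne hD with h | h
      · have : E < 0 := by
          by_contra hcon
          push Not at hcon
          nlinarith
        rw [Int.sign_eq_neg_one_of_neg h, Int.sign_eq_neg_one_of_neg this]
      · have : 0 < E := by
          by_contra hcon
          push Not at hcon
          nlinarith
        rw [Int.sign_eq_one_of_pos h, Int.sign_eq_one_of_pos this]
    rw [← h7, Int.sign_mul_natAbs]
  choose! t ht using key
  have h1 : #S ≤ #(range (Nat.sqrt M + 1)) := by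
    apply card_le_card_of_injOn t
    · intro c hc
      have hc' : c ∈ S := hc
      have h2 := hM c (hS c hc').1
      rw [ht c hc', Int.natAbs_mul, Int.natAbs_natCast, Int.natAbs_sign_of_ne_zero hD, one_mul] at h2
      have h3 : t c ^ 2 ≤ M := by
        refine le_trans ?_ h2
        exact Nat.le_mul_of_pos_left _ hs0
      have h4 : t c ≤ Nat.sqrt M := Nat.le_sqrt'.2 h3
      simp only [coe_range, Set.mem_Iio]
      omega
    · intro c hc c' hc' h
      have h2 := ht c hc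
      have h3 := ht c' hc'
      rw [h] at h2
      rw [← h3] at h2
      have h4 : 4 * a * (c : ℤ) = 4 * a * (c' : ℤ) := by linarith
      have h5 : (c : ℤ) = c' := mul_left_cancel₀ (by positivity) h4
      exact_mod_cast h5
  rwa [card_range] at h1

/-- the coefficients of the square -/
lemma A_le (P : Finset ℕ) (B : ℝ) (u : ℕ → ℝ) (hB : 0 ≤ B) (hP : ∀ d ∈ P, 1 ≤ d) (hu : ∀ d, |u d| ≤ B / d) (l : ℕ) (hl : 1 ≤ l) :
    |∑ p ∈ (P ×ˢ P).filter (fun p => p.1 * p.2 = l), u p.1 * u p.2| ≤ #l.divisors * (B ^ 2 / l) := by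
  classical
  refine (abs_sum_le_sum_abs _ _).trans ?_
  have h1 : ∀ p ∈ (P ×ˢ P).filter (fun p => p.1 * p.2 = l), |u p.1 * u p.2| ≤ B ^ 2 / l := by
    intro p hp
    rw [mem_filter, mem_product] at hp
    rw [abs_mul]
    have h1 : (0 : ℝ) < p.1 := by exact_mod_cast hP _ hp.1.1
    have h2 : (0 : ℝ) < p.2 := by exact_mod_cast hP _ hp.1.2
    calc |u p.1| * |u p.2| ≤ (B / p.1) * (B / p.2) := mul_le_mul (hu _) (hu _) (abs_nonneg _) (by positivity)
      _ = B ^ 2 / ((p.1 * p.2 : ℕ) : ℝ) := by push_cast; field_simp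
      _ = _ := by rw [hp.2]
  refine (sum_le_card_nsmul _ _ _ h1).trans ?_
  rw [nsmul_eq_mul]
  apply mul_le_mul_of_nonneg_right _ (by positivity)
  have h2 : #((P ×ˢ P).filter (fun p => p.1 * p.2 = l)) ≤ #l.divisors := by
    apply card_le_card_of_injOn (fun p => p.1)
    · intro p hp
      rw [mem_coe, mem_filter, mem_product] at hp
      rw [mem_coe, Nat.mem_divisors]
      exact ⟨⟨p.2, hp.2.symm⟩, by omega⟩
    · intro p hp q hq h
      rw [mem_coe, mem_filter, mem_product] at hp hq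
      simp only at h
      have h3 : p.1 * p.2 = p.1 * q.2 := by
        rw [hp.2, h, hq.2]
      have h4 := Nat.eq_of_mul_eq_mul_left (hP _ hp.1.1) h3
      exact Prod.ext h h4
  exact_mod_cast h2

/-- the fourth moment -/
lemma fourth (a : ℤ) (ha : 0 < a) (b : ℤ) (C y0 y z M : ℕ) (B T : ℝ) (u : ℕ → ℝ) (hB : 0 ≤ B) (hz : 2 * a < z)
    (hy0 : 1 ≤ y0) (hu : ∀ d, |u d| ≤ B / d) (hu0 : ∀ d, u d ≠ 0 → Rough z d)
    (hT : ∀ l : ℕ, 1 ≤ l → l ≤ y ^ 2 → (#l.divisors : ℝ) ≤ T)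
    (hM : ∀ c ∈ Icc 1 C, (b ^ 2 - 4 * a * (c : ℤ)).natAbs ≤ M) (hM1 : 1 ≤ M) :
    ∑ c ∈ Icc 1 C, (∑ d ∈ Ioc y0 y, u d * ((jacobiSym (b ^ 2 - 4 * a * (c : ℕ)) d : ℤ) : ℝ)) ^ 4 ≤
      (T ^ 2 * B ^ 4 / (y0 : ℝ) ^ 2) *
        ((y : ℝ) ^ 2 * (√M + 1) + C * (8 * M * (1 + Real.log (4 * (M : ℝ) ^ 2)))) := by
  classical
  set J : ℕ → ℕ → ℝ := fun c d => ((jacobiSym (b ^ 2 - 4 * a * (c : ℕ)) d : ℤ) : ℝ) with hJ
  set P := (Ioc y0 y).filter Odd with hP
  set t := (Icc 1 (y ^ 2)).filter Odd with ht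
  set s := (Icc 1 C).filter (fun c : ℕ => b ^ 2 - 4 * a * (c : ℤ) ≠ 0) with hs
  set A : ℕ → ℝ := fun l => ∑ p ∈ (P ×ˢ P).filter (fun p => p.1 * p.2 = l), u p.1 * u p.2 with hA
  set W : ℕ → ℝ := fun c => (∑ d ∈ Ioc y0 y, u d * J c d) ^ 2 with hW
  have hMR : (1 : ℝ) ≤ M := by exact_mod_cast hM1
  have hlM : 0 ≤ Real.log (4 * (M : ℝ) ^ 2) := Real.log_nonneg (by nlinarith)
  have hodd : ∀ d, u d ≠ 0 → Odd d := by
    intro d hd
    rw [← Nat.not_even_iff_odd]
    intro he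
    exact (rough_cop ha hz (hu0 d hd) 2 Nat.prime_two he.two_dvd).1 rfl
  have hPmem : ∀ p ∈ P ×ˢ P, p.1 * p.2 ∈ t := by
    intro p hp
    rw [mem_product, hP, mem_filter, mem_filter, mem_Ioc, mem_Ioc] at hp
    rw [ht, mem_filter, mem_Icc]
    refine ⟨⟨?_, ?_⟩, hp.1.2.mul hp.2.2⟩
    · exact Nat.mul_pos (by omega) (by omega)
    · rw [sq]
      exact Nat.mul_le_mul hp.1.1.2 hp.2.1.2
  have hW1 : ∀ c ∈ s, W c = ∑ l ∈ t, A l * J c l := by
    intro c _
    have e1 : ∑ d ∈ Ioc y0 y, u d * J c d = ∑ d ∈ P, u d * J c d := by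
      rw [hP, sum_filter_of_ne]
      intro d _ h
      exact hodd d (left_ne_zero_of_mul h)
    simp only [hW]
    rw [e1, sq, sum_mul_sum, ← sum_product', ← sum_fiberwise_of_maps_to hPmem]
    refine sum_congr rfl fun l _ => ?_
    simp only [hA]
    rw [sum_mul]
    refine sum_congr rfl fun p hp => ?_
    rw [mem_filter, mem_product, hP, mem_filter, mem_filter, mem_Ioc, mem_Ioc] at hp
    have e2 : J c l = J c p.1 * J c p.2 := by
      simp only [hJ]
      rw [← hp.2, jacobiSym.mul_right' _ (by omega) (by omega)]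
      push_cast
      ring
    rw [e2]
    ring
  have hΔ : ∀ c ∈ s, ∑ c' ∈ s, |∑ l ∈ t, J c l * J c' l| ≤
      (y : ℝ) ^ 2 * (√M + 1) + C * (8 * M * (1 + Real.log (4 * (M : ℝ) ^ 2))) := by
    intro c hc
    rw [hs, mem_filter] at hc
    have e1 : ∀ c' ∈ s, |∑ l ∈ t, J c l * J c' l| ≤
        (if IsSquare ((b ^ 2 - 4 * a * (c : ℤ)) * (b ^ 2 - 4 * a * (c' : ℤ))) then (y : ℝ) ^ 2 else 0) +
          8 * M * (1 + Real.log (4 * (M : ℝ) ^ 2)) := by
      intro c' hc'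
      rw [hs, mem_filter] at hc'
      have e2 : ∑ l ∈ t, J c l * J c' l =
          ∑ l ∈ t, ((jacobiSym ((b ^ 2 - 4 * a * (c : ℤ)) * (b ^ 2 - 4 * a * (c' : ℤ))) l : ℤ) : ℝ) := by
        refine sum_congr rfl fun l _ => ?_
        simp only [hJ]
        rw [jacobiSym.mul_left]
        push_cast
        ring
      rw [e2]
      have hpos : 0 ≤ 8 * M * (1 + Real.log (4 * (M : ℝ) ^ 2)) := by positivity
      split_ifs with hsq
      · have e3 : |∑ l ∈ t, ((jacobiSym ((b ^ 2 - 4 * a * (c : ℤ)) * (b ^ 2 - 4 * a * (c' : ℤ))) l : ℤ) : ℝ)| ≤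
            (y : ℝ) ^ 2 := by
          refine (abs_sum_le_sum_abs _ _).trans ?_
          refine (sum_le_card_nsmul _ _ 1 fun l _ => Pool.Agent.H568.SP.jac_abs_le _ _).trans ?_
          rw [nsmul_eq_mul, mul_one]
          have : #t ≤ y ^ 2 := by
            refine (card_filter_le _ _).trans ?_
            simp
          exact_mod_cast this
        linarith
      · rw [zero_add]
        refine (pv_den _ hsq _).trans ?_
        set N := ((b ^ 2 - 4 * a * (c : ℤ)) * (b ^ 2 - 4 * a * (c' : ℤ))).natAbs with hN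
        have h1 := hM c hc.1
        have h2 := hM c' hc'.1
        have hN2 : N ≤ M ^ 2 := by
          rw [hN, Int.natAbs_mul, sq M]
          exact Nat.mul_le_mul h1 h2
        have hN1 : 1 ≤ N := by
          rw [hN]
          exact Int.natAbs_pos.2 (mul_ne_zero hc.2 hc'.2)
        have h3 : ((4 * N : ℕ) : ℝ) ≤ 4 * (M : ℝ) ^ 2 := by
          have : 4 * N ≤ 4 * M ^ 2 := by omega
          exact_mod_cast this
        have h4 : (1 : ℝ) ≤ ((4 * N : ℕ) : ℝ) := by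
          have : 1 ≤ 4 * N := by omega
          exact_mod_cast this
        have h5 : √((4 * N : ℕ) : ℝ) ≤ 2 * M := by
          rw [Real.sqrt_le_iff]
          constructor
          · positivity
          · nlinarith
        have h6 : Real.log ((4 * N : ℕ) : ℝ) ≤ Real.log (4 * (M : ℝ) ^ 2) := Real.log_le_log (by linarith) h3
        have h7 : 0 ≤ Real.log ((4 * N : ℕ) : ℝ) := Real.log_nonneg h4
        calc 4 * √((4 * N : ℕ) : ℝ) * (1 + Real.log ((4 * N : ℕ) : ℝ)) ≤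
              4 * (2 * M) * (1 + Real.log (4 * (M : ℝ) ^ 2)) := by gcongr
          _ = _ := by ring
    refine (sum_le_sum e1).trans ?_
    rw [sum_add_distrib]
    apply add_le_add
    · rw [← sum_filter, sum_const, nsmul_eq_mul, mul_comm]
      apply mul_le_mul_of_nonneg_left _ (by positivity)
      have h1 := card_sq a ha b C M (b ^ 2 - 4 * a * (c : ℤ)) hc.2 hM
        (s.filter (fun c' : ℕ => IsSquare ((b ^ 2 - 4 * a * (c : ℤ)) * (b ^ 2 - 4 * a * (c' : ℤ))))) (by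
          intro c' hc'
          rw [mem_filter, hs, mem_filter] at hc'
          exact ⟨hc'.1.1, hc'.1.2, hc'.2⟩)
      have h2 : ((Nat.sqrt M : ℕ) : ℝ) ≤ √(M : ℝ) := Real.nat_sqrt_le_real_sqrt
      have h3 : (#(s.filter (fun c' : ℕ => IsSquare ((b ^ 2 - 4 * a * (c : ℤ)) * (b ^ 2 - 4 * a * (c' : ℤ))))) : ℝ) ≤
          ((Nat.sqrt M + 1 : ℕ) : ℝ) := by exact_mod_cast h1
      push_cast at h3
      linarith
    · rw [sum_const, nsmul_eq_mul]
      apply mul_le_mul_of_nonneg_right _ (by positivity)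
      have : #s ≤ C := by
        refine (card_filter_le _ _).trans ?_
        simp
      exact_mod_cast this
  have hA2 : ∑ l ∈ t, A l ^ 2 ≤ T ^ 2 * B ^ 4 / (y0 : ℝ) ^ 2 := by
    have e1 : ∀ l ∈ t, A l ^ 2 ≤ if y0 ^ 2 < l then T ^ 2 * B ^ 4 * ((l : ℝ) ^ 2)⁻¹ else 0 := by
      intro l hl
      rw [ht, mem_filter, mem_Icc] at hl
      split_ifs with h
      · have h1 := A_le P B u hB (fun d hd => by
          rw [hP, mem_filter, mem_Ioc] at hd; omega) hu l hl.1.1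
        have h2 := hT l hl.1.1 hl.1.2
        have hl0 : (0 : ℝ) < l := by exact_mod_cast hl.1.1
        have h3 : |A l| ≤ T * (B ^ 2 / l) := h1.trans (mul_le_mul_of_nonneg_right h2 (by positivity))
        calc A l ^ 2 = |A l| ^ 2 := (sq_abs _).symm
          _ ≤ (T * (B ^ 2 / l)) ^ 2 := pow_le_pow_left₀ (abs_nonneg _) h3 2
          _ = _ := by field_simp
      · have h1 : (P ×ˢ P).filter (fun p => p.1 * p.2 = l) = ∅ := by
          rw [filter_eq_empty_iff]
          intro p hp hpl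
          rw [mem_product, hP, mem_filter, mem_filter, mem_Ioc, mem_Ioc] at hp
          apply h
          rw [← hpl, sq]
          exact Nat.mul_lt_mul'' hp.1.1.1 hp.2.1.1
        simp only [hA]
        rw [h1]
        simp
    refine (sum_le_sum e1).trans ?_
    rw [← sum_filter, ← mul_sum, div_eq_mul_inv]
    apply mul_le_mul_of_nonneg_left _ (by positivity)
    have hsub : t.filter (fun l => y0 ^ 2 < l) ⊆ Ioc (y0 ^ 2) (max (y0 ^ 2) (y ^ 2)) := by
      intro l hl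
      rw [mem_filter, ht, mem_filter, mem_Icc] at hl
      rw [mem_Ioc]
      exact ⟨hl.2, le_max_of_le_right hl.1.1.2⟩
    refine (sum_le_sum_of_subset_of_nonneg hsub (fun _ _ _ => by positivity)).trans ?_
    have h5 := sum_Ioc_inv_sq_le_sub (α := ℝ) (by positivity : y0 ^ 2 ≠ 0) (le_max_left (y0 ^ 2) (y ^ 2))
    refine h5.trans ?_
    have : (0 : ℝ) ≤ ((max (y0 ^ 2) (y ^ 2) : ℕ) : ℝ)⁻¹ := by positivity
    push_cast at this ⊢
    linarith
  have h1 : ∑ c ∈ Icc 1 C, (∑ d ∈ Ioc y0 y, u d * J c d) ^ 4 = ∑ c ∈ s, W c ^ 2 := by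
    have e1 : ∀ c ∈ Icc 1 C, (∑ d ∈ Ioc y0 y, u d * J c d) ^ 4 = W c ^ 2 := by
      intro c _
      simp only [hW]
      ring
    rw [sum_congr rfl e1, hs, sum_filter_of_ne]
    intro c _ h h0
    apply h
    have e2 : ∑ d ∈ Ioc y0 y, u d * J c d = 0 := by
      apply sum_eq_zero
      intro d hd
      rw [mem_Ioc] at hd
      simp only [hJ]
      rw [h0, jacobiSym.zero_left (by omega)]
      simp
    simp only [hW]
    rw [e2]
    norm_num
  rw [h1]
  have hΔ0 : 0 ≤ (y : ℝ) ^ 2 * (√M + 1) + C * (8 * M * (1 + Real.log (4 * (M : ℝ) ^ 2))) := by positivity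
  refine (dual s t J W A _ hΔ0 hW1 hΔ).trans ?_
  exact mul_le_mul_of_nonneg_right hA2 hΔ0

/-- the second moment -/
lemma second (a : ℤ) (ha : 0 < a) (b : ℤ) (C y z : ℕ) (B : ℝ) (u : ℕ → ℝ) (hB : 0 ≤ B) (hz : 2 * a < z)
    (hy : 1 ≤ y) (hu : ∀ d, |u d| ≤ B / d) (hu0 : ∀ d, u d ≠ 0 → Squarefree d ∧ Rough z d) :
    ∑ c ∈ Icc 1 C, (∑ d ∈ Icc 2 y, u d * ((jacobiSym (b ^ 2 - 4 * a * (c : ℕ)) d : ℤ) : ℝ)) ^ 2 ≤
      B ^ 2 * (1 + 2 * Real.log y) * (C / z + 32 * y) := by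
  set J : ℕ → ℕ → ℝ := fun c d => ((jacobiSym (b ^ 2 - 4 * a * (c : ℕ)) d : ℤ) : ℝ) with hJ
  have hzpos : 0 < z := by
    have : (0 : ℤ) < z := by linarith
    exact_mod_cast this
  have hlog : 0 ≤ Real.log y := Real.log_natCast_nonneg y
  have hy1 : (1 : ℝ) ≤ y := by exact_mod_cast hy
  -- expand the square
  have h1 : ∑ c ∈ Icc 1 C, (∑ d ∈ Icc 2 y, u d * J c d) ^ 2
      = ∑ d ∈ Icc 2 y, ∑ d' ∈ Icc 2 y, u d * u d' * ∑ c ∈ Icc 1 C, J c d * J c d' := by
    have h2 : ∀ c ∈ Icc 1 C, (∑ d ∈ Icc 2 y, u d * J c d) ^ 2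
        = ∑ d ∈ Icc 2 y, ∑ d' ∈ Icc 2 y, u d * u d' * (J c d * J c d') := by
      intro c _
      rw [sq, sum_mul_sum]
      refine sum_congr rfl fun d _ => sum_congr rfl fun d' _ => ?_
      ring
    rw [sum_congr rfl h2, sum_comm]
    refine sum_congr rfl fun d _ => ?_
    rw [sum_comm]
    refine sum_congr rfl fun d' _ => ?_
    rw [mul_sum]
  rw [h1]
  -- the pointwise bound
  have h2 : ∀ d ∈ Icc 2 y, ∀ d' ∈ Icc 2 y, u d * u d' * ∑ c ∈ Icc 1 C, J c d * J c d'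
      ≤ (if d = d' then (if z < d then B ^ 2 * C * ((d : ℝ) ^ 2)⁻¹ else 0) else 0)
        + 8 * B ^ 2 * (1 + 2 * Real.log y) * ((1 / Real.sqrt d) * (1 / Real.sqrt d')) := by
    intro d hd d' hd'
    rw [mem_Icc] at hd hd'
    have hdp : (0 : ℝ) < d := by
      have : 0 < d := by omega
      exact_mod_cast this
    have hdp' : (0 : ℝ) < d' := by
      have : 0 < d' := by omega
      exact_mod_cast this
    have hpos2 : 0 ≤ 8 * B ^ 2 * (1 + 2 * Real.log y) * ((1 / Real.sqrt d) * (1 / Real.sqrt d')) := by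
      positivity
    have hpos1 : 0 ≤ (if d = d' then (if z < d then B ^ 2 * C * ((d : ℝ) ^ 2)⁻¹ else 0) else 0) := by
      split_ifs <;> positivity
    by_cases hz1 : u d = 0
    · rw [hz1]
      simp only [zero_mul]
      positivity
    by_cases hz2 : u d' = 0
    · rw [hz2]
      simp only [zero_mul, mul_zero]
      positivity
    obtain ⟨hs, hr⟩ := hu0 d hz1
    obtain ⟨hs', hr'⟩ := hu0 d' hz2
    have hb := hu d
    have hb' := hu d'
    by_cases hdd : d = d'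
    · subst hdd
      rw [if_pos rfl, if_pos (rough_lt hr hd.1)]
      have h3 : u d * u d * ∑ c ∈ Icc 1 C, J c d * J c d ≤ B ^ 2 * C * ((d : ℝ) ^ 2)⁻¹ := by
        have h4 : ∑ c ∈ Icc 1 C, J c d * J c d ≤ C := by
          have : ∀ c ∈ Icc 1 C, J c d * J c d ≤ 1 := by
            intro c _
            have h5 := Pool.Agent.H568.SP.jac_abs_le (b ^ 2 - 4 * a * (c : ℕ)) d
            have h6 := abs_le.mp h5
            simp only [hJ]
            nlinarith [h6.1, h6.2]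
          refine (sum_le_card_nsmul _ _ _ this).trans ?_
          simp
        have h5 : u d * u d ≤ (B / d) ^ 2 := by
          rw [← sq, ← sq_abs]
          exact pow_le_pow_left₀ (abs_nonneg _) hb 2
        have h6 : 0 ≤ u d * u d := mul_self_nonneg _
        calc u d * u d * ∑ c ∈ Icc 1 C, J c d * J c d
            ≤ u d * u d * C := mul_le_mul_of_nonneg_left h4 h6
          _ ≤ (B / d) ^ 2 * C := by gcongr
          _ = _ := by field_simp
      linarith
    · have h3 := off_diag a ha b C z hz d d' hs hs' hr hr' hd.1 hd'.1 hdd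
      have h4 : u d * u d' * ∑ c ∈ Icc 1 C, J c d * J c d'
          ≤ 8 * B ^ 2 * (1 + 2 * Real.log y) * ((1 / Real.sqrt d) * (1 / Real.sqrt d')) := by
        refine (le_abs_self _).trans ?_
        rw [abs_mul, abs_mul]
        have hlog2 : Real.log ((d * d' : ℕ) : ℝ) ≤ 2 * Real.log y := by
          push_cast
          rw [Real.log_mul hdp.ne' hdp'.ne', two_mul]
          apply add_le_add
          · exact Real.log_le_log hdp (by exact_mod_cast hd.2)
          · exact Real.log_le_log hdp' (by exact_mod_cast hd'.2)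
        have hsq : Real.sqrt ((d * d' : ℕ) : ℝ) = Real.sqrt d * Real.sqrt d' := by
          push_cast
          exact Real.sqrt_mul hdp.le _
        have hsd : 0 < Real.sqrt (d : ℝ) := Real.sqrt_pos.mpr hdp
        have hsd' : 0 < Real.sqrt (d' : ℝ) := Real.sqrt_pos.mpr hdp'
        have hsd2 : Real.sqrt (d : ℝ) ^ 2 = d := Real.sq_sqrt hdp.le
        have hsd2' : Real.sqrt (d' : ℝ) ^ 2 = d' := Real.sq_sqrt hdp'.le
        calc |u d| * |u d'| * |∑ c ∈ Icc 1 C, J c d * J c d'|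
            ≤ (B / d) * (B / d') * (8 * Real.sqrt ((d * d' : ℕ) : ℝ) * (1 + 2 * Real.log y)) := by
              refine mul_le_mul (mul_le_mul hb hb' (abs_nonneg _) (by positivity)) (h3.trans ?_)
                (abs_nonneg _) (by positivity)
              gcongr
          _ = _ := by
              rw [hsq]
              nth_rewrite 1 [← hsd2]
              nth_rewrite 1 [← hsd2']
              field_simp
      linarith
  refine (sum_le_sum fun d hd => sum_le_sum fun d' hd' => h2 d hd d' hd').trans ?_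
  simp only [sum_add_distrib]
  have h3 : ∑ d ∈ Icc 2 y, ∑ d' ∈ Icc 2 y,
      (if d = d' then (if z < d then B ^ 2 * C * ((d : ℝ) ^ 2)⁻¹ else 0) else 0)
      ≤ B ^ 2 * C * (z : ℝ)⁻¹ := by
    have e1 : ∀ d ∈ Icc 2 y, ∑ d' ∈ Icc 2 y,
        (if d = d' then (if z < d then B ^ 2 * C * ((d : ℝ) ^ 2)⁻¹ else 0) else 0)
        = if z < d then B ^ 2 * C * ((d : ℝ) ^ 2)⁻¹ else 0 := by
      intro d hd
      rw [sum_ite_eq (Icc 2 y) d, if_pos hd]
    rw [sum_congr rfl e1, ← sum_filter, ← mul_sum]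
    refine mul_le_mul_of_nonneg_left ?_ (by positivity)
    have hsub : (Icc 2 y).filter (fun d => z < d) ⊆ Ioc z (max z y) := by
      intro d hd
      rw [mem_filter, mem_Icc] at hd
      rw [mem_Ioc]
      exact ⟨hd.2, le_max_of_le_right hd.1.2⟩
    refine (sum_le_sum_of_subset_of_nonneg hsub (fun _ _ _ => by positivity)).trans ?_
    have h5 := sum_Ioc_inv_sq_le_sub (α := ℝ) hzpos.ne' (le_max_left z y)
    refine h5.trans ?_
    have : (0 : ℝ) ≤ ((max z y : ℕ) : ℝ)⁻¹ := by positivity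
    linarith
  have h4 : ∑ d ∈ Icc 2 y, ∑ d' ∈ Icc 2 y,
      8 * B ^ 2 * (1 + 2 * Real.log y) * ((1 / Real.sqrt d) * (1 / Real.sqrt d'))
      ≤ 8 * B ^ 2 * (1 + 2 * Real.log y) * (4 * y) := by
    simp only [← mul_sum]
    rw [← sum_mul]
    have h5 : ∑ d ∈ Icc 2 y, 1 / Real.sqrt (d : ℝ) ≤ 2 * Real.sqrt y := by
      refine le_trans ?_ (sum_inv_sqrt y)
      refine sum_le_sum_of_subset_of_nonneg ?_ (fun _ _ _ => by positivity)
      intro d hd
      rw [mem_Icc] at hd ⊢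
      omega
    have h6 : 0 ≤ ∑ d ∈ Icc 2 y, 1 / Real.sqrt (d : ℝ) := sum_nonneg fun _ _ => by positivity
    have h7 : Real.sqrt (y : ℝ) ^ 2 = y := Real.sq_sqrt (by positivity)
    refine mul_le_mul_of_nonneg_left ?_ (by positivity)
    calc (∑ d ∈ Icc 2 y, 1 / Real.sqrt (d : ℝ)) * ∑ d ∈ Icc 2 y, 1 / Real.sqrt (d : ℝ)
        ≤ (2 * Real.sqrt y) * (2 * Real.sqrt y) := mul_le_mul h5 h5 h6 (by positivity)
      _ = 4 * y := by linear_combination 4 * h7
  refine (add_le_add h3 h4).trans ?_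
  -- compare
  set P : ℝ := 1 + 2 * Real.log y with hPdef
  have hP1 : 1 ≤ P := by rw [hPdef]; linarith
  have hA : 0 ≤ B ^ 2 * (C : ℝ) * (z : ℝ)⁻¹ := by positivity
  calc B ^ 2 * C * (z : ℝ)⁻¹ + 8 * B ^ 2 * P * (4 * y) ≤
        P * (B ^ 2 * C * (z : ℝ)⁻¹) + 8 * B ^ 2 * P * (4 * y) := by
          nlinarith
    _ = _ := by ring

end Rh2

open RhA

/-- **the average of `ρ_c(m) - 1` over squarefree rough numbers up to `x`** -/
theorem rho_part2 (a : ℤ) (ha : 0 < a) (b : ℤ) (η : ℝ) (hη : 0 < η) :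
    ∃ x0 : ℕ, ∀ x : ℕ, x0 ≤ x → ∀ (C z U y : ℕ) (h : ℕ → ℝ), (x : ℝ) ^ (9 / 10 : ℝ) ≤ C → C ≤ x → (x : ℝ) ^ η ≤ z →
    y ≤ x → (∀ m ∈ Ioc U y, |h m| ≤ rg z m * (9 * Real.log x ^ 2 * (√(2 * a) * x) / m)) →
    (∀ m ∈ Ioc U y, h m ≠ 0 → Squarefree m) →
    ∑ c ∈ Icc 1 C, |∑ m ∈ Ioc U y, h m * ((rho a b (c : ℕ) m : ℝ) - 1)| ≤ C * x / Real.log x ^ 3 := by
  classical
  obtain ⟨K, hK0, hK⟩ := Pool.Agent.Helper112.divisor_bound (1 / 200) (by norm_num)
  set Ka : ℝ := b ^ 2 + 4 * a with hKa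
  set ν := min η (1 / 100) with hν
  have hν0 : 0 < ν := lt_min hη (by norm_num)
  have haR : (1 : ℝ) ≤ a := by exact_mod_cast ha
  have hKa1 : 1 ≤ Ka := by
    rw [hKa]
    have : (0 : ℝ) ≤ (b : ℝ) ^ 2 := sq_nonneg _
    linarith
  have e1 : ∀ᶠ x : ℕ in atTop, (200 : ℝ) ≤ Real.log x := Shp.log_ge 200
  have e2 := ev_log_pow (4 * 648 * a * 99) 13 hν0
  have e3 := ev_log_pow (2 * a + 1) 0 hη
  have e4 := ev_log_pow (K ^ 2 * 18 ^ 4 * 4 * a ^ 2 * 4 * 42 * Ka * 16) 25 (by norm_num : (0 : ℝ) < 12 / 100)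
  have e5 := ev_log_pow (2 * Ka) 0 (by norm_num : (0 : ℝ) < 1)
  have e6 := ev_log_pow 2 0 (by norm_num : (0 : ℝ) < 87 / 100)
  obtain ⟨x0, hx0⟩ := eventually_atTop.1 (((((e1.and e2).and e3).and e4).and e5).and e6)
  refine ⟨max x0 3, fun x hx C z U y h hC1 hC2 hz hyx hh hsq => ?_⟩
  obtain ⟨⟨⟨⟨⟨f1, f2⟩, f3⟩, f4⟩, f5⟩, f6⟩ := hx0 x ((le_max_left _ _).trans hx)
  have hx3 : 3 ≤ x := (le_max_right _ _).trans hx
  rw [pow_zero, mul_one] at f3 f5 f6
  rw [Real.rpow_one] at f5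
  have hxpos : (0 : ℝ) < x := by
    have : 0 < x := by omega
    exact_mod_cast this
  have hx1' : (1 : ℝ) ≤ x := by
    have : 1 ≤ x := by omega
    exact_mod_cast this
  set L := Real.log x with hL
  have hL0 : 0 < L := by linarith
  have hzpos : (0 : ℝ) < z := lt_of_lt_of_le (Real.rpow_pos_of_pos hxpos _) hz
  have hza : 2 * a < z := by
    have h1 : (2 * (a : ℝ)) < z := by linarith
    exact_mod_cast h1
  have hC0 : (0 : ℝ) < C := lt_of_lt_of_le (Real.rpow_pos_of_pos hxpos _) hC1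
  set G := 9 * L ^ 2 * (√(2 * a) * x) with hG
  have hG0 : 0 ≤ G := by positivity
  set g : ℕ → ℝ := fun m => if (U < m ∧ m ≤ y) then h m else 0 with hg
  have hhG : ∀ m ∈ Ioc U y, |h m| ≤ rg z m * (G / m) := hh
  have hhr : ∀ m ∈ Ioc U y, h m ≠ 0 → Rough z m := by
    intro m hm hne
    by_contra hcon
    have h1 : rg z m = 0 := by unfold rg; rw [if_neg hcon]
    have h2 := hhG m hm
    rw [h1, zero_mul] at h2
    exact hne (abs_nonpos_iff.1 h2)
  have hhG1 : ∀ m ∈ Ioc U y, |h m| ≤ G / m := by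
    intro m hm
    refine (hhG m hm).trans ?_
    exact mul_le_of_le_one_left (by positivity) (rg_range z m).2
  have hgG : ∀ m, |g m| ≤ G / m := by
    intro m
    simp only [hg]
    split_ifs with hc
    · exact hhG1 m (mem_Ioc.2 hc)
    · rw [abs_zero]; positivity
  have hg0 : ∀ m, g m ≠ 0 → Squarefree m ∧ Rough z m := by
    intro m hm
    simp only [hg, ne_eq, ite_eq_right_iff, Classical.not_imp] at hm
    obtain ⟨hc, hne⟩ := hm
    exact ⟨hsq m (mem_Ioc.2 hc) hne, hhr m (mem_Ioc.2 hc) hne⟩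
  -- the coefficients
  set B := G * (1 + L) with hB
  have hB0 : 0 ≤ B := by positivity
  have hx1n : 1 ≤ x := by omega
  have hu : ∀ d, |RhA.gp g x d| ≤ B / d := by
    intro d
    rcases Nat.eq_zero_or_pos d with hd | hd
    · have : RhA.gp g x d = 0 := by
        unfold RhA.gp
        apply sum_eq_zero
        intro m hm
        rw [mem_filter, mem_Icc, hd, zero_dvd_iff] at hm
        omega
      rw [this, abs_zero, hd]
      simp
    · exact gp_le g G hG0 hgG x d hx1n hd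
  have hu0 : ∀ d, RhA.gp g x d ≠ 0 → Squarefree d ∧ Rough z d := fun d => gp_supp g z hg0 x d
  -- the splitting
  set y0 : ℕ := ⌊(x : ℝ) ^ (87 / 100 : ℝ)⌋₊ with hy0
  have hy0le : (y0 : ℝ) ≤ (x : ℝ) ^ (87 / 100 : ℝ) := Nat.floor_le (by positivity)
  have hy0ge : (x : ℝ) ^ (87 / 100 : ℝ) / 2 ≤ y0 := by
    have h1 := Nat.sub_one_lt_floor ((x : ℝ) ^ (87 / 100 : ℝ))
    rw [← hy0] at h1
    linarith
  have hy01 : 1 ≤ y0 := by
    have : (1 : ℝ) ≤ y0 := by linarith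
    exact_mod_cast this
  have hy0x : y0 ≤ x := by
    have : (y0 : ℝ) ≤ x := by
      refine hy0le.trans ?_
      nth_rw 2 [← Real.rpow_one (x : ℝ)]
      exact Real.rpow_le_rpow_of_exponent_le hx1' (by norm_num)
    exact_mod_cast this
  set J : ℕ → ℕ → ℝ := fun c d => ((jacobiSym (b ^ 2 - 4 * a * (c : ℕ)) d : ℤ) : ℝ) with hJ
  set S1 : ℕ → ℝ := fun c => ∑ d ∈ Icc 2 y0, RhA.gp g x d * J c d with hS1
  set S2 : ℕ → ℝ := fun c => ∑ d ∈ Ioc y0 x, RhA.gp g x d * J c d with hS2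
  have hsplit : ∀ c ∈ Icc 1 C, |∑ m ∈ Ioc U y, h m * ((rho a b (c : ℕ) m : ℝ) - 1)| ≤ |S1 c| + |S2 c| := by
    intro c _
    have h1 : ∑ m ∈ Ioc U y, h m * ((rho a b (c : ℕ) m : ℝ) - 1) =
        ∑ m ∈ Icc 1 x, g m * ((rho a b (c : ℕ) m : ℝ) - 1) := by
      have h2 : Ioc U y ⊆ Icc 1 x := by
        intro m hm
        rw [mem_Ioc] at hm
        rw [mem_Icc]
        omega
      rw [← sum_subset h2]
      · apply sum_congr rfl
        intro m hm
        rw [mem_Ioc] at hm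
        simp only [hg]
        rw [if_pos hm]
      · intro m _ hm2
        simp only [hg]
        rw [if_neg, zero_mul]
        intro h
        exact hm2 (mem_Ioc.2 h)
    rw [h1, inner_eq a ha b c x z g hza hg0]
    have h2 : Icc 2 x = Icc 2 y0 ∪ Ioc (max 1 y0) x := by
      ext d
      rw [mem_union, mem_Icc, mem_Icc, mem_Ioc]
      omega
    have h3 : max 1 y0 = y0 := max_eq_right hy01
    rw [h2, h3, sum_union]
    · exact abs_add_le _ _
    · rw [disjoint_left]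
      intro d hd hd'
      rw [mem_Icc] at hd
      rw [mem_Ioc] at hd'
      omega
  refine (sum_le_sum hsplit).trans ?_
  rw [sum_add_distrib]
  have h2a : √(2 * (a : ℝ)) ^ 2 = 2 * a := Real.sq_sqrt (by linarith)
  have hBle : B ≤ 18 * L ^ 3 * (√(2 * a) * x) := by
    rw [hB, hG]
    calc 9 * L ^ 2 * (√(2 * a) * x) * (1 + L) ≤ 9 * L ^ 2 * (√(2 * a) * x) * (2 * L) := by
          apply mul_le_mul_of_nonneg_left _ (by positivity)
          linarith
      _ = _ := by ring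
  have hB2 : B ^ 2 ≤ 648 * a * L ^ 6 * x ^ 2 := by
    calc B ^ 2 ≤ (18 * L ^ 3 * (√(2 * a) * x)) ^ 2 := pow_le_pow_left₀ hB0 hBle 2
      _ = 324 * L ^ 6 * (√(2 * (a : ℝ)) ^ 2 * x ^ 2) := by ring
      _ = _ := by rw [h2a]; ring
  have hA1 : ∑ c ∈ Icc 1 C, |S1 c| ≤ C * x / (2 * L ^ 3) := by
    have hsec := Rh2.second a ha b C y0 z B (RhA.gp g x) hB0 hza hy01 hu hu0
    have hxν : (x : ℝ) ^ ν * (x : ℝ) ^ (-ν) = 1 := by
      rw [← Real.rpow_add hxpos]
      norm_num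
    have hcz : (C : ℝ) / z + 32 * y0 ≤ 33 * (C * (x : ℝ) ^ (-ν)) := by
      have h1 : (C : ℝ) / z ≤ (C * (x : ℝ) ^ (-ν)) := by
        rw [div_le_iff₀ hzpos]
        have h2 : (x : ℝ) ^ ν ≤ z := (Real.rpow_le_rpow_of_exponent_le hx1' (min_le_left _ _)).trans hz
        calc (C : ℝ) = (C * ((x : ℝ) ^ ν * (x : ℝ) ^ (-ν))) := by rw [hxν, mul_one]
          _ = (C * (x : ℝ) ^ (-ν)) * (x : ℝ) ^ ν := by ring
          _ ≤ (C * (x : ℝ) ^ (-ν)) * z := mul_le_mul_of_nonneg_left h2 (by positivity)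
      have h2 : (y0 : ℝ) ≤ C * (x : ℝ) ^ (-ν) := by
        calc (y0 : ℝ) ≤ (x : ℝ) ^ (87 / 100 : ℝ) := hy0le
          _ = (x : ℝ) ^ (9 / 10 : ℝ) * (x : ℝ) ^ (-(3 / 100) : ℝ) := by
              rw [← Real.rpow_add hxpos]
              norm_num
          _ ≤ C * (x : ℝ) ^ (-ν) := by
              apply mul_le_mul hC1 _ (by positivity) hC0.le
              apply Real.rpow_le_rpow_of_exponent_le hx1'
              have := min_le_right η (1 / 100)
              linarith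
      linarith
    have hly : 1 + 2 * Real.log y0 ≤ 3 * L := by
      have h1 : Real.log y0 ≤ L := Real.log_le_log (by exact_mod_cast hy01) (by exact_mod_cast hy0x)
      linarith
    have hly0 : 0 ≤ 1 + 2 * Real.log y0 := by
      have : 0 ≤ Real.log y0 := Real.log_nonneg (by exact_mod_cast hy01)
      linarith
    have hAsq : (∑ c ∈ Icc 1 C, |S1 c|) ^ 2 ≤ (C * x / (2 * L ^ 3)) ^ 2 := by
      have h1 : (∑ c ∈ Icc 1 C, |S1 c|) ^ 2 ≤ C * ∑ c ∈ Icc 1 C, (S1 c) ^ 2 := by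
        have h2 := sq_sum_le_card_mul_sum_sq (s := Icc 1 C) (f := fun c => |S1 c|)
        simp only [sq_abs, Nat.card_Icc, Nat.add_sub_cancel] at h2
        exact h2
      refine h1.trans ?_
      calc (C : ℝ) * ∑ c ∈ Icc 1 C, (S1 c) ^ 2 ≤ C * (B ^ 2 * (1 + 2 * Real.log y0) * (C / z + 32 * y0)) :=
            mul_le_mul_of_nonneg_left hsec hC0.le
        _ ≤ C * ((648 * a * L ^ 6 * x ^ 2) * (3 * L) * (33 * (C * (x : ℝ) ^ (-ν)))) := by
            apply mul_le_mul_of_nonneg_left _ hC0.le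
            apply mul_le_mul _ hcz (by positivity) (by positivity)
            exact mul_le_mul hB2 hly hly0 (by positivity)
        _ = (4 * 648 * a * 99 * L ^ 13) * (x : ℝ) ^ (-ν) * (C * x / (2 * L ^ 3)) ^ 2 := by
            field_simp
            ring
        _ ≤ ((x : ℝ) ^ ν) * (x : ℝ) ^ (-ν) * (C * x / (2 * L ^ 3)) ^ 2 := by
            apply mul_le_mul_of_nonneg_right _ (by positivity)
            exact mul_le_mul_of_nonneg_right f2 (by positivity)
        _ = _ := by rw [hxν, one_mul]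
    exact abs_le_of_sq_le_sq' hAsq (by positivity) |>.2
  have hA2 : ∑ c ∈ Icc 1 C, |S2 c| ≤ C * x / (2 * L ^ 3) := by
    set M : ℕ := b.natAbs ^ 2 + 4 * a.natAbs * C with hM
    have hCn : 1 ≤ C := by
      have : (0 : ℝ) < C := hC0
      exact_mod_cast this
    have haN : 1 ≤ a.natAbs := by
      have := Int.natAbs_pos.2 ha.ne'
      omega
    have hM1 : 1 ≤ M := by
      rw [hM]
      have : 1 ≤ a.natAbs * C := Nat.mul_pos haN hCn
      nlinarith
    have hMc : ∀ c ∈ Icc 1 C, (b ^ 2 - 4 * a * (c : ℤ)).natAbs ≤ M := by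
      intro c hc
      rw [mem_Icc] at hc
      have h1 : (b ^ 2 - 4 * a * (c : ℤ)).natAbs ≤ (b ^ 2).natAbs + (4 * a * (c : ℤ)).natAbs := Int.natAbs_sub_le _ _
      rw [Int.natAbs_pow, Int.natAbs_mul, Int.natAbs_mul, Int.natAbs_natCast] at h1
      refine h1.trans ?_
      rw [hM]
      apply Nat.add_le_add_left
      exact Nat.mul_le_mul_left _ hc.2
    have hMR : (M : ℝ) ≤ Ka * x := by
      have h1 : (M : ℝ) = (b : ℝ) ^ 2 + 4 * a * C := by
        rw [hM]
        push_cast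
        have e1 : ((b.natAbs : ℕ) : ℝ) ^ 2 = (b : ℝ) ^ 2 := by
          rw [Nat.cast_natAbs]
          push_cast
          rw [sq_abs]
        have e2 : ((a.natAbs : ℕ) : ℝ) = (a : ℝ) := by
          rw [Nat.cast_natAbs, abs_of_pos ha]
        rw [e1, e2]
      have h2 : (C : ℝ) ≤ x := by exact_mod_cast hC2
      rw [h1, hKa]
      have h3 : (0 : ℝ) ≤ (b : ℝ) ^ 2 := sq_nonneg _
      nlinarith
    have hM1R : (1 : ℝ) ≤ M := by exact_mod_cast hM1
    have hT : ∀ l : ℕ, 1 ≤ l → l ≤ x ^ 2 → (#l.divisors : ℝ) ≤ K * (x : ℝ) ^ (1 / 100 : ℝ) := by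
      intro l hl1 hl2
      refine (hK l hl1).trans ?_
      apply mul_le_mul_of_nonneg_left _ hK0.le
      calc (l : ℝ) ^ (1 / 200 : ℝ) ≤ ((x : ℝ) ^ (2 : ℝ)) ^ (1 / 200 : ℝ) := by
            apply Real.rpow_le_rpow (by positivity) _ (by norm_num)
            rw [Real.rpow_ofNat]
            exact_mod_cast hl2
        _ = _ := by
            rw [← Real.rpow_mul hxpos.le]
            norm_num
    have hfour := Rh2.fourth a ha b C y0 x z M B (K * (x : ℝ) ^ (1 / 100 : ℝ)) (RhA.gp g x) hB0 hza hy01 hu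
      (fun d hd => (hu0 d hd).2) hT hMc hM1
    have hΔ : (x : ℝ) ^ 2 * (√M + 1) + C * (8 * M * (1 + Real.log (4 * (M : ℝ) ^ 2))) ≤
        42 * Ka * L * (x : ℝ) ^ (5 / 2 : ℝ) := by
      have hx25 : (x : ℝ) ^ (5 / 2 : ℝ) = (x : ℝ) ^ 2 * √(x : ℝ) := by
        rw [Real.sqrt_eq_rpow, ← Real.rpow_natCast (x : ℝ) 2, ← Real.rpow_add hxpos]
        norm_num
      have h1 : √(M : ℝ) + 1 ≤ 2 * Ka * √(x : ℝ) := by
        have h2 : √(M : ℝ) ≤ Ka * √(x : ℝ) := by
          rw [Real.sqrt_le_iff]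
          refine ⟨by positivity, ?_⟩
          rw [mul_pow, Real.sq_sqrt hxpos.le]
          refine hMR.trans ?_
          apply mul_le_mul_of_nonneg_right _ hxpos.le
          nlinarith
        have h3 : 1 ≤ Ka * √(x : ℝ) := by
          have : 1 ≤ √(x : ℝ) := Real.one_le_sqrt.2 hx1'
          nlinarith
        linarith
      have h2 : 1 + Real.log (4 * (M : ℝ) ^ 2) ≤ 5 * L := by
        have h3 : Real.log (4 * (M : ℝ) ^ 2) ≤ Real.log ((x : ℝ) ^ 4) := by
          apply Real.log_le_log (by positivity)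
          calc 4 * (M : ℝ) ^ 2 ≤ 4 * (Ka * x) ^ 2 := by gcongr
            _ = (2 * Ka) ^ 2 * (x : ℝ) ^ 2 := by ring
            _ ≤ (x : ℝ) ^ 2 * (x : ℝ) ^ 2 := by gcongr
            _ = _ := by ring
        rw [Real.log_pow] at h3
        push_cast at h3
        linarith
      have h3 : 0 ≤ 1 + Real.log (4 * (M : ℝ) ^ 2) := by
        have : 0 ≤ Real.log (4 * (M : ℝ) ^ 2) := Real.log_nonneg (by nlinarith)
        linarith
      have h4 : (C : ℝ) ≤ x := by exact_mod_cast hC2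
      have h5 : 1 ≤ √(x : ℝ) := Real.one_le_sqrt.2 hx1'
      rw [hx25]
      calc (x : ℝ) ^ 2 * (√M + 1) + C * (8 * M * (1 + Real.log (4 * (M : ℝ) ^ 2))) ≤
            (x : ℝ) ^ 2 * (2 * Ka * √(x : ℝ)) + x * (8 * (Ka * x) * (5 * L)) := by
              apply add_le_add
              · exact mul_le_mul_of_nonneg_left h1 (by positivity)
              · apply mul_le_mul h4 _ (by positivity) hxpos.le
                apply mul_le_mul _ h2 h3 (by positivity)
                exact mul_le_mul_of_nonneg_left hMR (by norm_num)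
        _ = 2 * Ka * ((x : ℝ) ^ 2 * √(x : ℝ)) * 1 + 40 * Ka * L * ((x : ℝ) ^ 2 * 1) := by ring
        _ ≤ 2 * Ka * ((x : ℝ) ^ 2 * √(x : ℝ)) * L + 40 * Ka * L * ((x : ℝ) ^ 2 * √(x : ℝ)) := by
              have : 1 ≤ L := by linarith
              gcongr
        _ = _ := by ring
    have hΔ0 : 0 ≤ (x : ℝ) ^ 2 * (√M + 1) + C * (8 * M * (1 + Real.log (4 * (M : ℝ) ^ 2))) := by
      have : 0 ≤ Real.log (4 * (M : ℝ) ^ 2) := Real.log_nonneg (by nlinarith)
      positivity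
    have hS4 : ∑ c ∈ Icc 1 C, S2 c ^ 4 ≤ C * x ^ 4 / (16 * L ^ 12) := by
      have hB4 : B ^ 4 ≤ 18 ^ 4 * 4 * a ^ 2 * L ^ 12 * x ^ 4 := by
        calc B ^ 4 = (B ^ 2) ^ 2 := by ring
          _ ≤ (648 * a * L ^ 6 * x ^ 2) ^ 2 := pow_le_pow_left₀ (by positivity) hB2 2
          _ = _ := by ring
      have hy0sq : (x : ℝ) ^ (174 / 100 : ℝ) / 4 ≤ (y0 : ℝ) ^ 2 := by
        calc (x : ℝ) ^ (174 / 100 : ℝ) / 4 = ((x : ℝ) ^ (87 / 100 : ℝ) / 2) ^ 2 := by
              rw [div_pow, ← Real.rpow_natCast ((x : ℝ) ^ (87 / 100 : ℝ)) 2, ← Real.rpow_mul hxpos.le]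
              norm_num
          _ ≤ _ := pow_le_pow_left₀ (by positivity) hy0ge 2
      have hT2 : (K * (x : ℝ) ^ (1 / 100 : ℝ)) ^ 2 = K ^ 2 * (x : ℝ) ^ (2 / 100 : ℝ) := by
        rw [mul_pow, ← Real.rpow_natCast ((x : ℝ) ^ (1 / 100 : ℝ)) 2, ← Real.rpow_mul hxpos.le]
        norm_num
      refine hfour.trans ?_
      have hx174 : 0 < (x : ℝ) ^ (174 / 100 : ℝ) := by positivity
      calc ((K * (x : ℝ) ^ (1 / 100 : ℝ)) ^ 2 * B ^ 4 / (y0 : ℝ) ^ 2) *
            ((x : ℝ) ^ 2 * (√M + 1) + C * (8 * M * (1 + Real.log (4 * (M : ℝ) ^ 2)))) ≤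
            (K ^ 2 * (x : ℝ) ^ (2 / 100 : ℝ) * (18 ^ 4 * 4 * a ^ 2 * L ^ 12 * x ^ 4) / ((x : ℝ) ^ (174 / 100 : ℝ) / 4)) *
              (42 * Ka * L * (x : ℝ) ^ (5 / 2 : ℝ)) := by
              apply mul_le_mul _ hΔ hΔ0 (by positivity)
              rw [hT2]
              apply div_le_div₀ (by positivity) _ (by positivity) hy0sq
              exact mul_le_mul_of_nonneg_left hB4 (by positivity)
        _ = (K ^ 2 * 18 ^ 4 * 4 * a ^ 2 * 4 * 42 * Ka * 16 * L ^ 25) *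
            ((x : ℝ) ^ (2 / 100 : ℝ) * (x : ℝ) ^ (5 / 2 : ℝ) / (x : ℝ) ^ (174 / 100 : ℝ)) * (x ^ 4 / (16 * L ^ 12)) := by
              field_simp
        _ ≤ (x : ℝ) ^ (12 / 100 : ℝ) *
            ((x : ℝ) ^ (2 / 100 : ℝ) * (x : ℝ) ^ (5 / 2 : ℝ) / (x : ℝ) ^ (174 / 100 : ℝ)) * (x ^ 4 / (16 * L ^ 12)) := by
              gcongr
        _ = (x : ℝ) ^ (9 / 10 : ℝ) * (x ^ 4 / (16 * L ^ 12)) := by
              congr 1
              rw [← Real.rpow_add hxpos, ← Real.rpow_sub hxpos, ← Real.rpow_add hxpos]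
              norm_num
        _ ≤ C * (x ^ 4 / (16 * L ^ 12)) := mul_le_mul_of_nonneg_right hC1 (by positivity)
        _ = _ := by ring
    have h1 : (∑ c ∈ Icc 1 C, |S2 c|) ^ 2 ≤ C * ∑ c ∈ Icc 1 C, (S2 c) ^ 2 := by
      have h2 := sq_sum_le_card_mul_sum_sq (s := Icc 1 C) (f := fun c => |S2 c|)
      simp only [sq_abs, Nat.card_Icc, Nat.add_sub_cancel] at h2
      exact h2
    have h2 : (∑ c ∈ Icc 1 C, (S2 c) ^ 2) ^ 2 ≤ C * ∑ c ∈ Icc 1 C, (S2 c) ^ 4 := by
      have h2 := sq_sum_le_card_mul_sum_sq (s := Icc 1 C) (f := fun c => (S2 c) ^ 2)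
      simp only [Nat.card_Icc, Nat.add_sub_cancel, ← pow_mul] at h2
      exact h2
    have h3 : (∑ c ∈ Icc 1 C, |S2 c|) ^ 4 ≤ (C * x / (2 * L ^ 3)) ^ 4 := by
      calc (∑ c ∈ Icc 1 C, |S2 c|) ^ 4 = ((∑ c ∈ Icc 1 C, |S2 c|) ^ 2) ^ 2 := by ring
        _ ≤ (C * ∑ c ∈ Icc 1 C, (S2 c) ^ 2) ^ 2 := pow_le_pow_left₀ (by positivity) h1 2
        _ = (C : ℝ) ^ 2 * (∑ c ∈ Icc 1 C, (S2 c) ^ 2) ^ 2 := by ring
        _ ≤ (C : ℝ) ^ 2 * (C * ∑ c ∈ Icc 1 C, (S2 c) ^ 4) := mul_le_mul_of_nonneg_left h2 (by positivity)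
        _ ≤ (C : ℝ) ^ 2 * (C * (C * x ^ 4 / (16 * L ^ 12))) := by gcongr
        _ = _ := by
            field_simp
            ring
    exact le_of_pow_le_pow_left₀ (by norm_num) (by positivity) h3
  calc ∑ c ∈ Icc 1 C, |S1 c| + ∑ c ∈ Icc 1 C, |S2 c| ≤ C * x / (2 * L ^ 3) + C * x / (2 * L ^ 3) :=
        add_le_add hA1 hA2
    _ = _ := by
        field_simp
        ring

end Pool.Agent.N792
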