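import Mathlib
import Pool.Agent.N792.QStm
import Pool.Agent.N792.Rc2

/-!
The average number of the roots modulo a rough squarefree number, for `C ≥ x^(1/2+ε)`
(helper879, for helper792).
-/

set_option autoImplicit false

namespace Pool.Agent.N792

open Finset Filter Topology
open ArithmeticFunction (moebius vonMangoldt)

/-- **R2** -/
theorem r2 (a : ℤ) (ha : 0 < a) (b : ℤ) : R2 a b := by
  intro η ε hη hε
  have e1 := RhB.card_div_le η hη
  have e2 := ev_log_pow (2 * a + 1) 0 hη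
  have e3 := ev_log_pow ((2 : ℝ) ^ (2 / η) * 16) 1 hε
  have e4 : ∀ᶠ x : ℕ in atTop, (1 : ℝ) ≤ Real.log x := Shp.log_ge 1
  obtain ⟨x0, hx0⟩ := eventually_atTop.1 (((e1.and e2).and e3).and e4)
  refine ⟨max x0 3, fun x hx C z m hC1 hC2 hz hm hr hsq => ?_⟩
  obtain ⟨⟨⟨f1, f2⟩, f3⟩, f4⟩ := hx0 x ((le_max_left _ _).trans hx)
  have hx3 : 3 ≤ x := (le_max_right _ _).trans hx
  rw [pow_zero, mul_one] at f2
  rw [pow_one] at f3
  have hxpos : (0 : ℝ) < x := by
    have : 0 < x := by omega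
    exact_mod_cast this
  have hx1' : (1 : ℝ) ≤ x := by
    have : 1 ≤ x := by omega
    exact_mod_cast this
  have hza : 2 * a < z := by
    have h1 : (2 * (a : ℝ)) < z := by linarith
    exact_mod_cast h1
  have hm0 : m ≠ 0 := hr.1
  have hcard : (#m.divisors : ℝ) ≤ (2 : ℝ) ^ (2 / η) := f1 z m hz (by nlinarith) hr
  have h1 : ∀ c ∈ Icc 1 C, (rho a b (c : ℕ) m : ℝ) =
      ∑ d ∈ m.divisors, ((jacobiSym (b ^ 2 - 4 * a * (c : ℕ)) d : ℤ) : ℝ) := by
    intro c _
    have h2 := RhA.rho_sum a b c m hsq (fun p hp hpm => RhA.rough_cop ha hza hr p hp hpm)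
    exact_mod_cast h2
  rw [sum_congr rfl h1, sum_comm]
  have h2 : ∀ d ∈ m.divisors, ∑ c ∈ Icc 1 C, ((jacobiSym (b ^ 2 - 4 * a * (c : ℕ)) d : ℤ) : ℝ) ≤
      (if d = 1 then (C : ℝ) else 0) + 8 * √(x : ℝ) * (1 + Real.log x) := by
    intro d hd
    rw [Nat.mem_divisors] at hd
    have hd0 : 0 < d := Nat.pos_of_dvd_of_pos hd.1 (Nat.pos_of_ne_zero hm0)
    have hdx : d ≤ x := (Nat.le_of_dvd (Nat.pos_of_ne_zero hm0) hd.1).trans hm
    have hnn : 0 ≤ 8 * √(x : ℝ) * (1 + Real.log x) := by positivity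
    by_cases hd1 : d = 1
    · subst hd1
      simp only [jacobiSym.one_right, Int.cast_one, sum_const, Nat.card_Icc, Nat.add_sub_cancel, nsmul_eq_mul,
        mul_one, if_true]
      linarith
    · rw [if_neg hd1, zero_add]
      have hsd : Squarefree d := hsq.squarefree_of_dvd hd.1
      have hrd : Rough z d := RhA.rough_of_dvd hr hd.1
      have hpr : ∀ p : ℕ, p.Prime → p ∣ d → p ≠ 2 ∧ ¬ (p : ℤ) ∣ a := fun p hp hpd =>
        RhA.rough_cop ha hza hrd p hp hpd
      have hodd : Odd d := by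
        rw [← Nat.not_even_iff_odd]
        intro he
        exact (hpr 2 Nat.prime_two he.two_dvd).1 rfl
      obtain ⟨t, ht⟩ := Pool.Agent.H379R2.W.exists_neg_one hsd squarefree_one hodd odd_one hd1
      have ht' : jacobiSym (t : ℤ) d = -1 := by
        rw [mul_one] at ht
        exact ht
      refine (le_abs_self _).trans ((RhB.lin_sum a b C d (by omega) ⟨t, ht'⟩ hpr).trans ?_)
      have hdR : (d : ℝ) ≤ x := by exact_mod_cast hdx
      have hdR0 : (0 : ℝ) < d := by exact_mod_cast hd0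
      have h3 : √(d : ℝ) ≤ √(x : ℝ) := Real.sqrt_le_sqrt hdR
      have h4 : Real.log d ≤ Real.log x := Real.log_le_log hdR0 hdR
      have h5 : 0 ≤ Real.log (d : ℝ) := Real.log_nonneg (by exact_mod_cast hd0)
      gcongr
  refine (sum_le_sum h2).trans ?_
  rw [sum_add_distrib, sum_ite_eq', if_pos (Nat.one_mem_divisors.2 hm0), sum_const, nsmul_eq_mul]
  have h3 : (#m.divisors : ℝ) * (8 * √(x : ℝ) * (1 + Real.log x)) ≤ C := by
    calc (#m.divisors : ℝ) * (8 * √(x : ℝ) * (1 + Real.log x)) ≤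
        (2 : ℝ) ^ (2 / η) * (8 * √(x : ℝ) * (2 * Real.log x)) := by gcongr; linarith
      _ = ((2 : ℝ) ^ (2 / η) * 16 * Real.log x) * √(x : ℝ) := by ring
      _ ≤ (x : ℝ) ^ ε * √(x : ℝ) := by gcongr
      _ = (x : ℝ) ^ (1 / 2 + ε) := by
          rw [Real.sqrt_eq_rpow, ← Real.rpow_add hxpos, add_comm]
      _ ≤ C := hC1
  linarith

end Pool.Agent.N792
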