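import Mathlib
import Pool.Agent.N792.Asm

/-!
Final assembly, part A: elementary lemmas (helper124, for helper792).
-/

set_option autoImplicit false

namespace Pool.Agent.N792.Fn124

open Finset Filter Topology Pool.Agent.N792
open ArithmeticFunction (vonMangoldt)

/-- the number of the prime values -/
def Pc (a b : ℤ) (c u v : ℕ) : ℕ := #((Ioc u v).filter (fun m : ℕ => (fv a b c m).toNat.Prime))

lemma Pc_add (a b : ℤ) (c u v w : ℕ) (h1 : u ≤ v) (h2 : v ≤ w) :
    Pc a b c u w = Pc a b c u v + Pc a b c v w := by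
  unfold Pc
  rw [← card_union_of_disjoint]
  · congr 1
    ext m
    simp only [mem_filter, mem_Ioc, mem_union]
    constructor
    · rintro ⟨⟨h3, h4⟩, h5⟩
      rcases le_or_gt m v with h6 | h6
      · exact Or.inl ⟨⟨h3, h6⟩, h5⟩
      · exact Or.inr ⟨⟨h6, h4⟩, h5⟩
    · rintro (⟨⟨h3, h4⟩, h5⟩ | ⟨⟨h3, h4⟩, h5⟩)
      · exact ⟨⟨h3, h4.trans h2⟩, h5⟩
      · exact ⟨⟨lt_of_le_of_lt h1 h3, h4⟩, h5⟩
  · rw [disjoint_left]
    intro m hm1 hm2
    rw [mem_filter, mem_Ioc] at hm1 hm2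
    omega

/-- the real inequality behind the passage from `Λ` to primes -/
lemma real_step {M L K S lam kap β X D T pp Lm : ℝ} (hL : 0 < L) (hK : 0 ≤ K) (hM : 0 ≤ M)
    (hX : 0 < X) (hS : 0 < S) (hD1 : D ≤ X) (hβ : 0 < β) (hβ1 : β ≤ 1 / 2)
    (h1 : (2 * L - K) * M ≤ T) (h2 : T ≤ (2 * L + K) * M) (h3 : T ≤ Lm) (h4 : Lm ≤ T + pp)
    (h5 : pp ≤ lam * X) (h6 : |Lm - S * D| ≤ lam * X + kap * S * X) (h7 : lam ≤ β * S / 4)
    (h8 : kap ≤ β / 2) (h9 : K ≤ L) (h10 : 2 * K ≤ β * L) :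
    |M - S * D / (2 * L)| ≤ β * (S * X / L) := by
  have hSX : 0 < S * X := by positivity
  have e1 : lam * X ≤ β * (S * X) / 4 := by
    calc lam * X ≤ β * S / 4 * X := by gcongr
      _ = _ := by ring
  have e2 : kap * S * X ≤ β * (S * X) / 2 := by
    calc kap * S * X = kap * (S * X) := by ring
      _ ≤ β / 2 * (S * X) := by gcongr
      _ = _ := by ring
  have e3 : S * D ≤ S * X := by gcongr
  obtain ⟨g1, g2⟩ := abs_le.1 h6
  have e4 : Lm ≤ 2 * (S * X) := by nlinarith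
  have e5 : L * M ≤ 2 * (S * X) := by
    have : L * M ≤ (2 * L - K) * M := by
      apply mul_le_mul_of_nonneg_right _ hM
      linarith
    linarith
  have e6 : K * M ≤ β * (S * X) := by
    have : K * M * L ≤ β * (S * X) * L := by
      calc K * M * L = K * (L * M) := by ring
        _ ≤ K * (2 * (S * X)) := by gcongr
        _ = 2 * K * (S * X) := by ring
        _ ≤ β * L * (S * X) := by gcongr
        _ = _ := by ring
    exact le_of_mul_le_mul_right this hL
  have e7 : |2 * L * M - S * D| ≤ 2 * β * (S * X) := by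
    rw [abs_le]
    constructor <;> nlinarith
  have e8 : M - S * D / (2 * L) = (2 * L * M - S * D) / (2 * L) := by
    field_simp
  rw [e8, abs_div, abs_of_pos (by positivity : 0 < 2 * L), div_le_iff₀ (by positivity)]
  calc |2 * L * M - S * D| ≤ 2 * β * (S * X) := e7
    _ = β * (S * X / L) * (2 * L) := by field_simp

/-- the size of the values of the polynomial -/
lemma fv_size (a : ℤ) (ha : 0 < a) (b : ℤ) (R : ℕ) (hR : 1 ≤ R) : ∃ K : ℝ, 0 ≤ K ∧ ∃ x0 : ℕ, ∀ x : ℕ, x0 ≤ x →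
    ∀ c n : ℕ, c ≤ x → n ≤ x → x ≤ R * n →
    |Real.log (fv a b c n).toNat - 2 * Real.log x| ≤ K ∧ x < (fv a b c n).toNat := by
  obtain ⟨A, hA⟩ : ∃ A : ℕ, (A : ℤ) = a + |b| + 1 := ⟨(a + |b| + 1).toNat, by
    rw [Int.toNat_of_nonneg]; positivity⟩
  have hA1 : 1 ≤ A := by
    have : (1 : ℤ) ≤ A := by rw [hA]; have := abs_nonneg b; linarith
    exact_mod_cast this
  have hAr : (1 : ℝ) ≤ A := by exact_mod_cast hA1
  have hRr : (1 : ℝ) ≤ R := by exact_mod_cast hR
  obtain ⟨B, hB⟩ : ∃ B : ℕ, (B : ℤ) = |b| := ⟨|b|.toNat, Int.toNat_of_nonneg (abs_nonneg b)⟩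
  refine ⟨Real.log (2 * (R : ℝ) ^ 2) + Real.log A, ?_, 2 * R * B + 2 * R ^ 2 + 2, ?_⟩
  · apply add_nonneg (Real.log_nonneg _) (Real.log_nonneg hAr)
    nlinarith
  intro x hx c n hcx hnx hxn
  have hx2 : 2 ≤ x := by omega
  have hxr : (0 : ℝ) < x := by exact_mod_cast (by omega : 0 < x)
  -- lower bound
  have hnB : 2 * B ≤ n := by
    have h1 : R * (2 * B) ≤ R * n := by
      calc R * (2 * B) = 2 * R * B := by ring
        _ ≤ x := by omega
        _ ≤ R * n := hxn
    exact Nat.le_of_mul_le_mul_left h1 hR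
  have hnBz : 2 * |b| ≤ (n : ℤ) := by rw [← hB]; exact_mod_cast hnB
  have hn0 : (0 : ℤ) ≤ n := Int.natCast_nonneg n
  have hc0 : (0 : ℤ) ≤ c := Int.natCast_nonneg c
  have hlow : (n : ℤ) ^ 2 ≤ 2 * fv a b c n := by
    unfold fv
    have h1 : -|b| ≤ b := neg_abs_le b
    have h2 : -|b| * n ≤ b * n := mul_le_mul_of_nonneg_right h1 hn0
    have h3 : (n : ℤ) ^ 2 ≤ a * (n : ℤ) ^ 2 := by
      have : 1 ≤ a := ha
      nlinarith [sq_nonneg (n : ℤ)]
    nlinarith
  have hup : fv a b c n ≤ A * (x : ℤ) ^ 2 := by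
    unfold fv
    have hnx' : (n : ℤ) ≤ x := by exact_mod_cast hnx
    have hcx' : (c : ℤ) ≤ x := by exact_mod_cast hcx
    have hx1' : (1 : ℤ) ≤ x := by exact_mod_cast (by omega : 1 ≤ x)
    have h1 : b * n ≤ |b| * x := by
      calc b * n ≤ |b| * n := mul_le_mul_of_nonneg_right (le_abs_self b) hn0
        _ ≤ |b| * x := mul_le_mul_of_nonneg_left hnx' (abs_nonneg b)
    have h2 : |b| * x ≤ |b| * (x : ℤ) ^ 2 := by
      apply mul_le_mul_of_nonneg_left _ (abs_nonneg b)
      nlinarith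
    have h3 : (c : ℤ) ≤ (x : ℤ) ^ 2 := by nlinarith
    have h4 : a * (n : ℤ) ^ 2 ≤ a * (x : ℤ) ^ 2 := by
      apply mul_le_mul_of_nonneg_left _ ha.le
      exact pow_le_pow_left₀ hn0 hnx' 2
    rw [hA]
    nlinarith
  have hpos : 0 ≤ fv a b c n := by nlinarith [sq_nonneg (n : ℤ)]
  obtain ⟨N, hN⟩ : ∃ N : ℕ, N = (fv a b c n).toNat := ⟨_, rfl⟩
  have hNz : (N : ℤ) = fv a b c n := by rw [hN]; exact Int.toNat_of_nonneg hpos
  rw [← hN]
  rw [← hNz] at hlow hup
  have hlow' : n ^ 2 ≤ 2 * N := by exact_mod_cast hlow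
  have hup' : N ≤ A * x ^ 2 := by exact_mod_cast hup
  have hx2n : x ^ 2 ≤ 2 * R ^ 2 * N := by
    calc x ^ 2 ≤ (R * n) ^ 2 := Nat.pow_le_pow_left hxn 2
      _ = R ^ 2 * n ^ 2 := by ring
      _ ≤ R ^ 2 * (2 * N) := Nat.mul_le_mul_left _ hlow'
      _ = _ := by ring
  have hR2 : 2 * R ^ 2 < x := by omega
  have hNx : x < N := by
    by_contra hcon
    push Not at hcon
    have h1 : x ^ 2 ≤ 2 * R ^ 2 * x := hx2n.trans (Nat.mul_le_mul_left _ hcon)
    have h2 : x * x ≤ 2 * R ^ 2 * x := by rw [← sq]; exact h1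
    have h3 := Nat.le_of_mul_le_mul_right h2 (by omega)
    omega
  refine ⟨?_, hNx⟩
  have hNr : (0 : ℝ) < N := by exact_mod_cast (by omega : 0 < N)
  have u1 : Real.log N ≤ Real.log A + 2 * Real.log x := by
    have h1 : (N : ℝ) ≤ A * (x : ℝ) ^ 2 := by exact_mod_cast hup'
    calc Real.log N ≤ Real.log (A * (x : ℝ) ^ 2) := Real.log_le_log hNr h1
      _ = Real.log A + 2 * Real.log x := by
        rw [Real.log_mul (by positivity) (by positivity), Real.log_pow]
        norm_num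
  have u2 : 2 * Real.log x ≤ Real.log (2 * (R : ℝ) ^ 2) + Real.log N := by
    have h1 : (x : ℝ) ^ 2 ≤ 2 * (R : ℝ) ^ 2 * N := by exact_mod_cast hx2n
    calc 2 * Real.log x = Real.log ((x : ℝ) ^ 2) := by rw [Real.log_pow]; norm_num
      _ ≤ Real.log (2 * (R : ℝ) ^ 2 * N) := Real.log_le_log (by positivity) h1
      _ = _ := by rw [Real.log_mul (by positivity) (by positivity)]
  have u3 : 0 ≤ Real.log (2 * (R : ℝ) ^ 2) := Real.log_nonneg (by nlinarith)
  have u4 : 0 ≤ Real.log (A : ℝ) := Real.log_nonneg hAr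
  rw [abs_le]
  constructor <;> linarith

/-- comparison of the sum of `Λ` over rough values with the sum over prime values -/
lemma Lc_compare (a b : ℤ) (x1 x c z : ℕ) (K : ℝ)
    (hK : ∀ n ∈ Ioc x1 x, |Real.log (fv a b c n).toNat - 2 * Real.log x| ≤ K ∧ z < (fv a b c n).toNat) :
    ∃ T : ℝ, (2 * Real.log x - K) * (Pc a b c x1 x : ℝ) ≤ T ∧ T ≤ (2 * Real.log x + K) * (Pc a b c x1 x : ℝ) ∧
      T ≤ Lc a b x1 x c (fun N => rg z N * vonMangoldt N) ∧
      Lc a b x1 x c (fun N => rg z N * vonMangoldt N) ≤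
        T + Lc a b x1 x c (fun N => if N.Prime then 0 else vonMangoldt N) := by
  classical
  refine ⟨∑ n ∈ (Ioc x1 x).filter (fun m : ℕ => (fv a b c m).toNat.Prime), Real.log (fv a b c n).toNat,
    ?_, ?_, ?_, ?_⟩
  · unfold Pc
    rw [mul_comm, ← nsmul_eq_mul]
    apply card_nsmul_le_sum
    intro n hn
    have := (abs_le.1 (hK n (mem_filter.1 hn).1).1).1
    linarith
  · unfold Pc
    rw [mul_comm (2 * Real.log x + K), ← nsmul_eq_mul]
    apply sum_le_card_nsmul
    intro n hn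
    have := (abs_le.1 (hK n (mem_filter.1 hn).1).1).2
    linarith
  · unfold Lc
    rw [sum_filter]
    apply sum_le_sum
    intro n hn
    have hz := (hK n hn).2
    split_ifs with hp
    · have hr : rg z (fv a b c n).toNat = 1 := by
        unfold rg
        rw [if_pos]
        refine ⟨hp.ne_zero, fun q hq hqd => ?_⟩
        rw [(Nat.prime_dvd_prime_iff_eq hq hp).1 hqd]
        exact hz
      simp only [hr, one_mul, ArithmeticFunction.vonMangoldt_apply_prime hp, le_refl]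
    · apply mul_nonneg
      · unfold rg; split_ifs <;> norm_num
      · exact ArithmeticFunction.vonMangoldt_nonneg
  · unfold Lc
    rw [sum_filter, ← sum_add_distrib]
    apply sum_le_sum
    intro n hn
    have hr1 : rg z (fv a b c n).toNat ≤ 1 := by
      unfold rg; split_ifs <;> norm_num
    have hL := ArithmeticFunction.vonMangoldt_nonneg (n := (fv a b c n).toNat)
    simp only
    split_ifs with hp
    · rw [ArithmeticFunction.vonMangoldt_apply_prime hp] at hL ⊢
      nlinarith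
    · nlinarith

/-- Markov's inequality for finite sums -/
lemma markov (S : Finset ℕ) (f : ℕ → ℝ) (hf : ∀ c ∈ S, 0 ≤ f c) (lam : ℝ) (hl : 0 < lam) (B : ℝ)
    (hB : ∑ c ∈ S, f c ≤ B) : (#(S.filter (fun c => lam < f c)) : ℝ) ≤ B / lam := by
  classical
  rw [le_div_iff₀ hl]
  calc (#(S.filter (fun c => lam < f c)) : ℝ) * lam = #(S.filter (fun c => lam < f c)) • lam := by
        rw [nsmul_eq_mul]
    _ ≤ ∑ c ∈ S.filter (fun c => lam < f c), f c := by
        apply card_nsmul_le_sum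
        intro c hc
        exact (mem_filter.1 hc).2.le
    _ ≤ ∑ c ∈ S, f c := by
        apply sum_le_sum_of_subset_of_nonneg (filter_subset _ _)
        intro c hc _
        exact hf c hc
    _ ≤ B := hB

/-- the grid -/
def xg (x R i : ℕ) : ℕ := (i * x + R - 1) / R

lemma xg_zero (x R : ℕ) (hR : 1 ≤ R) : xg x R 0 = 0 := by
  unfold xg
  rw [Nat.zero_mul, Nat.zero_add]
  exact Nat.div_eq_of_lt (by omega)

lemma xg_top (x R : ℕ) (hR : 1 ≤ R) : xg x R R = x := by
  unfold xg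
  rw [Nat.add_sub_assoc hR, Nat.mul_add_div (by omega), Nat.div_eq_of_lt (by omega : R - 1 < R)]
  rfl

lemma le_xg (x R i : ℕ) (hR : 1 ≤ R) : i * x ≤ R * xg x R i := by
  unfold xg
  have h1 := Nat.lt_mul_div_succ (i * x + R - 1) (by omega : 0 < R)
  have h2 : R * ((i * x + R - 1) / R + 1) = R * ((i * x + R - 1) / R) + R := by ring
  omega

lemma xg_le (x R i : ℕ) (hR : 1 ≤ R) : R * xg x R i ≤ i * x + R - 1 := by
  unfold xg
  exact Nat.mul_div_le _ _

lemma xg_mono (x R i : ℕ) (hR : 1 ≤ R) : xg x R i ≤ xg x R (i + 1) := by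
  unfold xg
  apply Nat.div_le_div_right
  have : i * x ≤ (i + 1) * x := Nat.mul_le_mul_right _ (by omega)
  omega

lemma xg_lt (x R i : ℕ) (hR : 1 ≤ R) (hx : R ≤ x) (hi : i < R) : xg x R i < x := by
  have h1 := xg_le x R i hR
  by_contra hcon
  push Not at hcon
  have h2 : R * x ≤ R * xg x R i := Nat.mul_le_mul_left _ hcon
  have h3 : (i + 1) * x ≤ R * x := Nat.mul_le_mul_right _ (by omega)
  have h4 : (i + 1) * x = i * x + x := by ring
  omega

/-- every point lies between two grid points -/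
lemma xg_between (x R v : ℕ) (hR : 1 ≤ R) (hx : 1 ≤ x) (hv : v < x) :
    ∃ i : ℕ, i < R ∧ xg x R i ≤ v ∧ v ≤ xg x R (i + 1) := by
  refine ⟨v * R / x, ?_, ?_, ?_⟩
  · rw [Nat.div_lt_iff_lt_mul (by omega)]
    calc v * R < x * R := Nat.mul_lt_mul_of_pos_right hv (by omega)
      _ = R * x := by ring
  · have h1 := xg_le x R (v * R / x) hR
    have h2 : v * R / x * x ≤ v * R := Nat.div_mul_le_self _ _
    by_contra hcon
    push Not at hcon
    have h3 : R * (v + 1) ≤ R * xg x R (v * R / x) := Nat.mul_le_mul_left _ hcon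
    have h4 : R * (v + 1) = v * R + R := by ring
    omega
  · have h1 := le_xg x R (v * R / x + 1) hR
    have h2 := Nat.lt_mul_div_succ (v * R) (by omega : 0 < x)
    have h3 : x * (v * R / x + 1) = (v * R / x + 1) * x := by ring
    have h4 : R * v ≤ R * xg x R (v * R / x + 1) := by
      have : v * R = R * v := by ring
      omega
    exact Nat.le_of_mul_le_mul_left h4 (by omega)

end Pool.Agent.N792.Fn124
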