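import Mathlib
import Pool.Agent.N792.FinA

/-!
Final assembly, part B (helper124, for helper792).
-/

set_option autoImplicit false

namespace Pool.Agent.N792.Fn124

open Finset Filter Topology Pool.Agent.N792
open ArithmeticFunction (vonMangoldt)

lemma grid_all {a b : ℤ} {c x R : ℕ} {L S β : ℝ} (hR : 1 ≤ R) (hx : 1 ≤ x) (hL : 0 < L) (hS : 0 < S)
    (hβ : 0 < β) (hg : (x : ℝ) / R + 1 ≤ 2 * β * x)
    (h1 : ∀ i, 1 ≤ i → i < R → |(Pc a b c (xg x R i) x : ℝ) - S * ((x : ℝ) - xg x R i) / (2 * L)| ≤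
      β * (S * x / L))
    (h2 : (Pc a b c 0 (xg x R 1) : ℝ) ≤ β * (S * x / L)) (v : ℕ) (hv : v ≤ x) :
    |(Pc a b c 0 v : ℝ) - S * v / (2 * L)| ≤ 5 * β * (S * x / L) := by
  have hxr : (0 : ℝ) < x := by exact_mod_cast (by omega : 0 < x)
  have hRr : (0 : ℝ) < R := by exact_mod_cast (by omega : 0 < R)
  have hQ : 0 < S * x / L := by positivity
  have hmono : ∀ i j, i ≤ j → xg x R i ≤ xg x R j := fun i j hij =>
    monotone_nat_of_le_succ (xg_mono x R · hR) hij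
  have hstep : ∀ i, (xg x R (i + 1) : ℝ) ≤ xg x R i + 2 * β * x := by
    intro i
    have k1 := xg_le x R (i + 1) hR
    have k2 := le_xg x R i hR
    have k3 : R * xg x R (i + 1) ≤ R * xg x R i + x + R := by
      have : (i + 1) * x = i * x + x := by ring
      omega
    have k4 : (R : ℝ) * xg x R (i + 1) ≤ R * xg x R i + x + R := by exact_mod_cast k3
    have k5 : (xg x R (i + 1) : ℝ) ≤ xg x R i + (x / R + 1) := by
      have : (R : ℝ) * xg x R (i + 1) ≤ R * (xg x R i + (x / R + 1)) := by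
        calc (R : ℝ) * xg x R (i + 1) ≤ R * xg x R i + x + R := k4
          _ = _ := by field_simp; ring
      exact le_of_mul_le_mul_left this hRr
    linarith
  -- all grid points
  have h1' : ∀ i, 1 ≤ i → i ≤ R → |(Pc a b c (xg x R i) x : ℝ) - S * ((x : ℝ) - xg x R i) / (2 * L)| ≤
      β * (S * x / L) := by
    intro i hi1 hi2
    rcases lt_or_eq_of_le hi2 with h | h
    · exact h1 i hi1 h
    · rw [h, xg_top x R hR]
      have : Pc a b c x x = 0 := by simp [Pc]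
      rw [this]
      simp
      positivity
  have hgrid : ∀ i, i ≤ R → |(Pc a b c 0 (xg x R i) : ℝ) - S * (xg x R i) / (2 * L)| ≤
      4 * β * (S * x / L) := by
    intro i hi
    rcases Nat.eq_zero_or_pos i with h0 | h0
    · rw [h0, xg_zero x R hR]
      have : Pc a b c 0 0 = 0 := by simp [Pc]
      rw [this]
      simp
      positivity
    · have e1 := h1' i h0 hi
      have e2 := h1' 1 le_rfl (by omega)
      have m1 := hmono 1 i h0
      have m2 : xg x R i ≤ x := by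
        have := hmono i R hi
        rwa [xg_top x R hR] at this
      have p1 := Pc_add a b c 0 (xg x R i) x (by omega) m2
      have p2 := Pc_add a b c 0 (xg x R 1) x (by omega) (m1.trans m2)
      have p1' : (Pc a b c 0 x : ℝ) = Pc a b c 0 (xg x R i) + Pc a b c (xg x R i) x := by
        exact_mod_cast p1
      have p2' : (Pc a b c 0 x : ℝ) = Pc a b c 0 (xg x R 1) + Pc a b c (xg x R 1) x := by
        exact_mod_cast p2
      have q1 : (xg x R 1 : ℝ) ≤ 2 * β * x := by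
        have := hstep 0
        rw [xg_zero x R hR] at this
        simpa using this
      have q2 : S * (xg x R 1 : ℝ) / (2 * L) ≤ β * (S * x / L) := by
        calc S * (xg x R 1 : ℝ) / (2 * L) ≤ S * (2 * β * x) / (2 * L) := by gcongr
          _ = _ := by field_simp
      have q3 : 0 ≤ S * (xg x R 1 : ℝ) / (2 * L) := by positivity
      have q4 : (0 : ℝ) ≤ Pc a b c 0 (xg x R 1) := Nat.cast_nonneg _
      have r1 : S * ((x : ℝ) - xg x R i) / (2 * L) = S * x / (2 * L) - S * (xg x R i) / (2 * L) := by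
        rw [mul_sub, sub_div]
      have r2 : S * ((x : ℝ) - xg x R 1) / (2 * L) = S * x / (2 * L) - S * (xg x R 1) / (2 * L) := by
        rw [mul_sub, sub_div]
      rw [r1] at e1
      rw [r2] at e2
      rw [abs_le] at e1 e2 ⊢
      constructor <;> linarith [e1.1, e1.2, e2.1, e2.2]
  rcases lt_or_eq_of_le hv with hvx | hvx
  · obtain ⟨i, hi, hi1, hi2⟩ := xg_between x R v hR hx hvx
    have e1 := hgrid i hi.le
    have e2 := hgrid (i + 1) hi
    have p1 := Pc_add a b c 0 (xg x R i) v (by omega) hi1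
    have p2 := Pc_add a b c 0 v (xg x R (i + 1)) (by omega) hi2
    have p1' : (Pc a b c 0 (xg x R i) : ℝ) ≤ Pc a b c 0 v := by exact_mod_cast (by omega)
    have p2' : (Pc a b c 0 v : ℝ) ≤ Pc a b c 0 (xg x R (i + 1)) := by exact_mod_cast (by omega)
    have hs := hstep i
    have v1 : (xg x R i : ℝ) ≤ v := by exact_mod_cast hi1
    have v2 : (v : ℝ) ≤ xg x R (i + 1) := by exact_mod_cast hi2
    have w1 : S * v / (2 * L) ≤ S * (xg x R i) / (2 * L) + β * (S * x / L) := by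
      calc S * v / (2 * L) ≤ S * (xg x R i + 2 * β * x) / (2 * L) := by
            gcongr; linarith
        _ = _ := by field_simp
    have w2 : S * (xg x R (i + 1)) / (2 * L) ≤ S * v / (2 * L) + β * (S * x / L) := by
      calc S * (xg x R (i + 1)) / (2 * L) ≤ S * (v + 2 * β * x) / (2 * L) := by
            gcongr; linarith
        _ = _ := by field_simp
    rw [abs_le] at e1 e2 ⊢
    constructor <;> linarith [e1.1, e1.2, e2.1, e2.2]
  · have := hgrid R le_rfl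
    rw [xg_top x R hR] at this
    rw [hvx]
    refine this.trans ?_
    have : 0 < β * (S * x / L) := by positivity
    linarith

/-- from the normalisation `S` to the true singular series -/
lemma final_step {a b : ℤ} {c x u v : ℕ} {L S S' β η Sg : ℝ} (hx : 1 ≤ x) (hL : 0 < L)
    (hS : 0 < S) (hβ : 0 < β) (huv : u ≤ v) (hvx : v ≤ x) (hη : 23 * β ≤ η)
    (hu : |(Pc a b c 0 u : ℝ) - S * u / (2 * L)| ≤ 5 * β * (S * x / L))
    (hv : |(Pc a b c 0 v : ℝ) - S * v / (2 * L)| ≤ 5 * β * (S * x / L))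
    (hSS : |S' - S| ≤ S / L ^ 3) (hL3 : 1 / L ^ 3 ≤ β) (hβ1 : β ≤ 1 / 2)
    (hli : |Sg - ((v : ℝ) - u) / (2 * L)| ≤ β * (x / L)) :
    |(Pc a b c u v : ℝ) - S' * Sg| ≤ η * (S' * x / L) := by
  have hxr : (0 : ℝ) < x := by exact_mod_cast (by omega : 0 < x)
  have hvr : (v : ℝ) ≤ x := by exact_mod_cast hvx
  have huvr : (u : ℝ) ≤ v := by exact_mod_cast huv
  have hur : (0 : ℝ) ≤ u := Nat.cast_nonneg _
  have p1 := Pc_add a b c 0 u v (by omega) huv
  have p1' : (Pc a b c 0 v : ℝ) = Pc a b c 0 u + Pc a b c u v := by exact_mod_cast p1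
  have hSL : S / L ^ 3 ≤ β * S := by
    calc S / L ^ 3 = 1 / L ^ 3 * S := by ring
      _ ≤ β * S := by gcongr
  have h1 := hSS.trans hSL
  have hS' : S / 2 ≤ S' := by
    have := (abs_le.1 h1).1
    nlinarith
  have hS'0 : 0 < S' := by linarith
  have hQ' : 0 < S' * x / L := by positivity
  have hQQ : S * x / L ≤ 2 * (S' * x / L) := by
    calc S * x / L ≤ (2 * S') * x / L := by gcongr; linarith
      _ = _ := by ring
  have e1 : |(Pc a b c u v : ℝ) - S * ((v : ℝ) - u) / (2 * L)| ≤ 10 * β * (S * x / L) := by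
    have r1 : S * ((v : ℝ) - u) / (2 * L) = S * v / (2 * L) - S * u / (2 * L) := by
      rw [mul_sub, sub_div]
    rw [r1]
    rw [abs_le] at hu hv ⊢
    constructor <;> linarith [hu.1, hu.2, hv.1, hv.2]
  have e2 : |S * ((v : ℝ) - u) / (2 * L) - S' * ((v : ℝ) - u) / (2 * L)| ≤ β * (S * x / L) := by
    have r1 : S * ((v : ℝ) - u) / (2 * L) - S' * ((v : ℝ) - u) / (2 * L) =
      (S - S') * (((v : ℝ) - u) / (2 * L)) := by ring
    have r2 : 0 ≤ ((v : ℝ) - u) / (2 * L) := div_nonneg (by linarith) (by linarith)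
    rw [r1, abs_mul, abs_of_nonneg r2, abs_sub_comm]
    calc |S' - S| * (((v : ℝ) - u) / (2 * L)) ≤ β * S * (x / L) := by
          gcongr
          · linarith
          · linarith
      _ = _ := by ring
  have e3 : |S' * ((v : ℝ) - u) / (2 * L) - S' * Sg| ≤ β * (S' * x / L) := by
    have r1 : S' * ((v : ℝ) - u) / (2 * L) - S' * Sg = -(S' * (Sg - ((v : ℝ) - u) / (2 * L))) := by ring
    rw [r1, abs_neg, abs_mul, abs_of_pos hS'0]
    calc S' * |Sg - ((v : ℝ) - u) / (2 * L)| ≤ S' * (β * (x / L)) := by gcongr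
      _ = _ := by ring
  have e4 : (Pc a b c u v : ℝ) - S' * Sg = ((Pc a b c u v : ℝ) - S * ((v : ℝ) - u) / (2 * L)) +
      (S * ((v : ℝ) - u) / (2 * L) - S' * ((v : ℝ) - u) / (2 * L)) +
      (S' * ((v : ℝ) - u) / (2 * L) - S' * Sg) := by ring
  rw [e4]
  refine (abs_add_three _ _ _).trans ?_
  have e5 : 11 * β * (S * x / L) ≤ 22 * β * (S' * x / L) := by
    calc 11 * β * (S * x / L) ≤ 11 * β * (2 * (S' * x / L)) := by gcongr
      _ = _ := by ring
  have e6 : 23 * β * (S' * x / L) ≤ η * (S' * x / L) := by gcongr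
  linarith

/-! ## The hypotheses -/

/-- `sing_pos` -/
def HSP (a b : ℤ) : Prop := ∀ η : ℝ, 0 < η → ∀ E : ℕ,
    ∃ θ : ℝ, 0 < θ ∧ ∃ x0 : ℕ, ∀ x : ℕ, x0 ≤ x →
    ∀ C : ℕ, (x : ℝ) ^ (9 / 10 : ℝ) ≤ C → C ≤ x → ∀ w : ℕ, (w : ℝ) ≤ Real.log x ^ E →
    ∃ Ex ⊆ Icc 1 C, (#Ex : ℝ) ≤ η * C ∧ ∀ c ∈ Icc 1 C, c ∉ Ex → Admissible a b c →
      θ ≤ Vc a b c w / V1 w

/-- `sing_tail` -/
def HST (a b : ℤ) : Prop := ∀ U E : ℕ, ∃ x0 : ℕ, ∀ x : ℕ, x0 ≤ x → ∀ C : ℕ,
    (x : ℝ) ^ (9 / 10 : ℝ) ≤ C → C ≤ x → ∀ w z : ℕ, Real.log x ^ (3 * U + 9) ≤ w → (w : ℝ) ≤ Real.log x ^ E →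
    w ≤ z → (z : ℝ) ≤ (x : ℝ) ^ (1 / 5 : ℝ) →
    ∃ Ex ⊆ Icc 1 C, (#Ex : ℝ) ≤ C / Real.log x ^ U ∧ ∀ c ∈ Icc 1 C, c ∉ Ex →
      |Vc a b c z * V1 w - Vc a b c w * V1 z| ≤ Vc a b c w * V1 z / Real.log x ^ U ∧
      (Admissible a b c → ∃ S : ℝ, 0 < S ∧ Tendsto (fun y => partialC a b c y) atTop (𝓝 S) ∧
        |eps a b * S * gcdProd a b - Vc a b c w / V1 w| ≤ Vc a b c w / V1 w / Real.log x ^ U)

/-- `pow_avg` -/
def HPA (a b : ℤ) : Prop := ∀ R : ℕ, ∃ x0 : ℕ, ∀ x : ℕ, x0 ≤ x → ∀ x1 C : ℕ, x1 < x → x ≤ R * x1 → C ≤ x →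
    ∑ c ∈ Icc 1 C, Lc a b x1 x c (fun N => if N.Prime then 0 else vonMangoldt N) ≤ x * Real.log x ^ 3

/-- `small_avg` -/
def HSA (a b : ℤ) : Prop := ∃ C6 : ℝ, 0 < C6 ∧ ∃ x0 : ℕ, ∀ x : ℕ, x0 ≤ x → ∀ x1 C : ℕ, x1 ≤ x →
    (x : ℝ) ^ (9 / 10 : ℝ) ≤ C → C ≤ x →
    ∑ c ∈ Icc 1 C, (#((Icc 1 x1).filter (fun m : ℕ => (fv a b c m).toNat.Prime)) : ℝ) ≤
      C6 * (C * ((x1 : ℝ) + x / Real.log x ^ 2) / Real.log x)

/-- `li_asym` -/
def HLI (a b : ℤ) : Prop := ∀ θ : ℝ, 0 < θ → ∃ x0 : ℕ, ∀ x : ℕ, x0 ≤ x → ∀ c ∈ Icc 1 x,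
    ∀ u v : ℕ, u ≤ v → v ≤ x →
    |∑ m ∈ Ioc u v, 1 / Real.log ((a : ℝ) * m ^ 2 + b * m + c) - ((v : ℝ) - u) / (2 * Real.log x)| ≤
      θ * (x / Real.log x)

end Pool.Agent.N792.Fn124
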