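import Mathlib
import Pool.Agent.N792.FinB

/-!
Final assembly, part C (helper124, for helper792).
-/

set_option autoImplicit false

namespace Pool.Agent.N792.Fn124

open Finset Filter Topology Pool.Agent.N792
open ArithmeticFunction (vonMangoldt)

lemma exists_level (t : ℝ) (ht : 2 ≤ t) :
    ∃ J : ℕ, ((2 ^ 2 ^ J : ℕ) : ℝ) ≤ t ∧ t ≤ ((2 ^ 2 ^ J : ℕ) : ℝ) ^ 2 := by
  set y := ⌊t⌋₊ with hy
  have hy2 : 2 ≤ y := Nat.le_floor (by exact_mod_cast ht)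
  have hlog : Nat.log 2 y ≠ 0 := by
    have := Nat.log_pos (b := 2) (by norm_num) hy2
    omega
  set J := Nat.log 2 (Nat.log 2 y) with hJ
  have h1 : 2 ^ J ≤ Nat.log 2 y := Nat.pow_log_le_self 2 hlog
  have h2 : 2 ^ 2 ^ J ≤ y := (Nat.pow_le_pow_right (by norm_num) h1).trans (Nat.pow_log_le_self 2 (by omega))
  have h3 : Nat.log 2 y < 2 ^ (J + 1) := Nat.lt_pow_succ_log_self (by norm_num) _
  have h4 : y + 1 ≤ 2 ^ 2 ^ (J + 1) := by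
    have h5 : y < 2 ^ (Nat.log 2 y + 1) := Nat.lt_pow_succ_log_self (by norm_num) _
    have h6 : 2 ^ (Nat.log 2 y + 1) ≤ 2 ^ 2 ^ (J + 1) := Nat.pow_le_pow_right (by norm_num) h3
    omega
  refine ⟨J, ?_, ?_⟩
  · have h5 : ((2 ^ 2 ^ J : ℕ) : ℝ) ≤ y := by exact_mod_cast h2
    exact h5.trans (Nat.floor_le (by linarith))
  · have h5 : t < y + 1 := Nat.lt_floor_add_one t
    have h6 : ((y : ℝ) + 1) ≤ ((2 ^ 2 ^ (J + 1) : ℕ) : ℝ) := by exact_mod_cast h4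
    have h7 : 2 ^ 2 ^ (J + 1) = (2 ^ 2 ^ J) ^ 2 := by
      rw [← pow_mul, pow_succ]
    rw [h7] at h6
    push_cast at h6 ⊢
    linarith

lemma evN' (P : ℝ → Prop) (h : ∀ᶠ x : ℝ in Filter.atTop, P x) : ∃ N₀ : ℕ, ∀ N : ℕ, N₀ ≤ N → P N := by
  obtain ⟨x0, hx0⟩ := Filter.eventually_atTop.1 h
  exact ⟨⌈x0⌉₊, fun N hN => hx0 N ((Nat.le_ceil _).trans (by exact_mod_cast hN))⟩

lemma ev_pow' (k : ℕ) (c : ℝ) (s : ℝ) (hs : 0 < s) :
    ∀ᶠ x : ℝ in Filter.atTop, c * Real.log x ^ k ≤ x ^ s := by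
  have h1 : (fun x : ℝ => Real.log x ^ (k : ℝ)) =o[Filter.atTop] fun x : ℝ => x ^ s :=
    isLittleO_log_rpow_rpow_atTop (k : ℝ) hs
  have h3 := (h1.const_mul_left c).def (c := 1) one_pos
  filter_upwards [h3, Filter.eventually_ge_atTop (1 : ℝ)] with x hx hx1
  rw [one_mul, Real.norm_of_nonneg (Real.rpow_nonneg (by linarith) _), Real.rpow_natCast] at hx
  exact (le_abs_self _).trans hx

lemma num_facts {L β η K R : ℝ} (hβ : 0 < β) (hη : 0 < η) (hK : 0 ≤ K) (hR : 0 < R)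
    (h : 2 + K + 2 * K / β + 1 / β + 8 / η + 2 * R ≤ L) :
    2 ≤ L ∧ K ≤ L ∧ 2 * K ≤ β * L ∧ 1 / L ^ 3 ≤ β ∧ 1 / L ^ 3 ≤ η / 8 ∧ 2 * R ≤ L := by
  have t1 : 0 ≤ 2 * K / β := by positivity
  have t2 : 0 < 1 / β := by positivity
  have t3 : 0 < 8 / η := by positivity
  have hL2 : 2 ≤ L := by linarith
  have hL0 : 0 < L := by linarith
  have hL3L : L ≤ L ^ 3 := by
    calc L = L * 1 := (mul_one L).symm
      _ ≤ L * (L * L) := by gcongr; nlinarith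
      _ = L ^ 3 := by ring
  refine ⟨hL2, by linarith, ?_, ?_, ?_, by linarith⟩
  · have : 2 * K / β ≤ L := by linarith
    rw [div_le_iff₀ hβ] at this
    linarith
  · have h1 : 1 / β ≤ L := by linarith
    rw [div_le_iff₀ hβ] at h1
    rw [div_le_iff₀ (by positivity)]
    calc 1 ≤ β * L := by linarith
      _ ≤ β * L ^ 3 := by gcongr
  · have h1 : 8 / η ≤ L := by linarith
    rw [div_le_iff₀ hη] at h1
    rw [div_le_iff₀ (by positivity)]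
    calc (1 : ℝ) ≤ η / 8 * L := by linarith
      _ ≤ η / 8 * L ^ 3 := by gcongr

/-- the choice of the levels -/
lemma levels {x : ℕ} {η1 L : ℝ} {As E : ℕ} (hx : 1 ≤ x) (hL2 : 2 ≤ L) (hη1 : η1 ≤ 1 / 20)
    (g3 : 2 ≤ (x : ℝ) ^ η1) (g2 : 1 * L ^ E ≤ (x : ℝ) ^ (η1 / 2)) (hE : E = 2 * max As 18) :
    ∃ J Jw : ℕ, (x : ℝ) ^ (η1 / 2) ≤ ((2 ^ 2 ^ J : ℕ) : ℝ) ∧ ((2 ^ 2 ^ J : ℕ) : ℝ) ≤ (x : ℝ) ^ η1 ∧
      L ^ As ≤ ((2 ^ 2 ^ Jw : ℕ) : ℝ) ∧ ((2 ^ 2 ^ Jw : ℕ) : ℝ) ≤ L ^ E ∧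
      L ^ (3 * 3 + 9) ≤ ((2 ^ 2 ^ Jw : ℕ) : ℝ) ∧ 2 ^ 2 ^ Jw ≤ 2 ^ 2 ^ J ∧
      ((2 ^ 2 ^ J : ℕ) : ℝ) ≤ (x : ℝ) ^ (1 / 5 : ℝ) ∧ 2 ^ 2 ^ J ≤ x := by
  have hxr : (1 : ℝ) ≤ x := by exact_mod_cast hx
  have hx0 : (0 : ℝ) < x := by linarith
  obtain ⟨J, hJ1, hJ2⟩ := exists_level _ g3
  have hLE : (2 : ℝ) ≤ L ^ E := by
    calc (2 : ℝ) ≤ L := hL2
      _ = L ^ 1 := (pow_one L).symm
      _ ≤ L ^ E := pow_le_pow_right₀ (by linarith) (by omega)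
  obtain ⟨Jw, hw1, hw2⟩ := exists_level _ hLE
  obtain ⟨z, hz⟩ : ∃ z : ℕ, z = 2 ^ 2 ^ J := ⟨_, rfl⟩
  obtain ⟨w, hw⟩ : ∃ w : ℕ, w = 2 ^ 2 ^ Jw := ⟨_, rfl⟩
  refine ⟨J, Jw, ?_⟩
  rw [← hz] at hJ1 hJ2 ⊢
  rw [← hw] at hw1 hw2 ⊢
  have hzlow : (x : ℝ) ^ (η1 / 2) ≤ z := by
    have h1 : ((x : ℝ) ^ (η1 / 2)) ^ 2 ≤ (z : ℝ) ^ 2 := by
      refine le_trans (le_of_eq ?_) hJ2
      rw [← Real.rpow_natCast, ← Real.rpow_mul hx0.le]
      congr 1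
      push_cast
      ring
    exact (pow_le_pow_iff_left₀ (Real.rpow_nonneg hx0.le _) (Nat.cast_nonneg _) two_ne_zero).1 h1
  have hwlow : L ^ (max As 18) ≤ w := by
    have h1 : (L ^ (max As 18)) ^ 2 ≤ (w : ℝ) ^ 2 := by
      refine le_trans (le_of_eq ?_) hw2
      rw [← pow_mul, hE, mul_comm]
    exact (pow_le_pow_iff_left₀ (by positivity) (Nat.cast_nonneg _) two_ne_zero).1 h1
  have hz5 : (z : ℝ) ≤ (x : ℝ) ^ (1 / 5 : ℝ) := by
    refine hJ1.trans ?_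
    apply Real.rpow_le_rpow_of_exponent_le hxr
    linarith
  refine ⟨hzlow, hJ1, ?_, hw1, ?_, ?_, hz5, ?_⟩
  · exact (pow_le_pow_right₀ (by linarith) (le_max_left _ _)).trans hwlow
  · exact (pow_le_pow_right₀ (by linarith) (le_max_right _ _)).trans hwlow
  · have : (w : ℝ) ≤ z := by
      refine hw1.trans (le_trans ?_ hzlow)
      rw [one_mul] at g2
      exact g2
    exact_mod_cast this
  · have : (z : ℝ) ≤ x := by
      refine hz5.trans ?_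
      calc (x : ℝ) ^ (1 / 5 : ℝ) ≤ (x : ℝ) ^ (1 : ℝ) :=
            Real.rpow_le_rpow_of_exponent_le hxr (by norm_num)
        _ = x := Real.rpow_one _
    exact_mod_cast this

/-- the union of the exceptional sets of the intervals -/
lemma card_bad (R : ℕ) (hR : 0 < R) (S : Finset ℕ) (f : ℕ → ℕ → ℝ) (lx B η C : ℝ) (hlx : 0 < lx)
    (hη : 0 < η) (hC : 0 < C)
    (h0 : ∀ i, 1 ≤ i → i < R → ∀ c ∈ S, 0 ≤ f i c) (h1 : ∀ i, 1 ≤ i → i < R → ∑ c ∈ S, f i c ≤ B)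
    (hB : B ≤ η / (8 * R) * C * lx) :
    (#((Ico 1 R).biUnion (fun i => S.filter (fun c => lx < f i c))) : ℝ) ≤ η / 8 * C := by
  have hR0 : (0 : ℝ) < R := by exact_mod_cast hR
  have k1 : (#((Ico 1 R).biUnion (fun i => S.filter (fun c => lx < f i c))) : ℝ) ≤
      ∑ i ∈ Ico 1 R, (#(S.filter (fun c => lx < f i c)) : ℝ) := by
    exact_mod_cast card_biUnion_le
  refine k1.trans ?_
  have k2 : ∀ i ∈ Ico 1 R, (#(S.filter (fun c => lx < f i c)) : ℝ) ≤ η / (8 * R) * C := by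
    intro i hi
    rw [mem_Ico] at hi
    refine (markov S (f i) (h0 i hi.1 hi.2) lx hlx _ (h1 i hi.1 hi.2)).trans ?_
    rw [div_le_iff₀ hlx]
    exact hB
  refine (sum_le_card_nsmul _ _ _ k2).trans ?_
  rw [nsmul_eq_mul]
  have hRcard : (#(Ico 1 R) : ℝ) ≤ R := by
    rw [Nat.card_Ico]
    exact_mod_cast (by omega : R - 1 ≤ R)
  calc (#(Ico 1 R) : ℝ) * (η / (8 * R) * C) ≤ R * (η / (8 * R) * C) := by gcongr
    _ = _ := by field_simp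

lemma xg1_le {x R : ℕ} (hR : 1 ≤ R) : (xg x R 1 : ℝ) ≤ x / R + 1 := by
  have hR0 : (0 : ℝ) < R := by exact_mod_cast (by omega : 0 < R)
  have k1 := xg_le x R 1 hR
  have k2 : (R : ℝ) * xg x R 1 ≤ x + R := by
    have : R * xg x R 1 ≤ x + R := by omega
    exact_mod_cast this
  have : (R : ℝ) * xg x R 1 ≤ R * (x / R + 1) := by
    calc (R : ℝ) * xg x R 1 ≤ x + R := k2
      _ = _ := by field_simp
  exact le_of_mul_le_mul_left this hR0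

lemma ex5_num {C6 C X x1 R L lam η : ℝ} (hC6 : 0 < C6) (hC : 0 < C) (hX : 0 < X) (hR : 0 < R)
    (hL : 0 < L) (hlam : 0 < lam) (hη : 0 < η) (h1 : x1 ≤ X / R + 1) (h2 : 2 * R ≤ X) (h3 : 2 * R ≤ L)
    (hL2 : 2 ≤ L) (h4 : 4 * C6 ≤ R * (η * lam)) :
    C6 * (C * (x1 + X / L ^ 2) / L) ≤ η / 8 * C * (4 * lam * X / L) := by
  have k4 : (1 : ℝ) ≤ X / (2 * R) := by
    rw [le_div_iff₀ (by positivity)]; linarith
  have k5 : X / L ^ 2 ≤ X / (2 * R) := by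
    apply div_le_div_of_nonneg_left hX.le (by positivity)
    nlinarith
  have k6 : X / R = X / (2 * R) + X / (2 * R) := by ring
  have k2 : x1 + X / L ^ 2 ≤ 2 * (X / R) := by linarith
  calc C6 * (C * (x1 + X / L ^ 2) / L) ≤ C6 * (C * (2 * (X / R)) / L) := by gcongr
    _ = (4 * C6) * (C * X / L) / (2 * R) := by field_simp; ring
    _ ≤ (R * (η * lam)) * (C * X / L) / (2 * R) := by gcongr
    _ = η / 8 * C * (4 * lam * X / L) := by field_simp; ring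

lemma grid_num {X R β : ℝ} (hX : 0 < X) (hR : 0 < R) (hβ : 0 < β) (h1 : 1 / β < R) (h2 : 1 / β ≤ X) :
    X / R + 1 ≤ 2 * β * X := by
  have k1 : X / R ≤ β * X := by
    rw [div_le_iff₀ hR]
    rw [div_lt_iff₀ hβ] at h1
    nlinarith
  have k2 : 1 ≤ β * X := by
    rw [div_le_iff₀ hβ] at h2
    linarith
  linarith

/-- the estimate for one good `c` -/
lemma one_c {a b : ℤ} {c x R z : ℕ} {L K Sc S' θ lam κ β η : ℝ} (hx : 1 ≤ x) (hR : 2 < R) (hRx : R ≤ x)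
    (hL : L = Real.log x) (hL0 : 0 < L) (hK0 : 0 ≤ K) (hθ : 0 < θ) (hβ0 : 0 < β) (hβ1 : β ≤ 1 / 2)
    (hl : lam = β * θ / 4) (hSc : θ ≤ Sc) (hκ : κ ≤ β / 2) (hLK : K ≤ L) (hLK2 : 2 * K ≤ β * L)
    (hL3 : 1 / L ^ 3 ≤ β) (hgx : (x : ℝ) / R + 1 ≤ 2 * β * x) (hη : 23 * β ≤ η)
    (hKn : ∀ n : ℕ, n ≤ x → x ≤ R * n → |Real.log (fv a b c n).toNat - 2 * Real.log x| ≤ K ∧
        z < (fv a b c n).toNat)
    (hPP : ∀ i, 1 ≤ i → i < R → Lc a b (xg x R i) x c (fun N => if N.Prime then 0 else vonMangoldt N) ≤ lam * x)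
    (he : ∀ i, 1 ≤ i → i < R → |Lc a b (xg x R i) x c (fun N => rg z N * vonMangoldt N) -
        Sc * ((x : ℝ) - xg x R i)| ≤ lam * x + κ * Sc * x)
    (h5 : (#((Icc 1 (xg x R 1)).filter (fun m : ℕ => (fv a b c m).toNat.Prime)) : ℝ) ≤ 4 * lam * x / L)
    (hSS : |S' - Sc| ≤ Sc / L ^ 3)
    (hli : ∀ u v : ℕ, u ≤ v → v ≤ x →
      |∑ m ∈ Ioc u v, 1 / Real.log ((a : ℝ) * m ^ 2 + b * m + c) - ((v : ℝ) - u) / (2 * L)| ≤ β * (x / L))
    (u v : ℕ) (huv : u ≤ v) (hvx : v ≤ x) :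
    |(#((Ioc u v).filter (fun m : ℕ => (fv a b c m).toNat.Prime)) : ℝ) -
          S' * ∑ m ∈ Ioc u v, 1 / Real.log ((a : ℝ) * m ^ 2 + b * m + c)| ≤ η * (S' * x / L) := by
  have hx0 : (0 : ℝ) < x := by exact_mod_cast (by omega : 0 < x)
  have hSc0 : 0 < Sc := by linarith
  have hlS : lam ≤ β * Sc / 4 := by
    rw [hl]; gcongr
  have hsteps : ∀ i, 1 ≤ i → i < R → |(Pc a b c (xg x R i) x : ℝ) - Sc * ((x : ℝ) - xg x R i) / (2 * L)| ≤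
      β * (Sc * x / L) := by
    intro i hi1 hi2
    have m2 : x ≤ R * xg x R i := by
      refine le_trans ?_ (le_xg x R i (by omega))
      calc x = 1 * x := (one_mul x).symm
        _ ≤ i * x := Nat.mul_le_mul_right _ hi1
    have hKn2 : ∀ n ∈ Ioc (xg x R i) x, |Real.log (fv a b c n).toNat - 2 * Real.log x| ≤ K ∧
        z < (fv a b c n).toNat := by
      intro n hn
      rw [mem_Ioc] at hn
      exact hKn n hn.2 (m2.trans (Nat.mul_le_mul_left _ hn.1.le))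
    obtain ⟨T, T1, T2, T3, T4⟩ := Lc_compare a b (xg x R i) x c z K hKn2
    rw [← hL] at T1 T2
    have hD : (x : ℝ) - xg x R i ≤ x := by
      have : (0 : ℝ) ≤ xg x R i := Nat.cast_nonneg _
      linarith
    exact real_step hL0 hK0 (Nat.cast_nonneg _) hx0 hSc0 hD hβ0 hβ1 T1 T2 T3 T4 (hPP i hi1 hi2)
      (he i hi1 hi2) hlS hκ hLK hLK2
  have hsmall : (Pc a b c 0 (xg x R 1) : ℝ) ≤ β * (Sc * x / L) := by
    have h6 : Pc a b c 0 (xg x R 1) =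
        #((Icc 1 (xg x R 1)).filter (fun m : ℕ => (fv a b c m).toNat.Prime)) := by
      unfold Pc
      congr 1
    rw [h6]
    refine h5.trans ?_
    calc 4 * lam * x / L ≤ 4 * (β * Sc / 4) * x / L := by gcongr
      _ = _ := by ring
  have hall := grid_all (a := a) (b := b) (c := c) (x := x) (R := R) (L := L) (S := Sc) (β := β)
    (by omega) (by omega) hL0 hSc0 hβ0 hgx hsteps hsmall
  exact final_step (S := Sc) (β := β) (by omega) hL0 hSc0 hβ0 huv hvx hη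
    (hall u (huv.trans hvx)) (hall v hvx) hSS hL3 hβ1 (hli u v huv hvx)

/-- the statement for one `η` -/
def Concl (a b : ℤ) (η : ℝ) : Prop := ∃ δ : ℝ, 0 < δ ∧
    ∃ x0 : ℕ, ∀ x : ℕ, x0 ≤ x → ∀ C : ℕ, (x : ℝ) ^ (1 - δ) ≤ C → C ≤ x →
    ∃ Ex ⊆ Icc 1 C, (#Ex : ℝ) ≤ η * C ∧ ∀ c ∈ Icc 1 C, c ∉ Ex → Admissible a b c →
      ∃ S : ℝ, 0 < S ∧ Tendsto (fun z => partialC a b c z) atTop (𝓝 S) ∧ ∀ u v : ℕ, u ≤ v → v ≤ x →
        |(#((Ioc u v).filter (fun m : ℕ => (fv a b c m).toNat.Prime)) : ℝ) -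
          eps a b * S * gcdProd a b * ∑ m ∈ Ioc u v, 1 / Real.log ((a : ℝ) * m ^ 2 + b * m + c)| ≤
        η * (eps a b * S * gcdProd a b * x / Real.log x)

theorem concl_small (a : ℤ) (ha : 0 < a) (b : ℤ) (hlam : LamP a b) (hSP : HSP a b) (hST : HST a b)
    (hPA : HPA a b) (hSA : HSA a b) (hLI : HLI a b) (η : ℝ) (hη : 0 < η) (hη1 : η ≤ 1 / 10) :
    Concl a b η := by
  classical
  obtain ⟨As, hlam⟩ := hlam
  obtain ⟨C6, hC6, xSA, hSA⟩ := hSA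
  obtain ⟨E, hE⟩ : ∃ E : ℕ, E = 2 * max As 18 := ⟨_, rfl⟩
  obtain ⟨θ, hθ, xSP, hSP⟩ := hSP (η / 8) (by positivity) E
  obtain ⟨β, hβ⟩ : ∃ β : ℝ, β = η / 200 := ⟨_, rfl⟩
  have hβ0 : 0 < β := by rw [hβ]; positivity
  have hβ1 : β ≤ 1 / 2 := by rw [hβ]; linarith
  have hβη : 23 * β ≤ η := by rw [hβ]; linarith
  obtain ⟨lam, hl⟩ : ∃ lam : ℝ, lam = β * θ / 4 := ⟨_, rfl⟩
  have hl0 : 0 < lam := by rw [hl]; positivity
  obtain ⟨R, hR⟩ := exists_nat_gt (max 2 (max (4 * C6 / (η * lam)) (1 / β)))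
  have hR2 : (2 : ℝ) < R := (le_max_left _ _).trans_lt hR
  have hR3 : 4 * C6 / (η * lam) < R := ((le_max_left _ _).trans (le_max_right _ _)).trans_lt hR
  have hR4 : 1 / β < R := ((le_max_right _ _).trans (le_max_right _ _)).trans_lt hR
  have hRn : 2 < R := by exact_mod_cast hR2
  have hR0 : (0 : ℝ) < R := by linarith
  have hR5 : 4 * C6 ≤ R * (η * lam) := by
    rw [div_lt_iff₀ (by positivity)] at hR3
    exact hR3.le
  obtain ⟨κ, hκ⟩ : ∃ κ : ℝ, κ = min (β / 2) (η * lam / (8 * R)) := ⟨_, rfl⟩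
  have hκ0 : 0 < κ := by rw [hκ]; exact lt_min (by positivity) (by positivity)
  have hκ1 : κ ≤ β / 2 := by rw [hκ]; exact min_le_left _ _
  have hκ2 : κ ≤ η * lam / (8 * R) := by rw [hκ]; exact min_le_right _ _
  obtain ⟨δ0, η1, hδ0, hη10, hη11, xLam, hlam⟩ := hlam E R κ hκ0
  obtain ⟨xST, hST⟩ := hST 3 E
  obtain ⟨xPA, hPA⟩ := hPA R
  obtain ⟨xLI, hLI⟩ := hLI β hβ0
  obtain ⟨K, hK0, xK, hK⟩ := fv_size a ha b R (by omega)
  obtain ⟨y1, hy1⟩ := evN' _ (Real.tendsto_log_atTop.eventually_ge_atTop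
    (2 + K + 2 * K / β + 1 / β + 8 / η + 2 * R))
  obtain ⟨y2, hy2⟩ := evN' _ (ev_pow' E 1 (η1 / 2) (by positivity))
  obtain ⟨y3, hy3⟩ := evN' _ ((tendsto_rpow_atTop hη10).eventually_ge_atTop 2)
  obtain ⟨y4, hy4⟩ := evN' _ (ev_pow' 3 (8 * R / (lam * η)) (9 / 10) (by norm_num))
  obtain ⟨y5, hy5⟩ := evN' _ (eventually_ge_atTop (max (1 / β) (2 * R + 10)))
  refine ⟨min δ0 (1 / 10), lt_min hδ0 (by norm_num),
    xSA + xSP + xLam + xST + xPA + xLI + xK + y1 + y2 + y3 + y4 + y5 + R + 10, ?_⟩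
  intro x hx C hC1 hC2
  have g1 := hy1 x (by omega)
  have g2 := hy2 x (by omega)
  have g3 := hy3 x (by omega)
  have g4 := hy4 x (by omega)
  have g5 := hy5 x (by omega)
  clear hy1 hy2 hy3 hy4 hy5
  obtain ⟨L, hL⟩ : ∃ L : ℝ, L = Real.log x := ⟨_, rfl⟩
  rw [← hL] at g1 g2 g4
  have hxr : (1 : ℝ) ≤ x := by exact_mod_cast (by omega : 1 ≤ x)
  have hx0 : (0 : ℝ) < x := lt_of_lt_of_le one_pos hxr
  obtain ⟨hL2, hLK, hLK2, hL3, hL3η, hLR⟩ := num_facts hβ0 hη hK0 hR0 g1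
  have hL0 : 0 < L := lt_of_lt_of_le two_pos hL2
  -- the size of C
  have hC9 : (x : ℝ) ^ (9 / 10 : ℝ) ≤ C := by
    refine le_trans ?_ hC1
    apply Real.rpow_le_rpow_of_exponent_le hxr
    have := min_le_right δ0 (1 / 10 : ℝ)
    clear * - this
    linarith
  have hCδ : (x : ℝ) ^ (1 - δ0) ≤ C := by
    refine le_trans ?_ hC1
    apply Real.rpow_le_rpow_of_exponent_le hxr
    have := min_le_left δ0 (1 / 10 : ℝ)
    clear * - this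
    linarith
  have hC0 : (0 : ℝ) < C := lt_of_lt_of_le (Real.rpow_pos_of_pos hx0 _) hC9
  -- the levels
  obtain ⟨J, Jw, hzlow, hJ1, hwAs, hw1, hw18, hwz, hz5, hzx⟩ :=
    levels (x := x) (As := As) (E := E) (by omega) hL2 hη11 g3 g2 hE
  have hxLam : xLam ≤ x := by omega
  rw [hL] at hw1 hw18 hwAs
  have hlam3 := hlam x hxLam
  clear hlam
  obtain ⟨E1, hE1s, hE1c, hE1⟩ := hST x (by omega) C hC9 hC2 (2 ^ 2 ^ Jw) (2 ^ 2 ^ J) hw18 hw1 hwz hz5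
  obtain ⟨E2, hE2s, hE2c, hE2⟩ := hSP x (by omega) C hC9 hC2 (2 ^ 2 ^ Jw) hw1
  obtain ⟨Gd, hGd⟩ : ∃ Gd : Finset ℕ, Gd = Icc 1 C \ E1 := ⟨_, rfl⟩
  have hGds : Gd ⊆ Icc 1 C := by rw [hGd]; exact sdiff_subset
  have hgrid : ∀ i : ℕ, 1 ≤ i → i < R → xg x R i < x ∧ x ≤ R * xg x R i := by
    intro i hi1 hi2
    refine ⟨xg_lt x R i (by omega) (by omega) hi2, ?_⟩
    refine le_trans ?_ (le_xg x R i (by omega))
    calc x = 1 * x := (one_mul x).symm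
      _ ≤ i * x := Nat.mul_le_mul_right _ hi1
  have hlam2 : ∀ i : ℕ, 1 ≤ i → i < R → ∃ e : ℕ → ℝ, (∀ c, 0 ≤ e c) ∧ ∑ c ∈ Gd, e c ≤ κ * (C * x) ∧ ∀ c ∈ Gd,
      |Lc a b (xg x R i) x c (fun N => rg (2 ^ 2 ^ J) N * vonMangoldt N) -
        Vc a b c (2 ^ 2 ^ Jw) / V1 (2 ^ 2 ^ Jw) * ((x : ℝ) - xg x R i)| ≤
        e c + κ * (Vc a b c (2 ^ 2 ^ Jw) / V1 (2 ^ 2 ^ Jw)) * x := by
    intro i hi1 hi2
    obtain ⟨k1, k2⟩ := hgrid i hi1 hi2
    refine hlam3 (xg x R i) C J Jw k1 k2 hCδ hC2 hzlow hJ1 hwAs hw1 Gd hGds ?_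
    intro c hc
    rw [hGd, Finset.mem_sdiff] at hc
    exact (hE1 c hc.1 hc.2).1
  choose! e he0 he1 he2 using hlam2
  clear hlam3
  obtain ⟨PP, hPP⟩ : ∃ PP : ℕ → ℝ, PP = (fun N : ℕ => if N.Prime then (0 : ℝ) else vonMangoldt N) := ⟨_, rfl⟩
  have hPP0 : ∀ N, 0 ≤ PP N := by
    intro N
    rw [hPP]
    simp only
    split_ifs
    · exact le_rfl
    · exact ArithmeticFunction.vonMangoldt_nonneg
  have hlx : 0 < lam * x := mul_pos hl0 hx0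
  have hE3c := card_bad R (by omega) Gd e (lam * x) (κ * (C * x)) η C hlx hη hC0
    (fun i h1 h2 c _ => he0 i h1 h2 c) he1 (by
      clear * - hκ2 hC0 hx0 hR0 hl0 hη
      calc κ * (C * x) ≤ η * lam / (8 * R) * (C * x) := by gcongr
        _ = _ := by field_simp)
  have hE4c := card_bad R (by omega) (Icc 1 C) (fun i c => Lc a b (xg x R i) x c PP) (lam * x)
    (x * L ^ 3) η C hlx hη hC0 (fun i _ _ c _ => sum_nonneg fun n _ => hPP0 _) (by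
      intro i hi1 hi2
      obtain ⟨m1, m2⟩ := hgrid i hi1 hi2
      have m3 := hPA x (by omega) (xg x R i) C m1 m2 hC2
      rw [← hPP, ← hL] at m3
      exact m3) (by
      have h := g4.trans hC9
      clear * - h hC0 hx0 hR0 hl0 hη
      have m4 : L ^ 3 ≤ lam * η / (8 * R) * C := by
        rw [div_mul_eq_mul_div, div_le_iff₀ (by positivity)] at h
        rw [div_mul_eq_mul_div, le_div_iff₀ (by positivity)]
        linarith
      calc x * L ^ 3 ≤ x * (lam * η / (8 * R) * C) := by gcongr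
        _ = _ := by ring)
  obtain ⟨E3, hE3⟩ : ∃ E3 : Finset ℕ, E3 = (Ico 1 R).biUnion
    (fun i => Gd.filter (fun c => lam * x < e i c)) := ⟨_, rfl⟩
  obtain ⟨E4, hE4⟩ : ∃ E4 : Finset ℕ, E4 = (Ico 1 R).biUnion
    (fun i => (Icc 1 C).filter (fun c => lam * x < Lc a b (xg x R i) x c PP)) := ⟨_, rfl⟩
  obtain ⟨E5, hE5⟩ : ∃ E5 : Finset ℕ, E5 = (Icc 1 C).filter (fun c : ℕ => 4 * lam * x / L <
    (#((Icc 1 (xg x R 1)).filter (fun m : ℕ => (fv a b c m).toNat.Prime)) : ℝ)) := ⟨_, rfl⟩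
  rw [← hE3] at hE3c
  rw [← hE4] at hE4c
  have h2R : 2 * (R : ℝ) ≤ x := by
    have := (le_max_right _ _).trans g5
    clear * - this
    linarith
  have hE5c : (#E5 : ℝ) ≤ η / 8 * C := by
    rw [hE5]
    have k1 := hSA x (by omega) (xg x R 1) C (hgrid 1 le_rfl (by omega)).1.le hC9 hC2
    rw [← hL] at k1
    refine (markov (Icc 1 C) (fun c : ℕ => (#((Icc 1 (xg x R 1)).filter
      (fun m : ℕ => (fv a b c m).toNat.Prime)) : ℝ)) (fun c _ => Nat.cast_nonneg _) (4 * lam * x / L)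
      (by positivity) _ k1).trans ?_
    rw [div_le_iff₀ (by positivity)]
    exact ex5_num hC6 hC0 hx0 hR0 hL0 hl0 hη (xg1_le (by omega)) h2R hLR hL2 hR5
  have hE1c' : (#E1 : ℝ) ≤ η / 8 * C := by
    refine hE1c.trans ?_
    rw [← hL]
    calc (C : ℝ) / L ^ 3 = 1 / L ^ 3 * C := by ring
      _ ≤ η / 8 * C := mul_le_mul_of_nonneg_right hL3η hC0.le
  refine ⟨E1 ∪ E2 ∪ E3 ∪ E4 ∪ E5, ?_, ?_, ?_⟩
  · refine union_subset (union_subset (union_subset (union_subset hE1s hE2s) ?_) ?_) ?_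
    · rw [hE3]
      exact biUnion_subset.2 fun i _ => (filter_subset _ _).trans hGds
    · rw [hE4]
      exact biUnion_subset.2 fun i _ => filter_subset _ _
    · rw [hE5]
      exact filter_subset _ _
  · clear * - hE1c' hE2c hE3c hE4c hE5c hη hC0
    have k1 := card_union_le (E1 ∪ E2 ∪ E3 ∪ E4) E5
    have k2 := card_union_le (E1 ∪ E2 ∪ E3) E4
    have k3 := card_union_le (E1 ∪ E2) E3
    have k4 := card_union_le E1 E2
    have k5 : (#(E1 ∪ E2 ∪ E3 ∪ E4 ∪ E5) : ℝ) ≤ #E1 + #E2 + #E3 + #E4 + #E5 := by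
      exact_mod_cast (by omega)
    have k6 : 0 < η / 8 * C := by positivity
    linarith
  intro c hc hcE hadm
  simp only [mem_union, not_or] at hcE
  obtain ⟨⟨⟨⟨c1, c2⟩, c3⟩, c4⟩, c5⟩ := hcE
  obtain ⟨-, hsing⟩ := hE1 c hc c1
  obtain ⟨S, hS0, hSt, hSS⟩ := hsing hadm
  refine ⟨S, hS0, hSt, ?_⟩
  have hSc := hE2 c hc c2 hadm
  have hcG : c ∈ Gd := by rw [hGd, Finset.mem_sdiff]; exact ⟨hc, c1⟩
  have hcC := mem_Icc.1 hc
  rw [← hL] at hSS ⊢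
  refine one_c (by omega) hRn (by omega) hL hL0 hK0 hθ hβ0 hβ1 hl hSc hκ1 hLK hLK2 hL3
    (grid_num hx0 hR0 hβ0 hR4 ((le_max_left _ _).trans g5)) hβη (z := 2 ^ 2 ^ J) ?_ ?_ ?_ ?_ hSS ?_
  · intro n hnx hxn
    have := hK x (by omega) c n (by omega) hnx hxn
    exact ⟨this.1, lt_of_le_of_lt hzx this.2⟩
  · intro i hi1 hi2
    by_contra hcon
    push Not at hcon
    rw [← hPP] at hcon
    apply c4
    rw [hE4, mem_biUnion]
    exact ⟨i, mem_Ico.2 ⟨hi1, hi2⟩, mem_filter.2 ⟨hc, hcon⟩⟩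
  · intro i hi1 hi2
    have he := he2 i hi1 hi2 c hcG
    have h6 : e i c ≤ lam * x := by
      by_contra hcon
      push Not at hcon
      apply c3
      rw [hE3, mem_biUnion]
      exact ⟨i, mem_Ico.2 ⟨hi1, hi2⟩, mem_filter.2 ⟨hcG, hcon⟩⟩
    exact he.trans (add_le_add_left h6 _)
  · by_contra hcon
    push Not at hcon
    apply c5
    rw [hE5]
    exact mem_filter.2 ⟨hc, hcon⟩
  · intro u v huv hvx
    have hli := hLI x (by omega) c (mem_Icc.2 ⟨hcC.1, hcC.2.trans hC2⟩) u v huv hvx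
    rw [← hL] at hli
    exact hli

theorem concl_all (a : ℤ) (ha : 0 < a) (b : ℤ) (hlam : LamP a b) (hSP : HSP a b) (hST : HST a b)
    (hPA : HPA a b) (hSA : HSA a b) (hLI : HLI a b) (η : ℝ) (hη : 0 < η) : Concl a b η := by
  have h0 : 0 < min η (1 / 10) := lt_min hη (by norm_num)
  obtain ⟨δ, hδ, x0, h⟩ := concl_small a ha b hlam hSP hST hPA hSA hLI (min η (1 / 10)) h0 (min_le_right _ _)
  refine ⟨δ, hδ, x0, fun x hx C hC1 hC2 => ?_⟩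
  obtain ⟨Ex, h1, h2, h3⟩ := h x hx C hC1 hC2
  refine ⟨Ex, h1, h2.trans (mul_le_mul_of_nonneg_right (min_le_left _ _) (Nat.cast_nonneg _)), ?_⟩
  intro c hc hcE hadm
  obtain ⟨S, hS, hSt, hb⟩ := h3 c hc hcE hadm
  refine ⟨S, hS, hSt, fun u v huv hvx => ?_⟩
  have h4 := hb u v huv hvx
  refine h4.trans ?_
  have h5 : 0 ≤ eps a b * S * gcdProd a b * x / Real.log x := by
    by_contra hcon
    push Not at hcon
    have h6 : min η (1 / 10) * (eps a b * S * gcdProd a b * x / Real.log x) < 0 :=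
      mul_neg_of_pos_of_neg h0 hcon
    have := abs_nonneg ((#((Ioc u v).filter (fun m : ℕ => (fv a b c m).toNat.Prime)) : ℝ) -
          eps a b * S * gcdProd a b * ∑ m ∈ Ioc u v, 1 / Real.log ((a : ℝ) * m ^ 2 + b * m + c))
    linarith
  exact mul_le_mul_of_nonneg_right (min_le_left _ _) h5

end Pool.Agent.N792.Fn124
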