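import Mathlib

/-!
The sum of `1 / log f(m)` for a quadratic polynomial (subtask LIA, helper225 for helper792).
-/

set_option autoImplicit false

namespace Pool.Agent.N792

open Finset Filter Topology

/-- termwise trivial bound -/
theorem lia_trivial (k : ℤ) : |1 / Real.log (k : ℝ)| ≤ 2 := by
  rcases le_or_gt 2 |k| with h | h
  · have h1 : (2 : ℝ) ≤ |(k : ℝ)| := by exact_mod_cast h
    have h2 : Real.log 2 ≤ Real.log |(k : ℝ)| := Real.log_le_log (by norm_num) h1
    rw [Real.log_abs] at h2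
    have h3 : (1 : ℝ) / 2 ≤ Real.log 2 := by have := Real.log_two_gt_d9; linarith
    rw [abs_div, abs_one, abs_of_nonneg (by linarith : 0 ≤ Real.log (k : ℝ))]
    rw [div_le_iff₀ (by linarith)]
    linarith
  · have h1 : k = -1 ∨ k = 0 ∨ k = 1 := by
      rw [abs_lt] at h; omega
    rcases h1 with rfl | rfl | rfl <;> simp

/-- termwise bound -/
theorem lia_term (a : ℤ) (ha : 0 < a) (b : ℤ) (θ : ℝ) (hθ : 0 < θ) (x : ℕ) (hx : 2 ≤ x)
    (hL1 : 1 ≤ Real.log x) (h6 : 6 ≤ θ * Real.log x)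
    (hl : 4 * Real.log (Real.log x) + Real.log 2 + Real.log ((a : ℝ) + |(b : ℝ)| + 1) ≤ θ * Real.log x)
    (hl2 : 4 * Real.log (Real.log x) + Real.log 2 ≤ Real.log x)
    (hb : 2 * |(b : ℝ)| ≤ x / Real.log x ^ 2)
    (c : ℕ) (hc : c ∈ Icc 1 x) (m : ℕ) (hm : m ≤ x) :
    |1 / Real.log ((a : ℝ) * m ^ 2 + b * m + c) - 1 / (2 * Real.log x)| ≤
      θ / (2 * Real.log x) + (if (m : ℝ) ≤ x / Real.log x ^ 2 then 3 else 0) := by
  rw [mem_Icc] at hc
  have hc1 : (1 : ℝ) ≤ c := by exact_mod_cast hc.1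
  have hcx : (c : ℝ) ≤ x := by exact_mod_cast hc.2
  have hmx : (m : ℝ) ≤ x := by exact_mod_cast hm
  have hx2 : (2 : ℝ) ≤ x := by exact_mod_cast hx
  have ha1 : (1 : ℝ) ≤ a := by exact_mod_cast ha
  set L := Real.log x with hLdef
  have hL0 : 0 < L := by linarith
  split_ifs with hT
  · have h1 := lia_trivial (a * (m : ℤ) ^ 2 + b * m + c)
    push_cast at h1
    have h2 : |1 / (2 * L)| ≤ 1 := by
      rw [abs_of_nonneg (by positivity), div_le_one (by positivity)]
      linarith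
    have h3 : 0 ≤ θ / (2 * L) := by positivity
    calc |1 / Real.log ((a : ℝ) * m ^ 2 + b * m + c) - 1 / (2 * L)|
        ≤ |1 / Real.log ((a : ℝ) * m ^ 2 + b * m + c)| + |1 / (2 * L)| := abs_sub _ _
      _ ≤ 2 + 1 := add_le_add h1 h2
      _ ≤ θ / (2 * L) + 3 := by linarith
  · push Not at hT
    rw [add_zero]
    have hm0 : (0 : ℝ) ≤ m := by positivity
    have hbm : 2 * |(b : ℝ)| ≤ m := by linarith
    set f : ℝ := (a : ℝ) * m ^ 2 + b * m + c with hf
    have hb1 : -(|(b : ℝ)| * m) ≤ b * m := by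
      rw [← neg_mul]
      exact mul_le_mul_of_nonneg_right (neg_abs_le _) hm0
    have hb2 : (b : ℝ) * m ≤ |(b : ℝ)| * m := mul_le_mul_of_nonneg_right (le_abs_self _) hm0
    have hlow : (m : ℝ) ^ 2 / 2 ≤ f := by
      have : 2 * |(b : ℝ)| * m ≤ m * m := mul_le_mul_of_nonneg_right hbm hm0
      nlinarith
    have hTpos : 0 < (x : ℝ) / L ^ 2 := by positivity
    have hm1 : ((x : ℝ) / L ^ 2) ^ 2 ≤ (m : ℝ) ^ 2 := by
      apply pow_le_pow_left₀ hTpos.le hT.le
    have hlow2 : ((x : ℝ) / L ^ 2) ^ 2 / 2 ≤ f := by linarith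
    have hfpos : 0 < f := lt_of_lt_of_le (by positivity) hlow2
    have hlogl : 2 * L - 4 * Real.log L - Real.log 2 ≤ Real.log f := by
      have h1 := Real.log_le_log (by positivity) hlow2
      rw [Real.log_div (by positivity) (by norm_num), Real.log_pow, Real.log_div (by positivity) (by positivity),
        Real.log_pow] at h1
      push_cast at h1
      linarith
    have hup : f ≤ ((a : ℝ) + |(b : ℝ)| + 1) * (x : ℝ) ^ 2 := by
      have h1 : (a : ℝ) * m ^ 2 ≤ a * x ^ 2 := by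
        apply mul_le_mul_of_nonneg_left _ (by linarith)
        exact pow_le_pow_left₀ hm0 hmx 2
      have h2 : |(b : ℝ)| * m ≤ |(b : ℝ)| * x ^ 2 := by
        apply mul_le_mul_of_nonneg_left _ (abs_nonneg _)
        nlinarith
      have h3 : (c : ℝ) ≤ x ^ 2 := by nlinarith
      rw [hf]
      nlinarith
    have hlogu : Real.log f ≤ 2 * L + Real.log ((a : ℝ) + |(b : ℝ)| + 1) := by
      have h1 := Real.log_le_log hfpos hup
      have hK : 0 < (a : ℝ) + |(b : ℝ)| + 1 := by positivity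
      rw [Real.log_mul hK.ne' (by positivity), Real.log_pow] at h1
      push_cast at h1
      linarith
    have hfL : L ≤ Real.log f := by linarith
    have hK0 : 0 ≤ Real.log ((a : ℝ) + |(b : ℝ)| + 1) := Real.log_nonneg (by
      have := abs_nonneg (b : ℝ); linarith)
    have hLL : 0 ≤ Real.log L := Real.log_nonneg hL1
    have hl20 : 0 ≤ Real.log 2 := Real.log_nonneg (by norm_num)
    have hdiff : |2 * L - Real.log f| ≤ θ * L := by
      rw [abs_le]; constructor <;> linarith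
    have heq : 1 / Real.log f - 1 / (2 * L) = (2 * L - Real.log f) / (2 * L * Real.log f) := by
      have h1 : Real.log f ≠ 0 := by linarith
      field_simp
    have hfp : 0 < 2 * L * Real.log f := mul_pos (by positivity) (by linarith)
    rw [heq, abs_div, abs_of_pos hfp]
    rw [div_le_div_iff₀ hfp (by positivity)]
    calc |2 * L - Real.log f| * (2 * L) ≤ (θ * L) * (2 * L) := by gcongr
      _ ≤ θ * (2 * L * Real.log f) := by
        have : L * L ≤ L * Real.log f := mul_le_mul_of_nonneg_left hfL hL0.le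
        nlinarith

theorem li_asym (a : ℤ) (ha : 0 < a) (b : ℤ) (θ : ℝ) (hθ : 0 < θ) : ∃ x0 : ℕ, ∀ x : ℕ, x0 ≤ x → ∀ c ∈ Icc 1 x,
    ∀ u v : ℕ, u ≤ v → v ≤ x →
    |∑ m ∈ Ioc u v, 1 / Real.log ((a : ℝ) * m ^ 2 + b * m + c) - ((v : ℝ) - u) / (2 * Real.log x)| ≤
      θ * (x / Real.log x) := by
  have hlogt : Tendsto (fun x : ℕ => Real.log (x : ℝ)) atTop atTop :=
    Real.tendsto_log_atTop.comp tendsto_natCast_atTop_atTop
  have hloglog : (fun y : ℝ => Real.log y) =o[atTop] fun y => y := Real.isLittleO_log_id_atTop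
  have key : ∀ (A B : ℝ), 0 < B → ∀ᶠ x : ℕ in atTop,
      4 * Real.log (Real.log x) + A ≤ B * Real.log x := by
    intro A B hB
    have h1 : ∀ᶠ y : ℝ in atTop, 4 * Real.log y + A ≤ B * y := by
      have h2 := hloglog.bound (show (0 : ℝ) < B / 8 by positivity)
      filter_upwards [h2, eventually_ge_atTop (2 * |A| / B), eventually_ge_atTop (1 : ℝ)] with y hy hy2 hy3
      have h4 : Real.log y ≤ B / 8 * y := by
        have := (le_abs_self (Real.log y)).trans hy
        rwa [Real.norm_eq_abs, abs_of_nonneg (by linarith : (0 : ℝ) ≤ y)] at this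
      have h5 : 2 * |A| ≤ B * y := by
        rw [div_le_iff₀ hB] at hy2; linarith
      have h6 := le_abs_self A
      linarith
    exact hlogt.eventually h1
  have hxl : ∀ᶠ x : ℕ in atTop, 2 * |(b : ℝ)| ≤ x / Real.log x ^ 2 := by
    have h1 : (fun y : ℝ => Real.log y ^ 2) =o[atTop] fun y => y := by
      have := isLittleO_log_rpow_rpow_atTop (s := 1) 2 (by norm_num : (0 : ℝ) < 1)
      simpa using this
    have h2 := h1.bound (show (0 : ℝ) < 1 / (2 * |(b : ℝ)| + 1) by positivity)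
    have h3 := (tendsto_natCast_atTop_atTop (R := ℝ)).eventually h2
    filter_upwards [h3, hlogt.eventually_ge_atTop 1] with x hx hx1
    have hp : 0 < Real.log (x : ℝ) ^ 2 := by positivity
    rw [le_div_iff₀ hp]
    rw [Real.norm_eq_abs, Real.norm_eq_abs, abs_of_pos hp, abs_of_nonneg (by positivity : (0 : ℝ) ≤ (x : ℝ))] at hx
    rw [one_div, inv_mul_eq_div, le_div_iff₀ (by positivity)] at hx
    nlinarith
  have hall := ((hlogt.eventually_ge_atTop 1).and ((hlogt.eventually_ge_atTop (6 / θ)).and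
    ((key (Real.log 2 + Real.log ((a : ℝ) + |(b : ℝ)| + 1)) θ hθ).and ((key (Real.log 2) 1 one_pos).and
      (hxl.and (eventually_ge_atTop 2))))))
  obtain ⟨x0, hx0⟩ := eventually_atTop.1 hall
  refine ⟨x0, fun x hx c hc u v huv hvx => ?_⟩
  obtain ⟨h1, h2, h3, h4, h5, h6⟩ := hx0 x hx
  set L := Real.log (x : ℝ) with hL
  have hL0 : 0 < L := by linarith
  have h2' : 6 ≤ θ * L := by
    rw [div_le_iff₀ hθ] at h2; linarith
  have hsum : ∑ m ∈ Ioc u v, 1 / Real.log ((a : ℝ) * m ^ 2 + b * m + c) - ((v : ℝ) - u) / (2 * L) =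
      ∑ m ∈ Ioc u v, (1 / Real.log ((a : ℝ) * m ^ 2 + b * m + c) - 1 / (2 * L)) := by
    rw [sum_sub_distrib, sum_const, Nat.card_Ioc, nsmul_eq_mul, Nat.cast_sub huv]
    ring
  rw [hsum]
  calc |∑ m ∈ Ioc u v, (1 / Real.log ((a : ℝ) * m ^ 2 + b * m + c) - 1 / (2 * L))|
      ≤ ∑ m ∈ Ioc u v, |1 / Real.log ((a : ℝ) * m ^ 2 + b * m + c) - 1 / (2 * L)| :=
        abs_sum_le_sum_abs _ _
    _ ≤ ∑ m ∈ Ioc u v, (θ / (2 * L) + (if (m : ℝ) ≤ x / L ^ 2 then 3 else 0)) := by
        apply sum_le_sum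
        intro m hm
        rw [mem_Ioc] at hm
        exact lia_term a ha b θ hθ x h6 h1 h2' (by linarith) (by linarith) h5 c hc m (by omega)
    _ = ((v : ℝ) - u) * (θ / (2 * L)) + 3 * #((Ioc u v).filter (fun m : ℕ => (m : ℝ) ≤ x / L ^ 2)) := by
        rw [sum_add_distrib, sum_const, Nat.card_Ioc, nsmul_eq_mul, Nat.cast_sub huv, ← sum_filter,
          sum_const, nsmul_eq_mul]
        ring
    _ ≤ x * (θ / (2 * L)) + 3 * (x / L ^ 2) := by
        have hv : (v : ℝ) - u ≤ x := by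
          have : (v : ℝ) ≤ x := by exact_mod_cast hvx
          have : (0 : ℝ) ≤ u := by positivity
          linarith
        have hcard : (#((Ioc u v).filter (fun m : ℕ => (m : ℝ) ≤ x / L ^ 2)) : ℝ) ≤ x / L ^ 2 := by
          have hsub : (Ioc u v).filter (fun m : ℕ => (m : ℝ) ≤ x / L ^ 2) ⊆ Icc 1 ⌊(x : ℝ) / L ^ 2⌋₊ := by
            intro m hm
            rw [mem_filter, mem_Ioc] at hm
            rw [mem_Icc]
            exact ⟨by omega, Nat.le_floor hm.2⟩
          have h7 := card_le_card hsub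
          rw [Nat.card_Icc, Nat.add_sub_cancel] at h7
          have h8 : ((⌊(x : ℝ) / L ^ 2⌋₊ : ℕ) : ℝ) ≤ x / L ^ 2 := Nat.floor_le (by positivity)
          have h9 : (#((Ioc u v).filter (fun m : ℕ => (m : ℝ) ≤ x / L ^ 2)) : ℝ) ≤ ((⌊(x : ℝ) / L ^ 2⌋₊ : ℕ) : ℝ) := by
            exact_mod_cast h7
          exact h9.trans h8
        have hθL : 0 ≤ θ / (2 * L) := by positivity
        have := mul_le_mul_of_nonneg_right hv hθL
        linarith
    _ ≤ θ * (x / L) := by
        have e1 : (x : ℝ) * (θ / (2 * L)) = θ / 2 * (x / L) := by field_simp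
        have e2 : 3 * ((x : ℝ) / L ^ 2) = 3 / L * (x / L) := by field_simp
        have e3 : 3 / L ≤ θ / 2 := by
          rw [div_le_div_iff₀ hL0 (by norm_num)]; linarith
        have e4 : 0 ≤ (x : ℝ) / L := by positivity
        rw [e1, e2]
        have := mul_le_mul_of_nonneg_right e3 e4
        linarith

end Pool.Agent.N792
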