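import Mathlib
import Pool.Agent.N138.Gap.G3

/-!
The first moment of the number of divisors in the middle range, for rough values (helper138, subtask 65).
-/

set_option autoImplicit false
set_option maxHeartbeats 4000000

namespace Pool.Agent.N792.Gap

open Finset Filter Topology

lemma aux1 (R B : ℝ) (hR : 1 ≤ R) (hB : 0 ≤ B) : 1 ≤ 2 * R * (1 + B) := by nlinarith

lemma aux2 (a b n c x : ℤ) (ha : 0 < a) (h1 : n ≤ x) (h2 : c ≤ x) (h3 : 0 ≤ n) (h5 : |b| + 1 ≤ x) :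
    a * n ^ 2 + b * n + c ≤ (a + 1) * x ^ 2 := by
  have h4 : b * n ≤ |b| * x := by
    calc b * n ≤ |b| * n := mul_le_mul_of_nonneg_right (le_abs_self b) h3
      _ ≤ |b| * x := mul_le_mul_of_nonneg_left h1 (abs_nonneg b)
  have h6 : n ^ 2 ≤ x ^ 2 := by nlinarith
  have h7 : a * n ^ 2 ≤ a * x ^ 2 := mul_le_mul_of_nonneg_left h6 ha.le
  have h8 : (|b| + 1) * x ≤ x * x := mul_le_mul_of_nonneg_right h5 (by linarith)
  nlinarith

lemma aux3 (η : ℝ) (hη : 0 < η) (hη1 : η ≤ 1 / 10) : (1 : ℝ) ≤ 1 / η ^ 2 := by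
  rw [le_div_iff₀ (by positivity)]
  nlinarith

lemma aux4 (u v c0 : ℝ) (hu : 0 ≤ v) (h : u ≤ v) (hc : 1 ≤ c0) : u ≤ 2 * (c0 * v) := by nlinarith

lemma aux5 (ε E : ℝ) (hε : 0 < ε) (hε1 : ε ≤ 1 / 20) (hE : 1 ≤ E) : ε ^ 2 ≤ ε * E := by nlinarith

lemma aux6 (S U δ P D E F G : ℝ) (h1 : S ≤ 2 * U) (h2 : U ≤ 2 * δ * P + D / E) (h3 : D / E ≤ F)
    (hG : 0 ≤ δ * P) (hF : G = F) : S ≤ 6 * δ * P + 2 * G := by
  rw [hF]; linarith

lemma aux7 (x1 a b N : ℝ) (hx1 : 0 < x1) (ha : 1 ≤ a) (h2 : a * x1 ^ 2 + b * x1 ≤ N) (h3 : 2 * |b| ≤ x1) :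
    x1 ^ 2 / 2 ≤ N := by
  have h5 : -(|b|) ≤ b := neg_abs_le _
  nlinarith

lemma aux8 (x1 a N : ℝ) (ha : 1 ≤ a) (h4 : x1 ^ 2 / 2 ≤ N) : (x1 / 2) ^ 2 ≤ a * N := by
  have : 0 ≤ N := le_trans (by positivity) h4
  nlinarith [sq_nonneg x1]

lemma T_sub (z i : ℕ) : T z i ⊆ Ioc (2 ^ i) (2 * 2 ^ i) := by
  classical
  unfold T
  exact Finset.filter_subset _ _

lemma Ix_bd (m x y i : ℕ) (ε : ℝ) (hm : 1 ≤ m) (hx : 1 ≤ x) (hε : 0 ≤ ε) (hy : (x : ℝ) ^ (1 - ε) ≤ y)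
    (hi : i ∈ Ix y (m * x ^ 2)) :
    (2 : ℝ) ^ i ≤ m * (x : ℝ) ^ (1 + ε) ∧ (x : ℝ) ^ (1 - ε) ≤ 4 * 2 ^ i := by
  have hxr : (1 : ℝ) ≤ x := by exact_mod_cast hx
  have hxp : (0 : ℝ) < x := by linarith
  have hmr : (1 : ℝ) ≤ m := by exact_mod_cast hm
  have hyp : (0 : ℝ) < y := lt_of_lt_of_le (Real.rpow_pos_of_pos hxp _) hy
  unfold Ix at hi
  rw [mem_Icc] at hi
  constructor
  · have h1 : 1 ≤ (m : ℝ) * (x : ℝ) ^ (1 + ε) :=
      one_le_mul_of_one_le_of_one_le hmr (Real.one_le_rpow hxr (by linarith))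
    rcases Nat.eq_zero_or_pos (m * x ^ 2 / y) with h | h
    · rw [h, Nat.log_zero_right] at hi
      have : i = 0 := by omega
      rw [this, pow_zero]; exact h1
    · have h2 : 2 ^ i ≤ m * x ^ 2 / y := Nat.pow_le_of_le_log (by omega) hi.2
      have h3 : ((2 ^ i : ℕ) : ℝ) ≤ ((m * x ^ 2 / y : ℕ) : ℝ) := by exact_mod_cast h2
      have h4 : ((m * x ^ 2 / y : ℕ) : ℝ) ≤ ((m * x ^ 2 : ℕ) : ℝ) / y := Nat.cast_div_le
      push_cast at h3 h4
      refine (h3.trans h4).trans ?_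
      rw [div_le_iff₀ hyp]
      calc (m : ℝ) * x ^ 2 = m * (x : ℝ) ^ (1 + ε) * (x : ℝ) ^ (1 - ε) := by
            rw [mul_assoc, ← Real.rpow_add hxp, show 1 + ε + (1 - ε) = ((2 : ℕ) : ℝ) by push_cast; ring,
              Real.rpow_natCast]
        _ ≤ m * (x : ℝ) ^ (1 + ε) * y := mul_le_mul_of_nonneg_left hy (by positivity)
  · have h1 : y < 2 ^ (Nat.log 2 y + 1) := Nat.lt_pow_succ_log_self (by norm_num) _
    have h2 : (2 : ℕ) ^ (Nat.log 2 y + 1) ≤ 2 ^ (i + 2) := Nat.pow_le_pow_right (by norm_num) (by omega)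
    have h3 : (y : ℝ) ≤ ((2 ^ (i + 2) : ℕ) : ℝ) := by exact_mod_cast (h1.trans_le h2).le
    push_cast at h3
    rw [pow_add] at h3
    linarith

lemma Ix_card (m : ℕ) (hm : 1 ≤ m) (ε : ℝ) (hε : 0 < ε) (hε1 : ε ≤ 1 / 20) : ∀ᶠ x : ℕ in atTop,
    ∀ y : ℕ, (x : ℝ) ^ (1 - ε) ≤ y → (#(Ix y (m * x ^ 2)) : ℝ) ≤ 4 * ε * Real.log x := by
  filter_upwards [ev_log ((Real.log m + 3 * Real.log 2) / (7 / 10 * ε)), ev_pow 0 (19 / 20) 4 0 (by norm_num),
    eventually_ge_atTop 1] with x h1 h2 h3 y hy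
  have hxr : (1 : ℝ) ≤ x := by exact_mod_cast h3
  have hxp : (0 : ℝ) < x := by linarith
  have hmr : (1 : ℝ) ≤ m := by exact_mod_cast hm
  have hy4 : (4 : ℝ) ≤ y := by
    have : (x : ℝ) ^ (19 / 20 : ℝ) ≤ (x : ℝ) ^ (1 - ε) := Real.rpow_le_rpow_of_exponent_le hxr (by linarith)
    simp at h2
    linarith
  have hy4' : 4 ≤ y := by exact_mod_cast hy4
  have hB : 2 ≤ Nat.log 2 y := by
    apply Nat.le_log_of_pow_le (by norm_num)
    simpa using hy4'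
  rw [div_le_iff₀ (by positivity)] at h1
  have hl2 : 0.6931471803 < Real.log 2 := Real.log_two_gt_d9
  obtain ⟨A, hA⟩ : ∃ A : ℕ, A = Nat.log 2 (m * x ^ 2 / y) := ⟨_, rfl⟩
  obtain ⟨B, hB'⟩ : ∃ B : ℕ, B = Nat.log 2 y := ⟨_, rfl⟩
  have hlx : 0 ≤ Real.log x := Real.log_nonneg hxr
  unfold Ix
  rw [Nat.card_Icc, ← hA, ← hB']
  rw [← hB'] at hB
  have hL : 0 ≤ 4 * ε * Real.log x := by positivity
  rcases Nat.lt_or_ge B (A + 2) with h | h
  swap
  · have : A + 1 - (B - 1) = 0 := by omega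
    rw [this, Nat.cast_zero]; exact hL
  · have e1 : A + 1 - (B - 1) = A + 2 - B := by omega
    rw [e1, Nat.cast_sub (by omega)]
    have hM0 : m * x ^ 2 / y ≠ 0 := by
      intro h0
      rw [h0, Nat.log_zero_right] at hA
      omega
    have g1 : 2 ^ A ≤ m * x ^ 2 / y := by rw [hA]; exact Nat.pow_log_le_self 2 hM0
    have g2 : 2 ^ A * y ≤ m * x ^ 2 := (Nat.le_div_iff_mul_le (by omega)).1 g1
    have g3 : (2 : ℝ) ^ A * y ≤ m * (x : ℝ) ^ 2 := by exact_mod_cast g2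
    have hyp : (0 : ℝ) < y := by linarith
    have g4 := Real.log_le_log (by positivity) g3
    rw [Real.log_mul (by positivity) (by positivity), Real.log_mul (by positivity) (by positivity), Real.log_pow,
      Real.log_pow] at g4
    have g5 := Real.log_le_log (Real.rpow_pos_of_pos hxp _) hy
    rw [Real.log_rpow hxp] at g5
    have g6 : y < 2 ^ (B + 1) := by rw [hB']; exact Nat.lt_pow_succ_log_self (by norm_num) _
    have g7 : (y : ℝ) ≤ (2 : ℝ) ^ (B + 1) := by exact_mod_cast g6.le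
    have g8 := Real.log_le_log hyp g7
    rw [Real.log_pow] at g8
    push_cast at g4 g8 ⊢
    have g9 : ((A : ℝ) + 2 - B) * Real.log 2 ≤ Real.log m + 2 * ε * Real.log x + 3 * Real.log 2 := by
      nlinarith
    have g10 : ((A : ℝ) + 2 - B) * Real.log 2 ≤ (4 * ε * Real.log x) * Real.log 2 := by
      have : (27 / 10 : ℝ) * (ε * Real.log x) ≤ 4 * (ε * Real.log x) * Real.log 2 := by
        have h0 : 0 ≤ ε * Real.log x := by positivity
        nlinarith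
      nlinarith
    exact le_of_mul_le_mul_right g10 (by linarith)

lemma T_card : ∃ c1 : ℝ, 0 < c1 ∧ ∀ η ε : ℝ, 0 < η → η ≤ 1 / 10 → 0 < ε → ε ≤ 1 / 20 → ∀ m : ℕ, 1 ≤ m →
    ∀ᶠ x : ℕ in atTop, ∀ z y : ℕ, (x : ℝ) ^ η ≤ z → (x : ℝ) ^ (1 - ε) ≤ y →
    ∀ i ∈ Ix y (m * x ^ 2), (#(T z i) : ℝ) ≤ c1 * (2 ^ i / (η * Real.log x)) := by
  obtain ⟨c1, hc1, H⟩ := sieve
  refine ⟨c1, hc1, ?_⟩
  intro η ε hη hη1 hε hε1 m hm
  obtain ⟨x0, hx0⟩ := H η hη hη1
  filter_upwards [eventually_ge_atTop x0, eventually_ge_atTop 1, ev_pow (1 / 2) (19 / 20) 4 0 (by norm_num)]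
    with x h1 h2 h3 z y hz hy i hi
  have hxr : (1 : ℝ) ≤ x := by exact_mod_cast h2
  have hb := (Ix_bd m x y i ε hm h2 hε.le hy hi).2
  have h4 : (x : ℝ) ^ (19 / 20 : ℝ) ≤ (x : ℝ) ^ (1 - ε) := Real.rpow_le_rpow_of_exponent_le hxr (by linarith)
  rw [pow_zero, mul_one] at h3
  have key := hx0 x h1 z (2 ^ i) (2 * 2 ^ i) hz (by omega) (by push_cast; linarith)
  push_cast at key
  have e1 : 2 * (2 : ℝ) ^ i - 2 ^ i = 2 ^ i := by ring
  rw [e1] at key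
  exact key

end Pool.Agent.N792.Gap

namespace Pool.Agent.N792

open Finset Filter Topology
open Gap

theorem gap_bound (a : ℤ) (ha : 0 < a) (b : ℤ) (R : ℕ) : ∃ C3 : ℝ, 0 < C3 ∧ ∀ η ε : ℝ, 0 < η → η ≤ 1 / 10 → 0 < ε → ε ≤ 1 / 20 →
    ∃ x0 : ℕ, ∀ x : ℕ, x0 ≤ x → ∀ x1 C z y : ℕ, x1 < x → x ≤ R * x1 → (x : ℝ) ^ (9 / 10 : ℝ) ≤ C → C ≤ x →
    (x : ℝ) ^ η ≤ z → (x : ℝ) ^ (1 - ε) ≤ y →
    ∑ c ∈ Icc 1 C, Lc a b x1 x c (gp z y) ≤ C3 * (ε / η ^ 2) * (C * x / Real.log x) ∧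
    Ls a b x1 x (gp z y) ≤ C3 * (ε / η ^ 2) * (x / Real.log x) := by
  obtain ⟨c1, hc1, HT⟩ := T_card
  have har : (1 : ℝ) ≤ a := by exact_mod_cast ha
  obtain ⟨m, hm⟩ : ∃ m : ℕ, m = a.toNat + 1 := ⟨_, rfl⟩
  have hm1 : 1 ≤ m := by omega
  have hmr : (1 : ℝ) ≤ m := by exact_mod_cast hm1
  have hmz : (m : ℤ) = a + 1 := by
    rw [hm]; push_cast; rw [Int.toNat_of_nonneg ha.le]
  obtain ⟨C2, hC2, Htri⟩ := tri_block (a : ℝ) (m : ℝ) har hmr
  obtain ⟨c0, hc0⟩ : ∃ c0 : ℝ, c0 = 2 * R * (1 + (b : ℝ) ^ 2) := ⟨_, rfl⟩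
  have hc00 : 0 ≤ c0 := by rw [hc0]; positivity
  refine ⟨48 * c0 * c1 ^ 2 * m + 8 * R * c1 ^ 2 * m + 1, by positivity, ?_⟩
  intro η ε hη hη1 hε hε1
  have hev := (HT η ε hη hη1 hε hε1 m hm1).and ((Ix_card m hm1 ε hε hε1).and ((ev_pow (8 / 5) (19 / 10) (32 * C2) 3
    (by norm_num)).and ((ev_log 1).and ((eventually_ge_atTop (b.natAbs + 2)).and
    ((eventually_ge_atTop (2 * R * b.natAbs)).and (ev_pow 0 (19 / 20) 4 0 (by norm_num)))))))
  obtain ⟨x0, hx0⟩ := eventually_atTop.1 hev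
  refine ⟨x0, ?_⟩
  intro x hx x1 C z y hx1 hxR hC hCx hz hy
  obtain ⟨hT, hI, herr, hL1, hxb, hxRb, hx4⟩ := hx0 x hx
  have hT := hT z y hz hy
  have hI := hI y hy
  have hxr : (1 : ℝ) ≤ x := by exact_mod_cast (show 1 ≤ x by omega)
  have hxp : (0 : ℝ) < x := by linarith
  have hRx : (x : ℝ) ≤ R * x1 := by exact_mod_cast hxR
  have hR1 : 1 ≤ R := by
    by_contra h
    have : R = 0 := by omega
    rw [this, zero_mul] at hxR
    omega
  have hRr : (1 : ℝ) ≤ R := by exact_mod_cast hR1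
  have hc01 : 1 ≤ c0 := by
    rw [hc0]
    exact aux1 _ _ hRr (sq_nonneg _)
  obtain ⟨L, hL⟩ : ∃ L : ℝ, L = Real.log x := ⟨_, rfl⟩
  rw [← hL] at hT hI herr hL1 ⊢
  have hy2 : 2 ≤ y := by
    have h1 : (x : ℝ) ^ (19 / 20 : ℝ) ≤ (x : ℝ) ^ (1 - ε) := Real.rpow_le_rpow_of_exponent_le hxr (by linarith)
    have h2 : (4 : ℝ) ≤ y := by
      simp at hx4
      linarith
    have : 4 ≤ y := by exact_mod_cast h2
    omega
  have hC1 : 1 ≤ C := by
    have : (1 : ℝ) ≤ C := (Real.one_le_rpow hxr (by norm_num)).trans hC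
    exact_mod_cast this
  have hCr : (1 : ℝ) ≤ C := by exact_mod_cast hC1
  obtain ⟨M, hM⟩ : ∃ M : ℕ, M = m * x ^ 2 := ⟨_, rfl⟩
  rw [← hM] at hT hI
  have hM1 : 1 ≤ M := by
    rw [hM]
    exact Nat.mul_pos hm1 (pow_pos (by omega) 2)
  have hMr : (M : ℝ) = m * (x : ℝ) ^ 2 := by rw [hM]; push_cast; ring
  -- the values
  have hval : ∀ c : ℕ, c ≤ C → ∀ n : ℕ, n ≤ x → (fv a b c n).toNat ≤ M := by
    intro c hc n hn
    rw [Int.toNat_le, hM]
    unfold fv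
    push_cast
    rw [hmz]
    have h1 : (n : ℤ) ≤ x := by exact_mod_cast hn
    have h2 : (c : ℤ) ≤ x := by exact_mod_cast hc.trans hCx
    have h3 : (0 : ℤ) ≤ n := by positivity
    have h5 : |b| + 1 ≤ (x : ℤ) := by
      have : (b.natAbs : ℤ) + 2 ≤ x := by exact_mod_cast hxb
      rw [Int.natCast_natAbs] at this
      linarith
    exact aux2 a b n c x ha h1 h2 h3 h5
  -- the main sum
  have hmain : ∑ q ∈ Px y M, ((#(T z q.1) : ℝ) * #(T z q.2)) ≤ 8 * c1 ^ 2 * m * (ε / η ^ 2) * (x ^ 2 / L) := by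
    have h1 : ∑ q ∈ Px y M, ((#(T z q.1) : ℝ) * #(T z q.2)) ≤ ∑ q ∈ Px y M, (c1 / (η * L)) ^ 2 * (2 : ℝ) ^ (q.1 + q.2) := by
      refine Finset.sum_le_sum fun q hq => ?_
      unfold Px at hq
      rw [mem_filter, mem_product] at hq
      calc (#(T z q.1) : ℝ) * #(T z q.2) ≤ c1 * (2 ^ q.1 / (η * L)) * (c1 * (2 ^ q.2 / (η * L))) :=
            mul_le_mul (hT _ hq.1.1) (hT _ hq.1.2) (Nat.cast_nonneg _) (by positivity)
        _ = _ := by rw [pow_add]; ring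
    refine h1.trans ?_
    rw [← Finset.mul_sum]
    have h2 := sum_pow_le y M hM1
    calc (c1 / (η * L)) ^ 2 * ∑ q ∈ Px y M, (2 : ℝ) ^ (q.1 + q.2) ≤ (c1 / (η * L)) ^ 2 * (4 * ε * L * (2 * M)) := by
          apply mul_le_mul_of_nonneg_left _ (by positivity)
          exact h2.trans (mul_le_mul_of_nonneg_right hI (by positivity))
      _ = _ := by rw [hMr]; field_simp; ring
  have hEta : (1 : ℝ) ≤ 1 / η ^ 2 := aux3 η hη hη1
  constructor
  · refine (sum_le a b z y M x1 x C hy2 (fun c hc n hn => hval c (mem_Icc.1 hc).2 n (mem_Ioc.1 hn).2)).trans ?_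
    obtain ⟨δ, hδ⟩ : ∃ δ : ℝ, δ = c0 * (C / x) := ⟨_, rfl⟩
    have hδ' : δ = 2 * R * (1 + (b : ℝ) ^ 2) * (C / x) := by rw [hδ, hc0]
    have hδ0 : 0 < δ := by rw [hδ]; positivity
    have hbx : R * b.natAbs ≤ x := by
      have : 2 * R * b.natAbs = 2 * (R * b.natAbs) := by ring
      omega
    have hδx : (x : ℝ) ^ (-(1 / 10) : ℝ) ≤ 2 * δ := by
      have h1 : (x : ℝ) ^ (-(1 / 10) : ℝ) = (x : ℝ) ^ (9 / 10 : ℝ) / x := by
        rw [eq_div_iff (by linarith), ← Real.rpow_add_one hxp.ne']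
        norm_num
      rw [h1, hδ]
      have h2 : (x : ℝ) ^ (9 / 10 : ℝ) / x ≤ C / x := by gcongr
      have h3 : 0 ≤ (C : ℝ) / x := by positivity
      exact aux4 _ _ _ h3 h2 hc01
    have hsq : (x : ℝ) ^ (-(1 / 20) : ℝ) ≤ √(2 * δ) := by
      apply Real.le_sqrt_of_sq_le
      rw [← Real.rpow_natCast, ← Real.rpow_mul hxp.le]
      norm_num
      norm_num at hδx
      exact hδx
    have hE : C2 * (x : ℝ) ^ (3 / 2 + ε) / √(2 * δ) ≤ C2 * (x : ℝ) ^ (8 / 5 : ℝ) := by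
      have h1 : (0 : ℝ) < (x : ℝ) ^ (-(1 / 20) : ℝ) := Real.rpow_pos_of_pos hxp _
      rw [div_le_iff₀ (h1.trans_le hsq)]
      have h2 : (x : ℝ) ^ (3 / 2 + ε) ≤ (x : ℝ) ^ (8 / 5 : ℝ) * (x : ℝ) ^ (-(1 / 20) : ℝ) := by
        rw [← Real.rpow_add hxp]
        exact Real.rpow_le_rpow_of_exponent_le hxr (by norm_num; linarith)
      calc C2 * (x : ℝ) ^ (3 / 2 + ε) ≤ C2 * ((x : ℝ) ^ (8 / 5 : ℝ) * (x : ℝ) ^ (-(1 / 20) : ℝ)) :=
            mul_le_mul_of_nonneg_left h2 hC2.le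
        _ ≤ C2 * ((x : ℝ) ^ (8 / 5 : ℝ) * √(2 * δ)) :=
            mul_le_mul_of_nonneg_left (mul_le_mul_of_nonneg_left hsq (by positivity)) hC2.le
        _ = _ := by ring
    have hblock : ∀ q ∈ Px y M, ∑ r ∈ T z q.1, ∑ s ∈ T z q.2, (nu a b x1 x C (r * s) : ℝ) ≤
        6 * δ * ((#(T z q.1) : ℝ) * #(T z q.2)) + 2 * (C2 * (x : ℝ) ^ (8 / 5 : ℝ)) := by
      intro q hq
      have hTT : 0 ≤ (#(T z q.1) : ℝ) * #(T z q.2) := by positivity
      rcases le_or_gt δ (1 / 4) with hd | hd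
      · have h1 : ∑ r ∈ T z q.1, ∑ s ∈ T z q.2, (nu a b x1 x C (r * s) : ℝ) ≤
            2 * ∑ r ∈ T z q.1, ∑ s ∈ T z q.2, tri (2 * δ) (√(((r * s : ℕ) : ℝ) / a) - b / (2 * a)) := by
          rw [Finset.mul_sum]
          refine Finset.sum_le_sum fun r _ => ?_
          rw [Finset.mul_sum]
          exact Finset.sum_le_sum fun s _ => nu_le a b ha R x1 x C (r * s) hxR hbx hC1 (by omega) δ hδ' hd hδ0
        unfold Px at hq
        rw [mem_filter, mem_product] at hq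
        rw [hM] at hq
        have b1 := Ix_bd m x y q.1 ε hm1 (by omega) hε.le hy hq.1.1
        have b2 := Ix_bd m x y q.2 ε hm1 (by omega) hε.le hy hq.1.2
        have b3 : ((2 ^ (q.1 + q.2) : ℕ) : ℝ) ≤ ((m * x ^ 2 : ℕ) : ℝ) := by exact_mod_cast hq.2
        rw [pow_add] at b3
        push_cast at b3
        have h2 := Htri ε hε.le x (2 ^ q.1) (2 ^ q.2) (by omega) Nat.one_le_two_pow Nat.one_le_two_pow
          (by push_cast; exact b3) (by push_cast; exact b1.1) (by push_cast; exact b2.1) (by push_cast; exact b2.2)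
          (T z q.1) (T_sub z q.1) (T z q.2) (T_sub z q.2)
          (b / (2 * a)) (2 * δ) (by linarith) (by linarith)
        exact aux6 _ _ _ _ _ _ _ _ h1 h2 hE (mul_nonneg hδ0.le hTT) rfl
      · have h1 : ∑ r ∈ T z q.1, ∑ s ∈ T z q.2, (nu a b x1 x C (r * s) : ℝ) ≤
            ∑ r ∈ T z q.1, ∑ s ∈ T z q.2, 6 * δ :=
          Finset.sum_le_sum fun r _ => Finset.sum_le_sum fun s _ =>
            nu_le' a b ha R x1 x C (r * s) hxR hbx hC1 (by omega) δ hδ' hd.le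
        simp only [Finset.sum_const, nsmul_eq_mul] at h1
        have h2 : 0 ≤ 2 * (C2 * (x : ℝ) ^ (8 / 5 : ℝ)) := by positivity
        linarith
    refine (Finset.sum_le_sum hblock).trans ?_
    rw [Finset.sum_add_distrib, ← Finset.mul_sum, Finset.sum_const, nsmul_eq_mul]
    have hP : (#(Px y M) : ℝ) ≤ (4 * ε * L) ^ 2 := by
      have h1 : #(Px y M) ≤ #(Ix y M) * #(Ix y M) := by
        unfold Px
        exact (Finset.card_filter_le _ _).trans (by rw [Finset.card_product])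
      have h2 : (#(Px y M) : ℝ) ≤ #(Ix y M) * #(Ix y M) := by exact_mod_cast h1
      have h3 : (0 : ℝ) ≤ #(Ix y M) := Nat.cast_nonneg _
      rw [pow_two]
      exact h2.trans (mul_le_mul hI hI h3 (h3.trans hI))
    have hsec : (#(Px y M) : ℝ) * (2 * (C2 * (x : ℝ) ^ (8 / 5 : ℝ))) ≤ (ε / η ^ 2) * (C * x / L) := by
      calc (#(Px y M) : ℝ) * (2 * (C2 * (x : ℝ) ^ (8 / 5 : ℝ))) ≤ (4 * ε * L) ^ 2 * (2 * (C2 * (x : ℝ) ^ (8 / 5 : ℝ))) :=
            mul_le_mul_of_nonneg_right hP (by positivity)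
        _ = ε ^ 2 * (32 * C2 * (x : ℝ) ^ (8 / 5 : ℝ) * L ^ 3) / L := by field_simp; ring
        _ ≤ ε ^ 2 * (x : ℝ) ^ (19 / 10 : ℝ) / L := by
            apply div_le_div_of_nonneg_right _ (by linarith)
            exact mul_le_mul_of_nonneg_left herr (by positivity)
        _ ≤ ε ^ 2 * (C * x) / L := by
            apply div_le_div_of_nonneg_right _ (by linarith)
            apply mul_le_mul_of_nonneg_left _ (by positivity)
            have : (x : ℝ) ^ (19 / 10 : ℝ) = (x : ℝ) ^ (9 / 10 : ℝ) * x := by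
              rw [← Real.rpow_add_one hxp.ne']; norm_num
            rw [this]
            exact mul_le_mul_of_nonneg_right hC hxp.le
        _ = ε ^ 2 * (C * x / L) := by ring
        _ ≤ (ε / η ^ 2) * (C * x / L) := by
            apply mul_le_mul_of_nonneg_right _ (by positivity)
            rw [div_eq_mul_one_div ε]
            exact aux5 _ _ hε hε1 hEta
    have hfst : 6 * δ * ∑ q ∈ Px y M, ((#(T z q.1) : ℝ) * #(T z q.2)) ≤
        48 * c0 * c1 ^ 2 * m * (ε / η ^ 2) * (C * x / L) := by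
      calc 6 * δ * ∑ q ∈ Px y M, ((#(T z q.1) : ℝ) * #(T z q.2)) ≤
            6 * δ * (8 * c1 ^ 2 * m * (ε / η ^ 2) * (x ^ 2 / L)) := mul_le_mul_of_nonneg_left hmain (by positivity)
        _ = _ := by rw [hδ]; field_simp; ring
    have hpos : 0 ≤ 8 * R * c1 ^ 2 * m * (ε / η ^ 2) * (C * x / L) := by positivity
    calc _ ≤ 48 * c0 * c1 ^ 2 * m * (ε / η ^ 2) * (C * x / L) + (ε / η ^ 2) * (C * x / L) := add_le_add hfst hsec
      _ ≤ _ := by linarith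
  · -- the second part
    have hx1r : (0 : ℝ) < x1 := by
      rcases Nat.eq_zero_or_pos x1 with h | h
      · rw [h] at hxR; omega
      · exact_mod_cast h
    have hw : ∀ N ∈ Ioc (Fn a b x1) (Fn a b x), hw a N ≤ R / x := by
      intro N hN
      rw [mem_Ioc] at hN
      have h1 : (fv a b 0 x1 : ℤ) ≤ N := by
        have := Int.self_le_toNat (fv a b 0 x1)
        have h2 : ((fv a b 0 x1).toNat : ℤ) < N := by
          have := hN.1
          unfold Fn at this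
          exact_mod_cast this
        linarith
      have h2 : (a : ℝ) * x1 ^ 2 + b * x1 ≤ N := by
        have : ((fv a b 0 x1 : ℤ) : ℝ) ≤ ((N : ℤ) : ℝ) := by exact_mod_cast h1
        unfold fv at this
        push_cast at this
        linarith
      have h3 : 2 * |(b : ℝ)| ≤ x1 := by
        have : ((2 * R * b.natAbs : ℕ) : ℝ) ≤ x := by exact_mod_cast hxRb
        push_cast at this
        rw [Nat.cast_natAbs, Int.cast_abs] at this
        have h4 : (R : ℝ) * (2 * |(b : ℝ)|) ≤ R * x1 := by linarith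
        exact le_of_mul_le_mul_left h4 (by linarith)
      have h4 : (x1 : ℝ) ^ 2 / 2 ≤ N := aux7 _ _ _ _ hx1r har h2 h3
      have h5 : (x1 : ℝ) / 2 ≤ √((a : ℝ) * N) := Real.le_sqrt_of_sq_le (aux8 _ _ _ har h4)
      have h6 : (R : ℝ) * x1 ≤ R * (2 * √((a : ℝ) * N)) := mul_le_mul_of_nonneg_left (by linarith) (by linarith)
      unfold Pool.Agent.N792.hw
      rw [div_le_div_iff₀ (by linarith) hxp]
      linarith
    have hLs : Ls a b x1 x (gp z y) ≤ (R / x) * ∑ N ∈ Ioc (Fn a b x1) (Fn a b x), gp z y N := by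
      unfold Ls
      rw [Finset.mul_sum]
      refine Finset.sum_le_sum fun N hN => ?_
      rw [mul_comm]
      apply mul_le_mul_of_nonneg_right (hw N hN)
      unfold gp rg
      split_ifs <;> simp
    have hsum := sum_le' z y M (Fn a b x1) (Fn a b x) hy2 (by
      have := hval 0 (by omega) x le_rfl
      unfold Fn
      simpa using this)
    calc Ls a b x1 x (gp z y) ≤ (R / x) * ∑ N ∈ Ioc (Fn a b x1) (Fn a b x), gp z y N := hLs
      _ ≤ (R / x) * (8 * c1 ^ 2 * m * (ε / η ^ 2) * (x ^ 2 / L)) :=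
          mul_le_mul_of_nonneg_left (hsum.trans hmain) (by positivity)
      _ = 8 * R * c1 ^ 2 * m * (ε / η ^ 2) * (x / L) := by field_simp
      _ ≤ _ := by
          have h1 : 0 ≤ 48 * c0 * c1 ^ 2 * m * (ε / η ^ 2) * (x / L) := by positivity
          have h2 : 0 ≤ (ε / η ^ 2) * (x / L) := by positivity
          linarith

end Pool.Agent.N792
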