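import Mathlib
import Pool.Agent.N792.Defs2
import Pool.Agent.Cov.PNT

/-!
Weighted prime number theorem for `Ls` (helper868, job PNT of helper792).
-/

set_option autoImplicit false

namespace Pool.Agent.N792
open Finset Filter Topology
open ArithmeticFunction (moebius vonMangoldt)

/-- the weight is antitone -/
lemma lsl_hw_anti {a : ℤ} (ha : 0 < a) {M N : ℕ} (hM : 1 ≤ M) (hMN : M ≤ N) : hw a N ≤ hw a M := by
  unfold hw
  have ha' : (0 : ℝ) < a := by exact_mod_cast ha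
  have hM' : (0 : ℝ) < M := by exact_mod_cast hM
  have h1 : (M : ℝ) ≤ N := by exact_mod_cast hMN
  have h2 : 0 < √((a : ℝ) * M) := Real.sqrt_pos.2 (by positivity)
  have h3 : √((a : ℝ) * M) ≤ √((a : ℝ) * N) := Real.sqrt_le_sqrt (by nlinarith)
  exact one_div_le_one_div_of_le (by linarith) (by linarith)

lemma lsl_hw_nonneg (a : ℤ) (N : ℕ) : 0 ≤ hw a N := by
  unfold hw
  positivity

/-- partial summation -/
lemma lsl_abel (D h : ℕ → ℝ) (B : ℝ) (F1 : ℕ) (hB : 0 ≤ B) : ∀ k : ℕ,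
    (∀ N, F1 ≤ N → N ≤ F1 + 1 + k → |D N| ≤ B) →
    (∀ N, F1 + 1 ≤ N → N < F1 + 1 + k → h (N + 1) ≤ h N) → 0 ≤ h (F1 + 1) →
    |∑ N ∈ Ioc F1 (F1 + 1 + k), (D N - D (N - 1)) * h N - D (F1 + 1 + k) * h (F1 + 1 + k)| ≤
      B * (2 * h (F1 + 1) - h (F1 + 1 + k)) := by
  intro k
  induction k with
  | zero =>
    intro hD hh h0
    simp only [add_zero]
    rw [Nat.Ioc_succ_singleton, sum_singleton]
    have e : (D (F1 + 1) - D (F1 + 1 - 1)) * h (F1 + 1) - D (F1 + 1) * h (F1 + 1) = - (D F1 * h (F1 + 1)) := by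
      rw [Nat.add_sub_cancel]; ring
    rw [e, abs_neg, abs_mul, abs_of_nonneg h0]
    have := hD F1 le_rfl (by omega)
    nlinarith
  | succ k ih =>
    intro hD hh h0
    have ih' := ih (fun N h1 h2 => hD N h1 (by omega)) (fun N h1 h2 => hh N h1 (by omega)) h0
    have e1 : F1 + 1 + (k + 1) = (F1 + 1 + k) + 1 := by ring
    rw [e1, ← Finset.insert_Ioc_right_eq_Ioc_add_one (by omega), sum_insert (by simp)]
    have h1 := hh (F1 + 1 + k) (by omega) (by omega)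
    have h2 := hD (F1 + 1 + k) (by omega) (by omega)
    have e2 : (D (F1 + 1 + k + 1) - D (F1 + 1 + k + 1 - 1)) * h (F1 + 1 + k + 1) +
        ∑ N ∈ Ioc F1 (F1 + 1 + k), (D N - D (N - 1)) * h N - D (F1 + 1 + k + 1) * h (F1 + 1 + k + 1) =
        (∑ N ∈ Ioc F1 (F1 + 1 + k), (D N - D (N - 1)) * h N - D (F1 + 1 + k) * h (F1 + 1 + k)) +
        D (F1 + 1 + k) * (h (F1 + 1 + k) - h (F1 + 1 + k + 1)) := by
      rw [Nat.add_sub_cancel]; ring
    rw [e2]
    refine (abs_add_le _ _).trans ?_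
    rw [abs_mul, abs_of_nonneg (by linarith : 0 ≤ h (F1 + 1 + k) - h (F1 + 1 + k + 1))]
    have h3 : |D (F1 + 1 + k)| * (h (F1 + 1 + k) - h (F1 + 1 + k + 1)) ≤
        B * (h (F1 + 1 + k) - h (F1 + 1 + k + 1)) := mul_le_mul_of_nonneg_right h2 (by linarith)
    linarith

lemma lsl_abel' (D h : ℕ → ℝ) (B : ℝ) (F1 F2 : ℕ) (hB : 0 ≤ B) (hF : F1 ≤ F2)
    (hD : ∀ N, F1 ≤ N → N ≤ F2 → |D N| ≤ B)
    (hh : ∀ N, F1 + 1 ≤ N → h (N + 1) ≤ h N) (h0 : ∀ N, 0 ≤ h N) :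
    |∑ N ∈ Ioc F1 F2, (D N - D (N - 1)) * h N| ≤ 2 * B * h (F1 + 1) := by
  rcases hF.eq_or_lt with rfl | hlt
  · simp only [Ioc_self, sum_empty, abs_zero]
    have := h0 (F1 + 1)
    positivity
  obtain ⟨k, rfl⟩ : ∃ k, F2 = F1 + 1 + k := ⟨F2 - (F1 + 1), by omega⟩
  have h1 := lsl_abel D h B F1 hB k hD (fun N h1 _ => hh N h1) (h0 _)
  have h2 : |D (F1 + 1 + k) * h (F1 + 1 + k)| ≤ B * h (F1 + 1 + k) := by
    rw [abs_mul, abs_of_nonneg (h0 _)]
    exact mul_le_mul_of_nonneg_right (hD _ (by omega) le_rfl) (h0 _)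
  have h3 := abs_sub_abs_le_abs_sub (∑ N ∈ Ioc F1 (F1 + 1 + k), (D N - D (N - 1)) * h N)
    (D (F1 + 1 + k) * h (F1 + 1 + k))
  linarith

/-- the sum of the weight -/
lemma lsl_hw_sum {a : ℤ} (ha : 0 < a) (F1 : ℕ) (h1 : 1 ≤ F1) : ∀ F2 : ℕ, F1 ≤ F2 →
    (∑ N ∈ Ioc F1 F2, hw a N ≤ √((F2 : ℝ) / a) - √((F1 : ℝ) / a)) ∧
    (√(((F2 : ℝ) + 1) / a) - √(((F1 : ℝ) + 1) / a) ≤ ∑ N ∈ Ioc F1 F2, hw a N) := by
  have ha' : (0 : ℝ) < a := by exact_mod_cast ha
  refine Nat.le_induction ?_ ?_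
  · simp
  · intro n hn ih
    rw [← Finset.insert_Ioc_right_eq_Ioc_add_one (by omega), sum_insert (by simp)]
    have hn0 : (0 : ℝ) < n := by exact_mod_cast (by omega : 0 < n)
    push_cast
    have key : ∀ u : ℝ, 0 < u → √((u + 1) / a) - √(u / a) ≤ 1 / (2 * √(a * u)) ∧
        1 / (2 * √(a * (u + 1))) ≤ √((u + 1) / a) - √(u / a) := by
      intro u hu
      have e1 : √(a * u) = a * √(u / a) := by
        rw [show (a : ℝ) * u = a ^ 2 * (u / a) by field_simp, Real.sqrt_mul (by positivity),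
          Real.sqrt_sq ha'.le]
      have e2 : √(a * (u + 1)) = a * √((u + 1) / a) := by
        rw [show (a : ℝ) * (u + 1) = a ^ 2 * ((u + 1) / a) by field_simp, Real.sqrt_mul (by positivity),
          Real.sqrt_sq ha'.le]
      rw [e1, e2]
      set s := √(u / a) with hs
      set t := √((u + 1) / a) with ht
      have hs0 : 0 < s := Real.sqrt_pos.2 (by positivity)
      have hst : s < t := Real.sqrt_lt_sqrt (by positivity) (by gcongr; linarith)
      have hs2 : s ^ 2 = u / a := Real.sq_sqrt (by positivity)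
      have ht2 : t ^ 2 = (u + 1) / a := Real.sq_sqrt (by positivity)
      have hd : (t - s) * (t + s) * a = 1 := by
        have : (t - s) * (t + s) = t ^ 2 - s ^ 2 := by ring
        rw [this, hs2, ht2]
        field_simp
        ring
      constructor
      · rw [le_div_iff₀ (by positivity)]
        nlinarith [mul_pos (sub_pos.2 hst) ha']
      · rw [div_le_iff₀ (by positivity)]
        nlinarith [mul_pos (sub_pos.2 hst) ha']
    have k1 := key n hn0
    have k2 := key (n + 1) (by linarith)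
    have e3 : hw a (n + 1) = 1 / (2 * √((a : ℝ) * ((n : ℝ) + 1))) := by unfold hw; push_cast; rfl
    rw [e3]
    constructor
    · linarith [k1.2, ih.1]
    · linarith [k2.1, ih.2]

lemma lsl_Fn_cast {a : ℤ} (ha : 0 < a) (b : ℤ) {n : ℕ} (hn : |b| ≤ n) :
    ((Fn a b n : ℕ) : ℝ) = a * (n : ℝ) ^ 2 + b * n := by
  have h0 : 0 ≤ fv a b 0 n := by
    unfold fv
    have h1 : -(n : ℤ) ≤ b := by
      have := neg_abs_le b
      linarith
    have h2 : (0 : ℤ) ≤ n := by positivity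
    nlinarith
  have h3 : ((Fn a b n : ℕ) : ℤ) = fv a b 0 n := by
    unfold Fn
    exact Int.toNat_of_nonneg h0
  have h4 : ((Fn a b n : ℕ) : ℝ) = ((fv a b 0 n : ℤ) : ℝ) := by
    rw [← h3]; norm_cast
  rw [h4]
  unfold fv
  push_cast
  ring

lemma lsl_sqrt {a : ℤ} (ha : 0 < a) (b : ℤ) {n : ℕ} (hn : |b| ≤ n) (hn1 : 1 ≤ n) :
    |√(((Fn a b n : ℕ) : ℝ) / a) - n| ≤ |(b : ℝ)| := by
  have ha' : (1 : ℝ) ≤ a := by exact_mod_cast ha
  have hn0 : (0 : ℝ) < n := by exact_mod_cast hn1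
  have hb : |(b : ℝ)| ≤ n := by exact_mod_cast hn
  rw [lsl_Fn_cast ha b hn]
  have e1 : ((a : ℝ) * (n : ℝ) ^ 2 + b * n) / a = (n : ℝ) ^ 2 + b / a * n := by field_simp
  rw [e1]
  set y := (n : ℝ) ^ 2 + b / a * n with hy
  have hba : |(b : ℝ) / a| ≤ |(b : ℝ)| := by
    rw [abs_div, abs_of_pos (by linarith : (0 : ℝ) < a)]
    exact div_le_self (abs_nonneg _) ha'
  have hb2 := neg_abs_le ((b : ℝ) / a)
  have hy0 : 0 ≤ y := by
    have : 0 ≤ (n : ℝ) * (n + b / a) := mul_nonneg hn0.le (by linarith)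
    nlinarith
  have hs := Real.sq_sqrt hy0
  have hs0 := Real.sqrt_nonneg y
  have e2 : (√y - n) * (√y + n) = b / a * n := by
    have : (√y - n) * (√y + n) = √y ^ 2 - (n : ℝ) ^ 2 := by ring
    rw [this, hs, hy]; ring
  have e3 : |√y - n| * (√y + n) = |(b : ℝ) / a| * n := by
    rw [← abs_of_pos (by linarith : 0 < √y + n), ← abs_mul, e2, abs_mul, abs_of_pos hn0]
  have e4 : |√y - n| * n ≤ |(b : ℝ)| * n := by
    have : |√y - n| * n ≤ |√y - n| * (√y + n) :=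
      mul_le_mul_of_nonneg_left (by linarith) (abs_nonneg _)
    have h2 : |(b : ℝ) / a| * n ≤ |(b : ℝ)| * n := mul_le_mul_of_nonneg_right hba hn0.le
    linarith
  exact le_of_mul_le_mul_right e4 hn0

lemma lsl_sqrt_succ {a : ℤ} (ha : 0 < a) (F : ℕ) :
    √(((F : ℝ) + 1) / a) ≤ √((F : ℝ) / a) + 1 := by
  have ha' : (1 : ℝ) ≤ a := by exact_mod_cast ha
  rw [Real.sqrt_le_left (by positivity)]
  have h1 : √((F : ℝ) / a) ^ 2 = (F : ℝ) / a := Real.sq_sqrt (by positivity)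
  have h2 : ((F : ℝ) + 1) / a ≤ F / a + 1 := by
    rw [add_div]
    have : 1 / (a : ℝ) ≤ 1 := by
      rw [div_le_one (by linarith)]; exact ha'
    linarith
  nlinarith [Real.sqrt_nonneg ((F : ℝ) / a)]

theorem ls_lam (a : ℤ) (ha : 0 < a) (b : ℤ) (R : ℕ) (θ : ℝ) (hθ : 0 < θ) : ∃ x0 : ℕ, ∀ x : ℕ, x0 ≤ x →
    ∀ x1 z : ℕ, x1 < x → x ≤ R * x1 → z ≤ x → 1 ≤ z →
    |Ls a b x1 x (fun N => rg z N * vonMangoldt N) - ((x : ℝ) - x1)| ≤ θ * x := by
  have ha' : (1 : ℝ) ≤ a := by exact_mod_cast ha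
  -- the prime number theorem
  set θ' : ℝ := θ / (16 * (R + 1)) with hθ'
  have hθ'0 : 0 < θ' := by positivity
  obtain ⟨X0, hX0⟩ : ∃ X0 : ℕ, ∀ N : ℕ, X0 ≤ N → |Chebyshev.psi N - N| ≤ θ' * N := by
    have h := Pool.Agent.Cov.PNT.psi_div_tendsto.comp (tendsto_natCast_atTop_atTop (R := ℝ))
    have h2 := (Metric.tendsto_atTop.1 h) θ' hθ'0
    obtain ⟨X, hX⟩ := h2
    refine ⟨max X 1, fun N hN => ?_⟩
    have h3 := hX N (le_trans (le_max_left _ _) hN)
    have hN0 : (0 : ℝ) < N := by exact_mod_cast lt_of_lt_of_le one_pos (le_trans (le_max_right _ _) hN)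
    simp only [Function.comp] at h3
    rw [Real.dist_eq] at h3
    have e : Chebyshev.psi N - N = (Chebyshev.psi N / N - 1) * N := by field_simp
    rw [e, abs_mul, abs_of_pos hN0]
    exact mul_le_mul_of_nonneg_right h3.le hN0.le
  obtain ⟨C, hC⟩ := Chebyshev.psi_sub_theta_le_mul_sqrt
  set C' : ℝ := max C 0 with hC'
  have hC'0 : 0 ≤ C' := le_max_right _ _
  have hC2 : ∀ x : ℝ, Chebyshev.psi x - Chebyshev.theta x ≤ C' * √x := fun x =>
    (hC x).trans (mul_le_mul_of_nonneg_right (le_max_left _ _) (Real.sqrt_nonneg _))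
  set K : ℝ := 2 * |(b : ℝ)| + 1 + 2 * C' * (R + 1) with hK
  have hK0 : 0 ≤ K := by positivity
  -- large x
  obtain ⟨x0, hx0⟩ : ∃ x0 : ℕ, (R + 1 : ℝ) * (2 * |(b : ℝ)| + X0 + 2 * R + 5) ≤ x0 ∧ 2 * K / θ ≤ x0 := by
    obtain ⟨n, hn⟩ := exists_nat_ge (max ((R + 1 : ℝ) * (2 * |(b : ℝ)| + X0 + 2 * R + 5)) (2 * K / θ))
    exact ⟨n, (le_max_left _ _).trans hn, (le_max_right _ _).trans hn⟩
  refine ⟨x0, fun x hx x1 z hx1 hxR hzx hz => ?_⟩
  have hxr : (x0 : ℝ) ≤ x := by exact_mod_cast hx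
  have hx1r : (x1 : ℝ) < x := by exact_mod_cast hx1
  have hxRr : (x : ℝ) ≤ R * x1 := by exact_mod_cast hxR
  have hR0 : (0 : ℝ) ≤ R := by positivity
  have hx1nn : (0 : ℝ) ≤ x1 := by positivity
  -- x1 is large
  have hx1big : 2 * |(b : ℝ)| + X0 + 2 * R + 5 ≤ x1 := by
    have h1 : (R + 1 : ℝ) * (2 * |(b : ℝ)| + X0 + 2 * R + 5) ≤ (R + 1) * x1 := by
      have : (R : ℝ) * x1 ≤ (R + 1) * x1 := by nlinarith
      linarith [hx0.1]
    exact le_of_mul_le_mul_left h1 (by positivity)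
  have hbabs := abs_nonneg (b : ℝ)
  have hX0nn : (0 : ℝ) ≤ X0 := by positivity
  have hx1pos : (0 : ℝ) < x1 := by linarith
  have hxpos : (0 : ℝ) < x := by linarith
  have hbx1 : |b| ≤ (x1 : ℤ) := by
    have : |(b : ℝ)| ≤ x1 := by linarith
    exact_mod_cast this
  have hbx : |b| ≤ (x : ℤ) := by
    have : |(b : ℝ)| ≤ x := by linarith
    exact_mod_cast this
  have hx11 : 1 ≤ x1 := by
    have : (1 : ℝ) ≤ x1 := by linarith
    exact_mod_cast this
  set F1 := Fn a b x1 with hF1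
  set F2 := Fn a b x with hF2
  have e1 : (F1 : ℝ) = a * (x1 : ℝ) ^ 2 + b * x1 := lsl_Fn_cast ha b hbx1
  have e2 : (F2 : ℝ) = a * (x : ℝ) ^ 2 + b * x := lsl_Fn_cast ha b hbx
  have hb1 := neg_abs_le (b : ℝ)
  have hb2 := le_abs_self (b : ℝ)
  have hF1low : (a : ℝ) * (x1 : ℝ) ^ 2 / 2 ≤ F1 := by
    rw [e1]
    have h1 : |(b : ℝ)| * x1 ≤ (x1 / 2) * x1 := mul_le_mul_of_nonneg_right (by linarith) hx1pos.le
    have h2 : -|(b : ℝ)| * x1 ≤ b * x1 := mul_le_mul_of_nonneg_right hb1 hx1pos.le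
    have h3 : 0 ≤ ((a : ℝ) - 1) * (x1 : ℝ) ^ 2 := mul_nonneg (by linarith) (sq_nonneg _)
    nlinarith
  have hF2up : (F2 : ℝ) ≤ 2 * a * (x : ℝ) ^ 2 := by
    rw [e2]
    have h1 : (b : ℝ) * x ≤ x * x := mul_le_mul_of_nonneg_right (by linarith) hxpos.le
    have h2 : 0 ≤ ((a : ℝ) - 1) * (x : ℝ) ^ 2 := mul_nonneg (by linarith) (sq_nonneg _)
    nlinarith
  have hF12 : F1 ≤ F2 := by
    have : (F1 : ℝ) ≤ F2 := by
      rw [e1, e2]
      have h1 : (x1 : ℝ) * |(b : ℝ)| ≤ x1 * x1 := by nlinarith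
      have h2 : 0 ≤ (x : ℝ) - x1 := by linarith
      have h3 : 0 ≤ a * ((x : ℝ) + x1) + b := by nlinarith
      have h4 : 0 ≤ ((x : ℝ) - x1) * (a * ((x : ℝ) + x1) + b) := mul_nonneg h2 h3
      nlinarith
    exact_mod_cast this
  -- F1 > x, F1 >= X0
  have hF1x : x < F1 := by
    have : (x : ℝ) < F1 := by
      have h1 : (R : ℝ) * x1 ≤ x1 * x1 / 2 := by nlinarith
      have h2 : (x1 : ℝ) * x1 / 2 ≤ a * (x1 : ℝ) ^ 2 / 2 := by nlinarith [sq_nonneg (x1 : ℝ)]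
      have h3 : (R : ℝ) * x1 < x1 * x1 / 2 := by nlinarith
      linarith
    exact_mod_cast this
  have hF1X0 : X0 ≤ F1 := by
    have : (X0 : ℝ) ≤ F1 := by
      have h0 : (x : ℝ) < F1 := by exact_mod_cast hF1x
      linarith
    exact_mod_cast this
  have hF1pos : 1 ≤ F1 := by omega
  -- the weight at F1
  have hhw1 : hw a F1 ≤ 1 / (a * x1) := by
    unfold hw
    apply one_div_le_one_div_of_le (by positivity)
    have h1 : √((a * x1 / 2) ^ 2) ≤ √((a : ℝ) * F1) := by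
      apply Real.sqrt_le_sqrt
      have : (a : ℝ) * (a * (x1 : ℝ) ^ 2 / 2) ≤ a * F1 := mul_le_mul_of_nonneg_left hF1low (by linarith)
      nlinarith [sq_nonneg ((a : ℝ) * x1)]
    rw [Real.sqrt_sq (by positivity)] at h1
    linarith
  have hhwN : ∀ N, F1 ≤ N → hw a N ≤ 1 / (a * x1) := fun N hN => (lsl_hw_anti ha hF1pos hN).trans hhw1
  -- decomposition
  have hsplit : Ls a b x1 x (fun N => rg z N * vonMangoldt N) =
      ∑ N ∈ Ioc F1 F2, vonMangoldt N * hw a N - ∑ N ∈ Ioc F1 F2, (1 - rg z N) * vonMangoldt N * hw a N := by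
    unfold Ls
    rw [← sum_sub_distrib]
    refine sum_congr rfl fun N _ => by ring
  -- prime powers
  have hpp : |∑ N ∈ Ioc F1 F2, (1 - rg z N) * vonMangoldt N * hw a N| ≤ 2 * C' * (R + 1) := by
    have hrg : ∀ N, 0 ≤ 1 - rg z N ∧ 1 - rg z N ≤ 1 := by
      intro N
      unfold rg
      split_ifs <;> norm_num
    rw [abs_of_nonneg (sum_nonneg fun N _ => mul_nonneg (mul_nonneg (hrg N).1
      ArithmeticFunction.vonMangoldt_nonneg) (lsl_hw_nonneg a N))]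
    have h1 : ∑ N ∈ Ioc F1 F2, (1 - rg z N) * vonMangoldt N * hw a N ≤
        ∑ N ∈ (Ioc F1 F2).filter (fun N => ¬ N.Prime), vonMangoldt N * (1 / (a * x1)) := by
      rw [sum_filter]
      apply sum_le_sum
      intro N hN
      rw [mem_Ioc] at hN
      by_cases hp : N.Prime
      · have hrough : rg z N = 1 := by
          unfold rg
          rw [if_pos]
          refine ⟨hp.ne_zero, fun p hpp hpN => ?_⟩
          rw [(Nat.prime_dvd_prime_iff_eq hpp hp).1 hpN]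
          omega
        rw [hrough]
        simp [hp]
      · rw [if_pos hp]
        have h2 : (1 - rg z N) * vonMangoldt N ≤ vonMangoldt N :=
          mul_le_of_le_one_left ArithmeticFunction.vonMangoldt_nonneg (hrg N).2
        exact mul_le_mul h2 (hhwN N hN.1.le) (lsl_hw_nonneg a N) ArithmeticFunction.vonMangoldt_nonneg
    rw [← sum_mul] at h1
    have h2 : ∑ N ∈ (Ioc F1 F2).filter (fun N => ¬ N.Prime), vonMangoldt N ≤
        Chebyshev.psi F2 - Chebyshev.theta F2 := by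
      rw [Chebyshev.psi_sub_theta_eq_sum_not_prime, Nat.floor_natCast]
      apply sum_le_sum_of_subset_of_nonneg
      · intro N hN
        rw [mem_filter, mem_Ioc] at hN ⊢
        exact ⟨⟨by omega, hN.1.2⟩, hN.2⟩
      · intro N _ _
        exact ArithmeticFunction.vonMangoldt_nonneg
    have h3 := hC2 F2
    have h4 : √(F2 : ℝ) ≤ 2 * a * x := by
      rw [Real.sqrt_le_left (by positivity)]
      have : 2 * (a : ℝ) * (x : ℝ) ^ 2 ≤ (2 * a * x) ^ 2 := by nlinarith [sq_nonneg (x : ℝ), sq_nonneg ((a : ℝ) * x)]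
      linarith
    have h5 : C' * √(F2 : ℝ) ≤ C' * (2 * a * x) := mul_le_mul_of_nonneg_left h4 hC'0
    have h6 : 0 ≤ 1 / ((a : ℝ) * x1) := by positivity
    have h7 : (∑ N ∈ (Ioc F1 F2).filter (fun N => ¬ N.Prime), vonMangoldt N) * (1 / (a * x1)) ≤
        C' * (2 * a * x) * (1 / (a * x1)) := mul_le_mul_of_nonneg_right (by linarith) h6
    have h8 : C' * (2 * a * x) * (1 / (a * x1)) = 2 * C' * (x / x1) := by field_simp
    have h9 : (x : ℝ) / x1 ≤ R + 1 := by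
      rw [div_le_iff₀ hx1pos]
      nlinarith
    have h10 : 2 * C' * (x / x1) ≤ 2 * C' * (R + 1) := mul_le_mul_of_nonneg_left h9 (by positivity)
    linarith
  -- main term
  have hmain : |∑ N ∈ Ioc F1 F2, vonMangoldt N * hw a N - ∑ N ∈ Ioc F1 F2, hw a N| ≤ θ / 2 * x := by
    set D : ℕ → ℝ := fun N => Chebyshev.psi N - N with hD
    have h1 : ∑ N ∈ Ioc F1 F2, vonMangoldt N * hw a N - ∑ N ∈ Ioc F1 F2, hw a N =
        ∑ N ∈ Ioc F1 F2, (D N - D (N - 1)) * hw a N := by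
      rw [← sum_sub_distrib]
      refine sum_congr rfl fun N hN => ?_
      rw [mem_Ioc] at hN
      obtain ⟨M, rfl⟩ : ∃ M, N = M + 1 := ⟨N - 1, by omega⟩
      have h2 : Chebyshev.psi ((M + 1 : ℕ) : ℝ) = Chebyshev.psi (M : ℝ) + vonMangoldt (M + 1) := by
        unfold Chebyshev.psi
        rw [Nat.floor_natCast, Nat.floor_natCast, ← Finset.insert_Ioc_right_eq_Ioc_add_one (by omega),
          sum_insert (by simp)]
        ring
      simp only [hD, Nat.add_sub_cancel]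
      rw [h2]
      push_cast
      ring
    rw [h1]
    have h2 : ∀ N, F1 ≤ N → N ≤ F2 → |D N| ≤ θ' * F2 := by
      intro N hN1 hN2
      refine (hX0 N (by omega)).trans ?_
      exact mul_le_mul_of_nonneg_left (by exact_mod_cast hN2) hθ'0.le
    have h3 := lsl_abel' D (hw a) (θ' * F2) F1 F2 (by positivity) hF12 h2
      (fun N hN => lsl_hw_anti ha (by omega) (by omega)) (lsl_hw_nonneg a)
    refine h3.trans ?_
    have h4 := hhwN (F1 + 1) (by omega)
    have h5 : 2 * (θ' * F2) * hw a (F1 + 1) ≤ 2 * (θ' * (2 * a * (x : ℝ) ^ 2)) * (1 / (a * x1)) := by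
      apply mul_le_mul _ h4 (lsl_hw_nonneg a _) (by positivity)
      have : θ' * (F2 : ℝ) ≤ θ' * (2 * a * (x : ℝ) ^ 2) := mul_le_mul_of_nonneg_left hF2up hθ'0.le
      linarith
    refine h5.trans ?_
    have h6 : 2 * (θ' * (2 * a * (x : ℝ) ^ 2)) * (1 / (a * x1)) = 4 * θ' * x * (x / x1) := by
      field_simp
      ring
    rw [h6]
    have h9 : (x : ℝ) / x1 ≤ R + 1 := by
      rw [div_le_iff₀ hx1pos]
      nlinarith
    have h10 : 4 * θ' * x * (x / x1) ≤ 4 * θ' * x * (R + 1) := mul_le_mul_of_nonneg_left h9 (by positivity)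
    have h11 : 4 * θ' * x * (R + 1) = θ / 4 * x := by
      rw [hθ']
      field_simp
      ring
    have h12 : 0 < θ * x := by positivity
    linarith
  -- the sum of the weight
  have hsum : |∑ N ∈ Ioc F1 F2, hw a N - ((x : ℝ) - x1)| ≤ 2 * |(b : ℝ)| + 1 := by
    obtain ⟨h1, h2⟩ := lsl_hw_sum ha F1 hF1pos F2 hF12
    have h3 := lsl_sqrt ha b hbx1 hx11
    have h4 := lsl_sqrt ha b hbx (by omega)
    have h5 := lsl_sqrt_succ ha F1
    have h6 : √((F2 : ℝ) / a) ≤ √(((F2 : ℝ) + 1) / a) := by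
      apply Real.sqrt_le_sqrt
      gcongr
      linarith
    rw [abs_le] at h3 h4 ⊢
    constructor <;> linarith [h3.1, h3.2, h4.1, h4.2]
  rw [hsplit]
  have hKx : K ≤ θ / 2 * x := by
    have h1 : 2 * K / θ ≤ x := hx0.2.trans hxr
    rw [div_le_iff₀ hθ] at h1
    linarith
  have h1 := abs_le.1 hpp
  have h2 := abs_le.1 hmain
  have h3 := abs_le.1 hsum
  rw [abs_le]
  constructor <;> linarith [h1.1, h1.2, h2.1, h2.2, h3.1, h3.2]

end Pool.Agent.N792
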