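import Mathlib
import Pool.Agent.N792.Defs2
import Pool.Agent.N792.FlL

/-!
The number of rough integers in an interval, and the average over `c` of the number of rough values
divisible by `j` (helper868, job RAV of helper792).
-/

set_option autoImplicit false

namespace Pool.Agent.N792
open Finset Filter Topology
open ArithmeticFunction (moebius vonMangoldt)

/-- Euler product lower bound -/
lemma rav_log_le_euler (y : ℕ) : Real.log y ≤ ∏ p ∈ (y + 1).primesBelow, (1 - (p : ℝ)⁻¹)⁻¹ := by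
  let f : ℕ →* ℝ :=
    { toFun := fun n => (n : ℝ)⁻¹
      map_one' := by simp
      map_mul' := by intro a b; push_cast; rw [mul_inv] }
  have hf : ∀ n, f n = (n : ℝ)⁻¹ := fun n => rfl
  have h := (EulerProduct.summable_and_hasSum_smoothNumbers_prod_primesBelow_geometric (f := f)
    (by
      intro p hp
      rw [hf, norm_inv, RCLike.norm_natCast]
      have : (1 : ℝ) < p := by exact_mod_cast hp.one_lt
      exact inv_lt_one_of_one_lt₀ this) (y + 1)).2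
  have hmem : ∀ n ∈ Finset.Icc 1 y, n ∈ Nat.smoothNumbers (y + 1) := by
    intro n hn
    rw [Finset.mem_Icc] at hn
    rw [Nat.mem_smoothNumbers']
    intro p hp hpn
    have := Nat.le_of_dvd (by omega) hpn
    omega
  classical
  have h2 := sum_le_hasSum ((Finset.Icc 1 y).subtype (· ∈ Nat.smoothNumbers (y + 1)))
    (fun i _ => by rw [hf]; positivity) h
  rw [Finset.sum_subtype_of_mem (fun n => f n) hmem] at h2
  have h3 : Real.log ((y + 1 : ℕ) : ℝ) ≤ ∑ n ∈ Finset.Icc 1 y, f n := by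
    have := log_add_one_le_harmonic y
    rw [harmonic_eq_sum_Icc] at this
    push_cast at this ⊢
    simpa [hf] using this
  have h4 : Real.log (y : ℝ) ≤ Real.log ((y + 1 : ℕ) : ℝ) := by
    rcases Nat.eq_zero_or_pos y with rfl | hy
    · simp
    · apply Real.log_le_log (by exact_mod_cast hy)
      push_cast; linarith
  calc _ ≤ _ := h4
    _ ≤ _ := h3
    _ ≤ _ := h2
    _ = _ := by simp only [hf]

lemma V1_pos (y : ℕ) : 0 < V1 y := by
  unfold V1
  apply prod_pos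
  intro p hp
  have h1 : (1 : ℝ) < p := by exact_mod_cast (mem_filter.1 hp).2.one_lt
  rw [sub_pos, div_lt_one (by linarith)]
  exact h1

lemma V1_le (y : ℕ) (hy : 2 ≤ y) : V1 y ≤ 1 / Real.log y := by
  have h1 := rav_log_le_euler y
  have hl : 0 < Real.log y := Real.log_pos (by exact_mod_cast (by omega : 1 < y))
  have h2 : ∏ p ∈ (y + 1).primesBelow, (1 - (p : ℝ)⁻¹)⁻¹ = (V1 y)⁻¹ := by
    unfold V1
    rw [prod_inv_distrib]
    congr 1
    have h3 : (Icc 1 y).filter Nat.Prime = (y + 1).primesBelow := by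
      ext p
      rw [Nat.mem_primesBelow, mem_filter, mem_Icc]
      constructor
      · rintro ⟨⟨_, h⟩, hp⟩
        exact ⟨by omega, hp⟩
      · rintro ⟨h, hp⟩
        exact ⟨⟨hp.one_le, by omega⟩, hp⟩
    rw [h3]
    exact prod_congr rfl fun p _ => by rw [one_div]
  rw [h2] at h1
  rw [one_div]
  exact (le_inv_comm₀ hl (V1_pos y)).1 h1

lemma V1q_one (y : ℕ) : V1q 1 y = V1 y := by
  unfold V1q V1
  refine prod_congr ?_ fun _ _ => rfl
  ext p
  rw [mem_filter, mem_filter]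
  constructor
  · rintro ⟨h1, h2, _⟩
    exact ⟨h1, h2⟩
  · rintro ⟨h1, h2⟩
    refine ⟨h1, h2, fun h => ?_⟩
    exact h2.one_lt.ne' (Nat.dvd_one.1 h)

lemma Rough.mono {z z' N : ℕ} (h : z' ≤ z) (hN : Rough z N) : Rough z' N :=
  ⟨hN.1, fun p hp hpN => lt_of_le_of_lt h (hN.2 p hp hpN)⟩

/-- a level `2 ^ 2 ^ J` between `√(x ^ e)` and `x ^ e` -/
lemma exists_level (t : ℝ) (ht : 2 ≤ t) : ∃ J : ℕ, ((2 ^ 2 ^ J : ℕ) : ℝ) ≤ t ∧ t ≤ ((2 ^ 2 ^ J : ℕ) : ℝ) ^ 2 := by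
  set y := ⌊t⌋₊ with hy
  have hy2 : 2 ≤ y := Nat.le_floor (by exact_mod_cast ht)
  have hlog : Nat.log 2 y ≠ 0 := by
    have := Nat.log_pos (b := 2) (by norm_num) hy2
    omega
  set J := Nat.log 2 (Nat.log 2 y) with hJ
  have h1 : 2 ^ J ≤ Nat.log 2 y := Nat.pow_log_le_self 2 hlog
  have h2 : 2 ^ 2 ^ J ≤ y := (Nat.pow_le_pow_right (by norm_num) h1).trans (Nat.pow_log_le_self 2 (by omega))
  have h3 : Nat.log 2 y < 2 ^ (J + 1) := Nat.lt_pow_succ_log_self (by norm_num) _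
  have h4 : y + 1 ≤ 2 ^ 2 ^ (J + 1) := by
    have h5 : y < 2 ^ (Nat.log 2 y + 1) := Nat.lt_pow_succ_log_self (by norm_num) _
    have h6 : 2 ^ (Nat.log 2 y + 1) ≤ 2 ^ 2 ^ (J + 1) := Nat.pow_le_pow_right (by norm_num) h3
    omega
  refine ⟨J, ?_, ?_⟩
  · have h5 : ((2 ^ 2 ^ J : ℕ) : ℝ) ≤ y := by exact_mod_cast h2
    exact h5.trans (Nat.floor_le (by linarith))
  · have h5 : t < y + 1 := Nat.lt_floor_add_one t
    have h6 : ((y : ℝ) + 1) ≤ ((2 ^ 2 ^ (J + 1) : ℕ) : ℝ) := by exact_mod_cast h4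
    have h7 : 2 ^ 2 ^ (J + 1) = (2 ^ 2 ^ J) ^ 2 := by
      rw [← pow_mul, pow_succ]
    rw [h7] at h6
    push_cast at h6 ⊢
    linarith

open Classical in
/-- the number of rough integers in an interval -/
theorem rough_count : ∃ C : ℝ, 0 < C ∧ ∀ η : ℝ, 0 < η → η ≤ 1 / 10 → ∃ x0 : ℕ, ∀ x : ℕ, x0 ≤ x →
    ∀ z : ℕ, (x : ℝ) ^ η ≤ z → ∀ k1 k2 : ℕ, k1 ≤ k2 →
    (#((Ioc k1 k2).filter (fun k => Rough z k)) : ℝ) ≤
      C * (((k2 : ℝ) - k1) + (x : ℝ) ^ (1 / 15 : ℝ)) / (η * Real.log x) := by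
  obtain ⟨C1, hC1, H⟩ := fl_lin
  have hC1r : (1 : ℝ) ≤ C1 := by exact_mod_cast hC1
  refine ⟨8 * C1 ^ 2 + 1, by positivity, ?_⟩
  intro η hη hη1
  set ex : ℝ := η / (2 * C1 ^ 2) with hex
  have hex0 : 0 < ex := by positivity
  have hexη : ex ≤ η := by
    rw [hex]
    apply div_le_self hη.le
    nlinarith
  obtain ⟨x0, hx0⟩ : ∃ x0 : ℕ, (2 : ℝ) ^ (1 / ex) ≤ x0 ∧ (4 * 180 ^ 2 * (C1 : ℝ)) ^ 180 ≤ x0 ∧ 3 ≤ x0 := by
    obtain ⟨n, hn⟩ := exists_nat_ge (max ((2 : ℝ) ^ (1 / ex)) (max ((4 * 180 ^ 2 * (C1 : ℝ)) ^ 180) 3))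
    refine ⟨n, (le_max_left _ _).trans hn, ((le_max_left _ _).trans (le_max_right _ _)).trans hn, ?_⟩
    have : (3 : ℝ) ≤ n := ((le_max_right _ _).trans (le_max_right _ _)).trans hn
    exact_mod_cast this
  refine ⟨x0, fun x hx z hz k1 k2 hk => ?_⟩
  have hxr : (x0 : ℝ) ≤ x := by exact_mod_cast hx
  have hx3 : (3 : ℝ) ≤ x := by exact_mod_cast hx0.2.2.trans hx
  have hxpos : (0 : ℝ) < x := by linarith
  have hx1 : (1 : ℝ) ≤ x := by linarith
  have hlog : 1 ≤ Real.log x := by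
    rw [Real.le_log_iff_exp_le hxpos]
    have := Real.exp_one_lt_d9
    linarith
  -- the level
  have ht : 2 ≤ (x : ℝ) ^ ex := by
    have h1 : ((2 : ℝ) ^ (1 / ex)) ^ ex ≤ (x : ℝ) ^ ex :=
      Real.rpow_le_rpow (by positivity) (hx0.1.trans hxr) hex0.le
    rw [← Real.rpow_mul (by norm_num), one_div_mul_cancel hex0.ne', Real.rpow_one] at h1
    exact h1
  obtain ⟨J, hJ1, hJ2⟩ := exists_level _ ht
  set z' : ℕ := 2 ^ 2 ^ J with hz'
  have hz'2 : 2 ≤ z' := by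
    rw [hz']
    calc 2 = 2 ^ 1 := (pow_one 2).symm
      _ ≤ 2 ^ 2 ^ J := Nat.pow_le_pow_right (by norm_num) Nat.one_le_two_pow
  have hz'r : (2 : ℝ) ≤ z' := by exact_mod_cast hz'2
  have hz'z : z' ≤ z := by
    have h1 : (x : ℝ) ^ ex ≤ (x : ℝ) ^ η := Real.rpow_le_rpow_of_exponent_le hx1 hexη
    have : (z' : ℝ) ≤ z := hJ1.trans (h1.trans hz)
    exact_mod_cast this
  -- log z'
  have hlogz : ex / 2 * Real.log x ≤ Real.log z' := by
    have h1 : Real.log ((x : ℝ) ^ ex) ≤ Real.log ((z' : ℝ) ^ 2) := Real.log_le_log (by positivity) hJ2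
    rw [Real.log_rpow hxpos, Real.log_pow] at h1
    push_cast at h1
    linarith
  have hlogz2 : Real.log z' ≤ Real.log x := by
    have h1 : Real.log (z' : ℝ) ≤ Real.log ((x : ℝ) ^ ex) := Real.log_le_log (by linarith) hJ1
    rw [Real.log_rpow hxpos] at h1
    have h2 : ex ≤ 1 := by linarith
    have h3 : ex * Real.log x ≤ 1 * Real.log x := mul_le_mul_of_nonneg_right h2 (by linarith)
    linarith
  have hlogzpos : 0 < ex / 2 * Real.log x := by positivity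
  have hV : V1 z' ≤ 4 * C1 ^ 2 / (η * Real.log x) := by
    refine (V1_le z' hz'2).trans ?_
    have h1 : 1 / Real.log z' ≤ 1 / (ex / 2 * Real.log x) := one_div_le_one_div_of_le hlogzpos hlogz
    refine h1.trans (le_of_eq ?_)
    rw [hex]
    field_simp
    norm_num
  -- the error term
  have hJ2' : (J : ℝ) + 2 ≤ 4 * Real.log x := by
    have h1 : (J : ℝ) + 1 ≤ 2 ^ J := by
      have : J + 1 ≤ 2 ^ J := Nat.lt_two_pow_self
      exact_mod_cast this
    have h2 : Real.log z' = 2 ^ J * Real.log 2 := by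
      rw [hz']
      push_cast
      rw [Real.log_pow]
      push_cast
      ring
    have h3 : (0.6931471803 : ℝ) < Real.log 2 := Real.log_two_gt_d9
    have h4 : (2 : ℝ) ^ J * Real.log 2 ≤ Real.log x := by rw [← h2]; exact hlogz2
    have h5 : (2 : ℝ) ^ J * 0.6931471803 ≤ Real.log x := by
      have : (0 : ℝ) < 2 ^ J := by positivity
      nlinarith
    nlinarith
  have herr : (C1 : ℝ) * (J + 2) * ((2 : ℝ) ^ 2 ^ J) ^ (C1 * C1) ≤ (x : ℝ) ^ (1 / 15 : ℝ) / Real.log x := by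
    have h1 : ((2 : ℝ) ^ 2 ^ J) ^ (C1 * C1) ≤ (x : ℝ) ^ (1 / 20 : ℝ) := by
      have h2 : ((2 : ℝ) ^ 2 ^ J) ≤ (x : ℝ) ^ ex := by
        have e0 : ((2 : ℝ) ^ 2 ^ J) = ((2 ^ 2 ^ J : ℕ) : ℝ) := by push_cast; rfl
        rw [e0]
        exact hJ1
      have h3 : ((2 : ℝ) ^ 2 ^ J) ^ (C1 * C1) ≤ ((x : ℝ) ^ ex) ^ (C1 * C1) := by gcongr
      refine h3.trans ?_
      rw [← Real.rpow_natCast, ← Real.rpow_mul hxpos.le]
      apply Real.rpow_le_rpow_of_exponent_le hx1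
      rw [hex]
      push_cast
      have : η / (2 * (C1 : ℝ) ^ 2) * (C1 * C1) = η / 2 := by field_simp
      rw [this]
      linarith
    have hl180 : Real.log x ≤ 180 * (x : ℝ) ^ (1 / 180 : ℝ) := by
      have := Real.log_le_rpow_div hxpos.le (by norm_num : (0 : ℝ) < 1 / 180)
      linarith
    have hpow : (4 * 180 ^ 2 * (C1 : ℝ)) ≤ (x : ℝ) ^ (1 / 180 : ℝ) := by
      have h1 : (4 * 180 ^ 2 * (C1 : ℝ)) ^ (180 : ℕ) ≤ x := hx0.2.1.trans hxr
      have h2 : ((4 * 180 ^ 2 * (C1 : ℝ)) ^ (180 : ℕ)) ^ (1 / 180 : ℝ) ≤ (x : ℝ) ^ (1 / 180 : ℝ) :=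
        Real.rpow_le_rpow (by positivity) h1 (by norm_num)
      rw [← Real.rpow_natCast, ← Real.rpow_mul (by positivity)] at h2
      norm_num at h2 ⊢
      exact h2
    rw [le_div_iff₀ (by linarith)]
    have e1 : (x : ℝ) ^ (1 / 15 : ℝ) = (x : ℝ) ^ (1 / 20 : ℝ) * ((x : ℝ) ^ (1 / 180 : ℝ) *
        ((x : ℝ) ^ (1 / 180 : ℝ) * (x : ℝ) ^ (1 / 180 : ℝ))) := by
      rw [← Real.rpow_add hxpos, ← Real.rpow_add hxpos, ← Real.rpow_add hxpos]
      norm_num
    rw [e1]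
    set X20 := (x : ℝ) ^ (1 / 20 : ℝ) with hX20
    set u := (x : ℝ) ^ (1 / 180 : ℝ) with hu
    have hX20pos : 0 < X20 := by positivity
    have hupos : 0 < u := by positivity
    have hPpos : 0 ≤ ((2 : ℝ) ^ 2 ^ J) ^ (C1 * C1) := by positivity
    have hlnn : 0 ≤ Real.log x := by linarith
    calc (C1 : ℝ) * (J + 2) * ((2 : ℝ) ^ 2 ^ J) ^ (C1 * C1) * Real.log x
        ≤ (C1 : ℝ) * (4 * Real.log x) * X20 * Real.log x := by gcongr
      _ = 4 * C1 * X20 * (Real.log x * Real.log x) := by ring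
      _ ≤ 4 * C1 * X20 * ((180 * u) * (180 * u)) := by gcongr
      _ = X20 * ((4 * 180 ^ 2 * C1) * (u * u)) := by ring
      _ ≤ X20 * (u * (u * u)) := by gcongr
  -- conclusion
  have h1 := H C1 le_rfl J 1 0 k1 k2 le_rfl (Nat.coprime_one_right 0) hk
  rw [V1q_one] at h1
  have h2 : (#((Ioc k1 k2).filter (fun k => Rough z k)) : ℝ) ≤
      (#((Ioc k1 k2).filter (fun k : ℕ => k ≡ 0 [MOD 1] ∧ Rough (2 ^ 2 ^ J) k)) : ℝ) := by
    exact_mod_cast card_le_card (fun k hk => by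
      rw [mem_filter] at hk ⊢
      exact ⟨hk.1, Nat.modEq_one, hk.2.mono hz'z⟩)
  have h3 := (abs_le.1 h1).2
  have hkk : (0 : ℝ) ≤ (k2 : ℝ) - k1 := by
    have : (k1 : ℝ) ≤ k2 := by exact_mod_cast hk
    linarith
  have hhalf : ((1 : ℝ) / 2) ^ C1 ≤ 1 := pow_le_one₀ (by norm_num) (by norm_num)
  have hVpos := V1_pos z'
  have h4 : ((1 : ℝ) / 2) ^ C1 * (((k2 : ℝ) - k1) / (1 : ℕ) * V1 z') ≤ ((k2 : ℝ) - k1) * V1 z' := by
    rw [Nat.cast_one, div_one]
    have : 0 ≤ ((k2 : ℝ) - k1) * V1 z' := mul_nonneg hkk hVpos.le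
    calc _ ≤ 1 * (((k2 : ℝ) - k1) * V1 z') := mul_le_mul_of_nonneg_right hhalf this
      _ = _ := one_mul _
  have h5 : ((k2 : ℝ) - k1) / (1 : ℕ) * V1 z' = ((k2 : ℝ) - k1) * V1 z' := by
    rw [Nat.cast_one, div_one]
  rw [← hz'] at h3 h2
  have h6 : (#((Ioc k1 k2).filter (fun k => Rough z k)) : ℝ) ≤
      2 * (((k2 : ℝ) - k1) * V1 z') + (x : ℝ) ^ (1 / 15 : ℝ) / Real.log x := by
    linarith
  refine h6.trans ?_
  have h7 : ((k2 : ℝ) - k1) * V1 z' ≤ ((k2 : ℝ) - k1) * (4 * C1 ^ 2 / (η * Real.log x)) :=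
    mul_le_mul_of_nonneg_left hV hkk
  have h8 : (x : ℝ) ^ (1 / 15 : ℝ) / Real.log x ≤ (x : ℝ) ^ (1 / 15 : ℝ) / (η * Real.log x) := by
    apply div_le_div_of_nonneg_left (by positivity) (by positivity)
    have : η * Real.log x ≤ 1 * Real.log x := mul_le_mul_of_nonneg_right (by linarith) (by linarith)
    linarith
  have h9 : 2 * (((k2 : ℝ) - k1) * (4 * C1 ^ 2 / (η * Real.log x))) + (x : ℝ) ^ (1 / 15 : ℝ) / (η * Real.log x) =
      (8 * C1 ^ 2 * ((k2 : ℝ) - k1) + (x : ℝ) ^ (1 / 15 : ℝ)) / (η * Real.log x) := by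
    field_simp
    ring
  have h10 : (8 * C1 ^ 2 * ((k2 : ℝ) - k1) + (x : ℝ) ^ (1 / 15 : ℝ)) / (η * Real.log x) ≤
      (8 * C1 ^ 2 + 1) * (((k2 : ℝ) - k1) + (x : ℝ) ^ (1 / 15 : ℝ)) / (η * Real.log x) := by
    apply div_le_div_of_nonneg_right _ (by positivity)
    have hX : 0 ≤ (x : ℝ) ^ (1 / 15 : ℝ) := by positivity
    have h11 : 0 ≤ 8 * (C1 : ℝ) ^ 2 * (x : ℝ) ^ (1 / 15 : ℝ) := by positivity
    nlinarith
  linarith

theorem rough_avg (a : ℤ) (ha : 0 < a) (b : ℤ) : ∃ C5 : ℝ, 0 < C5 ∧ ∀ η : ℝ, 0 < η → η ≤ 1 / 10 →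
    ∃ x0 : ℕ, ∀ x : ℕ, x0 ≤ x → ∀ x1 x2 C z j : ℕ, x1 ≤ x2 → x2 ≤ x → (x : ℝ) ^ (9 / 10 : ℝ) ≤ C → C ≤ x →
    (x : ℝ) ^ η ≤ z → 1 ≤ j → (j : ℝ) ≤ (x : ℝ) ^ (4 / 5 : ℝ) →
    ∑ c ∈ Icc 1 C, Lc a b x1 x2 c (fun N => if j ∣ N then rg z (N / j) else 0) ≤
      C5 * (C * ((x2 : ℝ) - x1 + x / Real.log x ^ 2) / (j * (η * Real.log x))) := by
  classical
  obtain ⟨C0, hC0, H⟩ := rough_count
  refine ⟨3 * C0, by positivity, fun η hη hη1 => ?_⟩
  obtain ⟨x0, hx0⟩ := H η hη hη1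
  refine ⟨max x0 3, fun x hx x1 x2 C z j hx12 hx2 hxC hCx hz hj hjx => ?_⟩
  have hH := hx0 x ((le_max_left _ _).trans hx) z hz
  have hx3 : (3 : ℝ) ≤ x := by exact_mod_cast (le_max_right _ _).trans hx
  have hxpos : (0 : ℝ) < x := by linarith
  have hx1 : (1 : ℝ) ≤ x := by linarith
  have hlog : 1 ≤ Real.log x := by
    rw [Real.le_log_iff_exp_le hxpos]
    have := Real.exp_one_lt_d9
    linarith
  have hj0 : (0 : ℝ) < j := by exact_mod_cast hj
  -- C / j >= x ^ (1/10)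
  have hCj : (x : ℝ) ^ (1 / 10 : ℝ) ≤ C / j := by
    rw [le_div_iff₀ hj0]
    calc (x : ℝ) ^ (1 / 10 : ℝ) * j ≤ (x : ℝ) ^ (1 / 10 : ℝ) * (x : ℝ) ^ (4 / 5 : ℝ) := by gcongr
      _ = (x : ℝ) ^ (9 / 10 : ℝ) := by rw [← Real.rpow_add hxpos]; norm_num
      _ ≤ C := hxC
  have h15 : (x : ℝ) ^ (1 / 15 : ℝ) ≤ C / j :=
    (Real.rpow_le_rpow_of_exponent_le hx1 (by norm_num)).trans hCj
  have h1Cj : 1 ≤ (C : ℝ) / j := (Real.one_le_rpow hx1 (by norm_num)).trans hCj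
  -- swap the sums
  unfold Lc
  rw [sum_comm]
  have hn : ∀ n ∈ Ioc x1 x2, ∑ c ∈ Icc 1 C, (if j ∣ (fv a b (c : ℕ) n).toNat then
      rg z ((fv a b (c : ℕ) n).toNat / j) else 0) ≤ 3 * C0 * (C / j) / (η * Real.log x) := by
    intro n _
    set F : ℤ := fv a b 0 n with hF
    have hfv : ∀ c : ℕ, fv a b c n = F + c := by
      intro c
      rw [hF]
      unfold fv
      ring
    set k1 : ℕ := F.toNat / j with hk1
    set k2 : ℕ := (F + C).toNat / j with hk2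
    have hk12 : k1 ≤ k2 := Nat.div_le_div_right (Int.toNat_le_toNat (by omega))
    have hk21 : (k2 : ℝ) - k1 ≤ C / j + 1 := by
      have h1 : (k2 : ℝ) ≤ ((F + C).toNat : ℝ) / j := Nat.cast_div_le
      have h2 : ((F.toNat : ℕ) : ℝ) / j < k1 + 1 := by
        rw [div_lt_iff₀ hj0]
        have := Nat.lt_mul_div_succ F.toNat (show 0 < j by omega)
        have h3 : (F.toNat : ℝ) < j * ((F.toNat / j : ℕ) + 1) := by exact_mod_cast this
        rw [← hk1] at h3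
        linarith
      have h3 : ((F + C).toNat : ℝ) ≤ F.toNat + C := by
        have : (F + C).toNat ≤ F.toNat + C := by omega
        exact_mod_cast this
      have h4 : ((F + C).toNat : ℝ) / j ≤ (F.toNat : ℝ) / j + C / j := by
        rw [← add_div]
        gcongr
      linarith
    have hcount : ∑ c ∈ Icc 1 C, (if j ∣ (fv a b (c : ℕ) n).toNat then
        rg z ((fv a b (c : ℕ) n).toNat / j) else 0) ≤
        (#((Ioc k1 k2).filter (fun k => Rough z k)) : ℝ) := by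
      have h1 : ∑ c ∈ Icc 1 C, (if j ∣ (fv a b (c : ℕ) n).toNat then
          rg z ((fv a b (c : ℕ) n).toNat / j) else 0) =
          (#((Icc 1 C).filter (fun c : ℕ => j ∣ (fv a b (c : ℕ) n).toNat ∧
            Rough z ((fv a b (c : ℕ) n).toNat / j))) : ℝ) := by
        rw [card_filter]
        push_cast
        refine sum_congr rfl fun c _ => ?_
        unfold rg
        by_cases h1 : j ∣ (fv a b (c : ℕ) n).toNat
        · by_cases h2 : Rough z ((fv a b (c : ℕ) n).toNat / j)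
          · simp [h1, h2]
          · simp [h1, h2]
        · simp [h1]
      rw [h1]
      norm_cast
      apply card_le_card_of_injOn (fun c : ℕ => (fv a b (c : ℕ) n).toNat / j)
      · intro c hc
        simp only [coe_filter, Set.mem_ofPred_eq, mem_Icc, mem_Ioc] at hc ⊢
        obtain ⟨⟨hc1, hc2⟩, hc3, hc4⟩ := hc
        rw [hfv] at hc3 hc4 ⊢
        have hne : (F + c).toNat / j ≠ 0 := hc4.1
        have hne2 : (F + c).toNat ≠ 0 := by
          intro h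
          rw [h, Nat.zero_div] at hne
          exact hne rfl
        refine ⟨⟨?_, ?_⟩, hc4⟩
        · rw [hk1]
          apply Nat.lt_of_mul_lt_mul_left (a := j)
          rw [Nat.mul_div_cancel' hc3]
          have h5 : j * (F.toNat / j) ≤ F.toNat := Nat.mul_div_le _ _
          omega
        · rw [hk2]
          exact Nat.div_le_div_right (Int.toNat_le_toNat (by omega))
      · intro c hc c' hc' hcc'
        simp only [coe_filter, Set.mem_ofPred_eq, mem_Icc] at hc hc'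
        obtain ⟨⟨hc1, hc2⟩, hc3, hc4⟩ := hc
        obtain ⟨⟨hc1', hc2'⟩, hc3', hc4'⟩ := hc'
        rw [hfv] at hc3 hc4 hc3' hc4'
        simp only [hfv] at hcc'
        have hne : (F + c).toNat ≠ 0 := by
          intro h
          have := hc4.1
          rw [h, Nat.zero_div] at this
          exact this rfl
        have hne' : (F + c').toNat ≠ 0 := by
          intro h
          have := hc4'.1
          rw [h, Nat.zero_div] at this
          exact this rfl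
        have h5 : (F + c).toNat = (F + c').toNat := by
          rw [← Nat.mul_div_cancel' hc3, ← Nat.mul_div_cancel' hc3', hcc']
        omega
    refine hcount.trans ((hH k1 k2 hk12).trans ?_)
    apply div_le_div_of_nonneg_right _ (by positivity)
    have : ((k2 : ℝ) - k1) + (x : ℝ) ^ (1 / 15 : ℝ) ≤ 3 * (C / j) := by linarith
    nlinarith
  refine (sum_le_sum hn).trans ?_
  rw [sum_const, Nat.card_Ioc, nsmul_eq_mul, Nat.cast_sub hx12]
  have h1 : 0 ≤ (x : ℝ) / Real.log x ^ 2 := by positivity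
  have h2 : 3 * C0 * (C * ((x2 : ℝ) - x1 + x / Real.log x ^ 2) / (j * (η * Real.log x))) =
      ((x2 : ℝ) - x1 + x / Real.log x ^ 2) * (3 * C0 * (C / j) / (η * Real.log x)) := by
    field_simp
  rw [h2]
  apply mul_le_mul_of_nonneg_right _ (by positivity)
  linarith

end Pool.Agent.N792
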