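import Mathlib
import Pool.Agent.N792.Defs2
import Pool.Agent.Helper112.TypeI

/-!
Vaughan's identity on rough numbers (helper96, for the project of helper792).
-/

set_option autoImplicit false

namespace Pool.Agent.N792
open Finset Filter Topology
open ArithmeticFunction (moebius vonMangoldt)

namespace Vau
open Pool.Agent.Helper112 (betaV LamII)
open Pool.Agent.Helper112.TI (mu1 l1 mu1_apply l1_apply)

lemma gam_eq (U k : ℕ) : gam U k = betaV U k := rfl

lemma gam_zero {U k : ℕ} (h : k ≤ U) : gam U k = 0 := by
  unfold gam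
  rw [filter_eq_empty_iff.2, sum_empty]
  intro d hd h1
  have := Nat.divisor_le hd
  omega

lemma gam_abs (U k : ℕ) : |gam U k| ≤ #k.divisors := by
  unfold gam
  refine (abs_sum_le_sum_abs _ _).trans ?_
  calc ∑ d ∈ k.divisors.filter (fun d => U < d), |(moebius d : ℝ)|
      ≤ ∑ d ∈ k.divisors.filter (fun d => U < d), (1 : ℝ) := by
        apply sum_le_sum
        intro d _
        have := ArithmeticFunction.abs_moebius_le_one (n := d)
        exact_mod_cast this
    _ = #(k.divisors.filter (fun d => U < d)) := by simp
    _ ≤ #k.divisors := by exact_mod_cast card_filter_le _ _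

lemma betU_zero {U j : ℕ} (h : U * U < j) : betU U j = 0 := by
  unfold betU
  apply sum_eq_zero
  rintro ⟨p, q⟩ hi
  rw [Nat.mem_divisorsAntidiagonal] at hi
  simp only at hi ⊢
  by_cases h1 : p ≤ U
  · by_cases h2 : q ≤ U
    · exfalso
      have := Nat.mul_le_mul h1 h2
      omega
    · rw [if_neg h2, mul_zero]
  · rw [if_neg h1, zero_mul]

lemma betU_abs (U j : ℕ) : |betU U j| ≤ Real.log j := by
  unfold betU
  refine (abs_sum_le_sum_abs _ _).trans ?_
  calc ∑ i ∈ j.divisorsAntidiagonal, |(if i.1 ≤ U then (moebius i.1 : ℝ) else 0) *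
      (if i.2 ≤ U then vonMangoldt i.2 else 0)| ≤ ∑ i ∈ j.divisorsAntidiagonal, vonMangoldt i.2 := by
        apply sum_le_sum
        rintro ⟨p, q⟩ _
        simp only
        rw [abs_mul]
        have h1 : |(if p ≤ U then (moebius p : ℝ) else 0)| ≤ 1 := by
          split_ifs
          · have := ArithmeticFunction.abs_moebius_le_one (n := p)
            exact_mod_cast this
          · simp
        have h2 : |(if q ≤ U then vonMangoldt q else (0 : ℝ))| ≤ vonMangoldt q := by
          split_ifs
          · rw [abs_of_nonneg ArithmeticFunction.vonMangoldt_nonneg]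
          · simp [ArithmeticFunction.vonMangoldt_nonneg]
        calc _ ≤ 1 * vonMangoldt q := mul_le_mul h1 h2 (abs_nonneg _) zero_le_one
          _ = vonMangoldt q := one_mul _
    _ = ∑ i ∈ j.divisors, vonMangoldt i := by
        rw [← Nat.map_div_left_divisors, sum_map]
        rfl
    _ = Real.log j := ArithmeticFunction.vonMangoldt_sum

lemma betU_af (U j : ℕ) : betU U j = (mu1 U * l1 U) j := by
  rw [ArithmeticFunction.mul_apply]
  rfl

lemma log_part (U N : ℕ) (hN : N ≠ 0) : (ArithmeticFunction.log * mu1 U) N =
    ∑ j ∈ N.divisors.filter (fun j => j ≤ U), (moebius j : ℝ) * (Real.log N - Real.log j) := by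
  rw [ArithmeticFunction.mul_apply, sum_filter,
    Nat.sum_divisorsAntidiagonal' (fun p q => ArithmeticFunction.log p * mu1 U q)]
  apply sum_congr rfl
  intro j hj
  have hj0 : j ≠ 0 := (Nat.pos_of_mem_divisors hj).ne'
  have hjd := Nat.dvd_of_mem_divisors hj
  rw [mu1_apply, ArithmeticFunction.log_apply, Nat.cast_div hjd (by exact_mod_cast hj0),
    Real.log_div (by exact_mod_cast hN) (by exact_mod_cast hj0)]
  split_ifs
  · ring
  · ring

lemma lam_part (U N : ℕ) : LamII U U N =
    ∑ l ∈ N.divisors.filter (fun l => U < l), vonMangoldt l * gam U (N / l) := by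
  unfold LamII
  rw [sum_filter, Nat.sum_divisorsAntidiagonal' (fun p q => betaV U p * (if U < q then vonMangoldt q else 0))]
  apply sum_congr rfl
  intro l _
  rw [gam_eq]
  split_ifs
  · ring
  · ring

lemma lam_part' (U N : ℕ) : LamII U U N =
    ∑ k ∈ N.divisors, gam U k * (if U < N / k then vonMangoldt (N / k) else 0) := by
  unfold LamII
  rw [← Nat.map_div_right_divisors, sum_map]
  rfl

end Vau

open Vau in
theorem vaughan_split (z U y y3 N : ℕ) (hU : 1 ≤ U) (hUy : U ≤ y) (hN : y * y < N) (h3 : y3 ≤ y)
    (h4 : y3 * (U * U) ≤ N) (hr : Rough z N) :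
    |vonMangoldt N - (∑ j ∈ N.divisors.filter (fun j => j ≤ U), ((moebius j : ℝ) * (Real.log N - Real.log j) - betU U j)) -
      ∑ j ∈ N.divisors.filter (fun j => U < j ∧ j ≤ y), (-betU U j + vonMangoldt j * gam U (N / j) + gam U j * vonMangoldt (N / j))| ≤
      2 * Real.log N * (#N.divisors : ℝ) * gp z y3 N := by
  classical
  have hy1 : 1 ≤ y := hU.trans hUy
  have hyN : y < N := lt_of_le_of_lt (Nat.le_mul_of_pos_left y hy1) hN
  have hN0 : N ≠ 0 := by omega
  have hNU : U < N := by omega
  have hlogN : 0 ≤ Real.log N := Real.log_natCast_nonneg N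
  -- Vaughan's identity
  have hv := Pool.Agent.Helper112.TI.vaughan U U N
  rw [Pool.Agent.Helper112.TI.l1_apply, if_neg (by omega), zero_add, log_part U N hN0,
    ArithmeticFunction.coe_zeta_mul_apply] at hv
  have hb : ∑ j ∈ N.divisors, (Pool.Agent.Helper112.TI.mu1 U * Pool.Agent.Helper112.TI.l1 U) j =
      ∑ j ∈ N.divisors, betU U j := sum_congr rfl fun j _ => (betU_af U j).symm
  rw [hb, lam_part'] at hv
  -- the sum over `k ≤ y` and `k > y`
  have s1 : ∑ k ∈ N.divisors, gam U k * (if U < N / k then vonMangoldt (N / k) else 0) =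
      ∑ j ∈ N.divisors.filter (fun j => U < j ∧ j ≤ y), gam U j * vonMangoldt (N / j) +
      ∑ k ∈ N.divisors.filter (fun k => y < k), gam U k * (if U < N / k then vonMangoldt (N / k) else 0) := by
    rw [← sum_filter_add_sum_filter_not N.divisors (fun k => k ≤ y)]
    congr 1
    · rw [← sum_filter_add_sum_filter_not (N.divisors.filter (fun k => k ≤ y)) (fun k => k ≤ U), filter_filter,
        filter_filter]
      rw [sum_eq_zero (s := N.divisors.filter (fun k => k ≤ y ∧ k ≤ U)), zero_add]
      · apply sum_congr
        · ext k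
          simp only [mem_filter, not_le]
          tauto
        · intro k hk
          rw [mem_filter] at hk
          obtain ⟨hk1, hk2, hk3⟩ := hk
          have hk0 := Nat.pos_of_mem_divisors hk1
          rw [if_pos]
          rw [Nat.lt_div_iff_mul_lt' (Nat.dvd_of_mem_divisors hk1)]
          calc k * U ≤ y * y := Nat.mul_le_mul hk3 hUy
            _ < N := hN
      · intro k hk
        rw [mem_filter] at hk
        rw [gam_zero hk.2.2, zero_mul]
    · apply sum_congr _ fun _ _ => rfl
      ext k
      simp only [mem_filter, not_le]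
  -- the sum over `U < l ≤ y`: reflect
  have s2 : ∑ k ∈ N.divisors.filter (fun k => y < k), gam U k * (if U < N / k then vonMangoldt (N / k) else 0) =
      ∑ j ∈ N.divisors.filter (fun j => U < j ∧ j ≤ y), vonMangoldt j * gam U (N / j) +
      ∑ k ∈ N.divisors.filter (fun k => y < k ∧ y < N / k), gam U k * vonMangoldt (N / k) := by
    have e0 : N.divisors.filter (fun k => y < k) =
        N.divisors.filter (fun k => y < k ∧ N / k ≤ y) ∪ N.divisors.filter (fun k => y < k ∧ y < N / k) := by
      ext k
      simp only [mem_union, mem_filter]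
      constructor
      · rintro ⟨h1, h2⟩
        rcases le_or_gt (N / k) y with h | h
        · exact Or.inl ⟨h1, h2, h⟩
        · exact Or.inr ⟨h1, h2, h⟩
      · rintro (⟨h1, h2, _⟩ | ⟨h1, h2, _⟩)
        · exact ⟨h1, h2⟩
        · exact ⟨h1, h2⟩
    have hdis : Disjoint (N.divisors.filter (fun k => y < k ∧ N / k ≤ y)) (N.divisors.filter (fun k => y < k ∧ y < N / k)) := by
      rw [disjoint_left]
      intro k hk hk'
      rw [mem_filter] at hk hk'
      omega
    rw [e0, sum_union hdis]
    congr 1
    · -- reflect `k ↦ N / k`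
      rw [← sum_filter_add_sum_filter_not (N.divisors.filter (fun k => y < k ∧ N / k ≤ y)) (fun k => U < N / k),
        filter_filter, filter_filter]
      rw [sum_eq_zero (s := N.divisors.filter (fun k => (y < k ∧ N / k ≤ y) ∧ ¬ U < N / k)), add_zero]
      · refine sum_nbij' (fun k => N / k) (fun j => N / j) ?_ ?_ ?_ ?_ ?_
        · intro k hk
          rw [mem_filter] at hk ⊢
          obtain ⟨hk1, ⟨hk2, hk3⟩, hk4⟩ := hk
          exact ⟨Nat.mem_divisors.2 ⟨Nat.div_dvd_of_dvd (Nat.dvd_of_mem_divisors hk1), hN0⟩, hk4, hk3⟩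
        · intro j hj
          rw [mem_filter] at hj ⊢
          obtain ⟨hj1, hj2, hj3⟩ := hj
          have hjd := Nat.dvd_of_mem_divisors hj1
          have hj0 := Nat.pos_of_mem_divisors hj1
          have e1 : N / (N / j) = j := Nat.div_div_self hjd hN0
          refine ⟨Nat.mem_divisors.2 ⟨Nat.div_dvd_of_dvd hjd, hN0⟩, ⟨?_, ?_⟩, ?_⟩
          · rw [Nat.lt_div_iff_mul_lt' hjd]
            calc j * y ≤ y * y := Nat.mul_le_mul_right _ hj3
              _ < N := hN
          · rw [e1]; exact hj3
          · rw [e1]; exact hj2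
        · intro k hk
          rw [mem_filter] at hk
          exact Nat.div_div_self (Nat.dvd_of_mem_divisors hk.1) hN0
        · intro j hj
          rw [mem_filter] at hj
          exact Nat.div_div_self (Nat.dvd_of_mem_divisors hj.1) hN0
        · intro k hk
          rw [mem_filter] at hk
          rw [Nat.div_div_self (Nat.dvd_of_mem_divisors hk.1) hN0, if_pos hk.2.2, mul_comm]
      · intro k hk
        rw [mem_filter] at hk
        rw [if_neg hk.2.2, mul_zero]
    · apply sum_congr rfl
      intro k hk
      rw [mem_filter] at hk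
      rw [if_pos (by omega)]
  -- the sum of `betU`
  have s3 : ∑ j ∈ N.divisors, betU U j = ∑ j ∈ N.divisors.filter (fun j => j ≤ U), betU U j +
      ∑ j ∈ N.divisors.filter (fun j => U < j ∧ j ≤ y), betU U j + ∑ j ∈ N.divisors.filter (fun j => y < j), betU U j := by
    have e0 : N.divisors = (N.divisors.filter (fun j => j ≤ U) ∪ N.divisors.filter (fun j => U < j ∧ j ≤ y)) ∪
        N.divisors.filter (fun j => y < j) := by
      ext k
      simp only [mem_union, mem_filter]
      constructor
      · intro h
        by_cases h1 : k ≤ U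
        · exact Or.inl (Or.inl ⟨h, h1⟩)
        · by_cases h2 : k ≤ y
          · exact Or.inl (Or.inr ⟨h, by omega, h2⟩)
          · exact Or.inr ⟨h, by omega⟩
      · rintro ((⟨h, _⟩ | ⟨h, _⟩) | ⟨h, _⟩) <;> exact h
    conv_lhs => rw [e0]
    rw [sum_union, sum_union]
    · rw [disjoint_left]
      intro k hk hk'
      rw [mem_filter] at hk hk'
      omega
    · rw [disjoint_left]
      intro k hk hk'
      rw [mem_union, mem_filter, mem_filter] at hk
      rw [mem_filter] at hk'
      omega
  have hmain : vonMangoldt N - (∑ j ∈ N.divisors.filter (fun j => j ≤ U), ((moebius j : ℝ) * (Real.log N - Real.log j) - betU U j)) -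
      ∑ j ∈ N.divisors.filter (fun j => U < j ∧ j ≤ y), (-betU U j + vonMangoldt j * gam U (N / j) + gam U j * vonMangoldt (N / j)) =
      ∑ k ∈ N.divisors.filter (fun k => y < k ∧ y < N / k), gam U k * vonMangoldt (N / k) -
      ∑ j ∈ N.divisors.filter (fun j => y < j), betU U j := by
    rw [s1, s2, s3] at hv
    rw [sum_sub_distrib, sum_add_distrib, sum_add_distrib, sum_neg_distrib]
    linarith
  rw [hmain]
  -- the bounds
  have hgp : gp z y3 N = (#(N.divisors.filter (fun j => y3 ≤ j ∧ y3 ≤ N / j)) : ℝ) := by
    unfold gp rg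
    rw [if_pos hr, one_mul]
  have hdN : (1 : ℝ) ≤ #N.divisors := by
    exact_mod_cast Nat.one_le_iff_ne_zero.2 (card_pos.2 ⟨1, Nat.one_mem_divisors.2 hN0⟩).ne'
  have b1 : |∑ k ∈ N.divisors.filter (fun k => y < k ∧ y < N / k), gam U k * vonMangoldt (N / k)| ≤
      Real.log N * #N.divisors * gp z y3 N := by
    refine (abs_sum_le_sum_abs _ _).trans ?_
    calc ∑ k ∈ N.divisors.filter (fun k => y < k ∧ y < N / k), |gam U k * vonMangoldt (N / k)|
        ≤ ∑ k ∈ N.divisors.filter (fun k => y < k ∧ y < N / k), Real.log N * #N.divisors := by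
          apply sum_le_sum
          intro k hk
          rw [mem_filter] at hk
          have hkd := Nat.dvd_of_mem_divisors hk.1
          rw [abs_mul, mul_comm]
          apply mul_le_mul _ _ (abs_nonneg _) hlogN
          · rw [abs_of_nonneg ArithmeticFunction.vonMangoldt_nonneg]
            refine ArithmeticFunction.vonMangoldt_le_log.trans ?_
            apply Real.log_le_log
            · exact_mod_cast (by omega : 0 < N / k)
            · exact_mod_cast Nat.div_le_self N k
          · refine (gam_abs U k).trans ?_
            exact_mod_cast card_le_card (Nat.divisors_subset_of_dvd hN0 hkd)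
      _ = Real.log N * #N.divisors * #(N.divisors.filter (fun k => y < k ∧ y < N / k)) := by
          rw [sum_const, nsmul_eq_mul]
          ring
      _ ≤ Real.log N * #N.divisors * gp z y3 N := by
          rw [hgp]
          apply mul_le_mul_of_nonneg_left _ (by positivity)
          have h5 : N.divisors.filter (fun k => y < k ∧ y < N / k) ⊆ N.divisors.filter (fun j => y3 ≤ j ∧ y3 ≤ N / j) := by
            intro k hk
            rw [mem_filter] at hk ⊢
            exact ⟨hk.1, by omega, by omega⟩
          exact_mod_cast card_le_card h5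
  have b2 : |∑ j ∈ N.divisors.filter (fun j => y < j), betU U j| ≤ Real.log N * #N.divisors * gp z y3 N := by
    have e1 : ∑ j ∈ N.divisors.filter (fun j => y < j), betU U j =
        ∑ j ∈ N.divisors.filter (fun j => y < j ∧ j ≤ U * U), betU U j := by
      symm
      apply sum_subset
      · intro k hk
        rw [mem_filter] at hk ⊢
        exact ⟨hk.1, hk.2.1⟩
      · intro k hk hk'
        rw [mem_filter] at hk hk'
        apply betU_zero
        by_contra hcon
        exact hk' ⟨hk.1, hk.2, by omega⟩
    rw [e1]
    refine (abs_sum_le_sum_abs _ _).trans ?_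
    calc ∑ j ∈ N.divisors.filter (fun j => y < j ∧ j ≤ U * U), |betU U j|
        ≤ ∑ j ∈ N.divisors.filter (fun j => y < j ∧ j ≤ U * U), Real.log N := by
          apply sum_le_sum
          intro k hk
          rw [mem_filter] at hk
          refine (betU_abs U k).trans ?_
          apply Real.log_le_log
          · exact_mod_cast Nat.pos_of_mem_divisors hk.1
          · exact_mod_cast Nat.divisor_le hk.1
      _ = Real.log N * 1 * #(N.divisors.filter (fun j => y < j ∧ j ≤ U * U)) := by
          rw [sum_const, nsmul_eq_mul]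
          ring
      _ ≤ Real.log N * #N.divisors * gp z y3 N := by
          rw [hgp]
          have h5 : N.divisors.filter (fun j => y < j ∧ j ≤ U * U) ⊆ N.divisors.filter (fun j => y3 ≤ j ∧ y3 ≤ N / j) := by
            intro k hk
            rw [mem_filter] at hk ⊢
            have hk0 := Nat.pos_of_mem_divisors hk.1
            refine ⟨hk.1, by omega, ?_⟩
            rw [Nat.le_div_iff_mul_le hk0]
            calc y3 * k ≤ y3 * (U * U) := Nat.mul_le_mul_left _ hk.2.2
              _ ≤ N := h4
          have h6 : (#(N.divisors.filter (fun j => y < j ∧ j ≤ U * U)) : ℝ) ≤ #(N.divisors.filter (fun j => y3 ≤ j ∧ y3 ≤ N / j)) := by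
            exact_mod_cast card_le_card h5
          gcongr
  calc |∑ k ∈ N.divisors.filter (fun k => y < k ∧ y < N / k), gam U k * vonMangoldt (N / k) -
      ∑ j ∈ N.divisors.filter (fun j => y < j), betU U j| ≤ Real.log N * #N.divisors * gp z y3 N + Real.log N * #N.divisors * gp z y3 N :=
        (abs_sub _ _).trans (add_le_add b1 b2)
    _ = 2 * Real.log N * (#N.divisors : ℝ) * gp z y3 N := by ring

end Pool.Agent.N792
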