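import Mathlib
import Pool.Agent.N792.Asm
import Pool.Agent.N792.Vau
import Pool.Agent.N792.Gap
import Pool.Agent.N792.Rav
import Pool.Agent.N792.LsLam
import Pool.Agent.N792.ShpA
import Pool.Agent.N792.Mtm2

/-!
The formula for the von Mangoldt function on average over `c`: auxiliary lemmas
(helper566, subtask LAM of helper792).
-/

set_option autoImplicit false

namespace Pool.Agent.N792
open Finset Filter Topology
open ArithmeticFunction (moebius vonMangoldt)

namespace Lam

/-- the choice of the sieve exponent -/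
lemma choose_eta (C4 η0 κ : ℝ) (h4 : 0 < C4) (h0 : 0 < η0) (hκ : 0 < κ) :
    ∃ η : ℝ, 0 < η ∧ η ≤ η0 ∧ η ≤ 1 / 20 ∧ C4 * ((2 : ℝ) ^ (-(1 / (C4 * η))) / η ^ 2) ≤ κ := by
  have ht := tendsto_rpow_mul_exp_neg_mul_atTop_nhds_zero 2 (Real.log 2) (Real.log_pos (by norm_num))
  have h1 : ∀ᶠ u : ℝ in atTop, u ^ (2 : ℝ) * Real.exp (-Real.log 2 * u) < κ / C4 ^ 3 :=
    ht.eventually (gt_mem_nhds (by positivity))
  obtain ⟨u, hu1, hu2, hu3, hu4⟩ := (h1.and ((eventually_ge_atTop (1 / (C4 * η0))).and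
    ((eventually_ge_atTop (20 / C4)).and (eventually_gt_atTop 0)))).exists
  refine ⟨1 / (C4 * u), by positivity, ?_, ?_, ?_⟩
  · rw [div_le_iff₀ (by positivity)] at hu2 ⊢
    linarith
  · rw [div_le_iff₀ (by positivity)] at hu3
    rw [div_le_div_iff₀ (by positivity) (by norm_num)]
    linarith
  · have e1 : 1 / (C4 * (1 / (C4 * u))) = u := by field_simp
    rw [e1]
    have e2 : (2 : ℝ) ^ (-u) = Real.exp (-Real.log 2 * u) := by
      rw [Real.rpow_def_of_pos (by norm_num)]
      congr 1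
      ring
    rw [e2]
    have e3 : (u : ℝ) ^ (2 : ℝ) = u ^ 2 := by norm_cast
    rw [e3, lt_div_iff₀ (by positivity)] at hu1
    calc C4 * (Real.exp (-Real.log 2 * u) / (1 / (C4 * u)) ^ 2) = u ^ 2 * Real.exp (-Real.log 2 * u) * C4 ^ 3 := by
          field_simp
      _ ≤ κ := hu1.le

/-- the coefficients of the type I sum -/
noncomputable def gI (L : ℝ) (U j : ℕ) : ℝ := (moebius j : ℝ) * (2 * L - Real.log j) - betU U j

lemma gI_abs (L : ℝ) (U j : ℕ) (hj : Real.log j ≤ L) : |gI L U j| ≤ 4 * L := by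
  unfold gI
  have h0 : 0 ≤ Real.log j := Real.log_natCast_nonneg j
  have h1 : |(moebius j : ℝ)| ≤ 1 := by
    have := ArithmeticFunction.abs_moebius_le_one (n := j)
    exact_mod_cast this
  have h2 : |(moebius j : ℝ) * (2 * L - Real.log j)| ≤ 2 * L := by
    rw [abs_mul, abs_of_nonneg (by linarith : 0 ≤ 2 * L - Real.log j)]
    calc |(moebius j : ℝ)| * (2 * L - Real.log j) ≤ 1 * (2 * L - Real.log j) :=
          mul_le_mul_of_nonneg_right h1 (by linarith)
      _ ≤ 2 * L := by linarith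
  have h3 := Vau.betU_abs U j
  have h4 := abs_sub ((moebius j : ℝ) * (2 * L - Real.log j)) (betU U j)
  linarith

lemma rg_nonneg (z N : ℕ) : 0 ≤ rg z N := by unfold rg; split_ifs <;> norm_num

lemma gp_nonneg (z y N : ℕ) : 0 ≤ gp z y N := by
  unfold gp
  exact mul_nonneg (rg_nonneg z N) (Nat.cast_nonneg _)

/-- the pointwise error of the decomposition -/
lemma point_bound (z U y y3 N : ℕ) (L K D : ℝ) (hU : 1 ≤ U) (hUy : U ≤ y) (hN : y * y < N) (h3 : y3 ≤ y)
    (h4 : y3 * (U * U) ≤ N) (hK : |Real.log N - 2 * L| ≤ K) (hL : Real.log N ≤ 3 * L)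
    (hD : Rough z N → (#N.divisors : ℝ) ≤ D) :
    |rg z N * vonMangoldt N - rg z N * ∑ j ∈ N.divisors.filter (fun j => j ≤ U), gI L U j -
      rg z N * ∑ j ∈ N.divisors.filter (fun j => U < j ∧ j ≤ y), (fun j => -betU U j) j * (fun _ => (1 : ℝ)) (N / j) -
      rg z N * ∑ j ∈ N.divisors.filter (fun j => U < j ∧ j ≤ y), vonMangoldt j * gam U (N / j) -
      rg z N * ∑ j ∈ N.divisors.filter (fun j => U < j ∧ j ≤ y), gam U j * vonMangoldt (N / j)| ≤
      K * D * rg z N + 6 * L * D * gp z y3 N := by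
  have hL0 : 0 ≤ L := by
    have : 0 ≤ Real.log N := Real.log_natCast_nonneg N
    linarith
  by_cases hr : Rough z N
  · have e1 : rg z N = 1 := by unfold rg; rw [if_pos hr]
    have hv := vaughan_split z U y y3 N hU hUy hN h3 h4 hr
    have hd := hD hr
    rw [e1]
    simp only [one_mul, mul_one]
    have hgp := gp_nonneg z y3 N
    have hlog : 0 ≤ Real.log N := Real.log_natCast_nonneg N
    have hD0 : 0 ≤ D := le_trans (Nat.cast_nonneg _) hd
    have b1 : 2 * Real.log N * (#N.divisors : ℝ) * gp z y3 N ≤ 6 * L * D * gp z y3 N := by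
      apply mul_le_mul_of_nonneg_right _ hgp
      calc 2 * Real.log N * (#N.divisors : ℝ) ≤ 2 * (3 * L) * D := by gcongr
        _ = 6 * L * D := by ring
    have hmu : |∑ j ∈ N.divisors.filter (fun j => j ≤ U), (moebius j : ℝ)| ≤ D := by
      refine (abs_sum_le_sum_abs _ _).trans ?_
      calc ∑ d ∈ N.divisors.filter (fun d => d ≤ U), |(moebius d : ℝ)|
          ≤ ∑ d ∈ N.divisors.filter (fun d => d ≤ U), (1 : ℝ) := by
            apply sum_le_sum
            intro d _
            have := ArithmeticFunction.abs_moebius_le_one (n := d)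
            exact_mod_cast this
        _ = #(N.divisors.filter (fun d => d ≤ U)) := by simp
        _ ≤ #N.divisors := by exact_mod_cast card_filter_le _ _
        _ ≤ D := hd
    have b2 : |(Real.log N - 2 * L) * ∑ j ∈ N.divisors.filter (fun j => j ≤ U), (moebius j : ℝ)| ≤ K * D := by
      rw [abs_mul]
      exact mul_le_mul hK hmu (abs_nonneg _) ((abs_nonneg _).trans hK)
    have e2 : ∑ j ∈ N.divisors.filter (fun j => j ≤ U), ((moebius j : ℝ) * (Real.log N - Real.log j) - betU U j) =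
        ∑ j ∈ N.divisors.filter (fun j => j ≤ U), gI L U j +
          (Real.log N - 2 * L) * ∑ j ∈ N.divisors.filter (fun j => j ≤ U), (moebius j : ℝ) := by
      rw [mul_sum, ← sum_add_distrib]
      apply sum_congr rfl
      intro j _
      unfold gI
      ring
    have e3 : ∑ j ∈ N.divisors.filter (fun j => U < j ∧ j ≤ y), (-betU U j + vonMangoldt j * gam U (N / j) + gam U j * vonMangoldt (N / j)) =
        ∑ j ∈ N.divisors.filter (fun j => U < j ∧ j ≤ y), (-betU U j) +
        ∑ j ∈ N.divisors.filter (fun j => U < j ∧ j ≤ y), vonMangoldt j * gam U (N / j) +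
        ∑ j ∈ N.divisors.filter (fun j => U < j ∧ j ≤ y), gam U j * vonMangoldt (N / j) := by
      rw [sum_add_distrib, sum_add_distrib]
    rw [e2, e3] at hv
    have hv2 := hv.trans b1
    rw [abs_le] at hv2 b2 ⊢
    constructor
    · linarith [hv2.1, hv2.2, b2.1, b2.2]
    · linarith [hv2.1, hv2.2, b2.1, b2.2]
  · have e1 : rg z N = 0 := by unfold rg; rw [if_neg hr]
    have e2 : gp z y3 N = 0 := by unfold gp; rw [e1, zero_mul]
    rw [e1, e2]
    simp

end Lam

end Pool.Agent.N792
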