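import Mathlib
import Pool.Agent.N792.LamA

/-!
The formula for the von Mangoldt function on average over `c`: ranges and combinations
(helper566, subtask LAM of helper792).
-/

set_option autoImplicit false

namespace Pool.Agent.N792
open Finset Filter Topology
open ArithmeticFunction (moebius vonMangoldt)

namespace Lam

/-- the range of the values -/
lemma range_bd (a : ℤ) (ha : 0 < a) (b : ℤ) (R : ℕ) : ∃ c0 A : ℝ, 0 < c0 ∧ 1 ≤ A ∧ ∃ X0 : ℕ, ∀ x : ℕ, X0 ≤ x →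
    ∀ x1 : ℕ, x1 < x → x ≤ R * x1 → b.natAbs ≤ x1 ∧ c0 * (x : ℝ) ^ 2 ≤ Fn a b x1 ∧
      ((Fn a b x : ℕ) : ℝ) + x ≤ A * (x : ℝ) ^ 2 := by
  have har : (1 : ℝ) ≤ a := by exact_mod_cast ha
  refine ⟨1 / (2 * (R + 1) ^ 2), a + |(b : ℝ)| + 1, by positivity, by linarith [abs_nonneg (b : ℝ)],
    2 * b.natAbs * (R + 1) + 1, ?_⟩
  intro x hx x1 hx1 hxR
  have hb1 : 2 * b.natAbs ≤ x1 := by
    by_contra hcon
    have h1 : x1 + 1 ≤ 2 * b.natAbs := by omega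
    have h2 : R * x1 ≤ R * (2 * b.natAbs) := Nat.mul_le_mul_left _ (by omega)
    have h3 : 2 * b.natAbs * (R + 1) = R * (2 * b.natAbs) + 2 * b.natAbs := by ring
    omega
  have hb2 : b.natAbs ≤ x1 := by omega
  have e1 : ((Fn a b x1 : ℕ) : ℝ) = a * x1 ^ 2 + b * x1 := by exact_mod_cast Mtm.Fn_cast (b := b) ha hb2
  have e2 : ((Fn a b x : ℕ) : ℝ) = a * x ^ 2 + b * x := by exact_mod_cast Mtm.Fn_cast (b := b) ha (by omega)
  have hb3 : 2 * |(b : ℝ)| ≤ x1 := by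
    have : ((2 * b.natAbs : ℕ) : ℝ) ≤ x1 := by exact_mod_cast hb1
    push_cast at this
    rwa [Nat.cast_natAbs, Int.cast_abs] at this
  refine ⟨hb2, ?_, ?_⟩
  · rw [e1]
    have h1 : (x : ℝ) ≤ (R + 1) * x1 := by
      have : (x : ℝ) ≤ R * x1 := by exact_mod_cast hxR
      have h0 : (0 : ℝ) ≤ x1 := Nat.cast_nonneg _
      linarith
    have h2 : (x : ℝ) ^ 2 ≤ ((R + 1) * x1) ^ 2 := by
      apply pow_le_pow_left₀ (Nat.cast_nonneg _) h1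
    have h3 : 1 / (2 * ((R : ℝ) + 1) ^ 2) * (x : ℝ) ^ 2 ≤ (x1 : ℝ) ^ 2 / 2 := by
      rw [div_mul_eq_mul_div, div_le_div_iff₀ (by positivity) (by norm_num)]
      nlinarith
    have h4 : -(|(b : ℝ)| * x1) ≤ b * x1 := by
      have := neg_abs_le (b : ℝ)
      have h0 : (0 : ℝ) ≤ x1 := Nat.cast_nonneg _
      nlinarith
    have h5 : |(b : ℝ)| * x1 ≤ x1 ^ 2 / 2 := by
      have h0 : (0 : ℝ) ≤ x1 := Nat.cast_nonneg _
      nlinarith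
    have h6 : (x1 : ℝ) ^ 2 ≤ a * x1 ^ 2 := by
      have h0 : (0 : ℝ) ≤ (x1 : ℝ) ^ 2 := by positivity
      nlinarith
    linarith
  · rw [e2]
    have hx1' : (1 : ℝ) ≤ x := by exact_mod_cast (by omega : 1 ≤ x)
    have h1 : (x : ℝ) ≤ (x : ℝ) ^ 2 := by nlinarith
    have h2 : (b : ℝ) * x ≤ |(b : ℝ)| * x ^ 2 := by
      calc (b : ℝ) * x ≤ |(b : ℝ)| * x := mul_le_mul_of_nonneg_right (le_abs_self _) (by linarith)
        _ ≤ |(b : ℝ)| * x ^ 2 := mul_le_mul_of_nonneg_left h1 (abs_nonneg _)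
    nlinarith

/-- the number of the divisors of rough numbers -/
lemma div_bound {x z N : ℕ} {η : ℝ} (hη : 0 < η) (hx : 2 ≤ x) (hz : (x : ℝ) ^ η ≤ z) (hN : (N : ℝ) ≤ (x : ℝ) ^ 3)
    (hr : Rough z N) : (#N.divisors : ℝ) ≤ (2 : ℝ) ^ (3 / η) := by
  obtain ⟨n, h1, h2⟩ := Shp.card_div_rough hr
  have hx1 : (1 : ℝ) < x := by exact_mod_cast (by omega : 1 < x)
  have h3 : (x : ℝ) ^ (η * n) ≤ (x : ℝ) ^ (3 : ℝ) := by
    rw [Real.rpow_mul (by linarith), Real.rpow_natCast]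
    calc ((x : ℝ) ^ η) ^ n ≤ (z : ℝ) ^ n := pow_le_pow_left₀ (by positivity) hz n
      _ ≤ N := by exact_mod_cast h2
      _ ≤ (x : ℝ) ^ 3 := hN
      _ = (x : ℝ) ^ (3 : ℝ) := by norm_cast
  have h4 : η * n ≤ 3 := (Real.rpow_le_rpow_left_iff hx1).1 h3
  have h5 : (n : ℝ) ≤ 3 / η := by
    rw [le_div_iff₀ hη]
    linarith
  calc (#N.divisors : ℝ) ≤ (2 : ℝ) ^ n := by exact_mod_cast h1
    _ = (2 : ℝ) ^ (n : ℝ) := by rw [Real.rpow_natCast]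
    _ ≤ (2 : ℝ) ^ (3 / η) := Real.rpow_le_rpow_of_exponent_le (by norm_num) h5

/-- sizes of logarithms in the range -/
lemma log_bd {x N : ℕ} {c0 A : ℝ} (hc0 : 0 < c0) (hA : 1 ≤ A) (hx : 1 ≤ x) (h1 : c0 * (x : ℝ) ^ 2 ≤ N)
    (h2 : (N : ℝ) ≤ A * (x : ℝ) ^ 2) (h3 : A ≤ x) :
    |Real.log N - 2 * Real.log x| ≤ |Real.log c0| + Real.log A ∧ Real.log N ≤ 3 * Real.log x ∧
      (N : ℝ) ≤ (x : ℝ) ^ 3 := by
  have hxp : (0 : ℝ) < x := by exact_mod_cast hx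
  have hx2 : (0 : ℝ) < (x : ℝ) ^ 2 := by positivity
  have hNp : (0 : ℝ) < N := lt_of_lt_of_le (by positivity) h1
  have e1 : Real.log (c0 * (x : ℝ) ^ 2) = Real.log c0 + 2 * Real.log x := by
    rw [Real.log_mul hc0.ne' hx2.ne', Real.log_pow]
    push_cast
    ring
  have e2 : Real.log (A * (x : ℝ) ^ 2) = Real.log A + 2 * Real.log x := by
    rw [Real.log_mul (by linarith) hx2.ne', Real.log_pow]
    push_cast
    ring
  have b1 := Real.log_le_log (by positivity) h1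
  have b2 := Real.log_le_log hNp h2
  rw [e1] at b1
  rw [e2] at b2
  have b3 : Real.log A ≤ Real.log x := Real.log_le_log (by linarith) h3
  have b4 := neg_abs_le (Real.log c0)
  have b5 : 0 ≤ Real.log A := Real.log_nonneg hA
  refine ⟨?_, by linarith, ?_⟩
  · rw [abs_le]
    constructor
    · linarith
    · linarith [abs_nonneg (Real.log c0)]
  · calc (N : ℝ) ≤ A * (x : ℝ) ^ 2 := h2
      _ ≤ x * (x : ℝ) ^ 2 := mul_le_mul_of_nonneg_right h3 hx2.le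
      _ = (x : ℝ) ^ 3 := by ring

lemma comb (S T t lG lA l1 l2 l3 lE sG sA s1 s2 s3 sE : ℝ) (hS : 0 ≤ S) (hl : |lG - lA - l1 - l2 - l3| ≤ lE)
    (hs : |sG - sA - s1 - s2 - s3| ≤ sE) (hT : |sG - T| ≤ t) :
    |lG - S * T| ≤ |lA - S * sA| + |l1 - S * s1| + |l2 - S * s2| + |l3 - S * s3| + lE + S * (sE + t) := by
  have e : lG - S * T = (lA - S * sA) + (l1 - S * s1) + (l2 - S * s2) + (l3 - S * s3) + (lG - lA - l1 - l2 - l3) +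
      (S * (-(sG - sA - s1 - s2 - s3)) + S * (sG - T)) := by ring
  rw [e]
  have h1 : |S * (-(sG - sA - s1 - s2 - s3)) + S * (sG - T)| ≤ S * (sE + t) := by
    rw [← mul_add, abs_mul, abs_of_nonneg hS]
    apply mul_le_mul_of_nonneg_left _ hS
    refine (abs_add_le _ _).trans ?_
    rw [abs_neg]
    exact add_le_add hs hT
  have h2 := abs_add_le ((lA - S * sA) + (l1 - S * s1) + (l2 - S * s2) + (l3 - S * s3) + (lG - lA - l1 - l2 - l3))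
    (S * (-(sG - sA - s1 - s2 - s3)) + S * (sG - T))
  have h3 := abs_add_le ((lA - S * sA) + (l1 - S * s1) + (l2 - S * s2) + (l3 - S * s3)) (lG - lA - l1 - l2 - l3)
  have h4 := abs_add_le ((lA - S * sA) + (l1 - S * s1) + (l2 - S * s2)) (l3 - S * s3)
  have h5 := abs_add_le ((lA - S * sA) + (l1 - S * s1)) (l2 - S * s2)
  have h6 := abs_add_le (lA - S * sA) (l1 - S * s1)
  linarith

lemma Lc_comb (a b : ℤ) (x1 x c : ℕ) (G A B1 B2 B3 E : ℕ → ℝ)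
    (h : ∀ n ∈ Ioc x1 x, |G (fv a b c n).toNat - A (fv a b c n).toNat - B1 (fv a b c n).toNat -
      B2 (fv a b c n).toNat - B3 (fv a b c n).toNat| ≤ E (fv a b c n).toNat) :
    |Lc a b x1 x c G - Lc a b x1 x c A - Lc a b x1 x c B1 - Lc a b x1 x c B2 - Lc a b x1 x c B3| ≤ Lc a b x1 x c E := by
  unfold Lc
  rw [← sum_sub_distrib, ← sum_sub_distrib, ← sum_sub_distrib, ← sum_sub_distrib]
  exact (abs_sum_le_sum_abs _ _).trans (sum_le_sum h)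

lemma Ls_comb (a b : ℤ) (x1 x : ℕ) (G A B1 B2 B3 E : ℕ → ℝ)
    (h : ∀ N ∈ Ioc (Fn a b x1) (Fn a b x), |G N - A N - B1 N - B2 N - B3 N| ≤ E N) :
    |Ls a b x1 x G - Ls a b x1 x A - Ls a b x1 x B1 - Ls a b x1 x B2 - Ls a b x1 x B3| ≤ Ls a b x1 x E := by
  unfold Ls
  rw [← sum_sub_distrib, ← sum_sub_distrib, ← sum_sub_distrib, ← sum_sub_distrib]
  refine (abs_sum_le_sum_abs _ _).trans (sum_le_sum fun N hN => ?_)
  have e : G N * hw a N - A N * hw a N - B1 N * hw a N - B2 N * hw a N - B3 N * hw a N =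
      (G N - A N - B1 N - B2 N - B3 N) * hw a N := by ring
  rw [e, abs_mul, abs_of_nonneg (Mtm.hw_nonneg a N)]
  exact mul_le_mul_of_nonneg_right (h N hN) (Mtm.hw_nonneg a N)

lemma Lc_lin2 (a b : ℤ) (x1 x c z y : ℕ) (u v : ℝ) :
    Lc a b x1 x c (fun N => u * rg z N + v * gp z y N) = u * Lc a b x1 x c (rg z) + v * Lc a b x1 x c (gp z y) := by
  unfold Lc
  rw [sum_add_distrib, mul_sum, mul_sum]

lemma Ls_lin2 (a b : ℤ) (x1 x z y : ℕ) (u v : ℝ) :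
    Ls a b x1 x (fun N => u * rg z N + v * gp z y N) = u * Ls a b x1 x (rg z) + v * Ls a b x1 x (gp z y) := by
  unfold Ls
  rw [mul_sum, mul_sum, ← sum_add_distrib]
  apply sum_congr rfl
  intro N _
  ring

lemma Vc_nonneg (a b c : ℤ) (z : ℕ) : 0 ≤ Vc a b c z := by
  unfold Vc
  apply prod_nonneg
  intro p hp
  have hp0 : (0 : ℝ) < p := by exact_mod_cast (mem_filter.1 hp).2.pos
  rw [sub_nonneg, div_le_one hp0]
  have h1 : rho a b c p ≤ p := by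
    unfold rho
    exact (card_filter_le _ _).trans (by rw [card_range])
  exact_mod_cast h1

/-- the weighted number of rough numbers -/
lemma ls_rg (a : ℤ) (ha : 0 < a) (b : ℤ) (R : ℕ) : ∃ K : ℝ, 0 < K ∧ ∀ η : ℝ, 0 < η → η ≤ 1 / 10 →
    ∃ x0 : ℕ, ∀ x : ℕ, x0 ≤ x → ∀ x1 z : ℕ, x1 < x → x ≤ R * x1 → (x : ℝ) ^ η ≤ z →
    Ls a b x1 x (rg z) ≤ K * x / (η * Real.log x) := by
  classical
  obtain ⟨C0, hC0, H⟩ := rough_count
  obtain ⟨c0, A, hc0, hA, X0, hX0⟩ := range_bd a ha b R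
  have har : (1 : ℝ) ≤ a := by exact_mod_cast ha
  have hAp : 0 < A := by linarith
  have hsc0 : 0 < √c0 := Real.sqrt_pos.2 hc0
  refine ⟨C0 * (A + 1) * (1 / √c0), mul_pos (mul_pos hC0 (by linarith)) (one_div_pos.2 hsc0), fun η hη hη1 => ?_⟩
  obtain ⟨x0, hx0⟩ := H η hη hη1
  refine ⟨max (max x0 X0) 3, fun x hx x1 z hx1 hxR hz => ?_⟩
  obtain ⟨hb, h1, h2⟩ := hX0 x (by omega) x1 hx1 hxR
  have hH := hx0 x (by omega) z hz (Fn a b x1) (Fn a b x) (Mtm.Fn_mono ha hb hx1.le)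
  have hx3 : (3 : ℝ) ≤ x := by exact_mod_cast (by omega : 3 ≤ x)
  have hxp : (0 : ℝ) < x := by linarith
  have hL : 0 < Real.log x := Real.log_pos (by linarith)
  have hsc : 0 < √c0 := Real.sqrt_pos.2 hc0
  have hw1 : ∀ N ∈ Ioc (Fn a b x1) (Fn a b x), hw a N ≤ 1 / √c0 / x := by
    intro N hN
    rw [mem_Ioc] at hN
    have h3 : c0 * (x : ℝ) ^ 2 ≤ N := h1.trans (by exact_mod_cast hN.1.le)
    have h4 : √c0 * x ≤ √((a : ℝ) * N) := by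
      apply Real.le_sqrt_of_sq_le
      rw [mul_pow, Real.sq_sqrt hc0.le]
      have hN0 : (0 : ℝ) ≤ N := Nat.cast_nonneg _
      nlinarith
    unfold hw
    have h5 : 0 < √((a : ℝ) * N) := lt_of_lt_of_le (mul_pos hsc hxp) h4
    rw [div_div, div_le_div_iff₀ (by positivity) (by positivity)]
    linarith
  have hs : Ls a b x1 x (rg z) ≤ (1 / √c0 / x) * (#((Ioc (Fn a b x1) (Fn a b x)).filter (fun k => Rough z k)) : ℝ) := by
    unfold Ls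
    rw [card_filter]
    push_cast
    rw [mul_sum]
    apply sum_le_sum
    intro N hN
    unfold rg
    split_ifs
    · rw [one_mul, mul_one]
      exact hw1 N hN
    · simp
  refine hs.trans ?_
  have h6 : ((Fn a b x : ℕ) : ℝ) - (Fn a b x1 : ℕ) + (x : ℝ) ^ (1 / 15 : ℝ) ≤ (A + 1) * x ^ 2 := by
    have h7 : (x : ℝ) ^ (1 / 15 : ℝ) ≤ (x : ℝ) ^ 2 := by
      have : (x : ℝ) ^ (1 / 15 : ℝ) ≤ (x : ℝ) ^ (2 : ℝ) :=
        Real.rpow_le_rpow_of_exponent_le (by linarith) (by norm_num)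
      calc _ ≤ _ := this
        _ = (x : ℝ) ^ 2 := by norm_cast
    have h8 : (0 : ℝ) ≤ (Fn a b x1 : ℕ) := Nat.cast_nonneg _
    linarith
  calc (1 / √c0 / x) * (#((Ioc (Fn a b x1) (Fn a b x)).filter (fun k => Rough z k)) : ℝ)
      ≤ (1 / √c0 / x) * (C0 * ((((Fn a b x : ℕ) : ℝ) - (Fn a b x1 : ℕ)) + (x : ℝ) ^ (1 / 15 : ℝ)) / (η * Real.log x)) :=
        mul_le_mul_of_nonneg_left hH (by positivity)
    _ ≤ (1 / √c0 / x) * (C0 * ((A + 1) * x ^ 2) / (η * Real.log x)) := by gcongr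
    _ = C0 * (A + 1) * (1 / √c0) * x / (η * Real.log x) := by field_simp

/-- powers -/
lemma pow_ev (c α β : ℝ) (h : α < β) : ∀ᶠ x : ℕ in atTop, c * (x : ℝ) ^ α ≤ (x : ℝ) ^ β := by
  have h1 := Shp.log_pow_le 0 c (β - α) (by linarith)
  filter_upwards [h1, eventually_ge_atTop 1] with x hx hx1
  have hxp : (0 : ℝ) < x := by exact_mod_cast hx1
  rw [pow_zero, mul_one] at hx
  calc c * (x : ℝ) ^ α ≤ (x : ℝ) ^ (β - α) * (x : ℝ) ^ α :=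
        mul_le_mul_of_nonneg_right hx (by positivity)
    _ = (x : ℝ) ^ β := by rw [← Real.rpow_add hxp]; congr 1; ring

/-- the parameters -/
lemma params (ε c0 : ℝ) (hε : 0 < ε) (hε1 : ε ≤ 1 / 100) (hc0 : 0 < c0) : ∀ᶠ x : ℕ in atTop,
    ∃ U y y3 : ℕ, 1 ≤ U ∧ U ≤ y ∧ y3 ≤ y ∧ (x : ℝ) ^ (1 / 2 + 2 * ε) ≤ U ∧ (U : ℝ) ≤ (x : ℝ) ^ (3 / 4 : ℝ) ∧
      (y : ℝ) ≤ (x : ℝ) ^ (1 - 2 * ε) ∧ (x : ℝ) ^ (1 - 5 * ε) ≤ y3 ∧
      ((y * y : ℕ) : ℝ) ≤ c0 * x ^ 2 ∧ ((y3 * (U * U) : ℕ) : ℝ) ≤ c0 * x ^ 2 := by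
  filter_upwards [pow_ev 2 (1 / 2 + 2 * ε) (3 / 4) (by linarith), pow_ev 2 (1 - 5 * ε) (1 - 2 * ε) (by linarith),
    pow_ev (1 / c0) (2 - 4 * ε) 2 (by linarith), pow_ev (8 / c0) (2 - ε) 2 (by linarith),
    eventually_ge_atTop 1] with x h1 h2 h3 h4 hx1
  have hxr : (1 : ℝ) ≤ x := by exact_mod_cast hx1
  have hxp : (0 : ℝ) < x := by linarith
  have k1 : (1 : ℝ) ≤ (x : ℝ) ^ (1 / 2 + 2 * ε) := Real.one_le_rpow hxr (by linarith)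
  have k2 : (1 : ℝ) ≤ (x : ℝ) ^ (1 - 5 * ε) := Real.one_le_rpow hxr (by linarith)
  have hU2 : ((⌈(x : ℝ) ^ (1 / 2 + 2 * ε)⌉₊ : ℕ) : ℝ) ≤ 2 * (x : ℝ) ^ (1 / 2 + 2 * ε) := by
    have := Nat.ceil_lt_add_one (by linarith : 0 ≤ (x : ℝ) ^ (1 / 2 + 2 * ε))
    linarith
  have hY2 : ((⌈(x : ℝ) ^ (1 - 5 * ε)⌉₊ : ℕ) : ℝ) ≤ 2 * (x : ℝ) ^ (1 - 5 * ε) := by
    have := Nat.ceil_lt_add_one (by linarith : 0 ≤ (x : ℝ) ^ (1 - 5 * ε))
    linarith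
  have hy : ((⌊(x : ℝ) ^ (1 - 2 * ε)⌋₊ : ℕ) : ℝ) ≤ (x : ℝ) ^ (1 - 2 * ε) := Nat.floor_le (by positivity)
  have h34 : (x : ℝ) ^ (3 / 4 : ℝ) ≤ (x : ℝ) ^ (1 - 2 * ε) := Real.rpow_le_rpow_of_exponent_le hxr (by linarith)
  have x2 : (x : ℝ) ^ (2 : ℝ) = (x : ℝ) ^ 2 := by norm_cast
  refine ⟨⌈(x : ℝ) ^ (1 / 2 + 2 * ε)⌉₊, ⌊(x : ℝ) ^ (1 - 2 * ε)⌋₊, ⌈(x : ℝ) ^ (1 - 5 * ε)⌉₊, ?_, ?_, ?_,
    Nat.le_ceil _, hU2.trans h1, hy, Nat.le_ceil _, ?_, ?_⟩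
  · exact Nat.one_le_iff_ne_zero.2 (Nat.ceil_pos.2 (by linarith)).ne'
  · exact Nat.le_floor ((hU2.trans h1).trans h34)
  · exact Nat.le_floor (hY2.trans h2)
  · rw [x2, div_mul_eq_mul_div, one_mul, div_le_iff₀ hc0] at h3
    push_cast
    calc ((⌊(x : ℝ) ^ (1 - 2 * ε)⌋₊ : ℕ) : ℝ) * ((⌊(x : ℝ) ^ (1 - 2 * ε)⌋₊ : ℕ) : ℝ)
        ≤ (x : ℝ) ^ (1 - 2 * ε) * (x : ℝ) ^ (1 - 2 * ε) := by gcongr
      _ = (x : ℝ) ^ (2 - 4 * ε) := by rw [← Real.rpow_add hxp]; congr 1; ring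
      _ ≤ c0 * x ^ 2 := by linarith
  · rw [x2, div_mul_eq_mul_div, div_le_iff₀ hc0] at h4
    push_cast
    calc ((⌈(x : ℝ) ^ (1 - 5 * ε)⌉₊ : ℕ) : ℝ) * (((⌈(x : ℝ) ^ (1 / 2 + 2 * ε)⌉₊ : ℕ) : ℝ) * ((⌈(x : ℝ) ^ (1 / 2 + 2 * ε)⌉₊ : ℕ) : ℝ))
        ≤ (2 * (x : ℝ) ^ (1 - 5 * ε)) * ((2 * (x : ℝ) ^ (1 / 2 + 2 * ε)) * (2 * (x : ℝ) ^ (1 / 2 + 2 * ε))) := by gcongr
      _ = 8 * ((x : ℝ) ^ (1 - 5 * ε) * ((x : ℝ) ^ (1 / 2 + 2 * ε) * (x : ℝ) ^ (1 / 2 + 2 * ε))) := by ring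
      _ = 8 * (x : ℝ) ^ (2 - ε) := by
          rw [← Real.rpow_add hxp, ← Real.rpow_add hxp]
          congr 2
          ring
      _ ≤ c0 * x ^ 2 := by linarith

end Lam

end Pool.Agent.N792
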