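import Mathlib
import Pool.Agent.N792.BS
import Pool.Agent.N792.QStm

/-!
The joint double large sieve (helper792).
-/

set_option autoImplicit false
set_option maxHeartbeats 4000000

namespace Pool.Agent.N792
open Finset Filter Topology
open Pool.Agent.H469R2.NK (e norm_e e_add e_zero)

/-- the grid sums for the points `θ √s` -/
lemma grid_sqrt {K q J' : ℕ} {θ Y k w : ℝ} {S : Finset ℕ} (hq : 1 ≤ q) (hqK : q ≤ K) (hθ : 0 < θ) (hJ'1 : 1 ≤ J')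
    (hk : k = √(K : ℝ)) (hw : w = √(2 : ℝ)) (hY : Y = θ * (w * k))
    (hS : ∀ s ∈ S, K < s ∧ s ≤ 2 * K) (hSc : ∀ s ∈ S, ∀ s' ∈ S, s ≡ s' [MOD q]) :
    ∑ s ∈ S, ∑ s' ∈ S, ‖∑ p ∈ range (2 * J'), e (1 / (4 * Y) * p * (θ * √(s : ℝ) - θ * √(s' : ℝ)))‖ ^ 2 ≤
      J' * (3 * ((K : ℝ) / q) * (4 * J' + 128 * (K / q))) := by
  have hq0 : (0 : ℝ) < q := by exact_mod_cast hq
  have hK0 : (0 : ℝ) < K := by exact_mod_cast (show 0 < K by omega)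
  have hk0 : 0 < k := by rw [hk]; exact Real.sqrt_pos.2 hK0
  have hw0 : 0 < w := by rw [hw]; positivity
  have hkk : k * k = K := by rw [hk]; exact Real.mul_self_sqrt hK0.le
  have hww : w * w = 2 := by rw [hw]; exact Real.mul_self_sqrt (by norm_num)
  have hsle : ∀ s ∈ S, √(s : ℝ) ≤ w * k := by
    intro s hs
    rw [hw, hk, ← Real.sqrt_mul (by norm_num)]
    apply Real.sqrt_le_sqrt
    exact_mod_cast (hS s hs).2
  have hY0 : 0 < Y := by rw [hY]; positivity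
  have hJ'0 : (0 : ℝ) < J' := by exact_mod_cast hJ'1
  have hScard := bs_card S K q hq hqK hS hSc
  have h2 : ∀ s ∈ S, ∑ s' ∈ S, ‖∑ p ∈ range (2 * J'), e (1 / (4 * Y) * p * (θ * √(s : ℝ) - θ * √(s' : ℝ)))‖ ^ 2 ≤
      4 * (J' : ℝ) ^ 2 + 128 * J' * (K / q) := by
    intro s hs
    obtain ⟨F, hF⟩ : ∃ F : ℕ → ℝ, F = fun s' : ℕ => ‖∑ p ∈ range (2 * J'),
      e (1 / (4 * Y) * p * (θ * √(s : ℝ) - θ * √(s' : ℝ)))‖ := ⟨_, rfl⟩
    have hFt : ∀ s', F s' ≤ 2 * J' := by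
      intro s'
      rw [hF]
      refine (norm_sum_le _ _).trans ?_
      simp only [norm_e, Finset.sum_const, card_range, nsmul_eq_mul, mul_one]
      push_cast; exact le_rfl
    have hF0 : ∀ s', 0 ≤ F s' := by intro s'; rw [hF]; exact norm_nonneg _
    have hFd : ∀ s' ∈ S, s' ≠ s → F s' * |(s : ℝ) - s'| ≤ 8 * K := by
      intro s' hs' hne
      obtain ⟨t, ht⟩ : ∃ t : ℝ, t = 1 / (4 * Y) * (θ * √(s : ℝ) - θ * √(s' : ℝ)) := ⟨_, rfl⟩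
      have hteq : t = (√(s : ℝ) - √(s' : ℝ)) / (4 * (w * k)) := by
        rw [ht, hY]; field_simp
      have hsne : (s : ℝ) - s' ≠ 0 := by
        rw [sub_ne_zero]
        intro h
        exact hne (by exact_mod_cast h.symm)
      have hsqr : (s : ℝ) - s' = (√(s : ℝ) - √(s' : ℝ)) * (√(s : ℝ) + √(s' : ℝ)) := by
        have a1 := Real.mul_self_sqrt (Nat.cast_nonneg (α := ℝ) s)
        have a2 := Real.mul_self_sqrt (Nat.cast_nonneg (α := ℝ) s')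
        nlinarith
      have hne2 : √(s : ℝ) - √(s' : ℝ) ≠ 0 := by
        intro h; rw [h, zero_mul] at hsqr; exact hsne hsqr
      have ht0 : t ≠ 0 := by rw [hteq]; exact div_ne_zero hne2 (by positivity)
      have htle : |t| ≤ 1 / 4 := by
        rw [hteq, abs_div, abs_of_pos (show 0 < 4 * (w * k) by positivity), div_le_div_iff₀ (by positivity) (by norm_num)]
        have h1 := hsle s hs
        have h2 := hsle s' hs'
        have h3 : |√(s : ℝ) - √(s' : ℝ)| ≤ w * k := by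
          rw [abs_le]
          constructor <;> linarith [Real.sqrt_nonneg (s : ℝ), Real.sqrt_nonneg (s' : ℝ)]
        linarith
      have hg := bs_geom (2 * J') t htle ht0
      have hFe : F s' = ‖∑ p ∈ range (2 * J'), e (p * t)‖ := by
        rw [hF]
        simp only
        congr 2
        funext p
        rw [ht]; congr 1; ring
      rw [hFe]
      have htabs : 0 < |t| := abs_pos.2 ht0
      have hst : |(s : ℝ) - s'| ≤ 16 * K * |t| := by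
        rw [hsqr, abs_mul, abs_of_nonneg (show 0 ≤ √(s : ℝ) + √(s' : ℝ) by positivity), hteq, abs_div,
          abs_of_pos (show 0 < 4 * (w * k) by positivity)]
        have h1 := hsle s hs
        have h2 := hsle s' hs'
        calc |√(s : ℝ) - √(s' : ℝ)| * (√(s : ℝ) + √(s' : ℝ)) ≤ |√(s : ℝ) - √(s' : ℝ)| * (w * k + w * k) := by gcongr
          _ = 16 * (k * k) * (|√(s : ℝ) - √(s' : ℝ)| / (4 * (w * k))) * ((w * w) / 2) := by
              field_simp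
              ring
          _ = _ := by rw [hkk, hww]; ring
      calc _ ≤ 1 / (2 * |t|) * (16 * K * |t|) := by gcongr
        _ = 8 * K := by field_simp; ring
    obtain ⟨a1, ha1⟩ : ∃ a1 : ℝ, a1 = 2 * J' := ⟨_, rfl⟩
    obtain ⟨b1, hb1⟩ : ∃ b1 : ℝ, b1 = 8 * (K / q) := ⟨_, rfl⟩
    have ha10 : 0 < a1 := by rw [ha1]; positivity
    have hb10 : 0 < b1 := by rw [hb1]; positivity
    have hFG : ∀ s' ∈ S, s' ≠ s → ∀ m : ℕ, (q : ℝ) * m = |(s : ℝ) - s'| →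
        F s' ^ 2 ≤ 4 * a1 ^ 2 * b1 ^ 2 / (b1 + a1 * m) ^ 2 := by
      intro s' hs' hne m hm
      have h1 := hFd s' hs' hne
      rw [← hm] at h1
      have h2 : F s' * m ≤ b1 := by
        rw [hb1, ← mul_div_assoc, le_div_iff₀ hq0]
        linarith
      have h3 : F s' ≤ a1 := by rw [ha1]; exact hFt s'
      have h4 : F s' * (b1 + a1 * m) ≤ 2 * a1 * b1 := by nlinarith [hF0 s']
      rw [le_div_iff₀ (by positivity), ← mul_pow]
      calc (F s' * (b1 + a1 * m)) ^ 2 ≤ (2 * a1 * b1) ^ 2 := by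
            apply pow_le_pow_left₀ _ h4
            have := hF0 s'
            positivity
        _ = _ := by ring
    have h3 := bs_two_sided S s q K hq (fun m => 4 * a1 ^ 2 * b1 ^ 2 / (b1 + a1 * m) ^ 2) (fun s' => F s' ^ 2)
      (a1 ^ 2) (by positivity) (fun m => by positivity) (fun s' hs' => hSc s hs s' hs')
      (fun s' hs' => by
        refine (Nat.div_le_self _ _).trans ?_
        have := hS s hs; have := hS s' hs'; omega)
      (fun s' hs' => by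
        refine (Nat.div_le_self _ _).trans ?_
        have := hS s hs; have := hS s' hs'; omega)
      (fun _ => by
        apply pow_le_pow_left₀ (hF0 s)
        rw [ha1]; exact hFt s)
      (fun s' hs' hlt => by
        apply hFG s' hs' (by omega)
        have hd := (Nat.modEq_iff_dvd' hlt.le).1 (hSc s hs s' hs')
        have h5 := Nat.mul_div_cancel' hd
        rw [← Nat.cast_mul, h5, Nat.cast_sub hlt.le, abs_sub_comm, abs_of_nonneg]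
        have : (s : ℝ) ≤ s' := by exact_mod_cast hlt.le
        linarith)
      (fun s' hs' hlt => by
        apply hFG s' hs' (by omega)
        have hd := (Nat.modEq_iff_dvd' hlt.le).1 (hSc s hs s' hs').symm
        have h5 := Nat.mul_div_cancel' hd
        rw [← Nat.cast_mul, h5, Nat.cast_sub hlt.le, abs_of_nonneg]
        have : (s' : ℝ) ≤ s := by exact_mod_cast hlt.le
        linarith)
    have h4 := bs_tail a1 b1 ha10 hb10 K
    have h5 : ∑ s' ∈ S, F s' ^ 2 ≤ 4 * (J' : ℝ) ^ 2 + 128 * J' * (K / q) := by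
      calc _ ≤ _ := h3
        _ ≤ a1 ^ 2 + 2 * (4 * (a1 * b1)) := by linarith
        _ = _ := by rw [ha1, hb1]; ring
    rw [hF] at h5
    exact h5
  calc _ ≤ ∑ _s ∈ S, (4 * (J' : ℝ) ^ 2 + 128 * J' * (K / q)) := Finset.sum_le_sum h2
    _ = #S * (4 * (J' : ℝ) ^ 2 + 128 * J' * (K / q)) := by rw [Finset.sum_const, nsmul_eq_mul]
    _ ≤ (3 * ((K : ℝ) / q)) * (4 * (J' : ℝ) ^ 2 + 128 * J' * (K / q)) := by gcongr
    _ = _ := by ring


theorem bsj (hQ1 : Q1) : ∀ (a n H K t r : ℕ) (A B : ℝ) (R : Finset (ℕ × ℕ)) (S : Finset ℕ) (al : ℕ × ℕ → ℂ) (be : ℕ → ℂ),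
    1 ≤ a → 1 ≤ n → n ≤ H → H ≤ K → 4 * a * n ≤ K → 0 ≤ A → 0 ≤ B → R ⊆ PP a n H K t r →
    (∀ s ∈ S, K < s ∧ s ≤ 2 * K) → (∀ s ∈ S, ∀ s' ∈ S, s ≡ s' [MOD 4 * a * n]) →
    (∀ p ∈ R, ‖al p‖ ≤ A) → (∀ s ∈ S, ‖be s‖ ≤ B) →
    ‖∑ p ∈ R, ∑ s ∈ S, al p * be s * e ((p.1 : ℝ) / (2 * a * (n : ℝ) ^ 2) * (√(p.2 : ℝ) * √(s : ℝ)))‖ ^ 2 ≤
      10000 * (A * B) ^ 2 * ((K : ℝ) / (a * n)) * ((H : ℝ) * K / (a * (n : ℝ) ^ 2)) *
        ((H : ℝ) * K / (a * (n : ℝ) ^ 2) + (H : ℝ) ^ 3 / n) := by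
  intro a n H K t r A B R S al be ha hn hnH hHK hqK hA0 hB0 hR hS hSc hA hB
  have haR : (1 : ℝ) ≤ a := by exact_mod_cast ha
  have hnR : (1 : ℝ) ≤ n := by exact_mod_cast hn
  have hnHR : (n : ℝ) ≤ H := by exact_mod_cast hnH
  have hHR : (1 : ℝ) ≤ H := by linarith
  have hHKR : (H : ℝ) ≤ K := by exact_mod_cast hHK
  have hK0 : (0 : ℝ) < K := by linarith
  have hqKR : 4 * (a : ℝ) * n ≤ K := by exact_mod_cast hqK
  have hq : 1 ≤ 4 * a * n := Nat.mul_pos (Nat.mul_pos (by norm_num) ha) hn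
  obtain ⟨k, hk⟩ : ∃ k : ℝ, k = √(K : ℝ) := ⟨_, rfl⟩
  obtain ⟨w, hw⟩ : ∃ w : ℝ, w = √(2 : ℝ) := ⟨_, rfl⟩
  have hk0 : 0 < k := by rw [hk]; exact Real.sqrt_pos.2 hK0
  have hw0 : 0 < w := by rw [hw]; positivity
  have hkk : k * k = K := by rw [hk]; exact Real.mul_self_sqrt hK0.le
  have hww : w * w = 2 := by rw [hw]; exact Real.mul_self_sqrt (by norm_num)
  have hsle : ∀ s : ℕ, s ≤ 2 * K → √(s : ℝ) ≤ w * k := by
    intro s hs
    rw [hw, hk, ← Real.sqrt_mul (by norm_num)]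
    apply Real.sqrt_le_sqrt
    exact_mod_cast hs
  obtain ⟨θ, hθ⟩ : ∃ θ : ℝ, θ = 1 / (2 * a * (n : ℝ) ^ 2) := ⟨_, rfl⟩
  have hθ0 : 0 < θ := by rw [hθ]; positivity
  obtain ⟨Y, hY⟩ : ∃ Y : ℝ, Y = θ * (w * k) := ⟨_, rfl⟩
  have hY0 : 0 < Y := by rw [hY]; positivity
  obtain ⟨Z, hZ⟩ : ∃ Z : ℝ, Z = (H : ℝ) * K / (a * (n : ℝ) ^ 2) := ⟨_, rfl⟩
  have hZθ : Z = 2 * θ * H * K := by rw [hZ, hθ]; field_simp
  have hZ1 : 4 ≤ Z := by
    rw [hZ, le_div_iff₀ (by positivity)]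
    calc 4 * ((a : ℝ) * (n : ℝ) ^ 2) = n * (4 * a * n) := by ring
      _ ≤ H * K := mul_le_mul hnHR hqKR (by positivity) (by linarith)
  obtain ⟨J', hJ'⟩ : ∃ J' : ℕ, J' = ⌊8 * Z⌋₊ + 1 := ⟨_, rfl⟩
  have hJ'1 : 1 ≤ J' := by omega
  have hJ'lt : 8 * Z < J' := by rw [hJ']; push_cast; exact Nat.lt_floor_add_one _
  have hJ'le : (J' : ℝ) ≤ 8 * Z + 1 := by
    rw [hJ']; push_cast
    have := Nat.floor_le (show 0 ≤ 8 * Z by linarith)
    linarith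
  have hmem : ∀ p ∈ R, (H ≤ p.1 ∧ p.1 < 2 * H) ∧ (K < p.2 ∧ p.2 ≤ 2 * K) := by
    intro p hp
    have h1 := hR hp
    unfold PP at h1
    rw [mem_filter, mem_product, mem_Ico, mem_Ioc] at h1
    exact h1.1
  have hx : ∀ p ∈ R, 0 ≤ (p.1 : ℝ) * √(p.2 : ℝ) ∧ (p.1 : ℝ) * √(p.2 : ℝ) * (4 * Y) < J' := by
    intro p hp
    obtain ⟨⟨h1, h2⟩, h3, h4⟩ := hmem p hp
    refine ⟨by positivity, ?_⟩
    have h5 : (p.1 : ℝ) ≤ 2 * H := by exact_mod_cast h2.le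
    calc (p.1 : ℝ) * √(p.2 : ℝ) * (4 * Y) ≤ (2 * H) * (w * k) * (4 * Y) := by
          gcongr
          exact hsle _ h4
      _ = 8 * H * θ * (w * w) * (k * k) := by rw [hY]; ring
      _ = 8 * Z := by rw [hww, hkk, hZθ]; ring
      _ < J' := hJ'lt
  have hy : ∀ s ∈ S, 0 ≤ θ * √(s : ℝ) ∧ θ * √(s : ℝ) ≤ Y := by
    intro s hs
    refine ⟨by positivity, ?_⟩
    rw [hY]
    gcongr
    exact hsle s (hS s hs).2
  have hNx : (#((R ×ˢ R).filter (fun v => |(v.1.1 : ℝ) * √(v.1.2 : ℝ) - (v.2.1 : ℝ) * √(v.2.2 : ℝ)| ≤ 1 / (4 * Y))) : ℝ) ≤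
      8 * (Z + (H : ℝ) ^ 3 / n) := by
    rw [hZ]
    refine le_trans ?_ (hQ1 a n H K t r ha hn hnH hHK hqK)
    have hsub : (R ×ˢ R).filter (fun v => |(v.1.1 : ℝ) * √(v.1.2 : ℝ) - (v.2.1 : ℝ) * √(v.2.2 : ℝ)| ≤ 1 / (4 * Y)) ⊆
        (PP a n H K t r ×ˢ PP a n H K t r).filter (fun v : (ℕ × ℕ) × (ℕ × ℕ) =>
          |(v.1.1 : ℤ) ^ 2 * (v.1.2 : ℤ) - (v.2.1 : ℤ) ^ 2 * (v.2.2 : ℤ)| ≤ 2 * (a : ℤ) * H * (n : ℤ) ^ 2) := by
      intro v hv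
      rw [mem_filter, mem_product] at hv ⊢
      obtain ⟨⟨h1, h2⟩, h3⟩ := hv
      refine ⟨⟨hR h1, hR h2⟩, ?_⟩
      obtain ⟨⟨_, g2⟩, _, g4⟩ := hmem _ h1
      obtain ⟨⟨_, g2'⟩, _, g4'⟩ := hmem _ h2
      have g2r : (v.1.1 : ℝ) ≤ 2 * H := by exact_mod_cast g2.le
      have g2r' : (v.2.1 : ℝ) ≤ 2 * H := by exact_mod_cast g2'.le
      have k1 := hsle _ g4
      have k2 := hsle _ g4'
      have s1 := Real.mul_self_sqrt (Nat.cast_nonneg (α := ℝ) v.1.2)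
      have s2 := Real.mul_self_sqrt (Nat.cast_nonneg (α := ℝ) v.2.2)
      have h5 : ((v.1.1 : ℝ) ^ 2 * (v.1.2 : ℝ) - (v.2.1 : ℝ) ^ 2 * (v.2.2 : ℝ)) =
          ((v.1.1 : ℝ) * √(v.1.2 : ℝ) - (v.2.1 : ℝ) * √(v.2.2 : ℝ)) *
          ((v.1.1 : ℝ) * √(v.1.2 : ℝ) + (v.2.1 : ℝ) * √(v.2.2 : ℝ)) := by
        calc _ = (v.1.1 : ℝ) ^ 2 * (√(v.1.2 : ℝ) * √(v.1.2 : ℝ)) - (v.2.1 : ℝ) ^ 2 * (√(v.2.2 : ℝ) * √(v.2.2 : ℝ)) := by
              rw [s1, s2]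
          _ = _ := by ring
      have h6 : |((v.1.1 : ℝ) ^ 2 * (v.1.2 : ℝ) - (v.2.1 : ℝ) ^ 2 * (v.2.2 : ℝ))| ≤ 2 * a * H * (n : ℝ) ^ 2 := by
        rw [h5, abs_mul, abs_of_nonneg (by positivity : 0 ≤ (v.1.1 : ℝ) * √(v.1.2 : ℝ) + (v.2.1 : ℝ) * √(v.2.2 : ℝ))]
        calc _ ≤ 1 / (4 * Y) * ((2 * H) * (w * k) + (2 * H) * (w * k)) := by
              gcongr
          _ = 2 * a * H * (n : ℝ) ^ 2 := by
              rw [hY, hθ]
              field_simp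
              ring
      have h7 : ((|(v.1.1 : ℤ) ^ 2 * (v.1.2 : ℤ) - (v.2.1 : ℤ) ^ 2 * (v.2.2 : ℤ)| : ℤ) : ℝ) ≤
          ((2 * (a : ℤ) * H * (n : ℤ) ^ 2 : ℤ) : ℝ) := by
        push_cast
        exact h6
      exact_mod_cast h7
    exact_mod_cast card_le_card hsub
  have hNy := grid_sqrt (J' := J') hq hqK hθ0 hJ'1 hk hw hY hS hSc
  have hmain := Pool.Agent.H373R2.T4.dls R S (fun p : ℕ × ℕ => (p.1 : ℝ) * √(p.2 : ℝ)) (fun s => θ * √(s : ℝ)) al be Y hY0 J' hJ'1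
    hx hy A B hA hB hA0 hB0 _ _ hNx hNy
  have heq : ∑ p ∈ R, ∑ s ∈ S, al p * be s * e ((p.1 : ℝ) / (2 * a * (n : ℝ) ^ 2) * (√(p.2 : ℝ) * √(s : ℝ))) =
      ∑ p ∈ R, ∑ s ∈ S, al p * be s * e ((p.1 : ℝ) * √(p.2 : ℝ) * (θ * √(s : ℝ))) := by
    refine Finset.sum_congr rfl fun p _ => Finset.sum_congr rfl fun s _ => ?_
    congr 2
    rw [hθ]
    ring
  rw [heq]
  refine hmain.trans ?_
  rw [← hZ]
  have hqc : ((4 * a * n : ℕ) : ℝ) = 4 * a * n := by push_cast; ring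
  rw [hqc]
  have h8 : (K : ℝ) / (4 * a * n) ≤ Z / 4 := by
    rw [hZ, div_div, div_le_div_iff₀ (by positivity) (by positivity)]
    calc (K : ℝ) * (a * (n : ℝ) ^ 2 * 4) = (4 * a * n * K) * n := by ring
      _ ≤ (4 * a * n * K) * H := by gcongr
      _ = _ := by ring
  have h9 : 4 * (J' : ℝ) + 128 * (K / (4 * a * n)) ≤ 66 * Z := by linarith
  have h10 : (K : ℝ) / (4 * a * n) = (K / (a * n)) / 4 := by field_simp
  have hZ0 : 0 ≤ Z + (H : ℝ) ^ 3 / n := by positivity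
  calc 25 * (A ^ 2 * (8 * (Z + (H : ℝ) ^ 3 / n)) * (B ^ 2 * (3 * ((K : ℝ) / (4 * a * n)) * (4 * J' + 128 * (K / (4 * a * n))))))
      ≤ 25 * (A ^ 2 * (8 * (Z + (H : ℝ) ^ 3 / n)) * (B ^ 2 * (3 * ((K : ℝ) / (4 * a * n)) * (66 * Z)))) := by gcongr
    _ = 9900 * (A * B) ^ 2 * ((K : ℝ) / (a * n)) * Z * (Z + (H : ℝ) ^ 3 / n) := by rw [h10]; ring
    _ ≤ _ := by
        have : 0 ≤ (A * B) ^ 2 * ((K : ℝ) / (a * n)) * Z * (Z + (H : ℝ) ^ 3 / n) := by positivity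
        nlinarith

end Pool.Agent.N792
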