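import Mathlib
import Pool.Agent.N792.TD
import Pool.Agent.N792.QB

/-!
The bound for a block of frequencies (helper792).
-/

set_option autoImplicit false

namespace Pool.Agent.N792

open Finset
open Pool.Agent.H469R2.NK (e norm_e e_add conj_e e_zero)

lemma e_int (m : ℤ) : e m = 1 := by
  unfold e
  rw [Complex.exp_eq_one_iff]
  exact ⟨m, by push_cast; ring⟩

/-- separation of the variables in `e(h k / (4 a n²))` on residue classes -/
lemma e_sep {a : ℤ} {n h k t r : ℕ} (ha : 0 < a) (hn : 1 ≤ n) (hh : h % n = t) (hk : k % md a n = r) :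
    e (-((h : ℝ) * k / (4 * a * (n : ℝ) ^ 2))) =
      e (-((h : ℝ) * r / (4 * a * (n : ℝ) ^ 2))) * e (-((t : ℝ) * ((k : ℝ) - r) / (4 * a * (n : ℝ) ^ 2))) := by
  have haR : (0 : ℝ) < a := by exact_mod_cast ha
  have hnR : (0 : ℝ) < n := by exact_mod_cast hn
  obtain ⟨u, hu⟩ : ∃ u : ℕ, h = t + n * u := ⟨h / n, by rw [← hh]; exact (Nat.mod_add_div h n).symm⟩
  obtain ⟨v, hv⟩ : ∃ v : ℕ, k = r + md a n * v := ⟨k / md a n, by rw [← hk]; exact (Nat.mod_add_div k _).symm⟩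
  have h1 : (h : ℝ) = t + n * u := by exact_mod_cast hu
  have h2 : (k : ℝ) = r + (4 * a * n) * v := by
    rw [← md_real ha]
    exact_mod_cast hv
  have h3 : -((h : ℝ) * k / (4 * a * (n : ℝ) ^ 2)) = -((h : ℝ) * r / (4 * a * (n : ℝ) ^ 2)) +
      (-((t : ℝ) * ((k : ℝ) - r) / (4 * a * (n : ℝ) ^ 2)) + ((-((u : ℤ) * v) : ℤ) : ℝ)) := by
    push_cast
    rw [h1, h2]
    field_simp
    ring
  rw [h3, e_add, e_add, e_int, mul_one]

open Classical in
/-- **a block of frequencies** -/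
theorem hbj (hQ1 : Q1) {a b : ℤ} {K K2 n H : ℕ} (ha : 0 < a) (hn : 1 ≤ n) (hnH : n ≤ H) (hHK : H ≤ K)
    (hq : md a n ≤ K) (hK2 : K2 ≤ 2 * K) (A B : ℝ) (hA : 0 ≤ A) (hB : 0 ≤ B) (α β : ℕ → ℂ)
    (hα : ∀ k ∈ Ioc K K2, ‖α k‖ ≤ A) (hβ : ∀ k ∈ Ioc K K2, ‖β k‖ ≤ B) (ω : ℕ → ℂ) (hω : ∀ h, ‖ω h‖ ≤ 1) :
    ‖∑ h ∈ Ico H (2 * H), ω h * ∑ k ∈ Ioc K K2, ∑ k' ∈ Ioc K K2,
      (if cls a b n k k' then α k * β k' * e (h * tt a n k k') else 0)‖ ≤
      400 * (A * B) * (H * (K * √(K : ℝ)) / √(n : ℝ) + (H : ℝ) ^ 2 * K) := by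
  have haR : (1 : ℝ) ≤ a := by exact_mod_cast ha
  have hnR : (1 : ℝ) ≤ n := by exact_mod_cast hn
  have hnHR : (n : ℝ) ≤ H := by exact_mod_cast hnH
  have hHR : (1 : ℝ) ≤ H := by linarith
  have hHKR : (H : ℝ) ≤ K := by exact_mod_cast hHK
  have hKR : (1 : ℝ) ≤ K := by linarith
  have hq1 := md_pos ha hn
  have hqR : ((md a n : ℕ) : ℝ) = 4 * a * n := md_real ha
  obtain ⟨a', ha'⟩ : ∃ a' : ℕ, a' = a.toNat := ⟨_, rfl⟩
  have ha'1 : 1 ≤ a' := by omega
  have ha'R : (a' : ℝ) = a := by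
    have : ((a' : ℕ) : ℤ) = a := by rw [ha']; exact Int.toNat_of_nonneg ha.le
    exact_mod_cast this
  have hmd : md a n = 4 * a' * n := by rw [ha']; rfl
  set q := md a n with hqd
  set G : ℕ → ℕ → ℕ → ℂ := fun h k k' => ω h * (α k * β k' * e (h * tt a n k k')) with hG
  -- split into classes
  have hsplit : ∑ h ∈ Ico H (2 * H), ω h * ∑ k ∈ Ioc K K2, ∑ k' ∈ Ioc K K2,
      (if cls a b n k k' then α k * β k' * e (h * tt a n k k') else 0) =
      ∑ t ∈ range n, ∑ r ∈ range q, ∑ p ∈ ((Ico H (2 * H)).filter (fun h => h % n = t)) ×ˢ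
        ((Ioc K K2).filter (fun k' => cls a b n r k')), ∑ k ∈ (Ioc K K2).filter (fun k => k % q = r), G p.1 k p.2 := by
    rw [← sum_fiberwise_of_maps_to (s := Ico H (2 * H)) (t := range n) (g := fun h => h % n)
      (fun h _ => mem_range.2 (Nat.mod_lt _ hn))]
    apply sum_congr rfl
    intro t _
    have h1 : ∀ h ∈ (Ico H (2 * H)).filter (fun h => h % n = t), ω h * ∑ k ∈ Ioc K K2, ∑ k' ∈ Ioc K K2,
        (if cls a b n k k' then α k * β k' * e (h * tt a n k k') else 0) =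
        ∑ r ∈ range q, ∑ k' ∈ (Ioc K K2).filter (fun k' => cls a b n r k'),
          ∑ k ∈ (Ioc K K2).filter (fun k => k % q = r), G h k k' := by
      intro h _
      rw [mul_sum, ← sum_fiberwise_of_maps_to (s := Ioc K K2) (t := range q) (g := fun k => k % q)
        (fun k _ => mem_range.2 (Nat.mod_lt _ hq1))]
      apply sum_congr rfl
      intro r hr
      rw [sum_comm]
      apply sum_congr rfl
      intro k hk
      rw [mem_filter] at hk
      rw [mul_sum, sum_filter]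
      apply sum_congr rfl
      intro k' _
      have h1 : cls a b n k k' ↔ cls a b n r k' := by
        apply cls_congr ha
        rw [← hqd, hk.2, Nat.mod_eq_of_lt (mem_range.1 hr)]
      simp only [h1, hG]
      split_ifs
      · rfl
      · rw [mul_zero]
    rw [sum_congr rfl h1, sum_comm]
    apply sum_congr rfl
    intro r _
    rw [sum_product]
  rw [hsplit]
  have hclass : ∀ t ∈ range n, ∀ r ∈ range q, ‖∑ p ∈ ((Ico H (2 * H)).filter (fun h => h % n = t)) ×ˢ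
        ((Ioc K K2).filter (fun k' => cls a b n r k')), ∑ k ∈ (Ioc K K2).filter (fun k => k % q = r), G p.1 k p.2‖ ≤
      100 * (A * B) / (a * (n : ℝ) ^ 2) * (H * (K * √(K : ℝ)) / √(n : ℝ) + (H : ℝ) ^ 2 * K) := by
    intro t ht r hr
    set R := ((Ico H (2 * H)).filter (fun h => h % n = t)) ×ˢ ((Ioc K K2).filter (fun k' => cls a b n r k')) with hR
    set S := (Ioc K K2).filter (fun k => k % q = r) with hS
    have hconj : ‖∑ p ∈ R, ∑ k ∈ S, G p.1 k p.2‖ =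
        ‖∑ p ∈ R, ∑ k ∈ S, (starRingEnd ℂ (ω p.1 * β p.2) * e (-((p.1 : ℝ) * p.2 / (4 * a * (n : ℝ) ^ 2))) *
            e (-((p.1 : ℝ) * r / (4 * a * (n : ℝ) ^ 2)))) *
          (starRingEnd ℂ (α k) * e (-((t : ℝ) * ((k : ℝ) - r) / (4 * a * (n : ℝ) ^ 2)))) *
          e ((p.1 : ℝ) / (2 * a' * (n : ℝ) ^ 2) * (√(p.2 : ℝ) * √(k : ℝ)))‖ := by
      rw [← RCLike.norm_conj, map_sum]
      congr 1
      apply sum_congr rfl
      intro p hp
      rw [map_sum]
      apply sum_congr rfl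
      intro k hk
      rw [hR, mem_product, mem_filter] at hp
      rw [hS, mem_filter] at hk
      simp only [hG]
      rw [map_mul, map_mul, map_mul, map_mul, conj_e, tt_expand ha hn, ha'R]
      have h2 : -((p.1 : ℝ) * ((p.2 : ℝ) / (4 * a * (n : ℝ) ^ 2) + (k : ℝ) / (4 * a * (n : ℝ) ^ 2) -
          1 / (2 * a * (n : ℝ) ^ 2) * (√(k : ℝ) * √(p.2 : ℝ)))) =
          -((p.1 : ℝ) * p.2 / (4 * a * (n : ℝ) ^ 2)) + (-((p.1 : ℝ) * k / (4 * a * (n : ℝ) ^ 2)) +
            (p.1 : ℝ) / (2 * a * (n : ℝ) ^ 2) * (√(p.2 : ℝ) * √(k : ℝ))) := by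
        ring
      have h3 := e_sep (h := p.1) (k := k) ha hn hp.1.2 hk.2
      rw [h2, e_add, e_add, h3]
      ring
    rw [hconj]
    have hRsub : R ⊆ PP a' n H K t (sc a b n r) := by
      intro p hp
      rw [hR, mem_product, mem_filter, mem_filter, mem_Ico, mem_Ioc] at hp
      unfold PP
      rw [mem_filter, mem_product, mem_Ico, mem_Ioc]
      refine ⟨⟨hp.1.1, hp.2.1.1, hp.2.1.2.trans hK2⟩, ?_, ?_⟩
      · unfold Nat.ModEq
        rw [hp.1.2, Nat.mod_eq_of_lt (mem_range.1 ht)]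
      · rw [← hmd]
        exact (cls_sc ha hn).1 hp.2.2
    have hmain := bsj hQ1 a' n H K t (sc a b n r) B A R S
      (fun p => starRingEnd ℂ (ω p.1 * β p.2) * e (-((p.1 : ℝ) * p.2 / (4 * a * (n : ℝ) ^ 2))) *
            e (-((p.1 : ℝ) * r / (4 * a * (n : ℝ) ^ 2))))
      (fun k => starRingEnd ℂ (α k) * e (-((t : ℝ) * ((k : ℝ) - r) / (4 * a * (n : ℝ) ^ 2))))
      ha'1 hn hnH hHK (by rw [← hmd]; exact hq) hB hA hRsub
      (fun k hk => by
        rw [hS, mem_filter, mem_Ioc] at hk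
        exact ⟨hk.1.1, hk.1.2.trans hK2⟩)
      (fun k hk k' hk' => by
        rw [hS, mem_filter] at hk hk'
        rw [← hmd]
        unfold Nat.ModEq
        rw [hk.2, hk'.2])
      (fun p hp => by
        rw [hR, mem_product, mem_filter, mem_filter] at hp
        simp only [norm_mul, RCLike.norm_conj, norm_e, mul_one]
        calc ‖ω p.1‖ * ‖β p.2‖ ≤ 1 * B := mul_le_mul (hω _) (hβ _ hp.2.1) (norm_nonneg _) zero_le_one
          _ = B := one_mul _)
      (fun k hk => by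
        rw [hS, mem_filter] at hk
        simp only [norm_mul, RCLike.norm_conj, norm_e, mul_one]
        exact hα _ hk.1)
    have hsn : √(n : ℝ) ^ 2 = n := Real.sq_sqrt (by linarith)
    have hsK : √(K : ℝ) ^ 2 = K := Real.sq_sqrt (by linarith)
    have hsn0 : 0 < √(n : ℝ) := Real.sqrt_pos.2 (by linarith)
    have hfin : 10000 * (B * A) ^ 2 * ((K : ℝ) / (a' * n)) * ((H : ℝ) * K / (a' * (n : ℝ) ^ 2)) *
        ((H : ℝ) * K / (a' * (n : ℝ) ^ 2) + (H : ℝ) ^ 3 / n) ≤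
        (100 * (A * B) / (a * (n : ℝ) ^ 2) * (H * (K * √(K : ℝ)) / √(n : ℝ) + (H : ℝ) ^ 2 * K)) ^ 2 := by
      rw [ha'R]
      have e1 : 10000 * (B * A) ^ 2 * ((K : ℝ) / (a * n)) * ((H : ℝ) * K / (a * (n : ℝ) ^ 2)) *
        ((H : ℝ) * K / (a * (n : ℝ) ^ 2) + (H : ℝ) ^ 3 / n) =
          (100 * (A * B) / (a * (n : ℝ) ^ 2)) ^ 2 * ((H : ℝ) ^ 2 * K ^ 3 / (a * n) + (H : ℝ) ^ 4 * K ^ 2) := by
        field_simp
        ring
      rw [e1, mul_pow]
      apply mul_le_mul_of_nonneg_left _ (by positivity)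
      have e2 : (H * (K * √(K : ℝ)) / √(n : ℝ)) ^ 2 = (H : ℝ) ^ 2 * K ^ 3 / n := by
        rw [div_pow, mul_pow, mul_pow, hsn, hsK]
        ring
      have e3 : (H : ℝ) ^ 2 * K ^ 3 / (a * n) ≤ (H : ℝ) ^ 2 * K ^ 3 / n := by
        apply div_le_div_of_nonneg_left (by positivity) (by linarith)
        nlinarith
      have e4 : 0 ≤ (H * (K * √(K : ℝ)) / √(n : ℝ)) * ((H : ℝ) ^ 2 * K) := by positivity
      calc (H : ℝ) ^ 2 * K ^ 3 / (a * n) + (H : ℝ) ^ 4 * K ^ 2 ≤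
            (H * (K * √(K : ℝ)) / √(n : ℝ)) ^ 2 + ((H : ℝ) ^ 2 * K) ^ 2 := by
              rw [e2]
              have : ((H : ℝ) ^ 2 * K) ^ 2 = (H : ℝ) ^ 4 * K ^ 2 := by ring
              linarith
        _ ≤ _ := by nlinarith
    exact abs_le_of_sq_le_sq' (hmain.trans hfin) (by positivity) |>.2
  refine (norm_sum_le_of_le _ fun t ht => norm_sum_le_of_le _ fun r hr => hclass t ht r hr).trans ?_
  simp only [sum_const, card_range, nsmul_eq_mul]
  rw [hqR]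
  apply le_of_eq
  field_simp
  ring

end Pool.Agent.N792
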