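import Mathlib
import Pool.Agent.N792.TF
import Pool.Agent.N792.QC

/-!
The sums over the triangle functions, joint version (helper792).
-/

set_option autoImplicit false

namespace Pool.Agent.N792

open Finset
open Pool.Agent.H469R2.NK (e norm_e e_add conj_e e_zero)

open Classical in
/-- a single frequency -/
lemma gs_h {C0 : ℝ} (hC0 : 0 < C0) (hbs : BSP C0) {a b : ℤ} {K K2 M n : ℕ} {L δ B0 : ℝ}
    (ha : 0 < a) (hn : 1 ≤ n) (hq : md a n ≤ K) (hK2 : K2 ≤ 2 * K) (hB0 : 0 ≤ B0)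
    (β : ℕ → ℝ) (hβ : ∀ k ∈ Ioc K K2, |β k| ≤ B0) (h : ℕ) (hh : 1 ≤ h) :
    ‖∑ i ∈ Ioc K K2 ×ˢ Ioc K K2, (((if cls a b n i.1 i.2 then β i.1 * β i.2 * gs L a M n i.1 i.2 else 0 : ℝ)) : ℂ) *
          e (h * (tt a n i.1 i.2 + δ / 2))‖ ≤ √C0 * (B0 * B0) * (K * √(K : ℝ)) * (√(h : ℝ) / n + 1 / √(h : ℝ)) := by
  set X := √C0 * (B0 * B0) * (K * √(K : ℝ)) with hX
  have e1 : ∑ i ∈ Ioc K K2 ×ˢ Ioc K K2, (((if cls a b n i.1 i.2 then β i.1 * β i.2 * gs L a M n i.1 i.2 else 0 : ℝ)) : ℂ) *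
      e (h * (tt a n i.1 i.2 + δ / 2)) = e (h * (δ / 2)) * ∑ i ∈ Ioc K K2 ×ˢ Ioc K K2,
      (if cls a b n i.1 i.2 then (β i.1 : ℂ) * (β i.2 : ℂ) * e (h * tt a n i.1 i.2) else 0) *
        (Real.exp (-(L * ((√(i.2 : ℝ) - √(i.1 : ℝ)) / (2 * √(a : ℝ) * n * √(M : ℝ))) - L) ^ 2) : ℂ) := by
    rw [mul_sum]
    apply sum_congr rfl
    intro i _
    by_cases hc : cls a b n i.1 i.2
    · simp only [if_pos hc]
      rw [mul_add, e_add]
      unfold gs
      rw [show L * ((√(i.2 : ℝ) - √(i.1 : ℝ)) / (2 * √(a : ℝ) * n * √(M : ℝ)) - 1) =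
        L * ((√(i.2 : ℝ) - √(i.1 : ℝ)) / (2 * √(a : ℝ) * n * √(M : ℝ))) - L by ring]
      push_cast
      ring
    · simp only [if_neg hc]
      simp
  rw [e1, norm_mul, norm_e, one_mul]
  exact gauss_sep (Ioc K K2 ×ˢ Ioc K K2)
    (fun i => if cls a b n i.1 i.2 then (β i.1 : ℂ) * (β i.2 : ℂ) * e (h * tt a n i.1 i.2) else 0)
    (fun i => L * ((√(i.2 : ℝ) - √(i.1 : ℝ)) / (2 * √(a : ℝ) * n * √(M : ℝ)))) L
    (X * (√(h : ℝ) / n + 1 / √(h : ℝ))) (by
      intro t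
      set lam := t * (L / (2 * √(a : ℝ) * n * √(M : ℝ))) with hlam
      have h3 := hb hC0 hbs (b := b) ha hn hh hq hK2 B0 B0 hB0 hB0
        (fun k => (β k : ℂ) * e (-(lam * √(k : ℝ)))) (fun k => (β k : ℂ) * e (lam * √(k : ℝ)))
        (fun k hk => by rw [norm_mul, norm_e, mul_one, Complex.norm_real]; exact hβ k hk)
        (fun k hk => by rw [norm_mul, norm_e, mul_one, Complex.norm_real]; exact hβ k hk)
      refine le_trans (le_of_eq ?_) h3
      congr 1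
      rw [sum_product]
      apply sum_congr rfl
      intro k _
      apply sum_congr rfl
      intro k' _
      by_cases hc : cls a b n k k'
      · simp only [if_pos hc]
        have h4 : t * (L * ((√(k' : ℝ) - √(k : ℝ)) / (2 * √(a : ℝ) * n * √(M : ℝ)))) =
            -(lam * √(k : ℝ)) + lam * √(k' : ℝ) := by
          rw [hlam]; ring
        rw [h4, e_add]
        ring
      · simp only [if_neg hc, zero_mul])

open Classical in
/-- a block of frequencies -/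
lemma gs_block (hQ1 : Q1) {a b : ℤ} {K K2 M n : ℕ} {L δ B0 : ℝ}
    (ha : 0 < a) (hn : 1 ≤ n) (hq : md a n ≤ K) (hK2 : K2 ≤ 2 * K) (hB0 : 0 ≤ B0)
    (β : ℕ → ℝ) (hβ : ∀ k ∈ Ioc K K2, |β k| ≤ B0) (H : ℕ) (ω : ℕ → ℂ) (hnH : n ≤ H) (hHK : H ≤ K)
    (hω : ∀ h, ‖ω h‖ ≤ 1) :
    ‖∑ h ∈ Ico H (2 * H), ω h * ∑ i ∈ Ioc K K2 ×ˢ Ioc K K2,
      (((if cls a b n i.1 i.2 then β i.1 * β i.2 * gs L a M n i.1 i.2 else 0 : ℝ)) : ℂ) *
          e (h * (tt a n i.1 i.2 + δ / 2))‖ ≤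
      400 * (B0 * B0) * (H * (K * √(K : ℝ)) / √(n : ℝ) + (H : ℝ) ^ 2 * K) := by
  have e1 : ∑ h ∈ Ico H (2 * H), ω h * ∑ i ∈ Ioc K K2 ×ˢ Ioc K K2,
      (((if cls a b n i.1 i.2 then β i.1 * β i.2 * gs L a M n i.1 i.2 else 0 : ℝ)) : ℂ) *
          e (h * (tt a n i.1 i.2 + δ / 2)) = ∑ i ∈ Ioc K K2 ×ˢ Ioc K K2,
      (∑ h ∈ Ico H (2 * H), (ω h * e (h * (δ / 2))) *
        (if cls a b n i.1 i.2 then (β i.1 : ℂ) * (β i.2 : ℂ) * e (h * tt a n i.1 i.2) else 0)) *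
        (Real.exp (-(L * ((√(i.2 : ℝ) - √(i.1 : ℝ)) / (2 * √(a : ℝ) * n * √(M : ℝ))) - L) ^ 2) : ℂ) := by
    simp only [mul_sum]
    rw [sum_comm]
    apply sum_congr rfl
    intro i _
    rw [sum_mul]
    apply sum_congr rfl
    intro h _
    by_cases hc : cls a b n i.1 i.2
    · simp only [if_pos hc]
      rw [mul_add, e_add]
      unfold gs
      rw [show L * ((√(i.2 : ℝ) - √(i.1 : ℝ)) / (2 * √(a : ℝ) * n * √(M : ℝ)) - 1) =
        L * ((√(i.2 : ℝ) - √(i.1 : ℝ)) / (2 * √(a : ℝ) * n * √(M : ℝ))) - L by ring]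
      push_cast
      ring
    · simp only [if_neg hc]
      simp
  rw [e1]
  exact gauss_sep (Ioc K K2 ×ˢ Ioc K K2)
    (fun i => ∑ h ∈ Ico H (2 * H), (ω h * e (h * (δ / 2))) *
        (if cls a b n i.1 i.2 then (β i.1 : ℂ) * (β i.2 : ℂ) * e (h * tt a n i.1 i.2) else 0))
    (fun i => L * ((√(i.2 : ℝ) - √(i.1 : ℝ)) / (2 * √(a : ℝ) * n * √(M : ℝ)))) L _ (by
      intro t
      set lam := t * (L / (2 * √(a : ℝ) * n * √(M : ℝ))) with hlam
      have h3 := hbj hQ1 (b := b) ha hn hnH hHK hq hK2 B0 B0 hB0 hB0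
        (fun k => (β k : ℂ) * e (-(lam * √(k : ℝ)))) (fun k => (β k : ℂ) * e (lam * √(k : ℝ)))
        (fun k hk => by rw [norm_mul, norm_e, mul_one, Complex.norm_real]; exact hβ k hk)
        (fun k hk => by rw [norm_mul, norm_e, mul_one, Complex.norm_real]; exact hβ k hk)
        (fun h => ω h * e (h * (δ / 2))) (fun h => by rw [norm_mul, norm_e, mul_one]; exact hω h)
      refine le_trans (le_of_eq ?_) h3
      congr 1
      simp only [sum_mul, mul_sum]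
      rw [sum_comm]
      apply sum_congr rfl
      intro h _
      rw [sum_product]
      apply sum_congr rfl
      intro k _
      apply sum_congr rfl
      intro k' _
      by_cases hc : cls a b n k k'
      · simp only [if_pos hc]
        have h4 : t * (L * ((√(k' : ℝ) - √(k : ℝ)) / (2 * √(a : ℝ) * n * √(M : ℝ)))) =
            -(lam * √(k : ℝ)) + lam * √(k' : ℝ) := by
          rw [hlam]; ring
        rw [h4, e_add]
        ring
      · simp only [if_neg hc, mul_zero, zero_mul])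

open Classical in
lemma card_cls_le' {a b : ℤ} {K K2 n : ℕ} (ha : 0 < a) (hn : 1 ≤ n) (hq : md a n ≤ K) (hKK2 : K ≤ K2)
    (hK2 : K2 ≤ 2 * K) :
    ∑ k ∈ Ioc K K2, ∑ k' ∈ Ioc K K2, (if cls a b n k k' then (1 : ℝ) else 0) ≤ 2 * (K : ℝ) ^ 2 / n := by
  have h1 := card_cls_le (b := b) ha hn hKK2
  have hnR : (1 : ℝ) ≤ n := by exact_mod_cast hn
  have haR : (1 : ℝ) ≤ a := by exact_mod_cast ha
  have hqR : 4 * (a : ℝ) * n ≤ K := by
    rw [← md_real ha]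
    exact_mod_cast hq
  have hnK : (n : ℝ) ≤ K := by nlinarith
  have h2 : (K2 : ℝ) - K ≤ K := by
    have : (K2 : ℝ) ≤ 2 * K := by exact_mod_cast hK2
    linarith
  have h3 : 0 ≤ (K2 : ℝ) - K := by
    have : (K : ℝ) ≤ K2 := by exact_mod_cast hKK2
    linarith
  refine h1.trans ?_
  have h4 : (K : ℝ) * (1 / n) + 1 ≤ 2 * (K / n) := by
    rw [mul_one_div]
    have : 1 ≤ (K : ℝ) / n := by rw [le_div_iff₀ (by linarith)]; linarith
    linarith
  calc ((K2 : ℝ) - K) * (((K2 : ℝ) - K) * (1 / n) + 1) ≤ K * (K * (1 / n) + 1) := by gcongr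
    _ ≤ K * (2 * (K / n)) := by gcongr
    _ = _ := by ring

/-- the common bound -/
noncomputable def Bd3 (C0 δ : ℝ) (K n : ℕ) : ℝ :=
  (√C0 + 1) * (K * √(K : ℝ)) * (δ * √(n : ℝ) + 1 / √(n : ℝ) + (1 + Real.log K) / (δ * √(K : ℝ)))

lemma Bd3_aux {C0 δ B2 : ℝ} {K n : ℕ} (hδ : 0 < δ) (hn : 1 ≤ n) (hK : 1 ≤ K) (hB2 : 0 ≤ B2) :
    20 * ((3 * (√C0 * B2 * (K * √(K : ℝ)))) * (δ * √(n : ℝ)) + 400 * B2 * (K * √(K : ℝ)) / √(n : ℝ) +
      400 * B2 * K * (1 + Real.log K) / δ + (B2 * (2 * (K : ℝ) ^ 2 / n)) / (δ * K)) ≤ 8500 * B2 * Bd3 C0 δ K n := by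
  have hnR : (1 : ℝ) ≤ n := by exact_mod_cast hn
  have hKR : (1 : ℝ) ≤ K := by exact_mod_cast hK
  have hlog : 0 ≤ Real.log K := Real.log_nonneg hKR
  have hsK : √(K : ℝ) * √(K : ℝ) = K := Real.mul_self_sqrt (by linarith)
  have hsK0 : 0 < √(K : ℝ) := Real.sqrt_pos.2 (by linarith)
  have hsn0 : 0 < √(n : ℝ) := Real.sqrt_pos.2 (by linarith)
  have hc : 0 ≤ √C0 := Real.sqrt_nonneg _
  unfold Bd3
  have t1 : 20 * (3 * (√C0 * B2 * (K * √(K : ℝ)))) * (δ * √(n : ℝ)) ≤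
      8500 * B2 * ((√C0 + 1) * (K * √(K : ℝ)) * (δ * √(n : ℝ))) := by
    have : 0 ≤ B2 * (K * √(K : ℝ)) * (δ * √(n : ℝ)) := by positivity
    nlinarith
  have t2 : 20 * (400 * B2 * (K * √(K : ℝ)) / √(n : ℝ)) ≤
      8500 * B2 * ((√C0 + 1) * (K * √(K : ℝ)) * (1 / √(n : ℝ))) := by
    have : 0 ≤ B2 * (K * √(K : ℝ)) * (1 / √(n : ℝ)) := by positivity
    have e : 20 * (400 * B2 * (K * √(K : ℝ)) / √(n : ℝ)) = 8000 * (B2 * (K * √(K : ℝ)) * (1 / √(n : ℝ))) := by ring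
    rw [e]
    nlinarith
  have t3 : 20 * (400 * B2 * K * (1 + Real.log K) / δ + (B2 * (2 * (K : ℝ) ^ 2 / n)) / (δ * K)) ≤
      8500 * B2 * ((√C0 + 1) * (K * √(K : ℝ)) * ((1 + Real.log K) / (δ * √(K : ℝ)))) := by
    have e1 : (K * √(K : ℝ)) * ((1 + Real.log K) / (δ * √(K : ℝ))) = K * (1 + Real.log K) / δ := by
      field_simp
    have e2 : (B2 * (2 * (K : ℝ) ^ 2 / n)) / (δ * K) ≤ 2 * (B2 * (K * (1 + Real.log K) / δ)) := by
      have e3 : (B2 * (2 * (K : ℝ) ^ 2 / n)) / (δ * K) = 2 * (B2 * (K * (1 / n) / δ)) := by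
        field_simp
      rw [e3]
      have : 1 / (n : ℝ) ≤ 1 + Real.log K := by
        have : 1 / (n : ℝ) ≤ 1 := by rw [div_le_one (by linarith)]; exact hnR
        linarith
      gcongr
    have e4 : 8500 * B2 * ((√C0 + 1) * (K * √(K : ℝ)) * ((1 + Real.log K) / (δ * √(K : ℝ)))) =
        8500 * (√C0 + 1) * (B2 * (K * (1 + Real.log K) / δ)) := by
      rw [mul_assoc (√C0 + 1), e1]
      ring
    rw [e4]
    have e5 : 400 * B2 * K * (1 + Real.log K) / δ = 400 * (B2 * (K * (1 + Real.log K) / δ)) := by ring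
    rw [e5]
    have : 0 ≤ B2 * (K * (1 + Real.log K) / δ) := by positivity
    nlinarith
  linarith

open Classical in
/-- the sum with the Gaussian weight -/
theorem tri_gs3 {C0 : ℝ} (hC0 : 0 < C0) (hbs : BSP C0) (hQ1 : Q1) (hQ4 : Q4) {a b : ℤ} {K K2 M n : ℕ} {L δ B0 : ℝ}
    (ha : 0 < a) (hn : 1 ≤ n) (hq : md a n ≤ K) (hKK2 : K ≤ K2) (hK2 : K2 ≤ 2 * K) (hδ : 0 < δ) (hδ2 : δ ≤ 1 / 2)
    (hB0 : 0 ≤ B0) (β : ℕ → ℝ) (hβ : ∀ k ∈ Ioc K K2, |β k| ≤ B0) :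
    |∑ k ∈ Ioc K K2, ∑ k' ∈ Ioc K K2, (if cls a b n k k' then
        β k * β k' * (gs L a M n k k' * (2 * tri δ (tt a n k k' + δ / 2))) else 0) -
      2 * δ * ∑ k ∈ Ioc K K2, ∑ k' ∈ Ioc K K2, (if cls a b n k k' then β k * β k' * gs L a M n k k' else 0)| ≤
      17000 * B0 ^ 2 * Bd3 C0 δ K n := by
  have hnR : (1 : ℝ) ≤ n := by exact_mod_cast hn
  have haR : (1 : ℝ) ≤ a := by exact_mod_cast ha
  have hqR : 4 * (a : ℝ) * n ≤ K := by
    rw [← md_real ha]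
    exact_mod_cast hq
  have hnKR : (n : ℝ) ≤ K := by nlinarith
  have hnK : n ≤ K := by exact_mod_cast hnKR
  have hK1 : 1 ≤ K := hn.trans hnK
  set X := √C0 * (B0 * B0) * (K * √(K : ℝ)) with hX
  have hX0 : 0 ≤ X := by positivity
  have h1 := hQ4 (Ioc K K2 ×ˢ Ioc K K2)
    (fun i => if cls a b n i.1 i.2 then β i.1 * β i.2 * gs L a M n i.1 i.2 else 0)
    (fun i => tt a n i.1 i.2 + δ / 2) δ (3 * X) (400 * (B0 * B0) * (K * √(K : ℝ)) / √(n : ℝ)) (400 * (B0 * B0) * K)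
    ((B0 * B0) * (2 * (K : ℝ) ^ 2 / n)) n K hδ hδ2 hn hnK (by positivity) (by positivity) (by positivity) (by positivity)
    (by
      intro h hh hh2
      have hhR : (1 : ℝ) ≤ h := by exact_mod_cast hh
      have hh2R : (h : ℝ) ≤ 2 * n := by exact_mod_cast hh2
      refine (gs_h hC0 hbs ha hn hq hK2 hB0 β hβ h hh).trans ?_
      have hs : √(h : ℝ) * √(h : ℝ) = h := Real.mul_self_sqrt (by linarith)
      have hs0 : 0 < √(h : ℝ) := Real.sqrt_pos.2 (by linarith)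
      have h2 : √(h : ℝ) / n ≤ 2 / √(h : ℝ) := by
        rw [div_le_div_iff₀ (by linarith) hs0, hs]
        linarith
      calc X * (√(h : ℝ) / n + 1 / √(h : ℝ)) ≤ X * (2 / √(h : ℝ) + 1 / √(h : ℝ)) := by gcongr
        _ = 3 * X / √(h : ℝ) := by ring)
    (by
      intro H ω hnH hHK hω
      refine (gs_block hQ1 ha hn hq hK2 hB0 β hβ H ω hnH hHK hω).trans (le_of_eq ?_)
      ring)
    (by
      intro h
      refine (norm_sum_le _ _).trans ?_
      have h2 : ∀ i ∈ Ioc K K2 ×ˢ Ioc K K2, ‖(((if cls a b n i.1 i.2 then β i.1 * β i.2 * gs L a M n i.1 i.2 else 0 : ℝ)) : ℂ) *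
          e (h * (tt a n i.1 i.2 + δ / 2))‖ ≤ (B0 * B0) * (if cls a b n i.1 i.2 then 1 else 0) := by
        intro i hi
        rw [mem_product] at hi
        rw [norm_mul, norm_e, mul_one, Complex.norm_real]
        split_ifs
        · rw [norm_mul, norm_mul, mul_one]
          have g1 := gs_nonneg a L M n i.1 i.2
          have g2 := gs_le_one a L M n i.1 i.2
          calc ‖β i.1‖ * ‖β i.2‖ * ‖gs L a M n i.1 i.2‖ ≤ B0 * B0 * 1 := by
                gcongr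
                · exact hβ _ hi.1
                · exact hβ _ hi.2
                · rw [Real.norm_of_nonneg g1]; exact g2
            _ = _ := mul_one _
        · simp
      refine (sum_le_sum h2).trans ?_
      rw [← mul_sum, sum_product]
      exact mul_le_mul_of_nonneg_left (card_cls_le' ha hn hq hKK2 hK2) (by positivity))
  have h5 : ∑ i ∈ Ioc K K2 ×ˢ Ioc K K2, (if cls a b n i.1 i.2 then β i.1 * β i.2 * gs L a M n i.1 i.2 else 0) *
      tri δ (tt a n i.1 i.2 + δ / 2) = (∑ k ∈ Ioc K K2, ∑ k' ∈ Ioc K K2, (if cls a b n k k' then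
        β k * β k' * (gs L a M n k k' * (2 * tri δ (tt a n k k' + δ / 2))) else 0)) / 2 := by
    rw [sum_product, sum_div]
    apply sum_congr rfl
    intro k _
    rw [sum_div]
    apply sum_congr rfl
    intro k' _
    split_ifs
    · ring
    · simp
  rw [h5, sum_product] at h1
  have h6 : (∑ k ∈ Ioc K K2, ∑ k' ∈ Ioc K K2, (if cls a b n k k' then
        β k * β k' * (gs L a M n k k' * (2 * tri δ (tt a n k k' + δ / 2))) else 0) -
      2 * δ * ∑ k ∈ Ioc K K2, ∑ k' ∈ Ioc K K2, (if cls a b n k k' then β k * β k' * gs L a M n k k' else 0)) =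
      2 * ((∑ k ∈ Ioc K K2, ∑ k' ∈ Ioc K K2, (if cls a b n k k' then
        β k * β k' * (gs L a M n k k' * (2 * tri δ (tt a n k k' + δ / 2))) else 0)) / 2 -
      δ * ∑ k ∈ Ioc K K2, ∑ k' ∈ Ioc K K2, (if cls a b n k k' then β k * β k' * gs L a M n k k' else 0)) := by ring
  rw [h6, abs_mul, abs_of_pos (by norm_num : (0 : ℝ) < 2)]
  have h7 := Bd3_aux (C0 := C0) (B2 := B0 * B0) hδ hn hK1 (by positivity)
  calc _ ≤ 2 * (8500 * (B0 * B0) * Bd3 C0 δ K n) := by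
        apply mul_le_mul_of_nonneg_left (h1.trans h7) (by norm_num)
    _ = _ := by ring

open Classical in
/-- the number of pairs with `t` near an integer -/
theorem tri_count3 {C0 : ℝ} (hC0 : 0 < C0) (hbs : BSP C0) (hQ1 : Q1) (hQ4 : Q4) {a b : ℤ} {K K2 n : ℕ} {δ : ℝ}
    (ha : 0 < a) (hn : 1 ≤ n) (hq : md a n ≤ K) (hKK2 : K ≤ K2) (hK2 : K2 ≤ 2 * K) (hδ : 0 < δ) (hδ2 : δ ≤ 1 / 2) :
    ∑ k ∈ Ioc K K2, ∑ k' ∈ Ioc K K2, (if cls a b n k k' then tri δ (tt a n k k') else 0) ≤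
      δ * ∑ k ∈ Ioc K K2, ∑ k' ∈ Ioc K K2, (if cls a b n k k' then 1 else 0) + 8500 * Bd3 C0 δ K n := by
  have hnR : (1 : ℝ) ≤ n := by exact_mod_cast hn
  have haR : (1 : ℝ) ≤ a := by exact_mod_cast ha
  have hqR : 4 * (a : ℝ) * n ≤ K := by
    rw [← md_real ha]
    exact_mod_cast hq
  have hnKR : (n : ℝ) ≤ K := by nlinarith
  have hnK : n ≤ K := by exact_mod_cast hnKR
  have hK1 : 1 ≤ K := hn.trans hnK
  set X := √C0 * (1 * 1) * (K * √(K : ℝ)) with hX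
  have hX0 : 0 ≤ X := by positivity
  have e0 : ∀ h : ℕ, ∑ i ∈ Ioc K K2 ×ˢ Ioc K K2, (((if cls a b n i.1 i.2 then 1 else 0 : ℝ)) : ℂ) *
      e (h * tt a n i.1 i.2) = ∑ k ∈ Ioc K K2, ∑ k' ∈ Ioc K K2,
      (if cls a b n k k' then 1 * 1 * e (h * tt a n k k') else 0) := by
    intro h
    rw [sum_product]
    apply sum_congr rfl
    intro k _
    apply sum_congr rfl
    intro k' _
    split_ifs <;> simp
  have h1 := hQ4 (Ioc K K2 ×ˢ Ioc K K2)
    (fun i => if cls a b n i.1 i.2 then 1 else 0)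
    (fun i => tt a n i.1 i.2) δ (3 * X) (400 * (1 * 1) * (K * √(K : ℝ)) / √(n : ℝ)) (400 * (1 * 1) * K)
    ((1 * 1) * (2 * (K : ℝ) ^ 2 / n)) n K hδ hδ2 hn hnK (by positivity) (by positivity) (by positivity) (by positivity)
    (by
      intro h hh hh2
      have hhR : (1 : ℝ) ≤ h := by exact_mod_cast hh
      have hh2R : (h : ℝ) ≤ 2 * n := by exact_mod_cast hh2
      have h3 := hb hC0 hbs (b := b) ha hn hh hq hK2 1 1 zero_le_one zero_le_one (fun _ => 1) (fun _ => 1)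
            (fun k hk => by simp) (fun k hk => by simp)
      rw [e0]
      refine h3.trans ?_
      have hs : √(h : ℝ) * √(h : ℝ) = h := Real.mul_self_sqrt (by linarith)
      have hs0 : 0 < √(h : ℝ) := Real.sqrt_pos.2 (by linarith)
      have h2 : √(h : ℝ) / n ≤ 2 / √(h : ℝ) := by
        rw [div_le_div_iff₀ (by linarith) hs0, hs]
        linarith
      calc X * (√(h : ℝ) / n + 1 / √(h : ℝ)) ≤ X * (2 / √(h : ℝ) + 1 / √(h : ℝ)) := by gcongr
        _ = 3 * X / √(h : ℝ) := by ring)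
    (by
      intro H ω hnH hHK hω
      have h3 := hbj hQ1 (b := b) ha hn hnH hHK hq hK2 1 1 zero_le_one zero_le_one (fun _ => 1) (fun _ => 1)
        (fun k hk => by simp) (fun k hk => by simp) ω hω
      simp only [e0]
      refine h3.trans (le_of_eq ?_)
      ring)
    (by
      intro h
      refine (norm_sum_le _ _).trans ?_
      have h2 : ∀ i ∈ Ioc K K2 ×ˢ Ioc K K2, ‖(((if cls a b n i.1 i.2 then 1 else 0 : ℝ)) : ℂ) *
          e (h * tt a n i.1 i.2)‖ ≤ (if cls a b n i.1 i.2 then 1 else 0) := by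
        intro i _
        rw [norm_mul, norm_e, mul_one]
        split_ifs <;> simp
      refine (sum_le_sum h2).trans ?_
      rw [sum_product, one_mul, one_mul]
      exact card_cls_le' ha hn hq hKK2 hK2)
  have h5 : ∑ i ∈ Ioc K K2 ×ˢ Ioc K K2, (if cls a b n i.1 i.2 then (1 : ℝ) else 0) * tri δ (tt a n i.1 i.2) =
      ∑ k ∈ Ioc K K2, ∑ k' ∈ Ioc K K2, (if cls a b n k k' then tri δ (tt a n k k') else 0) := by
    rw [sum_product]
    apply sum_congr rfl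
    intro k _
    apply sum_congr rfl
    intro k' _
    split_ifs <;> simp
  rw [h5, sum_product] at h1
  have h7 := Bd3_aux (C0 := C0) (B2 := 1 * 1) hδ hn hK1 (by positivity)
  have h8 := (abs_le.1 (h1.trans h7)).2
  linarith

end Pool.Agent.N792
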