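import Mathlib
import Pool.Agent.N792.QE

/-!
The explicit bound for the quadratic form, joint version (helper792).
-/

set_option autoImplicit false

namespace Pool.Agent.N792

open Finset

/-- the sum of the bounds -/
noncomputable def SB3 (C0 δ : ℝ) (K E : ℕ) : ℝ :=
  (√C0 + 1) * (K * √(K : ℝ)) * (δ * (E * √(E : ℝ)) + 2 * √(E : ℝ) + E * (1 + Real.log K) / (δ * √(K : ℝ)))

lemma sum_inv_sqrt (E : ℕ) : ∑ n ∈ Icc 1 E, 1 / √(n : ℝ) ≤ 2 * √(E : ℝ) := by
  induction E with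
  | zero => simp
  | succ E ih =>
    rw [sum_Icc_succ_top (by omega)]
    have h1 : 1 / √((E + 1 : ℕ) : ℝ) ≤ 2 * √((E + 1 : ℕ) : ℝ) - 2 * √(E : ℝ) := by
      have h0 : (0 : ℝ) ≤ E := Nat.cast_nonneg _
      push_cast
      have s0 : 0 < √((E : ℝ) + 1) := Real.sqrt_pos.2 (by linarith)
      have s1 : √((E : ℝ) + 1) * √((E : ℝ) + 1) = E + 1 := Real.mul_self_sqrt (by linarith)
      have s2 : √(E : ℝ) * √(E : ℝ) = E := Real.mul_self_sqrt h0
      have s3 : 0 ≤ √(E : ℝ) := Real.sqrt_nonneg _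
      rw [div_le_iff₀ s0]
      nlinarith [sq_nonneg (√((E : ℝ) + 1) - √(E : ℝ))]
    linarith

lemma sum_Bd3 {C0 δ : ℝ} {K E : ℕ} (hδ : 0 < δ) (hK : 1 ≤ K) :
    ∑ e ∈ Icc 1 E, Bd3 C0 δ K e ≤ SB3 C0 δ K E := by
  have hKR : (1 : ℝ) ≤ K := by exact_mod_cast hK
  have hlog : 0 ≤ Real.log K := Real.log_nonneg hKR
  unfold Bd3 SB3
  rw [← mul_sum]
  apply mul_le_mul_of_nonneg_left _ (by positivity)
  rw [sum_add_distrib, sum_add_distrib]
  apply add_le_add (add_le_add _ (sum_inv_sqrt E))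
  · rw [sum_const, Nat.card_Icc, Nat.add_sub_cancel, nsmul_eq_mul]
    apply le_of_eq
    ring
  · rw [← mul_sum]
    apply mul_le_mul_of_nonneg_left _ hδ.le
    have h1 : ∀ e ∈ Icc 1 E, √(e : ℝ) ≤ √(E : ℝ) := by
      intro e he
      apply Real.sqrt_le_sqrt
      exact_mod_cast (mem_Icc.1 he).2
    refine (sum_le_sum h1).trans ?_
    rw [sum_const, Nat.card_Icc, Nat.add_sub_cancel, nsmul_eq_mul]

/-- **the explicit bound for the quadratic form** -/
theorem TT_bound3 {C0 : ℝ} (hC0 : 0 < C0) (hbs : BSP C0) (hQ1 : Q1) (hQ4 : Q4) (hls : LSCP) {a b : ℤ} {β : ℕ → ℝ} {L κ B0 Δ : ℝ}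
    {C M m1 m2 n0 N1 E K K2 Q0 l I : ℕ} (ha : 0 < a) (hm1 : 1 ≤ m1)
    (hC : 1 ≤ C) (hCK : 8 * C ≤ K) (hb : (b : ℝ) ^ 2 ≤ 2 * a * C) (hn0 : |b| ≤ n0) (hL : 0 ≤ L) (hκ : 0 ≤ κ)
    (hκ1 : κ ≤ 1) (hM : 1 ≤ M) (hmM : (M : ℝ) ≤ 4 * m1) (hmM1 : (m1 : ℝ) + 2 ≤ 9 / 16 * M) (hmM2 : 25 / 16 * M ≤ (m2 : ℝ) - 2)
    (hE1 : 1 ≤ E) (hEN : E ≤ N1) (hE : K < m1 * (E + 1) ^ 2) (hEK : md a E ≤ K)
    (h5 : (a : ℝ) * ((n0 : ℝ) + |(b : ℝ)| + E) ^ 2 ≤ (m1 : ℝ) * K)
    (h6 : (2 * m2 * K : ℝ) + E + |(b : ℝ)| + 1 ≤ N1)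
    (hKK2 : K ≤ K2) (hK2 : K2 ≤ 2 * K) (hκK : (K2 : ℝ) ≤ (1 + κ) * K) (hQ0 : 1 ≤ Q0) (hQ0E : Q0 ≤ md a E)
    (hB0 : 0 ≤ B0) (hI : K ≤ I * l) (hl : 1 ≤ l) (hβ : ∀ k, |β k| ≤ B0)
    (hΔ : ∀ u, K ≤ u → u ≤ K2 → ∀ q ∈ Icc 1 Q0, ∀ r : ℕ, |∑ k ∈ (Ioc K u).filter (fun k => k ≡ r [MOD q]), β k| ≤ Δ) :
    TT a b β L C M m1 m2 n0 N1 K K2 ≤ 2 * B0 ^ 2 * Dg a b C m1 m2 n0 N1 K K2 +
      2 * (2 * ((C : ℝ) / K) * (8 * B0 * K * ((I + 1) * (√(1 + Real.log E) * √(100 * (1 + Real.log (md a E)) * ((Q0 : ℝ) ^ 2 * Δ ^ 2 +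
        B0 ^ 2 * (2 * K : ℕ) * (((2 * K : ℕ) : ℝ) / Q0 + md a E)))) + B0 * (l * (1 + Real.log E) + E))) +
        17000 * B0 ^ 2 * SB3 C0 ((C : ℝ) / K) K E +
        B0 ^ 2 * (2 * Er a b L κ C K M E * (4 * ((C : ℝ) / K) * (((K2 : ℝ) - K) * (((K2 : ℝ) - K) * (1 + Real.log E) + E)) +
          8500 * SB3 C0 (4 * ((C : ℝ) / K)) K E) +
          4 * Real.exp (-(L ^ 2 / 16)) * (E * (K : ℝ) ^ 2))) := by
  classical
  have hCR : (1 : ℝ) ≤ C := by exact_mod_cast hC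
  have hK1 : 1 ≤ K := by omega
  have hKR : (1 : ℝ) ≤ K := by exact_mod_cast hK1
  have hCKR : 8 * (C : ℝ) ≤ K := by exact_mod_cast hCK
  set δ := (C : ℝ) / K with hδd
  have hδ0 : 0 < δ := by positivity
  have hδ8 : δ ≤ 1 / 8 := by
    rw [hδd, div_le_iff₀ (by linarith)]
    linarith
  have hE1R : (1 : ℝ) ≤ E := by exact_mod_cast hE1
  have hlogE : 0 ≤ Real.log E := Real.log_nonneg hE1R
  have hsum1 := sum_inv_le E
  refine (TT_le hm1 hC hB0 hβ).trans ?_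
  apply add_le_add le_rfl
  apply mul_le_mul_of_nonneg_left _ (by norm_num)
  -- restrict to `e ≤ E`
  have hrestr : ∑ e ∈ Icc 1 N1, ∑ k ∈ Ioc K K2, ∑ k' ∈ Ioc K K2, β k * β k' * W a b L C M m1 m2 n0 N1 e k k' =
      ∑ e ∈ Icc 1 E, ∑ k ∈ Ioc K K2, ∑ k' ∈ Ioc K K2, β k * β k' * W a b L C M m1 m2 n0 N1 e k k' := by
    symm
    apply sum_subset
    · intro e he
      rw [mem_Icc] at he ⊢
      omega
    · intro e he he2
      rw [mem_Icc] at he he2
      apply sum_eq_zero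
      intro k hk
      apply sum_eq_zero
      intro k' hk'
      rw [W_zero ha he.1 hm1 hn0 hE hK2 (by omega) hk hk', mul_zero]
  rw [hrestr]
  have hErE := Er_nonneg (b := b) (C := C) (K := K) (M := M) (e := E) ha hL hκ
  have hone : ∀ e ∈ Icc 1 E, ∑ k ∈ Ioc K K2, ∑ k' ∈ Ioc K K2, β k * β k' * W a b L C M m1 m2 n0 N1 e k k' ≤
      2 * δ * |∑ k ∈ Ioc K K2, ∑ k' ∈ Ioc K K2, (if cls a b e k k' then β k * β k' * gs L a M e k k' else 0)| +
      17000 * B0 ^ 2 * Bd3 C0 δ K e +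
      B0 ^ 2 * (2 * Er a b L κ C K M E * (4 * δ * (((K2 : ℝ) - K) * (((K2 : ℝ) - K) * (1 / e) + 1)) +
        8500 * Bd3 C0 (4 * δ) K e) + 4 * Real.exp (-(L ^ 2 / 16)) * (K : ℝ) ^ 2) := by
    intro e he
    rw [mem_Icc] at he
    have heR : (1 : ℝ) ≤ e := by exact_mod_cast he.1
    have heER : (e : ℝ) ≤ E := by exact_mod_cast he.2
    have hq : md a e ≤ K := by
      refine le_trans ?_ hEK
      unfold md
      exact Nat.mul_le_mul_left _ he.2
    have h5e : (a : ℝ) * ((n0 : ℝ) + |(b : ℝ)| + e) ^ 2 ≤ (m1 : ℝ) * K := by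
      refine le_trans ?_ h5
      have haR : (0 : ℝ) < a := by exact_mod_cast ha
      gcongr
    have h6e : (2 * m2 * K : ℝ) + e + |(b : ℝ)| + 1 ≤ N1 := by linarith
    have hW : ∀ k ∈ Ioc K K2, ∀ k' ∈ Ioc K K2, β k * β k' * W a b L C M m1 m2 n0 N1 e k k' ≤
        (if cls a b e k k' then β k * β k' * (gs L a M e k k' * (2 * tri δ (tt a e k k' + δ / 2))) else 0) +
        B0 ^ 2 * (2 * Er a b L κ C K M E * (if cls a b e k k' then tri (4 * δ) (tt a e k k') else 0) +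
          4 * Real.exp (-(L ^ 2 / 16))) := by
      intro k hk k' hk'
      rw [mem_Ioc] at hk hk'
      have hkR : (k : ℝ) ≤ (1 + κ) * K := le_trans (by exact_mod_cast hk.2) hκK
      have hkR' : (k' : ℝ) ≤ (1 + κ) * K := le_trans (by exact_mod_cast hk'.2) hκK
      have h1 := W_approx (L := L) (κ := κ) (C := C) (M := M) (m2 := m2) (N1 := N1) ha he.1 hm1 hC hCK hb hn0 hL hκ hκ1 hM hmM hmM1 hmM2
        h5e h6e hk.1.le hkR hk'.1.le hkR'
      rw [← hδd] at h1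
      have h2 : |β k * β k'| ≤ B0 ^ 2 := by
        rw [abs_mul, sq]
        exact mul_le_mul (hβ k) (hβ k') (abs_nonneg _) hB0
      have hex := (Real.exp_pos (-(L ^ 2 / 16))).le
      by_cases hc : cls a b e k k'
      · simp only [if_pos hc] at h1 ⊢
        set V := gs L a M e k k' * (2 * tri δ (tt a e k k' + δ / 2)) with hV
        have h3 : β k * β k' * W a b L C M m1 m2 n0 N1 e k k' =
            β k * β k' * V + β k * β k' * (W a b L C M m1 m2 n0 N1 e k k' - V) := by ring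
        rw [h3]
        apply add_le_add le_rfl
        refine (le_abs_self _).trans ?_
        rw [abs_mul]
        apply mul_le_mul h2 _ (abs_nonneg _) (by positivity)
        refine h1.trans ?_
        have h4 : Er a b L κ C K M e * (2 * tri (4 * δ) (tt a e k k')) ≤ Er a b L κ C K M E * (2 * tri (4 * δ) (tt a e k k')) :=
          mul_le_mul_of_nonneg_right (Er_mono ha he.2) (by have := tri_nonneg (4 * δ) (tt a e k k'); linarith)
        linarith
      · simp only [if_neg hc] at h1 ⊢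
        have h3 : W a b L C M m1 m2 n0 N1 e k k' = 0 := by
          have := abs_nonpos_iff.1 h1
          linarith
        rw [h3, mul_zero]
        positivity
    refine (sum_le_sum fun k hk => sum_le_sum fun k' hk' => hW k hk k' hk').trans ?_
    have hgs := tri_gs3 (b := b) (M := M) (L := L) hC0 hbs hQ1 hQ4 ha he.1 hq hKK2 hK2 hδ0 (by linarith) hB0 β (fun k _ => hβ k)
    have hcount := tri_count3 (b := b) hC0 hbs hQ1 hQ4 ha he.1 hq hKK2 hK2 (δ := 4 * δ) (by linarith) (by linarith)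
    have hcard := card_cls_le (b := b) ha he.1 hKK2
    have hsplit : ∑ k ∈ Ioc K K2, ∑ k' ∈ Ioc K K2,
        ((if cls a b e k k' then β k * β k' * (gs L a M e k k' * (2 * tri δ (tt a e k k' + δ / 2))) else 0) +
        B0 ^ 2 * (2 * Er a b L κ C K M E * (if cls a b e k k' then tri (4 * δ) (tt a e k k') else 0) +
          4 * Real.exp (-(L ^ 2 / 16)))) =
        ∑ k ∈ Ioc K K2, ∑ k' ∈ Ioc K K2,
        (if cls a b e k k' then β k * β k' * (gs L a M e k k' * (2 * tri δ (tt a e k k' + δ / 2))) else 0) +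
        B0 ^ 2 * (2 * Er a b L κ C K M E * (∑ k ∈ Ioc K K2, ∑ k' ∈ Ioc K K2, (if cls a b e k k' then tri (4 * δ) (tt a e k k') else 0)) +
          4 * Real.exp (-(L ^ 2 / 16)) * (((K2 - K : ℕ) : ℝ) * ((K2 - K : ℕ) : ℝ))) := by
      simp only [sum_add_distrib, ← mul_sum, sum_const, Nat.card_Ioc, nsmul_eq_mul]
      ring
    rw [hsplit]
    have h7 : ∑ k ∈ Ioc K K2, ∑ k' ∈ Ioc K K2,
        (if cls a b e k k' then β k * β k' * (gs L a M e k k' * (2 * tri δ (tt a e k k' + δ / 2))) else 0) ≤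
        2 * δ * |∑ k ∈ Ioc K K2, ∑ k' ∈ Ioc K K2, (if cls a b e k k' then β k * β k' * gs L a M e k k' else 0)| +
        17000 * B0 ^ 2 * Bd3 C0 δ K e := by
      have h8 := (abs_le.1 hgs).2
      have h9 : 2 * δ * ∑ k ∈ Ioc K K2, ∑ k' ∈ Ioc K K2, (if cls a b e k k' then β k * β k' * gs L a M e k k' else 0) ≤
          2 * δ * |∑ k ∈ Ioc K K2, ∑ k' ∈ Ioc K K2, (if cls a b e k k' then β k * β k' * gs L a M e k k' else 0)| :=
        mul_le_mul_of_nonneg_left (le_abs_self _) (by linarith)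
      linarith
    apply add_le_add h7
    apply mul_le_mul_of_nonneg_left _ (by positivity)
    apply add_le_add
    · apply mul_le_mul_of_nonneg_left _ (by linarith)
      refine hcount.trans ?_
      apply add_le_add_left
      apply mul_le_mul_of_nonneg_left hcard (by linarith)
    · apply mul_le_mul_of_nonneg_left _ (by positivity)
      have h10 : ((K2 - K : ℕ) : ℝ) ≤ K := by
        have : K2 - K ≤ K := by omega
        exact_mod_cast this
      rw [sq]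
      exact mul_le_mul h10 h10 (Nat.cast_nonneg _) (by linarith)
  refine (sum_le_sum hone).trans ?_
  simp only [sum_add_distrib, ← mul_sum, sum_const, Nat.card_Icc, nsmul_eq_mul, Nat.add_sub_cancel]
  have hh0 := h0_bound (b := b) (M := M) (L := L) hls ha hKK2 hK2 hE1 hEK hQ0 hQ0E hL hB0 hI hl β hβ hΔ
  have hK2K : 0 ≤ (K2 : ℝ) - K := by
    have : (K : ℝ) ≤ K2 := by exact_mod_cast hKK2
    linarith
  have hE0 : (0 : ℝ) ≤ E := by linarith
  have hsb1 := sum_Bd3 (C0 := C0) (K := K) (E := E) hδ0 hK1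
  have hsb2 := sum_Bd3 (C0 := C0) (K := K) (E := E) (δ := 4 * δ) (by linarith) hK1
  apply add_le_add
  · apply add_le_add
    · exact mul_le_mul_of_nonneg_left hh0 (by linarith)
    · exact mul_le_mul_of_nonneg_left hsb1 (by positivity)
  · apply mul_le_mul_of_nonneg_left _ (by positivity)
    apply add_le_add
    · apply mul_le_mul_of_nonneg_left _ (by linarith)
      apply add_le_add
      · apply mul_le_mul_of_nonneg_left _ (by linarith)
        apply mul_le_mul_of_nonneg_left _ hK2K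
        apply add_le_add (mul_le_mul_of_nonneg_left hsum1 hK2K)
        rw [mul_one]
      · exact mul_le_mul_of_nonneg_left hsb2 (by norm_num)
    · apply le_of_eq
      ring

end Pool.Agent.N792
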