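import Mathlib
import Pool.Agent.N792.TG
import Pool.Agent.N792.QF

/-!
The asymptotic form of the type II estimate for one cell: the numerical part, joint version (helper792).
-/

set_option autoImplicit false

namespace Pool.Agent.N792

open Finset

/-- the basic sizes: `s = √x`, `y` a small power of `x`, `g = 2^t` a power of `log x` -/
structure Qz (a : ℤ) (c0 s y L g C K M E : ℝ) : Prop where
  s1 : 1 ≤ s
  y1 : 1 ≤ y
  L1 : 200 ≤ L
  g1 : 1 ≤ g
  a1 : (1 : ℝ) ≤ a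
  c1 : 0 ≤ c0
  C1 : 1 ≤ C
  K1 : 1 ≤ K
  M1 : 1 ≤ M
  E1 : 1 ≤ E
  hC : K * y ^ 24 ≤ C * s
  hC2 : C ≤ s ^ 2
  hK : s ^ 2 * y ^ 24 ≤ K
  hMK : M * K ≤ s ^ 4 * L
  hMK2 : s ^ 4 ≤ M * K * L
  hE : E ^ 2 * M ≤ 3 * K
  hy : 10 ^ 10 * (a + 1) * (c0 + 1) * g ^ 12 * L ^ 2 ≤ y

namespace Qz

variable {a : ℤ} {c0 s y L g C K M E : ℝ}

lemma y0 (h : Qz a c0 s y L g C K M E) : 0 < y := by linarith [h.y1]
lemma s0 (h : Qz a c0 s y L g C K M E) : 0 < s := by linarith [h.s1]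
lemma C0 (h : Qz a c0 s y L g C K M E) : 0 < C := by linarith [h.C1]
lemma K0 (h : Qz a c0 s y L g C K M E) : 0 < K := by linarith [h.K1]
lemma L0 (h : Qz a c0 s y L g C K M E) : 0 < L := by linarith [h.L1]
lemma g0 (h : Qz a c0 s y L g C K M E) : 0 < g := by linarith [h.g1]

/-- the consequences of `hy` -/
lemma yle (h : Qz a c0 s y L g C K M E) {u : ℝ} (hu : u ≤ 10 ^ 10 * ((a : ℝ) + 1) * (c0 + 1) * g ^ 12 * L ^ 2) : u ≤ y :=
  hu.trans h.hy

lemma g12 (h : Qz a c0 s y L g C K M E) : 1 ≤ g ^ 12 := one_le_pow₀ h.g1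

lemma big (h : Qz a c0 s y L g C K M E) : 10 ^ 10 * g ^ 12 * L ^ 2 ≤ y := by
  apply h.yle
  have h1 := h.a1
  have h2 := h.c1
  have h3 : (1 : ℝ) ≤ ((a : ℝ) + 1) * (c0 + 1) := by nlinarith
  have h4 : 0 ≤ (10 : ℝ) ^ 10 * g ^ 12 * L ^ 2 := by
    have := h.g0.le; positivity
  calc (10 : ℝ) ^ 10 * g ^ 12 * L ^ 2 = 1 * (10 ^ 10 * g ^ 12 * L ^ 2) := by ring
    _ ≤ (((a : ℝ) + 1) * (c0 + 1)) * (10 ^ 10 * g ^ 12 * L ^ 2) := mul_le_mul_of_nonneg_right h3 h4
    _ = _ := by ring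

lemma biga (h : Qz a c0 s y L g C K M E) : 10 ^ 10 * a * g ^ 12 * L ^ 2 ≤ y := by
  apply h.yle
  have h1 := h.a1
  have h2 := h.c1
  have h3 : (a : ℝ) ≤ ((a : ℝ) + 1) * (c0 + 1) := by nlinarith
  have h4 : 0 ≤ (10 : ℝ) ^ 10 * g ^ 12 * L ^ 2 := by
    have := h.g0.le; positivity
  calc (10 : ℝ) ^ 10 * a * g ^ 12 * L ^ 2 = a * (10 ^ 10 * g ^ 12 * L ^ 2) := by ring
    _ ≤ (((a : ℝ) + 1) * (c0 + 1)) * (10 ^ 10 * g ^ 12 * L ^ 2) := mul_le_mul_of_nonneg_right h3 h4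
    _ = _ := by ring

lemma bigc (h : Qz a c0 s y L g C K M E) : 10 ^ 10 * c0 * g ^ 12 * L ^ 2 ≤ y := by
  apply h.yle
  have h1 := h.a1
  have h2 := h.c1
  have h3 : c0 ≤ ((a : ℝ) + 1) * (c0 + 1) := by nlinarith
  have h4 : 0 ≤ (10 : ℝ) ^ 10 * g ^ 12 * L ^ 2 := by
    have := h.g0.le; positivity
  calc (10 : ℝ) ^ 10 * c0 * g ^ 12 * L ^ 2 = c0 * (10 ^ 10 * g ^ 12 * L ^ 2) := by ring
    _ ≤ (((a : ℝ) + 1) * (c0 + 1)) * (10 ^ 10 * g ^ 12 * L ^ 2) := mul_le_mul_of_nonneg_right h3 h4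
    _ = _ := by ring

/-- `K ≤ s³ / y^24` -/
lemma Kle24 (h : Qz a c0 s y L g C K M E) : K * y ^ 24 ≤ s ^ 3 := by
  have hs := h.s0
  calc K * y ^ 24 ≤ C * s := h.hC
    _ ≤ s ^ 2 * s := mul_le_mul_of_nonneg_right h.hC2 hs.le
    _ = _ := by ring

/-- `K ≤ s³ / y^12` -/
lemma Kle (h : Qz a c0 s y L g C K M E) : K * y ^ 12 ≤ s ^ 3 := by
  refine le_trans ?_ h.Kle24
  apply mul_le_mul_of_nonneg_left _ h.K0.le
  exact pow_le_pow_right₀ h.y1 (by norm_num)

/-- `y^24 ≤ C` -/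
lemma y24C (h : Qz a c0 s y L g C K M E) : y ^ 24 ≤ C := by
  have hy := h.y0
  have hs := h.s1
  have hs0 := h.s0
  have h1 : y ^ 24 * s ≤ C * s := by
    calc y ^ 24 * s = s * y ^ 24 * 1 := by ring
      _ ≤ s ^ 2 * y ^ 24 * y ^ 24 := by
          apply mul_le_mul _ (one_le_pow₀ h.y1) zero_le_one (by positivity)
          apply mul_le_mul_of_nonneg_right _ (by positivity)
          exact le_self_pow₀ hs (by norm_num)
      _ ≤ K * y ^ 24 := mul_le_mul_of_nonneg_right h.hK (by positivity)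
      _ ≤ C * s := h.hC
  exact le_of_mul_le_mul_right h1 hs0

lemma E2K (h : Qz a c0 s y L g C K M E) : E ^ 2 * s ^ 4 ≤ 3 * L * K ^ 2 := by
  have := h.hMK2
  have hE := h.hE
  have hE0 : 0 ≤ E ^ 2 := sq_nonneg _
  have hK := h.K0
  have hL := h.L0
  calc E ^ 2 * s ^ 4 ≤ E ^ 2 * (M * K * L) := mul_le_mul_of_nonneg_left this hE0
    _ = (E ^ 2 * M) * (K * L) := by ring
    _ ≤ (3 * K) * (K * L) := mul_le_mul_of_nonneg_right hE (by positivity)
    _ = _ := by ring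

lemma Ly3 (h : Qz a c0 s y L g C K M E) : 3 * L ≤ y ^ 2 := by
  have h6 := h.big
  have h7 := h.g12
  have hL := h.L1
  have h8 : 3 * L ≤ y := by nlinarith
  have h9 := h.y1
  nlinarith

/-- `E s y^23 ≤ C` -/
lemma Esc (h : Qz a c0 s y L g C K M E) : E * s * y ^ 23 ≤ C := by
  have hy := h.y0
  have hC := h.C0
  have hs := h.s0
  have hK := h.K0
  have hE : 0 < E := by linarith [h.E1]
  have h1 : (y * (E * s * y ^ 23)) ^ 2 ≤ (y * C) ^ 2 := by
    have e1 : (y * (E * s * y ^ 23)) ^ 2 * s ^ 2 ≤ (y * C) ^ 2 * s ^ 2 := by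
      calc (y * (E * s * y ^ 23)) ^ 2 * s ^ 2 = (E ^ 2 * s ^ 4) * (y ^ 24) ^ 2 := by ring
        _ ≤ (3 * L * K ^ 2) * (y ^ 24) ^ 2 := mul_le_mul_of_nonneg_right h.E2K (by positivity)
        _ = (3 * L) * (K * y ^ 24) ^ 2 := by ring
        _ ≤ y ^ 2 * (C * s) ^ 2 := by
            apply mul_le_mul h.Ly3 _ (by positivity) (by positivity)
            exact pow_le_pow_left₀ (by positivity) h.hC 2
        _ = _ := by ring
    exact le_of_mul_le_mul_right e1 (by positivity)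
  have h2 : y * (E * s * y ^ 23) ≤ y * C := abs_le_of_sq_le_sq' h1 (by positivity) |>.2
  exact le_of_mul_le_mul_left h2 hy

/-- `E ≤ s / y^11` -/
lemma Ele (h : Qz a c0 s y L g C K M E) : E * y ^ 11 ≤ s := by
  have hs := h.s0
  have hy := h.y0
  have hE : 0 < E := by linarith [h.E1]
  have h1 : (E * y ^ 11) * s ≤ s * s := by
    calc (E * y ^ 11) * s = E * s * y ^ 11 := by ring
      _ ≤ E * s * y ^ 23 := by
          apply mul_le_mul_of_nonneg_left _ (by positivity)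
          exact pow_le_pow_right₀ h.y1 (by norm_num)
      _ ≤ C := h.Esc
      _ ≤ s ^ 2 := h.hC2
      _ = s * s := by ring
  exact le_of_mul_le_mul_right h1 hs

/-- `K E ≤ C² / y^47` -/
lemma KE (h : Qz a c0 s y L g C K M E) : K * E * y ^ 47 ≤ C ^ 2 := by
  have hs := h.s0
  have hy := h.y0
  have hE : 0 < E := by linarith [h.E1]
  have hC := h.C0
  have hK := h.K0
  have h1 : (K * E * y ^ 47) * s ≤ C ^ 2 * s := by
    calc (K * E * y ^ 47) * s = (K * y ^ 24) * (E * s * y ^ 23) := by ring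
      _ ≤ (C * s) * C := mul_le_mul h.hC h.Esc (by positivity) (by positivity)
      _ = _ := by ring
  exact le_of_mul_le_mul_right h1 hs

/-- `E³ ≤ K / y^45` -/
lemma E3 (h : Qz a c0 s y L g C K M E) : E ^ 3 * y ^ 45 ≤ K := by
  have hs := h.s0
  have hy := h.y0
  have hE : 0 < E := by linarith [h.E1]
  have hC := h.C0
  have hK := h.K0
  have hL := h.L0
  have h1 : (y ^ 2 * s ^ 4) * (E ^ 3 * y ^ 45) ≤ (y ^ 2 * s ^ 4) * K := by
    calc (y ^ 2 * s ^ 4) * (E ^ 3 * y ^ 45) = (E ^ 2 * s ^ 4) * (E * y ^ 47) := by ring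
      _ ≤ (3 * L * K ^ 2) * (E * y ^ 47) := mul_le_mul_of_nonneg_right h.E2K (by positivity)
      _ = (3 * L * K) * (K * E * y ^ 47) := by ring
      _ ≤ (y ^ 2 * K) * (s ^ 2) ^ 2 := by
          apply mul_le_mul
          · exact mul_le_mul_of_nonneg_right h.Ly3 hK.le
          · exact h.KE.trans (pow_le_pow_left₀ hC.le h.hC2 2)
          · positivity
          · positivity
      _ = _ := by ring
  exact le_of_mul_le_mul_left h1 (by positivity)

lemma y22 (h : Qz a c0 s y L g C K M E) : 4 * (10 ^ 6 * (c0 + 1) * g ^ 3) * (2 * L) ≤ y ^ 22 := by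
  have hc := h.c1
  have hg := h.g0
  have h8 : 4 * (10 ^ 6 * (c0 + 1) * g ^ 3) * (2 * L) ≤ 10 ^ 10 * ((a : ℝ) + 1) * (c0 + 1) * g ^ 12 * L ^ 2 := by
    have h9 : g ^ 3 ≤ g ^ 12 := pow_le_pow_right₀ h.g1 (by norm_num)
    have h10 : 1 ≤ L := by linarith [h.L1]
    have ha := h.a1
    calc 4 * (10 ^ 6 * (c0 + 1) * g ^ 3) * (2 * L) = (8 * 10 ^ 6) * 1 * (c0 + 1) * g ^ 3 * (L * 1) := by ring
      _ ≤ 10 ^ 10 * ((a : ℝ) + 1) * (c0 + 1) * g ^ 12 * (L * L) := by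
          gcongr
          · norm_num
          · linarith
      _ = _ := by ring
  refine (h.yle h8).trans ?_
  exact le_self_pow₀ h.y1 (by norm_num)

/-- the sums of the joint large sieve type -/
lemma big_sum3 (h : Qz a c0 s y L g C K M E) {l : ℝ} (hl0 : 0 ≤ l) (hl : l ≤ 2 * L) :
    (K * √K) * ((C / K) * (E * √E) + 2 * √E + E * l / ((C / K) * √K)) ≤ C * K / (10 ^ 6 * (c0 + 1) * g ^ 3) := by
  have hKs := Real.sqrt_pos.2 h.K0
  have hy := h.y0
  have hK := h.K0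
  have hs := h.s0
  have hC0 := h.C0
  have hL := h.L0
  have hL1 := h.L1
  have hg := h.g0
  have hc := h.c1
  have hE : 0 < E := by linarith [h.E1]
  have hEs := Real.sqrt_pos.2 hE
  have h2 : √K * √K = K := Real.mul_self_sqrt hK.le
  have h2' : √E * √E = E := Real.mul_self_sqrt hE.le
  have hexp : (K * √K) * ((C / K) * (E * √E) + 2 * √E + E * l / ((C / K) * √K)) =
      C * (√K * (E * √E)) + 2 * K * (√K * √E) + K * (K * E) * l / C := by
    field_simp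
  rw [hexp]
  obtain ⟨Z, hZ⟩ : ∃ Z : ℝ, Z = 10 ^ 6 * (c0 + 1) * g ^ 3 := ⟨_, rfl⟩
  have hZ0 : 0 < Z := by rw [hZ]; positivity
  have h22 := h.y22
  rw [← hZ] at h22 ⊢
  have h4Z : 4 * Z ≤ y ^ 22 := by
    have : 4 * Z * 1 ≤ 4 * Z * (2 * L) := mul_le_mul_of_nonneg_left (by linarith) (by positivity)
    linarith
  have h8Z : 4 * Z * l ≤ y ^ 22 := by
    have : 4 * Z * l ≤ 4 * Z * (2 * L) := mul_le_mul_of_nonneg_left hl (by positivity)
    linarith
  -- T1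
  have t1 : C * (√K * (E * √E)) ≤ C * K / (4 * Z) := by
    have e1 : E * √E * y ^ 22 ≤ √K := by
      have e2 : (E * √E * y ^ 22) ^ 2 ≤ (√K) ^ 2 := by
        rw [sq (√K), h2]
        calc (E * √E * y ^ 22) ^ 2 = E ^ 2 * (√E * √E) * y ^ 44 := by ring
          _ = E ^ 3 * y ^ 44 := by rw [h2']; ring
          _ ≤ E ^ 3 * y ^ 45 := by
              apply mul_le_mul_of_nonneg_left _ (by positivity)
              exact pow_le_pow_right₀ h.y1 (by norm_num)
          _ ≤ K := h.E3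
      exact abs_le_of_sq_le_sq' e2 hKs.le |>.2
    rw [le_div_iff₀ (by positivity)]
    calc C * (√K * (E * √E)) * (4 * Z) ≤ C * (√K * (E * √E)) * y ^ 22 := mul_le_mul_of_nonneg_left h4Z (by positivity)
      _ = C * √K * (E * √E * y ^ 22) := by ring
      _ ≤ C * √K * √K := mul_le_mul_of_nonneg_left e1 (by positivity)
      _ = C * K := by rw [mul_assoc, h2]
  -- T2
  have t2 : 2 * K * (√K * √E) ≤ 2 * (C * K / (4 * Z)) := by
    have e1 : √K * √E * y ^ 22 ≤ C := by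
      have e2 : (√K * √E * y ^ 22) ^ 2 ≤ C ^ 2 := by
        calc (√K * √E * y ^ 22) ^ 2 = (√K * √K) * (√E * √E) * y ^ 44 := by ring
          _ = K * E * y ^ 44 := by rw [h2, h2']
          _ ≤ K * E * y ^ 47 := by
              apply mul_le_mul_of_nonneg_left _ (by positivity)
              exact pow_le_pow_right₀ h.y1 (by norm_num)
          _ ≤ C ^ 2 := h.KE
      exact abs_le_of_sq_le_sq' e2 hC0.le |>.2
    have e3 : K * (√K * √E) ≤ C * K / (4 * Z) := by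
      rw [le_div_iff₀ (by positivity)]
      calc K * (√K * √E) * (4 * Z) ≤ K * (√K * √E) * y ^ 22 := mul_le_mul_of_nonneg_left h4Z (by positivity)
        _ = K * (√K * √E * y ^ 22) := by ring
        _ ≤ K * C := mul_le_mul_of_nonneg_left e1 hK.le
        _ = C * K := by ring
    linarith
  -- T3
  have t3 : K * (K * E) * l / C ≤ C * K / (4 * Z) := by
    rw [div_le_div_iff₀ hC0 (by positivity)]
    calc K * (K * E) * l * (4 * Z) = K * (K * E) * (4 * Z * l) := by ring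
      _ ≤ K * (K * E) * y ^ 22 := mul_le_mul_of_nonneg_left h8Z (by positivity)
      _ ≤ K * (K * E) * y ^ 47 := by
          apply mul_le_mul_of_nonneg_left _ (by positivity)
          exact pow_le_pow_right₀ h.y1 (by norm_num)
      _ = K * (K * E * y ^ 47) := by ring
      _ ≤ K * C ^ 2 := mul_le_mul_of_nonneg_left h.KE hK.le
      _ = C * K * C := by ring
  calc C * (√K * (E * √E)) + 2 * K * (√K * √E) + K * (K * E) * l / C ≤
      C * K / (4 * Z) + 2 * (C * K / (4 * Z)) + C * K / (4 * Z) := add_le_add (add_le_add t1 t2) t3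
    _ = C * K / Z := by field_simp; ring

end Qz

end Pool.Agent.N792
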