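import Mathlib
import Pool.Agent.N792.QG2

/-!
The asymptotic form of the type II estimate for one cell, joint version (helper792).
-/

set_option autoImplicit false

namespace Pool.Agent.N792

open Finset

/-- the part of the large sieve -/
lemma part_ls3 {a : ℤ} {c0 s y L C M B0 Δ lE lq : ℝ} {K E Q0 t : ℕ}
    (h : Qz a c0 s y L ((2 : ℝ) ^ t) C K M E) (hB0 : 1 ≤ B0) (hQ : Q0 = 6 * 10 ^ 7 * 2 ^ (12 * t))
    (hΔ : 0 ≤ Δ) (hΔ2 : Δ * (10 ^ 12 * (2 : ℝ) ^ (18 * t)) ≤ K) (hlE : lE ≤ 2 * L) (hlE0 : 0 ≤ lE) (hlq : lq ≤ 3 * L) (hlq0 : 0 ≤ lq) :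
    32 * C * B0 * (((2 ^ (3 * t) : ℕ) : ℝ) + 1) * (√lE * √(100 * lq * ((Q0 : ℝ) ^ 2 * Δ ^ 2 +
      B0 ^ 2 * (2 * K : ℕ) * (((2 * K : ℕ) : ℝ) / Q0 + 4 * a * E)))) ≤ B0 ^ 2 * C * K * L ^ 2 / ((2 : ℝ) ^ t) ^ 3 := by
  have hg1 := h.g1
  have hL := h.L1
  have hK := h.K0
  have hC := h.C0
  have ha := h.a1
  have hg0 := h.g0
  have hs := h.s0
  have hy := h.y0
  have hE1 : (0 : ℝ) ≤ E := Nat.cast_nonneg _
  obtain ⟨g, hg⟩ : ∃ g : ℝ, g = (2 : ℝ) ^ t := ⟨_, rfl⟩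
  rw [← hg] at h hg1 hg0
  have hQR : (Q0 : ℝ) = 6 * 10 ^ 7 * g ^ 12 := by
    rw [hQ, hg]
    push_cast
    rw [← pow_mul, mul_comm t 12]
    norm_num
  have h18 : (2 : ℝ) ^ (18 * t) = g ^ 18 := by rw [hg, ← pow_mul, mul_comm t 18]
  have h3 : ((2 ^ (3 * t) : ℕ) : ℝ) = g ^ 3 := by
    rw [hg]; push_cast; rw [← pow_mul, mul_comm t 3]
  rw [h18] at hΔ2
  rw [h3, ← hg, hQR]
  push_cast
  have h12 : 1 ≤ g ^ 12 := one_le_pow₀ hg1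
  have hg12 : 0 < g ^ 12 := by positivity
  -- the three terms
  have t1 : (6 * 10 ^ 7 * g ^ 12) ^ 2 * Δ ^ 2 ≤ B0 ^ 2 * (K : ℝ) ^ 2 / (10 ^ 8 * g ^ 12) := by
    rw [le_div_iff₀ (by positivity)]
    have h1 : (Δ * (10 ^ 12 * g ^ 18)) ^ 2 ≤ K ^ 2 := pow_le_pow_left₀ (by positivity) hΔ2 2
    have h2 : (1 : ℝ) ≤ B0 ^ 2 := one_le_pow₀ hB0
    calc (6 * 10 ^ 7 * g ^ 12) ^ 2 * Δ ^ 2 * (10 ^ 8 * g ^ 12) = (36 / 100) * (Δ * (10 ^ 12 * g ^ 18)) ^ 2 := by ring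
      _ ≤ 1 * (K : ℝ) ^ 2 := by
          apply mul_le_mul (by norm_num) h1 (by positivity) (by norm_num)
      _ ≤ B0 ^ 2 * (K : ℝ) ^ 2 := mul_le_mul_of_nonneg_right h2 (sq_nonneg _)
  have t2 : B0 ^ 2 * (2 * K) * (2 * K / (6 * 10 ^ 7 * g ^ 12)) ≤ B0 ^ 2 * K ^ 2 / (10 ^ 7 * g ^ 12) := by
    have : B0 ^ 2 * (2 * K) * (2 * K / (6 * 10 ^ 7 * g ^ 12)) = (4 / 6) * (B0 ^ 2 * K ^ 2 / (10 ^ 7 * g ^ 12)) := by
      field_simp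
      norm_num
    rw [this]
    have : 0 ≤ B0 ^ 2 * K ^ 2 / (10 ^ 7 * g ^ 12) := by positivity
    linarith
  have t3 : B0 ^ 2 * (2 * K) * (4 * a * E) ≤ B0 ^ 2 * K ^ 2 / (10 ^ 8 * g ^ 12) := by
    rw [le_div_iff₀ (by positivity)]
    have h1 : 8 * a * E * (10 ^ 8 * g ^ 12) ≤ K := by
      have h2 := h.Ele
      have h3 := h.biga
      have h4 : (E : ℝ) ≤ s := by
        have : (E : ℝ) * 1 ≤ E * y ^ 11 := mul_le_mul_of_nonneg_left (one_le_pow₀ h.y1) hE1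
        linarith
      have h5 : 8 * (a : ℝ) * (10 ^ 8 * g ^ 12) ≤ y := by
        have h6 : 8 * (a : ℝ) * (10 ^ 8 * g ^ 12) ≤ 10 ^ 10 * a * g ^ 12 * L ^ 2 := by
          have h7 : (1 : ℝ) ≤ L ^ 2 := one_le_pow₀ (by linarith)
          calc 8 * (a : ℝ) * (10 ^ 8 * g ^ 12) = (8 * 10 ^ 8) * a * g ^ 12 * 1 := by ring
            _ ≤ 10 ^ 10 * a * g ^ 12 * L ^ 2 := by gcongr; norm_num
        linarith
      calc 8 * a * E * (10 ^ 8 * g ^ 12) = E * (8 * (a : ℝ) * (10 ^ 8 * g ^ 12)) := by ring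
        _ ≤ s * y := mul_le_mul h4 h5 (by positivity) hs.le
        _ ≤ s ^ 2 * y ^ 24 := by
            have e1 : s ≤ s ^ 2 := le_self_pow₀ h.s1 (by norm_num)
            have e2 : y ≤ y ^ 24 := le_self_pow₀ h.y1 (by norm_num)
            exact mul_le_mul e1 e2 hy.le (by positivity)
        _ ≤ K := h.hK
    calc B0 ^ 2 * (2 * K) * (4 * a * E) * (10 ^ 8 * g ^ 12) = B0 ^ 2 * K * (8 * a * E * (10 ^ 8 * g ^ 12)) := by ring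
      _ ≤ B0 ^ 2 * K * K := mul_le_mul_of_nonneg_left h1 (by positivity)
      _ = _ := by ring
  have hsum : (6 * 10 ^ 7 * g ^ 12) ^ 2 * Δ ^ 2 + B0 ^ 2 * (2 * K) * (2 * K / (6 * 10 ^ 7 * g ^ 12) + 4 * a * E) ≤
      B0 ^ 2 * K ^ 2 / (5 * 10 ^ 6 * g ^ 12) := by
    have e1 : B0 ^ 2 * K ^ 2 / (10 ^ 8 * g ^ 12) + B0 ^ 2 * K ^ 2 / (10 ^ 7 * g ^ 12) + B0 ^ 2 * K ^ 2 / (10 ^ 8 * g ^ 12) ≤
        B0 ^ 2 * K ^ 2 / (5 * 10 ^ 6 * g ^ 12) := by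
      have e2 : B0 ^ 2 * K ^ 2 / (10 ^ 8 * g ^ 12) + B0 ^ 2 * K ^ 2 / (10 ^ 7 * g ^ 12) + B0 ^ 2 * K ^ 2 / (10 ^ 8 * g ^ 12) =
        (12 / 20) * (B0 ^ 2 * K ^ 2 / (5 * 10 ^ 6 * g ^ 12)) := by
        field_simp
        norm_num
      rw [e2]
      have : 0 ≤ B0 ^ 2 * K ^ 2 / (5 * 10 ^ 6 * g ^ 12) := by positivity
      linarith
    rw [mul_add]
    linarith
  have hsq : √lE * √(100 * lq * ((6 * 10 ^ 7 * g ^ 12) ^ 2 * Δ ^ 2 + B0 ^ 2 * (2 * K) * (2 * K / (6 * 10 ^ 7 * g ^ 12) + 4 * a * E))) ≤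
      B0 * K * L / (64 * g ^ 6) := by
    rw [← Real.sqrt_mul hlE0]
    apply Real.sqrt_le_iff.2
    refine ⟨by positivity, ?_⟩
    calc lE * (100 * lq * ((6 * 10 ^ 7 * g ^ 12) ^ 2 * Δ ^ 2 + B0 ^ 2 * (2 * K) * (2 * K / (6 * 10 ^ 7 * g ^ 12) + 4 * a * E))) ≤
        (2 * L) * (100 * (3 * L) * (B0 ^ 2 * K ^ 2 / (5 * 10 ^ 6 * g ^ 12))) := by
          gcongr
      _ = (600 * 4096 / (5 * 10 ^ 6)) * (B0 * K * L / (64 * g ^ 6)) ^ 2 := by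
          field_simp
          ring
      _ ≤ 1 * (B0 * K * L / (64 * g ^ 6)) ^ 2 := by
          apply mul_le_mul_of_nonneg_right (by norm_num) (sq_nonneg _)
      _ = _ := one_mul _
  have hg3 : 1 ≤ g ^ 3 := one_le_pow₀ hg1
  calc 32 * C * B0 * (g ^ 3 + 1) * (√lE * √(100 * lq * ((6 * 10 ^ 7 * g ^ 12) ^ 2 * Δ ^ 2 + B0 ^ 2 * (2 * K) * (2 * K / (6 * 10 ^ 7 * g ^ 12) + 4 * a * E)))) ≤
      32 * C * B0 * (2 * g ^ 3) * (B0 * K * L / (64 * g ^ 6)) := by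
        gcongr
        linarith
    _ = B0 ^ 2 * C * K * L / g ^ 3 := by
        field_simp
        norm_num
    _ ≤ B0 ^ 2 * C * K * L ^ 2 / g ^ 3 := by
        apply div_le_div_of_nonneg_right _ (by positivity)
        have : L ≤ L ^ 2 := le_self_pow₀ (by linarith) (by norm_num)
        exact mul_le_mul_of_nonneg_left this (by positivity)

end Pool.Agent.N792
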