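import Mathlib
import Pool.Agent.N792.TE
import Pool.Agent.N792.TH5

/-!
Cauchy's inequality over a set of moduli (helper792).
-/

set_option autoImplicit false

namespace Pool.Agent.N792

open Finset

/-- the number of the triples `(c, m, ν)` -/
lemma count_S {a b : ℤ} {C M M2 : ℕ} {S : Finset ℕ} (hS : S ⊆ Ioc M M2) (hM : 1 ≤ M)
    (hρ : ∀ m ∈ S, ∑ c ∈ Icc 1 C, (rho a b (c : ℕ) m : ℝ) ≤ 2 * C) :
    ∑ c ∈ Icc 1 C, ∑ m ∈ S, ∑ v ∈ range (2 * m), (if (m : ℤ) ∣ fv a b c v then (1 : ℝ) else 0) ≤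
      4 * C * (M2 - M : ℕ) := by
  rw [sum_comm]
  have h1 : ∀ m ∈ S, ∑ c ∈ Icc 1 C, ∑ v ∈ range (2 * m), (if (m : ℤ) ∣ fv a b (c : ℕ) v then (1 : ℝ) else 0) ≤ 4 * C := by
    intro m hm
    have h2 : ∀ c ∈ Icc 1 C, ∑ v ∈ range (2 * m), (if (m : ℤ) ∣ fv a b (c : ℕ) v then (1 : ℝ) else 0) =
        2 * (rho a b (c : ℕ) m : ℝ) := by
      intro c _
      have h3 : ∀ v : ℕ, ((m : ℤ) ∣ fv a b (c : ℕ) ((m + v : ℕ)) ↔ (m : ℤ) ∣ fv a b (c : ℕ) v) := by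
        intro v
        have h4 : fv a b (c : ℕ) ((m + v : ℕ)) = fv a b (c : ℕ) v + m * (a * (m + 2 * v) + b) := by
          unfold fv
          push_cast
          ring
        rw [h4]
        exact (dvd_add_left (dvd_mul_right _ _))
      rw [two_mul m, sum_range_add]
      have h5 : ∑ v ∈ range m, (if (m : ℤ) ∣ fv a b (c : ℕ) ((m + v : ℕ)) then (1 : ℝ) else 0) =
          ∑ v ∈ range m, (if (m : ℤ) ∣ fv a b (c : ℕ) v then (1 : ℝ) else 0) := by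
        apply sum_congr rfl
        intro v _
        simp only [h3 v]
      rw [h5]
      have h6 : (rho a b (c : ℕ) m : ℝ) = ∑ v ∈ range m, (if (m : ℤ) ∣ fv a b (c : ℕ) v then (1 : ℝ) else 0) := by
        unfold rho
        rw [card_filter]
        push_cast
        rfl
      rw [h6]
      ring
    rw [sum_congr rfl h2, ← mul_sum]
    have := hρ m hm
    linarith
  refine (sum_le_sum h1).trans ?_
  rw [sum_const, nsmul_eq_mul]
  have h2 : #S ≤ M2 - M := by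
    have := card_le_card hS
    rwa [Nat.card_Ioc] at this
  have h3 : (#S : ℝ) ≤ (M2 - M : ℕ) := by exact_mod_cast h2
  calc (#S : ℝ) * (4 * C) ≤ ((M2 - M : ℕ) : ℝ) * (4 * C) := mul_le_mul_of_nonneg_right h3 (by positivity)
    _ = _ := by ring

/-- **Cauchy's inequality** -/
theorem cauchy_step2 {a b : ℤ} {β : ℕ → ℝ} {L : ℝ} {C M M2 m1 m2 n0 N1 K K2 : ℕ} {S : Finset ℕ} (hS : S ⊆ Ioc M M2)
    (hρ : ∀ m ∈ S, ∑ c ∈ Icc 1 C, (rho a b (c : ℕ) m : ℝ) ≤ 2 * C) (hM : 1 ≤ M)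
    (hC : 1 ≤ C) (hm1 : m1 ≤ M) (hm2 : M2 ≤ m2) (hg : ∀ m ∈ Ioc M M2, 1 / 2 ≤ gw L M m) :
    (∑ c ∈ Icc 1 C, ∑ m ∈ S, |Sg a b β n0 N1 K K2 (c : ℕ) m|) ^ 2 ≤
      8 * C * (M2 - M : ℕ) * TT a b β L C M m1 m2 n0 N1 K K2 := by
  have hCR : (1 : ℝ) ≤ C := by exact_mod_cast hC
  have h1 : ∑ c ∈ Icc 1 C, ∑ m ∈ S, |Sg a b β n0 N1 K K2 (c : ℕ) m| ≤
      ∑ c ∈ Icc 1 C, ∑ m ∈ S, ∑ v ∈ range (2 * m), (if (m : ℤ) ∣ fv a b (c : ℕ) v then (1 : ℝ) else 0) *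
        |Sv a b β n0 N1 K K2 (c : ℕ) m v| := by
    apply sum_le_sum
    intro c _
    apply sum_le_sum
    intro m hm
    have hm := mem_Ioc.1 (hS hm)
    rw [Sg_eq a b β n0 N1 K K2 c m (by omega)]
    refine (abs_sum_le_sum_abs _ _).trans ?_
    apply sum_le_sum
    intro v _
    by_cases h : Sv a b β n0 N1 K K2 (c : ℕ) m v = 0
    · rw [h]; simp
    · rw [if_pos (Sv_ne h), one_mul]
  have h0 : 0 ≤ ∑ c ∈ Icc 1 C, ∑ m ∈ S, |Sg a b β n0 N1 K K2 (c : ℕ) m| :=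
    sum_nonneg fun _ _ => sum_nonneg fun _ _ => abs_nonneg _
  refine (pow_le_pow_left₀ h0 h1 2).trans ?_
  -- as sums over sigma types
  set X : Finset (Σ _ : ℕ, Σ _ : ℕ, ℕ) := (Icc 1 C).sigma fun _ => S.sigma fun m => range (2 * m) with hX
  have h2 : ∀ g : ℕ → ℕ → ℕ → ℝ, ∑ c ∈ Icc 1 C, ∑ m ∈ S, ∑ v ∈ range (2 * m), g c m v =
      ∑ i ∈ X, g i.1 i.2.1 i.2.2 := by
    intro g
    rw [hX, sum_sigma]
    apply sum_congr rfl
    intro c _
    rw [sum_sigma]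
  rw [h2]
  refine (sum_mul_sq_le_sq_mul_sq _ _ _).trans ?_
  have h3 : ∑ i ∈ X, (if ((i.2.1 : ℕ) : ℤ) ∣ fv a b (i.1 : ℕ) i.2.2 then (1 : ℝ) else 0) ^ 2 ≤ 4 * C * (M2 - M : ℕ) := by
    have h4 := count_S hS hM hρ
    rw [h2 (fun c m v => if (m : ℤ) ∣ fv a b (c : ℕ) v then (1 : ℝ) else 0)] at h4
    refine le_trans (le_of_eq ?_) h4
    apply sum_congr rfl
    intro i _
    split_ifs <;> simp
  have h5 : ∑ i ∈ X, |Sv a b β n0 N1 K K2 (i.1 : ℕ) i.2.1 i.2.2| ^ 2 ≤ 2 * TT a b β L C M m1 m2 n0 N1 K K2 := by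
    rw [← h2 (fun c m v => |Sv a b β n0 N1 K K2 (c : ℕ) m v| ^ 2)]
    unfold TT
    rw [sum_comm, mul_sum]
    have h6 : ∑ m ∈ S, ∑ c ∈ Icc 1 C, ∑ v ∈ range (2 * m), |Sv a b β n0 N1 K K2 (c : ℕ) m v| ^ 2 ≤
        ∑ m ∈ S, 2 * (gw L M m * ∑ c ∈ Icc (-(C : ℤ)) (2 * C), ∑ v ∈ range (2 * m),
          Ph ((c : ℝ) / C) * (Sv a b β n0 N1 K K2 c m v) ^ 2) := by
      apply sum_le_sum
      intro m hm
      have h7 : ∑ c ∈ Icc 1 C, ∑ v ∈ range (2 * m), |Sv a b β n0 N1 K K2 (c : ℕ) m v| ^ 2 ≤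
          ∑ c ∈ Icc (-(C : ℤ)) (2 * C), ∑ v ∈ range (2 * m), Ph ((c : ℝ) / C) * (Sv a b β n0 N1 K K2 c m v) ^ 2 := by
        have h8 : ∑ c ∈ Icc 1 C, ∑ v ∈ range (2 * m), |Sv a b β n0 N1 K K2 (c : ℕ) m v| ^ 2 =
            ∑ c ∈ (Icc 1 C).image (fun c : ℕ => (c : ℤ)), ∑ v ∈ range (2 * m), |Sv a b β n0 N1 K K2 c m v| ^ 2 := by
          rw [sum_image (fun x _ y _ h => by exact_mod_cast h)]
        rw [h8]
        have h9 : (Icc 1 C).image (fun c : ℕ => (c : ℤ)) ⊆ Icc (-(C : ℤ)) (2 * C) := by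
          intro c hc
          rw [mem_image] at hc
          obtain ⟨c', hc', rfl⟩ := hc
          rw [mem_Icc] at hc' ⊢
          omega
        refine le_trans (sum_le_sum ?_) (sum_le_sum_of_subset_of_nonneg h9 ?_)
        · intro c hc
          rw [mem_image] at hc
          obtain ⟨c', hc', rfl⟩ := hc
          rw [mem_Icc] at hc'
          apply sum_le_sum
          intro v _
          rw [sq_abs]
          have h10 : 1 ≤ Ph ((((c' : ℕ) : ℤ) : ℝ) / C) := by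
            apply Ph_ge_one
            · positivity
            · rw [div_le_one (by linarith)]
              have : (c' : ℝ) ≤ C := by exact_mod_cast hc'.2
              exact_mod_cast this
          have h11 := sq_nonneg (Sv a b β n0 N1 K K2 (((c' : ℕ) : ℤ)) m v)
          nlinarith
        · intro c _ _
          exact sum_nonneg fun v _ => mul_nonneg (Ph_nonneg _) (sq_nonneg _)
      have h12 := hg m (hS hm)
      have h13 : 0 ≤ ∑ c ∈ Icc (-(C : ℤ)) (2 * C), ∑ v ∈ range (2 * m),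
          Ph ((c : ℝ) / C) * (Sv a b β n0 N1 K K2 c m v) ^ 2 :=
        sum_nonneg fun c _ => sum_nonneg fun v _ => mul_nonneg (Ph_nonneg _) (sq_nonneg _)
      nlinarith
    refine h6.trans ?_
    apply sum_le_sum_of_subset_of_nonneg
    · intro m hm
      have hm := mem_Ioc.1 (hS hm)
      rw [mem_Icc]
      omega
    · intro m _ _
      have h13 : 0 ≤ ∑ c ∈ Icc (-(C : ℤ)) (2 * C), ∑ v ∈ range (2 * m),
          Ph ((c : ℝ) / C) * (Sv a b β n0 N1 K K2 c m v) ^ 2 :=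
        sum_nonneg fun c _ => sum_nonneg fun v _ => mul_nonneg (Ph_nonneg _) (sq_nonneg _)
      have := (gw_pos L M m).le
      positivity
  have h14 : 0 ≤ ∑ i ∈ X, |Sv a b β n0 N1 K K2 (i.1 : ℕ) i.2.1 i.2.2| ^ 2 := sum_nonneg fun _ _ => sq_nonneg _
  calc _ ≤ (4 * C * (M2 - M : ℕ)) * (2 * TT a b β L C M m1 m2 n0 N1 K K2) :=
        mul_le_mul h3 h5 h14 (by positivity)
    _ = _ := by ring

end Pool.Agent.N792
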