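import Mathlib
import Pool.Agent.N792.TE
import Pool.Agent.N792.Mtm2

/-!
The decomposition of the type II sums into cells (helper792).
-/

set_option autoImplicit false

namespace Pool.Agent.N792

open Finset

/-- the pair of the cells with the lower ends `K`, `M` is interior -/
def gd (a b : ℤ) (x1 x C t t' K M : ℕ) : Prop :=
  Fn a b x1 + C ≤ M * K ∧ (M + cs t' (M + 1)) * (K + cs t (K + 1)) ≤ Fn a b x

open Classical in
/-- the sum `Sg` for an interior cell -/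
lemma Sg_cell {a b : ℤ} (ha : 0 < a) {x1 x C c m t t' K X : ℕ} {β : ℕ → ℝ} (hx : x1 ≤ x) (hb : 2 * b.natAbs ≤ x1)
    (hc1 : 1 ≤ c) (hcC : c ≤ C) (hm : 2 ^ t' + 1 ≤ m) (hxF : x ≤ Fn a b x1)
    (hX : ∀ n ∈ Ioc x1 x, m ∣ Fn a b n + c → 2 ^ t + 1 ≤ (Fn a b n + c) / m ∧ (Fn a b n + c) / m ≤ X)
    (hK : K ∈ (Icc (2 ^ t + 1) X).image (cl t)) (hg : gd a b x1 x C t t' K (cl t' m)) :
    Sg a b β (2 * b.natAbs) (8 * cl t' m * K) K (K + cs t (K + 1)) (c : ℕ) m =
      ∑ n ∈ (Ioc x1 x).filter (fun n => m ∣ Fn a b n + c ∧ cl t ((Fn a b n + c) / m) = K), β ((Fn a b n + c) / m) := by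
  obtain ⟨hg1, hg2⟩ := hg
  obtain ⟨e1, e2, e3⟩ := Mtm.cell_first hm
  obtain ⟨i, hi, a1, a2, a3, a4, a5, a6, a7, a8⟩ := Mtm.cell_facts hm
  rw [e1] at hg2
  rw [mem_image] at hK
  obtain ⟨k0, hk0, hk0K⟩ := hK
  rw [mem_Icc] at hk0
  have hmpos : 0 < m := by omega
  obtain ⟨g1, g2, g3⟩ := Mtm.cell_first hk0.1
  have hcsK : cs t (K + 1) = cs t k0 := by rw [← hk0K]; exact g1
  unfold Sg
  have hin : ∀ n ∈ Icc (2 * b.natAbs) (8 * cl t' m * K), ∑ k ∈ Ioc K (K + cs t (K + 1)), (if cv a b m k n = ((c : ℕ) : ℤ) then β k else 0) =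
      if (m ∣ Fn a b n + c ∧ K < (Fn a b n + c) / m ∧ (Fn a b n + c) / m ≤ K + cs t (K + 1)) then β ((Fn a b n + c) / m) else 0 := by
    intro n hn
    rw [mem_Icc] at hn
    have hF := Mtm.Fn_cast (b := b) ha (n := n) (by omega)
    have hcv : ∀ k : ℕ, cv a b m k n = ((c : ℕ) : ℤ) ↔ m * k = Fn a b n + c := by
      intro k
      unfold cv
      constructor
      · intro h
        have : ((m * k : ℕ) : ℤ) = ((Fn a b n + c : ℕ) : ℤ) := by push_cast; rw [hF]; linarith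
        exact_mod_cast this
      · intro h
        have : ((m * k : ℕ) : ℤ) = ((Fn a b n + c : ℕ) : ℤ) := by rw [h]
        push_cast at this
        rw [hF] at this
        linarith
    split_ifs with h
    · obtain ⟨h1, h2, h3⟩ := h
      rw [sum_eq_single ((Fn a b n + c) / m)]
      · rw [if_pos]
        rw [hcv]
        exact Nat.mul_div_cancel' h1
      · intro k hk hne
        rw [if_neg]
        rw [hcv]
        intro hh
        apply hne
        rw [← hh, Nat.mul_div_cancel_left _ hmpos]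
      · intro hh
        exact absurd (mem_Ioc.2 ⟨h2, h3⟩) hh
    · apply sum_eq_zero
      intro k hk
      rw [if_neg]
      rw [hcv]
      intro hh
      apply h
      rw [mem_Ioc] at hk
      have hk' : (Fn a b n + c) / m = k := by rw [← hh, Nat.mul_div_cancel_left _ hmpos]
      refine ⟨⟨k, hh.symm⟩, ?_, ?_⟩
      · rw [hk']; exact hk.1
      · rw [hk']; exact hk.2
  rw [sum_congr rfl hin, ← sum_filter]
  apply sum_congr _ (fun _ _ => rfl)
  ext n
  rw [mem_filter, mem_filter, mem_Icc, mem_Ioc]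
  constructor
  · rintro ⟨⟨h1, h2⟩, h3, h4, h5⟩
    have hmk : m * ((Fn a b n + c) / m) = Fn a b n + c := Nat.mul_div_cancel' h3
    set k := (Fn a b n + c) / m with hk
    refine ⟨⟨?_, ?_⟩, h3, ?_⟩
    · by_contra hcon
      have f1 : Fn a b n ≤ Fn a b x1 := Mtm.Fn_mono ha (by omega) (by omega)
      have f2 : cl t' m * K < m * k := Nat.mul_lt_mul_of_lt_of_lt a5 h4
      omega
    · by_contra hcon
      have f1 : Fn a b x ≤ Fn a b n := Mtm.Fn_mono ha (by omega) (by omega)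
      have f2 : m * k ≤ Fn a b x := (Nat.mul_le_mul a6 h5).trans hg2
      omega
    · have := (Mtm.cell_same hk0.1 (k' := k) (by rw [hk0K]; exact h4) (by rw [hk0K, ← hcsK]; exact h5)).2.1
      rw [this, hk0K]
  · rintro ⟨⟨h1, h2⟩, h3, h4⟩
    obtain ⟨h5, h6⟩ := hX n (mem_Ioc.2 ⟨h1, h2⟩) h3
    obtain ⟨j, hj, b1, b2, b3, b4, b5, b6, b7, b8⟩ := Mtm.cell_facts h5
    obtain ⟨p1, p2, p3⟩ := Mtm.cell_first h5
    refine ⟨⟨by omega, ?_⟩, h3, ?_, ?_⟩
    · have h7 : x ≤ cl t' m * K := by omega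
      have h8 : 8 * cl t' m * K = 8 * (cl t' m * K) := by ring
      rw [h8]
      omega
    · rw [← h4]; exact b5
    · rw [← h4, p1]; exact b6

open Classical in
/-- **the decomposition into cells** -/
lemma cell_id {a b : ℤ} (ha : 0 < a) {x1 x C c m t t' X : ℕ} {β : ℕ → ℝ} (hx : x1 ≤ x) (hb : 2 * b.natAbs ≤ x1)
    (hc1 : 1 ≤ c) (hcC : c ≤ C) (hm : 2 ^ t' + 1 ≤ m) (hxF : x ≤ Fn a b x1)
    (hX : ∀ n ∈ Ioc x1 x, m ∣ Fn a b n + c → 2 ^ t + 1 ≤ (Fn a b n + c) / m ∧ (Fn a b n + c) / m ≤ X) :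
    ∑ n ∈ (Ioc x1 x).filter (fun n => m ∣ Fn a b n + c), β ((Fn a b n + c) / m) =
      ∑ K ∈ ((Icc (2 ^ t + 1) X).image (cl t)).filter (fun K => gd a b x1 x C t t' K (cl t' m)),
        Sg a b β (2 * b.natAbs) (8 * cl t' m * K) K (K + cs t (K + 1)) (c : ℕ) m +
      ∑ n ∈ (Ioc x1 x).filter (fun n => m ∣ Fn a b n + c ∧ ¬ gd a b x1 x C t t' (cl t ((Fn a b n + c) / m)) (cl t' m)),
        β ((Fn a b n + c) / m) := by
  rw [← sum_filter_add_sum_filter_not ((Ioc x1 x).filter (fun n => m ∣ Fn a b n + c))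
    (fun n => gd a b x1 x C t t' (cl t ((Fn a b n + c) / m)) (cl t' m)), filter_filter, filter_filter]
  congr 1
  rw [← sum_fiberwise_of_maps_to (s := (Ioc x1 x).filter (fun n => m ∣ Fn a b n + c ∧ gd a b x1 x C t t' (cl t ((Fn a b n + c) / m)) (cl t' m)))
    (t := ((Icc (2 ^ t + 1) X).image (cl t)).filter (fun K => gd a b x1 x C t t' K (cl t' m)))
    (g := fun n => cl t ((Fn a b n + c) / m))]
  · apply sum_congr rfl
    intro K hK
    rw [mem_filter] at hK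
    rw [Sg_cell ha hx hb hc1 hcC hm hxF hX hK.1 hK.2]
    apply sum_congr _ (fun _ _ => rfl)
    ext n
    simp only [mem_filter]
    constructor
    · rintro ⟨⟨h1, h2, h3⟩, h4⟩
      exact ⟨h1, h2, h4⟩
    · rintro ⟨h1, h2, h4⟩
      refine ⟨⟨h1, h2, ?_⟩, h4⟩
      rw [h4]
      exact hK.2
  · intro n hn
    rw [mem_filter] at hn
    rw [mem_filter]
    refine ⟨?_, hn.2.2⟩
    exact mem_image.2 ⟨_, mem_Icc.2 (hX n hn.1 hn.2.1), rfl⟩

end Pool.Agent.N792
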