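import Mathlib
import Pool.Agent.N792.TH1
import Pool.Agent.N792.ShpA

/-!
The boundary cells (helper792).
-/

set_option autoImplicit false

namespace Pool.Agent.N792

open Finset Filter Topology

open Classical in
/-- the number of the rough divisors -/
lemma card_rough_div {z N : ℕ} (hN : N ≠ 0) : ∃ n : ℕ, #(N.divisors.filter (fun m => Rough z m)) ≤ 2 ^ n ∧ z ^ n ≤ N := by
  set N' := (N.divisors.filter (fun m => Rough z m)).lcm id with hN'
  have h1 : N' ∣ N := by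
    apply Finset.lcm_dvd
    intro m hm
    rw [mem_filter, Nat.mem_divisors] at hm
    exact hm.1.1
  have hp : ∀ (s : Finset ℕ) (p : ℕ), p.Prime → p ∣ s.lcm id → ∃ m ∈ s, p ∣ m := by
    intro s p hp
    induction s using Finset.induction_on with
    | empty =>
      intro h
      rw [Finset.lcm_empty] at h
      exact absurd (Nat.dvd_one.1 h) hp.one_lt.ne'
    | insert i s hi ih =>
      intro h
      rw [Finset.lcm_insert] at h
      have h2 : p ∣ id i * s.lcm id := h.trans (lcm_dvd_mul _ _)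
      rcases (hp.dvd_mul).1 h2 with h3 | h3
      · exact ⟨i, mem_insert_self _ _, h3⟩
      · obtain ⟨m, hm, hm2⟩ := ih h3
        exact ⟨m, mem_insert_of_mem hm, hm2⟩
  have h2 : Rough z N' := by
    refine ⟨fun h => hN ?_, ?_⟩
    · rw [h] at h1
      exact Nat.eq_zero_of_zero_dvd h1
    · intro p hpp hpd
      obtain ⟨m, hm, hm2⟩ := hp _ p hpp hpd
      rw [mem_filter] at hm
      exact hm.2.2 p hpp hm2
  have h3 : N.divisors.filter (fun m => Rough z m) ⊆ N'.divisors := by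
    intro m hm
    rw [Nat.mem_divisors]
    exact ⟨Finset.dvd_lcm (f := id) hm, h2.1⟩
  obtain ⟨n, hn1, hn2⟩ := Shp.card_div_rough h2
  exact ⟨n, (card_le_card h3).trans hn1, hn2.trans (Nat.le_of_dvd (Nat.pos_of_ne_zero hN) h1)⟩

/-- the numerical part, lower end -/
lemma bad_real1 {a b u x1 x n c C R : ℝ} (ha : 1 ≤ a) (hb : 2 * |b| ≤ x1) (hx1 : 0 < x1) (hn : x1 ≤ n) (hx : x1 ≤ x)
    (hu0 : 0 ≤ u) (hu1 : u ≤ 1) (hc : 0 ≤ c) (hC : 0 ≤ C) (hCR : C ≤ R * x1) (hR : 1 ≤ R)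
    (h : a * n ^ 2 + b * n + c ≤ (1 + 3 * u) * (a * x1 ^ 2 + b * x1 + C)) : n - x1 ≤ 5 * u * x + 8 * R := by
  have hb1 := neg_abs_le b
  have hb2 := le_abs_self b
  have h3 : (n - x1) * (a * (n + x1) + b) ≤ C + 3 * u * (a * x1 ^ 2 + b * x1 + C) := by
    have : (n - x1) * (a * (n + x1) + b) = (a * n ^ 2 + b * n) - (a * x1 ^ 2 + b * x1) := by ring
    rw [this]
    linarith
  have h4 : a * x1 ≤ a * (n + x1) + b := by
    have : 1 * x1 ≤ a * n := mul_le_mul ha hn hx1.le (by linarith)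
    linarith
  have h5 : (n - x1) * (a * x1) ≤ C + 3 * u * (a * x1 ^ 2 + b * x1 + C) :=
    le_trans (mul_le_mul_of_nonneg_left h4 (by linarith)) h3
  have hax : 0 < a * x1 := by positivity
  have h8 : C ≤ R * (a * x1) := by
    refine hCR.trans (mul_le_mul_of_nonneg_left ?_ (by linarith))
    calc x1 = 1 * x1 := by ring
      _ ≤ a * x1 := mul_le_mul_of_nonneg_right ha hx1.le
  have h10 : a * x1 ^ 2 + b * x1 ≤ (3 / 2 * x) * (a * x1) := by
    have f1 : b * x1 ≤ (x1 / 2) * x1 := mul_le_mul_of_nonneg_right (by linarith) hx1.le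
    have f2 : (x1 / 2) * x1 ≤ (x1 / 2) * (a * x1) := by
      apply mul_le_mul_of_nonneg_left _ (by positivity)
      calc x1 = 1 * x1 := by ring
        _ ≤ a * x1 := mul_le_mul_of_nonneg_right ha hx1.le
    have f3 : (3 / 2 * x1) * (a * x1) ≤ (3 / 2 * x) * (a * x1) := mul_le_mul_of_nonneg_right (by linarith) hax.le
    have f4 : (3 / 2 * x1) * (a * x1) = a * x1 ^ 2 + (x1 / 2) * (a * x1) := by ring
    linarith
  have h9 : 3 * u * (a * x1 ^ 2 + b * x1) ≤ (5 * u * x) * (a * x1) := by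
    calc 3 * u * (a * x1 ^ 2 + b * x1) ≤ 3 * u * ((3 / 2 * x) * (a * x1)) := mul_le_mul_of_nonneg_left h10 (by positivity)
      _ = (9 / 2 * (u * x)) * (a * x1) := by ring
      _ ≤ (5 * (u * x)) * (a * x1) := by
          apply mul_le_mul_of_nonneg_right _ hax.le
          have : 0 ≤ u * x := mul_nonneg hu0 (by linarith)
          linarith
      _ = _ := by ring
  have h12 : 3 * u * C ≤ 3 * C := by
    have : u * C ≤ 1 * C := mul_le_mul_of_nonneg_right hu1 hC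
    linarith
  have h13 : 0 ≤ R * (a * x1) := by positivity
  have h7 : C + 3 * u * (a * x1 ^ 2 + b * x1 + C) ≤ (5 * u * x + 8 * R) * (a * x1) := by
    have e1 : C + 3 * u * (a * x1 ^ 2 + b * x1 + C) = C + 3 * u * (a * x1 ^ 2 + b * x1) + 3 * u * C := by ring
    have e2 : (5 * u * x + 8 * R) * (a * x1) = (5 * u * x) * (a * x1) + 8 * (R * (a * x1)) := by ring
    rw [e1, e2]
    linarith
  exact le_of_mul_le_mul_right (h5.trans h7) hax

/-- the numerical part, upper end -/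
lemma bad_real2 {a b u x1 x n c R : ℝ} (ha : 1 ≤ a) (hb : 2 * |b| ≤ x1) (hx1 : 0 < x1) (hn : x1 ≤ n) (hnx : n ≤ x)
    (hu0 : 0 ≤ u) (hu1 : u ≤ 1) (hc : 0 ≤ c) (hcx : c ≤ x) (hR : 1 ≤ R)
    (h : a * x ^ 2 + b * x ≤ (1 + 3 * u) * (a * n ^ 2 + b * n + c)) : x - n ≤ 5 * u * x + 8 * R := by
  have hb1 := neg_abs_le b
  have hb2 := le_abs_self b
  have hx : 0 < x := by linarith
  have h3 : (x - n) * (a * (x + n) + b) ≤ c + 3 * u * (a * n ^ 2 + b * n + c) := by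
    have : (x - n) * (a * (x + n) + b) = (a * x ^ 2 + b * x) - (a * n ^ 2 + b * n) := by ring
    rw [this]
    linarith
  have h4 : a * x ≤ a * (x + n) + b := by
    have : 1 * x1 ≤ a * n := mul_le_mul ha hn hx1.le (by linarith)
    linarith
  have h5 : (x - n) * (a * x) ≤ c + 3 * u * (a * n ^ 2 + b * n + c) :=
    le_trans (mul_le_mul_of_nonneg_left h4 (by linarith)) h3
  have hax : 0 < a * x := by positivity
  have h8 : c ≤ R * (a * x) := by
    calc c ≤ 1 * (1 * x) := by linarith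
      _ ≤ R * (a * x) := mul_le_mul hR (mul_le_mul_of_nonneg_right ha hx.le) (by positivity) (by positivity)
  have h10 : a * n ^ 2 + b * n ≤ (3 / 2 * x) * (a * x) := by
    have f1 : a * n ^ 2 ≤ a * x ^ 2 := mul_le_mul_of_nonneg_left (pow_le_pow_left₀ (by linarith) hnx 2) (by linarith)
    have f2 : b * n ≤ (x / 2) * x := by
      calc b * n ≤ |b| * n := mul_le_mul_of_nonneg_right hb2 (by linarith)
        _ ≤ (x / 2) * x := mul_le_mul (by linarith) hnx (by linarith) (by linarith)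
    have f3 : (x / 2) * x ≤ (x / 2) * (a * x) := by
      apply mul_le_mul_of_nonneg_left _ (by positivity)
      calc x = 1 * x := by ring
        _ ≤ a * x := mul_le_mul_of_nonneg_right ha hx.le
    have f4 : (3 / 2 * x) * (a * x) = a * x ^ 2 + (x / 2) * (a * x) := by ring
    linarith
  have h9 : 3 * u * (a * n ^ 2 + b * n) ≤ (5 * u * x) * (a * x) := by
    calc 3 * u * (a * n ^ 2 + b * n) ≤ 3 * u * ((3 / 2 * x) * (a * x)) := mul_le_mul_of_nonneg_left h10 (by positivity)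
      _ = (9 / 2 * (u * x)) * (a * x) := by ring
      _ ≤ (5 * (u * x)) * (a * x) := by
          apply mul_le_mul_of_nonneg_right _ hax.le
          have : 0 ≤ u * x := mul_nonneg hu0 (by linarith)
          linarith
      _ = _ := by ring
  have h12 : 3 * u * c ≤ 3 * c := by
    have : u * c ≤ 1 * c := mul_le_mul_of_nonneg_right hu1 hc
    linarith
  have h13 : 0 ≤ R * (a * x) := by positivity
  have h7 : c + 3 * u * (a * n ^ 2 + b * n + c) ≤ (5 * u * x + 8 * R) * (a * x) := by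
    have e1 : c + 3 * u * (a * n ^ 2 + b * n + c) = c + 3 * u * (a * n ^ 2 + b * n) + 3 * u * c := by ring
    have e2 : (5 * u * x + 8 * R) * (a * x) = (5 * u * x) * (a * x) + 8 * (R * (a * x)) := by ring
    rw [e1, e2]
    linarith
  exact le_of_mul_le_mul_right (h5.trans h7) hax

/-- the size of a cell -/
lemma cell_size {t k : ℕ} {u : ℝ} (hk : 2 ^ t + 1 ≤ k) (hu : 1 / (2 : ℝ) ^ t ≤ u) :
    ((cl t k + cs t (cl t k + 1) : ℕ) : ℝ) ≤ (1 + u) * cl t k := by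
  have hlk := Mtm.cell_len hk
  have h1 : ((2 ^ t * cs t (cl t k + 1) : ℕ) : ℝ) ≤ cl t k := by exact_mod_cast hlk
  push_cast at h1 ⊢
  have h2 : (cs t (cl t k + 1) : ℝ) ≤ 1 / 2 ^ t * cl t k := by
    rw [one_div, inv_mul_eq_div, le_div_iff₀ (by positivity)]
    linarith
  have h3 : 1 / (2 : ℝ) ^ t * cl t k ≤ u * cl t k := mul_le_mul_of_nonneg_right hu (Nat.cast_nonneg _)
  linarith

/-- in a boundary cell, `n` is near `x1` or near `x` -/
lemma bad_n {a b : ℤ} (ha : 0 < a) {R x1 x C c m n t t' : ℕ} (hx : x1 < x) (hR : x ≤ R * x1) (hb : 2 * b.natAbs ≤ x1)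
    (hCx : C ≤ x) (hcC : c ≤ C) (hm : 2 ^ t' + 1 ≤ m) (htt : t' ≤ t) (hn : n ∈ Ioc x1 x) (hmn : m ∣ Fn a b n + c)
    (hk : 2 ^ t + 1 ≤ (Fn a b n + c) / m) (hg : ¬ gd a b x1 x C t t' (cl t ((Fn a b n + c) / m)) (cl t' m)) :
    (x : ℝ) - n ≤ 5 * x / 2 ^ t' + 8 * R ∨ (n : ℝ) - x1 ≤ 5 * x / 2 ^ t' + 8 * R := by
  rw [mem_Ioc] at hn
  obtain ⟨e1, e2, e3⟩ := Mtm.cell_first hm
  obtain ⟨i, hi, a1, a2, a3, a4, a5, a6, a7, a8⟩ := Mtm.cell_facts hm
  set k := (Fn a b n + c) / m with hkdef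
  obtain ⟨g1, g2, g3⟩ := Mtm.cell_first hk
  obtain ⟨j, hj, b1, b2, b3, b4, b5, b6, b7, b8⟩ := Mtm.cell_facts hk
  have hmk : m * k = Fn a b n + c := Nat.mul_div_cancel' hmn
  have hu0 : (0 : ℝ) < 1 / 2 ^ t' := by positivity
  have hu1 : 1 / (2 : ℝ) ^ t' ≤ 1 := by
    rw [div_le_one (by positivity)]
    exact one_le_pow₀ (by norm_num)
  have hut : 1 / (2 : ℝ) ^ t ≤ 1 / 2 ^ t' := one_div_le_one_div_of_le (by positivity) (pow_le_pow_right₀ (by norm_num) htt)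
  have hM2 := cell_size hm (le_refl (1 / (2 : ℝ) ^ t'))
  have hK2 := cell_size hk hut
  set M := cl t' m with hM
  set K := cl t k with hK
  set u := 1 / (2 : ℝ) ^ t' with hu
  have hx1pos : 0 < x1 := by
    rcases Nat.eq_zero_or_pos x1 with h | h
    · rw [h] at hR; omega
    · exact h
  have hx1R : (0 : ℝ) < x1 := by exact_mod_cast hx1pos
  have hR1 : (1 : ℝ) ≤ R := by
    have : 1 ≤ R := by
      rcases Nat.eq_zero_or_pos R with h | h
      · rw [h] at hR; omega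
      · exact h
    exact_mod_cast this
  have hm2 : (m : ℝ) ≤ ((M + cs t' (M + 1) : ℕ) : ℝ) := by
    have : m ≤ M + cs t' (M + 1) := by rw [e1]; exact a6
    exact_mod_cast this
  have hk2 : (k : ℝ) ≤ ((K + cs t (K + 1) : ℕ) : ℝ) := by
    have : k ≤ K + cs t (K + 1) := by rw [g1]; exact b6
    exact_mod_cast this
  have hmM : (M : ℝ) ≤ m := by exact_mod_cast a5.le
  have hkK : (K : ℝ) ≤ k := by exact_mod_cast b5.le
  have hFn : ((Fn a b n : ℕ) : ℝ) = a * n ^ 2 + b * n := by exact_mod_cast Mtm.Fn_cast (b := b) ha (n := n) (by omega)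
  have hFx : ((Fn a b x : ℕ) : ℝ) = a * x ^ 2 + b * x := by exact_mod_cast Mtm.Fn_cast (b := b) ha (n := x) (by omega)
  have hF1 : ((Fn a b x1 : ℕ) : ℝ) = a * x1 ^ 2 + b * x1 := by exact_mod_cast Mtm.Fn_cast (b := b) ha (n := x1) (by omega)
  have hmkR : (m : ℝ) * k = a * n ^ 2 + b * n + c := by
    rw [← hFn]
    exact_mod_cast hmk
  have ha1 : (1 : ℝ) ≤ a := by exact_mod_cast ha
  have hbR : 2 * |(b : ℝ)| ≤ x1 := by
    have h1 : ((2 * b.natAbs : ℕ) : ℝ) ≤ x1 := by exact_mod_cast hb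
    push_cast at h1
    rw [Nat.cast_natAbs] at h1
    push_cast at h1
    exact h1
  have hnx1 : (x1 : ℝ) ≤ n := by exact_mod_cast hn.1.le
  have hnx : (n : ℝ) ≤ x := by exact_mod_cast hn.2
  have hCxR : (C : ℝ) ≤ x := by exact_mod_cast hCx
  have hcCR : (c : ℝ) ≤ C := by exact_mod_cast hcC
  have hRR : (x : ℝ) ≤ R * x1 := by exact_mod_cast hR
  have hC0 : (0 : ℝ) ≤ C := Nat.cast_nonneg _
  have hc0 : (0 : ℝ) ≤ c := Nat.cast_nonneg _
  have hM0 : (0 : ℝ) ≤ M := Nat.cast_nonneg _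
  have hK0 : (0 : ℝ) ≤ K := Nat.cast_nonneg _
  have hu2 : (1 + u) * (1 + u) ≤ 1 + 3 * u := by nlinarith only [hu0, hu1]
  have h5u : 5 * (x : ℝ) / 2 ^ t' = 5 * u * x := by rw [hu]; ring
  rw [h5u]
  have hM2K2 : ((M + cs t' (M + 1) : ℕ) : ℝ) * ((K + cs t (K + 1) : ℕ) : ℝ) ≤ (1 + 3 * u) * (M * K) := by
    calc ((M + cs t' (M + 1) : ℕ) : ℝ) * ((K + cs t (K + 1) : ℕ) : ℝ) ≤ ((1 + u) * M) * ((1 + u) * K) :=
          mul_le_mul hM2 hK2 (Nat.cast_nonneg _) (by positivity)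
      _ = ((1 + u) * (1 + u)) * (M * K) := by ring
      _ ≤ _ := mul_le_mul_of_nonneg_right hu2 (by positivity)
  unfold gd at hg
  rw [not_and_or, not_le, not_le] at hg
  rcases hg with hg | hg
  · right
    have h1 : (M : ℝ) * K ≤ a * x1 ^ 2 + b * x1 + C := by
      have : ((M * K : ℕ) : ℝ) ≤ ((Fn a b x1 + C : ℕ) : ℝ) := by exact_mod_cast hg.le
      push_cast at this
      rw [hF1] at this
      exact this
    have h2 : (m : ℝ) * k ≤ (1 + 3 * u) * (a * x1 ^ 2 + b * x1 + C) := by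
      calc (m : ℝ) * k ≤ ((M + cs t' (M + 1) : ℕ) : ℝ) * ((K + cs t (K + 1) : ℕ) : ℝ) :=
            mul_le_mul hm2 hk2 (Nat.cast_nonneg _) (Nat.cast_nonneg _)
        _ ≤ _ := hM2K2
        _ ≤ _ := mul_le_mul_of_nonneg_left h1 (by positivity)
    rw [hmkR] at h2
    exact bad_real1 ha1 hbR hx1R hnx1 (by linarith) hu0.le hu1 hc0 hC0 (by linarith) hR1 h2
  · left
    have h1 : a * (x : ℝ) ^ 2 + b * x ≤ (1 + 3 * u) * (a * n ^ 2 + b * n + c) := by
      have : ((Fn a b x : ℕ) : ℝ) ≤ (((M + cs t' (M + 1)) * (K + cs t (K + 1)) : ℕ) : ℝ) := by exact_mod_cast hg.le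
      rw [hFx, Nat.cast_mul] at this
      refine this.trans (hM2K2.trans ?_)
      rw [← hmkR]
      exact mul_le_mul_of_nonneg_left (mul_le_mul hmM hkK hK0 (Nat.cast_nonneg _)) (by positivity)
    exact bad_real2 ha1 hbR hx1R hnx1 hnx hu0.le hu1 hc0 (by linarith) hR1 h1

/-- the number of the `n` near the ends -/
lemma card_near {x1 x : ℕ} {T : ℝ} (hT : 0 ≤ T) (S : Finset ℕ) (hS : ∀ n ∈ S, n ∈ Ioc x1 x ∧
    ((x : ℝ) - n ≤ T ∨ (n : ℝ) - x1 ≤ T)) : (#S : ℝ) ≤ 2 * T + 1 := by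
  have h1 : S ⊆ Icc (x - ⌊T⌋₊) x ∪ Ioc x1 (x1 + ⌊T⌋₊) := by
    intro n hn
    obtain ⟨h2, h3⟩ := hS n hn
    rw [mem_Ioc] at h2
    rw [mem_union, mem_Icc, mem_Ioc]
    rcases h3 with h3 | h3
    · left
      refine ⟨?_, h2.2⟩
      have h4 : ((x - n : ℕ) : ℝ) ≤ T := by
        rw [Nat.cast_sub h2.2]
        exact h3
      have h5 : x - n ≤ ⌊T⌋₊ := Nat.le_floor h4
      omega
    · right
      refine ⟨h2.1, ?_⟩
      have h4 : ((n - x1 : ℕ) : ℝ) ≤ T := by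
        rw [Nat.cast_sub h2.1.le]
        exact h3
      have h5 : n - x1 ≤ ⌊T⌋₊ := Nat.le_floor h4
      omega
  have h2 : #S ≤ (⌊T⌋₊ + 1) + ⌊T⌋₊ := by
    refine (card_le_card h1).trans ((card_union_le _ _).trans ?_)
    rw [Nat.card_Icc, Nat.card_Ioc]
    omega
  have h3 : (#S : ℝ) ≤ (⌊T⌋₊ + 1) + ⌊T⌋₊ := by exact_mod_cast h2
  have h4 := Nat.floor_le hT
  linarith

/-- the number of the rough divisors is small -/
lemma ev_rough_div (η : ℝ) (hη : 0 < η) : ∀ᶠ x : ℕ in atTop, ∀ z N : ℕ, (x : ℝ) ^ η ≤ z → N ≠ 0 → N ≤ x ^ 3 →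
    ∀ S : Finset ℕ, (∀ m ∈ S, m ∣ N ∧ Rough z m) → (#S : ℝ) ≤ Real.log x := by
  classical
  obtain ⟨n0, hn0⟩ := exists_nat_gt (3 / η)
  filter_upwards [Shp.log_ge (2 ^ n0), eventually_ge_atTop 3] with x hx hx3
  intro z N hz hN hN3 S hS
  obtain ⟨n, hn1, hn2⟩ := card_rough_div (z := z) hN
  have h3 : n ≤ n0 := by
    by_contra hcon
    push Not at hcon
    have hxpos : (0 : ℝ) < x := by
      have : 0 < x := by omega
      exact_mod_cast this
    have hx1 : (1 : ℝ) < x := by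
      have : 1 < x := by omega
      exact_mod_cast this
    have h4 : ((x : ℝ) ^ η) ^ n ≤ (x : ℝ) ^ 3 := by
      calc ((x : ℝ) ^ η) ^ n ≤ (z : ℝ) ^ n := pow_le_pow_left₀ (by positivity) hz n
        _ ≤ (N : ℝ) := by exact_mod_cast hn2
        _ ≤ _ := by exact_mod_cast hN3
    rw [← Real.rpow_natCast, ← Real.rpow_mul hxpos.le, ← Real.rpow_natCast (x : ℝ) 3] at h4
    have h5 := (Real.rpow_le_rpow_left_iff hx1).1 h4
    have h6 : 3 / η < n := hn0.trans (by exact_mod_cast hcon)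
    rw [div_lt_iff₀ hη] at h6
    push_cast at h5
    linarith
  have h4 : S ⊆ N.divisors.filter (fun m => Rough z m) := by
    intro m hm
    rw [mem_filter, Nat.mem_divisors]
    exact ⟨⟨(hS m hm).1, hN⟩, (hS m hm).2⟩
  calc (#S : ℝ) ≤ #(N.divisors.filter (fun m => Rough z m)) := by exact_mod_cast card_le_card h4
    _ ≤ (2 : ℝ) ^ n := by exact_mod_cast hn1
    _ ≤ (2 : ℝ) ^ n0 := pow_le_pow_right₀ (by norm_num) h3
    _ ≤ _ := hx

open Classical in
/-- the boundary part -/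
lemma bad_sum {a b : ℤ} (ha : 0 < a) {R x1 x C t t' z U y : ℕ} {β : ℕ → ℝ} {B0 D : ℝ} (hx : x1 < x) (hR : x ≤ R * x1)
    (hb : 2 * b.natAbs ≤ x1) (hCx : C ≤ x) (hU : 2 ^ t' ≤ U) (htt : t' ≤ t) (hB0 : 0 ≤ B0) (hβ : ∀ k, |β k| ≤ B0)
    (hk : ∀ c ∈ Icc 1 C, ∀ m ∈ Ioc U y, ∀ n ∈ Ioc x1 x, m ∣ Fn a b n + c → 2 ^ t + 1 ≤ (Fn a b n + c) / m)
    (hD : ∀ c ∈ Icc 1 C, ∀ n ∈ Ioc x1 x, ∀ S : Finset ℕ, (∀ m ∈ S, m ∣ Fn a b n + c ∧ Rough z m) → (#S : ℝ) ≤ D) :
    ∑ c ∈ Icc 1 C, ∑ m ∈ Ioc U y, rg z m * |∑ n ∈ (Ioc x1 x).filter (fun n => m ∣ Fn a b n + c ∧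
      ¬ gd a b x1 x C t t' (cl t ((Fn a b n + c) / m)) (cl t' m)), β ((Fn a b n + c) / m)| ≤
      B0 * C * D * (10 * x / 2 ^ t' + 17 * R) := by
  have hR1 : (1 : ℝ) ≤ R := by
    have : 1 ≤ R := by
      rcases Nat.eq_zero_or_pos R with h | h
      · rw [h] at hR; omega
      · exact h
    exact_mod_cast this
  have hc : ∀ c ∈ Icc 1 C, ∑ m ∈ Ioc U y, rg z m * |∑ n ∈ (Ioc x1 x).filter (fun n => m ∣ Fn a b n + c ∧
      ¬ gd a b x1 x C t t' (cl t ((Fn a b n + c) / m)) (cl t' m)), β ((Fn a b n + c) / m)| ≤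
      B0 * D * (10 * x / 2 ^ t' + 17 * R) := by
    intro c hc
    set S0 := (Ioc x1 x).filter (fun n : ℕ => (x : ℝ) - n ≤ 5 * x / 2 ^ t' + 8 * R ∨ (n : ℝ) - x1 ≤ 5 * x / 2 ^ t' + 8 * R) with hS0
    have h1 : ∀ m ∈ Ioc U y, rg z m * |∑ n ∈ (Ioc x1 x).filter (fun n => m ∣ Fn a b n + c ∧
        ¬ gd a b x1 x C t t' (cl t ((Fn a b n + c) / m)) (cl t' m)), β ((Fn a b n + c) / m)| ≤
        ∑ n ∈ S0, if (m ∣ Fn a b n + c ∧ Rough z m) then B0 else 0 := by
      intro m hm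
      by_cases hr : Rough z m
      · have e1 : rg z m = 1 := by unfold rg; rw [if_pos hr]
        rw [e1, one_mul]
        refine (abs_sum_le_sum_abs _ _).trans ((sum_le_sum fun n _ => hβ _).trans ?_)
        rw [← sum_filter]
        apply sum_le_sum_of_subset_of_nonneg
        · intro n hn
          rw [mem_filter] at hn
          rw [mem_filter, hS0, mem_filter]
          refine ⟨⟨hn.1, ?_⟩, hn.2.1, hr⟩
          rw [mem_Ioc] at hm
          rw [mem_Icc] at hc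
          exact bad_n ha hx hR hb hCx hc.2 (by omega) htt hn.1 hn.2.1
            (hk c (mem_Icc.2 hc) m (mem_Ioc.2 hm) n hn.1 hn.2.1) hn.2.2
        · intro _ _ _
          exact hB0
      · have e1 : rg z m = 0 := by unfold rg; rw [if_neg hr]
        rw [e1, zero_mul]
        apply sum_nonneg
        intro n _
        split_ifs
        · exact hB0
        · exact le_rfl
    refine (sum_le_sum h1).trans ?_
    rw [sum_comm]
    have h2 : ∀ n ∈ S0, ∑ m ∈ Ioc U y, (if (m ∣ Fn a b n + c ∧ Rough z m) then B0 else 0) ≤ B0 * D := by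
      intro n hn
      rw [← sum_filter, sum_const, nsmul_eq_mul, mul_comm]
      apply mul_le_mul_of_nonneg_left _ hB0
      apply hD c hc n (mem_filter.1 hn).1
      intro m hm
      exact (mem_filter.1 hm).2
    refine (sum_le_sum h2).trans ?_
    rw [sum_const, nsmul_eq_mul]
    have h3 : (#S0 : ℝ) ≤ 2 * (5 * x / 2 ^ t' + 8 * R) + 1 := by
      apply card_near (by positivity)
      intro n hn
      rw [hS0, mem_filter] at hn
      exact hn
    have hD0 : 0 ≤ D := by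
      have := hD c hc x (mem_Ioc.2 ⟨hx, le_rfl⟩) ∅ (by simp)
      simpa using this
    calc (#S0 : ℝ) * (B0 * D) ≤ (2 * (5 * x / 2 ^ t' + 8 * R) + 1) * (B0 * D) :=
          mul_le_mul_of_nonneg_right h3 (by positivity)
      _ ≤ (10 * x / 2 ^ t' + 17 * R) * (B0 * D) := by
          apply mul_le_mul_of_nonneg_right _ (by positivity)
          have : 2 * (5 * (x : ℝ) / 2 ^ t' + 8 * R) + 1 = 10 * x / 2 ^ t' + 16 * R + 1 := by ring
          rw [this]
          linarith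
      _ = _ := by ring
  refine (sum_le_sum hc).trans ?_
  rw [sum_const, Nat.card_Icc, nsmul_eq_mul, Nat.add_sub_cancel]
  apply le_of_eq
  ring

end Pool.Agent.N792
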