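import Mathlib
import Pool.Agent.N792.TH2
import Pool.Agent.N792.TG6

/-!
The interior cells (helper792).
-/

set_option autoImplicit false

namespace Pool.Agent.N792

open Finset Filter Topology

lemma log2_le {x X : ℕ} (hx : 3 ≤ x) (hX : X ≤ x ^ 3) : ((Nat.log 2 X + 1 : ℕ) : ℝ) ≤ 6 * Real.log x := by
  have hx1 : (1 : ℝ) < x := by
    have : 1 < x := by omega
    exact_mod_cast this
  have hl1 : 1 ≤ Real.log x := by
    have h1 : Real.exp 1 ≤ x := by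
      have := Real.exp_one_lt_d9
      have h2 : (3 : ℝ) ≤ x := by exact_mod_cast hx
      linarith
    calc 1 = Real.log (Real.exp 1) := (Real.log_exp 1).symm
      _ ≤ _ := Real.log_le_log (Real.exp_pos _) h1
  have h2 : Nat.log 2 X ≤ Nat.log 2 (x ^ 3) := Nat.log_mono_right hX
  have h3 : 2 ^ Nat.log 2 (x ^ 3) ≤ x ^ 3 := Nat.pow_log_le_self 2 (by positivity)
  have h4 : ((Nat.log 2 (x ^ 3) : ℕ) : ℝ) * Real.log 2 ≤ 3 * Real.log x := by
    have h5 : ((2 : ℝ) ^ Nat.log 2 (x ^ 3)) ≤ (x : ℝ) ^ 3 := by exact_mod_cast h3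
    have h6 := Real.log_le_log (by positivity) h5
    rw [Real.log_pow, Real.log_pow] at h6
    push_cast at h6
    exact h6
  have h7 := Real.log_two_gt_d9
  have h8 : ((Nat.log 2 (x ^ 3) : ℕ) : ℝ) ≤ 5 * Real.log x := by
    have h9 : ((Nat.log 2 (x ^ 3) : ℕ) : ℝ) * (3 / 5) ≤ 3 * Real.log x := by
      refine le_trans ?_ h4
      apply mul_le_mul_of_nonneg_left _ (Nat.cast_nonneg _)
      linarith
    linarith
  push_cast
  have h9 : ((Nat.log 2 X : ℕ) : ℝ) ≤ Nat.log 2 (x ^ 3) := by exact_mod_cast h2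
  linarith

open Classical in
/-- **the interior cells** -/
theorem inner_bound (a : ℤ) (ha : 0 < a) (b : ℤ) (ε : ℝ) (hε : 0 < ε) (hε1 : ε ≤ 1 / 20) (R B1 : ℕ) :
    ∃ x0 : ℕ, ∀ x : ℕ, x0 ≤ x → ∀ (x1 C U y t X : ℕ) (β : ℕ → ℝ) (B0 : ℝ), x1 < x → x ≤ R * x1 →
    (x : ℝ) ^ (1 - ε / 3) ≤ C → C ≤ x → (x : ℝ) ^ (1 / 2 + 2 * ε) ≤ U → (y : ℝ) ≤ (x : ℝ) ^ (1 - 2 * ε) → y ≤ X →
    X ≤ x ^ 3 → Real.log x ≤ (2 : ℝ) ^ t → (2 : ℝ) ^ (4 * t) ≤ Real.log x ^ B1 → 1 ≤ B0 → (∀ k, |β k| ≤ B0) →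
    (∀ i v q r : ℕ, x ≤ 2 ^ i → 2 ^ (i + 1) ≤ x ^ 2 → 2 ^ i ≤ v → v ≤ 2 ^ (i + 1) → 1 ≤ q → q ≤ 6 * 10 ^ 7 * 2 ^ (12 * (4 * t)) →
      |∑ k ∈ (Ioc (2 ^ i) v).filter (fun k => k ≡ r [MOD q]), β k| * (2 * (10 ^ 12 * (2 : ℝ) ^ (18 * (4 * t)))) ≤ (2 : ℝ) ^ i) →
    ∑ c ∈ Icc 1 C, ∑ m ∈ Ioc U y, |∑ K ∈ ((Icc (2 ^ (4 * t) + 1) X).image (cl (4 * t))).filter
        (fun K => gd a b x1 x C (4 * t) t K (cl t m)),
        Sg a b β (2 * b.natAbs) (8 * cl t m * K) K (K + cs (4 * t) (K + 1)) (c : ℕ) m| ≤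
      B0 * (C * x) * Real.log x ^ 5 / (2 : ℝ) ^ t := by
  obtain ⟨x0, hcell⟩ := cell_bound a ha b ε hε (by linarith) B1
  have e1 : ∀ᶠ x : ℕ in atTop, (200 : ℝ) ≤ Real.log x := Shp.log_ge 200
  have e2 := ev_log_pow (8 * ((a : ℝ) + 1) * (R + 1) ^ 2) 0 (δ := ε) (by positivity)
  have e3 : ∀ᶠ x : ℕ in atTop, (8 * ((a : ℝ) + 1) * (R + 1) ^ 2) ≤ Real.log x := Shp.log_ge _
  have e4 := ev_log_pow 2 B1 (δ := 1 / 2) (by positivity)
  have e5 : ∀ᶠ x : ℕ in atTop, 4 * (R + 1) * (b.natAbs + 1) ≤ x := eventually_ge_atTop _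
  obtain ⟨x2, hx2⟩ := eventually_atTop.1 ((((e1.and e2).and e3).and e4).and e5)
  refine ⟨max x0 (max x2 3), fun x hx x1 C U y t X β B0 hx1 hR hC1 hC2 hU hy hyX hX3 ht1 ht2 hB0 hβ hH => ?_⟩
  have hxx0 : x0 ≤ x := (le_max_left _ _).trans hx
  have hx3 : 3 ≤ x := (le_max_right _ _).trans ((le_max_right _ _).trans hx)
  obtain ⟨⟨⟨⟨f1, f2⟩, f3⟩, f4⟩, f5⟩ := hx2 x ((le_max_left _ _).trans ((le_max_right _ _).trans hx))
  rw [pow_zero, mul_one] at f2
  have hxpos : (0 : ℝ) < x := by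
    have : 0 < x := by omega
    exact_mod_cast this
  have hx1' : (1 : ℝ) ≤ x := by
    have : 1 ≤ x := by omega
    exact_mod_cast this
  set L := Real.log x with hL
  have hL0 : 0 < L := by linarith
  have ha1 : (1 : ℝ) ≤ a := by exact_mod_cast ha
  have hRpos : 1 ≤ R := by
    rcases Nat.eq_zero_or_pos R with h | h
    · rw [h] at hR; omega
    · exact h
  have hRR : (1 : ℝ) ≤ R := by exact_mod_cast hRpos
  have hR4 : 1 ≤ ((R : ℝ) + 1) ^ 2 := one_le_pow₀ (by linarith)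
  have hcA : (2 * (R : ℝ) ^ 2) ≤ 8 * ((a : ℝ) + 1) * (R + 1) ^ 2 := by
    have h3 : (R : ℝ) ^ 2 ≤ (R + 1) ^ 2 := pow_le_pow_left₀ (by linarith) (by linarith) 2
    have h5 : 2 * ((R : ℝ) + 1) ^ 2 ≤ 8 * ((a : ℝ) + 1) * (R + 1) ^ 2 := mul_le_mul_of_nonneg_right (by linarith) (by positivity)
    linarith
  have hcB : (4 * (a : ℝ)) ≤ 8 * ((a : ℝ) + 1) * (R + 1) ^ 2 := by
    have h5 : 8 * ((a : ℝ) + 1) * 1 ≤ 8 * ((a : ℝ) + 1) * (R + 1) ^ 2 := mul_le_mul_of_nonneg_left hR4 (by positivity)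
    linarith
  have hcC : (2 : ℝ) ≤ 8 * ((a : ℝ) + 1) * (R + 1) ^ 2 := by
    have h5 : 8 * ((a : ℝ) + 1) * 1 ≤ 8 * ((a : ℝ) + 1) * (R + 1) ^ 2 := mul_le_mul_of_nonneg_left hR4 (by positivity)
    linarith
  have hx1b : 2 * b.natAbs ≤ x1 := by
    by_contra hcon
    push Not at hcon
    have h1 : R * x1 ≤ R * (2 * b.natAbs) := Nat.mul_le_mul_left _ hcon.le
    have h2 : R * (2 * b.natAbs) < 4 * (R + 1) * (b.natAbs + 1) := by nlinarith
    omega
  have hx1pos : 0 < x1 := by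
    rcases Nat.eq_zero_or_pos x1 with h | h
    · rw [h] at hR; omega
    · exact h
  have hx1R : (0 : ℝ) < x1 := by exact_mod_cast hx1pos
  have hRx : (x : ℝ) ≤ R * x1 := by exact_mod_cast hR
  have hbR : 2 * |(b : ℝ)| ≤ x1 := by
    have h1 : ((2 * b.natAbs : ℕ) : ℝ) ≤ x1 := by exact_mod_cast hx1b
    push_cast at h1
    rw [Nat.cast_natAbs] at h1
    push_cast at h1
    exact h1
  have hb1 := neg_abs_le (b : ℝ)
  have hb2 := le_abs_self (b : ℝ)
  have hFx : ((Fn a b x : ℕ) : ℝ) = a * x ^ 2 + b * x := by exact_mod_cast Mtm.Fn_cast (b := b) ha (n := x) (by omega)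
  have hF1 : ((Fn a b x1 : ℕ) : ℝ) = a * x1 ^ 2 + b * x1 := by exact_mod_cast Mtm.Fn_cast (b := b) ha (n := x1) (by omega)
  have hx1x : (x1 : ℝ) ≤ x := by exact_mod_cast hx1.le
  have hFx2 : ((Fn a b x : ℕ) : ℝ) ≤ 2 * a * x ^ 2 := by
    rw [hFx]
    have h1 : (b : ℝ) * x ≤ x * x := mul_le_mul_of_nonneg_right (by linarith) hxpos.le
    have h2 : (x : ℝ) * x ≤ a * (x * x) := by nlinarith
    nlinarith
  have hF12 : (x : ℝ) ^ 2 / (2 * R ^ 2) ≤ ((Fn a b x1 : ℕ) : ℝ) := by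
    rw [hF1, div_le_iff₀ (by positivity)]
    have h1 : (x : ℝ) ^ 2 ≤ (R * x1) ^ 2 := pow_le_pow_left₀ hxpos.le hRx 2
    have h2 : (x1 : ℝ) ^ 2 / 2 ≤ a * x1 ^ 2 + b * x1 := by nlinarith
    calc (x : ℝ) ^ 2 ≤ (R * x1) ^ 2 := h1
      _ = (x1 : ℝ) ^ 2 / 2 * (2 * R ^ 2) := by ring
      _ ≤ _ := mul_le_mul_of_nonneg_right h2 (by positivity)
  have ht1' : (1 : ℝ) ≤ 2 ^ t := one_le_pow₀ (by norm_num)
  have hUt : 2 ^ t ≤ U := by
    have h1 : (2 : ℝ) ^ t ≤ U := by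
      calc (2 : ℝ) ^ t ≤ (2 : ℝ) ^ (4 * t) := pow_le_pow_right₀ (by norm_num) (by omega)
        _ ≤ L ^ B1 := ht2
        _ ≤ 2 * L ^ B1 := by
            have : 0 < L ^ B1 := pow_pos hL0 _
            linarith
        _ ≤ (x : ℝ) ^ (1 / 2 : ℝ) := f4
        _ ≤ (x : ℝ) ^ (1 / 2 + 2 * ε) := Real.rpow_le_rpow_of_exponent_le hx1' (by linarith)
        _ ≤ U := hU
    exact_mod_cast h1
  -- reorganize the sum
  set 𝒦 := (Icc (2 ^ (4 * t) + 1) X).image (cl (4 * t)) with h𝒦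
  set ℳ := (Ioc U y).image (cl t) with hℳ
  set Bd := B0 * (C * x) * L ^ 2 / (2 : ℝ) ^ (3 * (2 * t)) with hBd
  have hBd0 : 0 ≤ Bd := by positivity
  have key : ∀ M ∈ ℳ, ∀ K ∈ 𝒦, gd a b x1 x C (4 * t) t K M →
      ∑ c ∈ Icc 1 C, ∑ m ∈ Ioc M (M + cs t (M + 1)), |Sg a b β (2 * b.natAbs) (8 * M * K) K (K + cs (4 * t) (K + 1)) (c : ℕ) m| ≤ Bd := by
    intro M hM K hK hgd
    rw [hℳ, mem_image] at hM
    obtain ⟨m0, hm0, hm0M⟩ := hM
    rw [h𝒦, mem_image] at hK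
    obtain ⟨k0, hk0, hk0K⟩ := hK
    rw [mem_Ioc] at hm0
    rw [mem_Icc] at hk0
    have hm0' : 2 ^ t + 1 ≤ m0 := by omega
    obtain ⟨g1, g2⟩ := hgd
    obtain ⟨e1, e2, e3⟩ := Mtm.cell_first hm0'
    obtain ⟨i, hi, a1, a2, a3, a4, a5, a6, a7, a8⟩ := Mtm.cell_facts hm0'
    obtain ⟨p1, p2, p3⟩ := Mtm.cell_first hk0.1
    obtain ⟨j, hj, b1, b2, b3, b4, b5, b6, b7, b8⟩ := Mtm.cell_facts hk0.1
    have hMs := cell_size (u := 1 / (2 : ℝ) ^ t) hm0' le_rfl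
    have hKs := cell_size (u := 1 / (2 : ℝ) ^ (4 * t)) hk0.1 le_rfl
    rw [hm0M] at e1 e2 e3 a5 a6 a7 a8 hMs
    rw [hk0K] at p1 p2 p3 b5 b6 b7 b8 hKs
    have hM0pos : (0 : ℝ) < M := by
      have : 0 < M := by
        have : 0 < 2 ^ i := by positivity
        omega
      exact_mod_cast this
    have hK0pos : (0 : ℝ) < K := by
      have : 0 < K := by
        have : 0 < 2 ^ j := by positivity
        omega
      exact_mod_cast this
    have hMU : (U : ℝ) ≤ 2 * M := by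
      have h1 : (m0 : ℝ) ≤ ((M + cs t (M + 1) : ℕ) : ℝ) := by
        have : m0 ≤ M + cs t (M + 1) := by rw [e1]; exact a6
        exact_mod_cast this
      have h2 : (U : ℝ) ≤ m0 := by exact_mod_cast hm0.1.le
      have h3 : (1 + 1 / (2 : ℝ) ^ t) * M ≤ 2 * M := by
        apply mul_le_mul_of_nonneg_right _ hM0pos.le
        have : 1 / (2 : ℝ) ^ t ≤ 1 := by rw [div_le_one (by positivity)]; exact ht1'
        linarith
      linarith
    have hMy : (M : ℝ) ≤ y := by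
      have : M ≤ y := by omega
      exact_mod_cast this
    have hMK1 : (x : ℝ) ^ 2 / (2 * R ^ 2) ≤ M * K := by
      have h1 : ((Fn a b x1 + C : ℕ) : ℝ) ≤ ((M * K : ℕ) : ℝ) := by exact_mod_cast g1
      push_cast at h1
      have : (0 : ℝ) ≤ C := Nat.cast_nonneg _
      linarith
    have hMK2 : (M : ℝ) * K ≤ 2 * a * x ^ 2 := by
      have h1 : (((M + cs t (M + 1)) * (K + cs (4 * t) (K + 1)) : ℕ) : ℝ) ≤ Fn a b x := by exact_mod_cast g2
      have h2 : ((M * K : ℕ) : ℝ) ≤ (((M + cs t (M + 1)) * (K + cs (4 * t) (K + 1)) : ℕ) : ℝ) := by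
        have : M * K ≤ (M + cs t (M + 1)) * (K + cs (4 * t) (K + 1)) := Nat.mul_le_mul (by omega) (by omega)
        exact_mod_cast this
      push_cast at h2
      push_cast at h1
      linarith
    -- bounds for `K`
    have hK1 : (x : ℝ) ^ (1 + ε) ≤ K := by
      have h1 : (x : ℝ) ^ 2 ≤ (2 * R ^ 2) * ((x : ℝ) ^ (1 - 2 * ε) * K) := by
        calc (x : ℝ) ^ 2 = (2 * (R : ℝ) ^ 2) * ((x : ℝ) ^ 2 / (2 * (R : ℝ) ^ 2)) := by field_simp
          _ ≤ (2 * (R : ℝ) ^ 2) * ((M : ℝ) * K) := mul_le_mul_of_nonneg_left hMK1 (by positivity)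
          _ ≤ (2 * (R : ℝ) ^ 2) * ((x : ℝ) ^ (1 - 2 * ε) * K) := by
              apply mul_le_mul_of_nonneg_left _ (by positivity)
              exact mul_le_mul_of_nonneg_right (hMy.trans hy) hK0pos.le
      have h2 : (2 * (R : ℝ) ^ 2) ≤ (x : ℝ) ^ ε := hcA.trans f2
      have h3 : (x : ℝ) ^ (1 - ε) * (x : ℝ) ^ (1 + ε) ≤ (x : ℝ) ^ (1 - ε) * K := by
        calc (x : ℝ) ^ (1 - ε) * (x : ℝ) ^ (1 + ε) = (x : ℝ) ^ 2 := by
              rw [← Real.rpow_add hxpos, ← Real.rpow_natCast]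
              congr 1
              push_cast
              ring
          _ ≤ (2 * R ^ 2) * ((x : ℝ) ^ (1 - 2 * ε) * K) := h1
          _ ≤ (x : ℝ) ^ ε * ((x : ℝ) ^ (1 - 2 * ε) * K) := mul_le_mul_of_nonneg_right h2 (by positivity)
          _ = ((x : ℝ) ^ ε * (x : ℝ) ^ (1 - 2 * ε)) * K := by ring
          _ = _ := by
              rw [← Real.rpow_add hxpos]
              congr 2
              ring
      exact le_of_mul_le_mul_left h3 (Real.rpow_pos_of_pos hxpos _)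
    have hK2 : (K : ℝ) ≤ (x : ℝ) ^ (3 / 2 - ε) := by
      have h1 : (x : ℝ) ^ (1 / 2 + 2 * ε) * K ≤ (4 * a) * (x : ℝ) ^ 2 := by
        calc (x : ℝ) ^ (1 / 2 + 2 * ε) * K ≤ (2 * M) * K := mul_le_mul_of_nonneg_right (hU.trans hMU) hK0pos.le
          _ = 2 * (M * K) := by ring
          _ ≤ _ := by linarith
      have h2 : (4 * (a : ℝ)) ≤ (x : ℝ) ^ ε := hcB.trans f2
      have h3 : (x : ℝ) ^ (1 / 2 + 2 * ε) * K ≤ (x : ℝ) ^ (1 / 2 + 2 * ε) * (x : ℝ) ^ (3 / 2 - ε) := by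
        calc (x : ℝ) ^ (1 / 2 + 2 * ε) * K ≤ (4 * a) * (x : ℝ) ^ 2 := h1
          _ ≤ (x : ℝ) ^ ε * (x : ℝ) ^ 2 := mul_le_mul_of_nonneg_right h2 (by positivity)
          _ = _ := by
              rw [← Real.rpow_add hxpos, ← Real.rpow_natCast (x : ℝ) 2, ← Real.rpow_add hxpos]
              congr 1
              push_cast
              ring
      exact le_of_mul_le_mul_left h3 (Real.rpow_pos_of_pos hxpos _)
    have hc1 : (x : ℝ) ^ 2 ≤ M * K * L := by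
      have h2 : (2 * (R : ℝ) ^ 2) ≤ L := hcA.trans f3
      calc (x : ℝ) ^ 2 = ((x : ℝ) ^ 2 / (2 * R ^ 2)) * (2 * R ^ 2) := by field_simp
        _ ≤ (M * K) * L := mul_le_mul hMK1 h2 (by positivity) (by positivity)
    have hc2 : (M : ℝ) * K ≤ (x : ℝ) ^ 2 * L := by
      have h2 : (2 * (a : ℝ)) ≤ L := by linarith [hcB.trans f3]
      calc (M : ℝ) * K ≤ 2 * a * x ^ 2 := hMK2
        _ ≤ L * x ^ 2 := mul_le_mul_of_nonneg_right h2 (by positivity)
        _ = _ := by ring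
    have hM2C : M + cs t (M + 1) ≤ C := by
      have h1 : ((M + cs t (M + 1) : ℕ) : ℝ) ≤ C := by
        calc ((M + cs t (M + 1) : ℕ) : ℝ) ≤ (1 + 1 / (2 : ℝ) ^ t) * M := hMs
          _ ≤ 2 * M := by
              apply mul_le_mul_of_nonneg_right _ hM0pos.le
              have : 1 / (2 : ℝ) ^ t ≤ 1 := by rw [div_le_one (by positivity)]; exact ht1'
              linarith
          _ ≤ (x : ℝ) ^ ε * (x : ℝ) ^ (1 - 2 * ε) := by
              apply mul_le_mul _ (hMy.trans hy) hM0pos.le (by positivity)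
              exact hcC.trans f2
          _ = (x : ℝ) ^ (1 - ε) := by
              rw [← Real.rpow_add hxpos]
              congr 1
              ring
          _ ≤ (x : ℝ) ^ (1 - ε / 3) := Real.rpow_le_rpow_of_exponent_le hx1' (by linarith)
          _ ≤ C := hC1
      exact_mod_cast h1
    have hM2L : ((M + cs t (M + 1) : ℕ) : ℝ) ≤ M * (1 + 1 / L) := by
      refine hMs.trans ?_
      rw [mul_comm]
      apply mul_le_mul_of_nonneg_left _ hM0pos.le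
      have : 1 / (2 : ℝ) ^ t ≤ 1 / L := one_div_le_one_div_of_le hL0 ht1
      linarith
    have hKx : (K : ℝ) * 2 ≤ (x : ℝ) ^ 2 := by
      calc (K : ℝ) * 2 ≤ (x : ℝ) ^ (3 / 2 - ε) * (x : ℝ) ^ ε := by
            apply mul_le_mul hK2 _ (by norm_num) (by positivity)
            exact hcC.trans f2
        _ = (x : ℝ) ^ (3 / 2 : ℝ) := by
            rw [← Real.rpow_add hxpos]
            congr 1
            ring
        _ ≤ (x : ℝ) ^ (2 : ℝ) := Real.rpow_le_rpow_of_exponent_le hx1' (by norm_num)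
        _ = (x : ℝ) ^ 2 := by
            rw [← Real.rpow_natCast]
            norm_num
    have hj1 : 2 ^ (j + 1) ≤ x ^ 2 := by
      have h1 : 2 ^ (j + 1) ≤ K * 2 := by rw [pow_succ]; omega
      have h2 : ((2 ^ (j + 1) : ℕ) : ℝ) ≤ (x : ℝ) ^ 2 := by
        calc ((2 ^ (j + 1) : ℕ) : ℝ) ≤ ((K * 2 : ℕ) : ℝ) := by exact_mod_cast h1
          _ = (K : ℝ) * 2 := by push_cast; ring
          _ ≤ _ := hKx
      exact_mod_cast h2
    have hj2 : x ≤ 2 ^ j := by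
      have h1 : (x : ℝ) * 2 ≤ K := by
        calc (x : ℝ) * 2 ≤ (x : ℝ) ^ (1 : ℝ) * (x : ℝ) ^ ε := by
              rw [Real.rpow_one]
              apply mul_le_mul_of_nonneg_left _ hxpos.le
              exact hcC.trans f2
          _ = (x : ℝ) ^ (1 + ε) := by rw [← Real.rpow_add hxpos]
          _ ≤ K := hK1
      have h2 : x * 2 ≤ K := by exact_mod_cast h1
      have h3 : K < 2 ^ (j + 1) := by
        have : 0 < cs (4 * t) k0 := Mtm.cs_pos _ _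
        omega
      rw [pow_succ] at h3
      omega
    have := hcell x hxx0 C M (M + cs t (M + 1)) K (K + cs (4 * t) (K + 1)) (2 * t) β B0 hC1 hC2 hK1 hK2 hc1 hc2
      (Nat.le_add_right _ _) hM2C hM2L (by
        have : 2 * (2 * t) = 4 * t := by ring
        rw [this]; exact ht2) (Nat.le_add_right _ _) (by
        have : 2 * (2 * t) = 4 * t := by ring
        rw [this]; exact hKs) hB0 hβ (by
        intro v hv1 hv2 q hq r
        rw [mem_Icc] at hq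
        have e44 : 2 * (2 * t) = 4 * t := by ring
        rw [e44] at hq ⊢
        have hd1 := hH j v q r hj2 hj1 (by omega) (by omega) hq.1 hq.2
        have hd2 := hH j K q r hj2 hj1 b7 (by omega) hq.1 hq.2
        have hsplit : ∑ k ∈ (Ioc (2 ^ j) v).filter (fun k => k ≡ r [MOD q]), β k =
            ∑ k ∈ (Ioc (2 ^ j) K).filter (fun k => k ≡ r [MOD q]), β k +
            ∑ k ∈ (Ioc K v).filter (fun k => k ≡ r [MOD q]), β k := by
          rw [← sum_union]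
          · congr 1
            rw [← filter_union, Ioc_union_Ioc_eq_Ioc b7 hv1]
          · rw [disjoint_left]
            intro k hk1 hk2
            rw [mem_filter, mem_Ioc] at hk1 hk2
            omega
        have hP : (0 : ℝ) < 10 ^ 12 * (2 : ℝ) ^ (18 * (4 * t)) := by positivity
        have h2j : (2 : ℝ) ^ j ≤ K := by exact_mod_cast b7
        have habs : |∑ k ∈ (Ioc K v).filter (fun k => k ≡ r [MOD q]), β k| ≤
            |∑ k ∈ (Ioc (2 ^ j) v).filter (fun k => k ≡ r [MOD q]), β k| +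
            |∑ k ∈ (Ioc (2 ^ j) K).filter (fun k => k ≡ r [MOD q]), β k| := by
          have : ∑ k ∈ (Ioc K v).filter (fun k => k ≡ r [MOD q]), β k =
            ∑ k ∈ (Ioc (2 ^ j) v).filter (fun k => k ≡ r [MOD q]), β k -
            ∑ k ∈ (Ioc (2 ^ j) K).filter (fun k => k ≡ r [MOD q]), β k := by rw [hsplit]; ring
          rw [this]
          exact abs_sub _ _
        calc |∑ k ∈ (Ioc K v).filter (fun k => k ≡ r [MOD q]), β k| * (10 ^ 12 * (2 : ℝ) ^ (18 * (4 * t))) ≤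
            (|∑ k ∈ (Ioc (2 ^ j) v).filter (fun k => k ≡ r [MOD q]), β k| +
            |∑ k ∈ (Ioc (2 ^ j) K).filter (fun k => k ≡ r [MOD q]), β k|) * (10 ^ 12 * (2 : ℝ) ^ (18 * (4 * t))) :=
              mul_le_mul_of_nonneg_right habs hP.le
          _ ≤ K := by linarith)
    exact this
  -- the sum over the cells
  have h1 : ∀ c ∈ Icc 1 C, ∑ m ∈ Ioc U y, |∑ K ∈ 𝒦.filter (fun K => gd a b x1 x C (4 * t) t K (cl t m)),
        Sg a b β (2 * b.natAbs) (8 * cl t m * K) K (K + cs (4 * t) (K + 1)) (c : ℕ) m| ≤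
      ∑ M ∈ ℳ, ∑ K ∈ 𝒦.filter (fun K => gd a b x1 x C (4 * t) t K M), ∑ m ∈ Ioc M (M + cs t (M + 1)),
        |Sg a b β (2 * b.natAbs) (8 * M * K) K (K + cs (4 * t) (K + 1)) (c : ℕ) m| := by
    intro c _
    rw [← sum_fiberwise_of_maps_to (s := Ioc U y) (t := ℳ) (g := cl t) (fun m hm => mem_image_of_mem _ hm)]
    apply sum_le_sum
    intro M hM
    rw [sum_comm]
    have h2 : ∀ m ∈ (Ioc U y).filter (fun m => cl t m = M), |∑ K ∈ 𝒦.filter (fun K => gd a b x1 x C (4 * t) t K (cl t m)),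
        Sg a b β (2 * b.natAbs) (8 * cl t m * K) K (K + cs (4 * t) (K + 1)) (c : ℕ) m| ≤
        ∑ K ∈ 𝒦.filter (fun K => gd a b x1 x C (4 * t) t K M),
        |Sg a b β (2 * b.natAbs) (8 * M * K) K (K + cs (4 * t) (K + 1)) (c : ℕ) m| := by
      intro m hm
      rw [mem_filter] at hm
      rw [hm.2]
      exact abs_sum_le_sum_abs _ _
    refine (sum_le_sum h2).trans ?_
    apply sum_le_sum_of_subset_of_nonneg
    · intro m hm
      rw [mem_filter, mem_Ioc] at hm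
      have hm' : 2 ^ t + 1 ≤ m := by omega
      obtain ⟨e1, e2, e3⟩ := Mtm.cell_first hm'
      obtain ⟨i, hi, a1, a2, a3, a4, a5, a6, a7, a8⟩ := Mtm.cell_facts hm'
      rw [hm.2] at e1 a5 a6
      rw [mem_Ioc, e1]
      exact ⟨a5, a6⟩
    · intro _ _ _
      exact sum_nonneg fun _ _ => abs_nonneg _
  refine (sum_le_sum h1).trans ?_
  rw [sum_comm]
  have h2 : ∀ M ∈ ℳ, ∑ c ∈ Icc 1 C, ∑ K ∈ 𝒦.filter (fun K => gd a b x1 x C (4 * t) t K M), ∑ m ∈ Ioc M (M + cs t (M + 1)),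
        |Sg a b β (2 * b.natAbs) (8 * M * K) K (K + cs (4 * t) (K + 1)) (c : ℕ) m| ≤ #𝒦 * Bd := by
    intro M hM
    rw [sum_comm]
    refine (sum_le_sum fun K hK => key M hM K (mem_filter.1 hK).1 (mem_filter.1 hK).2).trans ?_
    rw [sum_const, nsmul_eq_mul]
    apply mul_le_mul_of_nonneg_right _ hBd0
    exact_mod_cast card_filter_le _ _
  refine (sum_le_sum h2).trans ?_
  rw [sum_const, nsmul_eq_mul]
  have hcK : (#𝒦 : ℝ) ≤ 6 * L * (2 * 2 ^ (4 * t)) := by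
    have h3 := Mtm.card_cells (4 * t) X
    calc (#𝒦 : ℝ) ≤ (((Nat.log 2 X + 1) * 2 ^ (4 * t + 1) : ℕ) : ℝ) := by exact_mod_cast h3
      _ = ((Nat.log 2 X + 1 : ℕ) : ℝ) * (2 * 2 ^ (4 * t)) := by push_cast; ring
      _ ≤ _ := mul_le_mul_of_nonneg_right (log2_le hx3 hX3) (by positivity)
  have hcM : (#ℳ : ℝ) ≤ 6 * L * (2 * 2 ^ t) := by
    have h3 := Mtm.card_cells t X
    have h4 : ℳ ⊆ (Icc (2 ^ t + 1) X).image (cl t) := by
      apply image_subset_image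
      intro m hm
      rw [mem_Ioc] at hm
      rw [mem_Icc]
      omega
    calc (#ℳ : ℝ) ≤ (((Nat.log 2 X + 1) * 2 ^ (t + 1) : ℕ) : ℝ) := by exact_mod_cast (card_le_card h4).trans h3
      _ = ((Nat.log 2 X + 1 : ℕ) : ℝ) * (2 * 2 ^ t) := by push_cast; ring
      _ ≤ _ := mul_le_mul_of_nonneg_right (log2_le hx3 hX3) (by positivity)
  have e6 : (2 : ℝ) ^ (3 * (2 * t)) = (2 ^ t) ^ 6 := by rw [← pow_mul]; congr 1; ring
  have e7 : (2 : ℝ) ^ (4 * t) = (2 ^ t) ^ 4 := by rw [← pow_mul]; congr 1; ring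
  set G := (2 : ℝ) ^ t with hG
  have hG0 : 0 < G := by positivity
  calc (#ℳ : ℝ) * (#𝒦 * Bd) ≤ (6 * L * (2 * G)) * ((6 * L * (2 * 2 ^ (4 * t))) * Bd) := by
        apply mul_le_mul hcM _ (by positivity) (by positivity)
        exact mul_le_mul_of_nonneg_right hcK hBd0
    _ = 144 * (B0 * (C * x) * L ^ 4) / G := by
        rw [hBd, e6, e7]
        field_simp
        ring
    _ ≤ L * (B0 * (C * x) * L ^ 4) / G := by
        apply div_le_div_of_nonneg_right _ hG0.le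
        apply mul_le_mul_of_nonneg_right (by linarith) (by positivity)
    _ = _ := by ring

end Pool.Agent.N792
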