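import Mathlib
import Pool.Agent.N792.Defs

/-!
Elementary part of the Siegel-Walfisz theorem for rough numbers (helper124, for helper792):
decomposition of the rough numbers by the largest prime factor.
-/

set_option autoImplicit false

namespace Pool.Agent.N792.SwR

open Finset Pool.Agent.N792

/-- the largest prime factor (`0` for `k ≤ 1`) -/
def lp (k : ℕ) : ℕ := k.primeFactors.sup id

lemma le_lp {k p : ℕ} (hk : k ≠ 0) (hp : p.Prime) (h : p ∣ k) : p ≤ lp k :=
  Finset.le_sup (f := id) (Nat.mem_primeFactors.2 ⟨hp, h, hk⟩)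

lemma lp_mem {k : ℕ} (hk : k ≠ 0) (hk1 : k ≠ 1) : (lp k).Prime ∧ lp k ∣ k := by
  have hne : k.primeFactors.Nonempty := Nat.nonempty_primeFactors.2 (by omega)
  obtain ⟨p, hp, hpe⟩ := Finset.exists_mem_eq_sup _ hne id
  have : lp k = p := hpe
  rw [this]
  exact ⟨Nat.prime_of_mem_primeFactors hp, Nat.dvd_of_mem_primeFactors hp⟩

lemma lp_mul {m P : ℕ} (hm : m ≠ 0) (hP : P.Prime) (h : lp m < P) : lp (m * P) = P := by
  apply le_antisymm
  · apply Finset.sup_le
    intro p hp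
    have h1 := Nat.prime_of_mem_primeFactors hp
    have h2 := Nat.dvd_of_mem_primeFactors hp
    rcases (Nat.Prime.dvd_mul h1).1 h2 with h3 | h3
    · exact (le_lp hm h1 h3).trans h.le
    · exact Nat.le_of_dvd hP.pos h3
  · exact le_lp (Nat.mul_ne_zero hm hP.ne_zero) hP (Dvd.intro_left m rfl)

lemma rough_of_dvd {z m k : ℕ} (h : Rough z k) (hm : m ∣ k) : Rough z m :=
  ⟨fun h0 => h.1 (by rw [h0] at hm; exact Nat.eq_zero_of_zero_dvd hm),
    fun p hp hpm => h.2 p hp (hpm.trans hm)⟩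

lemma rough_mul {z m P : ℕ} (h : Rough z m) (hP : P.Prime) (hz : z < P) : Rough z (m * P) := by
  refine ⟨Nat.mul_ne_zero h.1 hP.ne_zero, fun p hp hpm => ?_⟩
  rcases (Nat.Prime.dvd_mul hp).1 hpm with h3 | h3
  · exact h.2 p hp h3
  · rw [(Nat.prime_dvd_prime_iff_eq hp hP).1 h3]
    exact hz

lemma rough_coprime {z m q : ℕ} (h : Rough z m) (hq : 1 ≤ q) (hqz : q ≤ z) : m.Coprime q := by
  rw [Nat.coprime_iff_gcd_eq_one]
  by_contra hne
  obtain ⟨p, hp, hpd⟩ := Nat.exists_prime_and_dvd hne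
  have h1 := h.2 p hp (hpd.trans (Nat.gcd_dvd_left _ _))
  have h2 := Nat.le_of_dvd hq (hpd.trans (Nat.gcd_dvd_right _ _))
  omega

/-- the divisor function of a rough number -/
lemma rough_div {z : ℕ} : ∀ k : ℕ, Rough z k → ∃ j : ℕ, z ^ j ≤ k ∧ #k.divisors ≤ 2 ^ j := by
  intro k
  induction k using induction_on_primes with
  | zero => intro h; exact absurd rfl h.1
  | one => intro _; exact ⟨0, by simp, by simp⟩
  | prime_mul p a hp ih =>
    intro h
    obtain ⟨j, h1, h2⟩ := ih (rough_of_dvd h (Dvd.intro_left p rfl))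
    have h3 := h.2 p hp (Dvd.intro a rfl)
    refine ⟨j + 1, ?_, ?_⟩
    · calc z ^ (j + 1) = z * z ^ j := by ring
        _ ≤ p * a := Nat.mul_le_mul h3.le h1
    · open Pointwise in
      have h4 : #(p * a).divisors ≤ #p.divisors * #a.divisors := by
        rw [Nat.divisors_mul]
        exact Finset.card_mul_le
      have h5 : #p.divisors = 2 := by
        rw [hp.divisors, Finset.card_pair hp.one_lt.ne]
      calc #(p * a).divisors ≤ 2 * #a.divisors := by rw [← h5]; exact h4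
        _ ≤ 2 * 2 ^ j := Nat.mul_le_mul_left _ h2
        _ = 2 ^ (j + 1) := by ring

/-- the divisors of `m P` -/
lemma sum_div_mul {m P : ℕ} (hm : m ≠ 0) (hP : P.Prime) (h : ¬ P ∣ m) (F : ℕ → ℝ) :
    ∑ d ∈ (m * P).divisors, F d = ∑ d ∈ m.divisors, F d + ∑ d ∈ m.divisors, F (d * P) := by
  have hmP : m * P ≠ 0 := Nat.mul_ne_zero hm hP.ne_zero
  rw [← sum_filter_add_sum_filter_not (m * P).divisors (fun d => ¬ P ∣ d)]
  congr 1
  · apply sum_congr _ (fun _ _ => rfl)
    ext d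
    rw [mem_filter, Nat.mem_divisors, Nat.mem_divisors]
    constructor
    · rintro ⟨⟨h1, _⟩, h2⟩
      exact ⟨((hP.coprime_iff_not_dvd.2 h2).symm).dvd_of_dvd_mul_right h1, hm⟩
    · rintro ⟨h1, _⟩
      exact ⟨⟨h1.mul_right P, hmP⟩, fun h2 => h (h2.trans h1)⟩
  · symm
    apply sum_bij (fun d _ => d * P)
    · intro d hd
      rw [Nat.mem_divisors] at hd
      rw [mem_filter, Nat.mem_divisors]
      exact ⟨⟨Nat.mul_dvd_mul_right hd.1 P, hmP⟩, fun h2 => h2 (Dvd.intro_left d rfl)⟩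
    · intro a _ b _ hab
      exact Nat.eq_of_mul_eq_mul_right hP.pos hab
    · intro d hd
      rw [mem_filter, Nat.mem_divisors, not_not] at hd
      obtain ⟨⟨h1, _⟩, e, he⟩ := hd
      refine ⟨e, ?_, by rw [he, mul_comm]⟩
      rw [Nat.mem_divisors]
      refine ⟨?_, hm⟩
      rw [he, mul_comm m P] at h1
      exact Nat.dvd_of_mul_dvd_mul_left hP.pos h1
    · intro _ _; rfl

/-- `g (m P)` is a step function of the prime `P` with at most `M` steps of height at most one -/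
def Step (g : ℕ → ℝ) (m M : ℕ) : Prop :=
  ∃ (I : Finset (ℕ ⊕ ℕ)) (c : ℕ ⊕ ℕ → ℝ) (t : ℕ ⊕ ℕ → ℕ), #I ≤ M ∧ (∀ i, |c i| ≤ 1) ∧
    ∀ P : ℕ, P.Prime → ¬ P ∣ m → g (m * P) = ∑ i ∈ I, c i * (if t i < P then 1 else 0)

lemma step_one (m : ℕ) : Step (fun _ => 1) m 1 := by
  refine ⟨{Sum.inl 0}, fun _ => 1, fun _ => 0, by simp, fun _ => by simp, fun P hP _ => ?_⟩
  simp [hP.pos]

lemma step_gam (U m : ℕ) (hm : m ≠ 0) : Step (gam U) m (2 * #m.divisors) := by
  refine ⟨m.divisors.disjSum m.divisors,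
    fun i => Sum.elim (fun d => if U < d then (ArithmeticFunction.moebius d : ℝ) else 0)
      (fun d => if d = 0 then 0 else -(ArithmeticFunction.moebius d : ℝ)) i,
    fun i => Sum.elim (fun _ => 0) (fun d => U / d) i, ?_, ?_, ?_⟩
  · rw [card_disjSum]; omega
  · have hmu : ∀ d : ℕ, |(ArithmeticFunction.moebius d : ℝ)| ≤ 1 := by
      intro d
      have := ArithmeticFunction.abs_moebius_le_one (n := d)
      exact_mod_cast this
    rintro (d | d)
    · simp only [Sum.elim_inl]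
      split_ifs
      · exact hmu d
      · simp
    · simp only [Sum.elim_inr]
      split_ifs
      · simp
      · rw [abs_neg]; exact hmu d
  · intro P hP hPm
    unfold gam
    rw [sum_filter, sum_div_mul hm hP hPm, sum_disjSum]
    congr 1
    · apply sum_congr rfl
      intro d _
      simp [hP.pos]
    · apply sum_congr rfl
      intro d hd
      rw [Nat.mem_divisors] at hd
      have hd0 : d ≠ 0 := fun h0 => hm (by rw [h0] at hd; exact Nat.eq_zero_of_zero_dvd hd.1)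
      have hcop : d.Coprime P := (hP.coprime_iff_not_dvd.2 (fun h2 => hPm (h2.trans hd.1))).symm
      have h1 : ArithmeticFunction.moebius (d * P) = - ArithmeticFunction.moebius d := by
        rw [ArithmeticFunction.isMultiplicative_moebius.map_mul_of_coprime hcop,
          ArithmeticFunction.moebius_apply_prime hP]
        ring
      have h2 : (U / d < P) ↔ U < d * P := by
        rw [Nat.div_lt_iff_lt_mul (Nat.pos_of_ne_zero hd0), mul_comm]
      simp only [Sum.elim_inr, h1, h2, hd0, if_false]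
      split_ifs <;> simp

lemma gam_le (U k : ℕ) : |gam U k| ≤ #k.divisors := by
  unfold gam
  refine (abs_sum_le_sum_abs _ _).trans ?_
  refine (sum_le_card_nsmul _ _ 1 fun d _ => ?_).trans ?_
  · have := ArithmeticFunction.abs_moebius_le_one (n := d)
    exact_mod_cast this
  · rw [nsmul_eq_mul, mul_one]
    exact_mod_cast card_filter_le _ _

open Classical in
/-- the multiples of the squares `n²`, `n > z` -/
lemma card_sq (z u : ℕ) (hz : 1 ≤ z) :
    ((#((Icc 1 u).filter (fun k => ∃ n, z < n ∧ n ^ 2 ∣ k)) : ℕ) : ℝ) ≤ u / z := by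
  have h1 : (Icc 1 u).filter (fun k => ∃ n, z < n ∧ n ^ 2 ∣ k) ⊆
      (Ioc z (max z u)).biUnion (fun n => (Ioc 0 u).filter (fun k => n ^ 2 ∣ k)) := by
    intro k hk
    rw [mem_filter, mem_Icc] at hk
    obtain ⟨⟨h1, h2⟩, n, h3, h4⟩ := hk
    rw [mem_biUnion]
    refine ⟨n, ?_, ?_⟩
    · rw [mem_Ioc]
      refine ⟨h3, le_max_of_le_right ?_⟩
      have h5 := Nat.le_of_dvd (by omega) h4
      nlinarith
    · rw [mem_filter, mem_Ioc]
      exact ⟨⟨by omega, h2⟩, h4⟩
  have h2 : #((Icc 1 u).filter (fun k => ∃ n, z < n ∧ n ^ 2 ∣ k)) ≤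
      ∑ n ∈ Ioc z (max z u), u / n ^ 2 := by
    refine (card_le_card h1).trans (card_biUnion_le.trans ?_)
    apply sum_le_sum
    intro n _
    rw [Nat.Ioc_filter_dvd_card_eq_div]
  have h3 : ((#((Icc 1 u).filter (fun k => ∃ n, z < n ∧ n ^ 2 ∣ k)) : ℕ) : ℝ) ≤
      ∑ n ∈ Ioc z (max z u), (u : ℝ) * ((n : ℝ) ^ 2)⁻¹ := by
    refine (Nat.cast_le.2 h2).trans ?_
    rw [Nat.cast_sum]
    apply sum_le_sum
    intro n _
    refine Nat.cast_div_le.trans ?_
    rw [Nat.cast_pow, div_eq_mul_inv]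
  refine h3.trans ?_
  rw [← mul_sum, div_eq_mul_inv]
  apply mul_le_mul_of_nonneg_left _ (Nat.cast_nonneg _)
  refine (sum_Ioc_inv_sq_le_sub (by omega) (le_max_left _ _)).trans ?_
  have : (0 : ℝ) ≤ ((max z u : ℕ) : ℝ)⁻¹ := by positivity
  linarith

open Classical in
/-- the sum over the rough numbers whose largest prime factor occurs only once -/
lemma sum_good (z u : ℕ) (f : ℕ → ℝ) :
    ∑ k ∈ ((Icc 1 u).filter (Rough z)).filter (fun k => k ≠ 1 ∧ ¬ (lp k) ^ 2 ∣ k), f k =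
      ∑ m ∈ (Icc 1 u).filter (Rough z),
        ∑ P ∈ (Ioc (max z (lp m)) (u / m)).filter Nat.Prime, f (m * P) := by
  rw [sum_sigma']
  symm
  apply sum_nbij' (fun x => x.1 * x.2) (fun k => ⟨k / lp k, lp k⟩)
  · rintro ⟨m, P⟩ h
    rw [mem_sigma, mem_filter, mem_filter, mem_Icc, mem_Ioc] at h
    obtain ⟨⟨⟨h1, h2⟩, h3⟩, ⟨h4, h5⟩, h6⟩ := h
    simp only at h1 h2 h3 h4 h5 h6 ⊢
    have hz : z < P := lt_of_le_of_lt (le_max_left _ _) h4
    have hl : lp m < P := lt_of_le_of_lt (le_max_right _ _) h4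
    have hm0 : m ≠ 0 := by omega
    have hle : m * P ≤ u := by
      rw [mul_comm]; exact (Nat.le_div_iff_mul_le (by omega)).1 h5
    have hPm : ¬ P ∣ m := fun hd => absurd (le_lp hm0 h6 hd) (by omega)
    have hlp := lp_mul hm0 h6 hl
    rw [mem_filter, mem_filter, mem_Icc]
    refine ⟨⟨⟨Nat.mul_pos (by omega) h6.pos, hle⟩, rough_mul h3 h6 hz⟩, ?_, ?_⟩
    · intro h1'
      have := Nat.le_of_dvd one_pos (h1' ▸ Dvd.intro_left m rfl : P ∣ 1)
      have := h6.two_le
      omega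
    · rw [hlp, sq]
      intro hd
      exact hPm (Nat.dvd_of_mul_dvd_mul_right h6.pos hd)
  · intro k hk
    rw [mem_filter, mem_filter, mem_Icc] at hk
    obtain ⟨⟨⟨h1, h2⟩, h3⟩, h4, h5⟩ := hk
    have hk0 : k ≠ 0 := by omega
    obtain ⟨hp, hd⟩ := lp_mem hk0 h4
    have hpos := hp.pos
    obtain ⟨m, hm⟩ := hd
    have hkm : k / lp k = m := by
      rw [Nat.div_eq_iff_eq_mul_right hpos ⟨m, hm⟩]
      exact hm
    have hm0 : m ≠ 0 := by
      intro h0; rw [h0] at hm; omega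
    have hmk : m ∣ k := ⟨lp k, by rw [mul_comm]; exact hm⟩
    rw [mem_sigma, mem_filter, mem_filter, mem_Icc, mem_Ioc]
    simp only [hkm]
    refine ⟨⟨⟨by omega, (Nat.le_of_dvd h1 hmk).trans h2⟩, rough_of_dvd h3 hmk⟩,
      ⟨max_lt (h3.2 _ hp ⟨m, hm⟩) ?_, ?_⟩, hp⟩
    · by_cases hm1 : m = 1
      · rw [hm1]
        have : lp 1 = 0 := by simp [lp]
        rw [this]
        exact hpos
      · obtain ⟨hq, hqd⟩ := lp_mem hm0 hm1
        rcases lt_or_eq_of_le (le_lp hk0 hq (hqd.trans hmk)) with h6 | h6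
        · exact h6
        · exfalso
          apply h5
          rw [sq]
          obtain ⟨t, ht⟩ := hqd
          rw [h6] at ht
          refine ⟨t, ?_⟩
          rw [mul_assoc, ← ht]
          exact hm
    · rw [Nat.le_div_iff_mul_le (by omega), ← hm]
      exact h2
  · rintro ⟨m, P⟩ h
    rw [mem_sigma, mem_filter, mem_filter, mem_Icc, mem_Ioc] at h
    obtain ⟨⟨⟨h1, h2⟩, h3⟩, ⟨h4, h5⟩, h6⟩ := h
    simp only at h1 h2 h3 h4 h5 h6 ⊢
    have hl : lp m < P := lt_of_le_of_lt (le_max_right _ _) h4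
    have hlp := lp_mul (by omega : m ≠ 0) h6 hl
    rw [hlp, Nat.mul_div_cancel _ h6.pos]
  · intro k hk
    rw [mem_filter, mem_filter, mem_Icc] at hk
    obtain ⟨⟨⟨h1, h2⟩, h3⟩, h4, h5⟩ := hk
    obtain ⟨hp, hd⟩ := lp_mem (by omega : k ≠ 0) h4
    exact Nat.div_mul_cancel hd
  · rintro ⟨m, P⟩ _
    rfl

end Pool.Agent.N792.SwR
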