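import Mathlib
import Pool.Agent.N792.Defs2
import Pool.Agent.N792.QStm
import Pool.Agent.N792.SwRa

/-!
Definitions and statements (as propositions) for the lower bound for the primes and for the products of two
primes, for almost all `c ≤ C` with small `C` (helper792).
-/

set_option autoImplicit false

namespace Pool.Agent.N792

open Finset Filter Topology
open ArithmeticFunction (moebius)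

/-- the bounds and the equidistribution of the coefficients in the type II estimate -/
def EqD (x z ts w As : ℕ) (g : ℕ → ℝ) : Prop :=
  (∀ k, k ≤ x ^ 3 → Rough z k → |g k| ≤ Real.log x ^ 2) ∧
  ∀ i u q r : ℕ, x ≤ 2 ^ i → 2 ^ (i + 1) ≤ x ^ 3 → 1 ≤ q → (q : ℝ) ≤ Real.log x ^ As → 2 ^ i ≤ u → u ≤ 2 ^ (i + 1) →
    |∑ k ∈ (Ioc (2 ^ i) u).filter (fun k => k ≡ r [MOD q]),
      (rg z k * g k - sharp ts w (fun k => rg z k * g k) k)| ≤ (2 : ℝ) ^ i / Real.log x ^ As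

open Classical in
/-- the indicator function of the products of two different primes greater than `Q` -/
noncomputable def pi2 (Q k : ℕ) : ℝ := if ∃ p q : ℕ, p.Prime ∧ q.Prime ∧ Q < p ∧ p < q ∧ k = p * q then 1 else 0

open Classical in
/-- the indicator function of the products of three different primes in `(Q, V]` -/
noncomputable def pi3 (Q V k : ℕ) : ℝ :=
  if ∃ p q r : ℕ, p.Prime ∧ q.Prime ∧ r.Prime ∧ Q < p ∧ p < q ∧ q < r ∧ r ≤ V ∧ k = p * q * r then 1 else 0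

open Classical in
/-- `μ(m / q)`, if `q` is the only prime factor of `m` in `(z1, z2]` and there is no smaller one, and `m / q ≤ U` -/
noncomputable def alf (z1 z2 U m : ℕ) : ℝ :=
  ∑ q ∈ m.primeFactors.filter (fun q => z1 < q ∧ q ≤ z2), if Rough z2 (m / q) ∧ m / q ≤ U then (moebius (m / q) : ℝ) else 0

/-- the type I functions -/
noncomputable def T1 (z U : ℕ) (g : ℕ → ℝ) (N : ℕ) : ℝ := rg z N * ∑ j ∈ N.divisors.filter (fun j => j ≤ U), g j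

/-- the type II functions -/
noncomputable def T2 (z U y : ℕ) (f g : ℕ → ℝ) (N : ℕ) : ℝ :=
  rg z N * ∑ j ∈ N.divisors.filter (fun j => U < j ∧ j ≤ y), f j * g (N / j)

/-- the combination of type I and type II functions which is `1` at the primes and `0` or `-2` elsewhere -/
noncomputable def HL9 (z U y Q V K : ℕ) (zs : ℕ → ℕ) (N : ℕ) : ℝ :=
  T1 z U (fun d => (moebius d : ℝ)) N -
    ∑ i ∈ range K, (T2 z U y (alf (zs i) (zs (i + 1)) U) (rg (zs (i + 1))) N +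
      T2 z U y (rg (zs (i + 1))) (alf (zs i) (zs (i + 1)) U) N) -
    T2 z U y pi0 pi0 N - T2 z U y pi0 (pi2 Q) N + 2 * T2 z V y pi0 (pi2 Q) N + T2 z U y (pi2 Q) pi0 N +
    T2 z U y (pi2 Q) (pi2 Q) N

open Classical in
/-- the number of the `i < K` such that `j` is a product of two different primes in `(zs i, zs (i + 1)]` -/
noncomputable def same (K : ℕ) (zs : ℕ → ℕ) (j : ℕ) : ℝ :=
  #((range K).filter (fun i => ∃ p q : ℕ, p.Prime ∧ q.Prime ∧ zs i < p ∧ p < q ∧ q ≤ zs (i + 1) ∧ j = p * q))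

open Classical in
/-- the indicator function of the rough numbers divisible by the square of a prime -/
noncomputable def sqd (z N : ℕ) : ℝ := rg z N * (if Squarefree N then 0 else 1)

/-- X1: the equidistribution of the coefficients -/
def X1 : Prop := ∀ η : ℝ, 0 < η → ∀ As E : ℕ, ∃ x0 : ℕ, ∀ x : ℕ, x0 ≤ x → ∀ z z1 z2 Q U Jw ts : ℕ,
    (x : ℝ) ^ η ≤ z → z ≤ x → Real.log x ^ As ≤ ((2 ^ 2 ^ Jw : ℕ) : ℝ) → ((2 ^ 2 ^ Jw : ℕ) : ℝ) ≤ Real.log x ^ E →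
    Real.log x ^ (As + 5) ≤ (2 : ℝ) ^ ts → (2 : ℝ) ^ ts ≤ Real.log x ^ E →
    EqD x z ts (2 ^ 2 ^ Jw) As pi0 ∧ EqD x z ts (2 ^ 2 ^ Jw) As (pi2 Q) ∧ EqD x z ts (2 ^ 2 ^ Jw) As (rg z2) ∧
      EqD x z ts (2 ^ 2 ^ Jw) As (alf z1 z2 U)

/-- X2: the type I estimate -/
def X2 (a b : ℤ) : Prop := ∀ R : ℕ, ∀ K1 : ℝ, 1 ≤ K1 → ∃ C4 η0 : ℝ, 0 < C4 ∧ 0 < η0 ∧ ∀ η : ℝ, 0 < η → η ≤ η0 → ∀ E : ℕ,
    ∃ x0 : ℕ, ∀ x : ℕ, x0 ≤ x → ∀ x1 C J Jw U : ℕ, x1 < x → x ≤ R * x1 → (x : ℝ) ^ (3 / 5 : ℝ) ≤ C → C ≤ x →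
    (x : ℝ) ^ (η / 2) ≤ ((2 ^ 2 ^ J : ℕ) : ℝ) → ((2 ^ 2 ^ J : ℕ) : ℝ) ≤ (x : ℝ) ^ η →
    ((2 ^ 2 ^ Jw : ℕ) : ℝ) ≤ Real.log x ^ E → (U : ℝ) ≤ (x : ℝ) ^ (9 / 10 : ℝ) →
    ∀ Gd ⊆ Icc 1 C, (∀ c ∈ Gd, |Vc a b c (2 ^ 2 ^ J) * V1 (2 ^ 2 ^ Jw) - Vc a b c (2 ^ 2 ^ Jw) * V1 (2 ^ 2 ^ J)| ≤
      Vc a b c (2 ^ 2 ^ Jw) * V1 (2 ^ 2 ^ J) / Real.log x ^ 3) → (∀ c ∈ Gd, Vc a b c (2 ^ 2 ^ Jw) / V1 (2 ^ 2 ^ Jw) ≤ K1) →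
    ∀ g : ℕ → ℝ, (∀ j ≤ U, |g j| ≤ 4 * Real.log x) → (∀ j ≤ U, g j ≠ 0 → Squarefree j) →
    ∑ c ∈ Gd, |Lc a b x1 x c (T1 (2 ^ 2 ^ J) U g) - Vc a b c (2 ^ 2 ^ Jw) / V1 (2 ^ 2 ^ Jw) * Ls a b x1 x (T1 (2 ^ 2 ^ J) U g)| ≤
      C4 * ((2 : ℝ) ^ (-(1 / (C4 * η))) / η ^ 2) * (C * x)

/-- X3: the values with a divisor near `x` -/
def X3 (a b : ℤ) (R : ℕ) : Prop := ∃ C3 : ℝ, 0 < C3 ∧ ∀ η ε : ℝ, 0 < η → η ≤ 1 / 10 → 0 < ε → ε ≤ 1 / 100 →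
    ∃ x0 : ℕ, ∀ x : ℕ, x0 ≤ x → ∀ x1 C z y : ℕ, x1 < x → x ≤ R * x1 → (x : ℝ) ^ (7 / 10 : ℝ) ≤ C → C ≤ x →
    (x : ℝ) ^ η ≤ z → (x : ℝ) ^ (1 - ε) ≤ y →
    ∑ c ∈ Icc 1 C, Lc a b x1 x c (gp z y) ≤ C3 * (ε / η ^ 2) * (C * x / Real.log x) ∧
    Ls a b x1 x (gp z y) ≤ C3 * (ε / η ^ 2) * (x / Real.log x)

/-- X4: the products of three primes -/
def X4 (a b : ℤ) (R : ℕ) : Prop := ∀ η : ℝ, 0 < η → ∃ δ : ℝ, 0 < δ ∧ ∃ x0 : ℕ, ∀ x : ℕ, x0 ≤ x → ∀ x1 x2 Q V : ℕ,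
    x1 < x2 → x2 ≤ x → x ≤ R * x1 → (x : ℝ) ^ (2 / 5 : ℝ) ≤ Q → (V : ℝ) ≤ (x : ℝ) ^ (4 / 5 + δ) →
    Ls a b x1 x2 (pi3 Q V) ≤ 1 / 16 * (((x2 : ℝ) - x1) / Real.log x) + η * (x / Real.log x)

/-- X5: the combinatorial identity -/
def X5 : Prop := ∀ (z U y Q V K N : ℕ) (zs : ℕ → ℕ), 1 ≤ z → 1 ≤ U → Q ≤ U → U ≤ V → V ≤ y → zs 0 = z → zs K = Q →
    (∀ i < K, zs i ≤ zs (i + 1)) → y * y < N → N < Q ^ 5 → U ≤ Q * Q → N ≤ U * Q ^ 3 → U * U * Q < N → N ≤ V * V * Q →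
    Squarefree N → Rough z N → (∀ j, j ∣ N → ¬ (y ≤ j ∧ y ≤ N / j)) →
    (∀ i < K, ∀ p q : ℕ, p.Prime → q.Prime → p ∣ N → q ∣ N → zs i < p → p ≤ zs (i + 1) → zs i < q → q ≤ zs (i + 1) → p = q) →
    HL9 z U y Q V K zs N = pi0 N - 2 * pi3 Q V N

/-- X6: the values divisible by two primes of one of the ranges -/
def X6 (a b : ℤ) : Prop := ∀ R : ℕ, ∀ K1 : ℝ, 1 ≤ K1 → ∃ C2 η0 : ℝ, 0 < C2 ∧ 0 < η0 ∧ ∀ η κ : ℝ, 0 < η → η ≤ η0 → 0 < κ → κ ≤ 1 →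
    ∀ E : ℕ, ∃ x0 : ℕ, ∀ x : ℕ, x0 ≤ x → ∀ x1 C J Jw K Q U : ℕ, ∀ zs : ℕ → ℕ, x1 < x → x ≤ R * x1 →
    (x : ℝ) ^ (3 / 5 : ℝ) ≤ C → C ≤ x →
    (x : ℝ) ^ (η / 2) ≤ ((2 ^ 2 ^ J : ℕ) : ℝ) → ((2 ^ 2 ^ J : ℕ) : ℝ) ≤ (x : ℝ) ^ η →
    ((2 ^ 2 ^ Jw : ℕ) : ℝ) ≤ Real.log x ^ E → (Q : ℝ) ≤ (x : ℝ) ^ (9 / 20 : ℝ) → (U : ℝ) ≤ (x : ℝ) ^ (9 / 10 : ℝ) →
    zs 0 = 2 ^ 2 ^ J → zs K = Q → (∀ i < K, zs i ≤ zs (i + 1)) →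
    (∀ i < K, Real.log (zs (i + 1)) ≤ (1 + κ) * Real.log (zs i)) →
    Ls a b x1 x (T1 (2 ^ 2 ^ J) U (same K zs)) ≤ C2 * (κ / η ^ 2) * (x / Real.log x) ∧
    ∀ Gd ⊆ Icc 1 C, (∀ c ∈ Gd, |Vc a b c (2 ^ 2 ^ J) * V1 (2 ^ 2 ^ Jw) - Vc a b c (2 ^ 2 ^ Jw) * V1 (2 ^ 2 ^ J)| ≤
      Vc a b c (2 ^ 2 ^ Jw) * V1 (2 ^ 2 ^ J) / Real.log x ^ 3) → (∀ c ∈ Gd, Vc a b c (2 ^ 2 ^ Jw) / V1 (2 ^ 2 ^ Jw) ≤ K1) →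
      ∑ c ∈ Gd, Lc a b x1 x c (T1 (2 ^ 2 ^ J) U (same K zs)) ≤ C2 * (κ / η ^ 2) * (C * x / Real.log x)

/-- X7: the values divisible by the square of a prime -/
def X7 (a b : ℤ) : Prop := ∀ R : ℕ, ∀ η : ℝ, 0 < η → ∃ x0 : ℕ, ∀ x : ℕ, x0 ≤ x → ∀ x1 C z : ℕ, x1 < x → x ≤ R * x1 →
    (x : ℝ) ^ (3 / 5 : ℝ) ≤ C → C ≤ x → (x : ℝ) ^ η ≤ z →
    ∑ c ∈ Icc 1 C, Lc a b x1 x c (sqd z) ≤ C * x / Real.log x ^ 2 ∧ Ls a b x1 x (sqd z) ≤ x / Real.log x ^ 2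

/-- X8: the tail of the singular series, `C ≥ x^(1/2)` -/
def X8 (a b : ℤ) : Prop := ∀ U E : ℕ, ∃ x0 : ℕ, ∀ x : ℕ, x0 ≤ x → ∀ C : ℕ,
    (x : ℝ) ^ (1 / 2 : ℝ) ≤ C → C ≤ x → ∀ w z : ℕ, Real.log x ^ (3 * U + 9) ≤ w → (w : ℝ) ≤ Real.log x ^ E →
    w ≤ z → (z : ℝ) ≤ (x : ℝ) ^ (1 / 5 : ℝ) →
    ∃ Ex ⊆ Icc 1 C, (#Ex : ℝ) ≤ C / Real.log x ^ U ∧ ∀ c ∈ Icc 1 C, c ∉ Ex →
      |Vc a b c z * V1 w - Vc a b c w * V1 z| ≤ Vc a b c w * V1 z / Real.log x ^ U ∧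
      (Admissible a b c → ∃ S : ℝ, 0 < S ∧ Tendsto (fun y => partialC a b c y) atTop (𝓝 S) ∧
        |eps a b * S * gcdProd a b - Vc a b c w / V1 w| ≤ Vc a b c w / V1 w / Real.log x ^ U)

/-- X9: lower bound and first moment of the truncated singular series, `C ≥ x^(1/2)` -/
def X9 (a b : ℤ) : Prop := ∀ (η : ℝ), 0 < η → ∀ E : ℕ, ∃ θ : ℝ, 0 < θ ∧ ∃ x0 : ℕ, ∀ x : ℕ, x0 ≤ x →
    ∀ C : ℕ, (x : ℝ) ^ (1 / 2 : ℝ) ≤ C → C ≤ x → ∀ Jw : ℕ, ((2 ^ 2 ^ Jw : ℕ) : ℝ) ≤ Real.log x ^ E →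
    ∃ Ex ⊆ Icc 1 C, (#Ex : ℝ) ≤ η * C ∧ ∀ c ∈ Icc 1 C, c ∉ Ex →
      Vc a b c (2 ^ 2 ^ Jw) / V1 (2 ^ 2 ^ Jw) ≤ 1 / θ ∧ (Admissible a b c → θ ≤ Vc a b c (2 ^ 2 ^ Jw) / V1 (2 ^ 2 ^ Jw))

/-- X10: the weighted number of the primes -/
def X10 (a b : ℤ) : Prop := ∀ (R : ℕ) (η : ℝ), 0 < η → ∃ x0 : ℕ, ∀ x : ℕ, x0 ≤ x → ∀ x1 x2 : ℕ,
    x1 < x2 → x2 ≤ x → x ≤ R * x1 →
    |Ls a b x1 x2 pi0 - ((x2 : ℝ) - x1) / (2 * Real.log x)| ≤ η * (x / Real.log x)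

open Classical in
/-- the number of the pairs `(m, p)`, `u < m ≤ v`, `y1 < p ≤ y2`, such that `p` is a prime divisor of the value at `m`
and the cofactor is a prime -/
noncomputable def cnt2 (a b c : ℤ) (u v y1 y2 : ℕ) : ℕ :=
  #((Ioc u v ×ˢ Ioc y1 y2).filter (fun t : ℕ × ℕ => t.2.Prime ∧ t.2 ∣ (fv a b c t.1).toNat ∧
    ((fv a b c t.1).toNat / t.2).Prime))

/-- XE: the products of two primes -/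
def XE (a b : ℤ) : Prop := ∀ (ε : ℝ) (R A : ℕ), 0 < ε → ∃ x0 : ℕ, ∀ x : ℕ, x0 ≤ x → ∀ C : ℕ,
    (x : ℝ) ^ (1 / 2 + ε) ≤ C → C ≤ x →
    ∃ Ex ⊆ Icc 1 C, (#Ex : ℝ) ≤ C / Real.log x ^ A ∧ ∀ c ∈ Icc 1 C, c ∉ Ex → Admissible a b c →
      ∃ S : ℝ, 0 < S ∧ Tendsto (fun y => partialC a b c y) atTop (𝓝 S) ∧
        ∀ u v y1 y2 : ℕ, x ≤ R * u → u ≤ v → v ≤ x → (x : ℝ) ^ (3 / 2 + ε) ≤ C * y1 → y1 ≤ y2 →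
          (y2 : ℝ) ≤ (x : ℝ) ^ (1 - ε) →
          |(cnt2 a b c u v y1 y2 : ℝ) - eps a b * S * gcdProd a b * ∑ m ∈ Ioc u v, ∑ p ∈ (Ioc y1 y2).filter Nat.Prime,
            1 / ((p : ℝ) * Real.log (((a : ℝ) * m ^ 2 + b * m + c) / p))| ≤ x / Real.log x ^ A

end Pool.Agent.N792
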