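import Mathlib
import Pool.Agent.N792.Asm

/-!
Interfaces of the final assembly, all `x^(9/10) ≤ C ≤ x` (helper792).
-/

set_option autoImplicit false

namespace Pool.Agent.N792

open Finset Filter Topology
open ArithmeticFunction (moebius vonMangoldt)

/-- the type II estimate for `x^(9/10) ≤ C ≤ x` -/
def TII2 (a b : ℤ) : Prop := ∃ As : ℕ, ∀ E R : ℕ, ∀ η ε : ℝ, 0 < η → 0 < ε → ε ≤ 1 / 100 → ∃ x0 : ℕ, ∀ x : ℕ, x0 ≤ x →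
  ∀ x1 C z U y Jw : ℕ, x1 < x → x ≤ R * x1 → (x : ℝ) ^ (9 / 10 : ℝ) ≤ C → C ≤ x → (x : ℝ) ^ η ≤ z → z ≤ x →
  (x : ℝ) ^ (33 / 50 : ℝ) ≤ U → U ≤ y → (y : ℝ) ≤ (x : ℝ) ^ (1 - ε) →
  Real.log x ^ As ≤ ((2 ^ 2 ^ Jw : ℕ) : ℝ) → ((2 ^ 2 ^ Jw : ℕ) : ℝ) ≤ Real.log x ^ E → ∀ f g : ℕ → ℝ,
  (((f = fun j => -betU U j) ∧ g = fun _ => 1) ∨ ((f = fun _ => -1) ∧ g = betU U) ∨
    ((f = fun j => vonMangoldt j) ∧ g = gam U) ∨ (f = gam U ∧ (g = fun k => vonMangoldt k))) →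
  ∑ c ∈ Icc 1 C, |Lc a b x1 x c (fun N => rg z N * ∑ j ∈ N.divisors.filter (fun j => U < j ∧ j ≤ y), f j * g (N / j)) -
    Vc a b c (2 ^ 2 ^ Jw) / V1 (2 ^ 2 ^ Jw) *
      Ls a b x1 x (fun N => rg z N * ∑ j ∈ N.divisors.filter (fun j => U < j ∧ j ≤ y), f j * g (N / j))| ≤
    C * x / Real.log x

/-- the formula for the von Mangoldt function on average over `c ≤ C`, `x^(1 - δ) ≤ C ≤ x`, for given parameters -/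
def LamD (a b : ℤ) (As E R : ℕ) (κ δ : ℝ) : Prop := ∃ η1 : ℝ, 0 < η1 ∧ η1 ≤ 1 / 20 ∧
  ∃ x0 : ℕ, ∀ x : ℕ, x0 ≤ x → ∀ x1 C J Jw : ℕ, x1 < x → x ≤ R * x1 → (x : ℝ) ^ (1 - δ) ≤ C → C ≤ x →
  (x : ℝ) ^ (η1 / 2) ≤ ((2 ^ 2 ^ J : ℕ) : ℝ) → ((2 ^ 2 ^ J : ℕ) : ℝ) ≤ (x : ℝ) ^ η1 →
  Real.log x ^ As ≤ ((2 ^ 2 ^ Jw : ℕ) : ℝ) → ((2 ^ 2 ^ Jw : ℕ) : ℝ) ≤ Real.log x ^ E →
  ∀ Gd ⊆ Icc 1 C, (∀ c ∈ Gd, |Vc a b c (2 ^ 2 ^ J) * V1 (2 ^ 2 ^ Jw) - Vc a b c (2 ^ 2 ^ Jw) * V1 (2 ^ 2 ^ J)| ≤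
      Vc a b c (2 ^ 2 ^ Jw) * V1 (2 ^ 2 ^ J) / Real.log x ^ 3) →
  ∃ e : ℕ → ℝ, (∀ c, 0 ≤ e c) ∧ ∑ c ∈ Gd, e c ≤ κ * (C * x) ∧ ∀ c ∈ Gd,
    |Lc a b x1 x c (fun N => rg (2 ^ 2 ^ J) N * vonMangoldt N) -
      Vc a b c (2 ^ 2 ^ Jw) / V1 (2 ^ 2 ^ Jw) * ((x : ℝ) - x1)| ≤
      e c + κ * (Vc a b c (2 ^ 2 ^ Jw) / V1 (2 ^ 2 ^ Jw)) * x

/-- the formula for the von Mangoldt function for all `x^(9/10) ≤ C ≤ x` -/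
def LamQ (a b : ℤ) : Prop := ∃ As : ℕ, ∀ E R : ℕ, ∀ κ : ℝ, 0 < κ → LamD a b As E R κ (1 / 10)

lemma lamP_iff (a b : ℤ) : LamP a b ↔ ∃ As : ℕ, ∀ E R : ℕ, ∀ κ : ℝ, 0 < κ → ∃ δ : ℝ, 0 < δ ∧ LamD a b As E R κ δ := by
  unfold LamP LamD
  constructor
  · rintro ⟨As, h⟩
    refine ⟨As, fun E R κ hκ => ?_⟩
    obtain ⟨δ, η1, h1, h2, h3, x0, h4⟩ := h E R κ hκ
    exact ⟨δ, h1, η1, h2, h3, x0, h4⟩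
  · rintro ⟨As, h⟩
    refine ⟨As, fun E R κ hκ => ?_⟩
    obtain ⟨δ, h1, η1, h2, h3, x0, h4⟩ := h E R κ hκ
    exact ⟨δ, η1, h1, h2, h3, x0, h4⟩

end Pool.Agent.N792
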