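import Mathlib
import Pool.Agent.N792.Defs
import Pool.Agent.N792.FlGen

set_option autoImplicit false
set_option maxHeartbeats 4000000

namespace Pool.Agent.N792
open Finset Filter Topology

/-- the value modulo `m` depends on the argument modulo `m` -/
lemma fv_mod (a b c : ℤ) (m n : ℕ) : (m : ℤ) ∣ fv a b c n ↔ (m : ℤ) ∣ fv a b c (n % m) := by
  have h1 : (m : ℤ) ∣ (n : ℤ) - ((n % m : ℕ) : ℤ) := by
    refine ⟨((n / m : ℕ) : ℤ), ?_⟩
    have := Nat.div_add_mod n m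
    have h2 : (n : ℤ) = ((m * (n / m) + n % m : ℕ) : ℤ) := by rw [this]
    rw [h2]; push_cast; ring_nf
  have h2 : (m : ℤ) ∣ fv a b c n - fv a b c (n % m) := by
    have : fv a b c n - fv a b c (n % m) =
        ((n : ℤ) - ((n % m : ℕ) : ℤ)) * (a * (n + ((n % m : ℕ) : ℤ)) + b) := by
      unfold fv; push_cast; ring
    rw [this]
    exact h1.mul_right _
  constructor
  · intro h
    have := dvd_sub h h2
    simpa using this
  · intro h
    have := dvd_add h2 h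
    simpa using this

lemma rho_le_two (a b c : ℤ) (p : ℕ) (hp : p.Prime) (hpa : ¬ (p : ℤ) ∣ a) : rho a b c p ≤ 2 := by
  by_contra hlt
  push Not at hlt
  unfold rho at hlt
  rw [Finset.two_lt_card] at hlt
  obtain ⟨r1, h1, r2, h2, r3, h3, h12, h13, h23⟩ := hlt
  rw [mem_filter, mem_range] at h1 h2 h3
  have hpp : Prime (p : ℤ) := Nat.prime_iff_prime_int.1 hp
  have hdiff : ∀ x y : ℕ, x < p → y < p → x ≠ y → (p : ℤ) ∣ fv a b c x → (p : ℤ) ∣ fv a b c y →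
      (p : ℤ) ∣ a * (x + y) + b := by
    intro x y hx hy hxy hfx hfy
    have h4 : (p : ℤ) ∣ ((x : ℤ) - y) * (a * (x + y) + b) := by
      have := dvd_sub hfx hfy
      have h5 : fv a b c x - fv a b c y = ((x : ℤ) - y) * (a * (x + y) + b) := by unfold fv; ring
      rwa [h5] at this
    rcases hpp.dvd_or_dvd h4 with h5 | h5
    · exfalso
      have h6 : |(x : ℤ) - y| < p := by rw [abs_lt]; constructor <;> omega
      have h7 := Int.eq_zero_of_abs_lt_dvd h5 h6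
      omega
    · exact h5
  have e1 := hdiff r1 r2 h1.1 h2.1 h12 h1.2 h2.2
  have e2 := hdiff r1 r3 h1.1 h3.1 h13 h1.2 h3.2
  have e3 : (p : ℤ) ∣ a * ((r2 : ℤ) - r3) := by
    have := dvd_sub e1 e2
    have h5 : (a * ((r1 : ℤ) + r2) + b) - (a * (r1 + r3) + b) = a * ((r2 : ℤ) - r3) := by ring
    rwa [h5] at this
  rcases hpp.dvd_or_dvd e3 with h5 | h5
  · exact hpa h5
  · have h6 : |(r2 : ℤ) - r3| < p := by rw [abs_lt]; constructor <;> omega
    have h7 := Int.eq_zero_of_abs_lt_dvd h5 h6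
    omega

open Classical in
theorem fl_poly (a : ℤ) (ha : 0 < a) (b : ℤ) : ∃ C1 : ℕ, 1 ≤ C1 ∧ ∀ b0 : ℕ, C1 ≤ b0 → ∀ (J m n1 n2 : ℕ) (c : ℤ),
    1 ≤ m → Rough (2 ^ 2 ^ J) m → n1 ≤ n2 →
    |(#((Ioc n1 n2).filter (fun n : ℕ => (m : ℤ) ∣ fv a b c n ∧ Rough (2 ^ 2 ^ J) (fv a b c n).natAbs)) : ℝ) -
      rho a b c m / m * ((n2 : ℝ) - n1) * Vc a b c (2 ^ 2 ^ J)| ≤
      (1 / 2) ^ b0 * (rho a b c m / m * ((n2 : ℝ) - n1) * Vc a b c (2 ^ 2 ^ J)) +
        rho a b c m * (C1 * (J + 2) * (2 ^ 2 ^ J) ^ (C1 * b0)) := by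
  obtain ⟨C, hC, H⟩ := fl_gen'
  obtain ⟨z0, hz0⟩ : ∃ z0 : ℕ, z0 = 3 * C + a.natAbs := ⟨_, rfl⟩
  refine ⟨z0 ^ z0 + 3 * C, by omega, ?_⟩
  intro b0 hb0 J m n1 n2 c hm hmr hn
  obtain ⟨P', hP'⟩ : ∃ P' : Finset ℕ, ∀ p, p ∈ P' ↔ (1 ≤ p ∧ p ≤ 2 ^ 2 ^ J) ∧ p.Prime :=
    ⟨(Icc 1 (2 ^ 2 ^ J)).filter (fun p => p.Prime), fun p => by rw [mem_filter, mem_Icc]⟩
  have h2J : 2 ≤ 2 ^ 2 ^ J := by
    calc 2 = 2 ^ 1 := by norm_num
      _ ≤ 2 ^ 2 ^ J := Nat.pow_le_pow_right (by norm_num) (Nat.one_le_two_pow)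
  have h := H 2 b0 J z0 m n1 n2 P' (fun p => (range p).filter (fun r : ℕ => (p : ℤ) ∣ fv a b c r))
    ((range m).filter (fun r : ℕ => (m : ℤ) ∣ fv a b c r))
    ((Ioc n1 n2).filter (fun n : ℕ => (m : ℤ) ∣ fv a b c n ∧ Rough (2 ^ 2 ^ J) (fv a b c n).natAbs))
    le_rfl (by omega) (by omega) hm hn (Finset.filter_subset _ _)
    (by
      intro p hp
      rw [hP'] at hp
      refine ⟨hp.2, hp.1.2, fun hd => ?_⟩
      have := hmr.2 p hp.2 hd
      omega)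
    (fun p _ => Finset.filter_subset _ _)
    (by
      intro p hp hpz
      rw [hP'] at hp
      have h1 := rho_le_two a b c p hp.2 (by
        intro hd
        have := Int.le_of_dvd ha hd
        omega)
      exact h1)
    (by
      intro n
      rw [mem_filter, mem_Ioc]
      constructor
      · rintro ⟨h0, h1, h2, h3⟩
        refine ⟨h0, ?_, ?_⟩
        · rw [mem_filter, mem_range]
          exact ⟨Nat.mod_lt _ (by omega), (fv_mod a b c m n).1 h1⟩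
        · intro p hp hpm
          rw [hP'] at hp
          rw [mem_filter, mem_range] at hpm
          have h4 := (fv_mod a b c p n).2 hpm.2
          have h5 : p ∣ (fv a b c n).natAbs := Int.natCast_dvd.1 h4
          have := h3 p hp.2 h5
          omega
      · rintro ⟨h0, h1, h2⟩
        rw [mem_filter, mem_range] at h1
        refine ⟨h0, (fv_mod a b c m n).2 h1.2, ?_, ?_⟩
        · intro h3
          rw [Int.natAbs_eq_zero] at h3
          have h4 : (2 : ℕ) ∈ P' := by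
            rw [hP']; exact ⟨⟨by norm_num, h2J⟩, Nat.prime_two⟩
          apply h2 2 h4
          rw [mem_filter, mem_range]
          refine ⟨Nat.mod_lt _ (by norm_num), (fv_mod a b c 2 n).1 ?_⟩
          rw [h3]; exact dvd_zero _
        · intro p hp hpd
          by_contra hlt
          have hpP : p ∈ P' := by rw [hP']; exact ⟨⟨hp.one_le, by omega⟩, hp⟩
          apply h2 p hpP
          rw [mem_filter, mem_range]
          exact ⟨Nat.mod_lt _ hp.pos, (fv_mod a b c p n).1 (Int.natCast_dvd.2 hpd)⟩)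
  have hV : (rho a b c m : ℝ) / m * ((n2 : ℝ) - n1) * Vc a b c (2 ^ 2 ^ J) =
      ((n2 : ℝ) - n1) * ((#((range m).filter (fun r : ℕ => (m : ℤ) ∣ fv a b c r)) : ℝ) / m) *
        ∏ p ∈ P', (1 - (#((range p).filter (fun r : ℕ => (p : ℤ) ∣ fv a b c r)) : ℝ) / p) := by
    have e1 : Vc a b c (2 ^ 2 ^ J) = ∏ p ∈ P', (1 - (#((range p).filter (fun r : ℕ => (p : ℤ) ∣ fv a b c r)) : ℝ) / p) := by
      unfold Vc rho
      apply Finset.prod_congr _ (fun _ _ => rfl)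
      ext p
      rw [mem_filter, mem_Icc, hP']
    rw [e1]
    unfold rho
    ring
  rw [hV]
  refine h.trans ?_
  have hlast : (#((range m).filter (fun r : ℕ => (m : ℤ) ∣ fv a b c r)) : ℝ) * (z0 : ℝ) ^ z0 * ((J : ℝ) + 2) *
      ((2 ^ 2 ^ J) ^ (C * b0)) ^ 2 ≤
      (rho a b c m : ℝ) * (((z0 ^ z0 + 3 * C : ℕ) : ℝ) * ((J : ℝ) + 2) * (2 ^ 2 ^ J) ^ ((z0 ^ z0 + 3 * C) * b0)) := by
    have h0 : (#((range m).filter (fun r : ℕ => (m : ℤ) ∣ fv a b c r)) : ℝ) = (rho a b c m : ℝ) := rfl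
    rw [h0, ← pow_mul]
    have h1 : (1 : ℝ) ≤ 2 ^ 2 ^ J := one_le_pow₀ (by norm_num)
    have h2 : ((2 : ℝ) ^ 2 ^ J) ^ (C * b0 * 2) ≤ ((2 : ℝ) ^ 2 ^ J) ^ ((z0 ^ z0 + 3 * C) * b0) := by
      apply pow_le_pow_right₀ h1
      nlinarith [Nat.zero_le (z0 ^ z0 * b0), Nat.zero_le (C * b0)]
    have h3 : (z0 : ℝ) ^ z0 ≤ ((z0 ^ z0 + 3 * C : ℕ) : ℝ) := by
      push_cast
      have : (0 : ℝ) ≤ 3 * C := by positivity
      linarith
    rw [mul_assoc, mul_assoc, ]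
    apply mul_le_mul_of_nonneg_left _ (Nat.cast_nonneg _)
    rw [← mul_assoc]
    apply mul_le_mul _ h2 (by positivity) (by positivity)
    exact mul_le_mul_of_nonneg_right h3 (by positivity)
  linarith

end Pool.Agent.N792
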