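import Mathlib
import Pool.Agent.N792.Mtm2

/-!
The main term of the type II sums: the inequality without asymptotics (helper96, for the project of helper792).
-/

set_option autoImplicit false

namespace Pool.Agent.N792
open Finset Filter Topology

namespace Mtm

lemma rough_mul {w m k : ℕ} (hm : Rough w m) : Rough w (m * k) ↔ Rough w k := by
  constructor
  · rintro ⟨h1, h2⟩
    exact ⟨fun h => h1 (by rw [h, mul_zero]), fun p hp hd => h2 p hp (Dvd.dvd.mul_left hd m)⟩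
  · rintro ⟨h1, h2⟩
    refine ⟨Nat.mul_ne_zero hm.1 h1, fun p hp hd => ?_⟩
    rcases (Nat.Prime.dvd_mul hp).1 hd with h | h
    · exact hm.2 p hp h
    · exact h2 p hp h

lemma Vc_bd (a b c : ℤ) (z : ℕ) : 0 ≤ Vc a b c z ∧ Vc a b c z ≤ 1 := by
  have hle : ∀ p : ℕ, rho a b c p ≤ p := by
    intro p
    unfold rho
    exact (card_filter_le _ _).trans (card_range p).le
  unfold Vc
  constructor
  · apply prod_nonneg
    intro p hp
    rw [mem_filter] at hp
    have h2 : (0 : ℝ) < p := by exact_mod_cast hp.2.pos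
    have h3 : (rho a b c p : ℝ) / p ≤ 1 := by
      rw [div_le_one h2]
      exact_mod_cast hle p
    linarith
  · apply prod_le_one
    · intro p hp
      rw [mem_filter] at hp
      have h2 : (0 : ℝ) < p := by exact_mod_cast hp.2.pos
      have h3 : (rho a b c p : ℝ) / p ≤ 1 := by
        rw [div_le_one h2]
        exact_mod_cast hle p
      linarith
    · intro p _
      have : (0 : ℝ) ≤ (rho a b c p : ℝ) / p := by positivity
      linarith

/-- the error in one cell of the comparison of `β` with its mean value -/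
lemma cell_err {a b : ℤ} (ha : 0 < a) {x m t kA kB k0 : ℕ} (hm : 1 ≤ m) (hb : b.natAbs ≤ x) (hk0 : 2 ^ t + 1 ≤ k0)
    (hkA : 2 ^ t + 1 ≤ kA) (hAB : kA ≤ kB) (hkB : m * kB ≤ Fn a b x) {β : ℕ → ℝ} {B0 : ℝ} (hB0 : 0 ≤ B0) (hβ : ∀ k, |β k| ≤ B0) :
    |∑ k ∈ (Ioc kA kB).filter (fun k => cl t k = cl t k0), (dens t β (cl t k0 + 1) - β k) * hw a (m * k)| ≤
      2 * B0 * (x / (m * 2 ^ t)) / 2 ^ t + (if cl t k0 = cl t (kA + 1) then 2 * B0 * (x / (m * 2 ^ t)) else 0) +
        (if cl t k0 = cl t kB then 2 * B0 * (x / (m * 2 ^ t)) else 0) := by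
  obtain ⟨e1, e2, e3⟩ := cell_first hk0
  obtain ⟨K1, hK1⟩ : ∃ K1, K1 = cl t k0 := ⟨_, rfl⟩
  obtain ⟨h, hh⟩ : ∃ h, h = cs t (K1 + 1) := ⟨_, rfl⟩
  obtain ⟨D, hD⟩ : ∃ D, D = dens t β (K1 + 1) := ⟨_, rfl⟩
  have hlen := cell_len hk0
  have hDB : |D| ≤ B0 := by rw [hD]; exact dens_abs hβ _
  have hmemb : ∀ k, 2 ^ t + 1 ≤ k → (cl t k = K1 ↔ K1 < k ∧ k ≤ K1 + h) := by
    intro k hk
    rw [hK1, hh, hK1]
    exact cell_iff hk0 hk
  have hsum0 := dens_sum β hk0
  rw [← hK1] at e3 hlen hsum0 ⊢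
  rw [← hh] at hlen hsum0
  rw [← hD] at hsum0 ⊢
  have h2t : 1 ≤ 2 ^ t := Nat.one_le_two_pow
  have hK1p : 1 ≤ K1 := by omega
  have hset : (Ioc kA kB).filter (fun k => cl t k = K1) = (Ioc kA kB).filter (fun k => K1 < k ∧ k ≤ K1 + h) := by
    apply filter_congr
    intro k hk
    rw [mem_Ioc] at hk
    exact hmemb k (by omega)
  rw [hset]
  have hm0 : (0 : ℝ) < m := by exact_mod_cast hm
  have q0 : 0 ≤ 2 * B0 * ((x : ℝ) / (m * 2 ^ t)) := by positivity
  have i1 : 0 ≤ (if K1 = cl t (kA + 1) then 2 * B0 * ((x : ℝ) / (m * 2 ^ t)) else 0) := by split_ifs <;> linarith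
  have i2 : 0 ≤ (if K1 = cl t kB then 2 * B0 * ((x : ℝ) / (m * 2 ^ t)) else 0) := by split_ifs <;> linarith
  have q1 : 0 ≤ 2 * B0 * ((x : ℝ) / (m * 2 ^ t)) / 2 ^ t := by positivity
  rcases ((Ioc kA kB).filter (fun k => K1 < k ∧ k ≤ K1 + h)).eq_empty_or_nonempty with he | ⟨k', hk'⟩
  · rw [he, sum_empty, abs_zero]
    linarith
  rw [mem_filter, mem_Ioc] at hk'
  have hKF : m * K1 ≤ Fn a b x := (Nat.mul_le_mul_left m (by omega : K1 ≤ kB)).trans hkB
  have hlenw := hw_len (b := b) ha hm hK1p hlen hb hKF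
  have hdiff : ∀ k, |D - β k| ≤ 2 * B0 := by
    intro k
    refine (abs_sub _ _).trans ?_
    linarith [hβ k]
  by_cases hfull : kA ≤ K1 ∧ K1 + h ≤ kB
  · -- a full cell
    have e4 : (Ioc kA kB).filter (fun k => K1 < k ∧ k ≤ K1 + h) = Ioc K1 (K1 + h) := by
      ext k
      rw [mem_filter, mem_Ioc, mem_Ioc]
      omega
    rw [e4]
    have e5 : ∑ k ∈ Ioc K1 (K1 + h), (D - β k) * hw a (m * k) =
        ∑ k ∈ Ioc K1 (K1 + h), (D - β k) * (hw a (m * k) - hw a (m * (K1 + h))) := by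
      have : ∑ k ∈ Ioc K1 (K1 + h), (D - β k) * (hw a (m * k) - hw a (m * (K1 + h))) =
          ∑ k ∈ Ioc K1 (K1 + h), (D - β k) * hw a (m * k) -
            (∑ k ∈ Ioc K1 (K1 + h), (D - β k)) * hw a (m * (K1 + h)) := by
        rw [sum_mul, ← sum_sub_distrib]
        apply sum_congr rfl
        intro k _
        ring
      rw [this, hsum0, zero_mul, sub_zero]
    rw [e5]
    have hbd := hw_cell ha hm hK1p hlen
    have e6 : |∑ k ∈ Ioc K1 (K1 + h), (D - β k) * (hw a (m * k) - hw a (m * (K1 + h)))| ≤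
        2 * B0 * (x / (m * 2 ^ t)) / 2 ^ t := by
      refine (abs_sum_le_sum_abs _ _).trans ?_
      calc ∑ k ∈ Ioc K1 (K1 + h), |(D - β k) * (hw a (m * k) - hw a (m * (K1 + h)))|
          ≤ ∑ _k ∈ Ioc K1 (K1 + h), 2 * B0 * (hw a (m * K1) / 2 ^ t) := by
            apply sum_le_sum
            intro k hk
            rw [mem_Ioc] at hk
            rw [abs_mul]
            have a1 : hw a (m * (K1 + h)) ≤ hw a (m * k) :=
              hw_anti ha (Nat.mul_pos hm (by omega)) (Nat.mul_le_mul_left _ hk.2)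
            have a2 : hw a (m * k) ≤ hw a (m * K1) :=
              hw_anti ha (Nat.mul_pos hm (by omega)) (Nat.mul_le_mul_left _ hk.1.le)
            apply mul_le_mul (hdiff k) _ (abs_nonneg _) (by positivity)
            rw [abs_of_nonneg (by linarith)]
            linarith
        _ = 2 * B0 * (h * hw a (m * K1)) / 2 ^ t := by
            rw [sum_const, Nat.card_Ioc, nsmul_eq_mul, Nat.add_sub_cancel_left]
            ring
        _ ≤ 2 * B0 * (x / (m * 2 ^ t)) / 2 ^ t := by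
            gcongr
    linarith
  · -- a cell at one of the ends
    have hpart : |∑ k ∈ (Ioc kA kB).filter (fun k => K1 < k ∧ k ≤ K1 + h), (D - β k) * hw a (m * k)| ≤
        2 * B0 * (x / (m * 2 ^ t)) := by
      refine (abs_sum_le_sum_abs _ _).trans ?_
      calc ∑ k ∈ (Ioc kA kB).filter (fun k => K1 < k ∧ k ≤ K1 + h), |(D - β k) * hw a (m * k)|
          ≤ ∑ _k ∈ (Ioc kA kB).filter (fun k => K1 < k ∧ k ≤ K1 + h), 2 * B0 * hw a (m * K1) := by
            apply sum_le_sum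
            intro k hk
            rw [mem_filter, mem_Ioc] at hk
            rw [abs_mul, abs_of_nonneg (hw_nonneg a (m * k))]
            have a2 : hw a (m * k) ≤ hw a (m * K1) :=
              hw_anti ha (Nat.mul_pos hm (by omega)) (Nat.mul_le_mul_left _ hk.2.1.le)
            exact mul_le_mul (hdiff k) a2 (hw_nonneg _ _) (by positivity)
        _ ≤ ∑ _k ∈ Ioc K1 (K1 + h), 2 * B0 * hw a (m * K1) := by
            apply sum_le_sum_of_subset_of_nonneg
            · intro k hk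
              rw [mem_filter] at hk
              rw [mem_Ioc]
              exact hk.2
            · intro _ _ _
              have := hw_nonneg a (m * K1)
              positivity
        _ = 2 * B0 * (h * hw a (m * K1)) := by
            rw [sum_const, Nat.card_Ioc, nsmul_eq_mul, Nat.add_sub_cancel_left]
            ring
        _ ≤ 2 * B0 * (x / (m * 2 ^ t)) := by
            gcongr
    by_cases hlow : K1 < kA
    · have e7 : K1 = cl t (kA + 1) := ((hmemb (kA + 1) (by omega)).2 ⟨by omega, by omega⟩).symm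
      rw [if_pos e7]
      linarith
    · have e7 : K1 = cl t kB := ((hmemb kB (by omega)).2 ⟨by omega, by omega⟩).symm
      rw [if_pos e7]
      linarith

/-- the inequality without asymptotics -/
theorem struct {a b : ℤ} (ha : 0 < a) {R x1 x c m t w X : ℕ} (hx : x1 < x) (hb : b.natAbs ≤ x1) (hR : x ≤ R * x1)
    (hc : c ≤ x) (hm : 1 ≤ m) (hmr : Rough w m) (hkA : 2 ^ t + 1 ≤ Fn a b x1 / m) (hX : Fn a b x + c ≤ X)
    {β : ℕ → ℝ} {B0 θ Err : ℝ} (hB0 : 0 ≤ B0) (hβ : ∀ k, |β k| ≤ B0) (hθ : 0 ≤ θ) (hErr : 0 ≤ Err)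
    (hfl : ∀ n1 n2 : ℕ, n1 ≤ n2 → ∀ S : Finset ℕ, (∀ n, n ∈ S ↔ n ∈ Ioc n1 n2 ∧ (m : ℤ) ∣ fv a b c n ∧ Rough w (fv a b c n).natAbs) →
      |(#S : ℝ) - rho a b c m / m * ((n2 : ℝ) - n1) * Vc a b c w| ≤
        θ * (rho a b c m / m * ((n2 : ℝ) - n1) * Vc a b c w) + rho a b c m * Err)
    {T V : ℝ} (hT : (#((Icc (2 ^ t + 1) X).image (cl t)) : ℝ) ≤ T) (hV0 : 0 < V1 w) (hV : 1 / V1 w ≤ V) :
    |∑ n ∈ (Ioc x1 x).filter (fun n : ℕ => (m : ℤ) ∣ fv a b c n), sharp t w β ((fv a b c n).toNat / m) -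
      Vc a b c w / V1 w * rho a b c m *
        ∑ k ∈ (Icc 1 (Fn a b x)).filter (fun k => Fn a b x1 < m * k ∧ m * k ≤ Fn a b x), β k * hw a (m * k)| ≤
      rho a b c m * (V * B0 * (T * (θ * (x / m) + Err) +
        T * ((2 * (1 + b.natAbs + R) + 6 * (m * hw a (m * (Fn a b x1 / m)))) / m) +
        (T * (2 * (x / (m * 2 ^ t)) / 2 ^ t) + 4 * (x / (m * 2 ^ t))))) := by
  classical
  obtain ⟨kA, hA⟩ : ∃ kA, kA = Fn a b x1 / m := ⟨_, rfl⟩
  obtain ⟨kB, hB⟩ : ∃ kB, kB = Fn a b x / m := ⟨_, rfl⟩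
  have hFm : Fn a b x1 ≤ Fn a b x := Fn_mono ha hb hx.le
  have hAB : kA ≤ kB := by rw [hA, hB]; exact Nat.div_le_div_right hFm
  have hSb : ∀ K : ℕ, |∑ k ∈ (Ioc kA kB).filter (fun k => k ≤ K), (m : ℝ) * hw a (m * k) -
      (gg a ((min (max (m * K) (Fn a b x1)) (Fn a b x) : ℕ) : ℝ) - gg a (Fn a b x1 : ℕ))| ≤
      3 * (m * hw a (m * kA)) := by
    rw [hA, hB]
    exact fun K => S_bound ha hm hFm (by have : 1 ≤ 2 ^ t := Nat.one_le_two_pow; omega) K
  rw [← hA] at hkA ⊢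
  have hb2 : b.natAbs ≤ x := hb.trans hx.le
  have hkBF : m * kB ≤ Fn a b x := by rw [hB]; exact Nat.mul_div_le _ _
  have hkBX : kB ≤ X := by
    have h1 : kB ≤ m * kB := Nat.le_mul_of_pos_left _ hm
    omega
  have hm0 : (0 : ℝ) < m := by exact_mod_cast hm
  have hbx : (0 : ℝ) ≤ x := by positivity
  choose ν hν1 hν2 hν3 hν4 using nu_exists (b := b) ha hx hb hR hc
  obtain ⟨TT, hTT⟩ : ∃ TT, TT = (Icc (2 ^ t + 1) X).image (cl t) := ⟨_, rfl⟩
  rw [← hTT] at hT
  obtain ⟨ρ, hρ⟩ : ∃ ρ : ℝ, ρ = rho a b c m := ⟨_, rfl⟩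
  have hρ0 : 0 ≤ ρ := by rw [hρ]; positivity
  rw [← hρ] at hfl ⊢
  obtain ⟨hVc0, hVc1⟩ := Vc_bd a b c w
  obtain ⟨Vv, hVv⟩ : ∃ Vv, Vv = Vc a b c w := ⟨_, rfl⟩
  rw [← hVv] at hVc0 hVc1 hfl ⊢
  obtain ⟨W1, hW1⟩ : ∃ W1, W1 = V1 w := ⟨_, rfl⟩
  rw [← hW1] at hV0 hV ⊢
  -- the sum over `k` in cells
  have hsetR : (Icc 1 (Fn a b x)).filter (fun k => Fn a b x1 < m * k ∧ m * k ≤ Fn a b x) = Ioc kA kB := by
    ext k
    rw [mem_filter, mem_Icc, mem_Ioc, hA, hB, Nat.div_lt_iff_lt_mul hm, Nat.le_div_iff_mul_le hm, mul_comm k m]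
    constructor
    · rintro ⟨_, h⟩; exact h
    · intro h
      refine ⟨⟨?_, ?_⟩, h⟩
      · rcases Nat.eq_zero_or_pos k with h0 | h0
        · rw [h0] at h; omega
        · exact h0
      · exact (Nat.le_mul_of_pos_left k hm).trans h.2
  rw [hsetR]
  have hmapsR : ∀ k ∈ Ioc kA kB, cl t k ∈ TT := by
    intro k hk
    rw [mem_Ioc] at hk
    rw [hTT, mem_image]
    exact ⟨k, mem_Icc.2 ⟨by omega, by omega⟩, rfl⟩
  rw [← sum_fiberwise_of_maps_to hmapsR]
  -- the sum over `n` in cells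
  have hval : ∀ n ∈ Ioc x1 x, fv a b c n = ((Fn a b n + c : ℕ) : ℤ) := by
    intro n hn
    rw [mem_Ioc] at hn
    exact fv_eq ha (by omega)
  have hnat : ∀ n ∈ Ioc x1 x, (fv a b c n).toNat = Fn a b n + c ∧ (fv a b c n).natAbs = Fn a b n + c := by
    intro n hn
    rw [hval n hn]
    exact ⟨Int.toNat_natCast _, Int.natAbs_natCast _⟩
  have hdvd : ∀ n ∈ Ioc x1 x, (m : ℤ) ∣ fv a b c n → m * ((Fn a b n + c) / m) = Fn a b n + c := by
    intro n hn h
    rw [hval n hn] at h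
    exact Nat.mul_div_cancel' (Int.natCast_dvd_natCast.1 h)
  have hkn : ∀ n ∈ Ioc x1 x, kA ≤ (Fn a b n + c) / m := by
    intro n hn
    rw [mem_Ioc] at hn
    rw [hA]
    apply Nat.div_le_div_right
    have := Fn_mono ha hb hn.1.le
    omega
  have hmapsL : ∀ n ∈ (Ioc x1 x).filter (fun n : ℕ => (m : ℤ) ∣ fv a b c n), cl t ((fv a b c n).toNat / m) ∈ TT := by
    intro n hn
    rw [mem_filter] at hn
    rw [(hnat n hn.1).1, hTT, mem_image]
    have h1 := hkn n hn.1
    have h2 : (Fn a b n + c) / m ≤ Fn a b n + c := Nat.div_le_self _ _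
    have h3 := (mem_Ioc.1 hn.1)
    have h4 := Fn_mono ha (b := b) (n := n) (by omega) h3.2
    exact ⟨_, mem_Icc.2 ⟨by omega, by omega⟩, rfl⟩
  rw [← sum_fiberwise_of_maps_to hmapsL]
  rw [mul_sum, ← sum_sub_distrib]
  refine (abs_sum_le_sum_abs _ _).trans ?_
  -- one cell
  obtain ⟨e0, he0⟩ : ∃ e0 : ℝ, e0 = θ * (x / m) + Err +
    (2 * (1 + b.natAbs + R) + 6 * (m * hw a (m * kA))) / m + 2 * (x / (m * 2 ^ t)) / 2 ^ t := ⟨_, rfl⟩
  obtain ⟨e2, he2⟩ : ∃ e2 : ℝ, e2 = 2 * ((x : ℝ) / (m * 2 ^ t)) := ⟨_, rfl⟩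
  have hwA0 : 0 ≤ hw a (m * kA) := hw_nonneg _ _
  have he00 : 0 ≤ e0 := by rw [he0]; positivity
  have he20 : 0 ≤ e2 := by rw [he2]; positivity
  have hV00 : 0 ≤ V := (one_div_pos.2 hV0).le.trans hV
  have hcell : ∀ q ∈ TT, |∑ n ∈ ((Ioc x1 x).filter (fun n : ℕ => (m : ℤ) ∣ fv a b c n)).filter
      (fun n => cl t ((fv a b c n).toNat / m) = q), sharp t w β ((fv a b c n).toNat / m) -
      Vv / W1 * ρ * ∑ k ∈ (Ioc kA kB).filter (fun k => cl t k = q), β k * hw a (m * k)| ≤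
      ρ * V * B0 * (e0 + (if q = cl t (kA + 1) then e2 else 0) + (if q = cl t kB then e2 else 0)) := by
    intro q hq
    rw [hTT, mem_image] at hq
    obtain ⟨k0, hk0, rfl⟩ := hq
    rw [mem_Icc] at hk0
    obtain ⟨q1, hq1⟩ : ∃ q1, q1 = cl t k0 := ⟨_, rfl⟩
    obtain ⟨h, hh⟩ : ∃ h, h = cs t (q1 + 1) := ⟨_, rfl⟩
    obtain ⟨D, hD⟩ : ∃ D, D = dens t β (q1 + 1) := ⟨_, rfl⟩
    have hDB : |D| ≤ B0 := by rw [hD]; exact dens_abs hβ _
    have hce := cell_err ha hm hb2 hk0.1 hkA hAB hkBF hB0 hβ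
    have hmemb : ∀ k, 2 ^ t + 1 ≤ k → (cl t k = q1 ↔ q1 < k ∧ k ≤ q1 + h) := by
      intro k hk
      rw [hh, hq1]
      exact cell_iff hk0.1 hk
    have hfirst := cell_first hk0.1
    rw [← hq1] at hce hfirst ⊢
    rw [← hD] at hce
    -- the left sum
    obtain ⟨S, hS⟩ : ∃ S : Finset ℕ, S = (Ioc (ν (m * q1)) (ν (m * (q1 + h)))).filter
      (fun n : ℕ => (m : ℤ) ∣ fv a b c n ∧ Rough w (fv a b c n).natAbs) := ⟨_, rfl⟩
    have hνm : ν (m * q1) ≤ ν (m * (q1 + h)) := by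
      rcases Nat.eq_or_lt_of_le (hν1 (m * q1)) with h5 | h5
      · rw [← h5]; exact hν1 _
      · have h6 := (hν3 (m * q1) _ h5 (hν2 _)).2 le_rfl
        have h7 : m * q1 ≤ m * (q1 + h) := Nat.mul_le_mul_left _ (by omega)
        exact (hν3 (m * (q1 + h)) _ h5 (hν2 _)).1 (h6.trans h7)
    have hmemS : ∀ n, n ∈ S ↔ (n ∈ Ioc x1 x ∧ (m : ℤ) ∣ fv a b c n) ∧ cl t ((fv a b c n).toNat / m) = q1 ∧
        Rough w ((fv a b c n).toNat / m) := by
      intro n
      rw [hS, mem_filter, mem_Ioc]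
      constructor
      · rintro ⟨⟨h1, h2⟩, h3, h4⟩
        have hn : n ∈ Ioc x1 x := by
          rw [mem_Ioc]
          have := hν1 (m * q1)
          have := hν2 (m * (q1 + h))
          omega
        have hn' := mem_Ioc.1 hn
        refine ⟨⟨hn, h3⟩, ?_, ?_⟩
        · rw [(hnat n hn).1, hmemb _ (hkA.trans (hkn n hn))]
          have g1 := (hν3 (m * q1) n hn'.1 hn'.2)
          have g2 := (hν3 (m * (q1 + h)) n hn'.1 hn'.2).2 h2
          have g3 : ¬ (Fn a b n + c ≤ m * q1) := by rw [g1]; omega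
          have g4 := hdvd n hn h3
          rw [← g4] at g2 g3
          constructor
          · by_contra hcon
            exact g3 (Nat.mul_le_mul_left _ (by omega))
          · exact Nat.le_of_mul_le_mul_left g2 hm
        · rw [(hnat n hn).2, ← hdvd n hn h3, rough_mul hmr] at h4
          rw [(hnat n hn).1]
          exact h4
      · rintro ⟨⟨hn, h3⟩, h4, h5⟩
        have hn' := mem_Ioc.1 hn
        rw [(hnat n hn).1, hmemb _ (hkA.trans (hkn n hn))] at h4
        have g4 := hdvd n hn h3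
        refine ⟨⟨?_, ?_⟩, h3, ?_⟩
        · by_contra hcon
          have g1 := (hν3 (m * q1) n hn'.1 hn'.2).2 (by omega)
          rw [← g4] at g1
          have := Nat.le_of_mul_le_mul_left g1 hm
          omega
        · apply (hν3 (m * (q1 + h)) n hn'.1 hn'.2).1
          rw [← g4]
          exact Nat.mul_le_mul_left _ h4.2
        · rw [(hnat n hn).1] at h5
          rw [(hnat n hn).2, ← g4, rough_mul hmr]
          exact h5
    have hLsum : ∑ n ∈ ((Ioc x1 x).filter (fun n : ℕ => (m : ℤ) ∣ fv a b c n)).filter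
        (fun n => cl t ((fv a b c n).toNat / m) = q1), sharp t w β ((fv a b c n).toNat / m) = D / W1 * #S := by
      have g1 : ∀ n ∈ ((Ioc x1 x).filter (fun n : ℕ => (m : ℤ) ∣ fv a b c n)).filter
          (fun n => cl t ((fv a b c n).toNat / m) = q1), sharp t w β ((fv a b c n).toNat / m) =
          if Rough w ((fv a b c n).toNat / m) then D / W1 else 0 := by
        intro n hn
        rw [mem_filter, mem_filter] at hn
        unfold sharp rg
        have g2 : 2 ^ t + 1 ≤ (fv a b c n).toNat / m := by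
          rw [(hnat n hn.1.1).1]
          exact hkA.trans (hkn n hn.1.1)
        rw [dens_first β g2, hn.2, ← hD, ← hW1]
        split_ifs
        · rw [mul_one]
        · rw [mul_zero, zero_div]
      rw [sum_congr rfl g1, ← sum_filter, sum_const, nsmul_eq_mul, mul_comm]
      congr 3
      ext n
      rw [hmemS, mem_filter, mem_filter, mem_filter]
      tauto
    rw [hLsum]
    have hflq := hfl _ _ hνm S (by intro n; rw [hS, mem_filter])
    obtain ⟨N, hN⟩ : ∃ N : ℝ, N = (ν (m * (q1 + h)) : ℝ) - ν (m * q1) := ⟨_, rfl⟩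
    rw [← hN] at hflq
    have hN0 : 0 ≤ N := by
      have : (ν (m * q1) : ℝ) ≤ ν (m * (q1 + h)) := by exact_mod_cast hνm
      linarith
    have hNx : N ≤ x := by
      have h5 : (ν (m * (q1 + h)) : ℝ) ≤ x := by exact_mod_cast hν2 _
      have h6 : (0 : ℝ) ≤ ν (m * q1) := by positivity
      linarith
    have hA1 : |(#S : ℝ) - ρ / m * N * Vv| ≤ ρ * (θ * (x / m) + Err) := by
      refine hflq.trans ?_
      have h5 : ρ / m * N * Vv ≤ ρ / m * x * 1 := by
        apply mul_le_mul (mul_le_mul_of_nonneg_left hNx (by positivity)) hVc1 hVc0 (by positivity)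
      have h6 : θ * (ρ / m * N * Vv) ≤ θ * (ρ / m * x * 1) := mul_le_mul_of_nonneg_left h5 hθ
      have h7 : ρ * (θ * (x / m) + Err) = θ * (ρ / m * x * 1) + ρ * Err := by ring
      linarith
    -- the number of arguments and the sum of the weights
    obtain ⟨M, hM⟩ : ∃ M : ℝ, M = ∑ k ∈ (Ioc kA kB).filter (fun k => cl t k = q1), hw a (m * k) := ⟨_, rfl⟩
    have hsetq : (Ioc kA kB).filter (fun k => cl t k = q1) = (Ioc kA kB).filter (fun k => q1 < k ∧ k ≤ q1 + h) := by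
      apply filter_congr
      intro k hk
      rw [mem_Ioc] at hk
      exact hmemb k (by omega)
    have hMsum : m * M = ∑ k ∈ (Ioc kA kB).filter (fun k => k ≤ q1 + h), (m : ℝ) * hw a (m * k) -
        ∑ k ∈ (Ioc kA kB).filter (fun k => k ≤ q1), (m : ℝ) * hw a (m * k) := by
      rw [hM, mul_sum, hsetq]
      rw [eq_sub_iff_add_eq, ← sum_union]
      · apply sum_congr _ fun _ _ => rfl
        ext k
        rw [mem_union, mem_filter, mem_filter, mem_filter]
        constructor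
        · rintro (⟨g1, g2⟩ | ⟨g1, g2⟩)
          · exact ⟨g1, g2.2⟩
          · exact ⟨g1, by omega⟩
        · rintro ⟨g1, g2⟩
          rcases Nat.lt_or_ge q1 k with g3 | g3
          · exact Or.inl ⟨g1, g3, g2⟩
          · exact Or.inr ⟨g1, g3⟩
      · rw [disjoint_left]
        intro k g1 g2
        rw [mem_filter] at g1 g2
        omega
    have hNM : |N - m * M| ≤ 2 * (1 + b.natAbs + R) + 6 * (m * hw a (m * kA)) := by
      have s1 := hSb (q1 + h)
      have s2 := hSb q1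
      have s3 := hν4 (m * (q1 + h))
      have s4 := hν4 (m * q1)
      rw [hMsum, hN]
      rw [abs_le] at s1 s2 s3 s4 ⊢
      constructor <;> linarith [s1.1, s1.2, s2.1, s2.2, s3.1, s3.2, s4.1, s4.2]
    have hNM' : |N / m - M| ≤ (2 * (1 + b.natAbs + R) + 6 * (m * hw a (m * kA))) / m := by
      have g1 : N / m - M = (N - m * M) / m := by field_simp
      rw [g1, abs_div, abs_of_pos hm0]
      exact div_le_div_of_nonneg_right hNM hm0.le
    -- the sum of `β`
    obtain ⟨Bs, hBs⟩ : ∃ Bs : ℝ, Bs = ∑ k ∈ (Ioc kA kB).filter (fun k => cl t k = q1), β k * hw a (m * k) := ⟨_, rfl⟩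
    have hE2 : ∑ k ∈ (Ioc kA kB).filter (fun k => cl t k = q1), (D - β k) * hw a (m * k) = D * M - Bs := by
      rw [hM, hBs, mul_sum, ← sum_sub_distrib]
      apply sum_congr rfl
      intro k _
      ring
    rw [hE2] at hce
    rw [← hBs]
    have hid : D / W1 * #S - Vv / W1 * ρ * Bs =
        (1 / W1) * (D * ((#S : ℝ) - ρ / m * N * Vv) + ρ * Vv * (D * (N / m - M) + (D * M - Bs))) := by
      field_simp
      ring
    rw [hid, abs_mul, abs_of_pos (one_div_pos.2 hV0)]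
    have t1 : |D * ((#S : ℝ) - ρ / m * N * Vv)| ≤ B0 * (ρ * (θ * (x / m) + Err)) := by
      rw [abs_mul]
      exact mul_le_mul hDB hA1 (abs_nonneg _) hB0
    have t2 : |D * (N / m - M)| ≤ B0 * ((2 * (1 + b.natAbs + R) + 6 * (m * hw a (m * kA))) / m) := by
      rw [abs_mul]
      exact mul_le_mul hDB hNM' (abs_nonneg _) hB0
    have t3 : |ρ * Vv * (D * (N / m - M) + (D * M - Bs))| ≤
        ρ * (B0 * ((2 * (1 + b.natAbs + R) + 6 * (m * hw a (m * kA))) / m) +
          (2 * B0 * (x / (m * 2 ^ t)) / 2 ^ t + (if q1 = cl t (kA + 1) then 2 * B0 * (x / (m * 2 ^ t)) else 0) +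
            (if q1 = cl t kB then 2 * B0 * (x / (m * 2 ^ t)) else 0))) := by
      rw [abs_mul, abs_mul, abs_of_nonneg hρ0, abs_of_nonneg hVc0]
      have g1 := (abs_add_le (D * (N / m - M)) (D * M - Bs)).trans (add_le_add t2 hce)
      calc ρ * Vv * |D * (N / m - M) + (D * M - Bs)| ≤ ρ * 1 * |D * (N / m - M) + (D * M - Bs)| := by gcongr
        _ = ρ * |D * (N / m - M) + (D * M - Bs)| := by ring
        _ ≤ _ := mul_le_mul_of_nonneg_left g1 hρ0
    have hif : ∀ (P : Prop) [Decidable P], (if P then 2 * B0 * ((x : ℝ) / (m * 2 ^ t)) else 0) = B0 * (if P then e2 else 0) := by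
      intro P _
      split_ifs
      · rw [he2]; ring
      · ring
    rw [hif, hif] at t3
    have t4 := (abs_add_le (D * ((#S : ℝ) - ρ / m * N * Vv)) (ρ * Vv * (D * (N / m - M) + (D * M - Bs)))).trans (add_le_add t1 t3)
    have i1 : 0 ≤ (if q1 = cl t (kA + 1) then e2 else 0) := by split_ifs <;> linarith
    have i2 : 0 ≤ (if q1 = cl t kB then e2 else 0) := by split_ifs <;> linarith
    refine (mul_le_mul hV t4 (abs_nonneg _) hV00).trans (le_of_eq ?_)
    rw [he0]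
    ring
  refine (sum_le_sum hcell).trans ?_
  rw [← mul_sum, sum_add_distrib, sum_add_distrib, sum_const, nsmul_eq_mul]
  have j1 : ∑ q ∈ TT, (if q = cl t (kA + 1) then e2 else 0) ≤ e2 := by
    rw [sum_ite_eq']
    split_ifs
    · exact le_rfl
    · exact he20
  have j2 : ∑ q ∈ TT, (if q = cl t kB then e2 else 0) ≤ e2 := by
    rw [sum_ite_eq']
    split_ifs
    · exact le_rfl
    · exact he20
  have j3 : (#TT : ℝ) * e0 ≤ T * e0 := mul_le_mul_of_nonneg_right hT he00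
  calc ρ * V * B0 * (#TT * e0 + ∑ q ∈ TT, (if q = cl t (kA + 1) then e2 else 0) + ∑ q ∈ TT, (if q = cl t kB then e2 else 0))
      ≤ ρ * V * B0 * (T * e0 + e2 + e2) := by
        apply mul_le_mul_of_nonneg_left _ (by positivity)
        linarith
    _ = _ := by
        rw [he0, he2]
        ring

end Mtm

end Pool.Agent.N792
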