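import Mathlib
import Pool.Agent.N792.Mtm3
import Pool.Agent.N792.FlP
import Pool.Agent.Helper256.KM.Mertens

/-!
The main term of the type II sums (helper96, for the project of helper792).
-/

set_option autoImplicit false

namespace Pool.Agent.N792
open Finset Filter Topology
open ArithmeticFunction (moebius vonMangoldt)

namespace Mtm

lemma ev_pow (P : ℕ) (c : ℝ) {s : ℝ} (hs : 0 < s) : ∀ᶠ x : ℕ in atTop, c * Real.log x ^ P ≤ (x : ℝ) ^ s := by
  have t2 := (isLittleO_log_rpow_rpow_atTop (P : ℝ) hs).bound (show (0 : ℝ) < 1 / (|c| + 1) by positivity)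
  have t3 := (tendsto_natCast_atTop_atTop (R := ℝ)).eventually t2
  have t1 : Filter.Tendsto (fun N : ℕ => Real.log N) Filter.atTop Filter.atTop :=
    Real.tendsto_log_atTop.comp tendsto_natCast_atTop_atTop
  filter_upwards [t3, t1.eventually_ge_atTop 0] with x h2 h3
  rw [Real.rpow_natCast, Real.norm_of_nonneg (by positivity), Real.norm_of_nonneg (by positivity), one_div,
    inv_mul_eq_div, le_div_iff₀ (by positivity)] at h2
  have h4 : c ≤ |c| + 1 := by linarith [le_abs_self c]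
  calc c * Real.log x ^ P ≤ (|c| + 1) * Real.log x ^ P := mul_le_mul_of_nonneg_right h4 (by positivity)
    _ ≤ (x : ℝ) ^ s := by linarith

lemma V1_pos' (z : ℕ) : 0 < V1 z := by
  unfold V1
  apply prod_pos
  intro p hp
  rw [mem_filter] at hp
  have h2 : (2 : ℝ) ≤ p := by exact_mod_cast hp.2.two_le
  have h3 : 1 / (p : ℝ) ≤ 1 / 2 := one_div_le_one_div_of_le (by norm_num) h2
  linarith

lemma V1_inv (E : ℕ) : ∃ N0 : ℕ, ∀ N : ℕ, N0 ≤ N → ∀ z : ℕ, (z : ℝ) ≤ Real.log N ^ E →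
    1 / V1 z ≤ Real.log N := by
  obtain ⟨C, hC⟩ := Pool.Agent.Helper256.KM.mertens_inv
  have hlim : Filter.Tendsto (fun N : ℕ => Real.log (N : ℝ)) Filter.atTop Filter.atTop :=
    Real.tendsto_log_atTop.comp (tendsto_natCast_atTop_atTop (R := ℝ))
  have h2 : ∀ᶠ N : ℕ in Filter.atTop, (Real.exp (2 * C) * (E : ℝ) ^ 2) * Real.log (Real.log N) ^ 2 ≤ Real.log N := by
    have h3 := (Real.isLittleO_pow_log_id_atTop (n := 2)).bound (show (0 : ℝ) < 1 / (Real.exp (2 * C) * (E : ℝ) ^ 2 + 1) by positivity)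
    have h4 := hlim.eventually h3
    filter_upwards [h4, hlim.eventually_ge_atTop 1] with N h5 h6
    simp only [id] at h5
    rw [Real.norm_of_nonneg (by positivity), Real.norm_of_nonneg (by linarith), one_div, inv_mul_eq_div,
      le_div_iff₀ (by positivity)] at h5
    have h7 : 0 ≤ Real.log (Real.log N) ^ 2 := by positivity
    nlinarith
  obtain ⟨N0, h0⟩ := Filter.eventually_atTop.1 (h2.and (hlim.eventually_ge_atTop 4))
  refine ⟨N0, fun N hN z hzE => ?_⟩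
  obtain ⟨hb, hL⟩ := h0 N hN
  have hinv : 1 / V1 z ≤ Real.exp (2 * ∑ p ∈ (Icc 1 z).filter Nat.Prime, 1 / (p : ℝ)) := by
    unfold V1
    rw [one_div, ← prod_inv_distrib, mul_sum, Real.exp_sum]
    apply Finset.prod_le_prod
    · intro p hp
      have hp2 : (2 : ℝ) ≤ p := by exact_mod_cast (mem_filter.1 hp).2.two_le
      apply inv_nonneg.2
      rw [sub_nonneg, div_le_one (by linarith)]; linarith
    · intro p hp
      have hp2 : (2 : ℝ) ≤ p := by exact_mod_cast (mem_filter.1 hp).2.two_le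
      have h6 : (1 - 1 / (p : ℝ))⁻¹ ≤ 2 * (1 / p) + 1 := by
        rw [inv_le_iff_one_le_mul₀ (by rw [sub_pos, div_lt_one (by linarith)]; linarith)]
        have h7 : 0 < 1 / (p : ℝ) := by positivity
        have h8 : 1 / (p : ℝ) ≤ 1 / 2 := one_div_le_one_div_of_le (by norm_num) hp2
        nlinarith
      exact h6.trans (Real.add_one_le_exp _)
  rcases lt_or_ge z 3 with h3 | h3
  · have h5 : (1 : ℝ) / 2 ≤ V1 z := by
      have h6 : (Icc 1 z).filter Nat.Prime ⊆ {2} := by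
        intro p hp
        rw [mem_filter, mem_Icc] at hp
        rw [mem_singleton]
        have := hp.2.two_le
        omega
      unfold V1
      rcases Finset.subset_singleton_iff.1 h6 with h7 | h7
      · rw [h7, prod_empty]; norm_num
      · rw [h7, prod_singleton]; norm_num
    have h6 : 1 / V1 z ≤ 1 / (1 / 2) := one_div_le_one_div_of_le (by norm_num) h5
    norm_num at h6
    rw [one_div]
    linarith
  have h4 := hC z h3
  have hz3 : (3 : ℝ) ≤ z := by exact_mod_cast h3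
  have hlz : 1 ≤ Real.log z := by
    rw [← Real.log_exp 1]
    apply Real.log_le_log (Real.exp_pos _)
    have := Real.exp_one_lt_d9
    linarith
  have h6 : ∑ p ∈ (Icc 1 z).filter Nat.Prime, 1 / (p : ℝ) ≤ Real.log (Real.log z) + C := by
    have := (abs_le.1 h4).2
    linarith
  have h7 : Real.log z ≤ E * Real.log (Real.log N) := by
    have h8 := Real.log_le_log (by linarith) hzE
    rw [Real.log_pow] at h8
    exact h8
  calc 1 / V1 z ≤ Real.exp (2 * ∑ p ∈ (Icc 1 z).filter Nat.Prime, 1 / (p : ℝ)) := hinv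
    _ ≤ Real.exp (2 * (Real.log (Real.log z) + C)) := Real.exp_le_exp.2 (by linarith)
    _ = Real.exp (2 * C) * Real.log z ^ 2 := by
        rw [mul_add, Real.exp_add, mul_comm 2 (Real.log (Real.log z)), Real.exp_mul, Real.exp_log (by linarith)]
        norm_num
        ring
    _ ≤ Real.exp (2 * C) * (E * Real.log (Real.log N)) ^ 2 := by gcongr
    _ = (Real.exp (2 * C) * (E : ℝ) ^ 2) * Real.log (Real.log N) ^ 2 := by ring
    _ ≤ _ := hb

/-- the error term of the fundamental lemma is small -/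
lemma err_small (C1 E P : ℕ) {ε : ℝ} (hε : 0 < ε) : ∃ x0 : ℕ, ∀ x : ℕ, x0 ≤ x → ∀ J b0 : ℕ,
    ((2 ^ 2 ^ J : ℕ) : ℝ) ≤ Real.log x ^ E → b0 = C1 + Nat.clog 2 ⌈Real.log x ^ P⌉₊ →
    (C1 * (J + 2) * (2 ^ 2 ^ J) ^ (C1 * b0) : ℝ) * Real.log x ^ P ≤ (x : ℝ) ^ ε ∧
    (1 / 2 : ℝ) ^ b0 * Real.log x ^ P ≤ 1 := by
  have hlim : Filter.Tendsto (fun N : ℕ => Real.log (N : ℝ)) Filter.atTop Filter.atTop :=
    Real.tendsto_log_atTop.comp (tendsto_natCast_atTop_atTop (R := ℝ))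
  obtain ⟨K, hK⟩ : ∃ K : ℝ, K = (E : ℝ) * (C1 * (C1 + 2 + 2 * P) + 1) + 2 * C1 + P := ⟨_, rfl⟩
  have hK0 : 0 ≤ K := by rw [hK]; positivity
  have h2 : ∀ᶠ N : ℕ in Filter.atTop, K * Real.log (Real.log N) ^ 2 ≤ ε * Real.log N := by
    have h3 := (Real.isLittleO_pow_log_id_atTop (n := 2)).bound (show (0 : ℝ) < ε / (K + 1) by positivity)
    have h4 := hlim.eventually h3
    filter_upwards [h4, hlim.eventually_ge_atTop 1] with N h5 h6
    simp only [id] at h5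
    rw [Real.norm_of_nonneg (by positivity), Real.norm_of_nonneg (by linarith), div_mul_eq_mul_div,
      le_div_iff₀ (by positivity)] at h5
    have h7 : 0 ≤ Real.log (Real.log N) ^ 2 := by positivity
    nlinarith
  obtain ⟨x0, h0⟩ := Filter.eventually_atTop.1 (h2.and (hlim.eventually_ge_atTop 3))
  refine ⟨x0 + 1, fun x hx J b0 hJ hb0 => ?_⟩
  obtain ⟨hk, hL3⟩ := h0 x (by omega)
  obtain ⟨L, hL⟩ : ∃ L, L = Real.log (x : ℝ) := ⟨_, rfl⟩
  rw [← hL] at hk hL3 hJ hb0 ⊢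
  have hx0 : (0 : ℝ) < x := by exact_mod_cast (by omega : 0 < x)
  have hL0 : 0 < L := by linarith
  obtain ⟨l, hl⟩ : ∃ l, l = Real.log L := ⟨_, rfl⟩
  rw [← hl] at hk
  have hl1 : 1 ≤ l := by
    rw [hl, ← Real.log_exp 1]
    apply Real.log_le_log (Real.exp_pos _)
    have := Real.exp_one_lt_d9
    linarith
  have hLP1 : 1 ≤ L ^ P := one_le_pow₀ (by linarith)
  have hln2 : (1 / 2 : ℝ) ≤ Real.log 2 := by have := Real.log_two_gt_d9; linarith
  constructor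
  · -- the size of `b0`
    have hb : (b0 : ℝ) ≤ C1 + 2 + 2 * P * l := by
      rw [hb0]
      push_cast
      have h5 : (Nat.clog 2 ⌈L ^ P⌉₊ : ℝ) ≤ 2 + 2 * P * l := by
        rcases Nat.eq_zero_or_pos (Nat.clog 2 ⌈L ^ P⌉₊) with h6 | h6
        · rw [h6]
          push_cast
          positivity
        · have h7 : 2 ^ (Nat.clog 2 ⌈L ^ P⌉₊ - 1) < ⌈L ^ P⌉₊ := by
            rw [← Nat.pred_eq_sub_one]
            refine Nat.pow_pred_clog_lt_self (by norm_num) ?_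
            by_contra hcon
            push Not at hcon
            rw [Nat.clog_of_right_le_one hcon] at h6
            omega
          have h8 : ((2 ^ (Nat.clog 2 ⌈L ^ P⌉₊ - 1) : ℕ) : ℝ) ≤ 2 * L ^ P := by
            have h9 : ((2 ^ (Nat.clog 2 ⌈L ^ P⌉₊ - 1) : ℕ) : ℝ) ≤ (⌈L ^ P⌉₊ : ℝ) := by exact_mod_cast h7.le
            have h10 := (Nat.ceil_lt_add_one (show 0 ≤ L ^ P by positivity)).le
            linarith
          push_cast at h8
          have h9 := Real.log_le_log (by positivity) h8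
          rw [Real.log_pow, Real.log_mul (by norm_num) (by positivity), Real.log_pow, ← hl] at h9
          have h10 : ((Nat.clog 2 ⌈L ^ P⌉₊ - 1 : ℕ) : ℝ) = (Nat.clog 2 ⌈L ^ P⌉₊ : ℝ) - 1 := by
            rw [Nat.cast_sub h6]; norm_num
          rw [h10] at h9
          have h11 : 0 ≤ (P : ℝ) * l := by positivity
          by_contra hcon
          push Not at hcon
          have h12 : 0 < (Nat.clog 2 ⌈L ^ P⌉₊ : ℝ) - 2 := by nlinarith
          have h13 : ((Nat.clog 2 ⌈L ^ P⌉₊ : ℝ) - 2) * (1 / 2) ≤ ((Nat.clog 2 ⌈L ^ P⌉₊ : ℝ) - 2) * Real.log 2 :=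
            mul_le_mul_of_nonneg_left hln2 h12.le
          nlinarith
      linarith
    -- the size of the error
    obtain ⟨w, hw⟩ : ∃ w : ℕ, w = 2 ^ 2 ^ J := ⟨_, rfl⟩
    have hwc : ((2 : ℝ) ^ 2 ^ J) = (w : ℝ) := by rw [hw]; push_cast; rfl
    rw [← hw] at hJ
    rw [hwc]
    have hw1 : 1 ≤ w := by rw [hw]; exact Nat.one_le_two_pow
    have hw1r : (1 : ℝ) ≤ w := by exact_mod_cast hw1
    have hJw : (J : ℝ) + 2 ≤ 2 * w := by
      have h5 : J < 2 ^ J := Nat.lt_two_pow_self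
      have h6 : 2 ^ J < w := by rw [hw]; exact Nat.lt_two_pow_self
      have h7 : J + 2 ≤ 2 * w := by omega
      exact_mod_cast h7
    have h5 : (C1 * (J + 2) * (w : ℝ) ^ (C1 * b0)) ≤ 2 * C1 * (w : ℝ) ^ (C1 * b0 + 1) := by
      rw [pow_succ]
      have h6 : (0 : ℝ) ≤ (w : ℝ) ^ (C1 * b0) := by positivity
      calc (C1 * (J + 2) * (w : ℝ) ^ (C1 * b0)) ≤ C1 * (2 * w) * (w : ℝ) ^ (C1 * b0) := by gcongr
        _ = _ := by ring
    have h6 : (w : ℝ) ^ (C1 * b0 + 1) ≤ Real.exp (E * l * (C1 * b0 + 1)) := by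
      calc (w : ℝ) ^ (C1 * b0 + 1) ≤ (L ^ E) ^ (C1 * b0 + 1) := pow_le_pow_left₀ (by positivity) hJ _
        _ = L ^ (E * (C1 * b0 + 1)) := by rw [← pow_mul]
        _ = Real.exp (E * l * (C1 * b0 + 1)) := by
            have g1 : L ^ (E * (C1 * b0 + 1)) = Real.exp (((E * (C1 * b0 + 1) : ℕ) : ℝ) * Real.log L) := by
              rw [Real.exp_nat_mul, Real.exp_log hL0]
            rw [g1, ← hl]
            congr 1
            push_cast
            ring
    have h7 : L ^ P = Real.exp (P * l) := by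
      rw [hl, Real.exp_nat_mul, Real.exp_log hL0]
    have h8 : (2 * C1 : ℝ) ≤ Real.exp (2 * C1) := by
      have := Real.add_one_le_exp (2 * (C1 : ℝ))
      linarith
    have hx2 : (x : ℝ) ^ ε = Real.exp (ε * L) := by
      rw [Real.rpow_def_of_pos hx0, ← hL, mul_comm]
    rw [hx2]
    calc (C1 * (J + 2) * (w : ℝ) ^ (C1 * b0)) * L ^ P ≤ (2 * C1 * (w : ℝ) ^ (C1 * b0 + 1)) * L ^ P :=
          mul_le_mul_of_nonneg_right h5 (by positivity)
      _ ≤ (Real.exp (2 * C1) * Real.exp (E * l * (C1 * b0 + 1))) * Real.exp (P * l) := by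
          rw [h7]
          gcongr
      _ = Real.exp (2 * C1 + E * l * (C1 * b0 + 1) + P * l) := by
          rw [Real.exp_add, Real.exp_add]
      _ ≤ Real.exp (ε * L) := by
          apply Real.exp_le_exp.2
          refine le_trans ?_ hk
          rw [hK]
          have hll : l ≤ l ^ 2 := by nlinarith
          have h1l : 1 ≤ l ^ 2 := by nlinarith
          have g1 : (C1 : ℝ) * b0 + 1 ≤ (C1 * (C1 + 2 + 2 * P) + 1) * l := by
            have g2 : (C1 : ℝ) * b0 ≤ C1 * (C1 + 2 + 2 * P * l) := mul_le_mul_of_nonneg_left hb (by positivity)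
            have g3 : (C1 : ℝ) * (C1 + 2) ≤ C1 * (C1 + 2) * l := le_mul_of_one_le_right (by positivity) hl1
            nlinarith
          have g2 : (E : ℝ) * l * (C1 * b0 + 1) ≤ E * l * ((C1 * (C1 + 2 + 2 * P) + 1) * l) :=
            mul_le_mul_of_nonneg_left g1 (by positivity)
          have g3 : (2 * C1 : ℝ) ≤ 2 * C1 * l ^ 2 := le_mul_of_one_le_right (by positivity) h1l
          have g4 : (P : ℝ) * l ≤ P * l ^ 2 := mul_le_mul_of_nonneg_left hll (by positivity)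
          nlinarith
  · have h5 : L ^ P ≤ 2 ^ b0 := by
      have h6 : ⌈L ^ P⌉₊ ≤ 2 ^ Nat.clog 2 ⌈L ^ P⌉₊ := Nat.le_pow_clog (by norm_num) _
      have h7 : (⌈L ^ P⌉₊ : ℝ) ≤ 2 ^ Nat.clog 2 ⌈L ^ P⌉₊ := by exact_mod_cast h6
      calc L ^ P ≤ ⌈L ^ P⌉₊ := Nat.le_ceil _
        _ ≤ 2 ^ Nat.clog 2 ⌈L ^ P⌉₊ := h7
        _ ≤ 2 ^ b0 := by
            rw [hb0]
            exact pow_le_pow_right₀ (by norm_num) (by omega)
    rw [one_div, inv_pow, inv_mul_le_iff₀ (by positivity)]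
    linarith

end Mtm

open Mtm in
theorem main_term (a : ℤ) (ha : 0 < a) (b : ℤ) (ε : ℝ) (hε : 0 < ε) (R A A0 E : ℕ) : ∃ x0 : ℕ, ∀ x : ℕ, x0 ≤ x →
    ∀ x1 c m Jw t : ℕ, x1 < x → x ≤ R * x1 → 1 ≤ c → c ≤ x → 1 ≤ m → (m : ℝ) ≤ (x : ℝ) ^ (1 - ε) →
    Rough (2 ^ 2 ^ Jw) m → ((2 ^ 2 ^ Jw : ℕ) : ℝ) ≤ Real.log x ^ E →
    Real.log x ^ (A + A0 + 5) ≤ (2 : ℝ) ^ t → (2 : ℝ) ^ t ≤ Real.log x ^ E →
    ∀ β : ℕ → ℝ, (∀ k, |β k| ≤ Real.log x ^ A0) →
    |∑ n ∈ (Ioc x1 x).filter (fun n : ℕ => (m : ℤ) ∣ fv a b c n), sharp t (2 ^ 2 ^ Jw) β ((fv a b c n).toNat / m) -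
      Vc a b c (2 ^ 2 ^ Jw) / V1 (2 ^ 2 ^ Jw) * rho a b c m *
        ∑ k ∈ (Icc 1 (Fn a b x)).filter (fun k => Fn a b x1 < m * k ∧ m * k ≤ Fn a b x), β k * hw a (m * k)| ≤
      rho a b c m * (x / (m * Real.log x ^ A)) := by
  classical
  obtain ⟨C1, hC1, hfl⟩ := fl_poly a ha b
  obtain ⟨P, hP⟩ : ∃ P, P = A + A0 + E + 10 := ⟨_, rfl⟩
  obtain ⟨n1, hn1⟩ := err_small C1 E P hε
  obtain ⟨n2, hn2⟩ := V1_inv E
  obtain ⟨B, hB⟩ : ∃ B : ℕ, B = b.natAbs := ⟨_, rfl⟩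
  have hlim : Filter.Tendsto (fun N : ℕ => Real.log (N : ℝ)) Filter.atTop Filter.atTop :=
    Real.tendsto_log_atTop.comp (tendsto_natCast_atTop_atTop (R := ℝ))
  obtain ⟨n3, hn3⟩ := eventually_atTop.1 ((ev_pow E (4 * (R : ℝ) ^ 2 + 4) (s := 1) one_pos).and
    ((ev_pow P (2 * (1 + B + R) + 6 * R) (s := 1) one_pos).and (hlim.eventually_ge_atTop 1000)))
  refine ⟨n1 + n2 + n3 + (R + 1) * (4 * B + 4 * R + 4) + a.natAbs + B + 1,
    fun x hx x1 c m Jw t hx1 hxR hc1 hcx hm hmx hmr hwE ht1 ht2 β hβ => ?_⟩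
  have hN1 := hn1 x (by have := Nat.zero_le ((R + 1) * (4 * B + 4 * R + 4)); omega)
  have hN2 := hn2 x (by have := Nat.zero_le ((R + 1) * (4 * B + 4 * R + 4)); omega)
  obtain ⟨c3, c4, c5⟩ := hn3 x (by have := Nat.zero_le ((R + 1) * (4 * B + 4 * R + 4)); omega)
  have hxbig : (R + 1) * (4 * B + 4 * R + 4) ≤ x := by omega
  have hxa : a.natAbs + B + 1 ≤ x := by
    have := Nat.zero_le ((R + 1) * (4 * B + 4 * R + 4))
    omega
  rw [Real.rpow_one] at c3 c4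
  have hR1 : 1 ≤ R := by
    rcases Nat.eq_zero_or_pos R with h | h
    · rw [h] at hxR; omega
    · exact h
  have hx0 : (0 : ℝ) < x := by exact_mod_cast (by omega : 0 < x)
  have hx1r : (1 : ℝ) ≤ x := by exact_mod_cast (by omega : 1 ≤ x)
  obtain ⟨L, hL⟩ : ∃ L, L = Real.log (x : ℝ) := ⟨_, rfl⟩
  obtain ⟨b0, hb0⟩ : ∃ b0, b0 = C1 + Nat.clog 2 ⌈Real.log x ^ P⌉₊ := ⟨_, rfl⟩
  obtain ⟨herr, hth⟩ := hN1 Jw b0 hwE hb0
  have hVi := hN2 _ hwE
  rw [← hL] at hwE ht1 ht2 hβ c3 c4 c5 herr hth hVi ⊢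
  have hL0 : 0 < L := by linarith
  have hL1 : 1 ≤ L := by linarith
  -- sizes
  have hx1big : 4 * B + 4 * R + 4 ≤ x1 := by
    have h5 : (R + 1) * (4 * B + 4 * R + 4) ≤ R * x1 := hxbig.trans hxR
    have h6 : R * (4 * B + 4 * R + 4) ≤ R * x1 := le_trans (Nat.mul_le_mul_right _ (by omega)) h5
    exact Nat.le_of_mul_le_mul_left h6 hR1
  have hbx1 : b.natAbs ≤ x1 := by rw [← hB]; omega
  have hmxx : (m : ℝ) ≤ x := by
    refine hmx.trans ?_
    calc (x : ℝ) ^ (1 - ε) ≤ (x : ℝ) ^ (1 : ℝ) := Real.rpow_le_rpow_of_exponent_le hx1r (by linarith)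
      _ = x := Real.rpow_one _
  have hmxn : m ≤ x := by exact_mod_cast hmxx
  have hm0 : (0 : ℝ) < m := by exact_mod_cast hm
  have hF1z := Fn_cast ha hbx1
  have hF1 : x1 ^ 2 ≤ 2 * Fn a b x1 := by
    have h5 : (x1 : ℤ) ^ 2 ≤ 2 * (Fn a b x1 : ℤ) := by
      rw [hF1z]
      have h6 : -(B : ℤ) ≤ b := by omega
      have h7 : (4 * B : ℤ) ≤ x1 := by exact_mod_cast (by omega : 4 * B ≤ x1)
      have h8 : (x1 : ℤ) ^ 2 * 1 ≤ x1 ^ 2 * a := mul_le_mul_of_nonneg_left (by omega) (by positivity)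
      have h9 : -(B : ℤ) * x1 ≤ b * x1 := mul_le_mul_of_nonneg_right h6 (by positivity)
      have h10 : (4 * B : ℤ) * x1 ≤ x1 * x1 := mul_le_mul_of_nonneg_right h7 (by positivity)
      nlinarith
    exact_mod_cast h5
  -- the lower end of the range of `k`
  have hkA : 2 ^ t + 1 ≤ Fn a b x1 / m := by
    rw [Nat.le_div_iff_mul_le hm]
    have h5 : ((2 ^ t + 1 : ℕ) : ℝ) ≤ 2 * L ^ E := by
      push_cast
      have : 1 ≤ L ^ E := one_le_pow₀ hL1
      linarith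
    have h6 : (R : ℝ) ^ 2 * (4 * L ^ E) ≤ x := by
      have h7 : 0 ≤ L ^ E := by positivity
      calc (R : ℝ) ^ 2 * (4 * L ^ E) ≤ (4 * (R : ℝ) ^ 2 + 4) * L ^ E := by nlinarith
        _ ≤ (x : ℝ) := c3
    have h7 : (R : ℝ) ^ 2 * (2 * (((2 ^ t + 1 : ℕ) : ℝ) * m)) ≤ (R : ℝ) ^ 2 * x1 ^ 2 := by
      calc (R : ℝ) ^ 2 * (2 * (((2 ^ t + 1 : ℕ) : ℝ) * m)) ≤ (R : ℝ) ^ 2 * (2 * ((2 * L ^ E) * x)) := by gcongr
        _ = ((R : ℝ) ^ 2 * (4 * L ^ E)) * x := by ring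
        _ ≤ x * x := mul_le_mul_of_nonneg_right h6 hx0.le
        _ ≤ (R * x1) * (R * x1) := by
            have : (x : ℝ) ≤ R * x1 := by exact_mod_cast hxR
            gcongr
        _ = (R : ℝ) ^ 2 * x1 ^ 2 := by ring
    have hRp : (0 : ℝ) < (R : ℝ) ^ 2 := by
      have : (0 : ℝ) < R := by exact_mod_cast hR1
      positivity
    have h8 := le_of_mul_le_mul_left h7 hRp
    have h9 : 2 * ((2 ^ t + 1) * m) ≤ x1 ^ 2 := by exact_mod_cast h8
    omega
  obtain ⟨kA, hA⟩ : ∃ kA, kA = Fn a b x1 / m := ⟨_, rfl⟩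
  have hmkA : x1 ^ 2 ≤ 4 * (m * kA) := by
    have h5 : Fn a b x1 < m * (kA + 1) := by rw [hA]; exact Nat.lt_mul_div_succ _ hm
    have h6 : m * (kA + 1) = m * kA + m := by ring
    have h7 : 4 * m ≤ x1 ^ 2 := by
      calc 4 * m ≤ 4 * (R * x1) := by omega
        _ = (4 * R) * x1 := by ring
        _ ≤ x1 * x1 := Nat.mul_le_mul_right _ (by omega)
        _ = x1 ^ 2 := by ring
    omega
  have hhw : (m : ℝ) * hw a (m * kA) ≤ R := by
    have hx10 : (0 : ℝ) < x1 := by exact_mod_cast (by omega : 0 < x1)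
    have h5 : (x1 : ℝ) / 2 ≤ √((a : ℝ) * ((m * kA : ℕ) : ℝ)) := by
      apply Real.le_sqrt_of_sq_le
      have h6 : ((x1 : ℝ)) ^ 2 ≤ 4 * ((m * kA : ℕ) : ℝ) := by exact_mod_cast hmkA
      have h7 : (1 : ℝ) ≤ a := by exact_mod_cast ha
      have h8 : ((m * kA : ℕ) : ℝ) ≤ a * ((m * kA : ℕ) : ℝ) := le_mul_of_one_le_left (by positivity) h7
      nlinarith
    have h6 : hw a (m * kA) ≤ 1 / x1 := by
      unfold hw
      apply one_div_le_one_div_of_le hx10
      linarith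
    calc (m : ℝ) * hw a (m * kA) ≤ (R * x1) * (1 / x1) := by
          apply mul_le_mul _ h6 (hw_nonneg _ _) (by positivity)
          have : (x : ℝ) ≤ R * x1 := by exact_mod_cast hxR
          linarith
      _ = R := by field_simp
  -- the number of cells
  obtain ⟨X, hX⟩ : ∃ X, X = Fn a b x + c := ⟨_, rfl⟩
  have hXx : X ≤ x ^ 3 := by
    have h5 : (X : ℤ) ≤ (x : ℤ) ^ 3 := by
      rw [hX]
      push_cast
      rw [Fn_cast ha (hbx1.trans hx1.le)]
      have h6 : b ≤ (B : ℤ) := by omega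
      have h7 : (a : ℤ) + B + 1 ≤ x := by omega
      have h8 : (c : ℤ) ≤ x := by exact_mod_cast hcx
      have h9 : (1 : ℤ) ≤ x := by omega
      have h10 : b * (x : ℤ) ≤ B * x := mul_le_mul_of_nonneg_right h6 (by positivity)
      have h11 : (B : ℤ) * x ≤ B * x ^ 2 := by
        have : (x : ℤ) ≤ x ^ 2 := by nlinarith
        exact mul_le_mul_of_nonneg_left this (by positivity)
      have h12 : (x : ℤ) ≤ x ^ 2 := by nlinarith
      have h13 : ((a : ℤ) + B + 1) * x ^ 2 ≤ x * x ^ 2 := mul_le_mul_of_nonneg_right h7 (by positivity)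
      nlinarith
    exact_mod_cast h5
  obtain ⟨Q, hQ⟩ : ∃ Q : ℝ, Q = 2 ^ t := ⟨_, rfl⟩
  have hQ0 : 0 < Q := by rw [hQ]; positivity
  have hT : (#((Icc (2 ^ t + 1) X).image (cl t)) : ℝ) ≤ 10 * L * Q := by
    have h5 : ((#((Icc (2 ^ t + 1) X).image (cl t)) : ℕ) : ℝ) ≤ (((Nat.log 2 X + 1) * 2 ^ (t + 1) : ℕ) : ℝ) := by
      exact_mod_cast card_cells t X
    refine h5.trans ?_
    push_cast
    have h6 : (Nat.log 2 X : ℝ) ≤ 4.5 * L := by
      rcases Nat.eq_zero_or_pos X with h0 | h0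
      · rw [h0]
        simp
        linarith
      · have h7 : 2 ^ Nat.log 2 X ≤ x ^ 3 := (Nat.pow_log_le_self 2 h0.ne').trans hXx
        have h8 : (2 : ℝ) ^ Nat.log 2 X ≤ (x : ℝ) ^ 3 := by exact_mod_cast h7
        have h9 := Real.log_le_log (by positivity) h8
        rw [Real.log_pow, Real.log_pow, ← hL] at h9
        have h10 := Real.log_two_gt_d9
        push_cast at h9
        have h11 : (0 : ℝ) ≤ Nat.log 2 X := by positivity
        nlinarith
    rw [pow_succ, hQ]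
    have h7 : (Nat.log 2 X : ℝ) + 1 ≤ 5 * L := by linarith
    calc ((Nat.log 2 X : ℝ) + 1) * (2 ^ t * 2) ≤ 5 * L * (2 ^ t * 2) := by gcongr
      _ = _ := by ring
  -- the general inequality
  obtain ⟨Err, hErr⟩ : ∃ Err : ℝ, Err = C1 * (Jw + 2) * (2 ^ 2 ^ Jw) ^ (C1 * b0) := ⟨_, rfl⟩
  have hErr0 : 0 ≤ Err := by rw [hErr]; positivity
  have hmain := struct ha hx1 hbx1 hxR hcx hm hmr hkA hX.ge (B0 := L ^ A0) (θ := (1 / 2) ^ b0) (Err := Err)
    (by positivity) hβ (by positivity) hErr0 (by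
      intro n1 n2 h12 S hS
      have h5 := hfl b0 (by omega) Jw m n1 n2 c hm hmr h12
      rw [← hErr] at h5
      have h6 : S = (Ioc n1 n2).filter (fun n : ℕ => (m : ℤ) ∣ fv a b c n ∧ Rough (2 ^ 2 ^ Jw) (fv a b c n).natAbs) := by
        ext n
        rw [hS, mem_filter]
      rw [h6]
      exact h5) hT (V1_pos' _) hVi
  refine hmain.trans ?_
  apply mul_le_mul_of_nonneg_left _ (Nat.cast_nonneg _)
  rw [← hA, ← hB, ← hQ]
  rw [← hErr] at herr
  obtain ⟨θ, hθ⟩ : ∃ θ : ℝ, θ = (1 / 2) ^ b0 := ⟨_, rfl⟩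
  rw [← hθ] at hth ⊢
  have hθ0 : 0 ≤ θ := by rw [hθ]; positivity
  rw [← hQ] at ht1 ht2
  -- the five terms
  obtain ⟨Y, hY⟩ : ∃ Y : ℝ, Y = x / (m * L ^ A) := ⟨_, rfl⟩
  have hY0 : 0 < Y := by rw [hY]; positivity
  have hxm : (x : ℝ) / m = Y * L ^ A := by rw [hY]; field_simp
  have hP1 : L * L ^ A0 * (10 * L * Q) ≤ 10 * L ^ (2 + A0 + E) := by
    have e : L ^ (2 + A0 + E) = L * L ^ A0 * (L * L ^ E) := by ring
    rw [e]
    have : L * L ^ A0 * (10 * L * Q) = 10 * (L * L ^ A0 * (L * Q)) := by ring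
    rw [this]
    gcongr
  have hLP : L ^ P = L ^ (2 + A0 + E) * (L ^ A * L ^ 8) := by
    rw [hP]
    ring
  have h8 : (1000 : ℝ) ≤ L ^ 8 := c5.trans (le_self_pow₀ hL1 (by norm_num))
  have hLA : 0 < L ^ A := by positivity
  have hLE : 0 < L ^ (2 + A0 + E) := by positivity
  have hLPp : 0 < L ^ P := by positivity
  have hbnd : ∀ s : ℝ, 0 ≤ s → s * L ^ P ≤ x / m → L * L ^ A0 * (10 * L * Q) * s ≤ Y / 10 := by
    intro s hs h
    rw [hxm, hLP] at h
    have e1 : L ^ A * (L ^ (2 + A0 + E) * s * L ^ 8) ≤ L ^ A * Y := by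
      calc L ^ A * (L ^ (2 + A0 + E) * s * L ^ 8) = s * (L ^ (2 + A0 + E) * (L ^ A * L ^ 8)) := by ring
        _ ≤ Y * L ^ A := h
        _ = L ^ A * Y := by ring
    have e2 := le_of_mul_le_mul_left e1 hLA
    have e3 : L ^ (2 + A0 + E) * s * 1000 ≤ Y := le_trans (mul_le_mul_of_nonneg_left h8 (by positivity)) e2
    calc L * L ^ A0 * (10 * L * Q) * s ≤ 10 * L ^ (2 + A0 + E) * s := mul_le_mul_of_nonneg_right hP1 hs
      _ ≤ Y / 10 := by linarith
  have T1 : L * L ^ A0 * (10 * L * Q) * (θ * (x / m)) ≤ Y / 10 := by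
    apply hbnd _ (by positivity)
    calc θ * (x / m) * L ^ P = (θ * L ^ P) * (x / m) := by ring
      _ ≤ 1 * (x / m) := mul_le_mul_of_nonneg_right hth (by positivity)
      _ = x / m := one_mul _
  have T2 : L * L ^ A0 * (10 * L * Q) * Err ≤ Y / 10 := by
    apply hbnd _ hErr0
    refine herr.trans ?_
    rw [le_div_iff₀ hm0]
    calc (x : ℝ) ^ ε * m ≤ (x : ℝ) ^ ε * (x : ℝ) ^ (1 - ε) := by gcongr
      _ = x := by
          rw [← Real.rpow_add hx0]
          norm_num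
  have T3 : L * L ^ A0 * (10 * L * Q) * ((2 * (1 + B + R) + 6 * (m * hw a (m * kA))) / m) ≤ Y / 10 := by
    have g0 : 0 ≤ hw a (m * kA) := hw_nonneg _ _
    apply hbnd _ (by positivity)
    rw [div_mul_eq_mul_div]
    apply div_le_div_of_nonneg_right _ hm0.le
    refine le_trans ?_ c4
    apply mul_le_mul_of_nonneg_right _ hLPp.le
    linarith
  have hQA : L * L ^ A0 / Q * L ^ 4 * L ^ A ≤ 1 := by
    rw [div_mul_eq_mul_div, div_mul_eq_mul_div, div_le_one hQ0]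
    refine le_trans (le_of_eq ?_) ht1
    ring
  have h3 : (1000 : ℝ) ≤ L ^ 3 := c5.trans (le_self_pow₀ hL1 (by norm_num))
  have T4 : L * L ^ A0 * (10 * L * Q * (2 * (x / (m * Q)) / Q)) ≤ Y / 10 := by
    have e1 : L * L ^ A0 * (10 * L * Q * (2 * (x / (m * Q)) / Q)) = 20 * (L * L ^ A0 / Q * L * (x / m)) := by
      field_simp
      ring
    rw [e1, hxm]
    have e2 : (L * L ^ A0 / Q * L * (Y * L ^ A)) * L ^ 3 ≤ Y := by
      calc (L * L ^ A0 / Q * L * (Y * L ^ A)) * L ^ 3 = (L * L ^ A0 / Q * L ^ 4 * L ^ A) * Y := by ring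
        _ ≤ 1 * Y := mul_le_mul_of_nonneg_right hQA hY0.le
        _ = Y := one_mul _
    have e3 : 0 ≤ L * L ^ A0 / Q * L * (Y * L ^ A) := by positivity
    have e4 : (L * L ^ A0 / Q * L * (Y * L ^ A)) * 1000 ≤ Y := le_trans (mul_le_mul_of_nonneg_left h3 e3) e2
    linarith
  have T5 : L * L ^ A0 * (4 * (x / (m * Q))) ≤ Y / 10 := by
    have e1 : L * L ^ A0 * (4 * (x / (m * Q))) = 4 * (L * L ^ A0 / Q * (x / m)) := by
      field_simp
    rw [e1, hxm]
    have h4 : (1000 : ℝ) ≤ L ^ 4 := c5.trans (le_self_pow₀ hL1 (by norm_num))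
    have e2 : (L * L ^ A0 / Q * (Y * L ^ A)) * L ^ 4 ≤ Y := by
      calc (L * L ^ A0 / Q * (Y * L ^ A)) * L ^ 4 = (L * L ^ A0 / Q * L ^ 4 * L ^ A) * Y := by ring
        _ ≤ 1 * Y := mul_le_mul_of_nonneg_right hQA hY0.le
        _ = Y := one_mul _
    have e3 : 0 ≤ L * L ^ A0 / Q * (Y * L ^ A) := by positivity
    have e4 : (L * L ^ A0 / Q * (Y * L ^ A)) * 1000 ≤ Y := le_trans (mul_le_mul_of_nonneg_left h4 e3) e2
    linarith
  rw [← hY]
  have hexp : L * L ^ A0 * (10 * L * Q * (θ * (x / m) + Err) +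
      10 * L * Q * ((2 * (1 + B + R) + 6 * (m * hw a (m * kA))) / m) +
      (10 * L * Q * (2 * (x / (m * Q)) / Q) + 4 * (x / (m * Q)))) =
      L * L ^ A0 * (10 * L * Q) * (θ * (x / m)) + L * L ^ A0 * (10 * L * Q) * Err +
      L * L ^ A0 * (10 * L * Q) * ((2 * (1 + B + R) + 6 * (m * hw a (m * kA))) / m) +
      L * L ^ A0 * (10 * L * Q * (2 * (x / (m * Q)) / Q)) + L * L ^ A0 * (4 * (x / (m * Q))) := by ring
  rw [hexp]
  linarith

end Pool.Agent.N792
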