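import Mathlib
import Pool.Agent.N792.SwRa

/-!
Elementary part of the Siegel-Walfisz theorem for rough numbers, continued (helper124, for helper792).
-/

set_option autoImplicit false

namespace Pool.Agent.N792.SwR

open Finset Pool.Agent.N792

/-- the indicator function of a residue class minus its mean value -/
noncomputable def w (q c n : ℕ) : ℝ := (if n ≡ c [MOD q] then 1 else 0) - 1 / (Nat.totient q : ℝ)

lemma abs_w_le (q c n : ℕ) (hq : 1 ≤ q) : |w q c n| ≤ 1 := by
  unfold w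
  have h1 : (1 : ℝ) ≤ (Nat.totient q : ℝ) := by
    exact_mod_cast Nat.totient_pos.2 hq
  have h2 : 1 / (Nat.totient q : ℝ) ≤ 1 := by
    rw [div_le_one (by linarith)]; exact h1
  have h3 : 0 < 1 / (Nat.totient q : ℝ) := by positivity
  rw [abs_le]
  split_ifs <;> constructor <;> linarith

lemma sum_w (q c : ℕ) (S : Finset ℕ) (g : ℕ → ℝ) :
    ∑ k ∈ S.filter (fun k => k ≡ c [MOD q]), g k - (∑ k ∈ S, g k) / (Nat.totient q : ℝ) =
      ∑ k ∈ S, g k * w q c k := by
  rw [sum_filter, sum_div, ← sum_sub_distrib]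
  apply sum_congr rfl
  intro k _
  unfold w
  split_ifs <;> ring

/-- the inverse class -/
lemma exists_class (q m r : ℕ) (hq : 1 ≤ q) (hm : m.Coprime q) (hr : r.Coprime q) :
    ∃ c : ℕ, c < q ∧ c.Coprime q ∧ ∀ P : ℕ, w q r (m * P) = w q c P := by
  refine ⟨(r * m ^ (Nat.totient q - 1)) % q, Nat.mod_lt _ (by omega), ?_, fun P => ?_⟩
  · have h1 : (r * m ^ (Nat.totient q - 1)).Coprime q :=
      Nat.Coprime.mul_left hr (Nat.Coprime.pow_left _ hm)
    rw [Nat.coprime_iff_gcd_eq_one] at h1 ⊢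
    rw [← Nat.gcd_rec, Nat.gcd_comm]
    exact h1
  · have h0 : 1 ≤ Nat.totient q := Nat.totient_pos.2 hq
    have h2 : m * (r * m ^ (Nat.totient q - 1)) ≡ r [MOD q] := by
      have e : m * (r * m ^ (Nat.totient q - 1)) = r * m ^ (Nat.totient q) := by
        conv_rhs => rw [show Nat.totient q = (Nat.totient q - 1) + 1 by omega, pow_succ]
        ring
      rw [e]
      calc r * m ^ (Nat.totient q) ≡ r * 1 [MOD q] := Nat.ModEq.mul_left r (Nat.ModEq.pow_totient hm)
        _ = r := mul_one r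
    have h3 : (m * P ≡ r [MOD q]) ↔ (P ≡ (r * m ^ (Nat.totient q - 1)) % q [MOD q]) := by
      constructor
      · intro h
        have h4 : m * P ≡ m * (r * m ^ (Nat.totient q - 1)) [MOD q] := h.trans h2.symm
        have h5 := Nat.ModEq.cancel_left_of_coprime (by rw [Nat.gcd_comm]; exact hm) h4
        exact h5.trans (Nat.mod_modEq _ _).symm
      · intro h
        have h4 := h.trans (Nat.mod_modEq _ _)
        exact (Nat.ModEq.mul_left m h4).trans h2
    unfold w
    simp only [h3]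

open Classical in
lemma sum_rg (z u : ℕ) (g : ℕ → ℝ) :
    ∑ k ∈ Icc 1 u, rg z k * g k = ∑ k ∈ (Icc 1 u).filter (Rough z), g k := by
  rw [sum_filter]
  apply sum_congr rfl
  intro k _
  unfold rg
  split_ifs <;> simp

lemma sum_inv_le (u : ℕ) : ∑ m ∈ Icc 1 u, (1 : ℝ) / m ≤ 1 + Real.log u := by
  have h1 := harmonic_le_one_add_log u
  refine le_trans (le_of_eq ?_) h1
  rw [harmonic_eq_sum_Icc]
  push_cast
  apply sum_congr rfl
  intro m _
  rw [one_div]

/-- the inner sum over the largest prime factor -/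
lemma inner (z u q r M m : ℕ) (E : ℝ) (hq : 1 ≤ q) (hqz : q ≤ z) (hr : r.Coprime q)
    (hE : ∀ s b c : ℕ, z ≤ s → c < q → c.Coprime q →
      |∑ P ∈ (Ioc s b).filter Nat.Prime, w q c P| ≤ E * b) (g : ℕ → ℝ)
    (hm : m ∈ Icc 1 u) (hmr : Rough z m) (hS : Step g m M) :
    |∑ P ∈ (Ioc (max z (lp m)) (u / m)).filter Nat.Prime, g (m * P) * w q r (m * P)| ≤
      M * (E * ((u / m : ℕ) : ℝ)) := by
  obtain ⟨I, c, t, hI, hc, hg⟩ := hS
  obtain ⟨c0, hc0, hc0q, hw⟩ := exists_class q m r hq (rough_coprime hmr hq hqz) hr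
  rw [mem_Icc] at hm
  have hm0 : m ≠ 0 := by omega
  have h1 : ∑ P ∈ (Ioc (max z (lp m)) (u / m)).filter Nat.Prime, g (m * P) * w q r (m * P) =
      ∑ i ∈ I, c i * ∑ P ∈ (Ioc (max (max z (lp m)) (t i)) (u / m)).filter Nat.Prime, w q c0 P := by
    have h2 : ∀ P ∈ (Ioc (max z (lp m)) (u / m)).filter Nat.Prime, g (m * P) * w q r (m * P) =
        ∑ i ∈ I, c i * (if t i < P then w q c0 P else 0) := by
      intro P hP
      rw [mem_filter, mem_Ioc] at hP
      have hPm : ¬ P ∣ m := fun hd => by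
        have h3 := le_lp hm0 hP.2 hd
        have h4 := lt_of_le_of_lt (le_max_right z (lp m)) hP.1.1
        omega
      rw [hg P hP.2 hPm, hw P, sum_mul]
      apply sum_congr rfl
      intro i _
      split_ifs <;> ring
    rw [sum_congr rfl h2, sum_comm]
    apply sum_congr rfl
    intro i _
    rw [← mul_sum]
    congr 1
    rw [← sum_filter, filter_filter]
    apply sum_congr _ (fun _ _ => rfl)
    ext P
    simp only [mem_filter, mem_Ioc, max_lt_iff]
    tauto
  rw [h1]
  have hE0 : 0 ≤ E * ((u / m : ℕ) : ℝ) := (abs_nonneg _).trans (hE z (u / m) c0 le_rfl hc0 hc0q)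
  calc |∑ i ∈ I, c i * ∑ P ∈ (Ioc (max (max z (lp m)) (t i)) (u / m)).filter Nat.Prime, w q c0 P|
      ≤ ∑ i ∈ I, |c i * ∑ P ∈ (Ioc (max (max z (lp m)) (t i)) (u / m)).filter Nat.Prime, w q c0 P| :=
        abs_sum_le_sum_abs _ _
    _ ≤ ∑ _i ∈ I, 1 * (E * ((u / m : ℕ) : ℝ)) := by
        apply sum_le_sum
        intro i _
        rw [abs_mul]
        exact mul_le_mul (hc i) (hE _ _ _ ((le_max_left _ _).trans (le_max_left _ _)) hc0 hc0q)
          (abs_nonneg _) zero_le_one
    _ = #I * (E * ((u / m : ℕ) : ℝ)) := by rw [sum_const, nsmul_eq_mul, one_mul]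
    _ ≤ M * (E * ((u / m : ℕ) : ℝ)) := mul_le_mul_of_nonneg_right (Nat.cast_le.2 hI) hE0

open Classical in
/-- the sum over the rough numbers -/
lemma core (z u q r M : ℕ) (E : ℝ) (hE0 : 0 ≤ E) (hz : 1 ≤ z) (hq : 1 ≤ q) (hqz : q ≤ z) (hr : r.Coprime q)
    (hE : ∀ s b c : ℕ, z ≤ s → c < q → c.Coprime q →
      |∑ P ∈ (Ioc s b).filter Nat.Prime, w q c P| ≤ E * b) (g : ℕ → ℝ)
    (hg : ∀ k, k ≤ u → Rough z k → |g k| ≤ M) (hS : ∀ m, m ≤ u → Rough z m → Step g m M) :
    |∑ k ∈ (Icc 1 u).filter (Rough z), g k * w q r k| ≤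
      M * (1 + u / z) + M * E * (u * (1 + Real.log u)) := by
  rw [← sum_filter_not_add_sum_filter _ (fun k => k ≠ 1 ∧ ¬ (lp k) ^ 2 ∣ k)]
  refine (abs_add_le _ _).trans (add_le_add ?_ ?_)
  · refine (abs_sum_le_sum_abs _ _).trans ?_
    refine (sum_le_card_nsmul _ _ (M : ℝ) fun k hk => ?_).trans ?_
    · rw [mem_filter, mem_filter, mem_Icc] at hk
      rw [abs_mul]
      calc |g k| * |w q r k| ≤ M * 1 := mul_le_mul (hg k hk.1.1.2 hk.1.2) (abs_w_le q r k hq)
            (abs_nonneg _) (Nat.cast_nonneg _)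
        _ = M := mul_one _
    · rw [nsmul_eq_mul, mul_comm]
      apply mul_le_mul_of_nonneg_left _ (Nat.cast_nonneg _)
      have h1 : ((Icc 1 u).filter (Rough z)).filter (fun k => ¬ (k ≠ 1 ∧ ¬ (lp k) ^ 2 ∣ k)) ⊆
          insert 1 ((Icc 1 u).filter (fun k => ∃ n, z < n ∧ n ^ 2 ∣ k)) := by
        intro k hk
        rw [mem_filter, mem_filter, mem_Icc] at hk
        obtain ⟨⟨⟨h1, h2⟩, h3⟩, h4⟩ := hk
        rw [mem_insert, mem_filter, mem_Icc]
        by_cases hk1 : k = 1
        · exact Or.inl hk1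
        · right
          refine ⟨⟨h1, h2⟩, lp k, ?_, ?_⟩
          · obtain ⟨hp, hd⟩ := lp_mem (by omega) hk1
            exact h3.2 _ hp hd
          · by_contra hcon
            exact h4 ⟨hk1, hcon⟩
      have h2 := (card_le_card h1).trans (card_insert_le _ _)
      calc ((#(((Icc 1 u).filter (Rough z)).filter (fun k => ¬ (k ≠ 1 ∧ ¬ (lp k) ^ 2 ∣ k))) : ℕ) : ℝ)
          ≤ ((#((Icc 1 u).filter (fun k => ∃ n, z < n ∧ n ^ 2 ∣ k)) + 1 : ℕ) : ℝ) := Nat.cast_le.2 h2
        _ = (#((Icc 1 u).filter (fun k => ∃ n, z < n ∧ n ^ 2 ∣ k)) : ℕ) + 1 := by push_cast; ring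
        _ ≤ u / z + 1 := add_le_add (card_sq z u hz) le_rfl
        _ = 1 + u / z := add_comm _ _
  · rw [sum_good z u (fun k => g k * w q r k)]
    calc |∑ m ∈ (Icc 1 u).filter (Rough z), ∑ P ∈ (Ioc (max z (lp m)) (u / m)).filter Nat.Prime,
          g (m * P) * w q r (m * P)|
        ≤ ∑ m ∈ (Icc 1 u).filter (Rough z), |∑ P ∈ (Ioc (max z (lp m)) (u / m)).filter Nat.Prime,
          g (m * P) * w q r (m * P)| := abs_sum_le_sum_abs _ _
      _ ≤ ∑ m ∈ (Icc 1 u).filter (Rough z), M * E * u * (1 / (m : ℝ)) := by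
          apply sum_le_sum
          intro m hm
          rw [mem_filter] at hm
          have hm2 := hm.1
          rw [mem_Icc] at hm2
          refine (inner z u q r M m E hq hqz hr hE g hm.1 hm.2 (hS m hm2.2 hm.2)).trans ?_
          have h1 : ((u / m : ℕ) : ℝ) ≤ u / m := Nat.cast_div_le
          calc (M : ℝ) * (E * ((u / m : ℕ) : ℝ)) ≤ M * (E * (u / m)) := by gcongr
            _ = M * E * u * (1 / (m : ℝ)) := by ring
      _ ≤ ∑ m ∈ Icc 1 u, M * E * u * (1 / (m : ℝ)) := by
          apply sum_le_sum_of_subset_of_nonneg (filter_subset _ _)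
          intro m _ _
          positivity
      _ = M * E * u * ∑ m ∈ Icc 1 u, (1 : ℝ) / m := by rw [mul_sum]
      _ ≤ M * E * u * (1 + Real.log u) := by
          apply mul_le_mul_of_nonneg_left (sum_inv_le u)
          positivity
      _ = M * E * (u * (1 + Real.log u)) := by ring

open Classical in
/-- the sum of the von Mangoldt function over the rough numbers -/
lemma coreL (z u q r : ℕ) (E : ℝ) (hq : 1 ≤ q) (hz : 1 ≤ z)
    (hE : |∑ k ∈ Ioc z u, ArithmeticFunction.vonMangoldt k * w q r k| ≤ E * u) :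
    |∑ k ∈ (Icc 1 u).filter (Rough z), ArithmeticFunction.vonMangoldt k * w q r k| ≤
      E * u + 2 * (√(u : ℝ) * Real.log u) := by
  rcases Nat.eq_zero_or_pos u with hu | hu
  · subst hu
    simp
  have h1 : ∑ k ∈ (Icc 1 u).filter (Rough z), ArithmeticFunction.vonMangoldt k * w q r k =
      ∑ k ∈ (Ioc z u).filter (Rough z), ArithmeticFunction.vonMangoldt k * w q r k := by
    symm
    apply sum_subset
    · intro k hk
      rw [mem_filter, mem_Ioc] at hk
      rw [mem_filter, mem_Icc]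
      exact ⟨⟨by omega, hk.1.2⟩, hk.2⟩
    · intro k hk hk2
      rw [mem_filter, mem_Icc] at hk
      rw [mem_filter, mem_Ioc] at hk2
      have hkz : k ≤ z := by
        by_contra hcon
        exact hk2 ⟨⟨by omega, hk.1.2⟩, hk.2⟩
      have hk1 : k = 1 := by
        by_contra hne
        obtain ⟨p, hp, hpd⟩ := Nat.exists_prime_and_dvd hne
        have := hk.2.2 p hp hpd
        have := Nat.le_of_dvd (by omega) hpd
        omega
      rw [hk1]
      simp
  have h2 := sum_filter_add_sum_filter_not (Ioc z u) (Rough z)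
    (fun k => ArithmeticFunction.vonMangoldt k * w q r k)
  have h3 : |∑ k ∈ (Ioc z u).filter (fun k => ¬ Rough z k), ArithmeticFunction.vonMangoldt k * w q r k| ≤
      2 * (√(u : ℝ) * Real.log u) := by
    have hu1 : (1 : ℝ) ≤ u := by exact_mod_cast hu
    have h4 := Chebyshev.psi_sub_theta_le hu1
    rw [Chebyshev.psi_sub_theta_eq_sum_not_prime, Nat.floor_natCast] at h4
    refine le_trans ?_ (h4.trans (le_of_eq (by ring)))
    refine (abs_sum_le_sum_abs _ _).trans ?_
    calc ∑ k ∈ (Ioc z u).filter (fun k => ¬ Rough z k), |ArithmeticFunction.vonMangoldt k * w q r k|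
        ≤ ∑ k ∈ (Ioc z u).filter (fun k => ¬ Rough z k), ArithmeticFunction.vonMangoldt k := by
          apply sum_le_sum
          intro k _
          rw [abs_mul, abs_of_nonneg ArithmeticFunction.vonMangoldt_nonneg]
          exact mul_le_of_le_one_right ArithmeticFunction.vonMangoldt_nonneg (abs_w_le q r k hq)
      _ ≤ ∑ k ∈ (Ioc 0 u).filter (fun k => ¬ k.Prime), ArithmeticFunction.vonMangoldt k := by
          apply sum_le_sum_of_subset_of_nonneg
          · intro k hk
            rw [mem_filter, mem_Ioc] at hk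
            rw [mem_filter, mem_Ioc]
            refine ⟨⟨by omega, hk.1.2⟩, fun hp => hk.2 ⟨hp.ne_zero, fun p hp2 hpk => ?_⟩⟩
            rw [(Nat.prime_dvd_prime_iff_eq hp2 hp).1 hpk]
            exact hk.1.1
          · intro k _ _
            exact ArithmeticFunction.vonMangoldt_nonneg
  rw [h1]
  have h5 : ∑ k ∈ (Ioc z u).filter (Rough z), ArithmeticFunction.vonMangoldt k * w q r k =
      ∑ k ∈ Ioc z u, ArithmeticFunction.vonMangoldt k * w q r k -
      ∑ k ∈ (Ioc z u).filter (fun k => ¬ Rough z k), ArithmeticFunction.vonMangoldt k * w q r k := by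
    rw [← h2]; ring
  rw [h5]
  exact (abs_sub _ _).trans (add_le_add hE h3)

end Pool.Agent.N792.SwR
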