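import Mathlib
import Pool.Agent.N792.SwRb
import Pool.Agent.H343R2.EH.Psi
import Pool.Agent.H343R2.EH.Primes

/-!
Siegel-Walfisz theorem for rough numbers (helper124, for helper792).
-/

set_option autoImplicit false

namespace Pool.Agent.N792
namespace SwR

open Finset Filter Topology Pool.Agent.N792

lemma evN (P : ℝ → Prop) (h : ∀ᶠ x : ℝ in Filter.atTop, P x) : ∃ N₀ : ℕ, ∀ N : ℕ, N₀ ≤ N → P N := by
  obtain ⟨x0, hx0⟩ := Filter.eventually_atTop.1 h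
  exact ⟨⌈x0⌉₊, fun N hN => hx0 N ((Nat.le_ceil _).trans (by exact_mod_cast hN))⟩

lemma ev_pow (k : ℕ) (c : ℝ) (s : ℝ) (hs : 0 < s) : ∀ᶠ x : ℝ in Filter.atTop, c * Real.log x ^ k ≤ x ^ s := by
  have h1 : (fun x : ℝ => Real.log x ^ (k : ℝ)) =o[Filter.atTop] fun x : ℝ => x ^ s :=
    isLittleO_log_rpow_rpow_atTop (k : ℝ) hs
  have h3 := (h1.const_mul_left c).def (c := 1) one_pos
  filter_upwards [h3, Filter.eventually_ge_atTop (1 : ℝ)] with x hx hx1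
  rw [one_mul, Real.norm_of_nonneg (Real.rpow_nonneg (by linarith) _), Real.rpow_natCast] at hx
  exact (le_abs_self _).trans hx

/-- Siegel-Walfisz for the number of primes in a progression -/
lemma sw_pi (U K : ℕ) : ∃ y0 : ℕ, ∀ y : ℕ, y0 ≤ y → ∀ q : ℕ, 1 ≤ q → (q : ℝ) ≤ Real.log y ^ K →
    ∀ c : ℕ, c < q → c.Coprime q →
    |H343E.piAP y q c - H343E.pi1 y / (Nat.totient q : ℝ)| ≤ y / Real.log y ^ U := by
  obtain ⟨B, X0, h0⟩ := H343E.primes_of U (H343E.unsmoothed (U + 2))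
  obtain ⟨x1, h1⟩ := evN _ (ev_pow (2 * K + B) 1 1 one_pos)
  obtain ⟨x2, h2⟩ := evN _ (Real.tendsto_log_atTop.eventually_ge_atTop 1)
  refine ⟨max (max X0 x1) (max x2 1), fun y hy q hq hqy c hc hcop => ?_⟩
  have hy0 : X0 ≤ y := le_trans (le_trans (le_max_left _ _) (le_max_left _ _)) hy
  have hy1 : x1 ≤ y := le_trans (le_trans (le_max_right _ _) (le_max_left _ _)) hy
  have hy2 : x2 ≤ y := le_trans (le_trans (le_max_left _ _) (le_max_right _ _)) hy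
  have hy3 : 1 ≤ y := le_trans (le_trans (le_max_right _ _) (le_max_right _ _)) hy
  have hyR : (1 : ℝ) ≤ y := by exact_mod_cast hy3
  have hL := h2 y hy2
  have hL0 : 0 < Real.log y := by linarith
  have hA := h1 y hy1
  rw [one_mul, pow_add, pow_mul', Real.rpow_one] at hA
  have hq1 : (1 : ℝ) ≤ q := by exact_mod_cast hq
  have hD2 : (q : ℝ) ^ 2 ≤ 1 * y / Real.log y ^ B := by
    rw [le_div_iff₀ (by positivity), one_mul]
    refine le_trans ?_ hA
    gcongr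
  have hD1 : (q : ℝ) ≤ y / Real.log y ^ B := by
    rw [one_mul] at hD2
    refine le_trans ?_ hD2
    nlinarith
  have h4 := h0 y hy0 1 le_rfl q hD1 hD2 (fun q' => if q' = q then {c} else ∅)
    ⟨fun q' a ha => by
      split_ifs at ha with hh
      · rw [mem_singleton] at ha
        rw [ha, hh]
        exact ⟨hc, hcop⟩
      · simp at ha, fun q' => by
      split_ifs <;> simp⟩
  rw [one_mul] at h4
  refine le_trans ?_ h4
  have h5 := single_le_sum (f := fun q' => ∑ a ∈ (if q' = q then ({c} : Finset ℕ) else ∅),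
    |H343E.piAP y q' a - H343E.pi1 y / (Nat.totient q' : ℝ)|)
    (s := Icc 1 q) (fun i _ => sum_nonneg (fun _ _ => abs_nonneg _)) (mem_Icc.2 ⟨hq, le_rfl⟩)
  refine le_trans (le_of_eq ?_) h5
  simp

/-- Siegel-Walfisz for the function `ψ` -/
lemma sw_psi (U K : ℕ) : ∃ y0 : ℕ, ∀ y : ℕ, y0 ≤ y → ∀ q : ℕ, 1 ≤ q → (q : ℝ) ≤ Real.log y ^ K →
    ∀ c : ℕ, c < q → c.Coprime q →
    |H343E.psiAP y q c - H343E.psi1 y / (Nat.totient q : ℝ)| ≤ y / Real.log y ^ U := by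
  obtain ⟨B, X0, h0⟩ := H343E.unsmoothed U
  obtain ⟨x1, h1⟩ := evN _ (ev_pow (2 * K + B) 1 1 one_pos)
  obtain ⟨x2, h2⟩ := evN _ (Real.tendsto_log_atTop.eventually_ge_atTop 1)
  obtain ⟨x3, h3⟩ := evN _ (eventually_ge_atTop X0)
  refine ⟨max (max x3 x1) (max x2 1), fun y hy q hq hqy c hc hcop => ?_⟩
  have hy0 : X0 ≤ y := h3 y (le_trans (le_trans (le_max_left _ _) (le_max_left _ _)) hy)
  have hy1 : x1 ≤ y := le_trans (le_trans (le_max_right _ _) (le_max_left _ _)) hy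
  have hy2 : x2 ≤ y := le_trans (le_trans (le_max_left _ _) (le_max_right _ _)) hy
  have hy3 : 1 ≤ y := le_trans (le_trans (le_max_right _ _) (le_max_right _ _)) hy
  have hyR : (1 : ℝ) ≤ y := by exact_mod_cast hy3
  have hL := h2 y hy2
  have hL0 : 0 < Real.log y := by linarith
  have hA := h1 y hy1
  rw [one_mul, pow_add, pow_mul', Real.rpow_one] at hA
  have hq1 : (1 : ℝ) ≤ q := by exact_mod_cast hq
  have hD2 : (q : ℝ) ^ 2 ≤ 1 * y / Real.log y ^ B := by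
    rw [le_div_iff₀ (by positivity), one_mul]
    refine le_trans ?_ hA
    gcongr
  have hD1 : (q : ℝ) ≤ y / Real.log y ^ B := by
    rw [one_mul] at hD2
    refine le_trans ?_ hD2
    nlinarith
  have h4 := h0 y hy0 1 le_rfl q hD1 hD2 (fun q' => if q' = q then {c} else ∅)
    ⟨fun q' a ha => by
      split_ifs at ha with hh
      · rw [mem_singleton] at ha
        rw [ha, hh]
        exact ⟨hc, hcop⟩
      · simp at ha, fun q' => by
      split_ifs <;> simp⟩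
  rw [one_mul] at h4
  refine le_trans ?_ h4
  have h5 := single_le_sum (f := fun q' => ∑ a ∈ (if q' = q then ({c} : Finset ℕ) else ∅),
    |H343E.psiAP y q' a - H343E.psi1 y / (Nat.totient q' : ℝ)|)
    (s := Icc 1 q) (fun i _ => sum_nonneg (fun _ _ => abs_nonneg _)) (mem_Icc.2 ⟨hq, le_rfl⟩)
  refine le_trans (le_of_eq ?_) h5
  simp

lemma piAP_sum (y q c : ℕ) : H343E.piAP y q c - H343E.pi1 y / (Nat.totient q : ℝ) =
    ∑ P ∈ (Icc 1 y).filter Nat.Prime, w q c P := by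
  have h := sum_w q c ((Icc 1 y).filter Nat.Prime) (fun _ => 1)
  simp only [one_mul] at h
  rw [← h, filter_filter]
  unfold H343E.piAP H343E.pi1
  rw [sum_const, sum_const, nsmul_eq_mul, nsmul_eq_mul, mul_one, mul_one]

lemma psiAP_sum (y q c : ℕ) : H343E.psiAP y q c - H343E.psi1 y / (Nat.totient q : ℝ) =
    ∑ k ∈ Icc 1 y, ArithmeticFunction.vonMangoldt k * w q c k := by
  rw [← sum_w q c (Icc 1 y) (fun k => ArithmeticFunction.vonMangoldt k)]
  unfold H343E.psiAP H343E.psi1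
  rw [Nat.floor_natCast]

/-- the difference of two initial sums -/
lemma sum_Ioc_sub (s b : ℕ) (hsb : s ≤ b) (f : ℕ → ℝ) :
    ∑ k ∈ Ioc s b, f k = ∑ k ∈ Icc 1 b, f k - ∑ k ∈ Icc 1 s, f k := by
  have h1 : Icc 1 b = Icc 1 s ∪ Ioc s b := by
    ext k
    simp only [mem_Icc, mem_union, mem_Ioc]
    omega
  rw [h1, sum_union]
  · ring
  · rw [disjoint_left]
    intro k hk1 hk2
    rw [mem_Icc] at hk1
    rw [mem_Ioc] at hk2
    omega

lemma int_of (U K y0 : ℕ) (hy0 : 3 ≤ y0) (f : ℕ → ℕ → ℕ → ℝ)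
    (hf : ∀ y : ℕ, y0 ≤ y → ∀ q : ℕ, 1 ≤ q → (q : ℝ) ≤ Real.log y ^ K →
      ∀ c : ℕ, c < q → c.Coprime q → |∑ k ∈ Icc 1 y, f q c k| ≤ y / Real.log y ^ U)
    (z s b q c : ℕ) (hz : y0 ≤ z) (hs : z ≤ s) (hq : 1 ≤ q) (hqz : (q : ℝ) ≤ Real.log z ^ K)
    (hc : c < q) (hcq : c.Coprime q) :
    |∑ k ∈ Ioc s b, f q c k| ≤ 2 / Real.log z ^ U * b := by
  have hz0 : (0 : ℝ) < z := by exact_mod_cast (by omega : 0 < z)
  have hlz : 0 < Real.log z := Real.log_pos (by exact_mod_cast (by omega : 1 < z))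
  rcases lt_or_ge b s with hbs | hsb
  · rw [Ioc_eq_empty (by omega), sum_empty, abs_zero]
    positivity
  · rw [sum_Ioc_sub s b hsb]
    have key : ∀ y : ℕ, z ≤ y → |∑ k ∈ Icc 1 y, f q c k| ≤ y / Real.log z ^ U := by
      intro y hy
      have hl : Real.log z ≤ Real.log y := Real.log_le_log hz0 (by exact_mod_cast hy)
      refine (hf y (hz.trans hy) q hq (hqz.trans (pow_le_pow_left₀ hlz.le hl K)) c hc hcq).trans ?_
      apply div_le_div_of_nonneg_left (Nat.cast_nonneg _) (by positivity)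
      exact pow_le_pow_left₀ hlz.le hl U
    have h1 := key s hs
    have h2 := key b (hs.trans hsb)
    have h3 : (s : ℝ) ≤ b := by exact_mod_cast hsb
    have h4 : (s : ℝ) / Real.log z ^ U ≤ b / Real.log z ^ U := by gcongr
    calc |∑ k ∈ Icc 1 b, f q c k - ∑ k ∈ Icc 1 s, f q c k|
        ≤ |∑ k ∈ Icc 1 b, f q c k| + |∑ k ∈ Icc 1 s, f q c k| := abs_sub _ _
      _ ≤ b / Real.log z ^ U + b / Real.log z ^ U := add_le_add h2 (h1.trans h4)
      _ = 2 / Real.log z ^ U * b := by ring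

/-- Siegel-Walfisz for intervals -/
lemma sw_int (U K : ℕ) : ∃ y0 : ℕ, 3 ≤ y0 ∧ ∀ z s b q c : ℕ, y0 ≤ z → z ≤ s → 1 ≤ q →
    (q : ℝ) ≤ Real.log z ^ K → c < q → c.Coprime q →
    |∑ P ∈ (Ioc s b).filter Nat.Prime, w q c P| ≤ 2 / Real.log z ^ U * b ∧
    |∑ k ∈ Ioc s b, ArithmeticFunction.vonMangoldt k * w q c k| ≤ 2 / Real.log z ^ U * b := by
  obtain ⟨y1, h1⟩ := sw_pi U K
  obtain ⟨y2, h2⟩ := sw_psi U K
  refine ⟨max 3 (max y1 y2), le_max_left _ _, fun z s b q c hz hs hq hqz hc hcq => ⟨?_, ?_⟩⟩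
  · rw [sum_filter]
    refine int_of U K (max 3 (max y1 y2)) (le_max_left _ _)
      (fun q c k => if k.Prime then w q c k else 0) ?_ z s b q c hz hs hq hqz hc hcq
    intro y hy q hq hqy c hc hcq
    have := h1 y (((le_max_left _ _).trans (le_max_right _ _)).trans hy) q hq hqy c hc hcq
    rw [piAP_sum, sum_filter] at this
    exact this
  · refine int_of U K (max 3 (max y1 y2)) (le_max_left _ _)
      (fun q c k => ArithmeticFunction.vonMangoldt k * w q c k) ?_ z s b q c hz hs hq hqz hc hcq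
    intro y hy q hq hqy c hc hcq
    have := h2 y (((le_max_right _ _).trans (le_max_right _ _)).trans hy) q hq hqy c hc hcq
    rw [psiAP_sum] at this
    exact this

lemma w_mod (q r k : ℕ) : w q (r % q) k = w q r k := by
  unfold w
  have : (k ≡ r % q [MOD q]) ↔ (k ≡ r [MOD q]) :=
    ⟨fun h => h.trans (Nat.mod_modEq _ _), fun h => h.trans (Nat.mod_modEq _ _).symm⟩
  simp only [this]

end SwR

open Finset Filter Topology

/-- Siegel-Walfisz for `z`-rough numbers with the weights `1`, `gam U` and `Λ` -/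
theorem sw_rough (η : ℝ) (hη : 0 < η) (A B : ℕ) : ∃ x0 : ℕ, ∀ x : ℕ, x0 ≤ x → ∀ z U K u q r : ℕ,
    (x : ℝ) ^ η ≤ z → z ≤ x → x ≤ K → K ≤ x ^ 3 → u ≤ K → 1 ≤ q → (q : ℝ) ≤ Real.log x ^ B →
    r.Coprime q → ∀ g : ℕ → ℝ, (g = (fun _ => 1) ∨ g = gam U ∨ g = (fun k => ArithmeticFunction.vonMangoldt k)) →
    |∑ k ∈ (Icc 1 u).filter (fun k => k ≡ r [MOD q]), rg z k * g k -
      (∑ k ∈ Icc 1 u, rg z k * g k) / (Nat.totient q : ℝ)| ≤ K / Real.log x ^ A := by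
  classical
  obtain ⟨y0, hy03, hsw⟩ := SwR.sw_int (A + 3) (B + 1)
  obtain ⟨J, hJ⟩ : ∃ J : ℕ, J = ⌊3 / η⌋₊ := ⟨_, rfl⟩
  obtain ⟨M, hM⟩ : ∃ M : ℕ, M = 2 * 2 ^ J := ⟨_, rfl⟩
  have hM1 : 1 ≤ M := by
    rw [hM]
    have : 1 ≤ 2 ^ J := Nat.one_le_two_pow
    omega
  obtain ⟨x1, h1⟩ := SwR.evN _ ((tendsto_rpow_atTop hη).eventually_ge_atTop (y0 : ℝ))
  obtain ⟨x2, h2⟩ := SwR.evN _ (Real.tendsto_log_atTop.eventually_ge_atTop
    (1 + 1 / η ^ (B + 1) + 64 * M / η ^ (A + 3)))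
  obtain ⟨x3, h3⟩ := SwR.evN _ (SwR.ev_pow B 1 η hη)
  obtain ⟨x4, h4⟩ := SwR.evN _ (SwR.ev_pow A (4 * M) 1 one_pos)
  obtain ⟨x5, h5⟩ := SwR.evN _ (SwR.ev_pow A (4 * M) η hη)
  obtain ⟨x6, h6⟩ := SwR.evN _ (SwR.ev_pow (A + 1) 12 (1 / 2) (by norm_num))
  refine ⟨x1 + x2 + x3 + x4 + x5 + x6 + 3, ?_⟩
  intro x hx z U K u q r hz hzx hxK hKx huK hq hqx hr g hg
  have g1 := h1 x (by omega)
  have g2 := h2 x (by omega)
  have g3 := h3 x (by omega)
  have g4 := h4 x (by omega)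
  have g5 := h5 x (by omega)
  have g6 := h6 x (by omega)
  obtain ⟨ℓ, hℓ⟩ : ∃ ℓ : ℝ, ℓ = Real.log x := ⟨_, rfl⟩
  rw [← hℓ] at g2 g3 g4 g5 g6 hqx ⊢
  have hx0 : (0 : ℝ) < x := by exact_mod_cast (by omega : 0 < x)
  have hx1 : (1 : ℝ) < x := by exact_mod_cast (by omega : 1 < x)
  have hM0 : (1 : ℝ) ≤ M := by exact_mod_cast hM1
  have e1 : 0 < 1 / η ^ (B + 1) := by positivity
  have e2 : 0 < 64 * M / η ^ (A + 3) := by positivity
  have hℓ1 : 1 ≤ ℓ := by linarith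
  have hℓ0 : 0 < ℓ := by linarith
  have hyz : y0 ≤ z := by
    have : (y0 : ℝ) ≤ z := g1.trans hz
    exact_mod_cast this
  have hz1 : 1 ≤ z := by omega
  have hz0 : (0 : ℝ) < z := by exact_mod_cast (by omega : 0 < z)
  have hxη : 0 < (x : ℝ) ^ η := Real.rpow_pos_of_pos hx0 η
  have hlz : η * ℓ ≤ Real.log z := by
    rw [hℓ, ← Real.log_rpow hx0]
    exact Real.log_le_log hxη hz
  have hqz : q ≤ z := by
    have : (q : ℝ) ≤ z := hqx.trans ((by rw [one_mul] at g3; exact g3 : ℓ ^ B ≤ (x : ℝ) ^ η).trans hz)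
    exact_mod_cast this
  have hηℓ : 0 < η * ℓ := by positivity
  have hqz2 : (q : ℝ) ≤ Real.log z ^ (B + 1) := by
    refine hqx.trans (le_trans ?_ (pow_le_pow_left₀ hηℓ.le hlz (B + 1)))
    have e3 : 1 ≤ η ^ (B + 1) * ℓ := by
      have : 1 / η ^ (B + 1) ≤ ℓ := by linarith
      rw [div_le_iff₀ (by positivity)] at this
      linarith
    calc ℓ ^ B = 1 * ℓ ^ B := by ring
      _ ≤ (η ^ (B + 1) * ℓ) * ℓ ^ B := by gcongr
      _ = (η * ℓ) ^ (B + 1) := by rw [mul_pow]; ring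
  obtain ⟨E, hE⟩ : ∃ E : ℝ, E = 2 / (η * ℓ) ^ (A + 3) := ⟨_, rfl⟩
  have hE0 : 0 ≤ E := by rw [hE]; positivity
  have hEb : 2 / Real.log z ^ (A + 3) ≤ E := by
    rw [hE]
    apply div_le_div_of_nonneg_left (by norm_num) (by positivity)
    exact pow_le_pow_left₀ hηℓ.le hlz _
  have hK0 : (0 : ℝ) < K := by exact_mod_cast (by omega : 0 < K)
  have hxK' : (x : ℝ) ≤ K := by exact_mod_cast hxK
  have huK' : (u : ℝ) ≤ K := by exact_mod_cast huK
  have hlogK : Real.log K ≤ 3 * ℓ := by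
    have : (K : ℝ) ≤ (x : ℝ) ^ 3 := by exact_mod_cast hKx
    calc Real.log K ≤ Real.log ((x : ℝ) ^ 3) := Real.log_le_log hK0 this
      _ = 3 * ℓ := by rw [Real.log_pow, hℓ]; norm_num
  have hlogu : Real.log u ≤ 3 * ℓ := by
    rcases Nat.eq_zero_or_pos u with hu | hu
    · rw [hu]; simp; linarith
    · exact (Real.log_le_log (by exact_mod_cast hu) huK').trans hlogK
  have hlogu0 : 0 ≤ Real.log u := Real.log_natCast_nonneg u
  -- the final numerical bounds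
  have hA0 : 0 < ℓ ^ A := by positivity
  have b1 : (M : ℝ) ≤ K / (4 * ℓ ^ A) := by
    rw [le_div_iff₀ (by positivity)]
    rw [Real.rpow_one] at g4
    nlinarith
  have b2 : (M : ℝ) * (u / z) ≤ K / (4 * ℓ ^ A) := by
    have e3 : (M : ℝ) / z ≤ 1 / (4 * ℓ ^ A) := by
      rw [div_le_div_iff₀ hz0 (by positivity)]
      linarith [g5.trans hz]
    calc (M : ℝ) * (u / z) = M / z * u := by ring
      _ ≤ 1 / (4 * ℓ ^ A) * K := by gcongr
      _ = K / (4 * ℓ ^ A) := by ring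
  have b3 : (M : ℝ) * E * (1 + 3 * ℓ) ≤ 1 / (4 * ℓ ^ A) := by
    have e3 : 64 * M / η ^ (A + 3) ≤ ℓ := by linarith
    rw [div_le_iff₀ (by positivity)] at e3
    have e4 : (M : ℝ) * E * (1 + 3 * ℓ) ≤ M * E * (4 * ℓ) := by
      gcongr; linarith
    refine e4.trans ?_
    rw [hE, show (M : ℝ) * (2 / (η * ℓ) ^ (A + 3)) * (4 * ℓ) = (8 * M * ℓ) / (η * ℓ) ^ (A + 3) by ring,
      div_le_div_iff₀ (by positivity) (by positivity), mul_pow]
    have e5 : (32 : ℝ) * M ≤ ℓ * η ^ (A + 3) := by nlinarith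
    calc 8 * (M : ℝ) * ℓ * (4 * ℓ ^ A) = (32 * M) * (ℓ * ℓ ^ A) := by ring
      _ ≤ (ℓ * η ^ (A + 3)) * (ℓ * ℓ ^ A) := by gcongr
      _ = η ^ (A + 3) * ℓ ^ (A + 2) * 1 := by ring
      _ ≤ η ^ (A + 3) * ℓ ^ (A + 2) * ℓ := by gcongr
      _ = 1 * (η ^ (A + 3) * ℓ ^ (A + 3)) := by ring
  have hKA : (K : ℝ) / ℓ ^ A = 4 * (K / (4 * ℓ ^ A)) := by field_simp
  have hKA0 : 0 < (K : ℝ) / (4 * ℓ ^ A) := by positivity
  rw [SwR.sum_w q r (Icc 1 u) (fun k => rg z k * g k)]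
  have e0 : ∑ k ∈ Icc 1 u, rg z k * g k * SwR.w q r k = ∑ k ∈ Icc 1 u, rg z k * (g k * SwR.w q r k) := by
    apply sum_congr rfl
    intro k _
    ring
  rw [e0, SwR.sum_rg]
  -- the number of the divisors
  have hdiv : ∀ k : ℕ, k ≤ u → Rough z k → 2 * #k.divisors ≤ M := by
    intro k hk hkr
    obtain ⟨j, hj1, hj2⟩ := SwR.rough_div k hkr
    have e3 : (x : ℝ) ^ (η * j) ≤ (x : ℝ) ^ (3 : ℝ) := by
      calc (x : ℝ) ^ (η * j) = ((x : ℝ) ^ η) ^ j := by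
            rw [Real.rpow_mul hx0.le, Real.rpow_natCast]
        _ ≤ (z : ℝ) ^ j := pow_le_pow_left₀ hxη.le hz j
        _ ≤ k := by exact_mod_cast hj1
        _ ≤ K := by exact_mod_cast (hk.trans huK)
        _ ≤ (x : ℝ) ^ 3 := by exact_mod_cast hKx
        _ = (x : ℝ) ^ (3 : ℝ) := by norm_cast
    have e4 : η * j ≤ 3 := (Real.rpow_le_rpow_left_iff hx1).1 e3
    have e5 : j ≤ J := by
      rw [hJ]
      apply Nat.le_floor
      rw [le_div_iff₀ hη]
      linarith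
    have e6 : 2 ^ j ≤ 2 ^ J := Nat.pow_le_pow_right (by norm_num) e5
    omega
  have hEp : ∀ s b c : ℕ, z ≤ s → c < q → c.Coprime q →
      |∑ P ∈ (Ioc s b).filter Nat.Prime, SwR.w q c P| ≤ E * b := by
    intro s b c hs hc hcq
    refine (hsw z s b q c hyz hs hq hqz2 hc hcq).1.trans ?_
    gcongr
  have hmain : (∀ k, k ≤ u → Rough z k → |g k| ≤ M) → (∀ m, m ≤ u → Rough z m → SwR.Step g m M) →
      |∑ k ∈ Icc 1 u with Rough z k, g k * SwR.w q r k| ≤ K / ℓ ^ A := by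
    intro t1 t2
    refine (SwR.core z u q r M E hE0 hz1 hq hqz hr hEp g t1 t2).trans ?_
    have e3 : (M : ℝ) * E * (u * (1 + Real.log u)) ≤ K / (4 * ℓ ^ A) := by
      calc (M : ℝ) * E * (u * (1 + Real.log u)) ≤ M * E * (K * (1 + 3 * ℓ)) := by gcongr
        _ = K * (M * E * (1 + 3 * ℓ)) := by ring
        _ ≤ K * (1 / (4 * ℓ ^ A)) := by gcongr
        _ = K / (4 * ℓ ^ A) := by ring
    rw [hKA]
    linarith
  rcases hg with hg | hg | hg
  · subst hg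
    apply hmain
    · intro k _ _
      simp only [abs_one]
      exact hM0
    · intro m hm hmr
      obtain ⟨I, c, t, i1, i2, i3⟩ := SwR.step_one m
      exact ⟨I, c, t, i1.trans hM1, i2, i3⟩
  · subst hg
    apply hmain
    · intro k hk hkr
      refine (SwR.gam_le U k).trans ?_
      have := hdiv k hk hkr
      exact_mod_cast (by omega : #k.divisors ≤ M)
    · intro m hm hmr
      obtain ⟨I, c, t, i1, i2, i3⟩ := SwR.step_gam U m hmr.1
      exact ⟨I, c, t, i1.trans (hdiv m hm hmr), i2, i3⟩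
  · subst hg
    have hrc : (r % q).Coprime q := by
      rw [Nat.coprime_iff_gcd_eq_one] at hr ⊢
      rw [← Nat.gcd_rec, Nat.gcd_comm]
      exact hr
    have hEL : |∑ k ∈ Ioc z u, ArithmeticFunction.vonMangoldt k * SwR.w q r k| ≤ E * u := by
      have := (hsw z z u q (r % q) hyz le_rfl hq hqz2 (Nat.mod_lt _ (by omega)) hrc).2
      simp only [SwR.w_mod] at this
      refine this.trans ?_
      gcongr
    refine (SwR.coreL z u q r E hq hz1 hEL).trans ?_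
    have e3 : E * u ≤ K / (4 * ℓ ^ A) := by
      have e4 : E ≤ 1 / (4 * ℓ ^ A) := by
        refine le_trans ?_ b3
        have : (1 : ℝ) ≤ M * (1 + 3 * ℓ) := one_le_mul_of_one_le_of_one_le hM0 (by linarith)
        calc E = E * 1 := by ring
          _ ≤ E * (M * (1 + 3 * ℓ)) := by gcongr
          _ = M * E * (1 + 3 * ℓ) := by ring
      calc E * u ≤ 1 / (4 * ℓ ^ A) * K := by gcongr
        _ = K / (4 * ℓ ^ A) := by ring
    have e4 : 2 * (√(u : ℝ) * Real.log u) ≤ 2 * (K / (4 * ℓ ^ A)) := by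
      have e5 : √(u : ℝ) ≤ √(K : ℝ) := Real.sqrt_le_sqrt huK'
      have e6 : √(u : ℝ) * Real.log u ≤ √(K : ℝ) * (3 * ℓ) := by gcongr
      have e7 : (x : ℝ) ^ (1 / 2 : ℝ) ≤ √(K : ℝ) := by
        rw [← Real.sqrt_eq_rpow]; exact Real.sqrt_le_sqrt hxK'
      have e8 : 12 * ℓ ^ (A + 1) ≤ √(K : ℝ) := g6.trans e7
      have e9 : √(K : ℝ) * √(K : ℝ) = K := Real.mul_self_sqrt hK0.le
      have e10 : √(K : ℝ) * (3 * ℓ) ≤ K / (4 * ℓ ^ A) := by
        rw [le_div_iff₀ (by positivity)]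
        calc √(K : ℝ) * (3 * ℓ) * (4 * ℓ ^ A) = √(K : ℝ) * (12 * ℓ ^ (A + 1)) := by ring
          _ ≤ √(K : ℝ) * √(K : ℝ) := by gcongr
          _ = K := e9
      linarith
    rw [hKA]
    linarith

end Pool.Agent.N792
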