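import Mathlib
import Pool.Agent.N792.SwR
import Pool.Agent.N792.ShpB

/-!
The model of the rough functions (helper456, for helper792).
-/

set_option autoImplicit false

namespace Pool.Agent.N792
open Finset Filter Topology
open ArithmeticFunction (moebius vonMangoldt)

theorem sharp_H (η : ℝ) (hη : 0 < η) (A E : ℕ) : ∃ x0 : ℕ, ∀ x : ℕ, x0 ≤ x → ∀ z U Jw t i u q r : ℕ,
    (x : ℝ) ^ η ≤ z → z ≤ x → Real.log x ^ A ≤ ((2 ^ 2 ^ Jw : ℕ) : ℝ) → ((2 ^ 2 ^ Jw : ℕ) : ℝ) ≤ Real.log x ^ E →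
    Real.log x ^ (A + 5) ≤ (2 : ℝ) ^ t → (2 : ℝ) ^ t ≤ Real.log x ^ E → x ≤ 2 ^ i → 2 ^ (i + 1) ≤ x ^ 3 →
    1 ≤ q → (q : ℝ) ≤ Real.log x ^ A → 2 ^ i ≤ u → u ≤ 2 ^ (i + 1) →
    ∀ g : ℕ → ℝ, (g = (fun _ => 1) ∨ g = gam U ∨ g = (fun k => vonMangoldt k)) →
    |∑ k ∈ (Ioc (2 ^ i) u).filter (fun k => k ≡ r [MOD q]),
      (rg z k * g k - sharp t (2 ^ 2 ^ Jw) (fun k => rg z k * g k) k)| ≤ (2 : ℝ) ^ i / Real.log x ^ A :=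
  Shp.sharp_H_of (fun η hη A B => sw_rough η hη A B) η hη A E

end Pool.Agent.N792
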