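import Mathlib
import Pool.Agent.N792.TH5
import Pool.Agent.N792.TG6
import Pool.Agent.N792.RhA
import Pool.Agent.N792.ShpA

/-!
The average of `ρ_c(m) - 1` in the type II sums (helper792).
-/

set_option autoImplicit false

namespace Pool.Agent.N792

open Finset Filter Topology

/-- the sum over the rough numbers which are not squarefree -/
lemma nonsq_sum {z U y x : ℕ} (hz : 1 ≤ z) (hyx : y ≤ x) (S : Finset ℕ)
    (hS : ∀ m ∈ S, m ∈ Ioc U y ∧ ¬ Squarefree m ∧ Rough z m) : ∑ m ∈ S, (1 : ℝ) / m ≤ (1 + Real.log x) / z := by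
  classical
  have hzR : (0 : ℝ) < z := by exact_mod_cast hz
  have h1 : ∀ m ∈ S, (1 : ℝ) / m ≤ ∑ d ∈ (Ioc z y).filter (fun d => d * d ∣ m), (1 : ℝ) / m := by
    intro m hm
    obtain ⟨h2, h3, h4⟩ := hS m hm
    rw [mem_Ioc] at h2
    rw [Nat.squarefree_iff_prime_squarefree] at h3
    push Not at h3
    obtain ⟨p, hp, hpm⟩ := h3
    have h5 : p ∈ (Ioc z y).filter (fun d => d * d ∣ m) := by
      rw [mem_filter, mem_Ioc]
      refine ⟨⟨h4.2 p hp (dvd_trans (dvd_mul_right _ _) hpm), ?_⟩, hpm⟩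
      have h6 : p * p ≤ m := Nat.le_of_dvd (Nat.pos_of_ne_zero h4.1) hpm
      have h7 : p ≤ p * p := Nat.le_mul_self p
      omega
    exact single_le_sum (f := fun _ => (1 : ℝ) / m) (fun _ _ => by positivity) h5
  refine (sum_le_sum h1).trans ?_
  have h2 : ∑ m ∈ S, ∑ d ∈ (Ioc z y).filter (fun d => d * d ∣ m), (1 : ℝ) / m =
      ∑ d ∈ Ioc z y, ∑ m ∈ S.filter (fun m => d * d ∣ m), (1 : ℝ) / m := by
    simp only [sum_filter]
    exact sum_comm
  rw [h2]
  have h3 : ∀ d ∈ Ioc z y, ∑ m ∈ S.filter (fun m => d * d ∣ m), (1 : ℝ) / m ≤ (1 + Real.log x) * (1 / ((d : ℝ) - 1) - 1 / d) := by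
    intro d hd
    rw [mem_Ioc] at hd
    have hd1 : (1 : ℝ) < d := by
      have : 1 < d := by omega
      exact_mod_cast this
    have h4 : ∑ m ∈ S.filter (fun m => d * d ∣ m), (1 : ℝ) / m ≤ ∑ l ∈ Icc 1 x, (1 : ℝ) / ((d * d : ℕ) * l) := by
      have h5 : S.filter (fun m => d * d ∣ m) ⊆ (Icc 1 x).image (fun l => d * d * l) := by
        intro m hm
        rw [mem_filter] at hm
        obtain ⟨⟨h6, _, h7⟩, l, hl⟩ := And.intro (hS m hm.1) hm.2
        rw [mem_Ioc] at h6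
        rw [mem_image]
        refine ⟨l, ?_, hl.symm⟩
        rw [mem_Icc]
        have hl0 : l ≠ 0 := by
          rintro rfl
          exact h7.1 (by rw [hl, mul_zero])
        refine ⟨by omega, ?_⟩
        have : 1 * l ≤ d * d * l := Nat.mul_le_mul_right _ (by nlinarith)
        omega
      refine (sum_le_sum_of_subset_of_nonneg h5 (fun _ _ _ => by positivity)).trans ?_
      rw [sum_image]
      · apply le_of_eq
        apply sum_congr rfl
        intro l _
        push_cast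
        rfl
      · intro l1 _ l2 _ h
        have hdd : 0 < d * d := by nlinarith
        exact Nat.eq_of_mul_eq_mul_left hdd h
    refine h4.trans ?_
    have h6 : ∑ l ∈ Icc 1 x, (1 : ℝ) / ((d * d : ℕ) * l) = 1 / ((d : ℝ) * d) * ∑ l ∈ Icc 1 x, (1 : ℝ) / l := by
      rw [mul_sum]
      apply sum_congr rfl
      intro l _
      push_cast
      rw [one_div_mul_one_div]
    rw [h6, mul_comm]
    have h7 : ∑ l ∈ Icc 1 x, (1 : ℝ) / l ≤ 1 + Real.log x := by
      have h2 := harmonic_le_one_add_log x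
      rw [harmonic_eq_sum_Icc] at h2
      push_cast at h2
      simpa only [one_div] using h2
    have h8 : 1 / ((d : ℝ) * d) ≤ 1 / ((d : ℝ) - 1) - 1 / d := by
      rw [div_sub_div _ _ (by linarith) (by linarith), div_le_div_iff₀ (by positivity) (by
        have : 0 < (d : ℝ) - 1 := by linarith
        positivity)]
      nlinarith
    have h9 : 0 ≤ 1 + Real.log x := le_trans (sum_nonneg fun _ _ => by positivity) h7
    exact mul_le_mul h7 h8 (by positivity) h9
  refine (sum_le_sum h3).trans ?_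
  rw [← mul_sum]
  have h4 : ∀ n : ℕ, z ≤ n → ∑ d ∈ Ioc z n, (1 / ((d : ℝ) - 1) - 1 / d) = 1 / z - 1 / n := by
    intro n hn
    induction n, hn using Nat.le_induction with
    | base => simp
    | succ n hn ih =>
      rw [sum_Ioc_succ_top hn, ih]
      push_cast
      ring
  have h5 : ∑ d ∈ Ioc z y, (1 / ((d : ℝ) - 1) - 1 / d) ≤ 1 / z := by
    rcases le_or_gt z y with h6 | h6
    · rw [h4 y h6]
      have : (0 : ℝ) ≤ 1 / y := by positivity
      linarith
    · rw [Ioc_eq_empty (by omega), sum_empty]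
      positivity
  rcases Nat.eq_zero_or_pos x with hx0 | hx0
  · have : y = 0 := by omega
    rw [this, Ioc_eq_empty (by omega), sum_empty, mul_zero, hx0]
    simp
  have hlog : 0 ≤ Real.log x := Real.log_nonneg (by exact_mod_cast hx0)
  calc (1 + Real.log x) * ∑ d ∈ Ioc z y, (1 / ((d : ℝ) - 1) - 1 / d) ≤ (1 + Real.log x) * (1 / z) :=
        mul_le_mul_of_nonneg_left h5 (by linarith)
    _ = _ := by ring

/-- **the average of `ρ_c(m) - 1`** -/
theorem rho_part (a : ℤ) (ha : 0 < a) (b : ℤ) (η ε : ℝ) (hη : 0 < η) (hε : 0 < ε) (hε1 : ε ≤ 1 / 20) :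
    ∃ x0 : ℕ, ∀ x : ℕ, x0 ≤ x → ∀ (C z U y : ℕ) (h : ℕ → ℝ), (x : ℝ) ^ (1 - ε / 3) ≤ C → C ≤ x → (x : ℝ) ^ η ≤ z →
    (y : ℝ) ≤ (x : ℝ) ^ (1 - 2 * ε) →
    (∀ m ∈ Ioc U y, |h m| ≤ rg z m * (9 * Real.log x ^ 2 * (√(2 * a) * x) / m)) →
    ∑ c ∈ Icc 1 C, |∑ m ∈ Ioc U y, h m * ((rho a b (c : ℕ) m : ℝ) - 1)| ≤ C * x / Real.log x ^ 3 := by
  classical
  set ν := min η (5 * ε / 3) with hν
  have hν0 : 0 < ν := lt_min hη (by positivity)
  have e1 : ∀ᶠ x : ℕ in atTop, (200 : ℝ) ≤ Real.log x := Shp.log_ge 200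
  have e2 := ev_log_pow (4 * 81 * (2 * a) * 27 * 66) 13 hν0
  have e3 := ev_log_pow (2 * a + 1) 0 hη
  have e4 := ev_log_pow (2 * 3 * 9 * √(2 * a) * 2) 6 hη
  obtain ⟨x0, hx0⟩ := eventually_atTop.1 (((e1.and e2).and e3).and e4)
  refine ⟨max x0 3, fun x hx C z U y h hC1 hC2 hz hy hh => ?_⟩
  obtain ⟨⟨⟨f1, f2⟩, f3⟩, f4⟩ := hx0 x ((le_max_left _ _).trans hx)
  have hx3 : 3 ≤ x := (le_max_right _ _).trans hx
  rw [pow_zero, mul_one] at f3
  have hxpos : (0 : ℝ) < x := by
    have : 0 < x := by omega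
    exact_mod_cast this
  have hx1' : (1 : ℝ) ≤ x := by
    have : 1 ≤ x := by omega
    exact_mod_cast this
  set L := Real.log x with hL
  have hL0 : 0 < L := by linarith
  have haR : (1 : ℝ) ≤ a := by exact_mod_cast ha
  have hzpos : (0 : ℝ) < z := lt_of_lt_of_le (Real.rpow_pos_of_pos hxpos _) hz
  have hz1 : 1 ≤ z := by exact_mod_cast hzpos
  have hyx : y ≤ x := by
    have : (y : ℝ) ≤ x := by
      refine hy.trans ?_
      nth_rw 2 [← Real.rpow_one (x : ℝ)]
      exact Real.rpow_le_rpow_of_exponent_le hx1' (by linarith)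
    exact_mod_cast this
  have hC0 : (0 : ℝ) < C := lt_of_lt_of_le (Real.rpow_pos_of_pos hxpos _) hC1
  rcases Nat.eq_zero_or_pos y with hy0 | hy0
  · have : ∀ c ∈ Icc 1 C, |∑ m ∈ Ioc U y, h m * ((rho a b (c : ℕ) m : ℝ) - 1)| = 0 := by
      intro c _
      rw [hy0, Ioc_eq_empty (by omega), sum_empty, abs_zero]
    rw [sum_congr rfl this, sum_const_zero]
    positivity
  set G := 9 * L ^ 2 * (√(2 * a) * x) with hG
  have hG0 : 0 ≤ G := by positivity
  set g : ℕ → ℝ := fun m => if (U < m ∧ m ≤ y ∧ Squarefree m) then h m else 0 with hg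
  have hhG : ∀ m ∈ Ioc U y, |h m| ≤ rg z m * (G / m) := hh
  have hhr : ∀ m ∈ Ioc U y, h m ≠ 0 → Rough z m := by
    intro m hm hne
    by_contra hcon
    have h1 : rg z m = 0 := by unfold rg; rw [if_neg hcon]
    have h2 := hhG m hm
    rw [h1, zero_mul] at h2
    exact hne (abs_nonpos_iff.1 h2)
  have hhG1 : ∀ m ∈ Ioc U y, |h m| ≤ G / m := by
    intro m hm
    refine (hhG m hm).trans ?_
    exact mul_le_of_le_one_left (by positivity) (rg_range z m).2
  have hrav := rho_avg a ha b C y z G g (by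
      have h1 : (2 * (a : ℝ)) < z := by linarith
      exact_mod_cast h1) hy0 (by
      intro m
      simp only [hg]
      split_ifs with hc
      · exact hhG1 m (mem_Ioc.2 ⟨hc.1, hc.2.1⟩)
      · rw [abs_zero]; positivity) (by
      intro m hm
      simp only [hg, ne_eq, ite_eq_right_iff, Classical.not_imp] at hm
      obtain ⟨hc, hne⟩ := hm
      exact ⟨hc.2.2, hhr m (mem_Ioc.2 ⟨hc.1, hc.2.1⟩) hne⟩)
  -- the squarefree part
  set A : ℕ → ℝ := fun c => ∑ m ∈ Icc 1 y, g m * ((rho a b (c : ℕ) m : ℝ) - 1) with hA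
  have hxν : (x : ℝ) ^ ν * (x : ℝ) ^ (-ν) = 1 := by
    rw [← Real.rpow_add hxpos]
    norm_num
  have hcz : 2 * (C : ℝ) / z + 64 * y ≤ 66 * (C * (x : ℝ) ^ (-ν)) := by
    have h1 : 2 * (C : ℝ) / z ≤ 2 * (C * (x : ℝ) ^ (-ν)) := by
      rw [div_le_iff₀ hzpos]
      have h2 : (x : ℝ) ^ ν ≤ z := (Real.rpow_le_rpow_of_exponent_le hx1' (min_le_left _ _)).trans hz
      calc 2 * (C : ℝ) = 2 * (C * ((x : ℝ) ^ ν * (x : ℝ) ^ (-ν))) := by rw [hxν, mul_one]
        _ = 2 * (C * (x : ℝ) ^ (-ν)) * (x : ℝ) ^ ν := by ring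
        _ ≤ 2 * (C * (x : ℝ) ^ (-ν)) * z := mul_le_mul_of_nonneg_left h2 (by positivity)
    have h2 : (y : ℝ) ≤ C * (x : ℝ) ^ (-ν) := by
      calc (y : ℝ) ≤ (x : ℝ) ^ (1 - 2 * ε) := hy
        _ = (x : ℝ) ^ (1 - ε / 3) * (x : ℝ) ^ (-(5 * ε / 3)) := by
            rw [← Real.rpow_add hxpos]
            congr 1
            ring
        _ ≤ C * (x : ℝ) ^ (-ν) := by
            apply mul_le_mul hC1 _ (by positivity) hC0.le
            apply Real.rpow_le_rpow_of_exponent_le hx1'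
            have := min_le_right η (5 * ε / 3)
            linarith
    linarith
  have hly : 1 + 2 * Real.log y ≤ 3 * L := by
    have h1 : Real.log y ≤ L := Real.log_le_log (by exact_mod_cast hy0) (by exact_mod_cast hyx)
    linarith
  have hly0 : 0 ≤ 1 + 2 * Real.log y := by
    have : 0 ≤ Real.log y := Real.log_nonneg (by exact_mod_cast hy0)
    linarith
  have hAsq : (∑ c ∈ Icc 1 C, |A c|) ^ 2 ≤ (C * x / (2 * L ^ 3)) ^ 2 := by
    have h1 : (∑ c ∈ Icc 1 C, |A c|) ^ 2 ≤ C * ∑ c ∈ Icc 1 C, (A c) ^ 2 := by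
      have h2 := sq_sum_le_card_mul_sum_sq (s := Icc 1 C) (f := fun c => |A c|)
      simp only [sq_abs, Nat.card_Icc, Nat.add_sub_cancel] at h2
      exact h2
    refine h1.trans ?_
    calc (C : ℝ) * ∑ c ∈ Icc 1 C, (A c) ^ 2 ≤ C * (G ^ 2 * (1 + 2 * Real.log y) ^ 3 * (2 * C / z + 64 * y)) :=
          mul_le_mul_of_nonneg_left hrav hC0.le
      _ ≤ C * (G ^ 2 * (3 * L) ^ 3 * (66 * (C * (x : ℝ) ^ (-ν)))) := by
          apply mul_le_mul_of_nonneg_left _ hC0.le
          apply mul_le_mul _ hcz (by positivity) (by positivity)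
          apply mul_le_mul_of_nonneg_left _ (by positivity)
          exact pow_le_pow_left₀ hly0 hly 3
      _ = (4 * 81 * (2 * a) * 27 * 66 * L ^ 13) * (x : ℝ) ^ (-ν) * (C * x / (2 * L ^ 3)) ^ 2 := by
          rw [hG]
          have h5 : √(2 * (a : ℝ)) ^ 2 = 2 * a := Real.sq_sqrt (by linarith)
          have h6 : (9 * L ^ 2 * (√(2 * (a : ℝ)) * x)) ^ 2 = 81 * L ^ 4 * (√(2 * (a : ℝ)) ^ 2 * x ^ 2) := by ring
          rw [h6, h5]
          field_simp
          ring
      _ ≤ ((x : ℝ) ^ ν) * (x : ℝ) ^ (-ν) * (C * x / (2 * L ^ 3)) ^ 2 := by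
          apply mul_le_mul_of_nonneg_right _ (by positivity)
          exact mul_le_mul_of_nonneg_right f2 (by positivity)
      _ = _ := by rw [hxν, one_mul]
  have hA1 : ∑ c ∈ Icc 1 C, |A c| ≤ C * x / (2 * L ^ 3) :=
    abs_le_of_sq_le_sq' hAsq (by positivity) |>.2
  -- the other part
  set S := (Ioc U y).filter (fun m => ¬ Squarefree m ∧ Rough z m) with hS
  have hsplit : ∀ c ∈ Icc 1 C, |∑ m ∈ Ioc U y, h m * ((rho a b (c : ℕ) m : ℝ) - 1)| ≤
      |A c| + ∑ m ∈ S, (G / m) * ((rho a b (c : ℕ) m : ℝ) + 1) := by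
    intro c _
    have h1 : A c = ∑ m ∈ (Ioc U y).filter (fun m => Squarefree m), h m * ((rho a b (c : ℕ) m : ℝ) - 1) := by
      simp only [hA, hg]
      rw [sum_filter]
      have h2 : Ioc U y ⊆ Icc 1 y := by
        intro m hm
        rw [mem_Ioc] at hm
        rw [mem_Icc]
        omega
      rw [← sum_subset h2]
      · apply sum_congr rfl
        intro m hm
        rw [mem_Ioc] at hm
        by_cases hq : Squarefree m
        · rw [if_pos ⟨hm.1, hm.2, hq⟩, if_pos hq]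
        · rw [if_neg (fun h => hq h.2.2), if_neg hq, zero_mul]
      · intro m hm1 hm2
        rw [if_neg, zero_mul]
        intro h
        exact hm2 (mem_Ioc.2 ⟨h.1, h.2.1⟩)
    rw [h1, ← sum_filter_add_sum_filter_not (Ioc U y) (fun m => Squarefree m)]
    refine (abs_add_le _ _).trans (add_le_add le_rfl ?_)
    refine (abs_sum_le_sum_abs _ _).trans ?_
    rw [hS, ← filter_filter]
    rw [sum_filter (s := (Ioc U y).filter (fun m => ¬ Squarefree m)) (p := fun m => Rough z m)]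
    apply sum_le_sum
    intro m hm
    rw [mem_filter] at hm
    have hρ : |(rho a b (c : ℕ) m : ℝ) - 1| ≤ (rho a b (c : ℕ) m : ℝ) + 1 := by
      rw [abs_le]
      have : (0 : ℝ) ≤ rho a b (c : ℕ) m := Nat.cast_nonneg _
      constructor <;> linarith
    split_ifs with hr
    · rw [abs_mul]
      exact mul_le_mul (hhG1 m hm.1) hρ (abs_nonneg _) (by positivity)
    · have : h m = 0 := by
        by_contra hne
        exact hr (hhr m hm.1 hne)
      rw [this, zero_mul, abs_zero]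
  refine (sum_le_sum hsplit).trans ?_
  rw [sum_add_distrib]
  have hB : ∑ c ∈ Icc 1 C, ∑ m ∈ S, (G / m) * ((rho a b (c : ℕ) m : ℝ) + 1) ≤ C * x / (2 * L ^ 3) := by
    rw [sum_comm]
    have h1 : ∀ m ∈ S, ∑ c ∈ Icc 1 C, (G / m) * ((rho a b (c : ℕ) m : ℝ) + 1) ≤ (3 * C * G) * (1 / m) := by
      intro m hm
      rw [hS, mem_filter, mem_Ioc] at hm
      have hmC : m ≤ C := by
        have : (m : ℝ) ≤ C := by
          calc (m : ℝ) ≤ y := by exact_mod_cast hm.1.2
            _ ≤ (x : ℝ) ^ (1 - 2 * ε) := hy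
            _ ≤ (x : ℝ) ^ (1 - ε / 3) := Real.rpow_le_rpow_of_exponent_le hx1' (by linarith)
            _ ≤ C := hC1
        exact_mod_cast this
      rw [← mul_sum, sum_add_distrib, sum_const, Nat.card_Icc, Nat.add_sub_cancel, nsmul_eq_mul, mul_one]
      have h2 := rho_sum_c a b (C := C) (m := m) (by omega) hmC
      calc G / m * (∑ c ∈ Icc 1 C, (rho a b (c : ℕ) m : ℝ) + C) ≤ G / m * (2 * C + C) := by
            apply mul_le_mul_of_nonneg_left _ (by positivity)
            linarith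
        _ = _ := by ring
    refine (sum_le_sum h1).trans ?_
    rw [← mul_sum]
    have h2 := nonsq_sum (z := z) (U := U) (y := y) (x := x) hz1 hyx S (by
      intro m hm
      rw [hS, mem_filter] at hm
      exact hm)
    have h3 : (1 + L) / z ≤ 2 * L / (x : ℝ) ^ η :=
      div_le_div₀ (by positivity) (by linarith) (by positivity) hz
    have hxη : (0 : ℝ) < (x : ℝ) ^ η := by positivity
    calc 3 * (C : ℝ) * G * ∑ m ∈ S, (1 : ℝ) / m ≤ 3 * C * G * (2 * L / (x : ℝ) ^ η) :=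
          mul_le_mul_of_nonneg_left (h2.trans h3) (by positivity)
      _ = (2 * 3 * 9 * √(2 * a) * 2 * L ^ 6) * (C * x / (2 * L ^ 3)) / (x : ℝ) ^ η := by
          rw [hG]
          field_simp
      _ ≤ (x : ℝ) ^ η * (C * x / (2 * L ^ 3)) / (x : ℝ) ^ η := by
          apply div_le_div_of_nonneg_right _ hxη.le
          exact mul_le_mul_of_nonneg_right f4 (by positivity)
      _ = _ := by field_simp
  calc ∑ c ∈ Icc 1 C, |A c| + ∑ c ∈ Icc 1 C, ∑ m ∈ S, (G / m) * ((rho a b (c : ℕ) m : ℝ) + 1) ≤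
      C * x / (2 * L ^ 3) + C * x / (2 * L ^ 3) := add_le_add hA1 hB
    _ = _ := by
        field_simp
        ring

end Pool.Agent.N792
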