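import Mathlib
import Pool.Agent.N792.TH4
import Pool.Agent.N792.TH6
import Pool.Agent.N792.Shp
import Pool.Agent.N792.Mtm
import Pool.Agent.N792.Vau
import Pool.Agent.N792.Asm

/-!
The type II estimate (helper792).
-/

set_option autoImplicit false

namespace Pool.Agent.N792

open Finset Filter Topology
open ArithmeticFunction (moebius vonMangoldt)

lemma exists_pow_two {Y : ℝ} (hY : 1 ≤ Y) : ∃ t : ℕ, Y ≤ 2 ^ t ∧ (2 : ℝ) ^ t ≤ 2 * Y := by
  obtain ⟨n, h1, h2⟩ := exists_nat_pow_near hY (by norm_num : (1 : ℝ) < 2)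
  refine ⟨n + 1, h2.le, ?_⟩
  rw [pow_succ]
  linarith

/-- the model of the truncated function -/
lemma sharp_tb {X z w t k : ℕ} {g : ℕ → ℝ} (hX : cl t k + cs t k ≤ X) :
    sharp t w (tb X z g) k = sharp t w (fun k => rg z k * g k) k := by
  have h1 : dens t (tb X z g) k = dens t (fun k => rg z k * g k) k := by
    unfold dens
    congr 1
    apply sum_congr rfl
    intro k' hk'
    rw [mem_Ioc] at hk'
    unfold tb
    rw [if_pos (hk'.2.trans hX)]
  unfold sharp
  rw [h1]

/-- the sum over one dyadic block -/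
lemma sum_tb {X z w t i v q r : ℕ} {g : ℕ → ℝ} (ht : 2 ^ t ≤ 2 ^ i) (hX : 2 ^ (i + 1) ≤ X) (hv : v ≤ 2 ^ (i + 1)) :
    ∑ k ∈ (Ioc (2 ^ i) v).filter (fun k => k ≡ r [MOD q]), (tb X z g k - sharp t w (tb X z g) k) =
      ∑ k ∈ (Ioc (2 ^ i) v).filter (fun k => k ≡ r [MOD q]), (rg z k * g k - sharp t w (fun k => rg z k * g k) k) := by
  apply sum_congr rfl
  intro k hk
  rw [mem_filter, mem_Ioc] at hk
  obtain ⟨i', hi', a1, a2, a3, a4, a5, a6, a7, a8⟩ := Mtm.cell_facts (t := t) (k := k) (by omega)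
  have h1 : i' < i + 1 := by
    by_contra hcon
    push Not at hcon
    have : 2 ^ (i + 1) ≤ 2 ^ i' := Nat.pow_le_pow_right (by norm_num) hcon
    omega
  have h2 : 2 ^ (i' + 1) ≤ 2 ^ (i + 1) := Nat.pow_le_pow_right (by norm_num) (by omega)
  rw [sharp_tb (by omega)]
  unfold tb
  rw [if_pos (by omega)]

/-- **the type II estimate** -/
theorem type_two (a : ℤ) (ha : 0 < a) (b : ℤ) : TII a b := by
  classical
  refine ⟨883, fun E R η ε hη hε hε1 => ?_⟩
  obtain ⟨xA, hcore⟩ := core_bound a ha b η ε hη hε hε1 R 49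
  obtain ⟨xB, hsharp⟩ := sharp_H η hη 883 (E + 889)
  obtain ⟨xC, hmain⟩ := main_term a ha b (2 * ε) (by positivity) R 4 2 (E + 889)
  obtain ⟨xD, hrho⟩ := rho_part a ha b η ε hη hε hε1
  have e1 : ∀ᶠ x : ℕ in atTop, (10 ^ 13 : ℝ) ≤ Real.log x := Shp.log_ge _
  have e2 := Shp.beta_sup η hη
  have e3 := Shp.inv_V1_le E
  have e4 := ev_log_pow 1 (E + 889) hη
  have e5 := ev_log_pow 1 (E + 889) (δ := 1) (by norm_num)
  have e6 : ∀ᶠ x : ℕ in atTop, 4 * (R + 1) * (b.natAbs + 1) ≤ x := eventually_ge_atTop _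
  have e7 := ev_log_pow (2 * a) 0 (δ := 1) (by norm_num)
  obtain ⟨xE, hxE⟩ := eventually_atTop.1 ((((((e1.and e2).and e3).and e4).and e5).and e6).and e7)
  refine ⟨max (max (max xA xB) (max xC xD)) (max xE 3), fun x hx x1 C z U y Jw hx1 hR hC1 hC2 hz hzx hU hUy hy hw1 hw2 f g hfg => ?_⟩
  have hxA : xA ≤ x := (le_max_left _ _).trans ((le_max_left _ _).trans ((le_max_left _ _).trans hx))
  have hxB : xB ≤ x := (le_max_right _ _).trans ((le_max_left _ _).trans ((le_max_left _ _).trans hx))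
  have hxC : xC ≤ x := (le_max_left _ _).trans ((le_max_right _ _).trans ((le_max_left _ _).trans hx))
  have hxD : xD ≤ x := (le_max_right _ _).trans ((le_max_right _ _).trans ((le_max_left _ _).trans hx))
  have hx3 : 3 ≤ x := (le_max_right _ _).trans ((le_max_right _ _).trans hx)
  obtain ⟨⟨⟨⟨⟨⟨f1, f2⟩, f3⟩, f4⟩, f5⟩, f6⟩, f7⟩ := hxE x ((le_max_left _ _).trans ((le_max_right _ _).trans hx))
  rw [pow_zero, mul_one, Real.rpow_one] at f7
  rw [one_mul] at f4 f5
  rw [Real.rpow_one] at f5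
  have hxpos : (0 : ℝ) < x := by
    have : 0 < x := by omega
    exact_mod_cast this
  have hx1' : (1 : ℝ) ≤ x := by
    have : 1 ≤ x := by omega
    exact_mod_cast this
  set L := Real.log x with hL
  have hL0 : 0 < L := by
    have : (0 : ℝ) < 10 ^ 13 := by norm_num
    linarith
  have hL13 : (10 : ℝ) ^ 13 ≤ L := f1
  have hL1 : 1 ≤ L := by
    have : (1 : ℝ) ≤ 10 ^ 13 := by norm_num
    linarith
  set w := 2 ^ 2 ^ Jw with hwdef
  have haR : (1 : ℝ) ≤ a := by exact_mod_cast ha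
  have hx1b : 2 * b.natAbs ≤ x1 := by
    by_contra hcon
    push Not at hcon
    have h1 : R * x1 ≤ R * (2 * b.natAbs) := Nat.mul_le_mul_left _ hcon.le
    have h2 : R * (2 * b.natAbs) < 4 * (R + 1) * (b.natAbs + 1) := by nlinarith
    omega
  obtain ⟨hFx2, hF12⟩ := Fn_bounds ha hx1 hR hx1b
  have hF3 : Fn a b x ≤ x ^ 3 := by
    have : ((Fn a b x : ℕ) : ℝ) ≤ (x : ℝ) ^ 3 := by
      calc ((Fn a b x : ℕ) : ℝ) ≤ 2 * a * x ^ 2 := hFx2
        _ ≤ x * x ^ 2 := mul_le_mul_of_nonneg_right f7 (by positivity)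
        _ = _ := by ring
    exact_mod_cast this
  have hyx : y ≤ x := by
    have : (y : ℝ) ≤ x := by
      refine hy.trans ?_
      nth_rw 2 [← Real.rpow_one (x : ℝ)]
      exact Real.rpow_le_rpow_of_exponent_le hx1' (by linarith)
    exact_mod_cast this
  have hUpos : 0 < U := by
    have : (0 : ℝ) < U := lt_of_lt_of_le (Real.rpow_pos_of_pos hxpos _) hU
    exact_mod_cast this
  have hC0 : (0 : ℝ) < C := lt_of_lt_of_le (Real.rpow_pos_of_pos hxpos _) hC1
  have hyC : ∀ m ∈ Ioc U y, m ≤ C := by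
    intro m hm
    rw [mem_Ioc] at hm
    have : (m : ℝ) ≤ C := by
      calc (m : ℝ) ≤ y := by exact_mod_cast hm.2
        _ ≤ (x : ℝ) ^ (1 - 2 * ε) := hy
        _ ≤ (x : ℝ) ^ (1 - ε / 3) := Real.rpow_le_rpow_of_exponent_le hx1' (by linarith)
        _ ≤ C := hC1
    exact_mod_cast this
  -- the parameters
  obtain ⟨t, ht1, ht2⟩ := exists_pow_two (Y := L ^ 12) (one_le_pow₀ hL1)
  obtain ⟨ts, hts1, hts2⟩ := exists_pow_two (Y := L ^ 888) (one_le_pow₀ hL1)
  have hLt : L ≤ (2 : ℝ) ^ t := (le_self_pow₀ hL1 (by norm_num)).trans ht1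
  have h4t : (2 : ℝ) ^ (4 * t) ≤ L ^ 49 := by
    calc (2 : ℝ) ^ (4 * t) = (2 ^ t) ^ 4 := by rw [← pow_mul]; congr 1; ring
      _ ≤ (2 * L ^ 12) ^ 4 := pow_le_pow_left₀ (by positivity) ht2 4
      _ = 16 * L ^ 48 := by ring
      _ ≤ L * L ^ 48 := mul_le_mul_of_nonneg_right (by linarith) (by positivity)
      _ = L ^ 49 := by ring
  have htsE : (2 : ℝ) ^ ts ≤ L ^ (E + 889) := by
    calc (2 : ℝ) ^ ts ≤ 2 * L ^ 888 := hts2
      _ ≤ L * L ^ 888 := mul_le_mul_of_nonneg_right (by linarith) (by positivity)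
      _ = L ^ 889 := by ring
      _ ≤ L ^ (E + 889) := pow_le_pow_right₀ hL1 (by omega)
  have hwE : ((w : ℕ) : ℝ) ≤ L ^ (E + 889) := hw2.trans (pow_le_pow_right₀ hL1 (by omega))
  -- the coefficients
  have hgcase : g = (fun _ => 1) ∨ g = gam U ∨ g = (fun k => vonMangoldt k) := by
    rcases hfg with h | h | h
    · left; exact h.2
    · right; left; exact h.2
    · right; right; exact h.2
  have hα : ∀ m ∈ Ioc U y, |rg z m * f m| ≤ rg z m * (3 * L) := by
    intro m hm
    rw [mem_Ioc] at hm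
    have hm3 : m ≤ x ^ 3 := by
      have : x ≤ x ^ 3 := Nat.le_self_pow (by norm_num) _
      omega
    have hkey : |rg z m * f m| ≤ 3 * L := by
      rcases hfg with h | h | h
      · rw [h.1]
        simp only
        rw [abs_mul, abs_neg, abs_of_nonneg (rg_range z m).1]
        have h1 : |betU U m| ≤ L := by
          refine (Vau.betU_abs U m).trans ?_
          apply Real.log_le_log
          · exact_mod_cast (by omega : 0 < m)
          · exact_mod_cast hm.2.trans hyx
        calc rg z m * |betU U m| ≤ 1 * L := mul_le_mul (rg_range z m).2 h1 (abs_nonneg _) (by norm_num)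
          _ ≤ _ := by linarith
      · exact f2 z U m hz hm3 f (by right; right; exact h.1)
      · exact f2 z U m hz hm3 f (by right; left; exact h.1)
    by_cases hr : Rough z m
    · have h1 : rg z m = 1 := by unfold rg; rw [if_pos hr]
      rw [h1, one_mul] at hkey ⊢
      rw [one_mul]
      exact hkey
    · have h1 : rg z m = 0 := by unfold rg; rw [if_neg hr]
      rw [h1]
      simp
  set T := tb (x ^ 3) z g with hT
  have hTb : ∀ k, |T k| ≤ 3 * L := by
    intro k
    rw [hT]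
    unfold tb
    split_ifs with hk
    · exact f2 z U k hz hk g hgcase
    · rw [abs_zero]; positivity
  have hV1 : 0 < V1 w := Mtm.V1_pos' w
  have hV1L : 1 / V1 w ≤ L := f3 w hw2
  have hsh : ∀ k, |sharp ts w T k| ≤ 3 * L ^ 2 := by
    intro k
    unfold sharp
    rw [abs_div, abs_mul, abs_of_pos hV1, abs_of_nonneg (rg_range w k).1]
    have h1 := Mtm.dens_abs (t := ts) hTb k
    calc |dens ts T k| * rg w k / V1 w = (|dens ts T k| * rg w k) * (1 / V1 w) := by ring
      _ ≤ (3 * L * 1) * L := by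
          apply mul_le_mul _ hV1L (by positivity) (by positivity)
          exact mul_le_mul h1 (rg_range w k).2 (rg_range w k).1 (by positivity)
      _ = _ := by ring
  set B := fun k => T k - sharp ts w T k with hB
  have hBb : ∀ k, |B k| ≤ L ^ 3 := by
    intro k
    calc |T k - sharp ts w T k| ≤ |T k| + |sharp ts w T k| := abs_sub _ _
      _ ≤ 3 * L + 3 * L ^ 2 := add_le_add (hTb k) (hsh k)
      _ ≤ 6 * L ^ 2 := by nlinarith only [hL1]
      _ ≤ L * L ^ 2 := mul_le_mul_of_nonneg_right (by linarith) (by positivity)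
      _ = _ := by ring
  have hxts : 2 ^ ts ≤ x := by
    have : (2 : ℝ) ^ ts ≤ x := htsE.trans f5
    exact_mod_cast this
  have hH : ∀ i v q r : ℕ, x ≤ 2 ^ i → 2 ^ (i + 1) ≤ x ^ 2 → 2 ^ i ≤ v → v ≤ 2 ^ (i + 1) → 1 ≤ q → q ≤ 6 * 10 ^ 7 * 2 ^ (12 * (4 * t)) →
      |∑ k ∈ (Ioc (2 ^ i) v).filter (fun k => k ≡ r [MOD q]), B k| * (2 * (10 ^ 12 * (2 : ℝ) ^ (18 * (4 * t)))) ≤ (2 : ℝ) ^ i := by
    intro i v q r h1 h2 h3 h4 h5 h6
    have h7 : 2 ^ (i + 1) ≤ x ^ 3 := h2.trans (Nat.pow_le_pow_right (by omega) (by norm_num))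
    rw [hB]
    simp only
    rw [hT, sum_tb (hxts.trans h1) h7 h4]
    have hq : (q : ℝ) ≤ L ^ 883 := by
      calc (q : ℝ) ≤ ((6 * 10 ^ 7 * 2 ^ (12 * (4 * t)) : ℕ) : ℝ) := by exact_mod_cast h6
        _ = 6 * 10 ^ 7 * ((2 : ℝ) ^ (4 * t)) ^ 12 := by
            rw [← pow_mul]
            push_cast
            rw [mul_comm (4 * t) 12]
            norm_num
        _ ≤ L * (L ^ 49) ^ 12 := by
            apply mul_le_mul _ (pow_le_pow_left₀ (by positivity) h4t 12) (by positivity) hL0.le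
            refine le_trans ?_ hL13
            norm_num
        _ = L ^ 589 := by ring
        _ ≤ L ^ 883 := pow_le_pow_right₀ hL1 (by norm_num)
    have h8 := hsharp x hxB z U Jw ts i v q r hz hzx hw1 hwE hts1 htsE h1 h7 h5 hq h3 h4 g hgcase
    have hP : 2 * (10 ^ 12 * (2 : ℝ) ^ (18 * (4 * t))) ≤ L ^ 883 := by
      calc 2 * (10 ^ 12 * (2 : ℝ) ^ (18 * (4 * t))) = (2 * 10 ^ 12) * ((2 : ℝ) ^ (4 * t)) ^ 18 := by
            rw [← pow_mul, mul_comm (4 * t) 18]
            ring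
        _ ≤ L * (L ^ 49) ^ 18 := by
            apply mul_le_mul _ (pow_le_pow_left₀ (by positivity) h4t 18) (by positivity) hL0.le
            refine le_trans ?_ hL13
            norm_num
        _ = L ^ 883 := by ring
    calc |_| * (2 * (10 ^ 12 * (2 : ℝ) ^ (18 * (4 * t)))) ≤ ((2 : ℝ) ^ i / L ^ 883) * L ^ 883 :=
          mul_le_mul h8 hP (by positivity) (by positivity)
      _ = _ := by
          rw [div_mul_cancel₀]
          positivity
  obtain ⟨hkU, hI⟩ := hcore x hxA x1 C z U y t B (L ^ 3) hx1 hR hC1 hC2 hz hU hy hLt h4t (one_le_pow₀ hL1) hBb hH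
  -- the main identity
  set Lm : ℕ → ℝ := fun m => ∑ k ∈ (Icc 1 (Fn a b x)).filter (fun k => Fn a b x1 < m * k ∧ m * k ≤ Fn a b x), T k * hw a (m * k) with hLm
  have hLs : Ls a b x1 x (fun N => rg z N * ∑ j ∈ N.divisors.filter (fun j => U < j ∧ j ≤ y), f j * g (N / j)) =
      ∑ m ∈ Ioc U y, (rg z m * f m) * Lm m := Ls_conv hF3 f g
  set Sc : ℕ → ℝ := fun c => Vc a b c w / V1 w with hSc
  have hSc0 : ∀ c, 0 ≤ Sc c ∧ Sc c ≤ L := by
    intro c
    obtain ⟨h1, h2⟩ := Mtm.Vc_bd a b c w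
    refine ⟨div_nonneg h1 hV1.le, ?_⟩
    calc Sc c = Vc a b c w * (1 / V1 w) := by rw [hSc]; ring
      _ ≤ 1 * L := mul_le_mul h2 hV1L (by positivity) (by norm_num)
      _ = L := one_mul _
  have hpoint : ∀ c ∈ Icc 1 C, |Lc a b x1 x c (fun N => rg z N * ∑ j ∈ N.divisors.filter (fun j => U < j ∧ j ≤ y), f j * g (N / j)) -
      Sc c * Ls a b x1 x (fun N => rg z N * ∑ j ∈ N.divisors.filter (fun j => U < j ∧ j ≤ y), f j * g (N / j))| ≤
      3 * L * ∑ m ∈ Ioc U y, rg z m * |∑ n ∈ (Ioc x1 x).filter (fun n => m ∣ Fn a b n + c), B ((Fn a b n + c) / m)| +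
      ∑ m ∈ Ioc U y, 3 * L * ((rho a b (c : ℕ) m : ℝ) * (x / (m * L ^ 4))) +
      L * |∑ m ∈ Ioc U y, ((rg z m * f m) * Lm m) * ((rho a b (c : ℕ) m : ℝ) - 1)| := by
    intro c hc
    have hc' := mem_Icc.1 hc
    rw [hLs, Lc_conv (X := x ^ 3) ha (by omega) hc'.1 f g (fun m hm n hn hd =>
      (hkU c hc m hm n hn hd).trans (Nat.pow_le_pow_right (by omega) (by norm_num)))]
    have hid : ∑ m ∈ Ioc U y, (rg z m * f m) * ∑ n ∈ (Ioc x1 x).filter (fun n => m ∣ Fn a b n + c), T ((Fn a b n + c) / m) -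
        Sc c * ∑ m ∈ Ioc U y, (rg z m * f m) * Lm m =
        ∑ m ∈ Ioc U y, (rg z m * f m) * ∑ n ∈ (Ioc x1 x).filter (fun n => m ∣ Fn a b n + c), B ((Fn a b n + c) / m) +
        ∑ m ∈ Ioc U y, (rg z m * f m) * (∑ n ∈ (Ioc x1 x).filter (fun n => m ∣ Fn a b n + c), sharp ts w T ((Fn a b n + c) / m) -
          Sc c * rho a b (c : ℕ) m * Lm m) +
        Sc c * ∑ m ∈ Ioc U y, ((rg z m * f m) * Lm m) * ((rho a b (c : ℕ) m : ℝ) - 1) := by
      rw [mul_sum, mul_sum, ← sum_sub_distrib, ← sum_add_distrib, ← sum_add_distrib]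
      apply sum_congr rfl
      intro m _
      have : ∑ n ∈ (Ioc x1 x).filter (fun n => m ∣ Fn a b n + c), B ((Fn a b n + c) / m) =
          ∑ n ∈ (Ioc x1 x).filter (fun n => m ∣ Fn a b n + c), T ((Fn a b n + c) / m) -
          ∑ n ∈ (Ioc x1 x).filter (fun n => m ∣ Fn a b n + c), sharp ts w T ((Fn a b n + c) / m) := by
        rw [← sum_sub_distrib]
      rw [this]
      ring
    rw [hid]
    refine (abs_add_le _ _).trans (add_le_add ((abs_add_le _ _).trans (add_le_add ?_ ?_)) ?_)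
    · refine (abs_sum_le_sum_abs _ _).trans ?_
      rw [mul_sum]
      apply sum_le_sum
      intro m hm
      rw [abs_mul]
      calc |rg z m * f m| * |_| ≤ (rg z m * (3 * L)) * |∑ n ∈ (Ioc x1 x).filter (fun n => m ∣ Fn a b n + c), B ((Fn a b n + c) / m)| :=
            mul_le_mul_of_nonneg_right (hα m hm) (abs_nonneg _)
        _ = _ := by ring
    · refine (abs_sum_le_sum_abs _ _).trans ?_
      apply sum_le_sum
      intro m hm
      rw [abs_mul]
      have hm' := mem_Ioc.1 hm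
      by_cases hr : Rough z m
      · have hrw : Rough w m := by
          refine ⟨hr.1, fun p hp hpd => lt_of_le_of_lt ?_ (hr.2 p hp hpd)⟩
          have : ((w : ℕ) : ℝ) ≤ z := hwE.trans (f4.trans hz)
          exact_mod_cast this
        have hmt := hmain x hxC x1 c m Jw ts hx1 hR hc'.1 (hc'.2.trans hC2) (by omega) (by
            refine le_trans ?_ hy
            exact_mod_cast hm'.2) hrw hwE (by
            calc L ^ (4 + 2 + 5) ≤ L ^ 888 := pow_le_pow_right₀ hL1 (by norm_num)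
              _ ≤ _ := hts1) htsE T (by
            intro k
            calc |T k| ≤ 3 * L := hTb k
              _ ≤ L * L := mul_le_mul_of_nonneg_right (by linarith) hL0.le
              _ = L ^ 2 := by ring)
        have hfil : (Ioc x1 x).filter (fun n : ℕ => (m : ℤ) ∣ fv a b c n) = (Ioc x1 x).filter (fun n => m ∣ Fn a b n + c) := by
          apply filter_congr
          intro n hn
          rw [mem_Ioc] at hn
          rw [Mtm.fv_eq ha (by omega), Int.natCast_dvd_natCast]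
        rw [hfil] at hmt
        have hsum : ∑ n ∈ (Ioc x1 x).filter (fun n => m ∣ Fn a b n + c), sharp ts w T ((fv a b c n).toNat / m) =
            ∑ n ∈ (Ioc x1 x).filter (fun n => m ∣ Fn a b n + c), sharp ts w T ((Fn a b n + c) / m) := by
          apply sum_congr rfl
          intro n hn
          rw [mem_filter, mem_Ioc] at hn
          rw [Mtm.fv_eq ha (by omega), Int.toNat_natCast]
        rw [hsum] at hmt
        have h3L : |rg z m * f m| ≤ 3 * L := by
          refine (hα m hm).trans ?_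
          exact mul_le_of_le_one_left (by positivity) (rg_range z m).2
        exact mul_le_mul h3L hmt (abs_nonneg _) (by positivity)
      · have h1 : rg z m = 0 := by unfold rg; rw [if_neg hr]
        rw [h1, zero_mul, abs_zero, zero_mul]
        positivity
    · rw [abs_mul, abs_of_nonneg (hSc0 c).1]
      exact mul_le_mul_of_nonneg_right (hSc0 c).2 (abs_nonneg _)
  refine (sum_le_sum hpoint).trans ?_
  rw [sum_add_distrib, sum_add_distrib, ← mul_sum, ← mul_sum]
  have hpartI : 3 * L * ∑ c ∈ Icc 1 C, ∑ m ∈ Ioc U y, rg z m * |∑ n ∈ (Ioc x1 x).filter (fun n => m ∣ Fn a b n + c), B ((Fn a b n + c) / m)| ≤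
      C * x * (3 / L ^ 2) := by
    calc 3 * L * _ ≤ 3 * L * (L ^ 3 * (C * x) * L ^ 6 / 2 ^ t) := mul_le_mul_of_nonneg_left hI (by positivity)
      _ ≤ 3 * L * (L ^ 3 * (C * x) * L ^ 6 / L ^ 12) := by
          apply mul_le_mul_of_nonneg_left _ (by positivity)
          apply div_le_div_of_nonneg_left (by positivity) (by positivity) ht1
      _ = _ := by
          field_simp
  have hpartII : ∑ c ∈ Icc 1 C, ∑ m ∈ Ioc U y, 3 * L * ((rho a b (c : ℕ) m : ℝ) * (x / (m * L ^ 4))) ≤ C * x * (12 / L ^ 2) := by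
    rw [sum_comm]
    have h1 : ∀ m ∈ Ioc U y, ∑ c ∈ Icc 1 C, 3 * L * ((rho a b (c : ℕ) m : ℝ) * (x / (m * L ^ 4))) ≤
        (6 * C * x / L ^ 3) * (1 / m) := by
      intro m hm
      have hm' := mem_Ioc.1 hm
      have hmpos : (0 : ℝ) < m := by
        have : 0 < m := by omega
        exact_mod_cast this
      have h2 := rho_sum_c a b (C := C) (m := m) (by omega) (hyC m hm)
      have h3 : ∑ c ∈ Icc 1 C, 3 * L * ((rho a b (c : ℕ) m : ℝ) * (x / (m * L ^ 4))) =
          (3 * L * (x / (m * L ^ 4))) * ∑ c ∈ Icc 1 C, (rho a b (c : ℕ) m : ℝ) := by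
        rw [mul_sum]
        apply sum_congr rfl
        intro c _
        ring
      rw [h3]
      calc (3 * L * (x / (m * L ^ 4))) * ∑ c ∈ Icc 1 C, (rho a b (c : ℕ) m : ℝ) ≤ (3 * L * (x / (m * L ^ 4))) * (2 * C) :=
            mul_le_mul_of_nonneg_left h2 (by positivity)
        _ = _ := by
            field_simp
            ring
    refine (sum_le_sum h1).trans ?_
    rw [← mul_sum]
    have h2 := harm_le hyx U
    calc (6 * C * x / L ^ 3) * ∑ m ∈ Ioc U y, (1 : ℝ) / m ≤ (6 * C * x / L ^ 3) * (2 * L) := by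
          apply mul_le_mul_of_nonneg_left _ (by positivity)
          linarith
      _ = _ := by
          field_simp
          ring
  have hpartIII : L * ∑ c ∈ Icc 1 C, |∑ m ∈ Ioc U y, ((rg z m * f m) * Lm m) * ((rho a b (c : ℕ) m : ℝ) - 1)| ≤ C * x * (1 / L ^ 2) := by
    have h1 := hrho x hxD C z U y (fun m => (rg z m * f m) * Lm m) hC1 hC2 hz hy (by
      intro m hm
      have hm' := mem_Ioc.1 hm
      rw [abs_mul]
      have h2 := Lm_le (a := a) (b := b) (x1 := x1) (x := x) ha (by omega : 1 ≤ m) T (by positivity : 0 ≤ 3 * L) hTb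
      have h3 : √((Fn a b x : ℕ) : ℝ) ≤ √(2 * a) * x := by
        have h4 : √((Fn a b x : ℕ) : ℝ) ≤ √(2 * a * x ^ 2) := Real.sqrt_le_sqrt hFx2
        rwa [Real.sqrt_mul (by linarith), Real.sqrt_sq hxpos.le] at h4
      calc |rg z m * f m| * |Lm m| ≤ (rg z m * (3 * L)) * (3 * L * (√((Fn a b x : ℕ) : ℝ) / m)) :=
            mul_le_mul (hα m hm) h2 (abs_nonneg _) (mul_nonneg (rg_range z m).1 (by positivity))
        _ ≤ (rg z m * (3 * L)) * (3 * L * (√(2 * a) * x / m)) := by
            apply mul_le_mul_of_nonneg_left _ (mul_nonneg (rg_range z m).1 (by positivity))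
            apply mul_le_mul_of_nonneg_left _ (by positivity)
            exact div_le_div_of_nonneg_right h3 (Nat.cast_nonneg _)
        _ = _ := by ring)
    calc L * _ ≤ L * (C * x / L ^ 3) := mul_le_mul_of_nonneg_left h1 hL0.le
      _ = _ := by field_simp
  have hfin : (C : ℝ) * x * (3 / L ^ 2) + C * x * (12 / L ^ 2) + C * x * (1 / L ^ 2) ≤ C * x / L := by
    have e : (C : ℝ) * x * (3 / L ^ 2) + C * x * (12 / L ^ 2) + C * x * (1 / L ^ 2) = (C * x / L) * (16 / L) := by
      field_simp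
      ring
    rw [e]
    have h16 : 16 / L ≤ 1 := by
      rw [div_le_one hL0]
      linarith
    exact mul_le_of_le_one_right (by positivity) h16
  linarith

end Pool.Agent.N792
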