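import Mathlib
import Pool.Agent.N792.TG

/-!
The asymptotic form of the type II estimate for one cell: the numerical part (helper792).
-/

set_option autoImplicit false

namespace Pool.Agent.N792

open Finset

/-- the basic sizes: `s = √x`, `y` a small power of `x`, `g = 2^t` a power of `log x` -/
structure Rz (a : ℤ) (c0 s y L g C K M E : ℝ) : Prop where
  s1 : 1 ≤ s
  y1 : 1 ≤ y
  L1 : 200 ≤ L
  g1 : 1 ≤ g
  a1 : (1 : ℝ) ≤ a
  c1 : 0 ≤ c0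
  C1 : 1 ≤ C
  K1 : 1 ≤ K
  M1 : 1 ≤ M
  E1 : 1 ≤ E
  hC : K ^ 2 * y ^ 24 ≤ C ^ 3
  hC2 : C ≤ s ^ 2
  hK : s ^ 2 * y ^ 24 ≤ K
  hMK : M * K ≤ s ^ 4 * L
  hMK2 : s ^ 4 ≤ M * K * L
  hE : E ^ 2 * M ≤ 3 * K
  hy : 10 ^ 10 * (a + 1) * (c0 + 1) * g ^ 12 * L ^ 2 ≤ y

namespace Rz

variable {a : ℤ} {c0 s y L g C K M E : ℝ}

lemma y0 (h : Rz a c0 s y L g C K M E) : 0 < y := by linarith [h.y1]
lemma s0 (h : Rz a c0 s y L g C K M E) : 0 < s := by linarith [h.s1]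
lemma C0 (h : Rz a c0 s y L g C K M E) : 0 < C := by linarith [h.C1]
lemma K0 (h : Rz a c0 s y L g C K M E) : 0 < K := by linarith [h.K1]
lemma L0 (h : Rz a c0 s y L g C K M E) : 0 < L := by linarith [h.L1]
lemma g0 (h : Rz a c0 s y L g C K M E) : 0 < g := by linarith [h.g1]

/-- the consequences of `hy` -/
lemma yle (h : Rz a c0 s y L g C K M E) {u : ℝ} (hu : u ≤ 10 ^ 10 * ((a : ℝ) + 1) * (c0 + 1) * g ^ 12 * L ^ 2) : u ≤ y :=
  hu.trans h.hy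

lemma g12 (h : Rz a c0 s y L g C K M E) : 1 ≤ g ^ 12 := one_le_pow₀ h.g1

lemma big (h : Rz a c0 s y L g C K M E) : 10 ^ 10 * g ^ 12 * L ^ 2 ≤ y := by
  apply h.yle
  have h1 := h.a1
  have h2 := h.c1
  have h3 : (1 : ℝ) ≤ ((a : ℝ) + 1) * (c0 + 1) := by nlinarith
  have h4 : 0 ≤ (10 : ℝ) ^ 10 * g ^ 12 * L ^ 2 := by
    have := h.g0.le; positivity
  calc (10 : ℝ) ^ 10 * g ^ 12 * L ^ 2 = 1 * (10 ^ 10 * g ^ 12 * L ^ 2) := by ring
    _ ≤ (((a : ℝ) + 1) * (c0 + 1)) * (10 ^ 10 * g ^ 12 * L ^ 2) := mul_le_mul_of_nonneg_right h3 h4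
    _ = _ := by ring

lemma biga (h : Rz a c0 s y L g C K M E) : 10 ^ 10 * a * g ^ 12 * L ^ 2 ≤ y := by
  apply h.yle
  have h1 := h.a1
  have h2 := h.c1
  have h3 : (a : ℝ) ≤ ((a : ℝ) + 1) * (c0 + 1) := by nlinarith
  have h4 : 0 ≤ (10 : ℝ) ^ 10 * g ^ 12 * L ^ 2 := by
    have := h.g0.le; positivity
  calc (10 : ℝ) ^ 10 * a * g ^ 12 * L ^ 2 = a * (10 ^ 10 * g ^ 12 * L ^ 2) := by ring
    _ ≤ (((a : ℝ) + 1) * (c0 + 1)) * (10 ^ 10 * g ^ 12 * L ^ 2) := mul_le_mul_of_nonneg_right h3 h4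
    _ = _ := by ring

lemma bigc (h : Rz a c0 s y L g C K M E) : 10 ^ 10 * c0 * g ^ 12 * L ^ 2 ≤ y := by
  apply h.yle
  have h1 := h.a1
  have h2 := h.c1
  have h3 : c0 ≤ ((a : ℝ) + 1) * (c0 + 1) := by nlinarith
  have h4 : 0 ≤ (10 : ℝ) ^ 10 * g ^ 12 * L ^ 2 := by
    have := h.g0.le; positivity
  calc (10 : ℝ) ^ 10 * c0 * g ^ 12 * L ^ 2 = c0 * (10 ^ 10 * g ^ 12 * L ^ 2) := by ring
    _ ≤ (((a : ℝ) + 1) * (c0 + 1)) * (10 ^ 10 * g ^ 12 * L ^ 2) := mul_le_mul_of_nonneg_right h3 h4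
    _ = _ := by ring

/-- `K ≤ s³ / y^12` -/
lemma Kle (h : Rz a c0 s y L g C K M E) : K * y ^ 12 ≤ s ^ 3 := by
  have hK := h.K0
  have hy := h.y0
  have hs := h.s0
  have h1 : (K * y ^ 12) ^ 2 ≤ (s ^ 3) ^ 2 := by
    calc (K * y ^ 12) ^ 2 = K ^ 2 * y ^ 24 := by ring
      _ ≤ C ^ 3 := h.hC
      _ ≤ (s ^ 2) ^ 3 := pow_le_pow_left₀ h.C0.le h.hC2 3
      _ = _ := by ring
  exact abs_le_of_sq_le_sq' h1 (by positivity) |>.2

/-- `y^24 ≤ C` -/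
lemma y24C (h : Rz a c0 s y L g C K M E) : y ^ 24 ≤ C := by
  have hK := h.K0
  have hy := h.y0
  have hs := h.s1
  have h1 : (y ^ 24) ^ 3 ≤ C ^ 3 := by
    calc (y ^ 24) ^ 3 = 1 * (y ^ 24) ^ 2 * y ^ 24 := by ring
      _ ≤ (s ^ 2) ^ 2 * (y ^ 24) ^ 2 * y ^ 24 := by
          have : (1 : ℝ) ≤ (s ^ 2) ^ 2 := one_le_pow₀ (one_le_pow₀ hs)
          gcongr
      _ = (s ^ 2 * y ^ 24) ^ 2 * y ^ 24 := by ring
      _ ≤ K ^ 2 * y ^ 24 := by
          have := h.hK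
          gcongr
      _ ≤ C ^ 3 := h.hC
  exact le_of_pow_le_pow_left₀ (by norm_num) h.C0.le h1

/-- `(E y^12)² ≤ 3 L s²` and `≤ 3 L C` -/
lemma Esq (h : Rz a c0 s y L g C K M E) : (E * y ^ 12) ^ 2 ≤ 3 * L * C := by
  have h1 : E ^ 2 * s ^ 4 ≤ 3 * L * K ^ 2 := by
    have := h.hMK2
    have hE := h.hE
    have hE0 : 0 ≤ E ^ 2 := sq_nonneg _
    have hK := h.K0
    have hL := h.L0
    calc E ^ 2 * s ^ 4 ≤ E ^ 2 * (M * K * L) := mul_le_mul_of_nonneg_left this hE0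
      _ = (E ^ 2 * M) * (K * L) := by ring
      _ ≤ (3 * K) * (K * L) := mul_le_mul_of_nonneg_right hE (by positivity)
      _ = _ := by ring
  have h3 : (E * y ^ 12) ^ 2 * s ^ 4 ≤ (3 * L * C) * s ^ 4 := by
    have hL := h.L0
    have hy := h.y0
    have hC := h.C0
    have hC2 := h.hC2
    calc (E * y ^ 12) ^ 2 * s ^ 4 = (E ^ 2 * s ^ 4) * y ^ 24 := by ring
      _ ≤ (3 * L * K ^ 2) * y ^ 24 := mul_le_mul_of_nonneg_right h1 (by positivity)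
      _ = 3 * L * (K ^ 2 * y ^ 24) := by ring
      _ ≤ 3 * L * C ^ 3 := mul_le_mul_of_nonneg_left h.hC (by positivity)
      _ = (3 * L * C) * C ^ 2 := by ring
      _ ≤ (3 * L * C) * (s ^ 2) ^ 2 := by gcongr
      _ = _ := by ring
  exact le_of_mul_le_mul_right h3 (pow_pos h.s0 4)

lemma Ly3 (h : Rz a c0 s y L g C K M E) : 3 * L ≤ y ^ 2 := by
  have h6 := h.big
  have h7 := h.g12
  have hL := h.L1
  have h8 : 3 * L ≤ y := by nlinarith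
  have h9 := h.y1
  nlinarith

/-- `E ≤ √C / y^11` -/
lemma Esc (h : Rz a c0 s y L g C K M E) : E * y ^ 11 ≤ √C := by
  have hy := h.y0
  have hC := h.C0
  have h1 : (E * y ^ 12) ^ 2 ≤ (y * √C) ^ 2 := by
    rw [mul_pow y, Real.sq_sqrt hC.le]
    exact h.Esq.trans (mul_le_mul_of_nonneg_right h.Ly3 hC.le)
  have h2 : E * y ^ 12 ≤ y * √C := abs_le_of_sq_le_sq' h1 (by positivity) |>.2
  have h3 : y * (E * y ^ 11) ≤ y * √C := by
    calc y * (E * y ^ 11) = E * y ^ 12 := by ring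
      _ ≤ _ := h2
  exact le_of_mul_le_mul_left h3 hy

lemma sqC2 (h : Rz a c0 s y L g C K M E) : √C ≤ s := by
  rw [Real.sqrt_le_left h.s0.le]
  exact h.hC2

/-- `E ≤ s / y^11` -/
lemma Ele (h : Rz a c0 s y L g C K M E) : E * y ^ 11 ≤ s := h.Esc.trans h.sqC2

/-- `K² / √C ≤ K C / y^12` -/
lemma KC (h : Rz a c0 s y L g C K M E) : K ^ 2 / √C * y ^ 12 ≤ K * C := by
  have hC := Real.sqrt_pos.2 h.C0
  have hy := h.y0
  have hK := h.K0
  have hs := h.s0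
  rw [div_mul_eq_mul_div, div_le_iff₀ hC]
  have h1 : K * y ^ 12 ≤ C * √C := by
    have h2 : (K * y ^ 12) ^ 2 ≤ (C * √C) ^ 2 := by
      rw [mul_pow C, Real.sq_sqrt h.C0.le]
      calc (K * y ^ 12) ^ 2 = K ^ 2 * y ^ 24 := by ring
        _ ≤ C ^ 3 := h.hC
        _ = _ := by ring
    have := h.C0
    exact abs_le_of_sq_le_sq' h2 (by positivity) |>.2
  calc K ^ 2 * y ^ 12 = K * (K * y ^ 12) := by ring
    _ ≤ K * (C * √C) := mul_le_mul_of_nonneg_left h1 hK.le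
    _ = _ := by ring

/-- `E √C ≤ C / y^11` -/
lemma EC (h : Rz a c0 s y L g C K M E) : E * √C * y ^ 11 ≤ C := by
  have hC := Real.sqrt_nonneg C
  calc E * √C * y ^ 11 = (E * y ^ 11) * √C := by ring
    _ ≤ √C * √C := mul_le_mul_of_nonneg_right h.Esc hC
    _ = C := Real.mul_self_sqrt h.C0.le

/-- the sums of the large sieve type -/
lemma big_sum (h : Rz a c0 s y L g C K M E) :
    (K * √K) * (2 * L / √(C / K) + E * √(C / K)) ≤ C * K / (10 ^ 5 * (c0 + 1) * g ^ 3) := by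
  have hC := Real.sqrt_pos.2 h.C0
  have hKs := Real.sqrt_pos.2 h.K0
  have hy := h.y0
  have hK := h.K0
  have hs := h.s0
  have hC0 := h.C0
  have hL := h.L0
  have hg := h.g0
  have h1 : √(C / K) = √C / √K := Real.sqrt_div h.C0.le K
  have h2 : √K * √K = K := Real.mul_self_sqrt hK.le
  have h3 : (K * √K) * (2 * L / √(C / K) + E * √(C / K)) = 2 * L * (K ^ 2 / √C) + K * (E * √C) := by
    rw [h1]
    field_simp
    rw [show √K ^ 2 = K by rw [sq, h2]]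
  rw [h3]
  have h4 : K ^ 2 / √C ≤ K * C / y ^ 12 := by
    rw [le_div_iff₀ (by positivity)]
    exact h.KC
  have h5 : E * √C ≤ C / y ^ 11 := by
    rw [le_div_iff₀ (by positivity)]
    exact h.EC
  have h6 : 2 * L * (K * C / y ^ 12) ≤ C * K / (2 * (10 ^ 5 * (c0 + 1) * g ^ 3)) := by
    have hc := h.c1
    rw [← mul_div_assoc, div_le_div_iff₀ (by positivity) (by positivity)]
    have h7 : 2 * L * (2 * (10 ^ 5 * (c0 + 1) * g ^ 3)) ≤ y ^ 12 := by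
      have h8 : 2 * L * (2 * (10 ^ 5 * (c0 + 1) * g ^ 3)) ≤ 10 ^ 10 * ((a : ℝ) + 1) * (c0 + 1) * g ^ 12 * L ^ 2 := by
        have h9 : g ^ 3 ≤ g ^ 12 := pow_le_pow_right₀ h.g1 (by norm_num)
        have h10 : 1 ≤ L := by linarith [h.L1]
        have ha := h.a1
        calc 2 * L * (2 * (10 ^ 5 * (c0 + 1) * g ^ 3)) = (4 * 10 ^ 5) * 1 * (c0 + 1) * g ^ 3 * (L * 1) := by ring
          _ ≤ 10 ^ 10 * ((a : ℝ) + 1) * (c0 + 1) * g ^ 12 * (L * L) := by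
              gcongr
              · norm_num
              · linarith
          _ = _ := by ring
      refine (h.yle h8).trans ?_
      exact le_self_pow₀ h.y1 (by norm_num)
    calc 2 * L * (K * C) * (2 * (10 ^ 5 * (c0 + 1) * g ^ 3)) = (K * C) * (2 * L * (2 * (10 ^ 5 * (c0 + 1) * g ^ 3))) := by ring
      _ ≤ (K * C) * y ^ 12 := mul_le_mul_of_nonneg_left h7 (by positivity)
      _ = _ := by ring
  have h7 : K * (C / y ^ 11) ≤ C * K / (2 * (10 ^ 5 * (c0 + 1) * g ^ 3)) := by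
    have hc := h.c1
    rw [← mul_div_assoc, div_le_div_iff₀ (by positivity) (by positivity)]
    have h7 : 2 * (10 ^ 5 * (c0 + 1) * g ^ 3) ≤ y ^ 11 := by
      have h8 : 2 * (10 ^ 5 * (c0 + 1) * g ^ 3) ≤ 10 ^ 10 * ((a : ℝ) + 1) * (c0 + 1) * g ^ 12 * L ^ 2 := by
        have h9 : g ^ 3 ≤ g ^ 12 := pow_le_pow_right₀ h.g1 (by norm_num)
        have h10 : 1 ≤ L ^ 2 := one_le_pow₀ (by linarith [h.L1])
        have ha := h.a1
        calc 2 * (10 ^ 5 * (c0 + 1) * g ^ 3) = (2 * 10 ^ 5) * 1 * (c0 + 1) * g ^ 3 * 1 := by ring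
          _ ≤ 10 ^ 10 * ((a : ℝ) + 1) * (c0 + 1) * g ^ 12 * L ^ 2 := by
              gcongr
              · norm_num
              · linarith
          _ = _ := by ring
      refine (h.yle h8).trans ?_
      exact le_self_pow₀ h.y1 (by norm_num)
    calc K * C * (2 * (10 ^ 5 * (c0 + 1) * g ^ 3)) ≤ K * C * y ^ 11 := mul_le_mul_of_nonneg_left h7 (by positivity)
      _ = _ := by ring
  calc 2 * L * (K ^ 2 / √C) + K * (E * √C) ≤ 2 * L * (K * C / y ^ 12) + K * (C / y ^ 11) := by gcongr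
    _ ≤ C * K / (2 * (10 ^ 5 * (c0 + 1) * g ^ 3)) + C * K / (2 * (10 ^ 5 * (c0 + 1) * g ^ 3)) := add_le_add h6 h7
    _ = _ := by
        have hc := h.c1
        field_simp
        norm_num

end Rz

end Pool.Agent.N792
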