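import Mathlib
import Pool.Agent.N792.TJ4

/-!
The asymptotic form of the type II estimate for one cell: assembly (helper792).
-/

set_option autoImplicit false

namespace Pool.Agent.N792

open Finset

namespace Ry

variable {a b : ℤ} {c0 s y L g C K M E : ℝ}

lemma C8 (h : Ry a b c0 s y L g C K M E) : 8 * C ≤ K := by
  have h1 := h.hC2
  have h2 := h.hK
  have h3 : (8 : ℝ) ≤ y ^ 24 := by
    have h4 : y ≤ y ^ 24 := le_self_pow₀ h.y1 (by norm_num)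
    have h5 := h.gy
    have h6 := h.g1
    linarith
  calc 8 * C ≤ 8 * s ^ 2 := by linarith
    _ ≤ y ^ 24 * s ^ 2 := mul_le_mul_of_nonneg_right h3 (sq_nonneg _)
    _ = s ^ 2 * y ^ 24 := by ring
    _ ≤ K := h2

lemma b2 (h : Ry a b c0 s y L g C K M E) : (b : ℝ) ^ 2 ≤ 2 * a * C := by
  have h1 := h.hb
  have h2 := h.yC
  have h3 := h.a1
  have h4 := h.C0
  nlinarith

lemma babs (h : Ry a b c0 s y L g C K M E) : |(b : ℝ)| ≤ y := by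
  have h2 : (b : ℝ) ^ 2 ≤ y := h.hb
  have h3 : |(b : ℝ)| ≤ (b : ℝ) ^ 2 := by
    rcases eq_or_ne b 0 with hb0 | hb0
    · rw [hb0]; simp
    · have h4 : 1 ≤ |b| := Int.one_le_abs hb0
      have h5 : (1 : ℝ) ≤ |(b : ℝ)| := by exact_mod_cast h4
      rw [← sq_abs]
      nlinarith
  linarith

lemma s10 (h : Ry a b c0 s y L g C K M E) : 10 ^ 10 ≤ y := by
  have h1 := h.gy
  have h2 := h.g1
  linarith

lemma Ls (h : Ry a b c0 s y L g C K M E) : L ≤ s := by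
  have h1 := h.Ly
  have h2 := h.L1
  have h3 := h.yl
  nlinarith

lemma MKbig (h : Ry a b c0 s y L g C K M E) : s ^ 3 ≤ M * K := by
  have hM : 0 ≤ M := by linarith [h.M1]
  have hK := h.K0
  have h1 : s ^ 3 * s ≤ (M * K) * s := by
    calc s ^ 3 * s = s ^ 4 := by ring
      _ ≤ M * K * L := h.hMK2
      _ ≤ M * K * s := mul_le_mul_of_nonneg_left h.Ls (by positivity)
  exact le_of_mul_le_mul_right h1 h.s0

lemma a4 (h : Ry a b c0 s y L g C K M E) : 100 * (a : ℝ) ≤ y := by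
  have h1 := h.ay
  have h2 := h.g1
  have h3 : (1 : ℝ) ≤ L ^ 2 := one_le_pow₀ (by linarith [h.L1])
  have h4 := h.a1
  have h5 : 10 ^ 10 * (a : ℝ) * 1 * 1 ≤ 10 ^ 10 * (a : ℝ) * g * L ^ 2 := by
    have : 0 ≤ g := by linarith
    gcongr
  linarith

lemma aE (h : Ry a b c0 s y L g C K M E) : 4 * (a : ℝ) * E ≤ s ^ 2 := by
  have h1 := h.a4
  have h2 := h.Es
  have h3 := h.yl
  have hs := h.s0
  have ha := h.a1
  have hE := h.E1
  calc 4 * (a : ℝ) * E ≤ s * s := by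
        apply mul_le_mul _ h2 (by linarith) hs.le
        linarith
    _ = s ^ 2 := by ring

lemma s2K (h : Ry a b c0 s y L g C K M E) : s ^ 2 ≤ K := by
  refine le_trans ?_ h.hK
  have h2 : s ^ 2 * 1 ≤ s ^ 2 * y ^ 24 := mul_le_mul_of_nonneg_left (one_le_pow₀ h.y1) (sq_nonneg _)
  linarith

lemma lE (h : Ry a b c0 s y L g C K M E) : 1 + Real.log E ≤ 2 * L := by
  have h1 := Real.log_le_log (by linarith [h.E1]) h.Es
  have h2 := h.hLs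
  have h3 := h.L1
  linarith

lemma lq (h : Ry a b c0 s y L g C K M E) : 1 + Real.log (4 * a * E) ≤ 3 * L := by
  have h0 : (1 : ℝ) ≤ 4 * a * E := by
    have := h.a1
    have := h.E1
    nlinarith
  have h1 := Real.log_le_log (by linarith) h.aE
  rw [Real.log_pow] at h1
  push_cast at h1
  have h2 := h.hLs
  have h3 := h.L1
  linarith

/-- lower bound for `E` -/
lemma Elow (h : Ry a b c0 s y L g C K M E) (hE2 : K ≤ M / 2 * (E + 1) ^ 2) : y ^ 23 ≤ 2 * E := by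
  have hM : 0 < M := by linarith [h.M1]
  have hK := h.K0
  have hL := h.L0
  have hy := h.y0
  have hs := h.s0
  have hE := h.E1
  have h3 : M * y ^ 48 ≤ K * L := by
    have e1 : (M * y ^ 48) * (s ^ 2 * y ^ 24) ≤ (K * L) * (s ^ 2 * y ^ 24) := by
      have e2 := h.hMK
      have e3 := h.hK
      calc (M * y ^ 48) * (s ^ 2 * y ^ 24) ≤ (M * y ^ 48) * K := mul_le_mul_of_nonneg_left e3 (by positivity)
        _ = (M * K) * y ^ 48 := by ring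
        _ ≤ (s ^ 4 * L) * y ^ 48 := mul_le_mul_of_nonneg_right e2 (by positivity)
        _ = ((s ^ 2 * y ^ 24) * L) * (s ^ 2 * y ^ 24) := by ring
        _ ≤ (K * L) * (s ^ 2 * y ^ 24) := by gcongr
    exact le_of_mul_le_mul_right e1 (by positivity)
  have h4 : y ^ 48 ≤ L * (E + 1) ^ 2 := by
    have e1 : M * y ^ 48 ≤ M * (L * (E + 1) ^ 2) := by
      calc M * y ^ 48 ≤ K * L := h3
        _ ≤ (M / 2 * (E + 1) ^ 2) * L := mul_le_mul_of_nonneg_right hE2 hL.le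
        _ = M * (L * (E + 1) ^ 2) / 2 := by ring
        _ ≤ M * (L * (E + 1) ^ 2) := half_le_self (by positivity)
    exact le_of_mul_le_mul_left e1 hM
  have h5 : y ^ 46 ≤ (2 * E) ^ 2 := by
    have e1 : y ^ 46 * y ^ 2 ≤ (2 * E) ^ 2 * y ^ 2 := by
      calc y ^ 46 * y ^ 2 = y ^ 48 := by ring
        _ ≤ L * (E + 1) ^ 2 := h4
        _ ≤ y ^ 2 * (2 * E) ^ 2 := by
            have f1 : L ≤ y ^ 2 := by
              have g1 := h.Ly
              have g2 := h.L1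
              have g3 : y ≤ y ^ 2 := le_self_pow₀ h.y1 (by norm_num)
              have g4 : L ≤ L ^ 2 := le_self_pow₀ (by linarith) (by norm_num)
              linarith
            have f2 : (E + 1) ^ 2 ≤ (2 * E) ^ 2 := pow_le_pow_left₀ (by linarith) (by linarith) 2
            exact mul_le_mul f1 f2 (by positivity) (by positivity)
        _ = _ := by ring
    exact le_of_mul_le_mul_right e1 (by positivity)
  have e1 : (y ^ 23) ^ 2 ≤ (2 * E) ^ 2 := by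
    calc (y ^ 23) ^ 2 = y ^ 46 := by ring
      _ ≤ _ := h5
  exact abs_le_of_sq_le_sq' e1 (by positivity) |>.2

lemma Qlow (h : Ry a b c0 s y L g C K M E) (hE2 : K ≤ M / 2 * (E + 1) ^ 2) : 6 * 10 ^ 7 * g ^ 12 ≤ 4 * a * E := by
  have h6 := h.Elow hE2
  have h7 : 6 * 10 ^ 7 * g ^ 12 ≤ y := by
    refine le_trans ?_ h.big
    have e2 : (1 : ℝ) ≤ L ^ 2 := one_le_pow₀ (by linarith [h.L1])
    have e3 : 0 < g ^ 12 := pow_pos h.g0 12
    have e4 : 10 ^ 10 * g ^ 12 * 1 ≤ 10 ^ 10 * g ^ 12 * L ^ 2 := mul_le_mul_of_nonneg_left e2 (by positivity)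
    linarith
  have h8 : y ≤ y ^ 23 := le_self_pow₀ h.y1 (by norm_num)
  have h9 := h.a1
  have h10 := h.E1
  have h11 : 4 * 1 * E ≤ 4 * a * E := by gcongr
  linarith

lemma h5 (h : Ry a b c0 s y L g C K M E) {m1 : ℝ} (hm1 : M / 3 ≤ m1) :
    (a : ℝ) * (2 * |(b : ℝ)| + |(b : ℝ)| + E) ^ 2 ≤ m1 * K := by
  have hb := h.babs
  have hyl := h.yl
  have hE := h.Es
  have hK := h.K0
  have hs := h.s0
  have ha := h.a1
  have hE1 := h.E1
  have ha4 := h.a4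
  have e1 : 2 * |(b : ℝ)| + |(b : ℝ)| + E ≤ 4 * s := by linarith
  have hb0 : 0 ≤ |(b : ℝ)| := abs_nonneg _
  have e2 : (2 * |(b : ℝ)| + |(b : ℝ)| + E) ^ 2 ≤ (4 * s) ^ 2 :=
    pow_le_pow_left₀ (by linarith) e1 2
  calc (a : ℝ) * (2 * |(b : ℝ)| + |(b : ℝ)| + E) ^ 2 ≤ a * (4 * s) ^ 2 := mul_le_mul_of_nonneg_left e2 (by linarith)
    _ = (16 * a) * s ^ 2 := by ring
    _ ≤ (s / 3) * s ^ 2 := by
        apply mul_le_mul_of_nonneg_right _ (by positivity)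
        linarith
    _ = s ^ 3 / 3 := by ring
    _ ≤ (M * K) / 3 := by linarith [h.MKbig]
    _ = (M / 3) * K := by ring
    _ ≤ m1 * K := mul_le_mul_of_nonneg_right hm1 hK.le

lemma h6 (h : Ry a b c0 s y L g C K M E) : 4 * (M * K) + E + |(b : ℝ)| + 1 ≤ 8 * (M * K) := by
  have h1 := h.MKbig
  have hb := h.babs
  have hyl := h.yl
  have hE := h.Es
  have hs := h.s10
  have h2 : s ≤ s ^ 3 := le_self_pow₀ h.s1 (by norm_num)
  linarith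

end Ry

/-- **the quadratic form of one cell** -/
theorem TT_cell2 {C0 : ℝ} (hC0 : 0 < C0) (hbs : BSP C0) (htri : TRIP) (hls : LSCP) {a b : ℤ} {β : ℕ → ℝ} {s y L B0 Δ D : ℝ}
    {C M K K2 E t : ℕ} (ha : 0 < a) (h : Ry a b (√C0) s y L ((2 : ℝ) ^ t) C K M E)
    (hEd : E = Nat.sqrt (K / (M / 2))) (hB0 : 1 ≤ B0) (hβ : ∀ k, |β k| ≤ B0)
    (hKK2 : K ≤ K2) (hκK : (K2 : ℝ) ≤ (1 + 1 / (2 : ℝ) ^ t) * K)
    (hΔ0 : 0 ≤ Δ) (hΔ2 : Δ * (10 ^ 12 * (2 : ℝ) ^ (18 * t)) ≤ K)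
    (hΔ : ∀ u, K ≤ u → u ≤ K2 → ∀ q ∈ Icc 1 (6 * 10 ^ 7 * 2 ^ (12 * t)), ∀ r : ℕ,
      |∑ k ∈ (Ioc K u).filter (fun k => k ≡ r [MOD q]), β k| ≤ Δ)
    (hD : ∀ N : ℕ, 1 ≤ N → N ≤ 4 * M * K → (#N.divisors : ℝ) ≤ D) (hD0 : 0 ≤ D) (hDy : D ≤ y) :
    TT a b β L C M (M / 2) (2 * M) (2 * b.natAbs) (8 * M * K) K K2 ≤
      5 * (B0 ^ 2 * C * K * L ^ 2 / ((2 : ℝ) ^ t) ^ 3) := by
  have hg1 := h.g1
  have hg0 := h.g0
  have hL0 := h.L0
  have hK0 := h.K0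
  have hC1 : 1 ≤ C := by exact_mod_cast h.C1
  have hEn1 : 1 ≤ E := by exact_mod_cast h.E1
  have hMn : 100 ≤ M := by
    have h1 := h.Mbig
    have h2 := h.L1
    have h3 : (1 : ℝ) ≤ 2 ^ t * L := by nlinarith only [hg1, h2]
    have : (100 : ℝ) ≤ M := by linarith
    exact_mod_cast this
  have hM100 : (100 : ℝ) ≤ M := by exact_mod_cast hMn
  have hm1 : 1 ≤ M / 2 := by omega
  have hm1c : (M : ℝ) ≤ 2 * ((M / 2 : ℕ) : ℝ) + 1 := by
    have : M ≤ 2 * (M / 2) + 1 := by omega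
    exact_mod_cast this
  have hm1d : 2 * ((M / 2 : ℕ) : ℝ) ≤ M := by
    have : 2 * (M / 2) ≤ M := by omega
    exact_mod_cast this
  have hCKn : 8 * C ≤ K := by exact_mod_cast h.C8
  have hκ1 : 1 / (2 : ℝ) ^ t ≤ 1 := by rw [div_le_one hg0]; exact hg1
  have hK2 : K2 ≤ 2 * K := by
    have h1 : (K2 : ℝ) ≤ 2 * K := by
      refine hκK.trans ?_
      have : (1 + 1 / (2 : ℝ) ^ t) * K ≤ 2 * K := mul_le_mul_of_nonneg_right (by linarith) hK0.le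
      exact this
    exact_mod_cast h1
  have hn0R : ((2 * b.natAbs : ℕ) : ℝ) = 2 * |(b : ℝ)| := by
    push_cast
    rw [Nat.cast_natAbs]
    push_cast
    rfl
  have hn0 : 2 * |b| ≤ ((2 * b.natAbs : ℕ) : ℤ) := by
    push_cast
    exact le_rfl
  have hn0' : |b| ≤ ((2 * b.natAbs : ℕ) : ℤ) := by
    have := abs_nonneg b
    linarith
  have hEm2 : K < (M / 2) * (E + 1) ^ 2 := by
    have h1 : K / (M / 2) < (E + 1) ^ 2 := by rw [hEd, sq]; exact Nat.lt_succ_sqrt _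
    rw [mul_comm]
    exact (Nat.div_lt_iff_lt_mul (by omega)).1 h1
  have hEm2R : (K : ℝ) ≤ M / 2 * ((E : ℝ) + 1) ^ 2 := by
    have e1 : (K : ℝ) < ((M / 2 : ℕ) : ℝ) * ((E : ℝ) + 1) ^ 2 := by exact_mod_cast hEm2
    have e2 : ((M / 2 : ℕ) : ℝ) * ((E : ℝ) + 1) ^ 2 ≤ M / 2 * (E + 1) ^ 2 := by
      apply mul_le_mul_of_nonneg_right _ (by positivity)
      linarith
    linarith
  have hmd : ((md a E : ℕ) : ℝ) = 4 * a * E := md_real ha
  have hEK : md a E ≤ K := by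
    have : ((md a E : ℕ) : ℝ) ≤ K := by
      rw [hmd]
      exact h.aE.trans h.s2K
    exact_mod_cast this
  have h12 : ((6 * 10 ^ 7 * 2 ^ (12 * t) : ℕ) : ℝ) = 6 * 10 ^ 7 * ((2 : ℝ) ^ t) ^ 12 := by
    push_cast
    rw [← pow_mul, mul_comm t 12]
    try norm_num
  have hQ0E : 6 * 10 ^ 7 * 2 ^ (12 * t) ≤ md a E := by
    have h1 : ((6 * 10 ^ 7 * 2 ^ (12 * t) : ℕ) : ℝ) ≤ ((md a E : ℕ) : ℝ) := by
      rw [hmd, h12]
      exact h.Qlow hEm2R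
    exact_mod_cast h1
  have hI : K ≤ 2 ^ (3 * t) * (K / 2 ^ (3 * t) + 1) := by
    have := Nat.lt_mul_div_succ K (show 0 < 2 ^ (3 * t) by positivity)
    exact this.le
  have hEN : E ≤ 8 * M * K := by
    have e1 : (E : ℝ) ≤ ((8 * M * K : ℕ) : ℝ) := by
      push_cast
      have := h.h6
      have e2 : 0 ≤ |(b : ℝ)| := abs_nonneg _
      have e3 : 0 ≤ (M : ℝ) * K := by positivity
      linarith
    exact_mod_cast e1
  have hcond5 : (a : ℝ) * (((2 * b.natAbs : ℕ) : ℝ) + |(b : ℝ)| + E) ^ 2 ≤ ((M / 2 : ℕ) : ℝ) * K := by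
    rw [hn0R]
    exact h.h5 (by linarith)
  have hcond6 : (2 * ((2 * M : ℕ) : ℝ) * K : ℝ) + E + |(b : ℝ)| + 1 ≤ ((8 * M * K : ℕ) : ℝ) := by
    push_cast
    have := h.h6
    linarith
  have hl1 : 1 ≤ K / 2 ^ (3 * t) + 1 := Nat.le_add_left _ _
  have hQ1 : 1 ≤ 6 * 10 ^ 7 * 2 ^ (12 * t) := by
    have : 1 ≤ 2 ^ (12 * t) := Nat.one_le_two_pow
    omega
  have key := TT_bound (Δ := Δ) (κ := 1 / (2 : ℝ) ^ t) (m2 := 2 * M) (n0 := 2 * b.natAbs) (N1 := 8 * M * K) (E := E)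
    (Q0 := 6 * 10 ^ 7 * 2 ^ (12 * t)) (l := K / 2 ^ (3 * t) + 1) (I := 2 ^ (3 * t)) (K2 := K2) (C := C) (M := M) (L := L)
    hC0 hbs htri hls ha hm1 hC1 hCKn h.b2 hn0' hL0.le (by positivity) hκ1 (by omega)
    (by linarith) (by linarith) (by push_cast; linarith) hEn1 hEN hEm2 hEK hcond5 hcond6 hKK2 hK2 hκK hQ1 hQ0E
    (by linarith) hI hl1 hβ hΔ
  refine key.trans ?_
  have hD1 := Dg_le (K2 := K2) (N1 := 8 * M * K) (C := C) ha hK2 hCKn (by omega : 2 ≤ M) hn0 hD hD0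
  have hN2 : ((Nat.sqrt (16 * M * K) : ℕ) : ℝ) ^ 2 ≤ 16 * (M * K) := by
    have f1 : ((Nat.sqrt (16 * M * K)) ^ 2 : ℕ) ≤ 16 * M * K := by rw [sq]; exact Nat.sqrt_le _
    have f2 : ((Nat.sqrt (16 * M * K) : ℕ) : ℝ) ^ 2 ≤ 16 * M * K := by exact_mod_cast f1
    linarith
  have p1 := h.diag (B0 := B0) hN2 (Nat.cast_nonneg _) hD0 hDy hD1
  have hlogE0 : 0 ≤ Real.log E := Real.log_nonneg h.E1
  have hlE := h.lE
  have hlq := h.lq
  have hlq0 : 0 ≤ Real.log (4 * (a : ℝ) * E) := by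
    apply Real.log_nonneg
    have := h.a1
    have := h.E1
    nlinarith only [h.a1, h.E1]
  have p2 := part_ls2 (a := a) (Δ := Δ) (lE := 1 + Real.log E) (lq := 1 + Real.log (4 * (a : ℝ) * E)) h.toRz hB0 rfl hΔ0 hΔ2 hlE (by linarith)
    hlq (by linarith)
  have hlR : ((K / 2 ^ (3 * t) + 1 : ℕ) : ℝ) ≤ K / ((2 : ℝ) ^ t) ^ 3 + 1 := by
    have e1 : ((K / 2 ^ (3 * t) : ℕ) : ℝ) ≤ K / ((2 : ℝ) ^ t) ^ 3 := by
      have := Nat.cast_div_le (α := ℝ) (m := K) (n := 2 ^ (3 * t))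
      have e2 : ((2 ^ (3 * t) : ℕ) : ℝ) = ((2 : ℝ) ^ t) ^ 3 := by push_cast; rw [← pow_mul, mul_comm t 3]
      rw [e2] at this
      exact this
    push_cast
    linarith
  have p3 := h.grid (B0 := B0) hlR hlE (by linarith)
  have p4 := h.dls_part (B0 := B0) hlE
  have hω : (K2 : ℝ) - K ≤ K / (2 : ℝ) ^ t := by
    have : (1 + 1 / (2 : ℝ) ^ t) * K = K + K / 2 ^ t := by ring
    linarith
  have hω0 : 0 ≤ (K2 : ℝ) - K := by
    have : (K : ℝ) ≤ K2 := by exact_mod_cast hKK2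
    linarith
  have p5 := h.err_part (B0 := B0) (ω := (K2 : ℝ) - K) (Er := Er a b L (1 / (2 : ℝ) ^ t) C K M E) hlE (by linarith) hω0 hω
    h.Er_le (Er_nonneg ha hL0.le (by positivity))
  have p6 := h.exp_part (B0 := B0)
  have hP0 : 0 ≤ B0 ^ 2 * C * K / ((2 : ℝ) ^ t) ^ 3 := by positivity
  have hPL : (B0 ^ 2 * C * K / ((2 : ℝ) ^ t) ^ 3) * (312 * L) + 2 * (B0 ^ 2 * C * K / ((2 : ℝ) ^ t) ^ 3) ≤
      2 * ((B0 ^ 2 * C * K / ((2 : ℝ) ^ t) ^ 3) * L ^ 2) := by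
    have e0 := h.L1
    have e1 : 312 * L + 2 ≤ 2 * L ^ 2 := by nlinarith only [e0]
    calc (B0 ^ 2 * C * K / ((2 : ℝ) ^ t) ^ 3) * (312 * L) + 2 * (B0 ^ 2 * C * K / ((2 : ℝ) ^ t) ^ 3) =
        (B0 ^ 2 * C * K / ((2 : ℝ) ^ t) ^ 3) * (312 * L + 2) := by ring
      _ ≤ (B0 ^ 2 * C * K / ((2 : ℝ) ^ t) ^ 3) * (2 * L ^ 2) := mul_le_mul_of_nonneg_left e1 hP0
      _ = _ := by ring
  have hPP : B0 ^ 2 * C * K * L ^ 2 / ((2 : ℝ) ^ t) ^ 3 = (B0 ^ 2 * C * K / ((2 : ℝ) ^ t) ^ 3) * L ^ 2 := by ring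
  rw [hPP] at p2 ⊢
  have hKne : (K : ℝ) ≠ 0 := hK0.ne'
  have hexpand : ∀ X1 X2 X3 X4 X5 : ℝ, 2 * (2 * ((C : ℝ) / K) * (8 * B0 * K * ((((2 ^ (3 * t) : ℕ) : ℝ) + 1) * X1 + B0 * X2)) +
      X3 + B0 ^ 2 * (X4 + X5)) = 32 * C * B0 * (((2 ^ (3 * t) : ℕ) : ℝ) + 1) * X1 + 32 * C * B0 * (B0 * X2) + 2 * X3 +
      2 * (B0 ^ 2 * X4) + 2 * (B0 ^ 2 * X5) := by
    intro X1 X2 X3 X4 X5
    field_simp
    ring
  rw [hexpand, hmd]
  linarith

end Pool.Agent.N792
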