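import Mathlib
import Pool.Agent.N792.TJ5
import Pool.Agent.N792.TJ1
import Pool.Agent.N792.TG6
import Pool.Agent.N792.BS
import Pool.Agent.N792.Tri
import Pool.Agent.N792.Lsc
import Pool.Agent.Helper112.Arith

/-!
The type II estimate for one cell, general `C` (helper792).
-/

set_option autoImplicit false

namespace Pool.Agent.N792

open Finset Filter Topology

/-- **the type II estimate for one cell** -/
theorem cell_bound2 (a : ℤ) (ha : 0 < a) (b : ℤ) (ε : ℝ) (hε : 0 < ε) (hε1 : ε ≤ 1 / 10) (B1 : ℕ) :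
    ∃ x0 : ℕ, ∀ x : ℕ, x0 ≤ x → ∀ (C M M2 K K2 u : ℕ) (S : Finset ℕ) (β : ℕ → ℝ) (B0 : ℝ),
    (K : ℝ) ^ 2 * (x : ℝ) ^ ε ≤ (C : ℝ) ^ 3 → C ≤ x → (x : ℝ) ^ (1 + ε) ≤ K →
    (x : ℝ) ^ 2 ≤ M * K * Real.log x → (M : ℝ) * K ≤ (x : ℝ) ^ 2 * Real.log x → M ≤ M2 → M ≤ x →
    S ⊆ Ioc M M2 → (∀ m ∈ S, ∑ c ∈ Icc 1 C, (rho a b (c : ℕ) m : ℝ) ≤ 2 * C) →
    (M2 : ℝ) ≤ M * (1 + 1 / Real.log x) → (2 : ℝ) ^ (2 * u) ≤ Real.log x ^ B1 → K ≤ K2 →
    (K2 : ℝ) ≤ (1 + 1 / (2 : ℝ) ^ (2 * u)) * K → 1 ≤ B0 → (∀ k, |β k| ≤ B0) →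
    (∀ v, K ≤ v → v ≤ K2 → ∀ q ∈ Icc 1 (6 * 10 ^ 7 * 2 ^ (12 * (2 * u))), ∀ r : ℕ,
      |∑ k ∈ (Ioc K v).filter (fun k => k ≡ r [MOD q]), β k| * (10 ^ 12 * (2 : ℝ) ^ (18 * (2 * u))) ≤ K) →
    ∑ c ∈ Icc 1 C, ∑ m ∈ S, |Sg a b β (2 * b.natAbs) (8 * M * K) K K2 (c : ℕ) m| ≤
      B0 * (C * x) * Real.log x ^ 2 / (2 : ℝ) ^ (3 * u) := by
  obtain ⟨C0, hC0, hbs0⟩ := bs
  have hbs : BSP C0 := hbs0
  have htri : TRIP := fun s w θ δ A B h1 h2 h3 h4 h5 => tri_sum s w θ δ A B h1 h2 h3 h4 h5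
  have hls : LSCP := fun N Q Q0 β Δ B0 h1 h2 h3 h4 h5 => ls_classes N Q Q0 β Δ B0 h1 h2 h3 h4 h5
  obtain ⟨Cd, hCd0, hCd⟩ := Pool.Agent.Helper112.divisor_bound (ε / 100) (by positivity)
  have e1 : ∀ᶠ x : ℕ in atTop, (200 : ℝ) ≤ Real.log x :=
    (Real.tendsto_log_atTop.comp tendsto_natCast_atTop_atTop).eventually_ge_atTop 200
  have e2 := ev_log_pow (10 ^ 10 * ((a : ℝ) + 1) * (√C0 + 1)) (12 * B1 + 2) (δ := ε / 24) (by positivity)
  have e3 := ev_log_pow ((b : ℝ) ^ 2) 0 (δ := ε / 24) (by positivity)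
  have e4 := ev_log_pow Cd 0 (δ := ε / 100) (by positivity)
  have e5 := ev_log_pow 4 1 (δ := 1) (by positivity)
  have e6 := ev_log_pow 100 1 (δ := 1 / 2) (by positivity)
  obtain ⟨x0, hx0⟩ := eventually_atTop.1 (((((e1.and e2).and e3).and e4).and e5).and e6)
  refine ⟨x0, fun x hx C M M2 K K2 u S β B0 hC1 hC2 hK1 hMK2 hMK hMM2 hMx hS hρ hM2 hg hKK2 hκ hB0 hβ hH => ?_⟩
  obtain ⟨⟨⟨⟨⟨f1, f2⟩, f3⟩, f4⟩, f5⟩, f6⟩ := hx0 x hx
  rw [pow_zero, mul_one] at f3 f4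
  rw [pow_one, Real.rpow_one] at f5
  rw [pow_one] at f6
  have hxpos : (0 : ℝ) < x := by
    by_contra hcon
    have : (x : ℝ) = 0 := le_antisymm (not_lt.1 hcon) (Nat.cast_nonneg _)
    rw [this, Real.log_zero] at f1
    linarith
  have hx1 : (1 : ℝ) ≤ x := by
    have : 0 < x := by exact_mod_cast hxpos
    exact_mod_cast this
  set L := Real.log x with hL
  have hL0 : 0 < L := by linarith
  set s := √(x : ℝ) with hs
  have hs2 : s ^ 2 = x := Real.sq_sqrt hxpos.le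
  have hs1 : 1 ≤ s := by rw [hs, ← Real.sqrt_one]; exact Real.sqrt_le_sqrt hx1
  have hspow : ∀ r : ℝ, (x : ℝ) ^ r = s ^ (2 * r) := by
    intro r
    rw [← hs2, ← Real.rpow_natCast, ← Real.rpow_mul (by linarith)]
    norm_num
  set y := (x : ℝ) ^ (ε / 24) with hy
  have hy1 : 1 ≤ y := Real.one_le_rpow hx1 (by positivity)
  have hypow : ∀ n : ℕ, y ^ n = (x : ℝ) ^ (ε / 24 * n) := by
    intro n
    rw [hy, ← Real.rpow_natCast, ← Real.rpow_mul hxpos.le]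
  have hx2 : s ^ 4 = (x : ℝ) ^ 2 := by rw [← hs2]; ring
  have hL2 : L = 2 * Real.log s := by
    rw [hL, ← hs2, Real.log_pow]
    push_cast
    ring
  have hs3 : s ^ 3 = (x : ℝ) ^ (3 / 2 : ℝ) := by
    rw [hspow, ← Real.rpow_natCast]
    norm_num
  -- sizes of `M`, `K`
  have hK0 : (0 : ℝ) < K := lt_of_lt_of_le (Real.rpow_pos_of_pos hxpos _) hK1
  have hKx : (x : ℝ) ≤ K := by
    refine le_trans ?_ hK1
    nth_rw 1 [← Real.rpow_one (x : ℝ)]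
    exact Real.rpow_le_rpow_of_exponent_le hx1 (by linarith)
  have hKx32 : (K : ℝ) ≤ (x : ℝ) ^ (3 / 2 : ℝ) := by
    have h1 : (K : ℝ) ^ 2 ≤ ((x : ℝ) ^ (3 / 2 : ℝ)) ^ 2 := by
      have h2 : ((x : ℝ) ^ (3 / 2 : ℝ)) ^ 2 = (x : ℝ) ^ 3 := by
        rw [← Real.rpow_natCast, ← Real.rpow_mul hxpos.le, ← Real.rpow_natCast (x : ℝ) 3]
        norm_num
      rw [h2]
      have h3 : (C : ℝ) ^ 3 ≤ (x : ℝ) ^ 3 := pow_le_pow_left₀ (Nat.cast_nonneg _) (by exact_mod_cast hC2) 3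
      have h4 : (K : ℝ) ^ 2 * 1 ≤ (K : ℝ) ^ 2 * (x : ℝ) ^ ε :=
        mul_le_mul_of_nonneg_left (Real.one_le_rpow hx1 hε.le) (by positivity)
      linarith
    exact abs_le_of_sq_le_sq' h1 (by positivity) |>.2
  have hM100 : (100 : ℝ) ≤ M := by
    have h1 : (K : ℝ) ≤ (x : ℝ) ^ (3 / 2 : ℝ) := hKx32
    have h2 : (x : ℝ) ^ (3 / 2 : ℝ) * (x : ℝ) ^ (1 / 2 : ℝ) = (x : ℝ) ^ 2 := by
      rw [← Real.rpow_add hxpos]
      norm_num
    have hM0 : (0 : ℝ) ≤ M := Nat.cast_nonneg _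
    have h3 : (x : ℝ) ^ (3 / 2 : ℝ) * (x : ℝ) ^ (1 / 2 : ℝ) ≤ (x : ℝ) ^ (3 / 2 : ℝ) * (M * L) := by
      calc (x : ℝ) ^ (3 / 2 : ℝ) * (x : ℝ) ^ (1 / 2 : ℝ) = (x : ℝ) ^ 2 := h2
        _ ≤ M * K * L := hMK2
        _ ≤ M * (x : ℝ) ^ (3 / 2 : ℝ) * L := by gcongr
        _ = _ := by ring
    have h4 : (x : ℝ) ^ (1 / 2 : ℝ) ≤ M * L := le_of_mul_le_mul_left h3 (Real.rpow_pos_of_pos hxpos _)
    have h5 : 100 * L ≤ M * L := f6.trans h4
    exact le_of_mul_le_mul_right h5 hL0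
  have hMn : 100 ≤ M := by exact_mod_cast hM100
  have hM0 : (0 : ℝ) < M := by linarith
  have hCn : 1 ≤ C := by
    rcases Nat.eq_zero_or_pos C with h | h
    · exfalso
      rw [h] at hC1
      have : (0 : ℝ) < (K : ℝ) ^ 2 * (x : ℝ) ^ ε := by positivity
      norm_num at hC1
      linarith
    · exact h
  have hC0' : (1 : ℝ) ≤ C := by exact_mod_cast hCn
  have hMC : M ≤ K := by
    have h1 : (M : ℝ) ≤ K := by
      have h2 : (M : ℝ) ≤ x := by exact_mod_cast hMx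
      linarith
    exact_mod_cast h1
  have hE1 : 1 ≤ Nat.sqrt (K / (M / 2)) := by
    rw [Nat.le_sqrt, mul_one]
    rw [Nat.le_div_iff_mul_le (by omega)]
    omega
  have hE2 : ((Nat.sqrt (K / (M / 2)) : ℕ) : ℝ) ^ 2 * M ≤ 3 * K := by
    have h1 : Nat.sqrt (K / (M / 2)) ^ 2 * (M / 2) ≤ K := by
      calc Nat.sqrt (K / (M / 2)) ^ 2 * (M / 2) ≤ K / (M / 2) * (M / 2) := by
            apply Nat.mul_le_mul_right
            rw [sq]
            exact Nat.sqrt_le _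
        _ ≤ K := Nat.div_mul_le_self _ _
    have h2 : M ≤ 3 * (M / 2) := by omega
    have h3 : Nat.sqrt (K / (M / 2)) ^ 2 * M ≤ 3 * K := by
      calc Nat.sqrt (K / (M / 2)) ^ 2 * M ≤ Nat.sqrt (K / (M / 2)) ^ 2 * (3 * (M / 2)) := Nat.mul_le_mul_left _ h2
        _ = 3 * (Nat.sqrt (K / (M / 2)) ^ 2 * (M / 2)) := by ring
        _ ≤ 3 * K := Nat.mul_le_mul_left _ h1
    exact_mod_cast h3
  have hg1 : (1 : ℝ) ≤ 2 ^ (2 * u) := one_le_pow₀ (by norm_num)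
  have hSy : Ry a b (√C0) s y L ((2 : ℝ) ^ (2 * u)) C K M ((Nat.sqrt (K / (M / 2)) : ℕ) : ℝ) := by
    refine ⟨⟨hs1, hy1, f1, hg1, by exact_mod_cast ha, Real.sqrt_nonneg _, hC0', by linarith, by linarith, by exact_mod_cast hE1,
      ?_, ?_, ?_, ?_, ?_, hE2, ?_⟩, f3, ?_, hL2⟩
    · -- hC
      rw [hypow]
      refine le_trans (le_of_eq ?_) hC1
      congr 2
      push_cast
      ring
    · rw [hs2]; exact_mod_cast hC2
    · -- hK
      rw [hs2, hypow]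
      refine le_trans (le_of_eq ?_) hK1
      nth_rw 1 [← Real.rpow_one (x : ℝ)]
      rw [← Real.rpow_add hxpos]
      congr 1
      push_cast
      ring
    · rw [hx2]; exact hMK
    · rw [hx2]; exact hMK2
    · -- hy
      refine le_trans ?_ f2
      have h1 : ((2 : ℝ) ^ (2 * u)) ^ 12 ≤ L ^ (12 * B1) := by
        calc ((2 : ℝ) ^ (2 * u)) ^ 12 ≤ (L ^ B1) ^ 12 := pow_le_pow_left₀ (by positivity) hg 12
          _ = L ^ (12 * B1) := by rw [← pow_mul, mul_comm B1 12]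
      have ha1 : (0 : ℝ) < a := by exact_mod_cast ha
      calc 10 ^ 10 * ((a : ℝ) + 1) * (√C0 + 1) * ((2 : ℝ) ^ (2 * u)) ^ 12 * L ^ 2 ≤
          10 ^ 10 * ((a : ℝ) + 1) * (√C0 + 1) * L ^ (12 * B1) * L ^ 2 := by
            apply mul_le_mul_of_nonneg_right _ (by positivity)
            apply mul_le_mul_of_nonneg_left h1 (by positivity)
        _ = _ := by rw [pow_add]; ring
    · -- hex
      have h1 : s ^ 20 = Real.exp (10 * L) := by
        rw [hL2, ← Real.exp_log (show 0 < s by linarith), ← Real.exp_nat_mul, Real.log_exp]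
        congr 1
        push_cast
        ring
      rw [h1, ← Real.exp_add, Real.exp_le_one_iff]
      nlinarith only [f1]
  have hD : ∀ N : ℕ, 1 ≤ N → N ≤ 4 * M * K → (#N.divisors : ℝ) ≤ y := by
    intro N hN1 hN2
    refine (hCd N hN1).trans ?_
    have h1 : (N : ℝ) ≤ (x : ℝ) ^ (3 : ℝ) := by
      have h2 : (N : ℝ) ≤ 4 * (M * K) := by
        have : (N : ℝ) ≤ ((4 * M * K : ℕ) : ℝ) := by exact_mod_cast hN2
        push_cast at this
        linarith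
      have h3 : (x : ℝ) ^ (3 : ℝ) = (x : ℝ) ^ 3 := by
        rw [← Real.rpow_natCast]
        norm_num
      rw [h3]
      calc (N : ℝ) ≤ 4 * (M * K) := h2
        _ ≤ 4 * ((x : ℝ) ^ 2 * L) := by linarith
        _ = (4 * L) * (x : ℝ) ^ 2 := by ring
        _ ≤ x * (x : ℝ) ^ 2 := mul_le_mul_of_nonneg_right f5 (by positivity)
        _ = _ := by ring
    calc Cd * (N : ℝ) ^ (ε / 100) ≤ (x : ℝ) ^ (ε / 100) * ((x : ℝ) ^ (3 : ℝ)) ^ (ε / 100) := by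
          apply mul_le_mul f4 (Real.rpow_le_rpow (Nat.cast_nonneg _) h1 (by positivity)) (by positivity) (by positivity)
      _ = (x : ℝ) ^ (ε / 100 + 3 * (ε / 100)) := by
          rw [← Real.rpow_mul hxpos.le, ← Real.rpow_add hxpos]
      _ ≤ y := Real.rpow_le_rpow_of_exponent_le hx1 (by linarith)
  have hP : (0 : ℝ) < 10 ^ 12 * (2 : ℝ) ^ (18 * (2 * u)) := by positivity
  have hT := TT_cell2 (Δ := K / (10 ^ 12 * (2 : ℝ) ^ (18 * (2 * u)))) (D := y) hC0 hbs htri hls ha hSy rfl hB0 hβ hKK2 hκ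
    (by positivity) (by rw [div_mul_cancel₀ _ hP.ne']) (fun v hv1 hv2 q hq r => by
      rw [le_div_iff₀ hP]
      exact hH v hv1 hv2 q hq r) hD (by linarith) le_rfl
  have hM2M : M2 ≤ 2 * M := by
    have h1 : (M2 : ℝ) ≤ 2 * M := by
      refine hM2.trans ?_
      have h2 : 1 / L ≤ 1 := by rw [div_le_one hL0]; linarith
      nlinarith
    exact_mod_cast h1
  have hc := cauchy_step2 (a := a) (b := b) (β := β) (L := L) (C := C) (M := M) (M2 := M2) (m1 := M / 2) (m2 := 2 * M)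
    (n0 := 2 * b.natAbs) (N1 := 8 * M * K) (K := K) (K2 := K2) hS hρ (by omega) hCn (by omega) hM2M (by
      intro m hm
      rw [mem_Ioc] at hm
      refine gw_half (by linarith) hM0 (by exact_mod_cast hm.1.le) (le_trans ?_ hM2)
      exact_mod_cast hm.2)
  have hdiff : ((M2 - M : ℕ) : ℝ) ≤ M := by
    have : M2 - M ≤ M := by omega
    exact_mod_cast this
  have hTT0 : 0 ≤ TT a b β L C M (M / 2) (2 * M) (2 * b.natAbs) (8 * M * K) K K2 := by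
    unfold TT
    refine sum_nonneg fun m _ => mul_nonneg (gw_pos _ _ _).le (sum_nonneg fun c _ => sum_nonneg fun v _ => mul_nonneg ?_ (sq_nonneg _))
    exact Ph_nonneg _
  have hS0 : 0 ≤ B0 * (C * x) * L ^ 2 / (2 : ℝ) ^ (3 * u) := by positivity
  refine abs_le_of_sq_le_sq' ?_ hS0 |>.2
  refine hc.trans ?_
  have hL1 : (200 : ℝ) ≤ L := f1
  calc 8 * (C : ℝ) * (M2 - M : ℕ) * TT a b β L C M (M / 2) (2 * M) (2 * b.natAbs) (8 * M * K) K K2 ≤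
      8 * C * M * (5 * (B0 ^ 2 * C * K * L ^ 2 / ((2 : ℝ) ^ (2 * u)) ^ 3)) := by
        apply mul_le_mul _ hT hTT0 (by positivity)
        apply mul_le_mul_of_nonneg_left hdiff (by positivity)
    _ = 40 * B0 ^ 2 * C ^ 2 * L ^ 2 * (M * K) / ((2 : ℝ) ^ (2 * u)) ^ 3 := by ring
    _ ≤ 40 * B0 ^ 2 * C ^ 2 * L ^ 2 * ((x : ℝ) ^ 2 * L) / ((2 : ℝ) ^ (2 * u)) ^ 3 := by
        apply div_le_div_of_nonneg_right _ (by positivity)
        apply mul_le_mul_of_nonneg_left hMK (by positivity)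
    _ = (40 * L ^ 3) * (B0 ^ 2 * C ^ 2 * (x : ℝ) ^ 2) / ((2 : ℝ) ^ (2 * u)) ^ 3 := by ring
    _ ≤ L ^ 4 * (B0 ^ 2 * C ^ 2 * (x : ℝ) ^ 2) / ((2 : ℝ) ^ (2 * u)) ^ 3 := by
        apply div_le_div_of_nonneg_right _ (by positivity)
        apply mul_le_mul_of_nonneg_right _ (by positivity)
        calc 40 * L ^ 3 ≤ L * L ^ 3 := mul_le_mul_of_nonneg_right (by linarith) (by positivity)
          _ = L ^ 4 := by ring
    _ = (B0 * (C * x) * L ^ 2 / (2 : ℝ) ^ (3 * u)) ^ 2 := by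
        rw [div_pow]
        congr 1
        · ring
        · rw [← pow_mul, ← pow_mul]
          congr 1
          ring

end Pool.Agent.N792
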