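import Mathlib
import Pool.Agent.N792.TJ8
import Pool.Agent.N792.TH7
import Pool.Agent.N792.Rc2
import Pool.Agent.N792.Asm2

/-!
The type II estimate for all `x^(9/10) ≤ C ≤ x` (helper792).
-/

set_option autoImplicit false

namespace Pool.Agent.N792

open Finset Filter Topology
open ArithmeticFunction (moebius vonMangoldt)

/-- the statement of `sharp_H2` -/
def SHP2 : Prop := ∀ η : ℝ, 0 < η → ∀ A E : ℕ, ∃ x0 : ℕ, ∀ x : ℕ, x0 ≤ x → ∀ z U Jw t i u q r : ℕ,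
    (x : ℝ) ^ η ≤ z → z ≤ x → Real.log x ^ A ≤ ((2 ^ 2 ^ Jw : ℕ) : ℝ) → ((2 ^ 2 ^ Jw : ℕ) : ℝ) ≤ Real.log x ^ E →
    Real.log x ^ (A + 5) ≤ (2 : ℝ) ^ t → (2 : ℝ) ^ t ≤ Real.log x ^ E → x ≤ 2 ^ i → 2 ^ (i + 1) ≤ x ^ 3 →
    1 ≤ q → (q : ℝ) ≤ Real.log x ^ A → 2 ^ i ≤ u → u ≤ 2 ^ (i + 1) →
    |∑ k ∈ (Ioc (2 ^ i) u).filter (fun k => k ≡ r [MOD q]),
      (rg z k * betU U k - sharp t (2 ^ 2 ^ Jw) (fun k => rg z k * betU U k) k)| ≤ (2 : ℝ) ^ i / Real.log x ^ A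

/-- the statement of `rho_part2` -/
def RHP2 (a b : ℤ) : Prop := ∀ η : ℝ, 0 < η → ∃ x0 : ℕ, ∀ x : ℕ, x0 ≤ x → ∀ (C z U y : ℕ) (h : ℕ → ℝ),
    (x : ℝ) ^ (9 / 10 : ℝ) ≤ C → C ≤ x → (x : ℝ) ^ η ≤ z →
    y ≤ x → (∀ m ∈ Ioc U y, |h m| ≤ rg z m * (9 * Real.log x ^ 2 * (√(2 * a) * x) / m)) →
    (∀ m ∈ Ioc U y, h m ≠ 0 → Squarefree m) →
    ∑ c ∈ Icc 1 C, |∑ m ∈ Ioc U y, h m * ((rho a b (c : ℕ) m : ℝ) - 1)| ≤ C * x / Real.log x ^ 3

/-- the number of the values divisible by a large square -/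
lemma sq_count {a b : ℤ} {C z Y n : ℕ} (hz : 1 ≤ z) : (#((Icc 1 C).filter (fun c => ∃ d ∈ Ioc z Y, d ^ 2 ∣ Fn a b n + c)) : ℝ) ≤
    C / z + Y := by
  classical
  have hzR : (0 : ℝ) < z := by exact_mod_cast hz
  have h1 : (Icc 1 C).filter (fun c => ∃ d ∈ Ioc z Y, d ^ 2 ∣ Fn a b n + c) ⊆
      (Ioc z Y).biUnion (fun d => (Icc 1 C).filter (fun c => d ^ 2 ∣ Fn a b n + c)) := by
    intro c hc
    rw [mem_filter] at hc
    obtain ⟨hc1, d, hd, hdv⟩ := hc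
    rw [mem_biUnion]
    exact ⟨d, hd, mem_filter.2 ⟨hc1, hdv⟩⟩
  have h2 : (#((Icc 1 C).filter (fun c => ∃ d ∈ Ioc z Y, d ^ 2 ∣ Fn a b n + c)) : ℝ) ≤
      ∑ d ∈ Ioc z Y, (#((Icc 1 C).filter (fun c => d ^ 2 ∣ Fn a b n + c)) : ℝ) := by
    exact_mod_cast (card_le_card h1).trans card_biUnion_le
  have h3 : ∀ d ∈ Ioc z Y, (#((Icc 1 C).filter (fun c => d ^ 2 ∣ Fn a b n + c)) : ℝ) ≤ C * (1 / ((d : ℝ) - 1) - 1 / d) + 1 := by
    intro d hd
    rw [mem_Ioc] at hd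
    have hd1 : (1 : ℝ) < d := by
      have : 1 < d := by omega
      exact_mod_cast this
    have h4 : (#((Icc 1 C).filter (fun c => d ^ 2 ∣ Fn a b n + c)) : ℝ) ≤ C / (d ^ 2 : ℕ) + 1 := by
      rcases ((Icc 1 C).filter (fun c => d ^ 2 ∣ Fn a b n + c)).eq_empty_or_nonempty with hemp | ⟨c0, hc0⟩
      · rw [hemp]
        simp only [card_empty, Nat.cast_zero]
        positivity
      · have h5 : (Icc 1 C).filter (fun c => d ^ 2 ∣ Fn a b n + c) ⊆ (Ioc 0 C).filter (fun k => k ≡ c0 [MOD d ^ 2]) := by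
          intro c hc
          rw [mem_filter, mem_Icc] at hc hc0
          rw [mem_filter, mem_Ioc]
          refine ⟨⟨by omega, hc.1.2⟩, ?_⟩
          have h6 : (Fn a b n + c) ≡ (Fn a b n + c0) [MOD d ^ 2] := by
            rw [Nat.ModEq, Nat.mod_eq_zero_of_dvd hc.2, Nat.mod_eq_zero_of_dvd hc0.2]
          exact Nat.ModEq.add_left_cancel' _ h6
        have h6 : (#((Icc 1 C).filter (fun c => d ^ 2 ∣ Fn a b n + c)) : ℝ) ≤ #((Ioc 0 C).filter (fun k => k ≡ c0 [MOD d ^ 2])) := by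
          exact_mod_cast card_le_card h5
        have hd2 : 1 ≤ d ^ 2 := Nat.one_le_pow _ _ (by omega)
        have h7 := (abs_le.1 (card_class 0 C (d ^ 2) c0 hd2 (Nat.zero_le _))).2
        simp only [Nat.cast_zero, sub_zero] at h7
        linarith
    have h5 : (C : ℝ) / (d ^ 2 : ℕ) ≤ C * (1 / ((d : ℝ) - 1) - 1 / d) := by
      rw [div_eq_mul_one_div]
      apply mul_le_mul_of_nonneg_left _ (Nat.cast_nonneg _)
      have hd0 : (0 : ℝ) < (d : ℝ) - 1 := by linarith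
      have hdR : (0 : ℝ) < d := by linarith
      push_cast
      rw [div_sub_div _ _ hd0.ne' (by linarith), div_le_div_iff₀ (by positivity) (by positivity)]
      nlinarith
    linarith
  refine h2.trans ((sum_le_sum h3).trans ?_)
  rw [sum_add_distrib, ← mul_sum, sum_const, Nat.card_Ioc, nsmul_eq_mul, mul_one]
  have h4 : ∀ n : ℕ, z ≤ n → ∑ d ∈ Ioc z n, (1 / ((d : ℝ) - 1) - 1 / d) = 1 / z - 1 / n := by
    intro n hn
    induction n, hn using Nat.le_induction with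
    | base => simp
    | succ n hn ih =>
      rw [sum_Ioc_succ_top hn, ih]
      push_cast
      ring
  have h5 : ∑ d ∈ Ioc z Y, (1 / ((d : ℝ) - 1) - 1 / d) ≤ 1 / z := by
    rcases le_or_gt z Y with h6 | h6
    · rw [h4 Y h6]
      have : (0 : ℝ) ≤ 1 / Y := by positivity
      linarith
    · rw [Ioc_eq_empty (by omega), sum_empty]
      positivity
  have h6 : ((Y - z : ℕ) : ℝ) ≤ Y := by exact_mod_cast Nat.sub_le _ _
  have h7 : (C : ℝ) * ∑ d ∈ Ioc z Y, (1 / ((d : ℝ) - 1) - 1 / d) ≤ C * (1 / z) := mul_le_mul_of_nonneg_left h5 (Nat.cast_nonneg _)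
  have h8 : (C : ℝ) * (1 / z) = C / z := by ring
  linarith

open Classical in
/-- the moduli which are not squarefree -/
lemma nonsq_bound {a b : ℤ} {x1 x C z U y : ℕ} {β α : ℕ → ℝ} {B0 A0 D : ℝ} (hz : 1 ≤ z) (hyx : y ≤ x)
    (hB0 : 0 ≤ B0) (hA0 : 0 ≤ A0) (hβ : ∀ k, |β k| ≤ B0) (S' : Finset ℕ)
    (hS' : ∀ m ∈ S', m ∈ Ioc U y ∧ ¬ Squarefree m ∧ Rough z m) (hα : ∀ m ∈ S', |α m| ≤ A0) (hD0 : 0 ≤ D)
    (hD : ∀ c ∈ Icc 1 C, ∀ n ∈ Ioc x1 x, ∀ S : Finset ℕ, (∀ m ∈ S, m ∣ Fn a b n + c ∧ Rough z m) → (#S : ℝ) ≤ D) :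
    ∑ c ∈ Icc 1 C, ∑ m ∈ S', |α m| * |∑ n ∈ (Ioc x1 x).filter (fun n => m ∣ Fn a b n + c), β ((Fn a b n + c) / m)| ≤
      A0 * B0 * D * (x * (C / z + Nat.sqrt x)) := by
  have h1 : ∀ c ∈ Icc 1 C, ∑ m ∈ S', |α m| * |∑ n ∈ (Ioc x1 x).filter (fun n => m ∣ Fn a b n + c), β ((Fn a b n + c) / m)| ≤
      ∑ n ∈ Ioc x1 x, if (∃ d ∈ Ioc z (Nat.sqrt x), d ^ 2 ∣ Fn a b n + c) then A0 * B0 * D else 0 := by
    intro c hc
    have h2 : ∀ m ∈ S', |α m| * |∑ n ∈ (Ioc x1 x).filter (fun n => m ∣ Fn a b n + c), β ((Fn a b n + c) / m)| ≤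
        ∑ n ∈ Ioc x1 x, if m ∣ Fn a b n + c then A0 * B0 else 0 := by
      intro m hm
      have h3 : |∑ n ∈ (Ioc x1 x).filter (fun n => m ∣ Fn a b n + c), β ((Fn a b n + c) / m)| ≤
          ∑ n ∈ (Ioc x1 x).filter (fun n => m ∣ Fn a b n + c), B0 :=
        (abs_sum_le_sum_abs _ _).trans (sum_le_sum fun n _ => hβ _)
      calc |α m| * |_| ≤ A0 * ∑ n ∈ (Ioc x1 x).filter (fun n => m ∣ Fn a b n + c), B0 :=
            mul_le_mul (hα m hm) h3 (abs_nonneg _) hA0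
        _ = _ := by rw [mul_sum, sum_filter]
    refine (sum_le_sum h2).trans ?_
    rw [sum_comm]
    apply sum_le_sum
    intro n hn
    rw [← sum_filter, sum_const, nsmul_eq_mul]
    split_ifs with hex
    · have h3 := hD c hc n hn (S'.filter (fun m => m ∣ Fn a b n + c)) (fun m hm => by
        rw [mem_filter] at hm
        exact ⟨hm.2, (hS' m hm.1).2.2⟩)
      calc (#(S'.filter (fun m => m ∣ Fn a b n + c)) : ℝ) * (A0 * B0) ≤ D * (A0 * B0) :=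
            mul_le_mul_of_nonneg_right h3 (by positivity)
        _ = _ := by ring
    · have h3 : S'.filter (fun m => m ∣ Fn a b n + c) = ∅ := by
        rw [filter_eq_empty_iff]
        intro m hm hmd
        obtain ⟨h4, h5, h6⟩ := hS' m hm
        rw [mem_Ioc] at h4
        rw [Nat.squarefree_iff_prime_squarefree] at h5
        push Not at h5
        obtain ⟨p, hp, hpm⟩ := h5
        apply hex
        refine ⟨p, ?_, by rw [sq]; exact hpm.trans hmd⟩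
        rw [mem_Ioc, Nat.le_sqrt]
        refine ⟨h6.2 p hp (dvd_trans (dvd_mul_right _ _) hpm), ?_⟩
        have h7 : p * p ≤ m := Nat.le_of_dvd (Nat.pos_of_ne_zero h6.1) hpm
        omega
      rw [h3]
      simp
  refine (sum_le_sum h1).trans ?_
  rw [sum_comm]
  have h2 : ∀ n ∈ Ioc x1 x, ∑ c ∈ Icc 1 C, (if (∃ d ∈ Ioc z (Nat.sqrt x), d ^ 2 ∣ Fn a b n + c) then A0 * B0 * D else 0) ≤
      (C / z + Nat.sqrt x) * (A0 * B0 * D) := by
    intro n _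
    rw [← sum_filter, sum_const, nsmul_eq_mul]
    exact mul_le_mul_of_nonneg_right (sq_count hz) (by positivity)
  refine (sum_le_sum h2).trans ?_
  rw [sum_const, Nat.card_Ioc, nsmul_eq_mul]
  have h3 : ((x - x1 : ℕ) : ℝ) ≤ x := by exact_mod_cast Nat.sub_le _ _
  calc ((x - x1 : ℕ) : ℝ) * ((C / z + Nat.sqrt x) * (A0 * B0 * D)) ≤ x * ((C / z + Nat.sqrt x) * (A0 * B0 * D)) :=
        mul_le_mul_of_nonneg_right h3 (by positivity)
    _ = _ := by ring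

end Pool.Agent.N792
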