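import Mathlib
import Pool.Agent.N792.RStm
import Pool.Agent.N792.LamB

/-!
The parameters (helper792).
-/

set_option autoImplicit false

namespace Pool.Agent.N792

open Finset Filter Topology

namespace Par

/-- the ranges for the smallest prime factor -/
lemma exists_zs (η κ : ℝ) (hη : 0 < η) (hκ : 0 < κ) (hκ1 : κ ≤ 1) : ∃ K : ℕ, ∀ᶠ x : ℕ in atTop,
    ∀ z Q : ℕ, (x : ℝ) ^ η ≤ z → z ≤ Q → Q ≤ x → ∃ zs : ℕ → ℕ, zs 0 = z ∧ zs K = Q ∧ (∀ i < K, zs i ≤ zs (i + 1)) ∧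
      (∀ i < K, Real.log (zs (i + 1)) ≤ (1 + κ) * Real.log (zs i)) := by
  obtain ⟨τ, hτ⟩ : ∃ τ : ℝ, τ = 1 + κ / 2 := ⟨_, rfl⟩
  have hτ1 : 1 < τ := by rw [hτ]; linarith
  obtain ⟨K, hK⟩ := pow_unbounded_of_one_lt (1 / η) hτ1
  refine ⟨K, ?_⟩
  filter_upwards [Shp.log_ge (4 * Real.log 2 / (κ * η)), eventually_ge_atTop 2] with x hx hx2
  intro z Q hz hzQ hQx
  have hxp : (0 : ℝ) < x := by
    have : 0 < x := by omega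
    exact_mod_cast this
  have hx1 : (1 : ℝ) ≤ x := by
    have : 1 ≤ x := by omega
    exact_mod_cast this
  have hz1 : (1 : ℝ) ≤ z := (Real.one_le_rpow hx1 hη.le).trans hz
  have hzp : (0 : ℝ) < z := by linarith
  have hzn : 1 ≤ z := by exact_mod_cast hz1
  have hlz : η * Real.log x ≤ Real.log z := by
    rw [← Real.log_rpow hxp]
    exact Real.log_le_log (Real.rpow_pos_of_pos hxp _) hz
  have hlz2 : 4 * Real.log 2 ≤ κ * Real.log z := by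
    rw [div_le_iff₀ (by positivity)] at hx
    calc 4 * Real.log 2 ≤ Real.log x * (κ * η) := hx
      _ = κ * (η * Real.log x) := by ring
      _ ≤ κ * Real.log z := mul_le_mul_of_nonneg_left hlz hκ.le
  have hA : ∀ i : ℕ, (z : ℝ) ≤ (z : ℝ) ^ (τ ^ i) := by
    intro i
    nth_rw 1 [← Real.rpow_one (z : ℝ)]
    exact Real.rpow_le_rpow_of_exponent_le hz1 (one_le_pow₀ hτ1.le)
  have hA2 : ∀ i : ℕ, (z : ℝ) ^ (τ ^ i) ≤ (z : ℝ) ^ (τ ^ (i + 1)) := by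
    intro i
    exact Real.rpow_le_rpow_of_exponent_le hz1 (pow_le_pow_right₀ hτ1.le (by omega))
  refine ⟨fun i => min Q ⌊(z : ℝ) ^ (τ ^ i)⌋₊, ?_, ?_, ?_, ?_⟩
  · simp only [pow_zero, Real.rpow_one, Nat.floor_natCast]
    exact min_eq_right hzQ
  · simp only
    apply min_eq_left
    apply Nat.le_floor
    have h1 : (x : ℝ) ≤ (z : ℝ) ^ (τ ^ K) := by
      calc (x : ℝ) = ((x : ℝ) ^ η) ^ (1 / η) := by
            rw [← Real.rpow_mul hxp.le, mul_one_div_cancel hη.ne', Real.rpow_one]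
        _ ≤ (z : ℝ) ^ (1 / η) := Real.rpow_le_rpow (by positivity) hz (by positivity)
        _ ≤ (z : ℝ) ^ (τ ^ K) := Real.rpow_le_rpow_of_exponent_le hz1 hK.le
    have h2 : (Q : ℝ) ≤ x := by exact_mod_cast hQx
    linarith
  · intro i _
    simp only
    apply min_le_min le_rfl
    exact Nat.floor_le_floor (hA2 i)
  · intro i _
    simp only
    have hf1 : 1 ≤ ⌊(z : ℝ) ^ (τ ^ i)⌋₊ := Nat.le_floor (by push_cast; exact hz1.trans (hA i))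
    have hf2 : 1 ≤ ⌊(z : ℝ) ^ (τ ^ (i + 1))⌋₊ := Nat.le_floor (by push_cast; exact hz1.trans (hA (i + 1)))
    have hQ1 : 1 ≤ Q := by omega
    have hm2 : 1 ≤ min Q ⌊(z : ℝ) ^ (τ ^ (i + 1))⌋₊ := le_min hQ1 hf2
    rcases le_or_gt Q ⌊(z : ℝ) ^ (τ ^ i)⌋₊ with h | h
    · rw [min_eq_left h]
      have h1 : Real.log ((min Q ⌊(z : ℝ) ^ (τ ^ (i + 1))⌋₊ : ℕ) : ℝ) ≤ Real.log Q := by
        apply Real.log_le_log
        · exact_mod_cast hm2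
        · exact_mod_cast min_le_left _ _
      have h2 : 0 ≤ Real.log Q := Real.log_natCast_nonneg _
      nlinarith
    · rw [min_eq_right h.le]
      have h1 : Real.log ((min Q ⌊(z : ℝ) ^ (τ ^ (i + 1))⌋₊ : ℕ) : ℝ) ≤ τ * Real.log ((z : ℝ) ^ (τ ^ i)) := by
        have h2 : ((min Q ⌊(z : ℝ) ^ (τ ^ (i + 1))⌋₊ : ℕ) : ℝ) ≤ (z : ℝ) ^ (τ ^ (i + 1)) := by
          calc ((min Q ⌊(z : ℝ) ^ (τ ^ (i + 1))⌋₊ : ℕ) : ℝ) ≤ ((⌊(z : ℝ) ^ (τ ^ (i + 1))⌋₊ : ℕ) : ℝ) := by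
                exact_mod_cast min_le_right _ _
            _ ≤ _ := Nat.floor_le (by positivity)
        have h3 := Real.log_le_log (by exact_mod_cast hm2) h2
        rw [Real.log_rpow hzp] at h3 ⊢
        calc _ ≤ τ ^ (i + 1) * Real.log z := h3
          _ = _ := by ring
      have h2 : Real.log ((z : ℝ) ^ (τ ^ i)) - Real.log 2 ≤ Real.log ((⌊(z : ℝ) ^ (τ ^ i)⌋₊ : ℕ) : ℝ) := by
        rw [← Real.log_div (by positivity) (by norm_num)]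
        apply Real.log_le_log (by positivity)
        have h3 := Nat.lt_floor_add_one ((z : ℝ) ^ (τ ^ i))
        have h4 : (1 : ℝ) ≤ ((⌊(z : ℝ) ^ (τ ^ i)⌋₊ : ℕ) : ℝ) := by exact_mod_cast hf1
        linarith
      have h3 : Real.log z ≤ Real.log ((z : ℝ) ^ (τ ^ i)) := Real.log_le_log hzp (hA i)
      have h4 : 0 ≤ Real.log 2 := Real.log_nonneg (by norm_num)
      have h5 : τ * Real.log ((z : ℝ) ^ (τ ^ i)) ≤ (1 + κ) * (Real.log ((z : ℝ) ^ (τ ^ i)) - Real.log 2) := by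
        have h6 : κ * Real.log z ≤ κ * Real.log ((z : ℝ) ^ (τ ^ i)) := mul_le_mul_of_nonneg_left h3 hκ.le
        obtain ⟨l, hl⟩ : ∃ l : ℝ, l = Real.log ((z : ℝ) ^ (τ ^ i)) := ⟨_, rfl⟩
        rw [← hl] at h6 ⊢
        rw [hτ]
        have h7 : κ * Real.log 2 ≤ 1 * Real.log 2 := mul_le_mul_of_nonneg_right hκ1 h4
        linarith
      have h6 : (1 + κ) * (Real.log ((z : ℝ) ^ (τ ^ i)) - Real.log 2) ≤ (1 + κ) * Real.log ((⌊(z : ℝ) ^ (τ ^ i)⌋₊ : ℕ) : ℝ) :=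
        mul_le_mul_of_nonneg_left h2 (by linarith)
      linarith

lemma ceil_pow {x : ℕ} {α : ℝ} (hx : 1 ≤ x) (hα : 0 ≤ α) : ((⌈(x : ℝ) ^ α⌉₊ : ℕ) : ℝ) ≤ 2 * (x : ℝ) ^ α := by
  have h1 : (1 : ℝ) ≤ (x : ℝ) ^ α := Real.one_le_rpow (by exact_mod_cast hx) hα
  have := Nat.ceil_lt_add_one (by linarith : 0 ≤ (x : ℝ) ^ α)
  linarith

/-- the sizes -/
lemma params9 (e ε c0 A : ℝ) (he : 0 < e) (he1 : e ≤ 1 / 100) (hε : 0 < ε) (hε1 : ε ≤ 1 / 100) (hc0 : 0 < c0) (hA : 1 ≤ A) :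
    ∀ᶠ x : ℕ in atTop, ∃ U y Q V : ℕ, 1 ≤ U ∧ Q ≤ U ∧ U ≤ V ∧ V ≤ y ∧ (y : ℝ) ≤ (x : ℝ) ^ (1 - ε) ∧
      (x : ℝ) ^ (1 - 2 * ε) ≤ y ∧ (x : ℝ) ^ (4 / 5 - e) ≤ U ∧ (U : ℝ) ≤ (x : ℝ) ^ (9 / 10 : ℝ) ∧
      (x : ℝ) ^ (2 / 5 : ℝ) ≤ Q ∧ (Q : ℝ) ≤ (x : ℝ) ^ (9 / 20 : ℝ) ∧ (V : ℝ) ≤ (x : ℝ) ^ (4 / 5 + 2 * e) ∧
      ((Q * Q : ℕ) : ℝ) ≤ (x : ℝ) ^ (9 / 10 : ℝ) ∧ ((y * y : ℕ) : ℝ) ≤ c0 * x ^ 2 ∧ A * (x : ℝ) ^ 2 < ((Q ^ 5 : ℕ) : ℝ) ∧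
      U ≤ Q * Q ∧ A * (x : ℝ) ^ 2 ≤ ((U * Q ^ 3 : ℕ) : ℝ) ∧ ((U * U * Q : ℕ) : ℝ) ≤ c0 * x ^ 2 ∧
      A * (x : ℝ) ^ 2 ≤ ((V * V * Q : ℕ) : ℝ) := by
  filter_upwards [Lam.pow_ev 2 (4 / 5 - e) (9 / 10) (by linarith), Lam.pow_ev 2 (1 - 2 * ε) (1 - ε) (by linarith),
    Lam.pow_ev (1 / c0) (2 - 2 * ε) 2 (by linarith), Lam.pow_ev 2 (2 / 5 + e) (9 / 20) (by linarith),
    Lam.pow_ev 2 (4 / 5 + e) (4 / 5 + 2 * e) (by linarith), Lam.pow_ev (2 * A) 2 (2 + 5 * e) (by linarith),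
    Lam.pow_ev 2 (4 / 5 - e) (4 / 5 + 2 * e) (by linarith), Lam.pow_ev A 2 (2 + 2 * e) (by linarith),
    Lam.pow_ev (8 / c0) (2 - e) 2 (by linarith), Lam.pow_ev A 2 (2 + 3 * e) (by linarith),
    Lam.pow_ev 2 (2 / 5 + e) (4 / 5 - e) (by linarith), Lam.pow_ev 2 (4 / 5 + e) (1 - ε) (by linarith),
    eventually_ge_atTop 1] with x h1 h2 h3 h4 h5 h6 h7 h8 h9 h10 h11 h12 hx1
  have hxr : (1 : ℝ) ≤ x := by exact_mod_cast hx1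
  have hxp : (0 : ℝ) < x := by linarith
  have x2 : (x : ℝ) ^ (2 : ℝ) = (x : ℝ) ^ 2 := by norm_cast
  rw [x2] at h3 h6 h8 h9 h10
  obtain ⟨U, hU⟩ : ∃ U : ℕ, U = ⌈(x : ℝ) ^ (4 / 5 - e)⌉₊ := ⟨_, rfl⟩
  obtain ⟨Q, hQ⟩ : ∃ Q : ℕ, Q = ⌈(x : ℝ) ^ (2 / 5 + e)⌉₊ := ⟨_, rfl⟩
  obtain ⟨V, hV⟩ : ∃ V : ℕ, V = ⌈(x : ℝ) ^ (4 / 5 + e)⌉₊ := ⟨_, rfl⟩
  obtain ⟨y, hy⟩ : ∃ y : ℕ, y = ⌊(x : ℝ) ^ (1 - ε)⌋₊ := ⟨_, rfl⟩
  have hU1 : (x : ℝ) ^ (4 / 5 - e) ≤ U := by rw [hU]; exact Nat.le_ceil _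
  have hQ1 : (x : ℝ) ^ (2 / 5 + e) ≤ Q := by rw [hQ]; exact Nat.le_ceil _
  have hV1 : (x : ℝ) ^ (4 / 5 + e) ≤ V := by rw [hV]; exact Nat.le_ceil _
  have hU2 : (U : ℝ) ≤ 2 * (x : ℝ) ^ (4 / 5 - e) := by rw [hU]; exact ceil_pow hx1 (by linarith)
  have hQ2 : (Q : ℝ) ≤ 2 * (x : ℝ) ^ (2 / 5 + e) := by rw [hQ]; exact ceil_pow hx1 (by linarith)
  have hV2 : (V : ℝ) ≤ 2 * (x : ℝ) ^ (4 / 5 + e) := by rw [hV]; exact ceil_pow hx1 (by linarith)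
  have hy1 : (y : ℝ) ≤ (x : ℝ) ^ (1 - ε) := by rw [hy]; exact Nat.floor_le (by positivity)
  have hy2 : (x : ℝ) ^ (1 - ε) < y + 1 := by rw [hy]; exact Nat.lt_floor_add_one _
  have k2 : (1 : ℝ) ≤ (x : ℝ) ^ (1 - 2 * ε) := Real.one_le_rpow hxr (by linarith)
  have kU : (1 : ℝ) ≤ (x : ℝ) ^ (4 / 5 - e) := Real.one_le_rpow hxr (by linarith)
  have hQQ : (x : ℝ) ^ (4 / 5 + 2 * e) ≤ (Q : ℝ) * Q := by
    calc (x : ℝ) ^ (4 / 5 + 2 * e) = (x : ℝ) ^ (2 / 5 + e) * (x : ℝ) ^ (2 / 5 + e) := by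
          rw [← Real.rpow_add hxp]; congr 1; ring
      _ ≤ (Q : ℝ) * Q := mul_le_mul hQ1 hQ1 (by positivity) (Nat.cast_nonneg _)
  have hQ3 : (x : ℝ) ^ (6 / 5 + 3 * e) ≤ (Q : ℝ) ^ 3 := by
    calc (x : ℝ) ^ (6 / 5 + 3 * e) = ((x : ℝ) ^ (2 / 5 + e)) ^ 3 := by
          rw [← Real.rpow_natCast, ← Real.rpow_mul hxp.le]; congr 1; push_cast; ring
      _ ≤ (Q : ℝ) ^ 3 := pow_le_pow_left₀ (by positivity) hQ1 3
  have hQ5 : (x : ℝ) ^ (2 + 5 * e) ≤ (Q : ℝ) ^ 5 := by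
    calc (x : ℝ) ^ (2 + 5 * e) = ((x : ℝ) ^ (2 / 5 + e)) ^ 5 := by
          rw [← Real.rpow_natCast, ← Real.rpow_mul hxp.le]; congr 1; push_cast; ring
      _ ≤ (Q : ℝ) ^ 5 := pow_le_pow_left₀ (by positivity) hQ1 5
  refine ⟨U, y, Q, V, ?_, ?_, ?_, ?_, hy1, ?_, hU1, hU2.trans h1, ?_, hQ2.trans h4, hV2.trans h5, ?_, ?_, ?_, ?_, ?_, ?_, ?_⟩
  · have : (1 : ℝ) ≤ U := kU.trans hU1
    exact_mod_cast this
  · have : (Q : ℝ) ≤ U := (hQ2.trans h11).trans hU1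
    exact_mod_cast this
  · have h : (x : ℝ) ^ (4 / 5 - e) ≤ (x : ℝ) ^ (4 / 5 + e) := Real.rpow_le_rpow_of_exponent_le hxr (by linarith)
    rw [hU, hV]
    exact Nat.ceil_le_ceil h
  · rw [hy]
    exact Nat.le_floor (hV2.trans h12)
  · linarith
  · exact (Real.rpow_le_rpow_of_exponent_le hxr (by linarith)).trans hQ1
  · push_cast
    calc (Q : ℝ) * Q ≤ (x : ℝ) ^ (9 / 20 : ℝ) * (x : ℝ) ^ (9 / 20 : ℝ) :=
          mul_le_mul (hQ2.trans h4) (hQ2.trans h4) (Nat.cast_nonneg _) (by positivity)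
      _ = (x : ℝ) ^ (9 / 10 : ℝ) := by rw [← Real.rpow_add hxp]; norm_num
  · push_cast
    rw [div_mul_eq_mul_div, one_mul, div_le_iff₀ hc0] at h3
    calc (y : ℝ) * y ≤ (x : ℝ) ^ (1 - ε) * (x : ℝ) ^ (1 - ε) := by gcongr
      _ = (x : ℝ) ^ (2 - 2 * ε) := by rw [← Real.rpow_add hxp]; congr 1; ring
      _ ≤ c0 * x ^ 2 := by linarith
  · push_cast
    have : (0 : ℝ) < (x : ℝ) ^ 2 := by positivity
    have : A * (x : ℝ) ^ 2 < 2 * A * (x : ℝ) ^ 2 := by nlinarith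
    linarith
  · have : (U : ℝ) ≤ ((Q * Q : ℕ) : ℝ) := by
      push_cast
      linarith
    exact_mod_cast this
  · push_cast
    calc A * (x : ℝ) ^ 2 ≤ (x : ℝ) ^ (2 + 2 * e) := h8
      _ = (x : ℝ) ^ (4 / 5 - e) * (x : ℝ) ^ (6 / 5 + 3 * e) := by rw [← Real.rpow_add hxp]; congr 1; ring
      _ ≤ (U : ℝ) * (Q : ℝ) ^ 3 := mul_le_mul hU1 hQ3 (by positivity) (Nat.cast_nonneg _)
  · push_cast
    rw [div_mul_eq_mul_div, div_le_iff₀ hc0] at h9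
    calc (U : ℝ) * U * Q ≤ (2 * (x : ℝ) ^ (4 / 5 - e)) * (2 * (x : ℝ) ^ (4 / 5 - e)) * (2 * (x : ℝ) ^ (2 / 5 + e)) := by gcongr
      _ = 8 * ((x : ℝ) ^ (4 / 5 - e) * (x : ℝ) ^ (4 / 5 - e) * (x : ℝ) ^ (2 / 5 + e)) := by ring
      _ = 8 * (x : ℝ) ^ (2 - e) := by
          rw [← Real.rpow_add hxp, ← Real.rpow_add hxp]
          congr 2
          ring
      _ ≤ c0 * x ^ 2 := by linarith
  · push_cast
    calc A * (x : ℝ) ^ 2 ≤ (x : ℝ) ^ (2 + 3 * e) := h10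
      _ = (x : ℝ) ^ (4 / 5 + e) * (x : ℝ) ^ (4 / 5 + e) * (x : ℝ) ^ (2 / 5 + e) := by
          rw [← Real.rpow_add hxp, ← Real.rpow_add hxp]; congr 1; ring
      _ ≤ (V : ℝ) * V * Q := by gcongr

end Par

end Pool.Agent.N792
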