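import Mathlib
import Pool.Agent.N792.RStm
import Pool.Agent.N792.TH5

/-!
The pointwise bound for the combination of type I and type II functions (helper792).
-/

set_option autoImplicit false

namespace Pool.Agent.N792

open Finset Filter Topology
open ArithmeticFunction (moebius)

/-- the main function -/
noncomputable def G9 (Q V N : ℕ) : ℝ := pi0 N - 2 * pi3 Q V N

/-- the error function -/
noncomputable def Bad (z y Q K : ℕ) (zs : ℕ → ℕ) (N : ℕ) : ℝ := gp z y N + sqd z N + T1 z (Q * Q) (same K zs) N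

namespace Pt

lemma pi0_le (k : ℕ) : 0 ≤ pi0 k ∧ pi0 k ≤ 1 := by
  unfold pi0
  split_ifs <;> norm_num

lemma pi2_le (Q k : ℕ) : 0 ≤ pi2 Q k ∧ pi2 Q k ≤ 1 := by
  unfold pi2
  split_ifs <;> norm_num

lemma pi3_le (Q V k : ℕ) : 0 ≤ pi3 Q V k ∧ pi3 Q V k ≤ 1 := by
  unfold pi3
  split_ifs <;> norm_num

lemma same_nonneg (K : ℕ) (zs : ℕ → ℕ) (j : ℕ) : 0 ≤ same K zs j := by
  unfold same
  exact Nat.cast_nonneg _

lemma gp_nonneg (z y N : ℕ) : 0 ≤ gp z y N := by
  unfold gp
  exact mul_nonneg (rg_range z N).1 (Nat.cast_nonneg _)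

lemma sqd_nonneg (z N : ℕ) : 0 ≤ sqd z N := by
  unfold sqd
  apply mul_nonneg (rg_range z N).1
  split_ifs <;> norm_num

lemma T1_nonneg (z U : ℕ) (g : ℕ → ℝ) (hg : ∀ j, 0 ≤ g j) (N : ℕ) : 0 ≤ T1 z U g N := by
  unfold T1
  exact mul_nonneg (rg_range z N).1 (sum_nonneg fun j _ => hg j)

lemma Bad_nonneg (z y Q K : ℕ) (zs : ℕ → ℕ) (N : ℕ) : 0 ≤ Bad z y Q K zs N := by
  unfold Bad
  have := gp_nonneg z y N
  have := sqd_nonneg z N
  have := T1_nonneg z (Q * Q) (same K zs) (same_nonneg K zs) N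
  linarith

lemma T2_abs (z U y : ℕ) (f g : ℕ → ℝ) (N : ℕ) : |T2 z U y f g N| ≤ ∑ j ∈ N.divisors, |f j| * |g (N / j)| := by
  unfold T2
  rw [abs_mul, abs_of_nonneg (rg_range z N).1]
  have h1 : |∑ j ∈ N.divisors.filter (fun j => U < j ∧ j ≤ y), f j * g (N / j)| ≤ ∑ j ∈ N.divisors, |f j| * |g (N / j)| := by
    refine (abs_sum_le_sum_abs _ _).trans ?_
    refine (sum_le_sum_of_subset_of_nonneg (filter_subset _ _) (fun _ _ _ => abs_nonneg _)).trans ?_
    apply sum_le_sum
    intro j _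
    rw [abs_mul]
  calc rg z N * |∑ j ∈ N.divisors.filter (fun j => U < j ∧ j ≤ y), f j * g (N / j)| ≤ 1 * |_| :=
        mul_le_mul_of_nonneg_right (rg_range z N).2 (abs_nonneg _)
    _ ≤ _ := by rw [one_mul]; exact h1

lemma T2_abs1 (z U y : ℕ) (f g : ℕ → ℝ) (N : ℕ) (hf : ∀ j, |f j| ≤ 1) (hg : ∀ j, |g j| ≤ 1) :
    |T2 z U y f g N| ≤ #N.divisors := by
  refine (T2_abs z U y f g N).trans ?_
  calc ∑ j ∈ N.divisors, |f j| * |g (N / j)| ≤ ∑ _j ∈ N.divisors, (1 : ℝ) := by
        apply sum_le_sum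
        intro j _
        calc |f j| * |g (N / j)| ≤ 1 * 1 := mul_le_mul (hf j) (hg _) (abs_nonneg _) zero_le_one
          _ = 1 := one_mul 1
    _ = #N.divisors := by simp

lemma alf_sum (K : ℕ) (zs : ℕ → ℕ) (hm : ∀ i < K, zs i ≤ zs (i + 1)) (U j : ℕ) :
    ∑ i ∈ range K, |alf (zs i) (zs (i + 1)) U j| ≤ #j.primeFactors := by
  classical
  have hmono : ∀ i i' : ℕ, i ≤ i' → i' ≤ K → zs i ≤ zs i' := by
    intro i i' h
    induction i', h using Nat.le_induction with
    | base => intro _; exact le_rfl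
    | succ n hn ih =>
      intro hn2
      exact (ih (by omega)).trans (hm n (by omega))
  have h1 : ∀ i ∈ range K, |alf (zs i) (zs (i + 1)) U j| ≤
      ∑ q ∈ j.primeFactors, (if zs i < q ∧ q ≤ zs (i + 1) then (1 : ℝ) else 0) := by
    intro i _
    unfold alf
    refine (abs_sum_le_sum_abs _ _).trans ?_
    rw [← sum_filter]
    apply sum_le_sum
    intro q _
    split_ifs
    · have := ArithmeticFunction.abs_moebius_le_one (n := j / q)
      exact_mod_cast this
    · simp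
  refine (sum_le_sum h1).trans ?_
  rw [sum_comm]
  calc ∑ q ∈ j.primeFactors, ∑ i ∈ range K, (if zs i < q ∧ q ≤ zs (i + 1) then (1 : ℝ) else 0) ≤
      ∑ _q ∈ j.primeFactors, (1 : ℝ) := by
        apply sum_le_sum
        intro q _
        rw [← sum_filter, sum_const, nsmul_eq_mul, mul_one]
        have : #((range K).filter (fun i => zs i < q ∧ q ≤ zs (i + 1))) ≤ 1 := by
          rw [card_le_one]
          intro i hi i' hi'
          rw [mem_filter, mem_range] at hi hi'
          by_contra hne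
          rcases Nat.lt_or_gt_of_ne hne with h | h
          · have := hmono (i + 1) i' (by omega) (by omega)
            omega
          · have := hmono (i' + 1) i (by omega) (by omega)
            omega
        exact_mod_cast this
    _ = #j.primeFactors := by simp

lemma HL9_abs (z U y Q V K : ℕ) (zs : ℕ → ℕ) (hm : ∀ i < K, zs i ≤ zs (i + 1)) (N : ℕ) (hN : N ≠ 0) :
    |HL9 z U y Q V K zs N| ≤ 9 * (#N.divisors : ℝ) ^ 2 := by
  classical
  obtain ⟨D, hD⟩ : ∃ D : ℝ, D = #N.divisors := ⟨_, rfl⟩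
  have hD1 : 1 ≤ D := by
    rw [hD]
    have : 1 ≤ #N.divisors := card_pos.2 ⟨1, by rw [Nat.mem_divisors]; exact ⟨one_dvd _, hN⟩⟩
    exact_mod_cast this
  have hpi0 : ∀ j, |pi0 j| ≤ 1 := fun j => by rw [abs_of_nonneg (pi0_le j).1]; exact (pi0_le j).2
  have hpi2 : ∀ j, |pi2 Q j| ≤ 1 := fun j => by rw [abs_of_nonneg (pi2_le Q j).1]; exact (pi2_le Q j).2
  have t0 : |T1 z U (fun d => (moebius d : ℝ)) N| ≤ D := by
    unfold T1
    rw [abs_mul, abs_of_nonneg (rg_range z N).1]
    have h1 : |∑ j ∈ N.divisors.filter (fun j => j ≤ U), (moebius j : ℝ)| ≤ D := by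
      refine (abs_sum_le_sum_abs _ _).trans ?_
      have h2 : ∀ j ∈ N.divisors.filter (fun j => j ≤ U), |(moebius j : ℝ)| ≤ 1 := by
        intro j _
        have := ArithmeticFunction.abs_moebius_le_one (n := j)
        exact_mod_cast this
      refine (sum_le_card_nsmul _ _ _ h2).trans ?_
      rw [nsmul_eq_mul, mul_one, hD]
      exact_mod_cast card_filter_le _ _
    calc rg z N * |_| ≤ 1 * |_| := mul_le_mul_of_nonneg_right (rg_range z N).2 (abs_nonneg _)
      _ ≤ D := by rw [one_mul]; exact h1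
  have hpf : ∀ j, j ∣ N → (#j.primeFactors : ℝ) ≤ D := by
    intro j hj
    rw [hD]
    have : #j.primeFactors ≤ #N.divisors := by
      apply card_le_card
      intro p hp
      rw [Nat.mem_divisors]
      exact ⟨(Nat.dvd_of_mem_primeFactors hp).trans hj, hN⟩
    exact_mod_cast this
  have hrg : ∀ i j, |rg i j| ≤ 1 := fun i j => by rw [abs_of_nonneg (rg_range i j).1]; exact (rg_range i j).2
  have t1 : ∑ i ∈ range K, |T2 z U y (alf (zs i) (zs (i + 1)) U) (rg (zs (i + 1))) N| ≤ D ^ 2 := by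
    have h1 : ∀ i ∈ range K, |T2 z U y (alf (zs i) (zs (i + 1)) U) (rg (zs (i + 1))) N| ≤
        ∑ j ∈ N.divisors, |alf (zs i) (zs (i + 1)) U j| := by
      intro i _
      refine (T2_abs _ _ _ _ _ _).trans ?_
      apply sum_le_sum
      intro j _
      exact mul_le_of_le_one_right (abs_nonneg _) (hrg _ _)
    refine (sum_le_sum h1).trans ?_
    rw [sum_comm]
    calc ∑ j ∈ N.divisors, ∑ i ∈ range K, |alf (zs i) (zs (i + 1)) U j| ≤ ∑ _j ∈ N.divisors, D := by
          apply sum_le_sum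
          intro j hj
          exact (alf_sum K zs hm U j).trans (hpf j (Nat.dvd_of_mem_divisors hj))
      _ = D ^ 2 := by rw [sum_const, nsmul_eq_mul, ← hD, sq]
  have t2 : ∑ i ∈ range K, |T2 z U y (rg (zs (i + 1))) (alf (zs i) (zs (i + 1)) U) N| ≤ D ^ 2 := by
    have h1 : ∀ i ∈ range K, |T2 z U y (rg (zs (i + 1))) (alf (zs i) (zs (i + 1)) U) N| ≤
        ∑ j ∈ N.divisors, |alf (zs i) (zs (i + 1)) U (N / j)| := by
      intro i _
      refine (T2_abs _ _ _ _ _ _).trans ?_
      apply sum_le_sum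
      intro j _
      exact mul_le_of_le_one_left (abs_nonneg _) (hrg _ _)
    refine (sum_le_sum h1).trans ?_
    rw [sum_comm]
    calc ∑ j ∈ N.divisors, ∑ i ∈ range K, |alf (zs i) (zs (i + 1)) U (N / j)| ≤ ∑ _j ∈ N.divisors, D := by
          apply sum_le_sum
          intro j hj
          exact (alf_sum K zs hm U (N / j)).trans (hpf (N / j) (Nat.div_dvd_of_dvd (Nat.dvd_of_mem_divisors hj)))
      _ = D ^ 2 := by rw [sum_const, nsmul_eq_mul, ← hD, sq]
  have t12 : |∑ i ∈ range K, (T2 z U y (alf (zs i) (zs (i + 1)) U) (rg (zs (i + 1))) N +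
      T2 z U y (rg (zs (i + 1))) (alf (zs i) (zs (i + 1)) U) N)| ≤ 2 * D ^ 2 := by
    refine (abs_sum_le_sum_abs _ _).trans ?_
    refine (sum_le_sum fun i _ => abs_add_le _ _).trans ?_
    rw [sum_add_distrib]
    linarith
  have t3 := T2_abs1 z U y pi0 pi0 N hpi0 hpi0
  have t4 := T2_abs1 z U y pi0 (pi2 Q) N hpi0 hpi2
  have t5 := T2_abs1 z V y pi0 (pi2 Q) N hpi0 hpi2
  have t6 := T2_abs1 z U y (pi2 Q) pi0 N hpi2 hpi0
  have t7 := T2_abs1 z U y (pi2 Q) (pi2 Q) N hpi2 hpi2
  rw [← hD] at t3 t4 t5 t6 t7 ⊢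
  have hDD : D ≤ D ^ 2 := le_self_pow₀ hD1 (by norm_num)
  unfold HL9
  rw [abs_le] at t0 t12 t3 t4 t5 t6 t7 ⊢
  constructor <;> linarith

/-- **the pointwise bound** -/
theorem pt (hX5 : X5) (z U y Q V K N : ℕ) (zs : ℕ → ℕ) (D : ℝ) (hz : 1 ≤ z) (hU : 1 ≤ U) (hQU : Q ≤ U) (hUV : U ≤ V) (hVy : V ≤ y)
    (h0 : zs 0 = z) (hK : zs K = Q) (hm : ∀ i < K, zs i ≤ zs (i + 1)) (h1 : y * y < N) (h2 : N < Q ^ 5) (h3 : U ≤ Q * Q)
    (h4 : N ≤ U * Q ^ 3) (h5 : U * U * Q < N) (h6 : N ≤ V * V * Q) (hD : Rough z N → (#N.divisors : ℝ) ≤ D) :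
    |HL9 z U y Q V K zs N - G9 Q V N| ≤ 12 * D ^ 2 * Bad z y Q K zs N := by
  classical
  have hmono : ∀ i i' : ℕ, i ≤ i' → i' ≤ K → zs i ≤ zs i' := by
    intro i i' h
    induction i', h using Nat.le_induction with
    | base => intro _; exact le_rfl
    | succ n hn ih =>
      intro hn2
      exact (ih (by omega)).trans (hm n (by omega))
  have hzQ : z ≤ Q := by rw [← h0, ← hK]; exact hmono 0 K (by omega) le_rfl
  have hB := Bad_nonneg z y Q K zs N
  have hN0 : N ≠ 0 := by omega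
  have hy1 : 1 ≤ y := by omega
  have hyN : y < N := by nlinarith
  by_cases hr : Rough z N
  swap
  · -- everything vanishes
    have hrg : rg z N = 0 := by unfold rg; rw [if_neg hr]
    have hH : HL9 z U y Q V K zs N = 0 := by
      unfold HL9 T1 T2
      simp [hrg]
    have hp0 : pi0 N = 0 := by
      unfold pi0
      rw [if_neg]
      intro hp
      apply hr
      refine ⟨hN0, fun p hp' hd => ?_⟩
      rw [(Nat.prime_dvd_prime_iff_eq hp' hp).1 hd]
      omega
    have hp3 : pi3 Q V N = 0 := by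
      unfold pi3
      rw [if_neg]
      rintro ⟨p, q, r, hp, hq, hr', h1, h2, h3, h4, h5⟩
      apply hr
      refine ⟨hN0, fun p' hp' hd => ?_⟩
      rw [h5] at hd
      rcases (Nat.Prime.dvd_mul hp').1 hd with hd | hd
      · rcases (Nat.Prime.dvd_mul hp').1 hd with hd | hd
        · rw [(Nat.prime_dvd_prime_iff_eq hp' hp).1 hd]; omega
        · rw [(Nat.prime_dvd_prime_iff_eq hp' hq).1 hd]; omega
      · rw [(Nat.prime_dvd_prime_iff_eq hp' hr').1 hd]; omega
    unfold G9
    rw [hH, hp0, hp3]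
    norm_num
    positivity
  · have hD' := hD hr
    have hD1 : (1 : ℝ) ≤ D := by
      refine le_trans ?_ hD'
      have : 1 ≤ #N.divisors := card_pos.2 ⟨1, by rw [Nat.mem_divisors]; exact ⟨one_dvd _, hN0⟩⟩
      exact_mod_cast this
    have hrg : rg z N = 1 := by unfold rg; rw [if_pos hr]
    -- a bad number
    have hbad : 1 ≤ Bad z y Q K zs N → |HL9 z U y Q V K zs N - G9 Q V N| ≤ 12 * D ^ 2 * Bad z y Q K zs N := by
      intro hb
      have g1 := HL9_abs z U y Q V K zs hm N hN0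
      have g2 : (#N.divisors : ℝ) ^ 2 ≤ D ^ 2 := pow_le_pow_left₀ (Nat.cast_nonneg _) hD' 2
      have g3 : |G9 Q V N| ≤ 3 := by
        unfold G9
        have := pi0_le N
        have := pi3_le Q V N
        rw [abs_le]
        constructor <;> linarith
      have g4 := abs_sub (HL9 z U y Q V K zs N) (G9 Q V N)
      have g5 : (1 : ℝ) ≤ D ^ 2 := one_le_pow₀ hD1
      have g6 : 12 * D ^ 2 * 1 ≤ 12 * D ^ 2 * Bad z y Q K zs N := mul_le_mul_of_nonneg_left hb (by positivity)
      linarith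
    by_cases hsq : Squarefree N
    swap
    · apply hbad
      have e1 : sqd z N = 1 := by
        unfold sqd
        rw [hrg, if_neg hsq, mul_one]
      unfold Bad
      have := gp_nonneg z y N
      have := T1_nonneg z (Q * Q) (same K zs) (same_nonneg K zs) N
      linarith
    by_cases hgap : ∃ j, j ∣ N ∧ y ≤ j ∧ y ≤ N / j
    · obtain ⟨j, hj1, hj2, hj3⟩ := hgap
      apply hbad
      have e1 : 1 ≤ gp z y N := by
        unfold gp
        rw [hrg, one_mul]
        have : 1 ≤ #(N.divisors.filter (fun j => y ≤ j ∧ y ≤ N / j)) := card_pos.2 ⟨j, by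
          rw [mem_filter, Nat.mem_divisors]
          exact ⟨⟨hj1, hN0⟩, hj2, hj3⟩⟩
        exact_mod_cast this
      unfold Bad
      have := sqd_nonneg z N
      have := T1_nonneg z (Q * Q) (same K zs) (same_nonneg K zs) N
      linarith
    by_cases hsame : ∃ i < K, ∃ p q : ℕ, p.Prime ∧ q.Prime ∧ p ∣ N ∧ q ∣ N ∧ zs i < p ∧ p < q ∧ q ≤ zs (i + 1)
    · obtain ⟨i, hi, p, q, hp, hq, hpN, hqN, s1, s2, s3⟩ := hsame
      apply hbad
      have hqQ : q ≤ Q := s3.trans (by rw [← hK]; exact hmono (i + 1) K (by omega) le_rfl)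
      have hpq : p * q ∣ N := (Nat.Coprime.mul_dvd_of_dvd_of_dvd
        ((Nat.coprime_primes hp hq).2 (by omega)) hpN hqN)
      have e1 : 1 ≤ same K zs (p * q) := by
        unfold same
        have : 1 ≤ #((range K).filter (fun i => ∃ p' q' : ℕ, p'.Prime ∧ q'.Prime ∧ zs i < p' ∧ p' < q' ∧ q' ≤ zs (i + 1) ∧ p * q = p' * q')) :=
          card_pos.2 ⟨i, by
            rw [mem_filter, mem_range]
            exact ⟨hi, p, q, hp, hq, s1, s2, s3, rfl⟩⟩
        exact_mod_cast this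
      have e2 : 1 ≤ T1 z (Q * Q) (same K zs) N := by
        unfold T1
        rw [hrg, one_mul]
        refine e1.trans ?_
        apply single_le_sum (f := same K zs) (fun j _ => same_nonneg K zs j)
        rw [mem_filter, Nat.mem_divisors]
        exact ⟨⟨hpq, hN0⟩, Nat.mul_le_mul (by omega) hqQ⟩
      unfold Bad
      have := gp_nonneg z y N
      have := sqd_nonneg z N
      linarith
    -- a good number
    have key := hX5 z U y Q V K N zs hz hU hQU hUV hVy h0 hK hm h1 h2 h3 h4 h5 h6 hsq hr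
      (fun j hj hcon => hgap ⟨j, hj, hcon⟩) (by
        intro i hi p q hp hq hpN hqN s1 s2 s3 s4
        by_contra hne
        apply hsame
        rcases Nat.lt_or_gt_of_ne hne with h | h
        · exact ⟨i, hi, p, q, hp, hq, hpN, hqN, s1, h, s4⟩
        · exact ⟨i, hi, q, p, hq, hp, hqN, hpN, s3, h, s2⟩)
    unfold G9
    rw [key, sub_self, abs_zero]
    positivity

end Pt

end Pool.Agent.N792
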