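import Mathlib
import Pool.Agent.N792.RPt
import Pool.Agent.N792.RPar
import Pool.Agent.N792.QG9
import Pool.Agent.N792.LamA
import Pool.Agent.N792.LamB

/-!
The primes minus twice the products of three primes, on average over `c` (helper792).
-/

set_option autoImplicit false

namespace Pool.Agent.N792

open Finset Filter Topology
open ArithmeticFunction (moebius)

/-- the difference between the sum over the values and the expected value -/
noncomputable def Phi (a b : ℤ) (x1 x c w : ℕ) (F : ℕ → ℝ) : ℝ := Lc a b x1 x c F - Vc a b c w / V1 w * Ls a b x1 x F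

namespace L9

variable (a b : ℤ) (x1 x c w : ℕ)

lemma Phi_add (F G : ℕ → ℝ) : Phi a b x1 x c w (fun N => F N + G N) = Phi a b x1 x c w F + Phi a b x1 x c w G := by
  unfold Phi Lc Ls
  simp only [add_mul, sum_add_distrib]
  ring

lemma Phi_sub (F G : ℕ → ℝ) : Phi a b x1 x c w (fun N => F N - G N) = Phi a b x1 x c w F - Phi a b x1 x c w G := by
  unfold Phi Lc Ls
  simp only [sub_mul, sum_sub_distrib]
  ring

lemma Phi_smul (r : ℝ) (F : ℕ → ℝ) : Phi a b x1 x c w (fun N => r * F N) = r * Phi a b x1 x c w F := by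
  unfold Phi Lc Ls
  simp only [mul_assoc, ← mul_sum]
  ring

lemma Phi_sum (K : ℕ) (F : ℕ → ℕ → ℝ) : Phi a b x1 x c w (fun N => ∑ i ∈ range K, F i N) =
    ∑ i ∈ range K, Phi a b x1 x c w (F i) := by
  unfold Phi Lc Ls
  rw [sum_sub_distrib, ← mul_sum]
  congr 1
  · rw [sum_comm]
  · congr 1
    rw [sum_comm]
    apply sum_congr rfl
    intro N _
    rw [sum_mul]

lemma Phi_HL9 (z U y Q V K : ℕ) (zs : ℕ → ℕ) : Phi a b x1 x c w (HL9 z U y Q V K zs) =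
    Phi a b x1 x c w (T1 z U (fun d => (moebius d : ℝ))) -
    ∑ i ∈ range K, (Phi a b x1 x c w (T2 z U y (alf (zs i) (zs (i + 1)) U) (rg (zs (i + 1)))) +
      Phi a b x1 x c w (T2 z U y (rg (zs (i + 1))) (alf (zs i) (zs (i + 1)) U))) -
    Phi a b x1 x c w (T2 z U y pi0 pi0) - Phi a b x1 x c w (T2 z U y pi0 (pi2 Q)) +
    2 * Phi a b x1 x c w (T2 z V y pi0 (pi2 Q)) + Phi a b x1 x c w (T2 z U y (pi2 Q) pi0) +
    Phi a b x1 x c w (T2 z U y (pi2 Q) (pi2 Q)) := by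
  have e : HL9 z U y Q V K zs = fun N => ((((((T1 z U (fun d => (moebius d : ℝ)) N -
    ∑ i ∈ range K, (T2 z U y (alf (zs i) (zs (i + 1)) U) (rg (zs (i + 1))) N +
      T2 z U y (rg (zs (i + 1))) (alf (zs i) (zs (i + 1)) U) N)) -
    T2 z U y pi0 pi0 N) - T2 z U y pi0 (pi2 Q) N) + 2 * T2 z V y pi0 (pi2 Q) N) + T2 z U y (pi2 Q) pi0 N) +
    T2 z U y (pi2 Q) (pi2 Q) N) := by
    funext N
    rfl
  rw [e, Phi_add, Phi_add, Phi_add, Phi_sub, Phi_sub, Phi_sub, Phi_smul, Phi_sum]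
  simp only [Phi_add]

lemma Phi_HL9_abs (z U y Q V K : ℕ) (zs : ℕ → ℕ) : |Phi a b x1 x c w (HL9 z U y Q V K zs)| ≤
    |Phi a b x1 x c w (T1 z U (fun d => (moebius d : ℝ)))| +
    ∑ i ∈ range K, (|Phi a b x1 x c w (T2 z U y (alf (zs i) (zs (i + 1)) U) (rg (zs (i + 1))))| +
      |Phi a b x1 x c w (T2 z U y (rg (zs (i + 1))) (alf (zs i) (zs (i + 1)) U))|) +
    |Phi a b x1 x c w (T2 z U y pi0 pi0)| + |Phi a b x1 x c w (T2 z U y pi0 (pi2 Q))| +
    2 * |Phi a b x1 x c w (T2 z V y pi0 (pi2 Q))| + |Phi a b x1 x c w (T2 z U y (pi2 Q) pi0)| +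
    |Phi a b x1 x c w (T2 z U y (pi2 Q) (pi2 Q))| := by
  rw [Phi_HL9]
  have h1 : |∑ i ∈ range K, (Phi a b x1 x c w (T2 z U y (alf (zs i) (zs (i + 1)) U) (rg (zs (i + 1)))) +
      Phi a b x1 x c w (T2 z U y (rg (zs (i + 1))) (alf (zs i) (zs (i + 1)) U)))| ≤
      ∑ i ∈ range K, (|Phi a b x1 x c w (T2 z U y (alf (zs i) (zs (i + 1)) U) (rg (zs (i + 1))))| +
      |Phi a b x1 x c w (T2 z U y (rg (zs (i + 1))) (alf (zs i) (zs (i + 1)) U))|) :=
    (abs_sum_le_sum_abs _ _).trans (sum_le_sum fun i _ => abs_add_le _ _)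
  obtain ⟨X, hX⟩ : ∃ X : ℝ, X = ∑ i ∈ range K, (Phi a b x1 x c w (T2 z U y (alf (zs i) (zs (i + 1)) U) (rg (zs (i + 1)))) +
      Phi a b x1 x c w (T2 z U y (rg (zs (i + 1))) (alf (zs i) (zs (i + 1)) U))) := ⟨_, rfl⟩
  rw [← hX] at h1 ⊢
  have k0 := abs_le.1 (le_refl |Phi a b x1 x c w (T1 z U (fun d => (moebius d : ℝ)))|)
  have k2 := abs_le.1 h1
  have k3 := abs_le.1 (le_refl |Phi a b x1 x c w (T2 z U y pi0 pi0)|)
  have k4 := abs_le.1 (le_refl |Phi a b x1 x c w (T2 z U y pi0 (pi2 Q))|)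
  have k5 := abs_le.1 (le_refl |Phi a b x1 x c w (T2 z V y pi0 (pi2 Q))|)
  have k6 := abs_le.1 (le_refl |Phi a b x1 x c w (T2 z U y (pi2 Q) pi0)|)
  have k7 := abs_le.1 (le_refl |Phi a b x1 x c w (T2 z U y (pi2 Q) (pi2 Q))|)
  rw [abs_le]
  constructor <;> linarith

/-- comparison of two functions -/
lemma Phi_compare (F G B : ℕ → ℝ) (M : ℝ) (hM : 0 ≤ M) (hB : ∀ N, 0 ≤ B N)
    (h1 : ∀ n ∈ Ioc x1 x, |F (fv a b c n).toNat - G (fv a b c n).toNat| ≤ M * B (fv a b c n).toNat)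
    (h2 : ∀ N ∈ Ioc (Fn a b x1) (Fn a b x), |F N - G N| ≤ M * B N) :
    |Phi a b x1 x c w G| ≤ |Phi a b x1 x c w F| + M * Lc a b x1 x c B + Vc a b c w / V1 w * (M * Ls a b x1 x B) := by
  have hS : 0 ≤ Vc a b c w / V1 w := div_nonneg (Mtm.Vc_bd a b c w).1 (Mtm.V1_pos' w).le
  have e1 : |Lc a b x1 x c F - Lc a b x1 x c G| ≤ M * Lc a b x1 x c B := by
    unfold Lc
    rw [← sum_sub_distrib, mul_sum]
    exact (abs_sum_le_sum_abs _ _).trans (sum_le_sum h1)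
  have e2 : |Ls a b x1 x F - Ls a b x1 x G| ≤ M * Ls a b x1 x B := by
    unfold Ls
    rw [← sum_sub_distrib, mul_sum]
    refine (abs_sum_le_sum_abs _ _).trans (sum_le_sum fun N hN => ?_)
    have h0 : 0 ≤ hw a N := by unfold hw; positivity
    rw [← sub_mul, abs_mul, abs_of_nonneg h0]
    calc |F N - G N| * hw a N ≤ (M * B N) * hw a N := mul_le_mul_of_nonneg_right (h2 N hN) h0
      _ = _ := by ring
  have e3 : Vc a b c w / V1 w * |Ls a b x1 x F - Ls a b x1 x G| ≤ Vc a b c w / V1 w * (M * Ls a b x1 x B) :=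
    mul_le_mul_of_nonneg_left e2 hS
  have e4 : Phi a b x1 x c w G = Phi a b x1 x c w F - (Lc a b x1 x c F - Lc a b x1 x c G) +
      Vc a b c w / V1 w * (Ls a b x1 x F - Ls a b x1 x G) := by
    unfold Phi
    ring
  rw [e4]
  have e5 := abs_add_le (Phi a b x1 x c w F - (Lc a b x1 x c F - Lc a b x1 x c G))
    (Vc a b c w / V1 w * (Ls a b x1 x F - Ls a b x1 x G))
  have e6 := abs_sub (Phi a b x1 x c w F) (Lc a b x1 x c F - Lc a b x1 x c G)
  rw [abs_mul, abs_of_nonneg hS] at e5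
  linarith

end L9

end Pool.Agent.N792
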