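import Mathlib
import Pool.Agent.N792.RLm2
import Pool.Agent.N792.FinC
import Pool.Agent.N792.Lia

/-!
The lower bound for the number of the prime values for almost all `c ≤ C`, `C ≥ x^(7/10+ε)` (helper792).
-/

set_option autoImplicit false

namespace Pool.Agent.N792

open Finset Filter Topology

/-- the lower bound for one `η` -/
def Concl9 (a b : ℤ) (ε η : ℝ) : Prop :=
    ∃ x0 : ℕ, ∀ x : ℕ, x0 ≤ x → ∀ C : ℕ, (x : ℝ) ^ (7 / 10 + ε) ≤ C → C ≤ x →
    ∃ Ex ⊆ Icc 1 C, (#Ex : ℝ) ≤ η * C ∧ ∀ c ∈ Icc 1 C, c ∉ Ex → Admissible a b c →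
      ∃ S : ℝ, 0 < S ∧ Tendsto (fun z => partialC a b c z) atTop (𝓝 S) ∧ ∀ u v : ℕ, u ≤ v → v ≤ x →
        3 / 4 * (eps a b * S * gcdProd a b * ∑ m ∈ Ioc u v, 1 / Real.log ((a : ℝ) * m ^ 2 + b * m + c)) -
          η * (eps a b * S * gcdProd a b * x / Real.log x) ≤
        (#((Ioc u v).filter (fun m : ℕ => (fv a b c m).toNat.Prime)) : ℝ)

namespace F9

open Fn124

lemma Lc_split (a b : ℤ) {x1 x2 x : ℕ} (c : ℕ) (F : ℕ → ℝ) (h1 : x1 ≤ x2) (h2 : x2 ≤ x) :
    Lc a b x1 x c F = Lc a b x1 x2 c F + Lc a b x2 x c F := by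
  unfold Lc
  rw [Finset.sum_Ioc_consecutive _ h1 h2]

lemma Ls_split {a b : ℤ} (ha : 0 < a) {x1 x2 x : ℕ} (F : ℕ → ℝ) (hb : b.natAbs ≤ x1) (h1 : x1 ≤ x2) (h2 : x2 ≤ x) :
    Ls a b x1 x F = Ls a b x1 x2 F + Ls a b x2 x F := by
  unfold Ls
  rw [Finset.sum_Ioc_consecutive _ (Mtm.Fn_mono ha hb h1) (Mtm.Fn_mono ha (hb.trans h1) h2)]

lemma Pc_eq (a b : ℤ) (c u v : ℕ) : (Pc a b c u v : ℝ) = Lc a b u v c pi0 := by
  classical
  unfold Pc Lc pi0
  rw [Finset.sum_boole]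

lemma Phi_self (a b : ℤ) (x c w : ℕ) (F : ℕ → ℝ) : Phi a b x x c w F = 0 := by
  unfold Phi Lc Ls
  simp

lemma Lc_G9_le (a b : ℤ) (c u v Q V : ℕ) : Lc a b u v c (G9 Q V) ≤ Lc a b u v c pi0 := by
  unfold Lc
  apply sum_le_sum
  intro n _
  unfold G9
  have := (Pt.pi3_le Q V (fv a b c n).toNat).1
  linarith

lemma Ls_G9 (a b : ℤ) (u v Q V : ℕ) : Ls a b u v (G9 Q V) = Ls a b u v pi0 - 2 * Ls a b u v (pi3 Q V) := by
  unfold Ls G9
  rw [mul_sum, ← sum_sub_distrib]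
  apply sum_congr rfl
  intro n _
  ring

/-- the argument for one `c` -/
lemma one_c9 {a b : ℤ} (ha : 0 < a) {c x R w Q V : ℕ} {L S M β θ lam η : ℝ} (hR : 2 < R) (hx : 1 ≤ x) (hL0 : 0 < L)
    (hθ : 0 < θ) (hβ0 : 0 < β) (hβ1 : β ≤ 1 / 2) (hlam : lam = β * θ) (hS : S = Vc a b c w / V1 w) (hSθ : θ ≤ S)
    (hg : (x : ℝ) / R + 1 ≤ 2 * β * x) (hη : 20 * β ≤ η) (hb : b.natAbs ≤ xg x R 1)
    (hPhi : ∀ i, 1 ≤ i → i < R → |Phi a b (xg x R i) x c w (G9 Q V)| ≤ lam * (x / L))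
    (hLs : ∀ i j, 1 ≤ i → i ≤ j → j ≤ R → xg x R i < xg x R j →
      3 / 8 * (((xg x R j : ℝ) - xg x R i) / L) - 3 * β * (x / L) ≤ Ls a b (xg x R i) (xg x R j) (G9 Q V))
    (hM : |M - S| ≤ S / L ^ 3) (hL3 : 1 / L ^ 3 ≤ β)
    (hli : ∀ u v : ℕ, u ≤ v → v ≤ x →
      |∑ m ∈ Ioc u v, 1 / Real.log ((a : ℝ) * m ^ 2 + b * m + c) - ((v : ℝ) - u) / (2 * L)| ≤ β * (x / L))
    (u v : ℕ) (huv : u ≤ v) (hvx : v ≤ x) :
    3 / 4 * (M * ∑ m ∈ Ioc u v, 1 / Real.log ((a : ℝ) * m ^ 2 + b * m + c)) - η * (M * x / L) ≤ (Pc a b c u v : ℝ) := by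
  have hR1 : 1 ≤ R := by omega
  have hxr : (0 : ℝ) < x := by exact_mod_cast (by omega : 0 < x)
  have hRr : (0 : ℝ) < R := by exact_mod_cast (by omega : 0 < R)
  have hS0 : 0 < S := lt_of_lt_of_le hθ hSθ
  have hX : 0 < (x : ℝ) / L := by positivity
  have hSL : S / L ^ 3 ≤ β * S := by
    calc S / L ^ 3 = 1 / L ^ 3 * S := by ring
      _ ≤ β * S := by gcongr
  have hM1 := abs_le.1 (hM.trans hSL)
  have hβS : β * S ≤ 1 / 2 * S := by gcongr
  have hMlo : S ≤ 2 * M := by linarith [hM1.1]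
  have hMhi : M ≤ (1 + β) * S := by linarith [hM1.2]
  have hM0 : 0 < M := by linarith
  obtain ⟨X, hXdef⟩ : ∃ X : ℝ, X = x / L := ⟨_, rfl⟩
  obtain ⟨D, hD⟩ : ∃ D : ℝ, D = ((v : ℝ) - u) / L := ⟨_, rfl⟩
  have huvr : (u : ℝ) ≤ v := by exact_mod_cast huv
  have hvr : (v : ℝ) ≤ x := by exact_mod_cast hvx
  have hur : (0 : ℝ) ≤ u := Nat.cast_nonneg _
  have hD0 : 0 ≤ D := by rw [hD]; apply div_nonneg (by linarith) hL0.le
  have hDX : D ≤ X := by
    rw [hD, hXdef]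
    apply div_le_div_of_nonneg_right (by linarith) hL0.le
  rw [← hXdef] at hX
  -- the sum
  have hli1 := (abs_le.1 (hli u v huv hvx)).2
  obtain ⟨Sg, hSg⟩ : ∃ Sg : ℝ, Sg = ∑ m ∈ Ioc u v, 1 / Real.log ((a : ℝ) * m ^ 2 + b * m + c) := ⟨_, rfl⟩
  rw [← hSg] at hli1 ⊢
  have e1 : ((v : ℝ) - u) / (2 * L) = D / 2 := by rw [hD]; field_simp
  rw [e1, ← hXdef] at hli1
  have e2 : M * x / L = M * X := by rw [hXdef]; ring
  rw [e2]
  have e3 : M * Sg ≤ M * (D / 2 + β * X) := mul_le_mul_of_nonneg_left (by linarith) hM0.le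
  have hMβX : 0 < M * (β * X) := by positivity
  have hηM : 20 * β * (M * X) ≤ η * (M * X) := mul_le_mul_of_nonneg_right hη (by positivity)
  -- the steps
  have hmono : ∀ i j, i ≤ j → xg x R i ≤ xg x R j := fun i j hij =>
    monotone_nat_of_le_succ (xg_mono x R · hR1) hij
  have hstep : ∀ i, (xg x R (i + 1) : ℝ) ≤ xg x R i + 2 * β * x := by
    intro i
    have k1 := xg_le x R (i + 1) hR1
    have k2 := le_xg x R i hR1
    have k3 : R * xg x R (i + 1) ≤ R * xg x R i + x + R := by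
      have : (i + 1) * x = i * x + x := by ring
      omega
    have k4 : (R : ℝ) * xg x R (i + 1) ≤ R * xg x R i + x + R := by exact_mod_cast k3
    have k5 : (xg x R (i + 1) : ℝ) ≤ xg x R i + (x / R + 1) := by
      have : (R : ℝ) * xg x R (i + 1) ≤ R * (xg x R i + (x / R + 1)) := by
        calc (R : ℝ) * xg x R (i + 1) ≤ R * xg x R i + x + R := k4
          _ = _ := by field_simp; ring
      exact le_of_mul_le_mul_left this hRr
    linarith
  have hP0 : (0 : ℝ) ≤ Pc a b c u v := Nat.cast_nonneg _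
  by_cases hcase : (v : ℝ) - u ≤ 4 * β * x
  · have hD4 : D ≤ 4 * β * X := by
      rw [hD, hXdef, div_le_iff₀ hL0]
      calc (v : ℝ) - u ≤ 4 * β * x := hcase
        _ = 4 * β * (x / L) * L := by field_simp
    have e4 : M * D ≤ M * (4 * β * X) := mul_le_mul_of_nonneg_left hD4 hM0.le
    nlinarith
  · push Not at hcase
    have h4βx : 0 < 4 * β * x := by positivity
    have hux : u < x := by
      have : (u : ℝ) < x := by linarith
      exact_mod_cast this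
    obtain ⟨i, hi, hi1, hi2⟩ := xg_between x R u hR1 hx hux
    obtain ⟨j, hjR, hj1, hj2⟩ : ∃ j ≤ R, xg x R j ≤ v ∧ (v : ℝ) ≤ xg x R j + 2 * β * x := by
      rcases lt_or_eq_of_le hvx with hv | hv
      · obtain ⟨j, hj, hj1, hj2⟩ := xg_between x R v hR1 hx hv
        refine ⟨j, hj.le, hj1, ?_⟩
        have : (v : ℝ) ≤ xg x R (j + 1) := by exact_mod_cast hj2
        linarith [hstep j]
      · refine ⟨R, le_rfl, ?_, ?_⟩
        · rw [xg_top x R hR1, hv]
        · rw [xg_top x R hR1, hv]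
          have : 0 < 2 * β * x := by positivity
          linarith
    have hi1r : (xg x R i : ℝ) ≤ u := by exact_mod_cast hi1
    have hi2r : (u : ℝ) ≤ xg x R (i + 1) := by exact_mod_cast hi2
    have hsi := hstep i
    have huv' : (xg x R (i + 1) : ℝ) < xg x R j := by linarith
    have huvn : xg x R (i + 1) < xg x R j := by exact_mod_cast huv'
    have hij : i + 1 ≤ j := by
      by_contra hcon
      have := hmono j (i + 1) (by omega)
      omega
    -- Phi at the two points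
    have hPhi' : ∀ i, 1 ≤ i → i ≤ R → |Phi a b (xg x R i) x c w (G9 Q V)| ≤ lam * X := by
      intro i hi1 hi2
      rcases lt_or_eq_of_le hi2 with h | h
      · rw [hXdef]; exact hPhi i hi1 h
      · rw [h, xg_top x R hR1, Phi_self, abs_zero, hlam]
        positivity
    have p1 := (abs_le.1 (hPhi' (i + 1) (by omega) (by omega))).1
    have p2 := (abs_le.1 (hPhi' j (by omega) hjR)).2
    unfold Phi at p1 p2
    rw [← hS] at p1 p2
    have hxj : xg x R j ≤ x := by omega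
    have hb' : b.natAbs ≤ xg x R (i + 1) := hb.trans (hmono 1 (i + 1) (by omega))
    rw [Lc_split a b c (G9 Q V) huvn.le hxj, Ls_split ha (G9 Q V) hb' huvn.le hxj] at p1
    have q1 := hLs (i + 1) j (by omega) hij hjR huvn
    have q2 := Lc_G9_le a b c (xg x R (i + 1)) (xg x R j) Q V
    rw [← Pc_eq] at q2
    have q3 : (Pc a b c (xg x R (i + 1)) (xg x R j) : ℝ) ≤ Pc a b c u v := by
      have r1 := Pc_add a b c u (xg x R (i + 1)) v hi2 (huvn.le.trans hj1)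
      have r2 := Pc_add a b c (xg x R (i + 1)) (xg x R j) v huvn.le hj1
      exact_mod_cast (by omega)
    have q4 : D - 4 * β * X ≤ ((xg x R j : ℝ) - xg x R (i + 1)) / L := by
      rw [hD, hXdef, le_div_iff₀ hL0]
      have : (((v : ℝ) - u) / L - 4 * β * (x / L)) * L = (v : ℝ) - u - 4 * β * x := by field_simp
      rw [this]
      linarith
    rw [← hXdef] at q1
    have q5 : 3 / 8 * (D - 4 * β * X) - 3 * β * X ≤ Ls a b (xg x R (i + 1)) (xg x R j) (G9 Q V) := by linarith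
    have q6 := mul_le_mul_of_nonneg_left q5 hS0.le
    have q7 : lam * X ≤ S * (β * X) := by
      rw [hlam]
      calc β * θ * X = θ * (β * X) := by ring
        _ ≤ S * (β * X) := mul_le_mul_of_nonneg_right hSθ (by positivity)
    have q8 : 3 / 8 * (S * D) - 13 / 2 * (S * (β * X)) ≤ (Pc a b c u v : ℝ) := by linarith
    have q9 : M * D ≤ (1 + β) * S * D := mul_le_mul_of_nonneg_right hMhi hD0
    have q10 : β * (S * D) ≤ β * (S * X) := by gcongr
    have q11 : S * (β * X) ≤ 2 * M * (β * X) := mul_le_mul_of_nonneg_right hMlo (by positivity)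
    nlinarith

end F9

end Pool.Agent.N792
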