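import Mathlib
import Pool.Agent.N792.RStm
import Pool.Agent.N792.ShpB
import Pool.Agent.N792.SwR

/-!
X1 of helper792 (by helper415): the bounds and the equidistribution of the coefficients of the type II sums.
The proofs of `sw_gen` and `sharp_gen` are those of `sw_rough` and `sharp_H2` (helper124, helper456) for general
functions with few steps.
-/

set_option autoImplicit false

namespace Pool.Agent.N792
namespace RX1
open Finset Filter Topology
open ArithmeticFunction (moebius)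

/-- Siegel-Walfisz for `z`-rough numbers with weights with few steps (proof of `sw_rough`) -/
theorem sw_gen (η : ℝ) (hη : 0 < η) (M A B : ℕ) : ∃ x0 : ℕ, ∀ x : ℕ, x0 ≤ x → ∀ z K u q r : ℕ,
    (x : ℝ) ^ η ≤ z → z ≤ x → x ≤ K → K ≤ x ^ 3 → u ≤ K → 1 ≤ q → (q : ℝ) ≤ Real.log x ^ B →
    r.Coprime q → ∀ g : ℕ → ℝ, (∀ k, k ≤ x ^ 3 → Rough z k → |g k| ≤ M) →
    (∀ m, m ≤ x ^ 3 → Rough z m → SwR.Step g m M) →
    |∑ k ∈ (Icc 1 u).filter (fun k => k ≡ r [MOD q]), rg z k * g k -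
      (∑ k ∈ Icc 1 u, rg z k * g k) / (Nat.totient q : ℝ)| ≤ K / Real.log x ^ A := by
  classical
  obtain ⟨y0, hy03, hsw⟩ := SwR.sw_int (A + 3) (B + 1)
  obtain ⟨x1, h1⟩ := SwR.evN _ ((tendsto_rpow_atTop hη).eventually_ge_atTop (y0 : ℝ))
  obtain ⟨x2, h2⟩ := SwR.evN _ (Real.tendsto_log_atTop.eventually_ge_atTop
    (1 + 1 / η ^ (B + 1) + 64 * M / η ^ (A + 3)))
  obtain ⟨x3, h3⟩ := SwR.evN _ (SwR.ev_pow B 1 η hη)
  obtain ⟨x4, h4⟩ := SwR.evN _ (SwR.ev_pow A (4 * M) 1 one_pos)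
  obtain ⟨x5, h5⟩ := SwR.evN _ (SwR.ev_pow A (4 * M) η hη)
  obtain ⟨x6, h6⟩ := SwR.evN _ (SwR.ev_pow (A + 1) 12 (1 / 2) (by norm_num))
  refine ⟨x1 + x2 + x3 + x4 + x5 + x6 + 3, ?_⟩
  intro x hx z K u q r hz hzx hxK hKx huK hq hqx hr g hgb hgS
  have g1 := h1 x (by omega)
  have g2 := h2 x (by omega)
  have g3 := h3 x (by omega)
  have g4 := h4 x (by omega)
  have g5 := h5 x (by omega)
  have g6 := h6 x (by omega)
  obtain ⟨ℓ, hℓ⟩ : ∃ ℓ : ℝ, ℓ = Real.log x := ⟨_, rfl⟩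
  rw [← hℓ] at g2 g3 g4 g5 g6 hqx ⊢
  have hx0 : (0 : ℝ) < x := by exact_mod_cast (by omega : 0 < x)
  have hx1 : (1 : ℝ) < x := by exact_mod_cast (by omega : 1 < x)
  have hM0 : (0 : ℝ) ≤ M := Nat.cast_nonneg M
  have e1 : 0 < 1 / η ^ (B + 1) := by positivity
  have e2 : 0 ≤ 64 * M / η ^ (A + 3) := by positivity
  have hℓ1 : 1 ≤ ℓ := by linarith
  have hℓ0 : 0 < ℓ := by linarith
  have hyz : y0 ≤ z := by
    have : (y0 : ℝ) ≤ z := g1.trans hz
    exact_mod_cast this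
  have hz1 : 1 ≤ z := by omega
  have hz0 : (0 : ℝ) < z := by exact_mod_cast (by omega : 0 < z)
  have hxη : 0 < (x : ℝ) ^ η := Real.rpow_pos_of_pos hx0 η
  have hlz : η * ℓ ≤ Real.log z := by
    rw [hℓ, ← Real.log_rpow hx0]
    exact Real.log_le_log hxη hz
  have hqz : q ≤ z := by
    have : (q : ℝ) ≤ z := hqx.trans ((by rw [one_mul] at g3; exact g3 : ℓ ^ B ≤ (x : ℝ) ^ η).trans hz)
    exact_mod_cast this
  have hηℓ : 0 < η * ℓ := by positivity
  have hqz2 : (q : ℝ) ≤ Real.log z ^ (B + 1) := by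
    refine hqx.trans (le_trans ?_ (pow_le_pow_left₀ hηℓ.le hlz (B + 1)))
    have e3 : 1 ≤ η ^ (B + 1) * ℓ := by
      have : 1 / η ^ (B + 1) ≤ ℓ := by linarith
      rw [div_le_iff₀ (by positivity)] at this
      linarith
    calc ℓ ^ B = 1 * ℓ ^ B := by ring
      _ ≤ (η ^ (B + 1) * ℓ) * ℓ ^ B := by gcongr
      _ = (η * ℓ) ^ (B + 1) := by rw [mul_pow]; ring
  obtain ⟨E, hE⟩ : ∃ E : ℝ, E = 2 / (η * ℓ) ^ (A + 3) := ⟨_, rfl⟩
  have hE0 : 0 ≤ E := by rw [hE]; positivity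
  have hEb : 2 / Real.log z ^ (A + 3) ≤ E := by
    rw [hE]
    apply div_le_div_of_nonneg_left (by norm_num) (by positivity)
    exact pow_le_pow_left₀ hηℓ.le hlz _
  have hK0 : (0 : ℝ) < K := by exact_mod_cast (by omega : 0 < K)
  have hxK' : (x : ℝ) ≤ K := by exact_mod_cast hxK
  have huK' : (u : ℝ) ≤ K := by exact_mod_cast huK
  have hlogK : Real.log K ≤ 3 * ℓ := by
    have : (K : ℝ) ≤ (x : ℝ) ^ 3 := by exact_mod_cast hKx
    calc Real.log K ≤ Real.log ((x : ℝ) ^ 3) := Real.log_le_log hK0 this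
      _ = 3 * ℓ := by rw [Real.log_pow, hℓ]; norm_num
  have hlogu : Real.log u ≤ 3 * ℓ := by
    rcases Nat.eq_zero_or_pos u with hu | hu
    · rw [hu]; simp; linarith
    · exact (Real.log_le_log (by exact_mod_cast hu) huK').trans hlogK
  have hlogu0 : 0 ≤ Real.log u := Real.log_natCast_nonneg u
  -- the final numerical bounds
  have hA0 : 0 < ℓ ^ A := by positivity
  have b1 : (M : ℝ) ≤ K / (4 * ℓ ^ A) := by
    rw [le_div_iff₀ (by positivity)]
    rw [Real.rpow_one] at g4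
    nlinarith
  have b2 : (M : ℝ) * (u / z) ≤ K / (4 * ℓ ^ A) := by
    have e3 : (M : ℝ) / z ≤ 1 / (4 * ℓ ^ A) := by
      rw [div_le_div_iff₀ hz0 (by positivity)]
      linarith [g5.trans hz]
    calc (M : ℝ) * (u / z) = M / z * u := by ring
      _ ≤ 1 / (4 * ℓ ^ A) * K := by gcongr
      _ = K / (4 * ℓ ^ A) := by ring
  have b3 : (M : ℝ) * E * (1 + 3 * ℓ) ≤ 1 / (4 * ℓ ^ A) := by
    have e3 : 64 * M / η ^ (A + 3) ≤ ℓ := by linarith
    rw [div_le_iff₀ (by positivity)] at e3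
    have e4 : (M : ℝ) * E * (1 + 3 * ℓ) ≤ M * E * (4 * ℓ) := by
      gcongr; linarith
    refine e4.trans ?_
    rw [hE, show (M : ℝ) * (2 / (η * ℓ) ^ (A + 3)) * (4 * ℓ) = (8 * M * ℓ) / (η * ℓ) ^ (A + 3) by ring,
      div_le_div_iff₀ (by positivity) (by positivity), mul_pow]
    have e5 : (32 : ℝ) * M ≤ ℓ * η ^ (A + 3) := by nlinarith
    calc 8 * (M : ℝ) * ℓ * (4 * ℓ ^ A) = (32 * M) * (ℓ * ℓ ^ A) := by ring
      _ ≤ (ℓ * η ^ (A + 3)) * (ℓ * ℓ ^ A) := by gcongr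
      _ = η ^ (A + 3) * ℓ ^ (A + 2) * 1 := by ring
      _ ≤ η ^ (A + 3) * ℓ ^ (A + 2) * ℓ := by gcongr
      _ = 1 * (η ^ (A + 3) * ℓ ^ (A + 3)) := by ring
  have hKA : (K : ℝ) / ℓ ^ A = 4 * (K / (4 * ℓ ^ A)) := by field_simp
  have hKA0 : 0 < (K : ℝ) / (4 * ℓ ^ A) := by positivity
  rw [SwR.sum_w q r (Icc 1 u) (fun k => rg z k * g k)]
  have e0 : ∑ k ∈ Icc 1 u, rg z k * g k * SwR.w q r k = ∑ k ∈ Icc 1 u, rg z k * (g k * SwR.w q r k) := by
    apply sum_congr rfl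
    intro k _
    ring
  rw [e0, SwR.sum_rg]
  have hEp : ∀ s b c : ℕ, z ≤ s → c < q → c.Coprime q →
      |∑ P ∈ (Ioc s b).filter Nat.Prime, SwR.w q c P| ≤ E * b := by
    intro s b c hs hc hcq
    refine (hsw z s b q c hyz hs hq hqz2 hc hcq).1.trans ?_
    gcongr
  refine (SwR.core z u q r M E hE0 hz1 hq hqz hr hEp g (fun k hk => hgb k (hk.trans (huK.trans hKx)))
    (fun m hm => hgS m (hm.trans (huK.trans hKx)))).trans ?_
  have e3 : (M : ℝ) * E * (u * (1 + Real.log u)) ≤ K / (4 * ℓ ^ A) := by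
    calc (M : ℝ) * E * (u * (1 + Real.log u)) ≤ M * E * (K * (1 + 3 * ℓ)) := by gcongr
      _ = K * (M * E * (1 + 3 * ℓ)) := by ring
      _ ≤ K * (1 / (4 * ℓ ^ A)) := by gcongr
      _ = K / (4 * ℓ ^ A) := by ring
  rw [hKA]
  linarith

open Shp in
/-- the functions with few steps are equidistributed like their models (proof of `sharp_H`, `sharp_H2`) -/
theorem sharp_gen (η : ℝ) (hη : 0 < η) (M A E : ℕ) : ∃ x0 : ℕ, ∀ x : ℕ, x0 ≤ x → ∀ z Jw t i u q r : ℕ,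
    (x : ℝ) ^ η ≤ z → z ≤ x → Real.log x ^ A ≤ ((2 ^ 2 ^ Jw : ℕ) : ℝ) → ((2 ^ 2 ^ Jw : ℕ) : ℝ) ≤ Real.log x ^ E →
    Real.log x ^ (A + 5) ≤ (2 : ℝ) ^ t → (2 : ℝ) ^ t ≤ Real.log x ^ E → x ≤ 2 ^ i → 2 ^ (i + 1) ≤ x ^ 3 →
    1 ≤ q → (q : ℝ) ≤ Real.log x ^ A → 2 ^ i ≤ u → u ≤ 2 ^ (i + 1) →
    ∀ g : ℕ → ℝ, (∀ k, k ≤ x ^ 3 → Rough z k → |g k| ≤ M) → (∀ m, m ≤ x ^ 3 → Rough z m → SwR.Step g m M) →
    |∑ k ∈ (Ioc (2 ^ i) u).filter (fun k => k ≡ r [MOD q]),
      (rg z k * g k - sharp t (2 ^ 2 ^ Jw) (fun k => rg z k * g k) k)| ≤ (2 : ℝ) ^ i / Real.log x ^ A := by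
  obtain ⟨C1, hC1, hfl⟩ := fl_lin
  obtain ⟨x1, hx1⟩ := sw_gen η hη M (A + E + 3) A
  have hev := (((((((choose_b0 C1 E (A + E + 3) hC1).and (inv_V1_le E)).and
    (log_ge 20)).and (log_pow_le A 1 η hη)).and (log_pow_le (A + E + 4) 1 (1 / 2) (by norm_num))).and
    (log_pow_le E 2 1 one_pos)).and (eventually_ge_atTop (max x1 2))).and (log_ge M)
  obtain ⟨x0, hx0⟩ := eventually_atTop.mp hev
  refine ⟨x0, fun x hx z Jw t i u q r hz hzx hw1 hw2 ht1 ht2 hxi hi3 hq hqA hu1 hu2 g hgb hgS => ?_⟩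
  obtain ⟨⟨⟨⟨⟨⟨⟨hb, hV⟩, hL20⟩, hlz⟩, hlx⟩, hle⟩, hxx⟩, hLM⟩ := hx0 x hx
  obtain ⟨b0, hb0, hb1, hb2⟩ := hb
  set L := Real.log x with hL
  have hL0 : 0 < L := by linarith
  have hL1 : 1 ≤ L := by linarith
  have hx2 : 2 ≤ x := (le_max_right _ _).trans hxx
  have hxpos : (0 : ℝ) < x := by
    have : 0 < x := by omega
    exact_mod_cast this
  set w := 2 ^ 2 ^ Jw with hw
  set β : ℕ → ℝ := fun k => rg z k * g k with hβdef
  have hsup' : ∀ k, k ≤ x ^ 3 → |β k| ≤ 3 * L := by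
    intro k hk
    simp only [hβdef]
    unfold rg
    split_ifs with hR
    · rw [one_mul]
      linarith [hgb k hk hR]
    · rw [zero_mul, abs_zero]
      positivity
  have hqw : q ≤ w := by
    have : (q : ℝ) ≤ (w : ℝ) := hqA.trans hw1
    exact_mod_cast this
  have hqz : q ≤ z := by
    have : (q : ℝ) ≤ (z : ℝ) := hqA.trans ((by linarith : L ^ A ≤ (x : ℝ) ^ η).trans hz)
    exact_mod_cast this
  by_cases hr : r.Coprime q
  swap
  · -- both sums vanish
    have h0 : ∀ k ∈ (Ioc (2 ^ i) u).filter (fun k => k ≡ r [MOD q]), β k - sharp t w β k = 0 := by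
      intro k hk
      rw [mem_filter] at hk
      have e1 : rg z k = 0 := by
        unfold rg
        rw [if_neg (not_cop hq hr hqz hk.2)]
      have e2 : rg w k = 0 := by
        unfold rg
        rw [if_neg (not_cop hq hr hqw hk.2)]
      simp only [hβdef]
      unfold sharp
      rw [e1, e2]
      ring
    rw [sum_eq_zero h0, abs_zero]
    positivity
  -- the coprime classes
  have hti : t ≤ i := by
    have h1 : (2 : ℝ) ^ t ≤ (2 : ℝ) ^ i := by
      calc (2 : ℝ) ^ t ≤ L ^ E := ht2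
        _ ≤ 2 * L ^ E := by linarith [pow_pos hL0 E]
        _ ≤ (x : ℝ) ^ (1 : ℝ) := hle
        _ = x := Real.rpow_one _
        _ ≤ (2 : ℝ) ^ i := by exact_mod_cast hxi
    exact (pow_le_pow_iff_right₀ (by norm_num)).mp h1
  set l := 2 ^ (i - t) with hl
  have hl0 : 0 < l := by positivity
  have eT : 2 ^ t * l = 2 ^ i := by rw [hl, ← pow_add]; congr 1; omega
  set T := 2 ^ t with hT
  set mu := u / l with hmu
  have hTm : T ≤ mu := by
    rw [hmu, Nat.le_div_iff_mul_le hl0, eT]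
    exact hu1
  have hmu2 : mu ≤ 2 * T := by
    rw [hmu]
    apply Nat.div_le_of_le_mul
    calc u ≤ 2 ^ (i + 1) := hu2
      _ = l * (2 * T) := by rw [pow_succ, ← eT]; ring
  have hmul : mu * l ≤ u := Nat.div_mul_le_self u l
  have hmul2 : u < mu * l + l := by
    have := Nat.lt_div_mul_add (a := u) hl0
    rw [← hmu] at this
    exact this
  set F : ℕ → ℝ := fun k => if k ≡ r [MOD q] then β k - sharp t w β k else 0 with hF
  have hsplit : ∑ k ∈ (Ioc (2 ^ i) u).filter (fun k => k ≡ r [MOD q]), (β k - sharp t w β k)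
      = (∑ j ∈ Ico T mu, ∑ k ∈ Ioc (j * l) ((j + 1) * l), F k) + ∑ k ∈ Ioc (mu * l) u, F k := by
    rw [sum_filter, ← sum_cells F l T mu hTm, eT]
    exact (sum_Ioc_consecutive F (by rw [← eT]; exact Nat.mul_le_mul_right l hTm) hmul).symm
  have h2i : (0 : ℝ) < (2 : ℝ) ^ i := by positivity
  have hlR : ((l : ℕ) : ℝ) = (2 : ℝ) ^ (i - t) := by rw [hl]; push_cast; rfl
  have hTR : ((T : ℕ) : ℝ) = (2 : ℝ) ^ t := by rw [hT]; push_cast; rfl
  have hTl : (2 : ℝ) ^ t * (2 : ℝ) ^ (i - t) = (2 : ℝ) ^ i := by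
    have : ((2 ^ t * l : ℕ) : ℝ) = ((2 ^ i : ℕ) : ℝ) := by rw [eT]
    push_cast at this
    rw [hlR] at this
    exact this
  have hV1 : 1 / V1 w ≤ L := hV w hw2
  have hVpos : 0 < V1 w := V1_pos w
  -- a bound for the model
  have hdens : ∀ m, T ≤ m → m < 2 * T → ∀ k ∈ Ioc (m * l) ((m + 1) * l), |sharp t w β k| ≤ 3 * L * L := by
    intro m hm1 hm2 k hk
    rw [mem_Ioc] at hk
    have hm2' : m < 2 ^ (t + 1) := by rw [pow_succ, mul_comm]; exact hm2
    obtain ⟨e1, e2⟩ := cl_eq hti hm1 hm2' hk.1 hk.2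
    unfold sharp dens
    rw [e1, e2, ← hl, show m * l + l = (m + 1) * l by ring]
    have h4 : |∑ k ∈ Ioc (m * l) ((m + 1) * l), β k| ≤ l * (3 * L) := by
      have h5 := mean_le (v := m * l) (u := (m + 1) * l) β (3 * L) (fun k hk => by
        apply hsup'
        rw [mem_Ioc] at hk
        calc k ≤ (m + 1) * l := hk.2
          _ ≤ (2 * T) * l := Nat.mul_le_mul_right _ hm2
          _ = 2 ^ (i + 1) := by rw [mul_assoc, eT, pow_succ, mul_comm]
          _ ≤ x ^ 3 := hi3)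
      have e1 : (m + 1) * l - m * l = l := by
        rw [add_mul, one_mul, Nat.add_sub_cancel_left]
      rw [e1] at h5
      exact h5
    have hlpos : (0 : ℝ) < l := by exact_mod_cast hl0
    rw [abs_div, abs_mul, abs_div, abs_of_pos hVpos, abs_of_pos hlpos, abs_of_nonneg (rg_abs w k).1]
    have h6 : |∑ k ∈ Ioc (m * l) ((m + 1) * l), β k| / l ≤ 3 * L := by
      rw [div_le_iff₀ hlpos]
      linarith
    calc |∑ k ∈ Ioc (m * l) ((m + 1) * l), β k| / l * rg w k / V1 w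
        ≤ 3 * L * 1 / V1 w := by
          have hr2 := (rg_abs w k).2
          have hr1 := (rg_abs w k).1
          gcongr
      _ = 3 * L * (1 / V1 w) := by ring
      _ ≤ 3 * L * L := by gcongr
  -- the full cells
  have hcell : ∀ j ∈ Ico T mu, |∑ k ∈ Ioc (j * l) ((j + 1) * l), F k| ≤
      4 * (2 : ℝ) ^ i / L ^ (A + E + 3) + 3 * L * ((2 : ℝ) ^ i / L ^ (A + E + 3) + (x : ℝ) ^ (1 / 2 : ℝ) * L) := by
    intro j hj
    rw [mem_Ico] at hj
    have hj2 : j < 2 * T := by omega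
    have hj2' : j < 2 ^ (t + 1) := by rw [pow_succ, mul_comm]; exact hj2
    have hend : (j + 1) * l ≤ 2 ^ (i + 1) := by
      calc (j + 1) * l ≤ (2 * T) * l := Nat.mul_le_mul_right _ hj2
        _ = 2 ^ (i + 1) := by rw [mul_assoc, eT, pow_succ, mul_comm]
    have hle1 : j * l ≤ (j + 1) * l := Nat.mul_le_mul_right _ (by omega)
    have e1 : ∑ k ∈ Ioc (j * l) ((j + 1) * l), F k
        = (∑ k ∈ (Ioc (j * l) ((j + 1) * l)).filter (fun k => k ≡ r [MOD q]), β k -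
            (∑ k ∈ Ioc (j * l) ((j + 1) * l), β k) / (Nat.totient q : ℝ)) -
          (∑ k ∈ (Ioc (j * l) ((j + 1) * l)).filter (fun k => k ≡ r [MOD q]), sharp t w β k -
            (∑ k ∈ Ioc (j * l) ((j + 1) * l), β k) / (Nat.totient q : ℝ)) := by
      rw [hF, ← sum_filter, sum_sub_distrib]
      ring
    rw [e1]
    have hK1 : x ≤ 2 ^ (i + 1) := hxi.trans (Nat.pow_le_pow_right (by norm_num) (by omega))
    have hs1 := hx1 x ((le_max_left _ _).trans hxx) z (2 ^ (i + 1)) ((j + 1) * l) q r hz hzx hK1 hi3 hend hq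
      hqA hr g hgb hgS
    have hs2 := hx1 x ((le_max_left _ _).trans hxx) z (2 ^ (i + 1)) (j * l) q r hz hzx hK1 hi3
      (hle1.trans hend) hq hqA hr g hgb hgS
    have h1 : |∑ k ∈ (Ioc (j * l) ((j + 1) * l)).filter (fun k => k ≡ r [MOD q]), β k -
            (∑ k ∈ Ioc (j * l) ((j + 1) * l), β k) / (Nat.totient q : ℝ)| ≤ 4 * (2 : ℝ) ^ i / L ^ (A + E + 3) := by
      rw [sum_filter_Ioc β _ _ _ hle1, sum_Ioc_eq β _ _ hle1]
      have h3 := abs_le.mp hs1
      have h4 := abs_le.mp hs2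
      have e5 : (((2 ^ (i + 1) : ℕ) : ℝ)) / L ^ (A + E + 3) = 2 * ((2 : ℝ) ^ i / L ^ (A + E + 3)) := by
        push_cast
        rw [pow_succ]
        ring
      rw [e5] at h3 h4
      rw [sub_div, abs_le]
      simp only [hβdef]
      have e6 : 4 * (2 : ℝ) ^ i / L ^ (A + E + 3) = 2 * (2 * ((2 : ℝ) ^ i / L ^ (A + E + 3))) := by ring
      rw [e6]
      constructor
      · linarith [h3.1, h4.2]
      · linarith [h3.2, h4.1]
    have h2 : |∑ k ∈ (Ioc (j * l) ((j + 1) * l)).filter (fun k => k ≡ r [MOD q]), sharp t w β k -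
            (∑ k ∈ Ioc (j * l) ((j + 1) * l), β k) / (Nat.totient q : ℝ)| ≤
          3 * L * ((2 : ℝ) ^ i / L ^ (A + E + 3) + (x : ℝ) ^ (1 / 2 : ℝ) * L) := by
      have h5 := full_cell (b0 := b0) (B := 3 * L) (X := (x : ℝ) ^ (1 / 2 : ℝ)) hti hj.1 hj2' hq hqw
        (fun k1 k2 hk => (hfl b0 hb0 Jw q r k1 k2 hq hr hk).trans (by
          have := hb2 Jw hw2
          gcongr)) β (fun k hk => by
            apply hsup'
            rw [mem_Ioc] at hk
            exact hk.2.trans (hend.trans hi3)) (by positivity) (by positivity)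
      refine h5.trans ?_
      have h6 : (1 / 2 : ℝ) ^ b0 * (2 : ℝ) ^ (i - t) ≤ (2 : ℝ) ^ i / L ^ (A + E + 3) := by
        calc (1 / 2 : ℝ) ^ b0 * (2 : ℝ) ^ (i - t) ≤ (1 / L ^ (A + E + 3)) * (2 : ℝ) ^ i := by
              gcongr
              · norm_num
              · omega
          _ = _ := by ring
      gcongr
    refine (abs_sub _ _).trans ?_
    linarith
  -- the last cell
  have hlast : |∑ k ∈ Ioc (mu * l) u, F k| ≤ (2 : ℝ) ^ (i - t) * (6 * L ^ 2) := by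
    by_cases hmu3 : mu < 2 * T
    · have h1 : ∀ k ∈ Ioc (mu * l) u, |F k| ≤ 6 * L ^ 2 := by
        intro k hk
        rw [mem_Ioc] at hk
        have h4 := hdens mu hTm hmu3 k (by rw [mem_Ioc]; exact ⟨hk.1, by rw [add_mul, one_mul]; omega⟩)
        have h5 := hsup' k (hk.2.trans (hu2.trans hi3))
        simp only [hF]
        split_ifs
        · refine (abs_sub _ _).trans ?_
          nlinarith
        · rw [abs_zero]; positivity
      refine (abs_sum_le_sum_abs _ _).trans ((sum_le_card_nsmul _ _ _ h1).trans ?_)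
      rw [Nat.card_Ioc, nsmul_eq_mul]
      have h6 : ((u - mu * l : ℕ) : ℝ) ≤ (2 : ℝ) ^ (i - t) := by
        rw [← hlR]
        have : u - mu * l ≤ l := by omega
        exact_mod_cast this
      gcongr
    · have h1 : mu = 2 * T := by omega
      have h2 : Ioc (mu * l) u = ∅ := by
        apply Ioc_eq_empty
        rw [h1, mul_assoc, eT]
        have : 2 ^ (i + 1) = 2 * 2 ^ i := by rw [pow_succ, mul_comm]
        omega
      rw [h2, sum_empty, abs_zero]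
      positivity
  -- assemble
  have hcells : |∑ j ∈ Ico T mu, ∑ k ∈ Ioc (j * l) ((j + 1) * l), F k| ≤
      L ^ E * (4 * (2 : ℝ) ^ i / L ^ (A + E + 3) +
        3 * L * ((2 : ℝ) ^ i / L ^ (A + E + 3) + (x : ℝ) ^ (1 / 2 : ℝ) * L)) := by
    refine (abs_sum_le_sum_abs _ _).trans ((sum_le_card_nsmul _ _ _ hcell).trans ?_)
    rw [Nat.card_Ico, nsmul_eq_mul]
    have h6 : ((mu - T : ℕ) : ℝ) ≤ L ^ E := by
      refine le_trans ?_ ht2
      rw [← hTR]
      have : mu - T ≤ T := by omega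
      exact_mod_cast this
    gcongr
  change |∑ k ∈ (Ioc (2 ^ i) u).filter (fun k => k ≡ r [MOD q]), (β k - sharp t w β k)| ≤ _
  rw [hsplit]
  refine (abs_add_le _ _).trans ?_
  have hx12 : (x : ℝ) ^ (1 / 2 : ℝ) * L ^ (A + E + 4) ≤ (2 : ℝ) ^ i := by
    have h1 : L ^ (A + E + 4) ≤ (x : ℝ) ^ (1 / 2 : ℝ) := by linarith
    calc (x : ℝ) ^ (1 / 2 : ℝ) * L ^ (A + E + 4) ≤ (x : ℝ) ^ (1 / 2 : ℝ) * (x : ℝ) ^ (1 / 2 : ℝ) := by gcongr
      _ = x := by rw [← Real.rpow_add hxpos]; norm_num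
      _ ≤ (2 : ℝ) ^ i := by exact_mod_cast hxi
  have h10 : L ^ E * (4 * (2 : ℝ) ^ i / L ^ (A + E + 3) +
        3 * L * ((2 : ℝ) ^ i / L ^ (A + E + 3) + (x : ℝ) ^ (1 / 2 : ℝ) * L)) ≤ (2 : ℝ) ^ i / L ^ A / 2 := by
    have e1 : L ^ E * (4 * (2 : ℝ) ^ i / L ^ (A + E + 3) +
        3 * L * ((2 : ℝ) ^ i / L ^ (A + E + 3) + (x : ℝ) ^ (1 / 2 : ℝ) * L))
        = 4 * (2 : ℝ) ^ i / L ^ (A + 3) + 3 * ((2 : ℝ) ^ i / L ^ (A + 2)) +
          3 * (((x : ℝ) ^ (1 / 2 : ℝ) * L ^ (A + E + 4)) / L ^ (A + 2)) := by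
      field_simp
      ring
    rw [e1]
    have e2 : 4 * (2 : ℝ) ^ i / L ^ (A + 3) ≤ 4 * ((2 : ℝ) ^ i / L ^ (A + 2)) := by
      rw [mul_div_assoc]
      gcongr
      norm_num
    have e3 : 3 * (((x : ℝ) ^ (1 / 2 : ℝ) * L ^ (A + E + 4)) / L ^ (A + 2)) ≤ 3 * ((2 : ℝ) ^ i / L ^ (A + 2)) := by
      gcongr
    have e4 : (2 : ℝ) ^ i / L ^ A / 2 = ((2 : ℝ) ^ i / L ^ (A + 2)) * (L ^ 2 / 2) := by
      field_simp
      ring
    rw [e4]
    have e5 : 0 ≤ (2 : ℝ) ^ i / L ^ (A + 2) := by positivity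
    have e6 : (10 : ℝ) ≤ L ^ 2 / 2 := by nlinarith
    have e7 : (2 : ℝ) ^ i / L ^ (A + 2) * 10 ≤ (2 : ℝ) ^ i / L ^ (A + 2) * (L ^ 2 / 2) :=
      mul_le_mul_of_nonneg_left e6 e5
    linarith
  have h11 : (2 : ℝ) ^ (i - t) * (6 * L ^ 2) ≤ (2 : ℝ) ^ i / L ^ A / 2 := by
    have e4 : (2 : ℝ) ^ i / L ^ A / 2 = ((2 : ℝ) ^ i / L ^ (A + 5)) * (L ^ 5 / 2) := by
      field_simp
      ring
    rw [e4]
    have e5 : (2 : ℝ) ^ (i - t) ≤ (2 : ℝ) ^ i / L ^ (A + 5) := by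
      rw [le_div_iff₀ (by positivity)]
      calc (2 : ℝ) ^ (i - t) * L ^ (A + 5) ≤ (2 : ℝ) ^ (i - t) * (2 : ℝ) ^ t := by gcongr
        _ = (2 : ℝ) ^ i := by rw [mul_comm]; exact hTl
    have e6 : 6 * L ^ 2 ≤ L ^ 5 / 2 := by
      have : (20 : ℝ) ^ 3 ≤ L ^ 3 := pow_le_pow_left₀ (by norm_num) hL20 3
      have h2 : 0 ≤ L ^ 2 := by positivity
      have e7 : L ^ 5 = L ^ 2 * L ^ 3 := by ring
      rw [e7]
      nlinarith
    gcongr
  have h12 : (2 : ℝ) ^ i / L ^ A = (2 : ℝ) ^ i / L ^ A / 2 + (2 : ℝ) ^ i / L ^ A / 2 := by ring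
  rw [h12]
  exact add_le_add (hcells.trans h10) (hlast.trans h11)


lemma step_zero {g : ℕ → ℝ} {m : ℕ} (M : ℕ) (h : ∀ P : ℕ, P.Prime → ¬ P ∣ m → g (m * P) = 0) :
    SwR.Step g m M :=
  ⟨∅, fun _ => 0, fun _ => 0, by simp, by simp, fun P hP hPm => by rw [h P hP hPm, sum_empty]⟩

lemma step_single {g : ℕ → ℝ} {m M : ℕ} (hM : 1 ≤ M) (c0 : ℝ) (hc : |c0| ≤ 1) (t0 : ℕ)
    (h : ∀ P : ℕ, P.Prime → ¬ P ∣ m → g (m * P) = c0 * (if t0 < P then 1 else 0)) : SwR.Step g m M :=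
  ⟨{Sum.inl 0}, fun _ => c0, fun _ => t0, by simpa using hM, fun _ => hc,
    fun P hP hPm => by rw [h P hP hPm, sum_singleton]⟩

lemma step_pi0 (m : ℕ) {M : ℕ} (hM : 1 ≤ M) : SwR.Step pi0 m M := by
  by_cases h1 : m = 1
  · subst h1
    refine step_single hM 1 (by simp) 0 fun P hP _ => ?_
    unfold pi0
    rw [one_mul, if_pos hP, if_pos hP.pos, one_mul]
  · refine step_zero M fun P hP _ => ?_
    unfold pi0
    rw [if_neg]
    intro h
    rcases Nat.prime_mul_iff.1 h with h2 | h2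
    · exact hP.one_lt.ne' h2.2
    · exact h1 h2.2

lemma step_pi2 (Q m : ℕ) {M : ℕ} (hM : 1 ≤ M) : SwR.Step (pi2 Q) m M := by
  by_cases h1 : m.Prime ∧ Q < m
  · refine step_single hM 1 (by simp) Q fun P hP hPm => ?_
    unfold pi2
    rw [one_mul]
    have hne : m ≠ P := fun h => hPm (h ▸ dvd_rfl)
    by_cases hQ : Q < P
    · rw [if_pos hQ, if_pos]
      rcases lt_or_gt_of_ne hne with h | h
      · exact ⟨m, P, h1.1, hP, h1.2, h, rfl⟩
      · exact ⟨P, m, hP, h1.1, hQ, h, mul_comm m P⟩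
    · rw [if_neg hQ, if_neg]
      rintro ⟨p, q, hp, hq, hQp, hpq, h⟩
      have hd : P ∣ p * q := h ▸ Dvd.intro_left m rfl
      rcases (Nat.Prime.dvd_mul hP).1 hd with h2 | h2
      · rw [(Nat.prime_dvd_prime_iff_eq hP hp).1 h2] at hQ
        exact hQ hQp
      · rw [(Nat.prime_dvd_prime_iff_eq hP hq).1 h2] at hQ
        exact hQ (hQp.trans hpq)
  · refine step_zero M fun P hP hPm => ?_
    unfold pi2
    rw [if_neg]
    rintro ⟨p, q, hp, hq, hQp, hpq, h⟩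
    apply h1
    have hd : P ∣ p * q := h ▸ Dvd.intro_left m rfl
    rcases (Nat.Prime.dvd_mul hP).1 hd with h2 | h2
    · have h3 := (Nat.prime_dvd_prime_iff_eq hP hp).1 h2
      subst h3
      have h4 : m = q := Nat.eq_of_mul_eq_mul_left hP.pos (by rw [mul_comm P m]; exact h)
      rw [h4]
      exact ⟨hq, hQp.trans hpq⟩
    · have h3 := (Nat.prime_dvd_prime_iff_eq hP hq).1 h2
      subst h3
      have h4 : m = p := Nat.eq_of_mul_eq_mul_right hP.pos h
      rw [h4]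
      exact ⟨hp, hQp⟩

lemma rough_mul_iff {z m P : ℕ} (hP : P.Prime) : Rough z (m * P) ↔ Rough z m ∧ z < P :=
  ⟨fun h => ⟨SwR.rough_of_dvd h (Dvd.intro P rfl), h.2 P hP (Dvd.intro_left m rfl)⟩,
    fun h => SwR.rough_mul h.1 hP h.2⟩

lemma step_rg (z2 m : ℕ) {M : ℕ} (hM : 1 ≤ M) : SwR.Step (rg z2) m M := by
  by_cases h1 : Rough z2 m
  · refine step_single hM 1 (by simp) z2 fun P hP hPm => ?_
    unfold rg
    by_cases h2 : z2 < P
    · rw [if_pos ((rough_mul_iff hP).2 ⟨h1, h2⟩), if_pos h2, one_mul]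
    · rw [if_neg (fun h => h2 ((rough_mul_iff hP).1 h).2), if_neg h2, mul_zero]
  · refine step_zero M fun P hP hPm => ?_
    unfold rg
    rw [if_neg (fun h => h1 ((rough_mul_iff hP).1 h).1)]

lemma mu_abs (d : ℕ) : |(moebius d : ℝ)| ≤ 1 := by
  have := ArithmeticFunction.abs_moebius_le_one (n := d)
  exact_mod_cast this

open Classical in
/-- the coefficients of the steps of `alf` -/
noncomputable def cf (z2 U m q : ℕ) : ℝ :=
  if q = 0 then (if Rough z2 m ∧ m ≤ U then (moebius m : ℝ) else 0)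
  else if Rough z2 (m / q) then -(moebius (m / q) : ℝ) else 0

lemma cf_abs (z2 U m q : ℕ) : |cf z2 U m q| ≤ 1 := by
  unfold cf
  split_ifs
  · exact mu_abs m
  · simp
  · rw [abs_neg]; exact mu_abs _
  · simp

open Classical in
/-- one term of `alf (m P)` -/
lemma term (z2 U m q P : ℕ) (hm : m ≠ 0) (hq : q.Prime) (hqm : q ∣ m) (hP : P.Prime) (hPm : ¬ P ∣ m) :
    (if Rough z2 (m * P / q) ∧ m * P / q ≤ U then (moebius (m * P / q) : ℝ) else 0) =
      cf z2 U m q * (if z2 < P then 1 else 0) +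
        -cf z2 U m q * (if max z2 (U / (m / q)) < P then 1 else 0) := by
  obtain ⟨e, he⟩ := hqm
  have hq0 : q ≠ 0 := hq.ne_zero
  have he0 : e ≠ 0 := by
    intro h
    rw [h, mul_zero] at he
    exact hm he
  have h1 : m / q = e := by rw [he]; exact Nat.mul_div_cancel_left e hq.pos
  have h2 : m * P / q = e * P := by
    rw [he, mul_assoc]; exact Nat.mul_div_cancel_left _ hq.pos
  have hPe : ¬ P ∣ e := fun h => hPm (he ▸ h.mul_left q)
  have hcop : e.Coprime P := (hP.coprime_iff_not_dvd.2 hPe).symm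
  have h3 : moebius (e * P) = - moebius e := by
    rw [ArithmeticFunction.isMultiplicative_moebius.map_mul_of_coprime hcop,
      ArithmeticFunction.moebius_apply_prime hP]
    ring
  have h4 : e * P ≤ U ↔ P ≤ U / e := by
    rw [Nat.le_div_iff_mul_le (Nat.pos_of_ne_zero he0), mul_comm]
  unfold cf
  rw [h1, h2, h3, if_neg hq0]
  by_cases hR : Rough z2 e
  · rw [if_pos hR]
    by_cases hz : z2 < P
    · by_cases hU : P ≤ U / e
      · rw [if_pos ⟨(rough_mul_iff hP).2 ⟨hR, hz⟩, h4.2 hU⟩, if_pos hz, if_neg]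
        · push_cast; ring
        · intro h
          have := lt_of_le_of_lt (le_max_right _ _) h
          omega
      · rw [if_neg (fun h => hU (h4.1 h.2)), if_pos hz, if_pos (max_lt hz (not_le.1 hU))]
        ring
    · rw [if_neg (fun h => hz ((rough_mul_iff hP).1 h.1).2), if_neg hz,
        if_neg (fun h => hz (lt_of_le_of_lt (le_max_left _ _) h))]
      ring
  · rw [if_neg hR, if_neg (fun h => hR ((rough_mul_iff hP).1 h.1).1)]
    ring

lemma card_le (m : ℕ) (hm : m ≠ 0) (S : Finset ℕ) (hS : S ⊆ m.primeFactors) :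
    #(insert 0 S) ≤ #m.divisors := by
  have h1 : S ⊆ m.divisors.erase 1 := by
    intro q hq
    have h2 := hS hq
    rw [mem_erase, Nat.mem_divisors]
    exact ⟨(Nat.prime_of_mem_primeFactors h2).one_lt.ne', Nat.dvd_of_mem_primeFactors h2, hm⟩
  have h3 := card_le_card h1
  have h4 : (1 : ℕ) ∈ m.divisors := Nat.one_mem_divisors.2 hm
  rw [card_erase_of_mem h4] at h3
  have h5 := card_pos.2 ⟨1, h4⟩
  have h6 := card_insert_le 0 S
  omega

lemma step_alf (z1 z2 U m : ℕ) (hm : m ≠ 0) : SwR.Step (alf z1 z2 U) m (2 * #m.divisors) := by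
  classical
  obtain ⟨S, hS⟩ : ∃ S : Finset ℕ, S = m.primeFactors.filter (fun q => z1 < q ∧ q ≤ z2) := ⟨_, rfl⟩
  have hS0 : 0 ∉ S := by
    intro h
    rw [hS, mem_filter] at h
    exact (Nat.prime_of_mem_primeFactors h.1).ne_zero rfl
  refine ⟨(insert 0 S).disjSum (insert 0 S),
    fun i => Sum.elim (fun q => cf z2 U m q) (fun q => -cf z2 U m q) i,
    fun i => Sum.elim (fun q => if q = 0 then z1 else z2)
      (fun q => if q = 0 then max z1 z2 else max z2 (U / (m / q))) i, ?_, ?_, ?_⟩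
  · rw [card_disjSum]
    have := card_le m hm S (by rw [hS]; exact filter_subset _ _)
    omega
  · rintro (q | q)
    · exact cf_abs z2 U m q
    · simp only [Sum.elim_inr]
      rw [abs_neg]; exact cf_abs z2 U m q
  · intro P hP hPm
    have hPS : P ∉ m.primeFactors := fun h => hPm (Nat.dvd_of_mem_primeFactors h)
    have e1 : alf z1 z2 U (m * P) =
        ∑ q ∈ S, (if Rough z2 (m * P / q) ∧ m * P / q ≤ U then (moebius (m * P / q) : ℝ) else 0) +
        (if z1 < P ∧ P ≤ z2 then (if Rough z2 m ∧ m ≤ U then (moebius m : ℝ) else 0) else 0) := by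
      unfold alf
      rw [Nat.primeFactors_mul hm hP.ne_zero, hP.primeFactors, filter_union, sum_union, ← hS]
      · congr 1
        rw [sum_filter, sum_singleton]
        rw [Nat.mul_div_cancel _ hP.pos]
      · rw [disjoint_left]
        intro q h1 h2
        rw [mem_filter] at h1 h2
        rw [mem_singleton.1 h2.1] at h1
        exact hPS h1.1
    have e2 : (if z1 < P ∧ P ≤ z2 then (if Rough z2 m ∧ m ≤ U then (moebius m : ℝ) else 0) else 0) =
        cf z2 U m 0 * (if z1 < P then 1 else 0) + -cf z2 U m 0 * (if max z1 z2 < P then 1 else 0) := by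
      have e3 : cf z2 U m 0 = if Rough z2 m ∧ m ≤ U then (moebius m : ℝ) else 0 := by
        unfold cf
        rw [if_pos rfl]
      rw [← e3]
      by_cases h1 : z1 < P
      · by_cases h2 : P ≤ z2
        · rw [if_pos ⟨h1, h2⟩, if_pos h1, if_neg]
          · ring
          · intro h
            have := lt_of_le_of_lt (le_max_right _ _) h
            omega
        · rw [if_neg (fun h => h2 h.2), if_pos h1, if_pos (max_lt h1 (not_le.1 h2))]
          ring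
      · rw [if_neg (fun h => h1 h.1), if_neg h1,
          if_neg (fun h => h1 (lt_of_le_of_lt (le_max_left _ _) h))]
        ring
    have e4 : ∀ q ∈ S,
        (if Rough z2 (m * P / q) ∧ m * P / q ≤ U then (moebius (m * P / q) : ℝ) else 0) =
        cf z2 U m q * (if z2 < P then 1 else 0) +
          -cf z2 U m q * (if max z2 (U / (m / q)) < P then 1 else 0) := by
      intro q hq
      rw [hS, mem_filter] at hq
      exact term z2 U m q P hm (Nat.prime_of_mem_primeFactors hq.1) (Nat.dvd_of_mem_primeFactors hq.1) hP hPm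
    rw [e1, e2, sum_congr rfl e4, sum_add_distrib, sum_disjSum, sum_insert hS0, sum_insert hS0]
    have hne : ∀ q ∈ S, q ≠ 0 := fun q hq h => hS0 (h ▸ hq)
    have e5 : ∑ q ∈ S, cf z2 U m q * (if z2 < P then (1 : ℝ) else 0) =
        ∑ q ∈ S, Sum.elim (fun q => cf z2 U m q) (fun q => -cf z2 U m q) (Sum.inl q) *
          (if (Sum.elim (fun q => if q = 0 then z1 else z2)
            (fun q => if q = 0 then max z1 z2 else max z2 (U / (m / q))) (Sum.inl q) : ℕ) < P then (1 : ℝ) else 0) := by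
      apply sum_congr rfl
      intro q hq
      simp only [Sum.elim_inl, if_neg (hne q hq)]
    have e6 : ∑ q ∈ S, -cf z2 U m q * (if max z2 (U / (m / q)) < P then (1 : ℝ) else 0) =
        ∑ q ∈ S, Sum.elim (fun q => cf z2 U m q) (fun q => -cf z2 U m q) (Sum.inr q) *
          (if (Sum.elim (fun q => if q = 0 then z1 else z2)
            (fun q => if q = 0 then max z1 z2 else max z2 (U / (m / q))) (Sum.inr q) : ℕ) < P then (1 : ℝ) else 0) := by
      apply sum_congr rfl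
      intro q hq
      simp only [Sum.elim_inr, if_neg (hne q hq)]
    rw [e5, e6]
    simp only [Sum.elim_inl, Sum.elim_inr, if_true]
    ring

lemma alf_abs (z1 z2 U k : ℕ) (hk : k ≠ 0) : |alf z1 z2 U k| ≤ #k.divisors := by
  classical
  unfold alf
  refine (abs_sum_le_sum_abs _ _).trans ?_
  refine (sum_le_card_nsmul _ _ 1 fun q _ => ?_).trans ?_
  · split_ifs
    · exact mu_abs _
    · simp
  · rw [nsmul_eq_mul, mul_one]
    have h1 := card_le k hk (k.primeFactors.filter (fun q => z1 < q ∧ q ≤ z2)) (filter_subset _ _)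
    have h2 : #(k.primeFactors.filter (fun q => z1 < q ∧ q ≤ z2)) ≤
        #(insert 0 (k.primeFactors.filter (fun q => z1 < q ∧ q ≤ z2))) := card_le_card (subset_insert _ _)
    exact_mod_cast h2.trans h1

/-- the number of the divisors of a rough number -/
lemma div_le (η : ℝ) (hη : 0 < η) (x z k : ℕ) (hx : 1 < x) (hz : (x : ℝ) ^ η ≤ z) (hk : k ≤ x ^ 3)
    (hkr : Rough z k) : 2 * #k.divisors ≤ 2 * 2 ^ ⌊3 / η⌋₊ := by
  obtain ⟨j, hj1, hj2⟩ := SwR.rough_div k hkr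
  have hx0 : (0 : ℝ) < x := by exact_mod_cast (by omega : 0 < x)
  have hx1 : (1 : ℝ) < x := by exact_mod_cast hx
  have e3 : (x : ℝ) ^ (η * j) ≤ (x : ℝ) ^ (3 : ℝ) := by
    calc (x : ℝ) ^ (η * j) = ((x : ℝ) ^ η) ^ j := by
          rw [Real.rpow_mul hx0.le, Real.rpow_natCast]
      _ ≤ (z : ℝ) ^ j := pow_le_pow_left₀ (Real.rpow_pos_of_pos hx0 η).le hz j
      _ ≤ k := by exact_mod_cast hj1
      _ ≤ (x : ℝ) ^ 3 := by exact_mod_cast hk
      _ = (x : ℝ) ^ (3 : ℝ) := by norm_cast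
  have e4 : η * j ≤ 3 := (Real.rpow_le_rpow_left_iff hx1).1 e3
  have e5 : j ≤ ⌊3 / η⌋₊ := by
    apply Nat.le_floor
    rw [le_div_iff₀ hη]
    linarith
  have e6 : 2 ^ j ≤ 2 ^ ⌊3 / η⌋₊ := Nat.pow_le_pow_right (by norm_num) e5
  omega

lemma step_mono {g : ℕ → ℝ} {m M N : ℕ} (h : SwR.Step g m M) (hMN : M ≤ N) : SwR.Step g m N := by
  obtain ⟨I, c, t, i1, i2, i3⟩ := h
  exact ⟨I, c, t, i1.trans hMN, i2, i3⟩

end RX1

open Finset Filter Topology

/-- the bounds and the equidistribution of the coefficients of the type II sums -/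
theorem x1s : X1 := by
  intro η hη As E
  obtain ⟨M, hM⟩ : ∃ M : ℕ, M = 2 * 2 ^ ⌊3 / η⌋₊ := ⟨_, rfl⟩
  have hM1 : 1 ≤ M := by
    rw [hM]
    have : 1 ≤ 2 ^ ⌊3 / η⌋₊ := Nat.one_le_two_pow
    omega
  obtain ⟨x1, h1⟩ := RX1.sharp_gen η hη M As E
  obtain ⟨x2, h2⟩ := eventually_atTop.1 (Shp.log_ge ((M : ℝ) + 1))
  refine ⟨max x1 (max x2 2), ?_⟩
  intro x hx z z1 z2 Q U Jw ts hz hzx hw1 hw2 ht1 ht2
  have hxx1 : x1 ≤ x := (le_max_left _ _).trans hx
  have hxx2 : x2 ≤ x := ((le_max_left _ _).trans (le_max_right _ _)).trans hx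
  have hxx3 : 1 < x := lt_of_lt_of_le one_lt_two (((le_max_right _ _).trans (le_max_right _ _)).trans hx)
  have hL := h2 x hxx2
  have hM0 : (1 : ℝ) ≤ M := by exact_mod_cast hM1
  have hL2 : (M : ℝ) ≤ Real.log x ^ 2 := by nlinarith
  have hdiv : ∀ k, k ≤ x ^ 3 → Rough z k → 2 * #k.divisors ≤ M := fun k hk hkr => by
    rw [hM]; exact RX1.div_le η hη x z k hxx3 hz hk hkr
  have key : ∀ g : ℕ → ℝ, (∀ k, k ≤ x ^ 3 → Rough z k → |g k| ≤ M) →
      (∀ m, m ≤ x ^ 3 → Rough z m → SwR.Step g m M) → EqD x z ts (2 ^ 2 ^ Jw) As g := by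
    intro g hb hS
    exact ⟨fun k hk hkr => (hb k hk hkr).trans hL2, fun i u q r hxi hi3 hq hqA hu1 hu2 =>
      h1 x hxx1 z Jw ts i u q r hz hzx hw1 hw2 ht1 ht2 hxi hi3 hq hqA hu1 hu2 g hb hS⟩
  refine ⟨key _ ?_ ?_, key _ ?_ ?_, key _ ?_ ?_, key _ ?_ ?_⟩
  · intro k _ _
    unfold pi0
    split_ifs
    · simpa using hM0
    · simp
  · intro m _ _
    exact RX1.step_pi0 m hM1
  · intro k _ _
    unfold pi2
    split_ifs
    · simpa using hM0
    · simp
  · intro m _ _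
    exact RX1.step_pi2 Q m hM1
  · intro k _ _
    have := Shp.rg_abs z2 k
    rw [abs_of_nonneg this.1]
    exact this.2.trans hM0
  · intro m _ _
    exact RX1.step_rg z2 m hM1
  · intro k hk hkr
    have e1 := RX1.alf_abs z1 z2 U k hkr.1
    have e2 : (#k.divisors : ℝ) ≤ M := by
      exact_mod_cast (by have := hdiv k hk hkr; omega : #k.divisors ≤ M)
    exact e1.trans e2
  · intro m hm hmr
    exact RX1.step_mono (RX1.step_alf z1 z2 U m hmr.1) (hdiv m hm hmr)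

end Pool.Agent.N792
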