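import Pool.Agent.N792.RStm
import Pool.Agent.N792.LsLam

/-!
X10: the weighted number of the primes (helper221, subtask 1289).
-/

set_option autoImplicit false

namespace Pool.Agent.N792

open Finset Filter Topology
open ArithmeticFunction (vonMangoldt)

/-- the sizes of the values and the contribution of the prime powers -/
theorem x10_aux (a : ℤ) (ha : 0 < a) (b : ℤ) (R : ℕ) : ∃ K : ℝ, 0 ≤ K ∧ ∃ x0 : ℕ, ∀ x : ℕ, x0 ≤ x →
    ∀ x1 x2 : ℕ, x1 < x2 → x2 ≤ x → x ≤ R * x1 →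
    (∀ N ∈ Ioc (Fn a b x1) (Fn a b x2), |Real.log N - 2 * Real.log x| ≤ K) ∧
    |∑ N ∈ Ioc (Fn a b x1) (Fn a b x2), (1 - pi0 N) * vonMangoldt N * hw a N| ≤ K := by
  have ha' : (1 : ℝ) ≤ a := by exact_mod_cast ha
  obtain ⟨C, hC⟩ := Chebyshev.psi_sub_theta_le_mul_sqrt
  obtain ⟨C', hC'⟩ : ∃ C' : ℝ, C' = max C 0 := ⟨_, rfl⟩
  have hC'0 : 0 ≤ C' := by rw [hC']; exact le_max_right _ _
  have hC2 : ∀ x : ℝ, Chebyshev.psi x - Chebyshev.theta x ≤ C' * √x := fun x => by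
    rw [hC']
    exact (hC x).trans (mul_le_mul_of_nonneg_right (le_max_left _ _) (Real.sqrt_nonneg _))
  have hl1 : 0 ≤ Real.log (2 * (a : ℝ)) := Real.log_nonneg (by linarith)
  have hl2 : 0 ≤ Real.log (2 * ((R : ℝ) + 1) ^ 2) := by
    apply Real.log_nonneg
    have : (0 : ℝ) ≤ R := Nat.cast_nonneg _
    nlinarith
  refine ⟨2 * C' * (R + 1) + Real.log (2 * (a : ℝ)) + Real.log (2 * ((R : ℝ) + 1) ^ 2), by positivity, ?_⟩
  obtain ⟨x0, hx0⟩ : ∃ x0 : ℕ, (R + 1 : ℝ) * (2 * |(b : ℝ)| + 2 * R + 5) ≤ x0 := exists_nat_ge _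
  refine ⟨x0, fun x hx x1 x2 hx1 hx2 hxR => ?_⟩
  have hxr : (x0 : ℝ) ≤ x := by exact_mod_cast hx
  have hx1r : (x1 : ℝ) < x2 := by exact_mod_cast hx1
  have hx2r : (x2 : ℝ) ≤ x := by exact_mod_cast hx2
  have hxRr : (x : ℝ) ≤ R * x1 := by exact_mod_cast hxR
  have hR0 : (0 : ℝ) ≤ R := by positivity
  have hx1nn : (0 : ℝ) ≤ x1 := by positivity
  -- x1 is large
  have hx1big : 2 * |(b : ℝ)| + 2 * R + 5 ≤ x1 := by
    have h1 : (R + 1 : ℝ) * (2 * |(b : ℝ)| + 2 * R + 5) ≤ (R + 1) * x1 := by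
      have : (R : ℝ) * x1 ≤ (R + 1) * x1 := by nlinarith
      linarith
    exact le_of_mul_le_mul_left h1 (by positivity)
  have hbabs := abs_nonneg (b : ℝ)
  have hx1pos : (0 : ℝ) < x1 := by linarith
  have hxpos : (0 : ℝ) < x2 := by linarith
  have hxpos' : (0 : ℝ) < x := by linarith
  have hbx1 : |b| ≤ (x1 : ℤ) := by
    have : |(b : ℝ)| ≤ x1 := by linarith
    exact_mod_cast this
  have hbx : |b| ≤ (x2 : ℤ) := by
    have : |(b : ℝ)| ≤ x2 := by linarith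
    exact_mod_cast this
  obtain ⟨F1, hF1⟩ : ∃ F1, F1 = Fn a b x1 := ⟨_, rfl⟩
  obtain ⟨F2, hF2⟩ : ∃ F2, F2 = Fn a b x2 := ⟨_, rfl⟩
  rw [← hF1, ← hF2]
  have e1 : (F1 : ℝ) = a * (x1 : ℝ) ^ 2 + b * x1 := by rw [hF1]; exact lsl_Fn_cast ha b hbx1
  have e2 : (F2 : ℝ) = a * (x2 : ℝ) ^ 2 + b * x2 := by rw [hF2]; exact lsl_Fn_cast ha b hbx
  have hb1 := neg_abs_le (b : ℝ)
  have hb2 := le_abs_self (b : ℝ)
  have hF1low : (a : ℝ) * (x1 : ℝ) ^ 2 / 2 ≤ F1 := by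
    rw [e1]
    have h1 : |(b : ℝ)| * x1 ≤ (x1 / 2) * x1 := mul_le_mul_of_nonneg_right (by linarith) hx1pos.le
    have h2 : -|(b : ℝ)| * x1 ≤ b * x1 := mul_le_mul_of_nonneg_right hb1 hx1pos.le
    have h3 : 0 ≤ ((a : ℝ) - 1) * (x1 : ℝ) ^ 2 := mul_nonneg (by linarith) (sq_nonneg _)
    nlinarith
  have hF2up : (F2 : ℝ) ≤ 2 * a * (x2 : ℝ) ^ 2 := by
    rw [e2]
    have h1 : (b : ℝ) * x2 ≤ x2 * x2 := mul_le_mul_of_nonneg_right (by linarith) hxpos.le
    have h2 : 0 ≤ ((a : ℝ) - 1) * (x2 : ℝ) ^ 2 := mul_nonneg (by linarith) (sq_nonneg _)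
    nlinarith
  have hF1x : x < F1 := by
    have : (x : ℝ) < F1 := by
      have h1 : (R : ℝ) * x1 ≤ x1 * x1 / 2 := by nlinarith
      have h2 : (x1 : ℝ) * x1 / 2 ≤ a * (x1 : ℝ) ^ 2 / 2 := by nlinarith [sq_nonneg (x1 : ℝ)]
      have h3 : (R : ℝ) * x1 < x1 * x1 / 2 := by nlinarith
      linarith
    exact_mod_cast this
  have hF1pos : 1 ≤ F1 := by omega
  -- the weight at F1
  have hhw1 : hw a F1 ≤ 1 / (a * x1) := by
    unfold hw
    apply one_div_le_one_div_of_le (by positivity)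
    have h1 : √((a * x1 / 2) ^ 2) ≤ √((a : ℝ) * F1) := by
      apply Real.sqrt_le_sqrt
      have : (a : ℝ) * (a * (x1 : ℝ) ^ 2 / 2) ≤ a * F1 := mul_le_mul_of_nonneg_left hF1low (by linarith)
      nlinarith [sq_nonneg ((a : ℝ) * x1)]
    rw [Real.sqrt_sq (by positivity)] at h1
    linarith
  have hhwN : ∀ N, F1 ≤ N → hw a N ≤ 1 / (a * x1) := fun N hN => (lsl_hw_anti ha hF1pos hN).trans hhw1
  constructor
  · intro N hN
    rw [mem_Ioc] at hN
    have hN1 : (F1 : ℝ) ≤ N := by exact_mod_cast hN.1.le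
    have hN2 : (N : ℝ) ≤ F2 := by exact_mod_cast hN.2
    have hN0 : (0 : ℝ) < N := by exact_mod_cast (by omega : 0 < N)
    have hup : (N : ℝ) ≤ 2 * a * (x : ℝ) ^ 2 := by
      have : (x2 : ℝ) ^ 2 ≤ (x : ℝ) ^ 2 := pow_le_pow_left₀ hxpos.le hx2r 2
      have h3 : 2 * (a : ℝ) * (x2 : ℝ) ^ 2 ≤ 2 * a * (x : ℝ) ^ 2 := mul_le_mul_of_nonneg_left this (by linarith)
      linarith
    have hlo : (x : ℝ) ^ 2 ≤ 2 * ((R : ℝ) + 1) ^ 2 * N := by
      have h1 : (x : ℝ) ^ 2 ≤ (R * x1) ^ 2 := pow_le_pow_left₀ hxpos'.le hxRr 2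
      have h2 : (x1 : ℝ) ^ 2 ≤ 2 * N := by
        have : (x1 : ℝ) ^ 2 ≤ a * (x1 : ℝ) ^ 2 := by nlinarith [sq_nonneg (x1 : ℝ)]
        linarith
      have h3 : (R : ℝ) ^ 2 ≤ (R + 1) ^ 2 := by nlinarith
      calc (x : ℝ) ^ 2 ≤ (R : ℝ) ^ 2 * (x1 : ℝ) ^ 2 := by rw [← mul_pow]; exact h1
        _ ≤ ((R : ℝ) + 1) ^ 2 * (2 * N) := mul_le_mul h3 h2 (sq_nonneg _) (sq_nonneg _)
        _ = _ := by ring
    have g1 := Real.log_le_log hN0 hup
    rw [Real.log_mul (by positivity) (by positivity), Real.log_pow] at g1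
    have g2 := Real.log_le_log (by positivity) hlo
    rw [Real.log_mul (by positivity) (by positivity), Real.log_pow] at g2
    push_cast at g1 g2
    have h0 : 0 ≤ 2 * C' * (R + 1) := by positivity
    rw [abs_le]
    constructor <;> linarith
  · have hpi : ∀ N, 0 ≤ 1 - pi0 N ∧ 1 - pi0 N ≤ 1 := by
      intro N
      unfold pi0
      split_ifs <;> norm_num
    rw [abs_of_nonneg (sum_nonneg fun N _ => mul_nonneg (mul_nonneg (hpi N).1
      ArithmeticFunction.vonMangoldt_nonneg) (lsl_hw_nonneg a N))]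
    have h1 : ∑ N ∈ Ioc F1 F2, (1 - pi0 N) * vonMangoldt N * hw a N ≤
        ∑ N ∈ (Ioc F1 F2).filter (fun N => ¬ N.Prime), vonMangoldt N * (1 / (a * x1)) := by
      rw [sum_filter]
      apply sum_le_sum
      intro N hN
      rw [mem_Ioc] at hN
      by_cases hp : N.Prime
      · have hrough : pi0 N = 1 := by
          unfold pi0
          rw [if_pos hp]
        rw [hrough]
        simp [hp]
      · rw [if_pos hp]
        have h2 : (1 - pi0 N) * vonMangoldt N ≤ vonMangoldt N :=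
          mul_le_of_le_one_left ArithmeticFunction.vonMangoldt_nonneg (hpi N).2
        exact mul_le_mul h2 (hhwN N hN.1.le) (lsl_hw_nonneg a N) ArithmeticFunction.vonMangoldt_nonneg
    rw [← sum_mul] at h1
    have h2 : ∑ N ∈ (Ioc F1 F2).filter (fun N => ¬ N.Prime), vonMangoldt N ≤
        Chebyshev.psi F2 - Chebyshev.theta F2 := by
      rw [Chebyshev.psi_sub_theta_eq_sum_not_prime, Nat.floor_natCast]
      apply sum_le_sum_of_subset_of_nonneg
      · intro N hN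
        rw [mem_filter, mem_Ioc] at hN ⊢
        exact ⟨⟨by omega, hN.1.2⟩, hN.2⟩
      · intro N _ _
        exact ArithmeticFunction.vonMangoldt_nonneg
    have h3 := hC2 F2
    have h4 : √(F2 : ℝ) ≤ 2 * a * x2 := by
      rw [Real.sqrt_le_left (by positivity)]
      have : 2 * (a : ℝ) * (x2 : ℝ) ^ 2 ≤ (2 * a * x2) ^ 2 := by nlinarith [sq_nonneg (x2 : ℝ), sq_nonneg ((a : ℝ) * x2)]
      linarith
    have h5 : C' * √(F2 : ℝ) ≤ C' * (2 * a * x2) := mul_le_mul_of_nonneg_left h4 hC'0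
    have h6 : 0 ≤ 1 / ((a : ℝ) * x1) := by positivity
    have h7 : (∑ N ∈ (Ioc F1 F2).filter (fun N => ¬ N.Prime), vonMangoldt N) * (1 / (a * x1)) ≤
        C' * (2 * a * x2) * (1 / (a * x1)) := mul_le_mul_of_nonneg_right (by linarith) h6
    have h8 : C' * (2 * a * x2) * (1 / (a * x1)) = 2 * C' * (x2 / x1) := by field_simp
    have h9 : (x2 : ℝ) / x1 ≤ R + 1 := by
      rw [div_le_iff₀ hx1pos]
      nlinarith
    have h10 : 2 * C' * (x2 / x1) ≤ 2 * C' * (R + 1) := mul_le_mul_of_nonneg_left h9 (by positivity)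
    linarith

theorem x10 (a : ℤ) (ha : 0 < a) (b : ℤ) : X10 a b := by
  unfold X10
  intro R η hη
  obtain ⟨K, hK, xa, hxa⟩ := x10_aux a ha b R
  obtain ⟨xb, hxb⟩ := ls_lam a ha b R (η / 4) (by positivity)
  have hlim : Tendsto (fun N : ℕ => Real.log (N : ℝ)) atTop atTop :=
    Real.tendsto_log_atTop.comp (tendsto_natCast_atTop_atTop (R := ℝ))
  obtain ⟨xc, hxc⟩ := eventually_atTop.1 (hlim.eventually_ge_atTop (K + 1 + 2 * K * (2 + η / 4) / η))
  obtain ⟨xd, hxd⟩ := exists_nat_ge (K + 2 * K / η)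
  refine ⟨xa + (R + 1) * (xb + 1) + xc + xd + 1, fun x hx x1 x2 hx1 hx2 hxR => ?_⟩
  have hxx2 : x ≤ R * x2 := hxR.trans (Nat.mul_le_mul_left _ hx1.le)
  have hx2b : xb ≤ x2 := by
    by_contra h
    have h1 : R * x2 ≤ R * xb := Nat.mul_le_mul_left _ (by omega)
    nlinarith
  have hxa' : xa ≤ x := by
    have : 0 ≤ (R + 1) * (xb + 1) := Nat.zero_le _
    omega
  have hxc' : xc ≤ x := by
    have : 0 ≤ (R + 1) * (xb + 1) := Nat.zero_le _
    omega
  have hxd' : xd ≤ x := by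
    have : 0 ≤ (R + 1) * (xb + 1) := Nat.zero_le _
    omega
  obtain ⟨h1, h2⟩ := hxa x hxa' x1 x2 hx1 hx2 hxR
  have h3 := hxb x2 hx2b x1 1 hx1 (hx2.trans hxR) (by omega) le_rfl
  have h4 := hxc x hxc'
  have h5 : K + 2 * K / η ≤ x := hxd.trans (by exact_mod_cast hxd')
  have hx2r : (x2 : ℝ) ≤ x := by exact_mod_cast hx2
  have hx1r : (x1 : ℝ) < x2 := by exact_mod_cast hx1
  have hx10 : (0 : ℝ) ≤ x1 := Nat.cast_nonneg _
  have hx0 : (0 : ℝ) < x := by linarith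
  obtain ⟨L, hL⟩ : ∃ L : ℝ, L = Real.log x := ⟨_, rfl⟩
  rw [← hL] at h1 h4 ⊢
  have hKη : 0 ≤ 2 * K * (2 + η / 4) / η := by positivity
  have hKη' : 0 ≤ 2 * K / η := by positivity
  have hL0 : 0 < L := by linarith
  obtain ⟨P, hP⟩ : ∃ P : ℝ, P = Ls a b x1 x2 pi0 := ⟨_, rfl⟩
  obtain ⟨T, hT⟩ : ∃ T : ℝ, T = ∑ N ∈ Ioc (Fn a b x1) (Fn a b x2), pi0 N * Real.log N * hw a N := ⟨_, rfl⟩
  have hpi0 : ∀ N, 0 ≤ pi0 N := by
    intro N
    unfold pi0
    split_ifs <;> norm_num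
  have hP0 : 0 ≤ P := by
    rw [hP]
    exact sum_nonneg fun N _ => mul_nonneg (hpi0 N) (lsl_hw_nonneg a N)
  -- split
  have hsplit : Ls a b x1 x2 (fun N => rg 1 N * vonMangoldt N) =
      T + ∑ N ∈ Ioc (Fn a b x1) (Fn a b x2), (1 - pi0 N) * vonMangoldt N * hw a N := by
    rw [hT, ← sum_add_distrib]
    unfold Ls
    refine sum_congr rfl fun N hN => ?_
    rw [mem_Ioc] at hN
    have hr : rg 1 N = 1 := by
      unfold rg
      rw [if_pos]
      exact ⟨by omega, fun p hp _ => hp.one_lt⟩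
    beta_reduce
    rw [hr]
    by_cases hp : N.Prime
    · rw [ArithmeticFunction.vonMangoldt_apply_prime hp]
      ring
    · have : pi0 N = 0 := by
        unfold pi0
        rw [if_neg hp]
      rw [this]
      ring
  rw [hsplit] at h3
  have h6 : |T - 2 * L * P| ≤ K * P := by
    have e1 : T - 2 * L * P = ∑ N ∈ Ioc (Fn a b x1) (Fn a b x2), pi0 N * hw a N * (Real.log N - 2 * L) := by
      rw [hT, hP]
      unfold Ls
      rw [mul_sum, ← sum_sub_distrib]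
      exact sum_congr rfl fun N _ => by ring
    rw [e1, hP]
    unfold Ls
    rw [mul_sum]
    refine (abs_sum_le_sum_abs _ _).trans (sum_le_sum fun N hN => ?_)
    have h0 : 0 ≤ pi0 N * hw a N := mul_nonneg (hpi0 N) (lsl_hw_nonneg a N)
    rw [abs_mul, abs_of_nonneg h0, mul_comm K]
    exact mul_le_mul_of_nonneg_left (h1 N hN) h0
  have h3' := abs_le.1 h3
  have h2' := abs_le.1 h2
  have h6' := abs_le.1 h6
  have hηx : η / 4 * x2 ≤ η / 4 * x := mul_le_mul_of_nonneg_left hx2r (by positivity)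
  have hTu : T ≤ (2 + η / 4) * x := by
    have : K ≤ x := by linarith
    linarith [h3'.2, h2'.1]
  have hPu : L * P ≤ (2 + η / 4) * x := by
    have h8 : 2 * L * P - K * P ≤ T := by linarith [h6'.1]
    have h9 : 0 ≤ (L - K) * P := mul_nonneg (by linarith) hP0
    linarith
  have hKP : K * P ≤ η / 2 * x := by
    have h8 : 2 * K * (2 + η / 4) ≤ η * L := by
      have : 2 * K * (2 + η / 4) / η ≤ L := by linarith
      rw [div_le_iff₀ hη] at this
      linarith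
    have h9 : 2 * K * (L * P) ≤ 2 * K * ((2 + η / 4) * x) := mul_le_mul_of_nonneg_left hPu (by positivity)
    have h10 : 2 * K * (2 + η / 4) * x ≤ η * L * x := mul_le_mul_of_nonneg_right h8 hx0.le
    have h11 : L * (K * P) ≤ L * (η / 2 * x) := by linarith
    exact le_of_mul_le_mul_left h11 hL0
  have hKx : K ≤ η / 2 * x := by
    have : 2 * K / η ≤ x := by linarith
    rw [div_le_iff₀ hη] at this
    linarith
  have hfin : |2 * L * P - ((x2 : ℝ) - x1)| ≤ 2 * η * x := by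
    have : 0 < η * x := by positivity
    rw [abs_le]
    constructor <;> linarith [h6'.1, h6'.2, h3'.1, h3'.2, h2'.1, h2'.2]
  rw [← hP]
  have e3 : P - ((x2 : ℝ) - x1) / (2 * L) = (2 * L * P - ((x2 : ℝ) - x1)) / (2 * L) := by
    field_simp
  rw [e3, abs_div, abs_of_pos (by linarith : (0 : ℝ) < 2 * L), div_le_iff₀ (by linarith)]
  calc |2 * L * P - ((x2 : ℝ) - x1)| ≤ 2 * η * x := hfin
    _ = η * (x / L) * (2 * L) := by field_simp

end Pool.Agent.N792
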