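import Mathlib
import Pool.Agent.N792.Rav
import Pool.Agent.N792.ShpA

/-!
Two mean values for the type I part (helper792): the reciprocals of the rough numbers, and the mean value
over `c` of `V_c(w) / V(w)`.
-/

set_option autoImplicit false

namespace Pool.Agent.N792

open Finset Filter Topology

/-- the sum of the reciprocals of the rough numbers is bounded by the product -/
lemma rough_recip_prod (z U : ℕ) (hzU : z ≤ U) : ∑ j ∈ Icc 1 U, rg z j / j ≤ V1 z / V1 U := by
  classical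
  let f : ℕ →* ℝ :=
    { toFun := fun n => (n : ℝ)⁻¹
      map_one' := by simp
      map_mul' := by intro a b; push_cast; rw [mul_inv] }
  have hf : ∀ n, f n = (n : ℝ)⁻¹ := fun n => rfl
  have h := (EulerProduct.summable_and_hasSum_factoredNumbers_prod_filter_prime_geometric (f := f)
    (by
      intro p hp
      rw [hf, norm_inv, RCLike.norm_natCast]
      have : (1 : ℝ) < p := by exact_mod_cast hp.one_lt
      exact inv_lt_one_of_one_lt₀ this) (Ioc z U)).2
  have hmem : ∀ n ∈ (Icc 1 U).filter (fun j => Rough z j), n ∈ Nat.factoredNumbers (Ioc z U) := by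
    intro n hn
    rw [mem_filter, mem_Icc] at hn
    rw [Nat.mem_factoredNumbers']
    intro p hp hpn
    rw [mem_Ioc]
    exact ⟨hn.2.2 p hp hpn, (Nat.le_of_dvd (by omega) hpn).trans hn.1.2⟩
  have h2 := sum_le_hasSum (((Icc 1 U).filter (fun j => Rough z j)).subtype (· ∈ Nat.factoredNumbers (Ioc z U)))
    (fun i _ => by rw [hf]; positivity) h
  rw [Finset.sum_subtype_of_mem (fun n => f n) hmem] at h2
  have h3 : ∑ j ∈ Icc 1 U, rg z j / j = ∑ j ∈ (Icc 1 U).filter (fun j => Rough z j), f j := by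
    rw [sum_filter]
    refine sum_congr rfl fun j _ => ?_
    unfold rg
    split_ifs
    · rw [hf, one_div]
    · simp
  rw [h3]
  refine h2.trans (le_of_eq ?_)
  have h4 : V1 U = V1 z * ∏ p ∈ (Ioc z U).filter Nat.Prime, (1 - 1 / (p : ℝ)) := by
    unfold V1
    rw [← prod_union]
    · congr 1
      ext p
      simp only [mem_union, mem_filter, mem_Icc, mem_Ioc]
      constructor
      · rintro ⟨⟨h1, h2⟩, h3⟩
        rcases le_or_gt p z with h | h
        · exact Or.inl ⟨⟨h1, h⟩, h3⟩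
        · exact Or.inr ⟨⟨h, h2⟩, h3⟩
      · rintro (⟨⟨h1, h2⟩, h3⟩ | ⟨⟨h1, h2⟩, h3⟩)
        · exact ⟨⟨h1, h2.trans hzU⟩, h3⟩
        · exact ⟨⟨h3.one_le, h2⟩, h3⟩
    · rw [disjoint_left]
      intro p hp hq
      rw [mem_filter, mem_Icc] at hp
      rw [mem_filter, mem_Ioc] at hq
      omega
  have h5 : 0 < V1 z := V1_pos z
  have h6 : 0 < V1 U := V1_pos U
  have h7 : ∏ p ∈ (Ioc z U).filter Nat.Prime, (1 - f p)⁻¹ =
      (∏ p ∈ (Ioc z U).filter Nat.Prime, (1 - 1 / (p : ℝ)))⁻¹ := by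
    rw [← prod_inv_distrib]
    exact prod_congr rfl fun p _ => by rw [hf, one_div]
  rw [h7, h4]
  have h8 : 0 < ∏ p ∈ (Ioc z U).filter Nat.Prime, (1 - 1 / (p : ℝ)) := by
    by_contra hcon
    push Not at hcon
    have : V1 U ≤ 0 := by rw [h4]; exact mul_nonpos_of_nonneg_of_nonpos h5.le hcon
    linarith
  field_simp

/-- **the reciprocals of the rough numbers** -/
theorem rough_recip : ∃ K : ℝ, 0 < K ∧ ∀ η : ℝ, 0 < η → η ≤ 1 → ∃ x0 : ℕ, ∀ x : ℕ, x0 ≤ x → ∀ z U : ℕ,
    (x : ℝ) ^ η ≤ z → U ≤ x → ∑ j ∈ Icc 1 U, rg z j / j ≤ K / η := by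
  obtain ⟨c, hc, H⟩ := Shp.V1_lower
  refine ⟨1 / c + 1, by positivity, fun η hη hη1 => ?_⟩
  obtain ⟨y1, hy1⟩ := eventually_atTop.1 ((tendsto_rpow_atTop hη).eventually_ge_atTop 3)
  refine ⟨⌈y1⌉₊ + 3, fun x hx z U hz hU => ?_⟩
  have hx3 : (3 : ℝ) ≤ x := by exact_mod_cast (by omega : 3 ≤ x)
  have hxy : y1 ≤ x := (Nat.le_ceil _).trans (by exact_mod_cast (by omega : ⌈y1⌉₊ ≤ x))
  have hz3 : (3 : ℝ) ≤ z := (hy1 x hxy).trans hz
  have hz3' : 3 ≤ z := by exact_mod_cast hz3
  have hL : 0 < Real.log x := Real.log_pos (by linarith)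
  have hlz : η * Real.log x ≤ Real.log z := by
    rw [← Real.log_rpow (by linarith)]
    exact Real.log_le_log (Real.rpow_pos_of_pos (by linarith) _) hz
  have hlz0 : 0 < Real.log z := lt_of_lt_of_le (by positivity) hlz
  rcases le_or_gt z U with hzU | hzU
  · refine (rough_recip_prod z U hzU).trans ?_
    have h1 := V1_le z (by omega)
    have h2 := H U (by omega)
    have hU3 : (3 : ℝ) ≤ U := by exact_mod_cast (by omega : 3 ≤ U)
    have hlU : 0 < Real.log U := Real.log_pos (by linarith)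
    have hlUx : Real.log U ≤ Real.log x := Real.log_le_log (by linarith) (by exact_mod_cast hU)
    rw [div_le_iff₀ (V1_pos U)]
    calc V1 z ≤ 1 / Real.log z := h1
      _ ≤ 1 / (η * Real.log x) := one_div_le_one_div_of_le (by positivity) hlz
      _ = (1 / c) / η * (c / Real.log x) := by field_simp
      _ ≤ (1 / c + 1) / η * (c / Real.log U) := by gcongr; linarith
      _ ≤ (1 / c + 1) / η * V1 U := by gcongr
  · have h1 : ∑ j ∈ Icc 1 U, rg z j / j ≤ ∑ j ∈ Icc 1 z, rg z j / j := by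
      refine sum_le_sum_of_subset_of_nonneg (Icc_subset_Icc_right hzU.le) fun j _ _ => ?_
      have : 0 ≤ rg z j := by unfold rg; split_ifs <;> norm_num
      positivity
    have h2 := rough_recip_prod z z le_rfl
    rw [div_self (V1_pos z).ne'] at h2
    have h3 : 1 ≤ (1 / c + 1) / η := by
      rw [le_div_iff₀ hη]
      have : 0 < 1 / c := by positivity
      linarith
    linarith

end Pool.Agent.N792
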