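import Mathlib
import Pool.Agent.N792.Asm
import Pool.Agent.N792.TH5
import Pool.Agent.N792.FlP
import Pool.Agent.N792.Rav
import Pool.Agent.N792.LamB
import Pool.Agent.N792.Mtm
import Pool.Agent.N792.Ty1a

/-!
The values of a type I function at the polynomial, on average over `c`
(helper702, for the project of helper792).
-/

set_option autoImplicit false

namespace Pool.Agent.N792
open Finset Filter Topology
open ArithmeticFunction (moebius vonMangoldt)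

namespace Ty1C

/-- the number of `n ∈ (x1, x]` for which `j` divides the value and the quotient is rough -/
noncomputable def T (a b : ℤ) (x1 x c z j : ℕ) : ℝ :=
  ∑ n ∈ Ioc x1 x, if j ∣ Fn a b n + c then rg z ((Fn a b n + c) / j) else 0

lemma T_nonneg (a b : ℤ) (x1 x c z j : ℕ) : 0 ≤ T a b x1 x c z j := by
  unfold T
  apply sum_nonneg
  intro n _
  split_ifs
  · exact (rg_range _ _).1
  · exact le_rfl

lemma Lc_T {a b : ℤ} (ha : 0 < a) {x1 x c : ℕ} (z : ℕ) (hb : b.natAbs ≤ x1) (j : ℕ) :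
    Lc a b x1 x c (fun N => if j ∣ N then rg z (N / j) else 0) = T a b x1 x c z j := by
  rw [Lc_eq ha hb]
  rfl

lemma Lc_sum {a b : ℤ} (ha : 0 < a) {x1 x c : ℕ} (z U : ℕ) (hb : b.natAbs ≤ x1) (hc : 1 ≤ c) (g : ℕ → ℝ) :
    Lc a b x1 x c (fun N => rg z N * ∑ j ∈ N.divisors.filter (fun j => j ≤ U), g j) =
      ∑ j ∈ Icc 1 U, rg z j * g j * T a b x1 x c z j := by
  rw [Lc_eq ha hb]
  have h1 : ∀ n ∈ Ioc x1 x, (rg z (Fn a b n + c) * ∑ j ∈ (Fn a b n + c).divisors.filter (fun j => j ≤ U), g j) =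
      ∑ j ∈ Icc 1 U, rg z j * g j * (if j ∣ Fn a b n + c then rg z ((Fn a b n + c) / j) else 0) := by
    intro n _
    have hN : Fn a b n + c ≠ 0 := by omega
    have h2 := conv_val (z := z) (U := 0) (y := U) hN g (fun _ => 1)
    have h3 : (Fn a b n + c).divisors.filter (fun j => j ≤ U) =
        (Fn a b n + c).divisors.filter (fun j => 0 < j ∧ j ≤ U) := by
      ext j
      simp only [mem_filter, Nat.mem_divisors]
      constructor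
      · rintro ⟨h4, h5⟩
        exact ⟨h4, Nat.pos_of_dvd_of_pos h4.1 (Nat.pos_of_ne_zero h4.2), h5⟩
      · rintro ⟨h4, _, h5⟩
        exact ⟨h4, h5⟩
    rw [h3]
    simp only [mul_one] at h2
    rw [h2]
    have h5 : Ioc 0 U = Icc 1 U := by ext j; simp only [mem_Ioc, mem_Icc]; omega
    rw [h5]
    apply sum_congr rfl
    intro j _
    split_ifs <;> ring
  rw [sum_congr rfl h1, sum_comm]
  apply sum_congr rfl
  intro j _
  unfold T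
  rw [mul_sum]

open Classical in
lemma T_card {a b : ℤ} (ha : 0 < a) {x1 x c z j : ℕ} (hb : b.natAbs ≤ x1) (hc : 1 ≤ c) (hj : Rough z j) :
    T a b x1 x c z j = (#((Ioc x1 x).filter (fun n : ℕ => (j : ℤ) ∣ fv a b (c : ℕ) n ∧
      Rough z (fv a b (c : ℕ) n).natAbs)) : ℝ) := by
  unfold T
  rw [card_eq_sum_ones, Nat.cast_sum, sum_filter]
  apply sum_congr rfl
  intro n hn
  rw [mem_Ioc] at hn
  rw [Mtm.fv_eq ha (by omega), Int.natAbs_natCast]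
  simp only [Int.natCast_dvd_natCast]
  have hN : Fn a b n + c ≠ 0 := by omega
  by_cases hd : j ∣ Fn a b n + c
  · obtain ⟨k, hk⟩ := hd
    have hj0 : j ≠ 0 := hj.1
    have hk0 : k ≠ 0 := by
      rintro rfl
      rw [mul_zero] at hk
      exact hN hk
    have h1 : rg z (Fn a b n + c) = rg z ((Fn a b n + c) / j) := by
      rw [hk, Nat.mul_div_cancel_left _ (Nat.pos_of_ne_zero hj0), rg_mul hj0 hk0]
      have h2 : rg z j = 1 := by unfold rg; rw [if_pos hj]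
      rw [h2, one_mul]
    have hd' : j ∣ Fn a b n + c := ⟨k, hk⟩
    rw [if_pos hd', ← h1]
    unfold rg
    by_cases hr : Rough z (Fn a b n + c)
    · rw [if_pos hr, if_pos ⟨hd', hr⟩]; simp
    · rw [if_neg hr, if_neg (fun h => hr h.2)]
  · rw [if_neg hd, if_neg (fun h => hd h.1)]

lemma two_pow_ge (J : ℕ) : J + 2 ≤ 2 ^ 2 ^ J := by
  induction J with
  | zero => norm_num
  | succ k ih =>
    have h1 : 2 ^ 2 ^ (k + 1) = 2 ^ 2 ^ k * 2 ^ 2 ^ k := by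
      rw [← pow_add]; congr 1; rw [pow_succ]; ring
    rw [h1]
    nlinarith

open Classical in
/-- the bound for one `c` -/
lemma one_c {a b : ℤ} (ha : 0 < a) {C1 b0 : ℕ} (hC1 : 1 ≤ C1) (hb0 : C1 ≤ b0)
    (H : ∀ (J m n1 n2 : ℕ) (c : ℤ),
      1 ≤ m → Rough (2 ^ 2 ^ J) m → n1 ≤ n2 →
      |(#((Ioc n1 n2).filter (fun n : ℕ => (m : ℤ) ∣ fv a b c n ∧ Rough (2 ^ 2 ^ J) (fv a b c n).natAbs)) : ℝ) -
        rho a b c m / m * ((n2 : ℝ) - n1) * Vc a b c (2 ^ 2 ^ J)| ≤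
        (1 / 2) ^ b0 * (rho a b c m / m * ((n2 : ℝ) - n1) * Vc a b c (2 ^ 2 ^ J)) +
          rho a b c m * (C1 * (J + 2) * (2 ^ 2 ^ J) ^ (C1 * b0)))
    {x1 x c J U : ℕ} (hx1 : x1 ≤ x) (hb : b.natAbs ≤ x1) (hc : 1 ≤ c) {L : ℝ} (g : ℕ → ℝ)
    (hg : ∀ j ≤ U, |g j| ≤ L) :
    |Lc a b x1 x c (fun N => rg (2 ^ 2 ^ J) N * ∑ j ∈ N.divisors.filter (fun j => j ≤ U), g j) -
      ((x : ℝ) - x1) * Vc a b (c : ℕ) (2 ^ 2 ^ J) *
        ∑ j ∈ Icc 1 U, rg (2 ^ 2 ^ J) j * g j * (rho a b (c : ℕ) j : ℝ) / j| ≤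
      L * ∑ j ∈ Icc 1 U, (2 * (1 / 2) ^ b0 * (rg (2 ^ 2 ^ J) j * T a b x1 x c (2 ^ 2 ^ J) j) +
        2 * (rho a b (c : ℕ) j * (C1 * (J + 2) * (2 ^ 2 ^ J) ^ (C1 * b0)))) := by
  rw [Lc_sum ha _ U hb hc, mul_sum, ← sum_sub_distrib, mul_sum]
  refine (abs_sum_le_sum_abs _ _).trans (sum_le_sum ?_)
  intro j hj
  rw [mem_Icc] at hj
  have hgj := hg j hj.2
  have hL : 0 ≤ L := (abs_nonneg _).trans hgj
  have hp : (1 / 2 : ℝ) ^ b0 ≤ 1 / 2 := by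
    calc (1 / 2 : ℝ) ^ b0 ≤ (1 / 2) ^ 1 := pow_le_pow_of_le_one (by norm_num) (by norm_num) (by omega)
      _ = 1 / 2 := by norm_num
  have hp0 : (0 : ℝ) ≤ (1 / 2 : ℝ) ^ b0 := by positivity
  have hE : (0 : ℝ) ≤ (rho a b (c : ℕ) j : ℝ) * (C1 * (J + 2) * (2 ^ 2 ^ J) ^ (C1 * b0)) := by positivity
  by_cases hr : Rough (2 ^ 2 ^ J) j
  · have h1 := H J j x1 x (c : ℕ) hj.1 hr hx1
    rw [← T_card ha hb hc hr] at h1
    have hrg : rg (2 ^ 2 ^ J) j = 1 := by unfold rg; rw [if_pos hr]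
    rw [hrg]
    set A : ℝ := rho a b (c : ℕ) j / j * ((x : ℝ) - x1) * Vc a b (c : ℕ) (2 ^ 2 ^ J) with hA
    set E : ℝ := (rho a b (c : ℕ) j : ℝ) * (C1 * (J + 2) * (2 ^ 2 ^ J) ^ (C1 * b0)) with hEdef
    have hA0 : 0 ≤ A := by
      rw [hA]
      have : (0 : ℝ) ≤ (x : ℝ) - x1 := by
        have : (x1 : ℝ) ≤ x := by exact_mod_cast hx1
        linarith
      have := Lam.Vc_nonneg a b (c : ℕ) (2 ^ 2 ^ J)
      positivity
    have h2 : 1 * g j * T a b x1 x c (2 ^ 2 ^ J) j -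
        ((x : ℝ) - x1) * Vc a b (c : ℕ) (2 ^ 2 ^ J) * (1 * g j * (rho a b (c : ℕ) j : ℝ) / j) =
        g j * (T a b x1 x c (2 ^ 2 ^ J) j - A) := by
      rw [hA]; ring
    rw [h2, abs_mul]
    have h3 : A ≤ 2 * T a b x1 x c (2 ^ 2 ^ J) j + 2 * E := by
      have h4 := (abs_le.1 h1).1
      nlinarith
    have h5 : |T a b x1 x c (2 ^ 2 ^ J) j - A| ≤
        2 * (1 / 2) ^ b0 * (1 * T a b x1 x c (2 ^ 2 ^ J) j) + 2 * E := by
      refine h1.trans ?_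
      have h6 : (1 / 2 : ℝ) ^ b0 * A ≤ (1 / 2) ^ b0 * (2 * T a b x1 x c (2 ^ 2 ^ J) j + 2 * E) :=
        mul_le_mul_of_nonneg_left h3 hp0
      have h7 : (1 / 2 : ℝ) ^ b0 * (2 * E) ≤ 1 / 2 * (2 * E) :=
        mul_le_mul_of_nonneg_right hp (by linarith)
      linarith
    exact mul_le_mul hgj h5 (abs_nonneg _) hL
  · have hrg : rg (2 ^ 2 ^ J) j = 0 := by unfold rg; rw [if_neg hr]
    rw [hrg]
    simp only [zero_mul, zero_div, mul_zero, sub_self, abs_zero, zero_add]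
    positivity

end Ty1C

open Ty1C in
theorem lc_one (a : ℤ) (ha : 0 < a) (b : ℤ) (R : ℕ) : ∃ C3 η0 : ℝ, 0 < C3 ∧ 0 < η0 ∧ ∀ η : ℝ, 0 < η → η ≤ η0 → ∃ x0 : ℕ, ∀ x : ℕ, x0 ≤ x →
    ∀ x1 C J U : ℕ, x1 < x → x ≤ R * x1 → (x : ℝ) ^ (9 / 10 : ℝ) ≤ C → C ≤ x →
    (x : ℝ) ^ (η / 2) ≤ ((2 ^ 2 ^ J : ℕ) : ℝ) → ((2 ^ 2 ^ J : ℕ) : ℝ) ≤ (x : ℝ) ^ η → (U : ℝ) ≤ (x : ℝ) ^ (3 / 4 : ℝ) →
    ∀ g : ℕ → ℝ, (∀ j ≤ U, |g j| ≤ 4 * Real.log x) →
    ∑ c ∈ Icc 1 C, |Lc a b x1 x c (fun N => rg (2 ^ 2 ^ J) N * ∑ j ∈ N.divisors.filter (fun j => j ≤ U), g j) -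
      ((x : ℝ) - x1) * Vc a b (c : ℕ) (2 ^ 2 ^ J) * ∑ j ∈ Icc 1 U, rg (2 ^ 2 ^ J) j * g j * (rho a b (c : ℕ) j : ℝ) / j| ≤
      C3 * ((2 : ℝ) ^ (-(1 / (C3 * η))) / η ^ 2) * (C * x) := by
  obtain ⟨C1, hC1, H⟩ := fl_poly a ha b
  obtain ⟨C5, hC5, HR⟩ := rough_avg a ha b
  obtain ⟨K, hK, HK⟩ := rough_recip
  obtain ⟨c0, A, hc0, hA, X0, HX0⟩ := Lam.range_bd a ha b R
  have hC1r : (1 : ℝ) ≤ C1 := by exact_mod_cast hC1
  obtain ⟨C3, hC3⟩ : ∃ C3 : ℝ, C3 = 40 * C1 + 128 * C5 * K + 1 := ⟨_, rfl⟩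
  have hCK : 0 < C5 * K := mul_pos hC5 hK
  have hC3a : 40 * (C1 : ℝ) ≤ C3 := by rw [hC3]; linarith
  have hC3b : 128 * C5 * K + 1 ≤ C3 := by rw [hC3]; linarith
  have hC3p : 0 < C3 := by linarith
  refine ⟨C3, 1 / (40 * C1 * (C1 + 1)), hC3p, by positivity, fun η hη hη1 => ?_⟩
  have hη2 : η * (40 * C1 * (C1 + 1)) ≤ 1 := by
    rwa [le_div_iff₀ (by positivity)] at hη1
  have hη3 : η ≤ 1 / 40 := by
    have h1 : (40 : ℝ) ≤ 40 * C1 * (C1 + 1) := by nlinarith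
    have h2 : η * 40 ≤ η * (40 * C1 * (C1 + 1)) := mul_le_mul_of_nonneg_left h1 hη.le
    linarith
  obtain ⟨b0, hb0⟩ : ∃ b0 : ℕ, b0 = ⌊1 / (40 * C1 * η)⌋₊ := ⟨_, rfl⟩
  have hb1 : (b0 : ℝ) ≤ 1 / (40 * C1 * η) := by
    rw [hb0]; exact Nat.floor_le (by positivity)
  have hb2 : 1 / (40 * C1 * η) < b0 + 1 := by
    rw [hb0]; exact Nat.lt_floor_add_one _
  have hb3 : C1 ≤ b0 := by
    rw [hb0]
    apply Nat.le_floor
    rw [le_div_iff₀ (by positivity)]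
    nlinarith
  obtain ⟨D, hD⟩ : ∃ D : ℝ, D = (2 : ℝ) ^ (-(1 / (C3 * η))) / η ^ 2 := ⟨_, rfl⟩
  have hDp : 0 < D := by rw [hD]; positivity
  have hb4 : (1 / 2 : ℝ) ^ b0 / η ^ 2 ≤ 2 * D := by
    rw [hD, ← mul_div_assoc]
    apply div_le_div_of_nonneg_right _ (by positivity)
    have h1 : (1 / 2 : ℝ) ^ b0 = (2 : ℝ) ^ (-(b0 : ℝ)) := by
      rw [Real.rpow_neg (by norm_num), Real.rpow_natCast, one_div, inv_pow]
    have h2 : (2 : ℝ) * (2 : ℝ) ^ (-(1 / (C3 * η))) = (2 : ℝ) ^ (1 - 1 / (C3 * η)) := by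
      rw [sub_eq_add_neg, Real.rpow_add (by norm_num), Real.rpow_one]
    rw [h1, h2]
    apply Real.rpow_le_rpow_of_exponent_le (by norm_num)
    have h3 : 1 / (C3 * η) ≤ 1 / (40 * C1 * η) := by
      apply one_div_le_one_div_of_le (by positivity)
      exact mul_le_mul_of_nonneg_right hC3a hη.le
    linarith
  obtain ⟨xa, hxa⟩ := HR (η / 2) (by positivity) (by linarith)
  obtain ⟨xb, hxb⟩ := HK (η / 2) (by positivity) (by linarith)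
  have e1 := Mtm.ev_pow 1 (16 * C1) (s := 1 / 10) (by norm_num)
  have e2 := Lam.pow_ev (1 / D) (9 / 10) 1 (by norm_num)
  obtain ⟨xc, hxc⟩ := eventually_atTop.1 (e1.and e2)
  refine ⟨max (max xa xb) (max xc (max X0 3)), fun x hx x1 C J U hx1 hxR hxC hCx hz1 hz2 hU g hg => ?_⟩
  have hxa' := hxa x (le_trans (by simp) hx)
  have hxb' := hxb x (le_trans (by simp) hx)
  obtain ⟨f1, f2⟩ := hxc x (le_trans (by simp) hx)
  have hX0' := HX0 x (le_trans (by simp) hx) x1 hx1 hxR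
  have hx3 : (3 : ℝ) ≤ x := by exact_mod_cast (le_trans (by simp) hx : 3 ≤ x)
  have hxp : (0 : ℝ) < x := by linarith
  have hx1r : (1 : ℝ) ≤ x := by linarith
  have hbx := hX0'.1
  obtain ⟨z, hz⟩ : ∃ z : ℕ, z = 2 ^ 2 ^ J := ⟨_, rfl⟩
  have hL1 : 1 ≤ Real.log x := by
    rw [Real.le_log_iff_exp_le hxp]
    exact Real.exp_one_lt_three.le.trans hx3
  have hLp : 0 < Real.log x := by linarith
  -- the error of the fundamental lemma
  obtain ⟨E0, hE0⟩ : ∃ E0 : ℝ, E0 = C1 * (J + 2) * (2 ^ 2 ^ J) ^ (C1 * b0) := ⟨_, rfl⟩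
  have hE0n : 0 ≤ E0 := by rw [hE0]; positivity
  have hx40 : (x : ℝ) ^ η ≤ (x : ℝ) ^ (1 / 40 : ℝ) := Real.rpow_le_rpow_of_exponent_le hx1r hη3
  have hE1 : E0 ≤ C1 * (x : ℝ) ^ (1 / 20 : ℝ) := by
    have h1 : ((J : ℝ) + 2) ≤ (x : ℝ) ^ (1 / 40 : ℝ) := by
      have h2 : ((J + 2 : ℕ) : ℝ) ≤ ((2 ^ 2 ^ J : ℕ) : ℝ) := by exact_mod_cast two_pow_ge J
      push_cast at h2 hz2
      linarith
    have h2 : ((2 : ℝ) ^ 2 ^ J) ^ (C1 * b0) ≤ (x : ℝ) ^ (1 / 40 : ℝ) := by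
      have h3 : ((2 : ℝ) ^ 2 ^ J) ≤ (x : ℝ) ^ η := by push_cast at hz2; exact hz2
      calc ((2 : ℝ) ^ 2 ^ J) ^ (C1 * b0) ≤ ((x : ℝ) ^ η) ^ (C1 * b0) := pow_le_pow_left₀ (by positivity) h3 _
        _ = (x : ℝ) ^ (η * ((C1 * b0 : ℕ) : ℝ)) := by rw [← Real.rpow_natCast, ← Real.rpow_mul hxp.le]
        _ ≤ (x : ℝ) ^ (1 / 40 : ℝ) := by
          apply Real.rpow_le_rpow_of_exponent_le hx1r
          push_cast
          rw [le_div_iff₀ (by positivity)] at hb1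
          linarith
    calc E0 = C1 * ((J + 2) * (2 ^ 2 ^ J) ^ (C1 * b0)) := by rw [hE0]; ring
      _ ≤ C1 * ((x : ℝ) ^ (1 / 40 : ℝ) * (x : ℝ) ^ (1 / 40 : ℝ)) := by gcongr
      _ = C1 * (x : ℝ) ^ (1 / 20 : ℝ) := by
        rw [← Real.rpow_add hxp]; norm_num
  have hUC : U ≤ C := by
    have h1 : (x : ℝ) ^ (3 / 4 : ℝ) ≤ (x : ℝ) ^ (9 / 10 : ℝ) :=
      Real.rpow_le_rpow_of_exponent_le hx1r (by norm_num)
    exact_mod_cast (hU.trans (h1.trans hxC))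
  have hUx : U ≤ x := hUC.trans hCx
  -- the sum over c
  have hc : ∀ c ∈ Icc 1 C, _ := fun c hc => one_c ha hC1 hb3 (H b0 hb3) (J := J) hx1.le hbx (mem_Icc.1 hc).1 g hg
  refine (sum_le_sum hc).trans ?_
  rw [← mul_sum, sum_comm]
  have hj : ∀ j ∈ Icc 1 U, ∑ c ∈ Icc 1 C, (2 * (1 / 2) ^ b0 * (rg (2 ^ 2 ^ J) j * T a b x1 x c (2 ^ 2 ^ J) j) +
        2 * (rho a b (c : ℕ) j * (C1 * (J + 2) * (2 ^ 2 ^ J) ^ (C1 * b0)))) ≤
      2 * (1 / 2) ^ b0 * (4 * C5 * (C * x) / (η * Real.log x)) * (rg z j / j) + 4 * C * E0 := by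
    intro j hj
    rw [mem_Icc] at hj
    rw [sum_add_distrib, ← mul_sum, ← mul_sum, ← mul_sum, ← sum_mul, ← hE0, ← hz]
    have hjr : (1 : ℝ) ≤ j := by exact_mod_cast hj.1
    have h1 := hxa' x1 x C z j hx1.le le_rfl hxC hCx (by rw [hz]; exact hz1) hj.1 (by
      have h2 : (j : ℝ) ≤ U := by exact_mod_cast hj.2
      refine h2.trans (hU.trans ?_)
      exact Real.rpow_le_rpow_of_exponent_le hx1r (by norm_num))
    have h2 : ∑ c ∈ Icc 1 C, T a b x1 x c z j ≤ 4 * C5 * (C * x) / (j * (η * Real.log x)) := by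
      rw [sum_congr rfl fun c _ => Lc_T ha z hbx j] at h1
      refine h1.trans ?_
      have h3 : (x : ℝ) - x1 + x / Real.log x ^ 2 ≤ 2 * x := by
        have h4 : (x : ℝ) / Real.log x ^ 2 ≤ x := by
          apply div_le_self hxp.le
          exact one_le_pow₀ hL1
        have h5 : (0 : ℝ) ≤ x1 := Nat.cast_nonneg _
        linarith
      have h6 : C5 * (C * ((x : ℝ) - x1 + x / Real.log x ^ 2) / (j * (η / 2 * Real.log x))) ≤
          C5 * (C * (2 * x) / (j * (η / 2 * Real.log x))) := by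
        gcongr
      refine h6.trans (le_of_eq ?_)
      field_simp
      ring
    have h3 := rho_sum_c a b hj.1 (hj.2.trans hUC)
    have h4 : 2 * (1 / 2 : ℝ) ^ b0 * (rg z j * ∑ c ∈ Icc 1 C, T a b x1 x c z j) ≤
        2 * (1 / 2) ^ b0 * (rg z j * (4 * C5 * (C * x) / (j * (η * Real.log x)))) := by
      have := (rg_range z j).1
      gcongr
    have h5 : 2 * ((∑ c ∈ Icc 1 C, (rho a b (c : ℕ) j : ℝ)) * E0) ≤ 2 * ((2 * C) * E0) := by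
      gcongr
    have h6 : 2 * (1 / 2 : ℝ) ^ b0 * (rg z j * (4 * C5 * (C * x) / (j * (η * Real.log x)))) =
        2 * (1 / 2) ^ b0 * (4 * C5 * (C * x) / (η * Real.log x)) * (rg z j / j) := by
      field_simp
    linarith
  have hK' := hxb' z U (by rw [hz]; exact hz1) hUx
  have hfin1 := sum_le_sum hj
  rw [sum_add_distrib, ← mul_sum, sum_const, nsmul_eq_mul, Nat.card_Icc, Nat.add_sub_cancel] at hfin1
  have hfin2 : 2 * (1 / 2 : ℝ) ^ b0 * (4 * C5 * (C * x) / (η * Real.log x)) * ∑ j ∈ Icc 1 U, rg z j / j ≤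
      2 * (1 / 2) ^ b0 * (4 * C5 * (C * x) / (η * Real.log x)) * (K / (η / 2)) := by
    gcongr
  have hfin3 : 4 * Real.log x * (2 * (1 / 2) ^ b0 * (4 * C5 * (C * x) / (η * Real.log x)) * (K / (η / 2))) =
      64 * C5 * K * ((1 / 2) ^ b0 / η ^ 2) * (C * x) := by
    field_simp
    ring
  have hfin4 : 64 * C5 * K * ((1 / 2) ^ b0 / η ^ 2) * (C * x) ≤ 64 * C5 * K * (2 * D) * (C * x) := by
    gcongr
  have hfin5 : 4 * Real.log x * ((U : ℝ) * (4 * C * E0)) ≤ D * (C * x) := by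
    have h1 : 4 * Real.log x * ((U : ℝ) * (4 * C * E0)) ≤
        4 * Real.log x * ((x : ℝ) ^ (3 / 4 : ℝ) * (4 * C * (C1 * (x : ℝ) ^ (1 / 20 : ℝ)))) := by
      gcongr
    have h2 : 4 * Real.log x * ((x : ℝ) ^ (3 / 4 : ℝ) * (4 * C * (C1 * (x : ℝ) ^ (1 / 20 : ℝ)))) =
        (16 * C1 * Real.log x ^ 1) * ((x : ℝ) ^ (3 / 4 : ℝ) * (x : ℝ) ^ (1 / 20 : ℝ)) * C := by ring
    have h3 : (16 * C1 * Real.log x ^ 1) * ((x : ℝ) ^ (3 / 4 : ℝ) * (x : ℝ) ^ (1 / 20 : ℝ)) * C ≤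
        (x : ℝ) ^ (1 / 10 : ℝ) * ((x : ℝ) ^ (3 / 4 : ℝ) * (x : ℝ) ^ (1 / 20 : ℝ)) * C := by
      gcongr
    have h4 : (x : ℝ) ^ (1 / 10 : ℝ) * ((x : ℝ) ^ (3 / 4 : ℝ) * (x : ℝ) ^ (1 / 20 : ℝ)) =
        (x : ℝ) ^ (9 / 10 : ℝ) := by
      rw [← Real.rpow_add hxp, ← Real.rpow_add hxp]; norm_num
    have h5 : (x : ℝ) ^ (9 / 10 : ℝ) ≤ D * x := by
      rw [Real.rpow_one, div_mul_eq_mul_div, one_mul, div_le_iff₀ hDp] at f2
      linarith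
    calc _ ≤ _ := h1
      _ = _ := h2
      _ ≤ _ := h3
      _ = (x : ℝ) ^ (9 / 10 : ℝ) * C := by rw [h4]
      _ ≤ D * x * C := by gcongr
      _ = _ := by ring
  have hDC : 0 ≤ D * (C * x) := by positivity
  calc 4 * Real.log x * ∑ j ∈ Icc 1 U, _ ≤ 4 * Real.log x *
        (2 * (1 / 2) ^ b0 * (4 * C5 * (C * x) / (η * Real.log x)) * (∑ j ∈ Icc 1 U, rg z j / j) + U * (4 * C * E0)) := by
        gcongr
    _ ≤ 4 * Real.log x * (2 * (1 / 2) ^ b0 * (4 * C5 * (C * x) / (η * Real.log x)) * (K / (η / 2)) + U * (4 * C * E0)) := by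
        gcongr
    _ = 64 * C5 * K * ((1 / 2) ^ b0 / η ^ 2) * (C * x) + 4 * Real.log x * (U * (4 * C * E0)) := by
        rw [mul_add, hfin3]
    _ ≤ 64 * C5 * K * (2 * D) * (C * x) + D * (C * x) := add_le_add hfin4 hfin5
    _ = (128 * C5 * K + 1) * (D * (C * x)) := by ring
    _ ≤ C3 * (D * (C * x)) := mul_le_mul_of_nonneg_right hC3b hDC
    _ = C3 * ((2 : ℝ) ^ (-(1 / (C3 * η))) / η ^ 2) * (C * x) := by rw [hD]; ring

end Pool.Agent.N792
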