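import Mathlib
import Pool.Agent.N792.Asm
import Pool.Agent.N792.TH5
import Pool.Agent.N792.LsLam
import Pool.Agent.N792.LamB
import Pool.Agent.N792.Ty1a

/-!
The weighted sum `Ls` of a type I function (helper546, subtask TY1/LS of helper792).
-/

set_option autoImplicit false

namespace Pool.Agent.N792
open Finset Filter Topology
open ArithmeticFunction (moebius vonMangoldt)

namespace Ty1L

/-- the sum over the multiples of `j` -/
noncomputable def T (a : ℤ) (F1 F2 z j : ℕ) : ℝ := ∑ k ∈ Ioc (F1 / j) (F2 / j), rg z k * hw a (j * k)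

/-- the same sum without the roughness -/
noncomputable def H (a : ℤ) (F1 F2 j : ℕ) : ℝ := ∑ k ∈ Ioc (F1 / j) (F2 / j), hw a (j * k)

lemma ls_dec (a b : ℤ) (x1 x z U : ℕ) (g : ℕ → ℝ) :
    Ls a b x1 x (fun N => rg z N * ∑ j ∈ N.divisors.filter (fun j => j ≤ U), g j) =
      ∑ j ∈ Icc 1 U, rg z j * g j * T a (Fn a b x1) (Fn a b x) z j := by
  unfold Ls T
  have h1 : ∀ N ∈ Ioc (Fn a b x1) (Fn a b x),
      (fun N => rg z N * ∑ j ∈ N.divisors.filter (fun j => j ≤ U), g j) N * hw a N =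
      ∑ j ∈ Icc 1 U, if j ∣ N then (rg z j * g j * rg z (N / j)) * hw a N else 0 := by
    intro N hN
    rw [mem_Ioc] at hN
    have hN0 : N ≠ 0 := by omega
    simp only
    rw [mul_sum, sum_mul, ← sum_filter]
    have h2 : N.divisors.filter (fun j => j ≤ U) = (Icc 1 U).filter (fun j => j ∣ N) := by
      ext j
      simp only [mem_filter, Nat.mem_divisors, mem_Icc]
      constructor
      · rintro ⟨⟨h3, _⟩, h4⟩
        exact ⟨⟨Nat.pos_of_dvd_of_pos h3 (by omega), h4⟩, h3⟩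
      · rintro ⟨⟨_, h4⟩, h3⟩
        exact ⟨⟨h3, hN0⟩, h4⟩
    rw [h2]
    apply sum_congr rfl
    intro j hj
    rw [mem_filter, mem_Icc] at hj
    obtain ⟨k, hk⟩ := hj.2
    have hj0 : j ≠ 0 := by omega
    have hk0 : k ≠ 0 := by
      rintro rfl
      rw [mul_zero] at hk
      exact hN0 hk
    have h5 : N / j = k := by rw [hk, Nat.mul_div_cancel_left _ (Nat.pos_of_ne_zero hj0)]
    rw [h5, hk, rg_mul hj0 hk0]
    ring
  rw [sum_congr rfl h1, sum_comm]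
  apply sum_congr rfl
  intro j hj
  rw [mem_Icc] at hj
  have hj0 : 0 < j := by omega
  rw [← sum_filter, mul_sum]
  refine (sum_bij' (fun k _ => j * k) (fun N _ => N / j) ?_ ?_ ?_ ?_ ?_).symm
  · intro k hk
    rw [mem_Ioc, Nat.div_lt_iff_lt_mul hj0, Nat.le_div_iff_mul_le hj0] at hk
    rw [mem_filter, mem_Ioc, mul_comm j k]
    exact ⟨hk, dvd_mul_left _ _⟩
  · intro N hN
    rw [mem_filter, mem_Ioc] at hN
    rw [mem_Ioc, Nat.div_lt_iff_lt_mul hj0, Nat.le_div_iff_mul_le hj0]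
    have e1 : N / j * j = N := Nat.div_mul_cancel hN.2
    rw [e1]
    exact hN.1
  · intro k _
    exact Nat.mul_div_cancel_left _ hj0
  · intro N hN
    rw [mem_filter] at hN
    exact Nat.mul_div_cancel' hN.2
  · intro k hk
    rw [Nat.mul_div_cancel_left _ hj0]
    ring

open Classical in
/-- the sum over the rough numbers against the sum over all -/
lemma T_sub {C1 : ℕ} (hfl : ∀ b0 : ℕ, C1 ≤ b0 → ∀ (J q r k1 k2 : ℕ), 1 ≤ q → r.Coprime q → k1 ≤ k2 →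
    |(#((Ioc k1 k2).filter (fun k : ℕ => k ≡ r [MOD q] ∧ Rough (2 ^ 2 ^ J) k)) : ℝ) -
      ((k2 : ℝ) - k1) / q * V1q q (2 ^ 2 ^ J)| ≤
      (1 / 2) ^ b0 * (((k2 : ℝ) - k1) / q * V1q q (2 ^ 2 ^ J)) +
        C1 * (J + 2) * (2 ^ 2 ^ J) ^ (C1 * b0))
    {a : ℤ} (ha : 0 < a) {b0 : ℕ} (hb0 : C1 ≤ b0) (J F1 F2 j : ℕ) (hj : 1 ≤ j) (hF : F1 ≤ F2) (W : ℝ)
    (hW : ∀ N, F1 < N → hw a N ≤ W) :
    |T a F1 F2 (2 ^ 2 ^ J) j - V1 (2 ^ 2 ^ J) * H a F1 F2 j| ≤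
      2 * ((1 / 2) ^ b0 * ((F2 : ℝ) / j * V1 (2 ^ 2 ^ J)) + C1 * (J + 2) * (2 ^ 2 ^ J) ^ (C1 * b0)) * W := by
  have hj0 : 0 < j := by omega
  set k1 := F1 / j with hk1
  set k2 := F2 / j with hk2
  have hk12 : k1 ≤ k2 := Nat.div_le_div_right hF
  set z := 2 ^ 2 ^ J with hz
  have hV := V1_pos z
  set B : ℝ := (1 / 2) ^ b0 * ((F2 : ℝ) / j * V1 z) + C1 * (J + 2) * (2 ^ 2 ^ J) ^ (C1 * b0) with hB
  have hB0 : 0 ≤ B := by positivity
  set D : ℕ → ℝ := fun k => (#((Ioc k1 k).filter (fun k : ℕ => Rough z k)) : ℝ) - ((k : ℝ) - k1) * V1 z with hD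
  have hDB : ∀ N, k1 ≤ N → N ≤ k2 → |D N| ≤ B := by
    intro N h1 h2
    have h3 := hfl b0 hb0 J 1 0 k1 N le_rfl (by simp) h1
    rw [V1q_one, Nat.cast_one, div_one] at h3
    have h4 : (Ioc k1 N).filter (fun k : ℕ => k ≡ 0 [MOD 1] ∧ Rough (2 ^ 2 ^ J) k) =
        (Ioc k1 N).filter (fun k : ℕ => Rough z k) := by
      apply filter_congr
      intro k _
      simp [Nat.modEq_one, hz]
    rw [h4] at h3
    refine h3.trans ?_
    rw [hB]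
    have h5 : (N : ℝ) - k1 ≤ (F2 : ℝ) / j := by
      have h6 : (N : ℝ) ≤ k2 := by exact_mod_cast h2
      have h7 : (k2 : ℝ) ≤ (F2 : ℝ) / j := Nat.cast_div_le
      have h8 : (0 : ℝ) ≤ k1 := Nat.cast_nonneg _
      linarith
    have h6 : ((N : ℝ) - k1) * V1 z ≤ (F2 : ℝ) / j * V1 z := mul_le_mul_of_nonneg_right h5 hV.le
    have h7 : (1 / 2 : ℝ) ^ b0 * (((N : ℝ) - k1) * V1 z) ≤ (1 / 2) ^ b0 * ((F2 : ℝ) / j * V1 z) :=
      mul_le_mul_of_nonneg_left h6 (by positivity)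
    linarith
  have e1 : T a F1 F2 z j - V1 z * H a F1 F2 j = ∑ N ∈ Ioc k1 k2, (D N - D (N - 1)) * hw a (j * N) := by
    unfold T H
    rw [mul_sum, ← sum_sub_distrib]
    apply sum_congr rfl
    intro k hk
    rw [mem_Ioc] at hk
    obtain ⟨m, rfl⟩ : ∃ m, k = m + 1 :=
      Nat.exists_eq_succ_of_ne_zero (Nat.ne_of_gt (lt_of_le_of_lt (Nat.zero_le _) hk.1))
    have h1 : (#((Ioc k1 (m + 1)).filter (fun k : ℕ => Rough z k)) : ℝ) =
        (#((Ioc k1 m).filter (fun k : ℕ => Rough z k)) : ℝ) + rg z (m + 1) := by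
      rw [← Finset.insert_Ioc_right_eq_Ioc_add_one (by omega), filter_insert]
      unfold rg
      split_ifs with h
      · rw [card_insert_of_notMem (by simp)]
        push_cast
        ring
      · ring
    simp only [hD, Nat.add_sub_cancel]
    rw [h1]
    push_cast
    ring
  rw [e1]
  have hh : ∀ N, k1 + 1 ≤ N → hw a (j * (N + 1)) ≤ hw a (j * N) := by
    intro N hN
    apply lsl_hw_anti ha
    · exact Nat.mul_pos hj0 (lt_of_lt_of_le (Nat.succ_pos _) hN)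
    · exact Nat.mul_le_mul_left _ (Nat.le_succ N)
  have h2 := lsl_abel' D (fun N => hw a (j * N)) B k1 k2 hB0 hk12 hDB hh
    (fun N => lsl_hw_nonneg a _)
  refine h2.trans ?_
  have h3 : hw a (j * (k1 + 1)) ≤ W := by
    apply hW
    have := (Nat.div_lt_iff_lt_mul hj0).1 (Nat.lt_succ_self k1)
    rw [mul_comm]
    exact this
  exact mul_le_mul_of_nonneg_left h3 (by positivity)

/-- the sum of the weight -/
lemma H_sub {a : ℤ} (ha : 0 < a) (b : ℤ) {x1 x j : ℕ} (hj : 1 ≤ j) (hjF : j ≤ Fn a b x1)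
    (hF : Fn a b x1 ≤ Fn a b x) (hb : |b| ≤ (x1 : ℤ)) (hx1 : 1 ≤ x1) (hx : x1 ≤ x) :
    |H a (Fn a b x1) (Fn a b x) j - ((x : ℝ) - x1) / j| ≤ 2 * |(b : ℝ)| + 1 := by
  have hjR : (1 : ℝ) ≤ j := by exact_mod_cast hj
  have hj0 : 0 < j := by omega
  have ha' : (1 : ℝ) ≤ a := by exact_mod_cast ha
  have haj : 0 < a * (j : ℤ) := by positivity
  set F1 := Fn a b x1 with hF1
  set F2 := Fn a b x with hF2
  have e1 : H a F1 F2 j = ∑ k ∈ Ioc (F1 / j) (F2 / j), hw (a * j) k := by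
    unfold H
    apply sum_congr rfl
    intro k _
    unfold hw
    push_cast
    rw [mul_assoc]
  rw [e1]
  have hk1 : 1 ≤ F1 / j := (Nat.one_le_div_iff hj0).2 hjF
  obtain ⟨h1, h2⟩ := lsl_hw_sum haj (F1 / j) hk1 (F2 / j) (Nat.div_le_div_right hF)
  have h5 := lsl_sqrt_succ haj (F1 / j)
  have h3 := lsl_sqrt ha b hb hx1
  have h4 := lsl_sqrt ha b (hb.trans (by exact_mod_cast hx)) (hx1.trans hx)
  rw [← hF1] at h3
  rw [← hF2] at h4
  -- comparison of the square roots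
  have key : ∀ F : ℕ, √(((F / j : ℕ) : ℝ) / ((a * (j : ℤ) : ℤ) : ℝ)) ≤ √((F : ℝ) / a) / j ∧
      √((F : ℝ) / a) / j ≤ √((((F / j : ℕ) : ℝ) + 1) / ((a * (j : ℤ) : ℤ) : ℝ)) := by
    intro F
    have e2 : √((F : ℝ) / j / ((a * (j : ℤ) : ℤ) : ℝ)) = √((F : ℝ) / a) / j := by
      rw [show (F : ℝ) / j / ((a * (j : ℤ) : ℤ) : ℝ) = (F : ℝ) / a / (j : ℝ) ^ 2 by push_cast; field_simp,
        Real.sqrt_div' _ (by positivity), Real.sqrt_sq (by linarith)]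
    rw [← e2]
    have hajR : (0 : ℝ) < ((a * (j : ℤ) : ℤ) : ℝ) := by exact_mod_cast haj
    constructor
    · apply Real.sqrt_le_sqrt
      apply div_le_div_of_nonneg_right _ hajR.le
      exact Nat.cast_div_le
    · apply Real.sqrt_le_sqrt
      apply div_le_div_of_nonneg_right _ hajR.le
      rw [div_le_iff₀ (by linarith)]
      have h6 : F < (F / j + 1) * j := by
        exact (Nat.div_lt_iff_lt_mul hj0).1 (Nat.lt_succ_self _)
      have h7 : (F : ℝ) < ((F / j : ℕ) + 1) * j := by exact_mod_cast h6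
      exact h7.le
  have k1 := key F1
  have k2 := key F2
  have h6 : |√((F2 : ℝ) / a) / j - √((F1 : ℝ) / a) / j - ((x : ℝ) - x1) / j| ≤ 2 * |(b : ℝ)| := by
    have e3 : √((F2 : ℝ) / a) / j - √((F1 : ℝ) / a) / j - ((x : ℝ) - x1) / j =
        ((√((F2 : ℝ) / a) - x) - (√((F1 : ℝ) / a) - x1)) / j := by ring
    rw [e3, abs_div, abs_of_pos (by linarith : (0 : ℝ) < j), div_le_iff₀ (by linarith)]
    have h7 := abs_sub (√((F2 : ℝ) / a) - x) (√((F1 : ℝ) / a) - x1)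
    have h8 : 2 * |(b : ℝ)| * 1 ≤ 2 * |(b : ℝ)| * j := mul_le_mul_of_nonneg_left hjR (by positivity)
    linarith
  rw [abs_le] at h6 ⊢
  constructor <;> linarith [h6.1, h6.2, k1.1, k1.2, k2.1, k2.2]


lemma hw_le {a : ℤ} (ha : 0 < a) {c0 : ℝ} (hc0 : 0 < c0) {x N : ℕ} (hx : 1 ≤ x) (h : c0 * (x : ℝ) ^ 2 ≤ N) :
    hw a N ≤ 1 / √c0 / x := by
  have har : (1 : ℝ) ≤ a := by exact_mod_cast ha
  have hxp : (0 : ℝ) < x := by exact_mod_cast hx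
  have hsc : 0 < √c0 := Real.sqrt_pos.2 hc0
  have h4 : √c0 * x ≤ √((a : ℝ) * N) := by
    apply Real.le_sqrt_of_sq_le
    rw [mul_pow, Real.sq_sqrt hc0.le]
    have hN0 : (0 : ℝ) ≤ N := Nat.cast_nonneg _
    nlinarith
  unfold hw
  have h5 : 0 < √((a : ℝ) * N) := lt_of_lt_of_le (mul_pos hsc hxp) h4
  rw [div_div, div_le_div_iff₀ (by positivity) (by positivity)]
  linarith

lemma J_le (J : ℕ) : J + 2 ≤ 2 ^ 2 ^ J := by
  induction J with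
  | zero => norm_num
  | succ n ih =>
    have h1 : 2 ^ 2 ^ (n + 1) = 2 ^ 2 ^ n * 2 ^ 2 ^ n := by rw [← pow_add]; congr 1; ring
    rw [h1]
    nlinarith

/-- the choice of the level -/
lemma level {C1 : ℕ} (hC1 : 1 ≤ C1) {η : ℝ} (hη : 0 < η) (hη0 : η ≤ 1 / (40 * C1 * (C1 + 1))) :
    ∃ b0 : ℕ, C1 ≤ b0 ∧ η * (C1 * b0 + 1) ≤ 1 / 20 ∧ (1 / 2 : ℝ) ^ b0 ≤ 2 * (2 : ℝ) ^ (-(1 / (40 * C1 * η))) := by
  have hC : (1 : ℝ) ≤ C1 := by exact_mod_cast hC1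
  refine ⟨⌊1 / (40 * C1 * η)⌋₊, ?_, ?_, ?_⟩
  · apply Nat.le_floor
    rw [le_div_iff₀ (by positivity)]
    rw [le_div_iff₀ (by positivity)] at hη0
    nlinarith [mul_pos hη (by linarith : (0 : ℝ) < C1)]
  · have h1 : ((⌊1 / (40 * C1 * η)⌋₊ : ℕ) : ℝ) ≤ 1 / (40 * C1 * η) := Nat.floor_le (by positivity)
    rw [le_div_iff₀ (by positivity)] at hη0
    have h2 : η * (C1 * ((⌊1 / (40 * C1 * η)⌋₊ : ℕ) : ℝ)) ≤ η * (C1 * (1 / (40 * C1 * η))) := by gcongr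
    have h3 : η * (C1 * (1 / (40 * C1 * η))) = 1 / 40 := by field_simp
    have h4 : η * 40 ≤ 1 := by
      have : η * 40 * 1 ≤ η * 40 * (C1 * (C1 + 1)) := by
        apply mul_le_mul_of_nonneg_left _ (by positivity)
        nlinarith
      linarith
    linarith
  · have h1 : 1 / (40 * C1 * η) < ((⌊1 / (40 * C1 * η)⌋₊ : ℕ) : ℝ) + 1 := Nat.lt_floor_add_one _
    rw [one_div, inv_pow, ← Real.rpow_natCast, ← Real.rpow_neg (by norm_num)]
    calc (2 : ℝ) ^ (-((⌊1 / (40 * C1 * η)⌋₊ : ℕ) : ℝ)) ≤ (2 : ℝ) ^ (1 + (-(1 / (40 * C1 * η)))) :=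
          Real.rpow_le_rpow_of_exponent_le (by norm_num) (by linarith)
      _ = 2 * (2 : ℝ) ^ (-(1 / (40 * C1 * η))) := by
          rw [Real.rpow_add (by norm_num), Real.rpow_one]

lemma m1_aux {L h A S x V Sm t η K C2 Q : ℝ} (hL : 0 < L) (hh : 0 ≤ h) (hA : 0 < A) (hS : 0 < S) (hx : 0 < x)
    (hV : 0 ≤ V) (hη : 0 < η) (hK : 0 < K) (h1 : h ≤ 2 * t) (h2 : V ≤ 2 / (η * L)) (h3 : Sm ≤ K / (η / 2))
    (h4 : t / η ^ 2 ≤ Q) (h5 : 64 * (A * K * S) ≤ C2 / 2) :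
    4 * L * (2 * h * (A * S * x) * V) * Sm ≤ C2 / 2 * Q * x := by
  have ht : 0 ≤ t := by linarith
  have hQ : 0 ≤ Q := le_trans (by positivity) h4
  have e1 : 4 * L * (2 * h * (A * S * x) * V) * Sm ≤ 4 * L * (2 * h * (A * S * x) * V) * (K / (η / 2)) :=
    mul_le_mul_of_nonneg_left h3 (by positivity)
  have e2 : h * V ≤ 2 * t * (2 / (η * L)) := mul_le_mul h1 h2 hV (by linarith)
  have e3 : 4 * L * (2 * h * (A * S * x) * V) * (K / (η / 2)) = (4 * L * 2 * (A * S * x) * (K / (η / 2))) * (h * V) := by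
    ring
  have e4 : (4 * L * 2 * (A * S * x) * (K / (η / 2))) * (h * V) ≤
      (4 * L * 2 * (A * S * x) * (K / (η / 2))) * (2 * t * (2 / (η * L))) :=
    mul_le_mul_of_nonneg_left e2 (by positivity)
  have e5 : (4 * L * 2 * (A * S * x) * (K / (η / 2))) * (2 * t * (2 / (η * L))) = 64 * (A * K * S) * (t / η ^ 2) * x := by
    field_simp
    ring
  have e6 : 64 * (A * K * S) * (t / η ^ 2) ≤ C2 / 2 * Q :=
    mul_le_mul h5 h4 (by positivity) (le_trans (by positivity) h5)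
  have e7 := mul_le_mul_of_nonneg_right e6 hx.le
  linarith

end Ty1L

theorem ls_one (a : ℤ) (ha : 0 < a) (b : ℤ) (R : ℕ) : ∃ C2 η0 : ℝ, 0 < C2 ∧ 0 < η0 ∧ ∀ η : ℝ, 0 < η → η ≤ η0 → ∃ x0 : ℕ, ∀ x : ℕ, x0 ≤ x →
    ∀ x1 J U : ℕ, x1 < x → x ≤ R * x1 →
    (x : ℝ) ^ (η / 2) ≤ ((2 ^ 2 ^ J : ℕ) : ℝ) → ((2 ^ 2 ^ J : ℕ) : ℝ) ≤ (x : ℝ) ^ η → (U : ℝ) ≤ (x : ℝ) ^ (3 / 4 : ℝ) →
    ∀ g : ℕ → ℝ, (∀ j ≤ U, |g j| ≤ 4 * Real.log x) →
    |Ls a b x1 x (fun N => rg (2 ^ 2 ^ J) N * ∑ j ∈ N.divisors.filter (fun j => j ≤ U), g j) -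
      ((x : ℝ) - x1) * V1 (2 ^ 2 ^ J) * ∑ j ∈ Icc 1 U, rg (2 ^ 2 ^ J) j * g j / j| ≤
      C2 * ((2 : ℝ) ^ (-(1 / (C2 * η))) / η ^ 2) * x := by
  obtain ⟨C1, hC1, hfl⟩ := fl_lin
  obtain ⟨K, hK, hrr⟩ := rough_recip
  obtain ⟨c0, A, hc0, hA, X0, hX0⟩ := Lam.range_bd a ha b R
  have hC1R : (1 : ℝ) ≤ C1 := by exact_mod_cast hC1
  have hsc : 0 < √c0 := Real.sqrt_pos.2 hc0
  obtain ⟨S, hS, hS0⟩ : ∃ S : ℝ, S = 1 / √c0 ∧ 0 < S := ⟨_, rfl, by positivity⟩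
  obtain ⟨C2, hC2⟩ : ∃ C2 : ℝ, C2 = 40 * C1 + 128 * A * K * S := ⟨_, rfl⟩
  have hAKS : 0 < A * K * S := by positivity
  have hC2a : 40 * (C1 : ℝ) ≤ C2 := by rw [hC2]; nlinarith
  have hC2b : 128 * A * K * S ≤ C2 := by rw [hC2]; linarith
  have hC20 : 0 < C2 := by linarith
  refine ⟨C2, 1 / (40 * C1 * (C1 + 1)), hC20, by positivity, fun η hη hη0 => ?_⟩
  obtain ⟨b0, hb1, hb2, hb3⟩ := Ty1L.level hC1 hη hη0
  have hη1 : η ≤ 1 := by
    refine hη0.trans ?_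
    rw [div_le_one (by positivity)]
    nlinarith
  obtain ⟨x0, hx0⟩ := hrr (η / 2) (by positivity) (by linarith)
  obtain ⟨Q, hQ, hQ0⟩ : ∃ Q : ℝ, Q = (2 : ℝ) ^ (-(1 / (C2 * η))) / η ^ 2 ∧ 0 < Q := ⟨_, rfl, by positivity⟩
  rw [← hQ]
  obtain ⟨K3, hK3, hK30⟩ : ∃ K3 : ℝ, K3 = 2 * S * C1 + (2 * |(b : ℝ)| + 1) ∧ 0 < K3 := ⟨_, rfl, by positivity⟩
  have hev := Shp.log_pow_le 1 (4 * K3 / (C2 / 2 * Q)) (1 / 4) (by norm_num)
  have hev2 := Lam.pow_ev (1 / c0) (3 / 4) 2 (by norm_num)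
  obtain ⟨x2, hx2⟩ := eventually_atTop.1 (hev.and hev2)
  refine ⟨max (max x0 x2) (max X0 3), fun x hx x1 J U hx1 hxR hz1 hz2 hU g hg => ?_⟩
  have hx3 : 3 ≤ x := by omega
  have hxR3 : (3 : ℝ) ≤ x := by exact_mod_cast hx3
  have hxp : (0 : ℝ) < x := by linarith
  obtain ⟨e1, e2⟩ := hx2 x (by omega)
  obtain ⟨hbx, hF1, hF2⟩ := hX0 x (by omega) x1 hx1 hxR
  have hL : 0 < Real.log x := Real.log_pos (by linarith)
  have hFF : Fn a b x1 ≤ Fn a b x := Mtm.Fn_mono ha hbx hx1.le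
  have hbx' : |b| ≤ (x1 : ℤ) := by
    rw [Int.abs_eq_natAbs]
    exact_mod_cast hbx
  have hx11 : 1 ≤ x1 := by
    rcases Nat.eq_zero_or_pos x1 with h | h
    · rw [h, mul_zero] at hxR; omega
    · exact h
  have hx1R : (x1 : ℝ) < x := by exact_mod_cast hx1
  -- the numbers j are at most F1
  have hUF : (U : ℝ) ≤ (Fn a b x1 : ℕ) := by
    have x2' : (x : ℝ) ^ (2 : ℝ) = (x : ℝ) ^ 2 := by norm_cast
    rw [x2', div_mul_eq_mul_div, one_mul, div_le_iff₀ hc0] at e2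
    linarith
  have hUF' : U ≤ Fn a b x1 := by exact_mod_cast hUF
  have hUx : U ≤ x := by
    have : (U : ℝ) ≤ x := hU.trans (by
      calc (x : ℝ) ^ (3 / 4 : ℝ) ≤ (x : ℝ) ^ (1 : ℝ) := Real.rpow_le_rpow_of_exponent_le (by linarith) (by norm_num)
        _ = x := Real.rpow_one _)
    exact_mod_cast this
  have hrs := hx0 x (by omega) (2 ^ 2 ^ J) U hz1 hUx
  obtain ⟨z, hz⟩ : ∃ z : ℕ, z = 2 ^ 2 ^ J := ⟨_, rfl⟩
  have hzR : ((2 : ℝ) ^ 2 ^ J) = (z : ℝ) := by rw [hz]; push_cast; rfl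
  have hzJ : J + 2 ≤ z := hz ▸ Ty1L.J_le J
  have hzJR : (J : ℝ) + 2 ≤ z := by exact_mod_cast hzJ
  have hz2' : (2 : ℝ) ≤ z := by exact_mod_cast (by omega : 2 ≤ z)
  have hV0 : 0 < V1 z := V1_pos z
  have hlz : η / 2 * Real.log x ≤ Real.log z := by
    rw [← Real.log_rpow hxp, hz]
    exact Real.log_le_log (by positivity) hz1
  have hV1 : V1 z ≤ 2 / (η * Real.log x) := by
    refine (V1_le z (by omega)).trans ?_
    rw [div_le_div_iff₀ (by nlinarith) (by positivity)]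
    linarith
  have hVone : V1 z ≤ 1 := Shp.V1_le_one z
  -- the error term
  have hE : (C1 : ℝ) * (J + 2) * (2 ^ 2 ^ J) ^ (C1 * b0) ≤ C1 * x := by
    rw [mul_assoc]
    apply mul_le_mul_of_nonneg_left _ (by linarith)
    rw [hzR]
    calc ((J : ℝ) + 2) * (z : ℝ) ^ (C1 * b0) ≤ z * (z : ℝ) ^ (C1 * b0) :=
          mul_le_mul_of_nonneg_right hzJR (by positivity)
      _ = (z : ℝ) ^ (C1 * b0 + 1) := by rw [pow_succ]; ring
      _ ≤ ((x : ℝ) ^ η) ^ (C1 * b0 + 1) := by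
          apply pow_le_pow_left₀ (by linarith)
          rw [hz]
          exact hz2
      _ = (x : ℝ) ^ (η * (C1 * b0 + 1)) := by
          rw [← Real.rpow_natCast, ← Real.rpow_mul hxp.le]
          push_cast
          rfl
      _ ≤ (x : ℝ) ^ (1 : ℝ) := Real.rpow_le_rpow_of_exponent_le (by linarith) (by linarith)
      _ = x := Real.rpow_one _
  -- each j
  have hj : ∀ j ∈ Icc 1 U, |Ty1L.T a (Fn a b x1) (Fn a b x) z j - V1 z * (((x : ℝ) - x1) / j)| ≤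
      2 * (1 / 2) ^ b0 * (A * S * x) * V1 z * (1 / j) + K3 := by
    intro j hj
    rw [mem_Icc] at hj
    have hjR : (1 : ℝ) ≤ j := by exact_mod_cast hj.1
    have t1 := Ty1L.T_sub hfl ha hb1 J (Fn a b x1) (Fn a b x) j hj.1 hFF (1 / √c0 / x)
      (fun N hN => Ty1L.hw_le ha hc0 (by omega) (hF1.trans (by exact_mod_cast hN.le)))
    rw [← hz, ← hS] at t1
    have t2 := Ty1L.H_sub ha b hj.1 (hj.2.trans hUF') hFF hbx' hx11 hx1.le
    have t3 : |V1 z * Ty1L.H a (Fn a b x1) (Fn a b x) j - V1 z * (((x : ℝ) - x1) / j)| ≤ 2 * |(b : ℝ)| + 1 := by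
      rw [← mul_sub, abs_mul, abs_of_pos hV0]
      calc V1 z * |Ty1L.H a (Fn a b x1) (Fn a b x) j - ((x : ℝ) - x1) / j| ≤ 1 * (2 * |(b : ℝ)| + 1) :=
            mul_le_mul hVone t2 (abs_nonneg _) zero_le_one
        _ = 2 * |(b : ℝ)| + 1 := one_mul _
    have u1 : ((Fn a b x : ℕ) : ℝ) ≤ A * (x : ℝ) ^ 2 := by linarith
    have t4 : 2 * ((1 / 2) ^ b0 * (((Fn a b x : ℕ) : ℝ) / j * V1 z) + C1 * (J + 2) * (2 ^ 2 ^ J) ^ (C1 * b0)) * (S / x) ≤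
        2 * (1 / 2) ^ b0 * (A * S * x) * V1 z * (1 / j) + 2 * S * C1 := by
      calc 2 * ((1 / 2) ^ b0 * (((Fn a b x : ℕ) : ℝ) / j * V1 z) + C1 * (J + 2) * (2 ^ 2 ^ J) ^ (C1 * b0)) * (S / x)
          ≤ 2 * ((1 / 2) ^ b0 * ((A * (x : ℝ) ^ 2) / j * V1 z) + C1 * x) * (S / x) := by gcongr
        _ = 2 * (1 / 2) ^ b0 * (A * S * x) * V1 z * (1 / j) + 2 * S * C1 := by field_simp
    have t5 : Ty1L.T a (Fn a b x1) (Fn a b x) z j - V1 z * (((x : ℝ) - x1) / j) =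
        (Ty1L.T a (Fn a b x1) (Fn a b x) z j - V1 z * Ty1L.H a (Fn a b x1) (Fn a b x) j) +
        (V1 z * Ty1L.H a (Fn a b x1) (Fn a b x) j - V1 z * (((x : ℝ) - x1) / j)) := by ring
    rw [t5]
    refine (abs_add_le _ _).trans ?_
    rw [hK3]
    linarith
  rw [Ty1L.ls_dec, ← hz]
  rw [← hz] at hrs
  have s1 : ∑ j ∈ Icc 1 U, rg z j * g j * Ty1L.T a (Fn a b x1) (Fn a b x) z j -
      ((x : ℝ) - x1) * V1 z * ∑ j ∈ Icc 1 U, rg z j * g j / j =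
      ∑ j ∈ Icc 1 U, rg z j * g j * (Ty1L.T a (Fn a b x1) (Fn a b x) z j - V1 z * (((x : ℝ) - x1) / j)) := by
    rw [mul_sum, ← sum_sub_distrib]
    apply sum_congr rfl
    intro j _
    ring
  rw [s1]
  refine (abs_sum_le_sum_abs _ _).trans ?_
  have s2 : ∀ j ∈ Icc 1 U, |rg z j * g j * (Ty1L.T a (Fn a b x1) (Fn a b x) z j - V1 z * (((x : ℝ) - x1) / j))| ≤
      4 * Real.log x * (2 * (1 / 2) ^ b0 * (A * S * x) * V1 z) * (rg z j / j) + 4 * Real.log x * K3 := by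
    intro j hjm
    have h1 := hj j hjm
    have h2 := hg j (mem_Icc.1 hjm).2
    obtain ⟨r0, r1⟩ := rg_range z j
    rw [abs_mul, abs_mul, abs_of_nonneg r0]
    calc rg z j * |g j| * |Ty1L.T a (Fn a b x1) (Fn a b x) z j - V1 z * (((x : ℝ) - x1) / j)|
        ≤ rg z j * (4 * Real.log x) * (2 * (1 / 2) ^ b0 * (A * S * x) * V1 z * (1 / j) + K3) := by gcongr
      _ = 4 * Real.log x * (2 * (1 / 2) ^ b0 * (A * S * x) * V1 z) * (rg z j / j) + 4 * Real.log x * K3 * rg z j := by ring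
      _ ≤ 4 * Real.log x * (2 * (1 / 2) ^ b0 * (A * S * x) * V1 z) * (rg z j / j) + 4 * Real.log x * K3 := by
          have : 4 * Real.log x * K3 * rg z j ≤ 4 * Real.log x * K3 * 1 :=
            mul_le_mul_of_nonneg_left r1 (by positivity)
          linarith
  refine (sum_le_sum s2).trans ?_
  rw [sum_add_distrib, ← mul_sum, sum_const, Nat.card_Icc, nsmul_eq_mul, Nat.add_sub_cancel]
  have m1 : 4 * Real.log x * (2 * (1 / 2) ^ b0 * (A * S * x) * V1 z) * ∑ j ∈ Icc 1 U, rg z j / j ≤ C2 / 2 * Q * x := by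
    refine Ty1L.m1_aux hL (by positivity) (by linarith) hS0 hxp hV0.le hη hK hb3 hV1 hrs ?_ (by linarith)
    rw [hQ]
    have hmon : (2 : ℝ) ^ (-(1 / (40 * C1 * η))) ≤ (2 : ℝ) ^ (-(1 / (C2 * η))) := by
      apply Real.rpow_le_rpow_of_exponent_le (by norm_num)
      apply neg_le_neg
      apply one_div_le_one_div_of_le (by positivity)
      exact mul_le_mul_of_nonneg_right hC2a hη.le
    exact div_le_div_of_nonneg_right hmon (by positivity)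
  have m2 : (U : ℝ) * (4 * Real.log x * K3) ≤ C2 / 2 * Q * x := by
    rw [pow_one, div_mul_eq_mul_div, div_le_iff₀ (by positivity)] at e1
    have x34 : 0 ≤ (x : ℝ) ^ (3 / 4 : ℝ) := by positivity
    have v1 : (U : ℝ) * (4 * Real.log x * K3) ≤ (x : ℝ) ^ (3 / 4 : ℝ) * (4 * Real.log x * K3) :=
      mul_le_mul_of_nonneg_right hU (by positivity)
    have v2 : (x : ℝ) ^ (3 / 4 : ℝ) * (4 * K3 * Real.log x) ≤ (x : ℝ) ^ (3 / 4 : ℝ) * ((x : ℝ) ^ (1 / 4 : ℝ) * (C2 / 2 * Q)) :=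
      mul_le_mul_of_nonneg_left e1 x34
    have v3 : (x : ℝ) ^ (3 / 4 : ℝ) * (x : ℝ) ^ (1 / 4 : ℝ) = x := by
      rw [← Real.rpow_add hxp]
      norm_num
    have v4 : (x : ℝ) ^ (3 / 4 : ℝ) * ((x : ℝ) ^ (1 / 4 : ℝ) * (C2 / 2 * Q)) = C2 / 2 * Q * x := by
      rw [← mul_assoc, v3]
      ring
    linarith
  linarith

end Pool.Agent.N792
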