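import Mathlib
import Pool.Agent.N792.Ty1a
import Pool.Agent.N792.TH5
import Pool.Agent.N792.FlP
import Pool.Agent.N792.Mtm

/-!
The mean value over `c` of `V_c(w) / V(w)` (helper792).
-/

set_option autoImplicit false

namespace Pool.Agent.N792

open Finset Filter Topology

lemma rho_one_eq (a b c : ℤ) : rho a b c 1 = 1 := by
  unfold rho
  simp

open Classical in
/-- the sum over `c` of the numbers of rough values -/
lemma rough_swap {a : ℤ} (ha : 0 < a) (b : ℤ) (x C w : ℕ) :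
    ∑ c ∈ Icc 1 C, (#((Ioc b.natAbs x).filter (fun n : ℕ => Rough w (fv a b (c : ℕ) n).natAbs)) : ℝ) =
      ∑ n ∈ Ioc b.natAbs x, (#((Ioc (Fn a b n) (Fn a b n + C)).filter (fun k => Rough w k)) : ℝ) := by
  classical
  have h1 : ∀ c ∈ Icc 1 C, (#((Ioc b.natAbs x).filter (fun n : ℕ => Rough w (fv a b (c : ℕ) n).natAbs)) : ℝ) =
      ∑ n ∈ Ioc b.natAbs x, if Rough w (Fn a b n + c) then (1 : ℝ) else 0 := by
    intro c _
    rw [← sum_filter, sum_const, nsmul_eq_mul, mul_one]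
    congr 2
    refine filter_congr fun n hn => ?_
    rw [mem_Ioc] at hn
    rw [Mtm.fv_eq ha (by omega), Int.natAbs_natCast]
  rw [sum_congr rfl h1, sum_comm]
  refine sum_congr rfl fun n _ => ?_
  rw [← sum_filter, sum_const, nsmul_eq_mul, mul_one]
  congr 1
  refine card_bij (fun c _ => Fn a b n + c) ?_ ?_ ?_
  · intro c hc
    rw [mem_filter, mem_Icc] at hc
    rw [mem_filter, mem_Ioc]
    exact ⟨by omega, hc.2⟩
  · intro c _ c' _ h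
    omega
  · intro k hk
    rw [mem_filter, mem_Ioc] at hk
    refine ⟨k - Fn a b n, ?_, by omega⟩
    rw [mem_filter, mem_Icc]
    refine ⟨by omega, ?_⟩
    rw [show Fn a b n + (k - Fn a b n) = k by omega]
    exact hk.2

/-- **the mean value of `V_c(w) / V(w)`** -/
theorem vc_mean (a : ℤ) (ha : 0 < a) (b : ℤ) (E : ℕ) : ∃ x0 : ℕ, ∀ x : ℕ, x0 ≤ x → ∀ C Jw : ℕ,
    (x : ℝ) ^ (9 / 10 : ℝ) ≤ C → C ≤ x → ((2 ^ 2 ^ Jw : ℕ) : ℝ) ≤ Real.log x ^ E →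
    ∑ c ∈ Icc 1 C, Vc a b (c : ℕ) (2 ^ 2 ^ Jw) / V1 (2 ^ 2 ^ Jw) ≤ 10 * C := by
  classical
  obtain ⟨C1, hC1, H1⟩ := fl_poly a ha b
  obtain ⟨C2, hC2, H2⟩ := fl_lin
  obtain ⟨x1, hx1⟩ := Mtm.err_small C1 E 1 (show (0 : ℝ) < 1 / 10 by norm_num)
  obtain ⟨x2, hx2⟩ := Mtm.err_small C2 E 1 (show (0 : ℝ) < 1 / 10 by norm_num)
  obtain ⟨x3, hx3⟩ := eventually_atTop.1 (Shp.inv_V1_le E)
  refine ⟨x1 + x2 + x3 + 10 * b.natAbs + 10, fun x hx C Jw hxC hCx hw => ?_⟩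
  obtain ⟨w, hwd⟩ : ∃ w : ℕ, w = 2 ^ 2 ^ Jw := ⟨_, rfl⟩
  have hV := hx3 x (by omega) _ hw
  obtain ⟨b1, hb1⟩ : ∃ b1 : ℕ, b1 = C1 + Nat.clog 2 ⌈Real.log x ^ 1⌉₊ := ⟨_, rfl⟩
  obtain ⟨b2, hb2⟩ : ∃ b2 : ℕ, b2 = C2 + Nat.clog 2 ⌈Real.log x ^ 1⌉₊ := ⟨_, rfl⟩
  obtain ⟨e1, -⟩ := hx1 x (by omega) Jw b1 hw hb1
  obtain ⟨e2, -⟩ := hx2 x (by omega) Jw b2 hw hb2
  obtain ⟨E1, hE1⟩ : ∃ E1 : ℝ, E1 = C1 * (Jw + 2) * (2 ^ 2 ^ Jw) ^ (C1 * b1) := ⟨_, rfl⟩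
  obtain ⟨E2, hE2⟩ : ∃ E2 : ℝ, E2 = C2 * (Jw + 2) * (2 ^ 2 ^ Jw) ^ (C2 * b2) := ⟨_, rfl⟩
  rw [← hE1, pow_one] at e1
  rw [← hE2, pow_one] at e2
  have hxR : (10 : ℝ) ≤ x := by exact_mod_cast (by omega : 10 ≤ x)
  have hx0 : (0 : ℝ) < x := by linarith
  have hL : 0 < Real.log x := Real.log_pos (by linarith)
  have hVp : 0 < V1 w := V1_pos w
  have hV1 : 1 ≤ V1 w * Real.log x := by
    rw [← hwd, div_le_iff₀ hVp] at hV
    linarith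
  have hE1n : 0 ≤ E1 := by rw [hE1]; positivity
  have hE2n : 0 ≤ E2 := by rw [hE2]; positivity
  -- E1, E2 ≤ x^(1/10) V1 w
  have hx10 : (0 : ℝ) < (x : ℝ) ^ (1 / 10 : ℝ) := Real.rpow_pos_of_pos hx0 _
  have q1 : E1 ≤ (x : ℝ) ^ (1 / 10 : ℝ) * V1 w := by
    calc E1 = E1 * 1 := (mul_one _).symm
      _ ≤ E1 * (V1 w * Real.log x) := by gcongr
      _ = (E1 * Real.log x) * V1 w := by ring
      _ ≤ _ := by gcongr
  have q2 : E2 ≤ (x : ℝ) ^ (1 / 10 : ℝ) * V1 w := by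
    calc E2 = E2 * 1 := (mul_one _).symm
      _ ≤ E2 * (V1 w * Real.log x) := by gcongr
      _ = (E2 * Real.log x) * V1 w := by ring
      _ ≤ _ := by gcongr
  have q3 : (x : ℝ) ^ (1 / 10 : ℝ) ≤ C := by
    refine le_trans ?_ hxC
    exact Real.rpow_le_rpow_of_exponent_le (by linarith) (by norm_num)
  have q4 : (x : ℝ) ^ (1 / 10 : ℝ) ≤ x := by
    calc (x : ℝ) ^ (1 / 10 : ℝ) ≤ (x : ℝ) ^ (1 : ℝ) :=
          Real.rpow_le_rpow_of_exponent_le (by linarith) (by norm_num)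
      _ = x := Real.rpow_one _
  have hC0 : (0 : ℝ) < C := lt_of_lt_of_le hx10 q3
  have hbx : (b.natAbs : ℝ) ≤ x / 10 := by
    rw [le_div_iff₀ (by norm_num)]
    exact_mod_cast (by omega : b.natAbs * 10 ≤ x)
  -- each c
  have k1 : ∀ c ∈ Icc 1 C, ((x : ℝ) - b.natAbs) * Vc a b (c : ℕ) w ≤
      2 * (#((Ioc b.natAbs x).filter (fun n : ℕ => Rough w (fv a b (c : ℕ) n).natAbs)) : ℝ) + 2 * E1 := by
    intro c _
    have h := H1 b1 (by omega) Jw 1 b.natAbs x (c : ℕ) le_rfl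
      ⟨one_ne_zero, fun p hp hp1 => absurd (Nat.dvd_one.1 hp1) hp.one_lt.ne'⟩ (by omega)
    rw [rho_one_eq, Nat.cast_one, Nat.cast_one, div_one, one_mul, one_mul, ← hE1, ← hwd] at h
    have h1 : ((Ioc b.natAbs x).filter (fun n : ℕ => ((1 : ℕ) : ℤ) ∣ fv a b (c : ℕ) n ∧ Rough w (fv a b (c : ℕ) n).natAbs)) =
        (Ioc b.natAbs x).filter (fun n : ℕ => Rough w (fv a b (c : ℕ) n).natAbs) := by
      refine filter_congr fun n _ => ?_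
      simp
    rw [Nat.cast_one] at h1
    simp only [Nat.cast_one, one_dvd, true_and] at h h1
    have h2 : (1 / 2 : ℝ) ^ b1 ≤ 1 / 2 := by
      calc (1 / 2 : ℝ) ^ b1 ≤ (1 / 2 : ℝ) ^ 1 := pow_le_pow_of_le_one (by norm_num) (by norm_num) (by omega)
        _ = 1 / 2 := pow_one _
    have h3 : 0 ≤ ((x : ℝ) - b.natAbs) * Vc a b (c : ℕ) w := by
      apply mul_nonneg (by linarith)
      exact (Mtm.Vc_bd a b (c : ℕ) w).1
    have h4 := (abs_le.1 h).1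
    have h5 : (1 / 2 : ℝ) ^ b1 * (((x : ℝ) - b.natAbs) * Vc a b (c : ℕ) w) ≤
        1 / 2 * (((x : ℝ) - b.natAbs) * Vc a b (c : ℕ) w) := by gcongr
    linarith
  have k2 : ∀ n ∈ Ioc b.natAbs x, (#((Ioc (Fn a b n) (Fn a b n + C)).filter (fun k => Rough w k)) : ℝ) ≤
      3 / 2 * (C * V1 w) + E2 := by
    intro n _
    have h := H2 b2 (by omega) Jw 1 0 (Fn a b n) (Fn a b n + C) le_rfl (by simp) (by omega)
    rw [Nat.cast_one, div_one, V1q_one, ← hE2, ← hwd] at h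
    have h1 : ((Ioc (Fn a b n) (Fn a b n + C)).filter (fun k => k ≡ 0 [MOD 1] ∧ Rough w k)) =
        (Ioc (Fn a b n) (Fn a b n + C)).filter (fun k => Rough w k) := by
      refine filter_congr fun k _ => ?_
      simp [Nat.modEq_one]
    rw [h1] at h
    push_cast at h
    have h2 : (1 / 2 : ℝ) ^ b2 ≤ 1 / 2 := by
      calc (1 / 2 : ℝ) ^ b2 ≤ (1 / 2 : ℝ) ^ 1 := pow_le_pow_of_le_one (by norm_num) (by norm_num) (by omega)
        _ = 1 / 2 := pow_one _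
    rw [show ((Fn a b n : ℝ) + C - Fn a b n) = C by ring] at h
    have h3 := (abs_le.1 h).2
    have h4 : (1 / 2 : ℝ) ^ b2 * ((C : ℝ) * V1 w) ≤ 1 / 2 * ((C : ℝ) * V1 w) := by gcongr
    linarith
  have k3 : ((x : ℝ) - b.natAbs) * ∑ c ∈ Icc 1 C, Vc a b (c : ℕ) w ≤
      2 * (x * (3 / 2 * (C * V1 w) + E2)) + 2 * (C * E1) := by
    rw [mul_sum]
    refine (sum_le_sum k1).trans ?_
    rw [sum_add_distrib, ← mul_sum, rough_swap ha, sum_const, Nat.card_Icc, nsmul_eq_mul]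
    have h1 : ∑ n ∈ Ioc b.natAbs x, (#((Ioc (Fn a b n) (Fn a b n + C)).filter (fun k => Rough w k)) : ℝ) ≤
        x * (3 / 2 * (C * V1 w) + E2) := by
      refine (sum_le_card_nsmul _ _ _ k2).trans ?_
      rw [nsmul_eq_mul, Nat.card_Ioc]
      have : ((x - b.natAbs : ℕ) : ℝ) ≤ x := by exact_mod_cast Nat.sub_le _ _
      gcongr
    have h2 : ((C + 1 - 1 : ℕ) : ℝ) = C := by norm_num
    rw [h2]
    linarith
  rw [← hwd, ← sum_div, div_le_iff₀ hVp]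
  have k4 : 0 ≤ ∑ c ∈ Icc 1 C, Vc a b (c : ℕ) w := sum_nonneg fun c _ => (Mtm.Vc_bd a b (c : ℕ) w).1
  have k5 : (9 / 10 * (x : ℝ)) * ∑ c ∈ Icc 1 C, Vc a b (c : ℕ) w ≤ x * (7 * (C * V1 w)) := by
    have h1 : (9 / 10 * (x : ℝ)) * ∑ c ∈ Icc 1 C, Vc a b (c : ℕ) w ≤ ((x : ℝ) - b.natAbs) * ∑ c ∈ Icc 1 C, Vc a b (c : ℕ) w := by
      apply mul_le_mul_of_nonneg_right _ k4
      linarith
    have h2 : E2 ≤ C * V1 w := q2.trans (by gcongr)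
    have h3 : (C : ℝ) * E1 ≤ x * (C * V1 w) := by
      calc (C : ℝ) * E1 ≤ C * ((x : ℝ) ^ (1 / 10 : ℝ) * V1 w) := by gcongr
        _ ≤ C * (x * V1 w) := by gcongr
        _ = _ := by ring
    have h4 : (x : ℝ) * E2 ≤ x * (C * V1 w) := by gcongr
    linarith
  have k6 : (9 / 10 : ℝ) * ∑ c ∈ Icc 1 C, Vc a b (c : ℕ) w ≤ 7 * (C * V1 w) := by
    refine le_of_mul_le_mul_left (le_trans (le_of_eq ?_) k5) hx0
    ring
  have k7 : 0 ≤ (C : ℝ) * V1 w := by positivity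
  linarith

end Pool.Agent.N792
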