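import Mathlib
import Pool.Agent.N792.Ty1b
import Pool.Agent.N792.Asm

/-!
The type I estimate from its parts (helper792).
-/

set_option autoImplicit false

namespace Pool.Agent.N792

open Finset Filter Topology

/-- the statement of `ls_one` -/
def LS1 (a b : ℤ) (R : ℕ) : Prop := ∃ C2 η0 : ℝ, 0 < C2 ∧ 0 < η0 ∧ ∀ η : ℝ, 0 < η → η ≤ η0 → ∃ x0 : ℕ, ∀ x : ℕ, x0 ≤ x →
    ∀ x1 J U : ℕ, x1 < x → x ≤ R * x1 →
    (x : ℝ) ^ (η / 2) ≤ ((2 ^ 2 ^ J : ℕ) : ℝ) → ((2 ^ 2 ^ J : ℕ) : ℝ) ≤ (x : ℝ) ^ η → (U : ℝ) ≤ (x : ℝ) ^ (3 / 4 : ℝ) →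
    ∀ g : ℕ → ℝ, (∀ j ≤ U, |g j| ≤ 4 * Real.log x) →
    |Ls a b x1 x (fun N => rg (2 ^ 2 ^ J) N * ∑ j ∈ N.divisors.filter (fun j => j ≤ U), g j) -
      ((x : ℝ) - x1) * V1 (2 ^ 2 ^ J) * ∑ j ∈ Icc 1 U, rg (2 ^ 2 ^ J) j * g j / j| ≤
      C2 * ((2 : ℝ) ^ (-(1 / (C2 * η))) / η ^ 2) * x

/-- the statement of `lc_one` -/
def LC1 (a b : ℤ) (R : ℕ) : Prop := ∃ C3 η0 : ℝ, 0 < C3 ∧ 0 < η0 ∧ ∀ η : ℝ, 0 < η → η ≤ η0 → ∃ x0 : ℕ, ∀ x : ℕ, x0 ≤ x →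
    ∀ x1 C J U : ℕ, x1 < x → x ≤ R * x1 → (x : ℝ) ^ (9 / 10 : ℝ) ≤ C → C ≤ x →
    (x : ℝ) ^ (η / 2) ≤ ((2 ^ 2 ^ J : ℕ) : ℝ) → ((2 ^ 2 ^ J : ℕ) : ℝ) ≤ (x : ℝ) ^ η → (U : ℝ) ≤ (x : ℝ) ^ (3 / 4 : ℝ) →
    ∀ g : ℕ → ℝ, (∀ j ≤ U, |g j| ≤ 4 * Real.log x) →
    ∑ c ∈ Icc 1 C, |Lc a b x1 x c (fun N => rg (2 ^ 2 ^ J) N * ∑ j ∈ N.divisors.filter (fun j => j ≤ U), g j) -
      ((x : ℝ) - x1) * Vc a b (c : ℕ) (2 ^ 2 ^ J) * ∑ j ∈ Icc 1 U, rg (2 ^ 2 ^ J) j * g j * (rho a b (c : ℕ) j : ℝ) / j| ≤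
      C3 * ((2 : ℝ) ^ (-(1 / (C3 * η))) / η ^ 2) * (C * x)

/-- the statement of `rho_one` -/
def RO1 (a b : ℤ) : Prop := ∀ η : ℝ, 0 < η → ∃ x0 : ℕ, ∀ x : ℕ, x0 ≤ x → ∀ C z U : ℕ,
    (x : ℝ) ^ (9 / 10 : ℝ) ≤ C → C ≤ x → (x : ℝ) ^ η ≤ z → z ≤ x → (U : ℝ) ≤ (x : ℝ) ^ (3 / 4 : ℝ) →
    ∀ g : ℕ → ℝ, (∀ j ≤ U, |g j| ≤ 4 * Real.log x) →
    ∑ c ∈ Icc 1 C, |∑ j ∈ Icc 1 U, rg z j * g j * ((rho a b (c : ℕ) j : ℝ) - 1) / j| ≤ C / Real.log x ^ 3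

lemma one_c_num {A B S Vz V1z Sz S1 X G T lam : ℝ} (hX : 0 ≤ X) (hS : 0 ≤ S) (hV : 0 ≤ V1z) (hVz : 0 ≤ Vz) (hVz1 : Vz ≤ 1)
    (hT : |B - X * V1z * S1| ≤ T) (hG : |S1| ≤ G) (hd : |Vz - S * V1z| ≤ S * V1z * lam) (hlam : 0 ≤ lam) :
    |A - S * B| ≤ |A - X * Vz * Sz| + X * |Sz - S1| + S * (X * V1z * lam * G + T) := by
  have hG0 : 0 ≤ G := (abs_nonneg _).trans hG
  have h1 : A - S * B = (A - X * Vz * Sz) + X * Vz * (Sz - S1) + X * (Vz - S * V1z) * S1 - S * (B - X * V1z * S1) := by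
    ring
  rw [h1]
  have e1 : |X * Vz * (Sz - S1)| ≤ X * |Sz - S1| := by
    rw [abs_mul, abs_of_nonneg (mul_nonneg hX hVz)]
    calc X * Vz * |Sz - S1| ≤ X * 1 * |Sz - S1| := by gcongr
      _ = _ := by ring
  have e2 : |X * (Vz - S * V1z) * S1| ≤ X * (S * V1z * lam) * G := by
    rw [abs_mul, abs_mul, abs_of_nonneg hX]
    gcongr
  have e3 : |S * (B - X * V1z * S1)| ≤ S * T := by
    rw [abs_mul, abs_of_nonneg hS]
    gcongr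
  have e4 := abs_sub ((A - X * Vz * Sz) + X * Vz * (Sz - S1) + X * (Vz - S * V1z) * S1) (S * (B - X * V1z * S1))
  have e5 := abs_add_three (A - X * Vz * Sz) (X * Vz * (Sz - S1)) (X * (Vz - S * V1z) * S1)
  calc _ ≤ _ := e4
    _ ≤ (|A - X * Vz * Sz| + X * |Sz - S1| + X * (S * V1z * lam) * G) + S * T := by linarith
    _ = _ := by ring

theorem type_one_of (a : ℤ) (ha : 0 < a) (b : ℤ) (hLS : ∀ R, LS1 a b R) (hLC : ∀ R, LC1 a b R) (hRO : RO1 a b) :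
    TI a b := by
  classical
  intro R
  obtain ⟨C2, η2, hC2, hη2, H2⟩ := hLS R
  obtain ⟨C3, η3, hC3, hη3, H3⟩ := hLC R
  obtain ⟨K, hK, HK⟩ := rough_recip
  refine ⟨C3 + 10 * C2 + 1, min (min η2 η3) 1, by positivity, lt_min (lt_min hη2 hη3) one_pos, fun η hη hη0 E => ?_⟩
  have hηa : η ≤ η2 := hη0.trans ((min_le_left _ _).trans (min_le_left _ _))
  have hηb : η ≤ η3 := hη0.trans ((min_le_left _ _).trans (min_le_right _ _))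
  have hη1 : η ≤ 1 := hη0.trans (min_le_right _ _)
  obtain ⟨x2, H2⟩ := H2 η hη hηa
  obtain ⟨x3, H3⟩ := H3 η hη hηb
  obtain ⟨x4, H4⟩ := hRO (η / 2) (by positivity)
  obtain ⟨x5, H5⟩ := vc_mean a ha b E
  obtain ⟨x6, H6⟩ := HK (η / 2) (by positivity) (by linarith)
  obtain ⟨C4, hC4⟩ : ∃ C4 : ℝ, C4 = C3 + 10 * C2 + 1 := ⟨_, rfl⟩
  have hC40 : 0 < C4 := by rw [hC4]; positivity
  obtain ⟨φ, hφ⟩ : ∃ φ : ℝ, φ = (2 : ℝ) ^ (-(1 / (C4 * η))) / η ^ 2 := ⟨_, rfl⟩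
  have hφ0 : 0 < φ := by rw [hφ]; positivity
  have hmono : ∀ D : ℝ, 0 < D → D ≤ C4 → (2 : ℝ) ^ (-(1 / (D * η))) / η ^ 2 ≤ φ := by
    intro D hD hDC
    rw [hφ]
    apply div_le_div_of_nonneg_right _ (by positivity)
    apply Real.rpow_le_rpow_of_exponent_le (by norm_num)
    rw [neg_le_neg_iff]
    apply one_div_le_one_div_of_le (by positivity)
    gcongr
  have hφ2 := hmono C2 hC2 (by rw [hC4]; linarith)
  have hφ3 := hmono C3 hC3 (by rw [hC4]; linarith)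
  -- the size of x
  obtain ⟨x7, H7⟩ := eventually_atTop.1 ((Real.tendsto_log_atTop.comp tendsto_natCast_atTop_atTop).eventually_ge_atTop
    (max 1 ((1 + 80 * K / η) / φ)))
  refine ⟨x2 + x3 + x4 + x5 + x6 + x7 + b.natAbs + 3, fun x hx x1 C J Jw U hx1 hxR hxC hCx hz1 hz2 hw hU Gd hGd hgood g hg => ?_⟩
  rw [← hC4, ← hφ]
  have hL := H7 x (by omega)
  simp only [Function.comp_apply] at hL
  obtain ⟨L, hLd⟩ : ∃ L : ℝ, L = Real.log x := ⟨_, rfl⟩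
  rw [← hLd] at hL hg hgood
  have hL1 : 1 ≤ L := (le_max_left _ _).trans hL
  have hL2 : (1 + 80 * K / η) / φ ≤ L := (le_max_right _ _).trans hL
  have hL0 : 0 < L := by linarith
  obtain ⟨z, hz⟩ : ∃ z : ℕ, z = 2 ^ 2 ^ J := ⟨_, rfl⟩
  obtain ⟨w, hwd⟩ : ∃ w : ℕ, w = 2 ^ 2 ^ Jw := ⟨_, rfl⟩
  have hxr : (1 : ℝ) ≤ x := by exact_mod_cast (by omega : 1 ≤ x)
  have hx0 : (0 : ℝ) < x := by linarith
  have hzx : z ≤ x := by
    have : (z : ℝ) ≤ x := by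
      rw [hz]
      refine hz2.trans ?_
      calc (x : ℝ) ^ η ≤ (x : ℝ) ^ (1 : ℝ) := Real.rpow_le_rpow_of_exponent_le hxr hη1
        _ = x := Real.rpow_one _
    exact_mod_cast this
  have hUx : U ≤ x := by
    have : (U : ℝ) ≤ x := by
      refine hU.trans ?_
      calc (x : ℝ) ^ (3 / 4 : ℝ) ≤ (x : ℝ) ^ (1 : ℝ) := Real.rpow_le_rpow_of_exponent_le hxr (by norm_num)
        _ = x := Real.rpow_one _
    exact_mod_cast this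
  have hg' : ∀ j ≤ U, |g j| ≤ 4 * Real.log x := by rw [← hLd]; exact hg
  have k2 := H2 x (by omega) x1 J U hx1 hxR hz1 hz2 hU g hg'
  have k3 := H3 x (by omega) x1 C J U hx1 hxR hxC hCx hz1 hz2 hU g hg'
  rw [← hz] at k2 k3 hz1 hz2 hgood ⊢
  have k4 := H4 x (by omega) C z U hxC hCx hz1 hzx hU g hg'
  have k5 := H5 x (by omega) C Jw hxC hCx hw
  have k6 := H6 x (by omega) z U hz1 hUx
  rw [← hwd] at k5 hw hgood ⊢
  rw [← hLd] at k4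
  have hV1w : 0 < V1 w := V1_pos w
  have hV1z : 0 < V1 z := V1_pos z
  have hV1z1 : V1 z ≤ 1 := Shp.V1_le_one z
  have hC0 : (0 : ℝ) < C := lt_of_lt_of_le (Real.rpow_pos_of_pos hx0 _) hxC
  obtain ⟨S1, hS1⟩ : ∃ S1 : ℝ, S1 = ∑ j ∈ Icc 1 U, rg z j * g j / j := ⟨_, rfl⟩
  rw [← hS1] at k2
  have hG : |S1| ≤ 4 * L * (K / (η / 2)) := by
    rw [hS1]
    refine (abs_sum_le_sum_abs _ _).trans ?_
    refine le_trans (b := ∑ j ∈ Icc 1 U, 4 * L * (rg z j / j)) (sum_le_sum fun j hj => ?_) ?_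
    · have h1 : 0 ≤ rg z j := (rg_range z j).1
      rw [abs_div, abs_mul, abs_of_nonneg h1, Nat.abs_cast]
      have h2 := hg j (mem_Icc.1 hj).2
      calc rg z j * |g j| / j ≤ rg z j * (4 * L) / j := by gcongr
        _ = _ := by ring
    · rw [← mul_sum]
      gcongr
  obtain ⟨T, hT⟩ : ∃ T : ℝ, T = C2 * ((2 : ℝ) ^ (-(1 / (C2 * η))) / η ^ 2) * x := ⟨_, rfl⟩
  have hTle : T ≤ C2 * φ * x := by rw [hT]; gcongr
  rw [← hT] at k2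
  have hT0 : 0 ≤ T := (abs_nonneg _).trans k2
  have hX0 : (0 : ℝ) ≤ (x : ℝ) - x1 := by
    have : (x1 : ℝ) ≤ x := by exact_mod_cast hx1.le
    linarith
  have hXx : (x : ℝ) - x1 ≤ x := by
    have : (0 : ℝ) ≤ x1 := Nat.cast_nonneg _
    linarith
  -- each c
  have main : ∀ c ∈ Gd, |Lc a b x1 x c (fun N => rg z N * ∑ j ∈ N.divisors.filter (fun j => j ≤ U), g j) -
      Vc a b c w / V1 w * Ls a b x1 x (fun N => rg z N * ∑ j ∈ N.divisors.filter (fun j => j ≤ U), g j)| ≤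
      |Lc a b x1 x c (fun N => rg z N * ∑ j ∈ N.divisors.filter (fun j => j ≤ U), g j) -
        ((x : ℝ) - x1) * Vc a b (c : ℕ) z * ∑ j ∈ Icc 1 U, rg z j * g j * (rho a b (c : ℕ) j : ℝ) / j| +
      ((x : ℝ) - x1) * |∑ j ∈ Icc 1 U, rg z j * g j * ((rho a b (c : ℕ) j : ℝ) - 1) / j| +
      Vc a b c w / V1 w * (((x : ℝ) - x1) * V1 z * (1 / L ^ 3) * (4 * L * (K / (η / 2))) + T) := by
    intro c hc
    have h1 : ∑ j ∈ Icc 1 U, rg z j * g j * ((rho a b (c : ℕ) j : ℝ) - 1) / j =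
        (∑ j ∈ Icc 1 U, rg z j * g j * (rho a b (c : ℕ) j : ℝ) / j) - S1 := by
      rw [hS1, ← sum_sub_distrib]
      refine sum_congr rfl fun j _ => ?_
      ring
    rw [h1]
    refine one_c_num hX0 (div_nonneg (Mtm.Vc_bd a b c w).1 hV1w.le) hV1z.le (Mtm.Vc_bd a b c z).1 (Mtm.Vc_bd a b c z).2 k2 hG ?_
      (by positivity)
    have h2 := hgood c hc
    have h3 : Vc a b c z - Vc a b c w / V1 w * V1 z = (Vc a b c z * V1 w - Vc a b c w * V1 z) / V1 w := by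
      field_simp
    rw [h3, abs_div, abs_of_pos hV1w, div_le_iff₀ hV1w]
    refine h2.trans (le_of_eq ?_)
    field_simp
  refine (sum_le_sum main).trans ?_
  rw [sum_add_distrib, sum_add_distrib, ← mul_sum, ← sum_mul]
  have m1 : ∑ c ∈ Gd, |Lc a b x1 x c (fun N => rg z N * ∑ j ∈ N.divisors.filter (fun j => j ≤ U), g j) -
        ((x : ℝ) - x1) * Vc a b (c : ℕ) z * ∑ j ∈ Icc 1 U, rg z j * g j * (rho a b (c : ℕ) j : ℝ) / j| ≤ C3 * φ * (C * x) := by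
    refine (sum_le_sum_of_subset_of_nonneg hGd fun c _ _ => abs_nonneg _).trans (k3.trans ?_)
    gcongr
  have m2 : ((x : ℝ) - x1) * ∑ c ∈ Gd, |∑ j ∈ Icc 1 U, rg z j * g j * ((rho a b (c : ℕ) j : ℝ) - 1) / j| ≤ x * (C / L ^ 3) := by
    have h1 : ∑ c ∈ Gd, |∑ j ∈ Icc 1 U, rg z j * g j * ((rho a b (c : ℕ) j : ℝ) - 1) / j| ≤ C / L ^ 3 :=
      (sum_le_sum_of_subset_of_nonneg hGd fun c _ _ => abs_nonneg _).trans k4
    calc _ ≤ ((x : ℝ) - x1) * (C / L ^ 3) := by gcongr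
      _ ≤ _ := by gcongr
  have m3 : (∑ c ∈ Gd, Vc a b c w / V1 w) * (((x : ℝ) - x1) * V1 z * (1 / L ^ 3) * (4 * L * (K / (η / 2))) + T) ≤
      10 * C * (x * (1 / L ^ 3) * (4 * L * (K / (η / 2))) + C2 * φ * x) := by
    have h1 : ∑ c ∈ Gd, Vc a b c w / V1 w ≤ 10 * C :=
      (sum_le_sum_of_subset_of_nonneg hGd fun c _ _ => div_nonneg (Mtm.Vc_bd a b c w).1 hV1w.le).trans k5
    have h2 : 0 ≤ ((x : ℝ) - x1) * V1 z * (1 / L ^ 3) * (4 * L * (K / (η / 2))) + T := by positivity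
    have h3 : ((x : ℝ) - x1) * V1 z * (1 / L ^ 3) * (4 * L * (K / (η / 2))) + T ≤
        x * (1 / L ^ 3) * (4 * L * (K / (η / 2))) + C2 * φ * x := by
      refine add_le_add ?_ hTle
      have : ((x : ℝ) - x1) * V1 z ≤ x := by
        calc ((x : ℝ) - x1) * V1 z ≤ x * 1 := mul_le_mul hXx hV1z1 hV1z.le hx0.le
          _ = x := mul_one _
      gcongr
    calc _ ≤ 10 * C * (((x : ℝ) - x1) * V1 z * (1 / L ^ 3) * (4 * L * (K / (η / 2))) + T) := mul_le_mul_of_nonneg_right h1 h2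
      _ ≤ _ := by gcongr
  have m4 : (x : ℝ) * (C / L ^ 3) + 10 * C * (x * (1 / L ^ 3) * (4 * L * (K / (η / 2)))) ≤ φ * (C * x) := by
    have h1 : (1 + 80 * K / η) ≤ φ * L := by
      rw [div_le_iff₀ hφ0] at hL2
      linarith
    have h2 : (x : ℝ) * (C / L ^ 3) + 10 * C * (x * (1 / L ^ 3) * (4 * L * (K / (η / 2)))) =
        (1 / L + 80 * K / η) * (C * x / L ^ 2) := by
      field_simp
      ring
    rw [h2]
    have h3 : 1 / L ≤ 1 := by rw [div_le_one hL0]; exact hL1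
    have h4 : (C : ℝ) * x / L ^ 2 ≤ C * x / L := by
      apply div_le_div_of_nonneg_left (by positivity) hL0
      nlinarith
    have h5 : 0 < K / η := by positivity
    calc (1 / L + 80 * K / η) * (C * x / L ^ 2) ≤ (1 + 80 * K / η) * (C * x / L) := by gcongr
      _ ≤ (φ * L) * (C * x / L) := by gcongr
      _ = _ := by field_simp
  have m5 : C4 * φ * (C * x) = C3 * φ * (C * x) + 10 * C * (C2 * φ * x) + φ * (C * x) := by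
    rw [hC4]; ring
  rw [m5]
  have m6 : 10 * (C : ℝ) * (x * (1 / L ^ 3) * (4 * L * (K / (η / 2))) + C2 * φ * x) =
      10 * C * (x * (1 / L ^ 3) * (4 * L * (K / (η / 2)))) + 10 * C * (C2 * φ * x) := by ring
  rw [m6] at m3
  linarith

end Pool.Agent.N792
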