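import Mathlib
import Pool.Agent.N792.RStm
import Pool.Agent.N792.Ty1L
import Pool.Agent.N792.Ty1C
import Pool.Agent.N792.Ty1d

/-!
General bounds for the type I functions (helper72, subtasks X2 and X6 of helper792): the weighted sum `Ls` and the values at
the polynomial, with `U ≤ x^(9/10)` and `C ≥ x^(3/5)`.
-/

set_option autoImplicit false

namespace Pool.Agent.N792
open Finset Filter Topology

namespace RX

/-- the weighted sum of a type I function, general coefficients -/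
theorem ls_gen (a : ℤ) (ha : 0 < a) (b : ℤ) (R : ℕ) : ∃ C2 η0 : ℝ, 1 ≤ C2 ∧ 0 < η0 ∧ η0 ≤ 1 / 40 ∧ ∀ η : ℝ, 0 < η → η ≤ η0 →
    ∃ x0 : ℕ, ∀ x : ℕ, x0 ≤ x → ∀ x1 J U : ℕ, x1 < x → x ≤ R * x1 →
    (x : ℝ) ^ (η / 2) ≤ ((2 ^ 2 ^ J : ℕ) : ℝ) → ((2 ^ 2 ^ J : ℕ) : ℝ) ≤ (x : ℝ) ^ η → (U : ℝ) ≤ (x : ℝ) ^ (9 / 10 : ℝ) →
    ∀ g : ℕ → ℝ,
    |Ls a b x1 x (T1 (2 ^ 2 ^ J) U g) -
      ((x : ℝ) - x1) * V1 (2 ^ 2 ^ J) * ∑ j ∈ Icc 1 U, rg (2 ^ 2 ^ J) j * g j / j| ≤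
      C2 * (2 : ℝ) ^ (-(1 / (C2 * η))) / (η * Real.log x) * x * (∑ j ∈ Icc 1 U, rg (2 ^ 2 ^ J) j * |g j| / j) +
        C2 * ∑ j ∈ Icc 1 U, |g j| := by
  obtain ⟨C1, hC1, hfl⟩ := fl_lin
  obtain ⟨c0, A, hc0, hA, X0, hX0⟩ := Lam.range_bd a ha b R
  have hC1R : (1 : ℝ) ≤ C1 := by exact_mod_cast hC1
  have hsc : 0 < √c0 := Real.sqrt_pos.2 hc0
  obtain ⟨S, hS, hS0⟩ : ∃ S : ℝ, S = 1 / √c0 ∧ 0 < S := ⟨_, rfl, by positivity⟩
  obtain ⟨K3, hK3, hK30⟩ : ∃ K3 : ℝ, K3 = 2 * S * C1 + (2 * |(b : ℝ)| + 1) ∧ 0 < K3 := ⟨_, rfl, by positivity⟩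
  obtain ⟨C2, hC2⟩ : ∃ C2 : ℝ, C2 = 40 * C1 + 8 * A * S + K3 := ⟨_, rfl⟩
  have hAS : 0 < A * S := by positivity
  have hC2a : 40 * (C1 : ℝ) ≤ C2 := by rw [hC2]; nlinarith
  have hC2b : 8 * A * S ≤ C2 := by rw [hC2]; nlinarith
  have hC2c : K3 ≤ C2 := by rw [hC2]; nlinarith
  have hC21 : 1 ≤ C2 := by linarith
  have hC20 : 0 < C2 := by linarith
  refine ⟨C2, 1 / (40 * C1 * (C1 + 1)), hC21, by positivity, ?_, fun η hη hη0 => ?_⟩
  · apply one_div_le_one_div_of_le (by norm_num)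
    nlinarith
  obtain ⟨b0, hb1, hb2, hb3⟩ := Ty1L.level hC1 hη hη0
  have hη1 : η ≤ 1 := by
    refine hη0.trans ?_
    rw [div_le_one (by positivity)]
    nlinarith
  have hev2 := Lam.pow_ev (1 / c0) (9 / 10) 2 (by norm_num)
  obtain ⟨x2, hx2⟩ := eventually_atTop.1 hev2
  refine ⟨max x2 (max X0 3), fun x hx x1 J U hx1 hxR hz1 hz2 hU g => ?_⟩
  have hx3 : 3 ≤ x := by omega
  have hxR3 : (3 : ℝ) ≤ x := by exact_mod_cast hx3
  have hxp : (0 : ℝ) < x := by linarith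
  have e2 := hx2 x (by omega)
  obtain ⟨hbx, hF1, hF2⟩ := hX0 x (by omega) x1 hx1 hxR
  have hL : 0 < Real.log x := Real.log_pos (by linarith)
  have hFF : Fn a b x1 ≤ Fn a b x := Mtm.Fn_mono ha hbx hx1.le
  have hbx' : |b| ≤ (x1 : ℤ) := by
    rw [Int.abs_eq_natAbs]
    exact_mod_cast hbx
  have hx11 : 1 ≤ x1 := by
    rcases Nat.eq_zero_or_pos x1 with h | h
    · rw [h, mul_zero] at hxR; omega
    · exact h
  have hx1R : (x1 : ℝ) < x := by exact_mod_cast hx1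
  -- the numbers j are at most F1
  have hUF : (U : ℝ) ≤ (Fn a b x1 : ℕ) := by
    have x2' : (x : ℝ) ^ (2 : ℝ) = (x : ℝ) ^ 2 := by norm_cast
    rw [x2', div_mul_eq_mul_div, one_mul, div_le_iff₀ hc0] at e2
    linarith
  have hUF' : U ≤ Fn a b x1 := by exact_mod_cast hUF
  obtain ⟨z, hz⟩ : ∃ z : ℕ, z = 2 ^ 2 ^ J := ⟨_, rfl⟩
  have hzR : ((2 : ℝ) ^ 2 ^ J) = (z : ℝ) := by rw [hz]; push_cast; rfl
  have hzJ : J + 2 ≤ z := hz ▸ Ty1L.J_le J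
  have hzJR : (J : ℝ) + 2 ≤ z := by exact_mod_cast hzJ
  have hz2' : (2 : ℝ) ≤ z := by exact_mod_cast (by omega : 2 ≤ z)
  have hV0 : 0 < V1 z := V1_pos z
  have hlz : η / 2 * Real.log x ≤ Real.log z := by
    rw [← Real.log_rpow hxp, hz]
    exact Real.log_le_log (by positivity) hz1
  have hV1 : V1 z ≤ 2 / (η * Real.log x) := by
    refine (V1_le z (by omega)).trans ?_
    rw [div_le_div_iff₀ (by nlinarith) (by positivity)]
    linarith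
  have hVone : V1 z ≤ 1 := Shp.V1_le_one z
  -- the error term
  have hE : (C1 : ℝ) * (J + 2) * (2 ^ 2 ^ J) ^ (C1 * b0) ≤ C1 * x := by
    rw [mul_assoc]
    apply mul_le_mul_of_nonneg_left _ (by linarith)
    rw [hzR]
    calc ((J : ℝ) + 2) * (z : ℝ) ^ (C1 * b0) ≤ z * (z : ℝ) ^ (C1 * b0) :=
          mul_le_mul_of_nonneg_right hzJR (by positivity)
      _ = (z : ℝ) ^ (C1 * b0 + 1) := by rw [pow_succ]; ring
      _ ≤ ((x : ℝ) ^ η) ^ (C1 * b0 + 1) := by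
          apply pow_le_pow_left₀ (by linarith)
          rw [hz]
          exact hz2
      _ = (x : ℝ) ^ (η * (C1 * b0 + 1)) := by
          rw [← Real.rpow_natCast, ← Real.rpow_mul hxp.le]
          push_cast
          rfl
      _ ≤ (x : ℝ) ^ (1 : ℝ) := Real.rpow_le_rpow_of_exponent_le (by linarith) (by linarith)
      _ = x := Real.rpow_one _
  -- each j
  have hj : ∀ j ∈ Icc 1 U, |Ty1L.T a (Fn a b x1) (Fn a b x) z j - V1 z * (((x : ℝ) - x1) / j)| ≤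
      2 * (1 / 2) ^ b0 * (A * S * x) * V1 z * (1 / j) + K3 := by
    intro j hj
    rw [mem_Icc] at hj
    have hjR : (1 : ℝ) ≤ j := by exact_mod_cast hj.1
    have t1 := Ty1L.T_sub hfl ha hb1 J (Fn a b x1) (Fn a b x) j hj.1 hFF (1 / √c0 / x)
      (fun N hN => Ty1L.hw_le ha hc0 (by omega) (hF1.trans (by exact_mod_cast hN.le)))
    rw [← hz, ← hS] at t1
    have t2 := Ty1L.H_sub ha b hj.1 (hj.2.trans hUF') hFF hbx' hx11 hx1.le
    have t3 : |V1 z * Ty1L.H a (Fn a b x1) (Fn a b x) j - V1 z * (((x : ℝ) - x1) / j)| ≤ 2 * |(b : ℝ)| + 1 := by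
      rw [← mul_sub, abs_mul, abs_of_pos hV0]
      calc V1 z * |Ty1L.H a (Fn a b x1) (Fn a b x) j - ((x : ℝ) - x1) / j| ≤ 1 * (2 * |(b : ℝ)| + 1) :=
            mul_le_mul hVone t2 (abs_nonneg _) zero_le_one
        _ = 2 * |(b : ℝ)| + 1 := one_mul _
    have u1 : ((Fn a b x : ℕ) : ℝ) ≤ A * (x : ℝ) ^ 2 := by linarith
    have t4 : 2 * ((1 / 2) ^ b0 * (((Fn a b x : ℕ) : ℝ) / j * V1 z) + C1 * (J + 2) * (2 ^ 2 ^ J) ^ (C1 * b0)) * (S / x) ≤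
        2 * (1 / 2) ^ b0 * (A * S * x) * V1 z * (1 / j) + 2 * S * C1 := by
      calc 2 * ((1 / 2) ^ b0 * (((Fn a b x : ℕ) : ℝ) / j * V1 z) + C1 * (J + 2) * (2 ^ 2 ^ J) ^ (C1 * b0)) * (S / x)
          ≤ 2 * ((1 / 2) ^ b0 * ((A * (x : ℝ) ^ 2) / j * V1 z) + C1 * x) * (S / x) := by gcongr
        _ = 2 * (1 / 2) ^ b0 * (A * S * x) * V1 z * (1 / j) + 2 * S * C1 := by field_simp
    have t5 : Ty1L.T a (Fn a b x1) (Fn a b x) z j - V1 z * (((x : ℝ) - x1) / j) =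
        (Ty1L.T a (Fn a b x1) (Fn a b x) z j - V1 z * Ty1L.H a (Fn a b x1) (Fn a b x) j) +
        (V1 z * Ty1L.H a (Fn a b x1) (Fn a b x) j - V1 z * (((x : ℝ) - x1) / j)) := by ring
    rw [t5]
    refine (abs_add_le _ _).trans ?_
    rw [hK3]
    linarith
  have hdec : Ls a b x1 x (T1 (2 ^ 2 ^ J) U g) =
      ∑ j ∈ Icc 1 U, rg z j * g j * Ty1L.T a (Fn a b x1) (Fn a b x) z j := by
    rw [hz]; exact Ty1L.ls_dec a b x1 x (2 ^ 2 ^ J) U g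
  rw [hdec, ← hz]
  have s1 : ∑ j ∈ Icc 1 U, rg z j * g j * Ty1L.T a (Fn a b x1) (Fn a b x) z j -
      ((x : ℝ) - x1) * V1 z * ∑ j ∈ Icc 1 U, rg z j * g j / j =
      ∑ j ∈ Icc 1 U, rg z j * g j * (Ty1L.T a (Fn a b x1) (Fn a b x) z j - V1 z * (((x : ℝ) - x1) / j)) := by
    rw [mul_sum, ← sum_sub_distrib]
    apply sum_congr rfl
    intro j _
    ring
  rw [s1]
  refine (abs_sum_le_sum_abs _ _).trans ?_
  have hcoef : 2 * (1 / 2) ^ b0 * (A * S * x) * V1 z ≤ C2 * (2 : ℝ) ^ (-(1 / (C2 * η))) / (η * Real.log x) * x := by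
    have hmon : (2 : ℝ) ^ (-(1 / (40 * C1 * η))) ≤ (2 : ℝ) ^ (-(1 / (C2 * η))) := by
      apply Real.rpow_le_rpow_of_exponent_le (by norm_num)
      apply neg_le_neg
      apply one_div_le_one_div_of_le (by positivity)
      exact mul_le_mul_of_nonneg_right hC2a hη.le
    have h1 : (1 / 2 : ℝ) ^ b0 ≤ 2 * (2 : ℝ) ^ (-(1 / (C2 * η))) := hb3.trans (by linarith)
    calc 2 * (1 / 2) ^ b0 * (A * S * x) * V1 z
        ≤ 2 * (2 * (2 : ℝ) ^ (-(1 / (C2 * η)))) * (A * S * x) * (2 / (η * Real.log x)) := by gcongr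
      _ = (8 * A * S) * (2 : ℝ) ^ (-(1 / (C2 * η))) / (η * Real.log x) * x := by field_simp; ring
      _ ≤ C2 * (2 : ℝ) ^ (-(1 / (C2 * η))) / (η * Real.log x) * x := by gcongr
  have s2 : ∀ j ∈ Icc 1 U, |rg z j * g j * (Ty1L.T a (Fn a b x1) (Fn a b x) z j - V1 z * (((x : ℝ) - x1) / j))| ≤
      (C2 * (2 : ℝ) ^ (-(1 / (C2 * η))) / (η * Real.log x) * x) * (rg z j * |g j| / j) + C2 * |g j| := by
    intro j hjm
    have h1 := hj j hjm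
    obtain ⟨r0, r1⟩ := rg_range z j
    rw [abs_mul, abs_mul, abs_of_nonneg r0]
    calc rg z j * |g j| * |Ty1L.T a (Fn a b x1) (Fn a b x) z j - V1 z * (((x : ℝ) - x1) / j)|
        ≤ rg z j * |g j| * (2 * (1 / 2) ^ b0 * (A * S * x) * V1 z * (1 / j) + K3) := by gcongr
      _ = (2 * (1 / 2) ^ b0 * (A * S * x) * V1 z) * (rg z j * |g j| / j) + K3 * (rg z j * |g j|) := by ring
      _ ≤ (C2 * (2 : ℝ) ^ (-(1 / (C2 * η))) / (η * Real.log x) * x) * (rg z j * |g j| / j) + C2 * (1 * |g j|) := by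
          gcongr
      _ = _ := by rw [one_mul]
  refine (sum_le_sum s2).trans ?_
  rw [sum_add_distrib, ← mul_sum, ← mul_sum]

open Ty1C in
/-- the values of a type I function at the polynomial on average over `c`, general coefficients -/
theorem lc_gen (a : ℤ) (ha : 0 < a) (b : ℤ) (hR2 : R2 a b) (R : ℕ) : ∃ C3 η0 : ℝ, 1 ≤ C3 ∧ 0 < η0 ∧ η0 ≤ 1 / 40 ∧
    ∀ η : ℝ, 0 < η → η ≤ η0 → ∃ x0 : ℕ, ∀ x : ℕ, x0 ≤ x →
    ∀ x1 C J U : ℕ, x1 < x → x ≤ R * x1 → (x : ℝ) ^ (3 / 5 : ℝ) ≤ C → C ≤ x →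
    (x : ℝ) ^ (η / 2) ≤ ((2 ^ 2 ^ J : ℕ) : ℝ) → ((2 ^ 2 ^ J : ℕ) : ℝ) ≤ (x : ℝ) ^ η → (U : ℝ) ≤ (x : ℝ) ^ (9 / 10 : ℝ) →
    ∀ Gd ⊆ Icc 1 C, ∀ M : ℝ, 0 ≤ M → (∀ c ∈ Gd, Vc a b c (2 ^ 2 ^ J) ≤ M) →
    ∀ g : ℕ → ℝ, (∀ j ≤ U, g j ≠ 0 → Squarefree j) →
    (∑ c ∈ Gd, |Lc a b x1 x c (T1 (2 ^ 2 ^ J) U g) -
      ((x : ℝ) - x1) * Vc a b (c : ℕ) (2 ^ 2 ^ J) *
        ∑ j ∈ Icc 1 U, rg (2 ^ 2 ^ J) j * g j * (rho a b (c : ℕ) j : ℝ) / j| ≤
      C3 * (2 : ℝ) ^ (-(1 / (C3 * η))) * M * (C * x) * (∑ j ∈ Icc 1 U, rg (2 ^ 2 ^ J) j * |g j| / j) +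
        C3 * (x : ℝ) ^ (1 / 20 : ℝ) * C * ∑ j ∈ Icc 1 U, |g j|) ∧
    (∑ c ∈ Gd, |((x : ℝ) - x1) * Vc a b (c : ℕ) (2 ^ 2 ^ J) *
        ∑ j ∈ Icc 1 U, rg (2 ^ 2 ^ J) j * g j * (rho a b (c : ℕ) j : ℝ) / j| ≤
      2 * M * (C * x) * (∑ j ∈ Icc 1 U, rg (2 ^ 2 ^ J) j * |g j| / j)) := by
  obtain ⟨C1, hC1, H⟩ := fl_poly a ha b
  obtain ⟨c0, A, hc0, hA, X0, HX0⟩ := Lam.range_bd a ha b R
  have hC1r : (1 : ℝ) ≤ C1 := by exact_mod_cast hC1
  obtain ⟨C3, hC3⟩ : ∃ C3 : ℝ, C3 = 40 * C1 + 4 := ⟨_, rfl⟩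
  have hC3a : 40 * (C1 : ℝ) ≤ C3 := by rw [hC3]; linarith
  have hC3b : (4 : ℝ) ≤ C3 := by rw [hC3]; linarith
  have hC3p : 0 < C3 := by linarith
  refine ⟨C3, 1 / (40 * C1 * (C1 + 1)), by linarith, by positivity, ?_, fun η hη hη1 => ?_⟩
  · apply one_div_le_one_div_of_le (by norm_num)
    nlinarith
  have hη2 : η * (40 * C1 * (C1 + 1)) ≤ 1 := by
    rwa [le_div_iff₀ (by positivity)] at hη1
  have hη3 : η ≤ 1 / 40 := by
    have h1 : (40 : ℝ) ≤ 40 * C1 * (C1 + 1) := by nlinarith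
    have h2 : η * 40 ≤ η * (40 * C1 * (C1 + 1)) := mul_le_mul_of_nonneg_left h1 hη.le
    linarith
  obtain ⟨b0, hb1, hb2, hb3⟩ := Ty1L.level hC1 hη hη1
  obtain ⟨t, ht⟩ : ∃ t : ℝ, t = (2 : ℝ) ^ (-(1 / (C3 * η))) := ⟨_, rfl⟩
  have ht0 : 0 < t := by rw [ht]; positivity
  have hb4 : (1 / 2 : ℝ) ^ b0 ≤ 2 * t := by
    refine hb3.trans ?_
    rw [ht]
    apply mul_le_mul_of_nonneg_left _ (by norm_num)
    apply Real.rpow_le_rpow_of_exponent_le (by norm_num)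
    apply neg_le_neg
    apply one_div_le_one_div_of_le (by positivity)
    exact mul_le_mul_of_nonneg_right hC3a hη.le
  obtain ⟨xa, hxa⟩ := hR2 (η / 2) (1 / 10) (by positivity) (by norm_num)
  refine ⟨max xa (max X0 3), fun x hx x1 C J U hx1 hxR hxC hCx hz1 hz2 hU Gd hGd M hM0 hM g hg => ?_⟩
  have hxa' := hxa x (le_trans (by simp) hx)
  have hX0' := HX0 x (le_trans (by simp) hx) x1 hx1 hxR
  have hx3 : (3 : ℝ) ≤ x := by exact_mod_cast (le_trans (by simp) hx : 3 ≤ x)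
  have hxp : (0 : ℝ) < x := by linarith
  have hx1r : (1 : ℝ) ≤ x := by linarith
  have hbx := hX0'.1
  obtain ⟨z, hz⟩ : ∃ z : ℕ, z = 2 ^ 2 ^ J := ⟨_, rfl⟩
  have hX0n : (0 : ℝ) ≤ (x : ℝ) - x1 := by
    have : (x1 : ℝ) ≤ x := by exact_mod_cast hx1.le
    linarith
  have hXx : (x : ℝ) - x1 ≤ x := by
    have : (0 : ℝ) ≤ x1 := Nat.cast_nonneg _
    linarith
  have hC0 : (0 : ℝ) ≤ C := Nat.cast_nonneg _
  have hUx : U ≤ x := by
    have : (U : ℝ) ≤ x := hU.trans (by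
      calc (x : ℝ) ^ (9 / 10 : ℝ) ≤ (x : ℝ) ^ (1 : ℝ) := Real.rpow_le_rpow_of_exponent_le hx1r (by norm_num)
        _ = x := Real.rpow_one _)
    exact_mod_cast this
  -- the error of the fundamental lemma
  obtain ⟨E0, hE0⟩ : ∃ E0 : ℝ, E0 = C1 * (J + 2) * (2 ^ 2 ^ J) ^ (C1 * b0) := ⟨_, rfl⟩
  have hE0n : 0 ≤ E0 := by rw [hE0]; positivity
  have hE1 : E0 ≤ C1 * (x : ℝ) ^ (1 / 20 : ℝ) := by
    have h1 : ((J : ℝ) + 2) ≤ ((2 : ℝ) ^ 2 ^ J) := by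
      have h2 : ((J + 2 : ℕ) : ℝ) ≤ ((2 ^ 2 ^ J : ℕ) : ℝ) := by exact_mod_cast Ty1L.J_le J
      push_cast at h2
      linarith
    have h3 : ((2 : ℝ) ^ 2 ^ J) ≤ (x : ℝ) ^ η := by push_cast at hz2; exact hz2
    calc E0 = C1 * ((J + 2) * (2 ^ 2 ^ J) ^ (C1 * b0)) := by rw [hE0]; ring
      _ ≤ C1 * ((2 ^ 2 ^ J) * (2 ^ 2 ^ J) ^ (C1 * b0)) := by gcongr
      _ = C1 * (2 ^ 2 ^ J) ^ (C1 * b0 + 1) := by rw [pow_succ]; ring
      _ ≤ C1 * ((x : ℝ) ^ η) ^ (C1 * b0 + 1) := by gcongr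
      _ = C1 * (x : ℝ) ^ (η * (C1 * b0 + 1)) := by
          rw [← Real.rpow_natCast, ← Real.rpow_mul hxp.le]
          push_cast
          rfl
      _ ≤ C1 * (x : ℝ) ^ (1 / 20 : ℝ) := by
          apply mul_le_mul_of_nonneg_left _ (by positivity)
          exact Real.rpow_le_rpow_of_exponent_le hx1r hb2
  -- the average of rho
  have hrho : ∀ j ∈ Icc 1 U, rg z j * |g j| * (∑ c ∈ Gd, (rho a b (c : ℕ) j : ℝ)) ≤ rg z j * |g j| * (2 * C) := by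
    intro j hj
    rw [mem_Icc] at hj
    by_cases hr : Rough z j
    · by_cases hgj : g j = 0
      · rw [hgj, abs_zero, mul_zero, zero_mul, zero_mul]
      · apply mul_le_mul_of_nonneg_left _ (mul_nonneg (rg_range z j).1 (abs_nonneg _))
        refine (sum_le_sum_of_subset_of_nonneg hGd fun c _ _ => Nat.cast_nonneg _).trans ?_
        exact hxa' C z j (by norm_num; exact hxC) hCx (by rw [hz]; exact hz1) (hj.2.trans hUx) hr (hg j hj.2 hgj)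
    · have : rg z j = 0 := by unfold rg; rw [if_neg hr]
      rw [this, zero_mul, zero_mul, zero_mul]
  rw [← hz] at hM ⊢
  rw [← ht]
  constructor
  · -- the sum over c
    have hc : ∀ c ∈ Gd, |Lc a b x1 x c (T1 z U g) -
        ((x : ℝ) - x1) * Vc a b (c : ℕ) z * ∑ j ∈ Icc 1 U, rg z j * g j * (rho a b (c : ℕ) j : ℝ) / j| ≤
        ∑ j ∈ Icc 1 U, (rg z j * |g j|) * (rho a b (c : ℕ) j : ℝ) * ((1 / 2) ^ b0 * (M * x / j) + E0) := by
      intro c hcG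
      have hc1 := (mem_Icc.1 (hGd hcG)).1
      have h0 : Lc a b x1 x c (T1 z U g) = ∑ j ∈ Icc 1 U, rg z j * g j * T a b x1 x c z j :=
        Lc_sum ha z U hbx hc1 g
      rw [h0, mul_sum, ← sum_sub_distrib]
      refine (abs_sum_le_sum_abs _ _).trans (sum_le_sum ?_)
      intro j hj
      rw [mem_Icc] at hj
      by_cases hr : Rough z j
      · have h1 := H b0 hb1 J j x1 x (c : ℕ) hj.1 (hz ▸ hr) hx1.le
        rw [← hz, ← T_card ha hbx hc1 hr] at h1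
        have hzr : ((2 : ℝ) ^ 2 ^ J) = (z : ℝ) := by rw [hz]; push_cast; rfl
        rw [← hE0] at h1
        have h2 : rg z j * g j * T a b x1 x c z j -
            ((x : ℝ) - x1) * Vc a b (c : ℕ) z * (rg z j * g j * (rho a b (c : ℕ) j : ℝ) / j) =
            rg z j * g j * (T a b x1 x c z j - rho a b (c : ℕ) j / j * ((x : ℝ) - x1) * Vc a b (c : ℕ) z) := by
          ring
        rw [h2, abs_mul, abs_mul, abs_of_nonneg (rg_range z j).1, mul_assoc (rg z j * |g j|)]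
        apply mul_le_mul_of_nonneg_left _ (mul_nonneg (rg_range z j).1 (abs_nonneg _))
        refine h1.trans ?_
        have hV := hM c hcG
        have hV0 := Lam.Vc_nonneg a b (c : ℕ) z
        have h3 : (rho a b (c : ℕ) j : ℝ) / j * ((x : ℝ) - x1) * Vc a b (c : ℕ) z ≤ rho a b (c : ℕ) j / j * x * M := by
          gcongr
        calc (1 / 2 : ℝ) ^ b0 * (rho a b (c : ℕ) j / j * ((x : ℝ) - x1) * Vc a b (c : ℕ) z) + rho a b (c : ℕ) j * E0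
            ≤ (1 / 2 : ℝ) ^ b0 * (rho a b (c : ℕ) j / j * x * M) + rho a b (c : ℕ) j * E0 := by gcongr
          _ = _ := by ring
      · have : rg z j = 0 := by unfold rg; rw [if_neg hr]
        rw [this]
        simp
    refine (sum_le_sum hc).trans ?_
    rw [sum_comm]
    have hj : ∀ j ∈ Icc 1 U, ∑ c ∈ Gd, (rg z j * |g j|) * (rho a b (c : ℕ) j : ℝ) * ((1 / 2) ^ b0 * (M * x / j) + E0) ≤
        C3 * t * M * (C * x) * (rg z j * |g j| / j) + C3 * (x : ℝ) ^ (1 / 20 : ℝ) * C * |g j| := by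
      intro j hj
      rw [← sum_mul, ← mul_sum]
      obtain ⟨r0, r1⟩ := rg_range z j
      have hj1 : (1 : ℝ) ≤ j := by exact_mod_cast (mem_Icc.1 hj).1
      calc rg z j * |g j| * (∑ c ∈ Gd, (rho a b (c : ℕ) j : ℝ)) * ((1 / 2) ^ b0 * (M * x / j) + E0)
          ≤ rg z j * |g j| * (2 * C) * ((1 / 2) ^ b0 * (M * x / j) + E0) := by
            apply mul_le_mul_of_nonneg_right (hrho j hj) (by positivity)
        _ ≤ rg z j * |g j| * (2 * C) * ((2 * t) * (M * x / j) + C1 * (x : ℝ) ^ (1 / 20 : ℝ)) := by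
            gcongr
        _ = 4 * t * M * (C * x) * (rg z j * |g j| / j) + (2 * C1) * (x : ℝ) ^ (1 / 20 : ℝ) * C * (rg z j * |g j|) := by
            ring
        _ ≤ C3 * t * M * (C * x) * (rg z j * |g j| / j) + C3 * (x : ℝ) ^ (1 / 20 : ℝ) * C * (1 * |g j|) := by
            have : 2 * (C1 : ℝ) ≤ C3 := by linarith
            gcongr
        _ = _ := by rw [one_mul]
    refine (sum_le_sum hj).trans ?_
    rw [sum_add_distrib, ← mul_sum, ← mul_sum]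
  · have hc : ∀ c ∈ Gd, |((x : ℝ) - x1) * Vc a b (c : ℕ) z *
        ∑ j ∈ Icc 1 U, rg z j * g j * (rho a b (c : ℕ) j : ℝ) / j| ≤
        ∑ j ∈ Icc 1 U, (rg z j * |g j|) * (rho a b (c : ℕ) j : ℝ) * (M * x / j) := by
      intro c hcG
      have hV := hM c hcG
      have hV0 := Lam.Vc_nonneg a b (c : ℕ) z
      rw [mul_sum]
      refine (abs_sum_le_sum_abs _ _).trans (sum_le_sum ?_)
      intro j hj
      have hj1 : (1 : ℝ) ≤ j := by exact_mod_cast (mem_Icc.1 hj).1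
      obtain ⟨r0, r1⟩ := rg_range z j
      rw [abs_mul, abs_mul, abs_div, abs_mul, abs_mul, abs_of_nonneg hX0n, abs_of_nonneg hV0, abs_of_nonneg r0,
        Nat.abs_cast, Nat.abs_cast]
      calc ((x : ℝ) - x1) * Vc a b (c : ℕ) z * (rg z j * |g j| * (rho a b (c : ℕ) j : ℝ) / j)
          ≤ x * M * (rg z j * |g j| * (rho a b (c : ℕ) j : ℝ) / j) := by gcongr
        _ = _ := by ring
    refine (sum_le_sum hc).trans ?_
    rw [sum_comm, mul_sum]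
    apply sum_le_sum
    intro j hj
    rw [← sum_mul, ← mul_sum]
    have hj1 : (1 : ℝ) ≤ j := by exact_mod_cast (mem_Icc.1 hj).1
    calc rg z j * |g j| * (∑ c ∈ Gd, (rho a b (c : ℕ) j : ℝ)) * (M * x / j)
        ≤ rg z j * |g j| * (2 * C) * (M * x / j) := by
          apply mul_le_mul_of_nonneg_right (hrho j hj) (by positivity)
      _ = 2 * M * (C * x) * (rg z j * |g j| / j) := by ring

/-- the product over the primes is small for the good `c` -/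
lemma Vc_le {a b : ℤ} {c z w : ℕ} {K1 L : ℝ} (hL : 1 ≤ L)
    (h : |Vc a b c z * V1 w - Vc a b c w * V1 z| ≤ Vc a b c w * V1 z / L ^ 3) (hK : Vc a b c w / V1 w ≤ K1) :
    Vc a b c z ≤ 2 * K1 * V1 z := by
  have hw := V1_pos w
  have hz := V1_pos z
  have h0 := Lam.Vc_nonneg a b (c : ℤ) w
  have h1 := (abs_le.1 h).2
  have h2 : Vc a b c w * V1 z / L ^ 3 ≤ Vc a b c w * V1 z := by
    apply div_le_self (by positivity)
    exact one_le_pow₀ hL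
  have h3 : Vc a b c z * V1 w ≤ 2 * (Vc a b c w * V1 z) := by linarith
  rw [div_le_iff₀ hw] at hK
  have h4 : Vc a b c z * V1 w ≤ (2 * K1 * V1 z) * V1 w := by
    calc Vc a b c z * V1 w ≤ 2 * (Vc a b c w * V1 z) := h3
      _ ≤ 2 * ((K1 * V1 w) * V1 z) := by gcongr
      _ = _ := by ring
  exact le_of_mul_le_mul_right h4 hw

end RX

end Pool.Agent.N792
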