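import Pool.Agent.N792.Gap
import Pool.Agent.N792.RStm

/-!
X3: the values with a divisor near `x`, for `C ≥ x^(7/10)` (helper221, subtask 1169).
-/

set_option autoImplicit false
set_option maxHeartbeats 4000000

namespace Pool.Agent.N792

open Finset Filter Topology
open Gap

theorem x3 (a : ℤ) (ha : 0 < a) (b : ℤ) (R : ℕ) : X3 a b R := by
  unfold X3
  obtain ⟨c1, hc1, HT⟩ := T_card
  have har : (1 : ℝ) ≤ a := by exact_mod_cast ha
  obtain ⟨m, hm⟩ : ∃ m : ℕ, m = a.toNat + 1 := ⟨_, rfl⟩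
  have hm1 : 1 ≤ m := by omega
  have hmr : (1 : ℝ) ≤ m := by exact_mod_cast hm1
  have hmz : (m : ℤ) = a + 1 := by
    rw [hm]; push_cast; rw [Int.toNat_of_nonneg ha.le]
  obtain ⟨C2, hC2, Htri⟩ := tri_block (a : ℝ) (m : ℝ) har hmr
  obtain ⟨c0, hc0⟩ : ∃ c0 : ℝ, c0 = 2 * R * (1 + (b : ℝ) ^ 2) := ⟨_, rfl⟩
  have hc00 : 0 ≤ c0 := by rw [hc0]; positivity
  refine ⟨48 * c0 * c1 ^ 2 * m + 8 * R * c1 ^ 2 * m + 1, by positivity, ?_⟩
  intro η ε hη hη1 hε hε2
  have hε1 : ε ≤ 1 / 20 := by linarith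
  have hev := (HT η ε hη hη1 hε hε1 m hm1).and ((Ix_card m hm1 ε hε hε1).and ((ev_pow (83 / 50) (17 / 10) (32 * C2) 3
    (by norm_num)).and ((ev_log 1).and ((eventually_ge_atTop (b.natAbs + 2)).and
    ((eventually_ge_atTop (2 * R * b.natAbs)).and (ev_pow 0 (19 / 20) 4 0 (by norm_num)))))))
  obtain ⟨x0, hx0⟩ := eventually_atTop.1 hev
  refine ⟨x0, ?_⟩
  intro x hx x1 C z y hx1 hxR hC hCx hz hy
  obtain ⟨hT, hI, herr, hL1, hxb, hxRb, hx4⟩ := hx0 x hx
  have hT := hT z y hz hy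
  have hI := hI y hy
  have hxr : (1 : ℝ) ≤ x := by exact_mod_cast (show 1 ≤ x by omega)
  have hxp : (0 : ℝ) < x := by linarith
  have hRx : (x : ℝ) ≤ R * x1 := by exact_mod_cast hxR
  have hR1 : 1 ≤ R := by
    by_contra h
    have : R = 0 := by omega
    rw [this, zero_mul] at hxR
    omega
  have hRr : (1 : ℝ) ≤ R := by exact_mod_cast hR1
  have hc01 : 1 ≤ c0 := by
    rw [hc0]
    exact aux1 _ _ hRr (sq_nonneg _)
  obtain ⟨L, hL⟩ : ∃ L : ℝ, L = Real.log x := ⟨_, rfl⟩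
  rw [← hL] at hT hI herr hL1 ⊢
  have hy2 : 2 ≤ y := by
    have h1 : (x : ℝ) ^ (19 / 20 : ℝ) ≤ (x : ℝ) ^ (1 - ε) := Real.rpow_le_rpow_of_exponent_le hxr (by linarith)
    have h2 : (4 : ℝ) ≤ y := by
      simp at hx4
      linarith
    have : 4 ≤ y := by exact_mod_cast h2
    omega
  have hC1 : 1 ≤ C := by
    have : (1 : ℝ) ≤ C := (Real.one_le_rpow hxr (by norm_num)).trans hC
    exact_mod_cast this
  have hCr : (1 : ℝ) ≤ C := by exact_mod_cast hC1
  obtain ⟨M, hM⟩ : ∃ M : ℕ, M = m * x ^ 2 := ⟨_, rfl⟩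
  rw [← hM] at hT hI
  have hM1 : 1 ≤ M := by
    rw [hM]
    exact Nat.mul_pos hm1 (pow_pos (by omega) 2)
  have hMr : (M : ℝ) = m * (x : ℝ) ^ 2 := by rw [hM]; push_cast; ring
  -- the values
  have hval : ∀ c : ℕ, c ≤ C → ∀ n : ℕ, n ≤ x → (fv a b c n).toNat ≤ M := by
    intro c hc n hn
    rw [Int.toNat_le, hM]
    unfold fv
    push_cast
    rw [hmz]
    have h1 : (n : ℤ) ≤ x := by exact_mod_cast hn
    have h2 : (c : ℤ) ≤ x := by exact_mod_cast hc.trans hCx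
    have h3 : (0 : ℤ) ≤ n := by positivity
    have h5 : |b| + 1 ≤ (x : ℤ) := by
      have : (b.natAbs : ℤ) + 2 ≤ x := by exact_mod_cast hxb
      rw [Int.natCast_natAbs] at this
      linarith
    exact aux2 a b n c x ha h1 h2 h3 h5
  -- the main sum
  have hmain : ∑ q ∈ Px y M, ((#(T z q.1) : ℝ) * #(T z q.2)) ≤ 8 * c1 ^ 2 * m * (ε / η ^ 2) * (x ^ 2 / L) := by
    have h1 : ∑ q ∈ Px y M, ((#(T z q.1) : ℝ) * #(T z q.2)) ≤ ∑ q ∈ Px y M, (c1 / (η * L)) ^ 2 * (2 : ℝ) ^ (q.1 + q.2) := by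
      refine Finset.sum_le_sum fun q hq => ?_
      unfold Px at hq
      rw [mem_filter, mem_product] at hq
      calc (#(T z q.1) : ℝ) * #(T z q.2) ≤ c1 * (2 ^ q.1 / (η * L)) * (c1 * (2 ^ q.2 / (η * L))) :=
            mul_le_mul (hT _ hq.1.1) (hT _ hq.1.2) (Nat.cast_nonneg _) (by positivity)
        _ = _ := by rw [pow_add]; ring
    refine h1.trans ?_
    rw [← Finset.mul_sum]
    have h2 := sum_pow_le y M hM1
    calc (c1 / (η * L)) ^ 2 * ∑ q ∈ Px y M, (2 : ℝ) ^ (q.1 + q.2) ≤ (c1 / (η * L)) ^ 2 * (4 * ε * L * (2 * M)) := by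
          apply mul_le_mul_of_nonneg_left _ (by positivity)
          exact h2.trans (mul_le_mul_of_nonneg_right hI (by positivity))
      _ = _ := by rw [hMr]; field_simp; ring
  have hEta : (1 : ℝ) ≤ 1 / η ^ 2 := aux3 η hη hη1
  constructor
  · refine (sum_le a b z y M x1 x C hy2 (fun c hc n hn => hval c (mem_Icc.1 hc).2 n (mem_Ioc.1 hn).2)).trans ?_
    obtain ⟨δ, hδ⟩ : ∃ δ : ℝ, δ = c0 * (C / x) := ⟨_, rfl⟩
    have hδ' : δ = 2 * R * (1 + (b : ℝ) ^ 2) * (C / x) := by rw [hδ, hc0]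
    have hδ0 : 0 < δ := by rw [hδ]; positivity
    have hbx : R * b.natAbs ≤ x := by
      have : 2 * R * b.natAbs = 2 * (R * b.natAbs) := by ring
      omega
    have hδx : (x : ℝ) ^ (-(3 / 10) : ℝ) ≤ 2 * δ := by
      have h1 : (x : ℝ) ^ (-(3 / 10) : ℝ) = (x : ℝ) ^ (7 / 10 : ℝ) / x := by
        rw [eq_div_iff (by linarith), ← Real.rpow_add_one hxp.ne']
        norm_num
      rw [h1, hδ]
      have h2 : (x : ℝ) ^ (7 / 10 : ℝ) / x ≤ C / x := by gcongr
      have h3 : 0 ≤ (C : ℝ) / x := by positivity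
      exact aux4 _ _ _ h3 h2 hc01
    have hsq : (x : ℝ) ^ (-(3 / 20) : ℝ) ≤ √(2 * δ) := by
      apply Real.le_sqrt_of_sq_le
      rw [← Real.rpow_natCast, ← Real.rpow_mul hxp.le]
      norm_num
      norm_num at hδx
      exact hδx
    have hE : C2 * (x : ℝ) ^ (3 / 2 + ε) / √(2 * δ) ≤ C2 * (x : ℝ) ^ (83 / 50 : ℝ) := by
      have h1 : (0 : ℝ) < (x : ℝ) ^ (-(3 / 20) : ℝ) := Real.rpow_pos_of_pos hxp _
      rw [div_le_iff₀ (h1.trans_le hsq)]
      have h2 : (x : ℝ) ^ (3 / 2 + ε) ≤ (x : ℝ) ^ (83 / 50 : ℝ) * (x : ℝ) ^ (-(3 / 20) : ℝ) := by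
        rw [← Real.rpow_add hxp]
        exact Real.rpow_le_rpow_of_exponent_le hxr (by norm_num; linarith)
      calc C2 * (x : ℝ) ^ (3 / 2 + ε) ≤ C2 * ((x : ℝ) ^ (83 / 50 : ℝ) * (x : ℝ) ^ (-(3 / 20) : ℝ)) :=
            mul_le_mul_of_nonneg_left h2 hC2.le
        _ ≤ C2 * ((x : ℝ) ^ (83 / 50 : ℝ) * √(2 * δ)) :=
            mul_le_mul_of_nonneg_left (mul_le_mul_of_nonneg_left hsq (by positivity)) hC2.le
        _ = _ := by ring
    have hblock : ∀ q ∈ Px y M, ∑ r ∈ T z q.1, ∑ s ∈ T z q.2, (nu a b x1 x C (r * s) : ℝ) ≤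
        6 * δ * ((#(T z q.1) : ℝ) * #(T z q.2)) + 2 * (C2 * (x : ℝ) ^ (83 / 50 : ℝ)) := by
      intro q hq
      have hTT : 0 ≤ (#(T z q.1) : ℝ) * #(T z q.2) := by positivity
      rcases le_or_gt δ (1 / 4) with hd | hd
      · have h1 : ∑ r ∈ T z q.1, ∑ s ∈ T z q.2, (nu a b x1 x C (r * s) : ℝ) ≤
            2 * ∑ r ∈ T z q.1, ∑ s ∈ T z q.2, tri (2 * δ) (√(((r * s : ℕ) : ℝ) / a) - b / (2 * a)) := by
          rw [Finset.mul_sum]
          refine Finset.sum_le_sum fun r _ => ?_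
          rw [Finset.mul_sum]
          exact Finset.sum_le_sum fun s _ => nu_le a b ha R x1 x C (r * s) hxR hbx hC1 (by omega) δ hδ' hd hδ0
        unfold Px at hq
        rw [mem_filter, mem_product] at hq
        rw [hM] at hq
        have b1 := Ix_bd m x y q.1 ε hm1 (by omega) hε.le hy hq.1.1
        have b2 := Ix_bd m x y q.2 ε hm1 (by omega) hε.le hy hq.1.2
        have b3 : ((2 ^ (q.1 + q.2) : ℕ) : ℝ) ≤ ((m * x ^ 2 : ℕ) : ℝ) := by exact_mod_cast hq.2
        rw [pow_add] at b3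
        push_cast at b3
        have h2 := Htri ε hε.le x (2 ^ q.1) (2 ^ q.2) (by omega) Nat.one_le_two_pow Nat.one_le_two_pow
          (by push_cast; exact b3) (by push_cast; exact b1.1) (by push_cast; exact b2.1) (by push_cast; exact b2.2)
          (T z q.1) (T_sub z q.1) (T z q.2) (T_sub z q.2)
          (b / (2 * a)) (2 * δ) (by linarith) (by linarith)
        exact aux6 _ _ _ _ _ _ _ _ h1 h2 hE (mul_nonneg hδ0.le hTT) rfl
      · have h1 : ∑ r ∈ T z q.1, ∑ s ∈ T z q.2, (nu a b x1 x C (r * s) : ℝ) ≤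
            ∑ r ∈ T z q.1, ∑ s ∈ T z q.2, 6 * δ :=
          Finset.sum_le_sum fun r _ => Finset.sum_le_sum fun s _ =>
            nu_le' a b ha R x1 x C (r * s) hxR hbx hC1 (by omega) δ hδ' hd.le
        simp only [Finset.sum_const, nsmul_eq_mul] at h1
        have h2 : 0 ≤ 2 * (C2 * (x : ℝ) ^ (83 / 50 : ℝ)) := by positivity
        linarith
    refine (Finset.sum_le_sum hblock).trans ?_
    rw [Finset.sum_add_distrib, ← Finset.mul_sum, Finset.sum_const, nsmul_eq_mul]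
    have hP : (#(Px y M) : ℝ) ≤ (4 * ε * L) ^ 2 := by
      have h1 : #(Px y M) ≤ #(Ix y M) * #(Ix y M) := by
        unfold Px
        exact (Finset.card_filter_le _ _).trans (by rw [Finset.card_product])
      have h2 : (#(Px y M) : ℝ) ≤ #(Ix y M) * #(Ix y M) := by exact_mod_cast h1
      have h3 : (0 : ℝ) ≤ #(Ix y M) := Nat.cast_nonneg _
      rw [pow_two]
      exact h2.trans (mul_le_mul hI hI h3 (h3.trans hI))
    have hsec : (#(Px y M) : ℝ) * (2 * (C2 * (x : ℝ) ^ (83 / 50 : ℝ))) ≤ (ε / η ^ 2) * (C * x / L) := by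
      calc (#(Px y M) : ℝ) * (2 * (C2 * (x : ℝ) ^ (83 / 50 : ℝ))) ≤ (4 * ε * L) ^ 2 * (2 * (C2 * (x : ℝ) ^ (83 / 50 : ℝ))) :=
            mul_le_mul_of_nonneg_right hP (by positivity)
        _ = ε ^ 2 * (32 * C2 * (x : ℝ) ^ (83 / 50 : ℝ) * L ^ 3) / L := by field_simp; ring
        _ ≤ ε ^ 2 * (x : ℝ) ^ (17 / 10 : ℝ) / L := by
            apply div_le_div_of_nonneg_right _ (by linarith)
            exact mul_le_mul_of_nonneg_left herr (by positivity)
        _ ≤ ε ^ 2 * (C * x) / L := by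
            apply div_le_div_of_nonneg_right _ (by linarith)
            apply mul_le_mul_of_nonneg_left _ (by positivity)
            have : (x : ℝ) ^ (17 / 10 : ℝ) = (x : ℝ) ^ (7 / 10 : ℝ) * x := by
              rw [← Real.rpow_add_one hxp.ne']; norm_num
            rw [this]
            exact mul_le_mul_of_nonneg_right hC hxp.le
        _ = ε ^ 2 * (C * x / L) := by ring
        _ ≤ (ε / η ^ 2) * (C * x / L) := by
            apply mul_le_mul_of_nonneg_right _ (by positivity)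
            rw [div_eq_mul_one_div ε]
            exact aux5 _ _ hε hε1 hEta
    have hfst : 6 * δ * ∑ q ∈ Px y M, ((#(T z q.1) : ℝ) * #(T z q.2)) ≤
        48 * c0 * c1 ^ 2 * m * (ε / η ^ 2) * (C * x / L) := by
      calc 6 * δ * ∑ q ∈ Px y M, ((#(T z q.1) : ℝ) * #(T z q.2)) ≤
            6 * δ * (8 * c1 ^ 2 * m * (ε / η ^ 2) * (x ^ 2 / L)) := mul_le_mul_of_nonneg_left hmain (by positivity)
        _ = _ := by rw [hδ]; field_simp; ring
    have hpos : 0 ≤ 8 * R * c1 ^ 2 * m * (ε / η ^ 2) * (C * x / L) := by positivity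
    calc _ ≤ 48 * c0 * c1 ^ 2 * m * (ε / η ^ 2) * (C * x / L) + (ε / η ^ 2) * (C * x / L) := add_le_add hfst hsec
      _ ≤ _ := by linarith
  · -- the second part
    have hx1r : (0 : ℝ) < x1 := by
      rcases Nat.eq_zero_or_pos x1 with h | h
      · rw [h] at hxR; omega
      · exact_mod_cast h
    have hw : ∀ N ∈ Ioc (Fn a b x1) (Fn a b x), hw a N ≤ R / x := by
      intro N hN
      rw [mem_Ioc] at hN
      have h1 : (fv a b 0 x1 : ℤ) ≤ N := by
        have := Int.self_le_toNat (fv a b 0 x1)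
        have h2 : ((fv a b 0 x1).toNat : ℤ) < N := by
          have := hN.1
          unfold Fn at this
          exact_mod_cast this
        linarith
      have h2 : (a : ℝ) * x1 ^ 2 + b * x1 ≤ N := by
        have : ((fv a b 0 x1 : ℤ) : ℝ) ≤ ((N : ℤ) : ℝ) := by exact_mod_cast h1
        unfold fv at this
        push_cast at this
        linarith
      have h3 : 2 * |(b : ℝ)| ≤ x1 := by
        have : ((2 * R * b.natAbs : ℕ) : ℝ) ≤ x := by exact_mod_cast hxRb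
        push_cast at this
        rw [Nat.cast_natAbs, Int.cast_abs] at this
        have h4 : (R : ℝ) * (2 * |(b : ℝ)|) ≤ R * x1 := by linarith
        exact le_of_mul_le_mul_left h4 (by linarith)
      have h4 : (x1 : ℝ) ^ 2 / 2 ≤ N := aux7 _ _ _ _ hx1r har h2 h3
      have h5 : (x1 : ℝ) / 2 ≤ √((a : ℝ) * N) := Real.le_sqrt_of_sq_le (aux8 _ _ _ har h4)
      have h6 : (R : ℝ) * x1 ≤ R * (2 * √((a : ℝ) * N)) := mul_le_mul_of_nonneg_left (by linarith) (by linarith)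
      unfold Pool.Agent.N792.hw
      rw [div_le_div_iff₀ (by linarith) hxp]
      linarith
    have hLs : Ls a b x1 x (gp z y) ≤ (R / x) * ∑ N ∈ Ioc (Fn a b x1) (Fn a b x), gp z y N := by
      unfold Ls
      rw [Finset.mul_sum]
      refine Finset.sum_le_sum fun N hN => ?_
      rw [mul_comm]
      apply mul_le_mul_of_nonneg_right (hw N hN)
      unfold gp rg
      split_ifs <;> simp
    have hsum := sum_le' z y M (Fn a b x1) (Fn a b x) hy2 (by
      have := hval 0 (by omega) x le_rfl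
      unfold Fn
      simpa using this)
    calc Ls a b x1 x (gp z y) ≤ (R / x) * ∑ N ∈ Ioc (Fn a b x1) (Fn a b x), gp z y N := hLs
      _ ≤ (R / x) * (8 * c1 ^ 2 * m * (ε / η ^ 2) * (x ^ 2 / L)) :=
          mul_le_mul_of_nonneg_left (hsum.trans hmain) (by positivity)
      _ = 8 * R * c1 ^ 2 * m * (ε / η ^ 2) * (x / L) := by field_simp
      _ ≤ _ := by
          have h1 : 0 ≤ 48 * c0 * c1 ^ 2 * m * (ε / η ^ 2) * (x / L) := by positivity
          have h2 : 0 ≤ (ε / η ^ 2) * (x / L) := by positivity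
          linarith

end Pool.Agent.N792
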