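import Pool.Agent.N792.QStm
import Pool.Agent.N792.LsLam
import Pool.Agent.H442R2.EHI.PntErr

/-!
The weighted sum over the products of two primes (helper768, for helper792).
-/

set_option autoImplicit false

namespace Pool.Agent.N792
namespace QS2

open Finset Filter Topology

lemma evN (P : ℝ → Prop) (h : ∀ᶠ x : ℝ in Filter.atTop, P x) :
    ∃ N₀ : ℕ, ∀ N : ℕ, N₀ ≤ N → P N := by
  obtain ⟨x0, hx0⟩ := Filter.eventually_atTop.1 h
  exact ⟨⌈x0⌉₊, fun N hN => hx0 N ((Nat.le_ceil _).trans (by exact_mod_cast hN))⟩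

lemma ev_pow (k : ℕ) (c : ℝ) (s : ℝ) (hs : 0 < s) :
    ∀ᶠ x : ℝ in Filter.atTop, c * Real.log x ^ k ≤ x ^ s := by
  have h1 : (fun x : ℝ => Real.log x ^ (k : ℝ)) =o[Filter.atTop] fun x : ℝ => x ^ s :=
    isLittleO_log_rpow_rpow_atTop (k : ℝ) hs
  have h3 := (h1.const_mul_left c).def (c := 1) one_pos
  filter_upwards [h3, Filter.eventually_ge_atTop (1 : ℝ)] with x hx hx1
  rw [one_mul, Real.norm_of_nonneg (Real.rpow_nonneg (by linarith) _), Real.rpow_natCast] at hx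
  exact (le_abs_self _).trans hx

/-- partial summation -/
lemma abel (D g : ℕ → ℝ) (B : ℝ) (s : ℕ) : ∀ t : ℕ, s ≤ t →
    (∀ n, s ≤ n → n ≤ t → |D n| ≤ B) → (∀ n, s ≤ n → n < t → g (n + 1) ≤ g n) → 0 ≤ g s →
    |∑ n ∈ Ioc s t, (D n - D (n - 1)) * g n - D t * g t| ≤ B * (2 * g s - g t) := by
  refine Nat.le_induction ?_ ?_
  · intro hD _ h0
    simp only [Ioc_self, sum_empty, zero_sub, abs_neg]
    rw [abs_mul, abs_of_nonneg h0]
    have := hD s le_rfl le_rfl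
    nlinarith
  · intro t hst ih hD hg h0
    have ih' := ih (fun n h1 h2 => hD n h1 (by omega)) (fun n h1 h2 => hg n h1 (by omega)) h0
    rw [← Finset.insert_Ioc_right_eq_Ioc_add_one (by omega), sum_insert (by simp)]
    have h1 := hg t hst (by omega)
    have h2 := hD t hst (by omega)
    have e2 : (D (t + 1) - D (t + 1 - 1)) * g (t + 1) +
        ∑ n ∈ Ioc s t, (D n - D (n - 1)) * g n - D (t + 1) * g (t + 1) =
        (∑ n ∈ Ioc s t, (D n - D (n - 1)) * g n - D t * g t) + D t * (g t - g (t + 1)) := by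
      rw [Nat.add_sub_cancel]; ring
    rw [e2]
    refine (abs_add_le _ _).trans ?_
    rw [abs_mul, abs_of_nonneg (by linarith : 0 ≤ g t - g (t + 1))]
    have h3 : |D t| * (g t - g (t + 1)) ≤ B * (g t - g (t + 1)) :=
      mul_le_mul_of_nonneg_right h2 (by linarith)
    linarith

lemma abel' (D g : ℕ → ℝ) (B : ℝ) (s t : ℕ) (hst : s ≤ t)
    (hD : ∀ n, s ≤ n → n ≤ t → |D n| ≤ B) (hg : ∀ n, s ≤ n → n < t → g (n + 1) ≤ g n)
    (h0 : ∀ n, s ≤ n → n ≤ t → 0 ≤ g n) :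
    |∑ n ∈ Ioc s t, (D n - D (n - 1)) * g n| ≤ 2 * B * g s := by
  have h1 := abel D g B s t hst hD hg (h0 s le_rfl hst)
  have h2 : |D t * g t| ≤ B * g t := by
    rw [abs_mul, abs_of_nonneg (h0 t hst le_rfl)]
    exact mul_le_mul_of_nonneg_right (hD t hst le_rfl) (h0 t hst le_rfl)
  have h3 := abs_sub_abs_le_abs_sub (∑ n ∈ Ioc s t, (D n - D (n - 1)) * g n) (D t * g t)
  linarith

/-- comparison of sums over blocks -/
lemma blocks (K : ℕ → ℕ) (G g : ℕ → ℝ) (W : ℝ) (s : ℕ) : ∀ t : ℕ, s ≤ t →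
    (∀ m, s < m → m ≤ t → K (m - 1) ≤ K m ∧ ((K m : ℝ) - K (m - 1)) ≤ W ∧ g m ≤ g (m - 1) ∧
      ∀ k ∈ Ioc (K (m - 1)) (K m), g m ≤ G k ∧ G k ≤ g (m - 1)) →
    K s ≤ K t ∧
    0 ≤ ∑ k ∈ Ioc (K s) (K t), G k - ∑ m ∈ Ioc s t, ((K m : ℝ) - K (m - 1)) * g m ∧
    ∑ k ∈ Ioc (K s) (K t), G k - ∑ m ∈ Ioc s t, ((K m : ℝ) - K (m - 1)) * g m ≤
      W * (g s - g t) := by
  refine Nat.le_induction ?_ ?_
  · intro _
    simp
  · intro t hst ih h
    obtain ⟨i1, i2, i3⟩ := ih fun m h1 h2 => h m h1 (by omega)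
    obtain ⟨j1, j2, j3, j4⟩ := h (t + 1) (by omega) le_rfl
    rw [Nat.add_sub_cancel] at j1 j2 j3 j4
    have e1 : ∑ k ∈ Ioc (K s) (K (t + 1)), G k =
        ∑ k ∈ Ioc (K s) (K t), G k + ∑ k ∈ Ioc (K t) (K (t + 1)), G k :=
      (sum_Ioc_consecutive _ i1 j1).symm
    have e2 : ∑ m ∈ Ioc s (t + 1), ((K m : ℝ) - K (m - 1)) * g m =
        ∑ m ∈ Ioc s t, ((K m : ℝ) - K (m - 1)) * g m + ((K (t + 1) : ℝ) - K t) * g (t + 1) := by
      rw [← Finset.insert_Ioc_right_eq_Ioc_add_one (by omega), sum_insert (by simp),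
        Nat.add_sub_cancel]
      ring
    have hc : ((#(Ioc (K t) (K (t + 1))) : ℕ) : ℝ) = (K (t + 1) : ℝ) - K t := by
      rw [Nat.card_Ioc, Nat.cast_sub j1]
    have l1 : ((K (t + 1) : ℝ) - K t) * g (t + 1) ≤ ∑ k ∈ Ioc (K t) (K (t + 1)), G k := by
      have := card_nsmul_le_sum (Ioc (K t) (K (t + 1))) G (g (t + 1)) fun k hk => (j4 k hk).1
      rw [nsmul_eq_mul, hc] at this
      exact this
    have l2 : ∑ k ∈ Ioc (K t) (K (t + 1)), G k ≤ ((K (t + 1) : ℝ) - K t) * g t := by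
      have := sum_le_card_nsmul (Ioc (K t) (K (t + 1))) G (g t) fun k hk => (j4 k hk).2
      rw [nsmul_eq_mul, hc] at this
      exact this
    have l3 : ((K (t + 1) : ℝ) - K t) * (g t - g (t + 1)) ≤ W * (g t - g (t + 1)) :=
      mul_le_mul_of_nonneg_right j2 (by linarith)
    rw [e1, e2]
    refine ⟨i1.trans j1, by linarith, ?_⟩
    nlinarith

/-- the double sum -/
lemma ls_eq (a b : ℤ) (x1 x y1 y2 : ℕ) :
    Ls a b x1 x (fun N => ∑ j ∈ N.divisors.filter (fun j => y1 < j ∧ j ≤ y2),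
      pi0 j * pi0 (N / j)) =
    ∑ p ∈ (Ioc y1 y2).filter Nat.Prime,
      ∑ k ∈ Ioc (Fn a b x1 / p) (Fn a b x / p), pi0 k * hw a (p * k) := by
  unfold Ls
  have e1 : ∀ N ∈ Ioc (Fn a b x1) (Fn a b x),
      (∑ j ∈ N.divisors.filter (fun j => y1 < j ∧ j ≤ y2), pi0 j * pi0 (N / j)) * hw a N =
      ∑ j ∈ (Ioc y1 y2).filter Nat.Prime, if j ∣ N then pi0 (N / j) * hw a N else 0 := by
    intro N hN
    rw [mem_Ioc] at hN
    rw [sum_mul, sum_filter, sum_filter, ← sum_filter (p := fun j => y1 < j ∧ j ≤ y2)]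
    have hsub : N.divisors.filter (fun j => y1 < j ∧ j ≤ y2) ⊆ Ioc y1 y2 := by
      intro j hj
      rw [mem_filter] at hj
      rw [mem_Ioc]
      exact hj.2
    have e3 : ∑ j ∈ N.divisors.filter (fun j => y1 < j ∧ j ≤ y2), pi0 j * pi0 (N / j) * hw a N =
        ∑ j ∈ N.divisors.filter (fun j => y1 < j ∧ j ≤ y2),
          (if Nat.Prime j then (if j ∣ N then pi0 (N / j) * hw a N else 0) else 0) := by
      apply sum_congr rfl
      intro j hj
      rw [mem_filter, Nat.mem_divisors] at hj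
      by_cases hp : j.Prime
      · rw [if_pos hp, if_pos hj.1.1]
        have : pi0 j = 1 := by unfold pi0; rw [if_pos hp]
        rw [this, one_mul]
      · rw [if_neg hp]
        have : pi0 j = 0 := by unfold pi0; rw [if_neg hp]
        rw [this, zero_mul, zero_mul]
    rw [e3]
    apply sum_subset hsub
    intro j hj hj2
    rw [mem_filter, Nat.mem_divisors] at hj2
    rw [mem_Ioc] at hj
    by_cases hp : j.Prime
    · rw [if_pos hp, if_neg]
      intro hd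
      exact hj2 ⟨⟨hd, by omega⟩, hj⟩
    · rw [if_neg hp]
  rw [sum_congr rfl e1, sum_comm]
  apply sum_congr rfl
  intro j hj
  rw [mem_filter] at hj
  have hj0 : 0 < j := hj.2.pos
  rw [← sum_filter]
  refine sum_nbij' (fun N => N / j) (fun k => j * k) ?_ ?_ ?_ ?_ ?_
  · intro N hN
    rw [mem_filter, mem_Ioc] at hN
    obtain ⟨⟨h1, h2⟩, k, rfl⟩ := hN
    rw [Nat.mul_div_cancel_left _ hj0, mem_Ioc]
    rw [mul_comm] at h1 h2
    exact ⟨(Nat.div_lt_iff_lt_mul hj0).2 h1, (Nat.le_div_iff_mul_le hj0).2 h2⟩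
  · intro k hk
    rw [mem_Ioc] at hk
    rw [mem_filter, mem_Ioc]
    have h1 := (Nat.div_lt_iff_lt_mul hj0).1 hk.1
    have h2 := (Nat.le_div_iff_mul_le hj0).1 hk.2
    rw [mul_comm] at h1 h2
    exact ⟨⟨h1, h2⟩, Dvd.intro _ rfl⟩
  · intro N hN
    rw [mem_filter] at hN
    exact Nat.mul_div_cancel' hN.2
  · intro k _
    exact Nat.mul_div_cancel_left _ hj0
  · intro N hN
    rw [mem_filter] at hN
    rw [Nat.mul_div_cancel' hN.2]

/-- the error term of the prime number theorem -/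
noncomputable def DD (N : ℕ) : ℝ :=
  (((Icc 1 N).filter (fun p : ℕ => p.Prime)).card : ℝ) - Pool.Agent.H442R2.EHI.lis N

lemma DD_diff {k : ℕ} (hk : 2 ≤ k) : DD k - DD (k - 1) = pi0 k - 1 / Real.log k := by
  obtain ⟨n, rfl⟩ : ∃ n, k = n + 1 := ⟨k - 1, by omega⟩
  rw [Nat.add_sub_cancel]
  have e1 : ∀ N : ℕ, (((Icc 1 N).filter (fun p : ℕ => p.Prime)).card : ℝ) =
      ∑ p ∈ Icc 1 N, pi0 p := by
    intro N
    rw [card_filter]
    push_cast
    apply sum_congr rfl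
    intro p _
    by_cases hp : p.Prime <;> simp [pi0, hp]
  unfold DD
  rw [e1, e1, sum_Icc_succ_top (by omega)]
  unfold Pool.Agent.H442R2.EHI.lis
  rw [sum_Icc_succ_top (by omega)]
  push_cast
  ring

/-- the sum over the primes with a monotone weight -/
lemma prime_sum (U : ℕ) : ∃ C : ℝ, 0 ≤ C ∧ ∀ (K1 K2 : ℕ) (ℓ : ℝ) (h : ℕ → ℝ), 2 ≤ K1 → K1 ≤ K2 →
    0 < ℓ → ℓ ≤ Real.log K1 → (∀ N, K1 + 1 ≤ N → h (N + 1) ≤ h N) → (∀ N, 0 ≤ h N) →
    |∑ k ∈ Ioc K1 K2, pi0 k * h k - ∑ k ∈ Ioc K1 K2, h k / Real.log k| ≤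
      2 * (C * K2 / ℓ ^ U) * h (K1 + 1) := by
  obtain ⟨C, hC⟩ := Pool.Agent.H442R2.EHI.pnt_err U
  refine ⟨|C|, abs_nonneg _, ?_⟩
  intro K1 K2 ℓ h hK1 hK hℓ hℓK hh h0
  have hK1r : (2 : ℝ) ≤ K1 := by exact_mod_cast hK1
  rw [← sum_sub_distrib]
  have e : ∑ k ∈ Ioc K1 K2, (pi0 k * h k - h k / Real.log k) =
      ∑ k ∈ Ioc K1 K2, (DD k - DD (k - 1)) * h k := by
    apply sum_congr rfl
    intro k hk
    rw [mem_Ioc] at hk
    rw [DD_diff (by omega)]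
    ring
  rw [e]
  refine lsl_abel' DD h _ K1 K2 (by positivity) hK ?_ hh h0
  intro N h1 h2
  have h3 : (2 : ℝ) ≤ N := hK1r.trans (by exact_mod_cast h1)
  refine (hC N (by omega)).trans ?_
  have h4 : ℓ ≤ Real.log N := hℓK.trans (Real.log_le_log (by linarith) (by exact_mod_cast h1))
  calc C * N / Real.log N ^ U ≤ |C| * K2 / Real.log N ^ U := by
        apply div_le_div_of_nonneg_right _ (pow_nonneg (hℓ.le.trans h4) _)
        exact mul_le_mul (le_abs_self C) (by exact_mod_cast h2) (by positivity) (abs_nonneg _)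
    _ ≤ |C| * K2 / ℓ ^ U := by
        apply div_le_div_of_nonneg_left (by positivity) (by positivity)
        exact pow_le_pow_left₀ hℓ.le h4 _

/-- the quotient of the difference and the square root -/
lemma quot {A b m : ℝ} {F q : ℝ} (hA : 1 ≤ A) (hm : 1 ≤ m) (hb : 2 * |b| ≤ m)
    (hF : F = A * m ^ 2 + b * m) (hq : q = 2 * √(A * F)) :
    A * m ≤ q ∧ |(2 * A * m - A + b) / q - 1| ≤ (1 + b ^ 2) / m := by
  have hb1 := neg_abs_le b
  have hb2 := le_abs_self b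
  have hb0 := abs_nonneg b
  have hFl : A * m ^ 2 / 2 ≤ F := by
    rw [hF]
    nlinarith [mul_nonneg (by linarith : (0:ℝ) ≤ A - 1) (sq_nonneg m)]
  have hF0 : 0 ≤ F := le_trans (by positivity) hFl
  have hq0 : 0 ≤ q := by rw [hq]; positivity
  have hq2 : q ^ 2 = 4 * A * F := by
    rw [hq, mul_pow, Real.sq_sqrt (by positivity)]; ring
  have hAm : 0 < A * m := by positivity
  have hqm : A * m ≤ q := by
    apply le_of_sq_le_sq _ hq0
    rw [hq2]
    nlinarith [mul_le_mul_of_nonneg_left hFl (by positivity : (0:ℝ) ≤ 4 * A)]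
  refine ⟨hqm, ?_⟩
  have hqp : 0 < q := by linarith
  have h1 : (2 * A * m + b - q) * (2 * A * m + b + q) = b ^ 2 := by
    have : (2 * A * m + b - q) * (2 * A * m + b + q) = (2 * A * m + b) ^ 2 - q ^ 2 := by ring
    rw [this, hq2, hF]; ring
  have hs : 1 ≤ 2 * A * m + b + q := by nlinarith
  have h2 : 0 ≤ 2 * A * m + b - q := by
    by_contra hcon
    push Not at hcon
    nlinarith [sq_nonneg b]
  have h3 : 2 * A * m + b - q ≤ b ^ 2 := by
    nlinarith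
  rw [div_sub_one hqp.ne', abs_div, abs_of_pos hqp]
  have h4 : |2 * A * m - A + b - q| ≤ A + b ^ 2 := by
    rw [abs_le]
    constructor <;> nlinarith [sq_nonneg b]
  rw [div_le_div_iff₀ hqp (by linarith)]
  calc |2 * A * m - A + b - q| * m ≤ (A + b ^ 2) * m := mul_le_mul_of_nonneg_right h4 (by linarith)
    _ ≤ (1 + b ^ 2) * (A * m) := by nlinarith [mul_nonneg (mul_nonneg (sq_nonneg b) (by linarith : (0:ℝ) ≤ A - 1)) (by linarith : (0:ℝ) ≤ m)]
    _ ≤ (1 + b ^ 2) * q := mul_le_mul_of_nonneg_left hqm (by positivity)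

/-! ### elementary inequalities -/

lemma l1 {X X1 R s : ℝ} (hX : 0 < X) (hR : 1 ≤ R) (hss : s * s = X)
    (hs : 4 * R ^ 2 ≤ s) (h : X ≤ R * X1) :
    4 * s * X ≤ X1 ^ 2 ∧ X ^ 2 ≤ R ^ 2 * X1 ^ 2 := by
  have hXX1 : X ^ 2 ≤ R ^ 2 * X1 ^ 2 := by
    rw [← mul_pow]; exact pow_le_pow_left₀ hX.le h 2
  have hs0 : 0 ≤ s := le_trans (by positivity) hs
  refine ⟨?_, hXX1⟩
  have h1 : R ^ 2 * (4 * s * X) ≤ R ^ 2 * X1 ^ 2 := by
    refine le_trans ?_ hXX1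
    have h2 : 4 * R ^ 2 * (s * X) ≤ s * (s * X) :=
      mul_le_mul_of_nonneg_right hs (by positivity)
    calc R ^ 2 * (4 * s * X) = 4 * R ^ 2 * (s * X) := by ring
      _ ≤ s * (s * X) := h2
      _ = s * s * X := by ring
      _ = X ^ 2 := by rw [hss]; ring
  exact le_of_mul_le_mul_left h1 (by positivity)

lemma l2 {A b n F : ℝ} (hA : 1 ≤ A) (hn : 1 ≤ n) (hb : 2 * |b| ≤ n)
    (hF : F = A * n ^ 2 + b * n) : A * n ^ 2 / 2 ≤ F := by
  have hb1 := neg_abs_le b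
  rw [hF]
  have h1 : -(n / 2) * n ≤ b * n := mul_le_mul_of_nonneg_right (by linarith) (by linarith)
  have h2 : 1 * n ^ 2 ≤ A * n ^ 2 := mul_le_mul_of_nonneg_right hA (sq_nonneg n)
  have h3 : -(n / 2) * n = -(n ^ 2 / 2) := by ring
  linarith

lemma l3 {A n X1 F s X P : ℝ} (hA : 1 ≤ A) (h1 : 0 ≤ X1) (h2 : X1 ≤ n)
    (hF : A * n ^ 2 / 2 ≤ F) (hs : 0 ≤ s) (hsX : 4 * s * X ≤ X1 ^ 2) (hPX : P ≤ X) :
    2 * s * P ≤ F ∧ X1 ^ 2 / 2 ≤ F := by
  have h4 : X1 ^ 2 ≤ n ^ 2 := pow_le_pow_left₀ h1 h2 2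
  have h5 : 1 * n ^ 2 ≤ A * n ^ 2 := mul_le_mul_of_nonneg_right hA (sq_nonneg n)
  have h6 : 4 * s * P ≤ 4 * s * X := mul_le_mul_of_nonneg_left hPX (by positivity)
  constructor <;> linarith

lemma l4 {A b m : ℝ} (hA : 1 ≤ A) (hm : 1 ≤ m) (hb : 2 * |b| ≤ m) :
    0 ≤ 2 * A * m - A + b := by
  have hb1 := neg_abs_le b
  have h1 : 1 * (2 * m - 1) ≤ A * (2 * m - 1) := mul_le_mul_of_nonneg_right hA (by linarith)
  have h2 := abs_nonneg b
  linarith

lemma l5 {A b X : ℝ} (hA : 1 ≤ A) (hX : 0 ≤ X) (hb : |b| ≤ X) :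
    A * X ^ 2 + b * X ≤ 2 * A * X ^ 2 := by
  have hb1 := le_abs_self b
  have h1 : b * X ≤ X * X := mul_le_mul_of_nonneg_right (by linarith) hX
  have h2 : 1 * X ^ 2 ≤ A * X ^ 2 := mul_le_mul_of_nonneg_right hA (sq_nonneg X)
  have h3 : X * X = X ^ 2 := by ring
  linarith

lemma l6 {A b m X : ℝ} (hA : 1 ≤ A) (hm : m ≤ X) (hX : 0 ≤ X) (hb : |b| ≤ X) :
    2 * A * m - A + b ≤ 3 * A * X := by
  have hb1 := le_abs_self b
  have h1 : A * m ≤ A * X := mul_le_mul_of_nonneg_left hm (by linarith)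
  have h2 : 1 * X ≤ A * X := mul_le_mul_of_nonneg_right hA hX
  linarith

/-- the facts used below -/
structure St (a b : ℤ) (R x x1 p : ℕ) : Prop where
  a0 : 0 < a
  a1 : (1 : ℝ) ≤ a
  p1 : 1 ≤ p
  px : (p : ℝ) ≤ x
  x1x : x1 < x
  xR : (x : ℝ) ≤ R * x1
  big : 2 * |(b : ℝ)| + 5 ≤ x1
  R1 : (1 : ℝ) ≤ R
  XX1 : (x : ℝ) ^ 2 ≤ (R : ℝ) ^ 2 * (x1 : ℝ) ^ 2
  sx : 4 ≤ √(x : ℝ)
  lx : 4 ≤ Real.log x
  Fc : ∀ n, x1 ≤ n → (Fn a b n : ℝ) = a * (n : ℝ) ^ 2 + b * n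
  Fl : ∀ n, x1 ≤ n → 2 * √(x : ℝ) * p ≤ Fn a b n ∧ (x1 : ℝ) ^ 2 / 2 ≤ Fn a b n

lemma St.of {a b : ℤ} {R x x1 p : ℕ} (ha : 0 < a) (hp : 1 ≤ p) (hpx : p ≤ x) (hx1 : x1 < x)
    (hxR : x ≤ R * x1) (hs1 : 4 * ((R : ℝ) + 1) ^ 2 ≤ √(x : ℝ)) (hlog4 : 4 ≤ Real.log x)
    (hx3 : (R + 1 : ℝ) * (2 * |(b : ℝ)| + 5) ≤ x) : St a b R x x1 p := by
  have ha1 : (1 : ℝ) ≤ a := by exact_mod_cast ha
  have hb0 := abs_nonneg (b : ℝ)
  have hXR : (x : ℝ) ≤ R * x1 := by exact_mod_cast hxR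
  have hX1X : (x1 : ℝ) < x := by exact_mod_cast hx1
  have hPX : (p : ℝ) ≤ x := by exact_mod_cast hpx
  have hX1nn : (0 : ℝ) ≤ x1 := Nat.cast_nonneg _
  have hX0 : (0 : ℝ) < x := by linarith
  have hR0 : (0 : ℝ) ≤ R := Nat.cast_nonneg _
  have hX1big : 2 * |(b : ℝ)| + 5 ≤ x1 := by
    have h1 : (R + 1 : ℝ) * (2 * |(b : ℝ)| + 5) ≤ (R + 1) * x1 := by
      have : ((R : ℝ) + 1) * x1 = R * x1 + x1 := by ring
      linarith
    exact le_of_mul_le_mul_left h1 (by positivity)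
  have hR1 : (1 : ℝ) ≤ R := by
    rcases Nat.eq_zero_or_pos R with h | h
    · exfalso
      rw [h, Nat.cast_zero, zero_mul] at hXR
      linarith
    · exact_mod_cast h
  have e : 4 * ((R : ℝ) + 1) ^ 2 = 4 * (R : ℝ) ^ 2 + (8 * R + 4) := by ring
  have hs4 : 4 * (R : ℝ) ^ 2 ≤ √(x : ℝ) := by linarith
  have hs0 : 4 ≤ √(x : ℝ) := by
    have := sq_nonneg (R : ℝ)
    linarith
  obtain ⟨k1, k2⟩ := l1 hX0 hR1 (Real.mul_self_sqrt hX0.le) hs4 hXR
  have hFc : ∀ n, x1 ≤ n → (Fn a b n : ℝ) = a * (n : ℝ) ^ 2 + b * n := by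
    intro n hn
    have hn' : (x1 : ℝ) ≤ n := by exact_mod_cast hn
    apply lsl_Fn_cast ha b
    have : |(b : ℝ)| ≤ n := by linarith
    exact_mod_cast this
  refine ⟨ha, ha1, hp, hPX, hx1, hXR, hX1big, hR1, k2, hs0, hlog4, hFc, ?_⟩
  intro n hn
  have hn' : (x1 : ℝ) ≤ n := by exact_mod_cast hn
  exact l3 ha1 hX1nn hn' (l2 ha1 (by linarith) (by linarith) (hFc n hn)) (by linarith) k1 hPX

section
variable {a b : ℤ} {R x x1 p : ℕ}

lemma St.cast (h : St a b R x x1 p) {n : ℕ} (hn : x1 ≤ n) :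
    2 * |(b : ℝ)| ≤ n ∧ (x1 : ℝ) ≤ n ∧ (5 : ℝ) ≤ n := by
  have hn' : (x1 : ℝ) ≤ n := by exact_mod_cast hn
  have := h.big
  have := abs_nonneg (b : ℝ)
  exact ⟨by linarith, hn', by linarith⟩

lemma St.p0 (h : St a b R x x1 p) : (0 : ℝ) < p := by
  have := h.p1
  exact_mod_cast this

lemma St.X0 (h : St a b R x x1 p) : (0 : ℝ) < x := lt_of_lt_of_le h.p0 h.px

lemma St.X10 (h : St a b R x x1 p) : (0 : ℝ) < x1 := by
  have := h.big
  have := abs_nonneg (b : ℝ)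
  linarith

lemma St.sF (h : St a b R x x1 p) {n : ℕ} (hn : x1 ≤ n) :
    2 * √(x : ℝ) ≤ Fn a b n / p := by
  rw [le_div_iff₀ h.p0]
  exact (h.Fl n hn).1

lemma St.F1 (h : St a b R x x1 p) {n : ℕ} (hn : x1 ≤ n) : 1 ≤ Fn a b n := by
  have h1 := h.sF hn
  have h2 := h.sx
  have h3 := h.p0
  have h4 : (0 : ℝ) < Fn a b n := by
    by_contra hcon
    have h5 : ((Fn a b n : ℕ) : ℝ) / p ≤ 0 := div_nonpos_of_nonpos_of_nonneg (not_lt.1 hcon) h3.le
    linarith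
  exact_mod_cast h4

lemma St.Fm (h : St a b R x x1 p) {m : ℕ} (hm : x1 < m) :
    (Fn a b m : ℝ) - Fn a b (m - 1) = 2 * a * m - a + b := by
  rw [h.Fc m hm.le, h.Fc (m - 1) (by omega), Nat.cast_sub (by omega)]
  push_cast; ring

lemma St.Fmono (h : St a b R x x1 p) {m : ℕ} (hm : x1 < m) : Fn a b (m - 1) ≤ Fn a b m := by
  have h1 := h.Fm hm
  obtain ⟨h2, h3, h4⟩ := h.cast hm.le
  have h5 := l4 h.a1 (by linarith) h2
  have h6 : (Fn a b (m - 1) : ℝ) ≤ Fn a b m := by linarith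
  exact_mod_cast h6

lemma St.lg (h : St a b R x x1 p) {n : ℕ} (hn : x1 ≤ n) :
    Real.log x / 2 ≤ Real.log (Fn a b n / p) ∧ 1 ≤ Real.log (Fn a b n / p) := by
  have h1 := h.sF hn
  have h2 := h.sx
  have h3 := h.lx
  have h4 : Real.log x / 2 ≤ Real.log (Fn a b n / p) := by
    rw [← Real.log_sqrt h.X0.le]
    exact Real.log_le_log (by linarith) (by linarith)
  exact ⟨h4, by linarith⟩

lemma St.RX (h : St a b R x x1 p) : 1 / ((a : ℝ) * x1) ≤ R / (a * x) := by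
  have h1 := h.X0
  have h2 := h.X10
  have h3 := h.a1
  have h4 := h.xR
  rw [div_le_div_iff₀ (by positivity) (by positivity)]
  calc 1 * ((a : ℝ) * x) = a * x := one_mul _
    _ ≤ a * (R * x1) := mul_le_mul_of_nonneg_left h4 (by linarith)
    _ = R * (a * x1) := by ring

lemma St.hwb (h : St a b R x x1 p) {n : ℕ} (hn : x1 ≤ n) : hw a (Fn a b n) ≤ R / (a * x) := by
  refine le_trans ?_ h.RX
  unfold hw
  have h1 := h.X10
  have h3 := h.a1
  apply one_div_le_one_div_of_le (by positivity)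
  obtain ⟨k1, k2, k3⟩ := h.cast hn
  have := (quot (A := a) (b := b) (m := n) (F := Fn a b n) h3 (by linarith) k1 (h.Fc n hn) rfl).1
  exact (mul_le_mul_of_nonneg_left k2 (by linarith)).trans this

/-- the weight at the squares -/
noncomputable def gg (a b : ℤ) (p n : ℕ) : ℝ := hw a (Fn a b n) / Real.log (Fn a b n / p)

lemma St.g0 (h : St a b R x x1 p) {n : ℕ} (hn : x1 ≤ n) : 0 ≤ gg a b p n :=
  div_nonneg (lsl_hw_nonneg a _) (by linarith [(h.lg hn).2])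

lemma St.ganti (h : St a b R x x1 p) {m : ℕ} (hm : x1 < m) : gg a b p m ≤ gg a b p (m - 1) := by
  have hm1 : x1 ≤ m - 1 := by omega
  have h1 : (1 : ℝ) ≤ Fn a b (m - 1) := by exact_mod_cast h.F1 hm1
  have h2 : (Fn a b (m - 1) : ℝ) ≤ Fn a b m := by exact_mod_cast h.Fmono hm
  have h3 := h.p0
  refine div_le_div₀ (lsl_hw_nonneg a _) (lsl_hw_anti h.a0 (h.F1 hm1) (h.Fmono hm))
    (by linarith [(h.lg hm1).2]) ?_
  exact Real.log_le_log (by positivity) (div_le_div_of_nonneg_right h2 h3.le)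

lemma St.gx1 (h : St a b R x x1 p) : gg a b p x1 ≤ R / (a * x) :=
  (div_le_self (lsl_hw_nonneg a _) (h.lg le_rfl).2).trans (h.hwb le_rfl)

lemma fl_bd (N : ℕ) {p : ℕ} (hp : 0 < p) :
    ((N / p : ℕ) : ℝ) ≤ N / p ∧ (N : ℝ) / p < ((N / p : ℕ) : ℝ) + 1 := by
  refine ⟨Nat.cast_div_le, ?_⟩
  have hp' : (0 : ℝ) < p := by exact_mod_cast hp
  rw [div_lt_iff₀ hp']
  have := Nat.lt_mul_div_succ N hp
  have h2 : ((N : ℕ) : ℝ) < ((p * (N / p + 1) : ℕ) : ℝ) := by exact_mod_cast this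
  rw [Nat.cast_mul, Nat.cast_add, Nat.cast_one] at h2
  rw [mul_comm]
  exact h2

lemma St.K12 (h : St a b R x x1 p) : Fn a b x1 / p ≤ Fn a b x / p := by
  have : ∀ n, x1 ≤ n → Fn a b x1 ≤ Fn a b n := by
    intro n hn
    induction n, hn using Nat.le_induction with
    | base => exact le_rfl
    | succ n hn ih =>
      have := h.Fmono (m := n + 1) (by omega)
      rw [Nat.add_sub_cancel] at this
      exact ih.trans this
  exact Nat.div_le_div_right (this x h.x1x.le)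

/-- step 1: the prime number theorem -/
lemma St.step1 {C : ℝ} {U : ℕ} (hC0 : 0 ≤ C)
    (hC : ∀ (K1 K2 : ℕ) (ℓ : ℝ) (h : ℕ → ℝ), 2 ≤ K1 → K1 ≤ K2 →
      0 < ℓ → ℓ ≤ Real.log K1 → (∀ N, K1 + 1 ≤ N → h (N + 1) ≤ h N) → (∀ N, 0 ≤ h N) →
      |∑ k ∈ Ioc K1 K2, pi0 k * h k - ∑ k ∈ Ioc K1 K2, h k / Real.log k| ≤
        2 * (C * K2 / ℓ ^ U) * h (K1 + 1)) (h : St a b R x x1 p) :
    |∑ k ∈ Ioc (Fn a b x1 / p) (Fn a b x / p), pi0 k * hw a (p * k) -
      ∑ k ∈ Ioc (Fn a b x1 / p) (Fn a b x / p), hw a (p * k) / Real.log k| ≤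
      4 * C * 2 ^ U * R * (x / (p * Real.log x ^ U)) := by
  have hp0 : 0 < p := h.p1
  have hK1s : √(x : ℝ) ≤ ((Fn a b x1 / p : ℕ) : ℝ) := by
    have h1 := (fl_bd (Fn a b x1) hp0).2
    have h2 := h.sF le_rfl
    have h3 := h.sx
    linarith
  have hsx := h.sx
  have hlx := h.lx
  have hend : hw a (p * (Fn a b x1 / p + 1)) ≤ R / (a * x) :=
    (lsl_hw_anti h.a0 (h.F1 le_rfl) (Nat.lt_mul_div_succ (Fn a b x1) hp0).le).trans (h.hwb le_rfl)
  have hFx : (Fn a b x : ℝ) ≤ 2 * a * (x : ℝ) ^ 2 := by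
    rw [h.Fc x h.x1x.le]
    obtain ⟨k1, k2, k3⟩ := h.cast h.x1x.le
    exact l5 h.a1 h.X0.le (by linarith [abs_nonneg (b : ℝ)])
  refine (hC (Fn a b x1 / p) (Fn a b x / p) (Real.log x / 2) (fun k => hw a (p * k)) ?_ h.K12
    (by linarith) ?_ (fun N hN => lsl_hw_anti h.a0
      (Nat.mul_pos hp0 (Nat.lt_of_lt_of_le (Nat.succ_pos _) hN))
      (Nat.mul_le_mul_left _ (Nat.le_succ N))) (fun N => lsl_hw_nonneg a _)).trans ?_
  · have : (2 : ℝ) ≤ ((Fn a b x1 / p : ℕ) : ℝ) := by linarith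
    exact_mod_cast this
  · rw [← Real.log_sqrt h.X0.le]
    exact Real.log_le_log (by linarith) hK1s
  · have hlX : 0 < Real.log x := by linarith
    have hP0 := h.p0
    have hX0 := h.X0
    have ha1 := h.a1
    have h1 : ((Fn a b x / p : ℕ) : ℝ) ≤ 2 * a * (x : ℝ) ^ 2 / p :=
      (fl_bd (Fn a b x) hp0).1.trans (div_le_div_of_nonneg_right hFx hP0.le)
    calc 2 * (C * ((Fn a b x / p : ℕ) : ℝ) / (Real.log x / 2) ^ U) *
          hw a (p * (Fn a b x1 / p + 1))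
        ≤ 2 * (C * (2 * a * (x : ℝ) ^ 2 / p) / (Real.log x / 2) ^ U) * (R / (a * x)) := by
          refine mul_le_mul ?_ hend (lsl_hw_nonneg a _) (by positivity)
          refine mul_le_mul_of_nonneg_left ?_ (by norm_num)
          exact div_le_div_of_nonneg_right (mul_le_mul_of_nonneg_left h1 hC0) (by positivity)
      _ = _ := by
          rw [div_pow]
          field_simp
          ring

/-- step 2: the blocks -/
lemma St.step2 (h : St a b R x x1 p) :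
    |∑ k ∈ Ioc (Fn a b x1 / p) (Fn a b x / p), hw a (p * k) / Real.log k -
      ∑ m ∈ Ioc x1 x, (((Fn a b m / p : ℕ) : ℝ) - ((Fn a b (m - 1) / p : ℕ) : ℝ)) * gg a b p m| ≤
      4 * R / p := by
  have hp0 : 0 < p := h.p1
  have hP0 := h.p0
  have hX0 := h.X0
  have ha1 := h.a1
  have hPX := h.px
  have hR1 := h.R1
  obtain ⟨-, bl1, bl2⟩ := blocks (fun n => Fn a b n / p) (fun k => hw a (p * k) / Real.log k)
    (gg a b p) ((3 * a + 1) * x / p) x1 x h.x1x.le (by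
      intro m hm1 hm2
      have hm3 : x1 ≤ m - 1 := by omega
      refine ⟨Nat.div_le_div_right (h.Fmono hm1), ?_, h.ganti hm1, ?_⟩
      · have hmX : (m : ℝ) ≤ x := by exact_mod_cast hm2
        obtain ⟨k1, k2, k3⟩ := h.cast h.x1x.le
        have h1 := (fl_bd (Fn a b m) hp0).1
        have h2 := (fl_bd (Fn a b (m - 1)) hp0).2
        have h3 : (Fn a b m : ℝ) / p - Fn a b (m - 1) / p ≤ 3 * a * x / p := by
          rw [← sub_div, h.Fm hm1]
          exact div_le_div_of_nonneg_right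
            (l6 ha1 hmX hX0.le (by linarith [abs_nonneg (b : ℝ)])) hP0.le
        have h4 : 1 ≤ (x : ℝ) / p := by rw [one_le_div hP0]; exact hPX
        have h5 : (3 * a + 1) * (x : ℝ) / p = 3 * a * x / p + x / p := by ring
        rw [h5]
        linarith
      · intro k hk
        rw [mem_Ioc] at hk
        have q1 := (Nat.div_lt_iff_lt_mul hp0).1 hk.1
        have q2 := (Nat.le_div_iff_mul_le hp0).1 hk.2
        rw [mul_comm] at q1 q2
        have q1r : (Fn a b (m - 1) : ℝ) ≤ p * k := by exact_mod_cast q1.le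
        have q2r : (p : ℝ) * k ≤ (Fn a b m : ℝ) := by exact_mod_cast q2
        have hk1 : (Fn a b (m - 1) : ℝ) / p ≤ k := by
          rw [div_le_iff₀ hP0, mul_comm]; exact q1r
        have hk2 : (k : ℝ) ≤ Fn a b m / p := by
          rw [le_div_iff₀ hP0, mul_comm]; exact q2r
        have h1 : (1 : ℝ) ≤ Fn a b (m - 1) := by exact_mod_cast h.F1 hm3
        have h1' : 0 < (Fn a b (m - 1) : ℝ) / p := by positivity
        have hl := (h.lg hm3).2
        have hlk : Real.log (Fn a b (m - 1) / p) ≤ Real.log k := Real.log_le_log h1' hk1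
        have hlk2 : Real.log k ≤ Real.log (Fn a b m / p) := Real.log_le_log (by linarith) hk2
        constructor
        · exact div_le_div₀ (lsl_hw_nonneg a _)
            (lsl_hw_anti h.a0 (le_trans (h.F1 hm3) q1.le) q2) (by linarith) hlk2
        · exact div_le_div₀ (lsl_hw_nonneg a _)
            (lsl_hw_anti h.a0 (h.F1 hm3) q1.le) (by linarith) hlk)
  rw [abs_of_nonneg bl1]
  refine bl2.trans ?_
  have hW0 : 0 ≤ (3 * a + 1) * (x : ℝ) / p := by positivity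
  have h3 : gg a b p x1 - gg a b p x ≤ R / (a * x) := by
    linarith [h.g0 h.x1x.le, h.gx1]
  calc (3 * a + 1) * (x : ℝ) / p * (gg a b p x1 - gg a b p x)
      ≤ (3 * a + 1) * x / p * (R / (a * x)) := mul_le_mul_of_nonneg_left h3 hW0
    _ = (3 * a + 1) / a * (R / p) := by field_simp
    _ ≤ 4 * (R / p) := by
        apply mul_le_mul_of_nonneg_right _ (by positivity)
        rw [div_le_iff₀ (by linarith)]
        linarith
    _ = 4 * R / p := by ring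

/-- step 3: the end points without the integral part -/
lemma St.step3 (h : St a b R x x1 p) :
    |∑ m ∈ Ioc x1 x, (((Fn a b m / p : ℕ) : ℝ) - ((Fn a b (m - 1) / p : ℕ) : ℝ)) * gg a b p m -
      ∑ m ∈ Ioc x1 x, ((Fn a b m : ℝ) - Fn a b (m - 1)) / p * gg a b p m| ≤ 2 * R / p := by
  have hp0 : 0 < p := h.p1
  have hP0 := h.p0
  have hX0 := h.X0
  have ha1 := h.a1
  have hPX := h.px
  have hR1 := h.R1
  have h1 := abel' (fun n => ((Fn a b n / p : ℕ) : ℝ) - Fn a b n / p) (gg a b p) 1 x1 x h.x1x.le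
    (fun n _ _ => by
      obtain ⟨k1, k2⟩ := fl_bd (Fn a b n) hp0
      rw [abs_le]
      constructor <;> linarith)
    (fun n h1 h2 => by
      have := h.ganti (m := n + 1) (by omega)
      rwa [Nat.add_sub_cancel] at this) (fun n h1 _ => h.g0 h1)
  rw [← sum_sub_distrib]
  have e : ∑ m ∈ Ioc x1 x, ((((Fn a b m / p : ℕ) : ℝ) - ((Fn a b (m - 1) / p : ℕ) : ℝ)) *
      gg a b p m - ((Fn a b m : ℝ) - Fn a b (m - 1)) / p * gg a b p m) =
      ∑ n ∈ Ioc x1 x, ((((Fn a b n / p : ℕ) : ℝ) - Fn a b n / p) -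
        (((Fn a b (n - 1) / p : ℕ) : ℝ) - Fn a b (n - 1) / p)) * gg a b p n := by
    apply sum_congr rfl
    intro n _
    ring
  rw [e]
  refine h1.trans ?_
  have h2 := h.gx1
  calc 2 * 1 * gg a b p x1 ≤ 2 * (R / (a * x)) := by linarith
    _ ≤ 2 * (R / p) := by
        apply mul_le_mul_of_nonneg_left _ (by norm_num)
        apply div_le_div_of_nonneg_left (by linarith) hP0
        calc (p : ℝ) ≤ x := hPX
          _ = 1 * x := (one_mul _).symm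
          _ ≤ a * x := mul_le_mul_of_nonneg_right ha1 hX0.le
    _ = 2 * R / p := by ring

lemma term_aux {v q P L L' E1 E2 : ℝ} (hq : 0 < q) (hP : 0 < P) (hL : 1 ≤ L) (hLL : L ≤ L')
    (k1 : |v / q - 1| ≤ E1) (k2 : L' - L ≤ E2) :
    |v / P * (1 / q / L) - 1 / (P * L')| ≤ (E1 + E2) / P := by
  have hL0 : 0 < L := by linarith
  have hL'0 : 0 < L' := by linarith
  have e1 : v / P * (1 / q / L) - 1 / (P * L') =
      ((v / q - 1) / L + (1 / L - 1 / L')) / P := by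
    field_simp
    ring
  rw [e1, abs_div, abs_of_pos hP]
  apply div_le_div_of_nonneg_right _ hP.le
  have k3 : |(v / q - 1) / L| ≤ E1 := by
    rw [abs_div, abs_of_pos hL0]
    exact (div_le_self (abs_nonneg _) hL).trans k1
  have k4 : |1 / L - 1 / L'| ≤ E2 := by
    have e2 : 1 / L - 1 / L' = (L' - L) / (L * L') := by
      field_simp
    have h5 : 1 ≤ L * L' := by nlinarith
    rw [e2, abs_of_nonneg (div_nonneg (by linarith) (by linarith))]
    exact (div_le_self (by linarith) h5).trans k2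
  have k5 := abs_add_le ((v / q - 1) / L) (1 / L - 1 / L')
  linarith

/-- step 4: term by term -/
lemma St.step4 (h : St a b R x x1 p) {c : ℕ} (hcx : c ≤ x) :
    |∑ m ∈ Ioc x1 x, ((Fn a b m : ℝ) - Fn a b (m - 1)) / p * gg a b p m -
      ∑ m ∈ Ioc x1 x, 1 / ((p : ℝ) * Real.log (((a : ℝ) * m ^ 2 + b * m + c) / p))| ≤
      ((1 + (b : ℝ) ^ 2) * R + 2 * (R : ℝ) ^ 2) / p := by
  have hP0 := h.p0
  have hX0 := h.X0
  have ha1 := h.a1
  have hR1 := h.R1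
  have hcX : (c : ℝ) ≤ x := by exact_mod_cast hcx
  have hc0 : (0 : ℝ) ≤ c := Nat.cast_nonneg c
  rw [← sum_sub_distrib]
  have hterm : ∀ m ∈ Ioc x1 x, |((Fn a b m : ℝ) - Fn a b (m - 1)) / p * gg a b p m -
      1 / ((p : ℝ) * Real.log (((a : ℝ) * m ^ 2 + b * m + c) / p))| ≤
      ((1 + (b : ℝ) ^ 2) * R / x + 2 * (R : ℝ) ^ 2 / x) / p := by
    intro m hm
    rw [mem_Ioc] at hm
    obtain ⟨h1, h2, h3⟩ := h.cast hm.1.le
    obtain ⟨qu1, qu2⟩ := quot (A := a) (b := b) (m := m) (F := Fn a b m) ha1 (by linarith) h1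
      (h.Fc m hm.1.le) rfl
    rw [← h.Fc m hm.1.le, h.Fm hm.1, gg]
    have hFm0 : 0 < (Fn a b m : ℝ) := by
      have := h.F1 hm.1.le
      exact_mod_cast this
    have hm0 : (0 : ℝ) < m := by linarith
    have ham : 0 < (a : ℝ) * m := by positivity
    simp only [hw]
    refine term_aux (lt_of_lt_of_le ham qu1) hP0 (h.lg hm.1.le).2 ?_ (qu2.trans ?_) ?_
    · apply Real.log_le_log (by positivity)
      exact div_le_div_of_nonneg_right (by linarith) hP0.le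
    · rw [div_le_div_iff₀ hm0 hX0]
      have h5 : (x : ℝ) ≤ R * m := h.xR.trans (mul_le_mul_of_nonneg_left h2 (by linarith))
      calc (1 + (b : ℝ) ^ 2) * x ≤ (1 + (b : ℝ) ^ 2) * (R * m) :=
            mul_le_mul_of_nonneg_left h5 (by positivity)
        _ = (1 + (b : ℝ) ^ 2) * R * m := by ring
    · rw [← Real.log_div (by positivity) (by positivity)]
      have e : ((Fn a b m : ℝ) + c) / p / (Fn a b m / p) = 1 + c / Fn a b m := by field_simp
      rw [e]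
      have h6 := Real.log_le_sub_one_of_pos (show 0 < 1 + (c : ℝ) / Fn a b m by positivity)
      have h7 : (c : ℝ) / Fn a b m ≤ 2 * (R : ℝ) ^ 2 / x := by
        rw [div_le_div_iff₀ hFm0 hX0]
        have h8 : (x1 : ℝ) ^ 2 / 2 ≤ Fn a b m := (h.Fl m hm.1.le).2
        calc (c : ℝ) * x ≤ x * x := mul_le_mul_of_nonneg_right hcX hX0.le
          _ = (x : ℝ) ^ 2 := by ring
          _ ≤ (R : ℝ) ^ 2 * (x1 : ℝ) ^ 2 := h.XX1
          _ = 2 * (R : ℝ) ^ 2 * ((x1 : ℝ) ^ 2 / 2) := by ring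
          _ ≤ 2 * (R : ℝ) ^ 2 * Fn a b m := mul_le_mul_of_nonneg_left h8 (by positivity)
      linarith
  refine (abs_sum_le_sum_abs _ _).trans ((sum_le_sum hterm).trans ?_)
  rw [sum_const, nsmul_eq_mul, Nat.card_Ioc, Nat.cast_sub h.x1x.le]
  have hx1 := h.X10
  calc ((x : ℝ) - x1) * (((1 + (b : ℝ) ^ 2) * R / x + 2 * (R : ℝ) ^ 2 / x) / p)
      ≤ x * (((1 + (b : ℝ) ^ 2) * R / x + 2 * (R : ℝ) ^ 2 / x) / p) :=
        mul_le_mul_of_nonneg_right (by linarith) (by positivity)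
    _ = ((1 + (b : ℝ) ^ 2) * R + 2 * (R : ℝ) ^ 2) / p := by field_simp

end

lemma tri4 {A B C D E e1 e2 e3 e4 : ℝ} (h1 : |A - B| ≤ e1) (h2 : |B - C| ≤ e2)
    (h3 : |C - D| ≤ e3) (h4 : |D - E| ≤ e4) : |A - E| ≤ e1 + (e2 + e3 + e4) := by
  rw [abs_le] at h1 h2 h3 h4 ⊢
  constructor
  · linarith [h1.1, h2.1, h3.1, h4.1]
  · linarith [h1.2, h2.2, h3.2, h4.2]

/-- one prime -/
lemma per_p (a : ℤ) (ha : 0 < a) (b : ℤ) (R U : ℕ) : ∃ C1 C2 : ℝ, 0 ≤ C1 ∧ 0 ≤ C2 ∧ ∃ x0 : ℕ,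
    ∀ x : ℕ, x0 ≤ x → ∀ x1 c p : ℕ, x1 < x → x ≤ R * x1 → c ≤ x → 1 ≤ p → p ≤ x →
    |∑ k ∈ Ioc (Fn a b x1 / p) (Fn a b x / p), pi0 k * hw a (p * k) -
      ∑ m ∈ Ioc x1 x, 1 / ((p : ℝ) * Real.log (((a : ℝ) * m ^ 2 + b * m + c) / p))| ≤
      C1 * (x / (p * Real.log x ^ U)) + C2 / p := by
  obtain ⟨C, hC0, hC⟩ := prime_sum U
  obtain ⟨n1, hn1⟩ := evN _ (ev_pow 0 (4 * (R + 1) ^ 2) (1 / 2) (by norm_num))
  obtain ⟨n2, hn2⟩ := evN _ (Real.tendsto_log_atTop.eventually_ge_atTop 4)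
  obtain ⟨n3, hn3⟩ := exists_nat_ge ((R + 1 : ℝ) * (2 * |(b : ℝ)| + 5))
  refine ⟨4 * C * 2 ^ U * R, 4 * R + 2 * R + ((1 + (b : ℝ) ^ 2) * R + 2 * (R : ℝ) ^ 2),
    by positivity, by positivity, max n1 (max n2 n3), ?_⟩
  intro x hx x1 c p hx1 hxR hcx hp hpx
  have hs1 := hn1 x (le_trans (le_max_left _ _) hx)
  have hlog4 := hn2 x (le_trans (le_trans (le_max_left _ _) (le_max_right _ _)) hx)
  have hx3 : n3 ≤ x := le_trans (le_trans (le_max_right _ _) (le_max_right _ _)) hx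
  rw [pow_zero, mul_one, ← Real.sqrt_eq_rpow] at hs1
  have hx3' : (n3 : ℝ) ≤ x := by exact_mod_cast hx3
  have h : St a b R x x1 p := St.of ha hp hpx hx1 hxR hs1 hlog4 (hn3.trans hx3')
  have h1 := h.step1 hC0 hC
  have h2 := h.step2
  have h3 := h.step3
  have h4 := h.step4 hcx
  have h6 : (4 * R + 2 * R + ((1 + (b : ℝ) ^ 2) * R + 2 * (R : ℝ) ^ 2)) / p =
      4 * R / p + 2 * R / p + ((1 + (b : ℝ) ^ 2) * R + 2 * (R : ℝ) ^ 2) / p := by ring
  rw [h6]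
  exact tri4 h1 h2 h3 h4

/-- the sum of `1 / p` -/
lemma sum_inv (y1 y2 x : ℕ) (h : y2 ≤ x) :
    ∑ p ∈ (Ioc y1 y2).filter Nat.Prime, (1 : ℝ) / p ≤ 1 + Real.log x := by
  have h1 : ∑ p ∈ (Ioc y1 y2).filter Nat.Prime, (1 : ℝ) / p ≤ ∑ n ∈ Icc 1 x, (1 : ℝ) / n := by
    apply sum_le_sum_of_subset_of_nonneg
    · intro p hp
      rw [mem_filter, mem_Ioc] at hp
      rw [mem_Icc]
      omega
    · intro n _ _
      positivity
  refine h1.trans ?_
  have h2 := harmonic_le_one_add_log x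
  have h3 : (harmonic x : ℝ) = ∑ n ∈ Icc 1 x, (1 : ℝ) / n := by
    rw [harmonic_eq_sum_Icc]
    push_cast
    simp [one_div]
  rw [← h3]
  exact h2

end QS2

open Finset QS2 in
theorem s2 (a : ℤ) (ha : 0 < a) (b : ℤ) : S2 a b := by
  intro R A
  obtain ⟨C1, C2, hC1, hC2, n0, h⟩ := per_p a ha b R (A + 2)
  obtain ⟨n1, hn1⟩ := evN _ (ev_pow (A + 1) (4 * C2) 1 one_pos)
  obtain ⟨n2, hn2⟩ := evN _ (Real.tendsto_log_atTop.eventually_ge_atTop (max 1 (4 * C1)))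
  refine ⟨max n0 (max n1 n2), ?_⟩
  intro x hx x1 c y1 y2 hx1 hxR hcx hy1 hy12 hy2
  have hx0 : n0 ≤ x := le_trans (le_max_left _ _) hx
  have hs1 := hn1 x (le_trans (le_trans (le_max_left _ _) (le_max_right _ _)) hx)
  have hlog := hn2 x (le_trans (le_trans (le_max_right _ _) (le_max_right _ _)) hx)
  have hlog1 : 1 ≤ Real.log x := (le_max_left _ _).trans hlog
  have hlogC : 4 * C1 ≤ Real.log x := (le_max_right _ _).trans hlog
  rw [Real.rpow_one] at hs1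
  have hxn : 1 ≤ x := by omega
  have hX0 : (0 : ℝ) < x := by exact_mod_cast hxn
  rw [ls_eq, sum_comm (s := Ioc x1 x), ← sum_sub_distrib]
  have hterm : ∀ p ∈ (Ioc y1 y2).filter Nat.Prime,
      |∑ k ∈ Ioc (Fn a b x1 / p) (Fn a b x / p), pi0 k * hw a (p * k) -
        ∑ m ∈ Ioc x1 x, 1 / ((p : ℝ) * Real.log (((a : ℝ) * m ^ 2 + b * m + c) / p))| ≤
      (C1 * (x / Real.log x ^ (A + 2)) + C2) * (1 / p) := by
    intro p hp
    rw [mem_filter, mem_Ioc] at hp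
    have hp0 : (0 : ℝ) < p := by exact_mod_cast hp.2.pos
    refine (h x hx0 x1 c p hx1 hxR hcx hp.2.pos (hp.1.2.trans hy2)).trans (le_of_eq ?_)
    field_simp
  refine (abs_sum_le_sum_abs _ _).trans ((sum_le_sum hterm).trans ?_)
  rw [← mul_sum]
  have h1 := sum_inv y1 y2 x hy2
  obtain ⟨L, hL⟩ : ∃ L : ℝ, L = Real.log x := ⟨_, rfl⟩
  rw [← hL] at hs1 hlog1 hlogC h1 ⊢
  have hL0 : 0 < L := by linarith
  calc (C1 * (x / L ^ (A + 2)) + C2) * ∑ p ∈ (Ioc y1 y2).filter Nat.Prime, (1 : ℝ) / p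
      ≤ (C1 * (x / L ^ (A + 2)) + C2) * (2 * L) :=
        mul_le_mul_of_nonneg_left (by linarith) (by positivity)
    _ = (2 * C1 / L) * (x / L ^ A) + (2 * C2 * L ^ (A + 1)) / L ^ A := by
        rw [pow_add L A 2, pow_succ L A]
        field_simp
    _ ≤ (1 / 2) * (x / L ^ A) + (1 / 2) * (x / L ^ A) := by
        have k1 : 2 * C1 / L ≤ 1 / 2 := by rw [div_le_iff₀ hL0]; linarith
        have k2 : (2 * C2 * L ^ (A + 1)) / L ^ A ≤ (1 / 2) * (x / L ^ A) := by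
          rw [← mul_div_assoc]
          apply div_le_div_of_nonneg_right _ (by positivity)
          linarith
        have k3 : (2 * C1 / L) * (x / L ^ A) ≤ (1 / 2) * (x / L ^ A) :=
          mul_le_mul_of_nonneg_right k1 (by positivity)
        linarith
    _ = x / L ^ A := by ring

end Pool.Agent.N792
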