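import Pool.Agent.N792.RStm
import Pool.Agent.N792.QS2
import Pool.Agent.Helper923.HMertens

/-!
X4: the weighted number of the products of three primes in `(x^(2/5), x^(4/5 + δ)]` is at most `1 / 16` of
`(x2 - x1) / log x` (helper13, for helper792).
-/

set_option autoImplicit false

namespace Pool.Agent.N792
namespace RX4

open Finset Filter Topology
open QS2 (evN prime_sum)

/-- the primes in `(x ^ u, x ^ v]` -/
noncomputable def Pp (x : ℕ) (u v : ℝ) : Finset ℕ := (Ioc ⌊(x : ℝ) ^ u⌋₊ ⌊(x : ℝ) ^ v⌋₊).filter Nat.Prime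

lemma mem_Pp {x : ℕ} {u v : ℝ} {p : ℕ} (hx : 1 ≤ x) (hp : p.Prime) (h1 : u * Real.log x < Real.log p)
    (h2 : Real.log p ≤ v * Real.log x) : p ∈ Pp x u v := by
  have hx0 : (0 : ℝ) < x := by exact_mod_cast hx
  have hp0 : (0 : ℝ) < p := by exact_mod_cast hp.pos
  unfold Pp
  rw [mem_filter, mem_Ioc]
  refine ⟨⟨?_, ?_⟩, hp⟩
  · rw [Nat.floor_lt (Real.rpow_nonneg hx0.le _), ← Real.log_lt_log_iff (Real.rpow_pos_of_pos hx0 _) hp0,
      Real.log_rpow hx0]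
    exact h1
  · rw [Nat.le_floor_iff (Real.rpow_nonneg hx0.le _), ← Real.log_le_log_iff hp0 (Real.rpow_pos_of_pos hx0 _),
      Real.log_rpow hx0]
    exact h2

/-- Mertens -/
lemma mert (u v ε : ℝ) (hu : 0 < u) (huv : u ≤ v) (hε : 0 < ε) : ∀ᶠ x : ℕ in atTop,
    ∑ p ∈ Pp x u v, (1 : ℝ) / p ≤ v / u - 1 + ε := by
  obtain ⟨C, hC0, hC⟩ := Pool.Agent.Helper923.HMertens.mertens_ratio
  have hl : Tendsto (fun x : ℕ => Real.log x) atTop atTop :=
    Real.tendsto_log_atTop.comp tendsto_natCast_atTop_atTop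
  have hl2 : 0 < Real.log 2 := Real.log_pos (by norm_num)
  have hl2' : Real.log 2 ≤ 1 := by linarith [Real.log_two_lt_d9]
  have hv : 0 < v := hu.trans_le huv
  filter_upwards [hl.eventually_ge_atTop (2 * (v / u + ε / 2) / (ε * u)), hl.eventually_ge_atTop ((2 * C / ε + 1) / u),
    hl.eventually_ge_atTop (2 / u), eventually_ge_atTop 1] with x h1 h2 h3 hx
  have hx0 : (0 : ℝ) < x := by exact_mod_cast hx
  obtain ⟨L, hL⟩ : ∃ L : ℝ, L = Real.log x := ⟨_, rfl⟩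
  rw [← hL] at h1 h2 h3
  rw [div_le_iff₀ (by positivity)] at h1 h2 h3
  have hL0 : 0 < L := by
    by_contra hcon
    push Not at hcon
    nlinarith
  -- the end points
  have e1 : (4 : ℝ) ≤ (x : ℝ) ^ u := by
    rw [← Real.log_le_log_iff (by norm_num) (Real.rpow_pos_of_pos hx0 _), Real.log_rpow hx0, ← hL]
    have : Real.log 4 = 2 * Real.log 2 := by
      rw [show (4 : ℝ) = 2 ^ 2 by norm_num, Real.log_pow]; norm_num
    rw [this]
    linarith
  have e2 : (x : ℝ) ^ u / 2 ≤ (⌊(x : ℝ) ^ u⌋₊ : ℝ) := by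
    have := Nat.lt_floor_add_one ((x : ℝ) ^ u)
    linarith
  have e3 : (⌊(x : ℝ) ^ v⌋₊ : ℝ) ≤ (x : ℝ) ^ v := Nat.floor_le (Real.rpow_nonneg hx0.le _)
  have e4 : (2 : ℝ) ≤ (⌊(x : ℝ) ^ u⌋₊ : ℝ) := by linarith
  have e5 : ⌊(x : ℝ) ^ u⌋₊ ≤ ⌊(x : ℝ) ^ v⌋₊ :=
    Nat.floor_le_floor (Real.rpow_le_rpow_of_exponent_le (by exact_mod_cast hx) huv)
  have e4' : 2 ≤ ⌊(x : ℝ) ^ u⌋₊ := by exact_mod_cast e4
  have e6 : (2 : ℝ) ≤ (⌊(x : ℝ) ^ v⌋₊ : ℝ) := by exact_mod_cast e4'.trans e5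
  have l1 : u * L - Real.log 2 ≤ Real.log (⌊(x : ℝ) ^ u⌋₊ : ℝ) := by
    have := Real.log_le_log (by positivity) e2
    rwa [Real.log_div (by positivity) (by norm_num), Real.log_rpow hx0, ← hL] at this
  have l2 : Real.log (⌊(x : ℝ) ^ v⌋₊ : ℝ) ≤ v * L := by
    have := Real.log_le_log (by linarith) e3
    rwa [Real.log_rpow hx0, ← hL] at this
  obtain ⟨A, hA⟩ : ∃ A : ℝ, A = Real.log (⌊(x : ℝ) ^ u⌋₊ : ℝ) := ⟨_, rfl⟩
  obtain ⟨B, hB⟩ : ∃ B : ℝ, B = Real.log (⌊(x : ℝ) ^ v⌋₊ : ℝ) := ⟨_, rfl⟩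
  have key := hC _ _ e4' e5
  rw [← hA] at l1 key
  rw [← hB] at l2 key
  have hB0 : 0 < B := by rw [hB]; exact Real.log_pos (by linarith)
  have hA0 : 0 < A := by nlinarith
  have k1 := (abs_le.1 key).2
  have k2 : Real.log (B / A) ≤ B / A - 1 := Real.log_le_sub_one_of_pos (by positivity)
  have k3 : B / A ≤ v / u + ε / 2 := by
    rw [div_le_iff₀ hA0]
    have hvu : 0 < v / u + ε / 2 := by positivity
    have h4 : (v / u + ε / 2) * (u * L - Real.log 2) ≤ (v / u + ε / 2) * A :=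
      mul_le_mul_of_nonneg_left l1 hvu.le
    have h5 : (v / u + ε / 2) * (u * L - Real.log 2) = v * L + ε / 2 * u * L - (v / u + ε / 2) * Real.log 2 := by
      field_simp
    have h6 : (v / u + ε / 2) * Real.log 2 ≤ (v / u + ε / 2) * 1 := mul_le_mul_of_nonneg_left hl2' hvu.le
    nlinarith
  have k4 : C / A ≤ ε / 2 := by
    rw [div_le_iff₀ hA0]
    have h7 : 2 * C / ε ≤ A := by nlinarith
    rw [div_le_iff₀ hε] at h7
    linarith
  unfold Pp
  linarith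

/-! ### the grid -/

/-- the grid -/
noncomputable def sg (j : ℕ) : ℝ := 2 / 5 + j / 150

/-- the lower end for `q` -/
noncomputable def al (j : ℕ) : ℝ := if j < 30 then 6 / 5 - sg (j + 1) else sg j

/-- the constant -/
noncomputable def cj (j : ℕ) : ℝ := (sg (j + 1) / sg j - 1 + 1 / 10 ^ 5) *
  ((1 - sg j / 2 + 1 / 2000) / (al j - 1 / 2000) - 1 + 1 / 10 ^ 5) / (1 - sg (j + 1) / 2 - 1 / 2000)

lemma sum_cj : ∑ j ∈ range 41, cj j ≤ 3 / 50 := by
  simp only [Finset.sum_range_succ, Finset.sum_range_zero, cj, al, sg]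
  norm_num

/-- the upper ends are above the lower ends -/
lemma al_pos (j : ℕ) (hj : j < 41) : 0 < al j - 1 / 2000 ∧ al j - 1 / 2000 ≤ 1 - sg j / 2 + 1 / 2000 ∧
    0 < 1 - sg (j + 1) / 2 - 1 / 2000 := by
  have hj' : (j : ℝ) ≤ 40 := by exact_mod_cast (by omega : j ≤ 40)
  have hj0 : (0 : ℝ) ≤ j := Nat.cast_nonneg _
  unfold al sg
  split_ifs with h
  · have h' : (j : ℝ) ≤ 29 := by exact_mod_cast (by omega : j ≤ 29)
    push_cast
    refine ⟨by linarith, by linarith, by linarith⟩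
  · have h' : (30 : ℝ) ≤ j := by exact_mod_cast (by omega : 30 ≤ j)
    push_cast
    refine ⟨by linarith, by linarith, by linarith⟩

lemma sg_pos (j : ℕ) : 0 < sg j ∧ sg j ≤ sg (j + 1) := by
  have hj0 : (0 : ℝ) ≤ j := Nat.cast_nonneg _
  unfold sg
  push_cast
  constructor <;> linarith

/-- the pairs of the two smaller primes -/
def SS (Q V F1 F2 : ℕ) : Finset (ℕ × ℕ) := ((Icc 1 F2) ×ˢ (Icc 1 F2)).filter (fun t =>
  t.1.Prime ∧ t.2.Prime ∧ Q < t.1 ∧ t.1 < t.2 ∧ F1 < t.1 * t.2 * V ∧ t.1 * t.2 * t.2 < F2)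

/-- the facts about the logarithms for a pair -/
lemma pair_log {Q V F1 F2 x : ℕ} {t : ℕ × ℕ} (ht : t ∈ SS Q V F1 F2) (hx : 1 ≤ x) (hF1 : 1 ≤ F1)
    (hQ : (x : ℝ) ^ (2 / 5 : ℝ) ≤ Q) (hV : (V : ℝ) ≤ (x : ℝ) ^ (4 / 5 + 1 / 4000 : ℝ)) :
    2 / 5 * Real.log x < Real.log t.1 ∧ Real.log t.1 < Real.log t.2 ∧
    Real.log F1 < Real.log t.1 + Real.log t.2 + (4 / 5 + 1 / 4000) * Real.log x ∧
    Real.log t.1 + 2 * Real.log t.2 < Real.log F2 := by
  unfold SS at ht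
  rw [mem_filter] at ht
  obtain ⟨-, hp, hq, h1, h2, h3, h4⟩ := ht
  have hx0 : (0 : ℝ) < x := by exact_mod_cast hx
  have hp0 : (0 : ℝ) < t.1 := by exact_mod_cast hp.pos
  have hq0 : (0 : ℝ) < t.2 := by exact_mod_cast hq.pos
  have hF10 : (0 : ℝ) < F1 := by exact_mod_cast hF1
  have hV0 : 0 < V := by
    rcases Nat.eq_zero_or_pos V with h | h
    · rw [h] at h3; simp at h3
    · exact h
  have hV0' : (0 : ℝ) < V := by exact_mod_cast hV0
  refine ⟨?_, ?_, ?_, ?_⟩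
  · rw [← Real.log_rpow hx0]
    refine Real.log_lt_log (Real.rpow_pos_of_pos hx0 _) (lt_of_le_of_lt hQ ?_)
    exact_mod_cast h1
  · refine Real.log_lt_log hp0 ?_
    exact_mod_cast h2
  · have h5 : Real.log V ≤ (4 / 5 + 1 / 4000) * Real.log x := by
      rw [← Real.log_rpow hx0]
      exact Real.log_le_log hV0' hV
    have h6 : Real.log F1 < Real.log ((t.1 : ℝ) * t.2 * V) := by
      refine Real.log_lt_log hF10 ?_
      exact_mod_cast h3
    rw [Real.log_mul (by positivity) (by positivity), Real.log_mul (by positivity) (by positivity)] at h6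
    linarith
  · have h6 : Real.log ((t.1 : ℝ) * t.2 * t.2) < Real.log F2 := by
      refine Real.log_lt_log (by positivity) ?_
      exact_mod_cast h4
    rw [Real.log_mul (by positivity) (by positivity), Real.log_mul (by positivity) (by positivity)] at h6
    linarith

/-- the pairs are covered by the rectangles -/
lemma cover {Q V F1 F2 x : ℕ} {t : ℕ × ℕ} (ht : t ∈ SS Q V F1 F2) (hx : 1 ≤ x) (hF1 : 1 ≤ F1)
    (hQ : (x : ℝ) ^ (2 / 5 : ℝ) ≤ Q) (hV : (V : ℝ) ≤ (x : ℝ) ^ (4 / 5 + 1 / 4000 : ℝ))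
    (hf1 : 2 * Real.log x - 1 / 10000 * Real.log x ≤ Real.log F1)
    (hf2 : Real.log F2 ≤ 2 * Real.log x + 1 / 10000 * Real.log x) :
    ∃ j ∈ range 41, t.1 ∈ Pp x (sg j) (sg (j + 1)) ∧ t.2 ∈ Pp x (al j - 1 / 2000) (1 - sg j / 2 + 1 / 2000) ∧
      (1 - sg (j + 1) / 2 - 1 / 2000) * Real.log x ≤ Real.log (F1 / (t.1 * t.2 : ℕ)) := by
  obtain ⟨h1, h2, h3, h4⟩ := pair_log ht hx hF1 hQ hV
  have ht' := ht
  unfold SS at ht'
  rw [mem_filter] at ht'
  obtain ⟨-, hp, hq, -⟩ := ht'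
  have hp0 : (0 : ℝ) < t.1 := by exact_mod_cast hp.pos
  have hq0 : (0 : ℝ) < t.2 := by exact_mod_cast hq.pos
  have hF10 : (0 : ℝ) < F1 := by exact_mod_cast hF1
  have hex : ∃ j : ℕ, Real.log t.1 ≤ sg (j + 1) * Real.log x := by
    refine ⟨40, ?_⟩
    unfold sg
    push_cast
    linarith
  classical
  obtain ⟨j, hj, hmin⟩ : ∃ j : ℕ, Real.log t.1 ≤ sg (j + 1) * Real.log x ∧ ∀ i < j, ¬ Real.log t.1 ≤ sg (i + 1) * Real.log x :=
    ⟨Nat.find hex, Nat.find_spec hex, fun i hi => Nat.find_min hex hi⟩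
  have hj41 : j < 41 := by
    by_contra hcon
    push Not at hcon
    apply hmin 40 (by omega)
    unfold sg
    push_cast
    linarith
  have hlow : sg j * Real.log x < Real.log t.1 := by
    rcases Nat.eq_zero_or_pos j with h | h
    · rw [h]
      unfold sg
      simpa using h1
    · have := hmin (j - 1) (by omega)
      rw [Nat.sub_add_cancel (by omega)] at this
      exact not_le.1 this
  have hs1 : sg (j + 1) = sg j + 1 / 150 := by unfold sg; push_cast; ring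
  refine ⟨j, mem_range.2 hj41, mem_Pp hx hp hlow hj, mem_Pp hx hq ?_ ?_, ?_⟩
  · unfold al
    split_ifs with h
    · rw [hs1] at hj ⊢
      linarith
    · linarith
  · linarith
  · rw [Nat.cast_mul, Real.log_div (by positivity) (by positivity), Real.log_mul (by positivity) (by positivity)]
    rw [hs1] at hj ⊢
    linarith

/-- the sum over the pairs -/
lemma sum_pairs : ∀ᶠ x : ℕ in atTop, ∀ Q V F1 F2 : ℕ, 1 ≤ F1 → (x : ℝ) ^ (2 / 5 : ℝ) ≤ Q →
    (V : ℝ) ≤ (x : ℝ) ^ (4 / 5 + 1 / 4000 : ℝ) → 2 * Real.log x - 1 / 10000 * Real.log x ≤ Real.log F1 →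
    Real.log F2 ≤ 2 * Real.log x + 1 / 10000 * Real.log x →
    ∑ t ∈ SS Q V F1 F2, 1 / (((t.1 * t.2 : ℕ) : ℝ) * Real.log (F1 / (t.1 * t.2 : ℕ))) ≤ 3 / 50 / Real.log x := by
  classical
  have hP : ∀ᶠ x : ℕ in atTop, ∀ j ∈ range 41,
      ∑ p ∈ Pp x (sg j) (sg (j + 1)), (1 : ℝ) / p ≤ sg (j + 1) / sg j - 1 + 1 / 10 ^ 5 :=
    (eventually_all_finset _).2 fun j _ => mert _ _ _ (sg_pos j).1 (sg_pos j).2 (by norm_num)
  have hQ' : ∀ᶠ x : ℕ in atTop, ∀ j ∈ range 41,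
      ∑ p ∈ Pp x (al j - 1 / 2000) (1 - sg j / 2 + 1 / 2000), (1 : ℝ) / p ≤
        (1 - sg j / 2 + 1 / 2000) / (al j - 1 / 2000) - 1 + 1 / 10 ^ 5 :=
    (eventually_all_finset _).2 fun j hj => mert _ _ _ (al_pos j (mem_range.1 hj)).1
      (al_pos j (mem_range.1 hj)).2.1 (by norm_num)
  filter_upwards [hP, hQ', eventually_ge_atTop 2] with x h1 h2 hx Q V F1 F2 hF1 hQ hV hf1 hf2
  have hL : 0 < Real.log x := Real.log_pos (by exact_mod_cast hx)
  have hle : ∀ t ∈ SS Q V F1 F2, 1 / (((t.1 * t.2 : ℕ) : ℝ) * Real.log (F1 / (t.1 * t.2 : ℕ))) ≤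
      ∑ j ∈ range 41, if t ∈ Pp x (sg j) (sg (j + 1)) ×ˢ Pp x (al j - 1 / 2000) (1 - sg j / 2 + 1 / 2000) then
        (1 / (t.1 : ℝ)) * (1 / (t.2 : ℝ)) / ((1 - sg (j + 1) / 2 - 1 / 2000) * Real.log x) else 0 := by
    intro t ht
    obtain ⟨j, hj, k1, k2, k3⟩ := cover ht (by omega) hF1 hQ hV hf1 hf2
    have hg := (al_pos j (mem_range.1 hj)).2.2
    refine le_trans ?_ (single_le_sum (f := fun j => if t ∈ Pp x (sg j) (sg (j + 1)) ×ˢ
      Pp x (al j - 1 / 2000) (1 - sg j / 2 + 1 / 2000) then (1 / (t.1 : ℝ)) * (1 / (t.2 : ℝ)) /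
      ((1 - sg (j + 1) / 2 - 1 / 2000) * Real.log x) else 0) ?_ hj)
    · rw [if_pos (mem_product.2 ⟨k1, k2⟩)]
      have hp : (0 : ℝ) < t.1 := by
        unfold Pp at k1
        exact_mod_cast (mem_filter.1 k1).2.pos
      have hq : (0 : ℝ) < t.2 := by
        unfold Pp at k2
        exact_mod_cast (mem_filter.1 k2).2.pos
      rw [Nat.cast_mul, div_mul_div_comm, one_mul, div_div]
      rw [Nat.cast_mul] at k3
      refine one_div_le_one_div_of_le (by positivity) ?_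
      exact mul_le_mul_of_nonneg_left k3 (by positivity)
    · intro i hi
      have hg := (al_pos i (mem_range.1 hi)).2.2
      split_ifs
      · positivity
      · exact le_rfl
  refine (sum_le_sum hle).trans ?_
  rw [sum_comm]
  calc ∑ j ∈ range 41, ∑ t ∈ SS Q V F1 F2, (if t ∈ Pp x (sg j) (sg (j + 1)) ×ˢ
        Pp x (al j - 1 / 2000) (1 - sg j / 2 + 1 / 2000) then
        (1 / (t.1 : ℝ)) * (1 / (t.2 : ℝ)) / ((1 - sg (j + 1) / 2 - 1 / 2000) * Real.log x) else 0)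
      ≤ ∑ j ∈ range 41, cj j / Real.log x := by
        refine sum_le_sum fun j hj => ?_
        obtain ⟨g1, g2, g3⟩ := al_pos j (mem_range.1 hj)
        rw [← sum_filter]
        calc ∑ t ∈ (SS Q V F1 F2).filter (fun t => t ∈ Pp x (sg j) (sg (j + 1)) ×ˢ
              Pp x (al j - 1 / 2000) (1 - sg j / 2 + 1 / 2000)),
              (1 / (t.1 : ℝ)) * (1 / (t.2 : ℝ)) / ((1 - sg (j + 1) / 2 - 1 / 2000) * Real.log x)
            ≤ ∑ t ∈ Pp x (sg j) (sg (j + 1)) ×ˢ Pp x (al j - 1 / 2000) (1 - sg j / 2 + 1 / 2000),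
              (1 / (t.1 : ℝ)) * (1 / (t.2 : ℝ)) / ((1 - sg (j + 1) / 2 - 1 / 2000) * Real.log x) := by
              refine sum_le_sum_of_subset_of_nonneg (fun t ht => (mem_filter.1 ht).2) fun t _ _ => ?_
              positivity
          _ = (∑ p ∈ Pp x (sg j) (sg (j + 1)), (1 : ℝ) / p) *
              (∑ q ∈ Pp x (al j - 1 / 2000) (1 - sg j / 2 + 1 / 2000), (1 : ℝ) / q) /
              ((1 - sg (j + 1) / 2 - 1 / 2000) * Real.log x) := by
              rw [← sum_div, sum_product, sum_mul_sum]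
          _ ≤ cj j / Real.log x := by
              unfold cj
              rw [div_div]
              refine div_le_div_of_nonneg_right ?_ (by positivity)
              refine mul_le_mul (h1 j hj) (h2 j hj) (sum_nonneg fun p _ => by positivity) ?_
              exact (sum_nonneg fun p _ => by positivity).trans (h1 j hj)
    _ = (∑ j ∈ range 41, cj j) / Real.log x := by rw [sum_div]
    _ ≤ 3 / 50 / Real.log x := div_le_div_of_nonneg_right sum_cj hL.le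

/-- the decomposition -/
lemma ls_pi3_le (a b : ℤ) (x1 x2 Q V : ℕ) : Ls a b x1 x2 (pi3 Q V) ≤
    ∑ t ∈ SS Q V (Fn a b x1) (Fn a b x2), ∑ k ∈ Ioc (Fn a b x1 / (t.1 * t.2)) (Fn a b x2 / (t.1 * t.2)),
      pi0 k * hw a (t.1 * t.2 * k) := by
  classical
  unfold Ls
  have hle : ∀ N ∈ Ioc (Fn a b x1) (Fn a b x2), pi3 Q V N * hw a N ≤
      ∑ t ∈ SS Q V (Fn a b x1) (Fn a b x2), if t.1 * t.2 ∣ N then pi0 (N / (t.1 * t.2)) * hw a N else 0 := by
    intro N hN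
    rw [mem_Ioc] at hN
    have hnn : ∀ t ∈ SS Q V (Fn a b x1) (Fn a b x2),
        0 ≤ if t.1 * t.2 ∣ N then pi0 (N / (t.1 * t.2)) * hw a N else 0 := by
      intro t _
      split_ifs
      · refine mul_nonneg ?_ (lsl_hw_nonneg a N)
        unfold pi0
        split_ifs
        · exact zero_le_one
        · exact le_rfl
      · exact le_rfl
    by_cases h : ∃ p q r : ℕ, p.Prime ∧ q.Prime ∧ r.Prime ∧ Q < p ∧ p < q ∧ q < r ∧ r ≤ V ∧ N = p * q * r
    · have e : pi3 Q V N = 1 := by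
        unfold pi3
        rw [if_pos h]
      obtain ⟨p, q, r, hp, hq, hr, h1, h2, h3, h4, h5⟩ := h
      have hp0 := hp.pos
      have hq0 := hq.pos
      have hr0 := hr.pos
      have hpq : 0 < p * q := Nat.mul_pos hp0 hq0
      have hmem : (p, q) ∈ SS Q V (Fn a b x1) (Fn a b x2) := by
        unfold SS
        rw [mem_filter, mem_product, mem_Icc, mem_Icc]
        have hN0 : 0 < N := by omega
        have hpN : p ∣ N := ⟨q * r, by rw [h5]; ring⟩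
        have hqN : q ∣ N := ⟨p * r, by rw [h5]; ring⟩
        refine ⟨⟨⟨hp0, (Nat.le_of_dvd hN0 hpN).trans hN.2⟩, ⟨hq0, (Nat.le_of_dvd hN0 hqN).trans hN.2⟩⟩,
          hp, hq, h1, h2, ?_, ?_⟩
        · calc Fn a b x1 < N := hN.1
            _ = p * q * r := h5
            _ ≤ p * q * V := Nat.mul_le_mul_left _ h4
        · calc p * q * q < p * q * r := Nat.mul_lt_mul_of_pos_left h3 hpq
            _ = N := h5.symm
            _ ≤ Fn a b x2 := hN.2
      have e2 : pi0 (N / (p * q)) = 1 := by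
        rw [h5, Nat.mul_div_cancel_left _ hpq]
        unfold pi0
        rw [if_pos hr]
      refine le_trans (le_of_eq ?_) (single_le_sum hnn hmem)
      simp only
      rw [if_pos ⟨r, h5⟩, e, e2]
    · have e : pi3 Q V N = 0 := by
        unfold pi3
        rw [if_neg h]
      rw [e, zero_mul]
      exact sum_nonneg hnn
  refine (sum_le_sum hle).trans (le_of_eq ?_)
  rw [sum_comm]
  apply sum_congr rfl
  intro t ht
  unfold SS at ht
  rw [mem_filter] at ht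
  have hj0 : 0 < t.1 * t.2 := Nat.mul_pos ht.2.1.pos ht.2.2.1.pos
  obtain ⟨m, hm⟩ : ∃ m, m = t.1 * t.2 := ⟨_, rfl⟩
  rw [← hm] at hj0 ⊢
  rw [← sum_filter]
  refine sum_nbij' (fun N => N / m) (fun k => m * k) ?_ ?_ ?_ ?_ ?_
  · intro N hN
    rw [mem_filter, mem_Ioc] at hN
    obtain ⟨⟨h1, h2⟩, k, rfl⟩ := hN
    rw [Nat.mul_div_cancel_left _ hj0, mem_Ioc]
    rw [mul_comm] at h1 h2
    exact ⟨(Nat.div_lt_iff_lt_mul hj0).2 h1, (Nat.le_div_iff_mul_le hj0).2 h2⟩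
  · intro k hk
    rw [mem_Ioc] at hk
    rw [mem_filter, mem_Ioc]
    have h1 := (Nat.div_lt_iff_lt_mul hj0).1 hk.1
    have h2 := (Nat.le_div_iff_mul_le hj0).1 hk.2
    rw [mul_comm] at h1 h2
    exact ⟨⟨h1, h2⟩, Dvd.intro _ rfl⟩
  · intro N hN
    rw [mem_filter] at hN
    exact Nat.mul_div_cancel' hN.2
  · intro k _
    exact Nat.mul_div_cancel_left _ hj0
  · intro N hN
    rw [mem_filter] at hN
    rw [Nat.mul_div_cancel' hN.2]

/-- the sum over the largest prime -/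
lemma inner {a : ℤ} (ha : 0 < a) {C : ℝ} (hC0 : 0 ≤ C)
    (hC : ∀ (K1 K2 : ℕ) (ℓ : ℝ) (h : ℕ → ℝ), 2 ≤ K1 → K1 ≤ K2 →
      0 < ℓ → ℓ ≤ Real.log K1 → (∀ N, K1 + 1 ≤ N → h (N + 1) ≤ h N) → (∀ N, 0 ≤ h N) →
      |∑ k ∈ Ioc K1 K2, pi0 k * h k - ∑ k ∈ Ioc K1 K2, h k / Real.log k| ≤
        2 * (C * K2 / ℓ ^ 4) * h (K1 + 1)) {F1 F2 m : ℕ} {L : ℝ} (hm : 0 < m) (hF1 : 1 ≤ F1) (hF : F1 ≤ F2)
    (hL : 10 ≤ L) (hl : 3 / 5 * L ≤ Real.log ((F1 : ℝ) / m)) :
    ∑ k ∈ Ioc (F1 / m) (F2 / m), pi0 k * hw a (m * k) ≤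
      1 / Real.log ((F1 : ℝ) / m) * ((√((F2 : ℝ) / a) - √((F1 : ℝ) / a)) / m + 1 / (a * √((F1 : ℝ) / a))) +
        16 * C * ((F2 : ℝ) / a) / (m * L ^ 4 * √((F1 : ℝ) / a)) := by
  have ha1 : (1 : ℝ) ≤ a := by exact_mod_cast ha
  have ha0 : (0 : ℝ) < a := by linarith
  have hm0 : (0 : ℝ) < m := by exact_mod_cast hm
  have hF10 : (0 : ℝ) < F1 := by exact_mod_cast hF1
  have hFF : (F1 : ℝ) ≤ F2 := by exact_mod_cast hF
  have hF20 : (0 : ℝ) < F2 := by linarith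
  have hl2' : Real.log 2 ≤ 1 := by linarith [Real.log_two_lt_d9]
  have hy0 : 0 < (F1 : ℝ) / m := by positivity
  -- `F1 / m ≥ 4`
  have hy4 : 4 ≤ (F1 : ℝ) / m := by
    have h1 : Real.exp 6 ≤ (F1 : ℝ) / m := by
      rw [← Real.le_log_iff_exp_le hy0]
      linarith
    have h2 := Real.add_one_le_exp 6
    linarith
  obtain ⟨b1, b2⟩ := QS2.fl_bd F1 hm
  obtain ⟨b3, b4⟩ := QS2.fl_bd F2 hm
  have hK1 : (F1 : ℝ) / m / 2 ≤ ((F1 / m : ℕ) : ℝ) := by linarith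
  have hK1' : 2 ≤ F1 / m := by
    have : (2 : ℝ) ≤ ((F1 / m : ℕ) : ℝ) := by linarith
    exact_mod_cast this
  have hlK : L / 2 ≤ Real.log ((F1 / m : ℕ) : ℝ) := by
    have h1 := Real.log_le_log (by positivity) hK1
    rw [Real.log_div hy0.ne' (by norm_num)] at h1
    linarith
  have hK12 : F1 / m ≤ F2 / m := Nat.div_le_div_right hF
  have key := hC (F1 / m) (F2 / m) (L / 2) (fun k => hw a (m * k)) hK1' hK12 (by linarith) hlK
    (fun N hN => lsl_hw_anti ha (Nat.mul_pos hm (by omega)) (Nat.mul_le_mul_left _ (Nat.le_succ N)))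
    (fun N => lsl_hw_nonneg a _)
  -- the square roots
  obtain ⟨G1, hG1⟩ : ∃ G1, G1 = √((F1 : ℝ) / a) := ⟨_, rfl⟩
  obtain ⟨G2, hG2⟩ : ∃ G2, G2 = √((F2 : ℝ) / a) := ⟨_, rfl⟩
  obtain ⟨s, hs⟩ : ∃ s, s = √(m : ℝ) := ⟨_, rfl⟩
  have hG10 : 0 < G1 := by rw [hG1]; positivity
  have hs0 : 0 < s := by rw [hs]; positivity
  have hss : s * s = m := by rw [hs]; exact Real.mul_self_sqrt hm0.le
  have hG11 : G1 * G1 = F1 / a := by rw [hG1]; exact Real.mul_self_sqrt (by positivity)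
  have hG22 : G2 * G2 = F2 / a := by rw [hG2]; exact Real.mul_self_sqrt (by positivity)
  have hlg0 : 0 < Real.log ((F1 : ℝ) / m) := by linarith
  -- the weight
  have hwm : ∀ k : ℕ, hw a (m * k) = hw a k / s := by
    intro k
    unfold hw
    rw [hs, Nat.cast_mul, show (a : ℝ) * ((m : ℝ) * k) = m * (a * k) by ring, Real.sqrt_mul hm0.le]
    rw [div_div]
    congr 1
    ring
  have hsum : ∑ k ∈ Ioc (F1 / m) (F2 / m), hw a (m * k) ≤ (G2 - G1) / m + 1 / (a * G1) := by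
    rw [sum_congr rfl fun k _ => hwm k, ← sum_div]
    have h1 := (lsl_hw_sum ha (F1 / m) (by omega) (F2 / m) hK12).1
    have h2 : √(((F2 / m : ℕ) : ℝ) / a) ≤ G2 / s := by
      rw [Real.sqrt_le_left (by rw [hG2]; positivity), div_pow, sq, sq, hG22, hss]
      rw [div_div, mul_comm (a : ℝ) m, ← div_div]
      exact div_le_div_of_nonneg_right b3 ha0.le
    have h3 : G1 / s - s / (a * G1) ≤ √(((F1 / m : ℕ) : ℝ) / a) := by
      apply Real.le_sqrt_of_sq_le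
      have e1 : (G1 / s - s / (a * G1)) ^ 2 = (G1 * G1) / (s * s) - 2 / a + (s * s) / (a ^ 2 * (G1 * G1)) := by
        field_simp
        ring
      rw [e1, hG11, hss]
      have e2 : (m : ℝ) / (a ^ 2 * (F1 / a)) = 1 / a * (1 / (F1 / m)) := by
        field_simp
      have e3 : (F1 : ℝ) / a / m = F1 / m / a := by
        rw [div_div, div_div, mul_comm]
      rw [e2, e3]
      have h4 : 1 / ((F1 : ℝ) / m) ≤ 1 := by
        rw [div_le_one hy0]; linarith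
      have h5 : 1 / (a : ℝ) * (1 / (F1 / m)) ≤ 1 / a * 1 := mul_le_mul_of_nonneg_left h4 (by positivity)
      have h6 : (F1 : ℝ) / m / a - 1 / a ≤ ((F1 / m : ℕ) : ℝ) / a := by
        rw [← sub_div]
        exact div_le_div_of_nonneg_right (by linarith) ha0.le
      have h7 : 2 / (a : ℝ) = 1 / a + 1 / a := by ring
      linarith
    have h8 : (G2 / s - (G1 / s - s / (a * G1))) / s = (G2 - G1) / m + 1 / (a * G1) := by
      rw [← hss]
      field_simp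
      ring
    rw [← h8]
    exact div_le_div_of_nonneg_right (by linarith) hs0.le
  have hmain : ∑ k ∈ Ioc (F1 / m) (F2 / m), hw a (m * k) / Real.log k ≤
      1 / Real.log ((F1 : ℝ) / m) * ((G2 - G1) / m + 1 / (a * G1)) := by
    calc ∑ k ∈ Ioc (F1 / m) (F2 / m), hw a (m * k) / Real.log k
        ≤ ∑ k ∈ Ioc (F1 / m) (F2 / m), 1 / Real.log ((F1 : ℝ) / m) * hw a (m * k) := by
          refine sum_le_sum fun k hk => ?_
          rw [mem_Ioc] at hk
          have h1 : (F1 : ℝ) / m ≤ k := by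
            have : ((F1 / m : ℕ) : ℝ) + 1 ≤ k := by exact_mod_cast hk.1
            linarith
          have h2 := Real.log_le_log hy0 h1
          rw [div_eq_mul_one_div, mul_comm]
          exact mul_le_mul_of_nonneg_right (one_div_le_one_div_of_le hlg0 h2) (lsl_hw_nonneg a _)
      _ = 1 / Real.log ((F1 : ℝ) / m) * ∑ k ∈ Ioc (F1 / m) (F2 / m), hw a (m * k) := by rw [mul_sum]
      _ ≤ _ := mul_le_mul_of_nonneg_left hsum (by positivity)
  have herr : 2 * (C * ((F2 / m : ℕ) : ℝ) / (L / 2) ^ 4) * hw a (m * (F1 / m + 1)) ≤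
      16 * C * ((F2 : ℝ) / a) / (m * L ^ 4 * G1) := by
    have h1 : hw a (m * (F1 / m + 1)) ≤ hw a F1 := lsl_hw_anti ha hF1 (Nat.lt_mul_div_succ F1 hm).le
    have h2 : hw a F1 = 1 / (2 * (a * G1)) := by
      unfold hw
      have : √((a : ℝ) * F1) = a * G1 := by
        rw [hG1, show (a : ℝ) * F1 = a ^ 2 * (F1 / a) by field_simp, Real.sqrt_mul (by positivity),
          Real.sqrt_sq ha0.le]
      rw [this]
    rw [h2] at h1
    calc 2 * (C * ((F2 / m : ℕ) : ℝ) / (L / 2) ^ 4) * hw a (m * (F1 / m + 1))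
        ≤ 2 * (C * ((F2 : ℝ) / m) / (L / 2) ^ 4) * (1 / (2 * (a * G1))) := by
          refine mul_le_mul ?_ h1 (lsl_hw_nonneg a _) (by positivity)
          refine mul_le_mul_of_nonneg_left ?_ (by norm_num)
          exact div_le_div_of_nonneg_right (mul_le_mul_of_nonneg_left b3 hC0) (by positivity)
      _ = _ := by
          field_simp
          ring
  have k1 := (abs_le.1 key).2
  rw [← hG1, ← hG2]
  linarith

/-- the size of the set of the pairs, and the sum of the reciprocals -/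
lemma pairs_bd {Q V F1 F2 x : ℕ} (hx : 3 ≤ x) (hF1 : 1 ≤ F1)
    (hQ : (x : ℝ) ^ (2 / 5 : ℝ) ≤ Q) (hV : (V : ℝ) ≤ (x : ℝ) ^ (4 / 5 + 1 / 4000 : ℝ))
    (hf2 : Real.log F2 ≤ 2 * Real.log x + 1 / 10000 * Real.log x) :
    (#(SS Q V F1 F2) : ℝ) ≤ x * √(x : ℝ) ∧
    ∑ t ∈ SS Q V F1 F2, 1 / ((t.1 * t.2 : ℕ) : ℝ) ≤ (1 + Real.log x) ^ 2 := by
  have hx0 : (0 : ℝ) < x := by
    have : 0 < x := by omega
    exact_mod_cast this
  have hx1 : (1 : ℝ) < x := by
    have : 1 < x := by omega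
    exact_mod_cast this
  have hL : 0 < Real.log x := Real.log_pos hx1
  have hsub1 : SS Q V F1 F2 ⊆ (Ioc 0 ⌊(x : ℝ) ^ (68 / 100 : ℝ)⌋₊) ×ˢ (Ioc 0 ⌊(x : ℝ) ^ (81 / 100 : ℝ)⌋₊) := by
    intro t ht
    obtain ⟨h1, h2, h3, h4⟩ := pair_log ht (by omega) hF1 hQ hV
    have ht' := ht
    unfold SS at ht'
    rw [mem_filter] at ht'
    obtain ⟨-, hp, hq, -⟩ := ht'
    have hp0 : (0 : ℝ) < t.1 := by exact_mod_cast hp.pos
    have hq0 : (0 : ℝ) < t.2 := by exact_mod_cast hq.pos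
    rw [mem_product, mem_Ioc, mem_Ioc]
    refine ⟨⟨hp.pos, ?_⟩, ⟨hq.pos, ?_⟩⟩
    · rw [Nat.le_floor_iff (by positivity), ← Real.log_le_log_iff hp0 (by positivity), Real.log_rpow hx0]
      linarith
    · rw [Nat.le_floor_iff (by positivity), ← Real.log_le_log_iff hq0 (by positivity), Real.log_rpow hx0]
      linarith
  have hpow : ∀ c : ℝ, c ≤ 1 → ⌊(x : ℝ) ^ c⌋₊ ≤ x := by
    intro c hc
    have h1 : (x : ℝ) ^ c ≤ (x : ℝ) ^ (1 : ℝ) := Real.rpow_le_rpow_of_exponent_le hx1.le hc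
    rw [Real.rpow_one] at h1
    exact (Nat.floor_le_floor h1).trans (by rw [Nat.floor_natCast])
  constructor
  · have h1 := card_le_card hsub1
    rw [card_product, Nat.card_Ioc, Nat.card_Ioc, Nat.sub_zero, Nat.sub_zero] at h1
    have h2 : (#(SS Q V F1 F2) : ℝ) ≤ (⌊(x : ℝ) ^ (68 / 100 : ℝ)⌋₊ : ℝ) * (⌊(x : ℝ) ^ (81 / 100 : ℝ)⌋₊ : ℝ) := by
      exact_mod_cast h1
    refine h2.trans ?_
    have h3 : (⌊(x : ℝ) ^ (68 / 100 : ℝ)⌋₊ : ℝ) ≤ (x : ℝ) ^ (68 / 100 : ℝ) := Nat.floor_le (by positivity)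
    have h4 : (⌊(x : ℝ) ^ (81 / 100 : ℝ)⌋₊ : ℝ) ≤ (x : ℝ) ^ (81 / 100 : ℝ) := Nat.floor_le (by positivity)
    refine (mul_le_mul h3 h4 (Nat.cast_nonneg _) (by positivity)).trans ?_
    rw [← Real.rpow_add hx0, Real.sqrt_eq_rpow]
    calc (x : ℝ) ^ (68 / 100 + 81 / 100 : ℝ) ≤ (x : ℝ) ^ (1 + 1 / 2 : ℝ) :=
          Real.rpow_le_rpow_of_exponent_le hx1.le (by norm_num)
      _ = x * (x : ℝ) ^ (1 / 2 : ℝ) := by rw [Real.rpow_add hx0, Real.rpow_one]
  · have hsub2 : SS Q V F1 F2 ⊆ ((Ioc 0 x).filter Nat.Prime) ×ˢ ((Ioc 0 x).filter Nat.Prime) := by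
      intro t ht
      have h1 := hsub1 ht
      rw [mem_product, mem_Ioc, mem_Ioc] at h1
      unfold SS at ht
      rw [mem_filter] at ht
      obtain ⟨-, hp, hq, -⟩ := ht
      rw [mem_product, mem_filter, mem_filter, mem_Ioc, mem_Ioc]
      exact ⟨⟨⟨h1.1.1, h1.1.2.trans (hpow _ (by norm_num))⟩, hp⟩, ⟨⟨h1.2.1, h1.2.2.trans (hpow _ (by norm_num))⟩, hq⟩⟩
    have h1 := QS2.sum_inv 0 x x le_rfl
    calc ∑ t ∈ SS Q V F1 F2, 1 / ((t.1 * t.2 : ℕ) : ℝ)
        ≤ ∑ t ∈ ((Ioc 0 x).filter Nat.Prime) ×ˢ ((Ioc 0 x).filter Nat.Prime), 1 / ((t.1 * t.2 : ℕ) : ℝ) :=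
          sum_le_sum_of_subset_of_nonneg hsub2 fun t _ _ => by positivity
      _ = (∑ p ∈ (Ioc 0 x).filter Nat.Prime, (1 : ℝ) / p) * ∑ p ∈ (Ioc 0 x).filter Nat.Prime, (1 : ℝ) / p := by
          rw [sum_product, sum_mul_sum]
          refine sum_congr rfl fun p _ => sum_congr rfl fun q _ => ?_
          rw [Nat.cast_mul, div_mul_div_comm, one_mul]
      _ ≤ (1 + Real.log x) * (1 + Real.log x) :=
          mul_le_mul h1 h1 (sum_nonneg fun p _ => by positivity) (by positivity)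
      _ = (1 + Real.log x) ^ 2 := by ring

/-- the final inequality between real numbers -/
lemma fin_ineq {X X1 X2 L B R C η T S G1 G2 a : ℝ} (hX : 0 < X) (hL : 10 ≤ L) (hR : 1 ≤ R) (hη : 0 < η) (hC : 0 ≤ C)
    (hB : 0 ≤ B) (hBX : B ≤ η * X) (hX12 : X1 ≤ X2) (hT0 : 0 ≤ T) (hT : T ≤ 3 / 50 / L)
    (hS : S ≤ X * √X) (hS0 : 0 ≤ S) (hsX : 12 * R / η ≤ √X) (hLC : 1536 * (C * R) / η ≤ L)
    (ha : 1 ≤ a) (hG1 : X / (2 * R) ≤ G1) (hG2 : 0 ≤ G2) (hG2' : G2 ≤ 2 * X) (hG12 : G2 - G1 ≤ X2 - X1 + 2 * B) :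
    (G2 - G1) * T + S * (2 / L) * (1 / (a * G1)) + 16 * C * G2 ^ 2 / (L ^ 4 * G1) * (1 + L) ^ 2 ≤
      1 / 16 * ((X2 - X1) / L) + η * (X / L) := by
  have hL0 : 0 < L := by linarith
  have hXR : 0 < X / (2 * R) := by positivity
  have hG10 : 0 < G1 := by linarith
  have h1 : (G2 - G1) * T ≤ (X2 - X1 + 2 * B) * (3 / 50 / L) := by
    calc (G2 - G1) * T ≤ (X2 - X1 + 2 * B) * T := mul_le_mul_of_nonneg_right hG12 hT0
      _ ≤ _ := mul_le_mul_of_nonneg_left hT (by linarith)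
  have h2 : 1 / (a * G1) ≤ 2 * R / X := by
    rw [div_le_div_iff₀ (by positivity) hX]
    rw [div_le_iff₀ (by positivity)] at hG1
    have : 1 * (G1 * (2 * R)) ≤ a * (G1 * (2 * R)) := mul_le_mul_of_nonneg_right ha (by positivity)
    linarith
  have h3 : S * (2 / L) * (1 / (a * G1)) ≤ 4 * R * √X / L := by
    calc S * (2 / L) * (1 / (a * G1)) ≤ (X * √X) * (2 / L) * (2 * R / X) := by
          refine mul_le_mul (mul_le_mul_of_nonneg_right hS (by positivity)) h2 (by positivity) (by positivity)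
      _ = 4 * R * √X / L := by field_simp; ring
  have h4 : 16 * C * G2 ^ 2 / (L ^ 4 * G1) * (1 + L) ^ 2 ≤ 512 * (C * R) * X / L ^ 2 := by
    have k1 : G2 ^ 2 ≤ (2 * X) ^ 2 := pow_le_pow_left₀ hG2 hG2' 2
    have k2 : (1 + L) ^ 2 ≤ (2 * L) ^ 2 := pow_le_pow_left₀ (by linarith) (by linarith) 2
    have k3 : 1 / G1 ≤ 2 * R / X := by
      rw [div_le_div_iff₀ hG10 hX]
      rw [div_le_iff₀ (by positivity)] at hG1
      linarith
    calc 16 * C * G2 ^ 2 / (L ^ 4 * G1) * (1 + L) ^ 2 = 16 * C / L ^ 4 * G2 ^ 2 * (1 / G1) * (1 + L) ^ 2 := by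
          field_simp
      _ ≤ 16 * C / L ^ 4 * (2 * X) ^ 2 * (2 * R / X) * (2 * L) ^ 2 := by gcongr
      _ = 512 * (C * R) * X / L ^ 2 := by field_simp; ring
  have h5 : 4 * R * √X ≤ η * X / 3 := by
    rw [div_le_iff₀ hη] at hsX
    have hs := Real.mul_self_sqrt hX.le
    have hs0 := Real.sqrt_nonneg X
    nlinarith
  have h6 : 512 * (C * R) / L ≤ η / 3 := by
    rw [div_le_iff₀ hη] at hLC
    rw [div_le_div_iff₀ hL0 (by norm_num)]
    linarith
  have h7 : 512 * (C * R) * X / L ^ 2 ≤ η * X / 3 / L := by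
    calc 512 * (C * R) * X / L ^ 2 = 512 * (C * R) / L * (X / L) := by field_simp
      _ ≤ η / 3 * (X / L) := mul_le_mul_of_nonneg_right h6 (by positivity)
      _ = η * X / 3 / L := by ring
  have h8 : (X2 - X1 + 2 * B) * (3 / 50 / L) ≤ 1 / 16 * ((X2 - X1) / L) + η * X / 3 / L := by
    have e1 : (X2 - X1 + 2 * B) * (3 / 50 / L) = (3 / 50 * (X2 - X1) + 6 / 50 * B) / L := by ring
    have e2 : 1 / 16 * ((X2 - X1) / L) + η * X / 3 / L = (1 / 16 * (X2 - X1) + η * X / 3) / L := by ring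
    rw [e1, e2]
    apply div_le_div_of_nonneg_right _ hL0.le
    linarith
  have h9 : 4 * R * √X / L ≤ η * X / 3 / L := div_le_div_of_nonneg_right h5 hL0.le
  have e3 : η * (X / L) = η * X / 3 / L + η * X / 3 / L + η * X / 3 / L := by ring
  linarith

end RX4

open Finset RX4 Filter Topology in
theorem x4 (a : ℤ) (ha : 0 < a) (b : ℤ) (R : ℕ) : X4 a b R := by
  intro η hη
  obtain ⟨C, hC0, hC⟩ := QS2.prime_sum 4
  have hl : Tendsto (fun x : ℕ => Real.log x) atTop atTop :=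
    Real.tendsto_log_atTop.comp tendsto_natCast_atTop_atTop
  have hc : Tendsto (fun x : ℕ => (x : ℝ)) atTop atTop := tendsto_natCast_atTop_atTop
  have hsq : Tendsto (fun x : ℕ => √(x : ℝ)) atTop atTop := Real.tendsto_sqrt_atTop.comp hc
  have hev : ∀ᶠ x : ℕ in atTop, ∀ x1 x2 Q V : ℕ, x1 < x2 → x2 ≤ x → x ≤ R * x1 → (x : ℝ) ^ (2 / 5 : ℝ) ≤ Q →
      (V : ℝ) ≤ (x : ℝ) ^ (4 / 5 + 1 / 4000 : ℝ) →
      Ls a b x1 x2 (pi3 Q V) ≤ 1 / 16 * (((x2 : ℝ) - x1) / Real.log x) + η * (x / Real.log x) := by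
    filter_upwards [sum_pairs, hl.eventually_ge_atTop 10, hc.eventually_ge_atTop (|(b : ℝ)| / η),
      hsq.eventually_ge_atTop (12 * R / η), hl.eventually_ge_atTop (1536 * (C * R) / η),
      hc.eventually_ge_atTop (2 * R * (|(b : ℝ)| + 1)), hl.eventually_ge_atTop (10000 * Real.log (4 * R ^ 2)),
      hl.eventually_ge_atTop (10000 * Real.log (4 * a)), eventually_ge_atTop 3] with x hsp hL hb hsx hLC hbR hLR hLa hx3
    intro x1 x2 Q V hx12 hx2 hxR hQ hV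
    have ha1 : (1 : ℝ) ≤ a := by exact_mod_cast ha
    have ha0 : (0 : ℝ) < a := by linarith
    have hb0 := abs_nonneg (b : ℝ)
    have hX : (0 : ℝ) < x := by
      have : 0 < x := by omega
      exact_mod_cast this
    have hR1 : (1 : ℝ) ≤ R := by
      rcases Nat.eq_zero_or_pos R with h | h
      · rw [h, zero_mul] at hxR; omega
      · exact_mod_cast h
    have hXR : (x : ℝ) ≤ R * x1 := by exact_mod_cast hxR
    have hx12' : (x1 : ℝ) < x2 := by exact_mod_cast hx12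
    have hx2' : (x2 : ℝ) ≤ x := by exact_mod_cast hx2
    have hx1b : 2 * (|(b : ℝ)| + 1) ≤ x1 := by
      have : (R : ℝ) * (2 * (|(b : ℝ)| + 1)) ≤ R * x1 := by linarith
      exact le_of_mul_le_mul_left this (by linarith)
    have hx1R : (x : ℝ) / (2 * R) ≤ x1 / 2 := by
      rw [div_le_div_iff₀ (by positivity) (by norm_num)]
      linarith
    have hn1 : |b| ≤ (x1 : ℤ) := by
      have : |(b : ℝ)| ≤ x1 := by linarith
      exact_mod_cast this
    have hn2 : |b| ≤ (x2 : ℤ) := hn1.trans (by exact_mod_cast hx12.le)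
    have hx1p : 1 ≤ x1 := by
      have : (1 : ℝ) ≤ x1 := by linarith
      exact_mod_cast this
    obtain ⟨F1, hF1e⟩ : ∃ F1, F1 = Fn a b x1 := ⟨_, rfl⟩
    obtain ⟨F2, hF2e⟩ : ∃ F2, F2 = Fn a b x2 := ⟨_, rfl⟩
    have g1 := lsl_sqrt ha b hn1 hx1p
    have g2 := lsl_sqrt ha b hn2 (by omega)
    rw [← hF1e] at g1
    rw [← hF2e] at g2
    obtain ⟨g1l, g1u⟩ := abs_le.1 g1
    obtain ⟨g2l, g2u⟩ := abs_le.1 g2
    have hG1 : (x : ℝ) / (2 * R) ≤ √((F1 : ℝ) / a) := by linarith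
    have hG2 : √((F2 : ℝ) / a) ≤ 2 * x := by linarith
    have hG12 : √((F2 : ℝ) / a) - √((F1 : ℝ) / a) ≤ x2 - x1 + 2 * |(b : ℝ)| := by linarith
    have hG10 : 0 < √((F1 : ℝ) / a) := lt_of_lt_of_le (by positivity) hG1
    have hF1a : 0 < (F1 : ℝ) / a := Real.sqrt_pos.1 hG10
    have hF1r : (0 : ℝ) < F1 := by
      have := mul_pos hF1a ha0
      rwa [div_mul_cancel₀ _ ha0.ne'] at this
    have hF1 : 1 ≤ F1 := by exact_mod_cast hF1r
    have hG20 : 0 < √((F2 : ℝ) / a) := by linarith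
    have hF2a : 0 < (F2 : ℝ) / a := Real.sqrt_pos.1 hG20
    have hF2r : (0 : ℝ) < F2 := by
      have := mul_pos hF2a ha0
      rwa [div_mul_cancel₀ _ ha0.ne'] at this
    have hF12 : F1 ≤ F2 := by
      have : (F1 : ℝ) ≤ F2 := by
        have h1 : √((F1 : ℝ) / a) ≤ √((F2 : ℝ) / a) := by
          rw [hF1e, hF2e, lsl_Fn_cast ha b hn1, lsl_Fn_cast ha b hn2]
          apply Real.sqrt_le_sqrt
          apply div_le_div_of_nonneg_right _ ha0.le
          have hb2 := neg_abs_le (b : ℝ)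
          nlinarith [mul_nonneg (by linarith : (0 : ℝ) ≤ (x2 : ℝ) - x1) (by nlinarith : (0 : ℝ) ≤ a * ((x2 : ℝ) + x1) + b)]
        have h2 := mul_self_le_mul_self hG10.le h1
        rw [Real.mul_self_sqrt hF1a.le, Real.mul_self_sqrt hF2a.le] at h2
        exact (div_le_div_iff_of_pos_right ha0).1 h2
      exact_mod_cast this
    have hf1 : 2 * Real.log x - 1 / 10000 * Real.log x ≤ Real.log F1 := by
      have h1 : (x : ℝ) ^ 2 / (4 * R ^ 2) ≤ F1 := by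
        have h2 := mul_self_le_mul_self (by positivity) hG1
        rw [Real.mul_self_sqrt hF1a.le] at h2
        have h3 : (F1 : ℝ) / a ≤ F1 := div_le_self hF1r.le ha1
        have h4 : (x : ℝ) ^ 2 / (4 * R ^ 2) = x / (2 * R) * (x / (2 * R)) := by
          field_simp
          ring
        rw [h4]
        exact h2.trans h3
      have h2 := Real.log_le_log (by positivity) h1
      rw [Real.log_div (by positivity) (by positivity), Real.log_pow] at h2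
      push_cast at h2
      linarith
    have hf2 : Real.log F2 ≤ 2 * Real.log x + 1 / 10000 * Real.log x := by
      have h1 : (F2 : ℝ) ≤ 4 * a * x ^ 2 := by
        have h2 := mul_self_le_mul_self hG20.le hG2
        rw [Real.mul_self_sqrt hF2a.le, div_le_iff₀ ha0] at h2
        linarith
      have h2 := Real.log_le_log hF2r h1
      rw [Real.log_mul (by positivity) (by positivity), Real.log_pow] at h2
      push_cast at h2
      linarith
    have hT := hsp Q V F1 F2 hF1 hQ hV hf1 hf2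
    obtain ⟨hS, hI⟩ := pairs_bd hx3 hF1 hQ hV hf2
    have hL0 : 0 < Real.log x := by linarith
    -- the lower bound for the logarithm
    have hlg : ∀ t ∈ SS Q V F1 F2, 0 < t.1 * t.2 ∧ 3 / 5 * Real.log x ≤ Real.log ((F1 : ℝ) / ((t.1 * t.2 : ℕ) : ℝ)) := by
      intro t ht
      obtain ⟨j, hj, k1, k2, k3⟩ := cover ht (by omega) hF1 hQ hV hf1 hf2
      have hj' : (j : ℝ) ≤ 40 := by exact_mod_cast (by have := mem_range.1 hj; omega : j ≤ 40)
      unfold SS at ht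
      rw [mem_filter] at ht
      refine ⟨Nat.mul_pos ht.2.1.pos ht.2.2.1.pos, le_trans ?_ k3⟩
      apply mul_le_mul_of_nonneg_right _ hL0.le
      unfold sg
      push_cast
      linarith
    refine (ls_pi3_le a b x1 x2 Q V).trans ?_
    rw [← hF1e, ← hF2e]
    obtain ⟨G1, hG1e⟩ : ∃ G1, G1 = √((F1 : ℝ) / a) := ⟨_, rfl⟩
    obtain ⟨G2, hG2e⟩ : ∃ G2, G2 = √((F2 : ℝ) / a) := ⟨_, rfl⟩
    have hG22 : (F2 : ℝ) / a = G2 ^ 2 := by rw [hG2e, Real.sq_sqrt hF2a.le]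
    rw [← hG1e] at hG1 hG12 hG10
    rw [← hG2e] at hG2 hG12 hG20
    have hstep : ∀ t ∈ SS Q V F1 F2, ∑ k ∈ Ioc (F1 / (t.1 * t.2)) (F2 / (t.1 * t.2)), pi0 k * hw a (t.1 * t.2 * k) ≤
        (G2 - G1) * (1 / (((t.1 * t.2 : ℕ) : ℝ) * Real.log (F1 / (t.1 * t.2 : ℕ)))) +
          2 / Real.log x * (1 / (a * G1)) + 16 * C * G2 ^ 2 / (Real.log x ^ 4 * G1) * (1 / ((t.1 * t.2 : ℕ) : ℝ)) := by
      intro t ht
      obtain ⟨hm, hl'⟩ := hlg t ht
      have hm0 : (0 : ℝ) < ((t.1 * t.2 : ℕ) : ℝ) := by exact_mod_cast hm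
      refine (inner ha hC0 hC hm hF1 hF12 hL hl').trans ?_
      rw [← hG1e, ← hG2e, hG22]
      have hl0 : 0 < Real.log ((F1 : ℝ) / ((t.1 * t.2 : ℕ) : ℝ)) := by linarith
      have e1 : 1 / Real.log ((F1 : ℝ) / ((t.1 * t.2 : ℕ) : ℝ)) * ((G2 - G1) / ((t.1 * t.2 : ℕ) : ℝ) + 1 / (a * G1)) =
          (G2 - G1) * (1 / (((t.1 * t.2 : ℕ) : ℝ) * Real.log (F1 / (t.1 * t.2 : ℕ)))) +
            1 / Real.log ((F1 : ℝ) / ((t.1 * t.2 : ℕ) : ℝ)) * (1 / (a * G1)) := by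
        rw [mul_add]
        congr 1
        rw [one_div_mul_eq_div, div_div, mul_one_div]
      have e2 : 16 * C * G2 ^ 2 / (((t.1 * t.2 : ℕ) : ℝ) * Real.log x ^ 4 * G1) =
          16 * C * G2 ^ 2 / (Real.log x ^ 4 * G1) * (1 / ((t.1 * t.2 : ℕ) : ℝ)) := by
        rw [div_mul_div_comm, mul_one]
        congr 1
        ring
      rw [e1, e2]
      have h5 : 1 / Real.log ((F1 : ℝ) / ((t.1 * t.2 : ℕ) : ℝ)) ≤ 2 / Real.log x := by
        rw [div_le_div_iff₀ hl0 hL0]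
        linarith
      have h6 : 1 / Real.log ((F1 : ℝ) / ((t.1 * t.2 : ℕ) : ℝ)) * (1 / (a * G1)) ≤ 2 / Real.log x * (1 / (a * G1)) :=
        mul_le_mul_of_nonneg_right h5 (by positivity)
      linarith
    refine (sum_le_sum hstep).trans ?_
    have hsplit : ∑ t ∈ SS Q V F1 F2, ((G2 - G1) * (1 / (((t.1 * t.2 : ℕ) : ℝ) * Real.log (F1 / (t.1 * t.2 : ℕ)))) +
          2 / Real.log x * (1 / (a * G1)) + 16 * C * G2 ^ 2 / (Real.log x ^ 4 * G1) * (1 / ((t.1 * t.2 : ℕ) : ℝ))) =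
        (G2 - G1) * ∑ t ∈ SS Q V F1 F2, 1 / (((t.1 * t.2 : ℕ) : ℝ) * Real.log (F1 / (t.1 * t.2 : ℕ))) +
          #(SS Q V F1 F2) * (2 / Real.log x * (1 / (a * G1))) +
          16 * C * G2 ^ 2 / (Real.log x ^ 4 * G1) * ∑ t ∈ SS Q V F1 F2, 1 / ((t.1 * t.2 : ℕ) : ℝ) := by
      rw [sum_add_distrib, sum_add_distrib, sum_const, nsmul_eq_mul, mul_sum, mul_sum]
    rw [hsplit]
    have hI2 : 16 * C * G2 ^ 2 / (Real.log x ^ 4 * G1) * ∑ t ∈ SS Q V F1 F2, 1 / ((t.1 * t.2 : ℕ) : ℝ) ≤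
        16 * C * G2 ^ 2 / (Real.log x ^ 4 * G1) * (1 + Real.log x) ^ 2 :=
      mul_le_mul_of_nonneg_left hI (by positivity)
    have hfin := fin_ineq (X := x) (X1 := x1) (X2 := x2) (L := Real.log x) (B := |(b : ℝ)|) (R := R) (C := C) (η := η)
      (T := ∑ t ∈ SS Q V F1 F2, 1 / (((t.1 * t.2 : ℕ) : ℝ) * Real.log (F1 / (t.1 * t.2 : ℕ))))
      (S := #(SS Q V F1 F2)) (G1 := G1) (G2 := G2) (a := a) hX hL hR1 hη hC0 hb0 (by
        rw [div_le_iff₀ hη] at hb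
        linarith) hx12'.le (sum_nonneg fun t ht => by
        obtain ⟨hm, hl'⟩ := hlg t ht
        have hl0 : 0 < Real.log ((F1 : ℝ) / ((t.1 * t.2 : ℕ) : ℝ)) := by linarith
        positivity) hT hS (Nat.cast_nonneg _) hsx hLC ha1 hG1 hG20.le hG2 hG12
    refine le_trans ?_ hfin
    rw [mul_assoc (#(SS Q V F1 F2) : ℝ) (2 / Real.log x)]
    exact add_le_add le_rfl hI2
  obtain ⟨x0, hx0⟩ := eventually_atTop.1 hev
  exact ⟨1 / 4000, by norm_num, x0, fun x hx => hx0 x hx⟩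

end Pool.Agent.N792
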