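import Mathlib
import Pool.Agent.N792.RStm

/-!
X5: the combinatorial identity (helper348, for helper792).
-/

set_option autoImplicit false

namespace Pool.Agent.N792.RX5

open Finset
open Pool.Agent.N792 Pool.Agent.N792.SwR
open ArithmeticFunction (moebius)

lemma near {y N j : ℕ} (hyN : y * y < N) (hj : j ∣ N) (hne : ¬ (y ≤ j ∧ y ≤ N / j)) : j ≤ y ↔ y < N / j := by
  have h1 := Nat.mul_div_cancel' hj
  constructor
  · intro h
    by_contra h2
    push Not at h2
    have := Nat.mul_le_mul h h2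
    omega
  · intro h
    by_contra h2
    push Not at h2
    exact hne ⟨h2.le, h.le⟩

lemma rg_of {z N : ℕ} (h : Rough z N) : rg z N = 1 := by unfold rg; rw [if_pos h]

lemma rg_not {z N : ℕ} (h : ¬ Rough z N) : rg z N = 0 := by unfold rg; rw [if_neg h]

lemma T2_eq {z U y N : ℕ} {f g : ℕ → ℝ} (h : Rough z N) :
    T2 z U y f g N = ∑ j ∈ N.divisors, if U < j ∧ j ≤ y then f j * g (N / j) else 0 := by
  unfold T2; rw [rg_of h, one_mul, sum_filter]

lemma T1_eq {z U N : ℕ} {g : ℕ → ℝ} (h : Rough z N) :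
    T1 z U g N = ∑ j ∈ N.divisors, if j ≤ U then g j else 0 := by
  unfold T1; rw [rg_of h, one_mul, sum_filter]

lemma rough_mul' {z a b : ℕ} (ha : Rough z a) (hb : Rough z b) : Rough z (a * b) :=
  ⟨Nat.mul_ne_zero ha.1 hb.1, fun p hp hpm => (hp.dvd_mul.1 hpm).elim (ha.2 p hp) (hb.2 p hp)⟩

lemma T2_zero {z U y Q N : ℕ} {f g : ℕ → ℝ} (hro : Rough z N) (hQ : ¬ Rough Q N)
    (hf : ∀ j, j ∣ N → U < j → f j ≠ 0 → Rough Q j)
    (hg : ∀ j, j ∣ N → U < j → j ≤ y → g (N / j) ≠ 0 → Rough Q (N / j)) : T2 z U y f g N = 0 := by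
  rw [T2_eq hro]
  apply sum_eq_zero
  intro j hj
  rw [Nat.mem_divisors] at hj
  split_ifs with hc0
  · by_contra hc
    have h1 := left_ne_zero_of_mul hc
    have h2 := right_ne_zero_of_mul hc
    apply hQ
    have := rough_mul' (hf j hj.1 hc0.1 h1) (hg j hj.1 hc0.1 hc0.2 h2)
    rwa [Nat.mul_div_cancel' hj.1] at this
  · rfl

lemma prime_rough {Q p : ℕ} (hp : p.Prime) (h : Q < p) : Rough Q p :=
  ⟨hp.ne_zero, fun q hq hqp => by rw [(Nat.prime_dvd_prime_iff_eq hq hp).1 hqp]; exact h⟩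

lemma pi0_ne {k : ℕ} (h : pi0 k ≠ 0) : k.Prime := by
  unfold pi0 at h
  by_contra h2
  rw [if_neg h2] at h
  exact h rfl

lemma pi2_ne {Q k : ℕ} (h : pi2 Q k ≠ 0) : Rough Q k := by
  unfold pi2 at h
  by_contra h2
  apply h
  rw [if_neg]
  rintro ⟨p, q, hp, hq, h3, h4, rfl⟩
  exact h2 (rough_mul' (prime_rough hp h3) (prime_rough hq (h3.trans h4)))

lemma pi3_ne {Q V k : ℕ} (h : pi3 Q V k ≠ 0) : Rough Q k := by
  unfold pi3 at h
  by_contra h2
  apply h
  rw [if_neg]
  rintro ⟨p, q, r, hp, hq, hr, h3, h4, h5, _, rfl⟩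
  exact h2 (rough_mul' (rough_mul' (prime_rough hp h3) (prime_rough hq (h3.trans h4)))
    (prime_rough hr (h3.trans (h4.trans h5))))

/-- the terms of the type II sums with `alf` -/
lemma alf_rg {U K N q0 M i0 : ℕ} {zs : ℕ → ℕ} (hmono : ∀ i j, i ≤ j → j ≤ K → zs i ≤ zs j) (hM : N = M * q0)
    (hq0 : q0.Prime) (hmin : ∀ p, p.Prime → p ∣ N → q0 ≤ p)
    (hi0 : i0 < K) (h1 : zs i0 < q0) (h2 : q0 ≤ zs (i0 + 1)) (hN0 : N ≠ 0)
    (hMr : Rough (zs (i0 + 1)) M)
    (huniq : ∀ i < K, ∀ p q : ℕ, p.Prime → q.Prime → p ∣ N → q ∣ N → zs i < p → p ≤ zs (i + 1) → zs i < q →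
      q ≤ zs (i + 1) → p = q) {i : ℕ} (hi : i < K) {j : ℕ} (hj : j ∣ N) :
    alf (zs i) (zs (i + 1)) U j * rg (zs (i + 1)) (N / j) =
      if i = i0 ∧ q0 ∣ j ∧ j / q0 ≤ U then (moebius (j / q0) : ℝ) else 0 := by
  have hj0 : j ≠ 0 := fun h => hN0 (by rw [h] at hj; exact Nat.eq_zero_of_zero_dvd hj)
  by_cases hii : i = i0
  · subst hii
    by_cases hqj : q0 ∣ j
    · have e1 : (j.primeFactors.filter (fun q => zs i < q ∧ q ≤ zs (i + 1))) = {q0} := by
        ext q
        rw [mem_filter, Nat.mem_primeFactors, mem_singleton]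
        constructor
        · rintro ⟨⟨h3, h4, _⟩, h5, h6⟩
          exact huniq i hi q q0 h3 hq0 (h4.trans hj) (hqj.trans hj) h5 h6 h1 h2
        · rintro rfl
          exact ⟨⟨hq0, hqj, hj0⟩, h1, h2⟩
      obtain ⟨d, rfl⟩ := hqj
      have hd : d ∣ M := by
        rw [hM, mul_comm M q0] at hj
        exact Nat.dvd_of_mul_dvd_mul_left hq0.pos hj
      have e2 : N / (q0 * d) = M / d := by
        rw [hM, mul_comm M q0, Nat.mul_div_mul_left _ _ hq0.pos]
      have e3 : q0 * d / q0 = d := Nat.mul_div_cancel_left d hq0.pos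
      unfold alf
      rw [e1, sum_singleton, e2, rg_of (rough_of_dvd hMr (Nat.div_dvd_of_dvd hd)), mul_one, e3]
      have h4 : Rough (zs (i + 1)) d := rough_of_dvd hMr hd
      simp only [h4, true_and, dvd_mul_right]
    · have e1 : (j.primeFactors.filter (fun q => zs i < q ∧ q ≤ zs (i + 1))) = ∅ := by
        apply filter_eq_empty_iff.2
        intro q hq hq2
        rw [Nat.mem_primeFactors] at hq
        have := huniq i hi q q0 hq.1 hq0 (hq.2.1.trans hj) (by rw [hM]; exact dvd_mul_left _ _) hq2.1 hq2.2 h1 h2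
        rw [this] at hq
        exact hqj hq.2.1
      unfold alf
      rw [e1, sum_empty, zero_mul, if_neg (fun h => hqj h.2.1)]
  · rw [if_neg (fun h => hii h.1)]
    by_cases hr : Rough (zs (i + 1)) (N / j)
    · have : alf (zs i) (zs (i + 1)) U j = 0 := by
        unfold alf
        apply sum_eq_zero
        intro q hq
        rw [mem_filter, Nat.mem_primeFactors] at hq
        obtain ⟨⟨hqp, hqj, _⟩, hq1, hq2⟩ := hq
        rw [if_neg]
        rintro ⟨h3, _⟩
        have e4 : q * (j / q) * (N / j) = N := by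
          rw [Nat.mul_div_cancel' hqj, Nat.mul_div_cancel' hj]
        have h5 : q0 ∣ q * (j / q) * (N / j) := by rw [e4, hM]; exact dvd_mul_left _ _
        have h6 : q0 ≤ q := hmin q hqp (hqj.trans hj)
        have h7 : q0 = q := by
          rcases hq0.dvd_mul.1 h5 with h5 | h5
          · rcases hq0.dvd_mul.1 h5 with h5 | h5
            · exact (Nat.prime_dvd_prime_iff_eq hq0 hqp).1 h5
            · have := h3.2 q0 hq0 h5
              omega
          · have := hr.2 q0 hq0 h5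
            omega
        rcases Nat.lt_or_gt_of_ne hii with h8 | h8
        · have := hmono (i + 1) i0 h8 hi0.le
          omega
        · have := hmono (i0 + 1) i h8 hi.le
          omega
      rw [this, zero_mul]
    · rw [rg_not hr, mul_zero]

/-- the case that `N` has a prime factor `≤ Q` -/
lemma case1 {z U y Q V K N : ℕ} {zs : ℕ → ℕ} (hQU : Q ≤ U) (hUV : U ≤ V) (hVy : V ≤ y)
    (hz0 : zs 0 = z) (hzK : zs K = Q) (hmono0 : ∀ i < K, zs i ≤ zs (i + 1)) (hyN : y * y < N)
    (hUUQ : U * U * Q < N) (hsq : Squarefree N) (hro : Rough z N) (hne : ∀ j, j ∣ N → ¬ (y ≤ j ∧ y ≤ N / j))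
    (huniq : ∀ i < K, ∀ p q : ℕ, p.Prime → q.Prime → p ∣ N → q ∣ N → zs i < p → p ≤ zs (i + 1) → zs i < q →
      q ≤ zs (i + 1) → p = q) (hQ : ¬ Rough Q N) :
    HL9 z U y Q V K zs N = pi0 N - 2 * pi3 Q V N := by
  have hN0 := hro.1
  have hN1 : N ≠ 1 := by
    rintro rfl
    exact hQ ⟨one_ne_zero, fun p hp h => absurd (Nat.dvd_one.1 h) hp.ne_one⟩
  obtain ⟨q0, hq0, hq0N, hmin⟩ : ∃ q0 : ℕ, q0.Prime ∧ q0 ∣ N ∧ ∀ p, p.Prime → p ∣ N → q0 ≤ p :=
    ⟨N.minFac, Nat.minFac_prime hN1, Nat.minFac_dvd N, fun p hp h => Nat.minFac_le_of_dvd hp.two_le h⟩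
  have hzq : z < q0 := hro.2 q0 hq0 hq0N
  have hqQ : q0 ≤ Q := by
    by_contra h
    push Not at h
    exact hQ ⟨hN0, fun p hp h2 => h.trans_le (hmin p hp h2)⟩
  obtain ⟨M, hM⟩ : ∃ M, N = M * q0 := by
    obtain ⟨M, hM⟩ := hq0N
    exact ⟨M, by rw [hM, mul_comm]⟩
  have hMq : ¬ q0 ∣ M := by
    intro h
    have h3 : q0 * q0 ∣ N := by rw [hM]; exact Nat.mul_dvd_mul_right h q0
    exact hq0.one_lt.ne' (Nat.isUnit_iff.1 (hsq q0 h3))
  have hM0 : M ≠ 0 := by
    rintro rfl
    rw [zero_mul] at hM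
    exact hN0 hM
  have hmono : ∀ i j, i ≤ j → j ≤ K → zs i ≤ zs j := by
    intro i j hij
    induction j, hij using Nat.le_induction with
    | base => intro _; exact le_rfl
    | succ j hj ih => intro h; exact (ih (by omega)).trans (hmono0 j (by omega))
  obtain ⟨i0, hi0, h1, h2⟩ : ∃ i0, i0 < K ∧ zs i0 < q0 ∧ q0 ≤ zs (i0 + 1) := by
    have hex : ∃ i, q0 ≤ zs i := ⟨K, by rw [hzK]; exact hqQ⟩
    classical
    have hfind := Nat.find_spec hex
    have hpos : Nat.find hex ≠ 0 := by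
      intro h
      rw [h, hz0] at hfind
      omega
    refine ⟨Nat.find hex - 1, ?_, ?_, ?_⟩
    · have : Nat.find hex ≤ K := Nat.find_min' hex (by rw [hzK]; exact hqQ)
      omega
    · have := Nat.find_min hex (m := Nat.find hex - 1) (by omega)
      omega
    · rw [Nat.sub_add_cancel (by omega)]
      exact hfind
  have hMr : Rough (zs (i0 + 1)) M := by
    refine ⟨hM0, fun p hp hpM => ?_⟩
    by_contra h
    push Not at h
    have hpN : p ∣ N := hpM.trans (by rw [hM]; exact dvd_mul_right _ _)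
    have h3 := hmin p hp hpN
    have := huniq i0 hi0 p q0 hp hq0 hpN hq0N (by omega) h h1 h2
    rw [this] at hpM
    exact hMq hpM
  have hE1 : ∀ i < K, T2 z U y (alf (zs i) (zs (i + 1)) U) (rg (zs (i + 1))) N =
      ∑ j ∈ N.divisors, if U < j ∧ j ≤ y then
        (if i = i0 ∧ q0 ∣ j ∧ j / q0 ≤ U then (moebius (j / q0) : ℝ) else 0) else 0 := by
    intro i hi
    rw [T2_eq hro]
    apply sum_congr rfl
    intro j hj
    rw [Nat.mem_divisors] at hj
    rw [alf_rg hmono hM hq0 hmin hi0 h1 h2 hN0 hMr huniq hi hj.1]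
  have hE2 : ∀ i < K, T2 z U y (rg (zs (i + 1))) (alf (zs i) (zs (i + 1)) U) N =
      ∑ j ∈ N.divisors, if U < N / j ∧ N / j ≤ y then
        (if i = i0 ∧ q0 ∣ j ∧ j / q0 ≤ U then (moebius (j / q0) : ℝ) else 0) else 0 := by
    intro i hi
    rw [T2_eq hro, ← Nat.sum_div_divisors N]
    apply sum_congr rfl
    intro j hj
    rw [Nat.mem_divisors] at hj
    rw [Nat.div_div_self hj.1 hN0, mul_comm, alf_rg hmono hM hq0 hmin hi0 h1 h2 hN0 hMr huniq hi hj.1]
  have hS : ∑ i ∈ range K, (T2 z U y (alf (zs i) (zs (i + 1)) U) (rg (zs (i + 1))) N +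
      T2 z U y (rg (zs (i + 1))) (alf (zs i) (zs (i + 1)) U) N) = T1 z U (fun d => (moebius d : ℝ)) N := by
    rw [sum_eq_single i0]
    · rw [hE1 i0 hi0, hE2 i0 hi0, ← sum_add_distrib, T1_eq hro, hM, sum_div_mul hM0 hq0 hMq,
        sum_div_mul hM0 hq0 hMq, ← sum_add_distrib, ← sum_add_distrib]
      apply sum_congr rfl
      intro d hd
      rw [Nat.mem_divisors] at hd
      have hd0 : 0 < d := Nat.pos_of_dvd_of_pos hd.1 (Nat.pos_of_ne_zero hM0)
      have hqd : ¬ q0 ∣ d := fun h => hMq (h.trans hd.1)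
      have hcop : d.Coprime q0 := ((Nat.Prime.coprime_iff_not_dvd hq0).2 hqd).symm
      have hmu : moebius (d * q0) = - moebius d := by
        rw [ArithmeticFunction.isMultiplicative_moebius.map_mul_of_coprime hcop,
          ArithmeticFunction.moebius_apply_prime hq0]
        ring
      have hdN : d * q0 ∣ N := by rw [hM]; exact Nat.mul_dvd_mul_right hd.1 q0
      have hnear := near hyN hdN (hne _ hdN)
      have hbig : d ≤ U → U < N / (d * q0) := by
        intro hdU
        by_contra h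
        push Not at h
        have e5 := Nat.mul_div_cancel' hdN
        have : d * q0 * (N / (d * q0)) ≤ U * Q * U := Nat.mul_le_mul (Nat.mul_le_mul hdU hqQ) h
        nlinarith
      have hdd : d ≤ d * q0 := Nat.le_mul_of_pos_right d hq0.pos
      rw [hmu, Nat.mul_div_cancel d hq0.pos, ← hM]
      simp only [hqd, dvd_mul_left, true_and, false_and, if_false, ite_self, add_zero, zero_add, Int.cast_neg]
      generalize d * q0 = A at *
      generalize N / A = B at *
      by_cases c1 : d ≤ U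
      · have c2 := hbig c1
        simp only [c1, c2, if_true, true_and]
        split_ifs <;> first | (exfalso; omega) | ring
      · simp only [c1, if_false, ite_self]
        rw [if_neg (by omega)]
    · intro i hi hii
      rw [mem_range] at hi
      rw [hE1 i hi, hE2 i hi]
      simp [hii]
    · intro h
      exact absurd (mem_range.2 hi0) h
  have hp0 : ∀ j, Q ≤ U → U < j → pi0 j ≠ 0 → Rough Q j := fun j h1 h2 h3 => prime_rough (pi0_ne h3) (by omega)
  have hp1 : ∀ j, j ∣ N → j ≤ y → pi0 (N / j) ≠ 0 → Rough Q (N / j) := by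
    intro j hj h1 h3
    refine prime_rough (pi0_ne h3) ?_
    by_contra h
    push Not at h
    have := Nat.mul_div_cancel' hj
    have h4 : j * (N / j) ≤ y * y := Nat.mul_le_mul h1 (by omega)
    omega
  unfold HL9
  rw [hS, T2_zero hro hQ (fun j _ h1 h2 => hp0 j hQU h1 h2) (fun j hj _ h1 h2 => hp1 j hj h1 h2),
    T2_zero hro hQ (fun j _ h1 h2 => hp0 j hQU h1 h2) (fun j hj _ h1 h2 => pi2_ne h2),
    T2_zero hro hQ (fun j _ h1 h2 => prime_rough (pi0_ne h2) (by omega)) (fun j hj _ h1 h2 => pi2_ne h2),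
    T2_zero hro hQ (fun j _ h1 h2 => pi2_ne h2) (fun j hj _ h1 h2 => hp1 j hj h1 h2),
    T2_zero hro hQ (fun j _ h1 h2 => pi2_ne h2) (fun j hj _ h1 h2 => pi2_ne h2)]
  have h5 : pi3 Q V N = 0 := by
    by_contra h
    exact hQ (pi3_ne h)
  have h6 : pi0 N = 0 := by
    by_contra h
    have h7 := pi0_ne h
    have h8 : q0 = N := (Nat.prime_dvd_prime_iff_eq hq0 h7).1 hq0N
    have h9 : y ≤ y * y := Nat.le_mul_self y
    omega
  rw [h5, h6]
  ring

/-- the number of the prime factors -/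
def w (j : ℕ) : ℕ := #j.primeFactors

lemma w_add {N j : ℕ} (hs : Squarefree N) (hj : j ∣ N) : w j + w (N / j) = w N := by
  obtain ⟨e, rfl⟩ := hj
  have hj0 : j ≠ 0 := left_ne_zero_of_mul hs.ne_zero
  have hc : Nat.Coprime j e := Nat.coprime_of_squarefree_mul hs
  rw [Nat.mul_div_cancel_left e (Nat.pos_of_ne_zero hj0), w, w, w, hc.primeFactors_mul,
    card_union_of_disjoint hc.disjoint_primeFactors]

lemma w_pow {Q j : ℕ} (h : Rough Q j) : (Q + 1) ^ w j ≤ j := by
  have h1 : ∏ p ∈ j.primeFactors, p ≤ j := Nat.le_of_dvd (Nat.pos_of_ne_zero h.1) (Nat.prod_primeFactors_dvd j)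
  refine le_trans ?_ h1
  unfold w
  rw [← prod_const]
  apply prod_le_prod' 
  intro p hp
  rw [Nat.mem_primeFactors] at hp
  exact h.2 p hp.1 hp.2.1

lemma w_prime {p : ℕ} (hp : p.Prime) : w p = 1 := by
  unfold w
  rw [hp.primeFactors, card_singleton]

lemma prime_of_w {j : ℕ} (hs : Squarefree j) (h : w j = 1) : j.Prime := by
  obtain ⟨p, hp⟩ := card_eq_one.1 h
  have h1 := Nat.prod_primeFactors_of_squarefree hs
  rw [hp, prod_singleton] at h1
  have h2 : p ∈ j.primeFactors := by rw [hp]; exact mem_singleton_self p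
  rw [← h1]
  exact Nat.prime_of_mem_primeFactors h2

lemma one_of_w {j : ℕ} (hs : Squarefree j) (h : w j = 0) : j = 1 := by
  have h0 : j.primeFactors = ∅ := card_eq_zero.1 h
  have h1 := Nat.prod_primeFactors_of_squarefree hs
  rw [h0, prod_empty] at h1
  exact h1.symm

lemma pi0_w {j : ℕ} (hs : Squarefree j) : pi0 j = if w j = 1 then 1 else 0 := by
  unfold pi0
  by_cases h : j.Prime
  · rw [if_pos h, if_pos (w_prime h)]
  · rw [if_neg h, if_neg (fun h2 => h (prime_of_w hs h2))]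

lemma pi2_w {Q j : ℕ} (hs : Squarefree j) (hr : Rough Q j) : pi2 Q j = if w j = 2 then 1 else 0 := by
  unfold pi2
  by_cases h : w j = 2
  · rw [if_pos h, if_pos]
    obtain ⟨p, q, hpq, h1⟩ := card_eq_two.1 h
    have h2 := Nat.prod_primeFactors_of_squarefree hs
    rw [h1, prod_pair hpq] at h2
    have hp : p ∈ j.primeFactors := by rw [h1]; simp
    have hq : q ∈ j.primeFactors := by rw [h1]; simp
    rw [Nat.mem_primeFactors] at hp hq
    rcases Nat.lt_or_gt_of_ne hpq with h3 | h3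
    · exact ⟨p, q, hp.1, hq.1, hr.2 p hp.1 hp.2.1, h3, h2.symm⟩
    · exact ⟨q, p, hq.1, hp.1, hr.2 q hq.1 hq.2.1, h3, by rw [← h2, mul_comm]⟩
  · rw [if_neg h, if_neg]
    rintro ⟨p, q, hp, hq, h3, h4, rfl⟩
    apply h
    have hc : Nat.Coprime p q := (Nat.coprime_primes hp hq).2 h4.ne
    rw [w, hc.primeFactors_mul, card_union_of_disjoint hc.disjoint_primeFactors, hp.primeFactors, hq.primeFactors]
    simp

lemma pi3_w {Q V j : ℕ} (hs : Squarefree j) (hr : Rough Q j) :
    pi3 Q V j = if w j = 3 ∧ ∀ p ∈ j.primeFactors, p ≤ V then 1 else 0 := by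
  unfold pi3
  by_cases h : w j = 3 ∧ ∀ p ∈ j.primeFactors, p ≤ V
  · rw [if_pos h, if_pos]
    obtain ⟨p, q, r, hpq, hpr, hqr, h1⟩ := card_eq_three.1 h.1
    have h2 := Nat.prod_primeFactors_of_squarefree hs
    rw [h1, prod_insert (by simp [hpq, hpr]), prod_pair hqr] at h2
    have hp : p ∈ j.primeFactors := by rw [h1]; simp
    have hq : q ∈ j.primeFactors := by rw [h1]; simp
    have hrr : r ∈ j.primeFactors := by rw [h1]; simp
    have hpV := h.2 p hp
    have hqV := h.2 q hq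
    have hrV := h.2 r hrr
    rw [Nat.mem_primeFactors] at hp hq hrr
    have hpQ := hr.2 p hp.1 hp.2.1
    have hqQ := hr.2 q hq.1 hq.2.1
    have hrQ := hr.2 r hrr.1 hrr.2.1
    rcases Nat.lt_or_gt_of_ne hpq with h3 | h3 <;> rcases Nat.lt_or_gt_of_ne hpr with h4 | h4 <;>
      rcases Nat.lt_or_gt_of_ne hqr with h5 | h5
    · exact ⟨p, q, r, hp.1, hq.1, hrr.1, hpQ, h3, h5, hrV, by rw [← h2]; ring⟩
    · exact ⟨p, r, q, hp.1, hrr.1, hq.1, hpQ, h4, h5, hqV, by rw [← h2]; ring⟩
    · omega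
    · exact ⟨r, p, q, hrr.1, hp.1, hq.1, hrQ, h4, h3, hqV, by rw [← h2]; ring⟩
    · exact ⟨q, p, r, hq.1, hp.1, hrr.1, hqQ, h3, h4, hrV, by rw [← h2]; ring⟩
    · omega
    · exact ⟨q, r, p, hq.1, hrr.1, hp.1, hqQ, h5, h4, hpV, by rw [← h2]; ring⟩
    · exact ⟨r, q, p, hrr.1, hq.1, hp.1, hrQ, h5, h3, hpV, by rw [← h2]; ring⟩
  · rw [if_neg h, if_neg]
    rintro ⟨p, q, r, hp, hq, hrr, h3, h4, h5, h6, rfl⟩
    apply h
    have hc : Nat.Coprime p q := (Nat.coprime_primes hp hq).2 h4.ne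
    have hc1 : Nat.Coprime p r := (Nat.coprime_primes hp hrr).2 (h4.trans h5).ne
    have hc2 : Nat.Coprime q r := (Nat.coprime_primes hq hrr).2 h5.ne
    have hc3 : Nat.Coprime (p * q) r := Nat.Coprime.mul_left hc1 hc2
    constructor
    · rw [w, hc3.primeFactors_mul, card_union_of_disjoint hc3.disjoint_primeFactors, hc.primeFactors_mul,
        card_union_of_disjoint hc.disjoint_primeFactors, hp.primeFactors, hq.primeFactors, hrr.primeFactors]
      simp
    · intro t ht
      rw [hc3.primeFactors_mul, hc.primeFactors_mul, hp.primeFactors, hq.primeFactors, hrr.primeFactors] at ht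
      simp only [mem_union, mem_singleton] at ht
      rcases ht with (ht | ht) | ht <;> omega

lemma T2_w {z U y N a b : ℕ} {f g : ℕ → ℝ} (hro : Rough z N) (hsq : Squarefree N)
    (hf : ∀ j, j ∣ N → f j = if w j = a then 1 else 0) (hg : ∀ j, j ∣ N → g j = if w j = b then 1 else 0) :
    T2 z U y f g N =
      if w N = a + b then (#(N.divisors.filter (fun j => w j = a ∧ U < j ∧ j ≤ y)) : ℝ) else 0 := by
  rw [T2_eq hro]
  split_ifs with h
  · rw [card_filter, Nat.cast_sum]
    apply sum_congr rfl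
    intro j hj
    rw [Nat.mem_divisors] at hj
    rw [hf j hj.1, hg _ (Nat.div_dvd_of_dvd hj.1)]
    have h1 := w_add hsq hj.1
    by_cases h2 : w j = a
    · have h3 : w (N / j) = b := by omega
      simp [h2, h3]
    · simp [h2]
  · apply sum_eq_zero
    intro j hj
    rw [Nat.mem_divisors] at hj
    rw [hf j hj.1, hg _ (Nat.div_dvd_of_dvd hj.1)]
    have h1 := w_add hsq hj.1
    by_cases h2 : w j = a
    · have h3 : w (N / j) ≠ b := by omega
      simp [h3]
    · simp [h2]

lemma T1_w {z U Q N : ℕ} (hro : Rough z N) (hsq : Squarefree N) (hr : Rough Q N) (hU : 1 ≤ U) (hUQ : U ≤ Q * Q) :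
    T1 z U (fun d => (moebius d : ℝ)) N = 1 - (#(N.divisors.filter (fun j => w j = 1 ∧ j ≤ U)) : ℝ) := by
  rw [T1_eq hro, card_filter, Nat.cast_sum]
  have h1 : ∑ j ∈ N.divisors, (if j = 1 then (1 : ℝ) else 0) = 1 := by
    rw [sum_ite_eq' N.divisors 1 (fun _ => (1 : ℝ)), if_pos (Nat.one_mem_divisors.2 hro.1)]
  rw [← h1, ← sum_sub_distrib]
  apply sum_congr rfl
  intro j hj
  rw [Nat.mem_divisors] at hj
  have hjs : Squarefree j := hsq.squarefree_of_dvd hj.1
  have hjr : Rough Q j := rough_of_dvd hr hj.1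
  by_cases h2 : j ≤ U
  · have h3 : w j < 2 := by
      by_contra h
      push Not at h
      have h4 := w_pow hjr
      have h5 : (Q + 1) ^ 2 ≤ (Q + 1) ^ w j := Nat.pow_le_pow_right (by omega) h
      nlinarith
    rcases Nat.lt_or_ge (w j) 1 with h4 | h4
    · have h5 := one_of_w hjs (by omega)
      have h6 : w j = 0 := by omega
      subst h5
      simp [h6, hU]
    · have h5 : w j = 1 := by omega
      have h6 := prime_of_w hjs h5
      rw [ArithmeticFunction.moebius_apply_prime h6]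
      simp [h2, h5, h6.ne_one]
  · have h3 : j ≠ 1 := by omega
    simp [h2, h3]

lemma c1 {N : ℕ} (hsq : Squarefree N) : N.divisors.filter (fun j => w j = 1) = N.primeFactors := by
  ext j
  rw [mem_filter, Nat.mem_divisors, Nat.mem_primeFactors]
  constructor
  · rintro ⟨⟨h1, h2⟩, h3⟩
    exact ⟨prime_of_w (hsq.squarefree_of_dvd h1) h3, h1, h2⟩
  · rintro ⟨h1, h2, h3⟩
    exact ⟨⟨h2, h3⟩, w_prime h1⟩

lemma c2 {N : ℕ} (hsq : Squarefree N) : #(N.divisors.filter (fun j => w j = 2)) = (w N).choose 2 := by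
  rw [w, ← card_powersetCard]
  refine card_bij (fun j _ => j.primeFactors) ?_ ?_ ?_
  · intro j hj
    rw [mem_filter, Nat.mem_divisors] at hj
    rw [mem_powersetCard]
    exact ⟨Nat.primeFactors_mono hj.1.1 hj.1.2, hj.2⟩
  · intro i hi j hj hij
    rw [mem_filter, Nat.mem_divisors] at hi hj
    rw [← Nat.prod_primeFactors_of_squarefree (hsq.squarefree_of_dvd hi.1.1),
      ← Nat.prod_primeFactors_of_squarefree (hsq.squarefree_of_dvd hj.1.1)]
    exact congrArg (fun S : Finset ℕ => ∏ p ∈ S, p) hij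
  · intro S hS
    rw [mem_powersetCard] at hS
    have h1 : (∏ p ∈ S, p).primeFactors = S :=
      Nat.primeFactors_prod (fun p hp => Nat.prime_of_mem_primeFactors (hS.1 hp))
    have h2 : ∏ p ∈ S, p ∣ N := by
      have := Finset.prod_dvd_prod_of_subset S N.primeFactors (fun p => p) hS.1
      rwa [Nat.prod_primeFactors_of_squarefree hsq] at this
    refine ⟨∏ p ∈ S, p, ?_, h1⟩
    rw [mem_filter, Nat.mem_divisors]
    refine ⟨⟨h2, hsq.ne_zero⟩, ?_⟩
    rw [w, h1, hS.2]

lemma inv {y N a b : ℕ} (hsq : Squarefree N) (hyN : y * y < N) (hne : ∀ j, j ∣ N → ¬ (y ≤ j ∧ y ≤ N / j))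
    (h : w N = a + b) :
    #(N.divisors.filter (fun j => w j = a ∧ j ≤ y)) = #(N.divisors.filter (fun j => w j = b ∧ y < j)) := by
  have hN0 := hsq.ne_zero
  refine card_nbij' (fun j => N / j) (fun j => N / j) ?_ ?_ ?_ ?_
  · intro j hj
    rw [mem_coe, mem_filter, Nat.mem_divisors] at hj
    have h1 := w_add hsq hj.1.1
    have h2 := near hyN hj.1.1 (hne _ hj.1.1)
    rw [mem_coe, mem_filter, Nat.mem_divisors]
    exact ⟨⟨Nat.div_dvd_of_dvd hj.1.1, hN0⟩, by show w (N / j) = b; omega, h2.1 hj.2.2⟩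
  · intro j hj
    rw [mem_coe, mem_filter, Nat.mem_divisors] at hj
    have h0 := Nat.div_dvd_of_dvd hj.1.1
    have h1 := w_add hsq hj.1.1
    have h2 := near hyN h0 (hne _ h0)
    rw [Nat.div_div_self hj.1.1 hN0] at h2
    rw [mem_coe, mem_filter, Nat.mem_divisors]
    exact ⟨⟨h0, hN0⟩, by show w (N / j) = a; omega, h2.2 hj.2.2⟩
  · intro j hj
    rw [mem_coe, mem_filter, Nat.mem_divisors] at hj
    exact Nat.div_div_self hj.1.1 hN0
  · intro j hj
    rw [mem_coe, mem_filter, Nat.mem_divisors] at hj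
    exact Nat.div_div_self hj.1.1 hN0

lemma split1 (D : Finset ℕ) {U y a : ℕ} (h : U ≤ y) :
    #(D.filter (fun j => w j = a ∧ j ≤ U)) + #(D.filter (fun j => w j = a ∧ U < j ∧ j ≤ y)) =
      #(D.filter (fun j => w j = a ∧ j ≤ y)) := by
  rw [← card_union_of_disjoint]
  · congr 1
    ext j
    simp only [mem_union, mem_filter]
    constructor
    · rintro (⟨h1, h2, h3⟩ | ⟨h1, h2, h3, h4⟩)
      · exact ⟨h1, h2, by omega⟩
      · exact ⟨h1, h2, h4⟩
    · rintro ⟨h1, h2, h3⟩
      rcases Nat.lt_or_ge U j with h4 | h4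
      · exact Or.inr ⟨h1, h2, h4, h3⟩
      · exact Or.inl ⟨h1, h2, h4⟩
  · rw [disjoint_left]
    intro j h1 h2
    rw [mem_filter] at h1 h2
    omega

lemma split2 (D : Finset ℕ) {y a : ℕ} :
    #(D.filter (fun j => w j = a ∧ j ≤ y)) + #(D.filter (fun j => w j = a ∧ y < j)) =
      #(D.filter (fun j => w j = a)) := by
  rw [← card_union_of_disjoint]
  · congr 1
    ext j
    simp only [mem_union, mem_filter]
    constructor
    · rintro (⟨h1, h2, h3⟩ | ⟨h1, h2, h3⟩)
      · exact ⟨h1, h2⟩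
      · exact ⟨h1, h2⟩
    · rintro ⟨h1, h2⟩
      rcases Nat.lt_or_ge y j with h4 | h4
      · exact Or.inr ⟨h1, h2, h4⟩
      · exact Or.inl ⟨h1, h2, h4⟩
  · rw [disjoint_left]
    intro j h1 h2
    rw [mem_filter] at h1 h2
    omega

lemma split3 (D : Finset ℕ) {V y a : ℕ} (h : V ≤ y) :
    #(D.filter (fun j => w j = a ∧ V < j ∧ j ≤ y)) + #(D.filter (fun j => w j = a ∧ y < j)) =
      #(D.filter (fun j => w j = a ∧ V < j)) := by
  rw [← card_union_of_disjoint]
  · congr 1
    ext j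
    simp only [mem_union, mem_filter]
    constructor
    · rintro (⟨h1, h2, h3, h4⟩ | ⟨h1, h2, h3⟩)
      · exact ⟨h1, h2, h3⟩
      · exact ⟨h1, h2, by omega⟩
    · rintro ⟨h1, h2, h3⟩
      rcases Nat.lt_or_ge y j with h4 | h4
      · exact Or.inr ⟨h1, h2, h4⟩
      · exact Or.inl ⟨h1, h2, h3, h4⟩
  · rw [disjoint_left]
    intro j h1 h2
    rw [mem_filter] at h1 h2
    omega

/-- the case that all prime factors of `N` are `> Q` -/
lemma case2 {z U y Q V K N : ℕ} {zs : ℕ → ℕ} (hU : 1 ≤ U) (hUV : U ≤ V) (hVy : V ≤ y)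
    (hzK : zs K = Q) (hmono0 : ∀ i < K, zs i ≤ zs (i + 1)) (hyN : y * y < N) (hN5 : N < Q ^ 5)
    (hUQ : U ≤ Q * Q) (hNU : N ≤ U * Q ^ 3) (hNV : N ≤ V * V * Q)
    (hsq : Squarefree N) (hro : Rough z N) (hne : ∀ j, j ∣ N → ¬ (y ≤ j ∧ y ≤ N / j))
    (hr : Rough Q N) :
    HL9 z U y Q V K zs N = pi0 N - 2 * pi3 Q V N := by
  have hN0 := hro.1
  have hmono : ∀ i j, i ≤ j → j ≤ K → zs i ≤ zs j := by
    intro i j hij
    induction j, hij using Nat.le_induction with
    | base => intro _; exact le_rfl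
    | succ j hj ih => intro h; exact (ih (by omega)).trans (hmono0 j (by omega))
  have half : ∀ i < K, ∀ j, j ∣ N → alf (zs i) (zs (i + 1)) U j = 0 := by
    intro i hi j hj
    unfold alf
    apply sum_eq_zero
    intro q hq
    rw [mem_filter, Nat.mem_primeFactors] at hq
    have h1 := hr.2 q hq.1.1 (hq.1.2.1.trans hj)
    have h2 := hmono (i + 1) K hi le_rfl
    omega
  have hS : ∑ i ∈ range K, (T2 z U y (alf (zs i) (zs (i + 1)) U) (rg (zs (i + 1))) N +
      T2 z U y (rg (zs (i + 1))) (alf (zs i) (zs (i + 1)) U) N) = 0 := by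
    apply sum_eq_zero
    intro i hi
    rw [mem_range] at hi
    rw [T2_eq hro, T2_eq hro, sum_eq_zero, sum_eq_zero, add_zero]
    · intro j hj
      rw [Nat.mem_divisors] at hj
      rw [half i hi _ (Nat.div_dvd_of_dvd hj.1), mul_zero, ite_self]
    · intro j hj
      rw [Nat.mem_divisors] at hj
      rw [half i hi _ hj.1, zero_mul, ite_self]
  have hf1 : ∀ j, j ∣ N → pi0 j = if w j = 1 then 1 else 0 := fun j hj => pi0_w (hsq.squarefree_of_dvd hj)
  have hf2 : ∀ j, j ∣ N → pi2 Q j = if w j = 2 then 1 else 0 :=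
    fun j hj => pi2_w (hsq.squarefree_of_dvd hj) (rough_of_dvd hr hj)
  have hwp := w_pow hr
  have hw1 : w N ≠ 0 := by
    intro h
    have h1 := one_of_w hsq h
    subst h1
    have : y = 0 := by nlinarith
    omega
  have hw5 : w N < 5 := by
    by_contra h
    push Not at h
    have h5 : (Q + 1) ^ 5 ≤ (Q + 1) ^ w N := Nat.pow_le_pow_right (by omega) h
    have h6 : Q ^ 5 ≤ (Q + 1) ^ 5 := Nat.pow_le_pow_left (by omega) 5
    omega
  unfold HL9
  rw [hS, T1_w hro hsq hr hU hUQ, T2_w hro hsq hf1 hf1, T2_w hro hsq hf1 hf2, T2_w hro hsq hf1 hf2,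
    T2_w hro hsq hf2 hf1, T2_w hro hsq hf2 hf2, hf1 N dvd_rfl, pi3_w hsq hr]
  have s1 := split1 N.divisors (U := U) (y := y) (a := 1) (by omega)
  have s2 := split2 N.divisors (y := y) (a := 1)
  have s3 := split3 N.divisors (V := V) (y := y) (a := 1) hVy
  have s4 := split1 N.divisors (U := U) (y := y) (a := 2) (by omega)
  have s5 := split2 N.divisors (y := y) (a := 2)
  have n1 : #(N.divisors.filter (fun j => w j = 1)) = w N := by rw [c1 hsq, w]
  have n2 := c2 hsq
  have n3 : #(N.divisors.filter (fun j => w j = 2 ∧ j ≤ U)) = 0 := by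
    rw [card_eq_zero]
    apply filter_eq_empty_iff.2
    rintro j hj ⟨h1, h2⟩
    rw [Nat.mem_divisors] at hj
    have h3 := w_pow (rough_of_dvd hr hj.1)
    rw [h1] at h3
    nlinarith
  rw [n1] at s2
  rw [n2] at s5
  rw [n3, zero_add] at s4
  generalize e1 : #(N.divisors.filter (fun j => w j = 1 ∧ U < j ∧ j ≤ y)) = A1 at *
  generalize e2 : #(N.divisors.filter (fun j => w j = 1 ∧ V < j ∧ j ≤ y)) = A2 at *
  generalize e3 : #(N.divisors.filter (fun j => w j = 2 ∧ U < j ∧ j ≤ y)) = A3 at *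
  have hcases : w N = 1 ∨ w N = 2 ∨ w N = 3 ∨ w N = 4 := by omega
  rcases hcases with hk | hk | hk | hk
  · -- `N` is a prime
    have n4 : #(N.divisors.filter (fun j => w j = 1 ∧ j ≤ U)) = 0 := by
      rw [card_eq_zero]
      apply filter_eq_empty_iff.2
      rintro j hj ⟨h1, h2⟩
      rw [Nat.mem_divisors] at hj
      have h3 := prime_of_w hsq hk
      rcases (Nat.dvd_prime h3).1 hj.1 with h4 | h4
      · rw [h4, w] at h1
        simp at h1
      · have h9 : y ≤ y * y := Nat.le_mul_self y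
        omega
    rw [n4]
    simp [hk]
  · have i1 := inv (a := 1) (b := 1) hsq hyN hne (by omega)
    rw [hk] at s2
    generalize #(N.divisors.filter (fun j => w j = 1 ∧ j ≤ U)) = A4 at *
    generalize #(N.divisors.filter (fun j => w j = 1 ∧ j ≤ y)) = A5 at *
    generalize #(N.divisors.filter (fun j => w j = 1 ∧ y < j)) = A6 at *
    have h6 : A4 + A1 = 1 := by omega
    have h7 : (A4 : ℝ) + A1 = 1 := by exact_mod_cast h6
    simp [hk]
    linarith
  · have i1 := inv (a := 2) (b := 1) hsq hyN hne (by omega)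
    rw [hk] at s2
    have hV : (#(N.divisors.filter (fun j => w j = 1 ∧ V < j)) : ℝ) =
        if w N = 3 ∧ ∀ p ∈ N.primeFactors, p ≤ V then 0 else 1 := by
      split_ifs with h
      · rw [Nat.cast_eq_zero, card_eq_zero]
        apply filter_eq_empty_iff.2
        rintro j hj ⟨h1, h2⟩
        rw [Nat.mem_divisors] at hj
        have h3 := prime_of_w (hsq.squarefree_of_dvd hj.1) h1
        have := h.2 j (Nat.mem_primeFactors.2 ⟨h3, hj⟩)
        omega
      · rw [Nat.cast_eq_one, card_eq_one]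
        push Not at h
        obtain ⟨p, hp, hpV⟩ := h hk
        rw [Nat.mem_primeFactors] at hp
        refine ⟨p, ?_⟩
        ext j
        rw [mem_filter, Nat.mem_divisors, mem_singleton]
        constructor
        · rintro ⟨h1, h2, h3⟩
          by_contra hjp
          have h4 := prime_of_w (hsq.squarefree_of_dvd h1.1) h2
          have hc : Nat.Coprime j p := (Nat.coprime_primes h4 hp.1).2 hjp
          have h5 : j * p ∣ N := hc.mul_dvd_of_dvd_of_dvd h1.1 hp.2.1
          have h6 : w (j * p) = 2 := by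
            rw [w, hc.primeFactors_mul, card_union_of_disjoint hc.disjoint_primeFactors, h4.primeFactors,
              hp.1.primeFactors]
            simp
          have h7 := w_add hsq h5
          have h8 : w (N / (j * p)) = 1 := by omega
          have h9 := w_pow (rough_of_dvd hr (Nat.div_dvd_of_dvd h5))
          rw [h8, pow_one] at h9
          have h10 := Nat.mul_div_cancel' h5
          have h11 : V * V ≤ j * p := Nat.mul_le_mul h3.le hpV.le
          have h12 : j * p * (Q + 1) ≤ N := by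
            calc j * p * (Q + 1) ≤ j * p * (N / (j * p)) := Nat.mul_le_mul le_rfl h9
              _ = N := h10
          have h13 : 0 < j * p := Nat.mul_pos h4.pos hp.1.pos
          nlinarith
        · rintro rfl
          exact ⟨hp.2, w_prime hp.1, hpV⟩
    generalize #(N.divisors.filter (fun j => w j = 1 ∧ j ≤ U)) = A4 at *
    generalize #(N.divisors.filter (fun j => w j = 1 ∧ j ≤ y)) = A5 at *
    generalize #(N.divisors.filter (fun j => w j = 1 ∧ y < j)) = A6 at *
    generalize #(N.divisors.filter (fun j => w j = 2 ∧ j ≤ y)) = A7 at *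
    generalize #(N.divisors.filter (fun j => w j = 1 ∧ V < j)) = A8 at *
    have t1 : (A4 : ℝ) + A1 + A6 = 3 := by
      have : A4 + A1 + A6 = 3 := by omega
      exact_mod_cast this
    have t2 : (A2 : ℝ) + A6 = A8 := by exact_mod_cast s3
    have t3 : (A3 : ℝ) = A6 := by
      have : A3 = A6 := by omega
      exact_mod_cast this
    have t4 : (if w N = 3 ∧ ∀ p ∈ N.primeFactors, p ≤ V then (1 : ℝ) else 0) = 1 - A8 := by
      rw [hV]
      split_ifs <;> ring
    rw [t4]
    simp [hk]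
    linarith
  · have i1 := inv (a := 2) (b := 2) hsq hyN hne (by omega)
    rw [hk] at s5
    have n4 : #(N.divisors.filter (fun j => w j = 1 ∧ j ≤ U)) = 4 := by
      rw [← hk, ← n1]
      congr 1
      apply filter_congr
      intro j hj
      rw [Nat.mem_divisors] at hj
      constructor
      · exact fun h => h.1
      · intro h
        refine ⟨h, ?_⟩
        by_contra h2
        push Not at h2
        have h7 := w_add hsq hj.1
        have h8 : w (N / j) = 3 := by omega
        have h9 := w_pow (rough_of_dvd hr (Nat.div_dvd_of_dvd hj.1))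
        rw [h8] at h9
        have h10 := Nat.mul_div_cancel' hj.1
        have h11 : Q ^ 3 ≤ (Q + 1) ^ 3 := Nat.pow_le_pow_left (by omega) 3
        have h12 : (U + 1) * (Q + 1) ^ 3 ≤ N := by
          calc (U + 1) * (Q + 1) ^ 3 ≤ j * (N / j) := Nat.mul_le_mul h2 h9
            _ = N := h10
        have h13 : 0 < (Q + 1) ^ 3 := by positivity
        nlinarith
    have c42 : Nat.choose 4 2 = 6 := by decide
    rw [c42] at s5
    generalize #(N.divisors.filter (fun j => w j = 2 ∧ y < j)) = A6 at *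
    generalize #(N.divisors.filter (fun j => w j = 2 ∧ j ≤ y)) = A7 at *
    have t3 : (A3 : ℝ) = 3 := by
      have : A3 = 3 := by omega
      exact_mod_cast this
    rw [n4, t3]
    simp [hk]
    norm_num

end Pool.Agent.N792.RX5

namespace Pool.Agent.N792

theorem x5 : X5 := by
  intro z U y Q V K N zs hz hU hQU hUV hVy hz0 hzK hmono hyN hN5 hUQ hNU hUUQ hNV hsq hro hne huniq
  by_cases hQ : Rough Q N
  · exact RX5.case2 hU hUV hVy hzK hmono hyN hN5 hUQ hNU hNV hsq hro hne hQ
  · exact RX5.case1 hQU hUV hVy hz0 hzK hmono hyN hUUQ hsq hro hne huniq hQ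

end Pool.Agent.N792
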