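import Mathlib
import Pool.Agent.N792.RX2a
import Pool.Agent.N792.QR2
import Pool.Agent.H305R2.MertensM

/-!
X6: the values divisible by two primes of one of the short ranges (helper72, for helper792).
-/

set_option autoImplicit false

namespace Pool.Agent.N792
open Finset Filter Topology

namespace RX

/-- the sum of the reciprocals of the primes in `(u, v]` -/
noncomputable def ps (u v : ℕ) : ℝ := ∑ p ∈ (Ioc u v).filter Nat.Prime, 1 / (p : ℝ)

lemma ps_nonneg (u v : ℕ) : 0 ≤ ps u v := sum_nonneg fun _ _ => by positivity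

lemma ps_add {u v w : ℕ} (h1 : u ≤ v) (h2 : v ≤ w) : ps u v + ps v w = ps u w := by
  unfold ps
  rw [← sum_union]
  · congr 1
    ext p
    simp only [mem_union, mem_filter, mem_Ioc]
    constructor
    · rintro (⟨⟨h3, h4⟩, h5⟩ | ⟨⟨h3, h4⟩, h5⟩)
      · exact ⟨⟨h3, h4.trans h2⟩, h5⟩
      · exact ⟨⟨lt_of_le_of_lt h1 h3, h4⟩, h5⟩
    · rintro ⟨⟨h3, h4⟩, h5⟩
      rcases le_or_gt p v with h | h
      · exact Or.inl ⟨⟨h3, h⟩, h5⟩
      · exact Or.inr ⟨⟨h, h4⟩, h5⟩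
  · rw [disjoint_left]
    intro p hp hq
    rw [mem_filter, mem_Ioc] at hp hq
    omega

lemma mert (ε : ℝ) (hε : 0 < ε) : ∃ y0 : ℕ, ∀ u v : ℕ, y0 ≤ u → u ≤ v →
    ps u v ≤ Real.log (Real.log v) - Real.log (Real.log u) + ε := by
  obtain ⟨M, hM⟩ := Pool.Agent.H305R2.mertens_inv_tendsto
  have h1 := Metric.tendsto_atTop.1 hM (ε / 2) (by positivity)
  obtain ⟨y0, hy0⟩ := h1
  refine ⟨y0, fun u v hu huv => ?_⟩
  have e1 := hy0 u hu
  have e2 := hy0 v (hu.trans huv)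
  rw [Real.dist_eq, abs_lt] at e1 e2
  have e3 : ∑ p ∈ (Icc 1 v).filter Nat.Prime, (1 : ℝ) / p =
      ∑ p ∈ (Icc 1 u).filter Nat.Prime, (1 : ℝ) / p + ps u v := by
    unfold ps
    rw [← sum_union]
    · congr 1
      ext p
      simp only [mem_union, mem_filter, mem_Ioc, mem_Icc]
      constructor
      · rintro ⟨⟨h3, h4⟩, h5⟩
        rcases le_or_gt p u with h | h
        · exact Or.inl ⟨⟨h3, h⟩, h5⟩
        · exact Or.inr ⟨⟨h, h4⟩, h5⟩
      · rintro (⟨⟨h3, h4⟩, h5⟩ | ⟨⟨h3, h4⟩, h5⟩)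
        · exact ⟨⟨h3, h4.trans huv⟩, h5⟩
        · exact ⟨⟨by omega, h4⟩, h5⟩
    · rw [disjoint_left]
      intro p hp hq
      rw [mem_filter, mem_Icc] at hp
      rw [mem_filter, mem_Ioc] at hq
      omega
  rw [e3] at e2
  linarith [e1.1, e1.2, e2.1, e2.2]

/-- the property counted by `same` -/
def two (u v j : ℕ) : Prop := ∃ p q : ℕ, p.Prime ∧ q.Prime ∧ u < p ∧ p < q ∧ q ≤ v ∧ j = p * q

lemma two_prime {u v j : ℕ} (h : two u v j) : Squarefree j := by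
  obtain ⟨p, q, hp, hq, h1, h2, h3, rfl⟩ := h
  rw [Nat.squarefree_mul ((Nat.coprime_primes hp hq).2 h2.ne)]
  exact ⟨hp.prime.squarefree, hq.prime.squarefree⟩

lemma zs_mono {K : ℕ} {zs : ℕ → ℕ} (h : ∀ i < K, zs i ≤ zs (i + 1)) {i i' : ℕ} (h1 : i ≤ i') (h2 : i' ≤ K) :
    zs i ≤ zs i' := by
  induction i', h1 using Nat.le_induction with
  | base => exact le_rfl
  | succ n hn ih => exact (ih (by omega)).trans (h n (by omega))

open Classical in
lemma same_eq (K : ℕ) (zs : ℕ → ℕ) (j : ℕ) :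
    same K zs j = ∑ i ∈ range K, if two (zs i) (zs (i + 1)) j then (1 : ℝ) else 0 := by
  unfold same two
  rw [card_filter]
  push_cast
  rfl

lemma same_nonneg (K : ℕ) (zs : ℕ → ℕ) (j : ℕ) : 0 ≤ same K zs j := by
  unfold same; positivity

lemma same_le_one {K : ℕ} {zs : ℕ → ℕ} (h : ∀ i < K, zs i ≤ zs (i + 1)) (j : ℕ) : same K zs j ≤ 1 := by
  classical
  have key : ∀ i i', i < K → i' < K → i < i' → two (zs i) (zs (i + 1)) j → ¬ two (zs i') (zs (i' + 1)) j := by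
    rintro i i' hi hi' hlt ⟨p, q, hp, hq, h1, h2, h3, h4⟩ ⟨p', q', hp', hq', h1', h2', h3', h4'⟩
    have h5 : zs (i + 1) ≤ zs i' := zs_mono h hlt hi'.le
    have h6 : p' ∣ p * q := by rw [← h4, h4']; exact dvd_mul_right _ _
    rcases (Nat.Prime.dvd_mul hp').1 h6 with h7 | h7
    · rw [Nat.prime_dvd_prime_iff_eq hp' hp] at h7; omega
    · rw [Nat.prime_dvd_prime_iff_eq hp' hq] at h7; omega
  unfold same
  have : #((range K).filter (fun i => ∃ p q : ℕ, p.Prime ∧ q.Prime ∧ zs i < p ∧ p < q ∧ q ≤ zs (i + 1) ∧ j = p * q)) ≤ 1 := by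
    rw [card_le_one]
    intro i hi i' hi'
    rw [mem_filter, mem_range] at hi hi'
    by_contra hne
    rcases lt_or_gt_of_ne hne with hlt | hlt
    · exact key i i' hi.1 hi'.1 hlt hi.2 hi'.2
    · exact key i' i hi'.1 hi.1 hlt hi'.2 hi.2
  exact_mod_cast this

lemma same_sqf {K : ℕ} {zs : ℕ → ℕ} {j : ℕ} (h : same K zs j ≠ 0) : Squarefree j := by
  classical
  rw [same_eq] at h
  obtain ⟨i, hi, h1⟩ := exists_ne_zero_of_sum_ne_zero h
  have h2 : two (zs i) (zs (i + 1)) j := by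
    by_contra hcon
    rw [if_neg hcon] at h1
    exact h1 rfl
  exact two_prime h2

open Classical in
lemma two_sum (u v U : ℕ) : ∑ j ∈ Icc 1 U, (if two u v j then (1 : ℝ) else 0) / j ≤ ps u v ^ 2 := by
  have h1 : ∑ j ∈ Icc 1 U, (if two u v j then (1 : ℝ) else 0) / j =
      ∑ j ∈ (Icc 1 U).filter (fun j => two u v j), 1 / (j : ℝ) := by
    rw [sum_filter]
    apply sum_congr rfl
    intro j _
    split_ifs <;> simp
  rw [h1]
  set P := (Ioc u v).filter Nat.Prime with hP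
  have h2 : (Icc 1 U).filter (fun j => two u v j) ⊆ (P ×ˢ P).image (fun t : ℕ × ℕ => t.1 * t.2) := by
    intro j hj
    rw [mem_filter] at hj
    obtain ⟨-, p, q, hp, hq, h3, h4, h5, h6⟩ := hj
    rw [mem_image]
    refine ⟨(p, q), ?_, h6.symm⟩
    rw [mem_product, hP, mem_filter, mem_filter, mem_Ioc, mem_Ioc]
    exact ⟨⟨⟨h3, by omega⟩, hp⟩, ⟨⟨by omega, h5⟩, hq⟩⟩
  refine (sum_le_sum_of_subset_of_nonneg h2 fun _ _ _ => by positivity).trans ?_
  refine (sum_image_le_of_nonneg (fun _ _ => by positivity)).trans ?_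
  rw [sum_product, sq]
  unfold ps
  rw [sum_mul_sum]
  apply le_of_eq
  apply sum_congr rfl
  intro p _
  apply sum_congr rfl
  intro q _
  push_cast
  rw [one_div_mul_one_div]

lemma same_sum {K : ℕ} {zs : ℕ → ℕ} (h : ∀ i < K, zs i ≤ zs (i + 1)) (z U : ℕ) {s : ℝ}
    (hs : ∀ i < K, ps (zs i) (zs (i + 1)) ≤ s) :
    ∑ j ∈ Icc 1 U, rg z j * |same K zs j| / j ≤ s * ps (zs 0) (zs K) := by
  classical
  have h1 : ∑ j ∈ Icc 1 U, rg z j * |same K zs j| / j ≤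
      ∑ j ∈ Icc 1 U, ∑ i ∈ range K, (if two (zs i) (zs (i + 1)) j then (1 : ℝ) else 0) / j := by
    apply sum_le_sum
    intro j _
    rw [abs_of_nonneg (same_nonneg K zs j), ← sum_div, ← same_eq]
    apply div_le_div_of_nonneg_right _ (Nat.cast_nonneg _)
    calc rg z j * same K zs j ≤ 1 * same K zs j :=
          mul_le_mul_of_nonneg_right (rg_range z j).2 (same_nonneg K zs j)
      _ = _ := one_mul _
  refine h1.trans ?_
  rw [sum_comm]
  have h2 : ∀ i ∈ range K, ∑ j ∈ Icc 1 U, (if two (zs i) (zs (i + 1)) j then (1 : ℝ) else 0) / j ≤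
      s * ps (zs i) (zs (i + 1)) := by
    intro i hi
    rw [mem_range] at hi
    refine (two_sum _ _ U).trans ?_
    rw [sq]
    exact mul_le_mul_of_nonneg_right (hs i hi) (ps_nonneg _ _)
  refine (sum_le_sum h2).trans ?_
  rw [← mul_sum]
  have h3 : ∀ k ≤ K, ∑ i ∈ range k, ps (zs i) (zs (i + 1)) = ps (zs 0) (zs k) := by
    intro k
    induction k with
    | zero => intro _; unfold ps; simp
    | succ n ih =>
      intro hn
      rw [sum_range_succ, ih (by omega)]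
      exact ps_add (zs_mono h (Nat.zero_le _) (by omega)) (h n (by omega))
  rw [h3 K le_rfl]

end RX

/-- **the values divisible by two primes of one of the ranges** -/
theorem x6 (a : ℤ) (ha : 0 < a) (b : ℤ) : X6 a b := by
  classical
  intro R K1 hK1
  obtain ⟨C2, η2, hC2, hη2, hη2', H2⟩ := RX.ls_gen a ha b R
  obtain ⟨C3, η3, hC3, hη3, hη3', H3⟩ := RX.lc_gen a ha b (r2 a ha b) R
  obtain ⟨C5, hC5⟩ : ∃ C5 : ℝ, C5 = 4 * (C2 + 2) + 16 * K1 * (C3 + 2) + 1 := ⟨_, rfl⟩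
  refine ⟨C5, min η2 η3, by rw [hC5]; positivity, lt_min hη2 hη3, fun η κ hη hη0 hκ hκ1 E => ?_⟩
  have hηa : η ≤ η2 := hη0.trans (min_le_left _ _)
  have hηb : η ≤ η3 := hη0.trans (min_le_right _ _)
  have hη1 : η ≤ 1 / 40 := by linarith
  obtain ⟨x2, H2⟩ := H2 η hη hηa
  obtain ⟨x3, H3⟩ := H3 η hη hηb
  obtain ⟨y4, H4⟩ := RX.mert κ hκ
  obtain ⟨D, hD⟩ : ∃ D : ℝ, D = κ / η ^ 2 / (C2 + 2 * C3) := ⟨_, rfl⟩
  have hD0 : 0 < D := by rw [hD]; positivity
  have hev1 := (Real.tendsto_log_atTop.comp tendsto_natCast_atTop_atTop).eventually_ge_atTop 1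
  have hev2 := Shp.log_pow_le 1 (1 / D) (1 / 20) (by norm_num)
  have hev3 := ((tendsto_rpow_atTop (by positivity : 0 < η / 2)).comp tendsto_natCast_atTop_atTop).eventually_ge_atTop
    (max (y4 : ℝ) 3)
  obtain ⟨x7, H7⟩ := eventually_atTop.1 ((hev1.and hev2).and hev3)
  refine ⟨x2 + x3 + x7 + 3, fun x hx x1 C J Jw K Q U zs hx1 hxR hxC hCx hz1 hz2 hw hQ hU hzs0 hzsK hzs hzsκ => ?_⟩
  obtain ⟨⟨hL, hLp⟩, hy⟩ := H7 x (by omega)
  simp only [Function.comp_apply] at hL hy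
  obtain ⟨L, hLd⟩ : ∃ L : ℝ, L = Real.log x := ⟨_, rfl⟩
  rw [← hLd] at hL
  have hL0 : 0 < L := by linarith
  obtain ⟨z, hz⟩ : ∃ z : ℕ, z = 2 ^ 2 ^ J := ⟨_, rfl⟩
  have hxr : (1 : ℝ) ≤ x := by exact_mod_cast (by omega : 1 ≤ x)
  have hx0 : (0 : ℝ) < x := by linarith
  have hC0 : (0 : ℝ) < C := lt_of_lt_of_le (Real.rpow_pos_of_pos hx0 _) hxC
  have hX0 : (0 : ℝ) ≤ (x : ℝ) - x1 := by
    have : (x1 : ℝ) ≤ x := by exact_mod_cast hx1.le
    linarith
  have hXx : (x : ℝ) - x1 ≤ x := by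
    have : (0 : ℝ) ≤ x1 := Nat.cast_nonneg _
    linarith
  have hzR : (x : ℝ) ^ (η / 2) ≤ z := by rw [hz]; exact hz1
  have hz3R : (3 : ℝ) ≤ z := (le_max_right _ _).trans (hy.trans hzR)
  have hzy : y4 ≤ z := by exact_mod_cast (le_max_left _ _).trans (hy.trans hzR)
  have hz3 : 3 ≤ z := by exact_mod_cast hz3R
  have hlz : η / 2 * L ≤ Real.log z := by
    rw [hLd, ← Real.log_rpow hx0, hz]
    exact Real.log_le_log (by positivity) hz1
  have hlz0 : 0 < Real.log z := lt_of_lt_of_le (by positivity) hlz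
  have hV1 : V1 z ≤ 2 / (η * L) := by
    refine (V1_le z (by omega)).trans ?_
    rw [div_le_div_iff₀ hlz0 (by positivity)]
    linarith
  rw [← hz] at hzs0
  have hmono : ∀ i ≤ K, z ≤ zs i := fun i hi => hzs0 ▸ RX.zs_mono hzs (Nat.zero_le i) hi
  -- the sums over the ranges
  have hps : ∀ i < K, RX.ps (zs i) (zs (i + 1)) ≤ 2 * κ := by
    intro i hi
    have h1 := H4 (zs i) (zs (i + 1)) (hzy.trans (hmono i hi.le)) (hzs i hi)
    have h2 := hzsκ i hi
    have h3 : 0 < Real.log (zs i) := lt_of_lt_of_le hlz0 (Real.log_le_log (by positivity) (by exact_mod_cast hmono i hi.le))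
    have h4 : 0 < Real.log (zs (i + 1)) := lt_of_lt_of_le hlz0 (Real.log_le_log (by positivity) (by exact_mod_cast hmono (i + 1) hi))
    have h5 : Real.log (Real.log (zs (i + 1))) ≤ Real.log (1 + κ) + Real.log (Real.log (zs i)) := by
      rw [← Real.log_mul (by positivity) h3.ne']
      exact Real.log_le_log h4 h2
    have h6 : Real.log (1 + κ) ≤ κ := by
      have := Real.log_le_sub_one_of_pos (by positivity : 0 < 1 + κ)
      linarith
    linarith
  have hzQ : z ≤ Q := by rw [← hzsK]; exact hmono K le_rfl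
  have hpsQ : RX.ps (zs 0) (zs K) ≤ 2 / η := by
    rw [hzs0, hzsK]
    have h1 := H4 z Q hzy hzQ
    have hQ0 : (0 : ℝ) < Q := by exact_mod_cast (by omega : 0 < Q)
    have h2 : Real.log Q ≤ L := by
      rw [hLd]
      apply Real.log_le_log hQ0
      refine hQ.trans ?_
      calc (x : ℝ) ^ (9 / 20 : ℝ) ≤ (x : ℝ) ^ (1 : ℝ) := Real.rpow_le_rpow_of_exponent_le hxr (by norm_num)
        _ = x := Real.rpow_one _
    have h3 : 0 < Real.log Q := lt_of_lt_of_le hlz0 (Real.log_le_log (by positivity) (by exact_mod_cast hzQ))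
    have h4 : Real.log (Real.log Q) - Real.log (Real.log z) ≤ 2 / η - 1 := by
      rw [← Real.log_div h3.ne' hlz0.ne']
      refine (Real.log_le_sub_one_of_pos (by positivity)).trans ?_
      apply sub_le_sub_right
      rw [div_le_div_iff₀ hlz0 hη]
      nlinarith
    linarith
  have hsum := RX.same_sum hzs z U hps
  have hsum2 : ∑ j ∈ Icc 1 U, rg z j * |same K zs j| / j ≤ 4 * κ / η := by
    refine hsum.trans ?_
    calc 2 * κ * RX.ps (zs 0) (zs K) ≤ 2 * κ * (2 / η) := by gcongr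
      _ = _ := by ring
  obtain ⟨Sa, hSa⟩ : ∃ Sa : ℝ, Sa = ∑ j ∈ Icc 1 U, rg z j * |same K zs j| / j := ⟨_, rfl⟩
  obtain ⟨Sb, hSb⟩ : ∃ Sb : ℝ, Sb = ∑ j ∈ Icc 1 U, |same K zs j| := ⟨_, rfl⟩
  rw [← hSa] at hsum2
  have hSa0 : 0 ≤ Sa := by
    rw [hSa]
    apply sum_nonneg
    intro j _
    have := (rg_range z j).1
    positivity
  have hSb0 : 0 ≤ Sb := by rw [hSb]; exact sum_nonneg fun _ _ => abs_nonneg _
  have hSbb : Sb ≤ (x : ℝ) ^ (9 / 10 : ℝ) := by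
    rw [hSb]
    calc ∑ j ∈ Icc 1 U, |same K zs j| ≤ ∑ j ∈ Icc 1 U, (1 : ℝ) := sum_le_sum fun j _ => by
          rw [abs_of_nonneg (RX.same_nonneg K zs j)]; exact RX.same_le_one hzs j
      _ = U := by rw [sum_const, Nat.card_Icc, nsmul_eq_mul, Nat.add_sub_cancel, mul_one]
      _ ≤ _ := hU
  have hpow1 : (1 : ℝ) ≤ (x : ℝ) ^ (1 / 20 : ℝ) := Real.one_le_rpow hxr (by norm_num)
  have hpow : (x : ℝ) ^ (1 / 20 : ℝ) * (x : ℝ) ^ (9 / 10 : ℝ) ≤ D * (x / L) := by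
    rw [pow_one, ← hLd] at hLp
    rw [mul_div_assoc', le_div_iff₀ hL0]
    have h2 : L ≤ (x : ℝ) ^ (1 / 20 : ℝ) * D := by
      rw [div_mul_eq_mul_div, one_mul, div_le_iff₀ hD0] at hLp
      exact hLp
    calc (x : ℝ) ^ (1 / 20 : ℝ) * (x : ℝ) ^ (9 / 10 : ℝ) * L
        ≤ (x : ℝ) ^ (1 / 20 : ℝ) * (x : ℝ) ^ (9 / 10 : ℝ) * ((x : ℝ) ^ (1 / 20 : ℝ) * D) := by gcongr
      _ = ((x : ℝ) ^ (1 / 20 : ℝ) * (x : ℝ) ^ (9 / 10 : ℝ) * (x : ℝ) ^ (1 / 20 : ℝ)) * D := by ring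
      _ = x * D := by
          rw [← Real.rpow_add hx0, ← Real.rpow_add hx0]
          norm_num
      _ = _ := by ring
  have hpow' : (x : ℝ) ^ (9 / 10 : ℝ) ≤ D * (x / L) := by
    refine le_trans ?_ hpow
    have : 0 ≤ (x : ℝ) ^ (9 / 10 : ℝ) := by positivity
    nlinarith
  have hDm : D * (C2 + 2 * C3) = κ / η ^ 2 := by
    rw [hD]
    field_simp
  have hDm1 : C2 * D ≤ κ / η ^ 2 := by rw [← hDm]; nlinarith
  have hDm2 : C3 * D ≤ κ / η ^ 2 := by rw [← hDm]; nlinarith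
  have hP : 0 < κ / η ^ 2 := by positivity
  have hrp : ∀ D' : ℝ, 0 < D' → (2 : ℝ) ^ (-(1 / (D' * η))) ≤ 1 := by
    intro D' hD'
    apply Real.rpow_le_one_of_one_le_of_nonpos (by norm_num)
    rw [neg_nonpos]
    positivity
  constructor
  · -- the weighted sum
    have k2 := H2 x (by omega) x1 J U hx1 hxR hz1 hz2 hU (same K zs)
    rw [← hz, ← hSa, ← hSb, ← hLd] at k2
    rw [← hz, ← hLd]
    have e1 : ((x : ℝ) - x1) * V1 z * ∑ j ∈ Icc 1 U, rg z j * same K zs j / j ≤ x * (2 / (η * L)) * Sa := by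
      have h1 : ∑ j ∈ Icc 1 U, rg z j * same K zs j / j = Sa := by
        rw [hSa]
        apply sum_congr rfl
        intro j _
        rw [abs_of_nonneg (RX.same_nonneg K zs j)]
      rw [h1]
      have := V1_pos z
      gcongr
    have e2 : C2 * (2 : ℝ) ^ (-(1 / (C2 * η))) / (η * L) * x * Sa ≤ C2 * 1 / (η * L) * x * Sa := by
      have := hrp C2 (by linarith)
      gcongr
    have e3 : C2 * Sb ≤ κ / η ^ 2 * (x / L) := by
      calc C2 * Sb ≤ C2 * (D * (x / L)) := by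
            apply mul_le_mul_of_nonneg_left (hSbb.trans hpow') (by linarith)
        _ = C2 * D * (x / L) := by ring
        _ ≤ _ := by gcongr
    have e4 : x * (2 / (η * L)) * Sa + C2 * 1 / (η * L) * x * Sa ≤ 4 * (C2 + 2) * (κ / η ^ 2) * (x / L) := by
      calc x * (2 / (η * L)) * Sa + C2 * 1 / (η * L) * x * Sa = (C2 + 2) / (η * L) * x * Sa := by ring
        _ ≤ (C2 + 2) / (η * L) * x * (4 * κ / η) := by gcongr
        _ = _ := by field_simp
    have e5 := (abs_le.1 k2).2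
    have e6 : C5 * (κ / η ^ 2) * (x / L) = 4 * (C2 + 2) * (κ / η ^ 2) * (x / L) +
        16 * K1 * (C3 + 2) * (κ / η ^ 2) * (x / L) + κ / η ^ 2 * (x / L) := by
      rw [hC5]; ring
    have e7 : 0 ≤ 16 * K1 * (C3 + 2) * (κ / η ^ 2) * (x / L) := by positivity
    rw [e6]
    linarith
  · intro Gd hGd hgood hS
    have hM : ∀ c ∈ Gd, Vc a b c (2 ^ 2 ^ J) ≤ 4 * K1 / (η * L) := by
      intro c hc
      have h1 := RX.Vc_le (L := Real.log x) (by rw [← hLd]; exact hL) (hgood c hc) (hS c hc)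
      rw [← hz] at h1 ⊢
      refine h1.trans ?_
      calc 2 * K1 * V1 z ≤ 2 * K1 * (2 / (η * L)) := by gcongr
        _ = _ := by ring
    obtain ⟨k3, k4⟩ := H3 x (by omega) x1 C J U hx1 hxR hxC hCx hz1 hz2 hU Gd hGd (4 * K1 / (η * L)) (by positivity) hM
      (same K zs) (fun j _ hj => RX.same_sqf hj)
    rw [← hz, ← hSa] at k3 k4
    rw [← hSb] at k3
    rw [← hz, ← hLd]
    have e1 : ∑ c ∈ Gd, Lc a b x1 x c (T1 z U (same K zs)) ≤
        ∑ c ∈ Gd, (|Lc a b x1 x c (T1 z U (same K zs)) - ((x : ℝ) - x1) * Vc a b (c : ℕ) z *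
          ∑ j ∈ Icc 1 U, rg z j * same K zs j * (rho a b (c : ℕ) j : ℝ) / j| +
          |((x : ℝ) - x1) * Vc a b (c : ℕ) z *
            ∑ j ∈ Icc 1 U, rg z j * same K zs j * (rho a b (c : ℕ) j : ℝ) / j|) := by
      apply sum_le_sum
      intro c _
      have h1 := le_abs_self (Lc a b x1 x c (T1 z U (same K zs)) - ((x : ℝ) - x1) * Vc a b (c : ℕ) z *
          ∑ j ∈ Icc 1 U, rg z j * same K zs j * (rho a b (c : ℕ) j : ℝ) / j)
      have h2 := le_abs_self (((x : ℝ) - x1) * Vc a b (c : ℕ) z *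
            ∑ j ∈ Icc 1 U, rg z j * same K zs j * (rho a b (c : ℕ) j : ℝ) / j)
      linarith
    rw [sum_add_distrib] at e1
    have e2 : C3 * (2 : ℝ) ^ (-(1 / (C3 * η))) * (4 * K1 / (η * L)) * (C * x) * Sa ≤
        C3 * 1 * (4 * K1 / (η * L)) * (C * x) * Sa := by
      have := hrp C3 (by linarith)
      gcongr
    have e3 : C3 * (x : ℝ) ^ (1 / 20 : ℝ) * C * Sb ≤ κ / η ^ 2 * (C * x / L) := by
      calc C3 * (x : ℝ) ^ (1 / 20 : ℝ) * C * Sb ≤ C3 * (x : ℝ) ^ (1 / 20 : ℝ) * C * (x : ℝ) ^ (9 / 10 : ℝ) := by gcongr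
        _ = C3 * C * ((x : ℝ) ^ (1 / 20 : ℝ) * (x : ℝ) ^ (9 / 10 : ℝ)) := by ring
        _ ≤ C3 * C * (D * (x / L)) := by gcongr
        _ = (C3 * D) * (C * x / L) := by ring
        _ ≤ _ := by gcongr
    have e4 : C3 * 1 * (4 * K1 / (η * L)) * (C * x) * Sa + 2 * (4 * K1 / (η * L)) * (C * x) * Sa ≤
        16 * K1 * (C3 + 2) * (κ / η ^ 2) * (C * x / L) := by
      calc C3 * 1 * (4 * K1 / (η * L)) * (C * x) * Sa + 2 * (4 * K1 / (η * L)) * (C * x) * Sa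
          = (C3 + 2) * (4 * K1 / (η * L)) * (C * x) * Sa := by ring
        _ ≤ (C3 + 2) * (4 * K1 / (η * L)) * (C * x) * (4 * κ / η) := by gcongr
        _ = _ := by field_simp; ring
    have e6 : C5 * (κ / η ^ 2) * (C * x / L) = 4 * (C2 + 2) * (κ / η ^ 2) * (C * x / L) +
        16 * K1 * (C3 + 2) * (κ / η ^ 2) * (C * x / L) + κ / η ^ 2 * (C * x / L) := by
      rw [hC5]; ring
    have e7 : 0 ≤ 4 * (C2 + 2) * (κ / η ^ 2) * (C * x / L) := by positivity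
    rw [e6]
    linarith

end Pool.Agent.N792
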