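import Mathlib
import Pool.Agent.N792.Defs

/-!
The lower bound of the truncated singular series for `C ≥ x^(1/2)` (helper221, subtask 1174). The lemmas are those of
the files `Pool/Agent/N670/Sing` (helper670), in their own namespace because of a clash of names, and the theorem
is that of `Pool/Agent/N792/SingP.lean` with another exponent.
-/

set_option autoImplicit false

namespace Pool.Agent.N792.RX8a

section SChi


open Finset Filter Topology

/-- The quadratic symbol of the discriminant. -/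
noncomputable def chiD (a b : ℤ) (c : ℕ) (p : ℕ) : ℤ := jacobiSym (b ^ 2 - 4 * a * c) p

lemma rho_card (a b c : ℤ) (p : ℕ) [Fact p.Prime] :
    rho a b c p =
      #(univ.filter (fun x : ZMod p => (a : ZMod p) * x ^ 2 + (b : ZMod p) * x + (c : ZMod p) = 0)) := by
  have hp : p ≠ 0 := (Fact.out : p.Prime).ne_zero
  have : NeZero p := ⟨hp⟩
  unfold rho fv
  refine Finset.card_bij' (fun r _ => (r : ZMod p)) (fun x _ => x.val) ?_ ?_ ?_ ?_
  · intro r hr
    have h := (mem_filter.mp hr).2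
    rw [← ZMod.intCast_zmod_eq_zero_iff_dvd] at h
    refine mem_filter.mpr ⟨mem_univ _, ?_⟩
    push_cast at h
    exact h
  · intro x hx
    have h := (mem_filter.mp hx).2
    refine mem_filter.mpr ⟨mem_range.mpr (ZMod.val_lt x), ?_⟩
    rw [← ZMod.intCast_zmod_eq_zero_iff_dvd]
    push_cast
    rw [ZMod.natCast_zmod_val]
    exact h
  · intro r hr
    exact ZMod.val_cast_of_lt (mem_range.mp (mem_filter.mp hr).1)
  · intro x _
    exact ZMod.natCast_zmod_val x

lemma rho_eq (a b c : ℤ) (p : ℕ) (hp : p.Prime) (h2 : ¬ (p : ℤ) ∣ 2 * a) :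
    (rho a b c p : ℤ) = 1 + jacobiSym (b ^ 2 - 4 * a * c) p := by
  have : Fact p.Prime := ⟨hp⟩
  have hp2 : p ≠ 2 := by
    rintro rfl
    exact h2 (Dvd.intro a rfl)
  have h2a : (2 * a : ZMod p) ≠ 0 := by
    intro h
    apply h2
    rw [← ZMod.intCast_zmod_eq_zero_iff_dvd]
    push_cast
    exact h
  have h20 : (2 : ZMod p) ≠ 0 := left_ne_zero_of_mul h2a
  have ha0 : (a : ZMod p) ≠ 0 := right_ne_zero_of_mul h2a
  rw [← jacobiSym.legendreSym.to_jacobiSym, add_comm, ← legendreSym.card_sqrts p hp2, rho_card]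
  norm_cast
  refine Finset.card_bij' (fun x _ => 2 * (a : ZMod p) * x + b)
    (fun y _ => (2 * (a : ZMod p))⁻¹ * (y - b)) ?_ ?_ ?_ ?_
  · intro x hx
    have h := (mem_filter.mp hx).2
    rw [Set.mem_toFinset]
    show (2 * (a : ZMod p) * x + b) ^ 2 = _
    push_cast
    linear_combination (4 * (a : ZMod p)) * h
  · intro y hy
    have h' := Set.mem_toFinset.mp hy
    have h : y ^ 2 = ((b ^ 2 - 4 * a * c : ℤ) : ZMod p) := h'
    push_cast at h
    refine mem_filter.mpr ⟨mem_univ _, ?_⟩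
    have h3 : (4 * (a : ZMod p)) ≠ 0 := by
      have : (4 : ZMod p) = 2 * 2 := by norm_num
      rw [this]
      exact mul_ne_zero (mul_ne_zero h20 h20) ha0
    apply mul_left_cancel₀ h3
    field_simp
    linear_combination 4 * h
  · intro x _
    field_simp
    ring
  · intro y _
    field_simp
    ring

/-- The complete sum of one symbol. -/
lemma sum_quad (a b : ℤ) (p : ℕ) [Fact p.Prime] (h2 : ¬ (p : ℤ) ∣ 2 * a) :
    ∑ x : ZMod p, quadraticChar (ZMod p) ((b : ZMod p) ^ 2 - 4 * a * x) = 0 := by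
  have hp2 : p ≠ 2 := by
    rintro rfl
    exact h2 (Dvd.intro a rfl)
  have h2a : (2 * a : ZMod p) ≠ 0 := by
    intro h
    apply h2
    rw [← ZMod.intCast_zmod_eq_zero_iff_dvd]
    push_cast
    exact h
  have h20 : (2 : ZMod p) ≠ 0 := left_ne_zero_of_mul h2a
  have ha0 : (a : ZMod p) ≠ 0 := right_ne_zero_of_mul h2a
  have h3 : (4 * (a : ZMod p)) ≠ 0 := by
    have : (4 : ZMod p) = 2 * 2 := by norm_num
    rw [this]
    exact mul_ne_zero (mul_ne_zero h20 h20) ha0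
  rw [← quadraticChar_sum_zero (F := ZMod p) ((ZMod.ringChar_zmod_n p).substr hp2)]
  refine Fintype.sum_bijective (fun x : ZMod p => (b : ZMod p) ^ 2 - 4 * a * x) ?_ _ _ fun x => rfl
  refine (Finite.injective_iff_bijective).mp fun x y hxy => ?_
  have hxy' : (b : ZMod p) ^ 2 - 4 * a * x = (b : ZMod p) ^ 2 - 4 * a * y := hxy
  exact mul_left_cancel₀ h3 (by linear_combination -hxy')

lemma chiD_eq (a b : ℤ) (c : ℕ) (p : ℕ) [Fact p.Prime] :
    chiD a b c p = quadraticChar (ZMod p) ((b : ZMod p) ^ 2 - 4 * a * (c : ZMod p)) := by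
  unfold chiD
  rw [← jacobiSym.legendreSym.to_jacobiSym, legendreSym]
  push_cast
  rfl

/-- The complete sum of the product of two symbols. -/
lemma sum_pair (a b : ℤ) (p q : ℕ) (hp : p.Prime) (hq : q.Prime) (hpq : p ≠ q)
    (h2 : ¬ (p : ℤ) ∣ 2 * a) :
    ∑ c ∈ range (p * q), chiD a b c p * chiD a b c q = 0 := by
  have : Fact p.Prime := ⟨hp⟩
  have : Fact q.Prime := ⟨hq⟩
  have hco : p.Coprime q := (Nat.coprime_primes hp hq).mpr hpq
  have : NeZero (p * q) := ⟨mul_ne_zero hp.ne_zero hq.ne_zero⟩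
  have h1 : ∑ c ∈ range (p * q), chiD a b c p * chiD a b c q =
      ∑ x : ZMod (p * q), quadraticChar (ZMod p)
        ((b : ZMod p) ^ 2 - 4 * a * (ZMod.chineseRemainder hco x).1) *
        quadraticChar (ZMod q) ((b : ZMod q) ^ 2 - 4 * a * (ZMod.chineseRemainder hco x).2) := by
    refine Finset.sum_bij' (fun r _ => (r : ZMod (p * q))) (fun x _ => x.val) ?_ ?_ ?_ ?_ ?_
    · intro r _; exact mem_univ _
    · intro x _; exact mem_range.mpr (ZMod.val_lt x)
    · intro r hr; exact ZMod.val_cast_of_lt (mem_range.mp hr)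
    · intro x _; exact ZMod.natCast_zmod_val x
    · intro r _
      rw [chiD_eq, chiD_eq]
      simp
  rw [h1]
  have h3 : ∑ x : ZMod (p * q), quadraticChar (ZMod p)
        ((b : ZMod p) ^ 2 - 4 * a * (ZMod.chineseRemainder hco x).1) *
        quadraticChar (ZMod q) ((b : ZMod q) ^ 2 - 4 * a * (ZMod.chineseRemainder hco x).2) =
      ∑ x : ZMod p × ZMod q, quadraticChar (ZMod p) ((b : ZMod p) ^ 2 - 4 * a * x.1) *
        quadraticChar (ZMod q) ((b : ZMod q) ^ 2 - 4 * a * x.2) :=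
    Fintype.sum_equiv (ZMod.chineseRemainder hco).toEquiv _ _ fun x => rfl
  rw [h3, Fintype.sum_prod_type]
  simp only
  rw [← Finset.sum_mul_sum, sum_quad a b p h2, zero_mul]

lemma chiD_add (a b : ℤ) (c : ℕ) (p n : ℕ) [Fact p.Prime] (hpn : p ∣ n) :
    chiD a b (n + c) p = chiD a b c p := by
  rw [chiD_eq, chiD_eq]
  push_cast
  rw [(ZMod.natCast_eq_zero_iff n p).mpr hpn, zero_add]

/-- A sum of a periodic function whose sum over a period vanishes. -/
lemma periodic_sum (h : ℕ → ℤ) (n : ℕ) (hn : 0 < n) (hper : ∀ c, h (n + c) = h c)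
    (h0 : ∑ c ∈ range n, h c = 0) (h1 : ∀ c, |h c| ≤ 1) (C : ℕ) :
    |∑ c ∈ range C, h c| ≤ n := by
  induction C using Nat.strong_induction_on with
  | _ C ih =>
    by_cases hC : C < n
    · calc |∑ c ∈ range C, h c| ≤ ∑ c ∈ range C, |h c| := Finset.abs_sum_le_sum_abs _ _
        _ ≤ ∑ c ∈ range C, 1 := Finset.sum_le_sum fun c _ => h1 c
        _ = C := by simp
        _ ≤ n := by exact_mod_cast hC.le
    · obtain ⟨D, rfl⟩ := Nat.exists_eq_add_of_le (not_lt.mp hC)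
      rw [Finset.sum_range_add, h0, zero_add, Finset.sum_congr rfl fun c _ => hper c]
      exact ih D (by omega)

lemma abs_chiD_le (a b : ℤ) (c p : ℕ) : |chiD a b c p| ≤ 1 := by
  unfold chiD
  rcases jacobiSym.trichotomy (b ^ 2 - 4 * a * c) p with h | h | h <;> rw [h] <;> norm_num

/-- The incomplete sum of the product of two symbols. -/
lemma sum_pair_le (a b : ℤ) (p q : ℕ) (hp : p.Prime) (hq : q.Prime) (hpq : p ≠ q)
    (h2 : ¬ (p : ℤ) ∣ 2 * a) (C : ℕ) :
    |∑ c ∈ Icc 1 C, chiD a b c p * chiD a b c q| ≤ p * q + 1 := by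
  have : Fact p.Prime := ⟨hp⟩
  have : Fact q.Prime := ⟨hq⟩
  have hb : ∀ c, |chiD a b c p * chiD a b c q| ≤ 1 := fun c => by
    rw [abs_mul]
    exact mul_le_one₀ (abs_chiD_le a b c p) (abs_nonneg _) (abs_chiD_le a b c q)
  have h1 := periodic_sum (fun c => chiD a b c p * chiD a b c q) (p * q)
    (Nat.mul_pos hp.pos hq.pos) (fun c => by
      rw [chiD_add a b c p _ (dvd_mul_right p q), chiD_add a b c q _ (dvd_mul_left q p)])
    (sum_pair a b p q hp hq hpq h2) hb (C + 1)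
  have h3 : ∑ c ∈ range (C + 1), chiD a b c p * chiD a b c q =
      chiD a b 0 p * chiD a b 0 q + ∑ c ∈ Icc 1 C, chiD a b c p * chiD a b c q := by
    rw [Finset.sum_range_succ', add_comm]
    congr 1
    rw [Finset.range_eq_Ico,
      Finset.sum_Ico_add' (fun c => chiD a b c p * chiD a b c q) 0 C 1]
    refine Finset.sum_congr ?_ fun _ _ => rfl
    ext x
    simp only [mem_Ico, mem_Icc]
    omega
  have h4 := hb 0
  rw [h3] at h1
  push_cast at h1
  have h5 := abs_sub (chiD a b 0 p * chiD a b 0 q + ∑ c ∈ Icc 1 C, chiD a b c p * chiD a b c q)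
    (chiD a b 0 p * chiD a b 0 q)
  rw [add_sub_cancel_left] at h5
  linarith

end SChi

section SSq


open Finset Filter Topology

/-- The sum of `χ(p) / (p - 1)` over the primes `w < p ≤ z`. -/
noncomputable def SS (a b : ℤ) (c w z : ℕ) : ℝ :=
  ∑ p ∈ (Ioc w z).filter Nat.Prime, (chiD a b c p : ℝ) / ((p : ℝ) - 1)

lemma not_dvd (a : ℤ) (ha : 0 < a) (w p : ℕ) (hw : 2 * a < w) (hp : w < p) : ¬ (p : ℤ) ∣ 2 * a := by
  intro h
  have h1 := Int.le_of_dvd (by omega) h
  have h2 : (w : ℤ) < p := by exact_mod_cast hp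
  omega

lemma sum_inv_sq (w z : ℕ) (hw : 1 ≤ w) :
    ∑ p ∈ (Ioc w z).filter Nat.Prime, (1 / ((p : ℝ) - 1)) ^ 2 ≤ 2 / (w : ℝ) := by
  have hw0 : (0 : ℝ) < w := by exact_mod_cast hw
  rcases le_or_gt z w with hz | hz
  · rw [Ioc_eq_empty (by omega), filter_empty, sum_empty]; positivity
  have h1 : ∑ p ∈ (Ioc w z).filter Nat.Prime, (1 / ((p : ℝ) - 1)) ^ 2 ≤
      ∑ p ∈ Ioc w z, (1 / ((p : ℝ) - 1)) ^ 2 :=
    sum_le_sum_of_subset_of_nonneg (filter_subset _ _) fun _ _ _ => by positivity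
  have h2 : ∀ z : ℕ, w < z → ∑ p ∈ Ioc w z, (1 / ((p : ℝ) - 1)) ^ 2 ≤ 2 / (w : ℝ) - 1 / ((z : ℝ) - 1) := by
    intro z hz
    induction z, hz using Nat.le_induction with
    | base =>
      have : Ioc w w.succ = {w + 1} := by ext x; simp only [mem_Ioc, mem_singleton]; omega
      rw [this, sum_singleton]
      push_cast
      rw [add_sub_cancel_right]
      have h3 : (1 / (w : ℝ)) ^ 2 ≤ 1 / w := by
        have h4 : 1 / (w : ℝ) ≤ 1 := by
          rw [div_le_one hw0]; exact_mod_cast hw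
        have h5 : (0 : ℝ) ≤ 1 / w := by positivity
        nlinarith
      have h6 : (2 : ℝ) / w = 1 / w + 1 / w := by ring
      linarith
    | succ z hz ih =>
      have : Ioc w (z + 1) = insert (z + 1) (Ioc w z) := by
        ext x; simp only [mem_Ioc, mem_insert]; omega
      rw [this, sum_insert (by simp)]
      have hz0 : (1 : ℝ) < z := by
        have : 1 < z := by omega
        exact_mod_cast this
      push_cast
      rw [add_sub_cancel_right]
      have h3 : (1 / (z : ℝ)) ^ 2 ≤ 1 / ((z : ℝ) - 1) - 1 / z := by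
        rw [div_sub_div _ _ (by linarith) (by linarith), div_pow, div_le_div_iff₀ (by positivity)
          (mul_pos (by linarith) (by linarith))]
        nlinarith
      linarith
  have h3 := h2 z hz
  have h4 : (0 : ℝ) ≤ 1 / ((z : ℝ) - 1) := by
    have : (1 : ℝ) < z := by
      have : 1 < z := by omega
      exact_mod_cast this
    exact div_nonneg zero_le_one (by linarith)
  linarith

/-- The mean square. -/
lemma mean_sq (a : ℤ) (ha : 0 < a) (b : ℤ) (w z C : ℕ) (hw : 2 * a < w) :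
    ∑ c ∈ Icc 1 C, SS a b c w z ^ 2 ≤ 2 * C / w + 5 * (z : ℝ) ^ 2 := by
  have hw1 : 1 ≤ w := by omega
  set P := (Ioc w z).filter Nat.Prime with hP
  have h1 : ∑ c ∈ Icc 1 C, SS a b c w z ^ 2 =
      ∑ p ∈ P, ∑ q ∈ P, (1 / ((p : ℝ) - 1)) * (1 / ((q : ℝ) - 1)) *
        ((∑ c ∈ Icc 1 C, chiD a b c p * chiD a b c q : ℤ) : ℝ) := by
    simp only [SS, ← hP]
    have : ∀ c ∈ Icc 1 C, (∑ p ∈ P, (chiD a b c p : ℝ) / ((p : ℝ) - 1)) ^ 2 =
        ∑ p ∈ P, ∑ q ∈ P, (1 / ((p : ℝ) - 1)) * (1 / ((q : ℝ) - 1)) *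
          ((chiD a b c p * chiD a b c q : ℤ) : ℝ) := by
      intro c _
      rw [pow_two, sum_mul_sum]
      refine sum_congr rfl fun p _ => sum_congr rfl fun q _ => ?_
      push_cast
      ring
    rw [sum_congr rfl this, sum_comm]
    refine sum_congr rfl fun p _ => ?_
    rw [sum_comm]
    refine sum_congr rfl fun q _ => ?_
    rw [← mul_sum]
    push_cast
    rfl
  have hp1 : ∀ p ∈ P, (1 : ℝ) ≤ (p : ℝ) - 1 := by
    intro p hp
    have : 2 ≤ p := (mem_filter.mp hp).2.two_le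
    have : (2 : ℝ) ≤ p := by exact_mod_cast this
    linarith
  have h2 : ∀ p ∈ P, ∀ q ∈ P, (1 / ((p : ℝ) - 1)) * (1 / ((q : ℝ) - 1)) *
        ((∑ c ∈ Icc 1 C, chiD a b c p * chiD a b c q : ℤ) : ℝ) ≤
      (if p = q then (1 / ((p : ℝ) - 1)) ^ 2 * C else 0) + 5 := by
    intro p hp q hq
    have hpp := (mem_filter.mp hp).2
    have hqq := (mem_filter.mp hq).2
    have hpw := (mem_Ioc.mp (mem_filter.mp hp).1).1
    have hp2 := hp1 p hp
    have hq2 := hp1 q hq
    have hpi : 1 / ((p : ℝ) - 1) ≤ 1 := (div_le_one (by linarith)).mpr hp2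
    have hqi : 1 / ((q : ℝ) - 1) ≤ 1 := (div_le_one (by linarith)).mpr hq2
    have hpi0 : 0 ≤ 1 / ((p : ℝ) - 1) := div_nonneg zero_le_one (by linarith)
    have hqi0 : 0 ≤ 1 / ((q : ℝ) - 1) := div_nonneg zero_le_one (by linarith)
    split_ifs with hpq
    · subst hpq
      have h3 : ((∑ c ∈ Icc 1 C, chiD a b c p * chiD a b c p : ℤ) : ℝ) ≤ C := by
        have : ∑ c ∈ Icc 1 C, chiD a b c p * chiD a b c p ≤ ∑ c ∈ Icc 1 C, (1 : ℤ) := by
          refine sum_le_sum fun c _ => ?_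
          have h4 := abs_chiD_le a b c p
          have h5 := abs_le.mp h4
          nlinarith [abs_nonneg (chiD a b c p), sq_abs (chiD a b c p)]
        simp only [sum_const, Nat.card_Icc, add_tsub_cancel_right, nsmul_eq_mul, mul_one] at this
        exact_mod_cast this
      have h4 : (1 / ((p : ℝ) - 1)) * (1 / ((p : ℝ) - 1)) *
          ((∑ c ∈ Icc 1 C, chiD a b c p * chiD a b c p : ℤ) : ℝ) ≤
          (1 / ((p : ℝ) - 1)) * (1 / ((p : ℝ) - 1)) * C :=
        mul_le_mul_of_nonneg_left h3 (by positivity)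
      nlinarith
    · have h3 := sum_pair_le a b p q hpp hqq hpq (not_dvd a ha w p hw hpw) C
      have h4 : ((∑ c ∈ Icc 1 C, chiD a b c p * chiD a b c q : ℤ) : ℝ) ≤ p * q + 1 := by
        have := (abs_le.mp h3).2
        exact_mod_cast this
      have h5 : (1 / ((p : ℝ) - 1)) * (1 / ((q : ℝ) - 1)) *
          ((∑ c ∈ Icc 1 C, chiD a b c p * chiD a b c q : ℤ) : ℝ) ≤
          (1 / ((p : ℝ) - 1)) * (1 / ((q : ℝ) - 1)) * (p * q + 1) :=
        mul_le_mul_of_nonneg_left h4 (by positivity)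
      have h6 : (1 / ((p : ℝ) - 1)) * (1 / ((q : ℝ) - 1)) * (p * q + 1) ≤ 5 := by
        have hpx : (p : ℝ) * (1 / ((p : ℝ) - 1)) = 1 + 1 / ((p : ℝ) - 1) := by
          have : (p : ℝ) - 1 ≠ 0 := by linarith
          field_simp
          ring
        have hqx : (q : ℝ) * (1 / ((q : ℝ) - 1)) = 1 + 1 / ((q : ℝ) - 1) := by
          have : (q : ℝ) - 1 ≠ 0 := by linarith
          field_simp
          ring
        have h7 : (1 / ((p : ℝ) - 1)) * (1 / ((q : ℝ) - 1)) * (p * q + 1) =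
            (p * (1 / ((p : ℝ) - 1))) * (q * (1 / ((q : ℝ) - 1))) +
              (1 / ((p : ℝ) - 1)) * (1 / ((q : ℝ) - 1)) := by ring
        rw [h7, hpx, hqx]
        nlinarith [mul_nonneg hpi0 hqi0, mul_le_one₀ hpi hqi0 hqi]
      linarith
  have hcard : (#P : ℝ) ≤ z := by
    have : #P ≤ z := by
      refine (card_le_card (filter_subset _ _)).trans ?_
      rw [Nat.card_Ioc]; omega
    exact_mod_cast this
  rw [h1]
  calc ∑ p ∈ P, ∑ q ∈ P, (1 / ((p : ℝ) - 1)) * (1 / ((q : ℝ) - 1)) *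
        ((∑ c ∈ Icc 1 C, chiD a b c p * chiD a b c q : ℤ) : ℝ)
      ≤ ∑ p ∈ P, ∑ q ∈ P, ((if p = q then (1 / ((p : ℝ) - 1)) ^ 2 * C else 0) + 5) :=
        sum_le_sum fun p hp => sum_le_sum fun q hq => h2 p hp q hq
    _ = (∑ p ∈ P, (1 / ((p : ℝ) - 1)) ^ 2) * C + 5 * (#P : ℝ) ^ 2 := by
        simp only [sum_add_distrib, sum_ite_eq, sum_const, nsmul_eq_mul]
        rw [sum_congr rfl fun p hp => if_pos hp, sum_mul]
        ring
    _ ≤ 2 * C / w + 5 * (z : ℝ) ^ 2 := by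
        have h7 := sum_inv_sq w z hw1
        have h8 : (∑ p ∈ P, (1 / ((p : ℝ) - 1)) ^ 2) * C ≤ 2 / (w : ℝ) * C :=
          mul_le_mul_of_nonneg_right h7 (Nat.cast_nonneg C)
        have h9 : (#P : ℝ) ^ 2 ≤ (z : ℝ) ^ 2 := pow_le_pow_left₀ (Nat.cast_nonneg _) hcard 2
        have : (2 : ℝ) / w * C = 2 * C / w := by ring
        linarith

end SSq

section SPr


open Finset Filter Topology

/-- The product of `1 - χ(p) / (p - 1)` over the primes `w < p ≤ z`. -/
noncomputable def PP (a b : ℤ) (c w z : ℕ) : ℝ :=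
  ∏ p ∈ (Ioc w z).filter Nat.Prime, (1 - (chiD a b c p : ℝ) / ((p : ℝ) - 1))

lemma filter_union (w z : ℕ) (h : w ≤ z) :
    (Icc 1 z).filter Nat.Prime = (Icc 1 w).filter Nat.Prime ∪ (Ioc w z).filter Nat.Prime := by
  ext p
  simp only [mem_filter, mem_Icc, mem_union, mem_Ioc]
  constructor
  · rintro ⟨h1, h2⟩
    by_cases h3 : p ≤ w
    · exact Or.inl ⟨⟨h1.1, h3⟩, h2⟩
    · exact Or.inr ⟨⟨by omega, h1.2⟩, h2⟩
  · rintro (⟨h1, h2⟩ | ⟨h1, h2⟩)
    · exact ⟨⟨h1.1, by omega⟩, h2⟩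
    · exact ⟨⟨h2.one_lt.le, h1.2⟩, h2⟩

lemma filter_disj (w z : ℕ) :
    Disjoint ((Icc 1 w).filter Nat.Prime) ((Ioc w z).filter Nat.Prime) := by
  rw [Finset.disjoint_left]
  intro p h1 h2
  have h3 := mem_Icc.mp (mem_filter.mp h1).1
  have h4 := mem_Ioc.mp (mem_filter.mp h2).1
  omega

lemma V1_pos (z : ℕ) : 0 < V1 z := by
  unfold V1
  refine prod_pos fun p hp => ?_
  have h1 : (2 : ℝ) ≤ p := by exact_mod_cast (mem_filter.mp hp).2.two_le
  rw [sub_pos, div_lt_one (by linarith)]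
  linarith

lemma V1_le_one (z : ℕ) : V1 z ≤ 1 := by
  unfold V1
  refine prod_le_one (fun p hp => ?_) (fun p hp => ?_)
  · have h1 : (2 : ℝ) ≤ p := by exact_mod_cast (mem_filter.mp hp).2.two_le
    rw [sub_nonneg, div_le_one (by linarith)]
    linarith
  · have h1 : (0 : ℝ) ≤ 1 / p := by positivity
    linarith

lemma Vc_split (a : ℤ) (ha : 0 < a) (b : ℤ) (c w z : ℕ) (hw : 2 * a < w) (hz : w ≤ z) :
    Vc a b c z * V1 w = Vc a b c w * V1 z * PP a b c w z := by
  unfold Vc V1 PP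
  rw [filter_union w z hz, prod_union (filter_disj w z), prod_union (filter_disj w z)]
  have h1 : ∏ p ∈ (Ioc w z).filter Nat.Prime, (1 - (rho a b c p : ℝ) / p) =
      (∏ p ∈ (Ioc w z).filter Nat.Prime, (1 - 1 / (p : ℝ))) *
        ∏ p ∈ (Ioc w z).filter Nat.Prime, (1 - (chiD a b c p : ℝ) / ((p : ℝ) - 1)) := by
    rw [← prod_mul_distrib]
    refine prod_congr rfl fun p hp => ?_
    have hpp := (mem_filter.mp hp).2
    have hpw := (mem_Ioc.mp (mem_filter.mp hp).1).1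
    have h2 := rho_eq a b c p hpp (not_dvd a ha w p hw hpw)
    have h3 : (rho a b c p : ℝ) = 1 + (chiD a b c p : ℝ) := by
      unfold chiD
      exact_mod_cast h2
    have h4 : (2 : ℝ) ≤ p := by exact_mod_cast hpp.two_le
    have h5 : (p : ℝ) - 1 ≠ 0 := by linarith
    have h6 : (p : ℝ) ≠ 0 := by linarith
    rw [h3]
    field_simp
    ring
  rw [h1]
  ring

lemma exp_le (u : ℝ) (h1 : |u| ≤ 1 / 2) : Real.exp (-u - u ^ 2) ≤ 1 - u := by
  have h2 := abs_le.mp h1
  rcases le_total 0 u with hu | hu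
  · have h3 := Real.quadratic_le_exp_of_nonneg (x := u + u ^ 2) (by positivity)
    have h4 : Real.exp (-u - u ^ 2) = (Real.exp (u + u ^ 2))⁻¹ := by
      rw [← Real.exp_neg]; congr 1; ring
    rw [h4, inv_le_comm₀ (Real.exp_pos _) (by linarith)]
    refine le_trans ?_ h3
    rw [inv_le_iff_one_le_mul₀ (by linarith)]
    nlinarith [mul_nonneg hu hu, mul_nonneg (mul_nonneg hu hu) hu, mul_nonneg (mul_nonneg hu hu)
      (by linarith : 0 ≤ 1 / 2 - u), mul_nonneg (mul_nonneg (mul_nonneg hu hu) hu)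
      (by linarith : 0 ≤ 1 / 2 - u)]
  · have h3 := Real.add_one_le_exp (u + u ^ 2)
    have h4 : Real.exp (-u - u ^ 2) = (Real.exp (u + u ^ 2))⁻¹ := by
      rw [← Real.exp_neg]; congr 1; ring
    rw [h4, inv_le_comm₀ (Real.exp_pos _) (by linarith)]
    refine le_trans ?_ h3
    rw [inv_le_iff_one_le_mul₀ (by linarith)]
    nlinarith [mul_nonneg (mul_nonneg (neg_nonneg.mpr hu) (neg_nonneg.mpr hu)) (neg_nonneg.mpr hu)]

lemma abs_u (a b : ℤ) (c w p : ℕ) (hw : 2 ≤ w) (hp : w < p) :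
    |(chiD a b c p : ℝ) / ((p : ℝ) - 1)| ≤ 1 / ((p : ℝ) - 1) ∧ 1 / ((p : ℝ) - 1) ≤ 1 / 2 := by
  have h1 : (3 : ℝ) ≤ p := by
    have : 3 ≤ p := by omega
    exact_mod_cast this
  have h2 : |(chiD a b c p : ℝ)| ≤ 1 := by
    have := abs_chiD_le a b c p
    exact_mod_cast this
  constructor
  · rw [abs_div, abs_of_pos (by linarith : (0 : ℝ) < (p : ℝ) - 1)]
    exact div_le_div_of_nonneg_right h2 (by linarith)
  · exact one_div_le_one_div_of_le (by norm_num) (by linarith)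

lemma PP_ge (a b : ℤ) (c w z : ℕ) (hw : 2 ≤ w) :
    Real.exp (-SS a b c w z - 2 / w) ≤ PP a b c w z := by
  have h1 : ∏ p ∈ (Ioc w z).filter Nat.Prime,
      Real.exp (-((chiD a b c p : ℝ) / ((p : ℝ) - 1)) - ((chiD a b c p : ℝ) / ((p : ℝ) - 1)) ^ 2) ≤
      PP a b c w z := by
    unfold PP
    refine prod_le_prod (fun p _ => (Real.exp_pos _).le) fun p hp => ?_
    have h2 := abs_u a b c w p hw (mem_Ioc.mp (mem_filter.mp hp).1).1
    exact exp_le _ (h2.1.trans h2.2)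
  refine le_trans ?_ h1
  rw [← Real.exp_sum]
  apply Real.exp_le_exp.mpr
  rw [sum_sub_distrib, sum_neg_distrib]
  have h3 := sum_inv_sq w z (by omega)
  have h4 : ∑ p ∈ (Ioc w z).filter Nat.Prime, ((chiD a b c p : ℝ) / ((p : ℝ) - 1)) ^ 2 ≤
      ∑ p ∈ (Ioc w z).filter Nat.Prime, (1 / ((p : ℝ) - 1)) ^ 2 := by
    refine sum_le_sum fun p hp => ?_
    have h2 := abs_u a b c w p hw (mem_Ioc.mp (mem_filter.mp hp).1).1
    rw [← sq_abs]
    exact pow_le_pow_left₀ (abs_nonneg _) h2.1 2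
  unfold SS
  linarith

lemma PP_le (a b : ℤ) (c w z : ℕ) (hw : 2 ≤ w) :
    PP a b c w z ≤ Real.exp (-SS a b c w z) := by
  unfold PP SS
  rw [← sum_neg_distrib, Real.exp_sum]
  refine prod_le_prod (fun p hp => ?_) fun p hp => ?_
  · have h2 := abs_u a b c w p hw (mem_Ioc.mp (mem_filter.mp hp).1).1
    have h3 := (abs_le.mp (h2.1.trans h2.2)).2
    linarith
  · have := Real.add_one_le_exp (-((chiD a b c p : ℝ) / ((p : ℝ) - 1)))
    linarith

/-- The number of the `c` with a large sum. -/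
lemma card_large (a : ℤ) (ha : 0 < a) (b : ℤ) (w z C : ℕ) (hw : 2 * a < w) (δ : ℝ) (hδ : 0 < δ) :
    (#((Icc 1 C).filter fun c => δ < |SS a b c w z|) : ℝ) * δ ^ 2 ≤
      2 * C / w + 5 * (z : ℝ) ^ 2 := by
  refine le_trans ?_ (mean_sq a ha b w z C hw)
  have h1 : (#((Icc 1 C).filter fun c => δ < |SS a b c w z|) : ℝ) * δ ^ 2 ≤
      ∑ c ∈ (Icc 1 C).filter (fun c => δ < |SS a b c w z|), SS a b c w z ^ 2 := by
    rw [← nsmul_eq_mul]
    refine card_nsmul_le_sum _ _ _ fun c hc => ?_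
    rw [← sq_abs (SS a b c w z)]
    exact pow_le_pow_left₀ hδ.le (mem_filter.mp hc).2.le 2
  refine h1.trans ?_
  exact sum_le_sum_of_subset_of_nonneg (filter_subset _ _) fun _ _ _ => sq_nonneg _

lemma rho_lt (a b c : ℤ) (h : Admissible a b c) (p : ℕ) (hp : p.Prime) : rho a b c p < p := by
  obtain ⟨-, hgcd, h2, -⟩ := h
  by_contra hcon
  push Not at hcon
  have h3 : (range p).filter (fun r : ℕ => (p : ℤ) ∣ fv a b c r) = range p := by
    apply Finset.eq_of_subset_of_card_le (filter_subset _ _)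
    rw [card_range]
    exact hcon
  have h4 : ∀ r < p, (p : ℤ) ∣ fv a b c r := fun r hr => by
    have : r ∈ (range p).filter (fun r : ℕ => (p : ℤ) ∣ fv a b c r) := by
      rw [h3]; exact mem_range.mpr hr
    exact (mem_filter.mp this).2
  have h0 := h4 0 hp.pos
  have h1 := h4 1 hp.one_lt
  simp only [fv, Nat.cast_zero, Nat.cast_one, ne_eq, OfNat.ofNat_ne_zero, not_false_eq_true,
    zero_pow, mul_zero, zero_add, one_pow, mul_one] at h0 h1
  have hab : (p : ℤ) ∣ a + b := by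
    have := dvd_sub h1 h0
    simpa using this
  rcases hp.eq_two_or_odd' with rfl | hodd
  · exact h2 ⟨by exact_mod_cast hab, by exact_mod_cast h0⟩
  · have hp3 : 2 < p := by
      rcases hp.two_le.lt_or_eq with h | h
      · exact h
      · exfalso; rw [← h] at hodd; exact absurd hodd (by decide)
    have h5 := h4 2 hp3
    simp only [fv, Nat.cast_ofNat] at h5
    have h6 : (p : ℤ) ∣ 2 * a := by
      have := dvd_sub (dvd_sub h5 h0) (hab.mul_left 2)
      have h7 : a * 2 ^ 2 + b * 2 + c - c - 2 * (a + b) = 2 * a := by ring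
      rwa [h7] at this
    have hpi : Prime (p : ℤ) := Nat.prime_iff_prime_int.mp hp
    have h8 : (p : ℤ) ∣ a := by
      rcases hpi.dvd_or_dvd h6 with h | h
      · exfalso
        have := Int.le_of_dvd (by norm_num) h
        omega
      · exact h
    have h9 : (p : ℤ) ∣ b := by
      have := dvd_sub hab h8
      simpa using this
    exact hpi.not_isUnit (hgcd p h8 h9 h0)

lemma Vc_ge (a b c : ℤ) (h : Admissible a b c) (w w0 : ℕ) (hw : w ≤ w0) :
    1 / (4 : ℝ) ^ w0 ≤ Vc a b c w := by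
  have h1 : ∏ p ∈ (Icc 1 w).filter Nat.Prime, (1 / (p : ℝ)) ≤ Vc a b c w := by
    unfold Vc
    refine prod_le_prod (fun p _ => by positivity) fun p hp => ?_
    have hpp := (mem_filter.mp hp).2
    have h2 := rho_lt a b c h p hpp
    have h3 : (rho a b c p : ℝ) + 1 ≤ p := by exact_mod_cast h2
    have h4 : (0 : ℝ) < p := by exact_mod_cast hpp.pos
    rw [div_le_iff₀ h4, sub_mul, div_mul_cancel₀ _ h4.ne']
    linarith
  refine le_trans ?_ h1
  rw [prod_div_distrib, prod_const_one]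
  have h5 : (Icc 1 w).filter Nat.Prime = (range (w + 1)).filter Nat.Prime := by
    ext p
    simp only [mem_filter, mem_Icc, mem_range]
    constructor
    · rintro ⟨h1, h2⟩; exact ⟨by omega, h2⟩
    · rintro ⟨h1, h2⟩; exact ⟨⟨h2.one_lt.le, by omega⟩, h2⟩
  have h6 : ∏ p ∈ (Icc 1 w).filter Nat.Prime, (p : ℝ) = (primorial w : ℝ) := by
    rw [h5, primorial]; push_cast; rfl
  rw [h6]
  have h7 : (primorial w : ℝ) ≤ 4 ^ w0 := by
    have h8 : primorial w ≤ 4 ^ w0 :=
      (primorial_le_four_pow w).trans (Nat.pow_le_pow_right (by norm_num) hw)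
    exact_mod_cast h8
  exact one_div_le_one_div_of_le (by exact_mod_cast primorial_pos w) h7

end SPr

open Finset Filter Topology

/-- Powers of the logarithm are smaller than powers. -/
lemma log_pow_le_half (E : ℕ) (ε : ℝ) (hε : 0 < ε) : ∃ x0 : ℕ, ∀ x : ℕ, x0 ≤ x →
    Real.log x ^ E ≤ ε * (x : ℝ) ^ (1 / 2 : ℝ) := by
  have h1 : (fun x : ℝ => Real.log x ^ E) =o[atTop] fun x : ℝ => x ^ (1 / 2 : ℝ) := by
    have := isLittleO_log_rpow_rpow_atTop (E : ℝ) (by norm_num : (0 : ℝ) < 1 / 2)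
    simpa [Real.rpow_natCast] using this
  have h2 := (h1.bound hε).natCast_atTop
  obtain ⟨x0, hx0⟩ := eventually_atTop.mp h2
  refine ⟨max x0 1, fun x hx => ?_⟩
  have h3 := hx0 x ((le_max_left _ _).trans hx)
  have h4 : (0 : ℝ) ≤ Real.log x := Real.log_natCast_nonneg x
  rw [Real.norm_of_nonneg (by positivity), Real.norm_of_nonneg (by positivity)] at h3
  exact h3

theorem sing_pos_half (a : ℤ) (ha : 0 < a) (b : ℤ) (η : ℝ) (hη : 0 < η) (E : ℕ) :
    ∃ θ : ℝ, 0 < θ ∧ ∃ x0 : ℕ, ∀ x : ℕ, x0 ≤ x →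
    ∀ C : ℕ, (x : ℝ) ^ (1 / 2 : ℝ) ≤ C → C ≤ x → ∀ w : ℕ, (w : ℝ) ≤ Real.log x ^ E →
    ∃ Ex ⊆ Icc 1 C, (#Ex : ℝ) ≤ η * C ∧ ∀ c ∈ Icc 1 C, c ∉ Ex → Admissible a b c →
      θ ≤ Vc a b c w / V1 w := by
  obtain ⟨w0, hw0⟩ := exists_nat_gt (max (2 * (a : ℝ)) (4 / η))
  have hw1 : 2 * a < w0 := by
    have := (le_max_left _ _).trans_lt hw0
    exact_mod_cast this
  have hw2 : 4 / η < w0 := (le_max_right _ _).trans_lt hw0
  have hw3 : 2 ≤ w0 := by omega
  have hw4 : (0 : ℝ) < w0 := by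
    have : 0 < w0 := by omega
    exact_mod_cast this
  obtain ⟨x0, hx0⟩ := log_pow_le_half (2 * E) (η / 10) (by positivity)
  refine ⟨Real.exp (-2) / 4 ^ w0, by positivity, x0, fun x hx C hC1 hC2 w hw => ?_⟩
  refine ⟨(Icc 1 C).filter fun c => 1 < |SS a b c w0 w|, filter_subset _ _, ?_, ?_⟩
  · have h1 := card_large a ha b w0 w C hw1 1 one_pos
    rw [one_pow, mul_one] at h1
    have h2 : 2 * (C : ℝ) / w0 ≤ η / 2 * C := by
      rw [div_le_iff₀ hw4]
      have : 4 ≤ η * w0 := by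
        rw [div_lt_iff₀ hη] at hw2; linarith
      nlinarith [(Nat.cast_nonneg C : (0 : ℝ) ≤ C)]
    have h3 : (w : ℝ) ^ 2 ≤ η / 10 * C := by
      calc (w : ℝ) ^ 2 ≤ (Real.log x ^ E) ^ 2 := pow_le_pow_left₀ (Nat.cast_nonneg _) hw 2
        _ = Real.log x ^ (2 * E) := by rw [← pow_mul, mul_comm]
        _ ≤ η / 10 * (x : ℝ) ^ (1 / 2 : ℝ) := hx0 x hx
        _ ≤ η / 10 * C := mul_le_mul_of_nonneg_left hC1 (by positivity)
    linarith
  · intro c hc hcE hadm
    have h1 : |SS a b c w0 w| ≤ 1 := by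
      by_contra h
      exact hcE (mem_filter.mpr ⟨hc, not_le.mp h⟩)
    have he : Real.exp (-2) ≤ 1 := Real.exp_le_one_iff.mpr (by norm_num)
    rcases le_total w w0 with h | h
    · rw [le_div_iff₀ (V1_pos w)]
      have h2 := Vc_ge a b c hadm w w0 h
      have h3 : Real.exp (-2) / 4 ^ w0 * V1 w ≤ 1 / 4 ^ w0 := by
        calc Real.exp (-2) / 4 ^ w0 * V1 w ≤ Real.exp (-2) / 4 ^ w0 * 1 :=
              mul_le_mul_of_nonneg_left (V1_le_one w) (by positivity)
          _ ≤ 1 / 4 ^ w0 := by rw [mul_one]; gcongr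
      linarith
    · have h2 := Vc_split a ha b c w0 w hw1 h
      have h3 : Vc a b c w / V1 w = Vc a b c w0 / V1 w0 * PP a b c w0 w := by
        have := (V1_pos w).ne'
        have := (V1_pos w0).ne'
        field_simp
        linarith
      rw [h3]
      have h4 := Vc_ge a b c hadm w0 w0 le_rfl
      have h5 : 1 / (4 : ℝ) ^ w0 ≤ Vc a b c w0 / V1 w0 := by
        rw [le_div_iff₀ (V1_pos w0)]
        have : 1 / (4 : ℝ) ^ w0 * V1 w0 ≤ 1 / (4 : ℝ) ^ w0 * 1 :=
          mul_le_mul_of_nonneg_left (V1_le_one w0) (by positivity)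
        linarith
      have h6 : Real.exp (-2) ≤ PP a b c w0 w := by
        refine le_trans (Real.exp_le_exp.mpr ?_) (PP_ge a b c w0 w hw3)
        have h7 := (abs_le.mp h1).2
        have h8 : (2 : ℝ) / w0 ≤ 1 := by
          rw [div_le_one hw4]; exact_mod_cast hw3
        linarith
      calc Real.exp (-2) / 4 ^ w0 = 1 / 4 ^ w0 * Real.exp (-2) := by ring
        _ ≤ Vc a b c w0 / V1 w0 * PP a b c w0 w :=
          mul_le_mul h5 h6 (Real.exp_pos _).le (le_trans (by positivity) h5)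

end Pool.Agent.N792.RX8a
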