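import Mathlib
import Pool.Agent.N792.RFi2
import Pool.Agent.N792.QA
import Pool.Agent.N792.QD
import Pool.Agent.N792.QR1
import Pool.Agent.N792.QR2
import Pool.Agent.N792.RX1
import Pool.Agent.N792.RX2
import Pool.Agent.N792.RX3
import Pool.Agent.N792.RX4
import Pool.Agent.N792.RX5
import Pool.Agent.N792.RX6
import Pool.Agent.N792.RX7
import Pool.Agent.N792.RX8
import Pool.Agent.N792.RX10

/-!
The lower bound for the primes, for almost all `c ≤ C`, `C ≥ x^(7/10+ε)` (helper792).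
-/

set_option autoImplicit false

namespace Pool.Agent.N792

theorem l9s (a : ℤ) (ha : 0 < a) (b : ℤ) : L9S a b :=
  lam9 q1 q4 a ha b (r1 a ha b) (r2 a ha b) x1s (x2 a ha b (r1 a ha b) (r2 a ha b)) (x3 a ha b) x5 (x6 a ha b) (x7 a ha b)

theorem t9 (a : ℤ) (ha : 0 < a) (b : ℤ) (ε η : ℝ) (hε : 0 < ε) (hη : 0 < η) : Concl9 a b ε η :=
  concl9 a ha b (l9s a ha b) (x4 a ha b) (x8 a ha b) (x9 a ha b) (x10 a ha b) ε η hε hη

end Pool.Agent.N792
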