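import Mathlib
import Pool.Agent.N792.Asm2
import Pool.Agent.N792.Lam

/-!
The formula for the von Mangoldt function on average over `c`, for all `x^(9/10) ≤ C ≤ x`
(helper566, subtask LAM2 of helper792).
-/

set_option autoImplicit false

namespace Pool.Agent.N792
open Finset Filter Topology
open ArithmeticFunction (moebius vonMangoldt)

/-- VA2 job -/
def VS2 : Prop := ∀ z U y N : ℕ, 1 ≤ U → U ≤ y → y * y < N → U * U * U < N → Rough z N →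
    |vonMangoldt N - (∑ j ∈ N.divisors.filter (fun j => j ≤ U), ((moebius j : ℝ) * (Real.log N - Real.log j) - betU U j)) -
      ∑ j ∈ N.divisors.filter (fun j => U < j ∧ j ≤ y),
        (-betU U j - betU U (N / j) + vonMangoldt j * gam U (N / j) + gam U j * vonMangoldt (N / j))| ≤
      2 * Real.log N * (#N.divisors : ℝ) * gp z y N

namespace Lam

/-- the pointwise error of the decomposition -/
lemma point_bound2 (hVS : VS2) (z U y N : ℕ) (L K D : ℝ) (hU : 1 ≤ U) (hUy : U ≤ y) (hN : y * y < N)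
    (h4 : U * U * U < N) (hK : |Real.log N - 2 * L| ≤ K) (hL : Real.log N ≤ 3 * L)
    (hD : Rough z N → (#N.divisors : ℝ) ≤ D) :
    |rg z N * vonMangoldt N - rg z N * ∑ j ∈ N.divisors.filter (fun j => j ≤ U), gI L U j -
      rg z N * ∑ j ∈ N.divisors.filter (fun j => U < j ∧ j ≤ y), (fun j => -betU U j) j * (fun _ => (1 : ℝ)) (N / j) -
      rg z N * ∑ j ∈ N.divisors.filter (fun j => U < j ∧ j ≤ y), (fun _ => (-1 : ℝ)) j * betU U (N / j) -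
      rg z N * ∑ j ∈ N.divisors.filter (fun j => U < j ∧ j ≤ y), vonMangoldt j * gam U (N / j) -
      rg z N * ∑ j ∈ N.divisors.filter (fun j => U < j ∧ j ≤ y), gam U j * vonMangoldt (N / j)| ≤
      K * D * rg z N + 6 * L * D * gp z y N := by
  have hL0 : 0 ≤ L := by
    have : 0 ≤ Real.log N := Real.log_natCast_nonneg N
    linarith
  by_cases hr : Rough z N
  · have e1 : rg z N = 1 := by unfold rg; rw [if_pos hr]
    have hv := hVS z U y N hU hUy hN h4 hr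
    have hd := hD hr
    rw [e1]
    simp only [one_mul, mul_one, neg_mul]
    have hgp := gp_nonneg z y N
    have hlog : 0 ≤ Real.log N := Real.log_natCast_nonneg N
    have hD0 : 0 ≤ D := le_trans (Nat.cast_nonneg _) hd
    have b1 : 2 * Real.log N * (#N.divisors : ℝ) * gp z y N ≤ 6 * L * D * gp z y N := by
      apply mul_le_mul_of_nonneg_right _ hgp
      calc 2 * Real.log N * (#N.divisors : ℝ) ≤ 2 * (3 * L) * D := by gcongr
        _ = 6 * L * D := by ring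
    have hmu : |∑ j ∈ N.divisors.filter (fun j => j ≤ U), (moebius j : ℝ)| ≤ D := by
      refine (abs_sum_le_sum_abs _ _).trans ?_
      calc ∑ d ∈ N.divisors.filter (fun d => d ≤ U), |(moebius d : ℝ)|
          ≤ ∑ d ∈ N.divisors.filter (fun d => d ≤ U), (1 : ℝ) := by
            apply sum_le_sum
            intro d _
            have := ArithmeticFunction.abs_moebius_le_one (n := d)
            exact_mod_cast this
        _ = #(N.divisors.filter (fun d => d ≤ U)) := by simp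
        _ ≤ #N.divisors := by exact_mod_cast card_filter_le _ _
        _ ≤ D := hd
    have b2 : |(Real.log N - 2 * L) * ∑ j ∈ N.divisors.filter (fun j => j ≤ U), (moebius j : ℝ)| ≤ K * D := by
      rw [abs_mul]
      exact mul_le_mul hK hmu (abs_nonneg _) ((abs_nonneg _).trans hK)
    have e2 : ∑ j ∈ N.divisors.filter (fun j => j ≤ U), ((moebius j : ℝ) * (Real.log N - Real.log j) - betU U j) =
        ∑ j ∈ N.divisors.filter (fun j => j ≤ U), gI L U j +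
          (Real.log N - 2 * L) * ∑ j ∈ N.divisors.filter (fun j => j ≤ U), (moebius j : ℝ) := by
      rw [mul_sum, ← sum_add_distrib]
      apply sum_congr rfl
      intro j _
      unfold gI
      ring
    have e3 : ∑ j ∈ N.divisors.filter (fun j => U < j ∧ j ≤ y),
        (-betU U j - betU U (N / j) + vonMangoldt j * gam U (N / j) + gam U j * vonMangoldt (N / j)) =
        ∑ j ∈ N.divisors.filter (fun j => U < j ∧ j ≤ y), (-betU U j) +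
        ∑ j ∈ N.divisors.filter (fun j => U < j ∧ j ≤ y), (-betU U (N / j)) +
        ∑ j ∈ N.divisors.filter (fun j => U < j ∧ j ≤ y), vonMangoldt j * gam U (N / j) +
        ∑ j ∈ N.divisors.filter (fun j => U < j ∧ j ≤ y), gam U j * vonMangoldt (N / j) := by
      rw [← sum_add_distrib, ← sum_add_distrib, ← sum_add_distrib]
      apply sum_congr rfl
      intro j _
      ring
    rw [e2, e3] at hv
    have hv2 := hv.trans b1
    rw [abs_le] at hv2 b2 ⊢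
    constructor
    · linarith [hv2.1, hv2.2, b2.1, b2.2]
    · linarith [hv2.1, hv2.2, b2.1, b2.2]
  · have e1 : rg z N = 0 := by unfold rg; rw [if_neg hr]
    have e2 : gp z y N = 0 := by unfold gp; rw [e1, zero_mul]
    rw [e1, e2]
    simp

lemma comb4 (S T t lG lA l1 l2 l3 l4 lE sG sA s1 s2 s3 s4 sE : ℝ) (hS : 0 ≤ S)
    (hl : |lG - lA - l1 - l2 - l3 - l4| ≤ lE)
    (hs : |sG - sA - s1 - s2 - s3 - s4| ≤ sE) (hT : |sG - T| ≤ t) :
    |lG - S * T| ≤ |lA - S * sA| + |l1 - S * s1| + |l2 - S * s2| + |l3 - S * s3| + |l4 - S * s4| + lE +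
      S * (sE + t) := by
  have h1 := comb S T t lG (lA + l4) l1 l2 l3 lE sG (sA + s4) s1 s2 s3 sE hS
    (by have e : lG - (lA + l4) - l1 - l2 - l3 = lG - lA - l1 - l2 - l3 - l4 := by ring
        rw [e]; exact hl)
    (by have e : sG - (sA + s4) - s1 - s2 - s3 = sG - sA - s1 - s2 - s3 - s4 := by ring
        rw [e]; exact hs) hT
  have h2 : |lA + l4 - S * (sA + s4)| ≤ |lA - S * sA| + |l4 - S * s4| := by
    have e : lA + l4 - S * (sA + s4) = (lA - S * sA) + (l4 - S * s4) := by ring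
    rw [e]
    exact abs_add_le _ _
  linarith

lemma Lc_comb4 (a b : ℤ) (x1 x c : ℕ) (G A B1 B2 B3 B4 E : ℕ → ℝ)
    (h : ∀ n ∈ Ioc x1 x, |G (fv a b c n).toNat - A (fv a b c n).toNat - B1 (fv a b c n).toNat -
      B2 (fv a b c n).toNat - B3 (fv a b c n).toNat - B4 (fv a b c n).toNat| ≤ E (fv a b c n).toNat) :
    |Lc a b x1 x c G - Lc a b x1 x c A - Lc a b x1 x c B1 - Lc a b x1 x c B2 - Lc a b x1 x c B3 -
      Lc a b x1 x c B4| ≤ Lc a b x1 x c E := by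
  unfold Lc
  rw [← sum_sub_distrib, ← sum_sub_distrib, ← sum_sub_distrib, ← sum_sub_distrib, ← sum_sub_distrib]
  exact (abs_sum_le_sum_abs _ _).trans (sum_le_sum h)

lemma Ls_comb4 (a b : ℤ) (x1 x : ℕ) (G A B1 B2 B3 B4 E : ℕ → ℝ)
    (h : ∀ N ∈ Ioc (Fn a b x1) (Fn a b x), |G N - A N - B1 N - B2 N - B3 N - B4 N| ≤ E N) :
    |Ls a b x1 x G - Ls a b x1 x A - Ls a b x1 x B1 - Ls a b x1 x B2 - Ls a b x1 x B3 - Ls a b x1 x B4| ≤
      Ls a b x1 x E := by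
  unfold Ls
  rw [← sum_sub_distrib, ← sum_sub_distrib, ← sum_sub_distrib, ← sum_sub_distrib, ← sum_sub_distrib]
  refine (abs_sum_le_sum_abs _ _).trans (sum_le_sum fun N hN => ?_)
  have e : G N * hw a N - A N * hw a N - B1 N * hw a N - B2 N * hw a N - B3 N * hw a N - B4 N * hw a N =
      (G N - A N - B1 N - B2 N - B3 N - B4 N) * hw a N := by ring
  rw [e, abs_mul, abs_of_nonneg (Mtm.hw_nonneg a N)]
  exact mul_le_mul_of_nonneg_right (h N hN) (Mtm.hw_nonneg a N)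

/-- the parameters -/
lemma params2 (ε c0 : ℝ) (hε : 0 < ε) (hε1 : ε ≤ 1 / 100) (hc0 : 0 < c0) : ∀ᶠ x : ℕ in atTop,
    ∃ U y : ℕ, 1 ≤ U ∧ U ≤ y ∧ (x : ℝ) ^ (33 / 50 : ℝ) ≤ U ∧ (U : ℝ) ≤ (x : ℝ) ^ (3 / 4 : ℝ) ∧
      (y : ℝ) ≤ (x : ℝ) ^ (1 - ε) ∧ (x : ℝ) ^ (1 - 2 * ε) ≤ y ∧
      ((y * y : ℕ) : ℝ) ≤ c0 * x ^ 2 ∧ ((U * U * U : ℕ) : ℝ) ≤ c0 * x ^ 2 := by
  filter_upwards [pow_ev 2 (33 / 50) (3 / 4) (by norm_num), pow_ev 2 (1 - 2 * ε) (1 - ε) (by linarith),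
    pow_ev (1 / c0) (2 - 2 * ε) 2 (by linarith), pow_ev (8 / c0) (99 / 50) 2 (by norm_num),
    eventually_ge_atTop 1] with x h1 h2 h3 h4 hx1
  have hxr : (1 : ℝ) ≤ x := by exact_mod_cast hx1
  have hxp : (0 : ℝ) < x := by linarith
  have k1 : (1 : ℝ) ≤ (x : ℝ) ^ (33 / 50 : ℝ) := Real.one_le_rpow hxr (by norm_num)
  have k2 : (1 : ℝ) ≤ (x : ℝ) ^ (1 - 2 * ε) := Real.one_le_rpow hxr (by linarith)
  have hU2 : ((⌈(x : ℝ) ^ (33 / 50 : ℝ)⌉₊ : ℕ) : ℝ) ≤ 2 * (x : ℝ) ^ (33 / 50 : ℝ) := by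
    have := Nat.ceil_lt_add_one (by linarith : 0 ≤ (x : ℝ) ^ (33 / 50 : ℝ))
    linarith
  have hy : ((⌊(x : ℝ) ^ (1 - ε)⌋₊ : ℕ) : ℝ) ≤ (x : ℝ) ^ (1 - ε) := Nat.floor_le (by positivity)
  have hy2 := Nat.lt_floor_add_one ((x : ℝ) ^ (1 - ε))
  have h34 : (x : ℝ) ^ (3 / 4 : ℝ) ≤ (x : ℝ) ^ (1 - ε) := Real.rpow_le_rpow_of_exponent_le hxr (by linarith)
  have x2 : (x : ℝ) ^ (2 : ℝ) = (x : ℝ) ^ 2 := by norm_cast
  refine ⟨⌈(x : ℝ) ^ (33 / 50 : ℝ)⌉₊, ⌊(x : ℝ) ^ (1 - ε)⌋₊, ?_, ?_, Nat.le_ceil _, hU2.trans h1, hy, ?_, ?_, ?_⟩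
  · exact Nat.one_le_iff_ne_zero.2 (Nat.ceil_pos.2 (by linarith)).ne'
  · exact Nat.le_floor ((hU2.trans h1).trans h34)
  · linarith
  · rw [x2, div_mul_eq_mul_div, one_mul, div_le_iff₀ hc0] at h3
    push_cast
    calc ((⌊(x : ℝ) ^ (1 - ε)⌋₊ : ℕ) : ℝ) * ((⌊(x : ℝ) ^ (1 - ε)⌋₊ : ℕ) : ℝ)
        ≤ (x : ℝ) ^ (1 - ε) * (x : ℝ) ^ (1 - ε) := by gcongr
      _ = (x : ℝ) ^ (2 - 2 * ε) := by rw [← Real.rpow_add hxp]; congr 1; ring
      _ ≤ c0 * x ^ 2 := by linarith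
  · rw [x2, div_mul_eq_mul_div, div_le_iff₀ hc0] at h4
    push_cast
    calc ((⌈(x : ℝ) ^ (33 / 50 : ℝ)⌉₊ : ℕ) : ℝ) * ((⌈(x : ℝ) ^ (33 / 50 : ℝ)⌉₊ : ℕ) : ℝ) * ((⌈(x : ℝ) ^ (33 / 50 : ℝ)⌉₊ : ℕ) : ℝ)
        ≤ (2 * (x : ℝ) ^ (33 / 50 : ℝ)) * (2 * (x : ℝ) ^ (33 / 50 : ℝ)) * (2 * (x : ℝ) ^ (33 / 50 : ℝ)) := by gcongr
      _ = 8 * ((x : ℝ) ^ (33 / 50 : ℝ) * (x : ℝ) ^ (33 / 50 : ℝ) * (x : ℝ) ^ (33 / 50 : ℝ)) := by ring
      _ = 8 * (x : ℝ) ^ (99 / 50 : ℝ) := by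
          rw [← Real.rpow_add hxp, ← Real.rpow_add hxp]
          norm_num
      _ ≤ c0 * x ^ 2 := by linarith

lemma alg5 (D C3 ε η X L : ℝ) (hη : 0 < η) (hL : 0 < L) :
    6 * L * D * (C3 * (2 * ε / (η / 2) ^ 2) * (X / L)) = 6 * D * (C3 * (2 * ε / (η / 2) ^ 2)) * X := by
  field_simp

end Lam

theorem lam_avg2 (a : ℤ) (ha : 0 < a) (b : ℤ) (h1 : TI a b) (h2 : TII2 a b) (h3 : VS2) : LamQ a b := by
  obtain ⟨As, h2⟩ := h2
  refine ⟨As, fun E R κ hκ => ?_⟩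
  obtain ⟨C4, η0, hC4, hη0, hTI⟩ := h1 R
  obtain ⟨C3, hC3, hgap⟩ := gap_bound a ha b R
  obtain ⟨C5, hC5, hrav⟩ := rough_avg a ha b
  obtain ⟨Kr, hKr, hlsrg⟩ := Lam.ls_rg a ha b R
  obtain ⟨c0, A, hc0, hA, X0, hX0⟩ := Lam.range_bd a ha b R
  obtain ⟨η1, hη1, hη10, hη120, hη1C⟩ := Lam.choose_eta C4 η0 (κ / 10) hC4 hη0 (by positivity)
  obtain ⟨D, hD⟩ : ∃ D : ℝ, D = (2 : ℝ) ^ (3 / (η1 / 2)) := ⟨_, rfl⟩
  have hDpos : 0 < D := by rw [hD]; positivity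
  obtain ⟨K, hK⟩ : ∃ K : ℝ, K = |Real.log c0| + Real.log A := ⟨_, rfl⟩
  have hK0 : 0 ≤ K := by
    rw [hK]
    have := Real.log_nonneg hA
    positivity
  obtain ⟨ε, hε, hε1, hε2⟩ : ∃ ε : ℝ, 0 < ε ∧ ε ≤ 1 / 100 ∧ 6 * D * (C3 * (2 * ε / (η1 / 2) ^ 2)) ≤ κ / 10 := by
    refine ⟨min (1 / 100) (κ * (η1 / 2) ^ 2 / (120 * D * C3)), by positivity, min_le_left _ _, ?_⟩
    have h3 : min (1 / 100) (κ * (η1 / 2) ^ 2 / (120 * D * C3)) ≤ κ * (η1 / 2) ^ 2 / (120 * D * C3) := min_le_right _ _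
    calc 6 * D * (C3 * (2 * min (1 / 100) (κ * (η1 / 2) ^ 2 / (120 * D * C3)) / (η1 / 2) ^ 2))
        ≤ 6 * D * (C3 * (2 * (κ * (η1 / 2) ^ 2 / (120 * D * C3)) / (η1 / 2) ^ 2)) := by gcongr
      _ = κ / 10 := by field_simp; norm_num
  obtain ⟨xTI, hTI⟩ := hTI η1 hη1 hη10 E
  obtain ⟨xTII, hTII⟩ := h2 E R (η1 / 2) ε (by positivity) hε (by linarith)
  obtain ⟨xg, hgap⟩ := hgap (η1 / 2) (2 * ε) (by positivity) (by linarith) (by positivity) (by linarith)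
  obtain ⟨xr, hrav⟩ := hrav (η1 / 2) (by positivity) (by linarith)
  obtain ⟨xs, hlsrg⟩ := hlsrg (η1 / 2) (by positivity) (by linarith)
  obtain ⟨xl, hlam⟩ := ls_lam a ha b R (κ / 4) (by positivity)
  have hev := (Lam.params2 ε c0 hε hε1 hc0).and ((Shp.log_ge (40 / κ)).and
    ((Shp.log_ge (40 * C5 * K * D / (η1 * κ))).and ((Shp.log_ge (16 * K * D * Kr / (η1 * κ))).and
    ((Shp.log_ge 1).and (eventually_ge_atTop ⌈A⌉₊)))))
  obtain ⟨xe, hxe⟩ := eventually_atTop.1 hev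
  refine ⟨η1, hη1, hη120, max (max (max xTI xTII) (max xg xr)) (max (max xs xl) (max (max xe X0) 2)), ?_⟩
  intro x hx x1 C J Jw hx1 hxR hC hCx hz1 hz2 hw1 hw2 Gd hGd hGd2
  have hC9 : (x : ℝ) ^ (9 / 10 : ℝ) ≤ C := by
    have e9 : (1 - 1 / 10 : ℝ) = 9 / 10 := by norm_num
    rw [e9] at hC
    exact hC
  obtain ⟨⟨U, y, hU1, hUy, hUlo, hUhi, hyhi, h3lo, hyy, h3U⟩, hLa, hLb, hLc, hLd, hAx⟩ := hxe x (by omega)
  have hTI := hTI x (by omega) x1 C J Jw U hx1 hxR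
  have hTII := hTII x (by omega) x1 C (2 ^ 2 ^ J) U y Jw hx1 hxR hC9 hCx hz1
  have hgap := hgap x (by omega) x1 C (2 ^ 2 ^ J) y hx1 hxR
  have hrav := hrav x (by omega) x1 x C (2 ^ 2 ^ J) 1 hx1.le le_rfl
  have hlsrg := hlsrg x (by omega) x1 (2 ^ 2 ^ J) hx1 hxR hz1
  have hlam := hlam x (by omega) x1 (2 ^ 2 ^ J) hx1 hxR
  obtain ⟨hbx, hr1, hr2⟩ := hX0 x (by omega) x1 hx1 hxR
  have hx2 : 2 ≤ x := by omega
  have hxr : (1 : ℝ) ≤ x := by exact_mod_cast (by omega : 1 ≤ x)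
  have hxp : (0 : ℝ) < x := by linarith
  have hAx' : A ≤ x := (Nat.le_ceil A).trans (by exact_mod_cast hAx)
  obtain ⟨L, hL⟩ : ∃ L : ℝ, L = Real.log x := ⟨_, rfl⟩
  rw [← hL] at hTI hTII hgap hrav hlsrg hLa hLb hLc hLd hw1 hw2 hGd2
  have hLp : 0 < L := by linarith
  obtain ⟨z, hzdef⟩ : ∃ z : ℕ, z = 2 ^ 2 ^ J := ⟨_, rfl⟩
  rw [← hzdef] at hTI hTII hgap hrav hlsrg hlam hz1 hz2 hGd2 ⊢
  have hzx : z ≤ x := by
    have : (z : ℝ) ≤ (x : ℝ) ^ (1 : ℝ) := hz2.trans (Real.rpow_le_rpow_of_exponent_le hxr (by linarith))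
    rw [Real.rpow_one] at this
    exact_mod_cast this
  have hz1' : 1 ≤ z := by rw [hzdef]; exact Nat.one_le_two_pow
  have hTII := hTII hzx hUlo hUy hyhi hw1 hw2
  have hTI := hTI hC9 hCx hz1 hz2 hw2 hUhi Gd hGd hGd2 (Lam.gI L U) (by
    intro j hj
    apply Lam.gI_abs
    rw [hL]
    rcases Nat.eq_zero_or_pos j with h | h
    · rw [h]
      simp
      exact Real.log_natCast_nonneg x
    · apply Real.log_le_log (by exact_mod_cast h)
      have h5 : (U : ℝ) ≤ x := by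
        calc (U : ℝ) ≤ (x : ℝ) ^ (3 / 4 : ℝ) := hUhi
          _ ≤ (x : ℝ) ^ (1 : ℝ) := Real.rpow_le_rpow_of_exponent_le hxr (by norm_num)
          _ = x := Real.rpow_one _
      have h6 : (j : ℝ) ≤ U := by exact_mod_cast hj
      linarith)
  have hgap := hgap hC9 hCx hz1 h3lo
  have hrav := hrav hC9 hCx hz1 le_rfl (by
    push_cast
    exact Real.one_le_rpow hxr (by norm_num))
  have hlam := hlam hzx hz1'
  -- the functions
  obtain ⟨GG, hGG⟩ : ∃ G : ℕ → ℝ, G = fun N => rg z N * vonMangoldt N := ⟨_, rfl⟩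
  obtain ⟨GA, hGA⟩ : ∃ G : ℕ → ℝ, G = fun N => rg z N * ∑ j ∈ N.divisors.filter (fun j => j ≤ U), Lam.gI L U j := ⟨_, rfl⟩
  obtain ⟨G1, hG1⟩ : ∃ G : ℕ → ℝ, G = fun N => rg z N * ∑ j ∈ N.divisors.filter (fun j => U < j ∧ j ≤ y),
    (fun j => -betU U j) j * (fun _ => (1 : ℝ)) (N / j) := ⟨_, rfl⟩
  obtain ⟨G2, hG2⟩ : ∃ G : ℕ → ℝ, G = fun N => rg z N * ∑ j ∈ N.divisors.filter (fun j => U < j ∧ j ≤ y),
    (fun _ => (-1 : ℝ)) j * betU U (N / j) := ⟨_, rfl⟩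
  obtain ⟨G3, hG3⟩ : ∃ G : ℕ → ℝ, G = fun N => rg z N * ∑ j ∈ N.divisors.filter (fun j => U < j ∧ j ≤ y),
    vonMangoldt j * gam U (N / j) := ⟨_, rfl⟩
  obtain ⟨G4, hG4⟩ : ∃ G : ℕ → ℝ, G = fun N => rg z N * ∑ j ∈ N.divisors.filter (fun j => U < j ∧ j ≤ y),
    gam U j * vonMangoldt (N / j) := ⟨_, rfl⟩
  have t1 := hTII (fun j => -betU U j) (fun _ => 1) (Or.inl ⟨rfl, rfl⟩)
  have t2 := hTII (fun _ => -1) (betU U) (Or.inr (Or.inl ⟨rfl, rfl⟩))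
  have t3 := hTII (fun j => vonMangoldt j) (gam U) (Or.inr (Or.inr (Or.inl ⟨rfl, rfl⟩)))
  have t4 := hTII (gam U) (fun k => vonMangoldt k) (Or.inr (Or.inr (Or.inr ⟨rfl, rfl⟩)))
  rw [← hGA] at hTI
  rw [← hG1] at t1
  rw [← hG2] at t2
  rw [← hG3] at t3
  rw [← hG4] at t4
  rw [← hGG] at hlam ⊢
  obtain ⟨GE, hGE⟩ : ∃ G : ℕ → ℝ, G = fun N => (K * D) * rg z N + (6 * L * D) * gp z y N := ⟨_, rfl⟩
  -- pointwise bound
  have hpt : ∀ N : ℕ, Fn a b x1 < N → N ≤ Fn a b x + x → |GG N - GA N - G1 N - G2 N - G3 N - G4 N| ≤ GE N := by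
    intro N hN1 hN2
    have b1 : c0 * (x : ℝ) ^ 2 ≤ N := hr1.trans (by exact_mod_cast hN1.le)
    have b1' : c0 * (x : ℝ) ^ 2 < N := lt_of_le_of_lt hr1 (by exact_mod_cast hN1)
    have b2 : (N : ℝ) ≤ A * (x : ℝ) ^ 2 := by
      have : (N : ℝ) ≤ ((Fn a b x : ℕ) : ℝ) + x := by exact_mod_cast hN2
      linarith
    obtain ⟨l1, l2, l3⟩ := Lam.log_bd hc0 hA (by omega) b1 b2 hAx'
    have hp := Lam.point_bound2 h3 z U y N L K D hU1 hUy (by
        have : ((y * y : ℕ) : ℝ) < N := lt_of_le_of_lt hyy b1'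
        exact_mod_cast this) (by
        have : ((U * U * U : ℕ) : ℝ) < N := lt_of_le_of_lt h3U b1'
        exact_mod_cast this) (by rw [hL, hK]; exact l1) (by rw [hL]; exact l2)
        (fun hr => by rw [hD]; exact Lam.div_bound (by positivity) hx2 hz1 l3 hr)
    rw [hGG, hGA, hG1, hG2, hG3, hG4, hGE]
    exact hp
  have hgeN : ∀ N : ℕ, 0 ≤ GE N := by
    intro N
    rw [hGE]
    have := Lam.rg_nonneg z N
    have := Lam.gp_nonneg z y N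
    positivity
  have hfv : ∀ c ∈ Icc 1 C, ∀ n ∈ Ioc x1 x, Fn a b x1 < (fv a b (c : ℕ) n).toNat ∧ (fv a b (c : ℕ) n).toNat ≤ Fn a b x + x := by
    intro c hc n hn
    rw [mem_Icc] at hc
    rw [mem_Ioc] at hn
    rw [Mtm.fv_eq ha (by omega), Int.toNat_natCast]
    have f1 : Fn a b x1 ≤ Fn a b n := Mtm.Fn_mono ha hbx hn.1.le
    have f2 : Fn a b n ≤ Fn a b x := Mtm.Fn_mono ha (by omega) hn.2
    omega
  have hLcE : ∀ c : ℕ, 0 ≤ Lc a b x1 x c GE := by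
    intro c
    unfold Lc
    exact sum_nonneg fun n _ => hgeN _
  obtain ⟨S, hS⟩ : ∃ S : ℕ → ℝ, S = fun c : ℕ => Vc a b (c : ℕ) (2 ^ 2 ^ Jw) / V1 (2 ^ 2 ^ Jw) := ⟨_, rfl⟩
  have hS0 : ∀ c, 0 ≤ S c := by
    intro c
    rw [hS]
    exact div_nonneg (Lam.Vc_nonneg a b c _) (V1_pos _).le
  have hSc : ∀ c : ℕ, Vc a b (c : ℕ) (2 ^ 2 ^ Jw) / V1 (2 ^ 2 ^ Jw) = S c := fun c => by rw [hS]
  simp only [hSc] at hTI t1 t2 t3 t4 ⊢
  -- the Ls part of the error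
  have hLsE : Ls a b x1 x GE ≤ (κ / 8 + κ / 10) * x := by
    rw [hGE, Lam.Ls_lin2]
    have e1 : K * D * Ls a b x1 x (rg z) ≤ κ / 8 * x := by
      calc K * D * Ls a b x1 x (rg z) ≤ K * D * (Kr * x / (η1 / 2 * L)) :=
            mul_le_mul_of_nonneg_left hlsrg (by positivity)
        _ = (16 * K * D * Kr / (η1 * κ)) * (κ / 8 * x) / L := Lam.alg3 _ _ _ _ _ _ _ hη1 hκ hLp
        _ ≤ L * (κ / 8 * x) / L := by gcongr
        _ = κ / 8 * x := Lam.alg4 _ _ hLp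
    have e2 : 6 * L * D * Ls a b x1 x (gp z y) ≤ κ / 10 * x := by
      calc 6 * L * D * Ls a b x1 x (gp z y) ≤ 6 * L * D * (C3 * (2 * ε / (η1 / 2) ^ 2) * (x / L)) :=
            mul_le_mul_of_nonneg_left hgap.2 (by positivity)
        _ = 6 * D * (C3 * (2 * ε / (η1 / 2) ^ 2)) * x := Lam.alg5 _ _ _ _ _ _ hη1 hLp
        _ ≤ κ / 10 * x := mul_le_mul_of_nonneg_right hε2 hxp.le
    linarith
  -- the Lc part of the error
  have hLcE' : ∑ c ∈ Icc 1 C, Lc a b x1 x c GE ≤ (κ / 10 + κ / 10) * (C * x) := by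
    have e0 : ∀ c ∈ Icc 1 C, Lc a b x1 x c GE = K * D * Lc a b x1 x c (rg z) + 6 * L * D * Lc a b x1 x c (gp z y) := by
      intro c _
      rw [hGE, Lam.Lc_lin2]
    rw [sum_congr rfl e0, sum_add_distrib, ← mul_sum, ← mul_sum]
    have e3 : (fun N : ℕ => if 1 ∣ N then rg z (N / 1) else 0) = rg z := by
      funext N
      simp
    rw [e3] at hrav
    have hC0 : (0 : ℝ) ≤ C := Nat.cast_nonneg _
    have e1 : K * D * ∑ c ∈ Icc 1 C, Lc a b x1 x c (rg z) ≤ κ / 10 * (C * x) := by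
      have hin : (x : ℝ) - x1 + x / L ^ 2 ≤ 2 * x := by
        have g1 : (0 : ℝ) ≤ x1 := Nat.cast_nonneg _
        have g2 : (x : ℝ) / L ^ 2 ≤ x := by
          apply div_le_self hxp.le
          nlinarith
        linarith
      calc K * D * ∑ c ∈ Icc 1 C, Lc a b x1 x c (rg z)
          ≤ K * D * (C5 * (C * ((x : ℝ) - x1 + x / L ^ 2) / (((1 : ℕ) : ℝ) * (η1 / 2 * L)))) :=
            mul_le_mul_of_nonneg_left hrav (by positivity)
        _ ≤ K * D * (C5 * (C * (2 * x) / (((1 : ℕ) : ℝ) * (η1 / 2 * L)))) := by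
            push_cast
            gcongr
        _ = (40 * C5 * K * D / (η1 * κ)) * (κ / 10 * (C * x)) / L := Lam.alg1 _ _ _ _ _ _ _ _ hη1 hκ hLp
        _ ≤ L * (κ / 10 * (C * x)) / L := by gcongr
        _ = κ / 10 * (C * x) := Lam.alg4 _ _ hLp
    have e2 : 6 * L * D * ∑ c ∈ Icc 1 C, Lc a b x1 x c (gp z y) ≤ κ / 10 * (C * x) := by
      calc 6 * L * D * ∑ c ∈ Icc 1 C, Lc a b x1 x c (gp z y)
          ≤ 6 * L * D * (C3 * (2 * ε / (η1 / 2) ^ 2) * (C * x / L)) :=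
            mul_le_mul_of_nonneg_left hgap.1 (by positivity)
        _ = 6 * D * (C3 * (2 * ε / (η1 / 2) ^ 2)) * (C * x) := Lam.alg5 _ _ _ _ _ _ hη1 hLp
        _ ≤ κ / 10 * (C * x) := mul_le_mul_of_nonneg_right hε2 (by positivity)
    linarith
  refine ⟨fun c => |Lc a b x1 x c GA - S c * Ls a b x1 x GA| + |Lc a b x1 x c G1 - S c * Ls a b x1 x G1| +
    |Lc a b x1 x c G2 - S c * Ls a b x1 x G2| + |Lc a b x1 x c G3 - S c * Ls a b x1 x G3| +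
    |Lc a b x1 x c G4 - S c * Ls a b x1 x G4| + Lc a b x1 x c GE, ?_, ?_, ?_⟩
  · intro c
    have := hLcE c
    positivity
  · rw [sum_add_distrib, sum_add_distrib, sum_add_distrib, sum_add_distrib, sum_add_distrib]
    have hsub : ∀ F : ℕ → ℝ, (∀ c, 0 ≤ F c) → ∑ c ∈ Gd, F c ≤ ∑ c ∈ Icc 1 C, F c := fun F hF =>
      sum_le_sum_of_subset_of_nonneg hGd fun c _ _ => hF c
    have s1 := hsub _ (fun c => abs_nonneg (Lc a b x1 x c G1 - S c * Ls a b x1 x G1))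
    have s2 := hsub _ (fun c => abs_nonneg (Lc a b x1 x c G2 - S c * Ls a b x1 x G2))
    have s3 := hsub _ (fun c => abs_nonneg (Lc a b x1 x c G3 - S c * Ls a b x1 x G3))
    have s7 := hsub _ (fun c => abs_nonneg (Lc a b x1 x c G4 - S c * Ls a b x1 x G4))
    have s4 := hsub _ hLcE
    have hCx0 : 0 ≤ (C : ℝ) * x := by positivity
    have s5 : (C : ℝ) * x / L ≤ κ / 40 * (C * x) := by
      have : 40 ≤ L * κ := by rwa [div_le_iff₀ hκ] at hLa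
      rw [div_le_iff₀ hLp]
      nlinarith
    have s6 : C4 * ((2 : ℝ) ^ (-(1 / (C4 * η1))) / η1 ^ 2) * (C * x) ≤ κ / 10 * (C * x) :=
      mul_le_mul_of_nonneg_right hη1C hCx0
    nlinarith
  · intro c hc
    have hcI := hGd hc
    have q1 := Lam.Lc_comb4 a b x1 x c GG GA G1 G2 G3 G4 GE (fun n hn => hpt _ (hfv c hcI n hn).1 (hfv c hcI n hn).2)
    have q2 := Lam.Ls_comb4 a b x1 x GG GA G1 G2 G3 G4 GE (fun N hN => by
      rw [mem_Ioc] at hN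
      exact hpt N hN.1 (by omega))
    have q3 := Lam.comb4 (S c) ((x : ℝ) - x1) (κ / 4 * x) _ _ _ _ _ _ _ _ _ _ _ _ _ _ (hS0 c) q1 q2 hlam
    have q4 : S c * (Ls a b x1 x GE + κ / 4 * x) ≤ κ * S c * x := by
      calc S c * (Ls a b x1 x GE + κ / 4 * x) ≤ S c * (κ * x) := by
            apply mul_le_mul_of_nonneg_left _ (hS0 c)
            have : 0 < κ * x := by positivity
            linarith
        _ = κ * S c * x := by ring
    linarith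

end Pool.Agent.N792
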