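import Mathlib
import Pool.Agent.N792.Defs2
import Pool.Agent.N792.SwR

/-!
Siegel-Walfisz theorem for the convolution `betU` on rough numbers (helper124, for helper792).
-/

set_option autoImplicit false

namespace Pool.Agent.N792
namespace Sh2

open Finset Filter Topology Pool.Agent.N792.SwR
open ArithmeticFunction (moebius vonMangoldt)

lemma mu_le (d : ℕ) : |(moebius d : ℝ)| ≤ 1 := by
  have := ArithmeticFunction.abs_moebius_le_one (n := d)
  exact_mod_cast this

lemma betU_le (U j : ℕ) : |betU U j| ≤ Real.log j := by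
  unfold betU
  refine (abs_sum_le_sum_abs _ _).trans ?_
  calc ∑ i ∈ j.divisorsAntidiagonal, |(if i.1 ≤ U then (moebius i.1 : ℝ) else 0) *
      (if i.2 ≤ U then vonMangoldt i.2 else 0)| ≤ ∑ i ∈ j.divisorsAntidiagonal, vonMangoldt i.2 := by
        apply sum_le_sum
        rintro ⟨p, q⟩ _
        simp only
        rw [abs_mul]
        have h1 : |(if p ≤ U then (moebius p : ℝ) else 0)| ≤ 1 := by
          split_ifs
          · exact mu_le p
          · simp
        have h2 : |(if q ≤ U then vonMangoldt q else (0 : ℝ))| ≤ vonMangoldt q := by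
          split_ifs
          · rw [abs_of_nonneg ArithmeticFunction.vonMangoldt_nonneg]
          · simp [ArithmeticFunction.vonMangoldt_nonneg]
        calc _ ≤ 1 * vonMangoldt q := mul_le_mul h1 h2 (abs_nonneg _) zero_le_one
          _ = vonMangoldt q := one_mul _
    _ = ∑ i ∈ j.divisors, vonMangoldt i := by
        rw [← Nat.map_div_left_divisors, sum_map]
        rfl
    _ = Real.log j := ArithmeticFunction.vonMangoldt_sum

/-- `betU` at `m P` -/
lemma betU_mul (U m P : ℕ) (hm : m ≠ 0) (hP : P.Prime) (hPm : ¬ P ∣ m) :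
    betU U (m * P) = (if m ≤ U then (moebius m : ℝ) else 0) * (if P ≤ U then Real.log P else 0) -
      ∑ d ∈ m.divisors, ((moebius d : ℝ) * (if m / d ≤ U then vonMangoldt (m / d) else 0)) *
        (if P ≤ U / d then 1 else 0) := by
  have h0 : betU U (m * P) = ∑ d ∈ (m * P).divisors, (if d ≤ U then (moebius d : ℝ) else 0) *
      (if (m * P) / d ≤ U then vonMangoldt ((m * P) / d) else 0) := by
    unfold betU
    exact Nat.sum_divisorsAntidiagonal (fun i l => (if i ≤ U then (moebius i : ℝ) else 0) *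
      (if l ≤ U then vonMangoldt l else 0))
  rw [h0, sum_div_mul hm hP hPm, sub_eq_add_neg, ← sum_neg_distrib]
  congr 1
  · rw [sum_eq_single_of_mem m (Nat.mem_divisors_self m hm)]
    · rw [Nat.mul_div_cancel_left P (Nat.pos_of_ne_zero hm),
        ArithmeticFunction.vonMangoldt_apply_prime hP]
    · intro d hd hne
      rw [Nat.mem_divisors] at hd
      obtain ⟨e, he⟩ := hd.1
      have hd0 : d ≠ 0 := fun h0 => hm (by rw [h0] at hd; exact Nat.eq_zero_of_zero_dvd hd.1)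
      have h1 : m * P / d = e * P := by
        rw [he, mul_assoc, Nat.mul_div_cancel_left _ (Nat.pos_of_ne_zero hd0)]
      have he0 : e ≠ 0 := fun h0 => hm (by rw [he, h0, mul_zero])
      have he1 : e ≠ 1 := fun h0 => hne (by rw [he, h0, mul_one])
      have h2 : vonMangoldt (e * P) = 0 := by
        rw [ArithmeticFunction.vonMangoldt_eq_zero_iff]
        intro hpp
        have hcop : e.Coprime P := by
          rw [Nat.coprime_comm, hP.coprime_iff_not_dvd]
          intro h3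
          exact hPm (h3.trans ⟨d, by rw [he]; ring⟩)
        rcases (Nat.Coprime.isPrimePow_dvd_mul hcop hpp).1 dvd_rfl with h4 | h4
        · have h5 := Nat.le_of_dvd (Nat.pos_of_ne_zero he0) h4
          have h6 := hP.two_le
          have h7 : 0 < e := Nat.pos_of_ne_zero he0
          nlinarith
        · have h5 := Nat.le_of_dvd hP.pos h4
          have h6 := hP.pos
          have h7 : 2 ≤ e := by omega
          nlinarith
      rw [h1, h2]
      simp
  · apply sum_congr rfl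
    intro d hd
    rw [Nat.mem_divisors] at hd
    have hd0 : d ≠ 0 := fun h0 => hm (by rw [h0] at hd; exact Nat.eq_zero_of_zero_dvd hd.1)
    have hcop : d.Coprime P := (hP.coprime_iff_not_dvd.2 (fun h2 => hPm (h2.trans hd.1))).symm
    have h1 : moebius (d * P) = - moebius d := by
      rw [ArithmeticFunction.isMultiplicative_moebius.map_mul_of_coprime hcop,
        ArithmeticFunction.moebius_apply_prime hP]
      ring
    have h2 : (P ≤ U / d) ↔ d * P ≤ U := by
      rw [Nat.le_div_iff_mul_le (Nat.pos_of_ne_zero hd0), mul_comm]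
    have h3 : m * P / (d * P) = m / d := Nat.mul_div_mul_right m d hP.pos
    rw [h1, h3]
    simp only [h2]
    by_cases h4 : d * P ≤ U
    · simp only [h4, if_true]
      push_cast
      ring
    · simp only [h4, if_false]
      ring

lemma filter_min (s b T : ℕ) (F : ℕ → ℝ) :
    ∑ P ∈ (Ioc s b).filter Nat.Prime, F P * (if P ≤ T then 1 else 0) =
      ∑ P ∈ (Ioc s (min b T)).filter Nat.Prime, F P := by
  have h1 : (Ioc s (min b T)).filter Nat.Prime = ((Ioc s b).filter Nat.Prime).filter (fun P => P ≤ T) := by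
    ext P
    simp only [mem_filter, mem_Ioc, le_min_iff]
    tauto
  rw [h1, sum_filter (fun P => P ≤ T) F]
  apply sum_congr rfl
  intro P _
  split_ifs <;> simp

/-- the inner sum over the largest prime factor -/
lemma innerB (z u q r U m N : ℕ) (E E2 H : ℝ) (hq : 1 ≤ q) (hqz : q ≤ z) (hr : r.Coprime q)
    (hE0 : 0 ≤ E) (hE20 : 0 ≤ E2)
    (hE : ∀ s b c : ℕ, z ≤ s → c < q → c.Coprime q →
      |∑ P ∈ (Ioc s b).filter Nat.Prime, w q c P| ≤ E * b)
    (hE2 : ∀ s b c : ℕ, z ≤ s → c < q → c.Coprime q → b ≤ u →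
      |∑ P ∈ (Ioc s b).filter Nat.Prime, Real.log P * w q c P| ≤ E2 * b)
    (hm : m ∈ Icc 1 u) (hmr : Rough z m) (hdiv : #m.divisors ≤ N) (hH : Real.log m ≤ H) :
    |∑ P ∈ (Ioc (max z (lp m)) (u / m)).filter Nat.Prime, betU U (m * P) * w q r (m * P)| ≤
      (E2 + N * (H * E)) * ((u / m : ℕ) : ℝ) := by
  obtain ⟨c0, hc0, hc0q, hw⟩ := exists_class q m r hq (rough_coprime hmr hq hqz) hr
  rw [mem_Icc] at hm
  have hm0 : m ≠ 0 := by omega
  have hH0 : 0 ≤ H := (Real.log_natCast_nonneg m).trans hH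
  have h1 : ∑ P ∈ (Ioc (max z (lp m)) (u / m)).filter Nat.Prime, betU U (m * P) * w q r (m * P) =
      (if m ≤ U then (moebius m : ℝ) else 0) *
        ∑ P ∈ (Ioc (max z (lp m)) (min (u / m) U)).filter Nat.Prime, Real.log P * w q c0 P -
      ∑ d ∈ m.divisors, ((moebius d : ℝ) * (if m / d ≤ U then vonMangoldt (m / d) else 0)) *
        ∑ P ∈ (Ioc (max z (lp m)) (min (u / m) (U / d))).filter Nat.Prime, w q c0 P := by
    have h2 : ∀ P ∈ (Ioc (max z (lp m)) (u / m)).filter Nat.Prime, betU U (m * P) * w q r (m * P) =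
        (if m ≤ U then (moebius m : ℝ) else 0) * ((Real.log P * w q c0 P) * (if P ≤ U then 1 else 0)) -
        ∑ d ∈ m.divisors, ((moebius d : ℝ) * (if m / d ≤ U then vonMangoldt (m / d) else 0)) *
          (w q c0 P * (if P ≤ U / d then 1 else 0)) := by
      intro P hP
      rw [mem_filter, mem_Ioc] at hP
      have hPm : ¬ P ∣ m := fun hd => by
        have h3 := le_lp hm0 hP.2 hd
        have h4 := lt_of_le_of_lt (le_max_right z (lp m)) hP.1.1
        omega
      rw [betU_mul U m P hm0 hP.2 hPm, hw P, sub_mul, sum_mul]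
      congr 1
      · split_ifs <;> ring
      · apply sum_congr rfl
        intro d _
        ring
    rw [sum_congr rfl h2, sum_sub_distrib, ← mul_sum, filter_min, sum_comm]
    congr 1
    apply sum_congr rfl
    intro d _
    rw [← mul_sum, filter_min]
  rw [h1]
  have hz : z ≤ max z (lp m) := le_max_left _ _
  have hmin : ∀ T : ℕ, ((min (u / m) T : ℕ) : ℝ) ≤ ((u / m : ℕ) : ℝ) := fun T => by
    exact_mod_cast min_le_left _ _
  have p1 : |(if m ≤ U then (moebius m : ℝ) else 0) *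
        ∑ P ∈ (Ioc (max z (lp m)) (min (u / m) U)).filter Nat.Prime, Real.log P * w q c0 P| ≤
      E2 * ((u / m : ℕ) : ℝ) := by
    rw [abs_mul]
    have h3 : |(if m ≤ U then (moebius m : ℝ) else 0)| ≤ 1 := by
      split_ifs
      · exact mu_le m
      · simp
    have h4 := hE2 (max z (lp m)) (min (u / m) U) c0 hz hc0 hc0q
      ((min_le_left _ _).trans (Nat.div_le_self u m))
    calc _ ≤ 1 * (E2 * ((min (u / m) U : ℕ) : ℝ)) := mul_le_mul h3 h4 (abs_nonneg _) zero_le_one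
      _ = E2 * ((min (u / m) U : ℕ) : ℝ) := one_mul _
      _ ≤ E2 * ((u / m : ℕ) : ℝ) := mul_le_mul_of_nonneg_left (hmin U) hE20
  have p2 : |∑ d ∈ m.divisors, ((moebius d : ℝ) * (if m / d ≤ U then vonMangoldt (m / d) else 0)) *
        ∑ P ∈ (Ioc (max z (lp m)) (min (u / m) (U / d))).filter Nat.Prime, w q c0 P| ≤
      N * (H * E) * ((u / m : ℕ) : ℝ) := by
    refine (abs_sum_le_sum_abs _ _).trans ?_
    calc ∑ d ∈ m.divisors, |((moebius d : ℝ) * (if m / d ≤ U then vonMangoldt (m / d) else 0)) *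
        ∑ P ∈ (Ioc (max z (lp m)) (min (u / m) (U / d))).filter Nat.Prime, w q c0 P|
        ≤ ∑ _d ∈ m.divisors, (1 * H) * (E * ((u / m : ℕ) : ℝ)) := by
          apply sum_le_sum
          intro d hd
          rw [Nat.mem_divisors] at hd
          rw [abs_mul, abs_mul]
          have h3 : |(if m / d ≤ U then vonMangoldt (m / d) else (0 : ℝ))| ≤ H := by
            split_ifs
            · rw [abs_of_nonneg ArithmeticFunction.vonMangoldt_nonneg]
              refine ArithmeticFunction.vonMangoldt_le_log.trans (le_trans ?_ hH)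
              have h5 : 0 < m / d := Nat.div_pos (Nat.le_of_dvd (by omega) hd.1)
                (Nat.pos_of_dvd_of_pos hd.1 (by omega))
              exact Real.log_le_log (by exact_mod_cast h5) (by exact_mod_cast Nat.div_le_self m d)
            · rw [abs_zero]; exact hH0
          have h4 := hE (max z (lp m)) (min (u / m) (U / d)) c0 hz hc0 hc0q
          have h5 : E * ((min (u / m) (U / d) : ℕ) : ℝ) ≤ E * ((u / m : ℕ) : ℝ) :=
            mul_le_mul_of_nonneg_left (hmin (U / d)) hE0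
          exact mul_le_mul (mul_le_mul (mu_le d) h3 (abs_nonneg _) zero_le_one) (h4.trans h5)
            (abs_nonneg _) (by positivity)
      _ = #m.divisors * ((H * E) * ((u / m : ℕ) : ℝ)) := by rw [sum_const, nsmul_eq_mul]; ring
      _ ≤ N * ((H * E) * ((u / m : ℕ) : ℝ)) :=
          mul_le_mul_of_nonneg_right (Nat.cast_le.2 hdiv) (by positivity)
      _ = N * (H * E) * ((u / m : ℕ) : ℝ) := by ring
  refine (abs_sub _ _).trans ?_
  rw [add_mul]
  exact add_le_add p1 p2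

open Classical in
/-- the sum over the rough numbers -/
lemma core_gen (z u q r : ℕ) (S D : ℝ) (hS0 : 0 ≤ S) (hD0 : 0 ≤ D) (hz : 1 ≤ z) (hq : 1 ≤ q) (g : ℕ → ℝ)
    (hg : ∀ k, 1 ≤ k → k ≤ u → Rough z k → |g k| ≤ S)
    (hin : ∀ m, m ∈ Icc 1 u → Rough z m →
      |∑ P ∈ (Ioc (max z (lp m)) (u / m)).filter Nat.Prime, g (m * P) * w q r (m * P)| ≤
        D * ((u / m : ℕ) : ℝ)) :
    |∑ k ∈ (Icc 1 u).filter (Rough z), g k * w q r k| ≤
      S * (1 + u / z) + D * (u * (1 + Real.log u)) := by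
  rw [← sum_filter_not_add_sum_filter _ (fun k => k ≠ 1 ∧ ¬ (lp k) ^ 2 ∣ k)]
  refine (abs_add_le _ _).trans (add_le_add ?_ ?_)
  · refine (abs_sum_le_sum_abs _ _).trans ?_
    refine (sum_le_card_nsmul _ _ S fun k hk => ?_).trans ?_
    · rw [mem_filter, mem_filter, mem_Icc] at hk
      rw [abs_mul]
      calc |g k| * |w q r k| ≤ S * 1 := mul_le_mul (hg k hk.1.1.1 hk.1.1.2 hk.1.2) (abs_w_le q r k hq)
            (abs_nonneg _) hS0
        _ = S := mul_one _
    · rw [nsmul_eq_mul, mul_comm]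
      apply mul_le_mul_of_nonneg_left _ hS0
      have h1 : ((Icc 1 u).filter (Rough z)).filter (fun k => ¬ (k ≠ 1 ∧ ¬ (lp k) ^ 2 ∣ k)) ⊆
          insert 1 ((Icc 1 u).filter (fun k => ∃ n, z < n ∧ n ^ 2 ∣ k)) := by
        intro k hk
        rw [mem_filter, mem_filter, mem_Icc] at hk
        obtain ⟨⟨⟨h1, h2⟩, h3⟩, h4⟩ := hk
        rw [mem_insert, mem_filter, mem_Icc]
        by_cases hk1 : k = 1
        · exact Or.inl hk1
        · right
          refine ⟨⟨h1, h2⟩, lp k, ?_, ?_⟩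
          · obtain ⟨hp, hd⟩ := lp_mem (by omega) hk1
            exact h3.2 _ hp hd
          · by_contra hcon
            exact h4 ⟨hk1, hcon⟩
      have h2 := (card_le_card h1).trans (card_insert_le _ _)
      calc ((#(((Icc 1 u).filter (Rough z)).filter (fun k => ¬ (k ≠ 1 ∧ ¬ (lp k) ^ 2 ∣ k))) : ℕ) : ℝ)
          ≤ ((#((Icc 1 u).filter (fun k => ∃ n, z < n ∧ n ^ 2 ∣ k)) + 1 : ℕ) : ℝ) := Nat.cast_le.2 h2
        _ = (#((Icc 1 u).filter (fun k => ∃ n, z < n ∧ n ^ 2 ∣ k)) : ℕ) + 1 := by push_cast; ring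
        _ ≤ u / z + 1 := add_le_add (card_sq z u hz) le_rfl
        _ = 1 + u / z := add_comm _ _
  · rw [sum_good z u (fun k => g k * w q r k)]
    calc |∑ m ∈ (Icc 1 u).filter (Rough z), ∑ P ∈ (Ioc (max z (lp m)) (u / m)).filter Nat.Prime,
          g (m * P) * w q r (m * P)|
        ≤ ∑ m ∈ (Icc 1 u).filter (Rough z), |∑ P ∈ (Ioc (max z (lp m)) (u / m)).filter Nat.Prime,
          g (m * P) * w q r (m * P)| := abs_sum_le_sum_abs _ _
      _ ≤ ∑ m ∈ (Icc 1 u).filter (Rough z), D * u * (1 / (m : ℝ)) := by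
          apply sum_le_sum
          intro m hm
          rw [mem_filter] at hm
          refine (hin m hm.1 hm.2).trans ?_
          have h1 : ((u / m : ℕ) : ℝ) ≤ u / m := Nat.cast_div_le
          calc D * ((u / m : ℕ) : ℝ) ≤ D * (u / m) := by gcongr
            _ = D * u * (1 / (m : ℝ)) := by ring
      _ ≤ ∑ m ∈ Icc 1 u, D * u * (1 / (m : ℝ)) := by
          apply sum_le_sum_of_subset_of_nonneg (filter_subset _ _)
          intro m _ _
          positivity
      _ = D * u * ∑ m ∈ Icc 1 u, (1 : ℝ) / m := by rw [mul_sum]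
      _ ≤ D * u * (1 + Real.log u) := by
          apply mul_le_mul_of_nonneg_left (sum_inv_le u)
          positivity
      _ = D * (u * (1 + Real.log u)) := by ring

/-- primes with the weight `log p` -/
lemma logsum (s b q c : ℕ) (E : ℝ) (hq : 1 ≤ q)
    (hE : |∑ k ∈ Ioc s b, vonMangoldt k * w q c k| ≤ E * b) :
    |∑ P ∈ (Ioc s b).filter Nat.Prime, Real.log P * w q c P| ≤ E * b + 2 * (√(b : ℝ) * Real.log b) := by
  rcases Nat.eq_zero_or_pos b with hb | hb
  · subst hb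
    simp
  have h2 := sum_filter_add_sum_filter_not (Ioc s b) Nat.Prime (fun k => vonMangoldt k * w q c k)
  have h6 : ∑ P ∈ (Ioc s b).filter Nat.Prime, Real.log P * w q c P =
      ∑ P ∈ (Ioc s b).filter Nat.Prime, vonMangoldt P * w q c P := by
    apply sum_congr rfl
    intro P hP
    rw [mem_filter] at hP
    rw [ArithmeticFunction.vonMangoldt_apply_prime hP.2]
  have h3 : |∑ k ∈ (Ioc s b).filter (fun k => ¬ k.Prime), vonMangoldt k * w q c k| ≤
      2 * (√(b : ℝ) * Real.log b) := by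
    have hu1 : (1 : ℝ) ≤ b := by exact_mod_cast hb
    have h4 := Chebyshev.psi_sub_theta_le hu1
    rw [Chebyshev.psi_sub_theta_eq_sum_not_prime, Nat.floor_natCast] at h4
    refine le_trans ?_ (h4.trans (le_of_eq (by ring)))
    refine (abs_sum_le_sum_abs _ _).trans ?_
    calc ∑ k ∈ (Ioc s b).filter (fun k => ¬ k.Prime), |vonMangoldt k * w q c k|
        ≤ ∑ k ∈ (Ioc s b).filter (fun k => ¬ k.Prime), vonMangoldt k := by
          apply sum_le_sum
          intro k _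
          rw [abs_mul, abs_of_nonneg ArithmeticFunction.vonMangoldt_nonneg]
          exact mul_le_of_le_one_right ArithmeticFunction.vonMangoldt_nonneg (abs_w_le q c k hq)
      _ ≤ ∑ k ∈ (Ioc 0 b).filter (fun k => ¬ k.Prime), vonMangoldt k := by
          apply sum_le_sum_of_subset_of_nonneg
          · intro k hk
            rw [mem_filter, mem_Ioc] at hk
            rw [mem_filter, mem_Ioc]
            exact ⟨⟨by omega, hk.1.2⟩, hk.2⟩
          · intro k _ _
            exact ArithmeticFunction.vonMangoldt_nonneg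
  have h5 : ∑ P ∈ (Ioc s b).filter Nat.Prime, vonMangoldt P * w q c P =
      ∑ k ∈ Ioc s b, vonMangoldt k * w q c k -
      ∑ k ∈ (Ioc s b).filter (fun k => ¬ k.Prime), vonMangoldt k * w q c k := by
    rw [← h2]; ring
  rw [h6, h5]
  exact (abs_sub _ _).trans (add_le_add hE h3)

end Sh2

open Finset Filter Topology

/-- Siegel-Walfisz for `z`-rough numbers with the weight `betU U` -/
theorem sw_betU (η : ℝ) (hη : 0 < η) (A B : ℕ) : ∃ x0 : ℕ, ∀ x : ℕ, x0 ≤ x → ∀ z U K u q r : ℕ,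
    (x : ℝ) ^ η ≤ z → z ≤ x → x ≤ K → K ≤ x ^ 3 → u ≤ K → 1 ≤ q → (q : ℝ) ≤ Real.log x ^ B →
    r.Coprime q →
    |∑ k ∈ (Icc 1 u).filter (fun k => k ≡ r [MOD q]), rg z k * betU U k -
      (∑ k ∈ Icc 1 u, rg z k * betU U k) / (Nat.totient q : ℝ)| ≤ K / Real.log x ^ A := by
  classical
  obtain ⟨y0, hy03, hsw⟩ := SwR.sw_int (A + 4) (B + 1)
  obtain ⟨J, hJ⟩ : ∃ J : ℕ, J = ⌊3 / η⌋₊ := ⟨_, rfl⟩
  obtain ⟨M, hM⟩ : ∃ M : ℕ, M = 2 ^ J := ⟨_, rfl⟩
  have hM1 : 1 ≤ M := by
    rw [hM]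
    exact Nat.one_le_two_pow
  obtain ⟨x1, h1⟩ := SwR.evN _ ((tendsto_rpow_atTop hη).eventually_ge_atTop (y0 : ℝ))
  obtain ⟨x2, h2⟩ := SwR.evN _ (Real.tendsto_log_atTop.eventually_ge_atTop
    (1 + 1 / η ^ (B + 1) + 80 * M / η ^ (A + 4)))
  obtain ⟨x3, h3⟩ := SwR.evN _ (SwR.ev_pow B 1 η hη)
  obtain ⟨x4, h4⟩ := SwR.evN _ (SwR.ev_pow (A + 1) 12 1 one_pos)
  obtain ⟨x5, h5⟩ := SwR.evN _ (SwR.ev_pow (A + 1) 12 η hη)
  obtain ⟨x6, h6⟩ := SwR.evN _ (SwR.ev_pow (A + 5) (3 * η ^ (A + 4)) (η / 2) (by positivity))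
  refine ⟨x1 + x2 + x3 + x4 + x5 + x6 + 3, ?_⟩
  intro x hx z U K u q r hz hzx hxK hKx huK hq hqx hr
  have g1 := h1 x (by omega)
  have g2 := h2 x (by omega)
  have g3 := h3 x (by omega)
  have g4 := h4 x (by omega)
  have g5 := h5 x (by omega)
  have g6 := h6 x (by omega)
  obtain ⟨ℓ, hℓ⟩ : ∃ ℓ : ℝ, ℓ = Real.log x := ⟨_, rfl⟩
  rw [← hℓ] at g2 g3 g4 g5 g6 hqx ⊢
  have hx0 : (0 : ℝ) < x := by exact_mod_cast (by omega : 0 < x)
  have hx1 : (1 : ℝ) < x := by exact_mod_cast (by omega : 1 < x)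
  have hM0 : (1 : ℝ) ≤ M := by exact_mod_cast hM1
  have e1 : 0 < 1 / η ^ (B + 1) := by positivity
  have e2 : 0 < 80 * M / η ^ (A + 4) := by positivity
  have hℓ1 : 1 ≤ ℓ := by linarith
  have hℓ0 : 0 < ℓ := by linarith
  have hyz : y0 ≤ z := by
    have : (y0 : ℝ) ≤ z := g1.trans hz
    exact_mod_cast this
  have hz1 : 1 ≤ z := by omega
  have hz0 : (0 : ℝ) < z := by exact_mod_cast (by omega : 0 < z)
  have hxη : 0 < (x : ℝ) ^ η := Real.rpow_pos_of_pos hx0 η
  have hlz : η * ℓ ≤ Real.log z := by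
    rw [hℓ, ← Real.log_rpow hx0]
    exact Real.log_le_log hxη hz
  have hqz : q ≤ z := by
    have : (q : ℝ) ≤ z := hqx.trans ((by rw [one_mul] at g3; exact g3 : ℓ ^ B ≤ (x : ℝ) ^ η).trans hz)
    exact_mod_cast this
  have hηℓ : 0 < η * ℓ := by positivity
  have hqz2 : (q : ℝ) ≤ Real.log z ^ (B + 1) := by
    refine hqx.trans (le_trans ?_ (pow_le_pow_left₀ hηℓ.le hlz (B + 1)))
    have e3 : 1 ≤ η ^ (B + 1) * ℓ := by
      have : 1 / η ^ (B + 1) ≤ ℓ := by linarith
      rw [div_le_iff₀ (by positivity)] at this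
      linarith
    calc ℓ ^ B = 1 * ℓ ^ B := by ring
      _ ≤ (η ^ (B + 1) * ℓ) * ℓ ^ B := by gcongr
      _ = (η * ℓ) ^ (B + 1) := by rw [mul_pow]; ring
  obtain ⟨E, hE⟩ : ∃ E : ℝ, E = 2 / (η * ℓ) ^ (A + 4) := ⟨_, rfl⟩
  have hE0 : 0 ≤ E := by rw [hE]; positivity
  have hEb : 2 / Real.log z ^ (A + 4) ≤ E := by
    rw [hE]
    apply div_le_div_of_nonneg_left (by norm_num) (by positivity)
    exact pow_le_pow_left₀ hηℓ.le hlz _
  have hK0 : (0 : ℝ) < K := by exact_mod_cast (by omega : 0 < K)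
  have hxK' : (x : ℝ) ≤ K := by exact_mod_cast hxK
  have huK' : (u : ℝ) ≤ K := by exact_mod_cast huK
  have hlogK : Real.log K ≤ 3 * ℓ := by
    have : (K : ℝ) ≤ (x : ℝ) ^ 3 := by exact_mod_cast hKx
    calc Real.log K ≤ Real.log ((x : ℝ) ^ 3) := Real.log_le_log hK0 this
      _ = 3 * ℓ := by rw [Real.log_pow, hℓ]; norm_num
  have hlogm : ∀ m : ℕ, 1 ≤ m → m ≤ u → Real.log m ≤ 3 * ℓ := by
    intro m hm hmu
    refine (Real.log_le_log (by exact_mod_cast hm) ?_).trans hlogK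
    exact_mod_cast hmu.trans huK
  have hlogu : Real.log u ≤ 3 * ℓ := by
    rcases Nat.eq_zero_or_pos u with hu | hu
    · rw [hu]; simp; linarith
    · exact hlogm u hu le_rfl
  have hlogu0 : 0 ≤ Real.log u := Real.log_natCast_nonneg u
  have hA0 : 0 < ℓ ^ A := by positivity
  -- the number of the divisors
  have hdiv : ∀ k : ℕ, k ≤ u → Rough z k → #k.divisors ≤ M := by
    intro k hk hkr
    obtain ⟨j, hj1, hj2⟩ := SwR.rough_div k hkr
    have e3 : (x : ℝ) ^ (η * j) ≤ (x : ℝ) ^ (3 : ℝ) := by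
      calc (x : ℝ) ^ (η * j) = ((x : ℝ) ^ η) ^ j := by
            rw [Real.rpow_mul hx0.le, Real.rpow_natCast]
        _ ≤ (z : ℝ) ^ j := pow_le_pow_left₀ hxη.le hz j
        _ ≤ k := by exact_mod_cast hj1
        _ ≤ K := by exact_mod_cast (hk.trans huK)
        _ ≤ (x : ℝ) ^ 3 := by exact_mod_cast hKx
        _ = (x : ℝ) ^ (3 : ℝ) := by norm_cast
    have e4 : η * j ≤ 3 := (Real.rpow_le_rpow_left_iff hx1).1 e3
    have e5 : j ≤ J := by
      rw [hJ]
      apply Nat.le_floor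
      rw [le_div_iff₀ hη]
      linarith
    have e6 : 2 ^ j ≤ 2 ^ J := Nat.pow_le_pow_right (by norm_num) e5
    omega
  have hEp : ∀ s b c : ℕ, z ≤ s → c < q → c.Coprime q →
      |∑ P ∈ (Ioc s b).filter Nat.Prime, SwR.w q c P| ≤ E * b := by
    intro s b c hs hc hcq
    refine (hsw z s b q c hyz hs hq hqz2 hc hcq).1.trans ?_
    gcongr
  have hEl : ∀ s b c : ℕ, z ≤ s → c < q → c.Coprime q → b ≤ u →
      |∑ P ∈ (Ioc s b).filter Nat.Prime, Real.log P * SwR.w q c P| ≤ (2 * E) * b := by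
    intro s b c hs hc hcq hbu
    rcases lt_or_ge b s with hbs | hsb
    · rw [Ioc_eq_empty (by omega), filter_empty, sum_empty, abs_zero]
      positivity
    · have e3 : |∑ k ∈ Ioc s b, ArithmeticFunction.vonMangoldt k * SwR.w q c k| ≤ E * b := by
        refine (hsw z s b q c hyz hs hq hqz2 hc hcq).2.trans ?_
        gcongr
      refine (Sh2.logsum s b q c E hq e3).trans ?_
      have hb1 : 1 ≤ b := by omega
      have e4 : Real.log b ≤ 3 * ℓ := hlogm b hb1 hbu
      have e5 : (x : ℝ) ^ (η / 2) ≤ √(b : ℝ) := by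
        rw [show (x : ℝ) ^ (η / 2) = √((x : ℝ) ^ η) by
          rw [Real.sqrt_eq_rpow, ← Real.rpow_mul hx0.le]; ring_nf]
        apply Real.sqrt_le_sqrt
        refine hz.trans ?_
        exact_mod_cast hs.trans hsb
      have e6 : 6 * ℓ ≤ E * √(b : ℝ) := by
        have e7 : 3 * η ^ (A + 4) * ℓ ^ (A + 5) ≤ √(b : ℝ) := g6.trans e5
        calc 6 * ℓ = E * (3 * η ^ (A + 4) * ℓ ^ (A + 5)) := by
              rw [hE, mul_pow]
              field_simp
              ring
          _ ≤ E * √(b : ℝ) := by gcongr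
      have e8 : √(b : ℝ) * √(b : ℝ) = b := Real.mul_self_sqrt (Nat.cast_nonneg _)
      have e9 : 2 * (√(b : ℝ) * Real.log b) ≤ E * b := by
        calc 2 * (√(b : ℝ) * Real.log b) ≤ 2 * (√(b : ℝ) * (3 * ℓ)) := by gcongr
          _ = √(b : ℝ) * (6 * ℓ) := by ring
          _ ≤ √(b : ℝ) * (E * √(b : ℝ)) := by gcongr
          _ = E * (√(b : ℝ) * √(b : ℝ)) := by ring
          _ = E * b := by rw [e8]
      linarith
  rw [SwR.sum_w q r (Icc 1 u) (fun k => rg z k * betU U k)]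
  have e0 : ∑ k ∈ Icc 1 u, rg z k * betU U k * SwR.w q r k =
      ∑ k ∈ Icc 1 u, rg z k * (betU U k * SwR.w q r k) := by
    apply sum_congr rfl
    intro k _
    ring
  rw [e0, SwR.sum_rg]
  have hcore := Sh2.core_gen z u q r (3 * ℓ) (2 * E + M * (3 * ℓ * E)) (by positivity) (by positivity)
    hz1 hq (betU U) (fun k hk1 hk _ => (Sh2.betU_le U k).trans (hlogm k hk1 hk))
    (fun m hm hmr => Sh2.innerB z u q r U m M E (2 * E) (3 * ℓ) hq hqz hr hE0 (by positivity) hEp hEl hm hmr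
      (hdiv m (mem_Icc.1 hm).2 hmr) (hlogm m (mem_Icc.1 hm).1 (mem_Icc.1 hm).2))
  refine hcore.trans ?_
  have b1 : 3 * ℓ * (1 + u / z) ≤ K / (4 * ℓ ^ A) + K / (4 * ℓ ^ A) := by
    have c1 : 3 * ℓ ≤ K / (4 * ℓ ^ A) := by
      rw [le_div_iff₀ (by positivity)]
      rw [Real.rpow_one] at g4
      calc 3 * ℓ * (4 * ℓ ^ A) = 12 * ℓ ^ (A + 1) := by ring
        _ ≤ x := g4
        _ ≤ K := hxK'
    have c2 : 3 * ℓ * (u / z) ≤ K / (4 * ℓ ^ A) := by
      have e3 : 3 * ℓ / z ≤ 1 / (4 * ℓ ^ A) := by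
        rw [div_le_div_iff₀ hz0 (by positivity)]
        calc 3 * ℓ * (4 * ℓ ^ A) = 12 * ℓ ^ (A + 1) := by ring
          _ ≤ z := g5.trans hz
          _ = 1 * z := (one_mul _).symm
      calc 3 * ℓ * (u / z) = 3 * ℓ / z * u := by ring
        _ ≤ 1 / (4 * ℓ ^ A) * K := by gcongr
        _ = K / (4 * ℓ ^ A) := by ring
    calc 3 * ℓ * (1 + u / z) = 3 * ℓ + 3 * ℓ * (u / z) := by ring
      _ ≤ _ := add_le_add c1 c2
  have b2 : (2 * E + M * (3 * ℓ * E)) * (1 + 3 * ℓ) ≤ 1 / (2 * ℓ ^ A) := by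
    have c1 : 2 * E + M * (3 * ℓ * E) ≤ 5 * (M * ℓ * E) := by
      have : 1 ≤ (M : ℝ) * ℓ := one_le_mul_of_one_le_of_one_le hM0 hℓ1
      nlinarith
    have c2 : 1 + 3 * ℓ ≤ 4 * ℓ := by linarith
    have c3 : (2 * E + M * (3 * ℓ * E)) * (1 + 3 * ℓ) ≤ 5 * (M * ℓ * E) * (4 * ℓ) := by gcongr
    refine c3.trans ?_
    rw [hE, show 5 * ((M : ℝ) * ℓ * (2 / (η * ℓ) ^ (A + 4))) * (4 * ℓ) = (40 * M * ℓ ^ 2) / (η * ℓ) ^ (A + 4) by ring,
      div_le_div_iff₀ (by positivity) (by positivity), mul_pow]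
    have e3 : 80 * M / η ^ (A + 4) ≤ ℓ := by linarith
    rw [div_le_iff₀ (by positivity)] at e3
    calc 40 * (M : ℝ) * ℓ ^ 2 * (2 * ℓ ^ A) = (80 * M) * (ℓ ^ 2 * ℓ ^ A) := by ring
      _ ≤ (ℓ * η ^ (A + 4)) * (ℓ ^ 2 * ℓ ^ A) := by gcongr
      _ = η ^ (A + 4) * ℓ ^ (A + 3) * 1 := by ring
      _ ≤ η ^ (A + 4) * ℓ ^ (A + 3) * ℓ := by gcongr
      _ = 1 * (η ^ (A + 4) * ℓ ^ (A + 4)) := by ring
  have b3 : (2 * E + M * (3 * ℓ * E)) * (u * (1 + Real.log u)) ≤ K / (2 * ℓ ^ A) := by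
    calc (2 * E + M * (3 * ℓ * E)) * (u * (1 + Real.log u))
        ≤ (2 * E + M * (3 * ℓ * E)) * (K * (1 + 3 * ℓ)) := by gcongr
      _ = K * ((2 * E + M * (3 * ℓ * E)) * (1 + 3 * ℓ)) := by ring
      _ ≤ K * (1 / (2 * ℓ ^ A)) := by gcongr
      _ = K / (2 * ℓ ^ A) := by ring
  calc _ ≤ (K / (4 * ℓ ^ A) + K / (4 * ℓ ^ A)) + K / (2 * ℓ ^ A) := add_le_add b1 b3
    _ = K / ℓ ^ A := by field_simp; ring

end Pool.Agent.N792
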