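import Mathlib
import Pool.Agent.N792.Asm
import Pool.Agent.N792.Sh2a
import Pool.Agent.N792.ShpB

/-!
The model of the rough functions for the convolution `betU` (helper124, for helper792; the proof is
the one of `sharp_H` by helper456).
-/

set_option autoImplicit false

namespace Pool.Agent.N792
open Finset Filter Topology
open ArithmeticFunction (moebius vonMangoldt)

lemma Sh2.sup_betU (x z U k : ℕ) (hx : 2 ≤ x) (hk : k ≤ x ^ 3) : |rg z k * betU U k| ≤ 3 * Real.log x := by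
  have hL : 0 ≤ Real.log x := Real.log_natCast_nonneg x
  rw [abs_mul, abs_of_nonneg (Shp.rg_abs z k).1]
  rcases Nat.eq_zero_or_pos k with h0 | h0
  · have h1 := Sh2.betU_le U 0
    rw [h0]
    rw [Nat.cast_zero, Real.log_zero] at h1
    have h2 := (Shp.rg_abs z 0).1
    have h3 := abs_nonneg (betU U 0)
    have h4 : |betU U 0| = 0 := le_antisymm h1 h3
    rw [h4, mul_zero]
    positivity
  · have h1 := Sh2.betU_le U k
    have h2 : Real.log k ≤ Real.log ((x : ℝ) ^ 3) :=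
      Real.log_le_log (by exact_mod_cast h0) (by exact_mod_cast hk)
    rw [Real.log_pow] at h2
    push_cast at h2
    calc rg z k * |betU U k| ≤ 1 * |betU U k| :=
          mul_le_mul_of_nonneg_right (Shp.rg_abs z k).2 (abs_nonneg _)
      _ = |betU U k| := one_mul _
      _ ≤ 3 * Real.log x := h1.trans h2

open Shp in
theorem sharp_H2 (η : ℝ) (hη : 0 < η) (A E : ℕ) : ∃ x0 : ℕ, ∀ x : ℕ, x0 ≤ x → ∀ z U Jw t i u q r : ℕ,
    (x : ℝ) ^ η ≤ z → z ≤ x → Real.log x ^ A ≤ ((2 ^ 2 ^ Jw : ℕ) : ℝ) → ((2 ^ 2 ^ Jw : ℕ) : ℝ) ≤ Real.log x ^ E →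
    Real.log x ^ (A + 5) ≤ (2 : ℝ) ^ t → (2 : ℝ) ^ t ≤ Real.log x ^ E → x ≤ 2 ^ i → 2 ^ (i + 1) ≤ x ^ 3 →
    1 ≤ q → (q : ℝ) ≤ Real.log x ^ A → 2 ^ i ≤ u → u ≤ 2 ^ (i + 1) →
    |∑ k ∈ (Ioc (2 ^ i) u).filter (fun k => k ≡ r [MOD q]),
      (rg z k * betU U k - sharp t (2 ^ 2 ^ Jw) (fun k => rg z k * betU U k) k)| ≤ (2 : ℝ) ^ i / Real.log x ^ A := by
  obtain ⟨C1, hC1, hfl⟩ := fl_lin
  obtain ⟨x1, hx1⟩ := sw_betU η hη (A + E + 3) A
  have hev := ((((((choose_b0 C1 E (A + E + 3) hC1).and (inv_V1_le E)).and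
    (log_ge 20)).and (log_pow_le A 1 η hη)).and (log_pow_le (A + E + 4) 1 (1 / 2) (by norm_num))).and
    (log_pow_le E 2 1 one_pos)).and (eventually_ge_atTop (max x1 2))
  obtain ⟨x0, hx0⟩ := eventually_atTop.mp hev
  refine ⟨x0, fun x hx z U Jw t i u q r hz hzx hw1 hw2 ht1 ht2 hxi hi3 hq hqA hu1 hu2 => ?_⟩
  obtain ⟨⟨⟨⟨⟨⟨hb, hV⟩, hL20⟩, hlz⟩, hlx⟩, hle⟩, hxx⟩ := hx0 x hx
  obtain ⟨b0, hb0, hb1, hb2⟩ := hb
  set L := Real.log x with hL
  have hL0 : 0 < L := by linarith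
  have hL1 : 1 ≤ L := by linarith
  have hx2 : 2 ≤ x := (le_max_right _ _).trans hxx
  have hxpos : (0 : ℝ) < x := by
    have : 0 < x := by omega
    exact_mod_cast this
  set w := 2 ^ 2 ^ Jw with hw
  set β : ℕ → ℝ := fun k => rg z k * betU U k with hβdef
  have hsup' : ∀ k, k ≤ x ^ 3 → |β k| ≤ 3 * L := fun k hk => Sh2.sup_betU x z U k hx2 hk
  have hqw : q ≤ w := by
    have : (q : ℝ) ≤ (w : ℝ) := hqA.trans hw1
    exact_mod_cast this
  have hqz : q ≤ z := by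
    have : (q : ℝ) ≤ (z : ℝ) := hqA.trans ((by linarith : L ^ A ≤ (x : ℝ) ^ η).trans hz)
    exact_mod_cast this
  by_cases hr : r.Coprime q
  swap
  · -- both sums vanish
    have h0 : ∀ k ∈ (Ioc (2 ^ i) u).filter (fun k => k ≡ r [MOD q]), β k - sharp t w β k = 0 := by
      intro k hk
      rw [mem_filter] at hk
      have e1 : rg z k = 0 := by
        unfold rg
        rw [if_neg (not_cop hq hr hqz hk.2)]
      have e2 : rg w k = 0 := by
        unfold rg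
        rw [if_neg (not_cop hq hr hqw hk.2)]
      simp only [hβdef]
      unfold sharp
      rw [e1, e2]
      ring
    rw [sum_eq_zero h0, abs_zero]
    positivity
  -- the coprime classes
  have hti : t ≤ i := by
    have h1 : (2 : ℝ) ^ t ≤ (2 : ℝ) ^ i := by
      calc (2 : ℝ) ^ t ≤ L ^ E := ht2
        _ ≤ 2 * L ^ E := by linarith [pow_pos hL0 E]
        _ ≤ (x : ℝ) ^ (1 : ℝ) := hle
        _ = x := Real.rpow_one _
        _ ≤ (2 : ℝ) ^ i := by exact_mod_cast hxi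
    exact (pow_le_pow_iff_right₀ (by norm_num)).mp h1
  set l := 2 ^ (i - t) with hl
  have hl0 : 0 < l := by positivity
  have eT : 2 ^ t * l = 2 ^ i := by rw [hl, ← pow_add]; congr 1; omega
  set T := 2 ^ t with hT
  set mu := u / l with hmu
  have hTm : T ≤ mu := by
    rw [hmu, Nat.le_div_iff_mul_le hl0, eT]
    exact hu1
  have hmu2 : mu ≤ 2 * T := by
    rw [hmu]
    apply Nat.div_le_of_le_mul
    calc u ≤ 2 ^ (i + 1) := hu2
      _ = l * (2 * T) := by rw [pow_succ, ← eT]; ring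
  have hmul : mu * l ≤ u := Nat.div_mul_le_self u l
  have hmul2 : u < mu * l + l := by
    have := Nat.lt_div_mul_add (a := u) hl0
    rw [← hmu] at this
    exact this
  set F : ℕ → ℝ := fun k => if k ≡ r [MOD q] then β k - sharp t w β k else 0 with hF
  have hsplit : ∑ k ∈ (Ioc (2 ^ i) u).filter (fun k => k ≡ r [MOD q]), (β k - sharp t w β k)
      = (∑ j ∈ Ico T mu, ∑ k ∈ Ioc (j * l) ((j + 1) * l), F k) + ∑ k ∈ Ioc (mu * l) u, F k := by
    rw [sum_filter, ← sum_cells F l T mu hTm, eT]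
    exact (sum_Ioc_consecutive F (by rw [← eT]; exact Nat.mul_le_mul_right l hTm) hmul).symm
  have h2i : (0 : ℝ) < (2 : ℝ) ^ i := by positivity
  have hlR : ((l : ℕ) : ℝ) = (2 : ℝ) ^ (i - t) := by rw [hl]; push_cast; rfl
  have hTR : ((T : ℕ) : ℝ) = (2 : ℝ) ^ t := by rw [hT]; push_cast; rfl
  have hTl : (2 : ℝ) ^ t * (2 : ℝ) ^ (i - t) = (2 : ℝ) ^ i := by
    have : ((2 ^ t * l : ℕ) : ℝ) = ((2 ^ i : ℕ) : ℝ) := by rw [eT]
    push_cast at this
    rw [hlR] at this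
    exact this
  have hV1 : 1 / V1 w ≤ L := hV w hw2
  have hVpos : 0 < V1 w := V1_pos w
  -- a bound for the model
  have hdens : ∀ m, T ≤ m → m < 2 * T → ∀ k ∈ Ioc (m * l) ((m + 1) * l), |sharp t w β k| ≤ 3 * L * L := by
    intro m hm1 hm2 k hk
    rw [mem_Ioc] at hk
    have hm2' : m < 2 ^ (t + 1) := by rw [pow_succ, mul_comm]; exact hm2
    obtain ⟨e1, e2⟩ := cl_eq hti hm1 hm2' hk.1 hk.2
    unfold sharp dens
    rw [e1, e2, ← hl, show m * l + l = (m + 1) * l by ring]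
    have h4 : |∑ k ∈ Ioc (m * l) ((m + 1) * l), β k| ≤ l * (3 * L) := by
      have h5 := mean_le (v := m * l) (u := (m + 1) * l) β (3 * L) (fun k hk => by
        apply hsup'
        rw [mem_Ioc] at hk
        calc k ≤ (m + 1) * l := hk.2
          _ ≤ (2 * T) * l := Nat.mul_le_mul_right _ hm2
          _ = 2 ^ (i + 1) := by rw [mul_assoc, eT, pow_succ, mul_comm]
          _ ≤ x ^ 3 := hi3)
      have e1 : (m + 1) * l - m * l = l := by
        rw [add_mul, one_mul, Nat.add_sub_cancel_left]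
      rw [e1] at h5
      exact h5
    have hlpos : (0 : ℝ) < l := by exact_mod_cast hl0
    rw [abs_div, abs_mul, abs_div, abs_of_pos hVpos, abs_of_pos hlpos, abs_of_nonneg (rg_abs w k).1]
    have h6 : |∑ k ∈ Ioc (m * l) ((m + 1) * l), β k| / l ≤ 3 * L := by
      rw [div_le_iff₀ hlpos]
      linarith
    calc |∑ k ∈ Ioc (m * l) ((m + 1) * l), β k| / l * rg w k / V1 w
        ≤ 3 * L * 1 / V1 w := by
          have hr2 := (rg_abs w k).2
          have hr1 := (rg_abs w k).1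
          gcongr
      _ = 3 * L * (1 / V1 w) := by ring
      _ ≤ 3 * L * L := by gcongr
  -- the full cells
  have hcell : ∀ j ∈ Ico T mu, |∑ k ∈ Ioc (j * l) ((j + 1) * l), F k| ≤
      4 * (2 : ℝ) ^ i / L ^ (A + E + 3) + 3 * L * ((2 : ℝ) ^ i / L ^ (A + E + 3) + (x : ℝ) ^ (1 / 2 : ℝ) * L) := by
    intro j hj
    rw [mem_Ico] at hj
    have hj2 : j < 2 * T := by omega
    have hj2' : j < 2 ^ (t + 1) := by rw [pow_succ, mul_comm]; exact hj2
    have hend : (j + 1) * l ≤ 2 ^ (i + 1) := by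
      calc (j + 1) * l ≤ (2 * T) * l := Nat.mul_le_mul_right _ hj2
        _ = 2 ^ (i + 1) := by rw [mul_assoc, eT, pow_succ, mul_comm]
    have hle1 : j * l ≤ (j + 1) * l := Nat.mul_le_mul_right _ (by omega)
    have e1 : ∑ k ∈ Ioc (j * l) ((j + 1) * l), F k
        = (∑ k ∈ (Ioc (j * l) ((j + 1) * l)).filter (fun k => k ≡ r [MOD q]), β k -
            (∑ k ∈ Ioc (j * l) ((j + 1) * l), β k) / (Nat.totient q : ℝ)) -
          (∑ k ∈ (Ioc (j * l) ((j + 1) * l)).filter (fun k => k ≡ r [MOD q]), sharp t w β k -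
            (∑ k ∈ Ioc (j * l) ((j + 1) * l), β k) / (Nat.totient q : ℝ)) := by
      rw [hF, ← sum_filter, sum_sub_distrib]
      ring
    rw [e1]
    have hK1 : x ≤ 2 ^ (i + 1) := hxi.trans (Nat.pow_le_pow_right (by norm_num) (by omega))
    have hs1 := hx1 x ((le_max_left _ _).trans hxx) z U (2 ^ (i + 1)) ((j + 1) * l) q r hz hzx hK1 hi3 hend hq
      hqA hr
    have hs2 := hx1 x ((le_max_left _ _).trans hxx) z U (2 ^ (i + 1)) (j * l) q r hz hzx hK1 hi3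
      (hle1.trans hend) hq hqA hr
    have h1 : |∑ k ∈ (Ioc (j * l) ((j + 1) * l)).filter (fun k => k ≡ r [MOD q]), β k -
            (∑ k ∈ Ioc (j * l) ((j + 1) * l), β k) / (Nat.totient q : ℝ)| ≤ 4 * (2 : ℝ) ^ i / L ^ (A + E + 3) := by
      rw [sum_filter_Ioc β _ _ _ hle1, sum_Ioc_eq β _ _ hle1]
      have h3 := abs_le.mp hs1
      have h4 := abs_le.mp hs2
      have e5 : (((2 ^ (i + 1) : ℕ) : ℝ)) / L ^ (A + E + 3) = 2 * ((2 : ℝ) ^ i / L ^ (A + E + 3)) := by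
        push_cast
        rw [pow_succ]
        ring
      rw [e5] at h3 h4
      rw [sub_div, abs_le]
      simp only [hβdef]
      have e6 : 4 * (2 : ℝ) ^ i / L ^ (A + E + 3) = 2 * (2 * ((2 : ℝ) ^ i / L ^ (A + E + 3))) := by ring
      rw [e6]
      constructor
      · linarith [h3.1, h4.2]
      · linarith [h3.2, h4.1]
    have h2 : |∑ k ∈ (Ioc (j * l) ((j + 1) * l)).filter (fun k => k ≡ r [MOD q]), sharp t w β k -
            (∑ k ∈ Ioc (j * l) ((j + 1) * l), β k) / (Nat.totient q : ℝ)| ≤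
          3 * L * ((2 : ℝ) ^ i / L ^ (A + E + 3) + (x : ℝ) ^ (1 / 2 : ℝ) * L) := by
      have h5 := full_cell (b0 := b0) (B := 3 * L) (X := (x : ℝ) ^ (1 / 2 : ℝ)) hti hj.1 hj2' hq hqw
        (fun k1 k2 hk => (hfl b0 hb0 Jw q r k1 k2 hq hr hk).trans (by
          have := hb2 Jw hw2
          gcongr)) β (fun k hk => by
            apply hsup'
            rw [mem_Ioc] at hk
            exact hk.2.trans (hend.trans hi3)) (by positivity) (by positivity)
      refine h5.trans ?_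
      have h6 : (1 / 2 : ℝ) ^ b0 * (2 : ℝ) ^ (i - t) ≤ (2 : ℝ) ^ i / L ^ (A + E + 3) := by
        calc (1 / 2 : ℝ) ^ b0 * (2 : ℝ) ^ (i - t) ≤ (1 / L ^ (A + E + 3)) * (2 : ℝ) ^ i := by
              gcongr
              · norm_num
              · omega
          _ = _ := by ring
      gcongr
    refine (abs_sub _ _).trans ?_
    linarith
  -- the last cell
  have hlast : |∑ k ∈ Ioc (mu * l) u, F k| ≤ (2 : ℝ) ^ (i - t) * (6 * L ^ 2) := by
    by_cases hmu3 : mu < 2 * T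
    · have h1 : ∀ k ∈ Ioc (mu * l) u, |F k| ≤ 6 * L ^ 2 := by
        intro k hk
        rw [mem_Ioc] at hk
        have h4 := hdens mu hTm hmu3 k (by rw [mem_Ioc]; exact ⟨hk.1, by rw [add_mul, one_mul]; omega⟩)
        have h5 := hsup' k (hk.2.trans (hu2.trans hi3))
        simp only [hF]
        split_ifs
        · refine (abs_sub _ _).trans ?_
          nlinarith
        · rw [abs_zero]; positivity
      refine (abs_sum_le_sum_abs _ _).trans ((sum_le_card_nsmul _ _ _ h1).trans ?_)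
      rw [Nat.card_Ioc, nsmul_eq_mul]
      have h6 : ((u - mu * l : ℕ) : ℝ) ≤ (2 : ℝ) ^ (i - t) := by
        rw [← hlR]
        have : u - mu * l ≤ l := by omega
        exact_mod_cast this
      gcongr
    · have h1 : mu = 2 * T := by omega
      have h2 : Ioc (mu * l) u = ∅ := by
        apply Ioc_eq_empty
        rw [h1, mul_assoc, eT]
        have : 2 ^ (i + 1) = 2 * 2 ^ i := by rw [pow_succ, mul_comm]
        omega
      rw [h2, sum_empty, abs_zero]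
      positivity
  -- assemble
  have hcells : |∑ j ∈ Ico T mu, ∑ k ∈ Ioc (j * l) ((j + 1) * l), F k| ≤
      L ^ E * (4 * (2 : ℝ) ^ i / L ^ (A + E + 3) +
        3 * L * ((2 : ℝ) ^ i / L ^ (A + E + 3) + (x : ℝ) ^ (1 / 2 : ℝ) * L)) := by
    refine (abs_sum_le_sum_abs _ _).trans ((sum_le_card_nsmul _ _ _ hcell).trans ?_)
    rw [Nat.card_Ico, nsmul_eq_mul]
    have h6 : ((mu - T : ℕ) : ℝ) ≤ L ^ E := by
      refine le_trans ?_ ht2
      rw [← hTR]
      have : mu - T ≤ T := by omega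
      exact_mod_cast this
    gcongr
  change |∑ k ∈ (Ioc (2 ^ i) u).filter (fun k => k ≡ r [MOD q]), (β k - sharp t w β k)| ≤ _
  rw [hsplit]
  refine (abs_add_le _ _).trans ?_
  have hx12 : (x : ℝ) ^ (1 / 2 : ℝ) * L ^ (A + E + 4) ≤ (2 : ℝ) ^ i := by
    have h1 : L ^ (A + E + 4) ≤ (x : ℝ) ^ (1 / 2 : ℝ) := by linarith
    calc (x : ℝ) ^ (1 / 2 : ℝ) * L ^ (A + E + 4) ≤ (x : ℝ) ^ (1 / 2 : ℝ) * (x : ℝ) ^ (1 / 2 : ℝ) := by gcongr
      _ = x := by rw [← Real.rpow_add hxpos]; norm_num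
      _ ≤ (2 : ℝ) ^ i := by exact_mod_cast hxi
  have h10 : L ^ E * (4 * (2 : ℝ) ^ i / L ^ (A + E + 3) +
        3 * L * ((2 : ℝ) ^ i / L ^ (A + E + 3) + (x : ℝ) ^ (1 / 2 : ℝ) * L)) ≤ (2 : ℝ) ^ i / L ^ A / 2 := by
    have e1 : L ^ E * (4 * (2 : ℝ) ^ i / L ^ (A + E + 3) +
        3 * L * ((2 : ℝ) ^ i / L ^ (A + E + 3) + (x : ℝ) ^ (1 / 2 : ℝ) * L))
        = 4 * (2 : ℝ) ^ i / L ^ (A + 3) + 3 * ((2 : ℝ) ^ i / L ^ (A + 2)) +
          3 * (((x : ℝ) ^ (1 / 2 : ℝ) * L ^ (A + E + 4)) / L ^ (A + 2)) := by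
      field_simp
      ring
    rw [e1]
    have e2 : 4 * (2 : ℝ) ^ i / L ^ (A + 3) ≤ 4 * ((2 : ℝ) ^ i / L ^ (A + 2)) := by
      rw [mul_div_assoc]
      gcongr
      norm_num
    have e3 : 3 * (((x : ℝ) ^ (1 / 2 : ℝ) * L ^ (A + E + 4)) / L ^ (A + 2)) ≤ 3 * ((2 : ℝ) ^ i / L ^ (A + 2)) := by
      gcongr
    have e4 : (2 : ℝ) ^ i / L ^ A / 2 = ((2 : ℝ) ^ i / L ^ (A + 2)) * (L ^ 2 / 2) := by
      field_simp
      ring
    rw [e4]
    have e5 : 0 ≤ (2 : ℝ) ^ i / L ^ (A + 2) := by positivity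
    have e6 : (10 : ℝ) ≤ L ^ 2 / 2 := by nlinarith
    have e7 : (2 : ℝ) ^ i / L ^ (A + 2) * 10 ≤ (2 : ℝ) ^ i / L ^ (A + 2) * (L ^ 2 / 2) :=
      mul_le_mul_of_nonneg_left e6 e5
    linarith
  have h11 : (2 : ℝ) ^ (i - t) * (6 * L ^ 2) ≤ (2 : ℝ) ^ i / L ^ A / 2 := by
    have e4 : (2 : ℝ) ^ i / L ^ A / 2 = ((2 : ℝ) ^ i / L ^ (A + 5)) * (L ^ 5 / 2) := by
      field_simp
      ring
    rw [e4]
    have e5 : (2 : ℝ) ^ (i - t) ≤ (2 : ℝ) ^ i / L ^ (A + 5) := by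
      rw [le_div_iff₀ (by positivity)]
      calc (2 : ℝ) ^ (i - t) * L ^ (A + 5) ≤ (2 : ℝ) ^ (i - t) * (2 : ℝ) ^ t := by gcongr
        _ = (2 : ℝ) ^ i := by rw [mul_comm]; exact hTl
    have e6 : 6 * L ^ 2 ≤ L ^ 5 / 2 := by
      have : (20 : ℝ) ^ 3 ≤ L ^ 3 := pow_le_pow_left₀ (by norm_num) hL20 3
      have h2 : 0 ≤ L ^ 2 := by positivity
      have e7 : L ^ 5 = L ^ 2 * L ^ 3 := by ring
      rw [e7]
      nlinarith
    gcongr
  have h12 : (2 : ℝ) ^ i / L ^ A = (2 : ℝ) ^ i / L ^ A / 2 + (2 : ℝ) ^ i / L ^ A / 2 := by ring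
  rw [h12]
  exact add_le_add (hcells.trans h10) (hlast.trans h11)


end Pool.Agent.N792
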