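import Mathlib
import Pool.Agent.N792.Asm
import Pool.Agent.N792.Rav

/-!
The number of prime values at small arguments on average over `c` (helper354 for helper792).
-/

set_option autoImplicit false

namespace Pool.Agent.N792

open Finset Filter Topology
open ArithmeticFunction (moebius vonMangoldt)

lemma rg_prime {z N : ℕ} (hN : N.Prime) (hz : z < N) : rg z N = 1 := by
  unfold rg
  rw [if_pos]
  refine ⟨hN.ne_zero, fun p hp hpN => ?_⟩
  rwa [(Nat.prime_dvd_prime_iff_eq hp hN).1 hpN]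

lemma rg_nonneg' (z N : ℕ) : 0 ≤ rg z N := by
  unfold rg
  split_ifs <;> norm_num

lemma small_count (a b : ℤ) (m z C : ℕ) :
    #((Icc 1 C).filter (fun c : ℕ => (fv a b c m).toNat.Prime ∧ (fv a b c m).toNat ≤ z)) ≤ z := by
  have h1 : #((Icc 1 C).filter (fun c : ℕ => (fv a b c m).toNat.Prime ∧ (fv a b c m).toNat ≤ z)) ≤
      #(Icc 1 z) := by
    apply Finset.card_le_card_of_injOn (fun c : ℕ => (fv a b c m).toNat)
    · intro c hc
      simp only [coe_filter, Set.mem_setOf_eq] at hc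
      simp only [coe_Icc, Set.mem_Icc]
      exact ⟨hc.2.1.one_lt.le, hc.2.2⟩
    · intro c hc c' hc' h
      simp only [coe_filter, Set.mem_setOf_eq] at hc hc'
      simp only at h
      have h2 := hc.2.1.pos
      have h3 := hc'.2.1.pos
      unfold fv at h h2 h3
      omega
  simpa using h1

theorem small_avg (a : ℤ) (ha : 0 < a) (b : ℤ) : ∃ C6 : ℝ, 0 < C6 ∧ ∃ x0 : ℕ, ∀ x : ℕ, x0 ≤ x → ∀ x1 C : ℕ, x1 ≤ x →
    (x : ℝ) ^ (9 / 10 : ℝ) ≤ C → C ≤ x →
    ∑ c ∈ Icc 1 C, (#((Icc 1 x1).filter (fun m : ℕ => (fv a b c m).toNat.Prime)) : ℝ) ≤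
      C6 * (C * ((x1 : ℝ) + x / Real.log x ^ 2) / Real.log x) := by
  obtain ⟨C5, hC5, H⟩ := rough_avg a ha b
  obtain ⟨x0, hx0⟩ := H (1 / 10) (by norm_num) le_rfl
  -- the elementary inequality
  have hlo : ∀ᶠ x : ℕ in atTop, 2 * Real.log x ^ 3 ≤ (x : ℝ) ^ (4 / 5 : ℝ) := by
    have h := (isLittleO_log_rpow_rpow_atTop (s := 4 / 5) 3 (by norm_num)).bound
      (show (0 : ℝ) < 1 / 2 by norm_num)
    have h' := tendsto_natCast_atTop_atTop.eventually (h.and (eventually_ge_atTop (1 : ℝ)))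
    filter_upwards [h'] with x hx
    obtain ⟨hx, hx1⟩ := hx
    have hl : 0 ≤ Real.log x := Real.log_nonneg hx1
    rw [Real.norm_of_nonneg (by positivity), Real.norm_of_nonneg (by positivity)] at hx
    have : Real.log (x : ℝ) ^ (3 : ℝ) = Real.log x ^ 3 := by
      rw [show (3 : ℝ) = ((3 : ℕ) : ℝ) by norm_num, Real.rpow_natCast]
    rw [this] at hx
    linarith
  obtain ⟨x2, hx2⟩ := eventually_atTop.1 hlo
  refine ⟨10 * C5 + 1, by positivity, max x0 (max x2 3), fun x hx x1 C hx1 hxC hCx => ?_⟩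
  have hxx0 : x0 ≤ x := (le_max_left _ _).trans hx
  have hxx2 : x2 ≤ x := ((le_max_left _ _).trans (le_max_right _ _)).trans hx
  have hx3 : (3 : ℝ) ≤ x := by
    exact_mod_cast ((le_max_right _ _).trans (le_max_right _ _)).trans hx
  have hxpos : (0 : ℝ) < x := by linarith
  have hlog : 1 ≤ Real.log x := by
    rw [Real.le_log_iff_exp_le hxpos]
    have := Real.exp_one_lt_d9
    linarith
  set z : ℕ := ⌈(x : ℝ) ^ (1 / 10 : ℝ)⌉₊ with hz
  have hz1 : (x : ℝ) ^ (1 / 10 : ℝ) ≤ z := Nat.le_ceil _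
  have hX1 : 1 ≤ (x : ℝ) ^ (1 / 10 : ℝ) := Real.one_le_rpow (by linarith) (by norm_num)
  have hz2 : (z : ℝ) ≤ 2 * (x : ℝ) ^ (1 / 10 : ℝ) := by
    have := Nat.ceil_lt_add_one (a := (x : ℝ) ^ (1 / 10 : ℝ)) (by positivity)
    linarith
  have h1 := hx0 x hxx0 0 x1 C z 1 (Nat.zero_le _) hx1 hxC hCx hz1 le_rfl
    (by simpa using Real.one_le_rpow (show (1 : ℝ) ≤ x by linarith) (show (0 : ℝ) ≤ 4 / 5 by norm_num))
  -- pointwise comparison
  have h2 : ∀ c ∈ Icc 1 C, (#((Icc 1 x1).filter (fun m : ℕ => (fv a b (c : ℕ) m).toNat.Prime)) : ℝ) ≤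
      Lc a b 0 x1 c (fun N => if 1 ∣ N then rg z (N / 1) else 0) +
        ∑ m ∈ Icc 1 x1, if ((fv a b (c : ℕ) m).toNat.Prime ∧ (fv a b (c : ℕ) m).toNat ≤ z) then (1 : ℝ) else 0 := by
    intro c _
    rw [card_filter]
    push_cast
    have h3 : Lc a b 0 x1 c (fun N => if 1 ∣ N then rg z (N / 1) else 0) =
        ∑ m ∈ Icc 1 x1, rg z (fv a b (c : ℕ) m).toNat := by
      unfold Lc
      simp only [one_dvd, if_true, Nat.div_one]
      rfl
    rw [h3, ← sum_add_distrib]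
    apply sum_le_sum
    intro m _
    have h4 := rg_nonneg' z (fv a b (c : ℕ) m).toNat
    by_cases hp : (fv a b (c : ℕ) m).toNat.Prime
    · by_cases hle : (fv a b (c : ℕ) m).toNat ≤ z
      · rw [if_pos hp, if_pos ⟨hp, hle⟩]
        linarith
      · rw [if_pos hp, if_neg (fun h => hle h.2), rg_prime hp (not_le.1 hle), add_zero]
    · rw [if_neg hp, if_neg (fun h => hp h.1)]
      linarith
  have h5 : ∑ c ∈ Icc 1 C, ∑ m ∈ Icc 1 x1, (if ((fv a b (c : ℕ) m).toNat.Prime ∧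
      (fv a b (c : ℕ) m).toNat ≤ z) then (1 : ℝ) else 0) ≤ x1 * z := by
    rw [sum_comm]
    calc _ ≤ ∑ m ∈ Icc 1 x1, (z : ℝ) := by
          apply sum_le_sum
          intro m _
          have h6 := small_count a b m z C
          rw [card_filter] at h6
          exact_mod_cast h6
      _ = x1 * z := by simp
  have h7 : ∑ c ∈ Icc 1 C, (#((Icc 1 x1).filter (fun m : ℕ => (fv a b (c : ℕ) m).toNat.Prime)) : ℝ) ≤
      C5 * (C * ((x1 : ℝ) - (0 : ℕ) + x / Real.log x ^ 2) / ((1 : ℕ) * ((1 / 10) * Real.log x))) + x1 * z := by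
    refine (sum_le_sum h2).trans ?_
    rw [sum_add_distrib]
    exact add_le_add h1 h5
  have hx1x : (x1 : ℝ) ≤ x := by exact_mod_cast hx1
  have h8 : (x1 : ℝ) * z ≤ C * ((x1 : ℝ) + x / Real.log x ^ 2) / Real.log x := by
    have h9 := hx2 x hxx2
    have e1 : (x : ℝ) ^ (9 / 10 : ℝ) = (x : ℝ) ^ (1 / 10 : ℝ) * (x : ℝ) ^ (4 / 5 : ℝ) := by
      rw [← Real.rpow_add hxpos]; norm_num
    have h10 : 2 * (x : ℝ) ^ (1 / 10 : ℝ) * Real.log x ^ 3 ≤ C := by
      calc 2 * (x : ℝ) ^ (1 / 10 : ℝ) * Real.log x ^ 3 = (x : ℝ) ^ (1 / 10 : ℝ) * (2 * Real.log x ^ 3) := by ring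
        _ ≤ (x : ℝ) ^ (1 / 10 : ℝ) * (x : ℝ) ^ (4 / 5 : ℝ) := by gcongr
        _ ≤ C := by rw [← e1]; exact hxC
    have hl0 : 0 < Real.log x := by linarith
    rw [le_div_iff₀ hl0]
    have h11 : (x1 : ℝ) * z * Real.log x ≤ x * (2 * (x : ℝ) ^ (1 / 10 : ℝ)) * Real.log x := by
      gcongr
    have h12 : (C : ℝ) * (x / Real.log x ^ 2) ≥ x * (2 * (x : ℝ) ^ (1 / 10 : ℝ)) * Real.log x := by
      rw [ge_iff_le, ← mul_div_assoc, le_div_iff₀ (by positivity)]
      have h14 : (x : ℝ) * (2 * (x : ℝ) ^ (1 / 10 : ℝ)) * Real.log x * Real.log x ^ 2 =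
            (2 * (x : ℝ) ^ (1 / 10 : ℝ) * Real.log x ^ 3) * x := by ring
      rw [h14]
      gcongr
    have h13 : 0 ≤ (C : ℝ) * x1 := by positivity
    nlinarith
  refine h7.trans ?_
  have e2 : C5 * (C * ((x1 : ℝ) - (0 : ℕ) + x / Real.log x ^ 2) / ((1 : ℕ) * ((1 / 10) * Real.log x))) =
      10 * C5 * (C * ((x1 : ℝ) + x / Real.log x ^ 2) / Real.log x) := by
    have hl0 : Real.log x ≠ 0 := by linarith
    push_cast
    field_simp
    ring
  rw [e2]
  linarith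

end Pool.Agent.N792
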