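import Mathlib
import Pool.Agent.N792.Asm
import Pool.Agent.N792.Rav
import Pool.Agent.N792.Sma

/-!
The averages of the rough values for `C ≥ x^(1/2)` (variants of `rough_avg` and `small_avg`).
-/

set_option autoImplicit false

namespace Pool.Agent.N792

open Finset Filter Topology
open ArithmeticFunction (moebius vonMangoldt)

theorem rough_avg5 (a : ℤ) (ha : 0 < a) (b : ℤ) : ∃ C5 : ℝ, 0 < C5 ∧ ∀ η : ℝ, 0 < η → η ≤ 1 / 10 →
    ∃ x0 : ℕ, ∀ x : ℕ, x0 ≤ x → ∀ x1 x2 C z j : ℕ, x1 ≤ x2 → x2 ≤ x → (x : ℝ) ^ (1 / 2 : ℝ) ≤ C → C ≤ x →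
    (x : ℝ) ^ η ≤ z → 1 ≤ j → (j : ℝ) ≤ (x : ℝ) ^ (2 / 5 : ℝ) →
    ∑ c ∈ Icc 1 C, Lc a b x1 x2 c (fun N => if j ∣ N then rg z (N / j) else 0) ≤
      C5 * (C * ((x2 : ℝ) - x1 + x / Real.log x ^ 2) / (j * (η * Real.log x))) := by
  classical
  obtain ⟨C0, hC0, H⟩ := rough_count
  refine ⟨3 * C0, by positivity, fun η hη hη1 => ?_⟩
  obtain ⟨x0, hx0⟩ := H η hη hη1
  refine ⟨max x0 3, fun x hx x1 x2 C z j hx12 hx2 hxC hCx hz hj hjx => ?_⟩
  have hH := hx0 x ((le_max_left _ _).trans hx) z hz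
  have hx3 : (3 : ℝ) ≤ x := by exact_mod_cast (le_max_right _ _).trans hx
  have hxpos : (0 : ℝ) < x := by linarith
  have hx1 : (1 : ℝ) ≤ x := by linarith
  have hlog : 1 ≤ Real.log x := by
    rw [Real.le_log_iff_exp_le hxpos]
    have := Real.exp_one_lt_d9
    linarith
  have hj0 : (0 : ℝ) < j := by exact_mod_cast hj
  -- C / j >= x ^ (1/10)
  have hCj : (x : ℝ) ^ (1 / 10 : ℝ) ≤ C / j := by
    rw [le_div_iff₀ hj0]
    calc (x : ℝ) ^ (1 / 10 : ℝ) * j ≤ (x : ℝ) ^ (1 / 10 : ℝ) * (x : ℝ) ^ (2 / 5 : ℝ) := by gcongr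
      _ = (x : ℝ) ^ (1 / 2 : ℝ) := by rw [← Real.rpow_add hxpos]; norm_num
      _ ≤ C := hxC
  have h15 : (x : ℝ) ^ (1 / 15 : ℝ) ≤ C / j :=
    (Real.rpow_le_rpow_of_exponent_le hx1 (by norm_num)).trans hCj
  have h1Cj : 1 ≤ (C : ℝ) / j := (Real.one_le_rpow hx1 (by norm_num)).trans hCj
  -- swap the sums
  unfold Lc
  rw [sum_comm]
  have hn : ∀ n ∈ Ioc x1 x2, ∑ c ∈ Icc 1 C, (if j ∣ (fv a b (c : ℕ) n).toNat then
      rg z ((fv a b (c : ℕ) n).toNat / j) else 0) ≤ 3 * C0 * (C / j) / (η * Real.log x) := by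
    intro n _
    set F : ℤ := fv a b 0 n with hF
    have hfv : ∀ c : ℕ, fv a b c n = F + c := by
      intro c
      rw [hF]
      unfold fv
      ring
    set k1 : ℕ := F.toNat / j with hk1
    set k2 : ℕ := (F + C).toNat / j with hk2
    have hk12 : k1 ≤ k2 := Nat.div_le_div_right (Int.toNat_le_toNat (by omega))
    have hk21 : (k2 : ℝ) - k1 ≤ C / j + 1 := by
      have h1 : (k2 : ℝ) ≤ ((F + C).toNat : ℝ) / j := Nat.cast_div_le
      have h2 : ((F.toNat : ℕ) : ℝ) / j < k1 + 1 := by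
        rw [div_lt_iff₀ hj0]
        have := Nat.lt_mul_div_succ F.toNat (show 0 < j by omega)
        have h3 : (F.toNat : ℝ) < j * ((F.toNat / j : ℕ) + 1) := by exact_mod_cast this
        rw [← hk1] at h3
        linarith
      have h3 : ((F + C).toNat : ℝ) ≤ F.toNat + C := by
        have : (F + C).toNat ≤ F.toNat + C := by omega
        exact_mod_cast this
      have h4 : ((F + C).toNat : ℝ) / j ≤ (F.toNat : ℝ) / j + C / j := by
        rw [← add_div]
        gcongr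
      linarith
    have hcount : ∑ c ∈ Icc 1 C, (if j ∣ (fv a b (c : ℕ) n).toNat then
        rg z ((fv a b (c : ℕ) n).toNat / j) else 0) ≤
        (#((Ioc k1 k2).filter (fun k => Rough z k)) : ℝ) := by
      have h1 : ∑ c ∈ Icc 1 C, (if j ∣ (fv a b (c : ℕ) n).toNat then
          rg z ((fv a b (c : ℕ) n).toNat / j) else 0) =
          (#((Icc 1 C).filter (fun c : ℕ => j ∣ (fv a b (c : ℕ) n).toNat ∧
            Rough z ((fv a b (c : ℕ) n).toNat / j))) : ℝ) := by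
        rw [card_filter]
        push_cast
        refine sum_congr rfl fun c _ => ?_
        unfold rg
        by_cases h1 : j ∣ (fv a b (c : ℕ) n).toNat
        · by_cases h2 : Rough z ((fv a b (c : ℕ) n).toNat / j)
          · simp [h1, h2]
          · simp [h1, h2]
        · simp [h1]
      rw [h1]
      norm_cast
      apply card_le_card_of_injOn (fun c : ℕ => (fv a b (c : ℕ) n).toNat / j)
      · intro c hc
        simp only [coe_filter, Set.mem_ofPred_eq, mem_Icc, mem_Ioc] at hc ⊢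
        obtain ⟨⟨hc1, hc2⟩, hc3, hc4⟩ := hc
        rw [hfv] at hc3 hc4 ⊢
        have hne : (F + c).toNat / j ≠ 0 := hc4.1
        have hne2 : (F + c).toNat ≠ 0 := by
          intro h
          rw [h, Nat.zero_div] at hne
          exact hne rfl
        refine ⟨⟨?_, ?_⟩, hc4⟩
        · rw [hk1]
          apply Nat.lt_of_mul_lt_mul_left (a := j)
          rw [Nat.mul_div_cancel' hc3]
          have h5 : j * (F.toNat / j) ≤ F.toNat := Nat.mul_div_le _ _
          omega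
        · rw [hk2]
          exact Nat.div_le_div_right (Int.toNat_le_toNat (by omega))
      · intro c hc c' hc' hcc'
        simp only [coe_filter, Set.mem_ofPred_eq, mem_Icc] at hc hc'
        obtain ⟨⟨hc1, hc2⟩, hc3, hc4⟩ := hc
        obtain ⟨⟨hc1', hc2'⟩, hc3', hc4'⟩ := hc'
        rw [hfv] at hc3 hc4 hc3' hc4'
        simp only [hfv] at hcc'
        have hne : (F + c).toNat ≠ 0 := by
          intro h
          have := hc4.1
          rw [h, Nat.zero_div] at this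
          exact this rfl
        have hne' : (F + c').toNat ≠ 0 := by
          intro h
          have := hc4'.1
          rw [h, Nat.zero_div] at this
          exact this rfl
        have h5 : (F + c).toNat = (F + c').toNat := by
          rw [← Nat.mul_div_cancel' hc3, ← Nat.mul_div_cancel' hc3', hcc']
        omega
    refine hcount.trans ((hH k1 k2 hk12).trans ?_)
    apply div_le_div_of_nonneg_right _ (by positivity)
    have : ((k2 : ℝ) - k1) + (x : ℝ) ^ (1 / 15 : ℝ) ≤ 3 * (C / j) := by linarith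
    nlinarith
  refine (sum_le_sum hn).trans ?_
  rw [sum_const, Nat.card_Ioc, nsmul_eq_mul, Nat.cast_sub hx12]
  have h1 : 0 ≤ (x : ℝ) / Real.log x ^ 2 := by positivity
  have h2 : 3 * C0 * (C * ((x2 : ℝ) - x1 + x / Real.log x ^ 2) / (j * (η * Real.log x))) =
      ((x2 : ℝ) - x1 + x / Real.log x ^ 2) * (3 * C0 * (C / j) / (η * Real.log x)) := by
    field_simp
  rw [h2]
  apply mul_le_mul_of_nonneg_right _ (by positivity)
  linarith


theorem small_avg5 (a : ℤ) (ha : 0 < a) (b : ℤ) : ∃ C6 : ℝ, 0 < C6 ∧ ∃ x0 : ℕ, ∀ x : ℕ, x0 ≤ x → ∀ x1 C : ℕ, x1 ≤ x →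
    (x : ℝ) ^ (1 / 2 : ℝ) ≤ C → C ≤ x →
    ∑ c ∈ Icc 1 C, (#((Icc 1 x1).filter (fun m : ℕ => (fv a b c m).toNat.Prime)) : ℝ) ≤
      C6 * (C * ((x1 : ℝ) + x / Real.log x ^ 2) / Real.log x) := by
  obtain ⟨C5, hC5, H⟩ := rough_avg5 a ha b
  obtain ⟨x0, hx0⟩ := H (1 / 10) (by norm_num) le_rfl
  -- the elementary inequality
  have hlo : ∀ᶠ x : ℕ in atTop, 2 * Real.log x ^ 3 ≤ (x : ℝ) ^ (2 / 5 : ℝ) := by
    have h := (isLittleO_log_rpow_rpow_atTop (s := 2 / 5) 3 (by norm_num)).bound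
      (show (0 : ℝ) < 1 / 2 by norm_num)
    have h' := tendsto_natCast_atTop_atTop.eventually (h.and (eventually_ge_atTop (1 : ℝ)))
    filter_upwards [h'] with x hx
    obtain ⟨hx, hx1⟩ := hx
    have hl : 0 ≤ Real.log x := Real.log_nonneg hx1
    rw [Real.norm_of_nonneg (by positivity), Real.norm_of_nonneg (by positivity)] at hx
    have : Real.log (x : ℝ) ^ (3 : ℝ) = Real.log x ^ 3 := by
      rw [show (3 : ℝ) = ((3 : ℕ) : ℝ) by norm_num, Real.rpow_natCast]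
    rw [this] at hx
    linarith
  obtain ⟨x2, hx2⟩ := eventually_atTop.1 hlo
  refine ⟨10 * C5 + 1, by positivity, max x0 (max x2 3), fun x hx x1 C hx1 hxC hCx => ?_⟩
  have hxx0 : x0 ≤ x := (le_max_left _ _).trans hx
  have hxx2 : x2 ≤ x := ((le_max_left _ _).trans (le_max_right _ _)).trans hx
  have hx3 : (3 : ℝ) ≤ x := by
    exact_mod_cast ((le_max_right _ _).trans (le_max_right _ _)).trans hx
  have hxpos : (0 : ℝ) < x := by linarith
  have hlog : 1 ≤ Real.log x := by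
    rw [Real.le_log_iff_exp_le hxpos]
    have := Real.exp_one_lt_d9
    linarith
  set z : ℕ := ⌈(x : ℝ) ^ (1 / 10 : ℝ)⌉₊ with hz
  have hz1 : (x : ℝ) ^ (1 / 10 : ℝ) ≤ z := Nat.le_ceil _
  have hX1 : 1 ≤ (x : ℝ) ^ (1 / 10 : ℝ) := Real.one_le_rpow (by linarith) (by norm_num)
  have hz2 : (z : ℝ) ≤ 2 * (x : ℝ) ^ (1 / 10 : ℝ) := by
    have := Nat.ceil_lt_add_one (a := (x : ℝ) ^ (1 / 10 : ℝ)) (by positivity)
    linarith
  have h1 := hx0 x hxx0 0 x1 C z 1 (Nat.zero_le _) hx1 hxC hCx hz1 le_rfl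
    (by simpa using Real.one_le_rpow (show (1 : ℝ) ≤ x by linarith) (show (0 : ℝ) ≤ 2 / 5 by norm_num))
  -- pointwise comparison
  have h2 : ∀ c ∈ Icc 1 C, (#((Icc 1 x1).filter (fun m : ℕ => (fv a b (c : ℕ) m).toNat.Prime)) : ℝ) ≤
      Lc a b 0 x1 c (fun N => if 1 ∣ N then rg z (N / 1) else 0) +
        ∑ m ∈ Icc 1 x1, if ((fv a b (c : ℕ) m).toNat.Prime ∧ (fv a b (c : ℕ) m).toNat ≤ z) then (1 : ℝ) else 0 := by
    intro c _
    rw [card_filter]
    push_cast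
    have h3 : Lc a b 0 x1 c (fun N => if 1 ∣ N then rg z (N / 1) else 0) =
        ∑ m ∈ Icc 1 x1, rg z (fv a b (c : ℕ) m).toNat := by
      unfold Lc
      simp only [one_dvd, if_true, Nat.div_one]
      rfl
    rw [h3, ← sum_add_distrib]
    apply sum_le_sum
    intro m _
    have h4 := rg_nonneg' z (fv a b (c : ℕ) m).toNat
    by_cases hp : (fv a b (c : ℕ) m).toNat.Prime
    · by_cases hle : (fv a b (c : ℕ) m).toNat ≤ z
      · rw [if_pos hp, if_pos ⟨hp, hle⟩]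
        linarith
      · rw [if_pos hp, if_neg (fun h => hle h.2), rg_prime hp (not_le.1 hle), add_zero]
    · rw [if_neg hp, if_neg (fun h => hp h.1)]
      linarith
  have h5 : ∑ c ∈ Icc 1 C, ∑ m ∈ Icc 1 x1, (if ((fv a b (c : ℕ) m).toNat.Prime ∧
      (fv a b (c : ℕ) m).toNat ≤ z) then (1 : ℝ) else 0) ≤ x1 * z := by
    rw [sum_comm]
    calc _ ≤ ∑ m ∈ Icc 1 x1, (z : ℝ) := by
          apply sum_le_sum
          intro m _
          have h6 := small_count a b m z C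
          rw [card_filter] at h6
          exact_mod_cast h6
      _ = x1 * z := by simp
  have h7 : ∑ c ∈ Icc 1 C, (#((Icc 1 x1).filter (fun m : ℕ => (fv a b (c : ℕ) m).toNat.Prime)) : ℝ) ≤
      C5 * (C * ((x1 : ℝ) - (0 : ℕ) + x / Real.log x ^ 2) / ((1 : ℕ) * ((1 / 10) * Real.log x))) + x1 * z := by
    refine (sum_le_sum h2).trans ?_
    rw [sum_add_distrib]
    exact add_le_add h1 h5
  have hx1x : (x1 : ℝ) ≤ x := by exact_mod_cast hx1
  have h8 : (x1 : ℝ) * z ≤ C * ((x1 : ℝ) + x / Real.log x ^ 2) / Real.log x := by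
    have h9 := hx2 x hxx2
    have e1 : (x : ℝ) ^ (1 / 2 : ℝ) = (x : ℝ) ^ (1 / 10 : ℝ) * (x : ℝ) ^ (2 / 5 : ℝ) := by
      rw [← Real.rpow_add hxpos]; norm_num
    have h10 : 2 * (x : ℝ) ^ (1 / 10 : ℝ) * Real.log x ^ 3 ≤ C := by
      calc 2 * (x : ℝ) ^ (1 / 10 : ℝ) * Real.log x ^ 3 = (x : ℝ) ^ (1 / 10 : ℝ) * (2 * Real.log x ^ 3) := by ring
        _ ≤ (x : ℝ) ^ (1 / 10 : ℝ) * (x : ℝ) ^ (2 / 5 : ℝ) := by gcongr
        _ ≤ C := by rw [← e1]; exact hxC
    have hl0 : 0 < Real.log x := by linarith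
    rw [le_div_iff₀ hl0]
    have h11 : (x1 : ℝ) * z * Real.log x ≤ x * (2 * (x : ℝ) ^ (1 / 10 : ℝ)) * Real.log x := by
      gcongr
    have h12 : (C : ℝ) * (x / Real.log x ^ 2) ≥ x * (2 * (x : ℝ) ^ (1 / 10 : ℝ)) * Real.log x := by
      rw [ge_iff_le, ← mul_div_assoc, le_div_iff₀ (by positivity)]
      have h14 : (x : ℝ) * (2 * (x : ℝ) ^ (1 / 10 : ℝ)) * Real.log x * Real.log x ^ 2 =
            (2 * (x : ℝ) ^ (1 / 10 : ℝ) * Real.log x ^ 3) * x := by ring
      rw [h14]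
      gcongr
    have h13 : 0 ≤ (C : ℝ) * x1 := by positivity
    nlinarith
  refine h7.trans ?_
  have e2 : C5 * (C * ((x1 : ℝ) - (0 : ℕ) + x / Real.log x ^ 2) / ((1 : ℕ) * ((1 / 10) * Real.log x))) =
      10 * C5 * (C * ((x1 : ℝ) + x / Real.log x ^ 2) / Real.log x) := by
    have hl0 : Real.log x ≠ 0 := by linarith
    push_cast
    field_simp
    ring
  rw [e2]
  linarith

end Pool.Agent.N792
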