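import Mathlib
import Pool.Agent.N792.QG9
import Pool.Agent.N792.Shp
import Pool.Agent.N792.Sh2
import Pool.Agent.N792.Lam2
import Pool.Agent.N792.RPt
import Pool.Agent.N792.RLm2
import Pool.Agent.N792.UA

/-!
The formula for the von Mangoldt function on average over `c`, for `C ≥ x^(5/6+ε)` (helper792).
-/

set_option autoImplicit false

namespace Pool.Agent.N792

open Finset Filter Topology
open ArithmeticFunction (moebius vonMangoldt)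

/-- the equidistribution of the coefficients of Vaughan's identity -/
lemma eqd_v (η : ℝ) (hη : 0 < η) (As E : ℕ) : ∃ x0 : ℕ, ∀ x : ℕ, x0 ≤ x → ∀ z U Jw ts : ℕ,
    (x : ℝ) ^ η ≤ z → z ≤ x → Real.log x ^ As ≤ ((2 ^ 2 ^ Jw : ℕ) : ℝ) → ((2 ^ 2 ^ Jw : ℕ) : ℝ) ≤ Real.log x ^ E →
    Real.log x ^ (As + 5) ≤ (2 : ℝ) ^ ts → (2 : ℝ) ^ ts ≤ Real.log x ^ E →
    EqD x z ts (2 ^ 2 ^ Jw) As (fun _ => 1) ∧ EqD x z ts (2 ^ 2 ^ Jw) As (fun k => vonMangoldt k) ∧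
      EqD x z ts (2 ^ 2 ^ Jw) As (gam U) ∧ EqD x z ts (2 ^ 2 ^ Jw) As (betU U) := by
  obtain ⟨x1, h1⟩ := sharp_H η hη As E
  obtain ⟨x2, h2⟩ := sharp_H2 η hη As E
  obtain ⟨x3, h3⟩ := eventually_atTop.1 ((Shp.beta_sup η hη).and (Shp.log_ge 3))
  refine ⟨max (max x1 x2) (max x3 2), fun x hx z U Jw ts hz hzx hw1 hw2 ht1 ht2 => ?_⟩
  obtain ⟨hs, hL⟩ := h3 x (by omega)
  have hLL : 3 * Real.log x ≤ Real.log x ^ 2 := by nlinarith
  have hrg : ∀ k, Rough z k → rg z k = 1 := fun k hk => by unfold rg; rw [if_pos hk]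
  have g1 : ∀ g : ℕ → ℝ, (g = (fun _ => 1) ∨ g = gam U ∨ g = (fun k => vonMangoldt k)) →
      EqD x z ts (2 ^ 2 ^ Jw) As g := by
    intro g hg
    refine ⟨fun k hk hr => ?_, fun i u q r hxi hi3 hq hqA hu1 hu2 =>
      h1 x (by omega) z U Jw ts i u q r hz hzx hw1 hw2 ht1 ht2 hxi hi3 hq hqA hu1 hu2 g hg⟩
    have := hs z U k hz hk g hg
    rw [hrg k hr, one_mul] at this
    linarith
  refine ⟨g1 _ (Or.inl rfl), g1 _ (Or.inr (Or.inr rfl)), g1 _ (Or.inr (Or.inl rfl)), fun k hk hr => ?_,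
    fun i u q r hxi hi3 hq hqA hu1 hu2 => h2 x (by omega) z U Jw ts i u q r hz hzx hw1 hw2 ht1 ht2 hxi hi3 hq hqA hu1 hu2⟩
  have := Sh2.sup_betU x z U k (by omega) hk
  rw [hrg k hr, one_mul] at this
  linarith

/-- the formula for the von Mangoldt function for `x^γ ≤ C ≤ x` -/
def LamV (a b : ℤ) (γ : ℝ) : Prop := ∃ As : ℕ, ∀ E R : ℕ, ∀ κ K1 : ℝ, 0 < κ → 1 ≤ K1 →
  ∃ η1 : ℝ, 0 < η1 ∧ η1 ≤ 1 / 20 ∧
  ∃ x0 : ℕ, ∀ x : ℕ, x0 ≤ x → ∀ x1 C J Jw : ℕ, x1 < x → x ≤ R * x1 → (x : ℝ) ^ γ ≤ C → C ≤ x →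
  (x : ℝ) ^ (η1 / 2) ≤ ((2 ^ 2 ^ J : ℕ) : ℝ) → ((2 ^ 2 ^ J : ℕ) : ℝ) ≤ (x : ℝ) ^ η1 →
  Real.log x ^ As ≤ ((2 ^ 2 ^ Jw : ℕ) : ℝ) → ((2 ^ 2 ^ Jw : ℕ) : ℝ) ≤ Real.log x ^ E →
  ∀ Gd ⊆ Icc 1 C, (∀ c ∈ Gd, |Vc a b c (2 ^ 2 ^ J) * V1 (2 ^ 2 ^ Jw) - Vc a b c (2 ^ 2 ^ Jw) * V1 (2 ^ 2 ^ J)| ≤
      Vc a b c (2 ^ 2 ^ Jw) * V1 (2 ^ 2 ^ J) / Real.log x ^ 3) → (∀ c ∈ Gd, Vc a b c (2 ^ 2 ^ Jw) / V1 (2 ^ 2 ^ Jw) ≤ K1) →
  ∃ e : ℕ → ℝ, (∀ c, 0 ≤ e c) ∧ ∑ c ∈ Gd, e c ≤ κ * (C * x) ∧ ∀ c ∈ Gd,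
    |Lc a b x1 x c (fun N => rg (2 ^ 2 ^ J) N * vonMangoldt N) -
      Vc a b c (2 ^ 2 ^ Jw) / V1 (2 ^ 2 ^ Jw) * ((x : ℝ) - x1)| ≤
      e c + κ * (Vc a b c (2 ^ 2 ^ Jw) / V1 (2 ^ 2 ^ Jw)) * x

namespace Lam

/-- the coefficients of the type I sum at the squarefree numbers -/
noncomputable def gS (L : ℝ) (U j : ℕ) : ℝ := if Squarefree j then gI L U j else 0

/-- the pointwise error of the decomposition, squarefree coefficients -/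
lemma point_bound3 (hVS : VS2) (z U y N : ℕ) (L K D : ℝ) (hU : 1 ≤ U) (hUy : U ≤ y) (hN : y * y < N)
    (h4 : U * U * U < N) (hK : |Real.log N - 2 * L| ≤ K) (hL : Real.log N ≤ 3 * L) (hUL : Real.log U ≤ L)
    (hD : Rough z N → (#N.divisors : ℝ) ≤ D) :
    |rg z N * vonMangoldt N - T1 z U (gS L U) N -
      rg z N * ∑ j ∈ N.divisors.filter (fun j => U < j ∧ j ≤ y), (fun j => -betU U j) j * (fun _ => (1 : ℝ)) (N / j) -
      rg z N * ∑ j ∈ N.divisors.filter (fun j => U < j ∧ j ≤ y), (fun _ => (-1 : ℝ)) j * betU U (N / j) -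
      rg z N * ∑ j ∈ N.divisors.filter (fun j => U < j ∧ j ≤ y), vonMangoldt j * gam U (N / j) -
      rg z N * ∑ j ∈ N.divisors.filter (fun j => U < j ∧ j ≤ y), gam U j * vonMangoldt (N / j)| ≤
      K * D * rg z N + 6 * L * D * gp z y N + 4 * L * D * sqd z N := by
  have h1 := point_bound2 hVS z U y N L K D hU hUy hN h4 hK hL hD
  have hL0 : 0 ≤ L := by
    have : 0 ≤ Real.log N := Real.log_natCast_nonneg N
    linarith
  have hN0 : N ≠ 0 := by omega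
  have h2 : |rg z N * ∑ j ∈ N.divisors.filter (fun j => j ≤ U), gI L U j - T1 z U (gS L U) N| ≤ 4 * L * D * sqd z N := by
    unfold T1
    rw [← mul_sub, ← sum_sub_distrib]
    by_cases hr : Rough z N
    · have e1 : rg z N = 1 := by unfold rg; rw [if_pos hr]
      have hd := hD hr
      have hD0 : 0 ≤ D := le_trans (Nat.cast_nonneg _) hd
      rw [e1, one_mul]
      by_cases hs : Squarefree N
      · have e2 : ∑ j ∈ N.divisors.filter (fun j => j ≤ U), (gI L U j - gS L U j) = 0 := by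
          apply sum_eq_zero
          intro j hj
          rw [mem_filter, Nat.mem_divisors] at hj
          have : Squarefree j := hs.squarefree_of_dvd hj.1.1
          unfold gS
          rw [if_pos this, sub_self]
        rw [e2, abs_zero]
        have := Pt.sqd_nonneg z N
        positivity
      · have e2 : sqd z N = 1 := by
          unfold sqd
          rw [e1, if_neg hs, mul_one]
        rw [e2, mul_one]
        refine (abs_sum_le_sum_abs _ _).trans ?_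
        calc ∑ j ∈ N.divisors.filter (fun j => j ≤ U), |gI L U j - gS L U j|
            ≤ ∑ j ∈ N.divisors.filter (fun j => j ≤ U), 4 * L := by
              apply sum_le_sum
              intro j hj
              rw [mem_filter, Nat.mem_divisors] at hj
              unfold gS
              split_ifs
              · rw [sub_self, abs_zero]; linarith
              · rw [sub_zero]
                apply gI_abs
                have hj0 : 0 < j := Nat.pos_of_ne_zero (by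
                  rintro rfl
                  exact hN0 (Nat.eq_zero_of_zero_dvd hj.1.1))
                have : Real.log j ≤ Real.log U := Real.log_le_log (by exact_mod_cast hj0) (by exact_mod_cast hj.2)
                linarith
          _ = #(N.divisors.filter (fun j => j ≤ U)) * (4 * L) := by rw [sum_const, nsmul_eq_mul]
          _ ≤ D * (4 * L) := by
              apply mul_le_mul_of_nonneg_right _ (by linarith)
              refine le_trans ?_ hd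
              exact_mod_cast card_filter_le _ _
          _ = 4 * L * D := by ring
    · have e1 : rg z N = 0 := by unfold rg; rw [if_neg hr]
      have e2 : sqd z N = 0 := by unfold sqd; rw [e1, zero_mul]
      rw [e1, e2, zero_mul, abs_zero, mul_zero]
  rw [abs_le] at h1 h2 ⊢
  constructor
  · linarith [h1.1, h1.2, h2.1, h2.2]
  · linarith [h1.1, h1.2, h2.1, h2.2]

/-- the parameters -/
lemma params3 (e ε c0 : ℝ) (he : 0 < e) (he1 : e ≤ 1 / 100) (hε : 0 < ε) (hε1 : ε ≤ 1 / 100) (hc0 : 0 < c0) :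
    ∀ᶠ x : ℕ in atTop, ∃ U y : ℕ, 1 ≤ U ∧ U ≤ y ∧ (x : ℝ) ^ (2 / 3 - e) ≤ U ∧ (U : ℝ) ≤ (x : ℝ) ^ (3 / 4 : ℝ) ∧
      (y : ℝ) ≤ (x : ℝ) ^ (1 - ε) ∧ (x : ℝ) ^ (1 - 2 * ε) ≤ y ∧
      ((y * y : ℕ) : ℝ) ≤ c0 * x ^ 2 ∧ ((U * U * U : ℕ) : ℝ) ≤ c0 * x ^ 2 := by
  filter_upwards [pow_ev 2 (2 / 3 - e) (3 / 4) (by linarith), pow_ev 2 (1 - 2 * ε) (1 - ε) (by linarith),
    pow_ev (1 / c0) (2 - 2 * ε) 2 (by linarith), pow_ev (8 / c0) (2 - 3 * e) 2 (by linarith),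
    eventually_ge_atTop 1] with x h1 h2 h3 h4 hx1
  have hxr : (1 : ℝ) ≤ x := by exact_mod_cast hx1
  have hxp : (0 : ℝ) < x := by linarith
  have k1 : (1 : ℝ) ≤ (x : ℝ) ^ (2 / 3 - e) := Real.one_le_rpow hxr (by linarith)
  have k2 : (1 : ℝ) ≤ (x : ℝ) ^ (1 - 2 * ε) := Real.one_le_rpow hxr (by linarith)
  have hU2 : ((⌈(x : ℝ) ^ (2 / 3 - e)⌉₊ : ℕ) : ℝ) ≤ 2 * (x : ℝ) ^ (2 / 3 - e) := by
    have := Nat.ceil_lt_add_one (by linarith : 0 ≤ (x : ℝ) ^ (2 / 3 - e))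
    linarith
  have hy : ((⌊(x : ℝ) ^ (1 - ε)⌋₊ : ℕ) : ℝ) ≤ (x : ℝ) ^ (1 - ε) := Nat.floor_le (by positivity)
  have hy2 := Nat.lt_floor_add_one ((x : ℝ) ^ (1 - ε))
  have h34 : (x : ℝ) ^ (3 / 4 : ℝ) ≤ (x : ℝ) ^ (1 - ε) := Real.rpow_le_rpow_of_exponent_le hxr (by linarith)
  have x2 : (x : ℝ) ^ (2 : ℝ) = (x : ℝ) ^ 2 := by norm_cast
  refine ⟨⌈(x : ℝ) ^ (2 / 3 - e)⌉₊, ⌊(x : ℝ) ^ (1 - ε)⌋₊, ?_, ?_, Nat.le_ceil _, hU2.trans h1, hy, ?_, ?_, ?_⟩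
  · exact Nat.one_le_iff_ne_zero.2 (Nat.ceil_pos.2 (by linarith)).ne'
  · exact Nat.le_floor ((hU2.trans h1).trans h34)
  · linarith
  · rw [x2, div_mul_eq_mul_div, one_mul, div_le_iff₀ hc0] at h3
    push_cast
    calc ((⌊(x : ℝ) ^ (1 - ε)⌋₊ : ℕ) : ℝ) * ((⌊(x : ℝ) ^ (1 - ε)⌋₊ : ℕ) : ℝ)
        ≤ (x : ℝ) ^ (1 - ε) * (x : ℝ) ^ (1 - ε) := by gcongr
      _ = (x : ℝ) ^ (2 - 2 * ε) := by rw [← Real.rpow_add hxp]; congr 1; ring
      _ ≤ c0 * x ^ 2 := by linarith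
  · rw [x2, div_mul_eq_mul_div, div_le_iff₀ hc0] at h4
    push_cast
    calc ((⌈(x : ℝ) ^ (2 / 3 - e)⌉₊ : ℕ) : ℝ) * ((⌈(x : ℝ) ^ (2 / 3 - e)⌉₊ : ℕ) : ℝ) * ((⌈(x : ℝ) ^ (2 / 3 - e)⌉₊ : ℕ) : ℝ)
        ≤ (2 * (x : ℝ) ^ (2 / 3 - e)) * (2 * (x : ℝ) ^ (2 / 3 - e)) * (2 * (x : ℝ) ^ (2 / 3 - e)) := by gcongr
      _ = 8 * ((x : ℝ) ^ (2 / 3 - e) * (x : ℝ) ^ (2 / 3 - e) * (x : ℝ) ^ (2 / 3 - e)) := by ring
      _ = 8 * (x : ℝ) ^ (2 - 3 * e) := by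
          rw [← Real.rpow_add hxp, ← Real.rpow_add hxp]
          congr 2
          ring
      _ ≤ c0 * x ^ 2 := by linarith

end Lam

end Pool.Agent.N792
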