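import Mathlib
import Pool.Agent.N792.UB

/-!
The formula for the von Mangoldt function on average over `c`, for `C ≥ x^(5/6+ε)`: the assembly (helper792).
-/

set_option autoImplicit false

namespace Pool.Agent.N792

open Finset Filter Topology
open ArithmeticFunction (moebius vonMangoldt)

namespace Lam

lemma Lc_lin3 (a b : ℤ) (x1 x c z y : ℕ) (u v w : ℝ) :
    Lc a b x1 x c (fun N => u * rg z N + v * gp z y N + w * sqd z N) =
      u * Lc a b x1 x c (rg z) + v * Lc a b x1 x c (gp z y) + w * Lc a b x1 x c (sqd z) := by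
  unfold Lc
  rw [sum_add_distrib, sum_add_distrib, mul_sum, mul_sum, mul_sum]

lemma Ls_lin3 (a b : ℤ) (x1 x z y : ℕ) (u v w : ℝ) :
    Ls a b x1 x (fun N => u * rg z N + v * gp z y N + w * sqd z N) =
      u * Ls a b x1 x (rg z) + v * Ls a b x1 x (gp z y) + w * Ls a b x1 x (sqd z) := by
  unfold Ls
  rw [mul_sum, mul_sum, mul_sum, ← sum_add_distrib, ← sum_add_distrib]
  apply sum_congr rfl
  intro N _
  ring

lemma alg6 (L D X : ℝ) (hL : 0 < L) : 4 * L * D * (X / L ^ 2) = 4 * D * X / L := by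
  field_simp

end Lam

theorem lam_avg3 (hq1 : Q1) (hq4 : Q4) (a : ℤ) (ha : 0 < a) (b : ℤ) (hR1 : R1 a b) (hR2 : R2 a b) (hX2 : X2 a b)
    (hX3 : ∀ R, X3 a b R) (hX7 : X7 a b) (h3 : VS2) (ε0 : ℝ) (hε0 : 0 < ε0) : LamV a b (5 / 6 + ε0) := by
  obtain ⟨As, h2⟩ := type_two3 hq1 hq4 a ha b hR1 hR2 1
  refine ⟨As, fun E R κ K1 hκ hK1 => ?_⟩
  obtain ⟨C4, η0, hC4, hη0, hTI⟩ := hX2 R K1 hK1
  obtain ⟨C3, hC3, hgap⟩ := hX3 R
  obtain ⟨C5, hC5, hrav⟩ := rough_avg5 a ha b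
  obtain ⟨Kr, hKr, hlsrg⟩ := Lam.ls_rg a ha b R
  obtain ⟨c0, A, hc0, hA, X0, hX0⟩ := Lam.range_bd a ha b R
  obtain ⟨η1, hη1, hη10, hη120, hη1C⟩ := Lam.choose_eta C4 η0 (κ / 10) hC4 hη0 (by positivity)
  obtain ⟨D, hD⟩ : ∃ D : ℝ, D = (2 : ℝ) ^ (3 / (η1 / 2)) := ⟨_, rfl⟩
  have hDpos : 0 < D := by rw [hD]; positivity
  obtain ⟨K, hK⟩ : ∃ K : ℝ, K = |Real.log c0| + Real.log A := ⟨_, rfl⟩
  have hK0 : 0 ≤ K := by
    rw [hK]
    have := Real.log_nonneg hA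
    positivity
  obtain ⟨ε, hε, hε1, hε2⟩ : ∃ ε : ℝ, 0 < ε ∧ ε ≤ 1 / 200 ∧ 6 * D * (C3 * (2 * ε / (η1 / 2) ^ 2)) ≤ κ / 10 := by
    refine ⟨min (1 / 200) (κ * (η1 / 2) ^ 2 / (120 * D * C3)), by positivity, min_le_left _ _, ?_⟩
    have h3 : min (1 / 200) (κ * (η1 / 2) ^ 2 / (120 * D * C3)) ≤ κ * (η1 / 2) ^ 2 / (120 * D * C3) := min_le_right _ _
    calc 6 * D * (C3 * (2 * min (1 / 200) (κ * (η1 / 2) ^ 2 / (120 * D * C3)) / (η1 / 2) ^ 2))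
        ≤ 6 * D * (C3 * (2 * (κ * (η1 / 2) ^ 2 / (120 * D * C3)) / (η1 / 2) ^ 2)) := by gcongr
      _ = κ / 10 := by field_simp; norm_num
  obtain ⟨e, he, he1, he2⟩ : ∃ e : ℝ, 0 < e ∧ e ≤ 1 / 100 ∧ e ≤ ε0 / 2 :=
    ⟨min (1 / 100) (ε0 / 2), by positivity, min_le_left _ _, min_le_right _ _⟩
  obtain ⟨ε', hε', hε'1, hε'2⟩ : ∃ ε' : ℝ, 0 < ε' ∧ ε' ≤ ε ∧ ε' ≤ ε0 / 2 :=
    ⟨min ε (ε0 / 2), by positivity, min_le_left _ _, min_le_right _ _⟩
  obtain ⟨E', hE'⟩ : ∃ E' : ℕ, E' = max E (As + 6) := ⟨_, rfl⟩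
  obtain ⟨xTI, hTI⟩ := hTI η1 hη1 hη10 E'
  obtain ⟨xTII, hTII⟩ := h2 E' R (η1 / 2) ε' (by positivity) hε' (by linarith)
  obtain ⟨xg, hgap⟩ := hgap (η1 / 2) (2 * ε) (by positivity) (by linarith) (by positivity) (by linarith)
  obtain ⟨xr, hrav⟩ := hrav (η1 / 2) (by positivity) (by linarith)
  obtain ⟨xs, hlsrg⟩ := hlsrg (η1 / 2) (by positivity) (by linarith)
  obtain ⟨xl, hlam⟩ := ls_lam a ha b R (κ / 4) (by positivity)
  obtain ⟨xq, hsqd⟩ := hX7 R (η1 / 2) (by positivity)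
  obtain ⟨xv, hEq⟩ := eqd_v (η1 / 2) (by positivity) As E'
  have hev := (Lam.params3 e ε c0 he he1 hε (by linarith) hc0).and ((Shp.log_ge (40 / κ)).and
    ((Shp.log_ge (40 * C5 * K * D / (η1 * κ))).and ((Shp.log_ge (16 * K * D * Kr / (η1 * κ))).and
    ((Shp.log_ge (80 * D / κ)).and ((Shp.log_ge 2).and (eventually_ge_atTop ⌈A⌉₊))))))
  obtain ⟨xe, hxe⟩ := eventually_atTop.1 hev
  refine ⟨η1, hη1, hη120, xTI + xTII + xg + xr + xs + xl + xe + X0 + xq + xv + 2, ?_⟩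
  intro x hx x1 C J Jw hx1 hxR hC hCx hz1 hz2 hw1 hw2 Gd hGd hGd2 hGd3
  obtain ⟨⟨U, y, hU1, hUy, hUlo, hUhi, hyhi, h3lo, hyy, h3U⟩, hLa, hLb, hLc, hLq, hLd, hAx⟩ := hxe x (by omega)
  have hx2 : 2 ≤ x := by omega
  have hxr : (1 : ℝ) ≤ x := by exact_mod_cast (by omega : 1 ≤ x)
  have hxp : (0 : ℝ) < x := by linarith
  have hC7 : (x : ℝ) ^ (7 / 10 : ℝ) ≤ C := (Real.rpow_le_rpow_of_exponent_le hxr (by linarith)).trans hC
  have hC6 : (x : ℝ) ^ (3 / 5 : ℝ) ≤ C := (Real.rpow_le_rpow_of_exponent_le hxr (by norm_num)).trans hC7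
  have hC5' : (x : ℝ) ^ (1 / 2 : ℝ) ≤ C := (Real.rpow_le_rpow_of_exponent_le hxr (by norm_num)).trans hC7
  have hlsrg := hlsrg x (by omega) x1 (2 ^ 2 ^ J) hx1 hxR hz1
  have hlam := hlam x (by omega) x1 (2 ^ 2 ^ J) hx1 hxR
  obtain ⟨hbx, hr1, hr2⟩ := hX0 x (by omega) x1 hx1 hxR
  have hAx' : A ≤ x := (Nat.le_ceil A).trans (by exact_mod_cast hAx)
  obtain ⟨L, hL⟩ : ∃ L : ℝ, L = Real.log x := ⟨_, rfl⟩
  have hlogU : Real.log U ≤ Real.log x := by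
    apply Real.log_le_log (by exact_mod_cast hU1)
    calc (U : ℝ) ≤ (x : ℝ) ^ (3 / 4 : ℝ) := hUhi
      _ ≤ (x : ℝ) ^ (1 : ℝ) := Real.rpow_le_rpow_of_exponent_le hxr (by norm_num)
      _ = x := Real.rpow_one _
  rw [← hL] at hlsrg hLa hLb hLc hLd hLq hlogU
  have hLp : 0 < L := by linarith
  have hL1 : 1 ≤ L := by linarith
  obtain ⟨z, hzdef⟩ : ∃ z : ℕ, z = 2 ^ 2 ^ J := ⟨_, rfl⟩
  have hzx : z ≤ x := by
    have : (z : ℝ) ≤ (x : ℝ) ^ (1 : ℝ) := by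
      rw [hzdef]
      exact hz2.trans (Real.rpow_le_rpow_of_exponent_le hxr (by linarith))
    rw [Real.rpow_one] at this
    exact_mod_cast this
  have hyx : y ≤ x := by
    have : (y : ℝ) ≤ (x : ℝ) ^ (1 : ℝ) := hyhi.trans (Real.rpow_le_rpow_of_exponent_le hxr (by linarith))
    rw [Real.rpow_one] at this
    exact_mod_cast this
  have hz1' : 1 ≤ z := by rw [hzdef]; exact Nat.one_le_two_pow
  have hzη : (x : ℝ) ^ (η1 / 2) ≤ z := by rw [hzdef]; exact hz1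
  obtain ⟨ts, hts1, hts2⟩ := exists_pow_two (Y := L ^ (As + 5)) (one_le_pow₀ hL1)
  have hwE : ((2 ^ 2 ^ Jw : ℕ) : ℝ) ≤ Real.log x ^ E' := by
    refine hw2.trans ?_
    rw [← hL]
    exact pow_le_pow_right₀ hL1 (by omega)
  have htsE : (2 : ℝ) ^ ts ≤ L ^ E' := by
    calc (2 : ℝ) ^ ts ≤ 2 * L ^ (As + 5) := hts2
      _ ≤ L * L ^ (As + 5) := mul_le_mul_of_nonneg_right hLd (by positivity)
      _ = L ^ (As + 6) := by ring
      _ ≤ L ^ E' := pow_le_pow_right₀ hL1 (by omega)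
  have hCU : (x : ℝ) ^ (3 / 2 + ε') ≤ C * U := by
    calc (x : ℝ) ^ (3 / 2 + ε') ≤ (x : ℝ) ^ ((5 / 6 + ε0) + (2 / 3 - e)) :=
          Real.rpow_le_rpow_of_exponent_le hxr (by linarith)
      _ = (x : ℝ) ^ (5 / 6 + ε0) * (x : ℝ) ^ (2 / 3 - e) := Real.rpow_add hxp _ _
      _ ≤ C * U := mul_le_mul hC hUlo (by positivity) (Nat.cast_nonneg _)
  have hyhi' : (y : ℝ) ≤ (x : ℝ) ^ (1 - ε') := hyhi.trans (Real.rpow_le_rpow_of_exponent_le hxr (by linarith))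
  obtain ⟨eq1, eqL, eqg, eqb⟩ := hEq x (by omega) z U Jw ts hzη hzx hw1 hwE (by rw [← hL]; exact hts1) (by rw [← hL]; exact htsE)
  have hT2 : ∀ f g : ℕ → ℝ, (∀ k, k ≤ x ^ 3 → Rough z k → |f k| ≤ Real.log x ^ 2) → EqD x z ts (2 ^ 2 ^ Jw) As g →
      ∑ c ∈ Icc 1 C, |Lc a b x1 x c (fun N => rg z N * ∑ j ∈ N.divisors.filter (fun j => U < j ∧ j ≤ y), f j * g (N / j)) -
        Vc a b c (2 ^ 2 ^ Jw) / V1 (2 ^ 2 ^ Jw) *
          Ls a b x1 x (fun N => rg z N * ∑ j ∈ N.divisors.filter (fun j => U < j ∧ j ≤ y), f j * g (N / j))| ≤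
      C * x / L := by
    intro f g hf hg
    have := hTII x (by omega) x1 C z U y Jw ts hx1 hxR hCU hCx hzη hzx hUy hyhi' hwE
      (by rw [← hL]; exact hts1) (by rw [← hL]; exact htsE) f g (by
        intro m hm hrm
        rw [mem_Ioc] at hm
        apply hf m _ hrm
        calc m ≤ x := by omega
          _ ≤ x ^ 3 := Nat.le_self_pow (by norm_num) x) hg
    rw [pow_one, ← hL] at this
    exact this
  have hTI := hTI x (by omega) x1 C J Jw U hx1 hxR hC6 hCx hz1 hz2 hwE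
    (hUhi.trans (Real.rpow_le_rpow_of_exponent_le hxr (by norm_num))) Gd hGd hGd2 hGd3 (Lam.gS L U) (by
    intro j hj
    rw [← hL]
    unfold Lam.gS
    split_ifs
    · apply Lam.gI_abs
      rcases Nat.eq_zero_or_pos j with h | h
      · rw [h]
        simp
        linarith
      · have : Real.log j ≤ Real.log U := Real.log_le_log (by exact_mod_cast h) (by exact_mod_cast hj)
        linarith
    · rw [abs_zero]; linarith) (by
    intro j _ hj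
    by_contra hns
    apply hj
    unfold Lam.gS
    rw [if_neg hns])
  obtain ⟨g1, g2⟩ := hgap x (by omega) x1 C z y hx1 hxR hC7 hCx hzη h3lo
  obtain ⟨q1, q2⟩ := hsqd x (by omega) x1 C z hx1 hxR hC6 hCx hzη
  have hrav := hrav x (by omega) x1 x C (2 ^ 2 ^ J) 1 hx1.le le_rfl hC5' hCx hz1 le_rfl (by
    push_cast
    exact Real.one_le_rpow hxr (by norm_num))
  rw [← hL] at g1 g2 q1 q2 hrav
  rw [← hzdef] at hTI hrav hlsrg hlam hz1 hz2 hGd2 ⊢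
  have hlam := hlam hzx hz1'
  -- the functions
  obtain ⟨GG, hGG⟩ : ∃ G : ℕ → ℝ, G = fun N => rg z N * vonMangoldt N := ⟨_, rfl⟩
  obtain ⟨GA, hGA⟩ : ∃ G : ℕ → ℝ, G = T1 z U (Lam.gS L U) := ⟨_, rfl⟩
  obtain ⟨G1, hG1⟩ : ∃ G : ℕ → ℝ, G = fun N => rg z N * ∑ j ∈ N.divisors.filter (fun j => U < j ∧ j ≤ y),
    (fun j => -betU U j) j * (fun _ => (1 : ℝ)) (N / j) := ⟨_, rfl⟩
  obtain ⟨G2, hG2⟩ : ∃ G : ℕ → ℝ, G = fun N => rg z N * ∑ j ∈ N.divisors.filter (fun j => U < j ∧ j ≤ y),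
    (fun _ => (-1 : ℝ)) j * betU U (N / j) := ⟨_, rfl⟩
  obtain ⟨G3, hG3⟩ : ∃ G : ℕ → ℝ, G = fun N => rg z N * ∑ j ∈ N.divisors.filter (fun j => U < j ∧ j ≤ y),
    vonMangoldt j * gam U (N / j) := ⟨_, rfl⟩
  obtain ⟨G4, hG4⟩ : ∃ G : ℕ → ℝ, G = fun N => rg z N * ∑ j ∈ N.divisors.filter (fun j => U < j ∧ j ≤ y),
    gam U j * vonMangoldt (N / j) := ⟨_, rfl⟩
  have t1 := hT2 (fun j => -betU U j) (fun _ => 1) (fun k hk hr => by
    simp only [abs_neg]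
    exact eqb.1 k hk hr) eq1
  have t2 := hT2 (fun _ => -1) (betU U) (fun k hk hr => by
    have := eq1.1 k hk hr
    simp only [abs_neg] at this ⊢
    exact this) eqb
  have t3 := hT2 (fun j => vonMangoldt j) (gam U) (fun k hk hr => eqL.1 k hk hr) eqg
  have t4 := hT2 (gam U) (fun k => vonMangoldt k) (fun k hk hr => eqg.1 k hk hr) eqL
  rw [← hGA] at hTI
  rw [← hG1] at t1
  rw [← hG2] at t2
  rw [← hG3] at t3
  rw [← hG4] at t4
  rw [← hGG] at hlam ⊢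
  obtain ⟨GE, hGE⟩ : ∃ G : ℕ → ℝ, G = fun N => (K * D) * rg z N + (6 * L * D) * gp z y N + (4 * L * D) * sqd z N :=
    ⟨_, rfl⟩
  -- pointwise bound
  have hpt : ∀ N : ℕ, Fn a b x1 < N → N ≤ Fn a b x + x → |GG N - GA N - G1 N - G2 N - G3 N - G4 N| ≤ GE N := by
    intro N hN1 hN2
    have b1 : c0 * (x : ℝ) ^ 2 ≤ N := hr1.trans (by exact_mod_cast hN1.le)
    have b1' : c0 * (x : ℝ) ^ 2 < N := lt_of_le_of_lt hr1 (by exact_mod_cast hN1)
    have b2 : (N : ℝ) ≤ A * (x : ℝ) ^ 2 := by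
      have : (N : ℝ) ≤ ((Fn a b x : ℕ) : ℝ) + x := by exact_mod_cast hN2
      linarith
    obtain ⟨l1, l2, l3⟩ := Lam.log_bd hc0 hA (by omega) b1 b2 hAx'
    have hp := Lam.point_bound3 h3 z U y N L K D hU1 hUy (by
        have : ((y * y : ℕ) : ℝ) < N := lt_of_le_of_lt hyy b1'
        exact_mod_cast this) (by
        have : ((U * U * U : ℕ) : ℝ) < N := lt_of_le_of_lt h3U b1'
        exact_mod_cast this) (by rw [hL, hK]; exact l1) (by rw [hL]; exact l2) hlogU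
        (fun hr => by rw [hD]; exact Lam.div_bound (by positivity) hx2 hzη l3 hr)
    rw [hGG, hGA, hG1, hG2, hG3, hG4, hGE]
    exact hp
  have hgeN : ∀ N : ℕ, 0 ≤ GE N := by
    intro N
    rw [hGE]
    have := Lam.rg_nonneg z N
    have := Lam.gp_nonneg z y N
    have := Pt.sqd_nonneg z N
    positivity
  have hfv : ∀ c ∈ Icc 1 C, ∀ n ∈ Ioc x1 x, Fn a b x1 < (fv a b (c : ℕ) n).toNat ∧ (fv a b (c : ℕ) n).toNat ≤ Fn a b x + x := by
    intro c hc n hn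
    rw [mem_Icc] at hc
    rw [mem_Ioc] at hn
    rw [Mtm.fv_eq ha (by omega), Int.toNat_natCast]
    have f1 : Fn a b x1 ≤ Fn a b n := Mtm.Fn_mono ha hbx hn.1.le
    have f2 : Fn a b n ≤ Fn a b x := Mtm.Fn_mono ha (by omega) hn.2
    omega
  have hLcE : ∀ c : ℕ, 0 ≤ Lc a b x1 x c GE := by
    intro c
    unfold Lc
    exact sum_nonneg fun n _ => hgeN _
  obtain ⟨S, hS⟩ : ∃ S : ℕ → ℝ, S = fun c : ℕ => Vc a b (c : ℕ) (2 ^ 2 ^ Jw) / V1 (2 ^ 2 ^ Jw) := ⟨_, rfl⟩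
  have hS0 : ∀ c, 0 ≤ S c := by
    intro c
    rw [hS]
    exact div_nonneg (Lam.Vc_nonneg a b c _) (V1_pos _).le
  have hSc : ∀ c : ℕ, Vc a b (c : ℕ) (2 ^ 2 ^ Jw) / V1 (2 ^ 2 ^ Jw) = S c := fun c => by rw [hS]
  simp only [hSc] at hTI t1 t2 t3 t4 ⊢
  have hsq : ∀ X : ℝ, 0 ≤ X → 4 * L * D * (X / L ^ 2) ≤ κ / 20 * X := by
    intro X hX
    rw [Lam.alg6 L D X hLp, div_le_iff₀ hLp]
    rw [div_le_iff₀ hκ] at hLq
    have : 80 * D * X ≤ L * κ * X := mul_le_mul_of_nonneg_right hLq hX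
    linarith
  -- the Ls part of the error
  have hLsE : Ls a b x1 x GE ≤ (κ / 8 + κ / 10 + κ / 20) * x := by
    rw [hGE, Lam.Ls_lin3]
    have e1 : K * D * Ls a b x1 x (rg z) ≤ κ / 8 * x := by
      calc K * D * Ls a b x1 x (rg z) ≤ K * D * (Kr * x / (η1 / 2 * L)) :=
            mul_le_mul_of_nonneg_left hlsrg (by positivity)
        _ = (16 * K * D * Kr / (η1 * κ)) * (κ / 8 * x) / L := Lam.alg3 _ _ _ _ _ _ _ hη1 hκ hLp
        _ ≤ L * (κ / 8 * x) / L := by gcongr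
        _ = κ / 8 * x := Lam.alg4 _ _ hLp
    have e2 : 6 * L * D * Ls a b x1 x (gp z y) ≤ κ / 10 * x := by
      calc 6 * L * D * Ls a b x1 x (gp z y) ≤ 6 * L * D * (C3 * (2 * ε / (η1 / 2) ^ 2) * (x / L)) :=
            mul_le_mul_of_nonneg_left g2 (by positivity)
        _ = 6 * D * (C3 * (2 * ε / (η1 / 2) ^ 2)) * x := Lam.alg5 _ _ _ _ _ _ hη1 hLp
        _ ≤ κ / 10 * x := mul_le_mul_of_nonneg_right hε2 hxp.le
    have e3 : 4 * L * D * Ls a b x1 x (sqd z) ≤ κ / 20 * x :=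
      (mul_le_mul_of_nonneg_left q2 (by positivity)).trans (hsq x hxp.le)
    linarith
  -- the Lc part of the error
  have hLcE' : ∑ c ∈ Icc 1 C, Lc a b x1 x c GE ≤ (κ / 10 + κ / 10 + κ / 20) * (C * x) := by
    have e0 : ∀ c ∈ Icc 1 C, Lc a b x1 x c GE = K * D * Lc a b x1 x c (rg z) + 6 * L * D * Lc a b x1 x c (gp z y) +
        4 * L * D * Lc a b x1 x c (sqd z) := by
      intro c _
      rw [hGE, Lam.Lc_lin3]
    rw [sum_congr rfl e0, sum_add_distrib, sum_add_distrib, ← mul_sum, ← mul_sum, ← mul_sum]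
    have e3 : (fun N : ℕ => if 1 ∣ N then rg z (N / 1) else 0) = rg z := by
      funext N
      simp
    rw [e3] at hrav
    have hC0 : (0 : ℝ) ≤ C := Nat.cast_nonneg _
    have e1 : K * D * ∑ c ∈ Icc 1 C, Lc a b x1 x c (rg z) ≤ κ / 10 * (C * x) := by
      have hin : (x : ℝ) - x1 + x / L ^ 2 ≤ 2 * x := by
        have g1 : (0 : ℝ) ≤ x1 := Nat.cast_nonneg _
        have g2 : (x : ℝ) / L ^ 2 ≤ x := div_le_self hxp.le (one_le_pow₀ hL1)
        linarith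
      calc K * D * ∑ c ∈ Icc 1 C, Lc a b x1 x c (rg z)
          ≤ K * D * (C5 * (C * ((x : ℝ) - x1 + x / L ^ 2) / (((1 : ℕ) : ℝ) * (η1 / 2 * L)))) :=
            mul_le_mul_of_nonneg_left hrav (by positivity)
        _ ≤ K * D * (C5 * (C * (2 * x) / (((1 : ℕ) : ℝ) * (η1 / 2 * L)))) := by
            push_cast
            gcongr
        _ = (40 * C5 * K * D / (η1 * κ)) * (κ / 10 * (C * x)) / L := Lam.alg1 _ _ _ _ _ _ _ _ hη1 hκ hLp
        _ ≤ L * (κ / 10 * (C * x)) / L := by gcongr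
        _ = κ / 10 * (C * x) := Lam.alg4 _ _ hLp
    have e2 : 6 * L * D * ∑ c ∈ Icc 1 C, Lc a b x1 x c (gp z y) ≤ κ / 10 * (C * x) := by
      calc 6 * L * D * ∑ c ∈ Icc 1 C, Lc a b x1 x c (gp z y)
          ≤ 6 * L * D * (C3 * (2 * ε / (η1 / 2) ^ 2) * (C * x / L)) :=
            mul_le_mul_of_nonneg_left g1 (by positivity)
        _ = 6 * D * (C3 * (2 * ε / (η1 / 2) ^ 2)) * (C * x) := Lam.alg5 _ _ _ _ _ _ hη1 hLp
        _ ≤ κ / 10 * (C * x) := mul_le_mul_of_nonneg_right hε2 (by positivity)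
    have e4 : 4 * L * D * ∑ c ∈ Icc 1 C, Lc a b x1 x c (sqd z) ≤ κ / 20 * (C * x) :=
      (mul_le_mul_of_nonneg_left q1 (by positivity)).trans (hsq (C * x) (by positivity))
    linarith
  refine ⟨fun c => |Lc a b x1 x c GA - S c * Ls a b x1 x GA| + |Lc a b x1 x c G1 - S c * Ls a b x1 x G1| +
    |Lc a b x1 x c G2 - S c * Ls a b x1 x G2| + |Lc a b x1 x c G3 - S c * Ls a b x1 x G3| +
    |Lc a b x1 x c G4 - S c * Ls a b x1 x G4| + Lc a b x1 x c GE, ?_, ?_, ?_⟩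
  · intro c
    have := hLcE c
    positivity
  · rw [sum_add_distrib, sum_add_distrib, sum_add_distrib, sum_add_distrib, sum_add_distrib]
    have hsub : ∀ F : ℕ → ℝ, (∀ c, 0 ≤ F c) → ∑ c ∈ Gd, F c ≤ ∑ c ∈ Icc 1 C, F c := fun F hF =>
      sum_le_sum_of_subset_of_nonneg hGd fun c _ _ => hF c
    have s1 := hsub _ (fun c => abs_nonneg (Lc a b x1 x c G1 - S c * Ls a b x1 x G1))
    have s2 := hsub _ (fun c => abs_nonneg (Lc a b x1 x c G2 - S c * Ls a b x1 x G2))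
    have s3 := hsub _ (fun c => abs_nonneg (Lc a b x1 x c G3 - S c * Ls a b x1 x G3))
    have s7 := hsub _ (fun c => abs_nonneg (Lc a b x1 x c G4 - S c * Ls a b x1 x G4))
    have s4 := hsub _ hLcE
    have hCx0 : 0 ≤ (C : ℝ) * x := by positivity
    have s5 : (C : ℝ) * x / L ≤ κ / 40 * (C * x) := by
      have h40 : 40 ≤ L * κ := by rwa [div_le_iff₀ hκ] at hLa
      rw [div_le_iff₀ hLp]
      have := mul_le_mul_of_nonneg_right h40 hCx0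
      linarith
    have s6 : C4 * ((2 : ℝ) ^ (-(1 / (C4 * η1))) / η1 ^ 2) * (C * x) ≤ κ / 10 * (C * x) :=
      mul_le_mul_of_nonneg_right hη1C hCx0
    have s8 : 0 ≤ κ * (C * x) := mul_nonneg hκ.le hCx0
    linarith
  · intro c hc
    have hcI := hGd hc
    have q1 := Lam.Lc_comb4 a b x1 x c GG GA G1 G2 G3 G4 GE (fun n hn => hpt _ (hfv c hcI n hn).1 (hfv c hcI n hn).2)
    have q2 := Lam.Ls_comb4 a b x1 x GG GA G1 G2 G3 G4 GE (fun N hN => by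
      rw [mem_Ioc] at hN
      exact hpt N hN.1 (by omega))
    have q3 := Lam.comb4 (S c) ((x : ℝ) - x1) (κ / 4 * x) _ _ _ _ _ _ _ _ _ _ _ _ _ _ (hS0 c) q1 q2 hlam
    have q4 : S c * (Ls a b x1 x GE + κ / 4 * x) ≤ κ * S c * x := by
      calc S c * (Ls a b x1 x GE + κ / 4 * x) ≤ S c * (κ * x) := by
            apply mul_le_mul_of_nonneg_left _ (hS0 c)
            have : 0 < κ * x := by positivity
            linarith
        _ = κ * S c * x := by ring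
    linarith

end Pool.Agent.N792
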