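import Mathlib
import Pool.Agent.N792.Asm
import Pool.Agent.N792.Vau

/-!
Vaughan's identity on rough numbers, symmetric version (helper566, subtask VA2 of helper792;
adapted from Vau.lean by helper96).
-/

set_option autoImplicit false

namespace Pool.Agent.N792
open Finset Filter Topology
open ArithmeticFunction (moebius vonMangoldt)

open Vau in
theorem vaughan_split2 (z U y N : ℕ) (hU : 1 ≤ U) (hUy : U ≤ y) (hN : y * y < N) (hN3 : U * U * U < N) (hr : Rough z N) :
    |vonMangoldt N - (∑ j ∈ N.divisors.filter (fun j => j ≤ U), ((moebius j : ℝ) * (Real.log N - Real.log j) - betU U j)) -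
      ∑ j ∈ N.divisors.filter (fun j => U < j ∧ j ≤ y),
        (-betU U j - betU U (N / j) + vonMangoldt j * gam U (N / j) + gam U j * vonMangoldt (N / j))| ≤
      2 * Real.log N * (#N.divisors : ℝ) * gp z y N := by
  classical
  have hy1 : 1 ≤ y := hU.trans hUy
  have hyN : y < N := lt_of_le_of_lt (Nat.le_mul_of_pos_left y hy1) hN
  have hN0 : N ≠ 0 := by omega
  have hNU : U < N := by omega
  have hlogN : 0 ≤ Real.log N := Real.log_natCast_nonneg N
  -- Vaughan's identity
  have hv := Pool.Agent.Helper112.TI.vaughan U U N
  rw [Pool.Agent.Helper112.TI.l1_apply, if_neg (by omega), zero_add, log_part U N hN0,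
    ArithmeticFunction.coe_zeta_mul_apply] at hv
  have hb : ∑ j ∈ N.divisors, (Pool.Agent.Helper112.TI.mu1 U * Pool.Agent.Helper112.TI.l1 U) j =
      ∑ j ∈ N.divisors, betU U j := sum_congr rfl fun j _ => (betU_af U j).symm
  rw [hb, lam_part'] at hv
  -- the sum over `k ≤ y` and `k > y`
  have s1 : ∑ k ∈ N.divisors, gam U k * (if U < N / k then vonMangoldt (N / k) else 0) =
      ∑ j ∈ N.divisors.filter (fun j => U < j ∧ j ≤ y), gam U j * vonMangoldt (N / j) +
      ∑ k ∈ N.divisors.filter (fun k => y < k), gam U k * (if U < N / k then vonMangoldt (N / k) else 0) := by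
    rw [← sum_filter_add_sum_filter_not N.divisors (fun k => k ≤ y)]
    congr 1
    · rw [← sum_filter_add_sum_filter_not (N.divisors.filter (fun k => k ≤ y)) (fun k => k ≤ U), filter_filter,
        filter_filter]
      rw [sum_eq_zero (s := N.divisors.filter (fun k => k ≤ y ∧ k ≤ U)), zero_add]
      · apply sum_congr
        · ext k
          simp only [mem_filter, not_le]
          tauto
        · intro k hk
          rw [mem_filter] at hk
          obtain ⟨hk1, hk2, hk3⟩ := hk
          have hk0 := Nat.pos_of_mem_divisors hk1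
          rw [if_pos]
          rw [Nat.lt_div_iff_mul_lt' (Nat.dvd_of_mem_divisors hk1)]
          calc k * U ≤ y * y := Nat.mul_le_mul hk3 hUy
            _ < N := hN
      · intro k hk
        rw [mem_filter] at hk
        rw [gam_zero hk.2.2, zero_mul]
    · apply sum_congr _ fun _ _ => rfl
      ext k
      simp only [mem_filter, not_le]
  -- the sum over `U < l ≤ y`: reflect
  have s2 : ∑ k ∈ N.divisors.filter (fun k => y < k), gam U k * (if U < N / k then vonMangoldt (N / k) else 0) =
      ∑ j ∈ N.divisors.filter (fun j => U < j ∧ j ≤ y), vonMangoldt j * gam U (N / j) +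
      ∑ k ∈ N.divisors.filter (fun k => y < k ∧ y < N / k), gam U k * vonMangoldt (N / k) := by
    have e0 : N.divisors.filter (fun k => y < k) =
        N.divisors.filter (fun k => y < k ∧ N / k ≤ y) ∪ N.divisors.filter (fun k => y < k ∧ y < N / k) := by
      ext k
      simp only [mem_union, mem_filter]
      constructor
      · rintro ⟨h1, h2⟩
        rcases le_or_gt (N / k) y with h | h
        · exact Or.inl ⟨h1, h2, h⟩
        · exact Or.inr ⟨h1, h2, h⟩
      · rintro (⟨h1, h2, _⟩ | ⟨h1, h2, _⟩)
        · exact ⟨h1, h2⟩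
        · exact ⟨h1, h2⟩
    have hdis : Disjoint (N.divisors.filter (fun k => y < k ∧ N / k ≤ y)) (N.divisors.filter (fun k => y < k ∧ y < N / k)) := by
      rw [disjoint_left]
      intro k hk hk'
      rw [mem_filter] at hk hk'
      omega
    rw [e0, sum_union hdis]
    congr 1
    · -- reflect `k ↦ N / k`
      rw [← sum_filter_add_sum_filter_not (N.divisors.filter (fun k => y < k ∧ N / k ≤ y)) (fun k => U < N / k),
        filter_filter, filter_filter]
      rw [sum_eq_zero (s := N.divisors.filter (fun k => (y < k ∧ N / k ≤ y) ∧ ¬ U < N / k)), add_zero]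
      · refine sum_nbij' (fun k => N / k) (fun j => N / j) ?_ ?_ ?_ ?_ ?_
        · intro k hk
          rw [mem_filter] at hk ⊢
          obtain ⟨hk1, ⟨hk2, hk3⟩, hk4⟩ := hk
          exact ⟨Nat.mem_divisors.2 ⟨Nat.div_dvd_of_dvd (Nat.dvd_of_mem_divisors hk1), hN0⟩, hk4, hk3⟩
        · intro j hj
          rw [mem_filter] at hj ⊢
          obtain ⟨hj1, hj2, hj3⟩ := hj
          have hjd := Nat.dvd_of_mem_divisors hj1
          have hj0 := Nat.pos_of_mem_divisors hj1
          have e1 : N / (N / j) = j := Nat.div_div_self hjd hN0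
          refine ⟨Nat.mem_divisors.2 ⟨Nat.div_dvd_of_dvd hjd, hN0⟩, ⟨?_, ?_⟩, ?_⟩
          · rw [Nat.lt_div_iff_mul_lt' hjd]
            calc j * y ≤ y * y := Nat.mul_le_mul_right _ hj3
              _ < N := hN
          · rw [e1]; exact hj3
          · rw [e1]; exact hj2
        · intro k hk
          rw [mem_filter] at hk
          exact Nat.div_div_self (Nat.dvd_of_mem_divisors hk.1) hN0
        · intro j hj
          rw [mem_filter] at hj
          exact Nat.div_div_self (Nat.dvd_of_mem_divisors hj.1) hN0
        · intro k hk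
          rw [mem_filter] at hk
          rw [Nat.div_div_self (Nat.dvd_of_mem_divisors hk.1) hN0, if_pos hk.2.2, mul_comm]
      · intro k hk
        rw [mem_filter] at hk
        rw [if_neg hk.2.2, mul_zero]
    · apply sum_congr rfl
      intro k hk
      rw [mem_filter] at hk
      rw [if_pos (by omega)]
  -- the sum of `betU`
  have s3 : ∑ j ∈ N.divisors, betU U j = ∑ j ∈ N.divisors.filter (fun j => j ≤ U), betU U j +
      ∑ j ∈ N.divisors.filter (fun j => U < j ∧ j ≤ y), betU U j + ∑ j ∈ N.divisors.filter (fun j => y < j), betU U j := by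
    have e0 : N.divisors = (N.divisors.filter (fun j => j ≤ U) ∪ N.divisors.filter (fun j => U < j ∧ j ≤ y)) ∪
        N.divisors.filter (fun j => y < j) := by
      ext k
      simp only [mem_union, mem_filter]
      constructor
      · intro h
        by_cases h1 : k ≤ U
        · exact Or.inl (Or.inl ⟨h, h1⟩)
        · by_cases h2 : k ≤ y
          · exact Or.inl (Or.inr ⟨h, by omega, h2⟩)
          · exact Or.inr ⟨h, by omega⟩
      · rintro ((⟨h, _⟩ | ⟨h, _⟩) | ⟨h, _⟩) <;> exact h
    conv_lhs => rw [e0]
    rw [sum_union, sum_union]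
    · rw [disjoint_left]
      intro k hk hk'
      rw [mem_filter] at hk hk'
      omega
    · rw [disjoint_left]
      intro k hk hk'
      rw [mem_union, mem_filter, mem_filter] at hk
      rw [mem_filter] at hk'
      omega
  -- the part of `betU` with `j > y`, `N / j ≤ y`: reflect
  have s4 : ∑ j ∈ N.divisors.filter (fun j => y < j), betU U j =
      ∑ j ∈ N.divisors.filter (fun j => U < j ∧ j ≤ y), betU U (N / j) +
      ∑ j ∈ N.divisors.filter (fun j => y < j ∧ y < N / j), betU U j := by
    rw [← sum_filter_add_sum_filter_not (N.divisors.filter (fun j => y < j)) (fun j => N / j ≤ y),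
      filter_filter, filter_filter]
    congr 1
    · have e1 : ∑ j ∈ N.divisors.filter (fun j => j ≤ y), betU U (N / j) =
          ∑ j ∈ N.divisors.filter (fun j => U < j ∧ j ≤ y), betU U (N / j) := by
        rw [← sum_filter_add_sum_filter_not (N.divisors.filter (fun j => j ≤ y)) (fun j => U < j),
          filter_filter, filter_filter]
        rw [sum_eq_zero (s := N.divisors.filter (fun j => j ≤ y ∧ ¬ U < j)), add_zero]
        · apply sum_congr _ fun _ _ => rfl
          ext k
          simp only [mem_filter]
          tauto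
        · intro k hk
          rw [mem_filter] at hk
          obtain ⟨hk1, hk2, hk3⟩ := hk
          apply betU_zero
          rw [Nat.lt_div_iff_mul_lt' (Nat.dvd_of_mem_divisors hk1)]
          calc k * (U * U) ≤ U * (U * U) := Nat.mul_le_mul_right _ (by omega)
            _ = U * U * U := by ring
            _ < N := hN3
      rw [← e1]
      refine sum_nbij' (fun k => N / k) (fun j => N / j) ?_ ?_ ?_ ?_ ?_
      · intro k hk
        rw [mem_filter] at hk ⊢
        exact ⟨Nat.mem_divisors.2 ⟨Nat.div_dvd_of_dvd (Nat.dvd_of_mem_divisors hk.1), hN0⟩, hk.2.2⟩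
      · intro j hj
        rw [mem_filter] at hj ⊢
        obtain ⟨hj1, hj2⟩ := hj
        have hjd := Nat.dvd_of_mem_divisors hj1
        have e1 : N / (N / j) = j := Nat.div_div_self hjd hN0
        refine ⟨Nat.mem_divisors.2 ⟨Nat.div_dvd_of_dvd hjd, hN0⟩, ?_, ?_⟩
        · rw [Nat.lt_div_iff_mul_lt' hjd]
          calc j * y ≤ y * y := Nat.mul_le_mul_right _ hj2
            _ < N := hN
        · rw [e1]; exact hj2
      · intro k hk
        rw [mem_filter] at hk
        exact Nat.div_div_self (Nat.dvd_of_mem_divisors hk.1) hN0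
      · intro j hj
        rw [mem_filter] at hj
        exact Nat.div_div_self (Nat.dvd_of_mem_divisors hj.1) hN0
      · intro k hk
        rw [mem_filter] at hk
        rw [Nat.div_div_self (Nat.dvd_of_mem_divisors hk.1) hN0]
    · apply sum_congr _ fun _ _ => rfl
      ext k
      simp only [mem_filter, not_le]
  have hmain : vonMangoldt N - (∑ j ∈ N.divisors.filter (fun j => j ≤ U), ((moebius j : ℝ) * (Real.log N - Real.log j) - betU U j)) -
      ∑ j ∈ N.divisors.filter (fun j => U < j ∧ j ≤ y),
        (-betU U j - betU U (N / j) + vonMangoldt j * gam U (N / j) + gam U j * vonMangoldt (N / j)) =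
      ∑ k ∈ N.divisors.filter (fun k => y < k ∧ y < N / k), gam U k * vonMangoldt (N / k) -
      ∑ j ∈ N.divisors.filter (fun j => y < j ∧ y < N / j), betU U j := by
    rw [s1, s2, s3, s4] at hv
    rw [sum_sub_distrib, sum_add_distrib, sum_add_distrib, sum_sub_distrib, sum_neg_distrib]
    linarith
  rw [hmain]
  -- the bounds
  have hgp : gp z y N = (#(N.divisors.filter (fun j => y ≤ j ∧ y ≤ N / j)) : ℝ) := by
    unfold gp rg
    rw [if_pos hr, one_mul]
  have hdN : (1 : ℝ) ≤ #N.divisors := by
    exact_mod_cast Nat.one_le_iff_ne_zero.2 (card_pos.2 ⟨1, Nat.one_mem_divisors.2 hN0⟩).ne'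
  have h5 : N.divisors.filter (fun k => y < k ∧ y < N / k) ⊆ N.divisors.filter (fun j => y ≤ j ∧ y ≤ N / j) := by
    intro k hk
    rw [mem_filter] at hk ⊢
    exact ⟨hk.1, by omega, by omega⟩
  have h6 : (#(N.divisors.filter (fun k => y < k ∧ y < N / k)) : ℝ) ≤ #(N.divisors.filter (fun j => y ≤ j ∧ y ≤ N / j)) := by
    exact_mod_cast card_le_card h5
  have b1 : |∑ k ∈ N.divisors.filter (fun k => y < k ∧ y < N / k), gam U k * vonMangoldt (N / k)| ≤
      Real.log N * #N.divisors * gp z y N := by
    refine (abs_sum_le_sum_abs _ _).trans ?_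
    calc ∑ k ∈ N.divisors.filter (fun k => y < k ∧ y < N / k), |gam U k * vonMangoldt (N / k)|
        ≤ ∑ k ∈ N.divisors.filter (fun k => y < k ∧ y < N / k), Real.log N * #N.divisors := by
          apply sum_le_sum
          intro k hk
          rw [mem_filter] at hk
          have hkd := Nat.dvd_of_mem_divisors hk.1
          rw [abs_mul, mul_comm]
          apply mul_le_mul _ _ (abs_nonneg _) hlogN
          · rw [abs_of_nonneg ArithmeticFunction.vonMangoldt_nonneg]
            refine ArithmeticFunction.vonMangoldt_le_log.trans ?_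
            apply Real.log_le_log
            · exact_mod_cast (by omega : 0 < N / k)
            · exact_mod_cast Nat.div_le_self N k
          · refine (gam_abs U k).trans ?_
            exact_mod_cast card_le_card (Nat.divisors_subset_of_dvd hN0 hkd)
      _ = Real.log N * #N.divisors * #(N.divisors.filter (fun k => y < k ∧ y < N / k)) := by
          rw [sum_const, nsmul_eq_mul]
          ring
      _ ≤ Real.log N * #N.divisors * gp z y N := by
          rw [hgp]
          exact mul_le_mul_of_nonneg_left h6 (by positivity)
  have b2 : |∑ j ∈ N.divisors.filter (fun j => y < j ∧ y < N / j), betU U j| ≤ Real.log N * #N.divisors * gp z y N := by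
    refine (abs_sum_le_sum_abs _ _).trans ?_
    calc ∑ j ∈ N.divisors.filter (fun j => y < j ∧ y < N / j), |betU U j|
        ≤ ∑ j ∈ N.divisors.filter (fun j => y < j ∧ y < N / j), Real.log N := by
          apply sum_le_sum
          intro k hk
          rw [mem_filter] at hk
          refine (betU_abs U k).trans ?_
          apply Real.log_le_log
          · exact_mod_cast Nat.pos_of_mem_divisors hk.1
          · exact_mod_cast Nat.divisor_le hk.1
      _ = Real.log N * 1 * #(N.divisors.filter (fun j => y < j ∧ y < N / j)) := by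
          rw [sum_const, nsmul_eq_mul]
          ring
      _ ≤ Real.log N * #N.divisors * gp z y N := by
          rw [hgp]
          gcongr
  calc |∑ k ∈ N.divisors.filter (fun k => y < k ∧ y < N / k), gam U k * vonMangoldt (N / k) -
      ∑ j ∈ N.divisors.filter (fun j => y < j ∧ y < N / j), betU U j| ≤ Real.log N * #N.divisors * gp z y N + Real.log N * #N.divisors * gp z y N :=
        (abs_sub _ _).trans (add_le_add b1 b2)
    _ = 2 * Real.log N * (#N.divisors : ℝ) * gp z y N := by ring

end Pool.Agent.N792
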