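import Mathlib
import Pool.Agent.N792.UD
import Pool.Agent.N792.T9
import Pool.Agent.N792.Va2
import Pool.Agent.N792.Pow

/-!
The Hardy-Littlewood formula for almost all `c ≤ C`, `C ≥ x^(5/6+ε)` (helper792).
-/

set_option autoImplicit false

namespace Pool.Agent.N792

open Finset Filter Topology

theorem lam_v (a : ℤ) (ha : 0 < a) (b : ℤ) (ε0 : ℝ) (hε0 : 0 < ε0) : LamV a b (5 / 6 + ε0) :=
  lam_avg3 q1 q4 a ha b (r1 a ha b) (r2 a ha b) (x2 a ha b (r1 a ha b) (r2 a ha b)) (x3 a ha b) (x7 a ha b)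
    (fun z U y N hU hUy hN hN3 hr => vaughan_split2 z U y N hU hUy hN hN3 hr) ε0 hε0

/-- the Hardy-Littlewood formula for almost all `c ≤ C`, `x^(5/6+ε) ≤ C ≤ x` -/
theorem t7s (a : ℤ) (ha : 0 < a) (b : ℤ) (ε0 : ℝ) (hε0 : 0 < ε0) (η : ℝ) (hη : 0 < η) :
    ∃ x0 : ℕ, ∀ x : ℕ, x0 ≤ x → ∀ C : ℕ, (x : ℝ) ^ (5 / 6 + ε0) ≤ C → C ≤ x →
      ∃ Ex ⊆ Icc 1 C, (#Ex : ℝ) ≤ η * C ∧ ∀ c ∈ Icc 1 C, c ∉ Ex → Admissible a b c →
        ∃ S : ℝ, 0 < S ∧ Tendsto (fun z => partialC a b c z) atTop (𝓝 S) ∧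
          ∀ u v : ℕ, u ≤ v → v ≤ x →
            |(#((Ioc u v).filter (fun m : ℕ => (fv a b c m).toNat.Prime)) : ℝ) -
                eps a b * S * gcdProd a b * ∑ m ∈ Ioc u v, 1 / Real.log ((a : ℝ) * m ^ 2 + b * m + c)| ≤
              η * (eps a b * S * gcdProd a b * x / Real.log x) :=
  Fn124.conclV_all a ha b (5 / 6 + ε0) (by linarith) (lam_v a ha b ε0 hε0) (x9 a ha b) (x8 a ha b)
    (fun R => pow_avg a ha b R) (li_asym a ha b) η hη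

end Pool.Agent.N792
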