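import Mathlib
import Pool.Agent.N792.RStm
import Pool.Agent.N792.FlP

/-!
Elementary lemmas for the final assembly for products of two primes (helper136, for helper792).
-/

set_option autoImplicit false

namespace Pool.Agent.N792.XEa

open Finset Filter Topology Pool.Agent.N792

lemma pi0_eq (k : ℕ) : pi0 k = if k.Prime then 1 else 0 := by
  unfold pi0
  congr

/-- the weighted number of factorisations -/
noncomputable def G (y y' N : ℕ) : ℝ :=
  ∑ j ∈ N.divisors.filter (fun j => y < j ∧ j ≤ y'), pi0 j * pi0 (N / j)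

/-- the indicator function of the pairs counted by `cnt2` -/
noncomputable def pc (a b c : ℤ) (m p : ℕ) : ℝ :=
  if p.Prime ∧ p ∣ (fv a b c m).toNat ∧ ((fv a b c m).toNat / p).Prime then 1 else 0

/-- the weight of the main term -/
noncomputable def pm (a b c : ℤ) (m p : ℕ) : ℝ :=
  if p.Prime then 1 / ((p : ℝ) * Real.log (((a : ℝ) * m ^ 2 + b * m + c) / p)) else 0

/-- the sum over a rectangle -/
noncomputable def S (Φ : ℕ → ℕ → ℝ) (u v y y' : ℕ) : ℝ := ∑ m ∈ Ioc u v, ∑ p ∈ Ioc y y', Φ m p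

lemma cnt2_eq (a b c : ℤ) (u v y1 y2 : ℕ) : (cnt2 a b c u v y1 y2 : ℝ) = S (pc a b c) u v y1 y2 := by
  classical
  unfold cnt2 S pc
  rw [Finset.card_filter, Nat.cast_sum, Finset.sum_product]
  refine sum_congr rfl fun m _ => sum_congr rfl fun p _ => ?_
  push_cast
  rfl

lemma main_eq (a b c : ℤ) (u v y1 y2 : ℕ) :
    ∑ m ∈ Ioc u v, ∑ p ∈ (Ioc y1 y2).filter Nat.Prime,
      1 / ((p : ℝ) * Real.log (((a : ℝ) * m ^ 2 + b * m + c) / p)) = S (pm a b c) u v y1 y2 := by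
  unfold S pm
  refine sum_congr rfl fun m _ => ?_
  rw [sum_filter]

lemma G_eq (y y' N : ℕ) :
    G y y' N = ∑ p ∈ Ioc y y', (if p.Prime ∧ p ∣ N ∧ (N / p).Prime then (1 : ℝ) else 0) := by
  unfold G
  rcases Nat.eq_zero_or_pos N with h0 | h0
  · subst h0
    simp [Nat.not_prime_zero]
  · have e : N.divisors.filter (fun j => y < j ∧ j ≤ y') = (Ioc y y').filter (fun j => j ∣ N) := by
      ext j
      simp only [mem_filter, Nat.mem_divisors, mem_Ioc]
      constructor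
      · rintro ⟨⟨h1, h2⟩, h3⟩; exact ⟨h3, h1⟩
      · rintro ⟨h3, h1⟩; exact ⟨⟨h1, h0.ne'⟩, h3⟩
    rw [e, sum_filter]
    refine sum_congr rfl fun p _ => ?_
    rw [pi0_eq, pi0_eq]
    by_cases h1 : p ∣ N <;> by_cases h2 : p.Prime <;> by_cases h3 : (N / p).Prime <;> simp [h1, h2, h3]

lemma G_nonneg (y y' N : ℕ) : 0 ≤ G y y' N := by
  rw [G_eq]
  exact sum_nonneg fun p _ => by split_ifs <;> norm_num

lemma S_pc_eq (a b c : ℤ) (u v y y' : ℕ) :
    S (pc a b c) u v y y' = ∑ m ∈ Ioc u v, G y y' (fv a b c m).toNat := by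
  unfold S
  refine sum_congr rfl fun m _ => ?_
  rw [G_eq]
  rfl

/-- there are at most two prime divisors with a prime cofactor -/
lemma G_le_two (y y' N : ℕ) : G y y' N ≤ 2 := by
  classical
  rw [G_eq, ← sum_filter, sum_const, nsmul_eq_mul, mul_one]
  by_cases hne : ((Ioc y y').filter (fun p => p.Prime ∧ p ∣ N ∧ (N / p).Prime)).Nonempty
  · obtain ⟨p, hp⟩ := hne
    obtain ⟨-, hp1, hp2, hp3⟩ := mem_filter.1 hp
    have hsub : (Ioc y y').filter (fun p => p.Prime ∧ p ∣ N ∧ (N / p).Prime) ⊆ {p, N / p} := by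
      intro q hq
      obtain ⟨-, hq1, hq2, hq3⟩ := mem_filter.1 hq
      have h1 : N = p * (N / p) := (Nat.mul_div_cancel' hp2).symm
      rw [h1] at hq2
      rcases hq1.dvd_mul.1 hq2 with h | h
      · rw [mem_insert]; left; exact (Nat.prime_dvd_prime_iff_eq hq1 hp1).1 h
      · rw [mem_insert, mem_singleton]; right; exact (Nat.prime_dvd_prime_iff_eq hq1 hp3).1 h
    have h2 := card_le_card hsub
    have h3 : #({p, N / p} : Finset ℕ) ≤ 2 := card_le_two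
    exact_mod_cast h2.trans h3
  · rw [not_nonempty_iff_eq_empty.1 hne]
    norm_num

/-- the cofactors are rough -/
lemma rg_mul_G {z y y' N : ℕ} (hzy : z ≤ y) (hN : z * y' < N) : rg z N * G y y' N = G y y' N := by
  classical
  by_cases hG : G y y' N = 0
  · rw [hG, mul_zero]
  · have h1 : Rough z N := by
      rw [G_eq] at hG
      obtain ⟨p, hp, hp0⟩ := Finset.exists_ne_zero_of_sum_ne_zero hG
      have hc : p.Prime ∧ p ∣ N ∧ (N / p).Prime := by
        by_contra hcon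
        exact hp0 (if_neg hcon)
      obtain ⟨h2, h3, h4⟩ := hc
      rw [mem_Ioc] at hp
      refine ⟨by omega, fun q hq hqN => ?_⟩
      have h5 : N = p * (N / p) := (Nat.mul_div_cancel' h3).symm
      rw [h5] at hqN
      rcases hq.dvd_mul.1 hqN with h | h
      · rw [(Nat.prime_dvd_prime_iff_eq hq h2).1 h]; omega
      · rw [(Nat.prime_dvd_prime_iff_eq hq h4).1 h]
        by_contra hcon
        push Not at hcon
        have h6 : N ≤ y' * z := by
          rw [h5]; exact Nat.mul_le_mul hp.2 hcon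
        rw [mul_comm] at h6
        omega
    unfold rg
    rw [if_pos h1, one_mul]

/-! ### roots -/

/-- the number of the `m ≤ x` such that `p` divides the value -/
lemma root_count (a b c : ℤ) (p x : ℕ) (hp : 0 < p) :
    #((Ioc 0 x).filter (fun m : ℕ => (p : ℤ) ∣ fv a b c m)) ≤ rho a b c p * (x / p + 1) := by
  classical
  have h1 : (Ioc 0 x).filter (fun m : ℕ => (p : ℤ) ∣ fv a b c m) ⊆
      (((range p).filter (fun r : ℕ => (p : ℤ) ∣ fv a b c r)) ×ˢ range (x / p + 1)).image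
        (fun t => t.1 + p * t.2) := by
    intro m hm
    rw [mem_filter, mem_Ioc] at hm
    rw [mem_image]
    refine ⟨(m % p, m / p), ?_, Nat.mod_add_div m p⟩
    rw [mem_product, mem_filter, mem_range, mem_range]
    refine ⟨⟨Nat.mod_lt _ hp, ?_⟩, ?_⟩
    · have := (fv_mod a b c p m).1 hm.2
      exact_mod_cast this
    · exact Nat.lt_succ_of_le (Nat.div_le_div_right hm.1.2)
  refine (card_le_card h1).trans (card_image_le.trans ?_)
  rw [card_product, card_range]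
  rfl

/-! ### rectangles -/

lemma S_split_m (Φ : ℕ → ℕ → ℝ) {u v x y y' : ℕ} (h1 : u ≤ v) (h2 : v ≤ x) :
    S Φ u x y y' = S Φ u v y y' + S Φ v x y y' := by
  unfold S
  rw [← Finset.sum_union (Finset.disjoint_left.2 (fun m hm hm' => by
    rw [mem_Ioc] at hm hm'; omega)), Ioc_union_Ioc_eq_Ioc h1 h2]

lemma S_split_p (Φ : ℕ → ℕ → ℝ) {u x y1 y2 y' : ℕ} (h1 : y1 ≤ y2) (h2 : y2 ≤ y') :
    S Φ u x y1 y' = S Φ u x y1 y2 + S Φ u x y2 y' := by
  unfold S
  rw [← sum_add_distrib]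
  refine sum_congr rfl fun m _ => ?_
  rw [← Finset.sum_union (Finset.disjoint_left.2 (fun p hp hp' => by
    rw [mem_Ioc] at hp hp'; omega)), Ioc_union_Ioc_eq_Ioc h1 h2]

lemma S_sub (Φ Ψ : ℕ → ℕ → ℝ) (κ : ℝ) (u v y y' : ℕ) :
    S (fun m p => Φ m p - κ * Ψ m p) u v y y' = S Φ u v y y' - κ * S Ψ u v y y' := by
  unfold S
  simp only [sum_sub_distrib, mul_sum]

lemma S_rect (Φ : ℕ → ℕ → ℝ) {u v x y1 y2 y' : ℕ} (h1 : u ≤ v) (h2 : v ≤ x) (h3 : y1 ≤ y2)
    (h4 : y2 ≤ y') :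
    S Φ u v y1 y2 = S Φ u x y1 y' - S Φ v x y1 y' - S Φ u x y2 y' + S Φ v x y2 y' := by
  have e1 := S_split_m Φ (y := y1) (y' := y') h1 h2
  have e2 := S_split_m Φ (y := y2) (y' := y') h1 h2
  have e3 := S_split_p Φ (u := u) (x := v) h3 h4
  linarith

lemma S_nonneg {Φ : ℕ → ℕ → ℝ} {u v y y' : ℕ} (h : ∀ m ∈ Ioc u v, ∀ p ∈ Ioc y y', 0 ≤ Φ m p) :
    0 ≤ S Φ u v y y' := sum_nonneg fun m hm => sum_nonneg fun p hp => h m hm p hp

/-- rounding: the difference of two corner sums of a function between `0` and its bounds -/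
lemma S_round (Φ : ℕ → ℕ → ℝ) {X u x Y y y' : ℕ} (h1 : X ≤ u) (h2 : u ≤ x) (h3 : Y ≤ y) (h4 : y ≤ y')
    (h0 : ∀ m ∈ Ioc X x, ∀ p ∈ Ioc Y y', 0 ≤ Φ m p) :
    |S Φ X x Y y' - S Φ u x y y'| ≤ S Φ X u Y y' + S Φ X x Y y := by
  have e1 := S_split_m Φ (y := Y) (y' := y') h1 h2
  have e2 := S_split_p Φ (u := u) (x := x) h3 h4
  have e3 := S_split_m Φ (y := Y) (y' := y) h1 h2
  have p1 : 0 ≤ S Φ X u Y y' := S_nonneg fun m hm p hp => h0 m (by
    rw [mem_Ioc] at hm ⊢; omega) p hp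
  have p2 : 0 ≤ S Φ u x Y y := S_nonneg fun m hm p hp => h0 m (by
    rw [mem_Ioc] at hm ⊢; omega) p (by rw [mem_Ioc] at hp ⊢; omega)
  have p3 : 0 ≤ S Φ X u Y y := S_nonneg fun m hm p hp => h0 m (by
    rw [mem_Ioc] at hm ⊢; omega) p (by rw [mem_Ioc] at hp ⊢; omega)
  rw [abs_of_nonneg (by linarith)]
  linarith

/-! ### harmonic sums -/

lemma sum_inv_le {Y y : ℕ} (hY : 0 < Y) (h : Y ≤ y) :
    ∑ n ∈ Ioc Y y, 1 / (n : ℝ) ≤ ((y : ℝ) - Y) / Y := by
  have hY' : (0 : ℝ) < Y := by exact_mod_cast hY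
  calc ∑ n ∈ Ioc Y y, 1 / (n : ℝ) ≤ ∑ n ∈ Ioc Y y, 1 / (Y : ℝ) := by
        refine sum_le_sum fun n hn => ?_
        rw [mem_Ioc] at hn
        exact one_div_le_one_div_of_le hY' (by exact_mod_cast hn.1.le)
    _ = ((y : ℝ) - Y) / Y := by
        rw [sum_const, Nat.card_Ioc, nsmul_eq_mul, Nat.cast_sub h]; ring

lemma harm_le {Y y x : ℕ} (hx : 1 ≤ x) (hy : y ≤ x) :
    ∑ n ∈ Ioc Y y, 1 / (n : ℝ) ≤ 1 + Real.log x := by
  have h1 : ∑ n ∈ Ioc Y y, 1 / (n : ℝ) ≤ ∑ n ∈ Icc 1 x, 1 / (n : ℝ) := by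
    refine sum_le_sum_of_subset_of_nonneg ?_ fun n _ _ => by positivity
    intro n hn
    rw [mem_Ioc] at hn
    rw [mem_Icc]; omega
  refine h1.trans ?_
  have h2 := harmonic_le_one_add_log x
  rw [harmonic_eq_sum_Icc] at h2
  push_cast at h2
  simpa [one_div] using h2

/-! ### the two rounding bounds -/

lemma S_pc_strip (a b c : ℤ) {X u Y y' : ℕ} (h : X ≤ u) :
    S (pc a b c) X u Y y' ≤ 2 * ((u : ℝ) - X) := by
  rw [S_pc_eq]
  calc ∑ m ∈ Ioc X u, G Y y' (fv a b c m).toNat ≤ ∑ m ∈ Ioc X u, (2 : ℝ) :=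
        sum_le_sum fun m _ => G_le_two _ _ _
    _ = 2 * ((u : ℝ) - X) := by
        rw [sum_const, Nat.card_Ioc, nsmul_eq_mul, Nat.cast_sub h]; ring

lemma S_pc_band (a b c : ℤ) (ha : 0 < a) {X x Y y : ℕ} (haY : a ≤ Y) (hyx : y ≤ x)
    (hf : ∀ m ∈ Ioc X x, 0 ≤ fv a b c m) :
    S (pc a b c) X x Y y ≤ 4 * x * ∑ n ∈ Ioc Y y, 1 / (n : ℝ) := by
  classical
  unfold S
  rw [sum_comm, mul_sum]
  refine sum_le_sum fun p hp => ?_
  rw [mem_Ioc] at hp
  have hp0 : 0 < p := by omega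
  have hp0' : (0 : ℝ) < p := by exact_mod_cast hp0
  have hx0 : (0 : ℝ) ≤ x := Nat.cast_nonneg _
  by_cases hpp : p.Prime
  · have hpa : ¬ (p : ℤ) ∣ a := fun hd => by
      have := Int.le_of_dvd ha hd
      omega
    have h1 : ∑ m ∈ Ioc X x, pc a b c m p ≤ #((Ioc 0 x).filter (fun m : ℕ => (p : ℤ) ∣ fv a b c m)) := by
      calc ∑ m ∈ Ioc X x, pc a b c m p
          ≤ ∑ m ∈ Ioc X x, (if (p : ℤ) ∣ fv a b c m then (1 : ℝ) else 0) := by
            refine sum_le_sum fun m hm => ?_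
            unfold pc
            by_cases h2 : p.Prime ∧ p ∣ (fv a b c m).toNat ∧ ((fv a b c m).toNat / p).Prime
            · rw [if_pos h2, if_pos ?_]
              have h3 : (p : ℤ) ∣ ((fv a b c m).toNat : ℤ) := by exact_mod_cast h2.2.1
              rwa [Int.toNat_of_nonneg (hf m hm)] at h3
            · rw [if_neg h2]; split_ifs <;> norm_num
        _ ≤ ∑ m ∈ Ioc 0 x, (if (p : ℤ) ∣ fv a b c m then (1 : ℝ) else 0) := by
            refine sum_le_sum_of_subset_of_nonneg ?_ fun m _ _ => by split_ifs <;> norm_num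
            exact Ioc_subset_Ioc (Nat.zero_le _) le_rfl
        _ = _ := by
            rw [← sum_filter, sum_const, nsmul_eq_mul, mul_one]
    have h2 := root_count a b c p x hp0
    have h3 := rho_le_two a b c p hpp hpa
    have h4 : ((x / p + 1 : ℕ) : ℝ) ≤ 2 * (x * (1 / (p : ℝ))) := by
      push_cast
      have h5 : ((x / p : ℕ) : ℝ) ≤ (x : ℝ) / p := Nat.cast_div_le
      have h6 : (1 : ℝ) ≤ (x : ℝ) / p := by
        rw [le_div_iff₀ hp0', one_mul]
        exact_mod_cast (hp.2.trans hyx)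
      have h7 : (x : ℝ) * (1 / (p : ℝ)) = x / p := by ring
      rw [h7]; linarith
    calc ∑ m ∈ Ioc X x, pc a b c m p ≤ (#((Ioc 0 x).filter (fun m : ℕ => (p : ℤ) ∣ fv a b c m)) : ℝ) := h1
      _ ≤ ((rho a b c p * (x / p + 1) : ℕ) : ℝ) := by exact_mod_cast h2
      _ ≤ ((2 * (x / p + 1) : ℕ) : ℝ) := by exact_mod_cast Nat.mul_le_mul_right _ h3
      _ = 2 * ((x / p + 1 : ℕ) : ℝ) := by push_cast; ring
      _ ≤ 2 * (2 * (x * (1 / (p : ℝ)))) := by linarith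
      _ = 4 * x * (1 / (p : ℝ)) := by ring
  · have h1 : ∀ m ∈ Ioc X x, pc a b c m p = 0 := fun m _ => by
      unfold pc; rw [if_neg (fun h => hpp h.1)]
    rw [sum_congr rfl h1, sum_const_zero]
    positivity

/-- the main terms: if all the quotients are at least `e` -/
lemma pm_bounds (a b c : ℤ) {m p x : ℕ} (hp : 0 < p) (hpx : p ≤ x)
    (hf : Real.exp 1 * x ≤ (a : ℝ) * m ^ 2 + b * m + c) : 0 ≤ pm a b c m p ∧ pm a b c m p ≤ 1 / (p : ℝ) := by
  have hp' : (0 : ℝ) < p := by exact_mod_cast hp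
  unfold pm
  split_ifs with h
  · have h1 : 1 ≤ Real.log (((a : ℝ) * m ^ 2 + b * m + c) / p) := by
      rw [Real.le_log_iff_exp_le]
      · rw [le_div_iff₀ hp']
        refine le_trans ?_ hf
        have : (p : ℝ) ≤ x := by exact_mod_cast hpx
        exact mul_le_mul_of_nonneg_left this (Real.exp_pos 1).le
      · have : (0 : ℝ) < x := by
          have : 0 < x := by omega
          exact_mod_cast this
        have := Real.exp_pos 1
        have : 0 < (a : ℝ) * m ^ 2 + b * m + c := by nlinarith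
        positivity
    refine ⟨by positivity, ?_⟩
    apply one_div_le_one_div_of_le hp'
    nlinarith
  · exact ⟨le_rfl, by positivity⟩

lemma S_pm_le (a b c : ℤ) {X u Y y x : ℕ} (hyx : y ≤ x) (hXu : X ≤ u)
    (hf : ∀ m ∈ Ioc X u, Real.exp 1 * x ≤ (a : ℝ) * m ^ 2 + b * m + c) :
    0 ≤ S (pm a b c) X u Y y ∧ S (pm a b c) X u Y y ≤ ((u : ℝ) - X) * ∑ n ∈ Ioc Y y, 1 / (n : ℝ) := by
  constructor
  · refine S_nonneg fun m hm p hp => ?_
    rw [mem_Ioc] at hp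
    exact (pm_bounds a b c (by omega) (by omega) (hf m hm)).1
  · unfold S
    calc ∑ m ∈ Ioc X u, ∑ p ∈ Ioc Y y, pm a b c m p ≤ ∑ m ∈ Ioc X u, ∑ n ∈ Ioc Y y, 1 / (n : ℝ) := by
          refine sum_le_sum fun m hm => sum_le_sum fun p hp => ?_
          rw [mem_Ioc] at hp
          exact (pm_bounds a b c (by omega) (by omega) (hf m hm)).2
      _ = _ := by
          rw [sum_const, Nat.card_Ioc, nsmul_eq_mul, Nat.cast_sub hXu]

/-! ### grids -/

/-- the arithmetic grid -/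
lemma grid_x {x n u : ℕ} (hx : 0 < x) (hn : 0 < n) (hu : u ≤ x) :
    ∃ k ∈ range (n + 1), k * x / n ≤ u ∧ (u : ℝ) - ((k * x / n : ℕ) : ℝ) ≤ x / n + 1 := by
  refine ⟨u * n / x, ?_, ?_, ?_⟩
  · rw [mem_range]
    have : u * n / x ≤ n := by
      apply Nat.div_le_of_le_mul
      exact Nat.mul_le_mul_right n hu
    omega
  · apply Nat.div_le_of_le_mul
    calc u * n / x * x ≤ u * n := Nat.div_mul_le_self _ _
      _ = n * u := mul_comm _ _
  · have hx' : (0 : ℝ) < x := by exact_mod_cast hx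
    have hn' : (0 : ℝ) < n := by exact_mod_cast hn
    have h1 : ((u * n / x : ℕ) : ℝ) + 1 > (u : ℝ) * n / x := by
      have := Nat.lt_floor_add_one ((u : ℝ) * n / x)
      have e : ⌊(u : ℝ) * n / x⌋₊ = u * n / x := by
        rw [← Nat.cast_mul, Nat.floor_div_natCast, Nat.floor_natCast]
      rwa [e] at this
    have h2 : (((u * n / x) * x / n : ℕ) : ℝ) + 1 > ((u * n / x : ℕ) : ℝ) * x / n := by
      have := Nat.lt_floor_add_one (((u * n / x : ℕ) : ℝ) * x / n)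
      have e : ⌊((u * n / x : ℕ) : ℝ) * x / n⌋₊ = (u * n / x) * x / n := by
        rw [← Nat.cast_mul, Nat.floor_div_natCast, Nat.floor_natCast]
      rwa [e] at this
    have h3 : (u : ℝ) < (((u * n / x : ℕ) : ℝ) + 1) * x / n := by
      rw [lt_div_iff₀ hn']
      have := (div_lt_iff₀ hx').1 h1
      linarith
    have h4 : (((u * n / x : ℕ) : ℝ) + 1) * x / n = ((u * n / x : ℕ) : ℝ) * x / n + x / n := by ring
    rw [h4] at h3
    linarith

/-- the geometric grid -/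
lemma grid_y {n y : ℕ} (hn : 4 ≤ n) (hy : 1 ≤ y) :
    ∃ j : ℕ, (j : ℝ) ≤ n * Real.log y ∧ ⌊Real.exp (j / n)⌋₊ ≤ y ∧
      (y : ℝ) < ((⌊Real.exp (j / n)⌋₊ : ℝ) + 1) * (1 + 2 / n) := by
  have hn' : (0 : ℝ) < n := by
    have : 0 < n := by omega
    exact_mod_cast this
  have hn4 : (4 : ℝ) ≤ n := by exact_mod_cast hn
  have hy' : (0 : ℝ) < y := by exact_mod_cast hy
  have hly : 0 ≤ Real.log y := Real.log_nonneg (by exact_mod_cast hy)
  refine ⟨⌊n * Real.log y⌋₊, Nat.floor_le (by positivity), ?_, ?_⟩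
  · have h1 : Real.exp ((⌊n * Real.log y⌋₊ : ℝ) / n) ≤ y := by
      rw [← Real.le_log_iff_exp_le hy', div_le_iff₀ hn', mul_comm]
      exact Nat.floor_le (by positivity)
    exact Nat.floor_le_of_le h1
  · have h1 : (y : ℝ) < Real.exp (((⌊n * Real.log y⌋₊ : ℝ) + 1) / n) := by
      rw [← Real.log_lt_iff_lt_exp hy', lt_div_iff₀ hn', mul_comm]
      exact Nat.lt_floor_add_one _
    have h2 : Real.exp (((⌊n * Real.log y⌋₊ : ℝ) + 1) / n) =
        Real.exp ((⌊n * Real.log y⌋₊ : ℝ) / n) * Real.exp (1 / n) := by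
      rw [← Real.exp_add]; congr 1; ring
    have h3 : Real.exp (1 / (n : ℝ)) ≤ 1 + 2 / n := by
      have h4 : |1 / (n : ℝ)| ≤ 1 := by
        rw [abs_of_nonneg (by positivity), div_le_one hn']; linarith
      have h5 := Real.abs_exp_sub_one_le h4
      rw [abs_of_nonneg (by positivity : (0 : ℝ) ≤ 1 / n)] at h5
      have h6 := (le_abs_self _).trans h5
      have h7 : 2 * (1 / (n : ℝ)) = 2 / n := by ring
      linarith
    have h4 := Nat.lt_floor_add_one (Real.exp ((⌊n * Real.log y⌋₊ : ℝ) / n))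
    rw [h2] at h1
    refine h1.trans_le ?_
    exact mul_le_mul h4.le h3 (Real.exp_pos _).le (by positivity)

lemma exists_Jw {Y : ℝ} (hY : 2 ≤ Y) : ∃ Jw : ℕ, Y ≤ ((2 ^ 2 ^ Jw : ℕ) : ℝ) ∧ ((2 ^ 2 ^ Jw : ℕ) : ℝ) ≤ Y ^ 2 := by
  classical
  have hex : ∃ J : ℕ, Y ≤ ((2 ^ 2 ^ J : ℕ) : ℝ) := by
    obtain ⟨n, hn⟩ := exists_nat_ge Y
    refine ⟨n, hn.trans ?_⟩
    have h1 : n ≤ 2 ^ 2 ^ n := (Nat.lt_two_pow_self).le.trans
      (Nat.pow_le_pow_right (by norm_num) (Nat.lt_two_pow_self).le)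
    exact_mod_cast h1
  obtain ⟨J, hJ1, hJ2⟩ : ∃ J : ℕ, Y ≤ ((2 ^ 2 ^ J : ℕ) : ℝ) ∧
      ∀ m < J, ¬ Y ≤ ((2 ^ 2 ^ m : ℕ) : ℝ) :=
    ⟨Nat.find hex, Nat.find_spec hex, fun m hm => Nat.find_min hex hm⟩
  refine ⟨J, hJ1, ?_⟩
  rcases Nat.eq_zero_or_pos J with h0 | h0
  · rw [h0]
    norm_num
    nlinarith
  · have h1 := hJ2 (J - 1) (by omega)
    push Not at h1
    have h2 : (2 ^ 2 ^ J : ℕ) = (2 ^ 2 ^ (J - 1)) ^ 2 := by
      rw [← pow_mul, ← pow_succ]
      congr 2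
      omega
    rw [h2]
    push_cast at h1 ⊢
    have h3 : (0 : ℝ) ≤ 2 ^ 2 ^ (J - 1) := by positivity
    exact pow_le_pow_left₀ h3 h1.le 2

end Pool.Agent.N792.XEa
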