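import Mathlib
import Pool.Agent.N792.QA
import Pool.Agent.N792.QD
import Pool.Agent.N792.QR1
import Pool.Agent.N792.QR2
import Pool.Agent.N792.QS2
import Pool.Agent.N792.RX1
import Pool.Agent.N792.RX8
import Pool.Agent.N792.RXE

/-!
The products of two primes, for almost all `c ≤ C`, `C ≥ x^(1/2+ε)` (helper792).
-/

set_option autoImplicit false

namespace Pool.Agent.N792

theorem te2 (a : ℤ) (ha : 0 < a) (b : ℤ) : XE a b :=
  xe a ha b q1 q4 (r1 a ha b) (r2 a ha b) x1s (s2 a ha b) (x8 a ha b)

end Pool.Agent.N792
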