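import Mathlib
import Pool.Agent.N792.TE2s
import Pool.Agent.N792.LamB

/-!
The number of the values which are products of two primes (helper792).
-/

set_option autoImplicit false

namespace Pool.Agent.N792

open Finset Filter Topology

open Classical in
/-- the number of the `u < m ≤ v` for which `a m² + b m + c = p q` with primes `p`, `q`, `y1 < p ≤ y2` -/
noncomputable def twoC (a b c : ℤ) (u v y1 y2 : ℕ) : ℕ :=
  #((Ioc u v).filter (fun m : ℕ => ∃ p q : ℕ, p.Prime ∧ q.Prime ∧ y1 < p ∧ p ≤ y2 ∧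
    a * (m : ℤ) ^ 2 + b * m + c = (p : ℤ) * q))

lemma cnt2_eq (a b c : ℤ) (u v y1 y2 : ℕ) (h : ∀ m ∈ Ioc u v, ((y2 ^ 2 : ℕ) : ℤ) < fv a b c m) :
    cnt2 a b c u v y1 y2 = twoC a b c u v y1 y2 := by
  classical
  unfold cnt2 twoC
  apply card_bij (fun t _ => t.1)
  · rintro ⟨m, p⟩ ht
    simp only [mem_filter, mem_product, mem_Ioc] at ht
    obtain ⟨⟨⟨h1, h2⟩, h3, h4⟩, h5, h6, h7⟩ := ht
    have hpos := h m (mem_Ioc.2 ⟨h1, h2⟩)
    rw [mem_filter, mem_Ioc]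
    refine ⟨⟨h1, h2⟩, p, (fv a b c m).toNat / p, h5, h7, h3, h4, ?_⟩
    have e1 : p * ((fv a b c m).toNat / p) = (fv a b c m).toNat := Nat.mul_div_cancel' h6
    have e2 : ((fv a b c m).toNat : ℤ) = fv a b c m := Int.toNat_of_nonneg (by
      have : (0 : ℤ) ≤ ((y2 ^ 2 : ℕ) : ℤ) := Int.natCast_nonneg _
      linarith)
    have e3 : ((p * ((fv a b c m).toNat / p) : ℕ) : ℤ) = ((fv a b c m).toNat : ℤ) := by rw [e1]
    rw [e2] at e3
    rw [Nat.cast_mul] at e3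
    rw [e3]
    rfl
  · rintro ⟨m, p⟩ ht ⟨m', p'⟩ ht' hmm
    simp only at hmm
    subst hmm
    simp only [mem_filter, mem_product, mem_Ioc] at ht ht'
    obtain ⟨⟨⟨h1, h2⟩, h3, h4⟩, h5, h6, h7⟩ := ht
    obtain ⟨⟨_, h3', h4'⟩, h5', h6', h7'⟩ := ht'
    have hpos := h m (mem_Ioc.2 ⟨h1, h2⟩)
    have e2 : ((fv a b c m).toNat : ℤ) = fv a b c m := Int.toNat_of_nonneg (by
      have : (0 : ℤ) ≤ ((y2 ^ 2 : ℕ) : ℤ) := Int.natCast_nonneg _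
      linarith)
    have hN : y2 ^ 2 < (fv a b c m).toNat := by
      rw [← e2] at hpos
      exact_mod_cast hpos
    have e1 : p * ((fv a b c m).toNat / p) = (fv a b c m).toNat := Nat.mul_div_cancel' h6
    congr 1
    by_contra hne
    have hd : p' ∣ (fv a b c m).toNat / p := by
      rw [← e1] at h6'
      rcases (Nat.Prime.dvd_mul h5').1 h6' with h | h
      · exact absurd ((Nat.prime_dvd_prime_iff_eq h5' h5).1 h).symm hne
      · exact h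
    have he := (Nat.prime_dvd_prime_iff_eq h5' h7).1 hd
    rw [← he] at e1
    have : p * p' ≤ y2 * y2 := Nat.mul_le_mul h4 h4'
    have : y2 * y2 = y2 ^ 2 := by ring
    omega
  · intro m hm
    rw [mem_filter, mem_Ioc] at hm
    obtain ⟨⟨h1, h2⟩, p, q, hp, hq, h3, h4, h5⟩ := hm
    have e1 : (fv a b c m).toNat = p * q := by
      unfold fv
      rw [h5]
      exact_mod_cast Int.toNat_natCast (p * q)
    refine ⟨(m, p), ?_, rfl⟩
    simp only [mem_filter, mem_product, mem_Ioc]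
    refine ⟨⟨⟨h1, h2⟩, h3, h4⟩, hp, ?_, ?_⟩
    · rw [e1]; exact dvd_mul_right p q
    · rw [e1, Nat.mul_div_cancel_left q hp.pos]; exact hq

/-- **products of two primes** -/
theorem te2_m (a : ℤ) (ha : 0 < a) (b : ℤ) (ε : ℝ) (hε : 0 < ε) (R A : ℕ) : ∃ x0 : ℕ, ∀ x : ℕ, x0 ≤ x → ∀ C : ℕ,
    (x : ℝ) ^ (1 / 2 + ε) ≤ C → C ≤ x →
    ∃ Ex ⊆ Icc 1 C, (#Ex : ℝ) ≤ C / Real.log x ^ A ∧ ∀ c ∈ Icc 1 C, c ∉ Ex → Admissible a b c →
      ∃ S : ℝ, 0 < S ∧ Tendsto (fun y => partialC a b c y) atTop (𝓝 S) ∧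
        ∀ u v y1 y2 : ℕ, x ≤ R * u → u ≤ v → v ≤ x → (x : ℝ) ^ (3 / 2 + ε) ≤ C * y1 → y1 ≤ y2 →
          (y2 : ℝ) ≤ (x : ℝ) ^ (1 - ε) →
          |(twoC a b c u v y1 y2 : ℝ) - eps a b * S * gcdProd a b * ∑ m ∈ Ioc u v, ∑ p ∈ (Ioc y1 y2).filter Nat.Prime,
            1 / ((p : ℝ) * Real.log (((a : ℝ) * m ^ 2 + b * m + c) / p))| ≤ x / Real.log x ^ A := by
  obtain ⟨x0, hx0⟩ := te2 a ha b ε R A hε
  obtain ⟨c0, B, hc0, hB, X0, hX0⟩ := Lam.range_bd a ha b R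
  obtain ⟨x1, hx1⟩ := eventually_atTop.1 (Lam.pow_ev (2 / c0) (2 - 2 * ε) 2 (by linarith))
  refine ⟨max (max x0 X0) (max x1 1), fun x hx C hC1 hC2 => ?_⟩
  obtain ⟨Ex, hE1, hE2, hE3⟩ := hx0 x (by omega) C hC1 hC2
  refine ⟨Ex, hE1, hE2, fun c hc hcE hadm => ?_⟩
  obtain ⟨S, hS0, hSt, hb⟩ := hE3 c hc hcE hadm
  refine ⟨S, hS0, hSt, fun u v y1 y2 hxu huv hvx hy1 hy12 hy2 => ?_⟩
  have hb' := hb u v y1 y2 hxu huv hvx hy1 hy12 hy2
  rw [cnt2_eq] at hb'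
  · exact hb'
  · intro m hm
    rw [mem_Ioc] at hm
    obtain ⟨r1, r2, r3⟩ := hX0 x (by omega) u (by omega) hxu
    have hxr : (1 : ℝ) ≤ x := by exact_mod_cast (by omega : 1 ≤ x)
    have hxp : (0 : ℝ) < x := by linarith
    have h1 := hx1 x (by omega)
    have x2 : (x : ℝ) ^ (2 : ℝ) = (x : ℝ) ^ 2 := by norm_cast
    rw [x2, div_mul_eq_mul_div, div_le_iff₀ hc0] at h1
    have h2 : ((y2 ^ 2 : ℕ) : ℝ) ≤ (x : ℝ) ^ (2 - 2 * ε) := by
      push_cast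
      calc (y2 : ℝ) ^ 2 ≤ ((x : ℝ) ^ (1 - ε)) ^ 2 := pow_le_pow_left₀ (Nat.cast_nonneg _) hy2 2
        _ = (x : ℝ) ^ (2 - 2 * ε) := by
          rw [← Real.rpow_natCast, ← Real.rpow_mul hxp.le]; congr 1; push_cast; ring
    have h3 : ((y2 ^ 2 : ℕ) : ℝ) < (Fn a b u : ℕ) := by
      have : 0 < (x : ℝ) ^ (2 - 2 * ε) := Real.rpow_pos_of_pos hxp _
      linarith
    have h4 : y2 ^ 2 < Fn a b u := by exact_mod_cast h3
    rw [Mtm.fv_eq ha (by omega)]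
    have h5 := Mtm.Fn_mono ha r1 hm.1.le
    exact_mod_cast (by omega : y2 ^ 2 < Fn a b m + c)

end Pool.Agent.N792
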