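import Mathlib
import Pool.Agent.N792.T9

/-!
The lower bound for the numbers `P_a(N)` (helper792).
-/

set_option autoImplicit false

namespace Pool.Agent.N792

open Finset Filter Topology

/-- upper bound for the logarithmic integral -/
lemma li_upper (η : ℝ) (hη : 0 < η) : ∀ᶠ N : ℕ in atTop,
    ∫ t in (2 : ℝ)..(N : ℝ), 1 / Real.log t ≤ (1 + η) * (N / Real.log N) := by
  obtain ⟨δ, hδ⟩ : ∃ δ : ℝ, δ = min (1 / 4) (η / 4) := ⟨_, rfl⟩
  have hδ0 : 0 < δ := by rw [hδ]; positivity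
  have hδ1 : δ ≤ 1 / 4 := by rw [hδ]; exact min_le_left _ _
  have hδ2 : δ ≤ η / 4 := by rw [hδ]; exact min_le_right _ _
  have hl2 : 0 < Real.log 2 := Real.log_pos (by norm_num)
  filter_upwards [Shp.log_pow_le 1 (1 / (δ * Real.log 2)) δ hδ0, Shp.log_pow_le 0 2 (1 - δ) (by linarith),
    Shp.log_ge 1, eventually_ge_atTop 2] with N h1 h2 h3 h4
  rw [pow_one] at h1
  rw [pow_zero, mul_one] at h2
  have hN : (2 : ℝ) ≤ N := by exact_mod_cast h4
  have hN0 : (0 : ℝ) < N := by linarith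
  obtain ⟨y, hy⟩ : ∃ y : ℝ, y = (N : ℝ) ^ (1 - δ) := ⟨_, rfl⟩
  rw [← hy] at h2
  have hyN : y ≤ N := by
    rw [hy]
    calc (N : ℝ) ^ (1 - δ) ≤ (N : ℝ) ^ (1 : ℝ) := Real.rpow_le_rpow_of_exponent_le (by linarith) (by linarith)
      _ = N := Real.rpow_one _
  have hint : ∀ u v : ℝ, 2 ≤ u → u ≤ v → IntervalIntegrable (fun t => 1 / Real.log t) MeasureTheory.volume u v := by
    intro u v hu huv
    apply ContinuousOn.intervalIntegrable
    rw [Set.uIcc_of_le huv]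
    apply ContinuousOn.div continuousOn_const
    · apply Real.continuousOn_log.mono
      intro t ht
      rw [Set.mem_Icc] at ht
      simp only [Set.mem_compl_iff, Set.mem_singleton_iff]
      linarith
    · intro t ht
      rw [Set.mem_Icc] at ht
      exact (Real.log_pos (by linarith)).ne'
  rw [← intervalIntegral.integral_add_adjacent_intervals (hint 2 y le_rfl h2) (hint y N h2 hyN)]
  have i1 : ∫ t in (2 : ℝ)..y, 1 / Real.log t ≤ y / Real.log 2 := by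
    have h := intervalIntegral.norm_integral_le_of_norm_le_const (a := (2 : ℝ)) (b := y)
      (f := fun t => 1 / Real.log t) (C := 1 / Real.log 2) (by
        intro t ht
        rw [Set.uIoc_of_le h2] at ht
        have h3 : Real.log 2 ≤ Real.log t := Real.log_le_log (by norm_num) ht.1.le
        rw [Real.norm_eq_abs, abs_of_pos (by
          have : 0 < Real.log t := by linarith
          positivity)]
        exact one_div_le_one_div_of_le hl2 h3)
    rw [Real.norm_eq_abs, abs_of_nonneg (by linarith : 0 ≤ y - 2)] at h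
    refine (le_abs_self _).trans (h.trans ?_)
    calc 1 / Real.log 2 * (y - 2) ≤ 1 / Real.log 2 * y := mul_le_mul_of_nonneg_left (by linarith) (by positivity)
      _ = y / Real.log 2 := by ring
  obtain ⟨L, hL⟩ : ∃ L : ℝ, L = Real.log N := ⟨_, rfl⟩
  rw [← hL] at h1 h3 ⊢
  have hL0 : 0 < L := by linarith
  have i2 : ∫ t in y..(N : ℝ), 1 / Real.log t ≤ N / ((1 - δ) * L) := by
    have hly : Real.log y = (1 - δ) * L := by rw [hy, Real.log_rpow hN0, hL]
    have h := intervalIntegral.norm_integral_le_of_norm_le_const (a := y) (b := (N : ℝ))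
      (f := fun t => 1 / Real.log t) (C := 1 / ((1 - δ) * L)) (by
        intro t ht
        rw [Set.uIoc_of_le hyN] at ht
        have h3 : Real.log y ≤ Real.log t := Real.log_le_log (by linarith) ht.1.le
        rw [hly] at h3
        have h5 : 0 < (1 - δ) * L := mul_pos (by linarith) hL0
        rw [Real.norm_eq_abs, abs_of_pos (by
          have : 0 < Real.log t := by linarith
          positivity)]
        exact one_div_le_one_div_of_le h5 h3)
    rw [Real.norm_eq_abs, abs_of_nonneg (by linarith : 0 ≤ N - y)] at h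
    refine (le_abs_self _).trans (h.trans ?_)
    have h5 : 0 < (1 - δ) * L := mul_pos (by linarith) hL0
    calc 1 / ((1 - δ) * L) * (N - y) ≤ 1 / ((1 - δ) * L) * N :=
          mul_le_mul_of_nonneg_left (by linarith) (by positivity)
      _ = N / ((1 - δ) * L) := by ring
  have i3 : y / Real.log 2 ≤ δ * (N / L) := by
    have e1 : (N : ℝ) = y * (N : ℝ) ^ δ := by
      rw [hy, ← Real.rpow_add hN0]
      ring_nf
      rw [Real.rpow_one]
    have h5 : L ≤ δ * Real.log 2 * (N : ℝ) ^ δ := by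
      rw [div_mul_eq_mul_div, one_mul, div_le_iff₀ (by positivity)] at h1
      linarith
    rw [div_le_iff₀ hl2]
    have h6 : δ * (N / L) * Real.log 2 = y * (δ * Real.log 2 * (N : ℝ) ^ δ) / L := by
      nth_rw 1 [e1]
      ring
    rw [h6, le_div_iff₀ hL0]
    exact mul_le_mul_of_nonneg_left h5 (by linarith)
  have i4 : (N : ℝ) / ((1 - δ) * L) ≤ (1 + 2 * δ) * (N / L) := by
    have h5 : 0 < (1 - δ) * L := mul_pos (by linarith) hL0
    rw [div_le_iff₀ h5]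
    have h6 : (1 + 2 * δ) * (N / L) * ((1 - δ) * L) = (1 + 2 * δ) * (1 - δ) * N := by field_simp
    rw [h6]
    have h7 : 1 ≤ (1 + 2 * δ) * (1 - δ) := by nlinarith
    nlinarith
  have h8 : 0 ≤ (N : ℝ) / L := by positivity
  have h9 : δ * (N / L) + (1 + 2 * δ) * (N / L) ≤ (1 + η) * (N / L) := by
    have : (1 + 3 * δ) * (N / L) ≤ (1 + η) * (N / L) := mul_le_mul_of_nonneg_right (by linarith) h8
    linarith
  linarith

lemma adm_one (c : ℕ) (hc : 1 ≤ c) : Admissible 1 0 (c : ℤ) := by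
  refine ⟨one_pos, fun d hd _ _ => isUnit_of_dvd_one hd, ?_, ?_⟩
  · rintro ⟨h, _⟩
    omega
  · rintro ⟨r, hr⟩
    have h1 : (0 : ℤ) < c := by exact_mod_cast hc
    nlinarith [mul_self_nonneg r]

lemma partialC_one (c : ℤ) (z : ℕ) : partialC 1 0 c z =
    ∏ w ∈ (range (z + 1)).filter (fun w => Nat.Prime w ∧ w ≠ 2), (1 - (jacobiSym (-c) w : ℝ) / ((w : ℝ) - 1)) := by
  unfold partialC
  have hs : (Icc 3 z).filter (fun p : ℕ => p.Prime ∧ ¬ (p : ℤ) ∣ 1) =
      (range (z + 1)).filter (fun w => Nat.Prime w ∧ w ≠ 2) := by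
    ext p
    simp only [mem_filter, mem_Icc, mem_range]
    constructor
    · rintro ⟨⟨h1, h2⟩, h3, h4⟩
      exact ⟨by omega, h3, by omega⟩
    · rintro ⟨h1, h2, h3⟩
      have := h2.two_le
      refine ⟨⟨by omega, by omega⟩, h2, ?_⟩
      intro h
      have h5 : (p : ℤ).natAbs ∣ 1 := by
        have := Int.natAbs_dvd_natAbs.2 h
        simpa using this
      rw [Int.natAbs_natCast] at h5
      have := Nat.le_of_dvd one_pos h5
      omega
  rw [hs]
  apply prod_congr rfl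
  intro p hp
  rw [mem_filter] at hp
  have hp2 : p.Coprime 2 := (Nat.coprime_primes hp.2.1 Nat.prime_two).2 hp.2.2
  have h4 : jacobiSym ((0 : ℤ) ^ 2 - 4 * 1 * c) p = jacobiSym (-c) p := by
    have e1 : (0 : ℤ) ^ 2 - 4 * 1 * c = 2 ^ 2 * (-c) := by ring
    rw [e1, jacobiSym.mul_left, jacobiSym.sq_one', one_mul]
    have : Int.gcd (2 : ℤ) (p : ℤ) = Nat.gcd 2 p := rfl
    rw [this]
    exact hp2.symm
  rw [h4]

/-- **the lower bound for `P_a(N)` for almost all `a ≤ A`, `N^(7/10+ε) ≤ A ≤ N`** -/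
theorem t9_page (ε η : ℝ) (hε : 0 < ε) (hη : 0 < η) : ∃ N0 : ℕ, ∀ N : ℕ, N0 ≤ N → ∀ A : ℕ,
    (N : ℝ) ^ (7 / 10 + ε) ≤ A → A ≤ N → ∃ Ex ⊆ Icc 1 A, (#Ex : ℝ) ≤ η * A ∧ ∀ a ∈ Icc 1 A, a ∉ Ex →
      ∃ h : ℝ, 0 < h ∧ Tendsto (fun X : ℕ => ∏ w ∈ (range (X + 1)).filter (fun w => Nat.Prime w ∧ w ≠ 2),
          (1 - (jacobiSym (-(a : ℤ)) w : ℝ) / ((w : ℝ) - 1))) atTop (𝓝 h) ∧
        (3 / 4 - η) * (1 / 2 * h * ∫ t in (2 : ℝ)..(N : ℝ), 1 / Real.log t) ≤
          (#((Icc 1 N).filter (fun n : ℕ => Nat.Prime ((n : ℤ) ^ 2 + a).natAbs)) : ℝ) := by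
  obtain ⟨θ, hθ⟩ : ∃ θ : ℝ, θ = min (η / 8) (1 / 32) := ⟨_, rfl⟩
  have hθ0 : 0 < θ := by rw [hθ]; positivity
  have hθ1 : θ ≤ η / 8 := by rw [hθ]; exact min_le_left _ _
  have hθ2 : θ ≤ 1 / 32 := by rw [hθ]; exact min_le_right _ _
  obtain ⟨x0, hx0⟩ := t9 1 one_pos 0 ε θ hε hθ0
  obtain ⟨x1, hx1⟩ := li_asym 1 one_pos 0 θ hθ0
  obtain ⟨x2, hx2⟩ := eventually_atTop.1 (li_upper θ hθ0)
  obtain ⟨x3, hx3⟩ := eventually_atTop.1 (Shp.log_ge 1)
  refine ⟨max (max x0 x1) (max (max x2 x3) 2), fun N hN A hA1 hA2 => ?_⟩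
  obtain ⟨Ex, hE1, hE2, hE3⟩ := hx0 N (by omega) A hA1 hA2
  refine ⟨Ex, hE1, hE2.trans (mul_le_mul_of_nonneg_right (by linarith) (Nat.cast_nonneg _)), fun a ha haE => ?_⟩
  have haI := mem_Icc.1 ha
  obtain ⟨S, hS0, hSt, hb⟩ := hE3 a ha haE (adm_one a haI.1)
  have hSt' : Tendsto (fun X : ℕ => ∏ w ∈ (range (X + 1)).filter (fun w => Nat.Prime w ∧ w ≠ 2),
          (1 - (jacobiSym (-(a : ℤ)) w : ℝ) / ((w : ℝ) - 1))) atTop (𝓝 S) := by
    refine hSt.congr fun X => ?_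
    exact partialC_one a X
  refine ⟨S, hS0, hSt', ?_⟩
  have k1 := hb 0 N (Nat.zero_le _) le_rfl
  have k2 := (abs_le.1 (hx1 N (by omega) a (mem_Icc.2 ⟨haI.1, haI.2.trans hA2⟩) 0 N (Nat.zero_le _) le_rfl)).1
  have k3 := hx2 N (by omega)
  have k4 := hx3 N (by omega)
  have he : eps 1 0 = 1 := by unfold eps; norm_num
  have hg : gcdProd 1 0 = 1 := by unfold gcdProd; simp
  have hP : (#((Ioc 0 N).filter (fun m : ℕ => (fv 1 0 a m).toNat.Prime)) : ℝ) =
      (#((Icc 1 N).filter (fun n : ℕ => Nat.Prime ((n : ℤ) ^ 2 + a).natAbs)) : ℝ) := by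
    congr 2
    ext m
    have e1 : (fv 1 0 (a : ℤ) m).toNat = ((m : ℤ) ^ 2 + a).natAbs := by
      unfold fv
      have : (0 : ℤ) ≤ (m : ℤ) ^ 2 + a := by positivity
      have e2 : 1 * (m : ℤ) ^ 2 + 0 * m + a = (m : ℤ) ^ 2 + a := by ring
      rw [e2]
      omega
    simp only [mem_filter, mem_Ioc, mem_Icc, e1]
    constructor
    · rintro ⟨⟨h1, h2⟩, h3⟩
      exact ⟨⟨by omega, h2⟩, h3⟩
    · rintro ⟨⟨h1, h2⟩, h3⟩
      exact ⟨⟨by omega, h2⟩, h3⟩
  rw [hP, he, hg, one_mul, mul_one] at k1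
  obtain ⟨Sg, hSg⟩ : ∃ Sg : ℝ, Sg = ∑ m ∈ Ioc 0 N, 1 / Real.log (((1 : ℤ) : ℝ) * m ^ 2 + ((0 : ℤ) : ℝ) * m + (a : ℝ)) := ⟨_, rfl⟩
  have k2' : -(θ * (N / Real.log N)) ≤ Sg - ((N : ℝ) - (0 : ℕ)) / (2 * Real.log N) := by
    rw [hSg]
    exact_mod_cast k2
  have k1' : 3 / 4 * (S * Sg) - θ * (S * N / Real.log N) ≤
      (#((Icc 1 N).filter (fun n : ℕ => Nat.Prime ((n : ℤ) ^ 2 + a).natAbs)) : ℝ) := by
    rw [hSg]
    exact_mod_cast k1
  refine le_trans ?_ k1'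
  obtain ⟨X, hX⟩ : ∃ X : ℝ, X = (N : ℝ) / Real.log N := ⟨_, rfl⟩
  have hX0 : 0 < X := by
    rw [hX]
    have : (0 : ℝ) < N := by exact_mod_cast (by omega : 0 < N)
    have : 0 < Real.log N := by linarith
    positivity
  have e1 : ((N : ℝ) - (0 : ℕ)) / (2 * Real.log N) = X / 2 := by
    rw [hX]
    push_cast
    have : Real.log N ≠ 0 := by linarith
    field_simp
    ring
  have e2 : S * N / Real.log N = S * X := by rw [hX]; ring
  rw [e1, ← hX] at k2'
  rw [← hX] at k3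
  rw [e2]
  obtain ⟨I, hI⟩ : ∃ I : ℝ, I = ∫ t in (2 : ℝ)..(N : ℝ), 1 / Real.log t := ⟨_, rfl⟩
  have hI0 : 0 ≤ I := by
    rw [hI]
    apply intervalIntegral.integral_nonneg
    · exact_mod_cast (by omega : 2 ≤ N)
    · intro t ht
      rw [Set.mem_Icc] at ht
      have := Real.log_nonneg (by linarith : (1 : ℝ) ≤ t)
      positivity
  rw [← hI] at k3 ⊢
  have m1 : S * (X / 2 - θ * X) ≤ S * Sg := mul_le_mul_of_nonneg_left (by linarith) hS0.le
  have m2 : 0 < S * X := by positivity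
  rcases le_or_gt (3 / 4 : ℝ) η with h | h
  · have m3 : (3 / 4 - η) * (1 / 2 * S * I) ≤ 0 := by
      apply mul_nonpos_of_nonpos_of_nonneg (by linarith)
      positivity
    have m4 : θ * (S * X) ≤ 1 / 32 * (S * X) := mul_le_mul_of_nonneg_right hθ2 m2.le
    nlinarith
  · have m3 : (3 / 4 - η) * (1 / 2 * S * I) ≤ (3 / 4 - η) * (1 / 2 * S * ((1 + θ) * X)) := by
      apply mul_le_mul_of_nonneg_left _ (by linarith)
      exact mul_le_mul_of_nonneg_left k3 (by positivity)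
    have m4 : (3 / 4 - η) * (1 / 2 * S * ((1 + θ) * X)) = (3 / 8 - η / 2) * (1 + θ) * (S * X) := by ring
    have m5 : (3 / 8 - η / 2) * (1 + θ) ≤ 3 / 8 - η / 2 + 3 / 8 * θ := by nlinarith
    have m6 : (3 / 8 - η / 2) * (1 + θ) * (S * X) ≤ (3 / 8 - η / 2 + 3 / 8 * θ) * (S * X) :=
      mul_le_mul_of_nonneg_right m5 m2.le
    have m7 : θ * (S * X) ≤ η / 8 * (S * X) := mul_le_mul_of_nonneg_right hθ1 m2.le
    nlinarith

end Pool.Agent.N792
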