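import Mathlib
import Pool.Agent.N792.T9P

/-!
The lower bound for the numbers `P_a(N)`, all intervals (helper792).
-/

set_option autoImplicit false

namespace Pool.Agent.N792

open Finset Filter Topology

/-- upper bound for the logarithmic integral over an interval -/
lemma li_upper2 (η : ℝ) (hη : 0 < η) : ∀ᶠ N : ℕ in atTop, ∀ u v : ℕ, 2 ≤ u → u ≤ v → v ≤ N →
    ∫ t in (u : ℝ)..(v : ℝ), 1 / Real.log t ≤ ((v : ℝ) - u) / Real.log N + η * (N / Real.log N) := by
  obtain ⟨δ, hδ⟩ : ∃ δ : ℝ, δ = min (1 / 4) (η / 4) := ⟨_, rfl⟩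
  have hδ0 : 0 < δ := by rw [hδ]; positivity
  have hδ1 : δ ≤ 1 / 4 := by rw [hδ]; exact min_le_left _ _
  have hδ2 : δ ≤ η / 4 := by rw [hδ]; exact min_le_right _ _
  have hl2 : 0 < Real.log 2 := Real.log_pos (by norm_num)
  filter_upwards [Shp.log_pow_le 1 (1 / (δ * Real.log 2)) δ hδ0, Shp.log_pow_le 0 2 (1 - δ) (by linarith),
    Shp.log_ge 1, eventually_ge_atTop 2] with N h1 h2 h3 h4
  intro u v hu huv hvN
  rw [pow_one] at h1
  rw [pow_zero, mul_one] at h2
  have hN : (2 : ℝ) ≤ N := by exact_mod_cast h4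
  have hN0 : (0 : ℝ) < N := by linarith
  obtain ⟨y, hy⟩ : ∃ y : ℝ, y = (N : ℝ) ^ (1 - δ) := ⟨_, rfl⟩
  rw [← hy] at h2
  have hu' : (2 : ℝ) ≤ u := by exact_mod_cast hu
  have huv' : (u : ℝ) ≤ v := by exact_mod_cast huv
  have hvN' : (v : ℝ) ≤ N := by exact_mod_cast hvN
  obtain ⟨L, hL⟩ : ∃ L : ℝ, L = Real.log N := ⟨_, rfl⟩
  rw [← hL] at h1 h3 ⊢
  have hL0 : 0 < L := by linarith
  have h5 : 0 < (1 - δ) * L := mul_pos (by linarith) hL0
  have hly : Real.log y = (1 - δ) * L := by rw [hy, Real.log_rpow hN0, hL]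
  have hint : ∀ u v : ℝ, 2 ≤ u → u ≤ v → IntervalIntegrable (fun t => 1 / Real.log t) MeasureTheory.volume u v := by
    intro u v hu huv
    apply ContinuousOn.intervalIntegrable
    rw [Set.uIcc_of_le huv]
    apply ContinuousOn.div continuousOn_const
    · apply Real.continuousOn_log.mono
      intro t ht
      rw [Set.mem_Icc] at ht
      simp only [Set.mem_compl_iff, Set.mem_singleton_iff]
      linarith
    · intro t ht
      rw [Set.mem_Icc] at ht
      exact (Real.log_pos (by linarith)).ne'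
  -- short bounds
  have s1 : ∀ a b : ℝ, 2 ≤ a → a ≤ b → ∫ t in a..b, 1 / Real.log t ≤ (b - a) / Real.log 2 := by
    intro a b ha hab
    have h := intervalIntegral.norm_integral_le_of_norm_le_const (a := a) (b := b)
      (f := fun t => 1 / Real.log t) (C := 1 / Real.log 2) (by
        intro t ht
        rw [Set.uIoc_of_le hab] at ht
        have h3 : Real.log 2 ≤ Real.log t := Real.log_le_log (by norm_num) (by linarith [ht.1])
        rw [Real.norm_eq_abs, abs_of_pos (by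
          have : 0 < Real.log t := by linarith
          positivity)]
        exact one_div_le_one_div_of_le hl2 h3)
    rw [Real.norm_eq_abs, abs_of_nonneg (by linarith : 0 ≤ b - a)] at h
    refine (le_abs_self _).trans (h.trans (le_of_eq ?_))
    ring
  have s2 : ∀ a b : ℝ, y ≤ a → a ≤ b → ∫ t in a..b, 1 / Real.log t ≤ (b - a) / ((1 - δ) * L) := by
    intro a b ha hab
    have h := intervalIntegral.norm_integral_le_of_norm_le_const (a := a) (b := b)
      (f := fun t => 1 / Real.log t) (C := 1 / ((1 - δ) * L)) (by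
        intro t ht
        rw [Set.uIoc_of_le hab] at ht
        have h3 : Real.log y ≤ Real.log t := Real.log_le_log (by linarith) (by linarith [ht.1])
        rw [hly] at h3
        rw [Real.norm_eq_abs, abs_of_pos (by
          have : 0 < Real.log t := by linarith
          positivity)]
        exact one_div_le_one_div_of_le h5 h3)
    rw [Real.norm_eq_abs, abs_of_nonneg (by linarith : 0 ≤ b - a)] at h
    refine (le_abs_self _).trans (h.trans (le_of_eq ?_))
    ring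
  have i3 : y / Real.log 2 ≤ δ * (N / L) := by
    have e1 : (N : ℝ) = y * (N : ℝ) ^ δ := by
      rw [hy, ← Real.rpow_add hN0]
      ring_nf
      rw [Real.rpow_one]
    have h5 : L ≤ δ * Real.log 2 * (N : ℝ) ^ δ := by
      rw [div_mul_eq_mul_div, one_mul, div_le_iff₀ (by positivity)] at h1
      linarith
    rw [div_le_iff₀ hl2]
    have h6 : δ * (N / L) * Real.log 2 = y * (δ * Real.log 2 * (N : ℝ) ^ δ) / L := by
      nth_rw 1 [e1]
      ring
    rw [h6, le_div_iff₀ hL0]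
    exact mul_le_mul_of_nonneg_left h5 (by linarith)
  have i4 : ∀ w : ℝ, 0 ≤ w → w ≤ N → w / ((1 - δ) * L) ≤ w / L + 2 * δ * (N / L) := by
    intro w hw hwN
    rw [div_le_iff₀ h5]
    have h6 : (w / L + 2 * δ * (N / L)) * ((1 - δ) * L) = (w + 2 * δ * N) * (1 - δ) := by field_simp
    rw [h6]
    have h7 : δ * w ≤ δ * N := mul_le_mul_of_nonneg_left hwN hδ0.le
    have h8 : δ * δ * N ≤ 1 / 4 * δ * N := by gcongr
    nlinarith
  have h8 : 0 ≤ (N : ℝ) / L := by positivity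
  have h9 : δ * (N / L) + 2 * δ * (N / L) ≤ η * (N / L) := by
    have : 3 * δ * (N / L) ≤ η * (N / L) := mul_le_mul_of_nonneg_right (by linarith) h8
    linarith
  rcases le_total (v : ℝ) y with hvy | hvy
  · have k1 := s1 u v hu' huv'
    have k2 : ((v : ℝ) - u) / Real.log 2 ≤ y / Real.log 2 := div_le_div_of_nonneg_right (by linarith) hl2.le
    have k3 : 0 ≤ ((v : ℝ) - u) / L := div_nonneg (by linarith) hL0.le
    have k4 : 0 ≤ 2 * δ * (N / L) := by positivity
    linarith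
  rcases le_total y (u : ℝ) with huy | huy
  · have k1 := s2 u v huy huv'
    have k2 := i4 ((v : ℝ) - u) (by linarith) (by linarith)
    have k4 : 0 ≤ δ * (N / L) := by positivity
    linarith
  · rw [← intervalIntegral.integral_add_adjacent_intervals (hint u y hu' huy) (hint y v h2 hvy)]
    have k1 := s1 u y hu' huy
    have k2 : (y - u) / Real.log 2 ≤ y / Real.log 2 := div_le_div_of_nonneg_right (by linarith) hl2.le
    have k3 := s2 y v le_rfl hvy
    have k4 := i4 (v - y) (by linarith) (by linarith)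
    have k5 : ((v : ℝ) - y) / L ≤ (v - u) / L := div_le_div_of_nonneg_right (by linarith) hL0.le
    linarith

/-- lower bound for the logarithmic integral -/
lemma li_lower : ∀ᶠ N : ℕ in atTop, (N : ℝ) / Real.log N ≤ 2 * ∫ t in (2 : ℝ)..(N : ℝ), 1 / Real.log t := by
  filter_upwards [eventually_ge_atTop 4] with N hN
  have hN4 : (4 : ℝ) ≤ N := by exact_mod_cast hN
  have hL0 : 0 < Real.log N := Real.log_pos (by linarith)
  have h2 : (2 : ℝ) ≤ N := by linarith
  have hint : IntervalIntegrable (fun t => 1 / Real.log t) MeasureTheory.volume 2 N := by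
    apply ContinuousOn.intervalIntegrable
    rw [Set.uIcc_of_le h2]
    apply ContinuousOn.div continuousOn_const
    · apply Real.continuousOn_log.mono
      intro t ht
      rw [Set.mem_Icc] at ht
      simp only [Set.mem_compl_iff, Set.mem_singleton_iff]
      linarith
    · intro t ht
      rw [Set.mem_Icc] at ht
      exact (Real.log_pos (by linarith)).ne'
  have h := intervalIntegral.integral_mono_on h2 (intervalIntegrable_const (c := 1 / Real.log N)) hint (by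
    intro t ht
    rw [Set.mem_Icc] at ht
    exact one_div_le_one_div_of_le (Real.log_pos (by linarith)) (Real.log_le_log (by linarith) ht.2))
  rw [intervalIntegral.integral_const, smul_eq_mul] at h
  have e1 : (N : ℝ) / Real.log N ≤ 2 * ((N - 2) * (1 / Real.log N)) := by
    rw [mul_one_div, mul_div_assoc', div_le_div_iff_of_pos_right hL0]
    linarith
  linarith

/-- **the lower bound for `P_a` in intervals, for almost all `a ≤ A`, `N^(7/10+ε) ≤ A ≤ N`** -/
theorem t9_int (ε η : ℝ) (hε : 0 < ε) (hη : 0 < η) : ∃ N0 : ℕ, ∀ N : ℕ, N0 ≤ N → ∀ A : ℕ,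
    (N : ℝ) ^ (7 / 10 + ε) ≤ A → A ≤ N → ∃ Ex ⊆ Icc 1 A, (#Ex : ℝ) ≤ η * A ∧ ∀ a ∈ Icc 1 A, a ∉ Ex →
      ∃ h : ℝ, 0 < h ∧ Tendsto (fun X : ℕ => ∏ w ∈ (range (X + 1)).filter (fun w => Nat.Prime w ∧ w ≠ 2),
          (1 - (jacobiSym (-(a : ℤ)) w : ℝ) / ((w : ℝ) - 1))) atTop (𝓝 h) ∧
        ∀ u v : ℕ, 2 ≤ u → u ≤ v → v ≤ N →
          3 / 4 * (1 / 2 * h * ∫ t in (u : ℝ)..(v : ℝ), 1 / Real.log t) -
            η * (1 / 2 * h * ∫ t in (2 : ℝ)..(N : ℝ), 1 / Real.log t) ≤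
          (#((Ioc u v).filter (fun n : ℕ => Nat.Prime ((n : ℤ) ^ 2 + a).natAbs)) : ℝ) := by
  obtain ⟨θ, hθ⟩ : ∃ θ : ℝ, θ = η / 16 := ⟨_, rfl⟩
  have hθ0 : 0 < θ := by rw [hθ]; positivity
  obtain ⟨x0, hx0⟩ := t9 1 one_pos 0 ε θ hε hθ0
  obtain ⟨x1, hx1⟩ := li_asym 1 one_pos 0 θ hθ0
  obtain ⟨x2, hx2⟩ := eventually_atTop.1 (li_upper2 θ hθ0)
  obtain ⟨x3, hx3⟩ := eventually_atTop.1 (Shp.log_ge 1)
  obtain ⟨x4, hx4⟩ := eventually_atTop.1 li_lower
  refine ⟨max (max x0 x1) (max (max x2 x3) (max x4 2)), fun N hN A hA1 hA2 => ?_⟩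
  obtain ⟨Ex, hE1, hE2, hE3⟩ := hx0 N (by omega) A hA1 hA2
  refine ⟨Ex, hE1, hE2.trans (mul_le_mul_of_nonneg_right (by linarith) (Nat.cast_nonneg _)), fun a ha haE => ?_⟩
  have haI := mem_Icc.1 ha
  obtain ⟨S, hS0, hSt, hb⟩ := hE3 a ha haE (adm_one a haI.1)
  have hSt' : Tendsto (fun X : ℕ => ∏ w ∈ (range (X + 1)).filter (fun w => Nat.Prime w ∧ w ≠ 2),
          (1 - (jacobiSym (-(a : ℤ)) w : ℝ) / ((w : ℝ) - 1))) atTop (𝓝 S) := by
    refine hSt.congr fun X => ?_
    exact partialC_one a X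
  refine ⟨S, hS0, hSt', fun u v hu huv hvN => ?_⟩
  have k1 := hb u v huv hvN
  have k2 := (abs_le.1 (hx1 N (by omega) a (mem_Icc.2 ⟨haI.1, haI.2.trans hA2⟩) u v huv hvN)).1
  have k3 := hx2 N (by omega) u v hu huv hvN
  have k4 := hx3 N (by omega)
  have k5 := hx4 N (by omega)
  have he : eps 1 0 = 1 := by unfold eps; norm_num
  have hg : gcdProd 1 0 = 1 := by unfold gcdProd; simp
  have hP : (#((Ioc u v).filter (fun m : ℕ => (fv 1 0 a m).toNat.Prime)) : ℝ) =
      (#((Ioc u v).filter (fun n : ℕ => Nat.Prime ((n : ℤ) ^ 2 + a).natAbs)) : ℝ) := by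
    congr 2
    apply filter_congr
    intro m _
    have e1 : (fv 1 0 (a : ℤ) m).toNat = ((m : ℤ) ^ 2 + a).natAbs := by
      unfold fv
      have : (0 : ℤ) ≤ (m : ℤ) ^ 2 + a := by positivity
      have e2 : 1 * (m : ℤ) ^ 2 + 0 * m + a = (m : ℤ) ^ 2 + a := by ring
      rw [e2]
      omega
    rw [e1]
  rw [hP, he, hg, one_mul, mul_one] at k1
  obtain ⟨Sg, hSg⟩ : ∃ Sg : ℝ, Sg = ∑ m ∈ Ioc u v, 1 / Real.log (((1 : ℤ) : ℝ) * m ^ 2 + ((0 : ℤ) : ℝ) * m + (a : ℝ)) := ⟨_, rfl⟩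
  have k2' : -(θ * (N / Real.log N)) ≤ Sg - ((v : ℝ) - u) / (2 * Real.log N) := by
    rw [hSg]
    exact_mod_cast k2
  have k1' : 3 / 4 * (S * Sg) - θ * (S * N / Real.log N) ≤
      (#((Ioc u v).filter (fun n : ℕ => Nat.Prime ((n : ℤ) ^ 2 + a).natAbs)) : ℝ) := by
    rw [hSg]
    exact_mod_cast k1
  refine le_trans ?_ k1'
  obtain ⟨X, hX⟩ : ∃ X : ℝ, X = (N : ℝ) / Real.log N := ⟨_, rfl⟩
  obtain ⟨D, hD⟩ : ∃ D : ℝ, D = ((v : ℝ) - u) / Real.log N := ⟨_, rfl⟩
  have hL0 : 0 < Real.log N := by linarith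
  have hX0 : 0 < X := by
    rw [hX]
    have : (0 : ℝ) < N := by exact_mod_cast (by omega : 0 < N)
    positivity
  have e1 : ((v : ℝ) - u) / (2 * Real.log N) = D / 2 := by rw [hD]; field_simp
  have e2 : S * N / Real.log N = S * X := by rw [hX]; ring
  rw [e1, ← hX] at k2'
  rw [← hX, ← hD] at k3
  rw [← hX] at k5
  rw [e2]
  obtain ⟨I, hI⟩ : ∃ I : ℝ, I = ∫ t in (2 : ℝ)..(N : ℝ), 1 / Real.log t := ⟨_, rfl⟩
  obtain ⟨I1, hI1⟩ : ∃ I1 : ℝ, I1 = ∫ t in (u : ℝ)..(v : ℝ), 1 / Real.log t := ⟨_, rfl⟩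
  rw [← hI] at k5 ⊢
  rw [← hI1] at k3 ⊢
  have m1 : S * (D / 2 - θ * X) ≤ S * Sg := mul_le_mul_of_nonneg_left (by linarith) hS0.le
  have m2 : S * I1 ≤ S * (D + θ * X) := mul_le_mul_of_nonneg_left k3 hS0.le
  have m3 : θ * (S * X) ≤ θ * (S * (2 * I)) := by gcongr
  have m4 : θ * (S * (2 * I)) = η / 8 * (S * I) := by rw [hθ]; ring
  have m5 : 0 ≤ η * (S * I) := by
    have : 0 ≤ I := by linarith
    positivity
  nlinarith

end Pool.Agent.N792
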