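import Mathlib
import Pool.Agent.N792.Fin0
import Pool.Agent.N792.Pow

/-!
The Hardy-Littlewood formula for almost all `c`, from the formula for the von Mangoldt function
(helper124 for helper792, subtask 117).
-/

set_option autoImplicit false

namespace Pool.Agent.N792

open Finset Filter Topology ArithmeticFunction

theorem hl_of_lam (a : ℤ) (ha : 0 < a) (b : ℤ) (hlam : LamP a b) (η : ℝ) (hη : 0 < η) :
    ∃ δ : ℝ, 0 < δ ∧ ∃ x0 : ℕ, ∀ x : ℕ, x0 ≤ x → ∀ C : ℕ, (x : ℝ) ^ (1 - δ) ≤ C → C ≤ x →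
      ∃ Ex ⊆ Icc 1 C, (#Ex : ℝ) ≤ η * C ∧ ∀ c ∈ Icc 1 C, c ∉ Ex → Admissible a b c →
        ∃ S : ℝ, 0 < S ∧ Tendsto (fun z => partialC a b c z) atTop (𝓝 S) ∧
          ∀ u v : ℕ, u ≤ v → v ≤ x →
            |(#((Ioc u v).filter (fun m : ℕ => (fv a b c m).toNat.Prime)) : ℝ) -
                eps a b * S * gcdProd a b * ∑ m ∈ Ioc u v, 1 / Real.log ((a : ℝ) * m ^ 2 + b * m + c)| ≤
              η * (eps a b * S * gcdProd a b * x / Real.log x) :=
  hl_of_lam_pow a ha b hlam (pow_avg a ha b) η hη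

end Pool.Agent.N792
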