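import Mathlib
import Pool.Agent.N792.FinC
import Pool.Agent.N792.Asm2
import Pool.Agent.N792.SingP
import Pool.Agent.N792.SingT
import Pool.Agent.N792.Sma
import Pool.Agent.N792.Lia

/-!
Final assembly for all `x^(9/10) ≤ C ≤ x` (from `FinC.lean` of helper124).
-/

set_option autoImplicit false

namespace Pool.Agent.N792.Fn124

open Finset Filter Topology Pool.Agent.N792
open ArithmeticFunction (vonMangoldt)

/-- the statement for one `η` -/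
def ConclQ (a b : ℤ) (η : ℝ) : Prop :=
    ∃ x0 : ℕ, ∀ x : ℕ, x0 ≤ x → ∀ C : ℕ, (x : ℝ) ^ (9 / 10 : ℝ) ≤ C → C ≤ x →
    ∃ Ex ⊆ Icc 1 C, (#Ex : ℝ) ≤ η * C ∧ ∀ c ∈ Icc 1 C, c ∉ Ex → Admissible a b c →
      ∃ S : ℝ, 0 < S ∧ Tendsto (fun z => partialC a b c z) atTop (𝓝 S) ∧ ∀ u v : ℕ, u ≤ v → v ≤ x →
        |(#((Ioc u v).filter (fun m : ℕ => (fv a b c m).toNat.Prime)) : ℝ) -
          eps a b * S * gcdProd a b * ∑ m ∈ Ioc u v, 1 / Real.log ((a : ℝ) * m ^ 2 + b * m + c)| ≤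
        η * (eps a b * S * gcdProd a b * x / Real.log x)

theorem conclQ_small (a : ℤ) (ha : 0 < a) (b : ℤ) (hlam : LamQ a b) (hSP : HSP a b) (hST : HST a b)
    (hPA : HPA a b) (hSA : HSA a b) (hLI : HLI a b) (η : ℝ) (hη : 0 < η) (hη1 : η ≤ 1 / 10) :
    ConclQ a b η := by
  classical
  obtain ⟨As, hlam⟩ := hlam
  obtain ⟨C6, hC6, xSA, hSA⟩ := hSA
  obtain ⟨E, hE⟩ : ∃ E : ℕ, E = 2 * max As 18 := ⟨_, rfl⟩
  obtain ⟨θ, hθ, xSP, hSP⟩ := hSP (η / 8) (by positivity) E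
  obtain ⟨β, hβ⟩ : ∃ β : ℝ, β = η / 200 := ⟨_, rfl⟩
  have hβ0 : 0 < β := by rw [hβ]; positivity
  have hβ1 : β ≤ 1 / 2 := by rw [hβ]; linarith
  have hβη : 23 * β ≤ η := by rw [hβ]; linarith
  obtain ⟨lam, hl⟩ : ∃ lam : ℝ, lam = β * θ / 4 := ⟨_, rfl⟩
  have hl0 : 0 < lam := by rw [hl]; positivity
  obtain ⟨R, hR⟩ := exists_nat_gt (max 2 (max (4 * C6 / (η * lam)) (1 / β)))
  have hR2 : (2 : ℝ) < R := (le_max_left _ _).trans_lt hR
  have hR3 : 4 * C6 / (η * lam) < R := ((le_max_left _ _).trans (le_max_right _ _)).trans_lt hR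
  have hR4 : 1 / β < R := ((le_max_right _ _).trans (le_max_right _ _)).trans_lt hR
  have hRn : 2 < R := by exact_mod_cast hR2
  have hR0 : (0 : ℝ) < R := by linarith
  have hR5 : 4 * C6 ≤ R * (η * lam) := by
    rw [div_lt_iff₀ (by positivity)] at hR3
    exact hR3.le
  obtain ⟨κ, hκ⟩ : ∃ κ : ℝ, κ = min (β / 2) (η * lam / (8 * R)) := ⟨_, rfl⟩
  have hκ0 : 0 < κ := by rw [hκ]; exact lt_min (by positivity) (by positivity)
  have hκ1 : κ ≤ β / 2 := by rw [hκ]; exact min_le_left _ _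
  have hκ2 : κ ≤ η * lam / (8 * R) := by rw [hκ]; exact min_le_right _ _
  obtain ⟨η1, hη10, hη11, xLam, hlam⟩ := hlam E R κ hκ0
  obtain ⟨xST, hST⟩ := hST 3 E
  obtain ⟨xPA, hPA⟩ := hPA R
  obtain ⟨xLI, hLI⟩ := hLI β hβ0
  obtain ⟨K, hK0, xK, hK⟩ := fv_size a ha b R (by omega)
  obtain ⟨y1, hy1⟩ := evN' _ (Real.tendsto_log_atTop.eventually_ge_atTop
    (2 + K + 2 * K / β + 1 / β + 8 / η + 2 * R))
  obtain ⟨y2, hy2⟩ := evN' _ (ev_pow' E 1 (η1 / 2) (by positivity))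
  obtain ⟨y3, hy3⟩ := evN' _ ((tendsto_rpow_atTop hη10).eventually_ge_atTop 2)
  obtain ⟨y4, hy4⟩ := evN' _ (ev_pow' 3 (8 * R / (lam * η)) (9 / 10) (by norm_num))
  obtain ⟨y5, hy5⟩ := evN' _ (eventually_ge_atTop (max (1 / β) (2 * R + 10)))
  refine ⟨xSA + xSP + xLam + xST + xPA + xLI + xK + y1 + y2 + y3 + y4 + y5 + R + 10, ?_⟩
  intro x hx C hC1 hC2
  have g1 := hy1 x (by omega)
  have g2 := hy2 x (by omega)
  have g3 := hy3 x (by omega)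
  have g4 := hy4 x (by omega)
  have g5 := hy5 x (by omega)
  clear hy1 hy2 hy3 hy4 hy5
  obtain ⟨L, hL⟩ : ∃ L : ℝ, L = Real.log x := ⟨_, rfl⟩
  rw [← hL] at g1 g2 g4
  have hxr : (1 : ℝ) ≤ x := by exact_mod_cast (by omega : 1 ≤ x)
  have hx0 : (0 : ℝ) < x := lt_of_lt_of_le one_pos hxr
  obtain ⟨hL2, hLK, hLK2, hL3, hL3η, hLR⟩ := num_facts hβ0 hη hK0 hR0 g1
  have hL0 : 0 < L := lt_of_lt_of_le two_pos hL2
  -- the size of C
  have hC9 : (x : ℝ) ^ (9 / 10 : ℝ) ≤ C := hC1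
  have hCδ : (x : ℝ) ^ (1 - 1 / 10 : ℝ) ≤ C := by
    refine le_trans (le_of_eq ?_) hC1
    norm_num
  have hC0 : (0 : ℝ) < C := lt_of_lt_of_le (Real.rpow_pos_of_pos hx0 _) hC9
  -- the levels
  obtain ⟨J, Jw, hzlow, hJ1, hwAs, hw1, hw18, hwz, hz5, hzx⟩ :=
    levels (x := x) (As := As) (E := E) (by omega) hL2 hη11 g3 g2 hE
  have hxLam : xLam ≤ x := by omega
  rw [hL] at hw1 hw18 hwAs
  have hlam3 := hlam x hxLam
  clear hlam
  obtain ⟨E1, hE1s, hE1c, hE1⟩ := hST x (by omega) C hC9 hC2 (2 ^ 2 ^ Jw) (2 ^ 2 ^ J) hw18 hw1 hwz hz5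
  obtain ⟨E2, hE2s, hE2c, hE2⟩ := hSP x (by omega) C hC9 hC2 (2 ^ 2 ^ Jw) hw1
  obtain ⟨Gd, hGd⟩ : ∃ Gd : Finset ℕ, Gd = Icc 1 C \ E1 := ⟨_, rfl⟩
  have hGds : Gd ⊆ Icc 1 C := by rw [hGd]; exact sdiff_subset
  have hgrid : ∀ i : ℕ, 1 ≤ i → i < R → xg x R i < x ∧ x ≤ R * xg x R i := by
    intro i hi1 hi2
    refine ⟨xg_lt x R i (by omega) (by omega) hi2, ?_⟩
    refine le_trans ?_ (le_xg x R i (by omega))
    calc x = 1 * x := (one_mul x).symm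
      _ ≤ i * x := Nat.mul_le_mul_right _ hi1
  have hlam2 : ∀ i : ℕ, 1 ≤ i → i < R → ∃ e : ℕ → ℝ, (∀ c, 0 ≤ e c) ∧ ∑ c ∈ Gd, e c ≤ κ * (C * x) ∧ ∀ c ∈ Gd,
      |Lc a b (xg x R i) x c (fun N => rg (2 ^ 2 ^ J) N * vonMangoldt N) -
        Vc a b c (2 ^ 2 ^ Jw) / V1 (2 ^ 2 ^ Jw) * ((x : ℝ) - xg x R i)| ≤
        e c + κ * (Vc a b c (2 ^ 2 ^ Jw) / V1 (2 ^ 2 ^ Jw)) * x := by
    intro i hi1 hi2
    obtain ⟨k1, k2⟩ := hgrid i hi1 hi2
    refine hlam3 (xg x R i) C J Jw k1 k2 hCδ hC2 hzlow hJ1 hwAs hw1 Gd hGds ?_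
    intro c hc
    rw [hGd, Finset.mem_sdiff] at hc
    exact (hE1 c hc.1 hc.2).1
  choose! e he0 he1 he2 using hlam2
  clear hlam3
  obtain ⟨PP, hPP⟩ : ∃ PP : ℕ → ℝ, PP = (fun N : ℕ => if N.Prime then (0 : ℝ) else vonMangoldt N) := ⟨_, rfl⟩
  have hPP0 : ∀ N, 0 ≤ PP N := by
    intro N
    rw [hPP]
    simp only
    split_ifs
    · exact le_rfl
    · exact ArithmeticFunction.vonMangoldt_nonneg
  have hlx : 0 < lam * x := mul_pos hl0 hx0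
  have hE3c := card_bad R (by omega) Gd e (lam * x) (κ * (C * x)) η C hlx hη hC0
    (fun i h1 h2 c _ => he0 i h1 h2 c) he1 (by
      clear * - hκ2 hC0 hx0 hR0 hl0 hη
      calc κ * (C * x) ≤ η * lam / (8 * R) * (C * x) := by gcongr
        _ = _ := by field_simp)
  have hE4c := card_bad R (by omega) (Icc 1 C) (fun i c => Lc a b (xg x R i) x c PP) (lam * x)
    (x * L ^ 3) η C hlx hη hC0 (fun i _ _ c _ => sum_nonneg fun n _ => hPP0 _) (by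
      intro i hi1 hi2
      obtain ⟨m1, m2⟩ := hgrid i hi1 hi2
      have m3 := hPA x (by omega) (xg x R i) C m1 m2 hC2
      rw [← hPP, ← hL] at m3
      exact m3) (by
      have h := g4.trans hC9
      clear * - h hC0 hx0 hR0 hl0 hη
      have m4 : L ^ 3 ≤ lam * η / (8 * R) * C := by
        rw [div_mul_eq_mul_div, div_le_iff₀ (by positivity)] at h
        rw [div_mul_eq_mul_div, le_div_iff₀ (by positivity)]
        linarith
      calc x * L ^ 3 ≤ x * (lam * η / (8 * R) * C) := by gcongr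
        _ = _ := by ring)
  obtain ⟨E3, hE3⟩ : ∃ E3 : Finset ℕ, E3 = (Ico 1 R).biUnion
    (fun i => Gd.filter (fun c => lam * x < e i c)) := ⟨_, rfl⟩
  obtain ⟨E4, hE4⟩ : ∃ E4 : Finset ℕ, E4 = (Ico 1 R).biUnion
    (fun i => (Icc 1 C).filter (fun c => lam * x < Lc a b (xg x R i) x c PP)) := ⟨_, rfl⟩
  obtain ⟨E5, hE5⟩ : ∃ E5 : Finset ℕ, E5 = (Icc 1 C).filter (fun c : ℕ => 4 * lam * x / L <
    (#((Icc 1 (xg x R 1)).filter (fun m : ℕ => (fv a b c m).toNat.Prime)) : ℝ)) := ⟨_, rfl⟩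
  rw [← hE3] at hE3c
  rw [← hE4] at hE4c
  have h2R : 2 * (R : ℝ) ≤ x := by
    have := (le_max_right _ _).trans g5
    clear * - this
    linarith
  have hE5c : (#E5 : ℝ) ≤ η / 8 * C := by
    rw [hE5]
    have k1 := hSA x (by omega) (xg x R 1) C (hgrid 1 le_rfl (by omega)).1.le hC9 hC2
    rw [← hL] at k1
    refine (markov (Icc 1 C) (fun c : ℕ => (#((Icc 1 (xg x R 1)).filter
      (fun m : ℕ => (fv a b c m).toNat.Prime)) : ℝ)) (fun c _ => Nat.cast_nonneg _) (4 * lam * x / L)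
      (by positivity) _ k1).trans ?_
    rw [div_le_iff₀ (by positivity)]
    exact ex5_num hC6 hC0 hx0 hR0 hL0 hl0 hη (xg1_le (by omega)) h2R hLR hL2 hR5
  have hE1c' : (#E1 : ℝ) ≤ η / 8 * C := by
    refine hE1c.trans ?_
    rw [← hL]
    calc (C : ℝ) / L ^ 3 = 1 / L ^ 3 * C := by ring
      _ ≤ η / 8 * C := mul_le_mul_of_nonneg_right hL3η hC0.le
  refine ⟨E1 ∪ E2 ∪ E3 ∪ E4 ∪ E5, ?_, ?_, ?_⟩
  · refine union_subset (union_subset (union_subset (union_subset hE1s hE2s) ?_) ?_) ?_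
    · rw [hE3]
      exact biUnion_subset.2 fun i _ => (filter_subset _ _).trans hGds
    · rw [hE4]
      exact biUnion_subset.2 fun i _ => filter_subset _ _
    · rw [hE5]
      exact filter_subset _ _
  · clear * - hE1c' hE2c hE3c hE4c hE5c hη hC0
    have k1 := card_union_le (E1 ∪ E2 ∪ E3 ∪ E4) E5
    have k2 := card_union_le (E1 ∪ E2 ∪ E3) E4
    have k3 := card_union_le (E1 ∪ E2) E3
    have k4 := card_union_le E1 E2
    have k5 : (#(E1 ∪ E2 ∪ E3 ∪ E4 ∪ E5) : ℝ) ≤ #E1 + #E2 + #E3 + #E4 + #E5 := by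
      exact_mod_cast (by omega)
    have k6 : 0 < η / 8 * C := by positivity
    linarith
  intro c hc hcE hadm
  simp only [mem_union, not_or] at hcE
  obtain ⟨⟨⟨⟨c1, c2⟩, c3⟩, c4⟩, c5⟩ := hcE
  obtain ⟨-, hsing⟩ := hE1 c hc c1
  obtain ⟨S, hS0, hSt, hSS⟩ := hsing hadm
  refine ⟨S, hS0, hSt, ?_⟩
  have hSc := hE2 c hc c2 hadm
  have hcG : c ∈ Gd := by rw [hGd, Finset.mem_sdiff]; exact ⟨hc, c1⟩
  have hcC := mem_Icc.1 hc
  rw [← hL] at hSS ⊢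
  refine one_c (by omega) hRn (by omega) hL hL0 hK0 hθ hβ0 hβ1 hl hSc hκ1 hLK hLK2 hL3
    (grid_num hx0 hR0 hβ0 hR4 ((le_max_left _ _).trans g5)) hβη (z := 2 ^ 2 ^ J) ?_ ?_ ?_ ?_ hSS ?_
  · intro n hnx hxn
    have := hK x (by omega) c n (by omega) hnx hxn
    exact ⟨this.1, lt_of_le_of_lt hzx this.2⟩
  · intro i hi1 hi2
    by_contra hcon
    push Not at hcon
    rw [← hPP] at hcon
    apply c4
    rw [hE4, mem_biUnion]
    exact ⟨i, mem_Ico.2 ⟨hi1, hi2⟩, mem_filter.2 ⟨hc, hcon⟩⟩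
  · intro i hi1 hi2
    have he := he2 i hi1 hi2 c hcG
    have h6 : e i c ≤ lam * x := by
      by_contra hcon
      push Not at hcon
      apply c3
      rw [hE3, mem_biUnion]
      exact ⟨i, mem_Ico.2 ⟨hi1, hi2⟩, mem_filter.2 ⟨hcG, hcon⟩⟩
    exact he.trans (add_le_add_left h6 _)
  · by_contra hcon
    push Not at hcon
    apply c5
    rw [hE5]
    exact mem_filter.2 ⟨hc, hcon⟩
  · intro u v huv hvx
    have hli := hLI x (by omega) c (mem_Icc.2 ⟨hcC.1, hcC.2.trans hC2⟩) u v huv hvx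
    rw [← hL] at hli
    exact hli

theorem conclQ_all (a : ℤ) (ha : 0 < a) (b : ℤ) (hlam : LamQ a b) (hSP : HSP a b) (hST : HST a b)
    (hPA : HPA a b) (hSA : HSA a b) (hLI : HLI a b) (η : ℝ) (hη : 0 < η) : ConclQ a b η := by
  have h0 : 0 < min η (1 / 10) := lt_min hη (by norm_num)
  obtain ⟨x0, h⟩ := conclQ_small a ha b hlam hSP hST hPA hSA hLI (min η (1 / 10)) h0 (min_le_right _ _)
  refine ⟨x0, fun x hx C hC1 hC2 => ?_⟩
  obtain ⟨Ex, h1, h2, h3⟩ := h x hx C hC1 hC2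
  refine ⟨Ex, h1, h2.trans (mul_le_mul_of_nonneg_right (min_le_left _ _) (Nat.cast_nonneg _)), ?_⟩
  intro c hc hcE hadm
  obtain ⟨S, hS, hSt, hb⟩ := h3 c hc hcE hadm
  refine ⟨S, hS, hSt, fun u v huv hvx => ?_⟩
  have h4 := hb u v huv hvx
  refine h4.trans ?_
  have h5 : 0 ≤ eps a b * S * gcdProd a b * x / Real.log x := by
    by_contra hcon
    push Not at hcon
    have h6 : min η (1 / 10) * (eps a b * S * gcdProd a b * x / Real.log x) < 0 :=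
      mul_neg_of_pos_of_neg h0 hcon
    have := abs_nonneg ((#((Ioc u v).filter (fun m : ℕ => (fv a b c m).toNat.Prime)) : ℝ) -
          eps a b * S * gcdProd a b * ∑ m ∈ Ioc u v, 1 / Real.log ((a : ℝ) * m ^ 2 + b * m + c))
    linarith
  exact mul_le_mul_of_nonneg_right (min_le_left _ _) h5

end Pool.Agent.N792.Fn124

namespace Pool.Agent.N792

open Finset Filter Topology ArithmeticFunction

/-- the final theorem, from the formula for the von Mangoldt function -/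
theorem hl_of_lamQ (a : ℤ) (ha : 0 < a) (b : ℤ) (hlam : LamQ a b)
    (hPA : ∀ R : ℕ, ∃ x0 : ℕ, ∀ x : ℕ, x0 ≤ x → ∀ x1 C : ℕ, x1 < x → x ≤ R * x1 → C ≤ x →
      ∑ c ∈ Icc 1 C, Lc a b x1 x c (fun N => if N.Prime then 0 else vonMangoldt N) ≤ x * Real.log x ^ 3)
    (η : ℝ) (hη : 0 < η) :
    ∃ x0 : ℕ, ∀ x : ℕ, x0 ≤ x → ∀ C : ℕ, (x : ℝ) ^ (9 / 10 : ℝ) ≤ C → C ≤ x →
      ∃ Ex ⊆ Icc 1 C, (#Ex : ℝ) ≤ η * C ∧ ∀ c ∈ Icc 1 C, c ∉ Ex → Admissible a b c →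
        ∃ S : ℝ, 0 < S ∧ Tendsto (fun z => partialC a b c z) atTop (𝓝 S) ∧
          ∀ u v : ℕ, u ≤ v → v ≤ x →
            |(#((Ioc u v).filter (fun m : ℕ => (fv a b c m).toNat.Prime)) : ℝ) -
                eps a b * S * gcdProd a b * ∑ m ∈ Ioc u v, 1 / Real.log ((a : ℝ) * m ^ 2 + b * m + c)| ≤
              η * (eps a b * S * gcdProd a b * x / Real.log x) :=
  Fn124.conclQ_all a ha b hlam (sing_pos a ha b) (sing_tail a ha b) hPA (small_avg a ha b)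
    (li_asym a ha b) η hη

end Pool.Agent.N792
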