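import Mathlib
import Pool.Agent.N792.TJ9

/-!
The type II estimate for all `x^(9/10) ≤ C ≤ x` (helper792).
-/

set_option autoImplicit false

namespace Pool.Agent.N792

open Finset Filter Topology
open ArithmeticFunction (moebius vonMangoldt)

/-- **the type II estimate** -/
theorem type_two2 (a : ℤ) (ha : 0 < a) (b : ℤ) (hRH : RHP2 a b) (hSH : SHP2) : TII2 a b := by
  classical
  refine ⟨883, fun E R η ε hη hε hε1 => ?_⟩
  obtain ⟨xA, hcore⟩ := core_bound2 a ha b η ε hη hε hε1 R 49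
  obtain ⟨xB, hsharp⟩ := sharp_H η hη 883 (E + 889)
  obtain ⟨xB2, hsharp2⟩ := hSH η hη 883 (E + 889)
  obtain ⟨xC, hmain⟩ := main_term a ha b ε hε R 4 2 (E + 889)
  obtain ⟨xD, hrho⟩ := hRH η hη
  obtain ⟨xF, hcnt⟩ := rho_count2 a ha b η hη
  have e1 : ∀ᶠ x : ℕ in atTop, (10 ^ 13 : ℝ) ≤ Real.log x := Shp.log_ge _
  have e2 := Shp.beta_sup η hη
  have e3 := Shp.inv_V1_le E
  have e4 := ev_log_pow 1 (E + 889) hη
  have e5 := ev_log_pow 1 (E + 889) (δ := 1) (by norm_num)
  have e6 : ∀ᶠ x : ℕ in atTop, 4 * (R + 1) * (b.natAbs + 1) ≤ x := eventually_ge_atTop _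
  have e7 := ev_log_pow (3 * a) 0 (δ := 1) (by norm_num)
  have e8 := ev_rough_div η hη
  have e9 := ev_log_pow (36 * (√(2 * (a : ℝ)) + 1)) 6 hη
  have e10 := ev_log_pow 18 5 (δ := 1 / 10) (by norm_num)
  obtain ⟨xE, hxE⟩ := eventually_atTop.1 (((((((((e1.and e2).and e3).and e4).and e5).and e6).and e7).and e8).and e9).and e10)
  refine ⟨max (max (max xA (max xB xB2)) (max xC (max xD xF))) (max xE 3), fun x hx x1 C z U y Jw hx1 hR hC1 hC2 hz hzx hU hUy hy hw1 hw2 f g hfg => ?_⟩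
  simp only [max_le_iff] at hx
  obtain ⟨⟨⟨hxA, hxB, hxB2⟩, hxC, hxD, hxF⟩, hxE', hx3⟩ := hx
  obtain ⟨⟨⟨⟨⟨⟨⟨⟨⟨f1, f2⟩, f3⟩, f4⟩, f5⟩, f6⟩, f7⟩, f8⟩, f9⟩, f10⟩ := hxE x hxE'
  rw [pow_zero, mul_one, Real.rpow_one] at f7
  rw [one_mul] at f4 f5
  rw [Real.rpow_one] at f5
  have hxpos : (0 : ℝ) < x := by
    have : 0 < x := by omega
    exact_mod_cast this
  have hx1' : (1 : ℝ) ≤ x := by
    have : 1 ≤ x := by omega
    exact_mod_cast this
  set L := Real.log x with hL
  have hL0 : 0 < L := by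
    have : (0 : ℝ) < 10 ^ 13 := by norm_num
    linarith
  have hL13 : (10 : ℝ) ^ 13 ≤ L := f1
  have hL1 : 1 ≤ L := by
    have : (1 : ℝ) ≤ 10 ^ 13 := by norm_num
    linarith
  set w := 2 ^ 2 ^ Jw with hwdef
  have haR : (1 : ℝ) ≤ a := by exact_mod_cast ha
  have hx1b : 2 * b.natAbs ≤ x1 := by
    by_contra hcon
    push Not at hcon
    have h1 : R * x1 ≤ R * (2 * b.natAbs) := Nat.mul_le_mul_left _ hcon.le
    have h2 : R * (2 * b.natAbs) < 4 * (R + 1) * (b.natAbs + 1) := by nlinarith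
    omega
  obtain ⟨hFx2, hF12⟩ := Fn_bounds ha hx1 hR hx1b
  have hF3 : Fn a b x ≤ x ^ 3 := by
    have : ((Fn a b x : ℕ) : ℝ) ≤ (x : ℝ) ^ 3 := by
      calc ((Fn a b x : ℕ) : ℝ) ≤ 2 * a * x ^ 2 := hFx2
        _ ≤ x * x ^ 2 := mul_le_mul_of_nonneg_right (by linarith) (by positivity)
        _ = _ := by ring
    exact_mod_cast this
  have hyx : y ≤ x := by
    have : (y : ℝ) ≤ x := by
      refine hy.trans ?_
      nth_rw 2 [← Real.rpow_one (x : ℝ)]
      exact Real.rpow_le_rpow_of_exponent_le hx1' (by linarith)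
    exact_mod_cast this
  have hUpos : 0 < U := by
    have : (0 : ℝ) < U := lt_of_lt_of_le (Real.rpow_pos_of_pos hxpos _) hU
    exact_mod_cast this
  have hC0 : (0 : ℝ) < C := lt_of_lt_of_le (Real.rpow_pos_of_pos hxpos _) hC1
  have hzpos : (0 : ℝ) < z := lt_of_lt_of_le (Real.rpow_pos_of_pos hxpos _) hz
  have hz1 : 1 ≤ z := by exact_mod_cast hzpos
  -- the parameters
  obtain ⟨t, ht1, ht2⟩ := exists_pow_two (Y := L ^ 12) (one_le_pow₀ hL1)
  obtain ⟨ts, hts1, hts2⟩ := exists_pow_two (Y := L ^ 888) (one_le_pow₀ hL1)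
  have hLt : L ≤ (2 : ℝ) ^ t := (le_self_pow₀ hL1 (by norm_num)).trans ht1
  have h4t : (2 : ℝ) ^ (4 * t) ≤ L ^ 49 := by
    calc (2 : ℝ) ^ (4 * t) = (2 ^ t) ^ 4 := by rw [← pow_mul]; congr 1; ring
      _ ≤ (2 * L ^ 12) ^ 4 := pow_le_pow_left₀ (by positivity) ht2 4
      _ = 16 * L ^ 48 := by ring
      _ ≤ L * L ^ 48 := mul_le_mul_of_nonneg_right (by linarith) (by positivity)
      _ = L ^ 49 := by ring
  have htsE : (2 : ℝ) ^ ts ≤ L ^ (E + 889) := by
    calc (2 : ℝ) ^ ts ≤ 2 * L ^ 888 := hts2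
      _ ≤ L * L ^ 888 := mul_le_mul_of_nonneg_right (by linarith) (by positivity)
      _ = L ^ 889 := by ring
      _ ≤ L ^ (E + 889) := pow_le_pow_right₀ hL1 (by omega)
  have hwE : ((w : ℕ) : ℝ) ≤ L ^ (E + 889) := hw2.trans (pow_le_pow_right₀ hL1 (by omega))
  -- the coefficients
  have hgcase : g = betU U ∨ (g = (fun _ => 1) ∨ g = gam U ∨ g = (fun k => vonMangoldt k)) := by
    rcases hfg with h | h | h | h
    · right; left; exact h.2
    · left; exact h.2
    · right; right; left; exact h.2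
    · right; right; right; exact h.2
  have hα : ∀ m ∈ Ioc U y, |rg z m * f m| ≤ rg z m * (3 * L) := by
    intro m hm
    rw [mem_Ioc] at hm
    have hm3 : m ≤ x ^ 3 := by
      have : x ≤ x ^ 3 := Nat.le_self_pow (by norm_num) _
      omega
    have hkey : |rg z m * f m| ≤ 3 * L := by
      rcases hfg with h | h | h | h
      · rw [h.1]
        simp only
        rw [abs_mul, abs_neg, abs_of_nonneg (rg_range z m).1]
        have h1 : |betU U m| ≤ L := by
          refine (Vau.betU_abs U m).trans ?_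
          apply Real.log_le_log
          · exact_mod_cast (by omega : 0 < m)
          · exact_mod_cast hm.2.trans hyx
        calc rg z m * |betU U m| ≤ 1 * L := mul_le_mul (rg_range z m).2 h1 (abs_nonneg _) (by norm_num)
          _ ≤ _ := by linarith
      · rw [h.1]
        simp only
        rw [abs_mul, abs_neg, abs_one, mul_one, abs_of_nonneg (rg_range z m).1]
        linarith [(rg_range z m).2]
      · exact f2 z U m hz hm3 f (by right; right; exact h.1)
      · exact f2 z U m hz hm3 f (by right; left; exact h.1)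
    by_cases hr : Rough z m
    · have h1 : rg z m = 1 := by unfold rg; rw [if_pos hr]
      rw [h1, one_mul] at hkey ⊢
      rw [one_mul]
      exact hkey
    · have h1 : rg z m = 0 := by unfold rg; rw [if_neg hr]
      rw [h1]
      simp
  set T := tb (x ^ 3) z g with hT
  have hTb : ∀ k, |T k| ≤ 3 * L := by
    intro k
    rw [hT]
    unfold tb
    split_ifs with hk
    · rcases hgcase with hg1 | hg1
      · rw [hg1, abs_mul, abs_of_nonneg (rg_range z k).1]
        rcases Nat.eq_zero_or_pos k with hk0 | hk0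
        · have : rg z k = 0 := by
            unfold rg
            rw [if_neg (fun h => h.1 hk0)]
          rw [this, zero_mul]
          positivity
        · have h1 : |betU U k| ≤ 3 * L := by
            refine (Vau.betU_abs U k).trans ?_
            have h2 : Real.log k ≤ Real.log ((x : ℝ) ^ 3) := by
              apply Real.log_le_log (by exact_mod_cast hk0)
              exact_mod_cast hk
            rw [Real.log_pow] at h2
            push_cast at h2
            exact h2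
          calc rg z k * |betU U k| ≤ 1 * (3 * L) := mul_le_mul (rg_range z k).2 h1 (abs_nonneg _) (by norm_num)
            _ = _ := one_mul _
      · exact f2 z U k hz hk g hg1
    · rw [abs_zero]; positivity
  have hV1 : 0 < V1 w := Mtm.V1_pos' w
  have hV1L : 1 / V1 w ≤ L := f3 w hw2
  have hsh : ∀ k, |sharp ts w T k| ≤ 3 * L ^ 2 := by
    intro k
    unfold sharp
    rw [abs_div, abs_mul, abs_of_pos hV1, abs_of_nonneg (rg_range w k).1]
    have h1 := Mtm.dens_abs (t := ts) hTb k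
    calc |dens ts T k| * rg w k / V1 w = (|dens ts T k| * rg w k) * (1 / V1 w) := by ring
      _ ≤ (3 * L * 1) * L := by
          apply mul_le_mul _ hV1L (by positivity) (by positivity)
          exact mul_le_mul h1 (rg_range w k).2 (rg_range w k).1 (by positivity)
      _ = _ := by ring
  set B := fun k => T k - sharp ts w T k with hB
  have hBb : ∀ k, |B k| ≤ L ^ 3 := by
    intro k
    calc |T k - sharp ts w T k| ≤ |T k| + |sharp ts w T k| := abs_sub _ _
      _ ≤ 3 * L + 3 * L ^ 2 := add_le_add (hTb k) (hsh k)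
      _ ≤ 6 * L ^ 2 := by nlinarith only [hL1]
      _ ≤ L * L ^ 2 := mul_le_mul_of_nonneg_right (by linarith) (by positivity)
      _ = _ := by ring
  have hxts : 2 ^ ts ≤ x := by
    have : (2 : ℝ) ^ ts ≤ x := htsE.trans f5
    exact_mod_cast this
  have hH : ∀ i v q r : ℕ, x ≤ 2 ^ i → 2 ^ (i + 1) ≤ x ^ 2 → 2 ^ i ≤ v → v ≤ 2 ^ (i + 1) → 1 ≤ q → q ≤ 6 * 10 ^ 7 * 2 ^ (12 * (4 * t)) →
      |∑ k ∈ (Ioc (2 ^ i) v).filter (fun k => k ≡ r [MOD q]), B k| * (2 * (10 ^ 12 * (2 : ℝ) ^ (18 * (4 * t)))) ≤ (2 : ℝ) ^ i := by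
    intro i v q r h1 h2 h3 h4 h5 h6
    have h7 : 2 ^ (i + 1) ≤ x ^ 3 := h2.trans (Nat.pow_le_pow_right (by omega) (by norm_num))
    rw [hB]
    simp only
    rw [hT, sum_tb (hxts.trans h1) h7 h4]
    have hq : (q : ℝ) ≤ L ^ 883 := by
      calc (q : ℝ) ≤ ((6 * 10 ^ 7 * 2 ^ (12 * (4 * t)) : ℕ) : ℝ) := by exact_mod_cast h6
        _ = 6 * 10 ^ 7 * ((2 : ℝ) ^ (4 * t)) ^ 12 := by
            rw [← pow_mul]
            push_cast
            rw [mul_comm (4 * t) 12]
            norm_num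
        _ ≤ L * (L ^ 49) ^ 12 := by
            apply mul_le_mul _ (pow_le_pow_left₀ (by positivity) h4t 12) (by positivity) hL0.le
            refine le_trans ?_ hL13
            norm_num
        _ = L ^ 589 := by ring
        _ ≤ L ^ 883 := pow_le_pow_right₀ hL1 (by norm_num)
    have h8 : |∑ k ∈ (Ioc (2 ^ i) v).filter (fun k => k ≡ r [MOD q]),
        (rg z k * g k - sharp ts w (fun k => rg z k * g k) k)| ≤ (2 : ℝ) ^ i / L ^ 883 := by
      rcases hgcase with hg1 | hg1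
      · rw [hg1]
        exact hsharp2 x hxB2 z U Jw ts i v q r hz hzx hw1 hwE hts1 htsE h1 h7 h5 hq h3 h4
      · exact hsharp x hxB z U Jw ts i v q r hz hzx hw1 hwE hts1 htsE h1 h7 h5 hq h3 h4 g hg1
    have hP : 2 * (10 ^ 12 * (2 : ℝ) ^ (18 * (4 * t))) ≤ L ^ 883 := by
      calc 2 * (10 ^ 12 * (2 : ℝ) ^ (18 * (4 * t))) = (2 * 10 ^ 12) * ((2 : ℝ) ^ (4 * t)) ^ 18 := by
            rw [← pow_mul, mul_comm (4 * t) 18]
            ring
        _ ≤ L * (L ^ 49) ^ 18 := by
            apply mul_le_mul _ (pow_le_pow_left₀ (by positivity) h4t 18) (by positivity) hL0.le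
            refine le_trans ?_ hL13
            norm_num
        _ = L ^ 883 := by ring
    calc |_| * (2 * (10 ^ 12 * (2 : ℝ) ^ (18 * (4 * t)))) ≤ ((2 : ℝ) ^ i / L ^ 883) * L ^ 883 :=
          mul_le_mul h8 hP (by positivity) (by positivity)
      _ = _ := by
          rw [div_mul_cancel₀]
          positivity
  set S := (Ioc U y).filter (fun m => Squarefree m ∧ Rough z m) with hS
  set S' := (Ioc U y).filter (fun m => ¬ Squarefree m ∧ Rough z m) with hS'
  have hSU : S ⊆ Ioc U y := filter_subset _ _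
  have hSx : ∀ m ∈ S, ∑ c ∈ Icc 1 C, (rho a b (c : ℕ) m : ℝ) ≤ 2 * C := by
    intro m hm
    rw [hS, mem_filter, mem_Ioc] at hm
    exact hcnt x hxF C z m hC1 hC2 hz (by omega) hm.2.1 hm.2.2
  obtain ⟨hkU, hI⟩ := hcore x hxA x1 C z U y t S B (L ^ 3) hx1 hR hC1 hC2 hz hU hy hSU
    (fun m hm => (mem_filter.1 hm).2.2) hSx hLt h4t (one_le_pow₀ hL1) hBb hH
  -- the main identity
  set Lm : ℕ → ℝ := fun m => ∑ k ∈ (Icc 1 (Fn a b x)).filter (fun k => Fn a b x1 < m * k ∧ m * k ≤ Fn a b x), T k * hw a (m * k) with hLm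
  have hLs : Ls a b x1 x (fun N => rg z N * ∑ j ∈ N.divisors.filter (fun j => U < j ∧ j ≤ y), f j * g (N / j)) =
      ∑ m ∈ Ioc U y, (rg z m * f m) * Lm m := Ls_conv hF3 f g
  set Sc : ℕ → ℝ := fun c => Vc a b c w / V1 w with hSc
  have hSc0 : ∀ c, 0 ≤ Sc c ∧ Sc c ≤ L := by
    intro c
    obtain ⟨h1, h2⟩ := Mtm.Vc_bd a b c w
    refine ⟨div_nonneg h1 hV1.le, ?_⟩
    calc Sc c = Vc a b c w * (1 / V1 w) := by rw [hSc]; ring
      _ ≤ 1 * L := mul_le_mul h2 hV1L (by positivity) (by norm_num)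
      _ = L := one_mul _
  set al : ℕ → ℝ := fun m => rg z m * f m with hal
  have hal1 : ∀ m ∈ Ioc U y, |al m| ≤ 3 * L := by
    intro m hm
    refine (hα m hm).trans ?_
    exact mul_le_of_le_one_left (by positivity) (rg_range z m).2
  have hdisj : Disjoint S S' := by
    rw [disjoint_left]
    intro m h1 h2
    rw [hS, mem_filter] at h1
    rw [hS', mem_filter] at h2
    exact h2.2.1 h1.2.1
  have hsplit : ∀ F : ℕ → ℝ, ∑ m ∈ Ioc U y, al m * F m = ∑ m ∈ S, al m * F m + ∑ m ∈ S', al m * F m := by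
    intro F
    rw [← sum_union hdisj]
    symm
    apply sum_subset
    · intro m hm
      rw [mem_union, hS, hS', mem_filter, mem_filter] at hm
      rcases hm with hm | hm
      · exact hm.1
      · exact hm.1
    · intro m hm hm2
      have hr : ¬ Rough z m := by
        intro hr
        apply hm2
        rw [mem_union, hS, hS', mem_filter, mem_filter]
        by_cases hq : Squarefree m
        · exact Or.inl ⟨hm, hq, hr⟩
        · exact Or.inr ⟨hm, hq, hr⟩
      have h1 : al m = 0 := by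
        simp only [hal]
        unfold rg
        rw [if_neg hr, zero_mul]
      rw [h1, zero_mul]
  have hLmb : ∀ m ∈ Ioc U y, |Lm m| ≤ 3 * L * (√(2 * a) * x / m) := by
    intro m hm
    have hm' := mem_Ioc.1 hm
    have h2 := Lm_le (a := a) (b := b) (x1 := x1) (x := x) ha (by omega : 1 ≤ m) T (by positivity : 0 ≤ 3 * L) hTb
    have h3 : √((Fn a b x : ℕ) : ℝ) ≤ √(2 * a) * x := by
      have h4 : √((Fn a b x : ℕ) : ℝ) ≤ √(2 * a * x ^ 2) := Real.sqrt_le_sqrt hFx2
      rwa [Real.sqrt_mul (by linarith), Real.sqrt_sq hxpos.le] at h4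
    refine h2.trans ?_
    apply mul_le_mul_of_nonneg_left _ (by positivity)
    exact div_le_div_of_nonneg_right h3 (Nat.cast_nonneg _)
  set hh : ℕ → ℝ := fun m => if m ∈ S then al m * Lm m else 0 with hhh
  have hpoint : ∀ c ∈ Icc 1 C, |Lc a b x1 x c (fun N => rg z N * ∑ j ∈ N.divisors.filter (fun j => U < j ∧ j ≤ y), f j * g (N / j)) -
      Sc c * Ls a b x1 x (fun N => rg z N * ∑ j ∈ N.divisors.filter (fun j => U < j ∧ j ≤ y), f j * g (N / j))| ≤
      3 * L * ∑ m ∈ S, |∑ n ∈ (Ioc x1 x).filter (fun n => m ∣ Fn a b n + c), B ((Fn a b n + c) / m)| +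
      ∑ m ∈ S, 3 * L * ((rho a b (c : ℕ) m : ℝ) * (x / (m * L ^ 4))) +
      L * |∑ m ∈ Ioc U y, hh m * ((rho a b (c : ℕ) m : ℝ) - 1)| +
      (∑ m ∈ S', |al m| * |∑ n ∈ (Ioc x1 x).filter (fun n => m ∣ Fn a b n + c), T ((Fn a b n + c) / m)| +
      ∑ m ∈ S', L * ((3 * L) * (3 * L * (√(2 * a) * x / m)))) := by
    intro c hc
    have hc' := mem_Icc.1 hc
    rw [hLs, Lc_conv (X := x ^ 3) ha (by omega) hc'.1 f g (fun m hm n hn hd =>
      (hkU c hc m hm n hn hd).trans (Nat.pow_le_pow_right (by omega) (by norm_num)))]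
    have hid : ∑ m ∈ Ioc U y, al m * ∑ n ∈ (Ioc x1 x).filter (fun n => m ∣ Fn a b n + c), T ((Fn a b n + c) / m) -
        Sc c * ∑ m ∈ Ioc U y, al m * Lm m =
        ∑ m ∈ S, al m * ∑ n ∈ (Ioc x1 x).filter (fun n => m ∣ Fn a b n + c), B ((Fn a b n + c) / m) +
        ∑ m ∈ S, al m * (∑ n ∈ (Ioc x1 x).filter (fun n => m ∣ Fn a b n + c), sharp ts w T ((Fn a b n + c) / m) -
          Sc c * rho a b (c : ℕ) m * Lm m) +
        Sc c * ∑ m ∈ Ioc U y, hh m * ((rho a b (c : ℕ) m : ℝ) - 1) +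
        (∑ m ∈ S', al m * ∑ n ∈ (Ioc x1 x).filter (fun n => m ∣ Fn a b n + c), T ((Fn a b n + c) / m) -
        ∑ m ∈ S', Sc c * (al m * Lm m)) := by
      have hh1 : ∑ m ∈ Ioc U y, hh m * ((rho a b (c : ℕ) m : ℝ) - 1) = ∑ m ∈ S, (al m * Lm m) * ((rho a b (c : ℕ) m : ℝ) - 1) := by
        rw [← sum_subset hSU]
        · apply sum_congr rfl
          intro m hm
          simp only [hhh]
          rw [if_pos hm]
        · intro m _ hm2
          simp only [hhh]
          rw [if_neg hm2, zero_mul]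
      rw [hh1, hsplit, hsplit, mul_add, mul_sum, mul_sum, mul_sum]
      have h3 : ∑ m ∈ S, al m * ∑ n ∈ (Ioc x1 x).filter (fun n => m ∣ Fn a b n + c), T ((Fn a b n + c) / m) -
          ∑ m ∈ S, Sc c * (al m * Lm m) =
          ∑ m ∈ S, al m * ∑ n ∈ (Ioc x1 x).filter (fun n => m ∣ Fn a b n + c), B ((Fn a b n + c) / m) +
          ∑ m ∈ S, al m * (∑ n ∈ (Ioc x1 x).filter (fun n => m ∣ Fn a b n + c), sharp ts w T ((Fn a b n + c) / m) -
          Sc c * rho a b (c : ℕ) m * Lm m) + ∑ m ∈ S, Sc c * ((al m * Lm m) * ((rho a b (c : ℕ) m : ℝ) - 1)) := by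
        rw [← sum_sub_distrib, ← sum_add_distrib, ← sum_add_distrib]
        apply sum_congr rfl
        intro m _
        have : ∑ n ∈ (Ioc x1 x).filter (fun n => m ∣ Fn a b n + c), B ((Fn a b n + c) / m) =
            ∑ n ∈ (Ioc x1 x).filter (fun n => m ∣ Fn a b n + c), T ((Fn a b n + c) / m) -
            ∑ n ∈ (Ioc x1 x).filter (fun n => m ∣ Fn a b n + c), sharp ts w T ((Fn a b n + c) / m) := by
          rw [← sum_sub_distrib]
        rw [this]
        ring
      linarith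
    have hid' : ∑ m ∈ Ioc U y, (rg z m * f m) * ∑ n ∈ (Ioc x1 x).filter (fun n => m ∣ Fn a b n + c), tb (x ^ 3) z g ((Fn a b n + c) / m) -
        Sc c * ∑ m ∈ Ioc U y, (rg z m * f m) * Lm m =
        ∑ m ∈ Ioc U y, al m * ∑ n ∈ (Ioc x1 x).filter (fun n => m ∣ Fn a b n + c), T ((Fn a b n + c) / m) -
        Sc c * ∑ m ∈ Ioc U y, al m * Lm m := rfl
    rw [hid', hid]
    refine (abs_add_le _ _).trans (add_le_add ((abs_add_le _ _).trans (add_le_add ((abs_add_le _ _).trans (add_le_add ?_ ?_)) ?_)) ?_)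
    · refine (abs_sum_le_sum_abs _ _).trans ?_
      rw [mul_sum]
      apply sum_le_sum
      intro m hm
      rw [abs_mul]
      exact mul_le_mul_of_nonneg_right (hal1 m (hSU hm)) (abs_nonneg _)
    · refine (abs_sum_le_sum_abs _ _).trans ?_
      apply sum_le_sum
      intro m hm
      rw [abs_mul]
      have hm' := mem_Ioc.1 (hSU hm)
      have hr : Rough z m := (mem_filter.1 hm).2.2
      have hrw : Rough w m := by
        refine ⟨hr.1, fun p hp hpd => lt_of_le_of_lt ?_ (hr.2 p hp hpd)⟩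
        have : ((w : ℕ) : ℝ) ≤ z := hwE.trans (f4.trans hz)
        exact_mod_cast this
      have hmt := hmain x hxC x1 c m Jw ts hx1 hR hc'.1 (hc'.2.trans hC2) (by omega) (by
          refine le_trans ?_ hy
          exact_mod_cast hm'.2) hrw hwE (by
          calc L ^ (4 + 2 + 5) ≤ L ^ 888 := pow_le_pow_right₀ hL1 (by norm_num)
            _ ≤ _ := hts1) htsE T (by
          intro k
          calc |T k| ≤ 3 * L := hTb k
            _ ≤ L * L := mul_le_mul_of_nonneg_right (by linarith) hL0.le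
            _ = L ^ 2 := by ring)
      have hfil : (Ioc x1 x).filter (fun n : ℕ => (m : ℤ) ∣ fv a b c n) = (Ioc x1 x).filter (fun n => m ∣ Fn a b n + c) := by
        apply filter_congr
        intro n hn
        rw [mem_Ioc] at hn
        rw [Mtm.fv_eq ha (by omega), Int.natCast_dvd_natCast]
      rw [hfil] at hmt
      have hsum : ∑ n ∈ (Ioc x1 x).filter (fun n => m ∣ Fn a b n + c), sharp ts w T ((fv a b c n).toNat / m) =
          ∑ n ∈ (Ioc x1 x).filter (fun n => m ∣ Fn a b n + c), sharp ts w T ((Fn a b n + c) / m) := by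
        apply sum_congr rfl
        intro n hn
        rw [mem_filter, mem_Ioc] at hn
        rw [Mtm.fv_eq ha (by omega), Int.toNat_natCast]
      rw [hsum] at hmt
      exact mul_le_mul (hal1 m (hSU hm)) hmt (abs_nonneg _) (by positivity)
    · rw [abs_mul, abs_of_nonneg (hSc0 c).1]
      exact mul_le_mul_of_nonneg_right (hSc0 c).2 (abs_nonneg _)
    · refine (abs_sub _ _).trans (add_le_add ?_ ?_)
      · refine (abs_sum_le_sum_abs _ _).trans ?_
        apply sum_le_sum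
        intro m _
        rw [abs_mul]
      · refine (abs_sum_le_sum_abs _ _).trans ?_
        apply sum_le_sum
        intro m hm
        have hmU : m ∈ Ioc U y := (mem_filter.1 hm).1
        rw [abs_mul, abs_mul, abs_of_nonneg (hSc0 c).1]
        apply mul_le_mul (hSc0 c).2 _ (by positivity) hL0.le
        exact mul_le_mul (hal1 m hmU) (hLmb m hmU) (abs_nonneg _) (by positivity)
  refine (sum_le_sum hpoint).trans ?_
  rw [sum_add_distrib, sum_add_distrib, sum_add_distrib, sum_add_distrib, ← mul_sum, ← mul_sum]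
  have hpartI : 3 * L * ∑ c ∈ Icc 1 C, ∑ m ∈ S, |∑ n ∈ (Ioc x1 x).filter (fun n => m ∣ Fn a b n + c), B ((Fn a b n + c) / m)| ≤
      C * x * (3 / L ^ 2) := by
    calc 3 * L * _ ≤ 3 * L * (L ^ 3 * (C * x) * L ^ 6 / 2 ^ t) := mul_le_mul_of_nonneg_left hI (by positivity)
      _ ≤ 3 * L * (L ^ 3 * (C * x) * L ^ 6 / L ^ 12) := by
          apply mul_le_mul_of_nonneg_left _ (by positivity)
          apply div_le_div_of_nonneg_left (by positivity) (by positivity) ht1
      _ = _ := by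
          field_simp
  have hpartII : ∑ c ∈ Icc 1 C, ∑ m ∈ S, 3 * L * ((rho a b (c : ℕ) m : ℝ) * (x / (m * L ^ 4))) ≤ C * x * (12 / L ^ 2) := by
    rw [sum_comm]
    have h1 : ∀ m ∈ S, ∑ c ∈ Icc 1 C, 3 * L * ((rho a b (c : ℕ) m : ℝ) * (x / (m * L ^ 4))) ≤
        (6 * C * x / L ^ 3) * (1 / m) := by
      intro m hm
      have hm' := mem_Ioc.1 (hSU hm)
      have hmpos : (0 : ℝ) < m := by
        have : 0 < m := by omega
        exact_mod_cast this
      have h2 := hSx m hm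
      have h3 : ∑ c ∈ Icc 1 C, 3 * L * ((rho a b (c : ℕ) m : ℝ) * (x / (m * L ^ 4))) =
          (3 * L * (x / (m * L ^ 4))) * ∑ c ∈ Icc 1 C, (rho a b (c : ℕ) m : ℝ) := by
        rw [mul_sum]
        apply sum_congr rfl
        intro c _
        ring
      rw [h3]
      calc (3 * L * (x / (m * L ^ 4))) * ∑ c ∈ Icc 1 C, (rho a b (c : ℕ) m : ℝ) ≤ (3 * L * (x / (m * L ^ 4))) * (2 * C) :=
            mul_le_mul_of_nonneg_left h2 (by positivity)
        _ = _ := by
            field_simp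
            ring
    refine (sum_le_sum h1).trans ?_
    rw [← mul_sum]
    have h2 : ∑ m ∈ S, (1 : ℝ) / m ≤ 1 + L :=
      (sum_le_sum_of_subset_of_nonneg hSU (fun _ _ _ => by positivity)).trans (harm_le hyx U)
    calc (6 * C * x / L ^ 3) * ∑ m ∈ S, (1 : ℝ) / m ≤ (6 * C * x / L ^ 3) * (2 * L) := by
          apply mul_le_mul_of_nonneg_left _ (by positivity)
          linarith
      _ = _ := by
          field_simp
          ring
  have hpartIII : L * ∑ c ∈ Icc 1 C, |∑ m ∈ Ioc U y, hh m * ((rho a b (c : ℕ) m : ℝ) - 1)| ≤ C * x * (1 / L ^ 2) := by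
    have h1 := hrho x hxD C z U y hh hC1 hC2 hz hyx (by
      intro m hm
      simp only [hhh]
      split_ifs with hmS
      · rw [abs_mul]
        calc |al m| * |Lm m| ≤ (rg z m * (3 * L)) * (3 * L * (√(2 * a) * x / m)) :=
              mul_le_mul (hα m hm) (hLmb m hm) (abs_nonneg _) (mul_nonneg (rg_range z m).1 (by positivity))
          _ = _ := by ring
      · rw [abs_zero]
        exact mul_nonneg (rg_range z m).1 (by positivity)) (by
      intro m _ hne
      simp only [hhh, ne_eq, ite_eq_right_iff, Classical.not_imp] at hne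
      exact (mem_filter.1 hne.1).2.1)
    calc L * _ ≤ L * (C * x / L ^ 3) := mul_le_mul_of_nonneg_left h1 hL0.le
      _ = _ := by field_simp
  have hS'3 : ∀ m ∈ S', m ∈ Ioc U y ∧ ¬ Squarefree m ∧ Rough z m := by
    intro m hm
    rw [hS', mem_filter] at hm
    exact hm
  have hxη : (0 : ℝ) < (x : ℝ) ^ η := by positivity
  have hpartIV : ∑ c ∈ Icc 1 C, ∑ m ∈ S', |al m| * |∑ n ∈ (Ioc x1 x).filter (fun n => m ∣ Fn a b n + c), T ((Fn a b n + c) / m)| ≤
      C * x * (1 / L ^ 2) := by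
    have h1 := nonsq_bound (a := a) (b := b) (x1 := x1) (x := x) (C := C) (z := z) (U := U) (y := y) (β := T) (α := al) (B0 := 3 * L) (A0 := 3 * L)
      (D := L) hz1 hyx (by positivity) (by positivity) hTb S' hS'3 (fun m hm => hal1 m (hS'3 m hm).1) hL0.le (by
        intro c hc n hn S0 hS0
        rw [mem_Icc] at hc
        rw [mem_Ioc] at hn
        apply f8 z (Fn a b n + c) hz (by omega) _ S0 hS0
        have h2 : Fn a b n ≤ Fn a b x := Mtm.Fn_mono ha (by omega) hn.2
        have h3 : ((Fn a b n + c : ℕ) : ℝ) ≤ (x : ℝ) ^ 3 := by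
          push_cast
          have h4 : ((Fn a b n : ℕ) : ℝ) ≤ Fn a b x := by exact_mod_cast h2
          have h5 : (c : ℝ) ≤ x := by exact_mod_cast hc.2.trans hC2
          have h6 : (x : ℝ) ≤ a * x ^ 2 := by
            calc (x : ℝ) = 1 * (1 * x) := by ring
              _ ≤ a * (x * x) := mul_le_mul haR (mul_le_mul_of_nonneg_right hx1' hxpos.le) (by positivity) (by linarith)
              _ = _ := by ring
          calc ((Fn a b n : ℕ) : ℝ) + c ≤ 3 * a * x ^ 2 := by linarith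
            _ ≤ x * x ^ 2 := mul_le_mul_of_nonneg_right f7 (by positivity)
            _ = _ := by ring
        exact_mod_cast h3)
    refine h1.trans ?_
    have hsx : ((Nat.sqrt x : ℕ) : ℝ) ≤ C / (x : ℝ) ^ (1 / 10 : ℝ) := by
      rw [le_div_iff₀ (by positivity)]
      have h2 : ((Nat.sqrt x : ℕ) : ℝ) ≤ (x : ℝ) ^ (1 / 2 : ℝ) := by
        rw [← Real.sqrt_eq_rpow]
        exact Real.nat_sqrt_le_real_sqrt
      calc ((Nat.sqrt x : ℕ) : ℝ) * (x : ℝ) ^ (1 / 10 : ℝ) ≤ (x : ℝ) ^ (1 / 2 : ℝ) * (x : ℝ) ^ (1 / 10 : ℝ) :=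
            mul_le_mul_of_nonneg_right h2 (by positivity)
        _ = (x : ℝ) ^ (3 / 5 : ℝ) := by rw [← Real.rpow_add hxpos]; norm_num
        _ ≤ (x : ℝ) ^ (9 / 10 : ℝ) := Real.rpow_le_rpow_of_exponent_le hx1' (by norm_num)
        _ ≤ C := hC1
    have hcz : (C : ℝ) / z ≤ C / (x : ℝ) ^ η := div_le_div_of_nonneg_left hC0.le hxη hz
    have q1 : 9 * L ^ 3 * (C / (x : ℝ) ^ η) ≤ C * (1 / (2 * L ^ 2)) := by
      rw [mul_div_assoc', div_le_iff₀ hxη]
      have h18 : 18 * L ^ 5 ≤ (x : ℝ) ^ η := by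
        refine le_trans ?_ f9
        have h3 : (1 : ℝ) ≤ √(2 * (a : ℝ)) + 1 := by linarith [Real.sqrt_nonneg (2 * (a : ℝ))]
        calc 18 * L ^ 5 ≤ 36 * L ^ 5 := by
              have : 0 < L ^ 5 := by positivity
              linarith
          _ = 36 * 1 * (1 * L ^ 5) := by ring
          _ ≤ 36 * (√(2 * (a : ℝ)) + 1) * (L * L ^ 5) := by gcongr
          _ = _ := by ring
      calc 9 * L ^ 3 * (C : ℝ) = C * (1 / (2 * L ^ 2)) * (18 * L ^ 5) := by field_simp; ring
        _ ≤ C * (1 / (2 * L ^ 2)) * (x : ℝ) ^ η := mul_le_mul_of_nonneg_left h18 (by positivity)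
    have q2 : 9 * L ^ 3 * (C / (x : ℝ) ^ (1 / 10 : ℝ)) ≤ C * (1 / (2 * L ^ 2)) := by
      rw [mul_div_assoc', div_le_iff₀ (by positivity)]
      calc 9 * L ^ 3 * (C : ℝ) = C * (1 / (2 * L ^ 2)) * (18 * L ^ 5) := by field_simp; ring
        _ ≤ C * (1 / (2 * L ^ 2)) * (x : ℝ) ^ (1 / 10 : ℝ) := mul_le_mul_of_nonneg_left f10 (by positivity)
    calc 3 * L * (3 * L) * L * (x * (C / z + Nat.sqrt x)) = x * (9 * L ^ 3 * (C / z) + 9 * L ^ 3 * Nat.sqrt x) := by ring
      _ ≤ x * (9 * L ^ 3 * (C / (x : ℝ) ^ η) + 9 * L ^ 3 * (C / (x : ℝ) ^ (1 / 10 : ℝ))) := by gcongr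
      _ ≤ x * (C * (1 / (2 * L ^ 2)) + C * (1 / (2 * L ^ 2))) := by gcongr
      _ = _ := by
          field_simp
          ring
  have hpartV : ∑ _c ∈ Icc 1 C, ∑ m ∈ S', L * ((3 * L) * (3 * L * (√(2 * a) * x / m))) ≤ C * x * (1 / L ^ 2) := by
    rw [sum_const, Nat.card_Icc, Nat.add_sub_cancel, nsmul_eq_mul]
    have h1 : ∑ m ∈ S', L * ((3 * L) * (3 * L * (√(2 * a) * x / m))) = (9 * L ^ 3 * √(2 * a) * x) * ∑ m ∈ S', (1 : ℝ) / m := by
      rw [mul_sum]
      apply sum_congr rfl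
      intro m _
      ring
    rw [h1]
    have h2 := nonsq_sum hz1 hyx S' hS'3
    have h3 : (1 + L) / z ≤ 2 * L / (x : ℝ) ^ η :=
      div_le_div₀ (by positivity) (by linarith) (by positivity) hz
    have h18 : 18 * L ^ 4 * √(2 * a) * L ^ 2 ≤ (x : ℝ) ^ η := by
      refine le_trans ?_ f9
      have h4 : 0 ≤ √(2 * (a : ℝ)) := Real.sqrt_nonneg _
      calc 18 * L ^ 4 * √(2 * (a : ℝ)) * L ^ 2 = 18 * √(2 * (a : ℝ)) * L ^ 6 := by ring
        _ ≤ 36 * (√(2 * (a : ℝ)) + 1) * L ^ 6 := by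
            apply mul_le_mul_of_nonneg_right _ (by positivity)
            linarith
    have h5 : (9 * L ^ 3 * √(2 * a) * x) * ∑ m ∈ S', (1 : ℝ) / m ≤ x * (1 / L ^ 2) := by
      calc (9 * L ^ 3 * √(2 * a) * x) * ∑ m ∈ S', (1 : ℝ) / m ≤ (9 * L ^ 3 * √(2 * a) * x) * (2 * L / (x : ℝ) ^ η) :=
            mul_le_mul_of_nonneg_left (h2.trans h3) (by positivity)
        _ = x * (1 / L ^ 2) * (18 * L ^ 4 * √(2 * a) * L ^ 2) / (x : ℝ) ^ η := by
            field_simp
            ring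
        _ ≤ x * (1 / L ^ 2) * (x : ℝ) ^ η / (x : ℝ) ^ η := by
            apply div_le_div_of_nonneg_right _ hxη.le
            exact mul_le_mul_of_nonneg_left h18 (by positivity)
        _ = _ := by field_simp
    calc (C : ℝ) * ((9 * L ^ 3 * √(2 * a) * x) * ∑ m ∈ S', (1 : ℝ) / m) ≤ C * (x * (1 / L ^ 2)) :=
          mul_le_mul_of_nonneg_left h5 hC0.le
      _ = _ := by ring
  have hfin : (C : ℝ) * x * (3 / L ^ 2) + C * x * (12 / L ^ 2) + C * x * (1 / L ^ 2) +
      (C * x * (1 / L ^ 2) + C * x * (1 / L ^ 2)) ≤ C * x / L := by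
    have e : (C : ℝ) * x * (3 / L ^ 2) + C * x * (12 / L ^ 2) + C * x * (1 / L ^ 2) +
      (C * x * (1 / L ^ 2) + C * x * (1 / L ^ 2)) = (C * x / L) * (18 / L) := by
      field_simp
      ring
    rw [e]
    have h16 : 18 / L ≤ 1 := by
      rw [div_le_one hL0]
      linarith
    exact mul_le_of_le_one_right (by positivity) h16
  linarith

end Pool.Agent.N792
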