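import Mathlib
import Pool.Agent.N792.FinQ
import Pool.Agent.N792.Lam2
import Pool.Agent.N792.TJA
import Pool.Agent.N792.Rh2
import Pool.Agent.N792.Sh2
import Pool.Agent.N792.Pow
import Pool.Agent.N792.Va2

/-!
The final theorem for all `x^(9/10) ≤ C ≤ x`, from the type I estimate (helper792).
-/

set_option autoImplicit false

namespace Pool.Agent.N792

open Finset Filter Topology

theorem final_of_TI (a : ℤ) (ha : 0 < a) (b : ℤ) (h1 : TI a b) (η : ℝ) (hη : 0 < η) :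
    ∃ x0 : ℕ, ∀ x : ℕ, x0 ≤ x → ∀ C : ℕ, (x : ℝ) ^ (9 / 10 : ℝ) ≤ C → C ≤ x →
      ∃ Ex ⊆ Icc 1 C, (#Ex : ℝ) ≤ η * C ∧ ∀ c ∈ Icc 1 C, c ∉ Ex → Admissible a b c →
        ∃ S : ℝ, 0 < S ∧ Tendsto (fun z => partialC a b c z) atTop (𝓝 S) ∧
          ∀ u v : ℕ, u ≤ v → v ≤ x →
            |(#((Ioc u v).filter (fun m : ℕ => (fv a b c m).toNat.Prime)) : ℝ) -
                eps a b * S * gcdProd a b * ∑ m ∈ Ioc u v, 1 / Real.log ((a : ℝ) * m ^ 2 + b * m + c)| ≤
              η * (eps a b * S * gcdProd a b * x / Real.log x) :=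
  hl_of_lamQ a ha b
    (lam_avg2 a ha b h1
      (type_two2 a ha b (fun η hη => rho_part2 a ha b η hη) (fun η hη A E => sharp_H2 η hη A E))
      (fun z U y N hU hUy hN hN3 hr => vaughan_split2 z U y N hU hUy hN hN3 hr))
    (fun R => pow_avg a ha b R) η hη

end Pool.Agent.N792
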