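import Mathlib
import Pool.Agent.N792.Asm
import Pool.Agent.N792.TH5
import Pool.Agent.N792.TH6

/-!
The mean value over `c` of `∑_{j ≤ U} g_j (ρ_c(j) - 1) / j` (helper368, for helper792).
-/

set_option autoImplicit false

namespace Pool.Agent.N792

open Finset Filter Topology
open ArithmeticFunction (moebius vonMangoldt)

/-- **the average of `ρ_c(j) - 1` in the type I sums** -/
theorem rho_one (a : ℤ) (ha : 0 < a) (b : ℤ) (η : ℝ) (hη : 0 < η) : ∃ x0 : ℕ, ∀ x : ℕ, x0 ≤ x → ∀ C z U : ℕ,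
    (x : ℝ) ^ (9 / 10 : ℝ) ≤ C → C ≤ x → (x : ℝ) ^ η ≤ z → z ≤ x → (U : ℝ) ≤ (x : ℝ) ^ (3 / 4 : ℝ) →
    ∀ g : ℕ → ℝ, (∀ j ≤ U, |g j| ≤ 4 * Real.log x) →
    ∑ c ∈ Icc 1 C, |∑ j ∈ Icc 1 U, rg z j * g j * ((rho a b (c : ℕ) j : ℝ) - 1) / j| ≤ C / Real.log x ^ 3 := by
  classical
  set ν := min η (3 / 20 : ℝ) with hν
  have hν0 : 0 < ν := lt_min hη (by norm_num)
  have e1 : ∀ᶠ x : ℕ in atTop, (200 : ℝ) ≤ Real.log x := Shp.log_ge 200
  have e2 := ev_log_pow (4 * 16 * 27 * 66) 11 hν0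
  have e3 := ev_log_pow (2 * a + 1) 0 hη
  have e4 := ev_log_pow (2 * 3 * 4 * 2) 5 hη
  obtain ⟨x0, hx0⟩ := eventually_atTop.1 (((e1.and e2).and e3).and e4)
  refine ⟨max x0 3, fun x hx C z y hC1 hC2 hz hzx hy g0 hg0 => ?_⟩
  obtain ⟨⟨⟨f1, f2⟩, f3⟩, f4⟩ := hx0 x ((le_max_left _ _).trans hx)
  have hx3 : 3 ≤ x := (le_max_right _ _).trans hx
  rw [pow_zero, mul_one] at f3
  have hxpos : (0 : ℝ) < x := by
    have : 0 < x := by omega
    exact_mod_cast this
  have hx1' : (1 : ℝ) ≤ x := by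
    have : 1 ≤ x := by omega
    exact_mod_cast this
  set L := Real.log x with hL
  have hL0 : 0 < L := by linarith
  have haR : (1 : ℝ) ≤ a := by exact_mod_cast ha
  have hzpos : (0 : ℝ) < z := lt_of_lt_of_le (Real.rpow_pos_of_pos hxpos _) hz
  have hz1 : 1 ≤ z := by exact_mod_cast hzpos
  have hyx : y ≤ x := by
    have : (y : ℝ) ≤ x := by
      refine hy.trans ?_
      nth_rw 2 [← Real.rpow_one (x : ℝ)]
      exact Real.rpow_le_rpow_of_exponent_le hx1' (by norm_num)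
    exact_mod_cast this
  have hC0 : (0 : ℝ) < C := lt_of_lt_of_le (Real.rpow_pos_of_pos hxpos _) hC1
  rcases Nat.eq_zero_or_pos y with hy0 | hy0
  · have : ∀ c ∈ Icc 1 C, |∑ j ∈ Icc 1 y, rg z j * g0 j * ((rho a b (c : ℕ) j : ℝ) - 1) / j| = 0 := by
      intro c _
      rw [hy0, Icc_eq_empty (by omega), sum_empty, abs_zero]
    rw [sum_congr rfl this, sum_const_zero]
    positivity
  set G := 4 * L with hG
  have hG0 : 0 ≤ G := by positivity
  set h : ℕ → ℝ := fun m => rg z m * g0 m / m with hh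
  have hhG : ∀ m ∈ Ioc 0 y, |h m| ≤ rg z m * (G / m) := by
    intro m hm
    rw [mem_Ioc] at hm
    have h1 : (0 : ℝ) < m := by exact_mod_cast hm.1
    simp only [hh]
    rw [abs_div, abs_mul, abs_of_nonneg (rg_range z m).1, abs_of_pos h1, mul_div_assoc]
    apply mul_le_mul_of_nonneg_left _ (rg_range z m).1
    exact div_le_div_of_nonneg_right (hg0 m hm.2) h1.le
  set g : ℕ → ℝ := fun m => if (0 < m ∧ m ≤ y ∧ Squarefree m) then h m else 0 with hg
  have hhr : ∀ m ∈ Ioc 0 y, h m ≠ 0 → Rough z m := by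
    intro m hm hne
    by_contra hcon
    have h1 : rg z m = 0 := by unfold rg; rw [if_neg hcon]
    have h2 := hhG m hm
    rw [h1, zero_mul] at h2
    exact hne (abs_nonpos_iff.1 h2)
  have hhG1 : ∀ m ∈ Ioc 0 y, |h m| ≤ G / m := by
    intro m hm
    refine (hhG m hm).trans ?_
    exact mul_le_of_le_one_left (by positivity) (rg_range z m).2
  have hrav := rho_avg a ha b C y z G g (by
      have h1 : (2 * (a : ℝ)) < z := by linarith
      exact_mod_cast h1) hy0 (by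
      intro m
      simp only [hg]
      split_ifs with hc
      · exact hhG1 m (mem_Ioc.2 ⟨hc.1, hc.2.1⟩)
      · rw [abs_zero]; positivity) (by
      intro m hm
      simp only [hg, ne_eq, ite_eq_right_iff, Classical.not_imp] at hm
      obtain ⟨hc, hne⟩ := hm
      exact ⟨hc.2.2, hhr m (mem_Ioc.2 ⟨hc.1, hc.2.1⟩) hne⟩)
  -- the squarefree part
  set A : ℕ → ℝ := fun c => ∑ m ∈ Icc 1 y, g m * ((rho a b (c : ℕ) m : ℝ) - 1) with hA
  have hxν : (x : ℝ) ^ ν * (x : ℝ) ^ (-ν) = 1 := by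
    rw [← Real.rpow_add hxpos]
    norm_num
  have hcz : 2 * (C : ℝ) / z + 64 * y ≤ 66 * (C * (x : ℝ) ^ (-ν)) := by
    have h1 : 2 * (C : ℝ) / z ≤ 2 * (C * (x : ℝ) ^ (-ν)) := by
      rw [div_le_iff₀ hzpos]
      have h2 : (x : ℝ) ^ ν ≤ z := (Real.rpow_le_rpow_of_exponent_le hx1' (min_le_left _ _)).trans hz
      calc 2 * (C : ℝ) = 2 * (C * ((x : ℝ) ^ ν * (x : ℝ) ^ (-ν))) := by rw [hxν, mul_one]
        _ = 2 * (C * (x : ℝ) ^ (-ν)) * (x : ℝ) ^ ν := by ring
        _ ≤ 2 * (C * (x : ℝ) ^ (-ν)) * z := mul_le_mul_of_nonneg_left h2 (by positivity)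
    have h2 : (y : ℝ) ≤ C * (x : ℝ) ^ (-ν) := by
      calc (y : ℝ) ≤ (x : ℝ) ^ (3 / 4 : ℝ) := hy
        _ = (x : ℝ) ^ (9 / 10 : ℝ) * (x : ℝ) ^ (-(3 / 20 : ℝ)) := by
            rw [← Real.rpow_add hxpos]
            congr 1
            norm_num
        _ ≤ C * (x : ℝ) ^ (-ν) := by
            apply mul_le_mul hC1 _ (by positivity) hC0.le
            apply Real.rpow_le_rpow_of_exponent_le hx1'
            have := min_le_right η (3 / 20 : ℝ)
            linarith
    linarith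
  have hly : 1 + 2 * Real.log y ≤ 3 * L := by
    have h1 : Real.log y ≤ L := Real.log_le_log (by exact_mod_cast hy0) (by exact_mod_cast hyx)
    linarith
  have hly0 : 0 ≤ 1 + 2 * Real.log y := by
    have : 0 ≤ Real.log y := Real.log_nonneg (by exact_mod_cast hy0)
    linarith
  have hAsq : (∑ c ∈ Icc 1 C, |A c|) ^ 2 ≤ (C / (2 * L ^ 3)) ^ 2 := by
    have h1 : (∑ c ∈ Icc 1 C, |A c|) ^ 2 ≤ C * ∑ c ∈ Icc 1 C, (A c) ^ 2 := by
      have h2 := sq_sum_le_card_mul_sum_sq (s := Icc 1 C) (f := fun c => |A c|)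
      simp only [sq_abs, Nat.card_Icc, Nat.add_sub_cancel] at h2
      exact h2
    refine h1.trans ?_
    calc (C : ℝ) * ∑ c ∈ Icc 1 C, (A c) ^ 2 ≤ C * (G ^ 2 * (1 + 2 * Real.log y) ^ 3 * (2 * C / z + 64 * y)) :=
          mul_le_mul_of_nonneg_left hrav hC0.le
      _ ≤ C * (G ^ 2 * (3 * L) ^ 3 * (66 * (C * (x : ℝ) ^ (-ν)))) := by
          apply mul_le_mul_of_nonneg_left _ hC0.le
          apply mul_le_mul _ hcz (by positivity) (by positivity)
          apply mul_le_mul_of_nonneg_left _ (by positivity)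
          exact pow_le_pow_left₀ hly0 hly 3
      _ = (4 * 16 * 27 * 66 * L ^ 11) * (x : ℝ) ^ (-ν) * (C / (2 * L ^ 3)) ^ 2 := by
          rw [hG]
          field_simp
          ring
      _ ≤ ((x : ℝ) ^ ν) * (x : ℝ) ^ (-ν) * (C / (2 * L ^ 3)) ^ 2 := by
          apply mul_le_mul_of_nonneg_right _ (by positivity)
          exact mul_le_mul_of_nonneg_right f2 (by positivity)
      _ = _ := by rw [hxν, one_mul]
  have hA1 : ∑ c ∈ Icc 1 C, |A c| ≤ C / (2 * L ^ 3) :=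
    abs_le_of_sq_le_sq' hAsq (by positivity) |>.2
  -- the other part
  set S := (Ioc 0 y).filter (fun m => ¬ Squarefree m ∧ Rough z m) with hS
  have hIcc : Icc 1 y = Ioc 0 y := by
    ext m
    rw [mem_Icc, mem_Ioc]
    omega
  have hsplit : ∀ c ∈ Icc 1 C, |∑ j ∈ Icc 1 y, rg z j * g0 j * ((rho a b (c : ℕ) j : ℝ) - 1) / j| ≤
      |A c| + ∑ m ∈ S, (G / m) * ((rho a b (c : ℕ) m : ℝ) + 1) := by
    intro c _
    have h0 : ∑ j ∈ Icc 1 y, rg z j * g0 j * ((rho a b (c : ℕ) j : ℝ) - 1) / j =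
        ∑ m ∈ Ioc 0 y, h m * ((rho a b (c : ℕ) m : ℝ) - 1) := by
      rw [hIcc]
      apply sum_congr rfl
      intro m _
      simp only [hh]
      ring
    have h1 : A c = ∑ m ∈ (Ioc 0 y).filter (fun m => Squarefree m), h m * ((rho a b (c : ℕ) m : ℝ) - 1) := by
      simp only [hA, hg]
      rw [sum_filter, hIcc]
      apply sum_congr rfl
      intro m hm
      rw [mem_Ioc] at hm
      by_cases hq : Squarefree m
      · rw [if_pos ⟨hm.1, hm.2, hq⟩, if_pos hq]
      · rw [if_neg (fun h => hq h.2.2), if_neg hq, zero_mul]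
    rw [h0, h1, ← sum_filter_add_sum_filter_not (Ioc 0 y) (fun m => Squarefree m)]
    refine (abs_add_le _ _).trans (add_le_add le_rfl ?_)
    refine (abs_sum_le_sum_abs _ _).trans ?_
    rw [hS, ← filter_filter]
    rw [sum_filter (s := (Ioc 0 y).filter (fun m => ¬ Squarefree m)) (p := fun m => Rough z m)]
    apply sum_le_sum
    intro m hm
    rw [mem_filter] at hm
    have hρ : |(rho a b (c : ℕ) m : ℝ) - 1| ≤ (rho a b (c : ℕ) m : ℝ) + 1 := by
      rw [abs_le]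
      have : (0 : ℝ) ≤ rho a b (c : ℕ) m := Nat.cast_nonneg _
      constructor <;> linarith
    split_ifs with hr
    · rw [abs_mul]
      exact mul_le_mul (hhG1 m hm.1) hρ (abs_nonneg _) (by positivity)
    · have : h m = 0 := by
        by_contra hne
        exact hr (hhr m hm.1 hne)
      rw [this, zero_mul, abs_zero]
  refine (sum_le_sum hsplit).trans ?_
  rw [sum_add_distrib]
  have hB : ∑ c ∈ Icc 1 C, ∑ m ∈ S, (G / m) * ((rho a b (c : ℕ) m : ℝ) + 1) ≤ C / (2 * L ^ 3) := by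
    rw [sum_comm]
    have h1 : ∀ m ∈ S, ∑ c ∈ Icc 1 C, (G / m) * ((rho a b (c : ℕ) m : ℝ) + 1) ≤ (3 * C * G) * (1 / m) := by
      intro m hm
      rw [hS, mem_filter, mem_Ioc] at hm
      have hmC : m ≤ C := by
        have : (m : ℝ) ≤ C := by
          calc (m : ℝ) ≤ y := by exact_mod_cast hm.1.2
            _ ≤ (x : ℝ) ^ (3 / 4 : ℝ) := hy
            _ ≤ (x : ℝ) ^ (9 / 10 : ℝ) := Real.rpow_le_rpow_of_exponent_le hx1' (by norm_num)
            _ ≤ C := hC1
        exact_mod_cast this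
      rw [← mul_sum, sum_add_distrib, sum_const, Nat.card_Icc, Nat.add_sub_cancel, nsmul_eq_mul, mul_one]
      have h2 := rho_sum_c a b (C := C) (m := m) (by omega) hmC
      calc G / m * (∑ c ∈ Icc 1 C, (rho a b (c : ℕ) m : ℝ) + C) ≤ G / m * (2 * C + C) := by
            apply mul_le_mul_of_nonneg_left _ (by positivity)
            linarith
        _ = _ := by ring
    refine (sum_le_sum h1).trans ?_
    rw [← mul_sum]
    have h2 := nonsq_sum (z := z) (U := 0) (y := y) (x := x) hz1 hyx S (by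
      intro m hm
      rw [hS, mem_filter] at hm
      exact hm)
    have h3 : (1 + L) / z ≤ 2 * L / (x : ℝ) ^ η :=
      div_le_div₀ (by positivity) (by linarith) (by positivity) hz
    have hxη : (0 : ℝ) < (x : ℝ) ^ η := by positivity
    calc 3 * (C : ℝ) * G * ∑ m ∈ S, (1 : ℝ) / m ≤ 3 * C * G * (2 * L / (x : ℝ) ^ η) :=
          mul_le_mul_of_nonneg_left (h2.trans h3) (by positivity)
      _ = (2 * 3 * 4 * 2 * L ^ 5) * (C / (2 * L ^ 3)) / (x : ℝ) ^ η := by
          rw [hG]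
          field_simp
      _ ≤ (x : ℝ) ^ η * (C / (2 * L ^ 3)) / (x : ℝ) ^ η := by
          apply div_le_div_of_nonneg_right _ hxη.le
          exact mul_le_mul_of_nonneg_right f4 (by positivity)
      _ = _ := by field_simp
  calc ∑ c ∈ Icc 1 C, |A c| + ∑ c ∈ Icc 1 C, ∑ m ∈ S, (G / m) * ((rho a b (c : ℕ) m : ℝ) + 1) ≤
      C / (2 * L ^ 3) + C / (2 * L ^ 3) := add_le_add hA1 hB
    _ = _ := by
        field_simp
        ring

end Pool.Agent.N792
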