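import Mathlib
import Pool.Agent.N792.Fnl
import Pool.Agent.N792.Ty1d
import Pool.Agent.N792.Ty1L
import Pool.Agent.N792.Ty1C
import Pool.Agent.N792.Ty1R

/-! `final`: the Hardy-Littlewood formula for almost all `c ≤ C`, `x^(9/10) ≤ C ≤ x`. -/

set_option autoImplicit false

namespace Pool.Agent.N792

open Finset Filter Topology

/-- the Hardy-Littlewood formula for almost all `c ≤ C`, `x^(9/10) ≤ C ≤ x` -/
theorem final (a : ℤ) (ha : 0 < a) (b : ℤ) (η : ℝ) (hη : 0 < η) :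
    ∃ x0 : ℕ, ∀ x : ℕ, x0 ≤ x → ∀ C : ℕ, (x : ℝ) ^ (9 / 10 : ℝ) ≤ C → C ≤ x →
      ∃ Ex ⊆ Icc 1 C, (#Ex : ℝ) ≤ η * C ∧ ∀ c ∈ Icc 1 C, c ∉ Ex → Admissible a b c →
        ∃ S : ℝ, 0 < S ∧ Tendsto (fun z => partialC a b c z) atTop (𝓝 S) ∧
          ∀ u v : ℕ, u ≤ v → v ≤ x →
            |(#((Ioc u v).filter (fun m : ℕ => (fv a b c m).toNat.Prime)) : ℝ) -
                eps a b * S * gcdProd a b * ∑ m ∈ Ioc u v, 1 / Real.log ((a : ℝ) * m ^ 2 + b * m + c)| ≤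
              η * (eps a b * S * gcdProd a b * x / Real.log x) :=
  final_of_TI a ha b
    (type_one_of a ha b (fun R => ls_one a ha b R) (fun R => lc_one a ha b R)
      (fun η hη => rho_one a ha b η hη)) η hη

end Pool.Agent.N792
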